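import Pool.Agent.H7.L.W907_SG_Stmts2
import Pool.Agent.H7.L.W461_SG_NIL

/-!
Project SG (owner helper907), part SG2-ADD: adding a vertex, deleting an edge, edge subdivisions.
-/

set_option autoImplicit false

namespace Pool.Agent.W338.SG

open Pool.Agent.W907.SG Pool.Agent.W461.SGN

/-! ### homomorphisms between Coxeter groups -/

section Hom
variable {U V : Type}

/-- the homomorphism induced by a map of graphs -/
noncomputable def inc (H : SimpleGraph U) (G : SimpleGraph V) (φ : U → V)
    (h : ∀ u u', H.Adj u u' → G.Adj (φ u) (φ u')) : W H →* W G :=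
  (cox H).toCoxeterSystem.lift ⟨fun u => (cox G).simple (φ u), liftable H _
    (fun u => simple_mul_self G (φ u)) (fun u u' hu => simple_comm G _ _ (h u u' hu))⟩

theorem inc_simple (H : SimpleGraph U) (G : SimpleGraph V) (φ : U → V)
    (h : ∀ u u', H.Adj u u' → G.Adj (φ u) (φ u')) (u : U) :
    inc H G φ h ((cox H).simple u) = (cox G).simple (φ u) :=
  CoxeterSystem.lift_apply_simple _ _ u

open Classical in
/-- the retraction -/
noncomputable def ret (G : SimpleGraph V) (A : Set V) : W G →* W (G.induce A) :=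
  (cox G).toCoxeterSystem.lift ⟨fun v => if h : v ∈ A then (cox (G.induce A)).simple ⟨v, h⟩ else 1,
    liftable G _ (fun v => by
      by_cases h : v ∈ A
      · rw [dif_pos h]; exact simple_mul_self _ _
      · rw [dif_neg h, mul_one]) (fun u v huv => by
      by_cases h : u ∈ A
      · by_cases h' : v ∈ A
        · rw [dif_pos h, dif_pos h']
          exact simple_comm (G.induce A) ⟨u, h⟩ ⟨v, h'⟩ huv
        · rw [dif_neg h', mul_one, one_mul]
      · rw [dif_neg h, mul_one, one_mul])⟩

theorem ret_simple (G : SimpleGraph V) (A : Set V) (u : A) :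
    ret G A ((cox G).simple (u : V)) = (cox (G.induce A)).simple u := by
  classical
  refine (CoxeterSystem.lift_apply_simple _ _ (u : V)).trans ?_
  exact dif_pos u.2

/-- the inclusion of a standard subgroup -/
noncomputable def inA (G : SimpleGraph V) (A : Set V) : W (G.induce A) →* W G :=
  inc (G.induce A) G (fun u => (u : V)) (fun _ _ h => h)

theorem inA_simple (G : SimpleGraph V) (A : Set V) (u : A) :
    inA G A ((cox (G.induce A)).simple u) = (cox G).simple (u : V) := inc_simple _ _ _ _ u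

theorem inA_ne (G : SimpleGraph V) (A : Set V) {g : W (G.induce A)} (hg : g ≠ 1) :
    inA G A g ≠ 1 := by
  intro h
  apply hg
  have h1 : (ret G A).comp (inA G A) = MonoidHom.id _ := by
    refine (cox (G.induce A)).toCoxeterSystem.ext_simple fun u => ?_
    show ret G A (inA G A ((cox (G.induce A)).simple u)) = (cox (G.induce A)).simple u
    rw [inA_simple, ret_simple]
  have h2 := congrArg (fun f => f g) h1
  simp only [MonoidHom.comp_apply, MonoidHom.id_apply] at h2
  rw [← h2, h, map_one]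

end Hom

/-- smallness of the Betti numbers of full subcomplexes -/
theorem small_restrict (hS : S_SMALL) (hTR : S_TR) {V : Type} [Fintype V] [LinearOrder V]
    (G : SimpleGraph V) (A : Set V) [Fintype A] (i : ℕ) (hL : L2Van (G.induce A) i) (N : ℕ) :
    ∃ E : Finset (W G), (1 : W G) ∉ E ∧ ∀ (X : Type) [Fintype X] (a : V → X → X)
      (ev : X → W G → X), (∀ v x, a v (a v x) = x) →
      (∀ u v, G.Adj u v → ∀ x, a u (a v x) = a v (a u x)) →
      (∀ x, ev x 1 = x) → (∀ x g h, ev x (g * h) = ev (ev x g) h) →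
      (∀ x v, ev x ((cox G).simple v) = a v x) →
      (∀ g ∈ E, ∀ x, ev x g ≠ x) → N * beta G (pull ℝ a) A ∅ i ≤ Fintype.card X := by
  classical
  obtain ⟨E1, h1, h2⟩ := hS A (G.induce A) i hL N
  refine ⟨E1.image (inA G A), fun h => ?_, fun X _ a ev k1 k2 k3 k4 k5 k6 => ?_⟩
  · obtain ⟨g, hg, hg'⟩ := Finset.mem_image.1 h
    exact inA_ne G A (fun he => h1 (he ▸ hg)) hg'
  · have h3 := hTR A V ℝ (X → ℝ) G (G.induce A) (pull ℝ a) (fun u => (u : V))
      (Subtype.strictMono_coe _) (fun u u' => Iff.rfl) i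
    rw [Subtype.range_coe] at h3
    rw [h3]
    refine h2 X (fun u => a (u : V)) (fun x g => ev x (inA G A g)) (fun v x => k1 _ x)
      (fun u v huv x => k2 _ _ huv x) (fun x => ?_) (fun x g h => ?_) (fun x v => ?_)
      (fun g hg x => k6 _ (Finset.mem_image_of_mem _ hg) x)
    · rw [map_one, k3]
    · rw [map_mul, k4]
    · rw [inA_simple, k5]

theorem ins_compl {V : Type} (v : V) : insert v ({v}ᶜ : Set V) = Set.univ := by
  ext u
  simp only [Set.mem_insert_iff, Set.mem_compl_iff, Set.mem_singleton_iff, Set.mem_univ,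
    iff_true]
  exact em _

/-- the arithmetic -/
theorem arith {N b b1 b2 c : ℕ} (h : b ≤ b1 + b2) (h1 : 2 * N * b1 ≤ c) (h2 : 2 * N * b2 ≤ c) :
    N * b ≤ c := by
  have h3 : N * b ≤ N * (b1 + b2) := Nat.mul_le_mul_left N h
  have h4 : 2 * (N * (b1 + b2)) = 2 * N * b1 + 2 * N * b2 := by ring
  omega

theorem l2add (hS : S_SMALL) (hTR : S_TR) (hV : S_VERT) (hEig : S_EIG) (hN : S_NILP)
    (hLg : S_LARGE) : S_L2ADD := by
  classical
  intro V _ _ G v _ _ i h1 h2
  refine hLg V G i fun N E hE => ?_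
  have : Fact (Nat.Prime 3) := ⟨Nat.prime_three⟩
  cases i with
  | zero =>
    obtain ⟨E1, hE1, hX1⟩ := small_restrict hS hTR G {v}ᶜ 0 h1 N
    obtain ⟨Y, _, _, P, ev, e1, e2, e3, e4⟩ := hN 3 V G (E ∪ E1) (by decide) (by
      rw [Finset.mem_union]; exact fun h => h.elim hE hE1)
    refine ⟨Y, inferInstance, inferInstance, P.a, ev, P.inv, P.comm, e1, e2, e3,
      fun g hg => e4 g (Finset.mem_union_left _ hg), ?_⟩
    have b1 := (hV V ℝ (Y → ℝ) G (pull ℝ P.a) {v}ᶜ ∅ v (by simp) (by simp)).1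
    rw [ins_compl] at b1
    exact (Nat.mul_le_mul_left N b1).trans (hX1 Y P.a ev P.inv P.comm e1 e2 e3
      (fun g hg => e4 g (Finset.mem_union_right _ hg)))
  | succ j =>
    obtain ⟨E1, hE1, hX1⟩ := small_restrict hS hTR G {v}ᶜ (j + 1) h1 (2 * N)
    obtain ⟨E2, hE2, hX2⟩ := small_restrict hS hTR G (G.neighborSet v) j (h2 j rfl) (2 * N)
    obtain ⟨Y, _, _, P, ev, e1, e2, e3, e4⟩ := hN 3 V G (E ∪ (E1 ∪ E2)) (by decide) (by
      rw [Finset.mem_union, Finset.mem_union]
      exact fun h => h.elim hE fun h => h.elim hE1 hE2)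
    refine ⟨Y, inferInstance, inferInstance, P.a, ev, P.inv, P.comm, e1, e2, e3,
      fun g hg => e4 g (Finset.mem_union_left _ hg), ?_⟩
    have b1 := (hV V ℝ (Y → ℝ) G (pull ℝ P.a) {v}ᶜ ∅ v (by simp) (by simp)).2 j
    rw [ins_compl] at b1
    have hA : ({v}ᶜ : Set V) ∩ G.neighborSet v = G.neighborSet v := by
      ext u
      simp only [Set.mem_inter_iff, Set.mem_compl_iff, Set.mem_singleton_iff,
        SimpleGraph.mem_neighborSet, and_iff_right_iff_imp]
      intro h hu
      exact h.ne hu.symm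
    rw [hA] at b1
    have b2 := hEig V ℝ (Y → ℝ) G (pull ℝ P.a) (G.neighborSet v) ∅ v (by norm_num)
      (fun m => by
        funext x
        rw [pull_apply, pull_apply, P.inv])
      (fun u hu m => by
        have hu' : G.Adj u v := by
          rcases hu with hu | hu
          · exact ((G.mem_neighborSet v u).1 hu).symm
          · exact absurd hu (by simp)
        funext x
        rw [pull_apply, pull_apply, pull_apply, pull_apply, P.comm u v hu']) j
    refine arith (b1.trans (Nat.add_le_add_left b2 _)) ?_ ?_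
    · exact hX1 Y P.a ev P.inv P.comm e1 e2 e3 (fun g hg => e4 g (Finset.mem_union_right _
        (Finset.mem_union_left _ hg)))
    · exact hX2 Y P.a ev P.inv P.comm e1 e2 e3 (fun g hg => e4 g (Finset.mem_union_right _
        (Finset.mem_union_right _ hg)))

/-- a finite set with small Betti number after deleting an edge -/
theorem del_exists (hS : S_SMALL) (hTR : S_TR) (hEd : S_EDGE) (hEig : S_EIG) (hN : S_NILP)
    {V : Type} [Fintype V] [LinearOrder V] (G : SimpleGraph V) (s t : V)
    [Fintype ↥(G.neighborSet s ∩ G.neighborSet t)] (i : ℕ) (hst : G.Adj s t)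
    (h1 : L2Van G i)
    (h2 : ∀ j, i = j + 1 → L2Van (G.induce (G.neighborSet s ∩ G.neighborSet t)) j) (N : ℕ) :
    ∃ (Y : Type) (_ : Fintype Y) (_ : Nonempty Y) (P : PSet 3 G Y) (ev : Y → W G → Y),
      (∀ y, ev y 1 = y) ∧ (∀ y g h, ev y (g * h) = ev (ev y g) h) ∧
      (∀ y v, ev y ((cox G).simple v) = P.a v y) ∧
      N * beta (G.deleteEdges {s(s, t)}) (pull ℝ P.a) Set.univ ∅ i ≤ Fintype.card Y := by
  classical
  have : Fact (Nat.Prime 3) := ⟨Nat.prime_three⟩
  obtain ⟨E1, hE1, hX1⟩ := hS V G i h1 (2 * N)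
  cases i with
  | zero =>
    obtain ⟨Y, _, _, P, ev, e1, e2, e3, e4⟩ := hN 3 V G E1 (by decide) hE1
    refine ⟨Y, inferInstance, inferInstance, P, ev, e1, e2, e3, ?_⟩
    have b1 := (hEd V ℝ (Y → ℝ) G (pull ℝ P.a) s t hst).1
    refine (Nat.mul_le_mul_left N b1).trans ?_
    have b2 := hX1 Y P.a ev P.inv P.comm e1 e2 e3 e4
    rw [mul_assoc] at b2
    omega
  | succ j =>
    obtain ⟨E2, hE2, hX2⟩ := small_restrict hS hTR G (G.neighborSet s ∩ G.neighborSet t) j
      (h2 j rfl) (2 * N)
    obtain ⟨Y, _, _, P, ev, e1, e2, e3, e4⟩ := hN 3 V G (E1 ∪ E2) (by decide) (by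
      rw [Finset.mem_union]; exact fun h => h.elim hE1 hE2)
    refine ⟨Y, inferInstance, inferInstance, P, ev, e1, e2, e3, ?_⟩
    have b1 := (hEd V ℝ (Y → ℝ) G (pull ℝ P.a) s t hst).2 j
    have hinv : ∀ v, ∀ m : Y → ℝ, pull ℝ P.a v (pull ℝ P.a v m) = m := fun v m => by
      funext x
      rw [pull_apply, pull_apply, P.inv]
    have hcomm : ∀ u v, G.Adj u v → ∀ m : Y → ℝ,
        pull ℝ P.a u (pull ℝ P.a v m) = pull ℝ P.a v (pull ℝ P.a u m) := fun u v h m => by
      funext x
      rw [pull_apply, pull_apply, pull_apply, pull_apply, P.comm u v h]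
    have b2 := hEig V ℝ (Y → ℝ) G (pull ℝ P.a) (G.neighborSet s ∩ G.neighborSet t) {t} s
      (by norm_num) (hinv s) (fun u hu m => by
        rcases hu with hu | hu
        · exact hcomm u s ((G.mem_neighborSet s u).1 hu.1).symm m
        · rw [Set.mem_singleton_iff.1 hu]
          exact hcomm t s hst.symm m) j
    have b3 := hEig V ℝ (Y → ℝ) G (pull ℝ P.a) (G.neighborSet s ∩ G.neighborSet t) ∅ t
      (by norm_num) (hinv t) (fun u hu m => by
        rcases hu with hu | hu
        · exact hcomm u t ((G.mem_neighborSet t u).1 hu.2).symm m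
        · exact absurd hu (by simp)) j
    have e5 : (insert t (∅ : Set V)) = {t} := by simp
    rw [e5] at b3
    refine arith (b1.trans (Nat.add_le_add_left (b2.trans b3) _)) ?_ ?_
    · exact hX1 Y P.a ev P.inv P.comm e1 e2 e3 (fun g hg => e4 g
        (Finset.mem_union_left _ hg))
    · exact hX2 Y P.a ev P.inv P.comm e1 e2 e3 (fun g hg => e4 g
        (Finset.mem_union_right _ hg))

theorem l2del (hS : S_SMALL) (hTR : S_TR) (hEd : S_EDGE) (hEig : S_EIG) (hN : S_NILP)
    (hLg : S_LARGE) (hCh : S_CHAR) (hML : S_MLP) : S_L2DEL := by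
  classical
  intro V _ _ G s t _ i hst h1 h2
  refine hLg V (G.deleteEdges {s(s, t)}) i fun N E hE => ?_
  obtain ⟨X, _, _, P, ev, e1, e2, e3, e4⟩ := del_exists hS hTR hEd hEig hN G s t i hst h1 h2 N
  have hle : ∀ u v, (G.deleteEdges {s(s, t)}).Adj u v → G.Adj u v := fun u v h =>
    SimpleGraph.deleteEdges_le _ h
  have hcomm : ∀ u v, (G.deleteEdges {s(s, t)}).Adj u v → ∀ x, P.a u (P.a v x) =
      P.a v (P.a u x) := fun u v h => P.comm u v (hle u v h)
  obtain ⟨-, P0, hP0⟩ := hCh V X (G.deleteEdges {s(s, t)}) P.a P.sgn P.inv hcomm P.sgn_self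
    P.sgn_other i
  obtain ⟨p, hp, hpp⟩ := Nat.exists_infinite_primes (max P0 3)
  have : Fact p.Prime := ⟨hpp⟩
  have hp2 : p ≠ 2 := by
    have := (le_max_right P0 3).trans hp
    omega
  obtain ⟨Y, _, _, Q, ev', f1, f2, f3, f4⟩ := hN p V (G.deleteEdges {s(s, t)}) E hp2 hE
  refine ⟨X × Y, inferInstance, inferInstance, fun v z => (P.a v z.1, Q.a v z.2),
    fun z g => (ev z.1 (inc (G.deleteEdges {s(s, t)}) G id hle g), ev' z.2 g),
    fun v z => ?_, fun u v h z => ?_, fun z => ?_, fun z g h => ?_, fun z v => ?_,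
    fun g hg z => ?_, ?_⟩
  · simp only [P.inv, Q.inv]
  · simp only [hcomm u v h, Q.comm u v h]
  · simp only [map_one, e1, f1]
  · simp only [map_mul, e2, f2]
  · simp only [inc_simple, e3, f3, id]
  · intro h
    exact f4 g hg z.2 (congrArg Prod.snd h)
  · have c1 := (hCh V (X × Y) (G.deleteEdges {s(s, t)}) (fun v z => (P.a v z.1, Q.a v z.2))
      (fun v z => P.sgn v z.1) (fun v z => by simp only [P.inv, Q.inv])
      (fun u v h z => by simp only [hcomm u v h, Q.comm u v h])
      (fun v z => P.sgn_self v z.1) (fun u v h z => P.sgn_other u v h z.1) i).1 p hp2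
    have c2 := hML p V X Y (G.deleteEdges {s(s, t)}) P.a P.sgn Q.a hp2 P.inv hcomm P.sgn_self
      P.sgn_other Q.inv Q.comm Q.ptype i
    have c3 := hP0 p ((le_max_left P0 3).trans hp)
    rw [Fintype.card_prod]
    calc _ ≤ N * (Fintype.card Y *
          beta (G.deleteEdges {s(s, t)}) (pull ℝ P.a) Set.univ ∅ i) :=
          Nat.mul_le_mul_left N (c1.trans (c2.trans (Nat.mul_le_mul_left _ c3)))
      _ = (N * beta (G.deleteEdges {s(s, t)}) (pull ℝ P.a) Set.univ ∅ i) *
          Fintype.card Y := by ring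
      _ ≤ _ := Nat.mul_le_mul_right _ e4

theorem l2sub (hAdd : S_L2ADD) (hDel : S_L2DEL) (hOrd : S_ORD) (hSus : S_SUSP) (hFin : S_FIN) :
    S_L2SUB := by
  classical
  intro V _ _ G s t _ _ i hst h1 h2
  have h3 := hDel V G s t i hst h1 h2
  letI i1 : Fintype ↥({(none : Option V)}ᶜ : Set (Option V)) := Fintype.ofFinite _
  letI i2 : Fintype ↥((esub G s t).neighborSet none) := Fintype.ofFinite _
  refine hAdd (Option V) (esub G s t) none i ?_ fun j _ => ?_
  · refine hOrd V _ inferInstance i1 inferInstance inferInstance (G.deleteEdges {s(s, t)}) _ i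
      ⟨?_⟩ h3
    refine ⟨⟨fun v => ⟨some v, by simp⟩, fun x => (x : Option V).get (by
      have := x.2
      rw [Set.mem_compl_iff, Set.mem_singleton_iff] at this
      exact Option.isSome_iff_ne_none.2 this), fun v => rfl, fun x => Subtype.ext (by simp)⟩, ?_⟩
    intro a b
    show (esub G s t).Adj (some a) (some b) ↔ (G.deleteEdges {s(s, t)}).Adj a b
    rw [SimpleGraph.deleteEdges_adj]
    show (G.Adj a b ∧ ¬ (a = s ∧ b = t) ∧ ¬ (a = t ∧ b = s)) ↔ _
    rw [Set.mem_singleton_iff, Sym2.eq_iff]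
    tauto
  · refine hFin _ _ j ?_
    refine hSus ↥((esub G s t).neighborSet none) _ ⟨some s, Or.inl rfl⟩
      ⟨some t, Or.inr (Or.inl rfl)⟩ j ?_ ?_ ?_
    · intro h
      have := Option.some_injective _ (congrArg Subtype.val h)
      exact hst.ne this
    · intro h
      have h4 : (esub G s t).Adj (some s) (some t) := h
      exact h4.2.1 ⟨rfl, rfl⟩
    · rintro ⟨u, hu⟩ hus hut
      rcases u with _ | a
      · exact absurd hu ((esub G s t).loopless.irrefl none)
      · have hus' : a ≠ s := fun h => hus (Subtype.ext (congrArg some h))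
        have hut' : a ≠ t := fun h => hut (Subtype.ext (congrArg some h))
        have hu' : a = s ∨ a = t ∨ (G.Adj a s ∧ G.Adj a t) := hu
        have hu2 : G.Adj a s ∧ G.Adj a t := by tauto
        constructor
        · show G.Adj a s ∧ ¬ (a = s ∧ s = t) ∧ ¬ (a = t ∧ s = s)
          tauto
        · show G.Adj a t ∧ ¬ (a = s ∧ t = t) ∧ ¬ (a = t ∧ t = s)
          tauto

end Pool.Agent.W338.SG
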