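import Pool.Agent.H7.L.W907_SG_Stmts2

set_option autoImplicit false

/-!
# Small nullities on finite sets from the absence of an `ℓ²` kernel (project SG of helper907)
-/

namespace Pool.Agent.W15.SG

open Pool.Agent.W907.SG Module Filter Topology

noncomputable section

/-! ### the inner product of finitely supported functions -/

section ip

variable {I : Type}

/-- inner product -/
def ip (u v : I →₀ ℝ) : ℝ := Finsupp.linearCombination ℝ (fun i => v i) u

theorem ip_eq (u v : I →₀ ℝ) : ip u v = u.sum (fun i a => a * v i) := by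
  simp [ip, Finsupp.linearCombination_apply]

theorem ip_eq_sum (u v : I →₀ ℝ) (S : Finset I) (h : u.support ⊆ S) :
    ip u v = ∑ i ∈ S, u i * v i := by
  rw [ip_eq, Finsupp.sum_of_support_subset _ h]
  simp

theorem ip_comm (u v : I →₀ ℝ) : ip u v = ip v u := by
  classical
  rw [ip_eq_sum u v (u.support ∪ v.support) Finset.subset_union_left,
    ip_eq_sum v u (u.support ∪ v.support) Finset.subset_union_right]
  exact Finset.sum_congr rfl fun i _ => mul_comm _ _

theorem ip_add_left (u u' v : I →₀ ℝ) : ip (u + u') v = ip u v + ip u' v := by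
  simp [ip]

theorem ip_sub_left (u u' v : I →₀ ℝ) : ip (u - u') v = ip u v - ip u' v := by
  simp [ip]

theorem ip_smul_left (a : ℝ) (u v : I →₀ ℝ) : ip (a • u) v = a * ip u v := by
  simp [ip]

theorem ip_sub_right (u v v' : I →₀ ℝ) : ip u (v - v') = ip u v - ip u v' := by
  rw [ip_comm, ip_sub_left, ip_comm v, ip_comm v']

theorem ip_smul_right (a : ℝ) (u v : I →₀ ℝ) : ip u (a • v) = a * ip u v := by
  rw [ip_comm, ip_smul_left, ip_comm]

theorem ip_single_left (i : I) (a : ℝ) (v : I →₀ ℝ) : ip (Finsupp.single i a) v = a * v i := by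
  simp [ip]

theorem ip_single_right (i : I) (a : ℝ) (v : I →₀ ℝ) : ip v (Finsupp.single i a) = a * v i := by
  rw [ip_comm, ip_single_left]

theorem nrm_eq (u : I →₀ ℝ) (S : Finset I) (h : u.support ⊆ S) :
    ip u u = ∑ i ∈ S, u i ^ 2 := by
  rw [ip_eq_sum u u S h]
  exact Finset.sum_congr rfl fun i _ => (sq _).symm

theorem nrm_nonneg (u : I →₀ ℝ) : 0 ≤ ip u u := by
  rw [nrm_eq u _ subset_rfl]
  exact Finset.sum_nonneg fun i _ => sq_nonneg _

theorem sum_sq_le (u : I →₀ ℝ) (S : Finset I) : ∑ i ∈ S, u i ^ 2 ≤ ip u u := by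
  classical
  rw [nrm_eq u (u.support ∪ S) Finset.subset_union_left]
  exact Finset.sum_le_sum_of_subset_of_nonneg Finset.subset_union_right fun i _ _ => sq_nonneg _

theorem sq_le_nrm (u : I →₀ ℝ) (i : I) : u i ^ 2 ≤ ip u u := by
  simpa using sum_sq_le u {i}

end ip

/-! ### local operators -/

section ops

variable {Γ 𝓣 𝓣' J : Type} [Group Γ] [Fintype 𝓣] [Fintype 𝓣'] [Fintype J]
  (γ : J → Γ) (b : J → 𝓣' → 𝓣 → ℤ)

/-- columns of `B` -/
def Bcol {X : Type} (act : X → Γ → X) (p : X × 𝓣) : X × 𝓣' →₀ ℝ :=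
  ∑ j, ∑ τ', (b j τ' p.2 : ℝ) • Finsupp.single (act p.1 (γ j)⁻¹, τ') 1

/-- columns of the transpose -/
def Btcol {X : Type} (act : X → Γ → X) (q : X × 𝓣') : X × 𝓣 →₀ ℝ :=
  ∑ j, ∑ τ, (b j q.2 τ : ℝ) • Finsupp.single (act q.1 (γ j), τ) 1

/-- `B` -/
def opB {X : Type} (act : X → Γ → X) : (X × 𝓣 →₀ ℝ) →ₗ[ℝ] (X × 𝓣' →₀ ℝ) :=
  Finsupp.linearCombination ℝ (Bcol γ b act)

/-- the transpose -/
def opBt {X : Type} (act : X → Γ → X) : (X × 𝓣' →₀ ℝ) →ₗ[ℝ] (X × 𝓣 →₀ ℝ) :=
  Finsupp.linearCombination ℝ (Btcol γ b act)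

/-- `T = 1 - Bᵀ B / C` -/
def opT (C : ℝ) {X : Type} (act : X → Γ → X) : (X × 𝓣 →₀ ℝ) →ₗ[ℝ] (X × 𝓣 →₀ ℝ) :=
  LinearMap.id - C⁻¹ • (opBt γ b act).comp (opB γ b act)

theorem opT_apply (C : ℝ) {X : Type} (act : X → Γ → X) (u : X × 𝓣 →₀ ℝ) :
    opT γ b C act u = u - C⁻¹ • opBt γ b act (opB γ b act u) := rfl

variable {X : Type} {act : X → Γ → X} (h1 : ∀ x, act x 1 = x)
  (h2 : ∀ x g h, act x (g * h) = act (act x g) h)

include h1 h2 in
theorem act_inv_eq (x y : X) (g : Γ) : act x g⁻¹ = y ↔ act y g = x := by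
  constructor
  · rintro rfl
    rw [← h2, inv_mul_cancel, h1]
  · rintro rfl
    rw [← h2, mul_inv_cancel, h1]

include h1 h2 in
theorem col_symm (p : X × 𝓣) (q : X × 𝓣') : Bcol γ b act p q = Btcol γ b act q p := by
  classical
  obtain ⟨x, τ⟩ := p
  obtain ⟨y, τ'⟩ := q
  simp only [Bcol, Btcol, Finsupp.finsetSum_apply, Finsupp.smul_apply, smul_eq_mul,
    Finsupp.single_apply, Prod.mk.injEq]
  refine Finset.sum_congr rfl fun j _ => ?_
  rw [Finset.sum_eq_single τ', Finset.sum_eq_single τ]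
  · simp only [and_true, act_inv_eq h1 h2]
  · intro σ _ hσ; simp [hσ]
  · intro h; exact absurd (Finset.mem_univ _) h
  · intro σ _ hσ; simp [hσ]
  · intro h; exact absurd (Finset.mem_univ _) h

include h1 h2 in
theorem adj (u : X × 𝓣 →₀ ℝ) (v : X × 𝓣' →₀ ℝ) :
    ip (opB γ b act u) v = ip u (opBt γ b act v) := by
  induction u using Finsupp.induction_linear with
  | zero => simp [ip]
  | add u u' hu hu' => rw [map_add, ip_add_left, ip_add_left, hu, hu']
  | single p a =>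
    rw [ip_single_left]
    induction v using Finsupp.induction_linear with
    | zero => rw [map_zero, ip_comm]; simp [ip]
    | add v v' hv hv' =>
      rw [ip_comm, ip_add_left, ip_comm v, ip_comm v', hv, hv', map_add, Finsupp.add_apply]
      ring
    | single q c =>
      rw [ip_single_right]
      simp only [opB, opBt, Finsupp.linearCombination_single, Finsupp.smul_apply, smul_eq_mul]
      rw [col_symm γ b h1 h2]
      ring

include h1 h2 in
theorem adjT (C : ℝ) (u v : X × 𝓣 →₀ ℝ) :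
    ip (opT γ b C act u) v = ip u (opT γ b C act v) := by
  rw [opT_apply, opT_apply, ip_sub_left, ip_sub_right, ip_smul_left, ip_smul_right]
  rw [← adj γ b h1 h2 u, ip_comm (opBt γ b act _) v, ← adj γ b h1 h2 v, ip_comm (opB γ b act v)]

include h1 h2 in
theorem adjTpow (C : ℝ) (m : ℕ) (u v : X × 𝓣 →₀ ℝ) :
    ip ((opT γ b C act ^ m) u) v = ip u ((opT γ b C act ^ m) v) := by
  induction m generalizing u v with
  | zero => rfl
  | succ m ih =>
    have e1 : (opT γ b C act ^ (m + 1)) u = (opT γ b C act ^ m) (opT γ b C act u) := by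
      rw [pow_succ, Module.End.mul_apply]
    have e2 : (opT γ b C act ^ (m + 1)) v = opT γ b C act ((opT γ b C act ^ m) v) := by
      rw [pow_succ', Module.End.mul_apply]
    rw [e1, e2, ih, adjT γ b h1 h2]

include h1 h2 in
theorem opB_eval (u : X × 𝓣 →₀ ℝ) (x : X) (τ' : 𝓣') :
    opB γ b act u (x, τ') = ∑ j, ∑ τ, (b j τ' τ : ℝ) * u (act x (γ j), τ) := by
  classical
  have h := adj γ b h1 h2 u (Finsupp.single (x, τ') 1)
  rw [ip_single_right, one_mul] at h
  rw [h]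
  simp only [opBt, Finsupp.linearCombination_single, one_smul, Btcol]
  rw [ip_comm]
  simp only [ip, map_sum, map_smul, Finsupp.linearCombination_single, one_smul, smul_eq_mul,
    one_mul]

include h1 h2 in
theorem opBt_eval (v : X × 𝓣' →₀ ℝ) (x : X) (τ : 𝓣) :
    opBt γ b act v (x, τ) = ∑ j, ∑ τ', (b j τ' τ : ℝ) * v (act x (γ j)⁻¹, τ') := by
  classical
  have h := adj γ b h1 h2 (Finsupp.single (x, τ) 1) v
  rw [ip_single_left, one_mul] at h
  rw [← h]
  simp only [opB, Finsupp.linearCombination_single, one_smul, Bcol]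
  simp only [ip, map_sum, map_smul, Finsupp.linearCombination_single, one_smul, smul_eq_mul,
    one_mul]

include h1 h2 in
theorem opBt_bound : ∃ C : ℝ, 0 < C ∧ ∀ v : X × 𝓣' →₀ ℝ,
    ip (opBt γ b act v) (opBt γ b act v) ≤ C * ip v v := by
  classical
  set β : ℝ := ∑ τ : 𝓣, ∑ p : J × 𝓣', ((b p.1 p.2 τ : ℝ)) ^ 2 with hβ
  have hβ0 : 0 ≤ β := Finset.sum_nonneg fun _ _ => Finset.sum_nonneg fun _ _ => sq_nonneg _
  refine ⟨β * Fintype.card J * Fintype.card 𝓣 + 1, by positivity, fun v => ?_⟩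
  set w := opBt γ b act v with hw
  set S : Finset X := w.support.image Prod.fst with hS
  have hsub : w.support ⊆ S ×ˢ (Finset.univ : Finset 𝓣) := by
    intro p hp
    rw [Finset.mem_product]
    exact ⟨Finset.mem_image_of_mem _ hp, Finset.mem_univ _⟩
  rw [nrm_eq w _ hsub, Finset.sum_product]
  have key : ∀ (j : J), ∑ x ∈ S, ∑ τ' : 𝓣', v (act x (γ j)⁻¹, τ') ^ 2 ≤ ip v v := by
    intro j
    rw [← Finset.sum_product']
    have hinj : Set.InjOn (fun p : X × 𝓣' => (act p.1 (γ j)⁻¹, p.2))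
        ((S ×ˢ (Finset.univ : Finset 𝓣') : Finset (X × 𝓣')) : Set (X × 𝓣')) := by
      rintro ⟨x, σ⟩ _ ⟨y, σ'⟩ _ h
      simp only [Prod.mk.injEq] at h
      have h3 := (act_inv_eq h1 h2 _ _ _).1 h.1
      have h4 := (act_inv_eq h1 h2 y _ (γ j)).1 rfl
      rw [h3] at h4
      rw [h4, h.2]
    have hsi : ∑ q ∈ (S ×ˢ (Finset.univ : Finset 𝓣')).image
        (fun p : X × 𝓣' => (act p.1 (γ j)⁻¹, p.2)), v q ^ 2 =
        ∑ p ∈ S ×ˢ (Finset.univ : Finset 𝓣'), v (act p.1 (γ j)⁻¹, p.2) ^ 2 :=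
      Finset.sum_image (f := fun q : X × 𝓣' => v q ^ 2) hinj
    exact (le_of_eq hsi.symm).trans (sum_sq_le _ _)
  calc ∑ x ∈ S, ∑ τ, w (x, τ) ^ 2
      ≤ ∑ x ∈ S, ∑ τ, (∑ p : J × 𝓣', ((b p.1 p.2 τ : ℝ)) ^ 2) *
          (∑ p : J × 𝓣', v (act x (γ p.1)⁻¹, p.2) ^ 2) := by
        refine Finset.sum_le_sum fun x _ => Finset.sum_le_sum fun τ _ => ?_
        rw [hw, opBt_eval γ b h1 h2]
        have : ∑ j, ∑ τ', (b j τ' τ : ℝ) * v (act x (γ j)⁻¹, τ') =
            ∑ p : J × 𝓣', (b p.1 p.2 τ : ℝ) * v (act x (γ p.1)⁻¹, p.2) := by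
          rw [Fintype.sum_prod_type]
        rw [this]
        exact Finset.sum_mul_sq_le_sq_mul_sq Finset.univ
          (fun p : J × 𝓣' => (b p.1 p.2 τ : ℝ)) (fun p : J × 𝓣' => v (act x (γ p.1)⁻¹, p.2))
    _ = β * ∑ x ∈ S, ∑ p : J × 𝓣', v (act x (γ p.1)⁻¹, p.2) ^ 2 := by
        rw [Finset.mul_sum]
        refine Finset.sum_congr rfl fun x _ => ?_
        rw [hβ, Finset.sum_mul]
    _ = β * ∑ j, ∑ x ∈ S, ∑ τ' : 𝓣', v (act x (γ j)⁻¹, τ') ^ 2 := by
        have hc : ∑ j, ∑ x ∈ S, ∑ τ' : 𝓣', v (act x (γ j)⁻¹, τ') ^ 2 =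
            ∑ x ∈ S, ∑ j, ∑ τ' : 𝓣', v (act x (γ j)⁻¹, τ') ^ 2 := Finset.sum_comm
        rw [hc]
        simp only [Fintype.sum_prod_type]
    _ ≤ β * ∑ _j : J, ip v v :=
        mul_le_mul_of_nonneg_left (Finset.sum_le_sum fun j _ => key j) hβ0
    _ = β * Fintype.card J * ip v v := by
        rw [Finset.sum_const, Finset.card_univ, nsmul_eq_mul]; ring
    _ ≤ (β * Fintype.card J * Fintype.card 𝓣 + 1) * ip v v := by
        apply mul_le_mul_of_nonneg_right _ (nrm_nonneg v)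
        rcases Nat.eq_zero_or_pos (Fintype.card 𝓣) with h | h
        · have : IsEmpty 𝓣 := Fintype.card_eq_zero_iff.1 h
          have : β = 0 := by simp [hβ]
          rw [this]; simp
        · have h' : (1 : ℝ) ≤ Fintype.card 𝓣 := by exact_mod_cast h
          have h5 : 0 ≤ β * Fintype.card J := by positivity
          nlinarith

include h1 h2 in
theorem decay {C : ℝ} (hC : 0 < C) (hb : ∀ v : X × 𝓣' →₀ ℝ,
    ip (opBt γ b act v) (opBt γ b act v) ≤ C * ip v v) (u : X × 𝓣 →₀ ℝ) :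
    ip (opT γ b C act u) (opT γ b C act u) ≤
      ip u u - C⁻¹ * ip (opB γ b act u) (opB γ b act u) := by
  set w := opBt γ b act (opB γ b act u) with hw
  have e1 : ip u w = ip (opB γ b act u) (opB γ b act u) := (adj γ b h1 h2 u _).symm
  have e2 : ip w w ≤ C * ip (opB γ b act u) (opB γ b act u) := hb _
  rw [opT_apply, ip_sub_left, ip_sub_right, ip_sub_right, ip_smul_left, ip_smul_left,
    ip_smul_right, ip_smul_right, ip_comm w u, e1]
  have hC' : 0 < C⁻¹ := inv_pos.2 hC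
  have e3 : C⁻¹ * (C⁻¹ * ip w w) ≤ C⁻¹ * ip (opB γ b act u) (opB γ b act u) := by
    apply mul_le_mul_of_nonneg_left _ hC'.le
    rw [inv_mul_le_iff₀ hC]
    exact e2
  linarith

/-! ### naturality -/

/-- orbit map -/
def orb (x : X) (act : X → Γ → X) {𝓤 : Type} (p : Γ × 𝓤) : X × 𝓤 := (act x p.1, p.2)

include h2 in
theorem nat_B (x : X) (u : Γ × 𝓣 →₀ ℝ) :
    Finsupp.mapDomain (orb x act) (opB γ b (fun g h : Γ => g * h) u) =
      opB γ b act (Finsupp.mapDomain (orb x act) u) := by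
  induction u using Finsupp.induction_linear with
  | zero => simp
  | add u u' hu hu' => rw [map_add, Finsupp.mapDomain_add, hu, hu', Finsupp.mapDomain_add, map_add]
  | single p a =>
    simp only [opB, Finsupp.linearCombination_single, Finsupp.mapDomain_single,
      Finsupp.mapDomain_smul, Bcol, Finsupp.mapDomain_finsetSum, orb, h2]

include h2 in
theorem nat_Bt (x : X) (u : Γ × 𝓣' →₀ ℝ) :
    Finsupp.mapDomain (orb x act) (opBt γ b (fun g h : Γ => g * h) u) =
      opBt γ b act (Finsupp.mapDomain (orb x act) u) := by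
  induction u using Finsupp.induction_linear with
  | zero => simp
  | add u u' hu hu' => rw [map_add, Finsupp.mapDomain_add, hu, hu', Finsupp.mapDomain_add, map_add]
  | single p a =>
    simp only [opBt, Finsupp.linearCombination_single, Finsupp.mapDomain_single,
      Finsupp.mapDomain_smul, Btcol, Finsupp.mapDomain_finsetSum, orb, h2]

include h2 in
theorem nat_T (C : ℝ) (x : X) (m : ℕ) (u : Γ × 𝓣 →₀ ℝ) :
    Finsupp.mapDomain (orb x act) ((opT γ b C (fun g h : Γ => g * h) ^ m) u) =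
      (opT γ b C act ^ m) (Finsupp.mapDomain (orb x act) u) := by
  induction m generalizing u with
  | zero => rfl
  | succ m ih =>
    rw [pow_succ, Module.End.mul_apply, ih, pow_succ, Module.End.mul_apply]
    congr 1
    rw [opT_apply, opT_apply, ← nat_B γ b h2, ← nat_Bt γ b h2]
    have : ∀ (s t : Γ × 𝓣 →₀ ℝ), Finsupp.mapDomain (orb x act) (s - t) =
        Finsupp.mapDomain (orb x act) s - Finsupp.mapDomain (orb x act) t := fun s t =>
      map_sub (Finsupp.mapDomain.addMonoidHom (orb x act)) s t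
    rw [this, Finsupp.mapDomain_smul]

theorem nrm_mapDomain {I I' : Type} (f : I → I') (u : I →₀ ℝ) (hf : Set.InjOn f u.support) :
    ip (Finsupp.mapDomain f u) (Finsupp.mapDomain f u) = ip u u := by
  classical
  rw [nrm_eq _ _ subset_rfl, nrm_eq u _ subset_rfl, Finsupp.mapDomain_support_of_injOn u hf,
    Finset.sum_image hf]
  refine Finset.sum_congr rfl fun i hi => ?_
  rw [Finsupp.mapDomain_apply' (u.support : Set I) u subset_rfl hf hi]

end ops

/-! ### the finite level -/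

theorem finite_level {Γ 𝓣 𝓣' J : Type} [Group Γ] [Fintype 𝓣] [Fintype 𝓣'] [Fintype J]
    (γ : J → Γ) (b : J → 𝓣' → 𝓣 → ℤ) {X : Type} [Fintype X] {act : X → Γ → X}
    (h1 : ∀ x, act x 1 = x) (h2 : ∀ x g h, act x (g * h) = act (act x g) h) (C : ℝ) (m : ℕ)
    (K : Submodule ℝ (X → 𝓣 → ℝ))
    (hK : ∀ c ∈ K, ∀ x τ', ∑ j, ∑ τ, (b j τ' τ : ℝ) * c (act x (γ j)) τ = 0) :
    (finrank ℝ K : ℝ) ≤ ∑ x : X, ∑ τ : 𝓣,
      ip ((opT γ b C act ^ m) (Finsupp.single (x, τ) 1))
        ((opT γ b C act ^ m) (Finsupp.single (x, τ) 1)) := by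
  classical
  -- the Euclidean copy of `K`
  let L : (X → 𝓣 → ℝ) →ₗ[ℝ] EuclideanSpace ℝ (X × 𝓣) :=
    { toFun := fun c => WithLp.toLp 2 (fun p : X × 𝓣 => c p.1 p.2)
      map_add' := fun _ _ => rfl
      map_smul' := fun _ _ => rfl }
  have hL : Function.Injective L := by
    intro c d h
    funext x τ
    have := congrFun (congrArg WithLp.ofLp h) (x, τ)
    exact this
  set K' := K.map L with hK'
  have hfr : finrank ℝ K' = finrank ℝ K := (Submodule.equivMapOfInjective L hL K).finrank_eq.symm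
  let u := stdOrthonormalBasis ℝ K'
  let v : Fin (finrank ℝ K') → (X × 𝓣 →₀ ℝ) := fun k =>
    Finsupp.equivFunOnFinite.symm (fun p => (u k : EuclideanSpace ℝ (X × 𝓣)) p)
  have hv : ∀ k p, v k p = (u k : EuclideanSpace ℝ (X × 𝓣)) p := fun k p => rfl
  -- `T v = v`
  have hB : ∀ k, opB γ b act (v k) = 0 := by
    intro k
    ext ⟨x, τ'⟩
    rw [opB_eval γ b h1 h2]
    obtain ⟨c, hc, hcu⟩ := (Submodule.mem_map.1 (u k).2)
    have : ∀ p : X × 𝓣, v k p = c p.1 p.2 := by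
      intro p
      rw [hv, ← hcu]
      rfl
    simp only [this]
    exact hK c hc x τ'
  have hT : ∀ k, (opT γ b C act ^ m) (v k) = v k := by
    intro k
    clear_value u
    induction m with
    | zero => rfl
    | succ m ih =>
      rw [pow_succ, Module.End.mul_apply, opT_apply, hB]
      simp only [map_zero, smul_zero, sub_zero]
      exact ih
  -- Bessel
  let s : X × 𝓣 → EuclideanSpace ℝ (X × 𝓣) := fun p => WithLp.toLp 2
    (fun q => (opT γ b C act ^ m) (Finsupp.single p 1) q)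
  have hin : ∀ p k, inner ℝ (u k : EuclideanSpace ℝ (X × 𝓣)) (s p) = v k p := by
    intro p k
    have e1 : inner ℝ (u k : EuclideanSpace ℝ (X × 𝓣)) (s p) =
        ip ((opT γ b C act ^ m) (Finsupp.single p 1)) (v k) := by
      rw [PiLp.inner_apply, ip_eq_sum _ _ Finset.univ (Finset.subset_univ _)]
      refine Finset.sum_congr rfl fun q _ => ?_
      simp [s, hv, mul_comm]
    rw [e1, adjTpow γ b h1 h2, hT, ip_single_left, one_mul]
  have hon : Orthonormal ℝ (fun k => (u k : EuclideanSpace ℝ (X × 𝓣))) := by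
    have := u.orthonormal
    exact this.comp_linearIsometry K'.subtypeₗᵢ
  have hbes : ∀ p, ∑ k, v k p ^ 2 ≤ ip ((opT γ b C act ^ m) (Finsupp.single p 1))
      ((opT γ b C act ^ m) (Finsupp.single p 1)) := by
    intro p
    have := hon.sum_inner_products_le (s p) (s := Finset.univ)
    have e2 : ‖s p‖ ^ 2 = ip ((opT γ b C act ^ m) (Finsupp.single p 1))
        ((opT γ b C act ^ m) (Finsupp.single p 1)) := by
      rw [EuclideanSpace.norm_sq_eq, nrm_eq _ Finset.univ (Finset.subset_univ _)]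
      refine Finset.sum_congr rfl fun q _ => ?_
      simp [s]
    rw [e2] at this
    refine le_trans (le_of_eq ?_) this
    refine Finset.sum_congr rfl fun k _ => ?_
    rw [hin, Real.norm_eq_abs, sq_abs]
  have hone : ∀ k, ∑ p, v k p ^ 2 = 1 := by
    intro k
    have h3 := u.orthonormal.1 k
    have h4 : ‖(u k : EuclideanSpace ℝ (X × 𝓣))‖ = 1 := h3
    have h5 : ‖(u k : EuclideanSpace ℝ (X × 𝓣))‖ ^ 2 = ∑ p, v k p ^ 2 := by
      rw [EuclideanSpace.norm_sq_eq]
      refine Finset.sum_congr rfl fun q _ => ?_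
      rw [hv, Real.norm_eq_abs, sq_abs]
    rw [← h5, h4, one_pow]
  calc (finrank ℝ K : ℝ) = ∑ k : Fin (finrank ℝ K'), ∑ p, v k p ^ 2 := by
        simp only [hone]
        simp [hfr]
    _ = ∑ p, ∑ k, v k p ^ 2 := Finset.sum_comm
    _ ≤ ∑ p : X × 𝓣, ip ((opT γ b C act ^ m) (Finsupp.single p 1))
        ((opT γ b C act ^ m) (Finsupp.single p 1)) := Finset.sum_le_sum fun p _ => hbes p
    _ = _ := by rw [Fintype.sum_prod_type]

/-! ### the limit -/

section limit

variable {Γ 𝓣 𝓣' J : Type} [Group Γ] [Fintype 𝓣] [Fintype 𝓣'] [Fintype J]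
  (γ : J → Γ) (b : J → 𝓣' → 𝓣 → ℤ)

theorem limit {C : ℝ} (hC : 0 < C)
    (hb : ∀ v : Γ × 𝓣' →₀ ℝ, ip (opBt γ b (fun g h : Γ => g * h) v)
      (opBt γ b (fun g h : Γ => g * h) v) ≤ C * ip v v)
    (h0 : ∀ c : Γ → 𝓣 → ℝ, (Summable fun x : Γ × 𝓣 => (c x.1 x.2) ^ 2) →
      (∀ g τ', ∑ j, ∑ τ, (b j τ' τ : ℝ) * c (g * γ j) τ = 0) → c = 0)
    (τ₀ : 𝓣) {ε : ℝ} (hε : 0 < ε) : ∃ m₀ : ℕ, ∀ m ≥ m₀,
      ip ((opT γ b C (fun g h : Γ => g * h) ^ m) (Finsupp.single (1, τ₀) 1))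
        ((opT γ b C (fun g h : Γ => g * h) ^ m) (Finsupp.single (1, τ₀) 1)) ≤ ε := by
  classical
  have h1 : ∀ x : Γ, x * 1 = x := mul_one
  have h2 : ∀ x g h : Γ, x * (g * h) = x * g * h := fun x g h => (mul_assoc x g h).symm
  set T := opT γ b C (fun g h : Γ => g * h) with hT
  set B := opB γ b (fun g h : Γ => g * h) with hB
  set e : Γ × 𝓣 →₀ ℝ := Finsupp.single (1, τ₀) 1 with he
  let a : ℕ → ℝ := fun m => ip ((T ^ m) e) ((T ^ m) e)
  have hstep : ∀ m, a (m + 1) ≤ a m - C⁻¹ * ip (B ((T ^ m) e)) (B ((T ^ m) e)) := by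
    intro m
    have := decay γ b (act := fun g h : Γ => g * h) h1 h2 hC hb ((T ^ m) e)
    simp only [a]
    rw [pow_succ', Module.End.mul_apply]
    exact this
  have hanti : Antitone a := antitone_nat_of_succ_le fun m => by
    have := hstep m
    have h3 : 0 ≤ C⁻¹ * ip (B ((T ^ m) e)) (B ((T ^ m) e)) :=
      mul_nonneg (inv_pos.2 hC).le (nrm_nonneg _)
    linarith
  have ha0 : ∀ m, 0 ≤ a m := fun m => nrm_nonneg _
  have haone : ∀ m, a m ≤ 1 := by
    intro m
    refine (hanti (Nat.zero_le m)).trans (le_of_eq ?_)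
    simp only [a, pow_zero, Module.End.one_apply]
    rw [he, ip_single_left]
    simp
  obtain ⟨l, hl⟩ : ∃ l, Tendsto a atTop (𝓝 l) :=
    ⟨_, tendsto_atTop_ciInf hanti ⟨0, by rintro _ ⟨m, rfl⟩; exact ha0 m⟩⟩
  have hB0 : Tendsto (fun m => ip (B ((T ^ m) e)) (B ((T ^ m) e))) atTop (𝓝 0) := by
    have h3 : Tendsto (fun m => C * (a m - a (m + 1))) atTop (𝓝 0) := by
      have := (hl.sub (hl.comp (tendsto_add_atTop_nat 1))).const_mul C
      simpa using this
    refine squeeze_zero (fun m => nrm_nonneg _) (fun m => ?_) h3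
    have := hstep m
    have h4 : C⁻¹ * ip (B ((T ^ m) e)) (B ((T ^ m) e)) ≤ a m - a (m + 1) := by linarith
    rwa [inv_mul_le_iff₀ hC] at h4
  -- ultrafilter limit of the even iterates
  let U : Ultrafilter ℕ := Filter.hyperfilter ℕ
  have hU : (U : Filter ℕ) ≤ atTop := Nat.hyperfilter_le_atTop
  have hlim : ∀ i : Γ × 𝓣, ∃ w : ℝ, Tendsto (fun m => ((T ^ (2 * m)) e) i) U (𝓝 w) := by
    intro i
    have hc : IsCompact (Set.Icc (-1 : ℝ) 1) := isCompact_Icc
    obtain ⟨w, -, hw⟩ := hc.ultrafilter_le_nhds (U.map (fun m => ((T ^ (2 * m)) e) i)) (by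
      rw [le_principal_iff]
      refine Filter.mem_map.2 (Filter.Eventually.of_forall fun m => ?_)
      have h5 := (sq_le_nrm ((T ^ (2 * m)) e) i).trans (haone (2 * m))
      have h6 : |((T ^ (2 * m)) e) i| ≤ 1 := abs_le_one_iff_mul_self_le_one.2 (by nlinarith)
      exact abs_le.1 h6)
    exact ⟨w, hw⟩
  choose w hw using hlim
  have hmul : Tendsto (fun m : ℕ => 2 * m) U atTop :=
    (tendsto_id.const_mul_atTop' (by norm_num : 0 < 2)).mono_left hU
  have hsummable : Summable fun x : Γ × 𝓣 => (w x) ^ 2 := by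
    refine summable_of_sum_le (c := 1) (fun _ => sq_nonneg _) fun F => ?_
    have h6 : Tendsto (fun m => ∑ i ∈ F, (((T ^ (2 * m)) e) i) ^ 2) U (𝓝 (∑ i ∈ F, (w i) ^ 2)) :=
      tendsto_finsetSum _ fun i _ => (hw i).pow 2
    exact le_of_tendsto' h6 fun m => (sum_sq_le _ F).trans (haone (2 * m))
  have hzero : ∀ g τ', ∑ j, ∑ τ, (b j τ' τ : ℝ) * w (g * γ j, τ) = 0 := by
    intro g τ'
    have h7 : Tendsto (fun m => ∑ j, ∑ τ, (b j τ' τ : ℝ) * ((T ^ (2 * m)) e) (g * γ j, τ)) U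
        (𝓝 (∑ j, ∑ τ, (b j τ' τ : ℝ) * w (g * γ j, τ))) :=
      tendsto_finsetSum _ fun j _ => tendsto_finsetSum _ fun τ _ => (hw _).const_mul _
    have h8 : Tendsto (fun m => ∑ j, ∑ τ, (b j τ' τ : ℝ) * ((T ^ (2 * m)) e) (g * γ j, τ)) U
        (𝓝 0) := by
      have h9 : ∀ m, ∑ j, ∑ τ, (b j τ' τ : ℝ) * ((T ^ (2 * m)) e) (g * γ j, τ) =
          B ((T ^ (2 * m)) e) (g, τ') := fun m =>
        (opB_eval γ b (act := fun g h : Γ => g * h) h1 h2 _ g τ').symm
      simp only [h9]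
      have h10 : Tendsto (fun m => (B ((T ^ (2 * m)) e) (g, τ')) ^ 2) U (𝓝 0) :=
        squeeze_zero (fun m => sq_nonneg _) (fun m => sq_le_nrm _ _) (hB0.comp hmul)
      rw [tendsto_zero_iff_abs_tendsto_zero]
      have h11 := h10.sqrt
      rw [Real.sqrt_zero] at h11
      refine h11.congr fun m => ?_
      simp [Real.sqrt_sq_eq_abs]
    exact tendsto_nhds_unique h7 h8
  have hw0 := h0 (fun g τ => w (g, τ)) hsummable hzero
  have hw1 : w (1, τ₀) = 0 := congrFun (congrFun hw0 1) τ₀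
  have h12 : Tendsto (fun m => ((T ^ (2 * m)) e) (1, τ₀)) U (𝓝 0) := hw1 ▸ hw (1, τ₀)
  have h13 : ∀ m, ((T ^ (2 * m)) e) (1, τ₀) = a m := by
    intro m
    have h14 : ip ((T ^ (2 * m)) e) e = ((T ^ (2 * m)) e) (1, τ₀) := by
      conv_lhs => rw [show e = Finsupp.single (1, τ₀) 1 from he]
      rw [ip_single_right, one_mul, ← he]
    rw [← h14, two_mul, pow_add, Module.End.mul_apply]
    exact adjTpow γ b (act := fun g h : Γ => g * h) h1 h2 C m _ _
  simp only [h13] at h12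
  obtain ⟨m₀, hm₀⟩ := (h12.eventually (gt_mem_nhds hε)).exists
  exact ⟨m₀, fun m hm => (hanti hm).trans hm₀.le⟩

end limit

theorem kaz : S_KAZ := by
  classical
  intro Γ 𝓣 𝓣' J _ _ _ _ γ b h0 N
  have h1 : ∀ x : Γ, x * 1 = x := mul_one
  have h2 : ∀ x g h : Γ, x * (g * h) = x * g * h := fun x g h => (mul_assoc x g h).symm
  obtain ⟨C, hC, hb⟩ := opBt_bound γ b (act := fun g h : Γ => g * h) h1 h2
  set ε : ℝ := 1 / (N * Fintype.card 𝓣 + 1) with hε
  have hε0 : 0 < ε := by positivity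
  choose m₀ hm₀ using fun τ₀ : 𝓣 => limit γ b hC hb h0 τ₀ hε0
  set m := Finset.univ.sup m₀ with hm
  set T := opT γ b C (fun g h : Γ => g * h) with hT
  have hmm : ∀ τ, ip ((T ^ m) (Finsupp.single (1, τ) 1)) ((T ^ m) (Finsupp.single (1, τ) 1)) ≤ ε :=
    fun τ => hm₀ τ m (Finset.le_sup (Finset.mem_univ τ))
  set A : Finset Γ := Finset.univ.biUnion fun τ : 𝓣 =>
    ((T ^ m) (Finsupp.single ((1 : Γ), τ) (1 : ℝ))).support.image Prod.fst with hA
  refine ⟨((A ×ˢ A).image fun p => p.1 * p.2⁻¹).erase 1, Finset.notMem_erase _ _, ?_⟩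
  intro X _ act g1 g2 gE K hK
  have hfin := finite_level γ b g1 g2 C m K (fun c hc => (hK c).1 hc)
  have hloc : ∀ x τ, ip ((opT γ b C act ^ m) (Finsupp.single (x, τ) 1))
      ((opT γ b C act ^ m) (Finsupp.single (x, τ) 1)) ≤ ε := by
    intro x τ
    have e1 : (Finsupp.single (x, τ) (1 : ℝ) : X × 𝓣 →₀ ℝ) =
        Finsupp.mapDomain (orb x act) (Finsupp.single ((1 : Γ), τ) (1 : ℝ)) := by
      rw [Finsupp.mapDomain_single]
      simp [orb, g1]
    rw [e1, ← nat_T γ b g2, nrm_mapDomain]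
    · exact hmm τ
    · rintro ⟨g, σ⟩ hg ⟨h, σ'⟩ hh hgh
      simp only [orb, Prod.mk.injEq] at hgh
      obtain ⟨hgh1, rfl⟩ := hgh
      by_contra hne
      have hne' : g ≠ h := fun h3 => hne (by rw [h3])
      have hgA : g ∈ A := Finset.mem_biUnion.2 ⟨τ, Finset.mem_univ _, Finset.mem_image.2 ⟨_, hg, rfl⟩⟩
      have hhA : h ∈ A := Finset.mem_biUnion.2 ⟨τ, Finset.mem_univ _, Finset.mem_image.2 ⟨_, hh, rfl⟩⟩
      have hE : g * h⁻¹ ∈ ((A ×ˢ A).image fun p => p.1 * p.2⁻¹).erase 1 := by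
        rw [Finset.mem_erase]
        refine ⟨fun h4 => hne' (mul_inv_eq_one.1 h4), Finset.mem_image.2 ⟨(g, h), ?_, rfl⟩⟩
        exact Finset.mem_product.2 ⟨hgA, hhA⟩
      apply gE _ hE x
      rw [g2, hgh1, ← g2, mul_inv_cancel, g1]
  have h5 : (finrank ℝ K : ℝ) ≤ Fintype.card X * (Fintype.card 𝓣 * ε) := by
    refine hfin.trans ((Finset.sum_le_sum fun x _ => Finset.sum_le_sum fun τ _ => hloc x τ).trans ?_)
    simp
  have h6 : (N : ℝ) * finrank ℝ K ≤ Fintype.card X := by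
    have h7 : (N : ℝ) * (Fintype.card 𝓣 * ε) ≤ 1 := by
      rw [hε, mul_one_div, mul_div_assoc', div_le_one (by positivity)]
      linarith
    have h8 : (N : ℝ) * finrank ℝ K ≤ N * (Fintype.card X * (Fintype.card 𝓣 * ε)) :=
      mul_le_mul_of_nonneg_left h5 (by positivity)
    have h9 : (N : ℝ) * (Fintype.card X * (Fintype.card 𝓣 * ε)) =
        Fintype.card X * (N * (Fintype.card 𝓣 * ε)) := by ring
    rw [h9] at h8
    have h10 : (Fintype.card X : ℝ) * (N * (Fintype.card 𝓣 * ε)) ≤ Fintype.card X * 1 :=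
      mul_le_mul_of_nonneg_left h7 (by positivity)
    linarith
  exact_mod_cast h6

end

end Pool.Agent.W15.SG
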