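import Pool.Agent.H7.L.W21_SGL_Lueck

/-!
# Lück approximation, the integrality direction: the theorem
-/

set_option autoImplicit false

namespace Pool.Agent.W21.SGL

open Matrix Kronecker Filter Topology

section

variable {Γ 𝓣 𝓣' J : Type} [Group Γ] [Fintype 𝓣] [Fintype 𝓣'] [Fintype J] [DecidableEq 𝓣]
  (γ : J → Γ) (b : J → 𝓣' → 𝓣 → ℤ)

/-- the coefficients as real matrices -/
def bR (j : J) : Matrix 𝓣' 𝓣 ℝ := Matrix.of fun τ' τ => (b j τ' τ : ℝ)

/-- the coefficients of `D` -/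
def Mp (p : J × J) : Matrix 𝓣 𝓣 ℝ := (bR b p.1)ᵀ * bR b p.2

/-- the bound -/
noncomputable def Cc : ℝ := 1 + ∑ p : J × J, ∑ τ, ∑ σ, |Mp b p τ σ|

omit [DecidableEq 𝓣] in
theorem one_le_Cc : 1 ≤ Cc b := by
  have : 0 ≤ ∑ p : J × J, ∑ τ, ∑ σ, |Mp b p τ σ| :=
    Finset.sum_nonneg fun _ _ => Finset.sum_nonneg fun _ _ => Finset.sum_nonneg fun _ _ =>
      abs_nonneg _
  rw [Cc]
  linarith

/-- `T = 1 - D / C` -/
noncomputable def TT : MonoidAlgebra (Matrix 𝓣 𝓣 ℝ) Γ :=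
  1 + ∑ p : J × J, MonoidAlgebra.single ((γ p.1)⁻¹ * γ p.2) (-(Cc b)⁻¹ • Mp b p)

section X

variable {X : Type} [Fintype X] [DecidableEq X] (act : X → Γ → X)

/-- the matrix of the local operator on a finite set -/
def BX : Matrix (X × 𝓣') (X × 𝓣) ℤ :=
  Matrix.of fun p q => ∑ j, if act p.1 (γ j) = q.1 then b j p.2 q.2 else 0

omit [Group Γ] [Fintype 𝓣] [Fintype 𝓣'] [DecidableEq 𝓣] [Fintype X] in
theorem BX_map : (BX γ b act).map (Int.cast : ℤ → ℝ) = ∑ j, P act (γ j) ⊗ₖ bR b j := by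
  ext ⟨x, τ'⟩ ⟨y, τ⟩
  rw [Matrix.sum_apply]
  simp only [BX, Matrix.map_apply, Matrix.of_apply, Int.cast_sum, Matrix.kroneckerMap_apply, P, bR]
  refine Finset.sum_congr rfl fun j _ => ?_
  split_ifs <;> simp

omit [DecidableEq 𝓣] in
theorem D_eq (h0 : ∀ x, act x 1 = x) (h1 : ∀ x g h, act x (g * h) = act (act x g) h) :
    ((BX γ b act)ᵀ * BX γ b act).map (Int.cast : ℤ → ℝ) =
      ∑ p : J × J, P act ((γ p.1)⁻¹ * γ p.2) ⊗ₖ Mp b p := by
  have h2 : ((BX γ b act)ᵀ * BX γ b act).map (Int.cast : ℤ → ℝ) =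
      ((BX γ b act).map (Int.cast : ℤ → ℝ))ᵀ * (BX γ b act).map (Int.cast : ℤ → ℝ) := by
    ext i j
    simp [Matrix.mul_apply]
  rw [h2, BX_map, Matrix.transpose_sum, Matrix.sum_mul, Fintype.sum_prod_type]
  refine Finset.sum_congr rfl fun j _ => ?_
  rw [Matrix.mul_sum]
  refine Finset.sum_congr rfl fun j' _ => ?_
  rw [← Matrix.kroneckerMap_transpose, ← Matrix.mul_kronecker_mul, P_inv act h0 h1, ← P_mul act h1]
  rfl

theorem PhiX_TT (h0 : ∀ x, act x 1 = x) (h1 : ∀ x g h, act x (g * h) = act (act x g) h) :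
    PhiX act h0 h1 (TT γ b) =
      1 - (Cc b)⁻¹ • ((BX γ b act)ᵀ * BX γ b act).map (Int.cast : ℤ → ℝ) := by
  rw [D_eq γ b act h0 h1, TT, map_add, map_one, map_sum, sub_eq_add_neg, ← neg_smul,
    Finset.smul_sum]
  congr 1
  refine Finset.sum_congr rfl fun p _ => ?_
  rw [PhiX_single, Matrix.kronecker_smul]

omit [DecidableEq 𝓣] in
theorem rows (h0 : ∀ x, act x 1 = x) (h1 : ∀ x g h, act x (g * h) = act (act x g) h)
    (i : X × 𝓣) : ∑ j, |(((BX γ b act)ᵀ * BX γ b act) i j : ℝ)| ≤ Cc b := by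
  have e : ∀ j, (((BX γ b act)ᵀ * BX γ b act) i j : ℝ) =
      ∑ p : J × J, P act ((γ p.1)⁻¹ * γ p.2) i.1 j.1 * Mp b p i.2 j.2 := by
    intro j
    have := congrFun (congrFun (D_eq γ b act h0 h1) i) j
    rw [Matrix.sum_apply] at this
    exact this
  have h2 : ∀ j, |(((BX γ b act)ᵀ * BX γ b act) i j : ℝ)| ≤
      ∑ p : J × J, (if act i.1 ((γ p.1)⁻¹ * γ p.2) = j.1 then 1 else 0) * |Mp b p i.2 j.2| := by
    intro j
    rw [e j]
    refine (Finset.abs_sum_le_sum_abs _ _).trans (le_of_eq ?_)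
    refine Finset.sum_congr rfl fun p _ => ?_
    rw [abs_mul]
    congr 1
    simp only [P, Matrix.of_apply]
    split_ifs <;> simp
  refine (Finset.sum_le_sum fun j _ => h2 j).trans ?_
  rw [Finset.sum_comm, Cc]
  have h3 : ∀ p : J × J, ∑ j : X × 𝓣,
      (if act i.1 ((γ p.1)⁻¹ * γ p.2) = j.1 then (1 : ℝ) else 0) * |Mp b p i.2 j.2| ≤
      ∑ τ, ∑ σ, |Mp b p τ σ| := by
    intro p
    rw [Fintype.sum_prod_type, Finset.sum_eq_single (act i.1 ((γ p.1)⁻¹ * γ p.2))]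
    · simp only [if_true, one_mul]
      exact Finset.single_le_sum (f := fun τ => ∑ σ, |Mp b p τ σ|)
        (fun τ _ => Finset.sum_nonneg fun σ _ => abs_nonneg _) (Finset.mem_univ i.2)
    · intro x _ hx
      simp only
      refine Finset.sum_eq_zero fun σ _ => ?_
      rw [if_neg (Ne.symm hx), zero_mul]
    · intro h
      exact absurd (Finset.mem_univ _) h
  have := Finset.sum_le_sum fun p (_ : p ∈ (Finset.univ : Finset (J × J))) => h3 p
  linarith

/-- the kernel of the matrix and the space `K` -/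
theorem ker_le (K : Submodule ℝ (X → 𝓣 → ℝ))
    (hK : ∀ c, c ∈ K ↔ ∀ x τ', ∑ j, ∑ τ, (b j τ' τ : ℝ) * c (act x (γ j)) τ = 0) :
    Module.finrank ℝ (LinearMap.ker ((BX γ b act).map (Int.cast : ℤ → ℝ)).mulVecLin) ≤
      Module.finrank ℝ K := by
  set e : (X → 𝓣 → ℝ) ≃ₗ[ℝ] (X × 𝓣 → ℝ) := (LinearEquiv.curry ℝ ℝ X 𝓣).symm with he
  have h1 : (LinearMap.ker ((BX γ b act).map (Int.cast : ℤ → ℝ)).mulVecLin).map
      (e.symm : (X × 𝓣 → ℝ) →ₗ[ℝ] (X → 𝓣 → ℝ)) ≤ K := by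
    rintro _ ⟨v, hv, rfl⟩
    rw [hK]
    intro x τ'
    have h2 : (((BX γ b act).map (Int.cast : ℤ → ℝ)).mulVecLin v) (x, τ') = 0 := by
      rw [LinearMap.mem_ker.1 hv]
      rfl
    rw [Matrix.mulVecLin_apply, BX_map, Matrix.mulVec, dotProduct, Fintype.sum_prod_type] at h2
    rw [← h2]
    have h3 : ∀ (y : X) (τ : 𝓣), (∑ j, P act (γ j) ⊗ₖ bR b j) (x, τ') (y, τ) * v (y, τ) =
        ∑ j, (if act x (γ j) = y then 1 else 0) * ((b j τ' τ : ℝ) * v (y, τ)) := by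
      intro y τ
      rw [Matrix.sum_apply, Finset.sum_mul]
      refine Finset.sum_congr rfl fun j _ => ?_
      rw [Matrix.kroneckerMap_apply]
      simp only [P, bR, Matrix.of_apply]
      ring
    simp only [h3]
    symm
    calc ∑ y : X, ∑ τ : 𝓣, ∑ j, (if act x (γ j) = y then 1 else 0) * ((b j τ' τ : ℝ) * v (y, τ))
        = ∑ y : X, ∑ j, ∑ τ : 𝓣, (if act x (γ j) = y then 1 else 0) *
          ((b j τ' τ : ℝ) * v (y, τ)) := Finset.sum_congr rfl fun y _ => Finset.sum_comm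
      _ = ∑ j, ∑ y : X, ∑ τ : 𝓣, (if act x (γ j) = y then 1 else 0) *
          ((b j τ' τ : ℝ) * v (y, τ)) := Finset.sum_comm
      _ = ∑ j, ∑ τ : 𝓣, (b j τ' τ : ℝ) * v (act x (γ j), τ) := by
        refine Finset.sum_congr rfl fun j _ => ?_
        rw [Finset.sum_eq_single (act x (γ j))]
        · simp
        · intro y _ hy
          refine Finset.sum_eq_zero fun τ _ => ?_
          rw [if_neg (Ne.symm hy), zero_mul]
        · intro h
          exact absurd (Finset.mem_univ _) h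
  have h2 := Submodule.finrank_mono h1
  rwa [LinearEquiv.finrank_map_eq] at h2

end X

/-- a chain in the kernel is fixed by `T` -/
theorem fixed (c : Γ → 𝓣 → ℝ)
    (hc : ∀ g τ', ∑ j, ∑ τ, (b j τ' τ : ℝ) * c (g * γ j) τ = 0) (m : ℕ) :
    PhiG (TT γ b ^ m) c = c := by
  have h1 : PhiG (TT γ b) c = c := by
    rw [TT, map_add, map_one, map_sum, LinearMap.add_apply, LinearMap.sum_apply]
    have h2 : ∑ p : J × J, PhiG (MonoidAlgebra.single ((γ p.1)⁻¹ * γ p.2) (-(Cc b)⁻¹ • Mp b p)) c =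
        0 := by
      funext x
      rw [Finset.sum_apply]
      simp only [PhiG_single]
      rw [Fintype.sum_prod_type]
      refine Finset.sum_eq_zero fun j _ => ?_
      have h3 : ∀ j', (-(Cc b)⁻¹ • Mp b (j, j')) *ᵥ c (x * ((γ j)⁻¹ * γ j')) =
          (-(Cc b)⁻¹ • (bR b j)ᵀ) *ᵥ (bR b j' *ᵥ c (x * (γ j)⁻¹ * γ j')) := by
        intro j'
        rw [Matrix.mulVec_mulVec, Matrix.smul_mul, mul_assoc]
        rfl
      simp only [h3]
      rw [← Matrix.mulVec_sum]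
      have h4 : ∑ j', bR b j' *ᵥ c (x * (γ j)⁻¹ * γ j') = 0 := by
        funext τ'
        rw [Finset.sum_apply]
        exact hc (x * (γ j)⁻¹) τ'
      rw [h4, Matrix.mulVec_zero]
    rw [h2, add_zero]
    rfl
  rw [map_pow]
  induction m with
  | zero => simp
  | succ m ih => rw [pow_succ, Module.End.mul_apply, h1, ih]

end

/-- the bound for the coefficients of `T ^ m` -/
theorem S_le {Γ 𝓣 𝓣' J : Type} [Group Γ] [Fintype 𝓣] [Fintype 𝓣'] [Fintype J] [DecidableEq 𝓣]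
    (γ : J → Γ) (b : J → 𝓣' → 𝓣 → ℤ)
    (hyp : ∀ (N : ℕ) (E : Finset Γ), (1 : Γ) ∉ E → ∃ (X : Type) (_ : Fintype X) (_ : Nonempty X)
      (act : X → Γ → X),
      (∀ x, act x 1 = x) ∧ (∀ x g h, act x (g * h) = act (act x g) h) ∧ (∀ g ∈ E, ∀ x, act x g ≠ x) ∧
      ∃ K : Submodule ℝ (X → 𝓣 → ℝ), (∀ c, c ∈ K ↔ ∀ x τ', ∑ j, ∑ τ, (b j τ' τ : ℝ) * c (act x (γ j)) τ = 0) ∧
        N * Module.finrank ℝ K ≤ Fintype.card X) (N n m : ℕ) (hN : 1 ≤ N) (hn : 1 ≤ n) :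
    ∑ τ, ∑ σ, ∑ h ∈ (TT γ b ^ m).coeff.support, ((TT γ b ^ m).coeff h τ σ) ^ 2 ≤
      1 / N + Fintype.card 𝓣 * (Real.log (Cc b) / n + (1 - Real.exp (-n)) ^ (2 * m)) := by
  classical
  set a := TT γ b ^ m with ha
  obtain ⟨X, i1, i2, act, h0, h1, hE, K, hK, hKc⟩ := hyp N
    (a.coeff.support.offDiag.image fun p => p.1 * p.2⁻¹) (by
      intro h
      rw [Finset.mem_image] at h
      obtain ⟨p, hp, h⟩ := h
      rw [Finset.mem_offDiag] at hp
      exact hp.2.2 (mul_inv_eq_one.1 h))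
  have hfree : ∀ x, Set.InjOn (act x) a.coeff.support := by
    intro x h hh h' hh' e
    by_contra hne
    apply hE (h * h'⁻¹) (Finset.mem_image.2 ⟨(h, h'), Finset.mem_offDiag.2 ⟨hh, hh', hne⟩, rfl⟩) x
    rw [h1, e, ← h1, mul_inv_cancel, h0]
  have hT := PhiX_TT γ b act h0 h1
  have hsT : (PhiX act h0 h1 (TT γ b))ᵀ = PhiX act h0 h1 (TT γ b) := by
    rw [hT, Matrix.transpose_sub, Matrix.transpose_one, Matrix.transpose_smul]
    congr 2
    ext i j
    simp only [Matrix.transpose_apply, Matrix.map_apply, Matrix.mul_apply]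
    congr 1
    exact Finset.sum_congr rfl fun k _ => mul_comm _ _
  have hs : (PhiX act h0 h1 a)ᵀ = PhiX act h0 h1 a := by
    rw [ha, map_pow, Matrix.transpose_pow, hsT]
  have h2 := trace_sq act h0 h1 a hfree hs
  have h3 : PhiX act h0 h1 a * PhiX act h0 h1 a =
      (1 - (Cc b)⁻¹ • ((BX γ b act)ᵀ * BX γ b act).map (Int.cast : ℤ → ℝ)) ^ (2 * m) := by
    rw [ha, map_pow, hT, ← pow_add, two_mul]
  rw [h3] at h2
  have h4 := tr_bound (BX γ b act) (Cc b) (one_le_Cc b) (rows γ b act h0 h1) n m hn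
  rw [h2, Fintype.card_prod] at h4
  have h5 := ker_le γ b act K hK
  have hX : (0 : ℝ) < Fintype.card X := by exact_mod_cast Fintype.card_pos
  have hN0 : (0 : ℝ) < N := by exact_mod_cast hN
  have h6 : (Module.finrank ℝ K : ℝ) ≤ Fintype.card X * (1 / N) := by
    rw [mul_one_div, le_div_iff₀ hN0]
    have : ((N * Module.finrank ℝ K : ℕ) : ℝ) ≤ Fintype.card X := by exact_mod_cast hKc
    push_cast at this
    linarith
  have h7 : ((Module.finrank ℝ (LinearMap.ker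
      ((BX γ b act).map (Int.cast : ℤ → ℝ)).mulVecLin) : ℕ) : ℝ) ≤ Module.finrank ℝ K := by
    exact_mod_cast h5
  refine le_of_mul_le_mul_left ?_ hX
  refine h4.trans ?_
  push_cast
  have h8 := h7.trans h6
  calc _ ≤ (Fintype.card X : ℝ) * (1 / N) + Fintype.card X * Fintype.card 𝓣 *
        (Real.log (Cc b) / n + (1 - Real.exp (-n)) ^ (2 * m)) := by gcongr
    _ = _ := by ring

theorem lueck : Pool.Agent.W907.SG.S_LUECK := by
  intro Γ 𝓣 𝓣' J _ _ _ _ γ b hyp c hc hcc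
  classical
  set L := ∑' x : Γ × 𝓣, (c x.1 x.2) ^ 2 with hL
  have hL0 : 0 ≤ L := tsum_nonneg fun _ => sq_nonneg _
  have key : ∀ (g : Γ) (τ : 𝓣) (N n m : ℕ), 1 ≤ N → 1 ≤ n → (c g τ) ^ 2 ≤
      (1 / N + Fintype.card 𝓣 * (Real.log (Cc b) / n + (1 - Real.exp (-n)) ^ (2 * m))) * L := by
    intro g τ N n m hN hn
    have h1 := cs (TT γ b ^ m) c hc g τ
    rw [fixed γ b c hcc m] at h1
    exact h1.trans (mul_le_mul_of_nonneg_right (S_le γ b hyp N n m hN hn) hL0)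
  have key2 : ∀ (g : Γ) (τ : 𝓣) (n : ℕ), 1 ≤ n → (c g τ) ^ 2 ≤
      (Fintype.card 𝓣 * (Real.log (Cc b) / n)) * L := by
    intro g τ n hn
    have hn0 : (0 : ℝ) < n := by exact_mod_cast hn
    have hlim : Tendsto (fun k : ℕ => (1 / ((k : ℝ) + 1) + Fintype.card 𝓣 *
        (Real.log (Cc b) / n + ((1 - Real.exp (-n)) ^ 2) ^ k)) * L) atTop
        (𝓝 ((0 + Fintype.card 𝓣 * (Real.log (Cc b) / n + 0)) * L)) := by
      refine Tendsto.mul_const _ (Tendsto.add tendsto_one_div_add_atTop_nhds_zero_nat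
        (Tendsto.const_mul _ (Tendsto.const_add _ ?_)))
      apply tendsto_pow_atTop_nhds_zero_of_lt_one (sq_nonneg _)
      have he : Real.exp (-n) ≤ 1 := by
        rw [Real.exp_le_one_iff]; linarith
      have he0 := Real.exp_pos (-(n : ℝ))
      nlinarith
    rw [zero_add, add_zero] at hlim
    refine ge_of_tendsto' hlim fun k => ?_
    have := key g τ (k + 1) n k (by omega) hn
    rw [pow_mul] at this
    push_cast at this
    exact this
  funext g τ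
  have hlim : Tendsto (fun n : ℕ => (Fintype.card 𝓣 * (Real.log (Cc b) / ((n : ℝ) + 1))) * L) atTop
      (𝓝 ((Fintype.card 𝓣 * (Real.log (Cc b) * 0)) * L)) := by
    refine Tendsto.mul_const _ (Tendsto.const_mul _ ?_)
    simp only [div_eq_mul_one_div (Real.log (Cc b))]
    exact Tendsto.const_mul _ tendsto_one_div_add_atTop_nhds_zero_nat
  rw [mul_zero, mul_zero, zero_mul] at hlim
  have h9 : (c g τ) ^ 2 ≤ 0 := by
    refine ge_of_tendsto' hlim fun n => ?_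
    have := key2 g τ (n + 1) (by omega)
    push_cast at this
    exact this
  simpa using h9.antisymm (sq_nonneg _)

end Pool.Agent.W21.SGL
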