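import Pool.Agent.H7.L.W907_SG_Defs

namespace Pool.Agent.W907.SG

open Module

/-! ### linear algebra -/

/-- MID: middle exactness bounds -/
def S_MID : Prop := ∀ (F E1 E2 E3 : Type) [Field F] [AddCommGroup E1] [Module F E1] [AddCommGroup E2] [Module F E2]
    [AddCommGroup E3] [Module F E3] [FiniteDimensional F E1] [FiniteDimensional F E2] [FiniteDimensional F E3]
    (f : E1 →ₗ[F] E2) (g : E2 →ₗ[F] E3) (B1 Z1 : Submodule F E1) (B2 Z2 : Submodule F E2) (B3 Z3 : Submodule F E3),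
    B1 ≤ Z1 → B2 ≤ Z2 → B3 ≤ Z3 → B1.map f ≤ B2 → Z2.map g ≤ Z3 →
    (∀ z ∈ Z2, g z ∈ B3 → ∃ z1 ∈ Z1, ∃ b ∈ B2, z = f z1 + b) →
    finrank F Z2 - finrank F B2 ≤ (finrank F Z1 - finrank F B1) + (finrank F Z3 - finrank F B3)

/-- CON: bound through a connecting relation: `d : R → Z1` hits everything in `Z1 ∩ B2` (with `Z1 ≤ Z2` in the same
space `E`), and `q : R → Z3` with `q x ∈ B3 → d x ∈ B1` -/
def S_CON : Prop := ∀ (F E R E3 : Type) [Field F] [AddCommGroup E] [Module F E] [AddCommGroup R] [Module F R]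
    [AddCommGroup E3] [Module F E3] [FiniteDimensional F E] [FiniteDimensional F R] [FiniteDimensional F E3]
    (d : R →ₗ[F] E) (q : R →ₗ[F] E3) (B1 Z1 B2 Z2 : Submodule F E) (B3 Z3 : Submodule F E3) (R0 : Submodule F R),
    B1 ≤ Z1 → B2 ≤ Z2 → B3 ≤ Z3 → Z1 ≤ Z2 →
    (∀ z ∈ Z1, z ∈ B2 → ∃ x ∈ R0, d x = z) → (∀ x ∈ R0, q x ∈ Z3) → (∀ x ∈ R0, q x ∈ B3 → d x ∈ B1) →
    finrank F Z1 - finrank F B1 ≤ (finrank F Z2 - finrank F B2) + (finrank F Z3 - finrank F B3)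

/-! ### the complexes (arbitrary field, arbitrary finite-dimensional module) -/

/-- VERT: removing a vertex. Chain map `q c T = sg v T • c (insert v T)` onto the complex of the link. -/
def S_VERT : Prop := ∀ (V F M : Type) [Fintype V] [LinearOrder V] [Field F] [AddCommGroup M] [Module F M]
    [FiniteDimensional F M] (G : SimpleGraph V) (ρ : V → M →ₗ[F] M) (A S : Set V) (v : V), v ∉ A → v ∉ S →
    beta G ρ (insert v A) S 0 ≤ beta G ρ A S 0 ∧
    ∀ i, beta G ρ (insert v A) S (i + 1) ≤ beta G ρ A S (i + 1) + beta G ρ (A ∩ G.neighborSet v) (insert v S) i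

/-- EIG: the `-1` eigenspace of a commuting involution is a direct summand -/
def S_EIG : Prop := ∀ (V F M : Type) [Fintype V] [LinearOrder V] [Field F] [AddCommGroup M] [Module F M]
    [FiniteDimensional F M] (G : SimpleGraph V) (ρ : V → M →ₗ[F] M) (A S : Set V) (v : V), (2 : F) ≠ 0 →
    (∀ m, ρ v (ρ v m) = m) → (∀ u ∈ A ∪ S, ∀ m, ρ u (ρ v m) = ρ v (ρ u m)) →
    ∀ i, beta G ρ A (insert v S) i ≤ beta G ρ A S i

/-- CONE: coning off does not increase the Betti numbers -/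
def S_CONE : Prop := ∀ (V F M : Type) [Fintype V] [LinearOrder V] [Field F] [AddCommGroup M] [Module F M]
    [FiniteDimensional F M] (G : SimpleGraph V) (ρ : V → M →ₗ[F] M) (A : Set V) (v : V), (2 : F) ≠ 0 →
    v ∉ A → (∀ u ∈ A, G.Adj v u) → (∀ m, ρ v (ρ v m) = m) → (∀ u ∈ A, ∀ m, ρ u (ρ v m) = ρ v (ρ u m)) →
    ∀ i, beta G ρ (insert v A) ∅ i ≤ beta G ρ A ∅ i

/-- EDGE: deleting an edge `st` (over the group of `G`); quotient complex: cells containing `s` and `t`. -/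
def S_EDGE : Prop := ∀ (V F M : Type) [Fintype V] [LinearOrder V] [Field F] [AddCommGroup M] [Module F M]
    [FiniteDimensional F M] (G : SimpleGraph V) (ρ : V → M →ₗ[F] M) (s t : V), G.Adj s t →
    beta (G.deleteEdges {s(s, t)}) ρ Set.univ ∅ 0 ≤ beta G ρ Set.univ ∅ 0 ∧
    ∀ i, beta (G.deleteEdges {s(s, t)}) ρ Set.univ ∅ (i + 1) ≤
      beta G ρ Set.univ ∅ (i + 1) + beta G ρ (G.neighborSet s ∩ G.neighborSet t) {s, t} i

/-- SUB: subadditivity in short exact sequences of representations -/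
def S_SUB : Prop := ∀ (V F M1 M2 M3 : Type) [Fintype V] [LinearOrder V] [Field F] [AddCommGroup M1] [Module F M1]
    [FiniteDimensional F M1] [AddCommGroup M2] [Module F M2] [FiniteDimensional F M2] [AddCommGroup M3] [Module F M3]
    [FiniteDimensional F M3] (G : SimpleGraph V) (ρ1 : V → M1 →ₗ[F] M1) (ρ2 : V → M2 →ₗ[F] M2) (ρ3 : V → M3 →ₗ[F] M3)
    (f : M1 →ₗ[F] M2) (g : M2 →ₗ[F] M3), (2 : F) ≠ 0 →
    (∀ v m, ρ2 v (ρ2 v m) = m) → (∀ u v, G.Adj u v → ∀ m, ρ2 u (ρ2 v m) = ρ2 v (ρ2 u m)) →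
    (∀ v m, f (ρ1 v m) = ρ2 v (f m)) → (∀ v m, g (ρ2 v m) = ρ3 v (g m)) →
    Function.Injective f → Function.Surjective g → LinearMap.range f = LinearMap.ker g →
    ∀ i, beta G ρ2 Set.univ ∅ i ≤ beta G ρ1 Set.univ ∅ i + beta G ρ3 Set.univ ∅ i

/-- ACYC: suspension, with `M = M^{-s} ⊕ M^{-t}` -/
def S_ACYC : Prop := ∀ (V F M : Type) [Fintype V] [LinearOrder V] [Field F] [AddCommGroup M] [Module F M]
    [FiniteDimensional F M] (G : SimpleGraph V) (ρ : V → M →ₗ[F] M) (s t : V), s ≠ t → ¬ G.Adj s t →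
    (∀ u, u ≠ s → u ≠ t → G.Adj u s ∧ G.Adj u t) →
    (∀ u v, G.Adj u v → ∀ m, ρ u (ρ v m) = ρ v (ρ u m)) →
    (∀ m, ∃ x y, m = x + y ∧ ρ s x = - x ∧ ρ t y = - y) → (∀ m, ρ s m = - m → ρ t m = - m → m = 0) →
    ∀ i, beta G ρ Set.univ ∅ i = 0

/-- DIM: trivial bound of the Betti numbers by the number of vertex sets times the dimension -/
def S_DIM : Prop := ∀ (V F M : Type) [Fintype V] [LinearOrder V] [Field F] [AddCommGroup M] [Module F M]
    [FiniteDimensional F M] (G : SimpleGraph V) (ρ : V → M →ₗ[F] M) (A S : Set V) (i : ℕ),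
    beta G ρ A S i ≤ 2 ^ Fintype.card V * finrank F M

/-- TR: transport along an order embedding of vertex sets -/
def S_TR : Prop := ∀ (U V F M : Type) [Fintype U] [LinearOrder U] [Fintype V] [LinearOrder V] [Field F]
    [AddCommGroup M] [Module F M] [FiniteDimensional F M] (G : SimpleGraph V) (H : SimpleGraph U)
    (ρ : V → M →ₗ[F] M) (φ : U → V), StrictMono φ → (∀ u u', H.Adj u u' ↔ G.Adj (φ u) (φ u')) →
    ∀ i, beta G ρ (Set.range φ) ∅ i = beta H (fun u => ρ (φ u)) Set.univ ∅ i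

/-! ### finite sets with `W_G`-action -/

/-- LINE: a nonzero finite-dimensional representation over `F_3` of a 3-type group has an invariant line on which
the generators act by `±1` -/
def S_LINE : Prop := ∀ (V N : Type) [Finite V] [AddCommGroup N] [Module (ZMod 3) N] [FiniteDimensional (ZMod 3) N]
    [Nontrivial N] (σ : V → N →ₗ[ZMod 3] N), (∀ v m, σ v (σ v m) = m) →
    (∀ l : List V, EvenWord l → ∃ k : ℕ, ∀ x, (fun y => l.foldr (fun v => σ v) y)^[3 ^ k] x = x) →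
    ∃ x : N, x ≠ 0 ∧ ∀ v, σ v x = x ∨ σ v x = - x

/-- ML: Betti numbers of the product of a `W_G`-set `X` (with signs) and a 3-type `W_G`-set `Y` -/
def S_ML : Prop := ∀ (V X Y : Type) [Fintype V] [LinearOrder V] [Fintype X] [Fintype Y] (G : SimpleGraph V)
    (a : V → X → X) (sgn : V → X → Bool) (b : V → Y → Y),
    (∀ v x, a v (a v x) = x) → (∀ u v, G.Adj u v → ∀ x, a u (a v x) = a v (a u x)) →
    (∀ v x, sgn v (a v x) = !(sgn v x)) → (∀ u v, u ≠ v → ∀ x, sgn u (a v x) = sgn u x) →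
    (∀ v y, b v (b v y) = y) → (∀ u v, G.Adj u v → ∀ y, b u (b v y) = b v (b u y)) →
    (∀ l : List V, EvenWord l → ∃ k : ℕ, ∀ x, (fun y => l.foldr b y)^[3 ^ k] x = x) →
    ∀ i, beta G (pull (ZMod 3) (fun v (z : X × Y) => (a v z.1, b v z.2))) Set.univ ∅ i ≤
      Fintype.card Y * beta G (pull (ZMod 3) a) Set.univ ∅ i

/-- STEP1: adding a vertex -/
def S_STEP1 : Prop := ∀ (V : Type) [Finite V] (G : SimpleGraph V) (v : V) (i : ℕ),
    SP (G.induce {v}ᶜ) i → (∀ j, i = j + 1 → SP (G.induce (G.neighborSet v)) j) → SP G i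

/-- STEP2: deleting an edge -/
def S_STEP2 : Prop := ∀ (V : Type) [Finite V] (G : SimpleGraph V) (s t : V) (i : ℕ), G.Adj s t →
    SP G i → (∀ j, i = j + 1 → SP (G.induce (G.neighborSet s ∩ G.neighborSet t)) j) →
    SP (G.deleteEdges {s(s, t)}) i

/-- STEPC: coning -/
def S_STEPC : Prop := ∀ (V : Type) [Finite V] (G : SimpleGraph V) (s : V) (i : ℕ), (∀ u, u ≠ s → G.Adj s u) →
    SP (G.induce {s}ᶜ) i → SP G i

/-- SUSP: the suspension is small in all degrees -/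
def S_SUSP : Prop := ∀ (V : Type) [Finite V] (G : SimpleGraph V) (s t : V) (i : ℕ), s ≠ t → ¬ G.Adj s t →
    (∀ u, u ≠ s → u ≠ t → G.Adj u s ∧ G.Adj u t) → SP G i

/-- ISO: invariance under isomorphism -/
def S_ISO : Prop := ∀ (V U : Type) (G : SimpleGraph V) (H : SimpleGraph U) (i : ℕ), Nonempty (G ≃g H) → SP G i → SP H i

/-- EMPTY: the empty graph -/
def S_EMPTY : Prop := ∀ (V : Type) [IsEmpty V] (G : SimpleGraph V) (i : ℕ), 1 ≤ i → SP G i

/-- LOC closure (combinatorics), vanishing above the middle for all full subcomplexes -/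
def S_CLASSB : Prop := ∀ (n : ℕ) (V : Type) (G : SimpleGraph V), Above n G →
    ∀ (A : Set V) (i : ℕ), n < 2 * i → SP (G.induce A) i

/-- vanishing outside the middle for the class `Trunc` -/
def S_CLASSA : Prop := ∀ (n : ℕ) (V : Type) (G : SimpleGraph V), Trunc n G → ∀ i : ℕ, 2 * i ≠ n → SP G i

/-! ### from finite sets to `ℓ²` -/

/-- LUECK: the kernel of an integral local operator `B` on `ℓ²(Γ × 𝓣)` vanishes if the normalised nullities on finite
`Γ`-sets with large injectivity radius are small.  `X` is a right `Γ`-set via `act`. -/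
def S_LUECK : Prop := ∀ (Γ 𝓣 𝓣' J : Type) [Group Γ] [Fintype 𝓣] [Fintype 𝓣'] [Fintype J]
    (γ : J → Γ) (b : J → 𝓣' → 𝓣 → ℤ),
    (∀ (N : ℕ) (E : Finset Γ), (1 : Γ) ∉ E → ∃ (X : Type) (_ : Fintype X) (_ : Nonempty X) (act : X → Γ → X),
      (∀ x, act x 1 = x) ∧ (∀ x g h, act x (g * h) = act (act x g) h) ∧ (∀ g ∈ E, ∀ x, act x g ≠ x) ∧
      ∃ K : Submodule ℝ (X → 𝓣 → ℝ), (∀ c, c ∈ K ↔ ∀ x τ', ∑ j, ∑ τ, (b j τ' τ : ℝ) * c (act x (γ j)) τ = 0) ∧
        N * finrank ℝ K ≤ Fintype.card X) →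
    ∀ c : Γ → 𝓣 → ℝ, (Summable fun x : Γ × 𝓣 => (c x.1 x.2) ^ 2) →
      (∀ g τ', ∑ j, ∑ τ, (b j τ' τ : ℝ) * c (g * γ j) τ = 0) → c = 0

/-- NIL: finite 3-type `W_G`-sets on which given nontrivial elements of `W_G` have no fixed points.  `ev x w` is the
right action of `w ∈ W G`. -/
def S_NIL : Prop := ∀ (V : Type) [Finite V] (G : SimpleGraph V) (E : Finset (W G)), (1 : W G) ∉ E →
    ∃ (Y : Type) (_ : Fintype Y) (_ : Nonempty Y) (P : PSet 3 G Y) (ev : Y → W G → Y),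
      (∀ y, ev y 1 = y) ∧ (∀ y g h, ev y (g * h) = ev (ev y g) h) ∧ (∀ y v, ev y ((cox G).simple v) = P.a v y) ∧
      ∀ g ∈ E, ∀ y, ev y g ≠ y

/-- HODGE: for a finite `W_G`-set `X` with signs, the space of real harmonic `i`-chains on `X` has dimension at most the
`i`-th mod 3 Betti number -/
def S_HODGE : Prop := ∀ (V X : Type) [Fintype V] [LinearOrder V] [Fintype X] (G : SimpleGraph V)
    (a : V → X → X) (sgn : V → X → Bool),
    (∀ v x, a v (a v x) = x) → (∀ u v, G.Adj u v → ∀ x, a u (a v x) = a v (a u x)) →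
    (∀ v x, sgn v (a v x) = !(sgn v x)) → (∀ u v, u ≠ v → ∀ x, sgn u (a v x) = sgn u x) →
    ∀ (i : ℕ) (K : Submodule ℝ (X → Finset V → ℝ)),
    (∀ c ∈ K, (∀ x (T : Finset V), ¬ (G.IsClique (T : Set V) ∧ T.card = i) → c x T = 0) ∧
      (∀ x (T : Finset V) t, t ∈ T → c (a t x) T = - c x T) ∧
      (∀ x (T : Finset V), ∑ v ∈ Tᶜ, (sg v T : ℝ) * c x (insert v T) = 0) ∧
      (∀ x (T : Finset V), G.IsClique (T : Set V) →
        ∑ t ∈ T, (sg t (T.erase t) : ℝ) * (c x (T.erase t) - c (a t x) (T.erase t)) = 0)) →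
    finrank ℝ K ≤ beta G (pull (ZMod 3) a) Set.univ ∅ i

/-- FIN -/
def S_FIN : Prop := ∀ (V : Type) [Fintype V] [LinearOrder V] (G : SimpleGraph V) (i : ℕ), SP G i → L2Van G i

end Pool.Agent.W907.SG
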