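import Mathlib
import Pool.Agent.H7.L.W907_SG_Stmts

/-! Task SG-HODGE (helper907): real harmonic chains on a finite `W`-set versus the mod 3 Betti number. -/

set_option autoImplicit false

namespace Pool.Agent.W334.SG

open Module Finset
open Pool.Agent.W907.SG

/-- the rank of an integer matrix modulo 3 is at most its rank over the reals -/
lemma rank_mod {m n : Type} [Fintype m] [Fintype n] (A : Matrix m n ℤ) :
    (A.map (Int.cast : ℤ → ZMod 3)).rank ≤ (A.map (Int.cast : ℤ → ℝ)).rank := by
  classical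
  set B := A.map (Int.cast : ℤ → ZMod 3) with hB
  set r := finrank (ZMod 3) (LinearMap.range B.mulVecLin) with hr
  have hrank : B.rank = r := rfl
  let b := Module.finBasis (ZMod 3) (LinearMap.range B.mulVecLin)
  have hq : ∀ j : Fin r, ∃ q : n → ZMod 3, B.mulVecLin q = (b j : m → ZMod 3) := fun j => (b j).2
  choose q hq using hq
  have hli : LinearIndependent (ZMod 3) (fun j : Fin r => (b j : m → ZMod 3)) :=
    b.linearIndependent.map' (Submodule.subtype _) (Submodule.ker_subtype _)
  let f : (Fin r → ZMod 3) →ₗ[ZMod 3] (m → ZMod 3) :=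
    Fintype.linearCombination (ZMod 3) (fun j : Fin r => (b j : m → ZMod 3))
  have hf : LinearMap.ker f = ⊥ := by
    rw [LinearMap.ker_eq_bot]
    exact linearIndependent_iff_injective_fintypeLinearCombination.1 hli
  obtain ⟨g, hg⟩ := LinearMap.exists_leftInverse_of_injective f hf
  have hgb : ∀ j : Fin r, g (b j : m → ZMod 3) = Pi.single j 1 := by
    intro j
    have h1 : f (Pi.single j 1) = (b j : m → ZMod 3) := by
      simp [f, Fintype.linearCombination_apply_single]
    rw [← h1]
    exact congrArg (fun h => h (Pi.single j 1)) hg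
  let P : Matrix (Fin r) m (ZMod 3) := LinearMap.toMatrix' g
  let Q : Matrix n (Fin r) (ZMod 3) := Matrix.of fun i j => q j i
  have hPQ : P * B * Q = 1 := by
    ext i j
    have h1 : (P * B * Q) i j = (P.mulVec (B.mulVec (q j))) i := by
      rw [Matrix.mul_assoc]
      simp only [Matrix.mul_apply, Matrix.mulVec, dotProduct, Q, Matrix.of_apply]
    have h2 : B.mulVec (q j) = (b j : m → ZMod 3) := hq j
    have h3 : P.mulVec (b j : m → ZMod 3) = g (b j) := by
      exact LinearMap.toMatrix'_mulVec g _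
    rw [h1, h2, h3, hgb j, Matrix.one_apply, Pi.single_apply]
  have hcast : ∀ z : ZMod 3, (((z.val : ℕ) : ℤ) : ZMod 3) = z := by
    intro z
    simp
  let P' : Matrix (Fin r) m ℤ := P.map (fun z => ((z.val : ℕ) : ℤ))
  let Q' : Matrix n (Fin r) ℤ := Q.map (fun z => ((z.val : ℕ) : ℤ))
  let D : Matrix (Fin r) (Fin r) ℤ := P' * A * Q'
  have hD3 : D.map (Int.castRingHom (ZMod 3)) = 1 := by
    have e1 : P'.map (Int.castRingHom (ZMod 3)) = P := by
      ext i j; simp [P']
    have e2 : Q'.map (Int.castRingHom (ZMod 3)) = Q := by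
      ext i j; simp [Q']
    have e3 : A.map (Int.castRingHom (ZMod 3)) = B := rfl
    simp only [D]
    rw [Matrix.map_mul, Matrix.map_mul, e1, e2, e3, hPQ]
  have hdet : D.det ≠ 0 := by
    intro h0
    have h1 := (Int.castRingHom (ZMod 3)).map_det D
    rw [RingHom.mapMatrix_apply, hD3, h0, map_zero, Matrix.det_one] at h1
    exact zero_ne_one h1
  have hdetR : (D.map (Int.castRingHom ℝ)).det ≠ 0 := by
    have h1 := (Int.castRingHom ℝ).map_det D
    rw [RingHom.mapMatrix_apply] at h1
    rw [← h1]
    simpa using hdet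
  have hrD : (D.map (Int.castRingHom ℝ)).rank = r := by
    rw [Matrix.rank_of_det_ne_zero hdetR, Fintype.card_fin]
  have hmul : D.map (Int.castRingHom ℝ) = P'.map (Int.castRingHom ℝ) *
      A.map (Int.castRingHom ℝ) * Q'.map (Int.castRingHom ℝ) := by
    simp only [D]
    rw [Matrix.map_mul, Matrix.map_mul]
  rw [hrank, ← hrD, hmul]
  exact (Matrix.rank_mul_le_left _ _).trans (Matrix.rank_mul_le_right _ _)

section corner

variable {V X : Type} (a : V → X → X) (sgn : V → X → Bool)

/-- the canonical corner -/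
def cr : List V → X → X
  | [], y => y
  | t :: l, y => if sgn t (cr l y) = true then a t (cr l y) else cr l y

variable {a sgn}

lemma cr_sgn (hs : ∀ v x, sgn v (a v x) = !(sgn v x))
    (ho : ∀ u v, u ≠ v → ∀ x, sgn u (a v x) = sgn u x) (l : List V) (y : X) (u : V) :
    sgn u (cr a sgn l y) = true → u ∉ l ∧ sgn u y = true := by
  induction l with
  | nil => intro h; exact ⟨by simp, h⟩
  | cons t l ih =>
    intro h
    simp only [cr] at h
    by_cases h1 : sgn t (cr a sgn l y) = true
    · rw [if_pos h1] at h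
      by_cases hut : u = t
      · subst hut
        rw [hs, h1] at h
        simp at h
      · rw [ho u t hut] at h
        exact ⟨by simp [hut, (ih h).1], (ih h).2⟩
    · rw [if_neg h1] at h
      have hut : u ≠ t := by rintro rfl; exact h1 h
      exact ⟨by simp [hut, (ih h).1], (ih h).2⟩

lemma cr_sgn_of_notMem (ho : ∀ u v, u ≠ v → ∀ x, sgn u (a v x) = sgn u x)
    (l : List V) (y : X) (u : V) (hu : u ∉ l) : sgn u (cr a sgn l y) = sgn u y := by
  induction l with
  | nil => rfl
  | cons t l ih =>
    have h1 : u ≠ t := by rintro rfl; exact hu (by simp)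
    have h2 : u ∉ l := fun h => hu (by simp [h])
    simp only [cr]
    split_ifs with h
    · rw [ho u t h1, ih h2]
    · exact ih h2

lemma cr_of_false (l : List V) (y : X) (h : ∀ t ∈ l, sgn t y = false) : cr a sgn l y = y := by
  induction l with
  | nil => rfl
  | cons t l ih =>
    simp only [cr]
    rw [ih fun u hu => h u (by simp [hu]), h t (by simp)]
    simp

lemma cr_comm (G : SimpleGraph V) (hc : ∀ u v, G.Adj u v → ∀ x, a u (a v x) = a v (a u x))
    (ho : ∀ u v, u ≠ v → ∀ x, sgn u (a v x) = sgn u x) (t : V) (l : List V)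
    (hl : ∀ s ∈ l, G.Adj s t) (y : X) : cr a sgn l (a t y) = a t (cr a sgn l y) := by
  induction l with
  | nil => rfl
  | cons s l ih =>
    have hst : G.Adj s t := hl s (by simp)
    simp only [cr]
    rw [ih fun u hu => hl u (by simp [hu]), ho s t hst.ne]
    split_ifs with h
    · exact hc s t hst _
    · rfl

lemma cr_inv (G : SimpleGraph V) (hi : ∀ v x, a v (a v x) = x)
    (hc : ∀ u v, G.Adj u v → ∀ x, a u (a v x) = a v (a u x))
    (hs : ∀ v x, sgn v (a v x) = !(sgn v x))
    (ho : ∀ u v, u ≠ v → ∀ x, sgn u (a v x) = sgn u x) (l : List V) (hn : l.Nodup)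
    (hl : ∀ s ∈ l, ∀ t ∈ l, s ≠ t → G.Adj s t) (s : V) (hsl : s ∈ l) (y : X) :
    cr a sgn l (a s y) = cr a sgn l y := by
  induction l with
  | nil => simp at hsl
  | cons t l ih =>
    have htl : t ∉ l := (List.nodup_cons.1 hn).1
    have hnl : l.Nodup := (List.nodup_cons.1 hn).2
    simp only [cr]
    by_cases hst : s = t
    · subst hst
      have h1 : cr a sgn l (a s y) = a s (cr a sgn l y) :=
        cr_comm G hc ho s l (fun u hu => hl u (by simp [hu]) s (by simp)
          (by rintro rfl; exact htl hu)) y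
      rw [h1, hs]
      by_cases h : sgn s (cr a sgn l y) = true
      · simp [h]
      · have h' : sgn s (cr a sgn l y) = false := by simpa using h
        simp [h', hi]
    · have hsl' : s ∈ l := by simpa [hst] using hsl
      rw [ih hnl (fun u hu v hv => hl u (by simp [hu]) v (by simp [hv])) hsl']

/-- the sign of a corner -/
def ep (sgn : V → X → Bool) (T : Finset V) (y : X) : ℤ := ∏ t ∈ T, if sgn t y = true then -1 else 1

lemma ep_mul (T : Finset V) (y : X) : ep sgn T y * ep sgn T y = 1 := by
  unfold ep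
  rw [← prod_mul_distrib]
  refine prod_eq_one fun t _ => ?_
  split_ifs <;> norm_num

lemma ep_of_false (T : Finset V) (y : X) (h : ∀ t ∈ T, sgn t y = false) : ep sgn T y = 1 := by
  unfold ep
  refine prod_eq_one fun t ht => ?_
  rw [h t ht]; simp

lemma ep_anti [DecidableEq V] (hs : ∀ v x, sgn v (a v x) = !(sgn v x))
    (ho : ∀ u v, u ≠ v → ∀ x, sgn u (a v x) = sgn u x) (T : Finset V) (s : V) (hsT : s ∈ T)
    (y : X) : ep sgn T (a s y) = - ep sgn T y := by
  unfold ep
  rw [← mul_prod_erase T _ hsT, ← mul_prod_erase T _ hsT, hs]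
  have h1 : ∏ t ∈ T.erase s, (if sgn t (a s y) = true then (-1 : ℤ) else 1) =
      ∏ t ∈ T.erase s, (if sgn t y = true then (-1 : ℤ) else 1) := by
    refine prod_congr rfl fun t ht => ?_
    rw [ho t s (ne_of_mem_erase ht)]
  rw [h1]
  cases sgn s y <;> simp

/-- values of an anti-invariant function at the canonical corner -/
lemma val_cr {F : Type} [Field F] (ho : ∀ u v, u ≠ v → ∀ x, sgn u (a v x) = sgn u x)
    (f : X → F) (l : List V) (hn : l.Nodup)
    (hf : ∀ t ∈ l, ∀ y, f (a t y) = - f y) (y : X) :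
    f (cr a sgn l y) = ((l.map fun t => if sgn t y = true then (-1 : ℤ) else 1).prod : ℤ) * f y := by
  induction l with
  | nil => simp [cr]
  | cons t l ih =>
    have htl : t ∉ l := (List.nodup_cons.1 hn).1
    have hnl : l.Nodup := (List.nodup_cons.1 hn).2
    have ih' := ih hnl fun u hu => hf u (by simp [hu])
    simp only [cr]
    rw [cr_sgn_of_notMem ho l y t htl, List.map_cons, List.prod_cons]
    by_cases h : sgn t y = true
    · rw [if_pos h, if_pos h, hf t (by simp), ih']
      push_cast
      ring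
    · rw [if_neg h, if_neg h, ih', one_mul]

end corner

section main

variable {V X : Type} [Fintype V] [LinearOrder V] [Fintype X] (G : SimpleGraph V)
  (a : V → X → X) (sgn : V → X → Bool)

/-- the hypotheses on the action and the signs -/
structure Hyp : Prop where
  hi : ∀ v x, a v (a v x) = x
  hc : ∀ u v, G.Adj u v → ∀ x, a u (a v x) = a v (a u x)
  hs : ∀ v x, sgn v (a v x) = !(sgn v x)
  ho : ∀ u v, u ≠ v → ∀ x, sgn u (a v x) = sgn u x

/-- index set of the basis of the chains -/
def XI (i : ℕ) : Type :=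
  {p : X × Finset V // G.IsClique (p.2 : Set V) ∧ p.2.card = i ∧ ∀ t ∈ p.2, sgn t p.1 = false}

noncomputable instance (i : ℕ) : Fintype (XI G sgn i) := by
  classical
  exact Subtype.fintype _

noncomputable instance (i : ℕ) : DecidableEq (XI G sgn i) := Classical.decEq _

open Classical in
/-- the integral basis -/
noncomputable def ee {i : ℕ} (p : XI G sgn i) (T : Finset V) (y : X) : ℤ :=
  if p.1.2 = T ∧ cr a sgn T.toList y = p.1.1 then ep sgn T y else 0

variable {G a sgn}

lemma cr_inv' (H : Hyp G a sgn) (T : Finset V) (hT : G.IsClique (T : Set V)) (s : V) (hs : s ∈ T)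
    (y : X) : cr a sgn T.toList (a s y) = cr a sgn T.toList y := by
  refine cr_inv G H.hi H.hc H.hs H.ho T.toList T.nodup_toList ?_ s (by simpa using hs) y
  intro u hu v hv huv
  exact hT (by simpa using hu) (by simpa using hv) huv

lemma ee_anti (H : Hyp G a sgn) {i : ℕ} (p : XI G sgn i) (T : Finset V) (t : V) (ht : t ∈ T)
    (y : X) : ee G a sgn p T (a t y) = - ee G a sgn p T y := by
  unfold ee
  by_cases hp : p.1.2 = T
  · have hcl : G.IsClique (T : Set V) := hp ▸ p.2.1
    rw [cr_inv' H T hcl t ht y, ep_anti H.hs H.ho T t ht y]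
    split_ifs <;> simp
  · simp [hp]

/-- the parametrisation of the chains -/
noncomputable def Phi (F : Type) [Field F] (G : SimpleGraph V) (a : V → X → X)
    (sgn : V → X → Bool) (i : ℕ) : (XI G sgn i → F) →ₗ[F] (Finset V → X → F) where
  toFun f T y := ∑ p, f p * (ee G a sgn p T y : F)
  map_add' f g := by
    funext T y
    simp [add_mul, sum_add_distrib]
  map_smul' r f := by
    funext T y
    simp [mul_sum, mul_assoc]

lemma Phi_apply (F : Type) [Field F] (i : ℕ) (f : XI G sgn i → F) (T : Finset V) (y : X) :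
    Phi F G a sgn i f T y = ∑ p, f p * (ee G a sgn p T y : F) := rfl

lemma Phi_mem (F : Type) [Field F] (H : Hyp G a sgn) (i : ℕ) (f : XI G sgn i → F) :
    Phi F G a sgn i f ∈ KK G (pull F a) Set.univ ∅ i := by
  rw [mem_KK]
  constructor
  · intro T hT
    funext y
    rw [Phi_apply]
    refine sum_eq_zero fun p _ => ?_
    have hp : p.1.2 ≠ T := by
      intro h
      exact hT ⟨h ▸ p.2.1, Set.subset_univ _, h ▸ p.2.2.1⟩
    simp [ee, hp]
  · intro T t ht
    have ht : t ∈ T := by simpa using ht
    funext y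
    rw [pull_apply, Pi.neg_apply, Phi_apply, Phi_apply, ← sum_neg_distrib]
    refine sum_congr rfl fun p _ => ?_
    rw [ee_anti H p T t ht]
    push_cast
    ring

lemma Phi_surj (F : Type) [Field F] (H : Hyp G a sgn) (i : ℕ) (c : Finset V → X → F)
    (hc : c ∈ KK G (pull F a) Set.univ ∅ i) :
    Phi F G a sgn i (fun p => c p.1.2 p.1.1) = c := by
  classical
  rw [mem_KK] at hc
  funext T y
  rw [Phi_apply]
  by_cases hT : G.IsClique (T : Set V) ∧ (T : Set V) ⊆ Set.univ ∧ T.card = i
  · have hsg : ∀ t ∈ T, sgn t (cr a sgn T.toList y) = false := by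
      intro t ht
      by_contra hcon
      have h1 : sgn t (cr a sgn T.toList y) = true := by simpa using hcon
      exact (cr_sgn H.hs H.ho T.toList y t h1).1 (by simpa using ht)
    let p0 : XI G sgn i := ⟨(cr a sgn T.toList y, T), hT.1, hT.2.2, hsg⟩
    rw [sum_eq_single p0]
    · have h1 : ee G a sgn p0 T y = ep sgn T y := by
        unfold ee
        rw [if_pos ⟨rfl, rfl⟩]
      have h2 := val_cr (F := F) (a := a) (sgn := sgn) H.ho (c T) T.toList T.nodup_toList
        (fun t ht z => by
          have := congrFun (hc.2 T t (Or.inl (by simpa using ht))) z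
          rwa [pull_apply] at this) y
      have h3 : (T.toList.map fun t => if sgn t y = true then (-1 : ℤ) else 1).prod =
          ep sgn T y := by
        unfold ep
        rw [Finset.prod_map_toList]
      rw [h3] at h2
      show c T (cr a sgn T.toList y) * (ee G a sgn p0 T y : F) = c T y
      rw [h1, h2, mul_comm (ep sgn T y : F), mul_assoc, ← Int.cast_mul, ep_mul]
      simp
    · intro p _ hp
      have : ¬ (p.1.2 = T ∧ cr a sgn T.toList y = p.1.1) := by
        rintro ⟨h1, h2⟩
        apply hp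
        apply Subtype.ext
        exact Prod.ext h2.symm h1
      simp [ee, this]
    · intro h
      exact absurd (mem_univ _) h
  · rw [hc.1 T hT]
    refine sum_eq_zero fun p _ => ?_
    have hp : p.1.2 ≠ T := by
      intro h
      exact hT ⟨h ▸ p.2.1, Set.subset_univ _, h ▸ p.2.2.1⟩
    simp [ee, hp]

lemma Phi_inj (F : Type) [Field F] (i : ℕ) :
    Function.Injective (Phi F G a sgn i) := by
  classical
  rw [injective_iff_map_eq_zero]
  intro f hf
  funext p
  have h1 := congrFun (congrFun hf p.1.2) p.1.1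
  rw [Phi_apply, sum_eq_single p] at h1
  · have h2 : ee G a sgn p p.1.2 p.1.1 = 1 := by
      unfold ee
      rw [if_pos ⟨rfl, cr_of_false _ _ fun t ht => p.2.2.2 t (by simpa using ht)⟩,
        ep_of_false _ _ p.2.2.2]
    rw [h2] at h1
    simpa using h1
  · intro q _ hq
    have : ¬ (q.1.2 = p.1.2 ∧ cr a sgn (p.1.2).toList p.1.1 = q.1.1) := by
      rintro ⟨h3, h4⟩
      rw [cr_of_false _ _ fun t ht => p.2.2.2 t (by simpa using ht)] at h4
      apply hq
      apply Subtype.ext
      exact Prod.ext h4.symm h3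
    simp [ee, this]
  · intro h
    exact absurd (mem_univ _) h

lemma range_Phi (F : Type) [Field F] (H : Hyp G a sgn) (i : ℕ) :
    LinearMap.range (Phi F G a sgn i) = KK G (pull F a) Set.univ ∅ i := by
  apply le_antisymm
  · rintro _ ⟨f, rfl⟩
    exact Phi_mem F H i f
  · intro c hc
    exact ⟨_, Phi_surj F H i c hc⟩

variable (G a sgn) in
/-- the integral matrix of the boundary operator -/
noncomputable def Am (i : ℕ) : Matrix (Finset V × X) (XI G sgn i) ℤ :=
  fun q p => ∑ v ∈ q.1ᶜ, sg v q.1 * ee G a sgn p (insert v q.1) q.2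

lemma bd_Phi (F : Type) [Field F] (i : ℕ) (f : XI G sgn i → F) (T : Finset V) (y : X) :
    bd F (Phi F G a sgn i f) T y = ((Am G a sgn i).map (Int.cast : ℤ → F)).mulVec f (T, y) := by
  rw [bd_apply, Finset.sum_apply]
  simp only [Pi.smul_apply, Phi_apply, Matrix.mulVec, dotProduct, Matrix.map_apply, Am]
  simp only [zsmul_eq_mul, mul_sum, Int.cast_sum, Int.cast_mul, sum_mul]
  rw [sum_comm]
  refine sum_congr rfl fun p _ => sum_congr rfl fun v _ => ?_
  ring

lemma rank_Am (F : Type) [Field F] (i : ℕ) :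
    ((Am G a sgn i).map (Int.cast : ℤ → F)).rank =
      finrank F (LinearMap.range ((bd F).comp (Phi F G a sgn i))) := by
  have h1 : ((Am G a sgn i).map (Int.cast : ℤ → F)).mulVecLin =
      ((LinearEquiv.curry F F (Finset V) X).symm : (Finset V → X → F) →ₗ[F] _).comp
        ((bd F).comp (Phi F G a sgn i)) := by
    apply LinearMap.ext
    intro f
    funext q
    obtain ⟨T, y⟩ := q
    exact (bd_Phi F i f T y).symm
  unfold Matrix.rank
  rw [h1, LinearMap.range_comp]
  exact LinearEquiv.finrank_map_eq _ _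

lemma finrank_BB (F : Type) [Field F] (H : Hyp G a sgn) (i : ℕ) :
    finrank F (BB G (pull F a) Set.univ ∅ i) =
      ((Am G a sgn (i + 1)).map (Int.cast : ℤ → F)).rank := by
  rw [rank_Am, LinearMap.range_comp, range_Phi F H]
  rfl

lemma finrank_ZZ (F : Type) [Field F] (H : Hyp G a sgn) (i : ℕ) :
    ((Am G a sgn i).map (Int.cast : ℤ → F)).rank + finrank F (ZZ G (pull F a) Set.univ ∅ i) =
      Fintype.card (XI G sgn i) := by
  have h1 : ZZ G (pull F a) Set.univ ∅ i =
      (LinearMap.ker ((bd F).comp (Phi F G a sgn i))).map (Phi F G a sgn i) := by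
    apply le_antisymm
    · rintro c ⟨hc, hc2⟩
      refine ⟨fun p => c p.1.2 p.1.1, ?_, Phi_surj F H i c hc⟩
      show bd F (Phi F G a sgn i _) = 0
      rw [Phi_surj F H i c hc]
      exact hc2
    · rintro _ ⟨f, hf, rfl⟩
      exact ⟨Phi_mem F H i f, hf⟩
  have h2 : finrank F (ZZ G (pull F a) Set.univ ∅ i) =
      finrank F (LinearMap.ker ((bd F).comp (Phi F G a sgn i))) := by
    rw [h1]
    exact (Submodule.equivMapOfInjective _ (Phi_inj F i) _).symm.finrank_eq
  rw [rank_Am, h2, LinearMap.finrank_range_add_finrank_ker]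
  exact Module.finrank_fintype_fun_eq_card F

/-- exchange of the variables -/
def sw : (X → Finset V → ℝ) →ₗ[ℝ] (Finset V → X → ℝ) where
  toFun c T x := c x T
  map_add' _ _ := rfl
  map_smul' _ _ := rfl

lemma sw_inj : Function.Injective (sw (V := V) (X := X)) := by
  intro c d h
  funext x T
  exact congrFun (congrFun h T) x

/-- harmonic boundaries vanish -/
lemma harm_zero (H : Hyp G a sgn) (i : ℕ) (c d : Finset V → X → ℝ)
    (hc : c ∈ KK G (pull ℝ a) Set.univ ∅ (i + 1)) (hd : bd ℝ c = d)
    (hco : ∀ x (T : Finset V), G.IsClique (T : Set V) →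
      ∑ t ∈ T, (sg t (T.erase t) : ℝ) * (d (T.erase t) x - d (T.erase t) (a t x)) = 0) :
    d = 0 := by
  classical
  rw [mem_KK] at hc
  have key : ∀ T : Finset V, ∑ t ∈ T, (sg t (T.erase t) : ℝ) *
      ∑ x, c T x * d (T.erase t) x = 0 := by
    intro T
    by_cases hT : G.IsClique (T : Set V)
    · have h1 : ∑ x, c T x * ∑ t ∈ T, (sg t (T.erase t) : ℝ) *
          (d (T.erase t) x - d (T.erase t) (a t x)) = 0 :=
        sum_eq_zero fun x _ => by rw [hco x T hT, mul_zero]
      have h2 : ∑ x, c T x * ∑ t ∈ T, (sg t (T.erase t) : ℝ) *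
          (d (T.erase t) x - d (T.erase t) (a t x)) =
          ∑ t ∈ T, (sg t (T.erase t) : ℝ) * (2 * ∑ x, c T x * d (T.erase t) x) := by
        simp only [mul_sum]
        rw [sum_comm]
        refine sum_congr rfl fun t ht => ?_
        have h3 : ∑ x, c T x * d (T.erase t) (a t x) = - ∑ x, c T x * d (T.erase t) x := by
          rw [← sum_neg_distrib]
          let e : X ≃ X := ⟨a t, a t, H.hi t, H.hi t⟩
          rw [← Equiv.sum_comp e (fun x => c T x * d (T.erase t) (a t x))]
          refine sum_congr rfl fun x _ => ?_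
          have h4 := congrFun (hc.2 T t (Or.inl ht)) x
          rw [pull_apply, Pi.neg_apply] at h4
          show c T (a t x) * d (T.erase t) (a t (a t x)) = _
          rw [H.hi, h4]
          ring
        have h5 : ∑ x, c T x * ((sg t (T.erase t) : ℝ) *
            (d (T.erase t) x - d (T.erase t) (a t x))) =
            (sg t (T.erase t) : ℝ) * (∑ x, c T x * d (T.erase t) x -
              ∑ x, c T x * d (T.erase t) (a t x)) := by
          rw [← sum_sub_distrib, mul_sum]
          refine sum_congr rfl fun x _ => ?_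
          ring
        rw [h5, h3]
        have h6 : ∑ x, (sg t (T.erase t) : ℝ) * (2 * (c T x * d (T.erase t) x)) =
            (sg t (T.erase t) : ℝ) * (2 * ∑ x, c T x * d (T.erase t) x) := by
          rw [mul_sum, mul_sum]
        rw [h6]
        ring
      rw [h1] at h2
      have h7 : ∑ t ∈ T, (sg t (T.erase t) : ℝ) * (2 * ∑ x, c T x * d (T.erase t) x) =
          2 * ∑ t ∈ T, (sg t (T.erase t) : ℝ) * ∑ x, c T x * d (T.erase t) x := by
        rw [mul_sum]
        refine sum_congr rfl fun t _ => ?_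
        ring
      rw [h7] at h2
      linarith
    · have h0 : c T = 0 := hc.1 T fun h => hT h.1
      refine sum_eq_zero fun t _ => ?_
      rw [h0]
      simp
  have hsq : ∑ T, ∑ x, d T x * d T x = 0 := by
    have h1 : ∀ T : Finset V, ∑ x, d T x * d T x =
        ∑ v ∈ Tᶜ, (sg v T : ℝ) * ∑ x, c (insert v T) x * d T x := by
      intro T
      have h2 : ∀ x, d T x = ∑ v ∈ Tᶜ, (sg v T : ℝ) * c (insert v T) x := by
        intro x
        rw [← hd, bd_apply, Finset.sum_apply]
        simp only [Pi.smul_apply, zsmul_eq_mul]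
      have h3 : ∀ x, d T x * d T x =
          ∑ v ∈ Tᶜ, (sg v T : ℝ) * (c (insert v T) x * d T x) := by
        intro x
        conv_lhs => rw [h2 x, sum_mul]
        rw [← h2 x]
        refine sum_congr rfl fun v _ => ?_
        ring
      rw [sum_congr rfl fun x _ => h3 x, sum_comm]
      refine sum_congr rfl fun v _ => ?_
      rw [mul_sum]
    rw [sum_congr rfl fun T _ => h1 T]
    rw [← sum_eq_zero fun T (_ : T ∈ (univ : Finset (Finset V))) => key T]
    rw [sum_sigma', sum_sigma']
    refine sum_nbij' (fun z : (_ : Finset V) × V => ⟨insert z.2 z.1, z.2⟩)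
      (fun z : (_ : Finset V) × V => ⟨z.1.erase z.2, z.2⟩) ?_ ?_ ?_ ?_ ?_
    · rintro ⟨T, v⟩ h
      simp
    · rintro ⟨T, v⟩ h
      simp
    · rintro ⟨T, v⟩ h
      simp only [mem_sigma, mem_univ, mem_compl, true_and] at h
      simp [erase_insert h]
    · rintro ⟨T, v⟩ h
      simp only [mem_sigma, mem_univ, true_and] at h
      simp [insert_erase h]
    · rintro ⟨T, v⟩ h
      simp only [mem_sigma, mem_univ, mem_compl, true_and] at h
      simp [erase_insert h]
  funext T x
  have h1 := (sum_eq_zero_iff_of_nonneg (fun T _ => sum_nonneg fun x _ =>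
    mul_self_nonneg (d T x))).1 hsq T (mem_univ _)
  have h2 := (sum_eq_zero_iff_of_nonneg (fun x _ => mul_self_nonneg (d T x))).1 h1 x (mem_univ _)
  exact mul_self_eq_zero.1 h2

end main

theorem hodge : S_HODGE := by
  intro V X _ _ _ G a sgn h1 h2 h3 h4 i K hK
  have H : Hyp G a sgn := ⟨h1, h2, h3, h4⟩
  have hz3 := finrank_ZZ (ZMod 3) H i
  have hzR := finrank_ZZ ℝ H i
  have hb3 := finrank_BB (ZMod 3) H i
  have hbR := finrank_BB ℝ H i
  have hr1 := rank_mod (Am G a sgn i)
  have hr2 := rank_mod (Am G a sgn (i + 1))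
  have hKf : finrank ℝ K = finrank ℝ (K.map (sw (V := V) (X := X))) :=
    (Submodule.equivMapOfInjective _ sw_inj _).finrank_eq
  have hKZ : K.map (sw (V := V) (X := X)) ≤ ZZ G (pull ℝ a) Set.univ ∅ i := by
    rintro _ ⟨c, hc, rfl⟩
    obtain ⟨k1, k2, k3, k4⟩ := hK c hc
    refine ⟨?_, ?_⟩
    · rw [SetLike.mem_coe, mem_KK]
      refine ⟨fun T hT => ?_, fun T t ht => ?_⟩
      · funext x
        exact k1 x T fun h => hT ⟨h.1, Set.subset_univ _, h.2⟩
      · funext x
        exact k2 x T t (by simpa using ht)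
    · show bd ℝ (sw c) = 0
      funext T x
      rw [bd_apply, Finset.sum_apply]
      simp only [Pi.smul_apply, zsmul_eq_mul]
      exact k3 x T
  have hdis : K.map (sw (V := V) (X := X)) ⊓ BB G (pull ℝ a) Set.univ ∅ i = ⊥ := by
    rw [eq_bot_iff]
    rintro _ ⟨⟨c, hc, rfl⟩, ⟨b, hb, hb2⟩⟩
    obtain ⟨k1, k2, k3, k4⟩ := hK c hc
    exact harm_zero H i b (sw c) hb hb2 k4
  have hsum := Submodule.finrank_sup_add_finrank_inf_eq (K.map (sw (V := V) (X := X)))
    (BB G (pull ℝ a) Set.univ ∅ i)
  rw [hdis, finrank_bot] at hsum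
  have hle : finrank ℝ (K.map (sw (V := V) (X := X)) ⊔ BB G (pull ℝ a) Set.univ ∅ i : Submodule ℝ _) ≤
      finrank ℝ (ZZ G (pull ℝ a) Set.univ ∅ i) :=
    Submodule.finrank_mono (sup_le hKZ (BB_le_ZZ _ _ _ _ _))
  unfold beta
  omega

end Pool.Agent.W334.SG
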