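import Pool.Agent.H7.L.W907_SG_Stmts

namespace Pool.Agent.W907.SG

open Module

/-! ### general odd primes -/

/-- LINEP: as `S_LINE` for any prime -/
def S_LINEP : Prop := ∀ (p : ℕ) [Fact p.Prime] (V N : Type) [Finite V] [AddCommGroup N] [Module (ZMod p) N]
    [FiniteDimensional (ZMod p) N] [Nontrivial N] (σ : V → N →ₗ[ZMod p] N), p ≠ 2 → (∀ v m, σ v (σ v m) = m) →
    (∀ l : List V, EvenWord l → ∃ k : ℕ, ∀ x, (fun y => l.foldr (fun v => σ v) y)^[p ^ k] x = x) →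
    ∃ x : N, x ≠ 0 ∧ ∀ v, σ v x = x ∨ σ v x = - x

/-- MLP: as `S_ML` for any odd prime -/
def S_MLP : Prop := ∀ (p : ℕ) [Fact p.Prime] (V X Y : Type) [Fintype V] [LinearOrder V] [Fintype X] [Fintype Y]
    (G : SimpleGraph V) (a : V → X → X) (sgn : V → X → Bool) (b : V → Y → Y), p ≠ 2 →
    (∀ v x, a v (a v x) = x) → (∀ u v, G.Adj u v → ∀ x, a u (a v x) = a v (a u x)) →
    (∀ v x, sgn v (a v x) = !(sgn v x)) → (∀ u v, u ≠ v → ∀ x, sgn u (a v x) = sgn u x) →
    (∀ v y, b v (b v y) = y) → (∀ u v, G.Adj u v → ∀ y, b u (b v y) = b v (b u y)) →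
    (∀ l : List V, EvenWord l → ∃ k : ℕ, ∀ x, (fun y => l.foldr b y)^[p ^ k] x = x) →
    ∀ i, beta G (pull (ZMod p) (fun v (z : X × Y) => (a v z.1, b v z.2))) Set.univ ∅ i ≤
      Fintype.card Y * beta G (pull (ZMod p) a) Set.univ ∅ i

/-- NILP: as `S_NIL` for any odd prime -/
def S_NILP : Prop := ∀ (p : ℕ) [Fact p.Prime] (V : Type) [Finite V] (G : SimpleGraph V) (E : Finset (W G)), p ≠ 2 →
    (1 : W G) ∉ E →
    ∃ (Y : Type) (_ : Fintype Y) (_ : Nonempty Y) (P : PSet p G Y) (ev : Y → W G → Y),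
      (∀ y, ev y 1 = y) ∧ (∀ y g h, ev y (g * h) = ev (ev y g) h) ∧ (∀ y v, ev y ((cox G).simple v) = P.a v y) ∧
      ∀ g ∈ E, ∀ y, ev y g ≠ y

/-- the real harmonic `i`-chains on a `W_G`-set -/
def HarmSet {V X : Type} [Fintype V] [LinearOrder V] (G : SimpleGraph V) (a : V → X → X) (i : ℕ)
    (c : X → Finset V → ℝ) : Prop :=
  (∀ x (T : Finset V), ¬ (G.IsClique (T : Set V) ∧ T.card = i) → c x T = 0) ∧
  (∀ x (T : Finset V) t, t ∈ T → c (a t x) T = - c x T) ∧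
  (∀ x (T : Finset V), ∑ v ∈ Tᶜ, (sg v T : ℝ) * c x (insert v T) = 0) ∧
  (∀ x (T : Finset V), G.IsClique (T : Set V) →
    ∑ t ∈ T, (sg t (T.erase t) : ℝ) * (c x (T.erase t) - c (a t x) (T.erase t)) = 0)

/-- HODR: finite-dimensional Hodge theorem: real Betti number = dimension of the space of harmonic chains -/
def S_HODR : Prop := ∀ (V X : Type) [Fintype V] [LinearOrder V] [Fintype X] (G : SimpleGraph V) (a : V → X → X),
    (∀ v x, a v (a v x) = x) → (∀ u v, G.Adj u v → ∀ x, a u (a v x) = a v (a u x)) →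
    ∀ (i : ℕ) (K : Submodule ℝ (X → Finset V → ℝ)), (∀ c, c ∈ K ↔ HarmSet G a i c) →
    finrank ℝ K = beta G (pull ℝ a) Set.univ ∅ i

/-- CHAR: real Betti numbers are at most mod `p` Betti numbers; equality (i.e. `≥`) for large `p` -/
def S_CHAR : Prop := ∀ (V X : Type) [Fintype V] [LinearOrder V] [Fintype X] (G : SimpleGraph V)
    (a : V → X → X) (sgn : V → X → Bool),
    (∀ v x, a v (a v x) = x) → (∀ u v, G.Adj u v → ∀ x, a u (a v x) = a v (a u x)) →
    (∀ v x, sgn v (a v x) = !(sgn v x)) → (∀ u v, u ≠ v → ∀ x, sgn u (a v x) = sgn u x) →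
    ∀ i, (∀ (p : ℕ) [Fact p.Prime], p ≠ 2 → beta G (pull ℝ a) Set.univ ∅ i ≤ beta G (pull (ZMod p) a) Set.univ ∅ i) ∧
      ∃ P0 : ℕ, ∀ (p : ℕ) [Fact p.Prime], P0 ≤ p →
        beta G (pull (ZMod p) a) Set.univ ∅ i ≤ beta G (pull ℝ a) Set.univ ∅ i

/-- KAZ: if the integral local operator `B` has no `ℓ²` kernel then its normalised nullities on finite `Γ`-sets with
large injectivity radius are small -/
def S_KAZ : Prop := ∀ (Γ 𝓣 𝓣' J : Type) [Group Γ] [Fintype 𝓣] [Fintype 𝓣'] [Fintype J]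
    (γ : J → Γ) (b : J → 𝓣' → 𝓣 → ℤ),
    (∀ c : Γ → 𝓣 → ℝ, (Summable fun x : Γ × 𝓣 => (c x.1 x.2) ^ 2) →
      (∀ g τ', ∑ j, ∑ τ, (b j τ' τ : ℝ) * c (g * γ j) τ = 0) → c = 0) →
    ∀ N : ℕ, ∃ E : Finset Γ, (1 : Γ) ∉ E ∧ ∀ (X : Type) [Fintype X] (act : X → Γ → X),
      (∀ x, act x 1 = x) → (∀ x g h, act x (g * h) = act (act x g) h) → (∀ g ∈ E, ∀ x, act x g ≠ x) →
      ∀ K : Submodule ℝ (X → 𝓣 → ℝ), (∀ c, c ∈ K ↔ ∀ x τ', ∑ j, ∑ τ, (b j τ' τ : ℝ) * c (act x (γ j)) τ = 0) →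
        N * finrank ℝ K ≤ Fintype.card X

/-- SMALL: `ℓ²` vanishing gives smallness of real Betti numbers of finite `W_G`-sets with large injectivity radius -/
def S_SMALL : Prop := ∀ (V : Type) [Fintype V] [LinearOrder V] (G : SimpleGraph V) (i : ℕ), L2Van G i →
    ∀ N : ℕ, ∃ E : Finset (W G), (1 : W G) ∉ E ∧ ∀ (X : Type) [Fintype X] (a : V → X → X) (ev : X → W G → X),
      (∀ v x, a v (a v x) = x) → (∀ u v, G.Adj u v → ∀ x, a u (a v x) = a v (a u x)) →
      (∀ x, ev x 1 = x) → (∀ x g h, ev x (g * h) = ev (ev x g) h) → (∀ x v, ev x ((cox G).simple v) = a v x) →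
      (∀ g ∈ E, ∀ x, ev x g ≠ x) → N * beta G (pull ℝ a) Set.univ ∅ i ≤ Fintype.card X

/-- LARGE: the converse direction: if for all `N` and all finite sets `E` of nontrivial elements of `W G` there is a
finite `W_G`-set with signs on which `E` acts freely, with small real Betti number, then `L2Van G i` -/
def S_LARGE : Prop := ∀ (V : Type) [Fintype V] [LinearOrder V] (G : SimpleGraph V) (i : ℕ),
    (∀ (N : ℕ) (E : Finset (W G)), (1 : W G) ∉ E → ∃ (X : Type) (_ : Fintype X) (_ : Nonempty X) (a : V → X → X)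
      (ev : X → W G → X), (∀ v x, a v (a v x) = x) ∧ (∀ u v, G.Adj u v → ∀ x, a u (a v x) = a v (a u x)) ∧
      (∀ x, ev x 1 = x) ∧ (∀ x g h, ev x (g * h) = ev (ev x g) h) ∧ (∀ x v, ev x ((cox G).simple v) = a v x) ∧
      (∀ g ∈ E, ∀ x, ev x g ≠ x) ∧ N * beta G (pull ℝ a) Set.univ ∅ i ≤ Fintype.card X) → L2Van G i

/-- ORD: `L2Van` does not depend on the linear order and is invariant under isomorphism -/
def S_ORD : Prop := ∀ (V U : Type) (_ : Fintype V) (_ : Fintype U) (o : LinearOrder V) (o' : LinearOrder U)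
    (G : SimpleGraph V) (H : SimpleGraph U) (i : ℕ), Nonempty (G ≃g H) → @L2Van V _ o G i → @L2Van U _ o' H i

/-- L2ADD: adding a vertex -/
def S_L2ADD : Prop := ∀ (V : Type) [Fintype V] [LinearOrder V] (G : SimpleGraph V) (v : V)
    [Fintype ↥({v}ᶜ : Set V)] [Fintype (G.neighborSet v)] (i : ℕ),
    L2Van (G.induce {v}ᶜ) i → (∀ j, i = j + 1 → L2Van (G.induce (G.neighborSet v)) j) → L2Van G i

/-- L2DEL: deleting an edge -/
def S_L2DEL : Prop := ∀ (V : Type) [Fintype V] [LinearOrder V] (G : SimpleGraph V) (s t : V)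
    [Fintype ↥(G.neighborSet s ∩ G.neighborSet t)] (i : ℕ), G.Adj s t →
    L2Van G i → (∀ j, i = j + 1 → L2Van (G.induce (G.neighborSet s ∩ G.neighborSet t)) j) →
    L2Van (G.deleteEdges {s(s, t)}) i

/-- L2SUB: edge subdivisions of arbitrary flag complexes -/
def S_L2SUB : Prop := ∀ (V : Type) [Fintype V] [LinearOrder V] (G : SimpleGraph V) (s t : V)
    [Fintype ↥(G.neighborSet s ∩ G.neighborSet t)] [LinearOrder (Option V)] (i : ℕ), G.Adj s t →
    L2Van G i → (∀ j, i = j + 1 → L2Van (G.induce (G.neighborSet s ∩ G.neighborSet t)) j) →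
    L2Van (esub G s t) i

/-! ### Euler characteristic -/

open Classical in
/-- the rational Euler characteristic of `W G`, `∑_T (-1/2)^{|T|}` over all cliques `T` (including `∅`) -/
noncomputable def chiW {V : Type} [Fintype V] (G : SimpleGraph V) : ℚ :=
  ∑ T : Finset V, if G.IsClique (T : Set V) then (-1 / 2 : ℚ) ^ T.card else 0

/-- EUL: if all but one degree are small and the Euler characteristic vanishes, the last degree is small as well -/
def S_EUL : Prop := ∀ (V : Type) [Fintype V] (G : SimpleGraph V) (m : ℕ),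
    (∀ i, i ≠ m → SP G i) → chiW G = 0 → SP G m

end Pool.Agent.W907.SG
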