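import Pool.Agent.H7.L.W290_SG_Rank
import Pool.Agent.H7.L.W334_SG_Hodge
import Pool.Agent.H7.L.W907_SG_Stmts2

/-! Task SG2-HODR (helper907): the finite-dimensional Hodge theorem and the comparison of
characteristics. -/

set_option autoImplicit false

namespace Pool.Agent.W290.SG

open Module Finset
open Pool.Agent.W907.SG
open Pool.Agent.W334.SG (Hyp Am finrank_ZZ finrank_BB sw sw_inj)

theorem charcmp : S_CHAR := by
  intro V X _ _ _ G a sgn h1 h2 h3 h4 i
  have H : Hyp G a sgn := ⟨h1, h2, h3, h4⟩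
  constructor
  · intro p hp _
    have hz3 := finrank_ZZ (ZMod p) H i
    have hzR := finrank_ZZ ℝ H i
    have hb3 := finrank_BB (ZMod p) H i
    have hbR := finrank_BB ℝ H i
    have hr1 := rank_modp p (Am G a sgn i)
    have hr2 := rank_modp p (Am G a sgn (i + 1))
    unfold beta
    omega
  · obtain ⟨P1, hP1⟩ := rank_large (Am G a sgn i)
    obtain ⟨P2, hP2⟩ := rank_large (Am G a sgn (i + 1))
    refine ⟨P1 + P2, ?_⟩
    intro p hp hle
    have hz3 := finrank_ZZ (ZMod p) H i
    have hzR := finrank_ZZ ℝ H i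
    have hb3 := finrank_BB (ZMod p) H i
    have hbR := finrank_BB ℝ H i
    have hr1 := hP1 p (by omega)
    have hr2 := hP2 p (by omega)
    unfold beta
    omega

section main

variable {V X : Type} [Fintype V] [LinearOrder V] [Fintype X] {G : SimpleGraph V}
  {a : V → X → X}

/-- the boundary and the coboundary are adjoint up to the factor 2 -/
theorem adj (hi : ∀ v x, a v (a v x) = x) (i : ℕ) (c d : Finset V → X → ℝ)
    (hc : c ∈ KK G (pull ℝ a) Set.univ ∅ (i + 1)) :
    ∑ T, ∑ x, c T x * ∑ t ∈ T, (sg t (T.erase t) : ℝ) * (d (T.erase t) x - d (T.erase t) (a t x)) =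
      2 * ∑ T, ∑ x, bd ℝ c T x * d T x := by
  classical
  rw [mem_KK] at hc
  have key : ∀ T : Finset V, ∑ x, c T x * ∑ t ∈ T, (sg t (T.erase t) : ℝ) *
      (d (T.erase t) x - d (T.erase t) (a t x)) =
      2 * ∑ t ∈ T, (sg t (T.erase t) : ℝ) * ∑ x, c T x * d (T.erase t) x := by
    intro T
    simp only [mul_sum]
    rw [sum_comm]
    refine sum_congr rfl fun t ht => ?_
    have h3 : ∑ x, c T x * d (T.erase t) (a t x) = - ∑ x, c T x * d (T.erase t) x := by
      rw [← sum_neg_distrib]
      let e : X ≃ X := ⟨a t, a t, hi t, hi t⟩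
      rw [← Equiv.sum_comp e (fun x => c T x * d (T.erase t) (a t x))]
      refine sum_congr rfl fun x _ => ?_
      have h4 := congrFun (hc.2 T t (Or.inl ht)) x
      rw [pull_apply, Pi.neg_apply] at h4
      show c T (a t x) * d (T.erase t) (a t (a t x)) = _
      rw [hi, h4]
      ring
    have h5 : ∑ x, c T x * ((sg t (T.erase t) : ℝ) *
        (d (T.erase t) x - d (T.erase t) (a t x))) =
        (sg t (T.erase t) : ℝ) * (∑ x, c T x * d (T.erase t) x -
          ∑ x, c T x * d (T.erase t) (a t x)) := by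
      rw [← sum_sub_distrib, mul_sum]
      refine sum_congr rfl fun x _ => ?_
      ring
    rw [h5, h3]
    have h6 : ∑ x, 2 * ((sg t (T.erase t) : ℝ) * (c T x * d (T.erase t) x)) =
        2 * ((sg t (T.erase t) : ℝ) * ∑ x, c T x * d (T.erase t) x) := by
      rw [mul_sum, mul_sum]
    rw [h6]
    ring
  have h1 : ∀ T : Finset V, ∑ x, bd ℝ c T x * d T x =
      ∑ v ∈ Tᶜ, (sg v T : ℝ) * ∑ x, c (insert v T) x * d T x := by
    intro T
    have h2 : ∀ x, bd ℝ c T x = ∑ v ∈ Tᶜ, (sg v T : ℝ) * c (insert v T) x := by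
      intro x
      rw [bd_apply, Finset.sum_apply]
      simp only [Pi.smul_apply, zsmul_eq_mul]
    have h3 : ∀ x, bd ℝ c T x * d T x =
        ∑ v ∈ Tᶜ, (sg v T : ℝ) * (c (insert v T) x * d T x) := by
      intro x
      rw [h2 x, sum_mul]
      refine sum_congr rfl fun v _ => ?_
      ring
    rw [sum_congr rfl fun x _ => h3 x, sum_comm]
    refine sum_congr rfl fun v _ => ?_
    rw [mul_sum]
  rw [sum_congr rfl fun T _ => key T, ← mul_sum, sum_congr rfl fun T _ => h1 T]
  congr 1
  symm
  rw [sum_sigma', sum_sigma']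
  refine sum_nbij' (fun z : (_ : Finset V) × V => ⟨insert z.2 z.1, z.2⟩)
    (fun z : (_ : Finset V) × V => ⟨z.1.erase z.2, z.2⟩) ?_ ?_ ?_ ?_ ?_
  · rintro ⟨T, v⟩ h
    simp
  · rintro ⟨T, v⟩ h
    simp
  · rintro ⟨T, v⟩ h
    simp only [mem_sigma, mem_univ, mem_compl, true_and] at h
    simp [erase_insert h]
  · rintro ⟨T, v⟩ h
    simp only [mem_sigma, mem_univ, true_and] at h
    simp [insert_erase h]
  · rintro ⟨T, v⟩ h
    simp only [mem_sigma, mem_univ, mem_compl, true_and] at h
    simp [erase_insert h]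

/-- positive definiteness -/
theorem sq_zero (d : Finset V → X → ℝ) (h : ∑ T, ∑ x, d T x * d T x = 0) : d = 0 := by
  funext T x
  have h1 := (sum_eq_zero_iff_of_nonneg (fun T _ => sum_nonneg fun x _ =>
    mul_self_nonneg (d T x))).1 h T (mem_univ _)
  have h2 := (sum_eq_zero_iff_of_nonneg (fun x _ => mul_self_nonneg (d T x))).1 h1 x (mem_univ _)
  exact mul_self_eq_zero.1 h2

/-- the coboundary condition -/
def Co (G : SimpleGraph V) (a : V → X → X) (d : Finset V → X → ℝ) : Prop :=
  ∀ x (T : Finset V), G.IsClique (T : Set V) →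
    ∑ t ∈ T, (sg t (T.erase t) : ℝ) * (d (T.erase t) x - d (T.erase t) (a t x)) = 0

/-- harmonic boundaries vanish -/
theorem harm_zero (hi : ∀ v x, a v (a v x) = x) (i : ℕ) (d : Finset V → X → ℝ)
    (hd : d ∈ BB G (pull ℝ a) Set.univ ∅ i) (hco : Co G a d) : d = 0 := by
  obtain ⟨c, hc, rfl⟩ := hd
  have h1 := adj hi i c (bd ℝ c) hc
  have h2 : ∑ T, ∑ x, c T x * ∑ t ∈ T, (sg t (T.erase t) : ℝ) *
      (bd ℝ c (T.erase t) x - bd ℝ c (T.erase t) (a t x)) = 0 := by
    refine sum_eq_zero fun T _ => sum_eq_zero fun x _ => ?_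
    by_cases hT : G.IsClique (T : Set V)
    · rw [hco x T hT, mul_zero]
    · have h0 : c T = 0 := (mem_KK.1 hc).1 T fun h => hT h.1
      rw [h0, Pi.zero_apply, zero_mul]
  rw [h2] at h1
  exact sq_zero _ (by linarith)

/-- cycles orthogonal to the boundaries are harmonic -/
theorem orth_harm (hi : ∀ v x, a v (a v x) = x)
    (hcm : ∀ u v, G.Adj u v → ∀ x, a u (a v x) = a v (a u x)) (i : ℕ) (z : Finset V → X → ℝ)
    (hz : z ∈ KK G (pull ℝ a) Set.univ ∅ i)
    (ho : ∀ b ∈ BB G (pull ℝ a) Set.univ ∅ i, ∑ T, ∑ x, b T x * z T x = 0) : Co G a z := by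
  classical
  rw [mem_KK] at hz
  let δ : Finset V → X → ℝ := fun T x => if G.IsClique (T : Set V) then
    ∑ t ∈ T, (sg t (T.erase t) : ℝ) * (z (T.erase t) x - z (T.erase t) (a t x)) else 0
  have hδ : δ ∈ KK G (pull ℝ a) Set.univ ∅ (i + 1) := by
    rw [mem_KK]
    constructor
    · intro T hT
      funext x
      by_cases hcl : G.IsClique (T : Set V)
      · have hcard : T.card ≠ i + 1 := fun h => hT ⟨hcl, Set.subset_univ _, h⟩
        show (if G.IsClique (T : Set V) then _ else _) = (0 : ℝ)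
        rw [if_pos hcl]
        refine sum_eq_zero fun t ht => ?_
        have h1 : z (T.erase t) = 0 := by
          apply hz.1
          rintro ⟨_, _, h⟩
          rw [card_erase_of_mem ht] at h
          have := card_pos.2 ⟨t, ht⟩
          omega
        rw [h1]
        simp
      · show (if G.IsClique (T : Set V) then _ else _) = (0 : ℝ)
        rw [if_neg hcl]
    · intro T s hs
      have hs : s ∈ T := by simpa using hs
      funext x
      rw [pull_apply, Pi.neg_apply]
      show (if G.IsClique (T : Set V) then _ else _) = -(if G.IsClique (T : Set V) then _ else _ : ℝ)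
      by_cases hcl : G.IsClique (T : Set V)
      · rw [if_pos hcl, if_pos hcl, ← sum_neg_distrib]
        refine sum_congr rfl fun t ht => ?_
        by_cases hst : t = s
        · subst hst
          rw [hi]
          ring
        · have hadj : G.Adj t s := hcl ht hs hst
          have h1 : ∀ y, z (T.erase t) (a s y) = - z (T.erase t) y := by
            intro y
            have := congrFun (hz.2 (T.erase t) s (Or.inl (mem_erase.2 ⟨fun e => hst e.symm, hs⟩))) y
            rwa [pull_apply] at this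
          rw [hcm t s hadj x, h1, h1]
          ring
      · rw [if_neg hcl, if_neg hcl, neg_zero]
  have h1 := adj hi i δ z hδ
  have h2 := ho (bd ℝ δ) ⟨δ, hδ, rfl⟩
  rw [h2, mul_zero] at h1
  have h3 : ∑ T, ∑ x, δ T x * δ T x = 0 := by
    rw [← h1]
    refine sum_congr rfl fun T _ => sum_congr rfl fun x _ => ?_
    by_cases hcl : G.IsClique (T : Set V)
    · have e1 : δ T x = ∑ t ∈ T, (sg t (T.erase t) : ℝ) *
          (z (T.erase t) x - z (T.erase t) (a t x)) := if_pos hcl
      rw [← e1]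
    · have e1 : δ T x = 0 := if_neg hcl
      rw [e1]
      ring
  have h4 := sq_zero δ h3
  intro x T hcl
  have h5 := congrFun (congrFun h4 T) x
  have e1 : δ T x = ∑ t ∈ T, (sg t (T.erase t) : ℝ) *
      (z (T.erase t) x - z (T.erase t) (a t x)) := if_pos hcl
  rw [← e1, h5]
  rfl

/-- the pairing -/
noncomputable def pr : (Finset V → X → ℝ) →ₗ[ℝ] (Finset V → X → ℝ) →ₗ[ℝ] ℝ :=
  LinearMap.mk₂ ℝ (fun z b => ∑ T, ∑ x, b T x * z T x)
    (fun z z' b => by
      rw [← sum_add_distrib]
      refine sum_congr rfl fun T _ => ?_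
      rw [← sum_add_distrib]
      refine sum_congr rfl fun x _ => ?_
      simp only [Pi.add_apply]; ring)
    (fun r z b => by
      rw [smul_eq_mul, mul_sum]
      refine sum_congr rfl fun T _ => ?_
      rw [mul_sum]
      refine sum_congr rfl fun x _ => ?_
      simp only [Pi.smul_apply, smul_eq_mul]; ring)
    (fun z b b' => by
      rw [← sum_add_distrib]
      refine sum_congr rfl fun T _ => ?_
      rw [← sum_add_distrib]
      refine sum_congr rfl fun x _ => ?_
      simp only [Pi.add_apply]; ring)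
    (fun r z b => by
      rw [smul_eq_mul, mul_sum]
      refine sum_congr rfl fun T _ => ?_
      rw [mul_sum]
      refine sum_congr rfl fun x _ => ?_
      simp only [Pi.smul_apply, smul_eq_mul]; ring)

theorem pr_apply (z b : Finset V → X → ℝ) : pr z b = ∑ T, ∑ x, b T x * z T x := rfl

/-- the orthogonal complement inside a subspace is large enough -/
theorem finrank_orth (Z B : Submodule ℝ (Finset V → X → ℝ)) (K : Submodule ℝ (Finset V → X → ℝ))
    (hK : ∀ z ∈ Z, (∀ b ∈ B, ∑ T, ∑ x, b T x * z T x = 0) → z ∈ K) :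
    finrank ℝ Z ≤ finrank ℝ B + finrank ℝ K := by
  let ψ : Z →ₗ[ℝ] Module.Dual ℝ B := {
    toFun := fun z => (pr (z : Finset V → X → ℝ)).domRestrict B
    map_add' := fun z z' => by ext b; simp
    map_smul' := fun r z => by ext b; simp }
  have h1 := LinearMap.finrank_range_add_finrank_ker ψ
  have h2 : finrank ℝ (LinearMap.range ψ) ≤ finrank ℝ B := by
    rw [← Subspace.dual_finrank_eq (K := ℝ) (V := B)]
    exact Submodule.finrank_le _
  have h3 : finrank ℝ (LinearMap.ker ψ) ≤ finrank ℝ K := by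
    rw [← Submodule.finrank_map_subtype_eq Z (LinearMap.ker ψ)]
    apply Submodule.finrank_mono
    rintro _ ⟨z, hz, rfl⟩
    apply hK _ z.2
    intro b hb
    have h4 : ψ z = 0 := hz
    exact DFunLike.congr_fun h4 ⟨b, hb⟩
  omega

end main

theorem hodr : S_HODR := by
  intro V X _ _ _ G a hi hcm i K hK
  have hKf : finrank ℝ K = finrank ℝ (K.map (sw (V := V) (X := X))) :=
    (Submodule.equivMapOfInjective _ sw_inj _).finrank_eq
  have hKZ : K.map (sw (V := V) (X := X)) ≤ ZZ G (pull ℝ a) Set.univ ∅ i := by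
    rintro _ ⟨c, hc, rfl⟩
    obtain ⟨k1, k2, k3, k4⟩ := (hK c).1 hc
    refine ⟨?_, ?_⟩
    · rw [SetLike.mem_coe, mem_KK]
      refine ⟨fun T hT => ?_, fun T t ht => ?_⟩
      · funext x
        exact k1 x T fun h => hT ⟨h.1, Set.subset_univ _, h.2⟩
      · funext x
        exact k2 x T t (by simpa using ht)
    · show bd ℝ (sw c) = 0
      funext T x
      rw [bd_apply, Finset.sum_apply]
      simp only [Pi.smul_apply, zsmul_eq_mul]
      exact k3 x T
  have hdis : K.map (sw (V := V) (X := X)) ⊓ BB G (pull ℝ a) Set.univ ∅ i = ⊥ := by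
    rw [eq_bot_iff]
    rintro _ ⟨⟨c, hc, rfl⟩, hb⟩
    obtain ⟨k1, k2, k3, k4⟩ := (hK c).1 hc
    exact harm_zero hi i (sw c) hb k4
  have hsum := Submodule.finrank_sup_add_finrank_inf_eq (K.map (sw (V := V) (X := X)))
    (BB G (pull ℝ a) Set.univ ∅ i)
  rw [hdis, finrank_bot] at hsum
  have hle : finrank ℝ (K.map (sw (V := V) (X := X)) ⊔ BB G (pull ℝ a) Set.univ ∅ i : Submodule ℝ _) ≤
      finrank ℝ (ZZ G (pull ℝ a) Set.univ ∅ i) :=
    Submodule.finrank_mono (sup_le hKZ (BB_le_ZZ _ _ _ _ _))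
  have hge : finrank ℝ (ZZ G (pull ℝ a) Set.univ ∅ i) ≤
      finrank ℝ (BB G (pull ℝ a) Set.univ ∅ i) + finrank ℝ (K.map (sw (V := V) (X := X))) := by
    apply finrank_orth
    intro z hz ho
    obtain ⟨hz1, hz2⟩ := hz
    have hco := orth_harm hi hcm i z hz1 ho
    rw [SetLike.mem_coe, mem_KK] at hz1
    refine ⟨fun x T => z T x, ?_, rfl⟩
    rw [SetLike.mem_coe, hK]
    refine ⟨?_, ?_, ?_, ?_⟩
    · intro x T hT
      exact congrFun (hz1.1 T fun h => hT ⟨h.1, h.2.2⟩) x
    · intro x T t ht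
      have := congrFun (hz1.2 T t (Or.inl ht)) x
      rwa [pull_apply] at this
    · intro x T
      have h1 : bd ℝ z = 0 := hz2
      have h2 := congrFun (congrFun h1 T) x
      rw [bd_apply, Finset.sum_apply] at h2
      simp only [Pi.smul_apply, zsmul_eq_mul] at h2
      exact h2
    · exact hco
  unfold beta
  omega

end Pool.Agent.W290.SG
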