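import Pool.Agent.H7.L.W907_SG_Stmts

/-!
# SG-EDGE: deleting an edge
-/

namespace Pool.Agent.W310.SG

open Pool.Agent.W907.SG

section

variable {V : Type} [Fintype V] [LinearOrder V] {F M : Type} [Field F] [AddCommGroup M] [Module F M]

/-- the map onto the chains of the link of the edge -/
def qq (F : Type) {V M : Type} [Fintype V] [LinearOrder V] [Field F] [AddCommGroup M] [Module F M]
    (s t : V) : (Finset V → M) →ₗ[F] (Finset V → M) where
  toFun c T := if s ∈ T ∨ t ∈ T then 0
    else (sg s (insert t T) * sg t T) • c (insert s (insert t T))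
  map_add' c d := by
    funext T
    simp only [Pi.add_apply]
    split_ifs
    · simp
    · rw [smul_add]
  map_smul' a c := by
    funext T
    simp only [Pi.smul_apply, RingHom.id_apply]
    split_ifs
    · simp
    · exact smul_comm _ _ _

theorem qq_pos (s t : V) (c : Finset V → M) {T : Finset V} (h : s ∈ T ∨ t ∈ T) :
    qq F s t c T = 0 := if_pos h

theorem qq_neg (s t : V) (c : Finset V → M) {T : Finset V} (h : ¬ (s ∈ T ∨ t ∈ T)) :
    qq F s t c T = (sg s (insert t T) * sg t T) • c (insert s (insert t T)) := if_neg h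

omit [Fintype V] in
theorem eps {s t v : V} {T : Finset V} (hst : s ≠ t) (hs : s ∉ T) (ht : t ∉ T) (hv : v ∉ T)
    (hvs : v ≠ s) (hvt : v ≠ t) :
    (sg s (insert t T) * sg t T) * sg v (insert s (insert t T)) =
      sg v T * (sg s (insert t (insert v T)) * sg t (insert v T)) := by
  have h1 := sg_swap v s (insert t T) hvs (by simp [hv, hvt]) (by simp [hs, hst])
  have h2 := sg_swap v t T hvt hv ht
  rw [Finset.insert_comm t v T]
  linear_combination (sg t T) * h1 - (sg s (insert v (insert t T))) * h2

theorem q_bd {s t : V} (hst : s ≠ t) (c : Finset V → M) :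
    qq F s t (bd F c) = bd F (qq F s t c) := by
  funext T
  rw [bd_apply]
  by_cases h : s ∈ T ∨ t ∈ T
  · rw [qq_pos s t _ h]
    symm
    refine Finset.sum_eq_zero fun v _ => ?_
    rw [qq_pos, smul_zero]
    rcases h with h | h
    · left; simp [h]
    · right; simp [h]
  · rw [qq_neg s t _ h, bd_apply, Finset.smul_sum]
    have hs : s ∉ T := fun h' => h (Or.inl h')
    have ht : t ∉ T := fun h' => h (Or.inr h')
    have hsub : (insert s (insert t T))ᶜ ⊆ Tᶜ := by
      intro x hx
      simp only [Finset.mem_compl, Finset.mem_insert, not_or] at hx ⊢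
      exact hx.2.2
    rw [← Finset.sum_subset hsub]
    · refine Finset.sum_congr rfl fun v hv => ?_
      simp only [Finset.mem_compl, Finset.mem_insert, not_or] at hv
      obtain ⟨hvs, hvt, hvT⟩ := hv
      rw [qq_neg, smul_smul, smul_smul, eps hst hs ht hvT hvs hvt]
      · congr 2
        ext x
        simp only [Finset.mem_insert]
        tauto
      · simp [hs, ht, Ne.symm hvs, Ne.symm hvt]
    · intro v hv hv2
      simp only [Finset.mem_compl, Finset.mem_insert, not_or, not_and, not_not] at hv hv2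
      rw [qq_pos, smul_zero]
      by_cases h1 : v = s
      · left; simp [h1]
      · by_cases h2 : v = t
        · right; simp [h2]
        · exact absurd (hv2 h1 h2) hv

variable {G : SimpleGraph V} {ρ : V → M →ₗ[F] M} {s t : V}

theorem q_mem {i : ℕ} {c : Finset V → M} (hst : G.Adj s t) (h : c ∈ KK G ρ Set.univ ∅ (i + 2)) :
    qq F s t c ∈ KK G ρ (G.neighborSet s ∩ G.neighborSet t) {s, t} i := by
  rw [mem_KK] at h ⊢
  obtain ⟨h1, h2⟩ := h
  refine ⟨fun T hT => ?_, fun T u hu => ?_⟩
  · by_cases hm : s ∈ T ∨ t ∈ T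
    · exact qq_pos s t c hm
    · rw [qq_neg s t c hm, h1, smul_zero]
      rintro ⟨h3, -, h5⟩
      have hs : s ∉ T := fun h' => hm (Or.inl h')
      have ht : t ∉ T := fun h' => hm (Or.inr h')
      apply hT
      refine ⟨h3.subset (by
        intro x hx
        simp only [Finset.coe_insert, Set.mem_insert_iff]
        exact Or.inr (Or.inr hx)), ?_, ?_⟩
      · intro x hx
        have hxT : x ∈ T := hx
        have hxs : s ≠ x := fun e => hs (e ▸ hxT)
        have hxt : t ≠ x := fun e => ht (e ▸ hxT)
        refine ⟨?_, ?_⟩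
        · exact h3 (by simp) (by simp [hxT]) hxs
        · exact h3 (by simp) (by simp [hxT]) hxt
      · rw [Finset.card_insert_of_notMem (by simp [hs, hst.ne]),
          Finset.card_insert_of_notMem ht] at h5
        omega
  · by_cases hm : s ∈ T ∨ t ∈ T
    · rw [qq_pos s t c hm]
      simp
    · rw [qq_neg s t c hm, map_zsmul, h2 _ u, smul_neg]
      left
      simp only [Finset.mem_insert]
      rcases hu with hu | hu
      · exact Or.inr (Or.inr hu)
      · rcases hu with hu | hu
        · exact Or.inl hu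
        · exact Or.inr (Or.inl hu)

omit [Fintype V] [LinearOrder V] in
theorem clique_del {T : Finset V} :
    (G.deleteEdges {s(s, t)}).IsClique (T : Set V) ↔
      G.IsClique (T : Set V) ∧ ¬ (s ∈ T ∧ t ∈ T ∧ s ≠ t) := by
  constructor
  · intro h
    refine ⟨fun x hx y hy hxy => ?_, ?_⟩
    · have := h hx hy hxy
      rw [SimpleGraph.deleteEdges_adj] at this
      exact this.1
    · rintro ⟨hs, ht, hne⟩
      have := h (show s ∈ (T : Set V) from hs) (show t ∈ (T : Set V) from ht) hne
      rw [SimpleGraph.deleteEdges_adj] at this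
      exact this.2 rfl
  · rintro ⟨h, h'⟩ x hx y hy hxy
    rw [SimpleGraph.deleteEdges_adj]
    refine ⟨h hx hy hxy, ?_⟩
    intro he
    have he' : s(x, y) = s(s, t) := he
    rw [Sym2.eq_iff] at he'
    apply h'
    rcases he' with ⟨rfl, rfl⟩ | ⟨rfl, rfl⟩
    · exact ⟨hx, hy, hxy⟩
    · exact ⟨hy, hx, hxy.symm⟩

omit [Fintype V] in
theorem KK_le (i : ℕ) :
    KK (G.deleteEdges {s(s, t)}) ρ Set.univ ∅ i ≤ KK G ρ Set.univ ∅ i := by
  intro c h
  rw [mem_KK] at h ⊢
  refine ⟨fun T hT => h.1 T fun h3 => hT ⟨(clique_del.1 h3.1).1, h3.2⟩, h.2⟩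

theorem q_zero {i : ℕ} {c : Finset V → M} (hst : G.Adj s t)
    (h : c ∈ KK (G.deleteEdges {s(s, t)}) ρ Set.univ ∅ i) : qq F s t c = 0 := by
  funext T
  by_cases hm : s ∈ T ∨ t ∈ T
  · exact qq_pos s t c hm
  · rw [qq_neg s t c hm, (mem_KK.1 h).1, smul_zero]
    · rfl
    · rintro ⟨h3, -⟩
      exact (clique_del.1 h3).2 ⟨by simp, by simp, hst.ne⟩

theorem mem_of_q_zero {i : ℕ} {c : Finset V → M} (h : c ∈ KK G ρ Set.univ ∅ i)
    (hq : qq F s t c = 0) : c ∈ KK (G.deleteEdges {s(s, t)}) ρ Set.univ ∅ i := by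
  rw [mem_KK] at h ⊢
  refine ⟨fun T hT => ?_, h.2⟩
  by_cases hc : G.IsClique (T : Set V) ∧ (T : Set V) ⊆ Set.univ ∧ T.card = i
  · have h1 : s ∈ T ∧ t ∈ T ∧ s ≠ t := by
      by_contra h2
      exact hT ⟨clique_del.2 ⟨hc.1, h2⟩, hc.2⟩
    obtain ⟨hs, ht, hne⟩ := h1
    have h3 : insert s (insert t ((T.erase s).erase t)) = T := by
      rw [Finset.insert_erase (Finset.mem_erase.2 ⟨hne.symm, ht⟩), Finset.insert_erase hs]
    have h4 : ¬ (s ∈ (T.erase s).erase t ∨ t ∈ (T.erase s).erase t) := by
      simp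
    have h5 := congrFun hq ((T.erase s).erase t)
    rw [qq_neg s t c h4, h3, Pi.zero_apply] at h5
    have h6 := congrArg (fun x => (sg s (insert t ((T.erase s).erase t)) *
      sg t ((T.erase s).erase t)) • x) h5
    simp only [smul_smul, smul_zero] at h6
    have h7 : sg s (insert t ((T.erase s).erase t)) * sg t ((T.erase s).erase t) *
        (sg s (insert t ((T.erase s).erase t)) * sg t ((T.erase s).erase t)) = 1 := by
      have a1 := sg_mul_self s (insert t ((T.erase s).erase t))
      have a2 := sg_mul_self t ((T.erase s).erase t)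
      linear_combination (sg t ((T.erase s).erase t) * sg t ((T.erase s).erase t)) * a1 + a2
    rw [h7, one_smul] at h6
    exact h6
  · exact h.1 T hc

/-- the lift -/
def lft (s t : V) (y : Finset V → M) : Finset V → M := fun T =>
  if s ∈ T ∧ t ∈ T then (sg s (insert t ((T.erase s).erase t)) * sg t ((T.erase s).erase t)) •
    y ((T.erase s).erase t) else 0

omit [Fintype V] in
theorem lft_mem {i : ℕ} {y : Finset V → M} (hst : G.Adj s t)
    (h : y ∈ KK G ρ (G.neighborSet s ∩ G.neighborSet t) {s, t} i) :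
    lft s t y ∈ KK G ρ Set.univ ∅ (i + 2) := by
  rw [mem_KK] at h ⊢
  obtain ⟨h1, h2⟩ := h
  have hne := hst.ne
  refine ⟨fun T hT => ?_, fun T u hu => ?_⟩
  · unfold lft
    by_cases hm : s ∈ T ∧ t ∈ T
    · rw [if_pos hm, h1, smul_zero]
      rintro ⟨h3, h4, h5⟩
      apply hT
      refine ⟨?_, Set.subset_univ _, ?_⟩
      · intro x hx y hy hxy
        have key : ∀ z ∈ T, z ≠ s → z ≠ t → G.Adj s z ∧ G.Adj t z := by
          intro z hz hzs hzt
          have hz' : z ∈ (((T.erase s).erase t : Finset V) : Set V) := by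
            simp [hz, hzs, hzt]
          exact h4 hz'
        have hxT : x ∈ T := hx
        have hyT : y ∈ T := hy
        by_cases hxs : x = s
        · by_cases hyt : y = t
          · rw [hxs, hyt]; exact hst
          · rw [hxs]
            exact (key y hyT (fun e => hxy (hxs.trans e.symm)) hyt).1
        · by_cases hxt : x = t
          · by_cases hys : y = s
            · rw [hxt, hys]; exact hst.symm
            · rw [hxt]
              exact (key y hyT hys (fun e => hxy (hxt.trans e.symm))).2
          · by_cases hys : y = s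
            · rw [hys]
              exact (key x hxT hxs hxt).1.symm
            · by_cases hyt : y = t
              · rw [hyt]
                exact (key x hxT hxs hxt).2.symm
              · exact h3 (by simp [hxT, hxs, hxt]) (by simp [hyT, hys, hyt]) hxy
      · rw [Finset.card_erase_of_mem (Finset.mem_erase.2 ⟨hne.symm, hm.2⟩),
          Finset.card_erase_of_mem hm.1] at h5
        have : 2 ≤ T.card := by
          have h6 : ({s, t} : Finset V) ⊆ T := by
            intro x hx
            simp only [Finset.mem_insert, Finset.mem_singleton] at hx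
            rcases hx with rfl | rfl
            · exact hm.1
            · exact hm.2
          have h7 := Finset.card_le_card h6
          rwa [Finset.card_pair hne] at h7
        omega
    · rw [if_neg hm]
  · unfold lft
    by_cases hm : s ∈ T ∧ t ∈ T
    · rw [if_pos hm, map_zsmul, h2 _ u, smul_neg]
      rcases hu with hu | hu
      · by_cases hus : u = s
        · right; left; exact hus
        · by_cases hut : u = t
          · right; right; exact hut
          · left
            simp [hu, hus, hut]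
      · exact absurd hu (by simp)
    · rw [if_neg hm]
      simp

theorem q_lft {i : ℕ} {y : Finset V → M} (hst : G.Adj s t)
    (h : y ∈ KK G ρ (G.neighborSet s ∩ G.neighborSet t) {s, t} i) :
    qq F s t (lft s t y) = y := by
  funext T
  by_cases hm : s ∈ T ∨ t ∈ T
  · rw [qq_pos s t _ hm]
    symm
    apply (mem_KK.1 h).1
    rintro ⟨-, h4, -⟩
    rcases hm with hm | hm
    · exact G.loopless.irrefl s (h4 (show s ∈ (T : Set V) from hm)).1
    · exact G.loopless.irrefl t (h4 (show t ∈ (T : Set V) from hm)).2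
  · rw [qq_neg s t _ hm]
    have hs : s ∉ T := fun h' => hm (Or.inl h')
    have ht : t ∉ T := fun h' => hm (Or.inr h')
    have h3 : ((insert s (insert t T)).erase s).erase t = T := by
      rw [Finset.erase_insert (by simp [hs, hst.ne]), Finset.erase_insert ht]
    unfold lft
    rw [if_pos ⟨by simp, by simp⟩, h3, smul_smul]
    have h7 : sg s (insert t T) * sg t T * (sg s (insert t T) * sg t T) = 1 := by
      have a1 := sg_mul_self s (insert t T)
      have a2 := sg_mul_self t T
      linear_combination (sg t T * sg t T) * a1 + a2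
    rw [h7, one_smul]

omit [Fintype V] in
theorem KK_eq_small {i : ℕ} (hi : i ≤ 1) :
    KK (G.deleteEdges {s(s, t)}) ρ Set.univ ∅ i = KK G ρ Set.univ ∅ i := by
  refine le_antisymm (KK_le i) ?_
  intro c h
  rw [mem_KK] at h ⊢
  refine ⟨fun T hT => ?_, h.2⟩
  by_cases hc : G.IsClique (T : Set V) ∧ (T : Set V) ⊆ Set.univ ∧ T.card = i
  · exfalso
    apply hT
    refine ⟨clique_del.2 ⟨hc.1, ?_⟩, hc.2⟩
    rintro ⟨hs, ht, hne⟩
    have h6 : ({s, t} : Finset V) ⊆ T := by
      intro x hx
      simp only [Finset.mem_insert, Finset.mem_singleton] at hx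
      rcases hx with rfl | rfl
      · exact hs
      · exact ht
    have h7 := Finset.card_le_card h6
    rw [Finset.card_pair hne] at h7
    omega
  · exact h.1 T hc

end

theorem edge : S_CON → S_EDGE := by
  intro hCon V F M _ _ _ _ _ _ G ρ s t hst
  refine ⟨?_, fun i => ?_⟩
  · unfold beta ZZ BB
    rw [KK_eq_small (by omega : (0 : ℕ) ≤ 1), KK_eq_small (by omega : (0 + 1 : ℕ) ≤ 1)]
  · refine hCon F (Finset V → M) (Finset V → M) (Finset V → M) (bd F) (qq F s t)
      (BB (G.deleteEdges {s(s, t)}) ρ Set.univ ∅ (i + 1))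
      (ZZ (G.deleteEdges {s(s, t)}) ρ Set.univ ∅ (i + 1))
      (BB G ρ Set.univ ∅ (i + 1)) (ZZ G ρ Set.univ ∅ (i + 1))
      (BB G ρ (G.neighborSet s ∩ G.neighborSet t) {s, t} i)
      (ZZ G ρ (G.neighborSet s ∩ G.neighborSet t) {s, t} i)
      (KK G ρ Set.univ ∅ (i + 2) ⊓
        (KK (G.deleteEdges {s(s, t)}) ρ Set.univ ∅ (i + 1)).comap (bd F))
      (BB_le_ZZ _ _ _ _ _) (BB_le_ZZ _ _ _ _ _) (BB_le_ZZ _ _ _ _ _) ?_ ?_ ?_ ?_
    · exact inf_le_inf_right _ (KK_le _)
    · rintro z hz ⟨c, hc, rfl⟩
      exact ⟨c, ⟨hc, hz.1⟩, rfl⟩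
    · rintro x ⟨hx1, hx2⟩
      refine ⟨q_mem hst hx1, ?_⟩
      show bd F (qq F s t x) = 0
      rw [← q_bd hst.ne]
      exact q_zero hst hx2
    · rintro x ⟨hx1, hx2⟩ ⟨y, hy, hyx⟩
      have h1 : x - bd F (lft s t y) ∈ KK G ρ Set.univ ∅ (i + 2) :=
        Submodule.sub_mem _ hx1 (bd_mem_KK (lft_mem hst hy))
      have h2 : qq F s t (x - bd F (lft s t y)) = 0 := by
        rw [map_sub, q_bd hst.ne, q_lft hst hy, hyx, sub_self]
      refine ⟨x - bd F (lft s t y), mem_of_q_zero h1 h2, ?_⟩
      rw [map_sub, bd_bd, sub_zero]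

end Pool.Agent.W310.SG
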