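import Pool.Agent.H7.L.W907_SG_Stmts2
import Pool.Agent.H7.L.W372_SG_FIN

/-! Task SG2-SL (helper907): real Betti numbers of finite `W_G`-sets and `ℓ²` vanishing. -/

set_option autoImplicit false

namespace Pool.Agent.W334.SG

open Module Pool.Agent.W907.SG Pool.Agent.W372.SG.FIN

variable {V : Type} [Fintype V] [LinearOrder V]

/-- the solution space of the equations on a `W_G`-set -/
noncomputable def KS (G : SimpleGraph V) (i : ℕ) {X : Type} (A : X → W G → X) :
    Submodule ℝ (X → Finset V → ℝ) where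
  carrier := {c | ∀ x τ', ∑ j, ∑ τ, (bb G i τ' (j, τ) : ℝ) * c (A x (gam G j)) τ = 0}
  add_mem' := by
    intro f g hf hg x τ'
    have h1 := hf x τ'
    have h2 := hg x τ'
    simp only [Pi.add_apply, mul_add, Finset.sum_add_distrib]
    rw [h1, h2, add_zero]
  zero_mem' := by
    intro x τ'
    simp
  smul_mem' := by
    intro r f hf x τ'
    have h1 := hf x τ'
    simp only [Pi.smul_apply, smul_eq_mul]
    have h2 : ∀ j : Option V, ∀ τ : Finset V,
        (bb G i τ' (j, τ) : ℝ) * (r * f (A x (gam G j)) τ) =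
        r * ((bb G i τ' (j, τ) : ℝ) * f (A x (gam G j)) τ) := fun j τ => by ring
    simp only [h2, ← Finset.mul_sum]
    rw [h1, mul_zero]

lemma mem_KS (G : SimpleGraph V) (i : ℕ) {X : Type} (A : X → W G → X) (c : X → Finset V → ℝ) :
    c ∈ KS G i A ↔ ∀ x τ', ∑ j, ∑ τ, (bb G i τ' (j, τ) : ℝ) * c (A x (gam G j)) τ = 0 := Iff.rfl

lemma mem_KS' (G : SimpleGraph V) (i : ℕ) {X : Type} (a : V → X → X) (A : X → W G → X)
    (hA1 : ∀ x, A x 1 = x) (hAs : ∀ x v, A x ((cox G).simple v) = a v x)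
    (c : X → Finset V → ℝ) : c ∈ KS G i A ↔ HarmSet G a i c := by
  have hn : ∀ x, A x (gam G none) = x := fun x => hA1 x
  have hs : ∀ x v, A x (gam G (some v)) = a v x := fun x v => hAs x v
  have h1 : c ∈ KS G i A ↔ ∀ x τ', evh (fun j τ => c (A x (gam G j)) τ) (bb G i τ') = 0 := by
    rw [mem_KS]
    exact forall_congr' fun x => forall_congr' fun τ' => by
      rw [← ee_eq G i (fun j τ => c (A x (gam G j)) τ) τ']
  rw [h1]
  have h2 : ∀ x, (∀ τ', evh (fun j τ => c (A x (gam G j)) τ) (bb G i τ') = 0) ↔ _ :=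
    fun x => eqs G i (fun j τ => c (A x (gam G j)) τ)
  simp only [hn, hs] at h2
  unfold HarmSet
  constructor
  · intro h
    have h3 := fun x => (h2 x).1 (h x)
    exact ⟨fun x => (h3 x).1, fun x => (h3 x).2.1, fun x => (h3 x).2.2.1,
      fun x => (h3 x).2.2.2⟩
  · rintro ⟨k1, k2, k3, k4⟩ x
    exact (h2 x).2 ⟨k1 x, k2 x, k3 x, k4 x⟩

theorem small (hK : S_KAZ) (hH : S_HODR) : S_SMALL := by
  classical
  intro V _ _ G i hL N
  obtain ⟨E, hE1, hE⟩ := hK (W G) (Finset V) (TT V) (Option V) (gam G)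
    (fun j τ' τ => bb G i τ' (j, τ)) (fun c hc hc2 => by
      apply hL c
      have h1 : ∀ g, _ := fun g => (eqs G i (fun j τ => c (g * gam G j) τ)).1 fun τ' => by
        rw [← ee_eq]
        exact hc2 g τ'
      have hn : ∀ g : W G, g * gam G none = g := fun g => mul_one g
      simp only [hn] at h1
      exact ⟨fun x => (h1 x).1, fun x => (h1 x).2.1, hc, fun x => (h1 x).2.2.1,
        fun x => (h1 x).2.2.2⟩) N
  refine ⟨E, hE1, ?_⟩
  intro X _ a ev ha hco h1 h2 h3 h4
  have hf := hE X ev h1 h2 h4 (KS G i ev) (fun c => Iff.rfl)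
  rw [hH V X G a ha hco i (KS G i ev) (mem_KS' G i a ev h1 h3)] at hf
  exact hf

theorem large (hL : S_LUECK) (hH : S_HODR) : S_LARGE := by
  classical
  intro V _ _ G i hX c hc
  refine hL (W G) (Finset V) (TT V) (Option V) (gam G) (fun j τ' τ => bb G i τ' (j, τ)) ?_ c
    hc.summable ?_
  · intro N E hE
    obtain ⟨X, i1, i2, a, ev, ha, hco, h1, h2, h3, h4, h5⟩ := hX N E hE
    refine ⟨X, i1, i2, ev, h1, h2, h4, KS G i ev, fun c => Iff.rfl, ?_⟩
    rw [hH V X G a ha hco i (KS G i ev) (mem_KS' G i a ev h1 h3)]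
    exact h5
  · intro g τ'
    rw [ee_eq G i (fun j τ => c (g * gam G j) τ) τ']
    refine (eqs G i (fun j τ => c (g * gam G j) τ)).2 ?_ τ'
    have hn : g * gam G none = g := mul_one g
    simp only [hn]
    exact ⟨hc.supp g, hc.anti g, hc.cycle g, hc.cocycle g⟩

end Pool.Agent.W334.SG
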