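import Pool.Agent.H7.L.W907_SG_Stmts

/-!
# Dimension counts (project SG)
-/

set_option autoImplicit false

open Module Pool.Agent.W907.SG

namespace Pool.Agent.W721.SG.MID

section
variable {F E E' : Type} [Field F] [AddCommGroup E] [Module F E] [AddCommGroup E'] [Module F E']
  [FiniteDimensional F E]

/-- rank-nullity for the restriction to a subspace -/
lemma rn (ψ : E →ₗ[F] E') (Z : Submodule F E) :
    finrank F (Z.map ψ) + finrank F (Z ⊓ LinearMap.ker ψ : Submodule F E) = finrank F Z := by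
  have h := LinearMap.finrank_range_add_finrank_ker (ψ.domRestrict Z)
  have h1 : LinearMap.range (ψ.domRestrict Z) = Z.map ψ := by
    rw [LinearMap.range_domRestrict]
  have h2 : finrank F (LinearMap.ker (ψ.domRestrict Z)) =
      finrank F (Z ⊓ LinearMap.ker ψ : Submodule F E) := by
    have e : LinearMap.ker (ψ.domRestrict Z) = Submodule.comap Z.subtype (LinearMap.ker ψ) := by
      ext x
      rfl
    rw [← Submodule.finrank_map_subtype_eq Z, e, Submodule.map_comap_subtype]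
  rw [h1, h2] at h
  exact h

lemma rnq (B Z : Submodule F E) : finrank F (Z.map B.mkQ) +
    finrank F (Z ⊓ B : Submodule F E) = finrank F Z := by
  have h := rn B.mkQ Z
  rwa [Submodule.ker_mkQ] at h

lemma rnq_le {B Z : Submodule F E} (h : B ≤ Z) :
    finrank F (Z.map B.mkQ) + finrank F B = finrank F Z := by
  have h1 := rnq B Z
  rwa [inf_eq_right.2 h] at h1

end

theorem mid : S_MID := by
  intro F E1 E2 E3 _ _ _ _ _ _ _ _ _ _ f g B1 Z1 B2 Z2 B3 Z3 h1 h2 h3 hf hg hex
  -- the image in the third space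
  have a1 := rn (B3.mkQ.comp g) Z2
  have a2 : finrank F (Z2.map (B3.mkQ.comp g)) ≤ finrank F (Z3.map B3.mkQ) := by
    apply Submodule.finrank_mono
    rw [Submodule.map_comp]
    exact Submodule.map_mono hg
  have a3 := rnq_le h3
  -- the middle
  have a4 : (Z2 ⊓ LinearMap.ker (B3.mkQ.comp g) : Submodule F E2) ≤ Z1.map f ⊔ B2 := by
    intro z hz
    obtain ⟨hz1, hz2⟩ := hz
    have hz3 : g z ∈ B3 := by
      have : B3.mkQ (g z) = 0 := hz2
      rwa [Submodule.mkQ_apply, Submodule.Quotient.mk_eq_zero] at this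
    obtain ⟨z1, hz1', b, hb, rfl⟩ := hex z hz1 hz3
    exact Submodule.add_mem_sup (Submodule.mem_map_of_mem hz1') hb
  have a5 := Submodule.finrank_mono (R := F) a4
  have a6 := rnq_le (F := F) (B := B2) (Z := Z1.map f ⊔ B2) le_sup_right
  have a7 : (Z1.map f ⊔ B2).map B2.mkQ = Z1.map (B2.mkQ.comp f) := by
    rw [Submodule.map_sup, Submodule.map_comp]
    rw [Submodule.mkQ_map_self, sup_bot_eq]
  have a8 := rn (B2.mkQ.comp f) Z1
  have a9 : finrank F B1 ≤ finrank F (Z1 ⊓ LinearMap.ker (B2.mkQ.comp f) : Submodule F E1) := by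
    apply Submodule.finrank_mono
    intro z hz
    refine ⟨h1 hz, ?_⟩
    show B2.mkQ (f z) = 0
    rw [Submodule.mkQ_apply, Submodule.Quotient.mk_eq_zero]
    exact hf (Submodule.mem_map_of_mem hz)
  rw [a7] at a6
  omega

theorem con : S_CON := by
  intro F E R E3 _ _ _ _ _ _ _ _ _ _ d q B1 Z1 B2 Z2 B3 Z3 R0 h1 h2 h3 h12 hd hq hc
  have a1 := rnq B2 Z1
  have a2 : finrank F (Z1.map B2.mkQ) ≤ finrank F (Z2.map B2.mkQ) :=
    Submodule.finrank_mono (Submodule.map_mono h12)
  have a3 := rnq_le h2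
  have a4 := rnq_le h3
  obtain ⟨U, hU⟩ : ∃ U : Submodule F E, U = Z1 ⊓ B2 := ⟨_, rfl⟩
  obtain ⟨R1, hR1⟩ : ∃ R1 : Submodule F R, R1 = R0 ⊓ U.comap d := ⟨_, rfl⟩
  have b1 := rnq B1 U
  have b2 : finrank F (U ⊓ B1 : Submodule F E) ≤ finrank F B1 :=
    Submodule.finrank_mono inf_le_right
  have b3 : R1.map d = U := by
    apply le_antisymm
    · rintro _ ⟨x, hx, rfl⟩
      rw [hR1] at hx
      exact hx.2
    · intro z hz
      have hz' := hz
      rw [hU] at hz'
      obtain ⟨x, hx, rfl⟩ := hd z hz'.1 hz'.2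
      refine Submodule.mem_map_of_mem ?_
      rw [hR1]
      exact ⟨hx, hz⟩
  have b4 : U.map B1.mkQ = R1.map (B1.mkQ.comp d) := by
    rw [Submodule.map_comp, b3]
  have b5 := rn (B1.mkQ.comp d) R1
  have b6 := rn (B3.mkQ.comp q) R1
  have b7 : finrank F (R1 ⊓ LinearMap.ker (B3.mkQ.comp q) : Submodule F R) ≤
      finrank F (R1 ⊓ LinearMap.ker (B1.mkQ.comp d) : Submodule F R) := by
    apply Submodule.finrank_mono
    rintro x ⟨hx1, hx2⟩
    refine ⟨hx1, ?_⟩
    have hx3 : q x ∈ B3 := by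
      have : B3.mkQ (q x) = 0 := hx2
      rwa [Submodule.mkQ_apply, Submodule.Quotient.mk_eq_zero] at this
    show B1.mkQ (d x) = 0
    rw [Submodule.mkQ_apply, Submodule.Quotient.mk_eq_zero]
    have hx1' : x ∈ R1 := hx1
    rw [hR1] at hx1'
    exact hc x hx1'.1 hx3
  have b8 : finrank F (R1.map (B3.mkQ.comp q)) ≤ finrank F (Z3.map B3.mkQ) := by
    apply Submodule.finrank_mono
    rintro _ ⟨x, hx, rfl⟩
    have hx' : x ∈ R1 := hx
    rw [hR1] at hx'
    exact ⟨q x, hq x hx'.1, rfl⟩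
  rw [← hU] at a1
  rw [b4] at b1
  omega

end Pool.Agent.W721.SG.MID
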