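import Pool.Agent.H7.L.W907_SG_Stmts2
import Pool.Agent.H7.L.W721_SG_MID
import Pool.Agent.H7.L.W347_SG_VERT
import Pool.Agent.H7.L.W597_SG_Eig
import Pool.Agent.H7.L.W310_SG_Edge
import Pool.Agent.H7.L.W52_SG_SUB
import Pool.Agent.H7.L.W479_SG_Acyc
import Pool.Agent.H7.L.W52_SG_TR
import Pool.Agent.H7.L.W766_SG_Line
import Pool.Agent.H7.L.W721_SG_ML
import Pool.Agent.H7.L.W975_SG_Step1
import Pool.Agent.H7.L.W435_SG_Step2
import Pool.Agent.H7.L.W215_SG_Susp
import Pool.Agent.H7.L.W293_SG_ClassB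
import Pool.Agent.H7.L.W67_SG_ClassA
import Pool.Agent.H7.L.W21_SGL_Main
import Pool.Agent.H7.L.W461_SG_NIL
import Pool.Agent.H7.L.W334_SG_Hodge
import Pool.Agent.H7.L.W372_SG_FIN
import Pool.Agent.H7.L.W143_SG_P
import Pool.Agent.H7.L.W290_SG_HODR
import Pool.Agent.H7.L.W15_SG_KAZ
import Pool.Agent.H7.L.W334_SG_SmallLarge
import Pool.Agent.H7.L.W338_SG_ADD
import Pool.Agent.H7.L.W460_SG_ORD
import Pool.Agent.H7.L.W397_SG_EUL

namespace Pool.Agent.W907.SG

theorem mid : S_MID := Pool.Agent.W721.SG.MID.mid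
theorem con : S_CON := Pool.Agent.W721.SG.MID.con
theorem vert : S_VERT := Pool.Agent.W347.SGV.vert mid
theorem eig : S_EIG := Pool.Agent.W597.SG.eig
theorem cone : S_CONE := Pool.Agent.W597.SG.cone
theorem edge : S_EDGE := Pool.Agent.W310.SG.edge con
theorem sub : S_SUB := Pool.Agent.W52.SG.sub mid
theorem acyc : S_ACYC := Pool.Agent.W479.SG.Acyc.acyc
theorem dim : S_DIM := Pool.Agent.W479.SG.Acyc.dim
theorem tr : S_TR := Pool.Agent.W52.SG.tr
theorem isoT : S_ISO := Pool.Agent.W52.SG.iso tr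
theorem empty : S_EMPTY := Pool.Agent.W52.SG.empty
theorem line : S_LINE := Pool.Agent.W766.SG.Line.line
theorem ml : S_ML := Pool.Agent.W721.SG.ML.main sub line
theorem step1 : S_STEP1 := Pool.Agent.W975.SG.step1 vert eig tr ml
theorem stepc : S_STEPC := Pool.Agent.W975.SG.stepc cone tr ml
theorem step2 : S_STEP2 := W435.SG.step2 edge eig tr ml
theorem suspT : S_SUSP := Pool.Agent.W215.SG.susp acyc sub dim
theorem classB : S_CLASSB := Pool.Agent.W293.SG.classB step1 step2 stepc suspT isoT empty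
theorem classA : S_CLASSA := Pool.Agent.W67.SG.classA step1 step2 suspT isoT empty
theorem lueck : S_LUECK := Pool.Agent.W21.SGL.lueck
theorem nil : S_NIL := Pool.Agent.W461.SGN.nil
theorem hodge : S_HODGE := Pool.Agent.W334.SG.hodge
theorem fin : S_FIN := Pool.Agent.W372.SG.t_FIN lueck nil hodge ml
theorem linep : S_LINEP := Pool.Agent.W143.SG.P.linep
theorem mlp : S_MLP := Pool.Agent.W143.SG.P.mlp sub
theorem nilp : S_NILP := Pool.Agent.W143.SG.P.nilp
theorem hodr : S_HODR := Pool.Agent.W290.SG.hodr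
theorem charT : S_CHAR := Pool.Agent.W290.SG.charcmp
theorem kaz : S_KAZ := Pool.Agent.W15.SG.kaz
theorem small : S_SMALL := Pool.Agent.W334.SG.small kaz hodr
theorem large : S_LARGE := Pool.Agent.W334.SG.large lueck hodr
theorem l2add : S_L2ADD := Pool.Agent.W338.SG.l2add small tr vert eig nilp large
theorem l2del : S_L2DEL := Pool.Agent.W338.SG.l2del small tr edge eig nilp large charT mlp
theorem ord : S_ORD := Pool.Agent.W460.SG.ord
theorem l2sub : S_L2SUB := Pool.Agent.W338.SG.l2sub l2add l2del ord suspT fin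
theorem eul : S_EUL := Pool.Agent.W397.SG.eul ml

end Pool.Agent.W907.SG
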