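import Pool.Agent.H7.L.W338_SG_ADD
import Pool.Agent.H7.L.W907_SG_All

/-!
# Deleting a vertex
-/

set_option autoImplicit false
set_option linter.unusedSectionVars false

namespace Pool.Agent.R781.VS

open Module Pool.Agent.W907.SG
open Pool.Agent.W347.SGV (qq qq_apply qq_of_mem qq_of_not qq_bd qq_mem lift lift_mem qq_lift KK_mono mem_of_qq)
open Pool.Agent.W338.SG (inA inA_ne inA_simple small_restrict arith)

/-- removing a vertex -/
theorem vdel {V F M : Type} [Fintype V] [LinearOrder V] [Field F] [AddCommGroup M] [Module F M]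
    [FiniteDimensional F M] (G : SimpleGraph V) (ρ : V → M →ₗ[F] M) (A S : Set V) (v : V) (hvA : v ∉ A)
    (i : ℕ) :
    beta G ρ A S i ≤ beta G ρ (insert v A) S i + beta G ρ (A ∩ G.neighborSet v) (insert v S) i := by
  have hq0 : ∀ c ∈ KK G ρ A S i, qq F v c = 0 := by
    intro c hc
    funext T
    by_cases hv : v ∈ T
    · exact qq_of_mem _ hv
    · rw [qq_of_not _ hv, (mem_KK.1 hc).1 (insert v T), smul_zero]
      · rfl
      · rintro ⟨-, h, -⟩
        exact hvA (h (by simp))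
  refine Pool.Agent.W907.SG.con F (Finset V → M) (Finset V → M) (Finset V → M) (bd F) (qq F v)
    (BB G ρ A S i) (ZZ G ρ A S i) (BB G ρ (insert v A) S i) (ZZ G ρ (insert v A) S i)
    (BB G ρ (A ∩ G.neighborSet v) (insert v S) i) (ZZ G ρ (A ∩ G.neighborSet v) (insert v S) i)
    (KK G ρ (insert v A) S (i + 1) ⊓ (KK G ρ A S i).comap (bd F))
    (BB_le_ZZ _ _ _ _ _) (BB_le_ZZ _ _ _ _ _) (BB_le_ZZ _ _ _ _ _) ?_ ?_ ?_ ?_
  · exact inf_le_inf_right _ (KK_mono (Set.subset_insert _ _))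
  · rintro z hz ⟨c, hc, rfl⟩
    exact ⟨c, ⟨hc, hz.1⟩, rfl⟩
  · rintro x ⟨hx1, hx2⟩
    refine ⟨qq_mem hx1, ?_⟩
    show bd F (qq F v x) = 0
    rw [qq_bd, hq0 _ hx2, neg_zero]
  · rintro x ⟨hx1, hx2⟩ ⟨y, hy, hyx⟩
    have hl := lift_mem (A := A) hy
    have h1 : x + bd F (lift v y) ∈ KK G ρ (insert v A) S (i + 1) :=
      Submodule.add_mem _ hx1 (bd_mem_KK hl)
    have h2 : qq F v (x + bd F (lift v y)) = 0 := by
      have h3 := qq_bd (F := F) v (lift v y)
      rw [qq_lift hvA hy] at h3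
      rw [map_add, ← hyx, h3, neg_add_cancel]
    refine ⟨x + bd F (lift v y), mem_of_qq h1 h2, ?_⟩
    rw [map_add, bd_bd, add_zero]

/-- `ℓ²`-vanishing after the deletion of a vertex -/
theorem l2vdel (V : Type) [Fintype V] [LinearOrder V] (G : SimpleGraph V) (v : V)
    [Fintype ↥({v}ᶜ : Set V)] [Fintype (G.neighborSet v)] (i : ℕ) (h1 : L2Van G i)
    (h2 : L2Van (G.induce (G.neighborSet v)) i) : L2Van (G.induce {v}ᶜ) i := by
  classical
  refine large _ (G.induce {v}ᶜ) i fun N E hE => ?_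
  have : Fact (Nat.Prime 3) := ⟨Nat.prime_three⟩
  obtain ⟨E1, hE1, hX1⟩ := small V G i h1 (2 * N)
  obtain ⟨E2, hE2, hX2⟩ := small_restrict small tr G (G.neighborSet v) i h2 (2 * N)
  obtain ⟨Y, _, _, P, ev, e1, e2, e3, e4⟩ := nilp 3 V G (E.image (inA G {v}ᶜ) ∪ (E1 ∪ E2)) (by decide) (by
    rw [Finset.mem_union, Finset.mem_union]
    rintro (h | h | h)
    · obtain ⟨g, hg, hg'⟩ := Finset.mem_image.1 h
      exact inA_ne G {v}ᶜ (fun he => hE (he ▸ hg)) hg'
    · exact hE1 h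
    · exact hE2 h)
  refine ⟨Y, inferInstance, inferInstance, fun u => P.a u.1, fun y g => ev y (inA G {v}ᶜ g),
    fun u => P.inv u.1, fun u w huw => P.comm u.1 w.1 huw, fun y => by simp only [map_one, e1],
    fun y g h => by simp only [map_mul, e2], fun y u => by simp only [inA_simple, e3],
    fun g hg => e4 _ (Finset.mem_union_left _ (Finset.mem_image_of_mem _ hg)), ?_⟩
  have h3 := tr ↥({v}ᶜ : Set V) V ℝ (Y → ℝ) G (G.induce {v}ᶜ) (pull ℝ P.a) (fun u => (u : V))
      (Subtype.strictMono_coe _) (fun u u' => Iff.rfl) i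
  rw [Subtype.range_coe] at h3
  have h4 : beta (G.induce {v}ᶜ) (pull ℝ (fun u : ↥({v}ᶜ : Set V) => P.a u.1)) Set.univ ∅ i =
      beta G (pull ℝ P.a) {v}ᶜ ∅ i := h3.symm
  rw [h4]
  have b1 := vdel G (pull ℝ P.a) {v}ᶜ ∅ v (by simp) i
  rw [Pool.Agent.W338.SG.ins_compl] at b1
  have hA : ({v}ᶜ : Set V) ∩ G.neighborSet v = G.neighborSet v := by
    ext u
    simp only [Set.mem_inter_iff, Set.mem_compl_iff, Set.mem_singleton_iff,
      SimpleGraph.mem_neighborSet, and_iff_right_iff_imp]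
    intro h hu
    exact h.ne hu.symm
  rw [hA] at b1
  have b2 := eig V ℝ (Y → ℝ) G (pull ℝ P.a) (G.neighborSet v) ∅ v (by norm_num)
    (fun m => by
      funext x
      rw [pull_apply, pull_apply, P.inv])
    (fun u hu m => by
      have hu' : G.Adj u v := by
        rcases hu with hu | hu
        · exact ((G.mem_neighborSet v u).1 hu).symm
        · exact absurd hu (by simp)
      funext x
      rw [pull_apply, pull_apply, pull_apply, pull_apply, P.comm u v hu']) i
  refine arith (b1.trans (Nat.add_le_add_left b2 _)) ?_ ?_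
  · exact hX1 Y P.a ev P.inv P.comm e1 e2 e3 (fun g hg => e4 g (Finset.mem_union_right _
      (Finset.mem_union_left _ hg)))
  · exact hX2 Y P.a ev P.inv P.comm e1 e2 e3 (fun g hg => e4 g (Finset.mem_union_right _
      (Finset.mem_union_right _ hg)))

end Pool.Agent.R781.VS
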