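import Pool.Agent.H7.L.W907_SM_Stmts3
import Pool.Agent.H7.L.W907_SG_All

/-!
Project SC (helper907): `ℓ²`-vanishing and the Euler characteristic, `C_L2EUL`.
-/

set_option autoImplicit false

namespace Pool.Agent.W723.SM

open Module Pool.Agent.W907.SG Pool.Agent.W907.SM Pool.Agent.W397.SG

/-- the alternating sum of the dimensions -/
theorem chi_dim {V X F : Type} [Field F] [Fintype V] [LinearOrder V] [Fintype X]
    (h2 : (2 : F) ≠ 0) (G : SimpleGraph V) (a : V → X → X)
    (sgn : V → X → Bool) (hinv : ∀ v x, a v (a v x) = x)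
    (hcomm : ∀ u v, G.Adj u v → ∀ x, a u (a v x) = a v (a u x))
    (hs : ∀ v x, sgn v (a v x) = !(sgn v x))
    (ho : ∀ u v, u ≠ v → ∀ x, sgn u (a v x) = sgn u x) :
    ((∑ i ∈ Finset.range (Fintype.card V + 1), (-1 : ℤ) ^ i *
      (finrank F (KK G (pull F a) Set.univ ∅ i) : ℤ) : ℤ) : ℚ) =
      Fintype.card X * chiW G := by
  classical
  push_cast
  have h1 : ∀ i ∈ Finset.range (Fintype.card V + 1), (-1 : ℚ) ^ i *
      (finrank F (KK G (pull F a) Set.univ ∅ i) : ℚ) =
      ∑ T : Finset V, if T.card = i then (Fintype.card X : ℚ) *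
        (if G.IsClique (T : Set V) then (-1 / 2 : ℚ) ^ T.card else 0) else 0 := by
    intro i _
    rw [KK_dim, Nat.cast_sum, Finset.mul_sum]
    refine Finset.sum_congr rfl fun T _ => ?_
    by_cases hT : G.IsClique (T : Set V)
    · by_cases hi : T.card = i
      · have h3 := ET_dim h2 G a sgn hinv hcomm hs ho T hT
        rw [if_pos ⟨hT, hi⟩, if_pos hi, if_pos hT, ← h3, ← hi]
        push_cast
        rw [div_pow]
        field_simp
      · rw [if_neg (fun h => hi h.2), if_neg hi]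
        simp
    · rw [if_neg (fun h => hT h.1), if_neg hT]
      simp
  rw [Finset.sum_congr rfl h1, Finset.sum_comm, chiW, Finset.mul_sum]
  refine Finset.sum_congr rfl fun T _ => ?_
  rw [Finset.sum_ite_eq, if_pos]
  · congr
  · rw [Finset.mem_range]
    have := Finset.card_le_univ T
    omega

/-- the alternating sum of the Betti numbers -/
theorem beta_sum {V X F : Type} [Field F] [Fintype V] [LinearOrder V] [Fintype X]
    (h2 : (2 : F) ≠ 0) (G : SimpleGraph V) (a : V → X → X)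
    (sgn : V → X → Bool) (hinv : ∀ v x, a v (a v x) = x)
    (hcomm : ∀ u v, G.Adj u v → ∀ x, a u (a v x) = a v (a u x))
    (hs : ∀ v x, sgn v (a v x) = !(sgn v x))
    (ho : ∀ u v, u ≠ v → ∀ x, sgn u (a v x) = sgn u x) :
    ((∑ i ∈ Finset.range (Fintype.card V + 1), (-1 : ℤ) ^ i *
      (beta G (pull F a) Set.univ ∅ i : ℤ) : ℤ) : ℚ) = Fintype.card X * chiW G := by
  have h1 := euler G (pull F a) Set.univ ∅ (Fintype.card V)
  have hBB : finrank F (BB G (pull F a) Set.univ ∅ (Fintype.card V)) = 0 := by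
    unfold BB
    rw [KK_big G _ Set.univ ∅ (by omega : Fintype.card V < Fintype.card V + 1),
      Submodule.map_bot, finrank_bot]
  rw [hBB, Nat.cast_zero, mul_zero, sub_zero] at h1
  rw [h1, chi_dim h2 G a sgn hinv hcomm hs ho]

/-- finite `W_G`-sets with small real Betti numbers in the degrees `I` -/
theorem fam {V : Type} [Fintype V] [LinearOrder V] (G : SimpleGraph V) (N : ℕ) (I : Finset ℕ)
    (hI : ∀ i ∈ I, L2Van G i) (E : Finset (W G)) (hE : (1 : W G) ∉ E) :
    ∃ (Y : Type) (_ : Fintype Y) (_ : Nonempty Y) (P : PSet 3 G Y) (ev : Y → W G → Y),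
      (∀ y, ev y 1 = y) ∧ (∀ y g h, ev y (g * h) = ev (ev y g) h) ∧
      (∀ y v, ev y ((cox G).simple v) = P.a v y) ∧ (∀ g ∈ E, ∀ y, ev y g ≠ y) ∧
      ∀ i ∈ I, N * beta G (pull ℝ P.a) Set.univ ∅ i ≤ Fintype.card Y := by
  classical
  have : Fact (Nat.Prime 3) := ⟨Nat.prime_three⟩
  have h1 : ∀ i : ℕ, ∃ Ei : Finset (W G), (1 : W G) ∉ Ei ∧ (i ∈ I →
      ∀ (X : Type) [Fintype X] (a : V → X → X) (ev : X → W G → X),
      (∀ v x, a v (a v x) = x) → (∀ u v, G.Adj u v → ∀ x, a u (a v x) = a v (a u x)) →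
      (∀ x, ev x 1 = x) → (∀ x g h, ev x (g * h) = ev (ev x g) h) →
      (∀ x v, ev x ((cox G).simple v) = a v x) →
      (∀ g ∈ Ei, ∀ x, ev x g ≠ x) → N * beta G (pull ℝ a) Set.univ ∅ i ≤ Fintype.card X) := by
    intro i
    by_cases hi : i ∈ I
    · obtain ⟨Ei, h2, h3⟩ := small V G i (hI i hi) N
      exact ⟨Ei, h2, fun _ => h3⟩
    · exact ⟨∅, Finset.notMem_empty _, fun h => absurd h hi⟩
  choose Ef hEf1 hEf2 using h1
  have hE' : (1 : W G) ∉ E ∪ I.biUnion Ef := by
    rw [Finset.mem_union, Finset.mem_biUnion]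
    rintro (h | ⟨i, _, h⟩)
    · exact hE h
    · exact hEf1 i h
  obtain ⟨Y, fY, neY, P, ev, e1, e2, e3, e4⟩ :=
    nilp 3 V G (E ∪ I.biUnion Ef) (by norm_num) hE'
  refine ⟨Y, fY, neY, P, ev, e1, e2, e3, fun g hg => e4 g (Finset.mem_union_left _ hg), ?_⟩
  intro i hi
  exact hEf2 i hi Y P.a ev P.inv P.comm e1 e2 e3 fun g hg =>
    e4 g (Finset.mem_union_right _ (Finset.mem_biUnion.2 ⟨i, hi, hg⟩))

theorem l2eul : C_L2EUL := by
  intro V _ _ G m hv
  have h2 : (2 : ℝ) ≠ 0 := two_ne_zero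
  obtain ⟨n, hn⟩ : ∃ n, n = Fintype.card V := ⟨_, rfl⟩
  constructor
  · intro hall
    by_contra hchi
    obtain ⟨N, hN⟩ := exists_nat_gt (1 / |chiW G|)
    have habs : 0 < |chiW G| := abs_pos.2 hchi
    obtain ⟨Y, fY, neY, P, ev, e1, e2, e3, e4, e5⟩ := fam G (N * (n + 1)) (Finset.range (n + 1))
      (fun i _ => hall i) ∅ (Finset.notMem_empty _)
    have hs := beta_sum h2 G P.a P.sgn P.inv P.comm P.sgn_self P.sgn_other
    rw [← hn] at hs
    have hc : (0 : ℚ) < Fintype.card Y := by exact_mod_cast Fintype.card_pos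
    have h4 : |((∑ i ∈ Finset.range (n + 1), (-1 : ℤ) ^ i *
        (beta G (pull ℝ P.a) Set.univ ∅ i : ℤ) : ℤ) : ℚ)| ≤
        ∑ i ∈ Finset.range (n + 1), (beta G (pull ℝ P.a) Set.univ ∅ i : ℚ) := by
      push_cast
      refine (Finset.abs_sum_le_sum_abs _ _).trans (le_of_eq ?_)
      refine Finset.sum_congr rfl fun i _ => ?_
      rw [abs_mul, abs_pow, abs_neg, abs_one, one_pow, one_mul, Nat.abs_cast]
    rw [hs, abs_mul, abs_of_pos hc] at h4
    have h5 : (N * (n + 1) : ℚ) * ∑ i ∈ Finset.range (n + 1),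
        (beta G (pull ℝ P.a) Set.univ ∅ i : ℚ) ≤ (n + 1) * Fintype.card Y := by
      rw [Finset.mul_sum]
      calc ∑ i ∈ Finset.range (n + 1), (N * (n + 1) : ℚ) * (beta G (pull ℝ P.a) Set.univ ∅ i : ℚ)
          ≤ ∑ _i ∈ Finset.range (n + 1), (Fintype.card Y : ℚ) := by
            refine Finset.sum_le_sum fun i hi => ?_
            exact_mod_cast e5 i hi
        _ = (n + 1) * Fintype.card Y := by
            rw [Finset.sum_const, Finset.card_range, nsmul_eq_mul]
            push_cast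
            ring
    have hn1 : (0 : ℚ) < n + 1 := by positivity
    have hN0 : (0 : ℚ) ≤ N := Nat.cast_nonneg _
    have h6 : (N * (n + 1) : ℚ) * (Fintype.card Y * |chiW G|) ≤ (n + 1) * Fintype.card Y :=
      (mul_le_mul_of_nonneg_left h4 (by positivity)).trans h5
    have h7 : (N : ℚ) * |chiW G| ≤ 1 := by
      have h8 : ((n + 1) * Fintype.card Y : ℚ) * (N * |chiW G|) ≤
          ((n + 1) * Fintype.card Y : ℚ) * 1 := by
        calc ((n + 1) * Fintype.card Y : ℚ) * (N * |chiW G|) =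
            (N * (n + 1) : ℚ) * (Fintype.card Y * |chiW G|) := by ring
          _ ≤ (n + 1) * Fintype.card Y := h6
          _ = _ := by ring
      exact le_of_mul_le_mul_left h8 (by positivity)
    rw [div_lt_iff₀ habs] at hN
    linarith
  · intro hchi i
    by_cases him : i = m
    swap
    · exact hv i him
    subst him
    refine large V G i ?_
    intro N E hE
    obtain ⟨Y, fY, neY, P, ev, e1, e2, e3, e4, e5⟩ := fam G (N * (n + 1))
      ((Finset.range (n + 1)).erase i) (fun j hj => hv j (Finset.ne_of_mem_erase hj)) E hE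
    refine ⟨Y, fY, neY, P.a, ev, P.inv, P.comm, e1, e2, e3, e4, ?_⟩
    by_cases hm : n < i
    · rw [beta_big G _ Set.univ ∅ (by omega), mul_zero]
      exact Nat.zero_le _
    · have hmr : i ∈ Finset.range (n + 1) := by
        rw [Finset.mem_range]; omega
      have hs := beta_sum h2 G P.a P.sgn P.inv P.comm P.sgn_self P.sgn_other
      rw [← hn, hchi, mul_zero] at hs
      have h3 : ∑ j ∈ Finset.range (n + 1), (-1 : ℤ) ^ j *
        (beta G (pull ℝ P.a) Set.univ ∅ j : ℤ) = 0 := by exact_mod_cast hs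
      rw [← Finset.add_sum_erase _ _ hmr] at h3
      have h4 : (beta G (pull ℝ P.a) Set.univ ∅ i : ℤ) ≤
          ∑ j ∈ (Finset.range (n + 1)).erase i, (beta G (pull ℝ P.a) Set.univ ∅ j : ℤ) := by
        have h5 : |(-1 : ℤ) ^ i * (beta G (pull ℝ P.a) Set.univ ∅ i : ℤ)| =
            |∑ j ∈ (Finset.range (n + 1)).erase i,
              (-1 : ℤ) ^ j * (beta G (pull ℝ P.a) Set.univ ∅ j : ℤ)| := by
          rw [eq_neg_of_add_eq_zero_left h3, abs_neg]
        have h6 : ∀ j, |(-1 : ℤ) ^ j * (beta G (pull ℝ P.a) Set.univ ∅ j : ℤ)| =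
            (beta G (pull ℝ P.a) Set.univ ∅ j : ℤ) := by
          intro j
          rw [abs_mul, abs_pow, abs_neg, abs_one, one_pow, one_mul, Nat.abs_cast]
        rw [h6] at h5
        rw [h5]
        refine (Finset.abs_sum_le_sum_abs _ _).trans (le_of_eq ?_)
        exact Finset.sum_congr rfl fun j _ => h6 j
      have h4' : beta G (pull ℝ P.a) Set.univ ∅ i ≤
          ∑ j ∈ (Finset.range (n + 1)).erase i, beta G (pull ℝ P.a) Set.univ ∅ j := by
        exact_mod_cast h4
      have h7 : (n + 1) * (N * beta G (pull ℝ P.a) Set.univ ∅ i) ≤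
          (n + 1) * Fintype.card Y := by
        calc (n + 1) * (N * beta G (pull ℝ P.a) Set.univ ∅ i)
            = N * (n + 1) * beta G (pull ℝ P.a) Set.univ ∅ i := by ring
          _ ≤ N * (n + 1) * ∑ j ∈ (Finset.range (n + 1)).erase i,
              beta G (pull ℝ P.a) Set.univ ∅ j := Nat.mul_le_mul_left _ h4'
          _ = ∑ j ∈ (Finset.range (n + 1)).erase i,
              N * (n + 1) * beta G (pull ℝ P.a) Set.univ ∅ j := Finset.mul_sum _ _ _
          _ ≤ ∑ _j ∈ (Finset.range (n + 1)).erase i, Fintype.card Y :=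
              Finset.sum_le_sum fun j hj => e5 j hj
          _ = ((Finset.range (n + 1)).erase i).card * Fintype.card Y := by
              rw [Finset.sum_const, smul_eq_mul]
          _ ≤ (n + 1) * Fintype.card Y := by
              apply Nat.mul_le_mul_right
              exact (Finset.card_erase_le).trans (le_of_eq (Finset.card_range _))
      exact Nat.le_of_mul_le_mul_left h7 (Nat.succ_pos n)

end Pool.Agent.W723.SM
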