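import Pool.Agent.H7.L.Y132_SI_Up
import Pool.Agent.H7.L.W723_SM_L2EUL

/-!
# The Betti numbers of all far enough subgroups of finite index of right-angled Coxeter groups
-/

set_option autoImplicit false

namespace Pool.Agent.Y132.SI

open Module Pool.Agent.W907.SG Pool.Agent.W907.SM Pool.Agent.W461.SGN Pool.Agent.W397.SG
  Pool.Agent.TH652.Above

/-- the dimension of the chains over a clique, for free actions -/
theorem ET_dim' {V X F : Type} [Field F] [Fintype X] [DecidableEq V] (h2 : (2 : F) ≠ 0) (G : SimpleGraph V)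
    (a : V → X → X) (hinv : ∀ v x, a v (a v x) = x)
    (hcomm : ∀ u v, G.Adj u v → ∀ x, a u (a v x) = a v (a u x))
    (hσ : ∀ (T : Finset V) (t : V), t ∉ T → G.IsClique ((insert t T : Finset V) : Set V) →
      ∃ σ : X → Bool, (∀ x, σ (a t x) = !(σ x)) ∧ ∀ u ∈ T, ∀ x, σ (a u x) = σ x)
    (T : Finset V) : G.IsClique (T : Set V) →
      finrank F (ET F a T) * 2 ^ T.card = Fintype.card X := by
  induction T using Finset.induction_on with
  | empty =>
    intro _
    have : ET F a ∅ = ⊤ := by
      rw [eq_top_iff]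
      intro f _ t ht
      exact absurd ht (Finset.notMem_empty t)
    rw [this, finrank_top, Module.finrank_fintype_fun_eq_card]
    simp
  | insert t T ht ih =>
    intro hc
    obtain ⟨σ, hs, ho⟩ := hσ T t ht hc
    have hcT : G.IsClique (T : Set V) := hc.subset (by simp)
    have hadj : ∀ u ∈ T, G.Adj u t := by
      intro u hu
      refine hc (by simp [hu]) (by simp) ?_
      rintro rfl
      exact ht hu
    obtain ⟨P, hP⟩ : ∃ P : Submodule F (X → F), ∀ f, f ∈ P ↔ (f ∈ ET F a T ∧ ∀ x, f (a t x) = f x) :=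
      ⟨{ carrier := {f | f ∈ ET F a T ∧ ∀ x, f (a t x) = f x}
         add_mem' := by
          rintro f g ⟨h1, h3⟩ ⟨h4, h5⟩
          refine ⟨add_mem h1 h4, fun x => ?_⟩
          rw [Pi.add_apply, Pi.add_apply, h3, h5]
         zero_mem' := ⟨zero_mem _, fun _ => rfl⟩
         smul_mem' := by
          rintro r f ⟨h1, h3⟩
          refine ⟨Submodule.smul_mem _ r h1, fun x => ?_⟩
          rw [Pi.smul_apply, Pi.smul_apply, h3] }, fun f => Iff.rfl⟩
    have hQ : ∀ f, f ∈ ET F a (insert t T) ↔ (f ∈ ET F a T ∧ ∀ x, f (a t x) = - f x) := by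
      intro f
      constructor
      · intro h
        exact ⟨fun u hu => h u (Finset.mem_insert_of_mem hu), h t (Finset.mem_insert_self _ _)⟩
      · rintro ⟨h1, h3⟩ u hu
        rcases Finset.mem_insert.1 hu with rfl | hu
        · exact h3
        · exact h1 u hu
    have hsup : P ⊔ ET F a (insert t T) = ET F a T := by
      apply le_antisymm
      · refine sup_le (fun f hf => ((hP f).1 hf).1) (fun f hf => ((hQ f).1 hf).1)
      · intro f hf
        have hft : (fun x => f (a t x)) ∈ ET F a T := by
          intro u hu x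
          show f (a t (a u x)) = - f (a t x)
          rw [← hcomm u t (hadj u hu), hf u hu]
        have e : f = (2 : F)⁻¹ • (f + fun x => f (a t x)) + (2 : F)⁻¹ • (f - fun x => f (a t x)) := by
          rw [← smul_add]
          have : (f + fun x => f (a t x)) + (f - fun x => f (a t x)) = (2 : F) • f := by
            rw [two_smul]; abel
          rw [this, smul_smul, inv_mul_cancel₀ h2, one_smul]
        rw [e]
        refine Submodule.add_mem_sup ?_ ?_
        · rw [hP]
          refine ⟨Submodule.smul_mem _ _ (add_mem hf hft), fun x => ?_⟩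
          simp only [Pi.smul_apply, Pi.add_apply, hinv]
          rw [add_comm]
        · rw [hQ]
          refine ⟨Submodule.smul_mem _ _ (sub_mem hf hft), fun x => ?_⟩
          simp only [Pi.smul_apply, Pi.sub_apply, hinv, smul_eq_mul]
          ring
    have hinf : P ⊓ ET F a (insert t T) = ⊥ := by
      rw [eq_bot_iff]
      rintro f ⟨h1, h3⟩
      rw [Submodule.mem_bot]
      funext x
      have h4 := ((hP f).1 h1).2 x
      have h5 := ((hQ f).1 h3).2 x
      rw [h4] at h5
      have h6 : (2 : F) * f x = 0 := by linear_combination h5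
      rcases mul_eq_zero.1 h6 with h7 | h7
      · exact absurd h7 h2
      · exact h7
    have hmap : P.map (sgM F σ : (X → F) →ₗ[F] (X → F)) = ET F a (insert t T) := by
      have key : ∀ f, sgM F σ f ∈ ET F a (insert t T) ↔ f ∈ P := by
        intro f
        rw [hP, hQ]
        refine and_congr ?_ ?_
        · refine forall_congr' fun u => ?_
          refine ⟨fun h hu x => ?_, fun h hu x => ?_⟩
          · have h3 := h hu x
            change (if σ (a u x) then (-1 : F) else 1) * f (a u x) =
              -((if σ x then -1 else 1) * f x) at h3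
            rw [ho u hu] at h3
            cases h4 : σ x
            · simpa [h4] using h3
            · simp only [h4, if_true] at h3
              linear_combination -h3
          · have h3 := h hu x
            show (if σ (a u x) then (-1 : F) else 1) * f (a u x) =
              -((if σ x then -1 else 1) * f x)
            rw [ho u hu, h3]
            ring
        · refine forall_congr' fun x => ?_
          show (if σ (a t x) then (-1 : F) else 1) * f (a t x) =
              -((if σ x then -1 else 1) * f x) ↔ _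
          rw [hs]
          cases h4 : σ x
          · simp
          · simp
      ext f
      rw [Submodule.mem_map]
      constructor
      · rintro ⟨g, hg, rfl⟩
        exact (key g).2 hg
      · intro hf
        refine ⟨(sgM F σ).symm f, ?_, ?_⟩
        · rw [← key, LinearEquiv.apply_symm_apply]
          exact hf
        · exact LinearEquiv.apply_symm_apply _ _
    have hfr : finrank F (ET F a (insert t T)) = finrank F P := by
      rw [← hmap, LinearEquiv.finrank_map_eq]
    have hd := Submodule.finrank_sup_add_finrank_inf_eq P (ET F a (insert t T))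
    rw [hsup, hinf, finrank_bot] at hd
    have h6 := ih hcT
    rw [Finset.card_insert_of_notMem ht, pow_succ, ← h6]
    have h7 : finrank F (ET F a T) = 2 * finrank F (ET F a (insert t T)) := by omega
    rw [h7]
    ring

/-- the alternating sum of the dimensions -/
theorem chi_dim' {V X F : Type} [Field F] [Fintype V] [LinearOrder V] [Fintype X]
    (h2 : (2 : F) ≠ 0) (G : SimpleGraph V) (a : V → X → X)
    (hinv : ∀ v x, a v (a v x) = x)
    (hcomm : ∀ u v, G.Adj u v → ∀ x, a u (a v x) = a v (a u x))
    (hσ : ∀ (T : Finset V) (t : V), t ∉ T → G.IsClique ((insert t T : Finset V) : Set V) →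
      ∃ σ : X → Bool, (∀ x, σ (a t x) = !(σ x)) ∧ ∀ u ∈ T, ∀ x, σ (a u x) = σ x) :
    ((∑ i ∈ Finset.range (Fintype.card V + 1), (-1 : ℤ) ^ i *
      (finrank F (KK G (pull F a) Set.univ ∅ i) : ℤ) : ℤ) : ℚ) =
      Fintype.card X * chiW G := by
  classical
  push_cast
  have h1 : ∀ i ∈ Finset.range (Fintype.card V + 1), (-1 : ℚ) ^ i *
      (finrank F (KK G (pull F a) Set.univ ∅ i) : ℚ) =
      ∑ T : Finset V, if T.card = i then (Fintype.card X : ℚ) *
        (if G.IsClique (T : Set V) then (-1 / 2 : ℚ) ^ T.card else 0) else 0 := by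
    intro i _
    rw [KK_dim, Nat.cast_sum, Finset.mul_sum]
    refine Finset.sum_congr rfl fun T _ => ?_
    by_cases hT : G.IsClique (T : Set V)
    · by_cases hi : T.card = i
      · have h3 := ET_dim' h2 G a hinv hcomm (fun T t h1 h2 => by
          refine hσ T t h1 ?_
          convert h2) T hT
        rw [if_pos ⟨hT, hi⟩, if_pos hi, if_pos hT, ← h3, ← hi]
        push_cast
        rw [div_pow]
        field_simp
      · rw [if_neg (fun h => hi h.2), if_neg hi]
        simp
    · rw [if_neg (fun h => hT h.1), if_neg hT]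
      simp
  rw [Finset.sum_congr rfl h1, Finset.sum_comm, chiW, Finset.mul_sum]
  refine Finset.sum_congr rfl fun T _ => ?_
  rw [Finset.sum_ite_eq, if_pos]
  · congr
  · rw [Finset.mem_range]
    have := Finset.card_le_univ T
    omega

/-- the alternating sum of the Betti numbers -/
theorem beta_sum' {V X F : Type} [Field F] [Fintype V] [LinearOrder V] [Fintype X]
    (h2 : (2 : F) ≠ 0) (G : SimpleGraph V) (a : V → X → X)
    (hinv : ∀ v x, a v (a v x) = x)
    (hcomm : ∀ u v, G.Adj u v → ∀ x, a u (a v x) = a v (a u x))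
    (hσ : ∀ (T : Finset V) (t : V), t ∉ T → G.IsClique ((insert t T : Finset V) : Set V) →
      ∃ σ : X → Bool, (∀ x, σ (a t x) = !(σ x)) ∧ ∀ u ∈ T, ∀ x, σ (a u x) = σ x) :
    ((∑ i ∈ Finset.range (Fintype.card V + 1), (-1 : ℤ) ^ i *
      (beta G (pull F a) Set.univ ∅ i : ℤ) : ℤ) : ℚ) = Fintype.card X * chiW G := by
  have h1 := euler G (pull F a) Set.univ ∅ (Fintype.card V)
  have hBB : finrank F (BB G (pull F a) Set.univ ∅ (Fintype.card V)) = 0 := by
    unfold BB
    rw [KK_big G _ Set.univ ∅ (by omega : Fintype.card V < Fintype.card V + 1),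
      Submodule.map_bot, finrank_bot]
  rw [hBB, Nat.cast_zero, mul_zero, sub_zero] at h1
  rw [h1, chi_dim' h2 G a hinv hcomm hσ]

section

variable {V : Type} (G : SimpleGraph V)

/-- the special subgroup -/
noncomputable def WT (T : Finset V) : Subgroup (W G) := Subgroup.closure ((cox G).simple '' (T : Set V))

theorem WT_th [DecidableEq V] (T : Finset V) (t : V) (ht : t ∉ T) (g : W G) (hg : g ∈ WT G T) : th G g t = 1 := by
  unfold WT at hg
  induction hg using Subgroup.closure_induction with
  | mem x hx =>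
    obtain ⟨u, hu, rfl⟩ := hx
    have h1 := th_other G 1 t u (by rintro rfl; exact ht hu)
    rw [one_mul, map_one] at h1
    rw [h1, Pi.one_apply]
  | one => rw [map_one, Pi.one_apply]
  | mul x y _ _ hx hy => rw [map_mul, Pi.mul_apply, hx, hy, one_mul]
  | inv x _ hx => rw [map_inv, Pi.inv_apply, hx, inv_one]

theorem WT_comm [DecidableEq V] (T : Finset V) (t : V) (ht : t ∉ T)
    (hc : G.IsClique ((insert t T : Finset V) : Set V)) (g : W G) (hg : g ∈ WT G T) :
    g * (cox G).simple t = (cox G).simple t * g := by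
  unfold WT at hg
  induction hg using Subgroup.closure_induction with
  | mem x hx =>
    obtain ⟨u, hu, rfl⟩ := hx
    have hu' : u ∈ T := hu
    refine simple_comm G u t (hc (by simp [hu']) (by simp) ?_)
    rintro rfl
    exact ht hu
  | one => rw [one_mul, mul_one]
  | mul x y _ _ hx hy => rw [mul_assoc, hy, ← mul_assoc, hx, mul_assoc]
  | inv x _ hx =>
    rw [inv_mul_eq_iff_eq_mul, ← mul_assoc, hx, mul_assoc, mul_inv_cancel, mul_one]

theorem WT_insert [DecidableEq V] (T : Finset V) (t : V) (ht : t ∉ T)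
    (hc : G.IsClique ((insert t T : Finset V) : Set V)) (g : W G) (hg : g ∈ WT G (insert t T)) :
    ∃ h ∈ WT G T, g = h ∨ g = h * (cox G).simple t := by
  unfold WT at hg
  induction hg using Subgroup.closure_induction with
  | mem x hx =>
    obtain ⟨u, hu, rfl⟩ := hx
    rcases Finset.mem_insert.1 (Finset.mem_coe.1 hu) with rfl | hu
    · exact ⟨1, one_mem _, Or.inr (by rw [one_mul])⟩
    · exact ⟨(cox G).simple u, Subgroup.subset_closure ⟨u, hu, rfl⟩, Or.inl rfl⟩
  | one => exact ⟨1, one_mem _, Or.inl rfl⟩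
  | mul x y _ _ hx hy =>
    obtain ⟨h, hh, hx⟩ := hx
    obtain ⟨k, hk, hy⟩ := hy
    refine ⟨h * k, mul_mem hh hk, ?_⟩
    have hks := WT_comm G T t ht hc k hk
    rcases hx with rfl | rfl <;> rcases hy with rfl | rfl
    · exact Or.inl rfl
    · exact Or.inr (by rw [mul_assoc])
    · exact Or.inr (by rw [mul_assoc, ← hks, mul_assoc])
    · refine Or.inl ?_
      rw [mul_assoc, ← mul_assoc _ k _, ← hks, mul_assoc k, simple_mul_self, mul_one]
  | inv x _ hx =>
    obtain ⟨h, hh, hx⟩ := hx
    have hks := WT_comm G T t ht hc h⁻¹ (inv_mem hh)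
    refine ⟨h⁻¹, inv_mem hh, ?_⟩
    rcases hx with rfl | rfl
    · exact Or.inl rfl
    · refine Or.inr ?_
      rw [mul_inv_rev, hks]
      congr 1
      exact inv_eq_of_mul_eq_one_right (simple_mul_self G t)

theorem WT_finite [DecidableEq V] (T : Finset V) : G.IsClique (T : Set V) →
    ((WT G T : Subgroup (W G)) : Set (W G)).Finite := by
  induction T using Finset.induction_on with
  | empty =>
    intro _
    unfold WT
    rw [Finset.coe_empty, Set.image_empty, Subgroup.closure_empty]
    exact Set.finite_singleton _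
  | insert t T ht ih =>
    intro hc
    have h1 := ih (hc.subset (by simp))
    refine (h1.union (h1.image (fun h => h * (cox G).simple t))).subset ?_
    intro g hg
    obtain ⟨h, hh, h3⟩ := WT_insert G T t ht hc g hg
    rcases h3 with rfl | rfl
    · exact Or.inl hh
    · exact Or.inr ⟨h, hh, rfl⟩

/-- signs from freeness -/
theorem exists_sigma [DecidableEq V] {X : Type} (a : V → X → X) (ev : X → W G → X)
    (h1 : ∀ x, ev x 1 = x) (hm : ∀ x g h, ev x (g * h) = ev (ev x g) h)
    (ha : ∀ x v, ev x ((cox G).simple v) = a v x)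
    (hf : ∀ (T : Finset V), G.IsClique (T : Set V) → ∀ g ∈ WT G T, g ≠ 1 → ∀ x, ev x g ≠ x)
    (T : Finset V) (t : V) (ht : t ∉ T) (hc : G.IsClique ((insert t T : Finset V) : Set V)) :
    ∃ σ : X → Bool, (∀ x, σ (a t x) = !(σ x)) ∧ ∀ u ∈ T, ∀ x, σ (a u x) = σ x := by
  classical
  let r : Setoid X :=
    { r := fun x y => ∃ g ∈ WT G T, ev x g = y
      iseqv :=
        { refl := fun x => ⟨1, one_mem _, h1 x⟩
          symm := by
            rintro x y ⟨g, hg, rfl⟩
            refine ⟨g⁻¹, inv_mem hg, ?_⟩
            rw [← hm, mul_inv_cancel, h1]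
          trans := by
            rintro x y z ⟨g, hg, rfl⟩ ⟨h, hh, rfl⟩
            exact ⟨g * h, mul_mem hg hh, hm _ _ _⟩ } }
  have hcong : ∀ x y : X, r x y → r (a t x) (a t y) := by
    rintro x y ⟨g, hg, rfl⟩
    refine ⟨g, hg, ?_⟩
    rw [← ha, ← ha, ← hm, ← hm, WT_comm G T t ht hc g hg]
  let τ : Quotient r → Quotient r := Quotient.map (a t) hcong
  have hτ : ∀ x, τ (Quotient.mk r x) = Quotient.mk r (a t x) := fun x => rfl
  have hinv : ∀ x, a t (a t x) = x := by
    intro x
    rw [← ha, ← ha, ← hm, simple_mul_self, h1]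
  have hττ : ∀ y, τ (τ y) = y := by
    intro y
    induction y using Quotient.inductionOn with
    | h x => rw [hτ, hτ, hinv]
  have hne : ∀ y, τ y ≠ y := by
    intro y
    induction y using Quotient.inductionOn with
    | h x =>
      rw [hτ]
      intro h
      obtain ⟨g, hg, h3⟩ := Quotient.exact h
      rw [← ha, ← hm] at h3
      refine hf (insert t T) hc ((cox G).simple t * g) ?_ ?_ x h3
      · refine mul_mem (Subgroup.subset_closure ⟨t, by simp, rfl⟩) ?_
        refine Subgroup.closure_mono ?_ hg
        exact Set.image_mono (by simp)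
      · intro h4
        have h5 := th_self G g t
        rw [WT_comm G T t ht hc g hg, h4, map_one, Pi.one_apply, WT_th G T t ht g hg] at h5
        exact absurd h5 (by decide)
  have hrel : ∀ y z : Quotient r, y ≠ z → (WellOrderingRel y z ↔ ¬ WellOrderingRel z y) := by
    intro y z hyz
    constructor
    · intro h h'
      exact asymm_of WellOrderingRel h h'
    · intro h
      rcases trichotomous_of (WellOrderingRel (α := Quotient r)) y z with h' | h' | h'
      · exact h'
      · exact absurd h' hyz
      · exact absurd h' h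
  refine ⟨fun x => decide (WellOrderingRel (Quotient.mk r x) (τ (Quotient.mk r x))), ?_, ?_⟩
  · intro x
    show decide (WellOrderingRel (Quotient.mk r (a t x)) (τ (Quotient.mk r (a t x)))) =
      !decide (WellOrderingRel (Quotient.mk r x) (τ (Quotient.mk r x)))
    rw [← hτ, hττ]
    by_cases h : WellOrderingRel (Quotient.mk r x) (τ (Quotient.mk r x))
    · have h' : ¬ WellOrderingRel (τ (Quotient.mk r x)) (Quotient.mk r x) :=
        (hrel _ _ (hne _).symm).1 h
      simp [h, h']
    · have h' : WellOrderingRel (τ (Quotient.mk r x)) (Quotient.mk r x) :=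
        (hrel _ _ (hne _)).2 h
      simp [h, h']
  · intro u hu x
    have h : (Quotient.mk r (a u x) : Quotient r) = Quotient.mk r x := by
      refine (Quotient.sound ?_).symm
      exact ⟨(cox G).simple u, Subgroup.subset_closure ⟨u, hu, rfl⟩, ha x u⟩
    simp only [h]

/-- the nontrivial elements of the finite special subgroups -/
theorem exists_tor [Fintype V] : ∃ E : Finset (W G), (1 : W G) ∉ E ∧
    ∀ (T : Finset V), G.IsClique (T : Set V) → ∀ g ∈ WT G T, g ≠ 1 → g ∈ E := by
  classical
  have h1 : (⋃ T ∈ {T : Finset V | G.IsClique (T : Set V)}, ((WT G T : Subgroup (W G)) : Set (W G))).Finite :=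
    Set.Finite.biUnion (Set.toFinite _) fun T hT => WT_finite G T hT
  refine ⟨h1.toFinset.erase 1, Finset.notMem_erase _ _, fun T hT g hg hg1 => ?_⟩
  rw [Finset.mem_erase, Set.Finite.mem_toFinset]
  refine ⟨hg1, ?_⟩
  rw [Set.mem_iUnion₂]
  exact ⟨T, hT, hg⟩

end

/-- growth of the Betti numbers of all subgroups of finite index -/
theorem growth_free {V : Type} [Fintype V] [LinearOrder V] (G : SimpleGraph V) (n : ℕ)
    (hL : ∀ i : ℕ, 2 * i ≠ n → L2Van G i) (ε : ℝ) (hε : 0 < ε) :
    ∃ E : Finset (W G), (1 : W G) ∉ E ∧ ∀ H : Subgroup (W G), H.FiniteIndex →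
      (∀ g ∈ E, ∀ x : W G, x * g * x⁻¹ ∉ H) → ∀ i : ℕ,
        |(finrank ℝ (HInv G H i) : ℝ) - (if 2 * i = n then (-1) ^ i * (chiW G : ℝ) else 0) * H.index| ≤
          ε * H.index := by
  classical
  obtain ⟨K, hK⟩ : ∃ K : ℕ, K = Fintype.card V + 1 := ⟨_, rfl⟩
  obtain ⟨N, hN⟩ := exists_nat_gt ((K : ℝ) / ε)
  have hNK : (K : ℝ) < N * ε := (div_lt_iff₀ hε).1 hN
  have hN0 : (0 : ℝ) < N := lt_of_le_of_lt (by positivity) hN
  have h1 : ∀ i : ℕ, ∃ Ei : Finset (W G), (1 : W G) ∉ Ei ∧ (2 * i ≠ n →
      ∀ (X : Type) [Fintype X] (a : V → X → X) (ev : X → W G → X),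
      (∀ v x, a v (a v x) = x) → (∀ u v, G.Adj u v → ∀ x, a u (a v x) = a v (a u x)) →
      (∀ x, ev x 1 = x) → (∀ x g h, ev x (g * h) = ev (ev x g) h) →
      (∀ x v, ev x ((cox G).simple v) = a v x) →
      (∀ g ∈ Ei, ∀ x, ev x g ≠ x) → N * beta G (pull ℝ a) Set.univ ∅ i ≤ Fintype.card X) := by
    intro i
    by_cases hi : 2 * i = n
    · exact ⟨∅, Finset.notMem_empty _, fun h => absurd hi h⟩
    · obtain ⟨Ei, h2, h3⟩ := small V G i (hL i hi) N
      exact ⟨Ei, h2, fun _ => h3⟩
  choose Ef hEf1 hEf2 using h1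
  obtain ⟨E0, hE01, hE02⟩ := exists_tor G
  refine ⟨(Finset.range K).biUnion Ef ∪ E0, ?_, ?_⟩
  · rw [Finset.mem_union, Finset.mem_biUnion]
    rintro (⟨i, _, h⟩ | h)
    · exact hEf1 i h
    · exact hE01 h
  intro H hfin hE i
  haveI : Finite (Quotient (QuotientGroup.rightRel H)) :=
    Finite.of_equiv _ (QuotientGroup.quotientRightRelEquivQuotientLeftRel H).symm
  letI : Fintype (Quotient (QuotientGroup.rightRel H)) := Fintype.ofFinite _
  have hcard : (Fintype.card (Quotient (QuotientGroup.rightRel H)) : ℝ) = H.index := by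
    rw [← Nat.card_eq_fintype_card, Nat.card_congr (QuotientGroup.quotientRightRelEquivQuotientLeftRel H)]
    rfl
  have hidx : (0 : ℝ) ≤ H.index := Nat.cast_nonneg _
  obtain ⟨b, hb⟩ : ∃ b : ℕ → ℝ, ∀ j, b j = (beta G (pull ℝ (aa G H)) Set.univ ∅ j : ℝ) := ⟨_, fun _ => rfl⟩
  have hb0 : ∀ j, 0 ≤ b j := fun j => by rw [hb]; exact Nat.cast_nonneg _
  have hsmall : ∀ j, j < K → 2 * j ≠ n → N * b j ≤ H.index := by
    intro j hj hjn
    have h2 := hEf2 j hjn _ (aa G H) (ev G H) (aa_inv G H) (fun u v h x => aa_comm G H u v h x)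
      (ev_one G H) (ev_mul G H) (fun _ _ => rfl) (fun g hg x => ev_free G H (fun y =>
        hE g (Finset.mem_union_left _ (Finset.mem_biUnion.2 ⟨j, Finset.mem_range.2 hj, hg⟩)) y) x)
    rw [hb, ← hcard]
    exact_mod_cast h2
  have hbig : ∀ j, K ≤ j → b j = 0 := by
    intro j hj
    rw [hb, beta_big G _ Set.univ ∅ (by omega), Nat.cast_zero]
  have heul : ∑ j ∈ Finset.range K, (-1 : ℝ) ^ j * b j = H.index * (chiW G : ℝ) := by
    have h3 := beta_sum' (two_ne_zero : (2 : ℝ) ≠ 0) G (aa G H) (aa_inv G H)
      (fun u v h x => aa_comm G H u v h x)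
      (fun T t ht hc => exists_sigma G (aa G H) (ev G H) (ev_one G H) (ev_mul G H) (fun _ _ => rfl)
        (fun T hT g hg hg1 x => ev_free G H (fun y =>
          hE g (Finset.mem_union_right _ (hE02 T hT g hg hg1)) y) x) T t ht hc)
    have h4 := congrArg (fun q : ℚ => (q : ℝ)) h3
    push_cast at h4
    rw [hcard] at h4
    rw [← h4, hK]
    exact Finset.sum_congr rfl fun j _ => by rw [hb]
  have hle : ∀ j ∈ Finset.range K, 2 * j ≠ n → b j ≤ H.index / N := by
    intro j hj hjn
    rw [le_div_iff₀ hN0, mul_comm]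
    exact hsmall j (Finset.mem_range.1 hj) hjn
  have hsum : ∀ S : Finset ℕ, S ⊆ Finset.range K → (∀ j ∈ S, 2 * j ≠ n) →
      |∑ j ∈ S, (-1 : ℝ) ^ j * b j| ≤ ε * H.index := by
    intro S hS hSn
    calc |∑ j ∈ S, (-1 : ℝ) ^ j * b j| ≤ ∑ j ∈ S, |(-1 : ℝ) ^ j * b j| := Finset.abs_sum_le_sum_abs _ _
      _ = ∑ j ∈ S, b j := Finset.sum_congr rfl fun j _ => by
          rw [abs_mul, abs_pow, abs_neg, abs_one, one_pow, one_mul, abs_of_nonneg (hb0 j)]
      _ ≤ ∑ _j ∈ S, (H.index : ℝ) / N := Finset.sum_le_sum fun j hj => hle j (hS hj) (hSn j hj)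
      _ = S.card * ((H.index : ℝ) / N) := by rw [Finset.sum_const, nsmul_eq_mul]
      _ ≤ K * ((H.index : ℝ) / N) := by
          refine mul_le_mul_of_nonneg_right ?_ (by positivity)
          have := Finset.card_le_card hS
          rw [Finset.card_range] at this
          exact_mod_cast this
      _ ≤ (N * ε) * ((H.index : ℝ) / N) := mul_le_mul_of_nonneg_right hNK.le (by positivity)
      _ = ε * H.index := by field_simp
  rw [finrank_HInv, ← hb]
  by_cases hi : 2 * i = n
  · rw [if_pos hi]
    by_cases hiK : i < K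
    · have hmem : i ∈ Finset.range K := Finset.mem_range.2 hiK
      have h5 := hsum ((Finset.range K).erase i) (Finset.erase_subset _ _) (fun j hj => by
        have := Finset.ne_of_mem_erase hj
        omega)
      rw [← Finset.add_sum_erase _ _ hmem] at heul
      have h6 : b i - (-1) ^ i * (chiW G : ℝ) * H.index =
          - ((-1) ^ i * ∑ j ∈ (Finset.range K).erase i, (-1 : ℝ) ^ j * b j) := by
        have h7 : ((-1 : ℝ) ^ i) * (-1) ^ i = 1 := by
          rw [← mul_pow]; norm_num
        have h8 : b i = (-1) ^ i * ((-1) ^ i * b i) := by rw [← mul_assoc, h7, one_mul]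
        have h9 : (-1 : ℝ) ^ i * b i = H.index * (chiW G : ℝ) -
          ∑ j ∈ (Finset.range K).erase i, (-1 : ℝ) ^ j * b j := by linarith
        rw [h8, h9]
        ring
      rw [h6, abs_neg, abs_mul, abs_pow, abs_neg, abs_one, one_pow, one_mul]
      exact h5
    · rw [hbig i (by omega)]
      have h5 := hsum (Finset.range K) le_rfl (fun j hj => by
        have := Finset.mem_range.1 hj
        omega)
      rw [heul] at h5
      rw [zero_sub, abs_neg, mul_assoc, abs_mul, abs_pow, abs_neg, abs_one, one_pow, one_mul, mul_comm]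
      exact h5
  · rw [if_neg hi, zero_mul, sub_zero, abs_of_nonneg (hb0 i)]
    by_cases hiK : i < K
    · refine (hle i (Finset.mem_range.2 hiK) hi).trans ?_
      rw [div_le_iff₀ hN0]
      have hK1 : (1 : ℝ) ≤ K := by rw [hK]; push_cast; linarith [Nat.cast_nonneg (α := ℝ) (Fintype.card V)]
      nlinarith
    · rw [hbig i (by omega)]
      positivity

/-- The Euler characteristic vanishes if and only if all Betti numbers grow sublinearly. -/
theorem chi_iff {V : Type} [Fintype V] [LinearOrder V] (G : SimpleGraph V) (n : ℕ)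
    (hL : ∀ i : ℕ, 2 * i ≠ n → L2Van G i) :
    chiW G = 0 ↔ ∀ ε : ℝ, 0 < ε → ∃ E : Finset (W G), (1 : W G) ∉ E ∧ ∀ H : Subgroup (W G), H.FiniteIndex →
      (∀ g ∈ E, ∀ x : W G, x * g * x⁻¹ ∉ H) → ∀ i : ℕ, (finrank ℝ (HInv G H i) : ℝ) ≤ ε * H.index := by
  classical
  constructor
  · intro hχ ε hε
    obtain ⟨E, hE1, hE2⟩ := growth_free G n hL ε hε
    refine ⟨E, hE1, fun H hfin hE i => ?_⟩
    have h1 := hE2 H hfin hE i
    rw [hχ, Rat.cast_zero, mul_zero, ite_self, zero_mul, sub_zero] at h1
    exact (le_abs_self _).trans h1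
  · intro h
    by_contra hχ
    have hχ' : 0 < |(chiW G : ℝ)| := abs_pos.2 (by exact_mod_cast hχ)
    obtain ⟨K, hK⟩ : ∃ K : ℕ, K = Fintype.card V + 1 := ⟨_, rfl⟩
    have hK0 : (0 : ℝ) < K := by rw [hK]; positivity
    obtain ⟨E, hE1, hE2⟩ := h (|(chiW G : ℝ)| / (2 * K)) (by positivity)
    obtain ⟨E0, hE01, hE02⟩ := exists_tor G
    have : Fact (Nat.Prime 3) := ⟨Nat.prime_three⟩
    obtain ⟨Y, fY, neY, P, evY, e1, e2, e3, e4⟩ := nilp 3 V G (E ∪ E0) (by norm_num) (by
      rw [Finset.mem_union]
      rintro (h | h)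
      · exact hE1 h
      · exact hE01 h)
    obtain ⟨y⟩ := neY
    let H : Subgroup (W G) :=
      { carrier := {g | evY y g = y}
        mul_mem' := by
          intro g h hg hh
          show evY y (g * h) = y
          rw [e2, show evY y g = y from hg, show evY y h = y from hh]
        one_mem' := e1 y
        inv_mem' := by
          intro g hg
          show evY y g⁻¹ = y
          have h1 : evY y g = y := hg
          calc evY y g⁻¹ = evY (evY y g) g⁻¹ := by rw [h1]
            _ = y := by rw [← e2, mul_inv_cancel, e1] }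
    have hHmem : ∀ g, g ∈ H ↔ evY y g = y := fun g => Iff.rfl
    haveI : Finite (Quotient (QuotientGroup.rightRel H)) := by
      refine Finite.of_injective (fun q : Quotient (QuotientGroup.rightRel H) =>
        Quotient.liftOn' q (fun w => evY y w) (fun a b hab => ?_)) ?_
      · rw [QuotientGroup.rightRel_apply, hHmem, e2] at hab
        have h2 := congrArg (fun z => evY z a) hab
        simp only [← e2, mul_assoc, inv_mul_cancel, mul_one] at h2
        exact h2.symm
      · intro q q' hqq
        induction q using Quotient.inductionOn' with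
        | h a =>
          induction q' using Quotient.inductionOn' with
          | h b =>
            refine Quotient.sound' ?_
            rw [QuotientGroup.rightRel_apply, hHmem, e2]
            have h2 : evY y a = evY y b := hqq
            rw [← h2, ← e2, mul_inv_cancel, e1]
    have hfin : H.FiniteIndex := by
      haveI : Finite (W G ⧸ H) := Finite.of_equiv _ (QuotientGroup.quotientRightRelEquivQuotientLeftRel H)
      exact Subgroup.finiteIndex_of_finite_quotient
    have havoid : ∀ g ∈ E ∪ E0, ∀ x : W G, x * g * x⁻¹ ∉ H := by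
      intro g hg x hx
      rw [hHmem, e2, e2] at hx
      refine e4 g hg (evY y x) ?_
      have h2 := congrArg (fun z => evY z x) hx
      simp only [← e2, mul_assoc, inv_mul_cancel, mul_one] at h2
      rw [← e2]
      exact h2
    letI : Fintype (Quotient (QuotientGroup.rightRel H)) := Fintype.ofFinite _
    have hcard : (Fintype.card (Quotient (QuotientGroup.rightRel H)) : ℝ) = H.index := by
      rw [← Nat.card_eq_fintype_card, Nat.card_congr (QuotientGroup.quotientRightRelEquivQuotientLeftRel H)]
      rfl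
    have hidx : (0 : ℝ) < H.index := by
      have := hfin.index_ne_zero
      positivity
    have hb := hE2 H hfin (fun g hg => havoid g (Finset.mem_union_left _ hg))
    have heul : ∑ j ∈ Finset.range K, (-1 : ℝ) ^ j * (finrank ℝ (HInv G H j) : ℝ) =
        H.index * (chiW G : ℝ) := by
      have h3 := beta_sum' (two_ne_zero : (2 : ℝ) ≠ 0) G (aa G H) (aa_inv G H)
        (fun u v h x => aa_comm G H u v h x)
        (fun T t ht hc => exists_sigma G (aa G H) (ev G H) (ev_one G H) (ev_mul G H) (fun _ _ => rfl)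
          (fun T hT g hg hg1 x => ev_free G H (fun y =>
            havoid g (Finset.mem_union_right _ (hE02 T hT g hg hg1)) y) x) T t ht hc)
      have h4 := congrArg (fun q : ℚ => (q : ℝ)) h3
      push_cast at h4
      rw [hcard] at h4
      rw [← h4, hK]
      exact Finset.sum_congr rfl fun j _ => by rw [finrank_HInv]
    have h5 : |(H.index : ℝ) * (chiW G : ℝ)| ≤ K * (|(chiW G : ℝ)| / (2 * K) * H.index) := by
      rw [← heul]
      refine (Finset.abs_sum_le_sum_abs _ _).trans ?_
      calc ∑ j ∈ Finset.range K, |(-1 : ℝ) ^ j * (finrank ℝ (HInv G H j) : ℝ)|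
          ≤ ∑ _j ∈ Finset.range K, |(chiW G : ℝ)| / (2 * K) * H.index := by
            refine Finset.sum_le_sum fun j _ => ?_
            rw [abs_mul, abs_pow, abs_neg, abs_one, one_pow, one_mul, Nat.abs_cast]
            exact hb j
        _ = _ := by rw [Finset.sum_const, Finset.card_range, nsmul_eq_mul]
    rw [abs_mul, abs_of_pos hidx] at h5
    have h6 : K * (|(chiW G : ℝ)| / (2 * K) * H.index) = (H.index : ℝ) * |(chiW G : ℝ)| / 2 := by
      field_simp
    rw [h6] at h5
    have h7 : 0 < (H.index : ℝ) * |(chiW G : ℝ)| := by positivity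
    linarith

end Pool.Agent.Y132.SI
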