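import Pool.Agent.H7.L.N496_CV_Stm0

/-!
Project CV, leaf DAC: the Davis complex is acyclic (helper31).
-/

set_option autoImplicit false

noncomputable section

namespace Pool.Agent.N496.CV

open Pool.Agent.W907.SG Pool.Agent.W461.SGN

namespace DacAux

/-- antisymmetrization along a list of generators -/
def An {V : Type} (G : SimpleGraph V) : List V → (W G → ℤ) → W G → ℤ
  | [], F, x => F x
  | t :: L, F, x => An G L F x - An G L F (x * (cox G).simple t)

section

variable {V : Type} {G : SimpleGraph V}

theorem An_zero (L : List V) (F : W G → ℤ) (hF : ∀ x, F x = 0) : ∀ x, An G L F x = 0 := by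
  induction L with
  | nil => exact hF
  | cons t L ih =>
    intro x
    show An G L F x - An G L F (x * (cox G).simple t) = 0
    rw [ih, ih, sub_zero]

theorem An_anti (F : W G → ℤ) (L : List V) (hL : ∀ a ∈ L, ∀ b ∈ L, a ≠ b → G.Adj a b) :
    ∀ t ∈ L, ∀ x, An G L F (x * (cox G).simple t) = - An G L F x := by
  induction L with
  | nil =>
    intro t ht
    exact absurd ht (List.not_mem_nil)
  | cons u L ih =>
    intro t ht x
    have ih' := ih fun a ha b hb => hL a (List.mem_cons_of_mem _ ha) b (List.mem_cons_of_mem _ hb)
    by_cases htu : t = u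
    · rw [htu]
      show An G L F (x * (cox G).simple u) - An G L F (x * (cox G).simple u * (cox G).simple u) =
        -(An G L F x - An G L F (x * (cox G).simple u))
      rw [mul_assoc, simple_mul_self, mul_one]
      ring
    · have ht' : t ∈ L := by
        rcases List.mem_cons.1 ht with h | h
        · exact absurd h htu
        · exact h
      have hadj : G.Adj t u := hL t ht u (List.mem_cons_self) htu
      show An G L F (x * (cox G).simple t) - An G L F (x * (cox G).simple t * (cox G).simple u) =
        -(An G L F x - An G L F (x * (cox G).simple u))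
      rw [mul_assoc, simple_comm G t u hadj, ← mul_assoc, ih' t ht' x, ih' t ht' _]
      ring

theorem An_in (l : W G → ℕ)
    (hadj : ∀ w s t, s ≠ t → l (w * (cox G).simple s) + 1 = l w →
      l (w * (cox G).simple t) + 1 = l w →
      G.Adj s t ∧ l (w * (cox G).simple s * (cox G).simple t) + 1 = l (w * (cox G).simple s))
    (F : W G → ℤ) (L : List V) : L.Nodup →
    (∀ t ∈ L, ∀ w, F w ≠ 0 → l (w * (cox G).simple t) + 1 = l w) →
    ∀ t, t ∉ L → (∀ w, F w ≠ 0 → l (w * (cox G).simple t) + 1 = l w) →
    ∀ y, An G L F y ≠ 0 → l (y * (cox G).simple t) + 1 = l y := by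
  induction L with
  | nil =>
    intro _ _ t _ ht y hy
    exact ht y hy
  | cons u L ih =>
    intro hnd hL t htL ht y hy
    have hnd' := (List.nodup_cons.1 hnd)
    have hL' : ∀ t ∈ L, ∀ w, F w ≠ 0 → l (w * (cox G).simple t) + 1 = l w :=
      fun t ht => hL t (List.mem_cons_of_mem _ ht)
    have htL' : t ∉ L := fun h => htL (List.mem_cons_of_mem _ h)
    have htu : u ≠ t := fun h => htL (by rw [← h]; exact List.mem_cons_self)
    by_cases h1 : An G L F y = 0
    · have h2 : An G L F (y * (cox G).simple u) ≠ 0 := by
        intro h2
        apply hy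
        show An G L F y - An G L F (y * (cox G).simple u) = 0
        rw [h1, h2, sub_zero]
      have h3 := ih hnd'.2 hL' t htL' ht _ h2
      have h4 := ih hnd'.2 hL' u hnd'.1 (hL u List.mem_cons_self) _ h2
      have h5 := (hadj _ u t htu h4 h3).2
      rwa [mul_assoc y, simple_mul_self, mul_one] at h5
    · exact ih hnd'.2 hL' t htL' ht y h1

theorem An_lvl (l : W G → ℕ)
    (hadj : ∀ w s t, s ≠ t → l (w * (cox G).simple s) + 1 = l w →
      l (w * (cox G).simple t) + 1 = l w →
      G.Adj s t ∧ l (w * (cox G).simple s * (cox G).simple t) + 1 = l (w * (cox G).simple s))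
    (F : W G → ℤ) (n : ℕ) (hF : ∀ w, F w ≠ 0 → l w = n) (L : List V) : L.Nodup →
    (∀ t ∈ L, ∀ w, F w ≠ 0 → l (w * (cox G).simple t) + 1 = l w) →
    (∀ y, An G L F y ≠ 0 → l y ≤ n) ∧ ∀ y, n ≤ l y → An G L F y = F y := by
  induction L with
  | nil =>
    intro _ _
    exact ⟨fun y hy => (hF y hy).le, fun y _ => rfl⟩
  | cons u L ih =>
    intro hnd hL
    have hnd' := (List.nodup_cons.1 hnd)
    have hL' : ∀ t ∈ L, ∀ w, F w ≠ 0 → l (w * (cox G).simple t) + 1 = l w :=
      fun t ht => hL t (List.mem_cons_of_mem _ ht)
    obtain ⟨ih1, ih2⟩ := ih hnd'.2 hL'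
    have key : ∀ y, An G L F (y * (cox G).simple u) ≠ 0 → l y + 1 ≤ n := by
      intro y hy
      have h1 := ih1 _ hy
      have h2 := An_in l hadj F L hnd'.2 hL' u hnd'.1 (hL u List.mem_cons_self) _ hy
      rw [mul_assoc, simple_mul_self, mul_one] at h2
      omega
    refine ⟨fun y hy => ?_, fun y hy => ?_⟩
    · by_cases h1 : An G L F y = 0
      · have h2 : An G L F (y * (cox G).simple u) ≠ 0 := by
          intro h2
          apply hy
          show An G L F y - An G L F (y * (cox G).simple u) = 0
          rw [h1, h2, sub_zero]
        have := key y h2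
        omega
      · exact ih1 y h1
    · show An G L F y - An G L F (y * (cox G).simple u) = F y
      have h2 : An G L F (y * (cox G).simple u) = 0 := by
        by_contra h
        have := key y h
        omega
      rw [h2, sub_zero, ih2 y hy]

theorem An_fin (F : W G → ℤ) (hF : (Function.support F).Finite) (L : List V) :
    (Function.support (An G L F)).Finite := by
  induction L with
  | nil => exact hF
  | cons u L ih =>
    have h1 : ((fun x : W G => x * (cox G).simple u) ⁻¹' Function.support (An G L F)).Finite :=
      ih.preimage (fun a _ b _ h => mul_right_cancel h)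
    refine (ih.union h1).subset fun x hx => ?_
    by_cases h2 : An G L F x = 0
    · right
      intro h3
      apply hx
      show An G L F x - An G L F (x * (cox G).simple u) = 0
      rw [h2, h3, sub_zero]
    · left
      exact h2

end

section

variable {V : Type} [Fintype V] [LinearOrder V] {G : SimpleGraph V}

theorem bdf_bdf (c : Finset V → W G → ℤ) : bdf G (bdf G c) = 0 := by
  classical
  funext T w
  show ∑ v ∈ Tᶜ, sg v T • bdf G c (insert v T) w = 0
  have h1 : ∀ v ∈ Tᶜ, sg v T • bdf G c (insert v T) w
      = ∑ u ∈ Tᶜ.erase v, (sg v T * sg u (insert v T)) • c (insert u (insert v T)) w := by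
    intro v hv
    unfold bdf
    rw [Finset.smul_sum]
    have : (insert v T)ᶜ = Tᶜ.erase v := by
      ext u; simp
    rw [this]
    exact Finset.sum_congr rfl fun u _ => by rw [smul_smul]
  rw [Finset.sum_congr rfl h1]
  rw [Finset.sum_sigma']
  refine Finset.sum_involution (fun (x : Σ _ : V, V) _ => ⟨x.2, x.1⟩) ?_ ?_ ?_ ?_
  · rintro ⟨v, u⟩ h
    simp only [Finset.mem_sigma, Finset.mem_compl, Finset.mem_erase] at h
    obtain ⟨hv, huv, hu⟩ := h
    simp only
    rw [Finset.insert_comm v u T, ← add_smul]
    have := sg_swap u v T huv hu hv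
    have h0 : sg v T * sg u (insert v T) + sg u T * sg v (insert u T) = 0 := by
      rw [mul_comm (sg v T), this]; ring
    rw [h0, zero_smul]
  · rintro ⟨v, u⟩ h _ h3
    simp only [Finset.mem_sigma, Finset.mem_compl, Finset.mem_erase] at h
    simp only [Sigma.mk.injEq, heq_eq_eq] at h3
    exact h.2.1 h3.1
  · rintro ⟨v, u⟩ h
    simp only [Finset.mem_sigma, Finset.mem_compl, Finset.mem_erase] at h ⊢
    exact ⟨h.2.2, fun e => h.2.1 e.symm, h.1⟩
  · rintro ⟨v, u⟩ _
    rfl

/-- integral chains with finite support -/
abbrev Ch (G : SimpleGraph V) (i : ℕ) (c : Finset V → W G → ℤ) : Prop :=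
  IsCh G Set.univ (fun f => (Function.support f).Finite) i c

omit [Fintype V] [LinearOrder V] in
theorem Ch_add {i : ℕ} {c d : Finset V → W G → ℤ} (hc : Ch G i c) (hd : Ch G i d) :
    Ch G i (c + d) := by
  refine ⟨fun T hT => ?_, fun T => ?_, fun T t ht w => ?_⟩
  · rw [Pi.add_apply, hc.supp T hT, hd.supp T hT, add_zero]
  · refine ((hc.mem T).union (hd.mem T)).subset ?_
    exact Function.support_add _ _
  · show c T _ + d T _ = -(c T w + d T w)
    rw [hc.anti T t ht, hd.anti T t ht]
    ring

omit [Fintype V] [LinearOrder V] in
theorem Ch_neg {i : ℕ} {c : Finset V → W G → ℤ} (hc : Ch G i c) : Ch G i (-c) := by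
  refine ⟨fun T hT => ?_, fun T => ?_, fun T t ht w => ?_⟩
  · rw [Pi.neg_apply, hc.supp T hT, neg_zero]
  · refine (hc.mem T).subset ?_
    intro w hw h
    exact hw (by show -(c T w) = 0; rw [h, neg_zero])
  · show -(c T _) = -(-(c T w))
    rw [hc.anti T t ht]

theorem Ch_bdf {i : ℕ} {c : Finset V → W G → ℤ} (hc : Ch G (i + 1) c) : Ch G i (bdf G c) := by
  classical
  refine ⟨fun T hT => ?_, fun T => ?_, fun T t ht w => ?_⟩
  · funext w
    refine Finset.sum_eq_zero fun v hv => ?_
    rw [hc.supp (insert v T), Pi.zero_apply, smul_zero]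
    rintro ⟨h3, -, h5⟩
    apply hT
    refine ⟨h3.subset (by simp), Set.subset_univ _, ?_⟩
    rw [Finset.card_insert_of_notMem (by simpa using hv)] at h5
    omega
  · refine (Set.finite_iUnion fun T' : Finset V => hc.mem T').subset fun w hw => ?_
    rw [Set.mem_iUnion]
    by_contra hcon
    push Not at hcon
    apply hw
    refine Finset.sum_eq_zero fun v hv => ?_
    have := hcon (insert v T)
    rw [Function.notMem_support] at this
    rw [this, smul_zero]
  · show ∑ v ∈ Tᶜ, sg v T • c (insert v T) _ = - ∑ v ∈ Tᶜ, sg v T • c (insert v T) w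
    rw [← Finset.sum_neg_distrib]
    refine Finset.sum_congr rfl fun v _ => ?_
    rw [hc.anti (insert v T) t (Finset.mem_insert_of_mem ht), smul_neg]

theorem bdf_add (c d : Finset V → W G → ℤ) : bdf G (c + d) = bdf G c + bdf G d := by
  funext T w
  show ∑ v ∈ Tᶜ, sg v T • (c (insert v T) w + d (insert v T) w) =
    ∑ v ∈ Tᶜ, sg v T • c (insert v T) w + ∑ v ∈ Tᶜ, sg v T • d (insert v T) w
  rw [← Finset.sum_add_distrib]
  exact Finset.sum_congr rfl fun v _ => smul_add _ _ _

theorem bdf_neg (c : Finset V → W G → ℤ) : bdf G (-c) = - bdf G c := by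
  funext T w
  show ∑ v ∈ Tᶜ, sg v T • (-(c (insert v T) w)) = -∑ v ∈ Tᶜ, sg v T • c (insert v T) w
  rw [← Finset.sum_neg_distrib]
  exact Finset.sum_congr rfl fun v _ => smul_neg _ _

omit [Fintype V] [LinearOrder V] in
theorem fs_zero (f : W G → ℤ) (v : V) (h : ∀ w, f (w * (cox G).simple v) = - f w) :
    ∑ᶠ w, f w = 0 := by
  have h1 : ∑ᶠ w, f (w * (cox G).simple v) = ∑ᶠ w, f w :=
    finsum_comp_equiv (Equiv.mulRight ((cox G).simple v)) (f := f)
  simp only [h] at h1
  rw [finsum_neg_distrib] at h1
  omega

theorem fs_bdf {c : Finset V → W G → ℤ} (hc : Ch G 1 c) : ∑ᶠ w, bdf G c ∅ w = 0 := by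
  have h1 : ∑ᶠ w, bdf G c ∅ w = ∑ v ∈ (∅ : Finset V)ᶜ, ∑ᶠ w, sg v ∅ • c (insert v ∅) w := by
    rw [← finsum_sum_comm]
    · rfl
    · intro v _
      refine (hc.mem (insert v ∅)).subset fun w hw h => hw ?_
      show sg v ∅ • c (insert v ∅) w = 0
      rw [h, smul_zero]
  rw [h1]
  refine Finset.sum_eq_zero fun v _ => fs_zero _ v fun w => ?_
  rw [hc.anti _ v (Finset.mem_insert_self _ _), smul_neg]

end

end DacAux

open DacAux in
/-- **DAC** -/
theorem dac (h : LEN) : DAC := by
  classical
  intro V _ _ G i c hc hcyc hsum
  obtain ⟨l, l1, l0, hup, hdown, hadj⟩ := h V G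
  -- the induction
  have main : ∀ (n : ℕ) (c : Finset V → W G → ℤ), Ch G i c → bdf G c = 0 →
      (i = 0 → ∑ᶠ w, c ∅ w = 0) → (∀ T w, n ≤ l w → c T w = 0) →
      ∃ e, Ch G (i + 1) e ∧ bdf G e = c := by
    intro n
    induction n with
    | zero =>
      intro c hc hcyc hsum hn
      refine ⟨0, ⟨fun _ _ => rfl, fun T => ?_, fun T t ht w => ?_⟩, ?_⟩
      · show (Function.support (0 : W G → ℤ)).Finite
        rw [Function.support_zero]
        exact Set.finite_empty
      · simp
      · funext T w
        rw [hn T w (Nat.zero_le _)]
        simp [bdf]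
    | succ n ih =>
      intro c hc hcyc hsum hn
      -- directions at the top level
      have hin : ∀ T w, l w = n → c T w ≠ 0 → ∀ t ∈ T, l (w * (cox G).simple t) + 1 = l w := by
        intro T w hw hne t ht
        have h1 : c T (w * (cox G).simple t) ≠ 0 := by
          rw [hc.anti T t ht]
          exact neg_ne_zero.2 hne
        have h2 : l (w * (cox G).simple t) < n + 1 := by
          by_contra hcon
          exact h1 (hn _ _ (not_lt.1 hcon))
        rcases hup w t with h3 | h3 <;> omega
      by_cases hn0 : n = 0
      · -- the last step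
        have hz : c = 0 := by
          funext T w
          by_contra hne
          have hw : l w = 0 := by
            by_contra hw
            exact hne (hn T w (by omega))
          have hT : T = ∅ := by
            rw [Finset.eq_empty_iff_forall_notMem]
            intro t ht
            have := hin T w (by omega) hne t ht
            omega
          have hi : i = 0 := by
            by_contra hi
            apply hne
            have h5 : c T = 0 := by
              apply hc.supp T
              rintro ⟨-, -, h5⟩
              rw [hT, Finset.card_empty] at h5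
              exact hi h5.symm
            rw [h5]
            rfl
          have hw1 := l0 w hw
          have h6 := hsum hi
          rw [finsum_eq_single _ w] at h6
          · rw [hT] at hne
            exact hne h6
          · intro w' hw'
            by_contra hne'
            have hw'' : l w' = 0 := by
              by_contra hw''
              exact hne' (hn ∅ w' (by omega))
            exact hw' ((l0 w' hw'').trans hw1.symm)
        refine ⟨0, ⟨fun _ _ => rfl, fun T => ?_, fun T t ht w => ?_⟩, ?_⟩
        · show (Function.support (0 : W G → ℤ)).Finite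
          rw [Function.support_zero]
          exact Set.finite_empty
        · simp
        · rw [hz]
          funext T w
          simp [bdf]
      by_cases hex : ∃ w : W G, l w = n
      swap
      · refine ih c hc hcyc hsum fun T w hw => ?_
        by_contra hne
        apply hex
        refine ⟨w, ?_⟩
        by_contra hw'
        exact hne (hn T w (by omega))
      have hV : Nonempty V := by
        obtain ⟨w, hw⟩ := hex
        obtain ⟨t, -⟩ := hdown w (fun h => by rw [h, l1] at hw; omega)
        exact ⟨t⟩
      -- the chosen direction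
      obtain ⟨t0, ht0⟩ : ∃ t0 : W G → V, ∀ w, l w = n → l (w * (cox G).simple (t0 w)) + 1 = l w := by
        have : ∀ w : W G, ∃ t : V, l w = n → l (w * (cox G).simple t) + 1 = l w := by
          intro w
          by_cases hw : l w = n
          · obtain ⟨t, ht⟩ := hdown w (fun h => by rw [h, l1] at hw; omega)
            exact ⟨t, fun _ => ht⟩
          · exact ⟨hV.some, fun h => absurd h hw⟩
        choose t0 ht0 using this
        exact ⟨t0, ht0⟩
      let F : Finset V → W G → ℤ := fun T w =>
        if l w = n ∧ t0 w ∈ T then sg (t0 w) (T.erase (t0 w)) * c (T.erase (t0 w)) w else 0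
      have hF : ∀ T w, F T w ≠ 0 → l w = n ∧ t0 w ∈ T ∧ c (T.erase (t0 w)) w ≠ 0 := by
        intro T w hne
        have h1 : l w = n ∧ t0 w ∈ T := by
          by_contra hcon
          exact hne (if_neg hcon)
        refine ⟨h1.1, h1.2, fun h2 => hne ?_⟩
        show (if _ then _ else _) = (0 : ℤ)
        rw [if_pos h1, h2, mul_zero]
      have hFin : ∀ T w, F T w ≠ 0 → ∀ t ∈ T, l (w * (cox G).simple t) + 1 = l w := by
        intro T w hne t ht
        obtain ⟨h1, h2, h3⟩ := hF T w hne
        by_cases htt : t = t0 w
        · rw [htt]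
          exact ht0 w h1
        · exact hin _ w h1 h3 t (Finset.mem_erase.2 ⟨htt, ht⟩)
      have hFcl : ∀ T : Finset V, (∃ w, F T w ≠ 0) → G.IsClique (T : Set V) ∧ T.card = i + 1 := by
        rintro T ⟨w, hne⟩
        obtain ⟨h1, h2, h3⟩ := hF T w hne
        refine ⟨fun a ha b hb hab => ?_, ?_⟩
        · exact (hadj w a b hab (hFin T w hne a ha) (hFin T w hne b hb)).1
        · have h4 : (T.erase (t0 w)).card = i := by
            by_contra hcon
            apply h3
            rw [hc.supp]
            · rfl
            · exact fun h => hcon h.2.2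
          rw [Finset.card_erase_of_mem h2] at h4
          have := Finset.card_pos.2 ⟨_, h2⟩
          omega
      let e : Finset V → W G → ℤ := fun T => An G (T.sort (· ≤ ·)) (F T)
      have he0 : ∀ T : Finset V, ¬ (G.IsClique (T : Set V) ∧ T.card = i + 1) → e T = 0 := by
        intro T hT
        funext w
        refine An_zero _ _ (fun x => ?_) w
        by_contra hne
        exact hT (hFcl T ⟨x, hne⟩)
      have hech : Ch G (i + 1) e := by
        refine ⟨fun T hT => he0 T fun h => hT ⟨h.1, Set.subset_univ _, h.2⟩, fun T => ?_,
          fun T t ht w => ?_⟩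
        · refine An_fin _ ?_ _
          refine (Set.finite_iUnion fun T' : Finset V => hc.mem T').subset fun w hw => ?_
          exact Set.mem_iUnion.2 ⟨T.erase (t0 w), (hF T w hw).2.2⟩
        · by_cases hT : G.IsClique (T : Set V) ∧ T.card = i + 1
          · refine An_anti (F T) _ (fun a ha b hb hab => ?_) t ((Finset.mem_sort _).2 ht) w
            exact hT.1 ((Finset.mem_sort _).1 ha) ((Finset.mem_sort _).1 hb) hab
          · rw [he0 T hT]
            simp
      have hlvl : ∀ T, (∀ y, e T y ≠ 0 → l y ≤ n) ∧ ∀ y, n ≤ l y → e T y = F T y := fun T =>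
        An_lvl l hadj (F T) n (fun w hw => (hF T w hw).1) (T.sort (· ≤ ·))
          (Finset.sort_nodup _ _) fun t ht w hw => hFin T w hw t ((Finset.mem_sort _).1 ht)
      -- the boundary at the top level
      have htop : ∀ T w, l w = n → bdf G e T w = c T w := by
        intro T w hw
        have h1 : bdf G e T w = ∑ v ∈ Tᶜ, sg v T • F (insert v T) w :=
          Finset.sum_congr rfl fun v _ => by rw [(hlvl _).2 w hw.ge]
        rw [h1]
        by_cases htT : t0 w ∈ T
        · have hT' : T = insert (t0 w) (T.erase (t0 w)) := (Finset.insert_erase htT).symm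
          set T' := T.erase (t0 w) with hT'def
          have ht' : t0 w ∉ T' := Finset.notMem_erase _ _
          have h2 : ∀ v ∈ Tᶜ, sg v T • F (insert v T) w =
              - (sg (t0 w) T') * (sg v T' • c (insert v T') w) := by
            intro v hv
            have hvT : v ∉ T := Finset.mem_compl.1 hv
            have hvt : v ≠ t0 w := fun h => hvT (h ▸ htT)
            have hvT' : v ∉ T' := fun h => hvT (Finset.mem_of_mem_erase h)
            have h3 : (insert v T).erase (t0 w) = insert v T' := by
              rw [Finset.erase_insert_of_ne hvt]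
            have h4 : F (insert v T) w = sg (t0 w) (insert v T') * c (insert v T') w := by
              show (if _ then _ else _) = _
              rw [if_pos ⟨hw, Finset.mem_insert_of_mem htT⟩, h3]
            rw [h4]
            have h5 := sg_swap (t0 w) v T' (Ne.symm hvt) ht' hvT'
            rw [← hT'] at h5
            have h6 := sg_mul_self (t0 w) (insert v T')
            have h7 := sg_mul_self (t0 w) T'
            simp only [smul_eq_mul]
            have h8 : sg v T * sg (t0 w) (insert v T') = - (sg (t0 w) T' * sg v T') := by
              linear_combination (-(sg v T * sg (t0 w) (insert v T'))) * h7 +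
                (sg (t0 w) T' * sg (t0 w) (insert v T')) * h5 - (sg (t0 w) T' * sg v T') * h6
            calc sg v T * (sg (t0 w) (insert v T') * c (insert v T') w)
                = (sg v T * sg (t0 w) (insert v T')) * c (insert v T') w := by ring
              _ = _ := by rw [h8]; ring
          rw [Finset.sum_congr rfl h2, ← Finset.mul_sum]
          have h9 : ∑ v ∈ T'ᶜ, sg v T' • c (insert v T') w = 0 := by
            have := congrFun (congrFun hcyc T') w
            exact this
          have h10 : T'ᶜ = insert (t0 w) Tᶜ := by
            ext v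
            simp only [Finset.mem_compl, Finset.mem_insert, hT'def, Finset.mem_erase]
            tauto
          rw [h10, Finset.sum_insert (by simpa using htT), ← hT'] at h9
          have h7 := sg_mul_self (t0 w) T'
          simp only [smul_eq_mul] at h9 ⊢
          linear_combination (- sg (t0 w) T') * h9 + (c T w) * h7
        · rw [Finset.sum_eq_single (t0 w)]
          · have h4 : F (insert (t0 w) T) w = sg (t0 w) T * c T w := by
              show (if _ then _ else _) = _
              rw [if_pos ⟨hw, Finset.mem_insert_self _ _⟩, Finset.erase_insert htT]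
            rw [h4, smul_eq_mul, ← mul_assoc, sg_mul_self, one_mul]
          · intro v hv hvt
            have h4 : F (insert v T) w = 0 := by
              apply if_neg
              rintro ⟨-, h5⟩
              rcases Finset.mem_insert.1 h5 with h6 | h6
              · exact hvt h6.symm
              · exact htT h6
            rw [h4, smul_zero]
          · intro h5
            exact absurd (Finset.mem_compl.2 htT) h5
      have hlow : ∀ T w, n ≤ l w → (c + -(bdf G e)) T w = 0 := by
        intro T w hw
        show c T w + -(bdf G e T w) = 0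
        rcases Nat.eq_or_lt_of_le hw with h1 | h1
        · rw [htop T w h1.symm, add_neg_cancel]
        · rw [hn T w h1]
          have h2 : bdf G e T w = 0 := by
            refine Finset.sum_eq_zero fun v _ => ?_
            have h3 : e (insert v T) w = 0 := by
              by_contra h3
              have := (hlvl _).1 w h3
              omega
            rw [h3, smul_zero]
          rw [h2]
          rfl
      obtain ⟨e', he', hbe'⟩ := ih (c + -(bdf G e)) (Ch_add hc (Ch_neg (Ch_bdf hech)))
        (by rw [bdf_add, bdf_neg, bdf_bdf, hcyc, neg_zero, add_zero])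
        (fun hi => by
          have hech1 : Ch G 1 e := by
            rw [hi] at hech
            exact hech
          have h1 := fs_bdf hech1
          have h2 := hsum hi
          have h3 : ∑ᶠ w, (c + -(bdf G e)) ∅ w = ∑ᶠ w, c ∅ w + ∑ᶠ w, -(bdf G e ∅ w) :=
            finsum_add_distrib (hc.mem ∅) ((Ch_neg (Ch_bdf hech)).mem ∅)
          rw [h3, finsum_neg_distrib, h1, h2]
          rfl)
        hlow
      refine ⟨e + e', Ch_add hech he', ?_⟩
      rw [bdf_add, hbe']
      abel
  obtain ⟨N, hN⟩ : ∃ N : ℕ, ∀ T w, c T w ≠ 0 → l w < N := by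
    have hfin : (⋃ T : Finset V, Function.support (c T)).Finite :=
      Set.finite_iUnion fun T => hc.mem T
    refine ⟨hfin.toFinset.sup l + 1, fun T w hne => ?_⟩
    have : w ∈ hfin.toFinset := hfin.mem_toFinset.2 (Set.mem_iUnion.2 ⟨T, hne⟩)
    have := Finset.le_sup (f := l) this
    omega
  exact main N c hc hcyc hsum fun T w hw => by
    by_contra hne
    have := hN T w hne
    omega

end Pool.Agent.N496.CV
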