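import Pool.Agent.H7.L.Helper970_V7_Defs

attribute [local instance] VN831.bcFunctor_additive VN831.viaAdd VN831.viaMod V7N.bcF_additive
  V7N.rmAdd V7N.rmMod

set_option autoImplicit false



namespace V7N
open CategoryTheory
open scoped TensorProduct


section projaux

variable {K Γ : Type} [Group K] [Group Γ]

/-- `ℤ[Γ]` as a module over `ℤ[K]` -/
abbrev VV (i : K →* Γ) : Type := VN831.Via (inc i)

theorem inc_single (i : K →* Γ) (k : K) (n : ℤ) :
    inc i (MonoidAlgebra.single k n) = MonoidAlgebra.single (i k) n :=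
  MonoidAlgebra.mapDomain_single

/-- the representatives -/
theorem exists_rep (i : K →* Γ) (hi : Function.Injective i) :
    ∃ (rep : Γ → Γ) (kk : Γ → K), (∀ g, i (kk g) * rep g = g) ∧
      (∀ k g, rep (i k * g) = rep g) ∧ ∀ k g, kk (i k * g) = k * kk g := by
  classical
  let q : Γ → Quotient (QuotientGroup.rightRel i.range) := Quotient.mk _
  have h1 : ∀ g, ∃ k, i k = g * ((q g).out)⁻¹ := by
    intro g
    have h2 : q ((q g).out) = q g := Quotient.out_eq _
    have h3 := Quotient.exact h2
    have h4 : g * ((q g).out)⁻¹ ∈ i.range := QuotientGroup.rightRel_apply.mp h3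
    exact h4
  choose kk hkk using h1
  have hq : ∀ k g, q (i k * g) = q g := by
    intro k g
    refine Quotient.sound (QuotientGroup.rightRel_apply.mpr ?_)
    refine ⟨k⁻¹, ?_⟩
    rw [map_inv]
    group
  refine ⟨fun g => (q g).out, kk, fun g => ?_, fun k g => ?_, fun k g => ?_⟩
  · rw [hkk]
    group
  · show (q (i k * g)).out = (q g).out
    rw [hq]
  · apply hi
    rw [hkk, map_mul, hkk, hq]
    group

theorem proj_via (i : K →* Γ) (hi : Function.Injective i) :
    Module.Projective (MonoidAlgebra ℤ K) (VV i) := by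
  obtain ⟨rep, kk, h1, h2, h3⟩ := exists_rep i hi
  let F : Γ → (VV i →₀ MonoidAlgebra ℤ K) := fun g =>
    Finsupp.single (show VV i from MonoidAlgebra.single (rep g) (1 : ℤ)) (MonoidAlgebra.single (kk g) (1 : ℤ))
  let s0 : MonoidAlgebra ℤ Γ →+ (VV i →₀ MonoidAlgebra ℤ K) :=
    (Finsupp.liftAddHom fun g => (smulAddHom ℤ (VV i →₀ MonoidAlgebra ℤ K)).flip (F g)).comp
      MonoidAlgebra.coeffAddEquiv.toAddMonoidHom
  have hs0 : ∀ g (n : ℤ), s0 (MonoidAlgebra.single g n) = n • F g := by
    intro g n
    show (Finsupp.liftAddHom fun g => (smulAddHom ℤ (VV i →₀ MonoidAlgebra ℤ K)).flip (F g))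
      (Finsupp.single g n) = _
    rw [Finsupp.liftAddHom_apply_single]
    rfl
  have hF : ∀ k g, F (i k * g) = (MonoidAlgebra.single k (1 : ℤ)) • F g := by
    intro k g
    show Finsupp.single _ _ = _ • Finsupp.single _ _
    rw [Finsupp.smul_single, smul_eq_mul, MonoidAlgebra.single_mul_single, mul_one, h2, h3]
  have hlin : ∀ (c : MonoidAlgebra ℤ K) (f : MonoidAlgebra ℤ Γ), s0 (inc i c * f) = c • s0 f := by
    intro c f
    induction c using MonoidAlgebra.induction_linear with
    | zero => rw [map_zero, zero_mul, map_zero, zero_smul]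
    | add x y hx hy => rw [map_add, add_mul, map_add, add_smul, hx, hy]
    | single k n =>
      induction f using MonoidAlgebra.induction_linear with
      | zero => rw [mul_zero, map_zero, smul_zero]
      | add x y hx hy => rw [mul_add, map_add, map_add, smul_add, hx, hy]
      | single g m =>
        rw [inc_single, MonoidAlgebra.single_mul_single, hs0, hs0, hF]
        have e : (MonoidAlgebra.single k n : MonoidAlgebra ℤ K) =
            n • MonoidAlgebra.single k (1 : ℤ) := by
          rw [MonoidAlgebra.smul_single, smul_eq_mul, mul_one]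
        rw [e, smul_assoc, smul_comm _ m, smul_smul]
  let s : VV i →ₗ[MonoidAlgebra ℤ K] (VV i →₀ MonoidAlgebra ℤ K) :=
    { toFun := fun f => s0 f
      map_add' := fun f g => s0.map_add f g
      map_smul' := fun c f => hlin c f }
  refine ⟨⟨s, ?_⟩⟩
  let lc : (VV i →₀ MonoidAlgebra ℤ K) →ₗ[MonoidAlgebra ℤ K] VV i :=
    Finsupp.linearCombination (MonoidAlgebra ℤ K) id
  have h5 : (lc.toAddMonoidHom.comp s0 : MonoidAlgebra ℤ Γ →+ VV i) =
      (AddMonoidHom.id (MonoidAlgebra ℤ Γ) : MonoidAlgebra ℤ Γ →+ MonoidAlgebra ℤ Γ) := by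
    apply MonoidAlgebra.addMonoidHom_ext
    intro g n
    show lc (s0 (MonoidAlgebra.single g n)) = MonoidAlgebra.single g n
    rw [hs0, map_zsmul]
    have h6 : lc (F g) = (MonoidAlgebra.single g (1 : ℤ) : MonoidAlgebra ℤ Γ) := by
      show Finsupp.linearCombination (MonoidAlgebra ℤ K) id (Finsupp.single _ _) = _
      rw [Finsupp.linearCombination_single]
      show inc i (MonoidAlgebra.single (kk g) 1) * MonoidAlgebra.single (rep g) (1 : ℤ) = _
      rw [inc_single, MonoidAlgebra.single_mul_single, mul_one, h1]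
    rw [h6]
    show n • (MonoidAlgebra.single g (1 : ℤ) : MonoidAlgebra ℤ Γ) = _
    rw [MonoidAlgebra.smul_single, smul_eq_mul, mul_one]
  intro f
  exact DFunLike.congr_fun h5 f

end projaux

theorem proj_RM {K Γ : Type} [Group K] [Group Γ] (i : K →* Γ) (hi : Function.Injective i)
    (r : ℕ) : Module.Projective (MonoidAlgebra ℤ K) (RM i r) := by
  have h := proj_via i hi
  have h2 : Module.Projective (MonoidAlgebra ℤ K) (Fin r → VV i) :=
    Module.Projective.of_equiv' (DirectSum.linearEquivFunOnFintype (MonoidAlgebra ℤ K) (Fin r)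
      (fun _ => VV i))
  let e : (Fin r → VV i) ≃ₗ[MonoidAlgebra ℤ K] RM i r :=
    { toFun := fun f => f
      invFun := fun f => f
      left_inv := fun _ => rfl
      right_inv := fun _ => rfl
      map_add' := fun _ _ => rfl
      map_smul' := fun _ _ => rfl }
  exact Module.Projective.of_equiv' e

end V7N
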