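import Pool.Agent.H7.L.TH652_ClassDef

/-!
# The class `AQ n` of finite graphs, and homology spheres
-/

set_option autoImplicit false

namespace Pool.Agent.TH652.Above

open Pool.Agent.W907.SG Pool.Agent.W907.SM
open Pool.Agent.TH652.Join (join)

/-- a wider class of finite graphs -/
inductive AQ : ℕ → ∀ {V : Type}, SimpleGraph V → Prop
  /-- the members of the class `AM n` -/
  | am {n : ℕ} {V : Type} (G : SimpleGraph V) : AM n G → AQ n G
  /-- a point -/
  | point : AQ 0 (⊥ : SimpleGraph Unit)
  /-- full subcomplexes -/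
  | full {n : ℕ} {V : Type} (G : SimpleGraph V) (A : Set V) : AQ n G → AQ n (G.induce A)
  /-- joins -/
  | join {m n : ℕ} {V U : Type} (G : SimpleGraph V) (H : SimpleGraph U) : AQ m G → AQ n H → AQ (m + n) (join G H)
  /-- from `n` to `n + 1` -/
  | succ {n : ℕ} {V : Type} (G : SimpleGraph V) : AQ n G → AQ (n + 1) G
  /-- from `2 m + 1` to `2 m` -/
  | pred {m : ℕ} {V : Type} (G : SimpleGraph V) : AQ (2 * m + 1) G → AQ (2 * m) G
  /-- deleting an edge whose link is in the class `n` -/
  | del {n : ℕ} {V : Type} [Finite V] (G : SimpleGraph V) (s t : V) : G.Adj s t → AQ (n + 2) G →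
      AQ n (G.induce (G.neighborSet s ∩ G.neighborSet t)) → AQ (n + 2) (G.deleteEdges {s(s, t)})
  /-- even length: the vertices whose links are not in the class `2 m + 1` span a subcomplex of dimension at
  most `m` -/
  | loc {m : ℕ} {V : Type} [Finite V] (G : SimpleGraph V) (B : Set V) :
      (∀ T : Finset V, G.IsClique (T : Set V) → (T : Set V) ⊆ B → T.card ≤ m + 1) →
      (∀ v, v ∉ B → AQ (2 * m + 1) (G.induce (G.neighborSet v))) → AQ (2 * m + 2) G
  /-- adding a vertex whose link is in the class `n` -/
  | vert {n : ℕ} {V : Type} [Finite V] (G : SimpleGraph V) (v : V) : AQ (n + 2) (G.induce {v}ᶜ) →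
      AQ n (G.induce (G.neighborSet v)) → AQ (n + 2) G
  /-- gluing along a full subcomplex of the class `n` -/
  | glue {n : ℕ} {V : Type} [Finite V] (G : SimpleGraph V) (A B : Set V) : A ∪ B = Set.univ →
      (∀ a ∈ A, a ∉ B → ∀ b ∈ B, b ∉ A → ¬ G.Adj a b) → AQ (n + 2) (G.induce A) → AQ (n + 2) (G.induce B) →
      AQ n (G.induce (A ∩ B)) → AQ (n + 2) G
  /-- isomorphic graphs -/
  | iso {n : ℕ} {V U : Type} (G : SimpleGraph V) (H : SimpleGraph U) : Nonempty (G ≃g H) → AQ n G → AQ n H

/-- The flag complex of `G` is a real homology manifold with the real homology of the `(n-1)`-sphere: for every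
simplex `S` (the empty simplex included) the flag complex of the graph induced on the set `lk G S` of the common
neighbours of `S` (the link of `S`) has the reduced real homology of the sphere of dimension `n - 1 - |S|`.
`beta G ρ A ∅ i`, for `ρ v = - id` on `ℝ`, is the `(i-1)`-st reduced real Betti number of the flag complex of the
graph induced on `A`. -/
def HSph (n : ℕ) {V : Type} [Fintype V] [LinearOrder V] (G : SimpleGraph V) : Prop :=
  ∀ S : Finset V, G.IsClique (S : Set V) → ∀ i : ℕ,
    beta G (fun _ => (- LinearMap.id : ℝ →ₗ[ℝ] ℝ)) (lk G S) ∅ i = if i + S.card = n then 1 else 0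

end Pool.Agent.TH652.Above
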