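import Pool.Agent.H7.L.TH652_Dual6
import Pool.Agent.H7.L.TH652_Class
import Pool.Agent.H7.L.TH652_QDef

set_option autoImplicit false
set_option linter.unusedSectionVars false

/-!
# The class `AQ`, and the Singer conjecture for homology spheres in it
-/

namespace Pool.Agent.TH652.Above

open Pool.Agent.W907.SG Pool.Agent.W907.SM
open Pool.Agent.TH652.Join (join ljoin)
open Pool.Agent.TH652.Glue (lglue)
open Pool.Agent.W907.SM.Clo (Lk mem_Lk)

/-- vanishing above the middle for all full subcomplexes -/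
def Q (n : ℕ) {V : Type} (G : SimpleGraph V) : Prop :=
  Finite V ∧ ∀ A : Set V, ∀ i : ℕ, n < 2 * i → LV (G.induce A) i

theorem Q_of_P {n : ℕ} {V : Type} (G : SimpleGraph V) (h : P n G) : Q n G :=
  ⟨h.1, fun A i hi => h.2 ∅ (by simp) A (by intro a _ u hu; simp at hu) i (by rw [Finset.card_empty]; omega)⟩

theorem Q_emb {n : ℕ} {U V : Type} (G : SimpleGraph V) (H : SimpleGraph U) (φ : H ↪g G) (h : Q n G) : Q n H :=
  ⟨have := h.1; Finite.of_injective φ φ.injective, fun A i hi =>
    (lv_img (G := G) φ A (fun _ _ _ _ h => φ.injective h) (fun _ _ _ _ => φ.map_adj_iff) i).2 (h.2 _ i hi)⟩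

theorem Q_point : Q 0 (⊥ : SimpleGraph Unit) := by
  refine ⟨inferInstance, fun A i hi => ?_⟩
  by_cases h : () ∈ A
  · have : A = Set.univ := by
      ext x
      exact iff_of_true h trivial
    rw [this, lv_univ]
    exact lv_point i (by omega)
  · have : IsEmpty ↥A := ⟨fun x => h x.2⟩
    exact lempty _ _ i (by omega)

theorem Q_join {m n : ℕ} {V U : Type} (G : SimpleGraph V) (H : SimpleGraph U) (h1 : Q m G) (h2 : Q n H) :
    Q (m + n) (join G H) := by
  classical
  obtain ⟨hf1, h1⟩ := h1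
  obtain ⟨hf2, h2⟩ := h2
  refine ⟨inferInstance, fun D i hi => ?_⟩
  set D1 : Set V := {a | Sum.inl a ∈ D} with hD1
  set D2 : Set U := {a | Sum.inr a ∈ D} with hD2
  have h3 : LV (join (G.induce D1) (H.induce D2)) i := by
    refine ljoin _ _ i fun p q hpq => ?_
    by_cases hp : m < 2 * p
    · exact Or.inl (h1 D1 p hp)
    · exact Or.inr (h2 D2 q (by omega))
  rw [← lv_univ] at h3
  have h4 := (lv_img (G := join G H) (fun x : ↥D1 ⊕ ↥D2 => match x with
    | Sum.inl a => Sum.inl a.1
    | Sum.inr b => Sum.inr b.1) Set.univ ?_ ?_ i).1 h3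
  · refine lv_set ?_ (h4)
    ext x
    simp only [Set.mem_image, Set.mem_univ, true_and]
    constructor
    · intro hx
      rcases x with a | a
      · exact ⟨Sum.inl ⟨a, hx⟩, rfl⟩
      · exact ⟨Sum.inr ⟨a, hx⟩, rfl⟩
    · rintro ⟨y | y, rfl⟩
      · exact y.2
      · exact y.2
  · rintro (a | a) _ (b | b) _ hab
    · exact congrArg Sum.inl (Subtype.ext (Sum.inl_injective hab))
    · cases hab
    · cases hab
    · exact congrArg Sum.inr (Subtype.ext (Sum.inr_injective hab))
  · rintro (a | a) _ (b | b) _ <;> exact Iff.rfl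

theorem Q_del {n : ℕ} {V : Type} [Finite V] (G : SimpleGraph V) (s t : V) (hst : G.Adj s t) (h1 : Q (n + 2) G)
    (h2 : Q n (G.induce (G.neighborSet s ∩ G.neighborSet t))) : Q (n + 2) (G.deleteEdges {s(s, t)}) := by
  classical
  refine ⟨inferInstance, fun A i hi => ?_⟩
  have hmain := h1.2 A i hi
  by_cases hm : s ∈ A ∧ t ∈ A
  · obtain ⟨hs, ht⟩ := hm
    have hdel := lstep2 ↥A (G.induce A) ⟨s, hs⟩ ⟨t, ht⟩ i hst hmain (fun j hj => by
      rw [lv_sub]
      have h3 := h2.2 {x | x.1 ∈ A} j (by omega)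
      rw [lv_sub] at h3
      refine lv_set ?_ h3
      ext x
      simp only [Set.mem_image, Set.mem_inter_iff, SimpleGraph.mem_neighborSet, Subtype.exists,
        exists_and_right, exists_eq_right, Set.mem_ofPred_eq, exists_and_left, exists_prop, exists_eq_right_right]
      constructor
      · rintro ⟨hx, h4, h5⟩
        exact ⟨⟨h4, h5⟩, hx⟩
      · rintro ⟨⟨h4, h5⟩, hx⟩
        exact ⟨hx, h4, h5⟩)
    rw [← lv_univ] at hdel
    have h4 := (lv_img (G := G.deleteEdges {s(s, t)}) (fun x : ↥A => x.1) Set.univ ?_ ?_ i).1 hdel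
    · refine lv_set ?_ (h4)
      ext x
      simp only [Set.mem_image, Set.mem_univ, true_and, Subtype.exists, exists_prop, exists_eq_right]
    · intro a _ b _ hab
      exact Subtype.ext hab
    · intro a _ b _
      rw [SimpleGraph.deleteEdges_adj, SimpleGraph.deleteEdges_adj]
      simp only [SimpleGraph.comap_adj, Function.Embedding.subtype_apply, Set.mem_singleton_iff,
        Sym2.eq_iff, Subtype.ext_iff]
  · have e : (G.deleteEdges {s(s, t)}).induce A = G.induce A := by
      ext a b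
      simp only [SimpleGraph.comap_adj, Function.Embedding.subtype_apply, SimpleGraph.deleteEdges_adj,
        Set.mem_singleton_iff, Sym2.eq_iff]
      refine ⟨fun h => h.1, fun h => ⟨h, ?_⟩⟩
      rintro (⟨h3, h4⟩ | ⟨h3, h4⟩)
      · exact hm ⟨h3 ▸ a.2, h4 ▸ b.2⟩
      · exact hm ⟨h4 ▸ b.2, h3 ▸ a.2⟩
    rw [e]
    exact hmain

theorem Q_vert {n : ℕ} {V : Type} [Finite V] (G : SimpleGraph V) (v : V) (h1 : Q (n + 2) (G.induce {v}ᶜ))
    (h2 : Q n (G.induce (G.neighborSet v))) : Q (n + 2) G := by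
  classical
  refine ⟨inferInstance, fun A i hi => ?_⟩
  have sub : ∀ (k : ℕ) (B : Set V), Q k (G.induce B) → ∀ D : Set V, D ⊆ B → ∀ i, k < 2 * i →
      LV (G.induce D) i := by
    intro k B h D hD i hi
    have h4 := h.2 {x | x.1 ∈ D} i hi
    rw [lv_sub] at h4
    refine lv_set ?_ h4
    ext x
    simp only [Set.mem_image, Set.mem_ofPred_eq, Subtype.exists, exists_and_left,
      exists_prop, exists_eq_right_right]
    exact ⟨fun hx => ⟨hx, hD hx⟩, fun hx => hx.1⟩
  by_cases hv : v ∈ A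
  · refine lv_add G A v hv i (sub _ _ h1 _ (fun x hx => hx.2) i hi) fun j hj => ?_
    exact sub _ _ h2 _ (fun x hx => hx.2) j (by omega)
  · exact sub _ _ h1 A (fun x hx hxv => hv (by rw [Set.mem_singleton_iff] at hxv; exact hxv ▸ hx)) i hi

theorem Q_loc {m : ℕ} {V : Type} [Finite V] (G : SimpleGraph V) (B : Set V)
    (hB : ∀ T : Finset V, G.IsClique (T : Set V) → (T : Set V) ⊆ B → T.card ≤ m + 1)
    (h : ∀ v, v ∉ B → Q (2 * m + 1) (G.induce (G.neighborSet v))) : Q (2 * m + 2) G := by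
  classical
  refine ⟨inferInstance, fun A i hi => ?_⟩
  have key : ∀ k : ℕ, ∀ A : Set V, (A \ B).ncard = k → LV (G.induce A) i := by
    intro k
    induction k with
    | zero =>
      intro A hA
      rw [Set.ncard_eq_zero, Set.sdiff_eq_empty] at hA
      intro _ _ c hc
      funext w T
      refine hc.supp w T ?_
      rintro ⟨h1, h2⟩
      have h3 := hB (T.map ⟨Subtype.val, Subtype.val_injective⟩) (by
        intro a ha b hb hab
        rw [Finset.mem_coe, Finset.mem_map] at ha hb
        obtain ⟨x, hx, rfl⟩ := ha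
        obtain ⟨y, hy, rfl⟩ := hb
        exact h1 hx hy fun e => hab (by rw [e])) (by
        intro a ha
        rw [Finset.mem_coe, Finset.mem_map] at ha
        obtain ⟨x, _, rfl⟩ := ha
        exact hA x.2)
      rw [Finset.card_map] at h3
      omega
    | succ k ih =>
      intro A hA
      obtain ⟨v, hv⟩ : (A \ B).Nonempty := by
        rw [← Set.ncard_pos]; omega
      refine lv_add G A v hv.1 i (ih _ ?_) (fun j hj => ?_)
      · have h1 : (A \ {v}) \ B = (A \ B) \ {v} := by
          ext x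
          simp only [Set.mem_sdiff, Set.mem_singleton_iff]
          tauto
        have h2 := Set.ncard_sdiff_singleton_add_one hv (Set.toFinite _)
        rw [h1]
        omega
      · have h1 := (h v hv.2).2 {x | x.1 ∈ A} j (by omega)
        rw [lv_sub] at h1
        refine lv_set ?_ h1
        ext x
        simp only [Set.mem_inter_iff, Set.mem_image, Set.mem_ofPred_eq, Subtype.exists, exists_and_left,
          exists_prop, exists_eq_right_right]
  exact key _ A rfl

theorem Q_glue {n : ℕ} {V : Type} [Finite V] (G : SimpleGraph V) (A B : Set V) (hAB : A ∪ B = Set.univ)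
    (hno : ∀ a ∈ A, a ∉ B → ∀ b ∈ B, b ∉ A → ¬ G.Adj a b) (h1 : Q (n + 2) (G.induce A))
    (h2 : Q (n + 2) (G.induce B)) (h3 : Q n (G.induce (A ∩ B))) : Q (n + 2) G := by
  classical
  refine ⟨inferInstance, fun D i hi => ?_⟩
  have sub : ∀ (k : ℕ) (A : Set V), Q k (G.induce A) → ∀ i, k < 2 * i → LV (G.induce (D ∩ A)) i := by
    intro k A h i hi
    have h4 := h.2 {x | x.1 ∈ D} i hi
    rw [lv_sub] at h4
    refine lv_set ?_ h4
    ext x
    simp only [Set.mem_inter_iff, Set.mem_image, Set.mem_ofPred_eq, Subtype.exists, exists_and_left,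
      exists_prop, exists_eq_right_right]
  refine lglue (G.induce D) {x | x.1 ∈ A} {x | x.1 ∈ B} ?_ ?_ i ?_ ?_ ?_
  · ext x
    simp only [Set.mem_union, Set.mem_ofPred_eq, Set.mem_univ, iff_true]
    have : x.1 ∈ A ∪ B := by rw [hAB]; trivial
    exact this
  · intro a ha haB b hb hbA
    exact hno a.1 ha haB b.1 hb hbA
  · rw [lv_sub]
    refine lv_set ?_ (sub _ A h1 i hi)
    ext x
    simp only [Set.mem_inter_iff, Set.mem_image, Set.mem_ofPred_eq, Subtype.exists, exists_and_left,
      exists_prop, exists_eq_right_right]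
    exact and_comm
  · rw [lv_sub]
    refine lv_set ?_ (sub _ B h2 i hi)
    ext x
    simp only [Set.mem_inter_iff, Set.mem_image, Set.mem_ofPred_eq, Subtype.exists, exists_and_left,
      exists_prop, exists_eq_right_right]
    exact and_comm
  · intro j hj
    rw [lv_sub]
    refine lv_set ?_ (sub _ (A ∩ B) h3 j (by omega))
    ext x
    simp only [Set.mem_inter_iff, Set.mem_image, Set.mem_ofPred_eq, Subtype.exists, exists_and_left,
      exists_prop, exists_eq_right_right]
    exact and_comm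

theorem Q_of_AQ {n : ℕ} {V : Type} {G : SimpleGraph V} (h : AQ n G) : Q n G := by
  induction h with
  | am G h => exact Q_of_P G (P_of_AM h)
  | point => exact Q_point
  | full G A _ ih => exact Q_emb G _ (SimpleGraph.Embedding.induce A) ih
  | join G H _ _ ih1 ih2 => exact Q_join G H ih1 ih2
  | succ G _ ih => exact ⟨ih.1, fun A i hi => ih.2 A i (by omega)⟩
  | pred G _ ih => exact ⟨ih.1, fun A i hi => ih.2 A i (by omega)⟩
  | del G s t hst _ _ ih1 ih2 => exact Q_del G s t hst ih1 ih2
  | loc G B hB _ ih => exact Q_loc G B hB ih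
  | vert G v _ _ ih1 ih2 => exact Q_vert G v ih1 ih2
  | glue G A B hAB hno _ _ _ ih1 ih2 ih3 => exact Q_glue G A B hAB hno ih1 ih2 ih3
  | iso G H e _ ih => exact Q_emb G H e.some.symm.toEmbedding ih

theorem above_AQ {n : ℕ} {V : Type} [Fintype V] [LinearOrder V] {G : SimpleGraph V} (h : AQ n G) (i : ℕ)
    (hi : n < 2 * i) : L2Van G i :=
  (lv_univ G i).1 ((Q_of_AQ h).2 Set.univ i hi) _ _

/-! ### homology spheres -/

/-- a flag homology sphere with vanishing above the middle satisfies the Singer conjecture -/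
theorem singer_of_above {n : ℕ} {V : Type} [Fintype V] [LinearOrder V] {G : SimpleGraph V} (hS : HSph n G)
    (h : ∀ i : ℕ, n < 2 * i → L2Van G i) (i : ℕ) (hi : 2 * i ≠ n) : L2Van G i := by
  rcases lt_or_gt_of_ne hi with h1 | h1
  · exact Dual.l2_duality (n := n) hS (i := i) (j := n - i) (by omega) (h (n - i) (by omega))
  · exact h i h1

theorem singer_AQ {n : ℕ} {V : Type} [Fintype V] [LinearOrder V] {G : SimpleGraph V} (hS : HSph n G)
    (h : AQ n G) (i : ℕ) (hi : 2 * i ≠ n) : L2Van G i :=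
  singer_of_above hS (fun i hi => above_AQ h i hi) i hi

/-- the sign of the Euler characteristic -/
theorem chi_sign {m : ℕ} {V : Type} [Fintype V] [LinearOrder V] (G : SimpleGraph V)
    (h : ∀ i : ℕ, i ≠ m → L2Van G i) : 0 ≤ (-1 : ℚ) ^ m * chiW G := by
  classical
  by_contra hneg
  push Not at hneg
  set δ : ℚ := - ((-1 : ℚ) ^ m * chiW G) with hδ
  have hδ0 : 0 < δ := by rw [hδ]; linarith
  set K := Fintype.card V + 1 with hK
  obtain ⟨N, hN⟩ := exists_nat_gt ((K : ℚ) / δ)
  obtain ⟨Y, fY, neY, P, ev, e1, e2, e3, e4, e5⟩ := Pool.Agent.W723.SM.fam G N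
    ((Finset.range K).erase m) (fun i hi => h i (Finset.ne_of_mem_erase hi)) ∅ (Finset.notMem_empty _)
  have hs := Pool.Agent.W723.SM.beta_sum (two_ne_zero : (2 : ℝ) ≠ 0) G P.a P.sgn P.inv P.comm P.sgn_self
    P.sgn_other
  have hc : (0 : ℚ) < Fintype.card Y := by exact_mod_cast Fintype.card_pos
  have h1 : (-1 : ℚ) ^ m * (Fintype.card Y * chiW G) =
      ∑ i ∈ Finset.range K, (-1 : ℚ) ^ (m + i) * (beta G (pull ℝ P.a) Set.univ ∅ i : ℚ) := by
    rw [← hs]
    push_cast
    rw [Finset.mul_sum]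
    refine Finset.sum_congr rfl fun i _ => ?_
    rw [pow_add]
    ring
  have h2 : - ∑ i ∈ (Finset.range K).erase m, (beta G (pull ℝ P.a) Set.univ ∅ i : ℚ) ≤
      ∑ i ∈ Finset.range K, (-1 : ℚ) ^ (m + i) * (beta G (pull ℝ P.a) Set.univ ∅ i : ℚ) := by
    have h3 : ∑ i ∈ (Finset.range K).erase m, (-1 : ℚ) ^ (m + i) * (beta G (pull ℝ P.a) Set.univ ∅ i : ℚ) ≤
        ∑ i ∈ Finset.range K, (-1 : ℚ) ^ (m + i) * (beta G (pull ℝ P.a) Set.univ ∅ i : ℚ) := by
      refine Finset.sum_le_sum_of_subset_of_nonneg (Finset.erase_subset _ _) fun i hi hi2 => ?_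
      have him : i = m := by
        by_contra hne
        exact hi2 (Finset.mem_erase.2 ⟨hne, hi⟩)
      subst him
      rw [← two_mul, pow_mul]
      norm_num
    refine le_trans ?_ h3
    rw [← Finset.sum_neg_distrib]
    refine Finset.sum_le_sum fun i _ => ?_
    have h4 : (0 : ℚ) ≤ (beta G (pull ℝ P.a) Set.univ ∅ i : ℚ) := Nat.cast_nonneg _
    rcases neg_one_pow_eq_or ℚ (m + i) with h5 | h5
    · rw [h5]; linarith
    · rw [h5]; linarith
  have h3 : (N : ℚ) * ∑ i ∈ (Finset.range K).erase m, (beta G (pull ℝ P.a) Set.univ ∅ i : ℚ) ≤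
      K * Fintype.card Y := by
    rw [Finset.mul_sum]
    calc ∑ i ∈ (Finset.range K).erase m, (N : ℚ) * (beta G (pull ℝ P.a) Set.univ ∅ i : ℚ)
        ≤ ∑ _i ∈ (Finset.range K).erase m, (Fintype.card Y : ℚ) := by
          refine Finset.sum_le_sum fun i hi => ?_
          exact_mod_cast e5 i hi
      _ ≤ ∑ _i ∈ Finset.range K, (Fintype.card Y : ℚ) :=
          Finset.sum_le_sum_of_subset_of_nonneg (Finset.erase_subset _ _) fun _ _ _ => hc.le
      _ = K * Fintype.card Y := by
          rw [Finset.sum_const, Finset.card_range, nsmul_eq_mul]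
  have h4 : δ * Fintype.card Y ≤ ∑ i ∈ (Finset.range K).erase m, (beta G (pull ℝ P.a) Set.univ ∅ i : ℚ) := by
    have h5 : δ * Fintype.card Y = - ((-1 : ℚ) ^ m * (Fintype.card Y * chiW G)) := by
      rw [hδ]; ring
    rw [h5, h1]
    linarith
  have h5 : (N : ℚ) * (δ * Fintype.card Y) ≤ K * Fintype.card Y :=
    (mul_le_mul_of_nonneg_left h4 (Nat.cast_nonneg _)).trans h3
  have h6 : (N : ℚ) * δ ≤ K := by
    have h7 : ((N : ℚ) * δ) * Fintype.card Y ≤ K * Fintype.card Y := by
      rw [mul_assoc]; exact h5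
    exact le_of_mul_le_mul_right h7 hc
  rw [div_lt_iff₀ hδ0] at hN
  linarith

/-- the Charney-Davis inequality -/
theorem charney_davis_AQ {m : ℕ} {V : Type} [Fintype V] [LinearOrder V] {G : SimpleGraph V} (hS : HSph (2 * m) G)
    (h : AQ (2 * m) G) : 0 ≤ (-1 : ℚ) ^ m * chiW G :=
  chi_sign G fun i hi => singer_AQ hS h i (by omega)

end Pool.Agent.TH652.Above
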