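import Pool.Agent.H7.L.R781_VS_Main
import Pool.Agent.H7.L.R781_VS_VDel
import Pool.Agent.H7.L.TH652_Dual7

/-!
# Vertex splitting and vanishing above the middle
-/

set_option autoImplicit false
set_option linter.unusedSectionVars false

namespace Pool.Agent.R781.VS

open Pool.Agent.W907.SG Pool.Agent.W907.SM
open Pool.Agent.TH652.Above (Q lv_set lv_sub lv_univ lv_img)

theorem con_adj_iff' {V : Type} {G : SimpleGraph V} {s t u v : V} (hu : u ≠ s) (hu' : u ≠ t) (hv : v ≠ s)
    (hv' : v ≠ t) : (con G s t).Adj u v ↔ G.Adj u v := by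
  constructor
  · rintro ⟨-, -, -, h | ⟨h, -⟩ | ⟨h, -⟩⟩
    · exact h
    · exact absurd h hu
    · exact absurd h hv
  · exact fun h => ⟨h.ne, hu', hv', Or.inl h⟩

/-- deleting a vertex, relative form -/
theorem lv_del {V : Type} [Finite V] (G : SimpleGraph V) (A : Set V) (v : V) (hv : v ∉ A) (i : ℕ)
    (h1 : LV (G.induce (insert v A)) i) (h2 : LV (G.induce (A ∩ G.neighborSet v)) i) :
    LV (G.induce A) i := by
  classical
  have h3 : LV ((G.induce (insert v A)).induce {(⟨v, Set.mem_insert v A⟩ : ↥(insert v A))}ᶜ) i := by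
    have h4 : LV ((G.induce (insert v A)).induce
        ((G.induce (insert v A)).neighborSet (⟨v, Set.mem_insert v A⟩ : ↥(insert v A)))) i := by
      rw [lv_sub]
      refine lv_set ?_ h2
      ext x
      constructor
      · rintro ⟨⟨y, hy⟩, h, rfl⟩
        have h : G.Adj v y := h
        exact ⟨hy.resolve_left h.ne.symm, h⟩
      · rintro ⟨hx, h⟩
        exact ⟨⟨x, Or.inr hx⟩, h, rfl⟩
    intro _ _
    have : Fintype ↥(insert v A) := Fintype.ofFinite _
    have e1 : LinearOrder ↥(insert v A) := IsWellOrder.linearOrder WellOrderingRel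
    have h5 := l2vdel _ (G.induce (insert v A)) (⟨v, Set.mem_insert v A⟩ : ↥(insert v A)) i (h1 _ _) (h4 _ _)
    exact ord _ _ _ _ _ _ _ _ i ⟨SimpleGraph.Iso.refl⟩ h5
  rw [lv_sub] at h3
  refine lv_set ?_ h3
  ext x
  constructor
  · intro hx
    refine ⟨⟨x, Or.inr hx⟩, fun e => hv ?_, rfl⟩
    have e' : x = v := congrArg Subtype.val e
    rwa [e'] at hx
  · rintro ⟨⟨y, hy⟩, h, rfl⟩
    exact hy.resolve_left fun e => h (Subtype.ext e)

/-- vertex splitting, relative form -/
theorem lv_split {V : Type} [Finite V] (G : SimpleGraph V) (A : Set V) (s t : V) (hs : s ∈ A) (ht : t ∈ A)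
    (hst : G.Adj s t) (hsq : NoSq G s t) (i : ℕ) (h1 : LV ((con G s t).induce (A \ {t})) i)
    (h2 : ∀ j, i = j + 1 → LV (G.induce (A ∩ (G.neighborSet s ∩ G.neighborSet t))) j) :
    LV (G.induce A) i := by
  classical
  intro _ _
  have hcon : con (G.induce A) ⟨s, hs⟩ ⟨t, ht⟩ = (con G s t).induce A := by
    ext x y
    simp only [con, SimpleGraph.comap_adj, Function.Embedding.subtype_apply, Subtype.ext_iff, ne_eq]
  refine l2split ↥A (G.induce A) ⟨s, hs⟩ ⟨t, ht⟩ i hst ?_ ?_ ?_
  · intro x y h3 h4 h5 h6 h7 h8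
    exact hsq x.1 y.1 h3 h4 (fun e => h5 (Subtype.ext e)) h6 h7 (fun e => h8 (Subtype.ext e))
  · rw [hcon]
    have h3 : LV (((con G s t).induce A).induce {(⟨t, ht⟩ : ↥A)}ᶜ) i := by
      rw [lv_sub]
      refine lv_set ?_ h1
      ext x
      simp only [Set.mem_image, Set.mem_compl_iff, Set.mem_singleton_iff, Subtype.exists, exists_and_right,
        exists_eq_right, Subtype.mk.injEq, Set.mem_sdiff, exists_prop]
    exact h3 _ _
  · intro j hj
    have h3 : LV ((G.induce A).induce ((G.induce A).neighborSet ⟨s, hs⟩ ∩ (G.induce A).neighborSet ⟨t, ht⟩))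
        j := by
      rw [lv_sub]
      refine lv_set ?_ (h2 j hj)
      ext x
      constructor
      · rintro ⟨⟨y, hy⟩, ⟨h4, h5⟩, rfl⟩
        exact ⟨hy, h4, h5⟩
      · rintro ⟨hx, h4, h5⟩
        exact ⟨⟨x, hx⟩, ⟨h4, h5⟩, rfl⟩
    exact h3 _ _

theorem Q_restrict {k : ℕ} {V : Type} {G : SimpleGraph V} {B : Set V} (h : Q k (G.induce B)) (D : Set V)
    (hD : D ⊆ B) (i : ℕ) (hi : k < 2 * i) : LV (G.induce D) i := by
  have h4 := h.2 {x | x.1 ∈ D} i hi
  rw [lv_sub] at h4
  refine lv_set ?_ h4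
  ext x
  simp only [Set.mem_image, Set.mem_ofPred_eq, Subtype.exists, exists_and_left,
    exists_prop, exists_eq_right_right]
  exact ⟨fun hx => ⟨hx, hD hx⟩, fun hx => hx.1⟩

/-- the closure property -/
theorem Q_split {n : ℕ} {V : Type} [Finite V] (G : SimpleGraph V) (s t : V) (hst : G.Adj s t)
    (hsq : NoSq G s t) (h1 : Q (n + 2) ((con G s t).induce {t}ᶜ))
    (h2 : Q n (G.induce (G.neighborSet s ∩ G.neighborSet t))) (h3 : Q (n + 2) (G.induce (G.neighborSet s)))
    (h4 : Q (n + 2) (G.induce (G.neighborSet t))) : Q (n + 2) G := by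
  classical
  refine ⟨inferInstance, fun A i hi => ?_⟩
  have main : ∀ A : Set V, s ∈ A → t ∈ A → LV (G.induce A) i := by
    intro A hs ht
    refine lv_split G A s t hs ht hst hsq i ?_ fun j hj => ?_
    · exact Q_restrict h1 _ (fun x hx => hx.2) i hi
    · exact Q_restrict h2 _ (fun x hx => hx.2) j (by omega)
  by_cases hs : s ∈ A
  · by_cases ht : t ∈ A
    · exact main A hs ht
    · exact lv_del G A t ht i (main _ (Or.inr hs) (Or.inl rfl)) (Q_restrict h4 _ (fun x hx => hx.2) i hi)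
  · by_cases ht : t ∈ A
    · exact lv_del G A s hs i (main _ (Or.inl rfl) (Or.inr ht)) (Q_restrict h3 _ (fun x hx => hx.2) i hi)
    · have h5 := Q_restrict h1 A (fun x hx e => ht (by rw [Set.mem_singleton_iff] at e; exact e ▸ hx)) i hi
      have h6 : (con G s t).induce A = G.induce A := by
        ext x y
        exact con_adj_iff' (fun e => hs (e ▸ x.2)) (fun e => ht (e ▸ x.2)) (fun e => hs (e ▸ y.2))
          (fun e => ht (e ▸ y.2))
      rwa [h6] at h5

end Pool.Agent.R781.VS
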