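import Pool.Agent.H7.L.R781_VS_ClassDef
import Pool.Agent.H7.L.R781_VS_QSplit

/-!
# Vanishing above the middle for the class `AR`
-/

set_option autoImplicit false

namespace Pool.Agent.R781.VS

open Pool.Agent.W907.SG Pool.Agent.W907.SM
open Pool.Agent.TH652.Above

theorem Q_of_AR {n : ℕ} {V : Type} {G : SimpleGraph V} (h : AR n G) : Q n G := by
  induction h with
  | aq G h => exact Q_of_AQ h
  | split G s t hst hsq _ _ _ _ ih1 ih2 ih3 ih4 => exact Q_split G s t hst hsq ih1 ih2 ih3 ih4
  | full G A _ ih => exact Q_emb G _ (SimpleGraph.Embedding.induce A) ih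
  | join G H _ _ ih1 ih2 => exact Q_join G H ih1 ih2
  | succ G _ ih => exact ⟨ih.1, fun A i hi => ih.2 A i (by omega)⟩
  | pred G _ ih => exact ⟨ih.1, fun A i hi => ih.2 A i (by omega)⟩
  | del G s t hst _ _ ih1 ih2 => exact Q_del G s t hst ih1 ih2
  | loc G B hB _ ih => exact Q_loc G B hB ih
  | vert G v _ _ ih1 ih2 => exact Q_vert G v ih1 ih2
  | glue G A B hAB hno _ _ _ ih1 ih2 ih3 => exact Q_glue G A B hAB hno ih1 ih2 ih3
  | iso G H e _ ih => exact Q_emb G H e.some.symm.toEmbedding ih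

/-- vanishing above the middle -/
theorem above_AR {n : ℕ} {V : Type} [Fintype V] [LinearOrder V] {G : SimpleGraph V} (h : AR n G) (i : ℕ)
    (hi : n < 2 * i) : L2Van G i :=
  (lv_univ G i).1 ((Q_of_AR h).2 Set.univ i hi) _ _

/-- the Singer conjecture for homology spheres in the class -/
theorem singer_AR {n : ℕ} {V : Type} [Fintype V] [LinearOrder V] {G : SimpleGraph V} (hS : HSph n G)
    (h : AR n G) (i : ℕ) (hi : 2 * i ≠ n) : L2Van G i :=
  singer_of_above hS (fun i hi => above_AR h i hi) i hi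

/-- the Charney-Davis inequality -/
theorem charney_davis_AR {m : ℕ} {V : Type} [Fintype V] [LinearOrder V] {G : SimpleGraph V} (hS : HSph (2 * m) G)
    (h : AR (2 * m) G) : 0 ≤ (-1 : ℚ) ^ m * chiW G :=
  chi_sign G fun i hi => singer_AR hS h i (by omega)

end Pool.Agent.R781.VS
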