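import Pool.Agent.H7.L.W907_SM_All
import Pool.Agent.H7.L.W907_SM_Conv

set_option autoImplicit false

namespace Pool.Agent.W907.SM

open Pool.Agent.W907.SG

theorem cstep : M_CSTEP := Pool.Agent.W85.SM.CStep.cstep ladd convb eulf
theorem abv : B_ABV := Pool.Agent.W816.SM.abv jt ladd convb

/-- the Singer conjecture for order complexes of Gorenstein* posets -/
theorem singerGor : ∀ (n : ℕ) (V : Type) [Fintype V] [LinearOrder V] (r : V → V → Prop) (rk : V → Fin n),
    GorStar n r rk → ∀ i, 2 * i ≠ n → L2Van (cmp r) i :=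
  singer v0 vstep conva key cstep thin t1 t2 t3 t4 t6 ind2 ltr subg odd

/-- vanishing above the middle for full subcomplexes -/
theorem aboveGor : ∀ (n : ℕ) (V : Type) [Fintype V] [LinearOrder V] (r : V → V → Prop) (rk : V → Fin n),
    GorStar n r rk → ∀ (A : Set V) [Fintype ↥A] (i : ℕ), n < 2 * i → L2Van ((cmp r).induce A) i :=
  above v0 vstep conva key cstep thin t1 t2 t3 t4 t6 keyi abv desc genind evn

/-- the closure of the order complexes of Gorenstein* posets under suspension and edge subdivision -/
theorem closureGor (n : ℕ) (V : Type) (G : SimpleGraph V) (h : Clo.Cl (@GorBase) n G) (i : ℕ) (hi : 2 * i ≠ n) :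
    LV G i :=
  Clo.lv_of_mot liso (Clo.mot_of_cl lstep1 lstep2 lsusp liso (@GorBase)
    (fun n V G h => gorBase_mot singerGor lkg n V G h) h) i hi

end Pool.Agent.W907.SM
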