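import Pool.Agent.H7.L.RK_Defs

set_option autoImplicit false
open Matrix


namespace Pool.Agent.RK.Tr
open Pool.Agent.RK

open Matrix

/-! ## TARGET (prove this) -/

theorem tr_comm {R : Type} [Ring R] [StarRing R] {τ : R →+ ℝ} (h : VN R τ) {m n : Type}
    [Fintype m] [Fintype n] (A : Matrix m n R) (B : Matrix n m R) :
    Tr τ (A * B) = Tr τ (B * A) := by
  unfold Tr
  simp only [Matrix.mul_apply, map_sum]
  rw [Finset.sum_comm]
  refine Finset.sum_congr rfl fun j _ => Finset.sum_congr rfl fun i _ => ?_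
  exact h.comm _ _

theorem tr_star {R : Type} [Ring R] [StarRing R] {τ : R →+ ℝ} (h : VN R τ) {m n : Type}
    [Fintype m] [Fintype n] (A : Matrix m n R) :
    0 ≤ Tr τ (Aᴴ * A) ∧ (Tr τ (Aᴴ * A) = 0 → A = 0) := by
  have key : Tr τ (Aᴴ * A) = ∑ i, ∑ j, τ (star (A j i) * A j i) := by
    unfold Tr
    simp only [Matrix.mul_apply, map_sum, Matrix.conjTranspose_apply]
  rw [key]
  refine ⟨Finset.sum_nonneg fun i _ => Finset.sum_nonneg fun j _ => h.nonneg _, fun h0 => ?_⟩
  rw [Finset.sum_eq_zero_iff_of_nonneg (fun i _ => Finset.sum_nonneg fun j _ => h.nonneg _)] at h0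
  ext j i
  have h1 := h0 i (Finset.mem_univ _)
  rw [Finset.sum_eq_zero_iff_of_nonneg (fun j _ => h.nonneg _)] at h1
  exact h.faithful _ (h1 j (Finset.mem_univ _))

end Pool.Agent.RK.Tr
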