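import Pool.Agent.H7.L.RK_Defs
import Pool.Agent.H7.L.RK_Lp
import Pool.Agent.H7.L.RK_Proj

set_option autoImplicit false
open Matrix


namespace Pool.Agent.RK.RkFull
open Pool.Agent.RK
open Pool.Agent.RK.Lp (lp_exists rk_eq rk_star)
open Pool.Agent.RK.Proj (proj_le)

open Matrix






/-! ## TARGET (prove this) -/

theorem rk_full_left {R : Type} [Ring R] [StarRing R] {τ : R →+ ℝ} (h : VN R τ) {m n : Type}
    [Fintype m] [Fintype n] (A : Matrix m n R) :
    rk τ A = Fintype.card m ↔ ∀ x : m → R, Matrix.vecMul x A = 0 → x = 0 := by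
  classical
  obtain ⟨p, hp⟩ := lp_exists h A
  rw [rk_eq A p hp]
  have h1 : Tr τ (1 : Matrix m m R) = Fintype.card m := by
    unfold Tr
    simp [h.one]
  constructor
  · intro he x hx
    have h2 := (proj_le h p 1 hp.idem hp.star (one_mul 1) Matrix.conjTranspose_one
      (one_mul p)).2 (by rw [he, h1])
    have h3 := hp.min x hx
    rw [h2, Matrix.vecMul_one] at h3
    exact h3
  · intro hx
    have h2 : 1 - p = 0 := by
      funext i
      refine hx _ ?_
      have h3 : (1 - p) * A = 0 := by
        rw [Matrix.sub_mul, Matrix.one_mul, hp.mul, sub_self]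
      rw [← Matrix.mul_apply_eq_vecMul, h3]
      rfl
    rw [← sub_eq_zero.1 h2, h1]

theorem rk_full_right {R : Type} [Ring R] [StarRing R] {τ : R →+ ℝ} (h : VN R τ) {m n : Type}
    [Fintype m] [Fintype n] (A : Matrix m n R) :
    rk τ A = Fintype.card n ↔ ∀ y : n → R, Matrix.mulVec A y = 0 → y = 0 := by
  rw [← rk_star h A, rk_full_left h Aᴴ]
  constructor
  · intro hx y hy
    have h1 := hx (star y) (by rw [← Matrix.star_mulVec, hy, star_zero])
    rw [← star_star y, h1, star_zero]
  · intro hy x hx
    have h1 : star (Matrix.mulVec A (star x)) = 0 := by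
      rw [Matrix.star_mulVec, star_star, hx]
    have h2 : Matrix.mulVec A (star x) = 0 := by
      rw [← star_star (Matrix.mulVec A (star x)), h1, star_zero]
    have h3 := hy _ h2
    rw [← star_star x, h3, star_zero]

end Pool.Agent.RK.RkFull
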