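import Pool.Agent.H7.L.RK_Defs
import Pool.Agent.H7.L.RK_Tr
import Pool.Agent.H7.L.RK_Lp
import Pool.Agent.H7.L.RK_RkFull
import Pool.Agent.H7.L.RK_Proj

set_option autoImplicit false
open Matrix


namespace Pool.Agent.RK.OreMat
open Pool.Agent.RK
open Pool.Agent.RK.Tr (tr_comm tr_star)
open Pool.Agent.RK.Lp (lp_exists rk_eq rk_star)
open Pool.Agent.RK.RkFull (rk_full_left rk_full_right)
open Pool.Agent.RK.Proj (proj_le)

open Matrix










/-! ## TARGET (prove this) -/

/-- Ore condition for a square matrix with trivial left kernel. -/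
theorem ore_mat {R : Type} [Ring R] [StarRing R] {τ : R →+ ℝ} (h : VN R τ) {n : Type}
    [Fintype n] (A : Matrix n n R) (hA : ∀ x : n → R, Matrix.vecMul x A = 0 → x = 0)
    (b : n → R) : ∃ (s : R) (c : n → R), Nz s ∧ (fun j => s * b j) = Matrix.vecMul c A := by
  classical
  let V : Matrix (Unit ⊕ n) n R := fun i j => Sum.elim (fun _ => b j) (fun i' => A i' j) i
  have hVr : ∀ i j, V (Sum.inr i) j = A i j := fun i j => rfl
  have hVl : ∀ u j, V (Sum.inl u) j = b j := fun u j => rfl
  have hrA : rk τ A = Fintype.card n := (rk_full_left h A).2 hA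
  have hAr : ∀ y : n → R, Matrix.mulVec A y = 0 → y = 0 := (rk_full_right h A).1 hrA
  have hVk : ∀ y : n → R, Matrix.mulVec V y = 0 → y = 0 := by
    intro y hy
    apply hAr
    funext i
    have := congrFun hy (Sum.inr i)
    simpa [Matrix.mulVec, dotProduct, hVr] using this
  have hrV : rk τ V = Fintype.card n := (rk_full_right h V).2 hVk
  obtain ⟨P, hP⟩ := lp_exists h V
  have hTP : Tr τ P = Fintype.card n := by rw [← rk_eq V P hP, hrV]
  set E : Matrix (Unit ⊕ n) (Unit ⊕ n) R := 1 - P with hE
  have hEV : E * V = 0 := by rw [hE, Matrix.sub_mul, Matrix.one_mul, hP.mul, sub_self]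
  have hEE : E * E = E := by
    rw [hE, Matrix.sub_mul, Matrix.one_mul, Matrix.mul_sub, Matrix.mul_one, hP.idem]
    abel
  have hEs : Eᴴ = E := by rw [hE, Matrix.conjTranspose_sub, Matrix.conjTranspose_one, hP.star]
  have hEst : ∀ i j, star (E i j) = E j i := by
    intro i j
    have := congrFun (congrFun hEs j) i
    rwa [Matrix.conjTranspose_apply] at this
  refine ⟨E (Sum.inl ()) (Sum.inl ()), fun i => - E (Sum.inl ()) (Sum.inr i), ?_, ?_⟩
  · intro x hx
    -- the column
    set y : R := star x with hy
    have hsy : E (Sum.inl ()) (Sum.inl ()) * y = 0 := by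
      have := congrArg star hx
      rw [star_mul, hEst, star_zero] at this
      exact this
    let w : Matrix (Unit ⊕ n) Unit R := fun i _ => Sum.elim (fun _ => y) (fun _ => 0) i
    have hwl : ∀ u v, w (Sum.inl u) v = y := fun u v => rfl
    have hwr : ∀ i v, w (Sum.inr i) v = 0 := fun i v => rfl
    have hEw0 : wᴴ * (E * w) = 0 := by
      ext u v
      rw [Matrix.mul_apply, Fintype.sum_sum_type]
      simp only [Matrix.conjTranspose_apply, hwl, hwr, star_zero, zero_mul, Finset.sum_const_zero,
        add_zero, Matrix.mul_apply, Fintype.sum_sum_type, mul_zero, Matrix.zero_apply,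
        Finset.univ_unique, Finset.sum_singleton]
      have : E (Sum.inl default) (Sum.inl default) * y = 0 := hsy
      rw [this, mul_zero]
    have hEw : E * w = 0 := by
      apply (tr_star h (E * w)).2
      have : (E * w)ᴴ * (E * w) = 0 := by
        rw [Matrix.conjTranspose_mul, hEs, Matrix.mul_assoc, ← Matrix.mul_assoc E E, hEE, hEw0]
      rw [this]
      simp [Tr]
    have hPw : P * w = w := by
      have h1 : (1 - P) * w = 0 := hEw
      rw [Matrix.sub_mul, Matrix.one_mul, sub_eq_zero] at h1
      exact h1.symm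
    let W : Matrix n (Unit ⊕ n) R := fun i k => Sum.elim (fun _ => 0) (fun j => if i = j then 1 else 0) k
    have hWl : ∀ i u, W i (Sum.inl u) = 0 := fun i u => rfl
    have hWr : ∀ i j, W i (Sum.inr j) = if i = j then 1 else 0 := fun i j => rfl
    have hWV : W * V = A := by
      ext i j
      rw [Matrix.mul_apply, Fintype.sum_sum_type]
      simp [hWl, hWr, hVr]
    have hWw : W * w = 0 := by
      ext i j
      rw [Matrix.mul_apply, Fintype.sum_sum_type]
      simp [hWl, hwr]
    have hWPV : (W * P) * V = A := by rw [Matrix.mul_assoc, hP.mul, hWV]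
    have hrWP : rk τ (W * P) = Fintype.card n := by
      rw [rk_full_left h]
      intro z hz
      apply hA
      rw [← hWPV, ← Matrix.vecMul_vecMul, hz, Matrix.zero_vecMul]
    obtain ⟨q, hq⟩ := lp_exists h (W * P)ᴴ
    have hTq : Tr τ q = Fintype.card n := by rw [← rk_eq _ q hq, rk_star h, hrWP]
    have hrow : ∀ {l : Type} [Fintype l] (X : Matrix l (Unit ⊕ n) R), X * (W * P)ᴴ = 0 → X * q = 0 := by
      intro l _ X hX
      ext i j
      have h1 : Matrix.vecMul (X i) (W * P)ᴴ = 0 := by
        funext j'
        have := congrFun (congrFun hX i) j'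
        simpa [Matrix.vecMul, dotProduct, Matrix.mul_apply] using this
      have h2 := congrFun (hq.min _ h1) j
      simpa [Matrix.vecMul, dotProduct, Matrix.mul_apply] using h2
    have hPq : P * q = q := by
      have h1 : (1 - P) * (W * P)ᴴ = 0 := by
        rw [Matrix.conjTranspose_mul, hP.star, ← Matrix.mul_assoc, Matrix.sub_mul, Matrix.one_mul,
          hP.idem, sub_self, Matrix.zero_mul]
      have h2 := hrow _ h1
      rw [Matrix.sub_mul, Matrix.one_mul, sub_eq_zero] at h2
      exact h2.symm
    have hqP : q = P := (proj_le h q P hq.idem hq.star hP.idem hP.star hPq).2 (by rw [hTq, hTP])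
    have hWPw : (W * P) * w = 0 := by rw [Matrix.mul_assoc, hPw, hWw]
    have hwq : wᴴ * q = 0 := by
      apply hrow
      rw [← Matrix.conjTranspose_mul, hWPw, Matrix.conjTranspose_zero]
    have hqw : q * w = 0 := by
      have := congrArg Matrix.conjTranspose hwq
      rw [Matrix.conjTranspose_mul, Matrix.conjTranspose_conjTranspose, hq.star,
        Matrix.conjTranspose_zero] at this
      exact this
    have hw0 : w = 0 := by rw [← hPw, ← hqP, hqw]
    have hy0 : y = 0 := by
      have := congrFun (congrFun hw0 (Sum.inl ())) ()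
      exact this
    have : star y = 0 := by rw [hy0, star_zero]
    rwa [hy, star_star] at this
  · funext j
    have h1 := congrFun (congrFun hEV (Sum.inl ())) j
    rw [Matrix.mul_apply, Fintype.sum_sum_type] at h1
    simp only [hVl, hVr, Finset.univ_unique, Finset.sum_singleton, Matrix.zero_apply] at h1
    have h2 : E (Sum.inl ()) (Sum.inl ()) * b j = - ∑ i, E (Sum.inl ()) (Sum.inr i) * A i j :=
      eq_neg_of_add_eq_zero_left h1
    rw [h2]
    simp [Matrix.vecMul, dotProduct]

end Pool.Agent.RK.OreMat
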