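import Pool.Agent.H7.L.RK_Defs
import Pool.Agent.H7.L.RK_OreMat
import Pool.Agent.H7.L.RK_RkFull
import Pool.Agent.H7.L.RK_Nz

set_option autoImplicit false
open Matrix


namespace Pool.Agent.RK.OreRest
open Pool.Agent.RK
open Pool.Agent.RK.OreMat (ore_mat)
open Pool.Agent.RK.RkFull (rk_full_left rk_full_right)
open Pool.Agent.RK.Nz (nz_iff nz_star)

open Matrix







/-! ## TARGET (prove this) -/

theorem ore_mat' {R : Type} [Ring R] [StarRing R] {τ : R →+ ℝ} (h : VN R τ) {n : Type}
    [Fintype n] (A : Matrix n n R) (hA : ∀ x : n → R, Matrix.vecMul x A = 0 → x = 0)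
    (b : n → R) : ∃ (s : R) (c : n → R), Nz s ∧ (fun j => b j * s) = Matrix.mulVec A c := by
  have hA' : ∀ x : n → R, Matrix.vecMul x Aᴴ = 0 → x = 0 := by
    intro x hx
    have h1 : A *ᵥ (star x) = 0 := by
      have h2 := congrArg star hx
      rw [Matrix.star_vecMul, Matrix.conjTranspose_conjTranspose, star_zero] at h2
      exact h2
    have h3 := (rk_full_right h A).1 ((rk_full_left h A).2 hA) (star x) h1
    rw [← star_star x, h3, star_zero]
  obtain ⟨s, c, hs, hc⟩ := ore_mat h Aᴴ hA' (star b)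
  refine ⟨star s, star c, nz_star h s hs, ?_⟩
  have h2 := congrArg star hc
  rw [Matrix.star_vecMul, Matrix.conjTranspose_conjTranspose] at h2
  rw [← h2]
  funext j
  simp [Pi.star_apply, star_mul]

theorem ore_left {R : Type} [Ring R] [StarRing R] {τ : R →+ ℝ} (h : VN R τ) (b s : R)
    (hs : Nz s) : ∃ s' b' : R, Nz s' ∧ s' * b = b' * s := by
  obtain ⟨s', c, h1, h2⟩ := ore_mat h (n := Unit) (Matrix.of (fun _ _ => s)) (by
    intro x hx
    funext u
    have := congrFun hx ()
    simp [Matrix.vecMul, dotProduct] at this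
    exact hs _ this) (fun _ => b)
  refine ⟨s', c (), h1, ?_⟩
  have := congrFun h2 ()
  simp [Matrix.vecMul, dotProduct] at this
  exact this

theorem ore_right {R : Type} [Ring R] [StarRing R] {τ : R →+ ℝ} (h : VN R τ) (b s : R)
    (hs : Nz s) : ∃ s' b' : R, Nz s' ∧ b * s' = s * b' := by
  obtain ⟨s', c, h1, h2⟩ := ore_mat' h (n := Unit) (Matrix.of (fun _ _ => s)) (by
    intro x hx
    funext u
    have := congrFun hx ()
    simp [Matrix.vecMul, dotProduct] at this
    exact hs _ this) (fun _ => b)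
  refine ⟨s', c (), h1, ?_⟩
  have := congrFun h2 ()
  simp [Matrix.mulVec, dotProduct] at this
  exact this

end Pool.Agent.RK.OreRest
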