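import Pool.Agent.H7.L.RK_Defs
import Pool.Agent.H7.L.RK_Nz
import Pool.Agent.H7.L.RK_OreRest

set_option autoImplicit false
open Matrix


namespace Pool.Agent.RK.LocEx
open Pool.Agent.RK
open Pool.Agent.RK.Nz (nz_iff nz_mul)
open Pool.Agent.RK.OreRest (ore_left ore_right)

open Matrix






/-! ## TARGET (prove this) -/

theorem loc_exists {R : Type} [Ring R] [StarRing R] {τ : R →+ ℝ} (h : VN R τ) :
    ∃ (U : Type) (_ : Ring U) (ι : R →+* U), Loc ι := by
  classical
  let S : Submonoid R :=
    { carrier := {s | Nz s}
      mul_mem' := fun {a b} ha hb => nz_mul a b ha hb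
      one_mem' := fun x hx => by simpa using hx }
  have hS : ∀ s : S, Nz (s : R) := fun s => s.2
  have hore : ∀ (r : R) (s : S), ∃ (p : R × S), (p.2 : R) * r = p.1 * (s : R) := by
    intro r s
    obtain ⟨s', b', hs', he⟩ := ore_left h r s s.2
    exact ⟨(b', ⟨s', hs'⟩), he⟩
  choose f hf using hore
  letI hO : OreLocalization.OreSet S :=
    { ore_right_cancel := fun r₁ r₂ s hs => by
        refine ⟨1, ?_⟩
        have h1 : (r₁ - r₂) * (s : R) = 0 := by rw [sub_mul, hs, sub_self]
        have h2 := hS s _ h1
        rw [sub_eq_zero.1 h2]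
      oreNum := fun r s => (f r s).1
      oreDenom := fun r s => (f r s).2
      ore_eq := fun r s => hf r s }
  have hunit : ∀ s : R, Nz s → IsUnit ((OreLocalization.numeratorRingHom : R →+* OreLocalization S R) s) :=
    fun s hs => OreLocalization.numerator_isUnit (⟨s, hs⟩ : S)
  refine ⟨OreLocalization S R, inferInstance, OreLocalization.numeratorRingHom, ?_, hunit, ?_, ?_⟩
  · exact OreLocalization.numeratorHom_inj (fun s hs => (nz_iff h s).1 hs)
  · intro y
    induction y using OreLocalization.ind with
    | _ r s =>
      exact ⟨s, r, s.2, OreLocalization.mul_cancel⟩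
  · intro y
    induction y using OreLocalization.ind with
    | _ r s =>
      obtain ⟨t, z, ht, he⟩ := ore_right h r s s.2
      refine ⟨t, z, ht, ?_⟩
      apply (hunit s s.2).mul_left_cancel
      have h1 : (OreLocalization.numeratorRingHom : R →+* OreLocalization S R) (s : R) *
          OreLocalization.oreDiv r s = OreLocalization.numeratorRingHom r :=
        OreLocalization.mul_cancel
      rw [← mul_assoc, h1, ← map_mul, he, map_mul]

end Pool.Agent.RK.LocEx
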