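import Pool.Agent.H7.L.N496_CV_Stm3
import Pool.Agent.H7.L.RK_Nz

/-!
# Project CV: the homology of subgroups from the complex davis
-/

set_option autoImplicit false

noncomputable section

namespace Pool.Agent.N496.CV.FinAux

attribute [local instance] VN831.viaAdd VN831.viaMod

variable {S R Γ K : Type} [Ring S] [Ring R] [Group Γ] [Group K]

/-- equivariant functions of finite support modulo `K` -/
structure FF (i : K →* Γ) (c : K →* S) (v : Γ → S) : Prop where
  eq : ∀ (h : K) (g : Γ), v (i h * g) = v g * c h⁻¹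
  fin : ∃ T : Finset Γ, ∀ g, v g ≠ 0 → ∃ h : K, ∃ x ∈ T, g = i h * x

/-- the module of these functions -/
def FM (i : K →* Γ) (c : K →* S) : Submodule S (Γ → S) where
  carrier := {v | FF i c v}
  add_mem' := by
    classical
    rintro v w ⟨h1, T1, h2⟩ ⟨h3, T2, h4⟩
    refine ⟨fun h g => ?_, T1 ∪ T2, fun g hg => ?_⟩
    · rw [Pi.add_apply, Pi.add_apply, h1, h3, add_mul]
    · by_cases h5 : v g = 0
      · have h6 : w g ≠ 0 := fun h6 => hg (by rw [Pi.add_apply, h5, h6, add_zero])
        obtain ⟨h, x, hx, e⟩ := h4 g h6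
        exact ⟨h, x, Finset.mem_union_right _ hx, e⟩
      · obtain ⟨h, x, hx, e⟩ := h2 g h5
        exact ⟨h, x, Finset.mem_union_left _ hx, e⟩
  zero_mem' := ⟨fun h g => by simp, ∅, fun g hg => absurd rfl hg⟩
  smul_mem' := by
    rintro s v ⟨h1, T1, h2⟩
    refine ⟨fun h g => ?_, T1, fun g hg => h2 g fun h3 => hg ?_⟩
    · rw [Pi.smul_apply, Pi.smul_apply, h1, smul_eq_mul, smul_eq_mul, mul_assoc]
    · rw [Pi.smul_apply, h3, smul_zero]

/-- the right cosets of the image of `i` -/
abbrev Q (i : K →* Γ) : Type := Quotient (QuotientGroup.rightRel i.range)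

theorem q_eq (i : K →* Γ) (g g' : Γ) : (Quotient.mk _ g : Q i) = Quotient.mk _ g' ↔ ∃ h, g' = i h * g := by
  rw [Quotient.eq, QuotientGroup.rightRel_apply]
  constructor
  · rintro ⟨h, hh⟩
    exact ⟨h, by rw [hh, inv_mul_cancel_right]⟩
  · rintro ⟨h, hh⟩
    exact ⟨h, by rw [hh, mul_inv_cancel_right]⟩

/-- the summand of `g` -/
def tau (j : S →+* R) (cW : Γ →* R) (v : Γ → S) (g : Γ) : R := j (v g) * cW g

variable {j : S →+* R} {cW : Γ →* R} {i : K →* Γ} {c : K →* S}

theorem tau_eq (hc : ∀ k, j (c k) = cW (i k)) {v : Γ → S} (hv : FF i c v) (h : K) (g : Γ) :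
    tau j cW v (i h * g) = tau j cW v g := by
  unfold tau
  rw [hv.eq, map_mul, hc, map_mul cW (i h) g, ← mul_assoc, mul_assoc (j (v g)), ← map_mul cW, ← map_mul i,
    inv_mul_cancel, map_one, map_one, mul_one]

theorem tau_out (hc : ∀ k, j (c k) = cW (i k)) {v : Γ → S} (hv : FF i c v) (g : Γ) :
    tau j cW v (Quotient.out (Quotient.mk _ g : Q i)) = tau j cW v g := by
  obtain ⟨h, hh⟩ := (q_eq i _ _).1 (Quotient.out_eq (Quotient.mk _ g : Q i))
  conv_rhs => rw [hh, tau_eq hc hv]

theorem supp {v : Γ → S} (hv : FF i c v) : ∃ T : Finset Γ, ∀ q : Q i, v q.out ≠ 0 → ∃ x ∈ T, q = Quotient.mk _ x := by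
  obtain ⟨T, hT⟩ := hv.fin
  refine ⟨T, fun q hq => ?_⟩
  obtain ⟨h, x, hx, e⟩ := hT _ hq
  refine ⟨x, hx, ?_⟩
  rw [← Quotient.out_eq q]
  exact ((q_eq i _ _).2 ⟨h, e⟩).symm

theorem tau_fin {v : Γ → S} (hv : FF i c v) : (Function.support fun q : Q i => tau j cW v q.out).Finite := by
  classical
  obtain ⟨T, hT⟩ := supp hv
  refine Set.Finite.subset (T.image fun x => (Quotient.mk _ x : Q i)).finite_toSet fun q hq => ?_
  have h1 : v q.out ≠ 0 := by
    intro h
    apply hq
    simp only [tau, h, map_zero, zero_mul]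
  obtain ⟨x, hx, e⟩ := hT q h1
  rw [Finset.mem_coe, Finset.mem_image]
  exact ⟨x, hx, e.symm⟩

/-- the element of `R` given by a function -/
def phi (j : S →+* R) (cW : Γ →* R) (i : K →* Γ) (c : K →* S) : FM i c →ₗ[S] VN831.Via j where
  toFun v := (∑ᶠ q : Q i, tau j cW v.1 q.out : R)
  map_add' v w := by
    show (∑ᶠ q : Q i, tau j cW (v.1 + w.1) q.out : R) = (∑ᶠ q : Q i, tau j cW v.1 q.out : R) +
      (∑ᶠ q : Q i, tau j cW w.1 q.out : R)
    rw [← finsum_add_distrib (tau_fin v.2) (tau_fin w.2)]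
    refine finsum_congr fun q => ?_
    unfold tau
    rw [Pi.add_apply, map_add, add_mul]
  map_smul' s v := by
    show (∑ᶠ q : Q i, tau j cW (s • v.1) q.out : R) = j s * (∑ᶠ q : Q i, tau j cW v.1 q.out : R)
    rw [mul_finsum' _ _ (tau_fin v.2)]
    refine finsum_congr fun q => ?_
    unfold tau
    rw [Pi.smul_apply, smul_eq_mul, map_mul, mul_assoc]

theorem phi_apply (v : FM i c) : phi j cW i c v = (∑ᶠ q : Q i, tau j cW v.1 q.out : R) := rfl

theorem phi_mem (v : FM i c) : phi j cW i c v ∈ VN831.SR j cW := by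
  have h1 : phi j cW i c v = ∑ q ∈ (tau_fin (j := j) (cW := cW) v.2).toFinset,
      (v.1 q.out • (show VN831.Via j from cW q.out) : VN831.Via j) := by
    rw [phi_apply]
    exact finsum_eq_sum _ _
  rw [h1]
  exact Submodule.sum_mem _ fun q _ => Submodule.smul_mem _ _ (Submodule.subset_span ⟨_, rfl⟩)

theorem phi_inj (hind : VN831.CosetIndep j cW i.range) : Function.Injective (phi j cW i c) := by
  classical
  rw [injective_iff_map_eq_zero]
  intro v hv
  obtain ⟨T, hT⟩ := supp v.2
  have hv' : (∑ᶠ q : Q i, tau j cW v.1 q.out : R) = 0 := hv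
  have h1 : (∑ᶠ q : Q i, tau j cW v.1 q.out : R) =
      ∑ q ∈ T.image fun x => (Quotient.mk _ x : Q i), tau j cW v.1 q.out := by
    refine finsum_eq_sum_of_support_subset _ fun q hq => ?_
    have h1 : v.1 q.out ≠ 0 := by
      intro h
      apply hq
      simp only [tau, h, map_zero, zero_mul]
    obtain ⟨x, hx, e⟩ := hT q h1
    rw [Finset.mem_coe, Finset.mem_image]
    exact ⟨x, hx, e.symm⟩
  have hinj : Set.InjOn (Quotient.out : Q i → Γ) (T.image fun x => (Quotient.mk _ x : Q i)) :=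
    (Quotient.out_injective).injOn
  rw [h1, ← Finset.sum_image (f := fun g => tau j cW v.1 g) hinj] at hv'
  have h2 := hind _ ?_ v.1 hv'
  · apply Subtype.ext
    funext g
    by_contra hg
    have hg1 : v.1 g ≠ 0 := hg
    obtain ⟨h, hh⟩ := (q_eq i _ _).1 (Quotient.out_eq (Quotient.mk _ g : Q i))
    have h3 : v.1 g = v.1 (Quotient.out (Quotient.mk _ g : Q i)) * c h⁻¹ := by
      conv_lhs => rw [hh]
      exact v.2.eq _ _
    have h4 : v.1 (Quotient.out (Quotient.mk _ g : Q i)) ≠ 0 := by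
      intro h5
      rw [h5, zero_mul] at h3
      exact hg1 h3
    obtain ⟨x, hx, e⟩ := hT _ h4
    refine h4 (h2 _ ?_)
    rw [Finset.mem_image]
    exact ⟨_, Finset.mem_image.2 ⟨x, hx, e.symm⟩, rfl⟩
  · intro g hg g' hg' hne hK
    obtain ⟨q, -, rfl⟩ := Finset.mem_image.1 hg
    obtain ⟨q', -, rfl⟩ := Finset.mem_image.1 hg'
    apply hne
    obtain ⟨h, hh⟩ := hK
    have : q' = q := by
      rw [← Quotient.out_eq q, ← Quotient.out_eq q']
      exact (q_eq i _ _).2 ⟨h, by rw [hh, inv_mul_cancel_right]⟩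
    rw [this]

open Classical in
/-- the function of one group element -/
def del (i : K →* Γ) (c : K →* S) (g₀ g : Γ) : S := if h : ∃ k, g = i k * g₀ then c (h.choose)⁻¹ else 0

theorem del_eq (hi : Function.Injective i) (g₀ : Γ) (k : K) : del i c g₀ (i k * g₀) = c k⁻¹ := by
  have h : ∃ k', i k * g₀ = i k' * g₀ := ⟨k, rfl⟩
  unfold del
  rw [dif_pos h]
  have h1 : k = h.choose := hi (mul_right_cancel h.choose_spec)
  rw [← h1]

theorem del_mem (hi : Function.Injective i) (g₀ : Γ) : FF i c (del i c g₀) := by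
  refine ⟨fun h g => ?_, {g₀}, fun g hg => ?_⟩
  · by_cases hg : ∃ k, g = i k * g₀
    · obtain ⟨k, rfl⟩ := hg
      rw [← mul_assoc, ← map_mul, del_eq hi, del_eq hi, mul_inv_rev, map_mul]
    · have h1 : del i c g₀ g = 0 := dif_neg hg
      have h2 : ¬ ∃ k, i h * g = i k * g₀ := by
        rintro ⟨k, hk⟩
        apply hg
        refine ⟨h⁻¹ * k, ?_⟩
        rw [map_mul, mul_assoc, ← hk, map_inv, inv_mul_cancel_left]
      rw [h1, zero_mul]
      exact dif_neg h2
  · by_contra hne
    apply hg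
    refine dif_neg ?_
    rintro ⟨k, rfl⟩
    exact hne ⟨k, g₀, Finset.mem_singleton_self _, rfl⟩

theorem phi_del (hi : Function.Injective i) (hc : ∀ k, j (c k) = cW (i k)) (g₀ : Γ) :
    phi j cW i c ⟨del i c g₀, del_mem hi g₀⟩ = (cW g₀ : R) := by
  show (∑ᶠ q : Q i, tau j cW (del i c g₀) q.out : R) = cW g₀
  rw [finsum_eq_single _ (Quotient.mk _ g₀ : Q i), tau_out hc (del_mem hi g₀)]
  · unfold tau
    have h1 : del i c g₀ g₀ = c 1⁻¹ := by
      have := del_eq (c := c) hi g₀ 1
      rwa [map_one, one_mul] at this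
    rw [h1, inv_one, map_one, map_one, one_mul]
  · intro q hq
    have h1 : del i c g₀ q.out = 0 := by
      refine dif_neg ?_
      rintro ⟨k, hk⟩
      apply hq
      rw [← Quotient.out_eq q]
      exact ((q_eq i _ _).2 ⟨k, hk⟩).symm
    unfold tau
    rw [h1, map_zero, zero_mul]

theorem phi_surj (hi : Function.Injective i) (hc : ∀ k, j (c k) = cW (i k)) (x : VN831.Via j)
    (hx : x ∈ VN831.SR j cW) : ∃ v : FM i c, phi j cW i c v = x := by
  have h : VN831.SR j cW ≤ LinearMap.range (phi j cW i c) := by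
    unfold VN831.SR
    rw [Submodule.span_le]
    rintro _ ⟨g, rfl⟩
    exact ⟨⟨_, del_mem hi g⟩, phi_del hi hc g⟩
  exact h hx

/-- translation -/
def trl (i : K →* Γ) (c : K →* S) (γ : Γ) : FM i c →ₗ[S] FM i c where
  toFun v := ⟨fun g => v.1 (g * γ⁻¹), by
    classical
    refine ⟨fun h g => ?_, ?_⟩
    · rw [mul_assoc]
      exact v.2.eq _ _
    · obtain ⟨T, hT⟩ := v.2.fin
      refine ⟨T.image fun x => x * γ, fun g hg => ?_⟩
      obtain ⟨h, x, hx, e⟩ := hT _ hg
      refine ⟨h, x * γ, Finset.mem_image_of_mem _ hx, ?_⟩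
      rw [← mul_assoc, ← e, inv_mul_cancel_right]⟩
  map_add' v w := rfl
  map_smul' s v := rfl

theorem trl_apply (γ : Γ) (v : FM i c) (g : Γ) : (trl i c γ v).1 g = v.1 (g * γ⁻¹) := rfl

/-- the element of `R` -/
def toR (x : VN831.Via j) : R := x

theorem phi_trl (hc : ∀ k, j (c k) = cW (i k)) (γ : Γ) (v : FM i c) :
    toR (phi j cW i c (trl i c γ v)) = toR (phi j cW i c v) * cW γ := by
  show (∑ᶠ q : Q i, tau j cW (trl i c γ v).1 q.out : R) = (∑ᶠ q : Q i, tau j cW v.1 q.out : R) * cW γ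
  rw [finsum_mul' _ _ (tau_fin v.2)]
  let E : Q i ≃ Q i := Quotient.congr (Equiv.mulRight γ⁻¹) (by
    intro a b
    show QuotientGroup.rightRel i.range a b ↔ QuotientGroup.rightRel i.range (a * γ⁻¹) (b * γ⁻¹)
    rw [QuotientGroup.rightRel_apply, QuotientGroup.rightRel_apply, mul_inv_rev, inv_inv, mul_assoc,
      inv_mul_cancel_left])
  refine Eq.trans (finsum_congr fun q => ?_) (finsum_comp_equiv E)
  have h1 : E q = Quotient.mk _ (q.out * γ⁻¹) := by
    conv_lhs => rw [← Quotient.out_eq q]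
    rfl
  rw [h1, tau_out hc v.2]
  unfold tau
  rw [trl_apply, mul_assoc, ← map_mul, inv_mul_cancel_right]

/-- the action of the group ring -/
def act (i : K →* Γ) (c : K →* S) (a : MonoidAlgebra ℤ Γ) : FM i c →ₗ[S] FM i c :=
  a.coeff.sum fun γ n => n • trl i c γ

theorem act_apply (a : MonoidAlgebra ℤ Γ) (v : FM i c) (g : Γ) :
    (act i c a v).1 g = a.coeff.sum fun γ n => n • v.1 (g * γ⁻¹) := by
  unfold act Finsupp.sum
  rw [LinearMap.sum_apply, Submodule.coe_sum, Finset.sum_apply]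
  rfl

theorem evM_apply (a : MonoidAlgebra ℤ Γ) : V7N.evM cW a = a.coeff.sum fun γ n => n • cW γ := by
  show MonoidAlgebra.lift ℤ R Γ cW a = _
  rw [MonoidAlgebra.lift_apply]

theorem phi_act (hc : ∀ k, j (c k) = cW (i k)) (a : MonoidAlgebra ℤ Γ) (v : FM i c) :
    toR (phi j cW i c (act i c a v)) = toR (phi j cW i c v) * V7N.evM cW a := by
  rw [evM_apply]
  unfold act Finsupp.sum
  rw [LinearMap.sum_apply, map_sum, Finset.mul_sum]
  refine (Finset.sum_congr rfl fun γ _ => ?_ : (∑ γ ∈ a.coeff.support,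
    toR (phi j cW i c ((a.coeff γ • trl i c γ) v))) = _)
  rw [LinearMap.smul_apply, map_zsmul, mul_smul_comm]
  exact congrArg (fun x : R => a.coeff γ • x) (phi_trl hc γ v)

/-- The homology is torsion if the homology of the functions is. -/
theorem tors (hi : Function.Injective i) (hc : ∀ k, j (c k) = cW (i k)) (hind : VN831.CosetIndep j cW i.range)
    {a b d : ℕ} (A : Matrix (Fin a) (Fin b) (MonoidAlgebra ℤ Γ)) (B : Matrix (Fin b) (Fin d) (MonoidAlgebra ℤ Γ))
    (P : S → Prop)
    (H : ∀ v : Fin b → FM i c, (∀ l, ∑ k, act i c (B k l) (v k) = 0) → ∃ s, P s ∧ ∃ w : Fin a → FM i c,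
      ∀ k, ∑ m, act i c (A m k) (w m) = s • v k)
    (m : VN831.HR j cW (A.map (V7N.evM cW)) (B.map (V7N.evM cW))) : ∃ s, P s ∧ s • m = 0 := by
  obtain ⟨⟨z, hz1, hz2⟩, rfl⟩ := Submodule.Quotient.mk_surjective _ m
  have hz3 : ∀ k, ∃ v : FM i c, phi j cW i c v = z k := fun k => phi_surj hi hc _ (hz1 k (Set.mem_univ k))
  choose v hv using hz3
  obtain ⟨s, hs, w, hw⟩ := H v (by
    intro l
    apply phi_inj hind
    rw [map_zero, map_sum]
    have h1 : VN831.rmM j (B.map (V7N.evM cW)) z = 0 := hz2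
    have h2 := congrFun h1 l
    refine Eq.trans (Finset.sum_congr rfl fun k _ => ?_) h2
    have h3 := phi_act (j := j) hc (B k l) (v k)
    rw [hv] at h3
    exact h3)
  refine ⟨s, hs, ?_⟩
  rw [← Submodule.Quotient.mk_smul, Submodule.Quotient.mk_eq_zero]
  refine ⟨fun m => phi j cW i c (w m), fun m _ => phi_mem _, ?_⟩
  funext k
  show _ = s • z k
  rw [← hv, ← map_smul, ← hw, map_sum]
  have h4 : ∑ m, toR (phi j cW i c (w m)) * V7N.evM cW (A m k) =
      ∑ m, toR (phi j cW i c (act i c (A m k) (w m))) :=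
    Finset.sum_congr rfl fun m _ => (phi_act (j := j) hc (A m k) (w m)).symm
  exact h4

end Pool.Agent.N496.CV.FinAux

namespace Pool.Agent.N496.CV

open Pool.Agent.W907.SG Pool.Agent.W461.SGN Pool.Agent.N496.LT Pool.Agent.Helper655.VN Pool.Agent.RK

attribute [local instance] VN831.bcFunctor_additive VN831.viaAdd VN831.viaMod V7N.bcF_additive
  V7N.rmAdd V7N.rmMod

namespace FinAux

/-- a module all of whose elements are annihilated by non zero divisors has dimension zero -/
theorem luck_zero {G : Type} [Group G] {M : Type} [AddCommGroup M] [Module (NG G) M]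
    (h : ∀ m : M, ∃ s : NG G, Nz s ∧ s • m = 0) : VN831.luckDim G M = 0 := by
  refine le_antisymm ?_ zero_le
  have h9 := VN831.luckDim_le (G := G) (M := M) 0 (fun k e he f hf => ?_)
  · simpa using h9
  have h0 : e = 0 := by
    ext1 a b
    have hrow : (e a) ∈ VN831.rowMod e := by
      show Matrix.vecMul (e a) e = e a
      funext c
      exact congrFun (congrFun he a) c
    obtain ⟨s, hs, hs0⟩ := h (f ⟨e a, hrow⟩)
    have h1 : s • (⟨e a, hrow⟩ : VN831.rowMod e) = 0 :=
      hf (((f.map_smul s _).trans hs0).trans f.map_zero.symm)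
    have h2 : s * e a b = 0 := congrFun (congrArg Subtype.val h1) b
    exact (Pool.Agent.RK.Nz.nz_iff vn_NG s).1 hs _ h2
  rw [h0]
  unfold Tr
  simp

section vec

variable {G : Type} [Group G] (C : GCx G)

/-- the index of a cell -/
def cell (n : ℕ) (k : Fin (C.toFree.rank n)) : C.ι := ((Fintype.equivFin {i : C.ι // C.deg i = n}).symm k).1

theorem cell_deg (n : ℕ) (k : Fin (C.toFree.rank n)) : C.deg (cell C n k) = n :=
  ((Fintype.equivFin {i : C.ι // C.deg i = n}).symm k).2

theorem exists_cell {n : ℕ} {x : C.ι} (h : C.deg x = n) : ∃ k, cell C n k = x :=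
  ⟨Fintype.equivFin {i : C.ι // C.deg i = n} ⟨x, h⟩, by unfold cell; rw [Equiv.symm_apply_apply]⟩

theorem cell_inj (n : ℕ) : Function.Injective (cell C n) :=
  fun _ _ h => (Fintype.equivFin {i : C.ι // C.deg i = n}).symm.injective (Subtype.ext h)

theorem sum_cell (n : ℕ) {M : Type} [AddCommMonoid M] (F : C.ι → M) (hF : ∀ x, C.deg x ≠ n → F x = 0) :
    ∑ k, F (cell C n k) = ∑ x, F x := by
  rw [← sum_deg C.deg n F hF]
  exact (Fintype.equivFin {i : C.ι // C.deg i = n}).symm.sum_comp (fun x => F x.1)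

theorem d_apply (n : ℕ) (a : Fin (C.toFree.rank (n + 1))) (b : Fin (C.toFree.rank n)) :
    C.toFree.d n a b = C.D (cell C (n + 1) a) (cell C n b) := rfl

end vec

end FinAux

open FinAux

theorem final (hres : RES) : FINAL := by
  classical
  intro V _ _ G K n hK H
  obtain ⟨ε, h1, h2, h3, h4⟩ := hres V G
  let C : V7N.FreeRes (th G).ker := ⟨(davis G).toFree.rank, (davis G).toFree.d, ε, h1, h2, h3, h4⟩
  let i : K →* (th G).ker := Subgroup.inclusion hK
  have hi : Function.Injective i := Subgroup.inclusion_injective hK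
  let j := Pool.Agent.Helper277.VN5.jN K
  let cW : (th G).ker →* NG (W G) := (canL : W G →* NG (W G)).comp (th G).ker.subtype
  have hc : ∀ k : K, j (canL k) = cW (i k) := fun k => Pool.Agent.Helper277.VN5.jN_canL K k
  have hind : VN831.CosetIndep j cW i.range := by
    intro s hs x hx g hg
    let x' : W G → NG K := fun w => if h : w ∈ (th G).ker then x ⟨w, h⟩ else 0
    have hx' : ∀ g : (th G).ker, x' g = x g := fun g => dif_pos g.2
    have h5 := Pool.Agent.Helper277.VN5.jN_indep K (s.map (Function.Embedding.subtype _)) x' ?_ ?_ (g : W G)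
      (Finset.mem_map_of_mem _ hg)
    · rw [← hx' g]
      exact h5
    · intro y hy y' hy' hne hmem
      obtain ⟨a, ha, rfl⟩ := Finset.mem_map.1 hy
      obtain ⟨a', ha', rfl⟩ := Finset.mem_map.1 hy'
      refine hs a ha a' ha' (fun h => hne (by rw [h])) ⟨⟨_, hmem⟩, ?_⟩
      exact Subtype.ext rfl
    · rw [Finset.sum_map, ← hx]
      refine Finset.sum_congr rfl fun g _ => ?_
      show j (x' g) * _ = _
      rw [hx' g]
      rfl
  obtain ⟨f⟩ := V7N.v7_succ C n i hi (canL : K →* NG K) cW j hc hind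
  have f' : VN831.homN K (n + 1) ≃ₗ[NG K] VN831.HR j cW (((davis G).toFree.d (n + 1)).map (V7N.evM cW))
    (((davis G).toFree.d n).map (V7N.evM cW)) := f
  show VN831.luckDim K (VN831.homN K (n + 1)) = 0
  rw [VN831.luckDim_congr f']
  refine luck_zero (tors hi hc hind _ _ Nz fun v hv => ?_)
  let v' : (davis G).ι → (th G).ker → NG K := fun x => if h : ∃ k, cell (davis G) (n + 1) k = x then (v h.choose).1
    else 0
  have hv1 : ∀ k, v' (cell (davis G) (n + 1) k) = (v k).1 := by
    intro k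
    have h : ∃ k', cell (davis G) (n + 1) k' = cell (davis G) (n + 1) k := ⟨k, rfl⟩
    have h5 : v' (cell (davis G) (n + 1) k) = (v h.choose).1 := dif_pos h
    rw [h5, cell_inj _ _ h.choose_spec]
  have hv0 : ∀ x, (davis G).deg x ≠ n + 1 → v' x = 0 := by
    intro x hx
    refine dif_neg ?_
    rintro ⟨k, rfl⟩
    exact hx (cell_deg _ _ k)
  have hFV : FV K (canL : K →* NG K) (n + 1) v' := by
    refine ⟨hv0, fun x h g g' hg => ?_, ?_⟩
    · by_cases hx : (davis G).deg x = n + 1
      · obtain ⟨k, rfl⟩ := exists_cell _ hx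
        have h5 : g' = i h * g := Subtype.ext hg
        rw [hv1, h5]
        exact (v k).2.eq h g
      · rw [hv0 x hx]
        exact (zero_mul _).symm
    · have h5 : ∀ k, ∃ T : Finset (th G).ker, ∀ g, (v k).1 g ≠ 0 → ∃ h : K, ∃ x ∈ T, g = i h * x :=
        fun k => (v k).2.fin
      choose T hT using h5
      refine ⟨Finset.univ.biUnion T, fun x g hg => ?_⟩
      by_cases hx : (davis G).deg x = n + 1
      · obtain ⟨k, rfl⟩ := exists_cell _ hx
        rw [hv1] at hg
        obtain ⟨h, y, hy, e⟩ := hT k g hg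
        exact ⟨h, y, Finset.mem_biUnion.2 ⟨k, Finset.mem_univ k, hy⟩, congrArg Subtype.val e⟩
      · exact absurd (congrFun (hv0 x hx) g) hg
  have hcyc : mulD v' = 0 := by
    funext y g
    by_cases hy : (davis G).deg y = n
    · obtain ⟨l, rfl⟩ := exists_cell _ hy
      have h5 := congrFun (congrArg Subtype.val (hv l)) g
      rw [Submodule.coe_sum, Finset.sum_apply] at h5
      refine Eq.trans ?_ h5
      unfold mulD
      rw [← sum_cell (davis G) (n + 1)]
      · refine Finset.sum_congr rfl fun k _ => ?_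
        rw [act_apply, hv1, d_apply]
      · intro x hx
        rw [hv0 x hx]
        simp
    · refine Finset.sum_eq_zero fun x _ => ?_
      by_cases hx : (davis G).deg x = n + 1
      · have h5 : (davis G).D x y = 0 := by
          by_contra h5
          have := (davis G).D_deg x y h5
          omega
        rw [h5]
        simp
      · rw [hv0 x hx]
        simp
  obtain ⟨s, hs, e, he, hse⟩ := H v' hFV hcyc
  refine ⟨s, hs, fun m => ⟨e (cell (davis G) (n + 1 + 1) m), ?_⟩, fun k => ?_⟩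
  · refine ⟨fun h g => he.eqK _ h g _ rfl, ?_⟩
    obtain ⟨T, hT⟩ := he.fin
    refine ⟨T, fun g hg => ?_⟩
    obtain ⟨h, x, hx, e1⟩ := hT _ g hg
    exact ⟨h, x, hx, Subtype.ext e1⟩
  · apply Subtype.ext
    funext g
    rw [Submodule.coe_sum, Finset.sum_apply]
    have h5 := congrFun (congrFun hse (cell (davis G) (n + 1) k)) g
    have h6 : s * v' (cell (davis G) (n + 1) k) g = (s • v k).1 g := by
      rw [hv1]
      rfl
    refine Eq.trans ?_ (h5.trans h6)
    unfold mulD
    rw [← sum_cell (davis G) (n + 1 + 1)]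
    · refine Finset.sum_congr rfl fun m _ => ?_
      rw [act_apply, d_apply]
    · intro x hx
      rw [he.deg x hx]
      simp

end Pool.Agent.N496.CV
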