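import Mathlib

set_option autoImplicit false

/-! Abstract finite von Neumann algebras (used in the proof of MP_f08bf1_al):
`R` is a star ring with a faithful normalised trace `τ` (in applications the real part of the
trace), such that every rectangular matrix has a left support projection, and the left and the
right support have the same trace. -/

namespace Pool.Agent.RK

open Matrix

/-- Trace of a square matrix. -/
def Tr {R : Type} [Ring R] (τ : R →+ ℝ) {m : Type} [Fintype m] (A : Matrix m m R) : ℝ :=
  ∑ i, τ (A i i)

/-- `p` is the left support projection (the projection onto the closure of the range) of `A`. -/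
structure IsLP {R : Type} [Ring R] [StarRing R] {m n : Type} [Fintype m] [Fintype n]
    (A : Matrix m n R) (p : Matrix m m R) : Prop where
  idem : p * p = p
  star : pᴴ = p
  mul : p * A = A
  min : ∀ x : m → R, Matrix.vecMul x A = 0 → Matrix.vecMul x p = 0

/-- The axioms of a finite von Neumann algebra with trace `τ`. -/
structure VN (R : Type) [Ring R] [StarRing R] (τ : R →+ ℝ) : Prop where
  comm : ∀ x y, τ (x * y) = τ (y * x)
  one : τ 1 = 1
  nonneg : ∀ x, 0 ≤ τ (star x * x)
  faithful : ∀ x, τ (star x * x) = 0 → x = 0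
  lp : ∀ (m n : ℕ) (A : Matrix (Fin m) (Fin n) R), ∃ p, IsLP A p
  lp_tr : ∀ (m n : ℕ) (A : Matrix (Fin m) (Fin n) R) (p : Matrix (Fin m) (Fin m) R)
    (q : Matrix (Fin n) (Fin n) R), IsLP A p → IsLP Aᴴ q → Tr τ p = Tr τ q

/-- Rank of a rectangular matrix: the trace of its left support projection. -/
noncomputable def rk {R : Type} [Ring R] [StarRing R] (τ : R →+ ℝ) {m n : Type} [Fintype m]
    [Fintype n] (A : Matrix m n R) : ℝ :=
  open Classical in if h : ∃ p, IsLP A p then Tr τ h.choose else 0

/-- `s` is not a right zero divisor: `x s = 0` only for `x = 0`. -/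
def Nz {R : Type} [Ring R] (s : R) : Prop := ∀ x : R, x * s = 0 → x = 0

/-- `ι : R → U` is the localisation of `R` at its non zero divisors (left and right fractions). -/
structure Loc {R U : Type} [Ring R] [Ring U] (ι : R →+* U) : Prop where
  inj : Function.Injective ι
  unit : ∀ s : R, Nz s → IsUnit (ι s)
  left : ∀ y : U, ∃ s x : R, Nz s ∧ ι s * y = ι x
  right : ∀ y : U, ∃ s x : R, Nz s ∧ y * ι s = ι x

/-- Rank of a matrix over the localisation. -/
noncomputable def rkU {R U : Type} [Ring R] [StarRing R] [Ring U] (τ : R →+ ℝ) (ι : R →+* U)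
    {m n : Type} [Fintype m] [Fintype n] (X : Matrix m n U) : ℝ :=
  open Classical in
    if h : ∃ (s : R) (A : Matrix m n R), Nz s ∧ ∀ i j, X i j * ι s = ι (A i j)
    then rk τ h.choose_spec.choose else 0

/-- The elements `b A⁻¹ c` where `A` is a square matrix over `Λ` that is invertible over `U`, and
`b`, `c` are a row and a column over `Λ`. -/
def ratSet {Λ U : Type} [Ring Λ] [Ring U] (κ : Λ →+* U) : Set U :=
  {x | ∃ (n : ℕ) (A : Matrix (Fin n) (Fin n) Λ) (B : Matrix (Fin n) (Fin n) U)
    (b c : Fin n → Λ), A.map κ * B = 1 ∧ B * A.map κ = 1 ∧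
      x = ∑ i, ∑ j, κ (b i) * B i j * κ (c j)}

end Pool.Agent.RK
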