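import Mathlib

/-!
(Copied from helper325.) A combinatorial proof of the Borsuk-Ulam theorem: an odd continuous map from `ℝ^(m+1)` to `ℝ^m`
vanishes somewhere on the surface of the cross polytope.  Chains are formal sums over the field with
two elements of lists of points.
-/

namespace Pool.Agent.Helper133.BU

set_option linter.unusedSectionVars false

open Finsupp

section Algebra

variable {V : Type*}

abbrev Chain (V : Type*) := List V →₀ ZMod 2

theorem add_self (c : Chain V) : c + c = 0 := by
  ext l
  simp only [Finsupp.coe_add, Pi.add_apply, Finsupp.coe_zero, Pi.zero_apply]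
  exact CharTwo.add_self_eq_zero _

noncomputable def cone (v : V) : Chain V →ₗ[ZMod 2] Chain V :=
  Finsupp.lmapDomain (ZMod 2) (ZMod 2) (List.cons v)

theorem cone_single (v : V) (l : List V) (c : ZMod 2) :
    cone v (single l c) = single (v :: l) c := by
  simp [cone]

noncomputable def bdL : List V → Chain V
  | [] => 0
  | v :: l => single l 1 + cone v (bdL l)

noncomputable def bd : Chain V →ₗ[ZMod 2] Chain V := Finsupp.linearCombination (ZMod 2) bdL

theorem bd_single (l : List V) (a : ZMod 2) : bd (single l a) = a • bdL l := by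
  simp [bd]

theorem bd_cone (v : V) (c : Chain V) : bd (cone v c) = c + cone v (bd c) := by
  induction c using Finsupp.induction_linear with
  | zero => simp
  | add f g hf hg => simp only [map_add, hf, hg]; abel
  | single l a =>
    rw [cone_single, bd_single, bd_single, bdL, smul_add, map_smul]
    simp

theorem bd_bdL (l : List V) : bd (bdL l) = 0 := by
  induction l with
  | nil => simp [bdL]
  | cons v l ih =>
    rw [bdL, map_add, bd_cone, ih, bd_single, map_zero, add_zero, one_smul, add_self]

theorem bd_bd (c : Chain V) : bd (bd c) = 0 := by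
  induction c using Finsupp.induction_linear with
  | zero => simp
  | add f g hf hg => simp only [map_add, hf, hg]; simp
  | single l a => rw [bd_single, map_smul, bd_bdL, smul_zero]

/-! ### linear functionals from a sign function -/

/-- product of `s x + s y` over consecutive pairs -/
def W (s : V → ZMod 2) : List V → ZMod 2
  | [] => 0
  | [_] => 1
  | x :: y :: t => (s x + s y) * W s (y :: t)

def al (s : V → ZMod 2) : List V → ZMod 2
  | [] => 1
  | x :: t => s x * W s (x :: t)

noncomputable def Wc (s : V → ZMod 2) : Chain V →ₗ[ZMod 2] ZMod 2 :=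
  Finsupp.linearCombination (ZMod 2) (W s)

noncomputable def alc (s : V → ZMod 2) : Chain V →ₗ[ZMod 2] ZMod 2 :=
  Finsupp.linearCombination (ZMod 2) (al s)

theorem z2_add_self (x : ZMod 2) : x + x = 0 := CharTwo.add_self_eq_zero x

theorem z2_sq (x : ZMod 2) : x * x = x := by
  revert x; decide

theorem Wc_cone_cone (s : V → ZMod 2) (x y : V) (c : Chain V) :
    Wc s (cone x (cone y c)) = (s x + s y) * Wc s (cone y c) := by
  induction c using Finsupp.induction_linear with
  | zero => simp
  | add f g hf hg => simp only [map_add, hf, hg]; ring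
  | single l a =>
    rw [cone_single, cone_single]
    simp only [Wc, Finsupp.linearCombination_single, smul_eq_mul, W]
    ring

theorem alc_cone_cone (s : V → ZMod 2) (x y : V) (c : Chain V) :
    alc s (cone x (cone y c)) = s x * (s x + s y) * Wc s (cone y c) := by
  induction c using Finsupp.induction_linear with
  | zero => simp
  | add f g hf hg => simp only [map_add, hf, hg]; ring
  | single l a =>
    rw [cone_single, cone_single]
    simp only [Wc, alc, Finsupp.linearCombination_single, smul_eq_mul, W, al]
    ring

theorem Wc_single (s : V → ZMod 2) (l : List V) (a : ZMod 2) : Wc s (single l a) = a * W s l := by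
  simp [Wc]

theorem alc_single (s : V → ZMod 2) (l : List V) (a : ZMod 2) :
    alc s (single l a) = a * al s l := by
  simp [alc]

theorem Wc_bdL (s : V → ZMod 2) (l : List V) : Wc s (bdL l) = 0 := by
  induction l with
  | nil => simp [bdL]
  | cons x l ih =>
    cases l with
    | nil => simp [bdL, Wc_single, W]
    | cons y t =>
      have h1 : Wc s (cone y (bdL t)) = W s t := by
        rw [bdL, map_add, Wc_single, one_mul] at ih
        calc Wc s (cone y (bdL t)) = Wc s (cone y (bdL t)) + 0 := by ring
          _ = Wc s (cone y (bdL t)) + (W s t + W s t) := by rw [z2_add_self]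
          _ = (W s t + Wc s (cone y (bdL t))) + W s t := by ring
          _ = W s t := by rw [ih]; ring
      rw [bdL, bdL, map_add, map_add, map_add, Wc_cone_cone, h1, Wc_single, cone_single, Wc_single]
      cases t with
      | nil => simp [W]; exact z2_add_self 1
      | cons z u =>
        simp only [W, one_mul]
        have h2 := z2_add_self (s x * W s (z :: u))
        have h3 := z2_add_self (s y * W s (z :: u))
        have h4 := z2_add_self (s z * W s (z :: u))
        linear_combination h2 + h3 + h4

theorem alc_bdL (s : V → ZMod 2) (l : List V) : alc s (bdL l) = W s l := by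
  cases l with
  | nil => simp [bdL, W]
  | cons x l =>
    cases l with
    | nil => simp [bdL, alc_single, al, W]
    | cons y t =>
      have h1 : Wc s (cone y (bdL t)) = W s t := by
        have ih := Wc_bdL s (y :: t)
        rw [bdL, map_add, Wc_single, one_mul] at ih
        calc Wc s (cone y (bdL t)) = Wc s (cone y (bdL t)) + 0 := by ring
          _ = Wc s (cone y (bdL t)) + (W s t + W s t) := by rw [z2_add_self]
          _ = (W s t + Wc s (cone y (bdL t))) + W s t := by ring
          _ = W s t := by rw [ih]; ring
      rw [bdL, bdL, map_add, map_add, map_add, alc_cone_cone, h1, alc_single, cone_single,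
        alc_single]
      cases t with
      | nil => simp [W, al]; ring
      | cons z u =>
        simp only [W, al, one_mul]
        have h2 := z2_add_self (s x * s x * W s (z :: u))
        linear_combination h2

theorem alc_bd (s : V → ZMod 2) (c : Chain V) : alc s (bd c) = Wc s c := by
  induction c using Finsupp.induction_linear with
  | zero => simp
  | add f g hf hg => simp only [map_add, hf, hg]
  | single l a => rw [bd_single, map_smul, alc_bdL, Wc_single, smul_eq_mul]

/-! ### sorting by labels -/

noncomputable def sortC (a : V → ℕ) : Chain V →ₗ[ZMod 2] Chain V :=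
  Finsupp.lmapDomain (ZMod 2) (ZMod 2) (List.insertionSort (fun x y => a x ≤ a y))

noncomputable def insC (a : V → ℕ) (v : V) : Chain V →ₗ[ZMod 2] Chain V :=
  Finsupp.lmapDomain (ZMod 2) (ZMod 2) (List.orderedInsert (fun x y => a x ≤ a y) v)

theorem sortC_single (a : V → ℕ) (l : List V) (c : ZMod 2) :
    sortC a (single l c) = single (l.insertionSort (fun x y => a x ≤ a y)) c := by
  simp [sortC]

theorem insC_single (a : V → ℕ) (v : V) (l : List V) (c : ZMod 2) :
    insC a v (single l c) = single (l.orderedInsert (fun x y => a x ≤ a y) v) c := by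
  simp [insC]

theorem insC_cone_of_not_le (a : V → ℕ) (v x : V) (h : ¬ a v ≤ a x) (c : Chain V) :
    insC a v (cone x c) = cone x (insC a v c) := by
  induction c using Finsupp.induction_linear with
  | zero => simp
  | add f g hf hg => simp only [map_add, hf, hg]
  | single l b =>
    rw [cone_single, insC_single, insC_single, cone_single]
    simp [List.orderedInsert, h]

/-- on lists all of whose entries dominate `v`, inserting is the same as coning -/
theorem insC_of_le (a : V → ℕ) (v : V) (l : List V) (h : ∀ x ∈ l, a v ≤ a x) :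
    insC a v (bdL l) = cone v (bdL l) ∧ insC a v (single l 1) = cone v (single l 1) := by
  have hins : ∀ l : List V, (∀ x ∈ l, a v ≤ a x) →
      l.orderedInsert (fun x y => a x ≤ a y) v = v :: l := by
    intro l hl
    cases l with
    | nil => rfl
    | cons x t => simp [List.orderedInsert, hl x (by simp)]
  refine ⟨?_, by rw [insC_single, cone_single, hins l h]⟩
  -- stronger statement: for a prefix of cones
  have key : ∀ (l : List V) (p : List V), (∀ x ∈ p, a v ≤ a x) → (∀ x ∈ l, a v ≤ a x) →
      insC a v (p.foldr (fun x c => cone x c) (bdL l)) =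
        cone v (p.foldr (fun x c => cone x c) (bdL l)) := by
    intro l
    induction l with
    | nil =>
      intro p _ _
      have : ∀ p : List V, p.foldr (fun x c => cone x c) (bdL ([] : List V)) = 0 := by
        intro p
        induction p with
        | nil => simp [bdL]
        | cons x t ih => simp only [List.foldr_cons, ih, map_zero]
      rw [this p]; simp
    | cons x t ih =>
      intro p hp hl
      have hfold : ∀ (p : List V) (c d : Chain V),
          p.foldr (fun x c => cone x c) (c + d) =
            p.foldr (fun x c => cone x c) c + p.foldr (fun x c => cone x c) d := by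
        intro p c d
        induction p with
        | nil => rfl
        | cons z u ih => simp only [List.foldr_cons, ih, map_add]
      have hsing : ∀ (p l : List V), p.foldr (fun x c => cone x c) (single l (1 : ZMod 2)) =
          single (p ++ l) 1 := by
        intro p l
        induction p with
        | nil => rfl
        | cons z u ih => simp only [List.foldr_cons, ih, cone_single, List.cons_append]
      have happ : p.foldr (fun x c => cone x c) (cone x (bdL t)) =
          (p ++ [x]).foldr (fun x c => cone x c) (bdL t) := by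
        simp [List.foldr_append]
      rw [bdL, hfold, hsing, map_add, map_add, happ,
        ih (p ++ [x]) (by
          intro z hz
          rcases List.mem_append.mp hz with h | h
          · exact hp z h
          · rw [List.mem_singleton] at h; subst h; exact hl z (by simp)) (by
          intro z hz; exact hl z (by simp [hz])), insC_single, cone_single,
        hins (p ++ t) (by
          intro z hz
          rcases List.mem_append.mp hz with h | h
          · exact hp z h
          · exact hl z (by simp [h]))]
  exact key l [] (by simp) h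

theorem bdL_orderedInsert (a : V → ℕ) (v : V) (l : List V)
    (hl : l.Pairwise (fun x y => a x ≤ a y)) :
    bdL (l.orderedInsert (fun x y => a x ≤ a y) v) = single l 1 + insC a v (bdL l) := by
  induction l with
  | nil => simp [bdL]
  | cons x t ih =>
    by_cases h : a v ≤ a x
    · have hall : ∀ y ∈ x :: t, a v ≤ a y := by
        intro y hy
        rcases List.mem_cons.mp hy with rfl | hy
        · exact h
        · exact h.trans (List.rel_of_pairwise_cons hl hy)
      have : (x :: t).orderedInsert (fun x y => a x ≤ a y) v = v :: x :: t := by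
        simp [List.orderedInsert, h]
      rw [this, (insC_of_le a v (x :: t) hall).1, bdL]
    · have : (x :: t).orderedInsert (fun x y => a x ≤ a y) v =
          x :: t.orderedInsert (fun x y => a x ≤ a y) v := by
        simp [List.orderedInsert, h]
      rw [this, bdL, ih hl.of_cons, bdL, map_add, map_add, insC_cone_of_not_le a v x h,
        cone_single, insC_single]
      abel

theorem sortC_cone (a : V → ℕ) (v : V) (c : Chain V) :
    sortC a (cone v c) = insC a v (sortC a c) := by
  induction c using Finsupp.induction_linear with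
  | zero => simp
  | add f g hf hg => simp only [map_add, hf, hg]
  | single l b =>
    rw [cone_single, sortC_single, sortC_single, insC_single, List.insertionSort_cons]

theorem bd_sortC_single (a : V → ℕ) (l : List V) :
    bdL (l.insertionSort (fun x y => a x ≤ a y)) = sortC a (bdL l) := by
  have hp : ∀ l : List V, (l.insertionSort (fun x y => a x ≤ a y)).Pairwise
      (fun x y => a x ≤ a y) := by
    intro l
    have : Std.Total (fun x y : V => a x ≤ a y) := ⟨fun x y => le_total (a x) (a y)⟩
    have : IsTrans V (fun x y : V => a x ≤ a y) := ⟨fun x y z => le_trans⟩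
    exact List.pairwise_insertionSort _ l
  induction l with
  | nil => simp [bdL]
  | cons v l ih =>
    rw [List.insertionSort_cons, bdL_orderedInsert a v _ (hp l), ih, bdL, map_add, sortC_single,
      sortC_cone]

theorem bd_sortC (a : V → ℕ) (c : Chain V) : bd (sortC a c) = sortC a (bd c) := by
  induction c using Finsupp.induction_linear with
  | zero => simp
  | add f g hf hg => simp only [map_add, hf, hg]
  | single l b =>
    rw [sortC_single, bd_single, bd_single, map_smul, bd_sortC_single]

end Algebra

section Supports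

variable {V : Type*}

/-- chains supported on lists with property `P` -/
def S (P : List V → Prop) : Submodule (ZMod 2) (Chain V) :=
  Finsupp.supported (ZMod 2) (ZMod 2) {l | P l}

theorem single_mem_S {P : List V → Prop} {l : List V} (h : P l) (a : ZMod 2) :
    single l a ∈ S P :=
  Finsupp.single_mem_supported (ZMod 2) a h

theorem S_eq_span (P : List V → Prop) :
    S P = Submodule.span (ZMod 2) ((fun l => single l (1 : ZMod 2)) '' {l | P l}) :=
  Finsupp.supported_eq_span_single (ZMod 2) _

theorem lin_eq_zero {M : Type*} [AddCommGroup M] [Module (ZMod 2) M]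
    (T : Chain V →ₗ[ZMod 2] M) {P : List V → Prop} (h : ∀ l, P l → T (single l 1) = 0)
    {c : Chain V} (hc : c ∈ S P) : T c = 0 := by
  have : S P ≤ LinearMap.ker T := by
    rw [S_eq_span, Submodule.span_le]
    rintro _ ⟨l, hl, rfl⟩
    exact h l hl
  exact this hc

theorem lin_mem (T : Chain V →ₗ[ZMod 2] Chain V) {P Q : List V → Prop}
    (h : ∀ l, P l → T (single l 1) ∈ S Q) {c : Chain V} (hc : c ∈ S P) : T c ∈ S Q := by
  have : S P ≤ (S Q).comap T := by
    rw [S_eq_span, Submodule.span_le]
    rintro _ ⟨l, hl, rfl⟩
    exact h l hl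
  exact this hc

theorem S_mono {P Q : List V → Prop} (h : ∀ l, P l → Q l) {c : Chain V} (hc : c ∈ S P) :
    c ∈ S Q :=
  lin_mem LinearMap.id (fun l hl => by simpa using single_mem_S (h l hl) 1) hc

theorem cone_mem_S {P Q : List V → Prop} (v : V) (h : ∀ l, P l → Q (v :: l)) {c : Chain V}
    (hc : c ∈ S P) : cone v c ∈ S Q :=
  lin_mem (cone v) (fun l hl => by rw [cone_single]; exact single_mem_S (h l hl) 1) hc

theorem bdL_mem_S (l : List V) : bdL l ∈ S (fun l' => l'.length + 1 = l.length ∧ l' ⊆ l) := by
  induction l with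
  | nil => exact Submodule.zero_mem _
  | cons x t ih =>
    rw [bdL]
    refine Submodule.add_mem _ (single_mem_S ?_ 1) (cone_mem_S x ?_ ih)
    · exact ⟨by simp, List.subset_cons_self x t⟩
    · rintro l' ⟨h1, h2⟩
      exact ⟨by simp [h1], List.cons_subset_cons x h2⟩

end Supports

section Negation

variable {V : Type*} [AddCommGroup V] [Module ℝ V]

noncomputable def nu : Chain V →ₗ[ZMod 2] Chain V :=
  Finsupp.lmapDomain (ZMod 2) (ZMod 2) (List.map (fun v => -v))

theorem nu_single (l : List V) (c : ZMod 2) :
    nu (single l c) = single (l.map (fun v => -v)) c := by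
  simp [nu]

theorem nu_cone (v : V) (c : Chain V) : nu (cone v c) = cone (-v) (nu c) := by
  induction c using Finsupp.induction_linear with
  | zero => simp
  | add f g hf hg => simp only [map_add, hf, hg]
  | single l b => rw [cone_single, nu_single, nu_single, cone_single, List.map_cons]

theorem nu_bdL (l : List V) : nu (bdL l) = bdL (l.map (fun v => -v)) := by
  induction l with
  | nil => simp [bdL]
  | cons v l ih =>
    rw [bdL, map_add, nu_single, nu_cone, ih, List.map_cons, bdL]

theorem nu_bd (c : Chain V) : nu (bd c) = bd (nu c) := by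
  induction c using Finsupp.induction_linear with
  | zero => simp
  | add f g hf hg => simp only [map_add, hf, hg]
  | single l b => rw [bd_single, map_smul, nu_bdL, nu_single, bd_single]

noncomputable def bary (l : List V) : V := (l.length : ℝ)⁻¹ • l.sum

theorem bary_neg (l : List V) : bary (l.map (fun v => -v)) = - bary l := by
  have : (l.map (fun v => -v)).sum = - l.sum := by
    induction l with
    | nil => simp
    | cons x t ih => simp [ih]; abel
  simp [bary, this]

/-- barycentric subdivision on lists of length `n` -/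
noncomputable def sub : ℕ → (Chain V →ₗ[ZMod 2] Chain V)
  | 0 => LinearMap.id
  | n + 1 => Finsupp.linearCombination (ZMod 2) (fun l => cone (bary l) (sub n (bdL l)))

theorem sub_succ_single (n : ℕ) (l : List V) (a : ZMod 2) :
    sub (n + 1) (single l a) = a • cone (bary l) (sub n (bdL l)) := by
  simp [sub]

theorem bd_sub (n : ℕ) (c : Chain V) : bd (sub (n + 1) c) = sub n (bd c) := by
  induction n generalizing c with
  | zero =>
    induction c using Finsupp.induction_linear with
    | zero => simp
    | add f g hf hg => simp only [map_add, hf, hg]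
    | single l a =>
      rw [sub_succ_single, map_smul, bd_cone, bd_single]
      simp [sub, bd_bdL]
  | succ n ih =>
    induction c using Finsupp.induction_linear with
    | zero => simp
    | add f g hf hg => simp only [map_add, hf, hg]
    | single l a =>
      rw [sub_succ_single, map_smul, bd_cone, ih, bd_bdL, map_zero, map_zero, add_zero, bd_single,
        map_smul]

theorem nu_sub (n : ℕ) (c : Chain V) : nu (sub n c) = sub n (nu c) := by
  induction n generalizing c with
  | zero => rfl
  | succ n ih =>
    induction c using Finsupp.induction_linear with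
    | zero => simp
    | add f g hf hg => simp only [map_add, hf, hg]
    | single l a =>
      rw [sub_succ_single, map_smul, nu_cone, ih, nu_bdL, nu_single, sub_succ_single, bary_neg]

/-! ### the cross polytope -/

noncomputable def z (e : ℕ → V) : ℕ → Chain V
  | 0 => single [] 1
  | k + 1 => cone (e k) (z e k) + cone (-(e k)) (z e k)

noncomputable def h (e : ℕ → V) (k : ℕ) : Chain V := cone (e k) (z e k)

theorem nu_z (e : ℕ → V) (k : ℕ) : nu (z e k) = z e k := by
  induction k with
  | zero => simp [z, nu_single]
  | succ k ih => rw [z, map_add, nu_cone, nu_cone, ih, neg_neg]; abel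

theorem bd_z (e : ℕ → V) (k : ℕ) : bd (z e k) = 0 := by
  induction k with
  | zero => simp [z, bd_single, bdL]
  | succ k ih =>
    rw [z, map_add, bd_cone, bd_cone, ih, map_zero, map_zero, add_zero, add_self]

theorem bd_h (e : ℕ → V) (k : ℕ) : bd (h e k) = z e k := by
  rw [h, bd_cone, bd_z, map_zero, add_zero]

theorem z_succ (e : ℕ → V) (k : ℕ) : z e (k + 1) = h e k + nu (h e k) := by
  rw [z, h, nu_cone, nu_z]

noncomputable def H (e : ℕ → V) (r k : ℕ) : Chain V := (sub (k + 1))^[r] (h e k)

theorem bd_iter (r k : ℕ) (c : Chain V) : bd ((sub (k + 1))^[r] c) = (sub k)^[r] (bd c) := by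
  induction r generalizing c with
  | zero => rfl
  | succ r ih => rw [Function.iterate_succ_apply, ih, bd_sub, Function.iterate_succ_apply]

theorem nu_iter (r k : ℕ) (c : Chain V) : nu ((sub k)^[r] c) = (sub k)^[r] (nu c) := by
  induction r generalizing c with
  | zero => rfl
  | succ r ih => rw [Function.iterate_succ_apply, ih, nu_sub, Function.iterate_succ_apply]

theorem add_iter (r k : ℕ) (c d : Chain V) :
    (sub k)^[r] (c + d) = (sub k)^[r] c + (sub k)^[r] d := by
  induction r generalizing c d with
  | zero => rfl
  | succ r ih => rw [Function.iterate_succ_apply, map_add, ih, Function.iterate_succ_apply,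
      Function.iterate_succ_apply]

theorem bd_H_succ (e : ℕ → V) (r k : ℕ) : bd (H e r (k + 1)) = H e r k + nu (H e r k) := by
  rw [H, bd_iter, bd_h, z_succ, add_iter, H, nu_iter]

theorem bd_H_zero (e : ℕ → V) (r : ℕ) : bd (H e r 0) = single [] 1 := by
  rw [H, bd_iter, bd_h, z]
  have : ∀ c : Chain V, (sub 0)^[r] c = c := by
    intro c
    induction r with
    | zero => rfl
    | succ r ih => rw [Function.iterate_succ_apply', ih]; rfl
  exact this _

theorem al_neg (s : V → ZMod 2) (l : List V) (hs : ∀ v ∈ l, s (-v) = s v + 1) :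
    al s l + al s (l.map (fun v => -v)) = W s l := by
  have hW : ∀ l : List V, (∀ v ∈ l, s (-v) = s v + 1) → W s (l.map (fun v => -v)) = W s l := by
    intro l
    induction l with
    | nil => intro _; rfl
    | cons x l ih =>
      intro hl
      cases l with
      | nil => rfl
      | cons y t =>
        have h1 := ih (fun v hv => hl v (List.mem_cons_of_mem _ hv))
        simp only [List.map_cons, W] at h1 ⊢
        rw [h1, hl x (by simp), hl y (by simp)]
        have := z2_add_self (1 : ZMod 2)
        linear_combination (W s (y :: t)) * this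
  cases l with
  | nil => simp [al, W]; exact z2_add_self 1
  | cons x t =>
    have h1 := hW (x :: t) hs
    simp only [List.map_cons] at h1
    simp only [al, List.map_cons]
    rw [h1, hs x (by simp)]
    have := z2_add_self (s x * W s (x :: t))
    linear_combination this

theorem alc_nu (s : V → ZMod 2) {c : Chain V}
    (hc : c ∈ S (fun l : List V => ∀ v ∈ l, s (-v) = s v + 1)) :
    alc s (c + nu c) = Wc s c := by
  have := lin_eq_zero (alc s + (alc s).comp nu - Wc s) (P := fun l : List V =>
    ∀ v ∈ l, s (-v) = s v + 1) (by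
      intro l hl
      simp only [LinearMap.sub_apply, LinearMap.add_apply, LinearMap.comp_apply, nu_single,
        alc_single, Wc_single, one_mul]
      rw [al_neg s l hl, sub_self]) hc
  simp only [LinearMap.sub_apply, LinearMap.add_apply, LinearMap.comp_apply] at this
  rw [map_add]
  exact sub_eq_zero.mp this

theorem sortC_nu (a : V → ℕ) (ha : ∀ v, a (-v) = a v) (c : Chain V) :
    sortC a (nu c) = nu (sortC a c) := by
  induction c using Finsupp.induction_linear with
  | zero => simp
  | add f g hf hg => simp only [map_add, hf, hg]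
  | single l b =>
    rw [nu_single, sortC_single, sortC_single, nu_single]
    congr 1
    exact (List.map_insertionSort (r := fun x y => a x ≤ a y) (s := fun x y => a x ≤ a y)
      (fun v => -v) l (fun x _ y _ => by rw [ha, ha])).symm

theorem sortC_mem (a : V → ℕ) {P : V → Prop} {c : Chain V}
    (hc : c ∈ S (fun l : List V => ∀ v ∈ l, P v)) :
    sortC a c ∈ S (fun l : List V => ∀ v ∈ l, P v) := by
  refine lin_mem (sortC a) (fun l hl => ?_) hc
  rw [sortC_single]
  refine single_mem_S ?_ 1
  intro v hv
  exact hl v ((List.mem_insertionSort _).mp hv)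

/-- the parity invariant -/
theorem Wc_sort_H (e : ℕ → V) (r : ℕ) (a : V → ℕ) (ha : ∀ v, a (-v) = a v) (s : V → ZMod 2)
    (n : ℕ) (hs : ∀ k ≤ n, H e r k ∈ S (fun l : List V => ∀ v ∈ l, s (-v) = s v + 1)) :
    Wc s (sortC a (H e r n)) = 1 := by
  induction n with
  | zero => rw [← alc_bd, bd_sortC, bd_H_zero, sortC_single, alc_single]; simp [al]
  | succ n ih =>
    rw [← alc_bd, bd_sortC, bd_H_succ, map_add, sortC_nu a ha, alc_nu s
      (sortC_mem a (hs n (by omega)))]
    exact ih (fun k hk => hs k (by omega))

end Negation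

section Mesh

variable {V : Type*} [NormedAddCommGroup V] [NormedSpace ℝ V]

/-- lists of `n` points of `C` with mutual distances at most `D` -/
def Good (n : ℕ) (D : ℝ) (C : Set V) (l : List V) : Prop :=
  l.length = n ∧ (∀ u ∈ l, u ∈ C) ∧ ∀ u ∈ l, ∀ v ∈ l, ‖u - v‖ ≤ D

theorem bary_mem {C : Set V} (hC : Convex ℝ C) {l : List V} (hl : l ≠ [])
    (h : ∀ u ∈ l, u ∈ C) : bary l ∈ C := by
  have hpos : 0 < l.length := List.length_pos_iff.mpr hl
  have hsum : l.sum = ∑ i : Fin l.length, l[(i : ℕ)] := by
    rw [Fin.sum_univ_getElem]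
  rw [bary, hsum, Finset.smul_sum]
  refine hC.sum_mem (fun i _ => by positivity) ?_ (fun i _ => h _ (List.getElem_mem _))
  rw [Finset.sum_const, Finset.card_univ, Fintype.card_fin, nsmul_eq_mul]
  have : (l.length : ℝ) ≠ 0 := by positivity
  exact mul_inv_cancel₀ this

theorem sum_bound (v : V) (D : ℝ) (l : List V) (h : ∀ u ∈ l, ‖u - v‖ ≤ D) :
    ‖l.sum - (l.length : ℝ) • v‖ ≤ l.length * D := by
  induction l with
  | nil => simp
  | cons x t ih =>
    have h1 := ih (fun u hu => h u (List.mem_cons_of_mem _ hu))
    have h2 := h x (by simp)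
    have : (x :: t).sum - (((x :: t).length : ℕ) : ℝ) • v =
        (x - v) + (t.sum - (t.length : ℝ) • v) := by
      simp only [List.sum_cons, List.length_cons]
      push_cast
      rw [add_smul, one_smul]
      abel
    rw [this]
    calc ‖(x - v) + (t.sum - (t.length : ℝ) • v)‖ ≤ ‖x - v‖ + ‖t.sum - (t.length : ℝ) • v‖ :=
          norm_add_le _ _
      _ ≤ D + t.length * D := add_le_add h2 h1
      _ = ((x :: t).length : ℕ) * D := by simp only [List.length_cons]; push_cast; ring

theorem bary_dist {n : ℕ} {D : ℝ} {l : List V} (hl : l.length = n + 1)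
    (h : ∀ u ∈ l, ∀ v ∈ l, ‖u - v‖ ≤ D) {v : V} (hv : v ∈ l) :
    ‖v - bary l‖ ≤ n / (n + 1) * D := by
  classical
  have hp := List.perm_cons_erase hv
  have hsum : l.sum = v + (l.erase v).sum := by
    rw [hp.sum_eq, List.sum_cons]
  have hlen : (l.erase v).length = n := by
    have := List.length_erase_of_mem hv
    omega
  have hb := sum_bound v D (l.erase v) (fun u hu => h u (List.mem_of_mem_erase hu) v hv)
  rw [hlen] at hb
  have hn : (0 : ℝ) < n + 1 := by positivity
  have heq : bary l - v = ((n : ℝ) + 1)⁻¹ • ((l.erase v).sum - (n : ℝ) • v) := by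
    rw [bary, hl, hsum]
    push_cast
    rw [smul_sub, smul_add, smul_smul]
    generalize (l.erase v).sum = w
    have : ((n : ℝ) + 1)⁻¹ • v + (((n : ℝ) + 1)⁻¹ * n) • v = v := by
      rw [← add_smul]
      have : ((n : ℝ) + 1)⁻¹ + ((n : ℝ) + 1)⁻¹ * n = 1 := by field_simp; ring
      rw [this, one_smul]
    calc ((n : ℝ) + 1)⁻¹ • v + ((n : ℝ) + 1)⁻¹ • w - v
        = ((n : ℝ) + 1)⁻¹ • v + ((n : ℝ) + 1)⁻¹ • w -
          (((n : ℝ) + 1)⁻¹ • v + (((n : ℝ) + 1)⁻¹ * n) • v) := by rw [this]
      _ = ((n : ℝ) + 1)⁻¹ • w - (((n : ℝ) + 1)⁻¹ * n) • v := by abel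
  rw [norm_sub_rev, heq, norm_smul, norm_inv, Real.norm_of_nonneg hn.le]
  calc ((n : ℝ) + 1)⁻¹ * ‖(l.erase v).sum - (n : ℝ) • v‖ ≤ ((n : ℝ) + 1)⁻¹ * (n * D) := by
        gcongr
    _ = n / (n + 1) * D := by ring

theorem frac_mono (n : ℕ) : (n : ℝ) / (n + 1) ≤ ((n + 1 : ℕ) : ℝ) / ((n + 1 : ℕ) + 1) := by
  rw [div_le_div_iff₀ (by positivity) (by positivity)]
  push_cast
  nlinarith

theorem sub_good (n : ℕ) : ∀ (D : ℝ) (_ : 0 ≤ D) (C : Set V) (_ : Convex ℝ C) (l : List V),
    Good n D C l → sub n (single l 1) ∈ S (Good n (n / (n + 1) * D) C) := by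
  induction n with
  | zero =>
    intro D hD C hC l hl
    have : l = [] := List.length_eq_zero_iff.mp hl.1
    subst this
    simp only [sub, LinearMap.id_coe, id_eq]
    exact single_mem_S ⟨rfl, by simp, by simp⟩ 1
  | succ n ih =>
    intro D hD C hC l hl
    obtain ⟨h1, h2, h3⟩ := hl
    have hne : l ≠ [] := by
      intro h; rw [h] at h1; simp at h1
    rw [sub_succ_single, one_smul]
    have hbC := bary_mem hC hne h2
    set C' : Set V := C ∩ Metric.closedBall (bary l) (n / (n + 1) * D) with hC'
    have hC'c : Convex ℝ C' := hC.inter (convex_closedBall _ _)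
    have hbd : bdL l ∈ S (Good n D C') := by
      refine S_mono ?_ (bdL_mem_S l)
      rintro l' ⟨hlen, hsub⟩
      refine ⟨by omega, fun u hu => ⟨h2 u (hsub hu), ?_⟩, fun u hu v hv => h3 u (hsub hu) v (hsub hv)⟩
      rw [Metric.mem_closedBall, dist_eq_norm]
      exact bary_dist h1 h3 (hsub hu)
    have hsub : sub n (bdL l) ∈ S (Good n (n / (n + 1) * D) C') :=
      lin_mem (sub n) (fun l' hl' => ih D hD C' hC'c l' hl') hbd
    refine cone_mem_S (bary l) ?_ hsub
    rintro l' ⟨k1, k2, k3⟩
    have hmono : (n : ℝ) / (n + 1) * D ≤ ((n + 1 : ℕ) : ℝ) / ((n + 1 : ℕ) + 1) * D :=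
      mul_le_mul_of_nonneg_right (frac_mono n) hD
    have hnn : 0 ≤ (n : ℝ) / (n + 1) * D := by positivity
    refine ⟨by simp [k1], ?_, ?_⟩
    · intro u hu
      rcases List.mem_cons.mp hu with rfl | hu
      · exact hbC
      · exact (k2 u hu).1
    · intro u hu v hv
      rcases List.mem_cons.mp hu with hu' | hu'
      · rcases List.mem_cons.mp hv with hv' | hv'
        · rw [hu', hv', sub_self, norm_zero]
          exact hnn.trans hmono
        · have := (k2 v hv').2
          rw [Metric.mem_closedBall, dist_eq_norm] at this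
          rw [hu', norm_sub_rev]
          exact this.trans hmono
      · rcases List.mem_cons.mp hv with hv' | hv'
        · have := (k2 u hu').2
          rw [Metric.mem_closedBall, dist_eq_norm] at this
          rw [hv']
          exact this.trans hmono
        · exact (k3 u hu' v hv').trans hmono

theorem sub_iter_good (n r : ℕ) (D : ℝ) (hD : 0 ≤ D) (C : Set V) (hC : Convex ℝ C) (c : Chain V)
    (hc : c ∈ S (Good n D C)) :
    (sub n)^[r] c ∈ S (Good n (((n : ℝ) / (n + 1)) ^ r * D) C) := by
  induction r generalizing D c with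
  | zero => simpa using hc
  | succ r ih =>
    rw [Function.iterate_succ_apply]
    have h1 : sub n c ∈ S (Good n (n / (n + 1) * D) C) :=
      lin_mem (sub n) (fun l hl => sub_good n D hD C hC l hl) hc
    have := ih (n / (n + 1) * D) (by positivity) _ h1
    rw [pow_succ, mul_assoc]
    exact this

end Mesh

section Main

theorem pairwise_of_W_ne {V : Type*} (a : V → ℕ) (s : V → ZMod 2) (l : List V)
    (hs : ∀ u ∈ l, ∀ v ∈ l, a u = a v → s u = s v)
    (hsort : l.Pairwise (fun x y => a x ≤ a y)) (hW : W s l ≠ 0) :
    l.Pairwise (fun x y => a x < a y) := by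
  induction l with
  | nil => exact List.Pairwise.nil
  | cons x t ih =>
    cases t with
    | nil => exact List.pairwise_singleton _ _
    | cons y u =>
      rw [W] at hW
      have h1 : W s (y :: u) ≠ 0 := right_ne_zero_of_mul hW
      have h2 : s x + s y ≠ 0 := left_ne_zero_of_mul hW
      have h3 := ih (fun u hu v hv => hs u (List.mem_cons_of_mem _ hu) v
        (List.mem_cons_of_mem _ hv)) hsort.of_cons h1
      have h4 : a x ≠ a y := by
        intro h
        apply h2
        rw [hs x (by simp) y (by simp) h]
        exact z2_add_self _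
      have h5 : a x ≤ a y := List.rel_of_pairwise_cons hsort (by simp)
      have h6 : a x < a y := lt_of_le_of_ne h5 h4
      refine List.pairwise_cons.mpr ⟨?_, h3⟩
      intro w hw
      rcases List.mem_cons.mp hw with rfl | hw
      · exact h6
      · exact h6.trans (List.rel_of_pairwise_cons h3 hw)

theorem W_zero {V : Type*} (m : ℕ) (a : V → ℕ) (s : V → ZMod 2) (l : List V)
    (hlen : m < l.length) (ha : ∀ v ∈ l, a v < m)
    (hs : ∀ u ∈ l, ∀ v ∈ l, a u = a v → s u = s v)
    (hsort : l.Pairwise (fun x y => a x ≤ a y)) : W s l = 0 := by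
  by_contra hW
  have hp := pairwise_of_W_ne a s l hs hsort hW
  have hnd : (l.map a).Nodup := by
    rw [List.Nodup, List.pairwise_map]
    exact hp.imp (fun h => ne_of_lt h)
  have hsub : (l.map a).toFinset ⊆ Finset.range m := by
    intro x hx
    rw [List.mem_toFinset, List.mem_map] at hx
    obtain ⟨v, hv, rfl⟩ := hx
    exact Finset.mem_range.mpr (ha v hv)
  have hcard := Finset.card_le_card hsub
  rw [List.toFinset_card_of_nodup hnd, List.length_map, Finset.card_range] at hcard
  omega

theorem sub_iter_good' {V : Type*} [NormedAddCommGroup V] [NormedSpace ℝ V] (n r : ℕ) (D : ℝ)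
    (hD : 0 ≤ D) (CC : Set (Set V)) (hC : ∀ C ∈ CC, Convex ℝ C) (c : Chain V)
    (hc : c ∈ S (fun l => ∃ C ∈ CC, Good n D C l)) :
    (sub n)^[r] c ∈ S (fun l => ∃ C ∈ CC, Good n (((n : ℝ) / (n + 1)) ^ r * D) C l) := by
  induction r generalizing D c with
  | zero => simpa using hc
  | succ r ih =>
    rw [Function.iterate_succ_apply]
    have h1 : sub n c ∈ S (fun l => ∃ C ∈ CC, Good n (n / (n + 1) * D) C l) :=
      lin_mem (sub n) (fun l hl => by
        obtain ⟨C, hCC, hl⟩ := hl
        exact S_mono (fun l hl => ⟨C, hCC, hl⟩) (sub_good n D hD C (hC C hCC) l hl)) hc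
    have := ih (n / (n + 1) * D) (by positivity) _ h1
    rw [pow_succ, mul_assoc]
    exact this

/-- standard basis vectors -/
def ev (m : ℕ) (k : ℕ) : Fin (m + 1) → ℝ := fun i => if (i : ℕ) = k then 1 else 0

/-- face of the cross polytope with sign vector `ε` -/
def face (m : ℕ) (ε : Fin (m + 1) → ℝ) : Set (Fin (m + 1) → ℝ) :=
  {x | (∀ i, 0 ≤ ε i * x i) ∧ ∑ i, ε i * x i = 1}

def K (m : ℕ) : Set (Fin (m + 1) → ℝ) := {x | ∑ i, |x i| = 1}

def faces (m : ℕ) : Set (Set (Fin (m + 1) → ℝ)) :=
  {C | ∃ ε : Fin (m + 1) → ℝ, (∀ i, ε i = 1 ∨ ε i = -1) ∧ C = face m ε}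

theorem face_convex (m : ℕ) (ε : Fin (m + 1) → ℝ) : Convex ℝ (face m ε) := by
  intro x hx y hy a b ha hb hab
  constructor
  · intro i
    simp only [Pi.add_apply, Pi.smul_apply, smul_eq_mul]
    have h1 := hx.1 i
    have h2 := hy.1 i
    have : ε i * (a * x i + b * y i) = a * (ε i * x i) + b * (ε i * y i) := by ring
    rw [this]
    positivity
  · simp only [Pi.add_apply, Pi.smul_apply, smul_eq_mul]
    have : ∀ i, ε i * (a * x i + b * y i) = a * (ε i * x i) + b * (ε i * y i) := by
      intro i; ring
    simp_rw [this]
    rw [Finset.sum_add_distrib, ← Finset.mul_sum, ← Finset.mul_sum, hx.2, hy.2]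
    linarith

theorem faces_convex (m : ℕ) : ∀ C ∈ faces m, Convex ℝ C := by
  rintro C ⟨ε, -, rfl⟩
  exact face_convex m ε

theorem faces_sub_K (m : ℕ) : ∀ C ∈ faces m, C ⊆ K m := by
  rintro C ⟨ε, hε, rfl⟩ x hx
  have : ∀ i, |x i| = ε i * x i := by
    intro i
    have h1 := hx.1 i
    rcases hε i with h | h
    · rw [h, one_mul] at h1 ⊢
      exact abs_of_nonneg h1
    · rw [h] at h1 ⊢
      have : x i ≤ 0 := by linarith
      rw [abs_of_nonpos this]; ring
  simp only [K, Set.mem_ofPred_eq, this]
  exact hx.2

theorem K_norm_le (m : ℕ) {x : Fin (m + 1) → ℝ} (hx : x ∈ K m) : ‖x‖ ≤ 1 := by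
  rw [pi_norm_le_iff_of_nonneg zero_le_one]
  intro i
  rw [Real.norm_eq_abs, ← hx]
  exact Finset.single_le_sum (f := fun i => |x i|) (fun i _ => abs_nonneg _) (Finset.mem_univ i)

theorem K_compact (m : ℕ) : IsCompact (K m) := by
  apply Metric.isCompact_of_isClosed_isBounded
  · have : Continuous fun x : Fin (m + 1) → ℝ => ∑ i, |x i| := by fun_prop
    exact isClosed_eq this continuous_const
  · rw [isBounded_iff_forall_norm_le]
    exact ⟨1, fun x hx => K_norm_le m hx⟩

theorem z_support (m k : ℕ) (hk : k ≤ m + 1) :
    z (ev m) k ∈ S (fun l => l.length = k ∧ ∃ ε : Fin (m + 1) → ℝ, (∀ i, ε i = 1 ∨ ε i = -1) ∧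
      ∀ u ∈ l, ∃ i : Fin (m + 1), (i : ℕ) < k ∧ u = ε i • ev m i) := by
  induction k with
  | zero =>
    rw [z]
    exact single_mem_S ⟨rfl, fun _ => 1, fun _ => Or.inl rfl, by simp⟩ 1
  | succ k ih =>
    have ihk := ih (by omega)
    have hlt : k < m + 1 := by omega
    rw [z]
    have main : ∀ σ : ℝ, (σ = 1 ∨ σ = -1) → cone (σ • ev m k) (z (ev m) k) ∈
        S (fun l => l.length = k + 1 ∧ ∃ ε : Fin (m + 1) → ℝ, (∀ i, ε i = 1 ∨ ε i = -1) ∧
        ∀ u ∈ l, ∃ i : Fin (m + 1), (i : ℕ) < k + 1 ∧ u = ε i • ev m i) := by
      intro σ hσ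
      refine cone_mem_S _ ?_ ihk
      rintro l ⟨hlen, ε, hε, hu⟩
      refine ⟨by simp [hlen], fun i => if (i : ℕ) = k then σ else ε i, ?_, ?_⟩
      · intro i
        by_cases h : (i : ℕ) = k
        · simp only [h, if_true]; exact hσ
        · simp only [h, if_false]; exact hε i
      · intro u hul
        rcases List.mem_cons.mp hul with rfl | hul
        · exact ⟨⟨k, hlt⟩, by simp, by simp⟩
        · obtain ⟨i, hi, rfl⟩ := hu u hul
          refine ⟨i, by omega, ?_⟩
          have : ¬ (i : ℕ) = k := by omega
          simp only [this, if_false]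
    refine Submodule.add_mem _ ?_ ?_
    · have := main 1 (Or.inl rfl)
      rwa [one_smul] at this
    · have := main (-1) (Or.inr rfl)
      rwa [neg_smul, one_smul] at this

theorem h_support (m k : ℕ) (hk : k ≤ m) :
    h (ev m) k ∈ S (fun l => ∃ C ∈ faces m, Good (k + 1) 2 C l) := by
  have hz : z (ev m) (k + 1) ∈ _ := z_support m (k + 1) (by omega)
  -- `h k` is one half of `z (k+1)`; redo the cone step directly
  rw [h]
  have hz := z_support m k (by omega)
  refine cone_mem_S _ ?_ hz
  rintro l ⟨hlen, ε, hε, hu⟩
  have hlt : k < m + 1 := by omega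
  set ε' : Fin (m + 1) → ℝ := fun i => if (i : ℕ) = k then 1 else ε i with hε'
  have hε'1 : ∀ i, ε' i = 1 ∨ ε' i = -1 := by
    intro i
    by_cases h : (i : ℕ) = k
    · simp [hε', h]
    · simp only [hε', h, if_false]; exact hε i
  have hall : ∀ u ∈ ev m k :: l, ∃ i : Fin (m + 1), u = ε' i • ev m i := by
    intro u hul
    rcases List.mem_cons.mp hul with rfl | hul
    · exact ⟨⟨k, hlt⟩, by simp [hε']⟩
    · obtain ⟨i, hi, rfl⟩ := hu u hul
      refine ⟨i, ?_⟩
      have : ¬ (i : ℕ) = k := by omega
      simp only [hε', this, if_false]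
  have hmem : ∀ u ∈ ev m k :: l, u ∈ face m ε' := by
    intro u hul
    obtain ⟨i, rfl⟩ := hall u hul
    have hsq : ε' i * ε' i = 1 := by rcases hε'1 i with h | h <;> rw [h] <;> norm_num
    have hval : ∀ j, ε' j * (ε' i • ev m i) j = if j = i then 1 else 0 := by
      intro j
      simp only [Pi.smul_apply, smul_eq_mul, ev]
      by_cases hji : j = i
      · subst hji; simp [hsq]
      · have : ¬ (j : ℕ) = (i : ℕ) := fun h => hji (Fin.ext h)
        simp [hji, this]
    constructor
    · intro j
      rw [hval]
      split_ifs <;> norm_num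
    · simp_rw [hval]
      simp
  refine ⟨face m ε', ⟨ε', hε'1, rfl⟩, by simp [hlen], hmem, ?_⟩
  intro u hu v hv
  have h1 := K_norm_le m (faces_sub_K m _ ⟨ε', hε'1, rfl⟩ (hmem u hu))
  have h2 := K_norm_le m (faces_sub_K m _ ⟨ε', hε'1, rfl⟩ (hmem v hv))
  calc ‖u - v‖ ≤ ‖u‖ + ‖v‖ := norm_sub_le _ _
    _ ≤ 2 := by linarith

theorem H_support (m r k : ℕ) (hk : k ≤ m) :
    H (ev m) r k ∈ S (fun l => ∃ C ∈ faces m,
      Good (k + 1) ((((k + 1 : ℕ) : ℝ) / ((k + 1 : ℕ) + 1)) ^ r * 2) C l) :=
  sub_iter_good' (k + 1) r 2 (by norm_num) (faces m) (faces_convex m) _ (h_support m k hk)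

theorem exists_max {m : ℕ} (w : Fin (m + 1) → ℝ) : ∃ i, ∀ j, w j ≤ w i := by
  obtain ⟨i, hi⟩ := Finite.exists_max w
  exact ⟨i, hi⟩

noncomputable def arg {m : ℕ} (w : Fin (m + 1) → ℝ) : Fin (m + 1) := (exists_max w).choose

theorem arg_spec {m : ℕ} (w : Fin (m + 1) → ℝ) (j : Fin (m + 1)) : w j ≤ w (arg w) :=
  (exists_max w).choose_spec j

/-- **Borsuk-Ulam.** -/
theorem borsuk_ulam (m : ℕ) (f : (Fin (m + 1) → ℝ) → (Fin m → ℝ)) (hf : Continuous f)
    (hodd : ∀ x, f (-x) = -f x) : ∃ x ∈ K m, f x = 0 := by
  cases m with
  | zero =>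
    refine ⟨fun _ => 1, by simp [K], Subsingleton.elim _ _⟩
  | succ m =>
    by_contra hcon
    push Not at hcon
    have hKne : (K (m + 1)).Nonempty := by
      refine ⟨fun i => if i = 0 then 1 else 0, ?_⟩
      simp only [K, Set.mem_ofPred_eq]
      rw [Finset.sum_eq_single 0]
      · simp
      · intro i _ hi; simp [hi]
      · simp
    obtain ⟨x₀, hx₀, hmin⟩ := (K_compact (m + 1)).exists_isMinOn hKne
      (hf.norm.continuousOn (s := K (m + 1)))
    have hc : 0 < ‖f x₀‖ := norm_pos_iff.mpr (hcon x₀ hx₀)
    set c := ‖f x₀‖ with hcdef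
    have hmin' : ∀ x ∈ K (m + 1), c ≤ ‖f x‖ := fun x hx => hmin hx
    have huc := (K_compact (m + 1)).uniformContinuousOn_of_continuous hf.continuousOn
    rw [Metric.uniformContinuousOn_iff] at huc
    obtain ⟨δ, hδ, hδ'⟩ := huc c hc
    -- the number of subdivisions
    have hq : (((m + 1 + 1 : ℕ) : ℝ) / ((m + 1 + 1 : ℕ) + 1)) < 1 := by
      rw [div_lt_one (by positivity)]
      linarith
    obtain ⟨r, hr⟩ := exists_pow_lt_of_lt_one (show 0 < δ / 2 by positivity) hq
    -- labels
    let a : (Fin (m + 1 + 1) → ℝ) → ℕ := fun x => (arg (fun i => |f x i|) : Fin (m + 1))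
    let s : (Fin (m + 1 + 1) → ℝ) → ZMod 2 :=
      fun x => if 0 < f x (arg (fun i => |f x i|)) then 1 else 0
    have habs : ∀ x, (fun i => |f (-x) i|) = fun i => |f x i| := by
      intro x; funext i; rw [hodd, Pi.neg_apply, abs_neg]
    have ha : ∀ x, a (-x) = a x := by
      intro x
      simp only [a, habs]
    have hnorm : ∀ x, ‖f x‖ = |f x (arg (fun i => |f x i|))| := by
      intro x
      apply le_antisymm
      · rw [pi_norm_le_iff_of_nonneg (abs_nonneg _)]
        intro i
        exact arg_spec (fun i => |f x i|) i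
      · exact norm_le_pi_norm (f x) _
    have hs : ∀ x ∈ K (m + 1), s (-x) = s x + 1 := by
      intro x hx
      have h1 := hnorm x
      have h2 : f x (arg (fun i => |f x i|)) ≠ 0 := by
        intro h
        rw [h, abs_zero] at h1
        exact hcon x hx (norm_eq_zero.mp h1)
      simp only [s, habs]
      rw [hodd, Pi.neg_apply]
      rcases lt_or_gt_of_ne h2 with h | h
      · have h3 : ¬ 0 < f x (arg (fun i => |f x i|)) := not_lt.mpr h.le
        have h4 : 0 < -f x (arg (fun i => |f x i|)) := by linarith
        simp [h3, h4]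
      · have h3 : ¬ 0 < -f x (arg (fun i => |f x i|)) := by
          rw [not_lt]; linarith
        simp only [h, h3, if_true, if_false]
        exact (z2_add_self 1).symm
    have hcompl : ∀ x ∈ K (m + 1), ∀ y ∈ K (m + 1), dist x y < δ → a x = a y → s x = s y := by
      intro x hx y hy hxy hax
      have hd := hδ' x hx y hy hxy
      have hax' : arg (fun i => |f x i|) = arg (fun i => |f y i|) := Fin.ext hax
      simp only [s]
      rw [← hax']
      have h1 := hnorm x
      have h2 := hnorm y
      rw [← hax'] at h2
      have h3 := hmin' x hx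
      have h4 := hmin' y hy
      have h5 : |f x (arg (fun i => |f x i|)) - f y (arg (fun i => |f x i|))| < c := by
        rw [dist_eq_norm] at hd
        exact lt_of_le_of_lt (norm_le_pi_norm (f x - f y) _) hd
      set p := f x (arg (fun i => |f x i|))
      set q := f y (arg (fun i => |f x i|))
      have h6 : c ≤ |p| := by rw [← h1]; exact h3
      have h7 : c ≤ |q| := by rw [← h2]; exact h4
      rw [abs_lt] at h5
      rcases le_abs'.mp h6 with h8 | h8 <;> rcases le_abs'.mp h7 with h9 | h9
      · have e1 : ¬ 0 < p := by linarith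
        have e2 : ¬ 0 < q := by linarith
        simp [e1, e2]
      · exfalso; linarith [h5.1]
      · exfalso; linarith [h5.2]
      · have e1 : 0 < p := by linarith
        have e2 : 0 < q := by linarith
        simp [e1, e2]
    have hone := Wc_sort_H (ev (m + 1)) r a ha s (m + 1) (by
      intro k hk
      refine S_mono ?_ (H_support (m + 1) r k hk)
      rintro l ⟨C, hC, -, hl, -⟩ v hv
      exact hs v (faces_sub_K _ C hC (hl v hv)))
    have hzero : Wc s (sortC a (H (ev (m + 1)) r (m + 1))) = 0 := by
      refine lin_eq_zero ((Wc s).comp (sortC a)) ?_ (H_support (m + 1) r (m + 1) le_rfl)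
      rintro l ⟨C, hC, hlen, hl, hD⟩
      rw [LinearMap.comp_apply, sortC_single, Wc_single, one_mul]
      have hlK : ∀ v ∈ l, v ∈ K (m + 1) := fun v hv => faces_sub_K _ C hC (hl v hv)
      have hst : Std.Total (fun x y : Fin (m + 1 + 1) → ℝ => a x ≤ a y) :=
        ⟨fun x y => le_total (a x) (a y)⟩
      have htr : IsTrans (Fin (m + 1 + 1) → ℝ) (fun x y => a x ≤ a y) := ⟨fun x y z => le_trans⟩
      refine W_zero (m + 1) a s _ ?_ ?_ ?_ (List.pairwise_insertionSort _ l)
      · rw [List.length_insertionSort, hlen]; omega
      · intro v _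
        exact (arg (fun i => |f v i|)).2
      · intro u hu v hv
        rw [List.mem_insertionSort] at hu hv
        refine hcompl u (hlK u hu) v (hlK v hv) ?_
        rw [dist_eq_norm]
        refine lt_of_le_of_lt (hD u hu v hv) ?_
        linarith
    rw [hone] at hzero
    exact one_ne_zero hzero

end Main

end Pool.Agent.Helper133.BU
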