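import Mathlib

/-!
# Project KS (helper555): the Kalai-Sarkaria conjecture

Definitions and exact statements (`def St... : Prop`) of the parts. Coefficients have
characteristic 2. See `Pool/Agent/W555/KS/PLAN.md` for the written proof.
-/

set_option autoImplicit false

namespace Pool.Agent.W555.KS

open Finset MvPolynomial

/-- simplicial complex on `Fin n`: a down-closed family of finsets containing the empty set -/
def IsCx {n : ℕ} (L : Finset (Finset (Fin n))) : Prop :=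
  ∅ ∈ L ∧ ∀ σ ∈ L, ∀ τ : Finset (Fin n), τ ⊆ σ → τ ∈ L

/-- the cone over the geometric realization: nonnegative vectors supported on a face -/
def coneSet {n : ℕ} (L : Finset (Finset (Fin n))) : Set (Fin n → ℝ) :=
  {x | (∀ i, 0 ≤ x i) ∧ ∃ σ ∈ L, ∀ i, i ∉ σ → x i = 0}

/-- conical almost-embedding of `L` in `ℝ^d` (think: `|L|` embeds in the sphere `S^(d-1)`) -/
def ConeEmb {n : ℕ} (L : Finset (Finset (Fin n))) (d : ℕ) : Prop :=
  ∃ F : (Fin n → ℝ) → (Fin d → ℝ), ContinuousOn F (coneSet L) ∧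
    ∀ x ∈ coneSet L, ∀ y ∈ coneSet L, (∀ i, x i = 0 ∨ y i = 0) → F x = F y → x = 0 ∧ y = 0

/-- elements of `U` of even rank (the smallest element has rank `0`) -/
def evenPart {n : ℕ} (U : Finset (Fin n)) : Finset (Fin n) :=
  U.filter (fun u => Even (U.filter (fun w => w < u)).card)

/-- elements of `U` of odd rank -/
def oddPart {n : ℕ} (U : Finset (Fin n)) : Finset (Fin n) :=
  U.filter (fun u => ¬ Even (U.filter (fun w => w < u)).card)

/-- vanishing of the van Kampen type obstruction in degree `D` on symmetric cycles of the deleted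
join of `L` -/
def VK {n : ℕ} (L : Finset (Finset (Fin n))) (D : ℕ) : Prop :=
  ∀ (k : Type) [Field k] [CharP k 2] (Z : Finset (Fin n) → Finset (Fin n) → k),
    (∀ σ τ, Z σ τ = Z τ σ) →
    (∀ σ τ, Z σ τ ≠ 0 → σ ∈ L ∧ τ ∈ L) →
    (∀ ρ τ : Finset (Fin n), Disjoint ρ τ → ρ.card + τ.card + 1 = D →
      ∑ v ∈ (ρ ∪ τ)ᶜ, (Z (insert v ρ) τ + Z ρ (insert v τ)) = 0) →
    ∑ U ∈ powersetCard D univ, Z (evenPart U) (oddPart U) = 0

/-- the cone over the complex `L`, with the new vertex `Fin.last n` -/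
def coneCx {n : ℕ} (L : Finset (Finset (Fin n))) : Finset (Finset (Fin (n + 1))) :=
  univ.filter (fun σ => (univ.filter (fun i : Fin n => i.castSucc ∈ σ)) ∈ L)

/-- permanent (= determinant in characteristic 2) of the `m × U` submatrix of `a`; it is `0`
unless `U.card = m` -/
def bra {k : Type*} [CommRing k] {n m : ℕ} (a : Fin m → Fin n → k) (U : Finset (Fin n)) : k :=
  ∑ h ∈ (univ : Finset (Fin m → Fin n)).filter
      (fun h => Function.Injective h ∧ univ.image h = U), ∏ i, a i (h i)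

/-- cardinality of the fibre of `h` over `v` -/
def fib {n m : ℕ} (h : Fin m → Fin n) (v : Fin n) : ℕ := (univ.filter (fun i => h i = v)).card

/-- all fibres are even -/
def EvenFun {n m : ℕ} (h : Fin m → Fin n) : Prop := ∀ v, Even (fib h v)

instance {n m : ℕ} (h : Fin m → Fin n) : Decidable (EvenFun h) := by
  unfold EvenFun; infer_instance

/-- the `h / 2` monomial in elements `x v` -/
def halfMon {R : Type*} [CommRing R] {n m : ℕ} (x : Fin n → R) (h : Fin m → Fin n) : R :=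
  ∏ v, x v ^ (fib h v / 2)

/-! ### topology -/

/-- KS-FAN -/
def StFan : Prop := ∀ (n d : ℕ) (L : Finset (Finset (Fin n))), IsCx L → ConeEmb L d → VK L (d + 1)

/-- KS-CONE -/
def StCone : Prop := ∀ (n d : ℕ) (L : Finset (Finset (Fin n))), IsCx L → ConeEmb L d →
  IsCx (coneCx L) ∧ ConeEmb (coneCx L) (d + 1)

/-- KS-EMBR: a complex embedded in `ℝ^r` (in the form used by `S11781`) -/
def StEmbR : Prop := ∀ (n r : ℕ) (K : Finset (Finset (Fin n))),
  (∀ σ ∈ K, ∀ τ : Finset (Fin n), τ ⊆ σ → τ.Nonempty → τ ∈ K) →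
  (∀ σ ∈ K, σ.Nonempty) →
  (∃ f : (Fin n → ℝ) → EuclideanSpace ℝ (Fin r),
    ContinuousOn f {x : Fin n → ℝ | (∀ i, 0 ≤ x i) ∧ ∑ i, x i = 1 ∧
        ∃ σ ∈ K, ∀ i, i ∉ σ → x i = 0} ∧
    Set.InjOn f {x : Fin n → ℝ | (∀ i, 0 ≤ x i) ∧ ∑ i, x i = 1 ∧
        ∃ σ ∈ K, ∀ i, i ∉ σ → x i = 0}) →
  IsCx (insert ∅ K) ∧ ConeEmb (insert ∅ K) (r + 1)

/-- KS-EMBS: a complex embedded in the sphere `S^(d-1)` -/
def StEmbS : Prop := ∀ (n d : ℕ) (L : Finset (Finset (Fin n))), IsCx L →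
  (∃ f : (Fin n → ℝ) → EuclideanSpace ℝ (Fin d),
    ContinuousOn f {x : Fin n → ℝ | (∀ i, 0 ≤ x i) ∧ ∑ i, x i = 1 ∧
        ∃ σ ∈ L, ∀ i, i ∉ σ → x i = 0} ∧
    Set.InjOn f {x : Fin n → ℝ | (∀ i, 0 ≤ x i) ∧ ∑ i, x i = 1 ∧
        ∃ σ ∈ L, ∀ i, i ∉ σ → x i = 0} ∧
    ∀ x : Fin n → ℝ, (∀ i, 0 ≤ x i) → ∑ i, x i = 1 → (∃ σ ∈ L, ∀ i, i ∉ σ → x i = 0) →
      ‖f x‖ = 1) →
  ConeEmb L d

/-! ### characteristic two algebra -/

/-- KS-ALG: the main identity -/
def StAlg : Prop := ∀ (k R : Type) [Field k] [CharP k 2] [CommRing R] [Algebra k R] (n q : ℕ)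
  (a : Fin (2 * q) → Fin n → k) (x : Fin n → R) (M : R →ₗ[k] k),
  (∀ i : Fin (2 * q), (i : ℕ) + 1 < 2 * q → ∑ v, a i v • x v = 0) →
  ∑ U ∈ powersetCard (2 * q) univ,
      bra a U * M (∏ v ∈ evenPart U, x v) * M (∏ v ∈ oddPart U, x v)
    = ∑ h ∈ (univ : Finset (Fin (2 * q) → Fin n)).filter EvenFun,
        (∏ i, a i (h i)) * M (halfMon x h) ^ 2

/-- KS-PN (used for `StAlg`): alternating sums as a product -/
def StPn : Prop := ∀ (N : Type) [CommRing N] (_ : (2 : N) = 0) (n : ℕ) (l X X' : Fin n → N),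
  (∀ u, l u * l u = 0) →
  ∑ U ∈ (univ : Finset (Finset (Fin n))).filter (fun U => Even U.card),
      (∏ u ∈ U, l u) * (∏ u ∈ evenPart U, X u) * (∏ u ∈ oddPart U, X' u)
    = ∏ v, (1 + (∑ u ∈ univ.filter (fun u => u < v), l u * X u) * (l v * X' v))

/-- KS-PL (used for `StAlg`) -/
def StPl : Prop := ∀ (N : Type) [CommRing N] (_ : (2 : N) = 0) (m : ℕ) (e b c : Fin m → N),
  (∀ i, e i * e i = 0) →
  ∏ p ∈ (univ : Finset (Fin m × Fin m)).filter (fun p => p.1 < p.2),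
      (1 + e p.1 * e p.2 * (b p.1 * c p.2 + b p.2 * c p.1))
    = 1 + (∑ i, b i * e i) * (∑ i, c i * e i)

/-- KS-EV (used for `StAlg`) -/
def StEv : Prop := ∀ (N : Type) [CommRing N] (_ : (2 : N) = 0) (m : ℕ) (e b : Fin m → N) (y : N),
  (∀ i, e i * e i = 0) →
  ∏ p ∈ (univ : Finset (Fin m × Fin m)).filter (fun p => p.1 < p.2),
      (1 + e p.1 * e p.2 * (b p.1 * b p.2 * y))
    = ∑ S ∈ (univ : Finset (Finset (Fin m))).filter (fun S => Even S.card),
        (∏ i ∈ S, b i * e i) * y ^ (S.card / 2)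

/-- KS-ALGO: the odd version, deduced from `StAlg` by adding a vertex and a row -/
def StAlgO : Prop := ∀ (k R : Type) [Field k] [CharP k 2] [CommRing R] [Algebra k R] (n q : ℕ)
  (a : Fin (2 * q + 1) → Fin n → k) (x : Fin n → R) (M : R →ₗ[k] k),
  (∀ i : Fin (2 * q), ∑ v, a i.castSucc v • x v = 0) →
  ∑ U ∈ powersetCard (2 * q + 1) univ,
      bra a U * M (∏ v ∈ evenPart U, x v) *
        M ((∑ v, a (Fin.last (2 * q)) v • x v) * ∏ v ∈ oddPart U, x v)
    = ∑ h ∈ (univ : Finset (Fin (2 * q) → Fin n)).filter EvenFun,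
        (∏ i : Fin (2 * q), a i.castSucc (h i)) *
          M ((∑ v, a (Fin.last (2 * q)) v • x v) * halfMon x h) ^ 2

/-- KS-EXP: expansion of `bra` -/
def StExp : Prop := ∀ (k : Type) [Field k] [CharP k 2] (n d : ℕ) (a : Fin (d + 1) → Fin n → k)
  (y : Fin n → k) (W : Finset (Fin n)), W.card = d →
  (∀ i : Fin d, ∑ v, a i.castSucc v * y v = 0) →
  ∑ v ∈ Wᶜ, y v * bra a (insert v W)
    = (∑ v, a (Fin.last d) v * y v) * bra (fun i : Fin d => a i.castSucc) W

/-- KS-T1: the cycle -/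
def StT1 : Prop := ∀ (k R : Type) [Field k] [CharP k 2] [CommRing R] [Algebra k R] (n d g : ℕ)
  (L : Finset (Finset (Fin n))) (a : Fin (d + 1) → Fin n → k) (x : Fin n → R) (M : R →ₗ[k] k)
  (ω : R), IsCx L → VK L (d + 1) →
  (∀ σ, σ ∉ L → ∏ v ∈ σ, x v = 0) →
  (∀ i : Fin d, ∑ v, a i.castSucc v • x v = 0) →
  ω = ∑ v, a (Fin.last d) v • x v →
  d + 1 ≤ 2 * g → ω ^ (2 * g - d) = 0 →
  ∑ U ∈ powersetCard (d + 1) univ,
      bra a U * M (ω ^ (g - (evenPart U).card) * ∏ v ∈ evenPart U, x v) *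
        M (ω ^ (g - (oddPart U).card) * ∏ v ∈ oddPart U, x v) = 0

/-- KS-T1E: consequence for `d + 1 = 2 q` -/
def StT1E : Prop := ∀ (k R : Type) [Field k] [CharP k 2] [CommRing R] [Algebra k R] (n d q s : ℕ)
  (L : Finset (Finset (Fin n))) (a : Fin (d + 1) → Fin n → k) (x : Fin n → R) (M : R →ₗ[k] k)
  (ω : R), IsCx L → VK L (d + 1) →
  (∀ σ, σ ∉ L → ∏ v ∈ σ, x v = 0) →
  (∀ i : Fin d, ∑ v, a i.castSucc v • x v = 0) →
  ω = ∑ v, a (Fin.last d) v • x v →
  d + 1 = 2 * q → ω ^ (2 * s + 1) = 0 →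
  ∑ h ∈ (univ : Finset (Fin (d + 1) → Fin n)).filter EvenFun,
    (∏ i, a i (h i)) * M (ω ^ s * halfMon x h) ^ 2 = 0

/-- KS-T1O: consequence for `d = 2 q` -/
def StT1O : Prop := ∀ (k R : Type) [Field k] [CharP k 2] [CommRing R] [Algebra k R] (n d q s : ℕ)
  (L : Finset (Finset (Fin n))) (a : Fin (d + 1) → Fin n → k) (x : Fin n → R) (M : R →ₗ[k] k)
  (ω : R), IsCx L → VK L (d + 1) →
  (∀ σ, σ ∉ L → ∏ v ∈ σ, x v = 0) →
  (∀ i : Fin d, ∑ v, a i.castSucc v • x v = 0) →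
  ω = ∑ v, a (Fin.last d) v • x v →
  d = 2 * q → 1 ≤ s → ω ^ (2 * s) = 0 →
  ∑ h ∈ (univ : Finset (Fin d → Fin n)).filter EvenFun,
    (∏ i : Fin d, a i.castSucc (h i)) * M (ω ^ s * halfMon x h) ^ 2 = 0

/-- KS-IND: squarefree monomials in the variables are independent over the squares -/
def StInd : Prop := ∀ (ι : Type) [Fintype ι] [DecidableEq ι] (S : Finset (Finset ι))
  (c : Finset ι → FractionRing (MvPolynomial ι (ZMod 2))),
  ∑ s ∈ S, algebraMap (MvPolynomial ι (ZMod 2)) (FractionRing (MvPolynomial ι (ZMod 2)))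
    (∏ i ∈ s, X i) * c s ^ 2 = 0 → ∀ s ∈ S, c s = 0

/-- Stanley-Reisner ideal -/
noncomputable def srI {n : ℕ} (k : Type*) [Field k] (L : Finset (Finset (Fin n))) :
    Ideal (MvPolynomial (Fin n) k) :=
  Ideal.span {p | ∃ σ : Finset (Fin n), σ ∉ L ∧ p = ∏ v ∈ σ, X v}

/-- linear form with coefficients `c` -/
noncomputable def lf {n : ℕ} {k : Type*} [Field k] (c : Fin n → k) : MvPolynomial (Fin n) k :=
  ∑ v, C (c v) * X v

/-- the field `F_2 (a_{iv})` with `m × n` variables -/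
abbrev Kf (m n : ℕ) : Type := FractionRing (MvPolynomial (Fin m × Fin n) (ZMod 2))

/-- the generic matrix -/
noncomputable def gen (m n : ℕ) (i : Fin m) (v : Fin n) : Kf m n :=
  algebraMap (MvPolynomial (Fin m × Fin n) (ZMod 2)) (Kf m n) (X (i, v))

/-- KS-T2C: `A_(q+1) = ω A_q` for `d = 2 q` (uses the cone over `L`) -/
def StT2C : Prop := ∀ (n q : ℕ) (L : Finset (Finset (Fin n))), IsCx L → ConeEmb L (2 * q) →
  ∀ p : MvPolynomial (Fin n) (Kf (2 * q + 1) n), p.IsHomogeneous (q + 1) →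
    p ∈ srI (Kf (2 * q + 1) n) L ⊔
      Ideal.span (Set.range (fun i : Fin (2 * q + 1) => lf (gen (2 * q + 1) n i)))

/-- KS-T2: the generic Lefschetz type theorem in characteristic 2 -/
def StT2 : Prop := ∀ (n d : ℕ) (L : Finset (Finset (Fin n))), IsCx L → ConeEmb L d →
  ∀ r : ℕ, d < 2 * r → ∀ p : MvPolynomial (Fin n) (Kf (d + 1) n), p.IsHomogeneous r →
    p ∈ srI (Kf (d + 1) n) L ⊔
      Ideal.span (Set.range (fun i : Fin d => lf (gen (d + 1) n i.castSucc))) ⊔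
      Ideal.span {lf (gen (d + 1) n (Fin.last d)) ^ (2 * r - d)}

/-! ### dimensions -/

/-- dimension of the degree `r` part of the quotient by the (homogeneous) ideal `I` -/
noncomputable def dimQ {n : ℕ} {k : Type*} [Field k] (I : Ideal (MvPolynomial (Fin n) k)) (r : ℕ) :
    ℕ :=
  Module.finrank k (Submodule.map (Ideal.Quotient.mkₐ k I).toLinearMap
    (homogeneousSubmodule (Fin n) k r))

/-- `srI L + (θ_0, ..., θ_(j-1))` for the generic forms -/
noncomputable def Ij (n d j : ℕ) (L : Finset (Finset (Fin n))) :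
    Ideal (MvPolynomial (Fin n) (Kf (d + 1) n)) :=
  srI (Kf (d + 1) n) L ⊔
    Ideal.span {p | ∃ i : Fin (d + 1), (i : ℕ) < j ∧ p = lf (gen (d + 1) n i)}

/-- the number `h_r` of the cyclic `d`-polytope with `n` vertices -/
def Nh (n d r : ℕ) : ℕ :=
  if d < r then 0 else Nat.choose (n - d - 1 + min r (d - r)) (min r (d - r))

/-- `B n d j r` bounds the dimension in degree `r` after adding back `j` of the `d` forms -/
def Bd (n d : ℕ) : ℕ → ℕ → ℕ
  | 0, r => Nh n d r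
  | j + 1, 0 => Bd n d j 0
  | j + 1, r + 1 => Bd n d (j + 1) r + Bd n d j (r + 1)

/-- KS-DSTEP -/
def StDStep : Prop := ∀ (n d j : ℕ) (L : Finset (Finset (Fin n))), j < d →
  (∀ r, dimQ (Ij n d j L) (r + 1) ≤ dimQ (Ij n d j L) r + dimQ (Ij n d (j + 1) L) (r + 1)) ∧
  dimQ (Ij n d j L) 0 ≤ 1

/-- KS-MIN: minors of the generic matrix are nonzero -/
def StMin : Prop := ∀ (m n r : ℕ) (f : Fin r → Fin m) (g : Fin r → Fin n),
  Function.Injective f → Function.Injective g →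
  Matrix.det (Matrix.of (fun i j : Fin r => gen m n (f i) (g j))) ≠ 0

/-- KS-DTOP1: elimination of `d` variables -/
def StDTop1 : Prop := ∀ (n d : ℕ) (L : Finset (Finset (Fin n))), d < n →
  ∀ r, dimQ (Ij n d d L) r ≤ Nat.choose (n - d - 1 + r) r

/-- KS-DTOP2: consequence of `StT2` -/
def StDTop2 : Prop := ∀ (n d : ℕ) (L : Finset (Finset (Fin n))), IsCx L → ConeEmb L d →
  ∀ r, d < 2 * r → dimQ (Ij n d d L) r ≤ (if r ≤ d then dimQ (Ij n d d L) (d - r) else 0)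

/-- KS-DTOP (from the two previous ones) -/
def StDTop : Prop := ∀ (n d : ℕ) (L : Finset (Finset (Fin n))), d < n → IsCx L → ConeEmb L d →
  ∀ r, dimQ (Ij n d d L) r ≤ Nh n d r

/-- KS-DLOW -/
def StDLow : Prop := ∀ (n d j : ℕ) (L : Finset (Finset (Fin n))), IsCx L → j ≤ d →
  (L.filter (fun σ => σ.card = j + 1)).card ≤ dimQ (Ij n d j L) (j + 1)

/-! ### cyclic polytopes: Gale's condition and counting -/

/-- `S` has at most `d - |S|` extra roots `T` making the sign constant (up to `ε`) outside `S` -/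
def Gale (n d : ℕ) (S : Finset ℕ) : Prop :=
  ∃ (T : Finset ℕ) (ε : ℕ), S.card + T.card ≤ d ∧
    ∀ t < n, t ∉ S → Even (ε + (S.filter (fun s => s < t)).card + (T.filter (fun g => g ≤ t)).card)

/-- the same with prescribed `ε` -/
def GaleE (n d ε : ℕ) (S : Finset ℕ) : Prop :=
  ∃ T : Finset ℕ, S.card + T.card ≤ d ∧
    ∀ t < n, t ∉ S → Even (ε + (S.filter (fun s => s < t)).card + (T.filter (fun g => g ≤ t)).card)

/-- KS-SUPP: Gale's condition gives a supporting hyperplane of the cyclic polytope -/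
def StSupp : Prop := ∀ (n d : ℕ) (S : Finset (Fin n)), Gale n d (S.image (fun i : Fin n => (i : ℕ))) →
  ∃ a : Fin d → ℝ, ∃ c : ℝ,
    (∀ i ∈ S, ∑ j : Fin d, a j * ((i : ℕ) : ℝ) ^ ((j : ℕ) + 1) = c) ∧
    (∀ i : Fin n, i ∉ S → ∑ j : Fin d, a j * ((i : ℕ) : ℝ) ^ ((j : ℕ) + 1) < c)

mutual
/-- number of strings of length `n` with `k` ones and cost at most `d` (even state) -/
def cB : ℕ → ℕ → ℕ → ℕ
  | 0, _, k => if k = 0 then 1 else 0
  | n + 1, d, k => cB n d k + (match d, k with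
      | d' + 1, k' + 1 => cC n d' k'
      | _, _ => 0)
/-- odd state -/
def cC : ℕ → ℕ → ℕ → ℕ
  | 0, _, k => if k = 0 then 1 else 0
  | _ + 1, 0, _ => 0
  | n + 1, d' + 1, k => cB n d' k + (match k with
      | k' + 1 => cB n d' k'
      | 0 => 0)
end

/-- initial block state -/
def cA : ℕ → ℕ → ℕ → ℕ
  | 0, _, k => if k = 0 then 1 else 0
  | n + 1, d, k => cB n d k + (match d, k with
      | d' + 1, k' + 1 => cA n d' k'
      | _, _ => 0)

/-- KS-GCNT: there are at least `cA n d k` Gale sets of size `k` -/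
def StGCnt : Prop := ∀ (n d k : ℕ),
  cA n d k ≤ {S : Finset ℕ | S ⊆ range n ∧ S.card = k ∧ Gale n d S}.ncard

/-- KS-GNUM -/
def StGNum : Prop := ∀ (n d j : ℕ), j < d → d < n → Bd n d (d - j) (j + 1) ≤ cA n d (j + 1)

/-- KS-GALL: with few vertices everything is a face -/
def StGAll : Prop := ∀ (n d : ℕ) (S : Finset ℕ), n ≤ d → S ⊆ range n → Gale n d S

end Pool.Agent.W555.KS
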