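import Mathlib
import Pool.Agent.H7.L.W555_KS_Defs
import Pool.Agent.H7.L.Helper133_BULib

set_option autoImplicit false

namespace Pool.Agent.W357.KS.Fan

open Finset Pool.Agent.W555.KS Pool.Agent.Helper133.BU

variable {n : ℕ}

/-! ### lists -/

theorem bdL_map {V W : Type*} (f : V → W) (l : List V) :
    bdL (l.map f) = Finsupp.lmapDomain (ZMod 2) (ZMod 2) (List.map f) (bdL l) := by
  have hc : ∀ (v : V) (c : Chain V), Finsupp.lmapDomain (ZMod 2) (ZMod 2) (List.map f) (cone v c)
      = cone (f v) (Finsupp.lmapDomain (ZMod 2) (ZMod 2) (List.map f) c) := by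
    intro v c
    induction c using Finsupp.induction_linear with
    | zero => simp
    | add f g hf hg => simp only [map_add, hf, hg]
    | single l b => simp [cone_single]
  induction l with
  | nil => simp [bdL]
  | cons v l ih =>
    rw [List.map_cons, bdL, bdL, map_add, hc, ih]
    simp

theorem bdL_nodup {V : Type*} [DecidableEq V] (l : List V) (hl : l.Nodup) :
    bdL l = ∑ v ∈ l.toFinset, Finsupp.single (l.erase v) (1 : ZMod 2) := by
  induction l with
  | nil => simp [bdL]
  | cons x t ih =>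
    rw [List.nodup_cons] at hl
    have hx : x ∉ t.toFinset := by simpa using hl.1
    rw [bdL, List.toFinset_cons, Finset.sum_insert hx, List.erase_cons_head, ih hl.2, map_sum]
    congr 1
    refine Finset.sum_congr rfl fun v hv => ?_
    have hvx : x ≠ v := by
      rintro rfl
      exact hx hv
    rw [cone_single, List.erase_cons_tail (by simpa using hvx)]

theorem sort_erase (U : Finset (Fin n)) (v : Fin n) : (U.sort).erase v = (U.erase v).sort := by
  have h1 : ((U.sort).erase v).toFinset = U.erase v := by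
    ext w
    rw [List.mem_toFinset, List.Nodup.mem_erase_iff (sort_nodup _ _), mem_sort, mem_erase]
  have h2 : ((U.sort).erase v).Nodup := (sort_nodup _ _).erase v
  have h3 : ((U.sort).erase v).Pairwise (fun a b => a ≤ b) :=
    (pairwise_sort U (fun a b => a ≤ b)).sublist (List.erase_sublist)
  have := (List.toFinset_sort (fun a b => a ≤ b) h2).mpr h3
  rw [← this, h1]

/-- signed unit vector -/
noncomputable def pt (σ : Finset (Fin n)) (v : Fin n) : Fin n → ℝ :=
  Pi.single v (if v ∈ σ then 1 else -1)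

/-- list of a signed set -/
noncomputable def lst (U σ : Finset (Fin n)) : List (Fin n → ℝ) := (U.sort).map (pt σ)

theorem lst_congr {U σ σ' : Finset (Fin n)} (h : ∀ v ∈ U, v ∈ σ ↔ v ∈ σ') :
    lst U σ = lst U σ' := by
  unfold lst
  refine List.map_congr_left fun v hv => ?_
  rw [mem_sort] at hv
  unfold pt
  simp only [h v hv]

theorem lst_neg (U σ : Finset (Fin n)) : (lst U σ).map (fun v => -v) = lst U (U \ σ) := by
  unfold lst
  rw [List.map_map]
  refine List.map_congr_left fun v hv => ?_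
  rw [mem_sort] at hv
  show -pt σ v = pt (U \ σ) v
  unfold pt
  rw [← Pi.single_neg]
  by_cases h : v ∈ σ
  · simp [h]
  · simp [h, hv]

theorem bdL_lst (U σ : Finset (Fin n)) :
    bdL (lst U σ) = ∑ v ∈ U, Finsupp.single (lst (U.erase v) (σ.erase v)) (1 : ZMod 2) := by
  unfold lst
  rw [bdL_map, bdL_nodup _ (sort_nodup _ _), sort_toFinset, map_sum]
  refine Finset.sum_congr rfl fun v hv => ?_
  rw [sort_erase, Finsupp.lmapDomain_apply, Finsupp.mapDomain_single]
  congr 1
  exact lst_congr (U := U.erase v) (fun w hw => by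
    rw [mem_erase] at hw
    simp [hw.1])

/-- lists of signed faces -/
def P (L : Finset (Finset (Fin n))) (q : ℕ) (l : List (Fin n → ℝ)) : Prop :=
  ∃ U σ : Finset (Fin n), σ ⊆ U ∧ σ ∈ L ∧ U \ σ ∈ L ∧ U.card = q ∧ l = lst U σ

theorem bd_P {L : Finset (Finset (Fin n))} (hL : IsCx L) {q : ℕ} {c : Chain (Fin n → ℝ)}
    (hc : c ∈ S (P L (q + 1))) : bd c ∈ S (P L q) := by
  refine lin_mem bd (fun l hl => ?_) hc
  obtain ⟨U, σ, h1, h2, h3, h4, rfl⟩ := hl
  rw [bd_single, one_smul, bdL_lst]
  refine Submodule.sum_mem _ fun v hv => single_mem_S ⟨U.erase v, σ.erase v,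
    erase_subset_erase v h1, hL.2 σ h2 _ (erase_subset v σ), hL.2 _ h3 _ ?_,
    by rw [card_erase_of_mem hv, h4]; rfl, rfl⟩ 1
  intro w hw
  simp only [mem_sdiff, mem_erase, not_and] at hw ⊢
  exact ⟨hw.1.2, hw.2 hw.1.1⟩

/-! ### cells -/

def Cst (σ τ : Finset (Fin n)) : Set (Fin n → ℝ) :=
  {x | (∀ i, i ∉ σ → x i ≤ 0) ∧ (∀ i, i ∉ τ → 0 ≤ x i) ∧
    ∑ i, (if i ∈ τ then -x i else x i) = 1}

def CC (L : Finset (Finset (Fin n))) : Set (Set (Fin n → ℝ)) :=
  {C | ∃ σ ∈ L, ∃ τ ∈ L, Disjoint σ τ ∧ C = Cst σ τ}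

def X (L : Finset (Finset (Fin n))) : Set (Fin n → ℝ) :=
  {x | ∃ σ ∈ L, ∃ τ ∈ L, Disjoint σ τ ∧ x ∈ Cst σ τ}

theorem Cst_convex (σ τ : Finset (Fin n)) : Convex ℝ (Cst σ τ) := by
  intro x hx y hy a b ha hb hab
  refine ⟨?_, ?_, ?_⟩
  · intro i hi
    simp only [Pi.add_apply, Pi.smul_apply, smul_eq_mul]
    have h1 := hx.1 i hi
    have h2 := hy.1 i hi
    nlinarith
  · intro i hi
    simp only [Pi.add_apply, Pi.smul_apply, smul_eq_mul]
    have h1 := hx.2.1 i hi
    have h2 := hy.2.1 i hi
    positivity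
  · have : ∀ i, (if i ∈ τ then -(a • x + b • y) i else (a • x + b • y) i) =
        a * (if i ∈ τ then -x i else x i) + b * (if i ∈ τ then -y i else y i) := by
      intro i
      simp only [Pi.add_apply, Pi.smul_apply, smul_eq_mul]
      split_ifs <;> ring
    simp_rw [this]
    rw [Finset.sum_add_distrib, ← Finset.mul_sum, ← Finset.mul_sum, hx.2.2, hy.2.2]
    linarith

theorem Cst_abs {σ τ : Finset (Fin n)} (h : Disjoint σ τ) {x : Fin n → ℝ} (hx : x ∈ Cst σ τ) :
    ∑ i, |x i| = 1 := by
  rw [← hx.2.2]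
  refine Finset.sum_congr rfl fun i _ => ?_
  by_cases hi : i ∈ τ
  · rw [if_pos hi, abs_of_nonpos]
    exact hx.1 i (fun h' => (Finset.disjoint_left.mp h h') hi)
  · rw [if_neg hi, abs_of_nonneg (hx.2.1 i hi)]

theorem X_abs {L : Finset (Finset (Fin n))} {x : Fin n → ℝ} (hx : x ∈ X L) : ∑ i, |x i| = 1 := by
  obtain ⟨σ, -, τ, -, h, hx⟩ := hx
  exact Cst_abs h hx

theorem X_norm_le {L : Finset (Finset (Fin n))} {x : Fin n → ℝ} (hx : x ∈ X L) : ‖x‖ ≤ 1 := by
  rw [pi_norm_le_iff_of_nonneg zero_le_one]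
  intro i
  rw [Real.norm_eq_abs, ← X_abs hx]
  exact Finset.single_le_sum (f := fun i => |x i|) (fun i _ => abs_nonneg _) (Finset.mem_univ i)

theorem CC_sub_X {L : Finset (Finset (Fin n))} {C : Set (Fin n → ℝ)} (hC : C ∈ CC L) : C ⊆ X L := by
  obtain ⟨σ, hσ, τ, hτ, h, rfl⟩ := hC
  exact fun x hx => ⟨σ, hσ, τ, hτ, h, hx⟩

theorem CC_convex (L : Finset (Finset (Fin n))) : ∀ C ∈ CC L, Convex ℝ C := by
  rintro C ⟨σ, -, τ, -, -, rfl⟩
  exact Cst_convex σ τ

theorem pt_mem {U σ : Finset (Fin n)} {v : Fin n} (hv : v ∈ U) :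
    pt σ v ∈ Cst σ (U \ σ) := by
  unfold pt
  refine ⟨?_, ?_, ?_⟩
  · intro i hi
    by_cases hiv : i = v
    · subst hiv; simp [hi]
    · rw [Pi.single_eq_of_ne hiv]
  · intro i hi
    by_cases hiv : i = v
    · subst hiv
      have : i ∈ σ := by
        by_contra h
        exact hi (mem_sdiff.mpr ⟨hv, h⟩)
      simp [this]
    · rw [Pi.single_eq_of_ne hiv]
  · rw [Finset.sum_eq_single v]
    · by_cases h : v ∈ σ
      · simp [h]
      · simp [h, hv]
    · intro i _ hi
      rw [Pi.single_eq_of_ne hi]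
      simp
    · intro h; exact absurd (Finset.mem_univ v) h

theorem P_good {L : Finset (Finset (Fin n))} {q : ℕ} {l : List (Fin n → ℝ)} (hl : P L q l) :
    ∃ C ∈ CC L, Good q 2 C l := by
  obtain ⟨U, σ, h1, h2, h3, h4, rfl⟩ := hl
  have hC : Cst σ (U \ σ) ∈ CC L := ⟨σ, h2, U \ σ, h3, disjoint_sdiff, rfl⟩
  have hmem : ∀ u ∈ lst U σ, u ∈ Cst σ (U \ σ) := by
    intro u hu
    unfold lst at hu
    rw [List.mem_map] at hu
    obtain ⟨v, hv, rfl⟩ := hu
    rw [mem_sort] at hv
    exact pt_mem hv
  refine ⟨_, hC, by rw [lst, List.length_map, length_sort, h4], hmem, ?_⟩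
  intro u hu v hv
  have e1 := X_norm_le (CC_sub_X hC (hmem u hu))
  have e2 := X_norm_le (CC_sub_X hC (hmem v hv))
  calc ‖u - v‖ ≤ ‖u‖ + ‖v‖ := norm_sub_le _ _
    _ ≤ 2 := by linarith

theorem iter_mem {L : Finset (Finset (Fin n))} {q : ℕ} {c : Chain (Fin n → ℝ)}
    (hc : c ∈ S (P L q)) (r : ℕ) :
    (sub q)^[r] c ∈ S (fun l => ∃ C ∈ CC L, Good q (((q : ℝ) / (q + 1)) ^ r * 2) C l) :=
  sub_iter_good' q r 2 (by norm_num) (CC L) (CC_convex L) c (S_mono (fun _ hl => P_good hl) hc)

/-! ### admissible labels -/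

structure Adm (L : Finset (Finset (Fin n))) (a : (Fin n → ℝ) → ℕ) (s : (Fin n → ℝ) → ZMod 2) :
    Prop where
  ha : ∀ x, a (-x) = a x
  hs : ∀ x ∈ X L, s (-x) = s x + 1

theorem step {L : Finset (Finset (Fin n))} {q : ℕ} {c : Chain (Fin n → ℝ)}
    (hc : c ∈ S (P L (q + 1))) (r : ℕ) {a : (Fin n → ℝ) → ℕ} {s : (Fin n → ℝ) → ZMod 2}
    (h : Adm L a s) :
    alc s (sortC a ((sub (q + 1))^[r] (c + nu c))) = alc s (sortC a ((sub q)^[r] (bd c))) := by
  have hm : (sub (q + 1))^[r] c ∈ S (fun l => ∀ v ∈ l, s (-v) = s v + 1) := by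
    refine S_mono ?_ (iter_mem hc r)
    rintro l ⟨C, hC, -, hl, -⟩ v hv
    exact h.hs v (CC_sub_X hC (hl v hv))
  rw [add_iter, ← nu_iter, map_add, sortC_nu a h.ha, alc_nu s (sortC_mem a hm), ← alc_bd, bd_sortC,
    bd_iter]

/-- the first point is positive -/
def hd : List (Fin n → ℝ) → Prop
  | [] => False
  | x :: _ => 0 < ∑ i, x i

theorem hd_neg {L : Finset (Finset (Fin n))} {q : ℕ} {l : List (Fin n → ℝ)}
    (hl : P L (q + 1) l) : hd (l.map (fun v => -v)) ↔ ¬ hd l := by
  obtain ⟨U, σ, h1, h2, h3, h4, rfl⟩ := hl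
  unfold lst
  have hlen : (U.sort).length = q + 1 := by rw [length_sort, h4]
  cases hs : U.sort with
  | nil => rw [hs] at hlen; simp at hlen
  | cons v t =>
    simp only [List.map_cons, hd, Pi.neg_apply, Finset.sum_neg_distrib]
    have : ∑ i, pt σ v i = if v ∈ σ then 1 else -1 := by
      unfold pt
      simp
    rw [this]
    split_ifs <;> norm_num

theorem nu_apply (c : Chain (Fin n → ℝ)) (l : List (Fin n → ℝ)) :
    nu c l = c (l.map (fun v => -v)) := by
  have hinv : ∀ l : List (Fin n → ℝ), (l.map (fun v => -v)).map (fun v => -v) = l := by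
    intro l
    rw [List.map_map]
    simp
  have hinj : Function.Injective (List.map (fun v : Fin n → ℝ => -v)) := by
    intro l l' h
    have := congrArg (List.map (fun v => -v)) h
    rwa [hinv, hinv] at this
  conv_lhs => rw [← hinv l]
  exact Finsupp.mapDomain_apply hinj c _

theorem S_apply {Q : List (Fin n → ℝ) → Prop} {c : Chain (Fin n → ℝ)} (hc : c ∈ S Q)
    {l : List (Fin n → ℝ)} (hl : c l ≠ 0) : Q l := by
  have : l ∈ (c.support : Set (List (Fin n → ℝ))) := by
    simpa using hl
  exact (Finsupp.mem_supported _ _).mp hc this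

theorem split {L : Finset (Finset (Fin n))} {q : ℕ} {z : Chain (Fin n → ℝ)}
    (hz : z ∈ S (P L (q + 1))) (hnu : nu z = z) :
    ∃ c ∈ S (P L (q + 1)), z = c + nu c := by
  classical
  refine ⟨z.filter hd, ?_, ?_⟩
  · refine (Finsupp.mem_supported _ _).mpr ?_
    refine Set.Subset.trans ?_ ((Finsupp.mem_supported _ _).mp hz)
    intro l hl
    rw [Finset.mem_coe, Finsupp.support_filter, Finset.mem_filter] at hl
    exact hl.1
  · ext l
    rw [Finsupp.add_apply, nu_apply, Finsupp.filter_apply, Finsupp.filter_apply]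
    have e : z (l.map (fun v => -v)) = z l := by rw [← nu_apply, hnu]
    rw [e]
    by_cases h0 : z l = 0
    · simp [h0]
    · have := hd_neg (S_apply hz h0)
      by_cases h1 : hd l
      · have h2 : ¬ hd (l.map (fun v => -v)) := fun h => (this.mp h) h1
        simp [h1, h2]
      · have h2 : hd (l.map (fun v => -v)) := this.mpr h1
        simp [h1, h2]

theorem claim {L : Finset (Finset (Fin n))} (hL : IsCx L) (q : ℕ) :
    ∀ z : Chain (Fin n → ℝ), z ∈ S (P L q) → nu z = z → bd z = 0 →
    ∀ (r r' : ℕ) (a a' : (Fin n → ℝ) → ℕ) (s s' : (Fin n → ℝ) → ZMod 2),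
      Adm L a s → Adm L a' s' →
      alc s (sortC a ((sub q)^[r] z)) = alc s' (sortC a' ((sub q)^[r'] z)) := by
  induction q with
  | zero =>
    intro z hz _ _ r r' a a' s s' _ _
    have h0 : ∀ (r : ℕ) (c : Chain (Fin n → ℝ)), (sub 0)^[r] c = c := by
      intro r c
      induction r with
      | zero => rfl
      | succ r ih => rw [Function.iterate_succ_apply', ih]; rfl
    rw [h0, h0]
    refine sub_eq_zero.mp (lin_eq_zero ((alc s).comp (sortC a) - (alc s').comp (sortC a')) ?_ hz)
    rintro l ⟨U, σ, h1, h2, h3, h4, rfl⟩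
    have hU : U = ∅ := card_eq_zero.mp h4
    subst hU
    have : lst ∅ σ = [] := by unfold lst; simp
    rw [this]
    simp [LinearMap.sub_apply, sortC_single, alc_single, al]
  | succ q ih =>
    intro z hz hnu hbd r r' a a' s s' h h'
    obtain ⟨c, hc, rfl⟩ := split hz hnu
    rw [step hc r h, step hc r' h']
    have e : bd (nu c) = bd c := by
      rw [map_add] at hbd
      calc bd (nu c) = (bd c + bd c) + bd (nu c) := by rw [add_self, zero_add]
        _ = bd c + (bd c + bd (nu c)) := by abel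
        _ = bd c := by rw [hbd, add_zero]
    refine ih (bd c) (bd_P hL hc) ?_ (bd_bd c) r r' a a' s s' h h'
    rw [nu_bd, e]

/-! ### the chain of a cycle -/

noncomputable def zz (D : ℕ) (Z : Finset (Fin n) → Finset (Fin n) → ZMod 2) :
    Chain (Fin n → ℝ) :=
  ∑ U ∈ powersetCard D univ, ∑ σ ∈ U.powerset, Finsupp.single (lst U σ) (Z σ (U \ σ))

theorem zz_mem {L : Finset (Finset (Fin n))} {D : ℕ}
    {Z : Finset (Fin n) → Finset (Fin n) → ZMod 2}
    (hZ : ∀ σ τ, Z σ τ ≠ 0 → σ ∈ L ∧ τ ∈ L) : zz D Z ∈ S (P L D) := by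
  refine Submodule.sum_mem _ fun U hU => Submodule.sum_mem _ fun σ hσ => ?_
  by_cases h : Z σ (U \ σ) = 0
  · rw [h, Finsupp.single_zero]
    exact Submodule.zero_mem _
  · exact single_mem_S ⟨U, σ, mem_powerset.mp hσ, (hZ _ _ h).1, (hZ _ _ h).2,
      (mem_powersetCard.mp hU).2, rfl⟩ _

theorem zz_nu {D : ℕ} {Z : Finset (Fin n) → Finset (Fin n) → ZMod 2}
    (hZ : ∀ σ τ, Z σ τ = Z τ σ) : nu (zz D Z) = zz D Z := by
  unfold zz
  rw [map_sum]
  refine Finset.sum_congr rfl fun U _ => ?_
  rw [map_sum]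
  refine Finset.sum_nbij' (fun σ => U \ σ) (fun σ => U \ σ) ?_ ?_ ?_ ?_ ?_
  · intro σ _; exact mem_powerset.mpr sdiff_subset
  · intro σ _; exact mem_powerset.mpr sdiff_subset
  · intro σ hσ; exact Finset.sdiff_sdiff_eq_self (mem_powerset.mp hσ)
  · intro σ hσ; exact Finset.sdiff_sdiff_eq_self (mem_powerset.mp hσ)
  · intro σ hσ
    rw [nu_single, lst_neg, Finset.sdiff_sdiff_eq_self (mem_powerset.mp hσ), hZ]

theorem sum_erase_compl {A : Type*} [AddCommMonoid A] (D : ℕ) (g : Finset (Fin n) → Fin n → A) :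
    ∑ U ∈ powersetCard (D + 1) (univ : Finset (Fin n)), ∑ v ∈ U, g (U.erase v) v =
    ∑ W ∈ powersetCard D (univ : Finset (Fin n)), ∑ v ∈ Wᶜ, g W v := by
  rw [Finset.sum_sigma', Finset.sum_sigma']
  refine Finset.sum_nbij'
    (fun x : (_ : Finset (Fin n)) × Fin n =>
      (⟨x.1.erase x.2, x.2⟩ : (_ : Finset (Fin n)) × Fin n))
    (fun x : (_ : Finset (Fin n)) × Fin n =>
      (⟨insert x.2 x.1, x.2⟩ : (_ : Finset (Fin n)) × Fin n))
    ?_ ?_ ?_ ?_ ?_
  · rintro ⟨U, v⟩ hx
    simp only [mem_sigma, mem_powersetCard, subset_univ, true_and, mem_compl, mem_erase,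
      ne_eq, not_true_eq_false, false_and, not_false_eq_true, and_true] at hx ⊢
    rw [card_erase_of_mem hx.2, hx.1]; rfl
  · rintro ⟨W, v⟩ hx
    simp only [mem_sigma, mem_powersetCard, subset_univ, true_and, mem_compl,
      mem_insert_self, and_true] at hx ⊢
    rw [card_insert_of_notMem hx.2, hx.1]
  · rintro ⟨U, v⟩ hx
    simp only [mem_sigma] at hx
    simp [insert_erase hx.2]
  · rintro ⟨W, v⟩ hx
    simp only [mem_sigma, mem_compl] at hx
    simp [erase_insert hx.2]
  · rintro ⟨U, v⟩ hx
    rfl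

theorem zz_bd {D : ℕ} {Z : Finset (Fin n) → Finset (Fin n) → ZMod 2}
    (hZ : ∀ ρ τ : Finset (Fin n), Disjoint ρ τ → ρ.card + τ.card + 1 = D + 1 →
      ∑ v ∈ (ρ ∪ τ)ᶜ, (Z (insert v ρ) τ + Z ρ (insert v τ)) = 0) : bd (zz (D + 1) Z) = 0 := by
  have h1 : bd (zz (D + 1) Z) = ∑ U ∈ powersetCard (D + 1) (univ : Finset (Fin n)), ∑ v ∈ U,
      ∑ σ ∈ U.powerset, Finsupp.single (lst (U.erase v) (σ.erase v)) (Z σ (U \ σ)) := by
    unfold zz
    rw [map_sum]
    refine Finset.sum_congr rfl fun U _ => ?_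
    rw [map_sum, Finset.sum_comm]
    refine Finset.sum_congr rfl fun σ _ => ?_
    rw [bd_single, bdL_lst, Finset.smul_sum]
    refine Finset.sum_congr rfl fun v _ => ?_
    rw [Finsupp.smul_single, smul_eq_mul, mul_one]
  have h2 : ∀ U ∈ powersetCard (D + 1) (univ : Finset (Fin n)), ∀ v ∈ U,
      ∑ σ ∈ U.powerset, Finsupp.single (lst (U.erase v) (σ.erase v)) (Z σ (U \ σ)) =
      ∑ ρ ∈ (U.erase v).powerset, Finsupp.single (lst (U.erase v) ρ)
        (Z (insert v ρ) (U.erase v \ ρ) + Z ρ (insert v (U.erase v \ ρ))) := by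
    intro U _ v hv
    have hv' : v ∉ U.erase v := notMem_erase v U
    conv_lhs => rw [← insert_erase hv]
    rw [Finset.sum_powerset_insert hv', ← Finset.sum_add_distrib]
    refine Finset.sum_congr rfl fun ρ hρ => ?_
    rw [mem_powerset] at hρ
    have hvρ : v ∉ ρ := fun h => hv' (hρ h)
    have e1 : insert v (U.erase v) \ ρ = insert v (U.erase v \ ρ) :=
      insert_sdiff_of_notMem _ hvρ
    have e2 : insert v (U.erase v) \ insert v ρ = U.erase v \ ρ := by
      ext w
      simp only [mem_sdiff, mem_insert, mem_erase, not_or]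
      tauto
    rw [e1, e2, erase_insert hv', erase_eq_of_notMem hvρ, erase_insert hvρ, ← Finsupp.single_add,
      add_comm]
  rw [h1, Finset.sum_congr rfl fun U hU => Finset.sum_congr rfl fun v hv => h2 U hU v hv]
  have h3 := sum_erase_compl D (fun W v => ∑ ρ ∈ W.powerset, Finsupp.single (lst W ρ)
        (Z (insert v ρ) (W \ ρ) + Z ρ (insert v (W \ ρ))))
  rw [h3]
  refine Finset.sum_eq_zero fun W hW => ?_
  rw [Finset.sum_comm]
  refine Finset.sum_eq_zero fun ρ hρ => ?_
  rw [mem_powerset] at hρ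
  rw [← Finsupp.single_finsetSum]
  have e := hZ ρ (W \ ρ) disjoint_sdiff (by
    rw [card_sdiff_of_subset hρ, (mem_powersetCard.mp hW).2]
    have := card_le_card hρ
    rw [(mem_powersetCard.mp hW).2] at this
    omega)
  rw [union_sdiff_of_subset hρ] at e
  rw [e, Finsupp.single_zero]

/-! ### the standard labels -/

/-- first nonzero coordinate -/
noncomputable def a0 (x : Fin n → ℝ) : ℕ := sInf {i : ℕ | ∃ h : i < n, x ⟨i, h⟩ ≠ 0}

open Classical in
/-- its sign -/
noncomputable def s0 (x : Fin n → ℝ) : ZMod 2 :=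
  if ∃ i, 0 < x i ∧ ∀ j < i, x j = 0 then 1 else 0

theorem adm0 (L : Finset (Finset (Fin n))) : Adm L (a0 (n := n)) s0 := by
  constructor
  · intro x
    unfold a0
    simp
  · intro x hx
    have hne : x ≠ 0 := by
      rintro rfl
      have := X_abs hx
      simp at this
    -- the first nonzero coordinate
    obtain ⟨i, hi, hmin⟩ : ∃ i, x i ≠ 0 ∧ ∀ j < i, x j = 0 := by
      by_contra hcon
      push Not at hcon
      apply hne
      funext i
      have : ∀ m : ℕ, ∀ i : Fin n, (i : ℕ) = m → x i = 0 := by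
        intro m
        induction m using Nat.strong_induction_on with
        | _ m ih =>
          intro i him
          by_contra hxi
          obtain ⟨j, hj, hxj⟩ := hcon i hxi
          exact hxj (ih j (by rw [← him]; exact hj) j rfl)
      exact this i i rfl
    have key : ∀ y : Fin n → ℝ, (∀ j < i, y j = 0) → y i ≠ 0 →
        ((∃ k, 0 < y k ∧ ∀ j < k, y j = 0) ↔ 0 < y i) := by
      intro y hy hyi
      constructor
      · rintro ⟨k, hk, hkm⟩
        rcases lt_trichotomy i k with h | h | h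
        · exact absurd (hkm i h) hyi
        · rw [h]; exact hk
        · rw [hy k h] at hk; exact absurd hk (lt_irrefl _)
      · intro h
        exact ⟨i, h, hy⟩
    have e1 := key x hmin hi
    have e2 := key (-x) (fun j hj => by simp [hmin j hj]) (by simpa using hi)
    have f1 : s0 x = if 0 < x i then 1 else 0 := by
      unfold s0
      by_cases h : 0 < x i
      · rw [if_pos (e1.mpr h), if_pos h]
      · rw [if_neg (fun h' => h (e1.mp h')), if_neg h]
    have f2 : s0 (-x) = if 0 < -x i then 1 else 0 := by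
      unfold s0
      by_cases h : 0 < (-x) i
      · rw [if_pos (e2.mpr h)]
        have h' : 0 < -x i := h
        rw [if_pos h']
      · rw [if_neg (fun h' => h (e2.mp h'))]
        have h' : ¬ 0 < -x i := h
        rw [if_neg h']
    rw [f1, f2]
    rcases lt_or_gt_of_ne hi with h | h
    · have h2 : ¬ 0 < x i := not_lt.mpr h.le
      have h3 : 0 < -x i := by linarith
      simp [h2, h3]
    · have h3 : ¬ 0 < -x i := by rw [not_lt]; linarith
      simp only [h, h3, if_true, if_false]
      exact (z2_add_self 1).symm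

theorem a0_pt (σ : Finset (Fin n)) (v : Fin n) : a0 (pt σ v) = v := by
  unfold a0 pt
  have : {i : ℕ | ∃ h : i < n, (Pi.single v (if v ∈ σ then (1 : ℝ) else -1) : Fin n → ℝ)
      ⟨i, h⟩ ≠ 0} = {(v : ℕ)} := by
    ext i
    simp only [Set.mem_ofPred_eq, Set.mem_singleton_iff]
    constructor
    · rintro ⟨h, h1⟩
      by_contra hne
      apply h1
      rw [Pi.single_eq_of_ne]
      intro h2
      exact hne (congrArg Fin.val h2)
    · rintro rfl
      refine ⟨v.2, ?_⟩
      rw [Fin.eta, Pi.single_eq_same]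
      split_ifs <;> norm_num
  rw [this, csInf_singleton]

theorem s0_pt (σ : Finset (Fin n)) (v : Fin n) : s0 (pt σ v) = if v ∈ σ then 1 else 0 := by
  unfold s0
  have : (∃ i, 0 < pt σ v i ∧ ∀ j < i, pt σ v j = 0) ↔ v ∈ σ := by
    unfold pt
    constructor
    · rintro ⟨i, hi, -⟩
      by_cases h : i = v
      · subst h
        rw [Pi.single_eq_same] at hi
        by_contra hn
        rw [if_neg hn] at hi
        norm_num at hi
      · rw [Pi.single_eq_of_ne h] at hi
        exact absurd hi (lt_irrefl _)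
    · intro h
      refine ⟨v, by rw [Pi.single_eq_same, if_pos h]; norm_num, fun j hj => ?_⟩
      rw [Pi.single_eq_of_ne hj.ne]
  simp only [this]

theorem W_map {V V' : Type*} (s : V' → ZMod 2) (f : V → V') (l : List V) :
    W s (l.map f) = W (fun v => s (f v)) l := by
  induction l with
  | nil => rfl
  | cons x t ih =>
    cases t with
    | nil => rfl
    | cons y u =>
      simp only [List.map_cons, W] at ih ⊢
      rw [ih]

theorem al_map {V V' : Type*} (s : V' → ZMod 2) (f : V → V') (l : List V) :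
    al s (l.map f) = al (fun v => s (f v)) l := by
  cases l with
  | nil => rfl
  | cons x t =>
    have := W_map s f (x :: t)
    simp only [List.map_cons] at this
    simp only [List.map_cons, al]
    rw [this]

/-- alternating lists starting with `0` -/
def al' {V : Type*} (s : V → ZMod 2) : List V → ZMod 2
  | [] => 1
  | x :: t => (1 + s x) * W s (x :: t)

theorem al_cons {V : Type*} (s : V → ZMod 2) (x : V) (r : List V) :
    al s (x :: r) = s x * al' s r := by
  cases r with
  | nil => rfl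
  | cons y t =>
    simp only [al, al', W]
    have h1 := z2_sq (s x)
    linear_combination (W s (y :: t)) * h1

theorem al'_cons {V : Type*} (s : V → ZMod 2) (x : V) (r : List V) :
    al' s (x :: r) = (1 + s x) * al s r := by
  cases r with
  | nil => rfl
  | cons y t =>
    simp only [al, al', W]
    have h1 := z2_sq (s x)
    have h2 := z2_add_self (s x * W s (y :: t))
    linear_combination (W s (y :: t)) * h1 + h2

theorem evenPart_insert {x : Fin n} {R : Finset (Fin n)} (h : ∀ y ∈ R, x < y) :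
    evenPart (insert x R) = insert x (oddPart R) := by
  have hx : x ∉ R := fun h' => lt_irrefl _ (h x h')
  ext u
  simp only [evenPart, oddPart, mem_filter, mem_insert]
  by_cases hu : u = x
  · subst hu
    have : (insert u R).filter (fun w => w < u) = ∅ := by
      ext w
      simp only [mem_filter, mem_insert, notMem_empty, iff_false, not_and, not_lt]
      rintro (rfl | hw)
      · exact le_rfl
      · exact (h w hw).le
    simp [this]
  · by_cases huR : u ∈ R
    · have : (insert x R).filter (fun w => w < u) = insert x (R.filter (fun w => w < u)) := by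
        rw [filter_insert, if_pos (h u huR)]
      rw [this, card_insert_of_notMem (fun h' => hx (mem_filter.mp h').1), Nat.even_add_one]
      simp [hu, huR]
    · simp [hu, huR]

theorem oddPart_insert {x : Fin n} {R : Finset (Fin n)} (h : ∀ y ∈ R, x < y) :
    oddPart (insert x R) = evenPart R := by
  have hx : x ∉ R := fun h' => lt_irrefl _ (h x h')
  ext u
  simp only [evenPart, oddPart, mem_filter, mem_insert]
  by_cases hu : u = x
  · subst hu
    have : (insert u R).filter (fun w => w < u) = ∅ := by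
      ext w
      simp only [mem_filter, mem_insert, notMem_empty, iff_false, not_and, not_lt]
      rintro (rfl | hw)
      · exact le_rfl
      · exact (h w hw).le
    simp [this, hx]
  · by_cases huR : u ∈ R
    · have : (insert x R).filter (fun w => w < u) = insert x (R.filter (fun w => w < u)) := by
        rw [filter_insert, if_pos (h u huR)]
      rw [this, card_insert_of_notMem (fun h' => hx (mem_filter.mp h').1), Nat.even_add_one]
      simp [hu, huR]
    · simp [hu, huR]

open Classical in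
theorem al_eval (s : Fin n → ZMod 2) (u : List (Fin n)) (hu : u.Pairwise (fun a b => a < b)) :
    al s u = (if ∀ v ∈ u, s v = 1 ↔ v ∈ evenPart u.toFinset then 1 else 0) ∧
    al' s u = (if ∀ v ∈ u, s v = 1 ↔ v ∈ oddPart u.toFinset then 1 else 0) := by
  induction u with
  | nil => simp [al, al']
  | cons x r ih =>
    rw [List.pairwise_cons] at hu
    obtain ⟨ih1, ih2⟩ := ih hu.2
    have hlt : ∀ y ∈ r.toFinset, x < y := fun y hy => hu.1 y (by simpa using hy)
    have hx : x ∉ r.toFinset := fun h' => lt_irrefl _ (hlt x h')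
    have h2 : s x = 0 ∨ s x = 1 := by
      generalize s x = t
      revert t
      decide
    rw [al_cons, al'_cons, ih1, ih2, List.toFinset_cons, evenPart_insert hlt, oddPart_insert hlt]
    constructor
    · have e : (∀ v ∈ x :: r, s v = 1 ↔ v ∈ insert x (oddPart r.toFinset)) ↔
          (s x = 1 ∧ ∀ v ∈ r, s v = 1 ↔ v ∈ oddPart r.toFinset) := by
        constructor
        · intro h
          refine ⟨(h x (by simp)).mpr (by simp), fun v hv => ?_⟩
          rw [h v (by simp [hv]), mem_insert]
          have : v ≠ x := by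
            intro h3
            rw [h3] at hv
            exact hx (by simpa using hv)
          simp [this]
        · rintro ⟨h1, h⟩ v hv
          rcases List.mem_cons.mp hv with rfl | hv2
          · simp [h1]
          · have : v ≠ x := by
              intro h3
              rw [h3] at hv2
              exact hx (by simpa using hv2)
            rw [h v hv2]
            simp [this]
      rw [if_congr e rfl rfl]
      rcases h2 with h2 | h2 <;> simp [h2]
    · have e : (∀ v ∈ x :: r, s v = 1 ↔ v ∈ evenPart r.toFinset) ↔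
          (s x = 0 ∧ ∀ v ∈ r, s v = 1 ↔ v ∈ evenPart r.toFinset) := by
        constructor
        · intro h
          refine ⟨?_, fun v hv => h v (by simp [hv])⟩
          rcases h2 with h2 | h2
          · exact h2
          · exfalso
            have := (h x (by simp)).mp h2
            exact hx (mem_filter.mp this).1
        · rintro ⟨h1, h⟩ v hv
          rcases List.mem_cons.mp hv with rfl | hv
          · rw [h1]
            constructor
            · intro h0; exact absurd h0 (by decide)
            · intro h0; exact absurd (mem_filter.mp h0).1 hx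
          · exact h v hv
      rw [if_congr e rfl rfl]
      rcases h2 with h2 | h2
      · simp [h2]
      · have h3 : (1 : ZMod 2) + 1 = 0 := by decide
        simp [h2, h3]

theorem al_lst {U σ : Finset (Fin n)} (h : σ ⊆ U) :
    al s0 (lst U σ) = if σ = evenPart U then 1 else 0 := by
  classical
  unfold lst
  rw [al_map, (al_eval _ _ (sortedLT_sort U).pairwise).1, sort_toFinset]
  refine if_congr ?_ rfl rfl
  simp only [s0_pt, mem_sort]
  constructor
  · intro h1
    ext v
    by_cases hv : v ∈ U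
    · rw [← h1 v hv]
      by_cases hvσ : v ∈ σ <;> simp [hvσ]
    · constructor
      · intro h2; exact absurd (h h2) hv
      · intro h2; exact absurd (mem_filter.mp h2).1 hv
  · rintro rfl v hv
    by_cases hvσ : v ∈ evenPart U <;> simp [hvσ]

theorem sort_lst (U σ : Finset (Fin n)) :
    (lst U σ).insertionSort (fun x y => a0 x ≤ a0 y) = lst U σ := by
  have : (lst U σ).Pairwise (fun x y => a0 x ≤ a0 y) := by
    unfold lst
    rw [List.pairwise_map]
    refine (pairwise_sort U (fun a b => a ≤ b)).imp ?_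
    intro v w h
    rw [a0_pt, a0_pt]
    exact h
  exact this.insertionSort_eq

theorem eval0 (D : ℕ) (Z : Finset (Fin n) → Finset (Fin n) → ZMod 2) :
    alc s0 (sortC a0 (zz D Z)) = ∑ U ∈ powersetCard D univ, Z (evenPart U) (oddPart U) := by
  unfold zz
  rw [map_sum, map_sum]
  refine Finset.sum_congr rfl fun U _ => ?_
  rw [map_sum, map_sum]
  have : ∀ σ ∈ U.powerset, alc s0 (sortC a0 (Finsupp.single (lst U σ) (Z σ (U \ σ)))) =
      if σ = evenPart U then Z σ (U \ σ) else 0 := by
    intro σ hσ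
    rw [sortC_single, sort_lst, alc_single, al_lst (mem_powerset.mp hσ)]
    split_ifs <;> simp
  rw [Finset.sum_congr rfl this, Finset.sum_ite_eq', if_pos]
  · congr 1
    ext v
    simp only [evenPart, oddPart, mem_sdiff, mem_filter, not_and]
    tauto
  · rw [mem_powerset]
    exact filter_subset _ _

/-! ### the labels of an embedding -/

def pos (x : Fin n → ℝ) : Fin n → ℝ := fun i => max (x i) 0

theorem pos_cont : Continuous (pos : (Fin n → ℝ) → (Fin n → ℝ)) := by
  unfold pos
  fun_prop

theorem pos_mem {L : Finset (Finset (Fin n))} {x : Fin n → ℝ} (hx : x ∈ X L) :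
    pos x ∈ coneSet L := by
  obtain ⟨σ, hσ, τ, hτ, h, hx⟩ := hx
  refine ⟨fun i => le_max_right _ _, σ, hσ, fun i hi => ?_⟩
  exact max_eq_right (hx.1 i hi)

theorem neg_mem {L : Finset (Finset (Fin n))} {x : Fin n → ℝ} (hx : x ∈ X L) :
    pos (-x) ∈ coneSet L := by
  obtain ⟨σ, hσ, τ, hτ, h, hx⟩ := hx
  refine ⟨fun i => le_max_right _ _, τ, hτ, fun i hi => ?_⟩
  refine max_eq_right ?_
  have := hx.2.1 i hi
  simpa using this

theorem Cst_closed (σ τ : Finset (Fin n)) : IsClosed (Cst σ τ) := by
  have e : Cst σ τ = (⋂ i, {x : Fin n → ℝ | i ∉ σ → x i ≤ 0}) ∩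
      ((⋂ i, {x : Fin n → ℝ | i ∉ τ → 0 ≤ x i}) ∩
        {x : Fin n → ℝ | ∑ i, (if i ∈ τ then -x i else x i) = 1}) := by
    ext x
    simp [Cst]
  rw [e]
  refine IsClosed.inter (isClosed_iInter fun i => ?_) (IsClosed.inter (isClosed_iInter fun i => ?_)
    ?_)
  · by_cases h : i ∈ σ
    · simp [h]
    · simp only [h, not_false_eq_true, forall_const]
      exact isClosed_le (by fun_prop) (by fun_prop)
  · by_cases h : i ∈ τ
    · simp [h]
    · simp only [h, not_false_eq_true, forall_const]
      exact isClosed_le (by fun_prop) (by fun_prop)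
  · refine isClosed_eq ?_ continuous_const
    refine continuous_finsetSum _ fun i _ => ?_
    split_ifs <;> fun_prop

theorem X_compact (L : Finset (Finset (Fin n))) : IsCompact (X L) := by
  have e : X L = ⋃ p ∈ (L ×ˢ L).filter (fun p => Disjoint p.1 p.2), Cst p.1 p.2 := by
    ext x
    simp only [X, Set.mem_ofPred_eq, Set.mem_iUnion, mem_filter, mem_product]
    constructor
    · rintro ⟨σ, hσ, τ, hτ, h, hx⟩
      exact ⟨(σ, τ), ⟨⟨hσ, hτ⟩, h⟩, hx⟩
    · rintro ⟨⟨σ, τ⟩, ⟨⟨hσ, hτ⟩, h⟩, hx⟩
      exact ⟨σ, hσ, τ, hτ, h, hx⟩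
  apply Metric.isCompact_of_isClosed_isBounded
  · rw [e]
    exact isClosed_biUnion_finset fun p _ => Cst_closed p.1 p.2
  · rw [isBounded_iff_forall_norm_le]
    exact ⟨1, fun x hx => X_norm_le hx⟩

theorem key {L : Finset (Finset (Fin n))} {m : ℕ} (hL : ConeEmb L (m + 1))
    (z : Chain (Fin n → ℝ)) (hz : z ∈ S (P L (m + 2))) :
    ∃ (r : ℕ) (a : (Fin n → ℝ) → ℕ) (s : (Fin n → ℝ) → ZMod 2), Adm L a s ∧
      alc s (sortC a ((sub (m + 2))^[r] z)) = 0 := by
  obtain ⟨F, hFc, hF⟩ := hL
  obtain ⟨f, hf⟩ : ∃ f : (Fin n → ℝ) → (Fin (m + 1) → ℝ), f = fun x => F (pos x) - F (pos (-x)) :=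
    ⟨_, rfl⟩
  have hfc : ContinuousOn f (X L) := by
    rw [hf]
    refine ContinuousOn.sub ?_ ?_
    · exact hFc.comp pos_cont.continuousOn (fun x hx => pos_mem hx)
    · exact hFc.comp (pos_cont.comp continuous_neg).continuousOn (fun x hx => neg_mem hx)
  have hodd : ∀ x, f (-x) = -f x := by
    intro x
    rw [hf]
    simp only [neg_neg]
    abel
  have hcon : ∀ x ∈ X L, f x ≠ 0 := by
    intro x hx h0
    rw [hf] at h0
    have h1 := hF (pos x) (pos_mem hx) (pos (-x)) (neg_mem hx) (fun i => by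
      unfold pos
      rcases le_total (x i) 0 with h | h
      · left; exact max_eq_right h
      · right; refine max_eq_right ?_; simpa using h) (sub_eq_zero.mp h0)
    have h2 : ∀ i, x i = 0 := by
      intro i
      have e1 : max (x i) 0 = 0 := congrFun h1.1 i
      have e2 : max (-x i) 0 = 0 := congrFun h1.2 i
      have e3 := le_max_left (x i) 0
      have e4 := le_max_left (-x i) 0
      linarith
    have h3 := X_abs hx
    simp [h2] at h3
  obtain ⟨c, hc, hmin⟩ : ∃ c : ℝ, 0 < c ∧ ∀ x ∈ X L, c ≤ ‖f x‖ := by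
    by_cases hne : (X L).Nonempty
    · obtain ⟨x₀, hx₀, hmin⟩ := (X_compact L).exists_isMinOn hne hfc.norm
      exact ⟨‖f x₀‖, norm_pos_iff.mpr (hcon x₀ hx₀), fun x hx => hmin hx⟩
    · exact ⟨1, one_pos, fun x hx => absurd ⟨x, hx⟩ hne⟩
  have huc := (X_compact L).uniformContinuousOn_of_continuous hfc
  rw [Metric.uniformContinuousOn_iff] at huc
  obtain ⟨δ, hδ, hδ'⟩ := huc c hc
  have hq : (((m + 2 : ℕ) : ℝ) / ((m + 2 : ℕ) + 1)) < 1 := by
    rw [div_lt_one (by positivity)]
    linarith
  obtain ⟨r, hr⟩ := exists_pow_lt_of_lt_one (show 0 < δ / 2 by positivity) hq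
  let a : (Fin n → ℝ) → ℕ := fun x => (arg (fun i => |f x i|) : Fin (m + 1))
  let s : (Fin n → ℝ) → ZMod 2 :=
    fun x => if 0 < f x (arg (fun i => |f x i|)) then 1 else 0
  have habs : ∀ x, (fun i => |f (-x) i|) = fun i => |f x i| := by
    intro x; funext i; rw [hodd, Pi.neg_apply, abs_neg]
  have ha : ∀ x, a (-x) = a x := by
    intro x
    simp only [a, habs]
  have hnorm : ∀ x, ‖f x‖ = |f x (arg (fun i => |f x i|))| := by
    intro x
    apply le_antisymm
    · rw [pi_norm_le_iff_of_nonneg (abs_nonneg _)]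
      intro i
      exact arg_spec (fun i => |f x i|) i
    · exact norm_le_pi_norm (f x) _
  have hs : ∀ x ∈ X L, s (-x) = s x + 1 := by
    intro x hx
    have h1 := hnorm x
    have h2 : f x (arg (fun i => |f x i|)) ≠ 0 := by
      intro h
      rw [h, abs_zero] at h1
      exact hcon x hx (norm_eq_zero.mp h1)
    simp only [s, habs]
    rw [hodd, Pi.neg_apply]
    rcases lt_or_gt_of_ne h2 with h | h
    · have h3 : ¬ 0 < f x (arg (fun i => |f x i|)) := not_lt.mpr h.le
      have h4 : 0 < -f x (arg (fun i => |f x i|)) := by linarith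
      simp [h3, h4]
    · have h3 : ¬ 0 < -f x (arg (fun i => |f x i|)) := by
        rw [not_lt]; linarith
      simp only [h, h3, if_true, if_false]
      exact (z2_add_self 1).symm
  have hcompl : ∀ x ∈ X L, ∀ y ∈ X L, dist x y < δ → a x = a y → s x = s y := by
    intro x hx y hy hxy hax
    have hd := hδ' x hx y hy hxy
    have hax' : arg (fun i => |f x i|) = arg (fun i => |f y i|) := Fin.ext hax
    simp only [s]
    rw [← hax']
    have h1 := hnorm x
    have h2 := hnorm y
    rw [← hax'] at h2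
    have h3 := hmin x hx
    have h4 := hmin y hy
    have h5 : |f x (arg (fun i => |f x i|)) - f y (arg (fun i => |f x i|))| < c := by
      rw [dist_eq_norm] at hd
      exact lt_of_le_of_lt (norm_le_pi_norm (f x - f y) _) hd
    set p := f x (arg (fun i => |f x i|))
    set q := f y (arg (fun i => |f x i|))
    have h6 : c ≤ |p| := by rw [← h1]; exact h3
    have h7 : c ≤ |q| := by rw [← h2]; exact h4
    rw [abs_lt] at h5
    rcases le_abs'.mp h6 with h8 | h8 <;> rcases le_abs'.mp h7 with h9 | h9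
    · have e1 : ¬ 0 < p := by linarith
      have e2 : ¬ 0 < q := by linarith
      simp [e1, e2]
    · exfalso; linarith [h5.1]
    · exfalso; linarith [h5.2]
    · have e1 : 0 < p := by linarith
      have e2 : 0 < q := by linarith
      simp [e1, e2]
  refine ⟨r, a, s, ⟨ha, hs⟩, ?_⟩
  refine lin_eq_zero ((alc s).comp (sortC a)) ?_ (iter_mem hz r)
  rintro l ⟨C, hC, hlen, hl, hD⟩
  rw [LinearMap.comp_apply, sortC_single, alc_single, one_mul]
  have hlX : ∀ v ∈ l, v ∈ X L := fun v hv => CC_sub_X hC (hl v hv)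
  have hst : Std.Total (fun x y : Fin n → ℝ => a x ≤ a y) :=
    ⟨fun x y => le_total (a x) (a y)⟩
  have htr : IsTrans (Fin n → ℝ) (fun x y => a x ≤ a y) := ⟨fun x y z => le_trans⟩
  have hW : W s (l.insertionSort (fun x y => a x ≤ a y)) = 0 := by
    refine W_zero (m + 1) a s _ ?_ ?_ ?_ (List.pairwise_insertionSort _ l)
    · rw [List.length_insertionSort, hlen]; omega
    · intro v _
      exact (arg (fun i => |f v i|)).2
    · intro u hu v hv
      rw [List.mem_insertionSort] at hu hv
      refine hcompl u (hlX u hu) v (hlX v hv) ?_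
      rw [dist_eq_norm]
      refine lt_of_le_of_lt (hD u hu v hv) ?_
      linarith
  have hlen2 : (l.insertionSort (fun x y => a x ≤ a y)).length = m + 2 := by
    rw [List.length_insertionSort, hlen]
  revert hW hlen2
  generalize l.insertionSort (fun x y => a x ≤ a y) = l'
  intro hW hlen2
  cases l' with
  | nil => simp at hlen2
  | cons x t =>
    simp only [al]
    rw [hW, mul_zero]

theorem fan2 {L : Finset (Finset (Fin n))} {d : ℕ} (hL : IsCx L) (hE : ConeEmb L d)
    (Z : Finset (Fin n) → Finset (Fin n) → ZMod 2) (h1 : ∀ σ τ, Z σ τ = Z τ σ)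
    (h2 : ∀ σ τ, Z σ τ ≠ 0 → σ ∈ L ∧ τ ∈ L)
    (h3 : ∀ ρ τ : Finset (Fin n), Disjoint ρ τ → ρ.card + τ.card + 1 = d + 1 →
      ∑ v ∈ (ρ ∪ τ)ᶜ, (Z (insert v ρ) τ + Z ρ (insert v τ)) = 0) :
    ∑ U ∈ powersetCard (d + 1) univ, Z (evenPart U) (oddPart U) = 0 := by
  cases d with
  | zero =>
    obtain ⟨F, -, hF⟩ := hE
    refine Finset.sum_eq_zero fun U hU => ?_
    by_contra hne
    rw [mem_powersetCard] at hU
    obtain ⟨v, rfl⟩ := card_eq_one.mp hU.2
    have hv := (h2 _ _ hne).1
    have he : evenPart {v} = ({v} : Finset (Fin n)) := by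
      ext w
      simp only [evenPart, mem_filter, mem_singleton]
      constructor
      · exact fun h => h.1
      · rintro rfl
        refine ⟨rfl, ?_⟩
        have : ({w} : Finset (Fin n)).filter (fun u => u < w) = ∅ := by
          ext u
          simp only [mem_filter, mem_singleton, notMem_empty, iff_false, not_and]
          rintro rfl
          exact lt_irrefl _
        rw [this]; simp
    rw [he] at hv
    have h0 := hF (Pi.single v 1) ⟨fun i => by
        by_cases h : i = v
        · subst h; simp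
        · rw [Pi.single_eq_of_ne h], {v}, hv, fun i hi => by
        rw [mem_singleton] at hi
        exact Pi.single_eq_of_ne hi _⟩ 0 ⟨fun i => le_rfl, ∅, hL.1, fun i _ => rfl⟩
        (fun i => Or.inr rfl) (Subsingleton.elim _ _)
    have := congrFun h0.1 v
    simp at this
  | succ m =>
    have hz := zz_mem (D := m + 2) h2
    obtain ⟨r, a, s, hadm, h0⟩ := key hE _ hz
    have := claim hL (m + 2) _ hz (zz_nu h1) (zz_bd h3) 0 r a0 a s0 s (adm0 L) hadm
    rw [h0, Function.iterate_zero_apply, eval0] at this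
    exact this

theorem fan : StFan := by
  intro n d L hL hE k _ _ Z h1 h2 h3
  let _ : Algebra (ZMod 2) k := ZMod.algebra k 2
  rw [← Module.forall_dual_apply_eq_zero_iff (ZMod 2)]
  intro φ
  rw [map_sum]
  refine fan2 hL hE (fun σ τ => φ (Z σ τ)) (fun σ τ => by rw [h1]) ?_ ?_
  · intro σ τ h
    refine h2 σ τ ?_
    intro h'
    rw [h', map_zero] at h
    exact h rfl
  · intro ρ τ hd hc
    have := congrArg φ (h3 ρ τ hd hc)
    rw [map_sum, map_zero] at this
    simpa only [map_add] using this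

end Pool.Agent.W357.KS.Fan
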