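import Mathlib
import Pool.Agent.H7.L.W555_KS_Defs2

/-!
Mod 2 homology of complexes: links and deletions of faces in homology spheres.
-/

set_option autoImplicit false

namespace Pool.Agent.Y131.KS

open Finset Pool.Agent.W555.KS

variable {N : ℕ}

/-- the chain `c` is supported on the faces of `K` with `j` vertices -/
def Sp (K : Finset (Finset (Fin N))) (j : ℕ) (c : Finset (Fin N) → ZMod 2) : Prop :=
  ∀ σ, c σ ≠ 0 → σ ∈ K ∧ σ.card = j

/-- the boundary -/
def bdr (c : Finset (Fin N) → ZMod 2) (ρ : Finset (Fin N)) : ZMod 2 :=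
  ∑ v ∈ ρᶜ, c (insert v ρ)

/-- the reduced homology of `K` vanishes in dimension `j - 1` -/
def AcyclicAt (K : Finset (Finset (Fin N))) (j : ℕ) : Prop :=
  ∀ c : Finset (Fin N) → ZMod 2, Sp K j c → (∀ ρ, bdr c ρ = 0) →
    ∃ b, Sp K (j + 1) b ∧ ∀ ρ, c ρ = bdr b ρ

/-- the link -/
def lk (K : Finset (Finset (Fin N))) (σ : Finset (Fin N)) : Finset (Finset (Fin N)) :=
  univ.filter (fun τ => Disjoint τ σ ∧ τ ∪ σ ∈ K)

/-- the deletion of the vertices of `σ` -/
def del (K : Finset (Finset (Fin N))) (σ : Finset (Fin N)) : Finset (Finset (Fin N)) :=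
  K.filter (fun τ => Disjoint τ σ)

/-- homology spheres of dimension `d - 1` -/
structure HSph (K : Finset (Finset (Fin N))) (d : ℕ) : Prop where
  cx : IsCx K
  card_le : ∀ σ ∈ K, σ.card ≤ d
  ac : ∀ σ ∈ K, ∀ j, j + σ.card ≠ d → AcyclicAt (lk K σ) j
  top : ∀ σ ∈ K, ∃ z : Finset (Fin N) → ZMod 2, z ≠ 0 ∧ Sp (lk K σ) (d - σ.card) z ∧
    (∀ ρ, bdr z ρ = 0) ∧ ∀ z', Sp (lk K σ) (d - σ.card) z' → (∀ ρ, bdr z' ρ = 0) → z' = 0 ∨ z' = z

theorem z2 (x : ZMod 2) : x + x = 0 := CharTwo.add_self_eq_zero x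

theorem bdr_add (b c : Finset (Fin N) → ZMod 2) (ρ : Finset (Fin N)) :
    bdr (fun σ => b σ + c σ) ρ = bdr b ρ + bdr c ρ := by
  unfold bdr
  rw [sum_add_distrib]

theorem bdr_zero (ρ : Finset (Fin N)) : bdr (fun _ => 0) ρ = 0 := by
  unfold bdr
  simp

theorem bdr_bdr (c : Finset (Fin N) → ZMod 2) (ρ : Finset (Fin N)) : bdr (bdr c) ρ = 0 := by
  have e1 : bdr (bdr c) ρ = ∑ v ∈ ρᶜ, ∑ w ∈ ρᶜ.erase v, c (insert w (insert v ρ)) := by
    unfold bdr
    refine sum_congr rfl fun v hv => ?_
    have : (insert v ρ)ᶜ = ρᶜ.erase v := by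
      ext w
      simp only [mem_compl, mem_insert, mem_erase]
      tauto
    rw [this]
  have e2 : ∑ v ∈ ρᶜ, ∑ w ∈ ρᶜ.erase v, c (insert w (insert v ρ)) =
      ∑ p ∈ ρᶜ.offDiag, c (insert p.2 (insert p.1 ρ)) := by
    rw [Finset.sum_sigma']
    refine Finset.sum_bij' (fun x _ => (x.1, x.2)) (fun p _ => ⟨p.1, p.2⟩) ?_ ?_ ?_ ?_ ?_
    · rintro ⟨v, w⟩ h
      rw [mem_sigma, mem_erase] at h
      rw [mem_offDiag]
      exact ⟨h.1, h.2.2, Ne.symm h.2.1⟩
    · rintro ⟨v, w⟩ h
      rw [mem_offDiag] at h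
      rw [mem_sigma, mem_erase]
      exact ⟨h.1, Ne.symm h.2.2, h.2.1⟩
    · rintro ⟨v, w⟩ _; rfl
    · rintro ⟨v, w⟩ _; rfl
    · rintro ⟨v, w⟩ _; rfl
  rw [e1, e2]
  refine Finset.sum_involution (fun p _ => (p.2, p.1)) ?_ ?_ ?_ ?_
  · rintro ⟨v, w⟩ _
    rw [insert_comm v w ρ]
    exact z2 _
  · rintro ⟨v, w⟩ h _
    rw [mem_offDiag] at h
    intro h'
    exact h.2.2 (congrArg Prod.snd h')
  · rintro ⟨v, w⟩ h
    rw [mem_offDiag] at h ⊢
    exact ⟨h.2.1, h.1, Ne.symm h.2.2⟩
  · rintro ⟨v, w⟩ _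
    rfl

theorem mem_lk {K : Finset (Finset (Fin N))} {σ τ : Finset (Fin N)} :
    τ ∈ lk K σ ↔ Disjoint τ σ ∧ τ ∪ σ ∈ K := by
  simp [lk]

theorem mem_del {K : Finset (Finset (Fin N))} {σ τ : Finset (Fin N)} :
    τ ∈ del K σ ↔ τ ∈ K ∧ Disjoint τ σ := by
  simp [del]

theorem lk_empty (K : Finset (Finset (Fin N))) : lk K ∅ = K := by
  ext τ
  rw [mem_lk]
  simp

theorem del_cx {K : Finset (Finset (Fin N))} (hK : IsCx K) (σ : Finset (Fin N)) :
    IsCx (del K σ) := by
  refine ⟨mem_del.2 ⟨hK.1, disjoint_empty_left _⟩, ?_⟩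
  intro τ hτ ρ hρ
  rw [mem_del] at hτ ⊢
  exact ⟨hK.2 _ hτ.1 _ hρ, disjoint_of_subset_left hρ hτ.2⟩

theorem lk_cx {K : Finset (Finset (Fin N))} (hK : IsCx K) {σ : Finset (Fin N)} (hσ : σ ∈ K) :
    IsCx (lk K σ) := by
  refine ⟨mem_lk.2 ⟨disjoint_empty_left _, by rwa [empty_union]⟩, ?_⟩
  intro τ hτ ρ hρ
  rw [mem_lk] at hτ ⊢
  exact ⟨disjoint_of_subset_left hρ hτ.1, hK.2 _ hτ.2 _ (union_subset_union_left hρ)⟩

theorem lk_lk {K : Finset (Finset (Fin N))} {w : Fin N} {σ : Finset (Fin N)}
    (hw : w ∉ σ) : lk (lk K {w}) σ = lk K (insert w σ) := by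
  ext τ
  rw [mem_lk, mem_lk, mem_lk]
  have e : τ ∪ σ ∪ {w} = τ ∪ insert w σ := by
    ext x
    simp only [mem_union, mem_singleton, mem_insert]
    tauto
  rw [e]
  constructor
  · rintro ⟨h1, h2, h3⟩
    refine ⟨?_, h3⟩
    rw [disjoint_insert_right]
    rw [disjoint_singleton_right, mem_union, not_or] at h2
    exact ⟨h2.1, h1⟩
  · rintro ⟨h1, h3⟩
    rw [disjoint_insert_right] at h1
    refine ⟨h1.2, ?_, h3⟩
    rw [disjoint_singleton_right, mem_union, not_or]
    exact ⟨h1.1, hw⟩

theorem HSph.lk {K : Finset (Finset (Fin N))} {d : ℕ} (h : HSph K d) {w : Fin N}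
    (hw : ({w} : Finset (Fin N)) ∈ K) : HSph (lk K {w}) (d - 1) := by
  have hd : 1 ≤ d := by
    have := h.card_le _ hw
    rwa [card_singleton] at this
  have key : ∀ σ ∈ Pool.Agent.Y131.KS.lk K {w}, w ∉ σ ∧ insert w σ ∈ K ∧
      (insert w σ).card = σ.card + 1 := by
    intro σ hσ
    rw [mem_lk, disjoint_singleton_right] at hσ
    refine ⟨hσ.1, ?_, card_insert_of_notMem hσ.1⟩
    rw [insert_eq, union_comm]
    exact hσ.2
  refine ⟨lk_cx h.cx hw, ?_, ?_, ?_⟩
  · intro σ hσ
    obtain ⟨h1, h2, h3⟩ := key σ hσ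
    have := h.card_le _ h2
    omega
  · intro σ hσ j hj
    obtain ⟨h1, h2, h3⟩ := key σ hσ
    rw [lk_lk h1]
    exact h.ac _ h2 j (by omega)
  · intro σ hσ
    obtain ⟨h1, h2, h3⟩ := key σ hσ
    have e : d - 1 - σ.card = d - (insert w σ).card := by omega
    rw [lk_lk h1, e]
    exact h.top _ h2

/-- the part of a chain at the vertex `w` -/
def part (w : Fin N) (b : Finset (Fin N) → ZMod 2) (τ : Finset (Fin N)) : ZMod 2 :=
  if w ∈ τ then 0 else b (insert w τ)

/-- the cone over a chain -/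
def ce (w : Fin N) (e : Finset (Fin N) → ZMod 2) (τ : Finset (Fin N)) : ZMod 2 :=
  if w ∈ τ then e (τ.erase w) else 0

theorem part_sp {K : Finset (Finset (Fin N))} {w : Fin N} {j : ℕ}
    {b : Finset (Fin N) → ZMod 2} (hb : Sp K (j + 1) b) : Sp (lk K {w}) j (part w b) := by
  intro τ hτ
  unfold part at hτ
  split_ifs at hτ with h
  · exact absurd rfl hτ
  · obtain ⟨h1, h2⟩ := hb _ hτ
    rw [card_insert_of_notMem h] at h2
    refine ⟨mem_lk.2 ⟨disjoint_singleton_right.2 h, ?_⟩, by omega⟩
    rw [union_comm, ← insert_eq]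
    exact h1

theorem bdr_part (w : Fin N) (b : Finset (Fin N) → ZMod 2) (ρ : Finset (Fin N)) :
    bdr (part w b) ρ = if w ∈ ρ then 0 else bdr b (insert w ρ) := by
  split_ifs with h
  · unfold bdr
    refine sum_eq_zero fun v _ => ?_
    unfold part
    rw [if_pos (mem_insert_of_mem h)]
  · unfold bdr
    have h0 : w ∈ ρᶜ := mem_compl.2 h
    rw [← insert_erase h0, sum_insert (notMem_erase w _)]
    have e : (insert w ρ)ᶜ = ρᶜ.erase w := by
      ext x
      simp only [mem_compl, mem_insert, mem_erase]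
      tauto
    rw [e]
    have e0 : part w b (insert w ρ) = 0 := by
      unfold part
      rw [if_pos (mem_insert_self _ _)]
    rw [e0, zero_add]
    refine sum_congr rfl fun v hv => ?_
    rw [mem_erase, mem_compl] at hv
    unfold part
    rw [if_neg, insert_comm]
    rw [mem_insert, not_or]
    exact ⟨Ne.symm hv.1, h⟩

theorem bdr_ce {K : Finset (Finset (Fin N))} {w : Fin N} {j : ℕ} {e : Finset (Fin N) → ZMod 2}
    (he : Sp (lk K {w}) j e) (ρ : Finset (Fin N)) :
    bdr (ce w e) ρ = if w ∈ ρ then bdr e (ρ.erase w) else e ρ := by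
  have he0 : ∀ τ, w ∈ τ → e τ = 0 := by
    intro τ hτ
    by_contra h
    have := (mem_lk.1 (he τ h).1).1
    rw [disjoint_singleton_right] at this
    exact this hτ
  split_ifs with h
  · unfold bdr
    have hc : (ρ.erase w)ᶜ = insert w ρᶜ := by
      ext x
      simp only [mem_compl, mem_erase, mem_insert, not_and]
      tauto
    rw [hc, sum_insert (by rw [mem_compl]; exact not_not.2 h)]
    rw [insert_erase h, he0 ρ h, zero_add]
    refine sum_congr rfl fun v hv => ?_
    rw [mem_compl] at hv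
    have hvw : v ≠ w := fun h' => hv (h' ▸ h)
    unfold ce
    rw [if_pos (mem_insert_of_mem h), erase_insert_of_ne hvw]
  · unfold bdr
    have h0 : w ∈ ρᶜ := mem_compl.2 h
    rw [← insert_erase h0, sum_insert (notMem_erase w _)]
    have e1 : ce w e (insert w ρ) = e ρ := by
      unfold ce
      rw [if_pos (mem_insert_self _ _), erase_insert h]
    rw [e1]
    have e2 : ∑ v ∈ ρᶜ.erase w, ce w e (insert v ρ) = 0 := by
      refine sum_eq_zero fun v hv => ?_
      rw [mem_erase, mem_compl] at hv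
      unfold ce
      rw [if_neg]
      rw [mem_insert, not_or]
      exact ⟨Ne.symm hv.1, h⟩
    rw [e2, add_zero]

theorem fix {K : Finset (Finset (Fin N))} (hK : IsCx K) {w : Fin N} {j : ℕ}
    {b e : Finset (Fin N) → ZMod 2} (hb : Sp K (j + 1) b) (he : Sp (lk K {w}) (j + 1) e)
    (h : ∀ ρ, part w b ρ = bdr e ρ) :
    ∃ b', Sp (del K {w}) (j + 1) b' ∧ ∀ ρ, bdr b' ρ = bdr b ρ := by
  refine ⟨fun ρ => b ρ + bdr (ce w e) ρ, ?_, ?_⟩
  · intro ρ hρ
    simp only at hρ
    rw [bdr_ce he] at hρ
    split_ifs at hρ with hw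
    · exfalso
      apply hρ
      rw [← h, part, if_neg (notMem_erase _ _), insert_erase hw]
      exact z2 _
    · have h1 : b ρ ≠ 0 ∨ e ρ ≠ 0 := by
        by_contra hcon
        push Not at hcon
        exact hρ (by rw [hcon.1, hcon.2, add_zero])
      rcases h1 with h1 | h1
      · obtain ⟨h2, h3⟩ := hb ρ h1
        exact ⟨mem_del.2 ⟨h2, disjoint_singleton_right.2 hw⟩, h3⟩
      · obtain ⟨h2, h3⟩ := he ρ h1
        rw [mem_lk] at h2
        exact ⟨mem_del.2 ⟨hK.2 _ h2.2 _ subset_union_left, h2.1⟩, h3⟩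
  · intro ρ
    rw [bdr_add, bdr_bdr, add_zero]

/-- Mayer-Vietoris -/
theorem mv {K : Finset (Finset (Fin N))} (hK : IsCx K) {w : Fin N} {j : ℕ}
    (h1 : AcyclicAt K j) (h2 : AcyclicAt (lk K {w}) j) : AcyclicAt (del K {w}) j := by
  intro c hc hcy
  obtain ⟨b, hb, hbc⟩ := h1 c (fun σ hσ => ⟨(mem_del.1 (hc σ hσ).1).1, (hc σ hσ).2⟩) hcy
  obtain ⟨e, he, hbe⟩ := h2 (part w b) (part_sp hb) (by
    intro ρ
    rw [bdr_part]
    split_ifs with h
    · rfl
    · rw [← hbc]
      by_contra hne
      have := (mem_del.1 (hc _ hne).1).2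
      rw [disjoint_singleton_right] at this
      exact this (mem_insert_self _ _))
  obtain ⟨b', hb', hbb⟩ := fix hK hb he hbe
  exact ⟨b', hb', fun ρ => by rw [hbc, hbb]⟩

/-- the sum of all facets is a cycle -/
theorem facets_cycle {K : Finset (Finset (Fin N))} {d : ℕ} (h : HSph K d) (ρ : Finset (Fin N)) :
    bdr (fun σ => if σ ∈ K ∧ σ.card = d then 1 else 0) ρ = 0 := by
  classical
  by_cases hρ : ρ ∈ K ∧ ρ.card + 1 = d
  · obtain ⟨hρK, hρd⟩ := hρ
    obtain ⟨z, hz0, hzs, hzc, hzu⟩ := h.top ρ hρK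
    have hd1 : d - ρ.card = 1 := by omega
    rw [hd1] at hzs hzu
    -- two vertices
    obtain ⟨σ, hσ⟩ : ∃ σ, z σ ≠ 0 := by
      by_contra hcon
      push Not at hcon
      exact hz0 (funext hcon)
    obtain ⟨a, rfl⟩ := card_eq_one.1 (hzs σ hσ).2
    have hz1 : ∑ v, z {v} = 0 := by
      have := hzc ∅
      unfold bdr at this
      simpa using this
    have hza : z {a} = 1 := by
      revert hσ
      generalize z {a} = x
      revert x
      decide
    obtain ⟨b, hb, hbz⟩ : ∃ b, b ≠ a ∧ z {b} ≠ 0 := by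
      by_contra hcon
      push Not at hcon
      rw [Finset.sum_eq_single a (fun b _ hb => hcon b hb) (fun h' => absurd (mem_univ a) h'),
        hza] at hz1
      exact one_ne_zero hz1
    have hmem : ∀ v, z {v} ≠ 0 → v ∉ ρ ∧ insert v ρ ∈ K := by
      intro v hv
      have := mem_lk.1 (hzs _ hv).1
      rw [disjoint_singleton_left] at this
      exact ⟨this.1, this.2⟩
    -- chains `δ_x + δ_y`
    let δ : Fin N → Fin N → Finset (Fin N) → ZMod 2 :=
      fun x y τ => (if τ = {x} then 1 else 0) + (if τ = {y} then 1 else 0)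
    have hδ : ∀ x y, x ≠ y → (x ∉ ρ ∧ insert x ρ ∈ K) → (y ∉ ρ ∧ insert y ρ ∈ K) →
        δ x y = z := by
      intro x y hxy hx hy
      rcases hzu (δ x y) (by
        intro τ hτ
        by_cases h1 : τ = {x}
        · subst h1
          exact ⟨mem_lk.2 ⟨disjoint_singleton_left.2 hx.1, hx.2⟩, card_singleton _⟩
        · by_cases h2 : τ = {y}
          · subst h2
            exact ⟨mem_lk.2 ⟨disjoint_singleton_left.2 hy.1, hy.2⟩, card_singleton _⟩
          · exfalso
            apply hτ
            simp only [δ]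
            rw [if_neg h1, if_neg h2, add_zero]) (by
        intro τ
        rcases τ.eq_empty_or_nonempty with rfl | hne
        · unfold bdr
          simp only [δ, compl_empty, insert_empty_eq, sum_add_distrib, singleton_inj,
            Finset.sum_ite_eq', mem_univ, if_true]
          exact z2 1
        · unfold bdr
          refine sum_eq_zero fun v hv => ?_
          rw [mem_compl] at hv
          have hcard : 2 ≤ (insert v τ).card := by
            rw [card_insert_of_notMem hv]
            have := hne.card_pos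
            omega
          have hns : ∀ u : Fin N, insert v τ ≠ {u} := by
            intro u hu
            rw [hu, card_singleton] at hcard
            omega
          simp only [δ]
          rw [if_neg (hns x), if_neg (hns y), add_zero]) with h1 | h1
      · exfalso
        have := congrFun h1 {x}
        simp only [δ, if_true, Pi.zero_apply] at this
        rw [if_neg (by rw [singleton_inj]; exact hxy), add_zero] at this
        exact one_ne_zero this
      · exact h1
    have hab := hδ a b (Ne.symm hb) (hmem a hσ) (hmem b hbz)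
    -- all other vertices are not in the link
    have hoth : ∀ v, v ≠ a → v ≠ b → ¬ (v ∉ ρ ∧ insert v ρ ∈ K) := by
      intro v hva hvb hv
      have h1 := hδ v b hvb hv (hmem b hbz)
      rw [← hab] at h1
      have := congrFun h1 {v}
      simp only [δ, if_true, singleton_inj] at this
      rw [if_neg hvb, if_neg hva, add_zero, zero_add] at this
      exact one_ne_zero this
    unfold bdr
    rw [← add_sum_erase _ _ (mem_compl.2 (hmem a hσ).1),
      ← add_sum_erase _ _ (mem_erase.2 ⟨hb, mem_compl.2 (hmem b hbz).1⟩)]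
    have hca : (insert a ρ).card = d := by rw [card_insert_of_notMem (hmem a hσ).1, hρd]
    have hcb : (insert b ρ).card = d := by rw [card_insert_of_notMem (hmem b hbz).1, hρd]
    beta_reduce
    rw [if_pos ⟨(hmem a hσ).2, hca⟩, if_pos ⟨(hmem b hbz).2, hcb⟩,
      sum_eq_zero, add_zero]
    · exact z2 1
    · intro v hv
      rw [mem_erase, mem_erase, mem_compl] at hv
      rw [if_neg]
      rintro ⟨h1, -⟩
      exact hoth v hv.2.1 hv.1 ⟨hv.2.2, h1⟩
  · unfold bdr
    refine sum_eq_zero fun v hv => ?_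
    rw [mem_compl] at hv
    beta_reduce
    rw [if_neg]
    rintro ⟨h1, h2⟩
    rw [card_insert_of_notMem hv] at h2
    exact hρ ⟨h.cx.2 _ h1 _ (subset_insert _ _), h2⟩

/-- the deletion of a vertex of a homology sphere is acyclic -/
theorem base {K : Finset (Finset (Fin N))} {d : ℕ} (h : HSph K d) {v : Fin N}
    (hv : ({v} : Finset (Fin N)) ∈ K) (j : ℕ) : AcyclicAt (del K {v}) j := by
  classical
  have hd : 1 ≤ d := by
    have := h.card_le _ hv
    rwa [card_singleton] at this
  obtain ⟨z, hz0, hzs, hzc, hzu⟩ := h.top ∅ h.cx.1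
  rw [card_empty, Nat.sub_zero, lk_empty] at hzs hzu
  obtain ⟨y, hy0, hys, hyc, hyu⟩ := h.top {v} hv
  rw [card_singleton] at hys hyu
  -- the fundamental cycle contains `v`
  have hs : z = fun σ => if σ ∈ K ∧ σ.card = d then 1 else 0 := by
    rcases hzu (fun σ => if σ ∈ K ∧ σ.card = d then 1 else 0) (by
      intro σ hσ
      beta_reduce at hσ
      split_ifs at hσ with h1
      · exact h1
      · exact absurd rfl hσ) (facets_cycle h) with h1 | h1
    · exfalso
      apply hz0
      funext σ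
      by_contra hne
      have := congrFun h1 σ
      simp only [Pi.zero_apply] at this
      rw [if_pos (hzs σ hne)] at this
      exact one_ne_zero this
    · exact h1.symm
  have hpz : part v z ≠ 0 := by
    obtain ⟨τ, hτ⟩ : ∃ τ, y τ ≠ 0 := by
      by_contra hcon
      push Not at hcon
      exact hy0 (funext hcon)
    obtain ⟨h1, h2⟩ := hys τ hτ
    rw [mem_lk, disjoint_singleton_right] at h1
    intro h3
    have h4 := congrFun h3 τ
    rw [part, if_neg h1.1, hs] at h4
    simp only [Pi.zero_apply] at h4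
    rw [if_pos ⟨by rw [insert_eq, union_comm]; exact h1.2, by
      rw [card_insert_of_notMem h1.1, h2]; omega⟩] at h4
    exact one_ne_zero h4
  intro c hc hcy
  have hcK : Sp K j c := fun σ hσ => ⟨(mem_del.1 (hc σ hσ).1).1, (hc σ hσ).2⟩
  have hcv : ∀ σ, v ∈ σ → c σ = 0 := by
    intro σ hσ
    by_contra hne
    have := (mem_del.1 (hc _ hne).1).2
    rw [disjoint_singleton_right] at this
    exact this hσ
  by_cases hj : j = d
  · subst hj
    rcases hzu c hcK hcy with h1 | h1
    · refine ⟨fun _ => 0, fun σ hσ => absurd rfl hσ, fun ρ => ?_⟩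
      rw [h1, bdr_zero]
      rfl
    · exfalso
      apply hpz
      funext τ
      rw [← h1, part]
      split_ifs
      · rfl
      · exact hcv _ (mem_insert_self _ _)
  · have h1 : AcyclicAt K j := by
      have := h.ac ∅ h.cx.1 j (by rw [card_empty]; omega)
      rwa [lk_empty] at this
    by_cases hj1 : j + 1 = d
    · obtain ⟨b, hb, hbc⟩ := h1 c hcK hcy
      have hjd : d - 1 = j := by omega
      rw [hjd] at hyu
      have hpb : ∀ ρ, bdr (part v b) ρ = 0 := by
        intro ρ
        rw [bdr_part]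
        split_ifs with h
        · rfl
        · rw [← hbc]
          exact hcv _ (mem_insert_self _ _)
      have hpzc : ∀ ρ, bdr (part v z) ρ = 0 := by
        intro ρ
        rw [bdr_part]
        split_ifs with h
        · rfl
        · exact hzc _
      rw [← hj1] at hzs
      have hzy : part v z = y := by
        rcases hyu _ (part_sp hzs) hpzc with h2 | h2
        · exact absurd h2 hpz
        · exact h2
      -- choose the correction
      obtain ⟨b2, hb2, hb2c, hb2p⟩ : ∃ b2, Sp K (j + 1) b2 ∧ (∀ ρ, bdr b2 ρ = bdr b ρ) ∧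
          part v b2 = 0 := by
        rcases hyu _ (part_sp hb) hpb with h2 | h2
        · exact ⟨b, hb, fun _ => rfl, h2⟩
        · refine ⟨fun σ => b σ + z σ, ?_, ?_, ?_⟩
          · intro σ hσ
            have h3 : b σ ≠ 0 ∨ z σ ≠ 0 := by
              by_contra hcon
              push Not at hcon
              exact hσ (by beta_reduce; rw [hcon.1, hcon.2, add_zero])
            rcases h3 with h3 | h3
            · exact hb σ h3
            · exact hzs σ h3
          · intro ρ
            rw [bdr_add, hzc, add_zero]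
          · funext τ
            have h3 := congrFun h2 τ
            have h4 := congrFun hzy τ
            unfold part at h3 h4 ⊢
            split_ifs at h3 h4 ⊢ with h5
            · rfl
            · beta_reduce
              rw [h3, h4]
              exact z2 _
      obtain ⟨b', hb', hbb⟩ := fix h.cx hb2 (e := fun _ => 0) (w := v)
        (fun σ hσ => absurd rfl hσ) (fun ρ => by rw [hb2p, bdr_zero]; rfl)
      exact ⟨b', hb', fun ρ => by rw [hbc, hbb, hb2c]⟩
    · exact mv h.cx h1 (h.ac {v} hv j (by rw [card_singleton]; exact hj1)) c hc hcy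

/-- **Duality**: the deletion of a nonempty face of a homology sphere is acyclic. -/
theorem del_acyclic (σ : Finset (Fin N)) : ∀ (K : Finset (Finset (Fin N))) (d : ℕ), HSph K d →
    σ ∈ K → σ.Nonempty → ∀ j, AcyclicAt (del K σ) j := by
  classical
  induction σ using Finset.induction_on with
  | empty => intro K d _ _ h; exact absurd h not_nonempty_empty
  | insert w τ hw ih =>
    intro K d h hσ _ j
    have hwK : ({w} : Finset (Fin N)) ∈ K :=
      h.cx.2 _ hσ _ (singleton_subset_iff.2 (mem_insert_self _ _))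
    rcases τ.eq_empty_or_nonempty with rfl | hne
    · have : (insert w ∅ : Finset (Fin N)) = {w} := by simp
      rw [this]
      exact base h hwK j
    · have hτK : τ ∈ K := h.cx.2 _ hσ _ (subset_insert _ _)
      have e1 : del K (insert w τ) = del (del K τ) {w} := by
        ext ρ
        rw [mem_del, mem_del, mem_del, disjoint_insert_right, disjoint_singleton_right]
        tauto
      have e2 : lk (del K τ) {w} = del (lk K {w}) τ := by
        ext ρ
        rw [mem_lk, mem_del, mem_del, mem_lk, disjoint_singleton_right, disjoint_union_left,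
          disjoint_singleton_left]
        tauto
      rw [e1]
      refine mv (del_cx h.cx τ) (ih K d h hτK hne j) ?_
      rw [e2]
      refine ih (lk K {w}) (d - 1) (h.lk hwK) ?_ hne j
      rw [mem_lk, disjoint_singleton_right, union_comm, ← insert_eq]
      exact ⟨hw, hσ⟩

end Pool.Agent.Y131.KS
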