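import Mathlib
import Pool.Agent.H7.L.Y131_KS_Hom
import Pool.Agent.H7.L.Y131_KS_Cone

/-!
The obstruction vanishes for homology spheres and their subcomplexes.
-/

set_option autoImplicit false

namespace Pool.Agent.Y131.KS

open Finset Pool.Agent.W555.KS

variable {N n : ℕ}

/-- chains of the deleted join with `D` vertices -/
def Ch2 (K : Finset (Finset (Fin N))) (D : ℕ) (Z : Finset (Fin N) → Finset (Fin N) → ZMod 2) :
    Prop :=
  ∀ σ τ, Z σ τ ≠ 0 → σ ∈ K ∧ τ ∈ K ∧ Disjoint σ τ ∧ σ.card + τ.card = D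

theorem dd_add (Z Z' : Finset (Fin N) → Finset (Fin N) → ZMod 2) (ρ τ : Finset (Fin N)) :
    dd (fun σ τ => Z σ τ + Z' σ τ) ρ τ = dd Z ρ τ + dd Z' ρ τ := by
  unfold dd
  rw [← sum_add_distrib]
  refine sum_congr rfl fun v _ => ?_
  ring

theorem dd_ne {Z : Finset (Fin N) → Finset (Fin N) → ZMod 2} {ρ τ : Finset (Fin N)}
    (h : dd Z ρ τ ≠ 0) :
    ∃ v, v ∉ ρ ∧ v ∉ τ ∧ (Z (insert v ρ) τ ≠ 0 ∨ Z ρ (insert v τ) ≠ 0) := by
  unfold dd at h
  obtain ⟨v, hv, h1⟩ := exists_ne_zero_of_sum_ne_zero h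
  rw [mem_compl, mem_union, not_or] at hv
  refine ⟨v, hv.1, hv.2, ?_⟩
  by_contra hcon
  push Not at hcon
  exact h1 (by rw [hcon.1, hcon.2, add_zero])

theorem dd_ch2 {K : Finset (Finset (Fin N))} (hK : IsCx K) {D : ℕ}
    {Z : Finset (Fin N) → Finset (Fin N) → ZMod 2} (hZ : Ch2 K (D + 1) Z) : Ch2 K D (dd Z) := by
  intro ρ τ h
  obtain ⟨v, h1, h2, h3 | h3⟩ := dd_ne h
  · obtain ⟨a, b, c, d⟩ := hZ _ _ h3
    rw [card_insert_of_notMem h1] at d
    exact ⟨hK.2 _ a _ (subset_insert _ _), b, disjoint_of_subset_left (subset_insert _ _) c,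
      by omega⟩
  · obtain ⟨a, b, c, d⟩ := hZ _ _ h3
    rw [card_insert_of_notMem h2] at d
    exact ⟨a, hK.2 _ b _ (subset_insert _ _), disjoint_of_subset_right (subset_insert _ _) c,
      by omega⟩

/-- cycles of the deleted join of high dimension are boundaries -/
theorem bounds {K : Finset (Finset (Fin N))} {d : ℕ} (hK : IsCx K)
    (hd : ∀ σ ∈ K, σ.card ≤ d) (hac : ∀ σ ∈ K, σ.Nonempty → ∀ j, AcyclicAt (del K σ) j)
    {D : ℕ} (hD : d < D) (p : ℕ) : ∀ Z : Finset (Fin N) → Finset (Fin N) → ZMod 2, Ch2 K D Z →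
    (∀ ρ τ, dd Z ρ τ = 0) → (∀ σ τ, p < σ.card → Z σ τ = 0) →
    ∃ Y, Ch2 K (D + 1) Y ∧ ∀ ρ τ, dd Y ρ τ = Z ρ τ := by
  classical
  induction p with
  | zero =>
    intro Z hZ _ h0
    refine ⟨fun _ _ => 0, fun σ τ h => absurd rfl h, fun ρ τ => ?_⟩
    have h1 : dd (fun _ _ => 0) ρ τ = (0 : ZMod 2) := by
      unfold dd
      simp
    rw [h1]
    by_contra hne
    obtain ⟨a, b, c, e⟩ := hZ ρ τ (Ne.symm hne)
    have h2 : ¬ 0 < ρ.card := fun h => (Ne.symm hne) (h0 ρ τ h)
    have := hd τ b
    omega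
  | succ p ih =>
    intro Z hZ hcy h0
    -- the slices
    have hy : ∀ σ : Finset (Fin N), ∃ y : Finset (Fin N) → ZMod 2, (σ ∈ K ∧ σ.card = p + 1) →
        Sp (del K σ) (D - (p + 1) + 1) y ∧ ∀ τ, Z σ τ = bdr y τ := by
      intro σ
      by_cases hσ : σ ∈ K ∧ σ.card = p + 1
      · have hne : σ.Nonempty := by
          rw [← card_pos, hσ.2]
          omega
        obtain ⟨y, hy1, hy2⟩ := hac σ hσ.1 hne (D - (p + 1)) (fun τ => Z σ τ) (by
          intro τ hτ
          obtain ⟨a, b, c, e⟩ := hZ σ τ hτ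
          refine ⟨mem_del.2 ⟨b, c.symm⟩, ?_⟩
          have := hσ.2
          omega) (by
          intro τ
          have h1 := hcy σ τ
          unfold dd at h1
          unfold bdr
          rw [← h1]
          have h2 : (σ ∪ τ)ᶜ ⊆ τᶜ := compl_subset_compl.2 subset_union_right
          rw [← sum_subset h2]
          · refine sum_congr rfl fun v hv => ?_
            rw [mem_compl, mem_union, not_or] at hv
            rw [h0 (insert v σ) τ (by
              rw [card_insert_of_notMem hv.1, hσ.2]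
              omega), zero_add]
          · intro v _ hv2
            rw [mem_compl, not_not, mem_union] at hv2
            by_contra hne2
            obtain ⟨a, b, c, e⟩ := hZ _ _ hne2
            rw [disjoint_insert_right] at c
            rename_i hv1
            rw [mem_compl] at hv1
            rcases hv2 with hv2 | hv2
            · exact c.1 hv2
            · exact hv1 hv2)
        exact ⟨y, fun _ => ⟨hy1, hy2⟩⟩
      · exact ⟨fun _ => 0, fun h => absurd h hσ⟩
    choose y hy using hy
    set Y0 : Finset (Fin N) → Finset (Fin N) → ZMod 2 :=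
      fun σ τ => if σ ∈ K ∧ σ.card = p + 1 then y σ τ else 0 with hY0
    have hY0c : Ch2 K (D + 1) Y0 := by
      intro σ τ h
      simp only [hY0] at h
      split_ifs at h with hσ
      · obtain ⟨h1, h2⟩ := (hy σ hσ).1 τ h
        rw [mem_del] at h1
        have := hd σ hσ.1
        exact ⟨hσ.1, h1.1, h1.2.symm, by omega⟩
      · exact absurd rfl h
    have hdY : ∀ σ τ, σ.card = p + 1 → dd Y0 σ τ = Z σ τ := by
      intro σ τ hσ
      by_cases hσK : σ ∈ K
      · rw [(hy σ ⟨hσK, hσ⟩).2 τ]
        unfold dd bdr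
        have h2 : (σ ∪ τ)ᶜ ⊆ τᶜ := compl_subset_compl.2 subset_union_right
        rw [← sum_subset h2]
        · refine sum_congr rfl fun v hv => ?_
          rw [mem_compl, mem_union, not_or] at hv
          simp only [hY0]
          rw [if_neg, if_pos ⟨hσK, hσ⟩, zero_add]
          rintro ⟨-, h3⟩
          rw [card_insert_of_notMem hv.1] at h3
          omega
        · intro v hv1 hv2
          rw [mem_compl] at hv1
          rw [mem_compl, not_not, mem_union] at hv2
          by_contra hne2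
          have c := (mem_del.1 ((hy σ ⟨hσK, hσ⟩).1 _ hne2).1).2
          rw [disjoint_insert_left] at c
          rcases hv2 with hv2 | hv2
          · exact c.1 hv2
          · exact hv1 hv2
      · have h1 : Z σ τ = 0 := by
          by_contra hne
          exact hσK (hZ _ _ hne).1
        rw [h1]
        by_contra hne
        exact hσK (dd_ch2 hK hY0c _ _ hne).1
    obtain ⟨Y1, hY1, hY1d⟩ := ih (fun σ τ => Z σ τ + dd Y0 σ τ) (by
      intro σ τ h
      have h3 : Z σ τ ≠ 0 ∨ dd Y0 σ τ ≠ 0 := by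
        by_contra hcon
        push Not at hcon
        exact h (by beta_reduce; rw [hcon.1, hcon.2, add_zero])
      rcases h3 with h3 | h3
      · exact hZ _ _ h3
      · exact dd_ch2 hK hY0c _ _ h3) (by
      intro ρ τ
      rw [dd_add, hcy, dd_dd, add_zero]) (by
      intro σ τ h
      rcases Nat.lt_or_ge (p + 1) σ.card with h1 | h1
      · rw [h0 σ τ h1, zero_add]
        by_contra hne
        obtain ⟨v, a, b, c | c⟩ := dd_ne hne
        · simp only [hY0] at c
          rw [if_neg] at c
          · exact c rfl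
          · rintro ⟨-, h3⟩
            rw [card_insert_of_notMem a] at h3
            omega
        · simp only [hY0] at c
          rw [if_neg] at c
          · exact c rfl
          · rintro ⟨-, h3⟩
            omega
      · rw [hdY σ τ (by omega)]
        exact z2 _)
    refine ⟨fun σ τ => Y0 σ τ + Y1 σ τ, ?_, ?_⟩
    · intro σ τ h
      have h3 : Y0 σ τ ≠ 0 ∨ Y1 σ τ ≠ 0 := by
        by_contra hcon
        push Not at hcon
        exact h (by beta_reduce; rw [hcon.1, hcon.2, add_zero])
      rcases h3 with h3 | h3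
      · exact hY0c _ _ h3
      · exact hY1 _ _ h3
    · intro ρ τ
      rw [dd_add, hY1d]
      have h2 : ∀ a b : ZMod 2, a + (b + a) = b := by decide
      exact h2 _ _

theorem ev_zero {K : Finset (Finset (Fin N))} {d : ℕ} (hK : IsCx K)
    (hd : ∀ σ ∈ K, σ.card ≤ d) (hac : ∀ σ ∈ K, σ.Nonempty → ∀ j, AcyclicAt (del K σ) j)
    (m : ℕ) : ∀ D, d < D → 2 * d + 1 ≤ D + m →
    ∀ Z : Finset (Fin N) → Finset (Fin N) → ZMod 2, Ch2 K D Z → (∀ σ τ, Z σ τ = Z τ σ) →
      (∀ ρ τ, dd Z ρ τ = 0) → ev D Z = 0 := by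
  induction m with
  | zero =>
    intro D hD hm Z hZ _ _
    unfold ev
    refine sum_eq_zero fun U _ => ?_
    by_contra hne
    obtain ⟨a, b, c, e⟩ := hZ _ _ hne
    have h1 := hd _ a
    have h2 := hd _ b
    omega
  | succ m ih =>
    intro D hD hm Z hZ hs hcy
    obtain ⟨Y, hY, hYd⟩ := bounds hK hd hac hD d Z hZ hcy (by
      intro σ τ h
      by_contra hne
      have := hd _ (hZ _ _ hne).1
      omega)
    have h1 := ih (D + 1) (by omega) (by omega) (fun σ τ => Y σ τ + Y τ σ) (by
      intro σ τ h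
      have h3 : Y σ τ ≠ 0 ∨ Y τ σ ≠ 0 := by
        by_contra hcon
        push Not at hcon
        exact h (by beta_reduce; rw [hcon.1, hcon.2, add_zero])
      rcases h3 with h3 | h3
      · exact hY _ _ h3
      · obtain ⟨a, b, c, e⟩ := hY _ _ h3
        exact ⟨b, a, c.symm, by omega⟩) (by
      intro σ τ
      exact add_comm _ _) (by
      intro ρ τ
      have h2 : dd (fun σ τ => Y σ τ + Y τ σ) ρ τ = dd Y ρ τ + dd Y τ ρ := by
        unfold dd
        rw [union_comm τ ρ, ← sum_add_distrib]
        refine sum_congr rfl fun v _ => ?_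
        ring
      rw [h2, hYd, hYd, hs τ ρ]
      exact z2 _)
    rw [← ev_dd] at h1
    rw [← h1]
    unfold ev
    refine sum_congr rfl fun U _ => ?_
    rw [hYd]

/-- the obstruction vanishes if the deletions of all nonempty faces are acyclic -/
theorem vk2_of_acyclic {K : Finset (Finset (Fin N))} {d : ℕ} (hK : IsCx K)
    (hd : ∀ σ ∈ K, σ.card ≤ d) (hac : ∀ σ ∈ K, σ.Nonempty → ∀ j, AcyclicAt (del K σ) j) :
    VK2 K (d + 1) := by
  classical
  intro Z hs hsupp hcy
  have h := ev_zero hK hd hac (d + 1) (d + 1) (by omega) (by omega)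
    (fun σ τ => if Disjoint σ τ ∧ σ.card + τ.card = d + 1 then Z σ τ else 0) (by
    intro σ τ h
    beta_reduce at h
    split_ifs at h with h1
    · obtain ⟨a, b⟩ := hsupp _ _ h
      exact ⟨a, b, h1.1, h1.2⟩
    · exact absurd rfl h) (by
    intro σ τ
    beta_reduce
    by_cases hc : Disjoint σ τ ∧ σ.card + τ.card = d + 1
    · rw [if_pos hc, if_pos ⟨hc.1.symm, by omega⟩, hs]
    · rw [if_neg hc, if_neg (fun h => hc ⟨h.1.symm, by omega⟩)]) (by
    intro ρ τ
    by_cases hc : Disjoint ρ τ ∧ ρ.card + τ.card + 1 = d + 1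
    · rw [← hcy ρ τ hc.1 hc.2]
      unfold dd
      refine sum_congr rfl fun v hv => ?_
      rw [mem_compl, mem_union, not_or] at hv
      beta_reduce
      rw [if_pos ⟨disjoint_insert_left.2 ⟨hv.2, hc.1⟩, by
          rw [card_insert_of_notMem hv.1]
          omega⟩,
        if_pos ⟨disjoint_insert_right.2 ⟨hv.1, hc.1⟩, by
          rw [card_insert_of_notMem hv.2]
          omega⟩]
    · by_contra hne
      obtain ⟨v, a, b, c | c⟩ := dd_ne hne
      · beta_reduce at c
        split_ifs at c with h1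
        · apply hc
          rw [disjoint_insert_left, card_insert_of_notMem a] at h1
          exact ⟨h1.1.2, by omega⟩
        · exact c rfl
      · beta_reduce at c
        split_ifs at c with h1
        · apply hc
          rw [disjoint_insert_right, card_insert_of_notMem b] at h1
          exact ⟨h1.1.2, by omega⟩
        · exact c rfl)
  rw [← h]
  unfold ev
  refine sum_congr rfl fun U hU => ?_
  beta_reduce
  rw [if_pos ⟨disj_parts U, by rw [card_parts]; exact (mem_powersetCard.1 hU).2⟩]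

end Pool.Agent.Y131.KS
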