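import Mathlib
import Pool.Agent.H7.L.Y131_KS_Sph

/-!
Subcomplexes of homology spheres: relabelling of the vertices and strictly monotone maps.
-/

set_option autoImplicit false

namespace Pool.Agent.Y131.KS

open Finset Pool.Agent.W555.KS

variable {N n : ℕ}

/-- the image of a family of finsets -/
def im (f : Fin n ↪ Fin N) (K : Finset (Finset (Fin n))) : Finset (Finset (Fin N)) :=
  K.map (Finset.mapEmbedding f).toEmbedding

theorem mem_im {f : Fin n ↪ Fin N} {K : Finset (Finset (Fin n))} {τ : Finset (Fin N)} :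
    τ ∈ im f K ↔ ∃ σ ∈ K, σ.map f = τ := by
  unfold im
  rw [mem_map]
  rfl

theorem map_mem_im {f : Fin n ↪ Fin N} {K : Finset (Finset (Fin n))} {σ : Finset (Fin n)} :
    σ.map f ∈ im f K ↔ σ ∈ K := by
  rw [mem_im]
  constructor
  · rintro ⟨σ', h, h'⟩
    rw [Finset.map_inj] at h'
    rwa [← h']
  · intro h
    exact ⟨σ, h, rfl⟩

theorem im_cx {f : Fin n ↪ Fin N} {K : Finset (Finset (Fin n))} (hK : IsCx K) :
    IsCx (im f K) := by
  refine ⟨mem_im.2 ⟨∅, hK.1, map_empty f⟩, ?_⟩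
  intro σ hσ τ hτ
  obtain ⟨σ', h, rfl⟩ := mem_im.1 hσ
  obtain ⟨τ', h1, rfl⟩ := subset_map_iff.1 hτ
  exact map_mem_im.2 (hK.2 _ h _ h1)

/-- acyclicity does not depend on the names of the vertices -/
theorem ac_perm {π : Equiv.Perm (Fin N)} {K : Finset (Finset (Fin N))} {j : ℕ}
    (h : AcyclicAt K j) : AcyclicAt (im π.toEmbedding K) j := by
  intro c hc hcy
  obtain ⟨b, hb, hbc⟩ := h (fun σ => c (σ.map π.toEmbedding)) (by
    intro σ hσ
    obtain ⟨h1, h2⟩ := hc _ hσ
    rw [map_mem_im] at h1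
    rw [card_map] at h2
    exact ⟨h1, h2⟩) (by
    intro ρ
    rw [← hcy (ρ.map π.toEmbedding)]
    unfold bdr
    refine sum_equiv π ?_ ?_
    · intro v
      simp
    · intro v _
      beta_reduce
      rw [map_insert]
      rfl)
  refine ⟨fun σ => b (σ.map π.symm.toEmbedding), ?_, ?_⟩
  · intro σ hσ
    obtain ⟨h1, h2⟩ := hb _ hσ
    rw [card_map] at h2
    refine ⟨mem_im.2 ⟨_, h1, ?_⟩, h2⟩
    rw [map_map]
    ext x
    simp
  · intro ρ
    have e : (ρ.map π.symm.toEmbedding).map π.toEmbedding = ρ := by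
      rw [map_map]
      ext x
      simp
    have h1 := hbc (ρ.map π.symm.toEmbedding)
    beta_reduce at h1
    rw [e] at h1
    rw [h1]
    unfold bdr
    refine sum_equiv π ?_ ?_
    · intro v
      simp
    · intro v _
      beta_reduce
      rw [map_insert]
      simp

theorem del_im {f : Fin n ↪ Fin N} {K : Finset (Finset (Fin n))} {σ : Finset (Fin n)} :
    del (im f K) (σ.map f) = im f (del K σ) := by
  ext τ
  rw [mem_del, mem_im, mem_im]
  constructor
  · rintro ⟨⟨τ', h1, rfl⟩, h2⟩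
    rw [disjoint_map] at h2
    exact ⟨τ', mem_del.2 ⟨h1, h2⟩, rfl⟩
  · rintro ⟨τ', h1, rfl⟩
    rw [mem_del] at h1
    refine ⟨⟨τ', h1.1, rfl⟩, ?_⟩
    rw [disjoint_map]
    exact h1.2

theorem even_map {f : Fin n ↪ Fin N} (hf : StrictMono f) (U : Finset (Fin n)) :
    evenPart (U.map f) = (evenPart U).map f := by
  have key : ∀ u, ((U.map f).filter (fun w => w < f u)).card =
      (U.filter (fun w => w < u)).card := by
    intro u
    rw [← card_map f]
    congr 1
    ext x
    simp only [mem_filter, mem_map]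
    constructor
    · rintro ⟨⟨y, h1, rfl⟩, h2⟩
      exact ⟨y, ⟨h1, hf.lt_iff_lt.1 h2⟩, rfl⟩
    · rintro ⟨y, ⟨h1, h2⟩, rfl⟩
      exact ⟨⟨y, h1, rfl⟩, hf.lt_iff_lt.2 h2⟩
  ext x
  simp only [evenPart, mem_filter, mem_map]
  constructor
  · rintro ⟨⟨y, h1, rfl⟩, h2⟩
    rw [key] at h2
    exact ⟨y, ⟨h1, h2⟩, rfl⟩
  · rintro ⟨y, ⟨h1, h2⟩, rfl⟩
    rw [key]
    exact ⟨⟨y, h1, rfl⟩, h2⟩

theorem odd_map {f : Fin n ↪ Fin N} (hf : StrictMono f) (U : Finset (Fin n)) :
    oddPart (U.map f) = (oddPart U).map f := by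
  have key : ∀ u, ((U.map f).filter (fun w => w < f u)).card =
      (U.filter (fun w => w < u)).card := by
    intro u
    rw [← card_map f]
    congr 1
    ext x
    simp only [mem_filter, mem_map]
    constructor
    · rintro ⟨⟨y, h1, rfl⟩, h2⟩
      exact ⟨y, ⟨h1, hf.lt_iff_lt.1 h2⟩, rfl⟩
    · rintro ⟨y, ⟨h1, h2⟩, rfl⟩
      exact ⟨⟨y, h1, rfl⟩, hf.lt_iff_lt.2 h2⟩
  ext x
  simp only [oddPart, mem_filter, mem_map]
  constructor
  · rintro ⟨⟨y, h1, rfl⟩, h2⟩
    rw [key] at h2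
    exact ⟨y, ⟨h1, h2⟩, rfl⟩
  · rintro ⟨y, ⟨h1, h2⟩, rfl⟩
    rw [key]
    exact ⟨⟨y, h1, rfl⟩, h2⟩

/-- the preimage of a finset -/
def pre (f : Fin n ↪ Fin N) (σ : Finset (Fin N)) : Finset (Fin n) := univ.filter (fun i => f i ∈ σ)

theorem pre_map (f : Fin n ↪ Fin N) (σ : Finset (Fin n)) : pre f (σ.map f) = σ := by
  ext i
  simp [pre]

theorem map_pre {f : Fin n ↪ Fin N} {σ : Finset (Fin N)} (h : σ ⊆ univ.map f) :
    (pre f σ).map f = σ := by
  ext i
  simp only [pre, mem_map, mem_filter, mem_univ, true_and]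
  constructor
  · rintro ⟨j, h1, rfl⟩
    exact h1
  · intro hi
    obtain ⟨j, -, rfl⟩ := mem_map.1 (h hi)
    exact ⟨j, hi, rfl⟩

/-- push forward of the vanishing along strictly monotone maps of the vertices -/
theorem vk2_mono {f : Fin n ↪ Fin N} (hf : StrictMono f) {L : Finset (Finset (Fin n))}
    {K : Finset (Finset (Fin N))} (hLK : ∀ σ ∈ L, σ.map f ∈ K) {D : ℕ} (hK : VK2 K D) :
    VK2 L D := by
  classical
  intro Z hs hsupp hcy
  set W : Finset (Fin N) → Finset (Fin N) → ZMod 2 := fun σ τ =>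
    if σ ⊆ univ.map f ∧ τ ⊆ univ.map f then Z (pre f σ) (pre f τ) else 0 with hW
  have hWm : ∀ σ τ : Finset (Fin n), W (σ.map f) (τ.map f) = Z σ τ := by
    intro σ τ
    simp only [hW]
    rw [if_pos ⟨map_subset_map.2 (subset_univ _), map_subset_map.2 (subset_univ _)⟩, pre_map,
      pre_map]
  have hW0 : ∀ σ τ, W σ τ ≠ 0 → σ ⊆ univ.map f ∧ τ ⊆ univ.map f := by
    intro σ τ h
    by_contra hcon
    simp only [hW] at h
    rw [if_neg hcon] at h
    exact h rfl
  have h := hK W (by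
    intro σ τ
    simp only [hW]
    by_cases hc : σ ⊆ univ.map f ∧ τ ⊆ univ.map f
    · rw [if_pos hc, if_pos ⟨hc.2, hc.1⟩, hs]
    · rw [if_neg hc, if_neg (fun h => hc ⟨h.2, h.1⟩)]) (by
    intro σ τ h
    obtain ⟨h1, h2⟩ := hW0 _ _ h
    rw [← map_pre h1, ← map_pre h2, hWm] at h
    obtain ⟨h3, h4⟩ := hsupp _ _ h
    rw [← map_pre h1, ← map_pre h2]
    exact ⟨hLK _ h3, hLK _ h4⟩) (by
    intro ρ τ hd hc
    by_cases hr : ρ ⊆ univ.map f ∧ τ ⊆ univ.map f
    · obtain ⟨h1, h2⟩ := hr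
      rw [← map_pre h1, ← map_pre h2] at hd hc ⊢
      generalize pre f ρ = ρ' at *
      generalize pre f τ = τ' at *
      rw [disjoint_map] at hd
      rw [card_map, card_map] at hc
      rw [← hcy ρ' τ' hd hc]
      have e : ((ρ' ∪ τ')ᶜ).map f ⊆ (ρ'.map f ∪ τ'.map f)ᶜ := by
        intro x hx
        obtain ⟨y, h3, rfl⟩ := mem_map.1 hx
        rw [mem_compl, mem_union, not_or] at h3 ⊢
        rw [mem_map' f, mem_map' f]
        exact h3
      rw [← sum_subset e]
      · rw [sum_map]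
        refine sum_congr rfl fun v _ => ?_
        rw [← map_insert, ← map_insert, hWm, hWm]
      · intro x hx hx'
        rw [mem_compl, mem_union, not_or] at hx
        have hx2 : x ∉ univ.map f := by
          intro h3
          obtain ⟨y, -, rfl⟩ := mem_map.1 h3
          rw [mem_map' f, mem_map' f] at hx
          apply hx'
          rw [mem_map' f, mem_compl, mem_union, not_or]
          exact hx
        have e1 : W (insert x (ρ'.map f)) (τ'.map f) = 0 := by
          by_contra hne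
          exact hx2 ((hW0 _ _ hne).1 (mem_insert_self _ _))
        have e2 : W (ρ'.map f) (insert x (τ'.map f)) = 0 := by
          by_contra hne
          exact hx2 ((hW0 _ _ hne).2 (mem_insert_self _ _))
        rw [e1, e2, add_zero]
    · refine sum_eq_zero fun v _ => ?_
      have e1 : W (insert v ρ) τ = 0 := by
        by_contra hne
        obtain ⟨a, b⟩ := hW0 _ _ hne
        exact hr ⟨(subset_insert _ _).trans a, b⟩
      have e2 : W ρ (insert v τ) = 0 := by
        by_contra hne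
        obtain ⟨a, b⟩ := hW0 _ _ hne
        exact hr ⟨a, (subset_insert _ _).trans b⟩
      rw [e1, e2, add_zero])
  rw [← h]
  have e : (powersetCard D (univ : Finset (Fin n))).map (Finset.mapEmbedding f).toEmbedding ⊆
      powersetCard D (univ : Finset (Fin N)) := by
    intro U hU
    obtain ⟨U', h1, rfl⟩ := mem_map.1 hU
    rw [mem_powersetCard] at h1 ⊢
    refine ⟨subset_univ _, ?_⟩
    change (U'.map f).card = D
    rw [card_map]
    exact h1.2
  rw [← sum_subset e]
  · rw [sum_map]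
    refine sum_congr rfl fun U _ => ?_
    change Z (evenPart U) (oddPart U) = W (evenPart (U.map f)) (oddPart (U.map f))
    rw [even_map hf, odd_map hf, hWm]
  · intro U hU hU'
    by_contra hne
    obtain ⟨a, b⟩ := hW0 _ _ hne
    apply hU'
    have h1 : U ⊆ univ.map f := by
      intro x hx
      by_cases hx' : Even (U.filter (fun w => w < x)).card
      · exact a (mem_filter.2 ⟨hx, hx'⟩)
      · exact b (mem_filter.2 ⟨hx, hx'⟩)
    rw [mem_map]
    refine ⟨pre f U, mem_powersetCard.2 ⟨subset_univ _, ?_⟩, map_pre h1⟩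
    rw [← card_map f, map_pre h1]
    exact (mem_powersetCard.1 hU).2

/-- subcomplexes of homology spheres -/
theorem vk2_of_sphere {L : Finset (Finset (Fin n))} {K : Finset (Finset (Fin N))} {d : ℕ}
    (hK : HSph K d) (f : Fin n ↪ Fin N) (hf : ∀ σ ∈ L, σ.map f ∈ K) : VK2 L (d + 1) := by
  classical
  have hnN : n ≤ N := by
    have := Fintype.card_le_of_embedding f
    simpa using this
  set g : Fin n ↪ Fin N := Fin.castLEEmb hnN with hg
  have hgm : StrictMono g := fun i j hij => by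
    change Fin.castLE hnN i < Fin.castLE hnN j
    exact Fin.strictMono_castLE hnN hij
  -- a permutation with `π ∘ f = g`
  obtain ⟨π, hπ⟩ : ∃ π : Equiv.Perm (Fin N), ∀ i, π (f i) = g i := by
    let E : {x // x ∈ Set.range f} ≃ {x // x ∈ Set.range g} :=
      (Equiv.ofInjective f f.injective).symm.trans (Equiv.ofInjective g g.injective)
    refine ⟨E.extendSubtype, fun i => ?_⟩
    rw [Equiv.extendSubtype_apply_of_mem E (f i) ⟨i, rfl⟩]
    change ((Equiv.ofInjective g g.injective) ((Equiv.ofInjective f f.injective).symm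
      ⟨f i, ⟨i, rfl⟩⟩) : Fin N) = g i
    have : (Equiv.ofInjective f f.injective).symm ⟨f i, ⟨i, rfl⟩⟩ = i := by
      rw [Equiv.symm_apply_eq]
      rfl
    rw [this]
    rfl
  refine vk2_mono hgm (K := im π.toEmbedding K) ?_ (vk2_of_acyclic (im_cx hK.cx) ?_ ?_)
  · intro σ hσ
    rw [mem_im]
    refine ⟨σ.map f, hf σ hσ, ?_⟩
    rw [map_map]
    congr 1
    ext i
    exact congrArg Fin.val (hπ i)
  · intro σ hσ
    obtain ⟨σ', h, rfl⟩ := mem_im.1 hσ
    rw [card_map]
    exact hK.card_le _ h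
  · intro σ hσ hne j
    obtain ⟨σ', h, rfl⟩ := mem_im.1 hσ
    rw [del_im]
    refine ac_perm (del_acyclic σ' K d hK h ?_ j)
    rwa [map_nonempty] at hne

end Pool.Agent.Y131.KS
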