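import Pool.Agent.H7.L.N496_CV_Stm2

/-! Project CV (helper496), leaf TOP (helper793): the top degree. -/

set_option autoImplicit false

noncomputable section

namespace Pool.Agent.N496.CV

open Pool.Agent.W907.SG Pool.Agent.W461.SGN Pool.Agent.Helper655.VN Pool.Agent.RK

/-- common left denominators -/
theorem top_denom {R U : Type} [Ring R] [Ring U] {ι : R →+* U} (hL : Loc ι) (F : Finset U) :
    ∃ s : R, Nz s ∧ ∀ y ∈ F, ∃ x : R, ι s * y = ι x := by
  classical
  induction F using Finset.induction_on with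
  | empty => exact ⟨1, fun x hx => by simpa using hx, by simp⟩
  | insert y F _ ih =>
    obtain ⟨s, hs, h⟩ := ih
    obtain ⟨s', x', hs', hx'⟩ := hL.left (ι s * y)
    refine ⟨s' * s, fun x hx => hs' x (hs (x * s') (by rw [mul_assoc, hx])), ?_⟩
    intro z hz
    rcases Finset.mem_insert.1 hz with rfl | hz
    · exact ⟨x', by rw [map_mul, mul_assoc, hx']⟩
    · obtain ⟨x, hx⟩ := h z hz
      exact ⟨s' * x, by rw [map_mul, mul_assoc, hx, map_mul]⟩

section coef

variable {K : Type} [Group K]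

/-- the coefficient at `h` -/
def topcf (h : K) : NG K →+ ℂ where
  toFun x := ((x : EllTwo K →L[ℂ] EllTwo K) (dl 1)) h
  map_zero' := rfl
  map_add' _ _ := rfl

theorem topcf_apply (h : K) (x : NG K) : topcf h x = ((x : EllTwo K →L[ℂ] EllTwo K) (dl 1)) h := rfl

theorem topcf_canL (h : K) (x : NG K) : topcf 1 (x * canL h⁻¹) = topcf h x := by
  have h1 : ((x * canL h⁻¹ : NG K) : EllTwo K →L[ℂ] EllTwo K) (dl 1) =
      (x : EllTwo K →L[ℂ] EllTwo K) (lam K h⁻¹ (dl 1)) := rfl
  rw [topcf_apply, h1, lam_dl, mul_one, coef_apply, inv_inv, one_mul, topcf_apply]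

theorem topcf_ext {x : NG K} (h : ∀ k, topcf k x = 0) : x = 0 := by
  apply ext_NG
  ext k
  exact h k

theorem topcf_summable (x : NG K) : Summable fun h : K => ‖topcf h x‖ ^ 2 := by
  have h1 := (lp.memℓp ((x : EllTwo K →L[ℂ] EllTwo K) (dl 1))).summable (by norm_num)
  refine h1.congr fun h => ?_
  rw [topcf_apply]
  norm_num

end coef

section harm

variable {V : Type} [Fintype V] [LinearOrder V] {G : SimpleGraph V} {C : Set V}

/-- the inclusion of the vertices of `C` -/
def tope (C : Set V) : C ↪ V := Function.Embedding.subtype (· ∈ C)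

omit [Fintype V] in
theorem top_sg (v : C) (T : Finset C) : sg (tope C v) (T.map (tope C)) = sg v T := by
  unfold sg
  congr 1
  rw [Finset.filter_map, Finset.card_map]
  rfl

omit [Fintype V] [LinearOrder V] in
theorem top_clique (T : Finset C) : G.IsClique ((T.map (tope C) : Finset V) : Set V) ↔
    (G.induce C).IsClique (T : Set C) := by
  constructor
  · intro h a ha b hb hab
    exact h (by simpa [tope] using ha) (by simpa [tope] using hb) (fun h' => hab (Subtype.ext h'))
  · intro h a ha b hb hab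
    obtain ⟨a', ha', rfl⟩ := Finset.mem_map.1 (Finset.mem_coe.1 ha)
    obtain ⟨b', hb', rfl⟩ := Finset.mem_map.1 (Finset.mem_coe.1 hb)
    exact h ha' hb' (fun h' => hab (by rw [h']))

omit [Fintype V] [LinearOrder V] in
theorem top_sub (T : Finset C) : ((T.map (tope C) : Finset V) : Set V) ⊆ C := by
  intro a ha
  obtain ⟨a', ha', rfl⟩ := Finset.mem_map.1 (Finset.mem_coe.1 ha)
  exact a'.2

/-- the harmonic chain -/
theorem top_harm [Fintype C] {i : ℕ} (γ : Finset V → W G → ℂ)
    (hs : ∀ T : Finset V, ¬ (G.IsClique (T : Set V) ∧ (T : Set V) ⊆ C ∧ T.card = i) → ∀ w, γ T w = 0)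
    (ha : ∀ T : Finset V, ∀ t ∈ T, ∀ w, γ T (w * (cox G).simple t) = - γ T w)
    (hc : ∀ (T : Finset V) (w : W G), ∑ v ∈ Tᶜ, sg v T • γ (insert v T) w = 0)
    (hd : ∀ T : Finset V, G.IsClique (T : Set V) → (T : Set V) ⊆ C → T.card ≤ i)
    (f : W (G.induce C) →* W G) (hf : ∀ v : C, f ((cox (G.induce C)).simple v) = (cox G).simple v.1)
    (w0 : W G) (hsum : ∀ T : Finset V, Summable fun w' => ‖γ T (w0 * f w')‖ ^ 2)
    (hvan : L2Van (G.induce C) i) (ℓ : ℂ →+ ℝ) (hℓ : ∀ z, |ℓ z| ≤ ‖z‖) (T : Finset V) : ℓ (γ T w0) = 0 := by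
  have hdec : DecidablePred (· ∈ C) := Classical.decPred _
  have key := hvan (fun w' T' => ℓ (γ (T'.map (tope C)) (w0 * f w'))) ?_
  · by_cases hT : G.IsClique (T : Set V) ∧ (T : Set V) ⊆ C ∧ T.card = i
    · have h1 := congrFun (congrFun key 1) (T.subtype (· ∈ C))
      have h2 : (T.subtype (· ∈ C)).map (tope C) = T := by
        unfold tope
        rw [Finset.subtype_map]
        exact Finset.filter_true_of_mem fun x hx => hT.2.1 hx
      simp only [map_one, mul_one] at h1
      rw [h2] at h1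
      exact h1
    · rw [hs T hT, map_zero]
  · refine ⟨?_, ?_, ?_, ?_, ?_⟩
    · intro w' T' hT'
      rw [hs, map_zero]
      rintro ⟨h1, -, h3⟩
      exact hT' ⟨(top_clique T').1 h1, by rwa [Finset.card_map] at h3⟩
    · intro w' T' t ht
      rw [map_mul, hf, ← mul_assoc, ha _ t.1 (Finset.mem_map.2 ⟨t, ht, rfl⟩), map_neg]
    · have h1 : ∀ T' : Finset C, Summable fun w' => (ℓ (γ (T'.map (tope C)) (w0 * f w'))) ^ 2 := by
        intro T'
        refine Summable.of_nonneg_of_le (fun _ => sq_nonneg _) (fun w' => ?_) (hsum (T'.map (tope C)))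
        rw [← sq_abs]
        exact pow_le_pow_left₀ (abs_nonneg _) (hℓ _) 2
      have h2 : Summable fun x : Finset C × W (G.induce C) => (ℓ (γ (x.1.map (tope C)) (w0 * f x.2))) ^ 2 := by
        rw [summable_prod_of_nonneg (fun _ => sq_nonneg _)]
        exact ⟨h1, Summable.of_finite⟩
      exact ((Equiv.prodComm (W (G.induce C)) (Finset C)).summable_iff
        (f := fun x : Finset C × W (G.induce C) => (ℓ (γ (x.1.map (tope C)) (w0 * f x.2))) ^ 2)).2 h2
    · intro w' T'
      have h1 := congrArg ℓ (hc (T'.map (tope C)) (w0 * f w'))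
      rw [map_zero, map_sum] at h1
      have h2 : ∑ v ∈ (T'ᶜ).map (tope C), ℓ (sg v (T'.map (tope C)) • γ (insert v (T'.map (tope C))) (w0 * f w')) =
          ∑ v ∈ (T'.map (tope C))ᶜ, ℓ (sg v (T'.map (tope C)) • γ (insert v (T'.map (tope C))) (w0 * f w')) := by
        refine Finset.sum_subset ?_ ?_
        · intro v hv
          obtain ⟨v', hv', rfl⟩ := Finset.mem_map.1 hv
          rw [Finset.mem_compl]
          intro hc'
          rw [Finset.mem_map'] at hc'
          exact Finset.mem_compl.1 hv' hc'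
        · intro v hv hv2
          have hvC : v ∉ C := by
            intro hvC
            apply hv2
            refine Finset.mem_map.2 ⟨⟨v, hvC⟩, ?_, rfl⟩
            rw [Finset.mem_compl]
            intro hc'
            exact Finset.mem_compl.1 hv (Finset.mem_map.2 ⟨⟨v, hvC⟩, hc', rfl⟩)
          rw [hs, smul_zero, map_zero]
          rintro ⟨-, h3, -⟩
          exact hvC (h3 (Finset.mem_coe.2 (Finset.mem_insert_self _ _)))
      rw [← h2, Finset.sum_map] at h1
      rw [← h1]
      refine Finset.sum_congr rfl fun v _ => ?_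
      rw [map_zsmul, top_sg, zsmul_eq_mul, Finset.map_insert]
    · intro w' T' hT'
      refine Finset.sum_eq_zero fun t ht => ?_
      have h1 : (T'.map (tope C)).card ≤ i := hd _ ((top_clique T').2 hT') (top_sub T')
      have hcard : ∀ Z : Finset C, Z.card < T'.card → ∀ w, γ (Z.map (tope C)) w = 0 := by
        intro Z hZ w
        refine hs _ (fun h => ?_) w
        have h2 := h.2.2
        rw [Finset.card_map] at h1 h2
        omega
      rw [hcard _ ?_, hcard _ ?_, map_zero, sub_zero, mul_zero]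
      · exact Finset.card_erase_lt_of_mem ht
      · exact Finset.card_erase_lt_of_mem ht

end harm

/-- the summability over a coset of a special subgroup -/
theorem top_sum {V : Type} {G : SimpleGraph V} (K : Subgroup (W G)) (S : Finset (W G)) (E : Subgroup (W G × ℤˣ))
    (g : W G → NG K) (hS : ∀ w, g w ≠ 0 → ∃ h : K, ∃ x ∈ S, ∃ p ∈ E, w = h * x * p.1)
    (hE : ∀ p ∈ E, ∀ w, g (w * p.1) = ((p.2 : ℤˣ) : ℤ) • g w) (hK : ∀ (h : K) w, g (h * w) = g w * canL h⁻¹)
    {W' : Type} (f : W' → W G) (hf : ∀ w w' : W', ∀ p ∈ E, ∀ p' ∈ E, ∀ z : W G, f w = z * p.1 → f w' = z * p'.1 →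
      w = w') : Summable fun w' => ‖topcf 1 (g (f w'))‖ ^ 2 := by
  classical
  have hval : ∀ (h : K) (x : W G) (p : W G × ℤˣ), p ∈ E → ‖topcf 1 (g (h * x * p.1))‖ = ‖topcf h (g x)‖ := by
    intro h x p hp
    rw [hE p hp, map_zsmul, hK, topcf_canL]
    rcases Int.units_eq_one_or p.2 with h1 | h1 <;> rw [h1] <;> simp
  have hch : ∀ z : {w' : W' // g (f w') ≠ 0}, ∃ y : {x : W G // x ∈ S} × K, ∃ p ∈ E, f z.1 = y.2 * y.1.1 * p.1 := by
    rintro ⟨w', hw'⟩
    obtain ⟨h, x, hx, p, hp, e⟩ := hS _ hw'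
    exact ⟨(⟨x, hx⟩, h), p, hp, e⟩
  choose φ p hp hφ using hch
  have hinj : Function.Injective φ := by
    intro z z' hzz
    have h1 := hφ z
    have h2 := hφ z'
    rw [← hzz] at h2
    exact Subtype.ext (hf _ _ _ (hp z) _ (hp z') _ h1 h2)
  have hF : Summable fun y : {x : W G // x ∈ S} × K => ‖topcf y.2 (g y.1.1)‖ ^ 2 := by
    rw [summable_prod_of_nonneg (fun _ => by positivity)]
    exact ⟨fun x => topcf_summable (g x.1), Summable.of_finite⟩
  have h3 := hF.comp_injective hinj
  have h4 : Summable ((fun w' => ‖topcf 1 (g (f w'))‖ ^ 2) ∘ (Subtype.val : {w' : W' // g (f w') ≠ 0} → W')) := by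
    refine h3.congr fun z => ?_
    simp only [Function.comp_apply]
    rw [hφ z, hval _ _ _ (hp z)]
  rwa [Function.Injective.summable_iff Subtype.val_injective] at h4
  intro w' hw'
  have h5 : g (f w') = 0 := by
    by_contra h6
    exact hw' ⟨⟨w', h6⟩, rfl⟩
  rw [h5, map_zero]
  simp

theorem top (hspec : SPEC) : TOP := by
  intro V _ _ G K U _ ι u L C Y E i hL hu hgood hCL hvan hd c hc hbd
  classical
  obtain ⟨hspec1, hspec2, -⟩ := hspec V G
  obtain ⟨f, hfinj, hf⟩ := hspec2 C
  obtain ⟨Q, hQ, hQL⟩ := hgood.comm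
  -- the finite supports
  choose S hS using fun T => (hc.mem T).fin
  -- the common denominator
  obtain ⟨s, hs, hsx⟩ := top_denom hL
    (Finset.univ.biUnion fun T : Finset V => (S T).image fun x => c T x)
  have hex : ∀ (T : Finset V) (w : W G), ∃ x : NG K, ι x = ι s * c T w := by
    intro T w
    by_cases hw : c T w = 0
    · exact ⟨0, by rw [hw, mul_zero, map_zero]⟩
    · obtain ⟨h, x, hx, p, hp, e⟩ := hS T w hw
      obtain ⟨y, hy⟩ := hsx (c T x) (Finset.mem_biUnion.2 ⟨T, Finset.mem_univ _, Finset.mem_image.2 ⟨x, hx, rfl⟩⟩)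
      refine ⟨((p.2 : ℤˣ) : ℤ) • (y * canL h⁻¹), ?_⟩
      rw [e, (hc.mem T).eqE p hp, (hc.mem T).eqK, map_zsmul, map_mul, ← hy, ← hu, mul_smul_comm, mul_assoc]
  choose g hg using hex
  have hinj := hL.inj
  have gE : ∀ T, ∀ p ∈ E, ∀ w, g T (w * p.1) = ((p.2 : ℤˣ) : ℤ) • g T w := by
    intro T p hp w
    apply hinj
    rw [map_zsmul, hg, hg, (hc.mem T).eqE p hp, mul_smul_comm]
  have gK : ∀ T, ∀ (h : K) w, g T (h * w) = g T w * canL h⁻¹ := by
    intro T h w
    apply hinj
    rw [map_mul, hg, hg, (hc.mem T).eqK, hu, mul_assoc]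
  have gS : ∀ T, ∀ w, g T w ≠ 0 → ∃ h : K, ∃ x ∈ S T, ∃ p ∈ E, w = h * x * p.1 := by
    intro T w hw
    refine hS T w fun h0 => hw ?_
    apply hinj
    rw [hg, h0, mul_zero, map_zero]
  have gs : ∀ T : Finset V, ¬ (G.IsClique (T : Set V) ∧ (T : Set V) ⊆ C ∧ T.card = i) → ∀ w, g T w = 0 := by
    intro T hT w
    apply hinj
    rw [hg, hc.supp T hT, Pi.zero_apply, mul_zero, map_zero]
  have ga : ∀ T : Finset V, ∀ t ∈ T, ∀ w, g T (w * (cox G).simple t) = - g T w := by
    intro T t ht w
    apply hinj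
    rw [map_neg, hg, hg, hc.anti T t ht, mul_neg]
  have gc : ∀ (T : Finset V) (w : W G), ∑ v ∈ Tᶜ, sg v T • g (insert v T) w = 0 := by
    intro T w
    apply hinj
    rw [map_sum, map_zero]
    have h1 : ∑ v ∈ Tᶜ, ι (sg v T • g (insert v T) w) = ι s * bdf G c T w := by
      unfold bdf
      rw [Finset.mul_sum]
      refine Finset.sum_congr rfl fun v _ => ?_
      rw [map_zsmul, hg, mul_smul_comm]
    rw [h1, hbd]
    simp
  have hsum : ∀ (w0 : W G) (T : Finset V), Summable fun w' => ‖topcf 1 (g T (w0 * f w'))‖ ^ 2 := by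
    intro w0 T
    refine top_sum K (S T) E (g T) (gS T) (gE T) (gK T) (fun w' => w0 * f w') ?_
    intro w w' p hp p' hp' z h1 h2
    have h3 : f (w⁻¹ * w') = p.1⁻¹ * p'.1 := by
      have e1 : f w = w0⁻¹ * (z * p.1) := by rw [← h1]; group
      have e2 : f w' = w0⁻¹ * (z * p'.1) := by rw [← h2]; group
      rw [map_mul, map_inv, e1, e2]
      group
    have h4 : f (w⁻¹ * w') ∈ Subgroup.closure ((cox G).simple '' C) := by
      have h5 : ∀ y : W (G.induce C), f y ∈ Subgroup.closure ((cox G).simple '' C) := by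
        intro y
        have h6 : (⊤ : Subgroup (W (G.induce C))) = Subgroup.closure (Set.range (cox (G.induce C)).simple) :=
          ((cox (G.induce C)).toCoxeterSystem.subgroup_closure_range_simple).symm
        have h7 : y ∈ Subgroup.closure (Set.range (cox (G.induce C)).simple) := by
          rw [← h6]; trivial
        refine Subgroup.closure_induction (p := fun y _ => f y ∈ Subgroup.closure ((cox G).simple '' C))
          ?_ ?_ ?_ ?_ h7
        · rintro _ ⟨v, rfl⟩
          rw [hf]
          exact Subgroup.subset_closure ⟨v.1, v.2, rfl⟩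
        · rw [map_one]; exact one_mem _
        · intro a b _ _ ha hb
          rw [map_mul]; exact mul_mem ha hb
        · intro a _ ha
          rw [map_inv]; exact inv_mem ha
      exact h5 _
    have h8 : f (w⁻¹ * w') ∈ Subgroup.closure ((cox G).simple '' Q) := by
      rw [h3]
      exact mul_mem (inv_mem (hQ p hp)) (hQ p' hp')
    have hdis : Disjoint Q C := by
      rw [Set.disjoint_left]
      intro q hq hqC
      exact G.loopless.irrefl q (hQL q hq q (hCL hqC))
    have h9 := hspec1 Q C hdis _ h8 h4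
    have h10 : w⁻¹ * w' = 1 := hfinj (by rw [h9, map_one])
    exact (inv_mul_eq_one.1 h10)
  -- the coefficients vanish
  have hfin : Fintype C := Fintype.ofFinite _
  have hγ : ∀ T w, topcf 1 (g T w) = 0 := by
    intro T w
    have h0 : ∀ ℓ : ℂ →+ ℝ, (∀ z, |ℓ z| ≤ ‖z‖) → ℓ (topcf 1 (g T w)) = 0 := by
      intro ℓ hℓ
      refine top_harm (i := i) (fun T w => topcf 1 (g T w)) ?_ ?_ ?_ hd f hf w (hsum w) hvan ℓ hℓ T
      · intro T hT w
        rw [gs T hT, map_zero]
      · intro T t ht w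
        rw [ga T t ht, map_neg]
      · intro T w
        have h1 := congrArg (topcf (1 : K)) (gc T w)
        rw [map_sum, map_zero] at h1
        rw [← h1]
        refine Finset.sum_congr rfl fun v _ => ?_
        rw [map_zsmul]
    refine Complex.ext ?_ ?_
    · exact h0 Complex.reAddGroupHom (fun z => Complex.abs_re_le_norm z)
    · exact h0 Complex.imAddGroupHom (fun z => Complex.abs_im_le_norm z)
  funext T w
  have h1 : g T w = 0 := by
    apply topcf_ext
    intro h
    rw [← topcf_canL, ← gK]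
    exact hγ T _
  have h2 := hg T w
  rw [h1, map_zero] at h2
  exact ((hL.unit s hs).mul_right_eq_zero.1 h2.symm)

end Pool.Agent.N496.CV
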