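import Pool.Agent.H7.L.W555_KS_Defs

/-!
# Project KS (helper555), task KS-EMBS: a complex embedded in the sphere gives a conical embedding
-/

set_option autoImplicit false

namespace Pool.Agent.W289.KS

open Pool.Agent.W555.KS Finset Filter Topology

/-- sum of the coordinates -/
def tot {n : ℕ} (x : Fin n → ℝ) : ℝ := ∑ i, x i

theorem tot_cont {n : ℕ} : Continuous (tot : (Fin n → ℝ) → ℝ) := by
  unfold tot
  exact continuous_finsetSum _ (fun i _ => continuous_apply i)

theorem tot_nonneg {n : ℕ} {x : Fin n → ℝ} (hx : ∀ i, 0 ≤ x i) : 0 ≤ tot x :=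
  Finset.sum_nonneg (fun i _ => hx i)

theorem tot_eq_zero {n : ℕ} {x : Fin n → ℝ} (hx : ∀ i, 0 ≤ x i) (h : tot x = 0) : x = 0 := by
  funext i
  exact (Finset.sum_eq_zero_iff_of_nonneg (fun i _ => hx i)).1 h i (Finset.mem_univ i)

/-- the realization used by `S11781` -/
def rea {n : ℕ} (L : Finset (Finset (Fin n))) : Set (Fin n → ℝ) :=
  {x : Fin n → ℝ | (∀ i, 0 ≤ x i) ∧ ∑ i, x i = 1 ∧ ∃ σ ∈ L, ∀ i, i ∉ σ → x i = 0}

/-- radial projection to the simplex -/
noncomputable def rad {n : ℕ} (x : Fin n → ℝ) : Fin n → ℝ := (tot x)⁻¹ • x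

theorem rad_mem {n : ℕ} {L : Finset (Finset (Fin n))} {x : Fin n → ℝ} (hx : x ∈ coneSet L)
    (h0 : tot x ≠ 0) : rad x ∈ rea L := by
  obtain ⟨hx0, σ, hσ, hs⟩ := hx
  refine ⟨fun i => ?_, ?_, σ, hσ, fun i hi => ?_⟩
  · simp only [rad, Pi.smul_apply, smul_eq_mul]
    exact mul_nonneg (inv_nonneg.2 (tot_nonneg hx0)) (hx0 i)
  · simp only [rad, Pi.smul_apply, smul_eq_mul]
    rw [← Finset.mul_sum]
    exact inv_mul_cancel₀ h0
  · simp only [rad, Pi.smul_apply, smul_eq_mul, hs i hi, mul_zero]

theorem rad_cont {n : ℕ} {x : Fin n → ℝ} (h0 : tot x ≠ 0) : ContinuousAt rad x := by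
  unfold rad
  exact (tot_cont.continuousAt.inv₀ h0).smul continuousAt_id

theorem tot_smul_rad {n : ℕ} {x : Fin n → ℝ} (h0 : tot x ≠ 0) : tot x • rad x = x := by
  unfold rad
  rw [smul_smul, mul_inv_cancel₀ h0, one_smul]

/-- the radial composition `f (x / |x|)` is continuous away from the apex -/
theorem comp_cont {n d : ℕ} {L : Finset (Finset (Fin n))}
    {f : (Fin n → ℝ) → EuclideanSpace ℝ (Fin d)} (hf : ContinuousOn f (rea L))
    {x : Fin n → ℝ} (hx : x ∈ coneSet L) (h0 : 0 < tot x) :
    ContinuousWithinAt (fun y => f (rad y)) (coneSet L) x := by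
  have hU : {y : Fin n → ℝ | 0 < tot y} ∈ 𝓝 x :=
    (isOpen_lt continuous_const tot_cont).mem_nhds h0
  have key : ContinuousWithinAt (fun y => f (rad y)) (coneSet L ∩ {y | 0 < tot y}) x := by
    refine ContinuousWithinAt.comp (t := rea L) (hf (rad x) (rad_mem hx h0.ne'))
      (rad_cont h0.ne').continuousWithinAt ?_
    intro y hy
    exact rad_mem hy.1 (ne_of_gt hy.2)
  exact (continuousWithinAt_inter hU).1 key

/-- KS-EMBS -/
theorem embS : StEmbS := by
  intro n d L _ hf
  obtain ⟨f, hc, hi, h1⟩ := hf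
  change ContinuousOn f (rea L) at hc
  change Set.InjOn f (rea L) at hi
  have h1' : ∀ x ∈ rea L, ‖f x‖ = 1 := fun x hx => h1 x hx.1 hx.2.1 hx.2.2
  refine ⟨fun x j => tot x * f (rad x) j, ?_, ?_⟩
  · rw [continuousOn_pi]
    intro j x hx
    have hxt := tot_nonneg hx.1
    rcases hxt.eq_or_lt with h0 | h0
    · -- at the apex
      have hbd : ∀ y ∈ coneSet L, ‖tot y * f (rad y) j‖ ≤ tot y := by
        intro y hy
        rcases (tot_nonneg hy.1).eq_or_lt with hy0 | hy0
        · rw [← hy0]; simp
        · rw [norm_mul, Real.norm_of_nonneg hy0.le]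
          have h2 : ‖f (rad y) j‖ ≤ 1 := by
            rw [← h1' _ (rad_mem hy hy0.ne')]
            exact PiLp.norm_apply_le _ _
          nlinarith
      have h3 : Tendsto tot (𝓝[coneSet L] x) (𝓝 0) := by
        have := (tot_cont (n := n)).continuousAt (x := x)
        have h4 : Tendsto tot (𝓝 x) (𝓝 (tot x)) := this
        rw [← h0] at h4
        exact h4.mono_left nhdsWithin_le_nhds
      have h5 : Tendsto (fun y => tot y * f (rad y) j) (𝓝[coneSet L] x) (𝓝 0) :=
        squeeze_zero_norm' (eventually_nhdsWithin_of_forall hbd) h3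
      have h6 : (fun y => tot y * f (rad y) j) x = 0 := by
        simp only [← h0, zero_mul]
      change Tendsto (fun y => tot y * f (rad y) j) (𝓝[coneSet L] x)
        (𝓝 ((fun y => tot y * f (rad y) j) x))
      rw [h6]
      exact h5
    · have h7 := comp_cont hc hx h0
      have h8 : ContinuousWithinAt (fun y => f (rad y) j) (coneSet L) x := by
        have h9 : Continuous (fun z : EuclideanSpace ℝ (Fin d) => z j) := by fun_prop
        exact h9.continuousAt.comp_continuousWithinAt h7
      exact (tot_cont.continuousAt.continuousWithinAt).mul h8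
  · intro x hx y hy hdis hF
    have hFj : ∀ j, tot x * f (rad x) j = tot y * f (rad y) j := fun j => congrFun hF j
    have hv : tot x • f (rad x) = tot y • f (rad y) := by
      ext j
      simpa using hFj j
    have hxt := tot_nonneg hx.1
    have hyt := tot_nonneg hy.1
    have hnx : ‖tot x • f (rad x)‖ = tot x := by
      rcases hxt.eq_or_lt with h0 | h0
      · rw [← h0]; simp
      · rw [norm_smul, h1' _ (rad_mem hx h0.ne'), mul_one, Real.norm_of_nonneg h0.le]
    have hny : ‖tot y • f (rad y)‖ = tot y := by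
      rcases hyt.eq_or_lt with h0 | h0
      · rw [← h0]; simp
      · rw [norm_smul, h1' _ (rad_mem hy h0.ne'), mul_one, Real.norm_of_nonneg h0.le]
    have ht : tot x = tot y := by rw [← hnx, ← hny, hv]
    have hxy : x = y := by
      rcases hxt.eq_or_lt with h0 | h0
      · rw [tot_eq_zero hx.1 h0.symm, tot_eq_zero hy.1 (by rw [← ht, ← h0])]
      · have h0y : 0 < tot y := by rw [← ht]; exact h0
        rw [← ht] at hv
        have hff : f (rad x) = f (rad y) := smul_right_injective _ h0.ne' hv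
        have hr := hi (rad_mem hx h0.ne') (rad_mem hy h0y.ne') hff
        rw [← tot_smul_rad h0.ne', ← tot_smul_rad h0y.ne', hr, ht]
    have hx0 : x = 0 := by
      funext i
      rcases hdis i with h | h
      · exact h
      · rw [hxy]; exact h
    exact ⟨hx0, by rw [← hxy]; exact hx0⟩

end Pool.Agent.W289.KS
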