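import Mathlib
import Pool.Agent.H7.L.Y131_KS_Cone

/-!
Odd maps on the deleted join.
-/

set_option autoImplicit false

namespace Pool.Agent.Y131.KS

open Finset Pool.Agent.W555.KS Pool.Agent.Helper133.BU Pool.Agent.W357.KS.Fan

variable {n : ℕ}

theorem key' {L : Finset (Finset (Fin n))} {m : ℕ} (f : (Fin n → ℝ) → (Fin (m + 1) → ℝ))
    (hfc : ContinuousOn f (X L)) (hodd : ∀ x, f (-x) = -f x) (hcon : ∀ x ∈ X L, f x ≠ 0)
    (z : Chain (Fin n → ℝ)) (hz : z ∈ S (P L (m + 2))) :
    ∃ (r : ℕ) (a : (Fin n → ℝ) → ℕ) (s : (Fin n → ℝ) → ZMod 2), Adm L a s ∧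
      alc s (sortC a ((sub (m + 2))^[r] z)) = 0 := by
  obtain ⟨c, hc, hmin⟩ : ∃ c : ℝ, 0 < c ∧ ∀ x ∈ X L, c ≤ ‖f x‖ := by
    by_cases hne : (X L).Nonempty
    · obtain ⟨x₀, hx₀, hmin⟩ := (X_compact L).exists_isMinOn hne hfc.norm
      exact ⟨‖f x₀‖, norm_pos_iff.mpr (hcon x₀ hx₀), fun x hx => hmin hx⟩
    · exact ⟨1, one_pos, fun x hx => absurd ⟨x, hx⟩ hne⟩
  have huc := (X_compact L).uniformContinuousOn_of_continuous hfc
  rw [Metric.uniformContinuousOn_iff] at huc
  obtain ⟨δ, hδ, hδ'⟩ := huc c hc
  have hq : (((m + 2 : ℕ) : ℝ) / ((m + 2 : ℕ) + 1)) < 1 := by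
    rw [div_lt_one (by positivity)]
    linarith
  obtain ⟨r, hr⟩ := exists_pow_lt_of_lt_one (show 0 < δ / 2 by positivity) hq
  let a : (Fin n → ℝ) → ℕ := fun x => (arg (fun i => |f x i|) : Fin (m + 1))
  let s : (Fin n → ℝ) → ZMod 2 :=
    fun x => if 0 < f x (arg (fun i => |f x i|)) then 1 else 0
  have habs : ∀ x, (fun i => |f (-x) i|) = fun i => |f x i| := by
    intro x; funext i; rw [hodd, Pi.neg_apply, abs_neg]
  have ha : ∀ x, a (-x) = a x := by
    intro x
    simp only [a, habs]
  have hnorm : ∀ x, ‖f x‖ = |f x (arg (fun i => |f x i|))| := by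
    intro x
    apply le_antisymm
    · rw [pi_norm_le_iff_of_nonneg (abs_nonneg _)]
      intro i
      exact arg_spec (fun i => |f x i|) i
    · exact norm_le_pi_norm (f x) _
  have hs : ∀ x ∈ X L, s (-x) = s x + 1 := by
    intro x hx
    have h1 := hnorm x
    have h2 : f x (arg (fun i => |f x i|)) ≠ 0 := by
      intro h
      rw [h, abs_zero] at h1
      exact hcon x hx (norm_eq_zero.mp h1)
    simp only [s, habs]
    rw [hodd, Pi.neg_apply]
    rcases lt_or_gt_of_ne h2 with h | h
    · have h3 : ¬ 0 < f x (arg (fun i => |f x i|)) := not_lt.mpr h.le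
      have h4 : 0 < -f x (arg (fun i => |f x i|)) := by linarith
      simp [h3, h4]
    · have h3 : ¬ 0 < -f x (arg (fun i => |f x i|)) := by
        rw [not_lt]; linarith
      simp only [h, h3, if_true, if_false]
      exact (z2_add_self 1).symm
  have hcompl : ∀ x ∈ X L, ∀ y ∈ X L, dist x y < δ → a x = a y → s x = s y := by
    intro x hx y hy hxy hax
    have hd := hδ' x hx y hy hxy
    have hax' : arg (fun i => |f x i|) = arg (fun i => |f y i|) := Fin.ext hax
    simp only [s]
    rw [← hax']
    have h1 := hnorm x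
    have h2 := hnorm y
    rw [← hax'] at h2
    have h3 := hmin x hx
    have h4 := hmin y hy
    have h5 : |f x (arg (fun i => |f x i|)) - f y (arg (fun i => |f x i|))| < c := by
      rw [dist_eq_norm] at hd
      exact lt_of_le_of_lt (norm_le_pi_norm (f x - f y) _) hd
    set p := f x (arg (fun i => |f x i|))
    set q := f y (arg (fun i => |f x i|))
    have h6 : c ≤ |p| := by rw [← h1]; exact h3
    have h7 : c ≤ |q| := by rw [← h2]; exact h4
    rw [abs_lt] at h5
    rcases le_abs'.mp h6 with h8 | h8 <;> rcases le_abs'.mp h7 with h9 | h9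
    · have e1 : ¬ 0 < p := by linarith
      have e2 : ¬ 0 < q := by linarith
      simp [e1, e2]
    · exfalso; linarith [h5.1]
    · exfalso; linarith [h5.2]
    · have e1 : 0 < p := by linarith
      have e2 : 0 < q := by linarith
      simp [e1, e2]
  refine ⟨r, a, s, ⟨ha, hs⟩, ?_⟩
  refine lin_eq_zero ((alc s).comp (sortC a)) ?_ (iter_mem hz r)
  rintro l ⟨C, hC, hlen, hl, hD⟩
  rw [LinearMap.comp_apply, sortC_single, alc_single, one_mul]
  have hlX : ∀ v ∈ l, v ∈ X L := fun v hv => CC_sub_X hC (hl v hv)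
  have hst : Std.Total (fun x y : Fin n → ℝ => a x ≤ a y) :=
    ⟨fun x y => le_total (a x) (a y)⟩
  have htr : IsTrans (Fin n → ℝ) (fun x y => a x ≤ a y) := ⟨fun x y z => le_trans⟩
  have hW : W s (l.insertionSort (fun x y => a x ≤ a y)) = 0 := by
    refine W_zero (m + 1) a s _ ?_ ?_ ?_ (List.pairwise_insertionSort _ l)
    · rw [List.length_insertionSort, hlen]; omega
    · intro v _
      exact (arg (fun i => |f v i|)).2
    · intro u hu v hv
      rw [List.mem_insertionSort] at hu hv
      refine hcompl u (hlX u hu) v (hlX v hv) ?_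
      rw [dist_eq_norm]
      refine lt_of_le_of_lt (hD u hu v hv) ?_
      linarith
  have hlen2 : (l.insertionSort (fun x y => a x ≤ a y)).length = m + 2 := by
    rw [List.length_insertionSort, hlen]
  revert hW hlen2
  generalize l.insertionSort (fun x y => a x ≤ a y) = l'
  intro hW hlen2
  cases l' with
  | nil => simp at hlen2
  | cons x t =>
    simp only [al]
    rw [hW, mul_zero]


/-- the deleted join: the positive and the negative support are faces -/
def dJoin (L : Finset (Finset (Fin n))) : Set (Fin n → ℝ) :=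
  {x | ∑ i, |x i| = 1 ∧ univ.filter (fun i => 0 < x i) ∈ L ∧ univ.filter (fun i => x i < 0) ∈ L}

theorem dJoin_eq {L : Finset (Finset (Fin n))} (hL : IsCx L) : dJoin L = X L := by
  ext x
  constructor
  · rintro ⟨h1, h2, h3⟩
    refine ⟨_, h2, _, h3, ?_, ?_, ?_, ?_⟩
    · rw [disjoint_left]
      intro i hi hi'
      rw [mem_filter] at hi hi'
      exact lt_asymm hi.2 hi'.2
    · intro i hi
      rw [mem_filter] at hi
      push Not at hi
      exact hi (mem_univ i)
    · intro i hi
      rw [mem_filter] at hi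
      push Not at hi
      exact hi (mem_univ i)
    · rw [← h1]
      refine sum_congr rfl fun i _ => ?_
      by_cases hi : x i < 0
      · rw [if_pos (mem_filter.2 ⟨mem_univ i, hi⟩), abs_of_neg hi]
      · have h' : i ∉ univ.filter (fun i => x i < 0) := fun h => hi (mem_filter.1 h).2
        rw [if_neg h', abs_of_nonneg (not_lt.1 hi)]
  · rintro ⟨σ, hσ, τ, hτ, hd, hx⟩
    refine ⟨Cst_abs hd hx, hL.2 σ hσ _ ?_, hL.2 τ hτ _ ?_⟩
    · intro i hi
      rw [mem_filter] at hi
      by_contra h
      exact absurd hi.2 (not_lt.2 (hx.1 i h))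
    · intro i hi
      rw [mem_filter] at hi
      by_contra h
      exact absurd hi.2 (not_lt.2 (hx.2.1 i h))

theorem X_neg {L : Finset (Finset (Fin n))} (hL : IsCx L) {x : Fin n → ℝ} (hx : x ∈ X L) :
    -x ∈ X L := by
  rw [← dJoin_eq hL] at hx ⊢
  obtain ⟨h1, h2, h3⟩ := hx
  refine ⟨by simpa using h1, by simpa using h3, by simpa using h2⟩

/-- an odd map from the deleted join to `ℝ^d` without zeros -/
def OddMap (L : Finset (Finset (Fin n))) (d : ℕ) : Prop :=
  ∃ f : (Fin n → ℝ) → (Fin d → ℝ), ContinuousOn f (dJoin L) ∧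
    ∀ x ∈ dJoin L, f (-x) = -f x ∧ f x ≠ 0

theorem vk2_of_odd {L : Finset (Finset (Fin n))} {d : ℕ} (hL : IsCx L) (hE : OddMap L d) :
    VK2 L (d + 1) := by
  intro Z h1 h2 h3
  obtain ⟨f, hf, hf'⟩ := hE
  rw [dJoin_eq hL] at hf hf'
  cases d with
  | zero =>
    refine Finset.sum_eq_zero fun U hU => ?_
    by_contra hne
    rw [mem_powersetCard] at hU
    obtain ⟨v, rfl⟩ := card_eq_one.mp hU.2
    have hv := (h2 _ _ hne).1
    have he : evenPart {v} = ({v} : Finset (Fin n)) := by
      ext w
      simp only [evenPart, mem_filter, mem_singleton]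
      constructor
      · exact fun h => h.1
      · rintro rfl
        refine ⟨rfl, ?_⟩
        have : ({w} : Finset (Fin n)).filter (fun u => u < w) = ∅ := by
          ext u
          simp only [mem_filter, mem_singleton, notMem_empty, iff_false, not_and]
          rintro rfl
          exact lt_irrefl _
        rw [this]; simp
    rw [he] at hv
    have hmem : pt ({v} : Finset (Fin n)) v ∈ X L := by
      refine ⟨{v}, hv, ∅, hL.1, disjoint_empty_right _, ?_⟩
      have := pt_mem (σ := ({v} : Finset (Fin n))) (mem_singleton_self v)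
      rwa [sdiff_self] at this
    exact (hf' _ hmem).2 (Subsingleton.elim _ _)
  | succ m =>
    have hz := zz_mem (D := m + 2) h2
    obtain ⟨r, a, s, hadm, h0⟩ := key' (fun x => f x - f (-x)) (by
      refine hf.sub (hf.comp continuous_neg.continuousOn ?_)
      intro x hx
      exact X_neg hL hx) (by
      intro x
      simp only [neg_neg]
      abel) (by
      intro x hx h
      have e := hf' x hx
      rw [e.1, sub_neg_eq_add] at h
      apply e.2
      funext i
      have := congrFun h i
      simp only [Pi.add_apply, Pi.zero_apply] at this ⊢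
      linarith) _ hz
    have := claim hL (m + 2) _ hz (zz_nu h1) (zz_bd h3) 0 r a0 a s0 s (adm0 L) hadm
    rw [h0, Function.iterate_zero_apply, eval0] at this
    exact this

/-- almost embeddings give odd maps -/
theorem odd_of_coneEmb {L : Finset (Finset (Fin n))} {d : ℕ} (hL : IsCx L) (hE : ConeEmb L d) :
    OddMap L d := by
  obtain ⟨F, hFc, hF⟩ := hE
  refine ⟨fun x => F (pos x) - F (pos (-x)), ?_, ?_⟩
  · rw [dJoin_eq hL]
    refine ContinuousOn.sub ?_ ?_
    · exact hFc.comp pos_cont.continuousOn (fun x hx => pos_mem hx)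
    · exact hFc.comp (pos_cont.comp continuous_neg).continuousOn (fun x hx => neg_mem hx)
  · intro x hx
    rw [dJoin_eq hL] at hx
    refine ⟨by simp only [neg_neg]; abel, ?_⟩
    intro h0
    have h1 := hF (pos x) (pos_mem hx) (pos (-x)) (neg_mem hx) (fun i => by
      unfold pos
      rcases le_total (x i) 0 with h | h
      · left; exact max_eq_right h
      · right; refine max_eq_right ?_; simpa using h) (sub_eq_zero.mp h0)
    have h2 : ∀ i, x i = 0 := by
      intro i
      have e1 : max (x i) 0 = 0 := congrFun h1.1 i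
      have e2 : max (-x i) 0 = 0 := congrFun h1.2 i
      have e3 := le_max_left (x i) 0
      have e4 := le_max_left (-x i) 0
      linarith
    have h3 := X_abs hx
    simp [h2] at h3

end Pool.Agent.Y131.KS
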