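import Mathlib
import Pool.Agent.H7.L.Y131_KS_Odd
import Pool.Agent.H7.L.W289_KS_EmbS

/-!
Almost embeddings in the sphere.
-/

set_option autoImplicit false

namespace Pool.Agent.Y131.KS

open Pool.Agent.W555.KS Finset Filter Topology Pool.Agent.W289.KS

/-- an almost embedding in the sphere gives a conical almost embedding -/
theorem cone_of_almost {n d : ℕ} (L : Finset (Finset (Fin n)))
    (f : (Fin n → ℝ) → EuclideanSpace ℝ (Fin d)) (hc : ContinuousOn f (rea L))
    (h1 : ∀ x ∈ rea L, ‖f x‖ = 1)
    (hi : ∀ x ∈ rea L, ∀ y ∈ rea L, (∀ i, x i = 0 ∨ y i = 0) → f x ≠ f y) : ConeEmb L d := by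
  refine ⟨fun x j => tot x * f (rad x) j, ?_, ?_⟩
  · rw [continuousOn_pi]
    intro j x hx
    have hxt := tot_nonneg hx.1
    rcases hxt.eq_or_lt with h0 | h0
    · have hbd : ∀ y ∈ coneSet L, ‖tot y * f (rad y) j‖ ≤ tot y := by
        intro y hy
        rcases (tot_nonneg hy.1).eq_or_lt with hy0 | hy0
        · rw [← hy0]; simp
        · rw [norm_mul, Real.norm_of_nonneg hy0.le]
          have h2 : ‖f (rad y) j‖ ≤ 1 := by
            rw [← h1 _ (rad_mem hy hy0.ne')]
            exact PiLp.norm_apply_le _ _
          nlinarith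
      have h3 : Tendsto tot (𝓝[coneSet L] x) (𝓝 0) := by
        have := (tot_cont (n := n)).continuousAt (x := x)
        have h4 : Tendsto tot (𝓝 x) (𝓝 (tot x)) := this
        rw [← h0] at h4
        exact h4.mono_left nhdsWithin_le_nhds
      have h5 : Tendsto (fun y => tot y * f (rad y) j) (𝓝[coneSet L] x) (𝓝 0) :=
        squeeze_zero_norm' (eventually_nhdsWithin_of_forall hbd) h3
      have h6 : (fun y => tot y * f (rad y) j) x = 0 := by
        simp only [← h0, zero_mul]
      change Tendsto (fun y => tot y * f (rad y) j) (𝓝[coneSet L] x)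
        (𝓝 ((fun y => tot y * f (rad y) j) x))
      rw [h6]
      exact h5
    · have h7 := comp_cont hc hx h0
      have h8 : ContinuousWithinAt (fun y => f (rad y) j) (coneSet L) x := by
        have h9 : Continuous (fun z : EuclideanSpace ℝ (Fin d) => z j) := by fun_prop
        exact h9.continuousAt.comp_continuousWithinAt h7
      exact (tot_cont.continuousAt.continuousWithinAt).mul h8
  · intro x hx y hy hdis hF
    have hFj : ∀ j, tot x * f (rad x) j = tot y * f (rad y) j := fun j => congrFun hF j
    have hv : tot x • f (rad x) = tot y • f (rad y) := by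
      ext j
      simpa using hFj j
    have hxt := tot_nonneg hx.1
    have hyt := tot_nonneg hy.1
    have hnx : ‖tot x • f (rad x)‖ = tot x := by
      rcases hxt.eq_or_lt with h0 | h0
      · rw [← h0]; simp
      · rw [norm_smul, h1 _ (rad_mem hx h0.ne'), mul_one, Real.norm_of_nonneg h0.le]
    have hny : ‖tot y • f (rad y)‖ = tot y := by
      rcases hyt.eq_or_lt with h0 | h0
      · rw [← h0]; simp
      · rw [norm_smul, h1 _ (rad_mem hy h0.ne'), mul_one, Real.norm_of_nonneg h0.le]
    have ht : tot x = tot y := by rw [← hnx, ← hny, hv]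
    rcases hxt.eq_or_lt with h0 | h0
    · exact ⟨tot_eq_zero hx.1 h0.symm, tot_eq_zero hy.1 (by rw [← ht, ← h0])⟩
    · exfalso
      have h0y : 0 < tot y := by rw [← ht]; exact h0
      rw [← ht] at hv
      have hff : f (rad x) = f (rad y) := smul_right_injective _ h0.ne' hv
      refine hi _ (rad_mem hx h0.ne') _ (rad_mem hy h0y.ne') ?_ hff
      intro i
      rcases hdis i with h | h
      · left
        simp only [rad, Pi.smul_apply, smul_eq_mul, h, mul_zero]
      · right
        simp only [rad, Pi.smul_apply, smul_eq_mul, h, mul_zero]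

end Pool.Agent.Y131.KS
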