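import Pool.Agent.H7.L.R781_VS_Gen
import Pool.Agent.H7.L.W907_SG_Stmts2

/-!
# From representations to finite sets
-/

set_option autoImplicit false
set_option linter.unusedSectionVars false

namespace Pool.Agent.R781.VS

open Module Pool.Agent.W907.SG Pool.Agent.W907.SM
open Pool.Agent.W143.SG.MLP (beta_zero beta_iso rp rp_apply foldr_pull)
open Pool.Agent.W705.SM (cw beta_pi hm hm_apply)
open Pool.Agent.W461.SGN (liftable simple_mul_self simple_comm)

/-- a permutation from an involution -/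
def ip {X : Type} (f : X → X) (h : ∀ x, f (f x) = x) : Equiv.Perm X := ⟨f, f, h, h⟩

theorem ip_apply {X : Type} (f : X → X) (h : ∀ x, f (f x) = x) (x : X) : ip f h x = f x := rfl

theorem exists_ev {V X : Type} (G : SimpleGraph V) (a : V → X → X) (h1 : ∀ v x, a v (a v x) = x)
    (h2 : ∀ u v, G.Adj u v → ∀ x, a u (a v x) = a v (a u x)) :
    ∃ ev : X → W G → X, (∀ x, ev x 1 = x) ∧ (∀ x g h, ev x (g * h) = ev (ev x g) h) ∧
      ∀ x v, ev x ((cox G).simple v) = a v x := by
  let ψ : W G →* Equiv.Perm X := (cox G).toCoxeterSystem.lift ⟨fun v => ip (a v) (h1 v),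
    liftable G _ (fun v => Equiv.ext fun x => h1 v x) (fun u v huv => Equiv.ext fun x => h2 u v huv x)⟩
  have hψ : ∀ v, ψ ((cox G).simple v) = ip (a v) (h1 v) := fun v =>
    CoxeterSystem.lift_apply_simple _ _ v
  refine ⟨fun x g => ψ g⁻¹ x, fun x => ?_, fun x g h => ?_, fun x v => ?_⟩
  · show ψ 1⁻¹ x = x
    rw [inv_one, map_one]; rfl
  · show ψ (g * h)⁻¹ x = ψ h⁻¹ (ψ g⁻¹ x)
    rw [mul_inv_rev, map_mul]; rfl
  · show ψ ((cox G).simple v)⁻¹ x = a v x
    have : ((cox G).simple v)⁻¹ = (cox G).simple v := inv_eq_of_mul_eq_one_left (simple_mul_self G v)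
    rw [this, hψ]; rfl

/-- small Betti numbers modulo odd primes imply the vanishing of the `ℓ²`-homology -/
theorem l2van_of (hLg : S_LARGE) (hN : S_NILP) (hCh : S_CHAR) (hML : S_MLP) {V : Type} [Fintype V]
    [LinearOrder V] (G : SimpleGraph V) (i : ℕ)
    (h : ∀ N : ℕ, ∃ (p : ℕ) (_ : Fact p.Prime), p ≠ 2 ∧ ∃ (X : Type) (_ : Fintype X) (_ : Nonempty X)
      (a : V → X → X) (sgn : V → X → Bool), (∀ v x, a v (a v x) = x) ∧
      (∀ u v, G.Adj u v → ∀ x, a u (a v x) = a v (a u x)) ∧ (∀ v x, sgn v (a v x) = !(sgn v x)) ∧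
      (∀ u v, u ≠ v → ∀ x, sgn u (a v x) = sgn u x) ∧
      N * beta G (pull (ZMod p) a) Set.univ ∅ i ≤ Fintype.card X) : L2Van G i := by
  refine hLg V G i fun N E hE => ?_
  obtain ⟨p, hpF, hp2, X, _, _, a, sgn, k1, k2, k3, k4, k5⟩ := h N
  obtain ⟨ev, e1, e2, e3⟩ := exists_ev G a k1 k2
  obtain ⟨Y, _, _, Q, ev', f1, f2, f3, f4⟩ := hN p V G E hp2 hE
  refine ⟨X × Y, inferInstance, inferInstance, fun v z => (a v z.1, Q.a v z.2),
    fun z g => (ev z.1 g, ev' z.2 g),
    fun v z => ?_, fun u v h z => ?_, fun z => ?_, fun z g h => ?_, fun z v => ?_,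
    fun g hg z => ?_, ?_⟩
  · simp only [k1, Q.inv]
  · simp only [k2 u v h, Q.comm u v h]
  · simp only [e1, f1]
  · simp only [e2, f2]
  · simp only [e3, f3]
  · intro h
    exact f4 g hg z.2 (congrArg Prod.snd h)
  · have c1 := (hCh V (X × Y) G (fun v z => (a v z.1, Q.a v z.2))
      (fun v z => sgn v z.1) (fun v z => by simp only [k1, Q.inv])
      (fun u v h z => by simp only [k2 u v h, Q.comm u v h])
      (fun v z => k3 v z.1) (fun u v h z => k4 u v h z.1) i).1 p hp2
    have c2 := hML p V X Y G a sgn Q.a hp2 k1 k2 k3 k4 Q.inv Q.comm Q.ptype i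
    rw [Fintype.card_prod]
    calc _ ≤ N * (Fintype.card Y * beta G (pull (ZMod p) a) Set.univ ∅ i) :=
          Nat.mul_le_mul_left N (c1.trans c2)
      _ = (N * beta G (pull (ZMod p) a) Set.univ ∅ i) * Fintype.card Y := by ring
      _ ≤ _ := Nat.mul_le_mul_right _ k5

section conv
variable {p : ℕ} [Fact p.Prime] {V : Type} [Fintype V] [LinearOrder V] {G : SimpleGraph V}
  {J : Type} [Group J] [Fintype J]
  {M0 : Type} [AddCommGroup M0] [Module (ZMod p) M0] [FiniteDimensional (ZMod p) M0]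

/-- the unit of a generator -/
noncomputable def ug (S0 : W G →* Module.End (ZMod p) M0) (v : V) : (Module.End (ZMod p) M0)ˣ :=
  S0.toHomUnits ((cox G).simple v)

theorem ug_val (S0 : W G →* Module.End (ZMod p) M0) (v : V) : (ug S0 v : Module.End (ZMod p) M0) = gn S0 v :=
  rfl

/-- the action on `Y` -/
noncomputable def aY (Φ : W G →* J) (S0 : W G →* Module.End (ZMod p) M0) (v : V)
    (y : (Module.End (ZMod p) M0)ˣ × J) : (Module.End (ZMod p) M0)ˣ × J := (ug S0 v * y.1, la Φ v y.2)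

theorem ug_mul_self (S0 : W G →* Module.End (ZMod p) M0) (v : V) : ug S0 v * ug S0 v = 1 := by
  unfold ug
  rw [← map_mul, simple_mul_self, map_one]

theorem aY_inv (Φ : W G →* J) (S0 : W G →* Module.End (ZMod p) M0) (v : V) (y : _) :
    aY Φ S0 v (aY Φ S0 v y) = y := by
  refine Prod.ext ?_ (la_inv Φ v y.2)
  show ug S0 v * (ug S0 v * y.1) = y.1
  rw [← mul_assoc, ug_mul_self, one_mul]

theorem aY_comm (Φ : W G →* J) (S0 : W G →* Module.End (ZMod p) M0) (u v : V) (h : G.Adj u v) (y : _) :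
    aY Φ S0 u (aY Φ S0 v y) = aY Φ S0 v (aY Φ S0 u y) := by
  refine Prod.ext ?_ (la_comm Φ u v h y.2)
  show ug S0 u * (ug S0 v * y.1) = ug S0 v * (ug S0 u * y.1)
  rw [← mul_assoc, ← mul_assoc]
  unfold ug
  rw [← map_mul, ← map_mul, simple_comm G u v h]

/-- the permutation representation on functions on `Y` -/
noncomputable def SY (Φ : W G →* J) (S0 : W G →* Module.End (ZMod p) M0) :
    W G →* Module.End (ZMod p) ((Module.End (ZMod p) M0)ˣ × J → ZMod p) where
  toFun g :=
    { toFun := fun f y => f (S0.toHomUnits g⁻¹ * y.1, Φ g⁻¹ * y.2)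
      map_add' := fun f f' => rfl
      map_smul' := fun c f => rfl }
  map_one' := by
    ext f y
    show f (S0.toHomUnits 1⁻¹ * y.1, Φ 1⁻¹ * y.2) = f y
    rw [inv_one, map_one, map_one, one_mul, one_mul]
  map_mul' g h := by
    ext f y
    show f (S0.toHomUnits (g * h)⁻¹ * y.1, Φ (g * h)⁻¹ * y.2) =
      f (S0.toHomUnits h⁻¹ * (S0.toHomUnits g⁻¹ * y.1), Φ h⁻¹ * (Φ g⁻¹ * y.2))
    rw [mul_inv_rev, map_mul, map_mul, mul_assoc, mul_assoc]

theorem SY_pow (Φ : W G →* J) (S0 : W G →* Module.End (ZMod p) M0) (g : W G) (k : ℕ) (f : _) (y : _) :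
    (SY Φ S0 g ^ k) f y = f ((S0.toHomUnits g⁻¹) ^ k * y.1, (Φ g⁻¹) ^ k * y.2) := by
  induction k generalizing f y with
  | zero => rw [pow_zero, pow_zero, pow_zero, one_mul, one_mul]; rfl
  | succ k ih =>
    rw [pow_succ]
    show (SY Φ S0 g ^ k) (SY Φ S0 g f) y = _
    rw [ih]
    show f (S0.toHomUnits g⁻¹ * ((S0.toHomUnits g⁻¹) ^ k * y.1), Φ g⁻¹ * ((Φ g⁻¹) ^ k * y.2)) = _
    rw [← mul_assoc, ← mul_assoc, ← pow_succ', ← pow_succ']

theorem gn_SY (Φ : W G →* J) (S0 : W G →* Module.End (ZMod p) M0) (v : V) :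
    gn (SY Φ S0) v = pull (ZMod p) (aY Φ S0) v := by
  ext f y
  have hi : ((cox G).simple v)⁻¹ = (cox G).simple v := inv_eq_of_mul_eq_one_left (simple_mul_self G v)
  show f (S0.toHomUnits ((cox G).simple v)⁻¹ * y.1, Φ ((cox G).simple v)⁻¹ * y.2) = f (aY Φ S0 v y)
  rw [hi]
  rfl

/-- The Betti numbers of the finite set `Y` are bounded by those of the induced module. -/
theorem conv (hp2 : (2 : ZMod p) ≠ 0) (hS : S_SUB) (Φ : W G →* J) (S0 : W G →* Module.End (ZMod p) M0)
    [Fintype ((Module.End (ZMod p) M0)ˣ × J)]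
    (h : ∀ g, Φ g = 1 → ∃ k : ℕ, (S0 g) ^ (p ^ k) = 1) (i : ℕ) :
    finrank (ZMod p) (J → M0) * beta G (pull (ZMod p) (aY Φ S0)) Set.univ ∅ i ≤
      Fintype.card ((Module.End (ZMod p) M0)ˣ × J) * beta G (rJ Φ S0) Set.univ ∅ i := by
  classical
  -- (5)
  have h5 := genJ hp2 hS Φ S0 i (Fintype.card ((Module.End (ZMod p) M0)ˣ × J))
    ((Module.End (ZMod p) M0)ˣ × J → ZMod p) (by rw [finrank_fintype_fun_eq_card]) (SY Φ S0) (by
      intro g hg
      have hg' : Φ g⁻¹ = 1 := by rw [map_inv, hg, inv_one]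
      obtain ⟨k, hk⟩ := h g⁻¹ hg'
      refine ⟨k, ?_⟩
      refine LinearMap.ext fun f => funext fun y => ?_
      show (SY Φ S0 g ^ (p ^ k)) f y = f y
      rw [SY_pow, hg', one_pow, one_mul]
      have : S0.toHomUnits g⁻¹ ^ (p ^ k) = 1 := by
        apply Units.ext
        exact hk
      rw [this, one_mul])
  have hgn : gn (SY Φ S0) = pull (ZMod p) (aY Φ S0) := funext fun v => gn_SY Φ S0 v
  rw [hgn] at h5
  have hainv := aY_inv Φ S0
  have hacomm := aY_comm Φ S0
  -- (4)
  have h4 : beta G (rp (aY Φ S0) (rJ Φ S0)) Set.univ ∅ i ≤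
      beta G (hm (pull (ZMod p) (aY Φ S0)) (rJ Φ S0)) Set.univ ∅ i := by
    refine beta_iso hS G (hm (pull (ZMod p) (aY Φ S0)) (rJ Φ S0)) (rp (aY Φ S0) (rJ Φ S0))
      { toFun := fun φ z => φ (Pi.single z 1)
        map_add' := fun f g => rfl
        map_smul' := fun c f => rfl } hp2 ?_ ?_ ?_ ?_ ?_ i
    · intro v m
      funext z
      rw [rp_apply, rp_apply, hainv, rJ_inv]
    · intro u v huv m
      funext z
      rw [rp_apply, rp_apply, rp_apply, rp_apply, hacomm v u huv.symm, rJ_comm Φ S0 u v huv]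
    · intro v φ
      funext z
      show rJ Φ S0 v (φ (pull (ZMod p) (aY Φ S0) v (Pi.single z 1))) =
        rJ Φ S0 v (φ (Pi.single (aY Φ S0 v z) 1))
      congr 2
      funext y
      rw [pull_apply, Pi.single_apply, Pi.single_apply]
      refine if_congr ?_ rfl rfl
      constructor
      · intro h; rw [← h, hainv]
      · intro h; rw [h, hainv]
    · intro φ ψ h
      refine (Pi.basisFun (ZMod p) _).ext fun z => ?_
      rw [Pi.basisFun_apply]
      exact congrFun h z
    · intro g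
      refine ⟨(Pi.basisFun (ZMod p) _).constr (ZMod p) g, ?_⟩
      funext z
      show (Pi.basisFun (ZMod p) _).constr (ZMod p) g (Pi.single z 1) = g z
      rw [← Pi.basisFun_apply, Basis.constr_basis]
  -- (3)
  have h3 : beta G (rp (aY Φ S0) (fun _ => (LinearMap.id : (J → M0) →ₗ[ZMod p] (J → M0)))) Set.univ ∅ i ≤
      beta G (rp (aY Φ S0) (rJ Φ S0)) Set.univ ∅ i := by
    refine beta_iso hS G (rp (aY Φ S0) (rJ Φ S0)) _
      { toFun := fun φ y z => ((y.1)⁻¹ : (Module.End (ZMod p) M0)ˣ).val (φ y (y.2 * z))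
        map_add' := fun f g => by funext y z; exact map_add _ _ _
        map_smul' := fun c f => by funext y z; exact map_smul _ _ _ } hp2 ?_ ?_ ?_ ?_ ?_ i
    · intro v m
      funext z
      rw [rp_apply, rp_apply, hainv]
      rfl
    · intro u v huv m
      funext z
      rw [rp_apply, rp_apply, rp_apply, rp_apply, hacomm v u huv.symm]
    · intro v φ
      funext y z
      show ((y.1)⁻¹ : (Module.End (ZMod p) M0)ˣ).val (gn S0 v (φ (aY Φ S0 v y) (la Φ v (y.2 * z)))) =
        ((ug S0 v * y.1)⁻¹ : (Module.End (ZMod p) M0)ˣ).val (φ (aY Φ S0 v y) (la Φ v y.2 * z))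
      have e1 : (ug S0 v)⁻¹ = ug S0 v := inv_eq_of_mul_eq_one_left (ug_mul_self S0 v)
      rw [mul_inv_rev, e1]
      have e2 : la Φ v (y.2 * z) = la Φ v y.2 * z := by unfold la; rw [mul_assoc]
      rw [e2]
      rfl
    · intro f g hfg
      funext y z
      have h6 : ((y.1)⁻¹ : (Module.End (ZMod p) M0)ˣ).val (f y (y.2 * (y.2⁻¹ * z))) =
          ((y.1)⁻¹ : (Module.End (ZMod p) M0)ˣ).val (g y (y.2 * (y.2⁻¹ * z))) :=
        congrFun (congrFun hfg y) (y.2⁻¹ * z)
      rw [mul_inv_cancel_left] at h6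
      have h7 := congrArg (fun m => (y.1.val) m) h6
      have h8 : ∀ m, y.1.val (((y.1)⁻¹ : (Module.End (ZMod p) M0)ˣ).val m) = m := by
        intro m
        show (y.1 * y.1⁻¹ : (Module.End (ZMod p) M0)ˣ).val m = m
        rw [mul_inv_cancel]
        rfl
      simpa only [h8] using h7
    · intro g
      refine ⟨fun y z => y.1.val (g y (y.2⁻¹ * z)), ?_⟩
      funext y z
      show ((y.1)⁻¹ : (Module.End (ZMod p) M0)ˣ).val (y.1.val (g y (y.2⁻¹ * (y.2 * z)))) = g y z
      rw [inv_mul_cancel_left]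
      show (y.1⁻¹ * y.1 : (Module.End (ZMod p) M0)ˣ).val (g y z) = g y z
      rw [inv_mul_cancel]
      rfl
  -- (2)
  have h2' : beta G (cw (Fin (finrank (ZMod p) (J → M0))) (pull (ZMod p) (aY Φ S0))) Set.univ ∅ i ≤
      beta G (rp (aY Φ S0) (fun _ => (LinearMap.id : (J → M0) →ₗ[ZMod p] (J → M0)))) Set.univ ∅ i := by
    refine beta_iso hS G _ _
      { toFun := fun φ j z => (Module.finBasis (ZMod p) (J → M0)).equivFun (φ z) j
        map_add' := fun f g => by
          funext j z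
          show (Module.finBasis (ZMod p) (J → M0)).equivFun (f z + g z) j = _
          rw [map_add]; rfl
        map_smul' := fun c f => by
          funext j z
          show (Module.finBasis (ZMod p) (J → M0)).equivFun (c • f z) j = _
          rw [map_smul]; rfl } hp2 ?_ ?_ ?_ ?_ ?_ i
    · intro v m
      funext j z
      show m j (aY Φ S0 v (aY Φ S0 v z)) = m j z
      rw [hainv]
    · intro u v huv m
      funext j z
      show m j (aY Φ S0 v (aY Φ S0 u z)) = m j (aY Φ S0 u (aY Φ S0 v z))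
      rw [hacomm u v huv]
    · intro v m
      rfl
    · intro f g h
      funext z
      apply (Module.finBasis (ZMod p) (J → M0)).equivFun.injective
      funext j
      exact congrFun (congrFun h j) z
    · intro g
      refine ⟨fun z => (Module.finBasis (ZMod p) (J → M0)).equivFun.symm (fun j => g j z), ?_⟩
      funext j z
      show (Module.finBasis (ZMod p) (J → M0)).equivFun
        ((Module.finBasis (ZMod p) (J → M0)).equivFun.symm (fun j => g j z)) j = g j z
      rw [LinearEquiv.apply_symm_apply]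
  rw [beta_pi, Fintype.card_fin] at h2'
  exact (h2'.trans h3).trans (h4.trans h5)

end conv

end Pool.Agent.R781.VS
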