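import Pool.Agent.H7.L.W907_SM_LV

/-!
# `S_CLASSA`: vanishing outside the middle for the class `Trunc`

Pure graph combinatorics; the statements `L_STEP1`, `L_STEP2`, `L_SUSP`, `L_ISO`, `L_EMPTY` are hypotheses.
-/

namespace Pool.Agent.W907.SM.Clo

open Pool.Agent.W907.SG Pool.Agent.W907.SM

/-- the link of a set of vertices -/
def Lk {V : Type} (G : SimpleGraph V) (T : Finset V) : Set V := {a | ∀ t ∈ T, G.Adj t a}

theorem mem_Lk {V : Type} {G : SimpleGraph V} {T : Finset V} {a : V} :
    a ∈ Lk G T ↔ ∀ t ∈ T, G.Adj t a := Iff.rfl

/-- isomorphisms of induced graphs -/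
theorem iso_of {V U : Type} (G : SimpleGraph V) (H : SimpleGraph U) (A : Set V) (B : Set U) (f : V → U)
    (h1 : ∀ a ∈ A, f a ∈ B) (h2 : ∀ a ∈ A, ∀ b ∈ A, f a = f b → a = b) (h3 : ∀ b ∈ B, ∃ a ∈ A, f a = b)
    (hadj : ∀ a ∈ A, ∀ b ∈ A, (H.Adj (f a) (f b) ↔ G.Adj a b)) : Nonempty (G.induce A ≃g H.induce B) := by
  have hb : Set.BijOn f A B :=
    ⟨fun a ha => h1 a ha, fun a ha b hb h => h2 a ha b hb h, fun b hb => by
      obtain ⟨a, ha, h⟩ := h3 b hb; exact ⟨a, ha, h⟩⟩
  refine ⟨⟨Set.BijOn.equiv f hb, ?_⟩⟩
  rintro ⟨a, ha⟩ ⟨b, hb'⟩
  simp only [SimpleGraph.comap_adj, Function.Embedding.subtype_apply]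
  exact hadj a ha b hb'

/-- transport of `LV` -/
theorem sp_iso (hi : L_ISO) {V U : Type} {G : SimpleGraph V} {H : SimpleGraph U} {A : Set V} {B : Set U}
    (f : V → U) (i : ℕ)
    (h1 : ∀ a ∈ A, f a ∈ B) (h2 : ∀ a ∈ A, ∀ b ∈ A, f a = f b → a = b) (h3 : ∀ b ∈ B, ∃ a ∈ A, f a = b)
    (hadj : ∀ a ∈ A, ∀ b ∈ A, (H.Adj (f a) (f b) ↔ G.Adj a b)) (h : LV (G.induce A) i) : LV (H.induce B) i :=
  hi _ _ _ _ i (iso_of G H A B f h1 h2 h3 hadj) h

/-- the motive -/
def Mot (n : ℕ) {V : Type} (G : SimpleGraph V) : Prop :=
  Finite V ∧ ∀ T : Finset V, G.IsClique (T : Set V) → ∀ i : ℕ, 2 * i + T.card ≠ n → LV (G.induce (Lk G T)) i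

theorem mot_empty (he : L_EMPTY) : Mot 0 (⊥ : SimpleGraph Empty) := by
  refine ⟨inferInstance, fun T _ i hi => ?_⟩
  have hT : T = ∅ := Finset.eq_empty_of_isEmpty T
  subst hT
  simp only [Finset.card_empty, add_zero] at hi
  have : IsEmpty (Lk (⊥ : SimpleGraph Empty) ∅) := ⟨fun x => x.1.elim⟩
  exact he _ _ i (by omega)

theorem mot_iso (hi : L_ISO) {n : ℕ} {V U : Type} (G : SimpleGraph V) (H : SimpleGraph U) (e : G ≃g H)
    (h : Mot n G) : Mot n H := by
  classical
  obtain ⟨hfin, h⟩ := h
  refine ⟨Finite.of_equiv V e.toEquiv, fun T hT i hne => ?_⟩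
  have hc : G.IsClique ((T.map e.symm.toEquiv.toEmbedding : Finset V) : Set V) := by
    intro a ha b hb hab
    simp only [Finset.coe_map, Set.mem_image, Finset.mem_coe] at ha hb
    obtain ⟨x, hx, rfl⟩ := ha
    obtain ⟨y, hy, rfl⟩ := hb
    have hxy : x ≠ y := fun e' => hab (by rw [e'])
    have := hT hx hy hxy
    exact (e.symm.map_adj_iff).mpr this
  have h' := h _ hc i (by rw [Finset.card_map]; exact hne)
  refine sp_iso hi (fun a => e a) i ?_ ?_ ?_ ?_ h'
  · intro a ha t ht
    have := ha (e.symm t) (Finset.mem_map.mpr ⟨t, ht, rfl⟩)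
    have h3 := (e.map_adj_iff).mpr this
    simpa using h3
  · intro a _ b _ hab
    exact e.injective hab
  · intro b hb
    refine ⟨e.symm b, ?_, by simp⟩
    intro t ht
    rw [Finset.mem_map] at ht
    obtain ⟨x, hx, rfl⟩ := ht
    exact (e.symm.map_adj_iff).mpr (hb x hx)
  · intro a _ b _
    exact e.map_adj_iff

theorem susp_inl_inl {V : Type} (G : SimpleGraph V) (a b : V) :
    (susp G).Adj (Sum.inl a) (Sum.inl b) ↔ G.Adj a b := Iff.rfl
theorem susp_inl_inr {V : Type} (G : SimpleGraph V) (a : V) (b : Bool) :
    (susp G).Adj (Sum.inl a) (Sum.inr b) ↔ True := Iff.rfl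
theorem susp_inr_inl {V : Type} (G : SimpleGraph V) (a : V) (b : Bool) :
    (susp G).Adj (Sum.inr b) (Sum.inl a) ↔ True := Iff.rfl
theorem susp_inr_inr {V : Type} (G : SimpleGraph V) (a b : Bool) :
    (susp G).Adj (Sum.inr a) (Sum.inr b) ↔ False := Iff.rfl

theorem esub_some_some {V : Type} (G : SimpleGraph V) (s t a b : V) :
    (esub G s t).Adj (some a) (some b) ↔ (G.Adj a b ∧ ¬ (a = s ∧ b = t) ∧ ¬ (a = t ∧ b = s)) := Iff.rfl
theorem esub_none_some {V : Type} (G : SimpleGraph V) (s t a : V) :
    (esub G s t).Adj none (some a) ↔ (a = s ∨ a = t ∨ (G.Adj a s ∧ G.Adj a t)) := Iff.rfl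
theorem esub_some_none {V : Type} (G : SimpleGraph V) (s t a : V) :
    (esub G s t).Adj (some a) none ↔ (a = s ∨ a = t ∨ (G.Adj a s ∧ G.Adj a t)) := Iff.rfl
theorem esub_none_none {V : Type} (G : SimpleGraph V) (s t : V) :
    (esub G s t).Adj none none ↔ False := Iff.rfl

theorem esub_comm {V : Type} (G : SimpleGraph V) (s t : V) : esub G s t = esub G t s := by
  ext x y
  cases x with
  | none =>
    cases y with
    | none => rw [esub_none_none, esub_none_none]
    | some b => rw [esub_none_some, esub_none_some]; tauto
  | some a =>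
    cases y with
    | none => rw [esub_some_none, esub_some_none]; tauto
    | some b => rw [esub_some_some, esub_some_some]; tauto

theorem mot_susp (hi : L_ISO) (hs : L_SUSP) {n : ℕ} {V : Type} (G : SimpleGraph V) (h : Mot n G) :
    Mot (n + 1) (susp G) := by
  classical
  obtain ⟨hfin, h⟩ := h
  refine ⟨inferInstance, fun T' hT' i hne => ?_⟩
  by_cases hr : ∃ b, Sum.inr b ∈ T'
  · obtain ⟨b, hb⟩ := hr
    have hor : ∀ x ∈ T', x = Sum.inr b ∨ ∃ a, x = Sum.inl a := by
      intro x hx
      rcases x with a | c
      · exact Or.inr ⟨a, rfl⟩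
      · left
        by_contra hcb
        exact (susp_inr_inr G c b).mp (hT' hx hb hcb)
    have hTi : ∀ a, a ∈ T'.preimage Sum.inl Sum.inl_injective.injOn ↔ Sum.inl a ∈ T' := by
      intro a; rw [Finset.mem_preimage]
    set T := T'.preimage Sum.inl Sum.inl_injective.injOn with hTdef
    have hT'eq : T' = insert (Sum.inr b) (T.map ⟨Sum.inl, Sum.inl_injective⟩) := by
      ext x
      rw [Finset.mem_insert, Finset.mem_map]
      constructor
      · intro hx
        rcases hor x hx with h1 | ⟨a, rfl⟩
        · exact Or.inl h1
        · exact Or.inr ⟨a, (hTi a).mpr hx, rfl⟩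
      · rintro (rfl | ⟨a, ha, rfl⟩)
        · exact hb
        · exact (hTi a).mp ha
    have hcard : T'.card = T.card + 1 := by
      rw [hT'eq, Finset.card_insert_of_notMem (by simp), Finset.card_map]
    have hc : G.IsClique (T : Set V) := by
      intro x hx y hy hxy
      exact (susp_inl_inl G x y).mp (hT' ((hTi x).mp hx) ((hTi y).mp hy) (fun e => hxy (Sum.inl_injective e)))
    refine sp_iso hi Sum.inl i ?_ ?_ ?_ ?_ (h T hc i (by omega))
    · intro a ha t ht
      rcases hor t ht with rfl | ⟨u, rfl⟩
      · exact (susp_inr_inl G a b).mpr trivial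
      · exact (susp_inl_inl G u a).mpr (ha u ((hTi u).mpr ht))
    · intro a _ c _ hac
      exact Sum.inl_injective hac
    · intro x hx
      rcases x with a | c
      · exact ⟨a, fun t ht => (susp_inl_inl G t a).mp (hx _ ((hTi t).mp ht)), rfl⟩
      · exact ((susp_inr_inr G b c).mp (hx _ hb)).elim
    · intro a _ c _
      exact susp_inl_inl G a c
  · push Not at hr
    have hmem : ∀ b, (Sum.inr b : V ⊕ Bool) ∈ Lk (susp G) T' := by
      intro b t ht
      rcases t with a | c
      · exact (susp_inl_inr G a b).mpr trivial
      · exact (hr c ht).elim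
    refine hs _ _ (⟨Sum.inr true, hmem true⟩ : Lk (susp G) T') ⟨Sum.inr false, hmem false⟩ i ?_ ?_ ?_
    · intro h1
      have := congrArg Subtype.val h1
      simp at this
    · intro h1
      exact (susp_inr_inr G true false).mp h1
    · rintro ⟨x, hx⟩ h1 h2
      rcases x with a | c
      · exact ⟨(susp_inl_inr G a true).mpr trivial, (susp_inl_inr G a false).mpr trivial⟩
      · cases c
        · exact (h2 rfl).elim
        · exact (h1 rfl).elim

/-- the case where `s` lies in the clique -/
theorem sub_s (hi : L_ISO) {n : ℕ} {V : Type} (G : SimpleGraph V) (s t : V) (hst : G.Adj s t) (h : Mot n G)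
    (T' : Finset (Option V)) (hT' : (esub G s t).IsClique (T' : Set (Option V))) (hs' : some s ∈ T') (i : ℕ)
    (hne : 2 * i + T'.card ≠ n) : LV ((esub G s t).induce (Lk (esub G s t) T')) i := by
  classical
  obtain ⟨hfin, h⟩ := h
  have hstne : s ≠ t := hst.ne
  have htT : some t ∉ T' := by
    intro ht
    have := hT' hs' ht (by simpa using hstne)
    rw [esub_some_some] at this
    exact this.2.1 ⟨rfl, rfl⟩
  set T := Finset.eraseNone T' with hTdef
  have hTi : ∀ a, a ∈ T ↔ some a ∈ T' := fun a => Finset.mem_eraseNone
  have hTG : ∀ a ∈ T, ∀ b ∈ T, a ≠ b → G.Adj a b := by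
    intro a ha b hb hab
    have := hT' ((hTi a).mp ha) ((hTi b).mp hb) (by simpa using hab)
    rw [esub_some_some] at this
    exact this.1
  have hsT : s ∈ T := (hTi s).mpr hs'
  by_cases hN : none ∈ T'
  · -- the vertices of `T` other than `s` are adjacent to `s` and `t`
    have hadj : ∀ a ∈ T, a ≠ s → G.Adj a s ∧ G.Adj a t := by
      intro a ha has
      have h1 := hT' hN ((hTi a).mp ha) (by simp)
      rw [esub_none_some] at h1
      rcases h1 with h1 | h1 | h1
      · exact (has h1).elim
      · subst h1; exact (htT ((hTi a).mp ha)).elim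
      · exact h1
    have htT2 : t ∉ T := fun ht => htT ((hTi t).mp ht)
    have hc : G.IsClique ((insert t T : Finset V) : Set V) := by
      intro a ha b hb hab
      simp only [Finset.coe_insert, Set.mem_insert_iff, Finset.mem_coe] at ha hb
      have key : ∀ c ∈ T, G.Adj c t := by
        intro c hc
        by_cases hcs : c = s
        · subst hcs; exact hst
        · exact (hadj c hc hcs).2
      rcases ha with rfl | ha
      · rcases hb with rfl | hb
        · exact (hab rfl).elim
        · exact (key b hb).symm
      · rcases hb with rfl | hb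
        · exact key a ha
        · exact hTG a ha b hb hab
    have hcard : (insert t T).card = T'.card := by
      rw [Finset.card_insert_of_notMem htT2]
      have : T' = Finset.insertNone T := by
        rw [hTdef, Finset.insertNone_eraseNone, Finset.insert_eq_of_mem hN]
      rw [this, Finset.card_insertNone]
    refine sp_iso hi some i ?_ ?_ ?_ ?_ (h _ hc i (by rw [hcard]; exact hne))
    · intro a ha x hx
      have has : G.Adj s a := ha s (by simp [hsT])
      have hat : G.Adj t a := ha t (by simp)
      cases x with
      | none => rw [esub_none_some]; exact Or.inr (Or.inr ⟨has.symm, hat.symm⟩)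
      | some u =>
        rw [esub_some_some]
        refine ⟨ha u (by simp [(hTi u).mpr hx]), ?_, ?_⟩
        · rintro ⟨_, rfl⟩; exact hat.ne rfl
        · rintro ⟨_, rfl⟩; exact has.ne rfl
    · intro a _ b _ hab
      exact Option.some_injective _ hab
    · intro x hx
      cases x with
      | none => exact ((esub_none_none G s t).mp (hx _ hN)).elim
      | some a =>
        refine ⟨a, ?_, rfl⟩
        have h1 := hx _ hs'
        rw [esub_some_some] at h1
        have h2 := hx _ hN
        rw [esub_none_some] at h2
        have hat : a ≠ t := fun e => h1.2.1 ⟨rfl, e⟩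
        have has : a ≠ s := fun e => h1.1.ne e.symm
        have h3 : G.Adj a t := by
          rcases h2 with h2 | h2 | h2
          · exact (has h2).elim
          · exact (hat h2).elim
          · exact h2.2
        intro u hu
        rw [Finset.mem_insert] at hu
        rcases hu with rfl | hu
        · exact h3.symm
        · have h4 := hx _ ((hTi u).mp hu)
          rw [esub_some_some] at h4
          exact h4.1
    · intro a ha b hb
      have has : G.Adj s a := ha s (by simp [hsT])
      have hat : G.Adj t a := ha t (by simp)
      rw [esub_some_some]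
      refine ⟨fun h => h.1, fun h => ⟨h, ?_, ?_⟩⟩
      · rintro ⟨rfl, _⟩; exact has.ne rfl
      · rintro ⟨rfl, _⟩; exact hat.ne rfl
  · have hT'map : T' = T.map Function.Embedding.some := by
      rw [hTdef, Finset.map_some_eraseNone, Finset.erase_eq_of_notMem hN]
    have hcard : T.card = T'.card := by
      rw [hT'map, Finset.card_map]
    have hc : G.IsClique (T : Set V) := fun a ha b hb hab => hTG a ha b hb hab
    have hmain := h T hc i (by rw [hcard]; exact hne)
    have hsL : s ∉ Lk G T := fun hL => (hL s hsT).ne rfl
    have hsomeL : ∀ a, some a ∈ Lk (esub G s t) T' ↔ a ∈ Lk G T ∧ a ≠ t := by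
      intro a
      constructor
      · intro ha
        refine ⟨fun u hu => ?_, ?_⟩
        · have := ha _ ((hTi u).mp hu)
          rw [esub_some_some] at this
          exact this.1
        · rintro rfl
          have := ha _ hs'
          rw [esub_some_some] at this
          exact this.2.1 ⟨rfl, rfl⟩
      · rintro ⟨ha, hat⟩ x hx
        cases x with
        | none => exact (hN hx).elim
        | some u =>
          rw [esub_some_some]
          refine ⟨ha u ((hTi u).mpr hx), ?_, ?_⟩
          · rintro ⟨_, rfl⟩; exact hat rfl
          · rintro ⟨_, rfl⟩; exact hsL ha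
    have hnoneL : none ∈ Lk (esub G s t) T' ↔ t ∈ Lk G T := by
      constructor
      · intro ha u hu
        have := ha _ ((hTi u).mp hu)
        rw [esub_some_none] at this
        rcases this with rfl | rfl | h3
        · exact hst
        · exact (htT ((hTi u).mp hu)).elim
        · exact h3.2
      · intro ha x hx
        cases x with
        | none => exact (hN hx).elim
        | some u =>
          rw [esub_some_none]
          by_cases hus : u = s
          · exact Or.inl hus
          · refine Or.inr (Or.inr ⟨hTG u ((hTi u).mpr hx) s hsT hus, ha u ((hTi u).mpr hx)⟩)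
    by_cases htL : t ∈ Lk G T
    · refine sp_iso hi (fun a => if a = t then none else some a) i ?_ ?_ ?_ ?_ hmain
      · intro a ha
        by_cases hat : a = t
        · simp only [hat, if_true]; exact hnoneL.mpr htL
        · simp only [hat, if_false]; exact (hsomeL a).mpr ⟨ha, hat⟩
      · intro a _ b _ hab
        by_cases hat : a = t <;> by_cases hbt : b = t <;> simp [hat, hbt] at hab ⊢
        exact hab
      · intro x hx
        cases x with
        | none => exact ⟨t, htL, by simp⟩
        | some a =>
          obtain ⟨h1, h2⟩ := (hsomeL a).mp hx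
          exact ⟨a, h1, by simp [h2]⟩
      · intro a ha b hb
        have has : G.Adj s a := ha s hsT
        have hbs : G.Adj s b := hb s hsT
        by_cases hat : a = t
        · by_cases hbt : b = t
          · subst hat; subst hbt
            simp [esub_none_none]
          · simp only [hat, hbt, if_true, if_false]
            rw [esub_none_some]
            constructor
            · rintro (h1 | h1 | h1)
              · subst h1; exact (hbs.ne rfl).elim
              · exact (hbt h1).elim
              · exact h1.2.symm
            · intro h1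
              exact Or.inr (Or.inr ⟨hbs.symm, h1.symm⟩)
        · by_cases hbt : b = t
          · simp only [hat, hbt, if_true, if_false]
            rw [esub_some_none]
            constructor
            · rintro (h1 | h1 | h1)
              · subst h1; exact (has.ne rfl).elim
              · exact (hat h1).elim
              · exact h1.2
            · intro h1
              exact Or.inr (Or.inr ⟨has.symm, h1⟩)
          · simp only [hat, hbt, if_false]
            rw [esub_some_some]
            refine ⟨fun h => h.1, fun h => ⟨h, ?_, ?_⟩⟩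
            · rintro ⟨_, h4⟩; exact hbt h4
            · rintro ⟨h4, _⟩; exact hat h4
    · refine sp_iso hi some i ?_ ?_ ?_ ?_ hmain
      · intro a ha
        exact (hsomeL a).mpr ⟨ha, fun e => htL (e ▸ ha)⟩
      · intro a _ b _ hab
        exact Option.some_injective _ hab
      · intro x hx
        cases x with
        | none => exact (htL (hnoneL.mp hx)).elim
        | some a => exact ⟨a, ((hsomeL a).mp hx).1, rfl⟩
      · intro a ha b hb
        have hat : a ≠ t := fun e => htL (e ▸ ha)
        have hbt : b ≠ t := fun e => htL (e ▸ hb)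
        rw [esub_some_some]
        refine ⟨fun h => h.1, fun h => ⟨h, ?_, ?_⟩⟩
        · rintro ⟨_, h4⟩; exact hbt h4
        · rintro ⟨h4, _⟩; exact hat h4

/-- the case where `s, t` are not in the clique -/
theorem sub_nst (h1 : L_STEP1) (h2 : L_STEP2) (hs : L_SUSP) (hi : L_ISO)
    {n : ℕ} {V : Type} (G : SimpleGraph V) (s t : V) (hst : G.Adj s t) (h : Mot n G)
    (T' : Finset (Option V)) (hT' : (esub G s t).IsClique (T' : Set (Option V))) (hs' : some s ∉ T')
    (ht' : some t ∉ T') (i : ℕ)
    (hne : 2 * i + T'.card ≠ n) : LV ((esub G s t).induce (Lk (esub G s t) T')) i := by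
  classical
  obtain ⟨hfin, h⟩ := h
  have hstne : s ≠ t := hst.ne
  set T := Finset.eraseNone T' with hTdef
  have hTi : ∀ a, a ∈ T ↔ some a ∈ T' := fun a => Finset.mem_eraseNone
  have hsT : s ∉ T := fun e => hs' ((hTi s).mp e)
  have htT : t ∉ T := fun e => ht' ((hTi t).mp e)
  have hTG : ∀ a ∈ T, ∀ b ∈ T, a ≠ b → G.Adj a b := by
    intro a ha b hb hab
    have := hT' ((hTi a).mp ha) ((hTi b).mp hb) (by simpa using hab)
    rw [esub_some_some] at this
    exact this.1
  by_cases hN : none ∈ T'
  · have hadj : ∀ a ∈ T, G.Adj a s ∧ G.Adj a t := by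
      intro a ha
      have h1 := hT' hN ((hTi a).mp ha) (by simp)
      rw [esub_none_some] at h1
      rcases h1 with rfl | rfl | h1
      · exact (hsT ha).elim
      · exact (htT ha).elim
      · exact h1
    have hsL : some s ∈ Lk (esub G s t) T' := by
      intro x hx
      cases x with
      | none => rw [esub_none_some]; exact Or.inl rfl
      | some u =>
        have hu := (hTi u).mpr hx
        rw [esub_some_some]
        refine ⟨(hadj u hu).1, ?_, ?_⟩
        · rintro ⟨_, h4⟩; exact hstne h4
        · rintro ⟨h4, _⟩; exact htT (h4 ▸ hu)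
    have htL : some t ∈ Lk (esub G s t) T' := by
      intro x hx
      cases x with
      | none => rw [esub_none_some]; exact Or.inr (Or.inl rfl)
      | some u =>
        have hu := (hTi u).mpr hx
        rw [esub_some_some]
        refine ⟨(hadj u hu).2, ?_, ?_⟩
        · rintro ⟨h4, _⟩; exact hsT (h4 ▸ hu)
        · rintro ⟨_, h4⟩; exact hstne h4.symm
    refine hs _ _ (⟨some s, hsL⟩ : Lk (esub G s t) T') ⟨some t, htL⟩ i ?_ ?_ ?_
    · intro h1
      have := congrArg Subtype.val h1
      simp only [Option.some.injEq] at this
      exact hstne this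
    · intro h1
      have h3 : (esub G s t).Adj (some s) (some t) := h1
      rw [esub_some_some] at h3
      exact h3.2.1 ⟨rfl, rfl⟩
    · rintro ⟨x, hx⟩ hxs hxt
      cases x with
      | none => exact ((esub_none_none G s t).mp (hx _ hN)).elim
      | some a =>
        have has : a ≠ s := fun e => hxs (by subst e; rfl)
        have hat : a ≠ t := fun e => hxt (by subst e; rfl)
        have h3 := hx _ hN
        rw [esub_none_some] at h3
        have h4 : G.Adj a s ∧ G.Adj a t := by
          rcases h3 with h3 | h3 | h3
          · exact (has h3).elim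
          · exact (hat h3).elim
          · exact h3
        refine ⟨?_, ?_⟩
        · show (esub G s t).Adj (some a) (some s)
          rw [esub_some_some]
          exact ⟨h4.1, fun e => has e.1, fun e => hat e.1⟩
        · show (esub G s t).Adj (some a) (some t)
          rw [esub_some_some]
          exact ⟨h4.2, fun e => has e.1, fun e => hat e.1⟩
  · have hT'map : T' = T.map Function.Embedding.some := by
      rw [hTdef, Finset.map_some_eraseNone, Finset.erase_eq_of_notMem hN]
    have hcard : T.card = T'.card := by
      rw [hT'map, Finset.card_map]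
    have hc : G.IsClique (T : Set V) := fun a ha b hb hab => hTG a ha b hb hab
    have hmain := h T hc i (by rw [hcard]; exact hne)
    have hsomeL : ∀ a, some a ∈ Lk (esub G s t) T' ↔ a ∈ Lk G T := by
      intro a
      constructor
      · intro ha u hu
        have := ha _ ((hTi u).mp hu)
        rw [esub_some_some] at this
        exact this.1
      · intro ha x hx
        cases x with
        | none => exact (hN hx).elim
        | some u =>
          have hu := (hTi u).mpr hx
          rw [esub_some_some]
          refine ⟨ha u hu, ?_, ?_⟩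
          · rintro ⟨h4, _⟩; exact hsT (h4 ▸ hu)
          · rintro ⟨h4, _⟩; exact htT (h4 ▸ hu)
    have hnoneL : none ∈ Lk (esub G s t) T' ↔ (s ∈ Lk G T ∧ t ∈ Lk G T) := by
      constructor
      · intro ha
        have key : ∀ u ∈ T, G.Adj u s ∧ G.Adj u t := by
          intro u hu
          have := ha _ ((hTi u).mp hu)
          rw [esub_some_none] at this
          rcases this with rfl | rfl | h3
          · exact (hsT hu).elim
          · exact (htT hu).elim
          · exact h3
        exact ⟨fun u hu => (key u hu).1, fun u hu => (key u hu).2⟩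
      · rintro ⟨ha, hb⟩ x hx
        cases x with
        | none => exact (hN hx).elim
        | some u =>
          rw [esub_some_none]
          exact Or.inr (Or.inr ⟨ha u ((hTi u).mpr hx), hb u ((hTi u).mpr hx)⟩)
    by_cases hL : s ∈ Lk G T ∧ t ∈ Lk G T
    · obtain ⟨hsL, htL⟩ := hL
      have hnL : none ∈ Lk (esub G s t) T' := hnoneL.mpr ⟨hsL, htL⟩
      -- the graph with the edge deleted
      have hdel : LV ((G.induce (Lk G T)).deleteEdges
          {s((⟨s, hsL⟩ : Lk G T), (⟨t, htL⟩ : Lk G T))}) i := by
        refine h2 (Lk G T) (G.induce (Lk G T)) ⟨s, hsL⟩ ⟨t, htL⟩ i hst hmain ?_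
        intro j hj
        have hc2 : G.IsClique ((insert s (insert t T) : Finset V) : Set V) := by
          intro a ha b hb hab
          simp only [Finset.coe_insert, Set.mem_insert_iff, Finset.mem_coe] at ha hb
          rcases ha with rfl | rfl | ha
          · rcases hb with rfl | rfl | hb
            · exact (hab rfl).elim
            · exact hst
            · exact (hsL b hb).symm
          · rcases hb with rfl | rfl | hb
            · exact hst.symm
            · exact (hab rfl).elim
            · exact (htL b hb).symm
          · rcases hb with rfl | rfl | hb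
            · exact hsL a ha
            · exact htL a ha
            · exact hTG a ha b hb hab
        have hcard2 : (insert s (insert t T) : Finset V).card = T.card + 2 := by
          rw [Finset.card_insert_of_notMem (by simp [hstne, hsT]), Finset.card_insert_of_notMem htT]
        have h5 := h _ hc2 j (by rw [hcard2, hcard]; omega)
        -- transport from `G.induce (Lk G (insert s (insert t T)))` to the double induced graph
        refine sp_iso hi (G := G) (H := G.induce (Lk G T)) (A := Lk G (insert s (insert t T)))
          (B := (G.induce (Lk G T)).neighborSet ⟨s, hsL⟩ ∩ (G.induce (Lk G T)).neighborSet ⟨t, htL⟩)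
          (fun a => if ha : a ∈ Lk G T then ⟨a, ha⟩ else ⟨s, hsL⟩) j ?_ ?_ ?_ ?_ h5
        · intro a ha
          have haL : a ∈ Lk G T := fun u hu => ha u (by simp [hu])
          simp only [haL, dif_pos]
          exact ⟨ha s (by simp), ha t (by simp)⟩
        · intro a ha b hb hab
          have haL : a ∈ Lk G T := fun u hu => ha u (by simp [hu])
          have hbL : b ∈ Lk G T := fun u hu => hb u (by simp [hu])
          simp only [haL, hbL, dif_pos, Subtype.mk.injEq] at hab
          exact hab
        · rintro ⟨b, hb⟩ ⟨hb1, hb2⟩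
          refine ⟨b, ?_, by simp [hb]⟩
          intro u hu
          rw [Finset.mem_insert, Finset.mem_insert] at hu
          rcases hu with rfl | rfl | hu
          · exact hb1
          · exact hb2
          · exact hb u hu
        · intro a ha b hb
          have haL : a ∈ Lk G T := fun u hu => ha u (by simp [hu])
          have hbL : b ∈ Lk G T := fun u hu => hb u (by simp [hu])
          simp only [haL, hbL, dif_pos]
          exact Iff.rfl
      -- now the vertex `none`
      refine h1 (Lk (esub G s t) T') ((esub G s t).induce (Lk (esub G s t) T')) ⟨none, hnL⟩ i ?_ ?_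
      · refine hi (Lk G T) _ _ _ i ?_ hdel
        have hsome : ∀ a : Lk G T, (some a.1 : Option V) ∈ Lk (esub G s t) T' := fun a => (hsomeL a.1).mpr a.2
        refine ⟨⟨Equiv.ofBijective (fun a : Lk G T => (⟨⟨some a.1, hsome a⟩, ?_⟩ :
          (({⟨none, hnL⟩} : Set (Lk (esub G s t) T'))ᶜ : Set _))) ⟨?_, ?_⟩, ?_⟩⟩
        · intro h5
          rw [Set.mem_singleton_iff] at h5
          have := congrArg Subtype.val h5
          simp at this
        · intro a b hab
          simp only [Subtype.mk.injEq, Option.some.injEq] at hab
          exact Subtype.ext hab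
        · rintro ⟨⟨x, hx⟩, hx2⟩
          cases x with
          | none => exact (hx2 rfl).elim
          | some a => exact ⟨⟨a, (hsomeL a).mp hx⟩, rfl⟩
        · rintro ⟨a, ha⟩ ⟨b, hb⟩
          show (esub G s t).Adj (some a) (some b) ↔ _
          rw [esub_some_some, SimpleGraph.deleteEdges_adj]
          simp only [SimpleGraph.comap_adj, Function.Embedding.subtype_apply, Set.mem_singleton_iff,
            Sym2.eq_iff, Subtype.mk.injEq]
          tauto
      · intro j _
        have hs2 : (⟨some s, (hsomeL s).mpr hsL⟩ : Lk (esub G s t) T') ∈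
            ((esub G s t).induce (Lk (esub G s t) T')).neighborSet ⟨none, hnL⟩ := by
          show (esub G s t).Adj none (some s)
          rw [esub_none_some]; exact Or.inl rfl
        have ht2 : (⟨some t, (hsomeL t).mpr htL⟩ : Lk (esub G s t) T') ∈
            ((esub G s t).induce (Lk (esub G s t) T')).neighborSet ⟨none, hnL⟩ := by
          show (esub G s t).Adj none (some t)
          rw [esub_none_some]; exact Or.inr (Or.inl rfl)
        refine hs _ _ ⟨_, hs2⟩ ⟨_, ht2⟩ j ?_ ?_ ?_
        · intro h5
          simp only [Subtype.mk.injEq, Option.some.injEq] at h5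
          exact hstne h5
        · intro h5
          have h6 : (esub G s t).Adj (some s) (some t) := h5
          rw [esub_some_some] at h6
          exact h6.2.1 ⟨rfl, rfl⟩
        · rintro ⟨⟨x, hx⟩, hx2⟩ hxs hxt
          have hx3 : (esub G s t).Adj none x := hx2
          cases x with
          | none => exact ((esub_none_none G s t).mp hx3).elim
          | some a =>
            have has : a ≠ s := fun e => hxs (by subst e; rfl)
            have hat : a ≠ t := fun e => hxt (by subst e; rfl)
            rw [esub_none_some] at hx3
            have h4 : G.Adj a s ∧ G.Adj a t := by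
              rcases hx3 with h3 | h3 | h3
              · exact (has h3).elim
              · exact (hat h3).elim
              · exact h3
            refine ⟨?_, ?_⟩
            · show (esub G s t).Adj (some a) (some s)
              rw [esub_some_some]
              exact ⟨h4.1, fun e => has e.1, fun e => hat e.1⟩
            · show (esub G s t).Adj (some a) (some t)
              rw [esub_some_some]
              exact ⟨h4.2, fun e => has e.1, fun e => hat e.1⟩
    · refine sp_iso hi some i ?_ ?_ ?_ ?_ hmain
      · intro a ha
        exact (hsomeL a).mpr ha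
      · intro a _ b _ hab
        exact Option.some_injective _ hab
      · intro x hx
        cases x with
        | none => exact (hL (hnoneL.mp hx)).elim
        | some a => exact ⟨a, (hsomeL a).mp hx, rfl⟩
      · intro a ha b hb
        rw [esub_some_some]
        refine ⟨fun h => h.1, fun h => ⟨h, ?_, ?_⟩⟩
        · rintro ⟨rfl, rfl⟩; exact hL ⟨ha, hb⟩
        · rintro ⟨rfl, rfl⟩; exact hL ⟨hb, ha⟩

theorem mot_sub (h1 : L_STEP1) (h2 : L_STEP2) (hs : L_SUSP) (hi : L_ISO)
    {n : ℕ} {V : Type} (G : SimpleGraph V) (s t : V) (hst : G.Adj s t) (h : Mot n G) : Mot n (esub G s t) := by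
  have hfin : Finite V := h.1
  refine ⟨inferInstance, fun T' hT' i hne => ?_⟩
  by_cases hsm : some s ∈ T'
  · exact sub_s hi G s t hst h T' hT' hsm i hne
  · by_cases htm : some t ∈ T'
    · have := sub_s hi G t s hst.symm h T' (by rw [esub_comm]; exact hT') htm i hne
      rw [esub_comm] at this
      exact this
    · exact sub_nst h1 h2 hs hi G s t hst h T' hT' hsm htm i hne

/-- the class generated by a family of graphs under suspension and edge subdivision -/
inductive Cl (Base : ℕ → ∀ {V : Type}, SimpleGraph V → Prop) : ℕ → ∀ {V : Type}, SimpleGraph V → Prop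
  | base {n : ℕ} {V : Type} (G : SimpleGraph V) : Base n G → Cl Base n G
  | susp {n : ℕ} {V : Type} (G : SimpleGraph V) : Cl Base n G → Cl Base (n + 1) (susp G)
  | sub {n : ℕ} {V : Type} (G : SimpleGraph V) (s t : V) : G.Adj s t → Cl Base n G → Cl Base n (esub G s t)
  | iso {n : ℕ} {V U : Type} (G : SimpleGraph V) (H : SimpleGraph U) : Nonempty (G ≃g H) → Cl Base n G →
      Cl Base n H

theorem mot_of_cl (h1 : L_STEP1) (h2 : L_STEP2) (hs : L_SUSP) (hi : L_ISO)
    (Base : ℕ → ∀ {V : Type}, SimpleGraph V → Prop)
    (hB : ∀ (n : ℕ) (V : Type) (G : SimpleGraph V), Base n G → Mot n G)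
    {n : ℕ} {V : Type} {G : SimpleGraph V} (h : Cl Base n G) : Mot n G := by
  induction h with
  | base G hG => exact hB _ _ G hG
  | susp G _ ih => exact mot_susp hi hs G ih
  | sub G s t hst _ ih => exact mot_sub h1 h2 hs hi G s t hst ih
  | iso G H e _ ih => exact mot_iso hi G H e.some ih

theorem lv_of_mot (hi : L_ISO) {n : ℕ} {V : Type} {G : SimpleGraph V} (hG : Mot n G) (i : ℕ) (hne : 2 * i ≠ n) :
    LV G i := by
  have h := hG.2 ∅ (by simp) i (by simpa using hne)
  refine hi _ _ _ _ i ?_ h
  have hL : Lk G ∅ = Set.univ := by
    ext a; simp [mem_Lk]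
  rw [hL]
  exact ⟨SimpleGraph.induceUnivIso G⟩

end Pool.Agent.W907.SM.Clo
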