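import Pool.Agent.H7.L.Helper655_VNDefs

set_option autoImplicit false

open scoped ENNReal InnerProductSpace

/-!
The inclusion `jN : N(N) → N(G)` of group von Neumann algebras for a subgroup `N ≤ G`.
-/

namespace Pool.Agent.Helper277.VN5

open Pool.Agent.Helper655.VN

universe u

theorem memL2_iff {α : Type u} {f : α → ℂ} : Memℓp f 2 ↔ Summable fun a => ‖f a‖ ^ 2 := by
  rw [memℓp_gen_iff (by norm_num)]
  norm_num

theorem L2_summable {α : Type u} (f : EllTwo α) : Summable fun a => ‖f a‖ ^ 2 :=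
  memL2_iff.1 (lp.memℓp f)

theorem L2_norm_sq {α : Type u} (f : EllTwo α) : ‖f‖ ^ 2 = ∑' a, ‖f a‖ ^ 2 := by
  have := lp.norm_rpow_eq_tsum (p := 2) (by norm_num) f
  norm_num at this
  exact this

/-- restriction along an injective map -/
noncomputable def pull {α β : Type u} (φ : α → β) (hφ : Function.Injective φ) :
    EllTwo β →L[ℂ] EllTwo α :=
  LinearMap.mkContinuous
    { toFun := fun f => ⟨fun a => f (φ a), memL2_iff.2 ((L2_summable f).comp_injective hφ)⟩
      map_add' := fun f g => by ext a; rfl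
      map_smul' := fun c f => by ext a; rfl } 1 (by
    intro f
    rw [one_mul]
    have h : ‖(⟨fun a => f (φ a), memL2_iff.2 ((L2_summable f).comp_injective hφ)⟩ : EllTwo α)‖ ^ 2
        ≤ ‖f‖ ^ 2 := by
      rw [L2_norm_sq, L2_norm_sq]
      exact tsum_comp_le_tsum_of_inj (L2_summable f) (fun _ => by positivity) hφ
    exact (pow_le_pow_iff_left₀ (norm_nonneg _) (norm_nonneg _) two_ne_zero).1 h)

@[simp] theorem pull_apply {α β : Type u} (φ : α → β) (hφ : Function.Injective φ) (f : EllTwo β)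
    (a : α) : pull φ hφ f a = f (φ a) := rfl

variable {G : Type u} [Group G]

theorem rho_apply (g : G) (f : EllTwo G) (x : G) : rho G g f x = f (x * g) := rfl

theorem lam_apply (g : G) (f : EllTwo G) (x : G) : lam G g f x = f (g⁻¹ * x) := rfl

variable (N : Subgroup G)

/-- `(res g f)(n) = f (n * g)` -/
noncomputable def res (g : G) : EllTwo G →L[ℂ] EllTwo N :=
  pull (fun n : N => (n : G) * g) (fun _ _ h => Subtype.ext (mul_left_injective g h))

@[simp] theorem res_apply (g : G) (f : EllTwo G) (n : N) : res N g f n = f (n * g) := rfl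

theorem res_mul (n : N) (g : G) (f : EllTwo G) : res N (n * g) f = rho N n (res N g f) := by
  ext m
  rw [res_apply, rho_apply, res_apply]
  simp [mul_assoc]

theorem res_rho (g x : G) (f : EllTwo G) : res N g (rho G x f) = res N (g * x) f := by
  ext m
  rw [res_apply, rho_apply, res_apply]
  simp [mul_assoc]

/-- right cosets -/
abbrev Q := Quotient (QuotientGroup.rightRel N)

/-- `G` is the disjoint union of the right cosets -/
noncomputable def cosetEquiv : Q N × N ≃ G where
  toFun x := x.2 * x.1.out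
  invFun g := (Quotient.mk _ g, ⟨g * ((Quotient.mk (QuotientGroup.rightRel N) g).out)⁻¹, by
    have h : (QuotientGroup.rightRel N) ((Quotient.mk (QuotientGroup.rightRel N) g).out) g :=
      Quotient.mk_out g
    rwa [QuotientGroup.rightRel_apply] at h⟩)
  left_inv x := by
    obtain ⟨q, n⟩ := x
    have h1 : Quotient.mk (QuotientGroup.rightRel N) ((n : G) * q.out) = q := by
      rw [← Quotient.out_eq q]
      apply Quotient.sound
      change (QuotientGroup.rightRel N) _ _
      rw [QuotientGroup.rightRel_apply, Quotient.out_eq]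
      simp
    ext
    · exact h1
    · simp [h1]
  right_inv g := by simp

variable {N}

/-- the function underlying `j T f` -/
noncomputable def jf (T : EllTwo N →L[ℂ] EllTwo N) (f : EllTwo G) : G → ℂ :=
  fun g => T (res N g f) 1

/-- commutes with right translations -/
def Cm {H : Type u} [Group H] (T : EllTwo H →L[ℂ] EllTwo H) : Prop :=
  ∀ n f, T (rho H n f) = rho H n (T f)

theorem Cm_of_mem {H : Type u} [Group H] {T : EllTwo H →L[ℂ] EllTwo H} (h : T ∈ NG H) : Cm T := by
  intro n f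
  have := congrArg (fun z : EllTwo H →L[ℂ] EllTwo H => z f) ((mem_NG T).1 h n)
  exact this.symm

theorem mem_of_Cm {H : Type u} [Group H] {T : EllTwo H →L[ℂ] EllTwo H} (h : Cm T) : T ∈ NG H := by
  rw [mem_NG]
  intro g
  ext1 f
  exact (h g f).symm

theorem jf_mul {T : EllTwo N →L[ℂ] EllTwo N} (hT : Cm T) (f : EllTwo G) (n : N) (g : G) :
    jf T f (n * g) = T (res N g f) n := by
  unfold jf
  rw [res_mul, hT, rho_apply, one_mul]

theorem jf_summable {T : EllTwo N →L[ℂ] EllTwo N} (hT : Cm T) (f : EllTwo G) :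
    (Summable fun g => ‖jf T f g‖ ^ 2) ∧ ∑' g, ‖jf T f g‖ ^ 2 ≤ (‖T‖ * ‖f‖) ^ 2 := by
  have e := cosetEquiv N
  have hf : Summable fun x : Q N × N => ‖f (cosetEquiv N x)‖ ^ 2 :=
    (cosetEquiv N).summable_iff.2 (L2_summable f)
  have hfq : ∀ q : Q N, ∑' n : N, ‖f (cosetEquiv N (q, n))‖ ^ 2 = ‖res N q.out f‖ ^ 2 := by
    intro q
    rw [L2_norm_sq]
    rfl
  have hf2 : Summable fun q : Q N => ‖res N q.out f‖ ^ 2 := by
    have := hf.prod
    simpa only [hfq] using this
  have hval : ∀ (q : Q N) (n : N), jf T f (cosetEquiv N (q, n)) = T (res N q.out f) n := by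
    intro q n
    exact jf_mul hT f n q.out
  have h1 : ∀ q : Q N, ∑' n : N, ‖jf T f (cosetEquiv N (q, n))‖ ^ 2 = ‖T (res N q.out f)‖ ^ 2 := by
    intro q
    rw [L2_norm_sq]
    simp only [hval]
  have h2 : ∀ q : Q N, ‖T (res N q.out f)‖ ^ 2 ≤ ‖T‖ ^ 2 * ‖res N q.out f‖ ^ 2 := by
    intro q
    rw [← mul_pow]
    exact pow_le_pow_left₀ (norm_nonneg _) (T.le_opNorm _) 2
  have h3 : Summable fun x : Q N × N => ‖jf T f (cosetEquiv N x)‖ ^ 2 := by
    rw [summable_prod_of_nonneg (fun _ => by positivity)]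
    refine ⟨fun q => ?_, ?_⟩
    · simp only [hval]
      exact L2_summable _
    · simp only [h1]
      exact Summable.of_nonneg_of_le (fun _ => by positivity) h2 (hf2.mul_left _)
  refine ⟨(cosetEquiv N).summable_iff.1 h3, ?_⟩
  rw [← (cosetEquiv N).tsum_eq, h3.tsum_prod]
  simp only [h1]
  calc ∑' q : Q N, ‖T (res N q.out f)‖ ^ 2 ≤ ∑' q : Q N, ‖T‖ ^ 2 * ‖res N q.out f‖ ^ 2 :=
        Summable.tsum_le_tsum h2 (Summable.of_nonneg_of_le (fun _ => by positivity) h2
          (hf2.mul_left _)) (hf2.mul_left _)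
    _ = (‖T‖ * ‖f‖) ^ 2 := by
        rw [tsum_mul_left, mul_pow, L2_norm_sq f, ← (cosetEquiv N).tsum_eq, hf.tsum_prod]
        simp only [hfq]

/-- the operator `j T` on `ℓ²(G)` -/
noncomputable def jop (T : EllTwo N →L[ℂ] EllTwo N) (hT : Cm T) : EllTwo G →L[ℂ] EllTwo G :=
  LinearMap.mkContinuous
    { toFun := fun f => ⟨jf T f, memL2_iff.2 (jf_summable hT f).1⟩
      map_add' := fun f g => by
        ext a
        change T (res N a (f + g)) 1 = T (res N a f) 1 + T (res N a g) 1
        rw [map_add, map_add]; rfl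
      map_smul' := fun c f => by
        ext a
        change T (res N a (c • f)) 1 = c • T (res N a f) 1
        rw [map_smul, map_smul]; rfl } ‖T‖ (by
    intro f
    have h : ‖(⟨jf T f, memL2_iff.2 (jf_summable hT f).1⟩ : EllTwo G)‖ ^ 2 ≤ (‖T‖ * ‖f‖) ^ 2 := by
      rw [L2_norm_sq]
      exact (jf_summable hT f).2
    exact (pow_le_pow_iff_left₀ (norm_nonneg _) (by positivity) two_ne_zero).1 h)

theorem jop_apply (T : EllTwo N →L[ℂ] EllTwo N) (hT : Cm T) (f : EllTwo G) (g : G) :
    jop T hT f g = T (res N g f) 1 := rfl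

theorem jop_mul_apply (T : EllTwo N →L[ℂ] EllTwo N) (hT : Cm T) (f : EllTwo G) (n : N) (g : G) :
    jop T hT f (n * g) = T (res N g f) n := jf_mul hT f n g

theorem res_jop (T : EllTwo N →L[ℂ] EllTwo N) (hT : Cm T) (f : EllTwo G) (g : G) :
    res N g (jop T hT f) = T (res N g f) := by
  ext n
  rw [res_apply, jop_mul_apply]

theorem jop_comm (T : EllTwo N →L[ℂ] EllTwo N) (hT : Cm T) : Cm (jop (G := G) T hT) := by
  intro x f
  ext g
  rw [jop_apply, res_rho, rho_apply, jop_apply]

variable (N)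

/-- the inclusion of the group von Neumann algebra of a subgroup -/
noncomputable def jN : NG N →+* NG G where
  toFun T := ⟨jop (T : EllTwo N →L[ℂ] EllTwo N) (Cm_of_mem T.2), mem_of_Cm (jop_comm _ _)⟩
  map_one' := by
    apply Subtype.ext
    ext f g
    change (res N g f) 1 = f g
    simp
  map_mul' S T := by
    apply Subtype.ext
    ext f g
    change ((S : EllTwo N →L[ℂ] EllTwo N) ((T : EllTwo N →L[ℂ] EllTwo N) (res N g f))) 1 =
      ((S : EllTwo N →L[ℂ] EllTwo N)
        (res N g (jop (T : EllTwo N →L[ℂ] EllTwo N) (Cm_of_mem T.2) f))) 1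
    rw [res_jop]
  map_zero' := by
    apply Subtype.ext
    ext f g
    rfl
  map_add' S T := by
    apply Subtype.ext
    ext f g
    rfl

theorem coe_star' {H : Type u} [Group H] (T : NG H) :
    ((star T : NG H) : EllTwo H →L[ℂ] EllTwo H) = star (T : EllTwo H →L[ℂ] EllTwo H) := rfl

theorem jN_coe (T : NG N) : ((jN N T : NG G) : EllTwo G →L[ℂ] EllTwo G) =
    jop (T : EllTwo N →L[ℂ] EllTwo N) (Cm_of_mem T.2) := rfl

theorem jN_apply (T : NG N) (f : EllTwo G) (g : G) :
    ((jN N T : NG G) : EllTwo G →L[ℂ] EllTwo G) f g =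
      (T : EllTwo N →L[ℂ] EllTwo N) (res N g f) 1 := rfl

theorem jN_res (T : NG N) (f : EllTwo G) (g : G) :
    res N g (((jN N T : NG G) : EllTwo G →L[ℂ] EllTwo G) f) =
      (T : EllTwo N →L[ℂ] EllTwo N) (res N g f) := res_jop _ (Cm_of_mem T.2) f g

theorem jN_canL (n : N) : jN N (canL n) = canL (n : G) := by
  apply Subtype.ext
  ext f g
  rw [jN_apply]
  change (lam N n (res N g f)) 1 = (lam G (n : G) f) g
  rw [lam_apply, lam_apply, res_apply]
  simp

/-- `jN T` is an injective operator if `T` is -/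
theorem jN_inj_op (T : NG N) (h : ∀ f, (T : EllTwo N →L[ℂ] EllTwo N) f = 0 → f = 0)
    (f : EllTwo G) (hf : ((jN N T : NG G) : EllTwo G →L[ℂ] EllTwo G) f = 0) : f = 0 := by
  have h1 : ∀ g, res N g f = 0 := by
    intro g
    apply h
    rw [← jN_res, hf, map_zero]
  ext g
  have := congrArg (fun x : EllTwo N => x 1) (h1 g)
  simpa using this

/-- the restriction of a point mass to a coset -/
theorem res_dl_same (g : G) (n : N) : res N g (dl ((n : G) * g)) = dl n := by
  ext m
  rw [res_apply]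
  by_cases hm : m = n
  · rw [hm, dl_apply_self, dl_apply_self]
  · rw [dl_apply_ne _ _ hm, dl_apply_ne]
    intro h
    exact hm (Subtype.ext (mul_right_cancel h))

theorem res_dl_self (g : G) : res N g (dl g) = dl 1 := by
  have := res_dl_same N g 1
  simpa using this

theorem res_dl_ne (g x : G) (h : x * g⁻¹ ∉ N) : res N g (dl x) = 0 := by
  ext m
  rw [res_apply]
  rw [dl_apply_ne]
  · simp
  · rintro rfl
    exact h (by simp)

/-- coefficients of `jN T` on `N` -/
theorem jN_coef_mem (T : NG N) (n : N) :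
    ((jN N T : NG G) : EllTwo G →L[ℂ] EllTwo G) (dl 1) (n : G) =
      (T : EllTwo N →L[ℂ] EllTwo N) (dl 1) n := by
  have h := congrArg (fun x : EllTwo N => x n) (jN_res N T (dl 1) 1)
  simp only [res_apply, mul_one] at h
  rw [res_dl_self] at h
  exact h

/-- coefficients of `jN T` off `N` -/
theorem jN_coef_notMem (T : NG N) (g : G) (hg : g ∉ N) :
    ((jN N T : NG G) : EllTwo G →L[ℂ] EllTwo G) (dl 1) g = 0 := by
  rw [jN_apply, res_dl_ne, map_zero]
  · simp
  · intro h
    rw [one_mul] at h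
    exact hg (by simpa using N.inv_mem h)

/-- `jN` preserves the trace -/
theorem jN_tr (T : NG N) : tr (jN N T) = tr T := by
  rw [tr_apply, tr_apply, inner_dl, inner_dl]
  exact jN_coef_mem N T 1

/-- `jN` is injective -/
theorem jN_injective : Function.Injective (jN N : NG N →+* NG G) := by
  rw [injective_iff_map_eq_zero]
  intro T hT
  apply ext_NG
  ext n
  rw [← jN_coef_mem, hT]
  rfl

/-- `jN` commutes with the star -/
theorem jN_star (T : NG N) : jN N (star T) = star (jN N T) := by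
  apply ext_NG
  ext g
  rw [coe_star', star_coef]
  by_cases hg : g ∈ N
  · have h1 := jN_coef_mem N (star T) ⟨g, hg⟩
    have h2 := jN_coef_mem N T (⟨g, hg⟩⁻¹)
    simp only [Subgroup.coe_inv] at h1 h2
    rw [h1, h2, coe_star', star_coef]
  · rw [jN_coef_notMem N _ g hg, jN_coef_notMem N _ g⁻¹ (fun h => hg (by simpa using N.inv_mem h))]
    simp

/-- elements of different right cosets of `N` are independent over `N(N)` -/
theorem jN_indep (s : Finset G) (x : G → NG N)
    (hs : ∀ g ∈ s, ∀ h ∈ s, g ≠ h → g * h⁻¹ ∉ N)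
    (h : ∑ g ∈ s, jN N (x g) * canL g = 0) : ∀ g ∈ s, x g = 0 := by
  classical
  intro g hg
  apply ext_NG
  have h1 : (((∑ k ∈ s, jN N (x k) * canL k : NG G)) : EllTwo G →L[ℂ] EllTwo G) (dl 1) = 0 := by
    rw [h]; rfl
  have h2 : res N g ((((∑ k ∈ s, jN N (x k) * canL k : NG G)) : EllTwo G →L[ℂ] EllTwo G) (dl 1))
      = (x g : EllTwo N →L[ℂ] EllTwo N) (dl 1) := by
    rw [AddSubmonoidClass.coe_finsetSum, sum_apply, map_sum,
      Finset.sum_eq_single g]
    · change res N g (((jN N (x g) : NG G) : EllTwo G →L[ℂ] EllTwo G) (lam G g (dl 1))) = _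
      rw [jN_res, lam_dl, mul_one, res_dl_self]
    · intro k hk hkg
      change res N g (((jN N (x k) : NG G) : EllTwo G →L[ℂ] EllTwo G) (lam G k (dl 1))) = _
      rw [jN_res, lam_dl, mul_one, res_dl_ne N _ _ (hs k hk g hg hkg), map_zero]
    · intro hn
      exact absurd hg hn
  rw [← h2, h1, map_zero]
  rfl

/-- extension by zero -/
noncomputable def exz : EllTwo N →L[ℂ] EllTwo G := ContinuousLinearMap.adjoint (res N 1)

theorem exz_comm (T : NG N) (f : EllTwo N) :
    ((jN N T : NG G) : EllTwo G →L[ℂ] EllTwo G) (exz N f) =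
      exz N ((T : EllTwo N →L[ℂ] EllTwo N) f) := by
  apply ext_inner_right ℂ
  intro v
  unfold exz
  have h1 : ((jN N T : NG G) : EllTwo G →L[ℂ] EllTwo G) =
      ContinuousLinearMap.adjoint ((jN N (star T) : NG G) : EllTwo G →L[ℂ] EllTwo G) := by
    rw [jN_star, coe_star', ContinuousLinearMap.star_eq_adjoint,
      ContinuousLinearMap.adjoint_adjoint]
  rw [h1, ContinuousLinearMap.adjoint_inner_left, ContinuousLinearMap.adjoint_inner_left, jN_res,
    ContinuousLinearMap.adjoint_inner_left, coe_star',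
    ContinuousLinearMap.star_eq_adjoint, ContinuousLinearMap.adjoint_inner_right]

theorem exz_rho (n : N) (f : EllTwo N) : exz N (rho N n f) = rho G (n : G) (exz N f) := by
  apply ext_inner_right ℂ
  intro v
  unfold exz
  have h1 : rho N n = ContinuousLinearMap.adjoint (rho N n⁻¹) := by
    rw [← ContinuousLinearMap.star_eq_adjoint, star_rho, inv_inv]
  have h2 : rho G (n : G) = ContinuousLinearMap.adjoint (rho G (n : G)⁻¹) := by
    rw [← ContinuousLinearMap.star_eq_adjoint, star_rho, inv_inv]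
  rw [ContinuousLinearMap.adjoint_inner_left, h1, h2, ContinuousLinearMap.adjoint_inner_left,
    ContinuousLinearMap.adjoint_inner_left, ContinuousLinearMap.adjoint_inner_left, res_rho]
  congr 1
  have := res_mul N n⁻¹ 1 v
  rw [← this]
  simp

theorem exz_dl : exz N (dl 1) = (dl 1 : EllTwo G) := by
  apply ext_inner_right ℂ
  intro v
  unfold exz
  rw [ContinuousLinearMap.adjoint_inner_left, inner_dl, inner_dl]
  simp

/-- the conditional expectation -/
noncomputable def cE (x : NG G) : NG N :=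
  ⟨res N 1 ∘L (x : EllTwo G →L[ℂ] EllTwo G) ∘L exz N, mem_of_Cm (by
    intro n f
    change res N 1 ((x : EllTwo G →L[ℂ] EllTwo G) (exz N (rho N n f))) =
      rho N n (res N 1 ((x : EllTwo G →L[ℂ] EllTwo G) (exz N f)))
    rw [exz_rho, Cm_of_mem x.2, res_rho, one_mul, ← res_mul, mul_one])⟩

theorem cE_apply (x : NG G) (f : EllTwo N) : (cE N x : EllTwo N →L[ℂ] EllTwo N) f =
    res N 1 ((x : EllTwo G →L[ℂ] EllTwo G) (exz N f)) := rfl

theorem cE_mul (x : NG G) (s : NG N) : cE N (x * jN N s) = cE N x * s := by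
  apply Subtype.ext
  ext1 f
  change (cE N (x * jN N s) : EllTwo N →L[ℂ] EllTwo N) f =
    (cE N x : EllTwo N →L[ℂ] EllTwo N) ((s : EllTwo N →L[ℂ] EllTwo N) f)
  rw [cE_apply, cE_apply]
  change res N 1 ((x : EllTwo G →L[ℂ] EllTwo G)
    (((jN N s : NG G) : EllTwo G →L[ℂ] EllTwo G) (exz N f))) = _
  rw [exz_comm]

theorem cE_zero : cE N (0 : NG G) = 0 := by
  apply Subtype.ext
  ext1 f
  change res N 1 ((0 : EllTwo G →L[ℂ] EllTwo G) (exz N f)) = 0
  simp

theorem cE_all_zero (x : NG G) (h : ∀ g : G, cE N (canL g⁻¹ * x) = 0) : x = 0 := by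
  apply ext_NG
  ext g
  have h1 := congrArg (fun z : NG N => (z : EllTwo N →L[ℂ] EllTwo N) (dl 1) 1) (h g)
  simp only [cE_apply, exz_dl, res_apply] at h1
  change (lam G g⁻¹ ((x : EllTwo G →L[ℂ] EllTwo G) (dl 1))) ((1 : N) * 1) = 0 at h1
  rw [lam_apply] at h1
  simpa using h1

/-- `jN` maps non zero divisors (`x s = 0 → x = 0`) to non zero divisors -/
theorem jN_nz (s : NG N) (hs : ∀ x : NG N, x * s = 0 → x = 0) (x : NG G)
    (hx : x * jN N s = 0) : x = 0 := by
  apply cE_all_zero N
  intro g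
  apply hs
  rw [← cE_mul, mul_assoc, hx, mul_zero, cE_zero]

end Pool.Agent.Helper277.VN5
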