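import Mathlib

namespace TN970

open scoped Classical

/-- The division subring of `D` generated by the image of the subgroup `N`. -/
def Dc {Γ : Type} [Group Γ] {D : Type} [DivisionRing D] (u : Γ →* Dˣ) (N : Subgroup Γ) :
    Subfield D :=
  Subfield.closure {x : D | ∃ g ∈ N, x = ((u g : Dˣ) : D)}

/-- The left `Dc u N`-span of the image of the group `Γ` in `D`. -/
def SN {Γ : Type} [Group Γ] {D : Type} [DivisionRing D] (u : Γ →* Dˣ) (N : Subgroup Γ) :
    Submodule (Dc u N) D :=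
  Submodule.span (Dc u N) (Set.range fun g : Γ => ((u g : Dˣ) : D))

/-- Linnell's property: for every normal subgroup `N`, the images of elements from pairwise
different cosets of `N` are left linearly independent over `Dc u N`. -/
def Linnell {Γ : Type} [Group Γ] {D : Type} [DivisionRing D] (u : Γ →* Dˣ) : Prop :=
  ∀ N : Subgroup Γ, N.Normal → ∀ s : Finset Γ,
    (∀ g ∈ s, ∀ h ∈ s, g ≠ h → g * h⁻¹ ∉ N) →
    LinearIndependent (Dc u N) (fun g : s => ((u (g : Γ) : Dˣ) : D))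

/-- The ring homomorphism `ℤ[Γ] → D` extending `u`. -/
noncomputable def ev {Γ : Type} [Group Γ] {D : Type} [DivisionRing D] (u : Γ →* Dˣ) :
    MonoidAlgebra ℤ Γ →+* D :=
  (MonoidAlgebra.lift ℤ D Γ ((Units.coeHom D).comp u)).toRingHom

/-- Cycles: row vectors with entries in `SN u N` annihilated by right multiplication with `B`. -/
def ZN {Γ : Type} [Group Γ] {D : Type} [DivisionRing D] (u : Γ →* Dˣ) (N : Subgroup Γ)
    {b c : ℕ} (B : Matrix (Fin b) (Fin c) D) : Submodule (Dc u N) (Fin b → D) where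
  carrier := {v | (∀ i, v i ∈ SN u N) ∧ Matrix.vecMul v B = 0}
  add_mem' := by
    rintro v w ⟨h1, h2⟩ ⟨h3, h4⟩
    exact ⟨fun i => Submodule.add_mem _ (h1 i) (h3 i), by rw [Matrix.add_vecMul, h2, h4, add_zero]⟩
  zero_mem' := ⟨fun i => Submodule.zero_mem _, by simp⟩
  smul_mem' := by
    rintro x v ⟨h1, h2⟩
    refine ⟨fun i => Submodule.smul_mem _ _ (h1 i), ?_⟩
    rw [Matrix.smul_vecMul, h2, smul_zero]

/-- Boundaries: the row vectors `w A` with `w` a row vector with entries in `SN u N`. -/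
def BN {Γ : Type} [Group Γ] {D : Type} [DivisionRing D] (u : Γ →* Dˣ) (N : Subgroup Γ)
    {a b : ℕ} (A : Matrix (Fin a) (Fin b) D) : Submodule (Dc u N) (Fin b → D) where
  carrier := {v | ∃ w : Fin a → D, (∀ i, w i ∈ SN u N) ∧ v = Matrix.vecMul w A}
  add_mem' := by
    rintro v w ⟨x, h1, h2⟩ ⟨y, h3, h4⟩
    exact ⟨x + y, fun i => Submodule.add_mem _ (h1 i) (h3 i), by
      rw [Matrix.add_vecMul, h2, h4]⟩
  zero_mem' := ⟨0, fun i => Submodule.zero_mem _, by simp⟩
  smul_mem' := by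
    rintro x v ⟨y, h1, h2⟩
    refine ⟨x • y, fun i => Submodule.smul_mem _ _ (h1 i), ?_⟩
    rw [Matrix.smul_vecMul, h2]

/-- The homology of `SN^a → SN^b → SN^c` (right multiplication by `A`, `B`), as a left vector
space over `Dc u N`. -/
abbrev HN {Γ : Type} [Group Γ] {D : Type} [DivisionRing D] (u : Γ →* Dˣ) (N : Subgroup Γ)
    {a b c : ℕ} (A : Matrix (Fin a) (Fin b) D) (B : Matrix (Fin b) (Fin c) D) : Type :=
  (ZN u N B) ⧸ ((BN u N A).submoduleOf (ZN u N B))

/-- The left `Dc u L`-span of the image of the subgroup `N` in `D`. -/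
def RN {Γ : Type} [Group Γ] {D : Type} [DivisionRing D] (u : Γ →* Dˣ) (L N : Subgroup Γ) :
    Submodule (Dc u L) D :=
  Submodule.span (Dc u L) {x : D | ∃ g ∈ N, x = ((u g : Dˣ) : D)}

/-- A semilinear action of a group `Γ` on a left vector space `M` over a division ring `F`, such
that the kernel of `π : Γ → ℤ²` acts by (element dependent) nonzero scalars. -/
structure Semi (F : Type) [DivisionRing F] (M : Type) [AddCommGroup M] [Module F M]
    (Γ : Type) [Group Γ] (π : Γ →* Multiplicative (ℤ × ℤ)) where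
  act : Γ → M →+ M
  act_one : ∀ m, act 1 m = m
  act_mul : ∀ g h m, act (g * h) m = act g (act h m)
  sig : Γ → F →+* F
  act_smul : ∀ g f m, act g (f • m) = sig g f • act g m
  ker_scalar : ∀ g, π g = 1 → ∀ m, ∃ f : F, f ≠ 0 ∧ act g m = f • m

/-- `y` is `x`-independent: all translates of the `y i` by powers of `x` are independent. -/
def XInd {F : Type} [DivisionRing F] {M : Type} [AddCommGroup M] [Module F M]
    {Γ : Type} [Group Γ] {π : Γ →* Multiplicative (ℤ × ℤ)} (S : Semi F M Γ π) (x : Γ)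
    {ι : Type} (y : ι → M) : Prop :=
  LinearIndependent F (fun p : ι × ℤ => S.act (x ^ p.2) (y p.1))

/-- The span of all `g • m i` with `π g` in the region `Ω`. -/
def Sp {F : Type} [DivisionRing F] {M : Type} [AddCommGroup M] [Module F M]
    {Γ : Type} [Group Γ] {π : Γ →* Multiplicative (ℤ × ℤ)} (S : Semi F M Γ π)
    {b : ℕ} (m : Fin b → M) (Ω : Set (ℤ × ℤ)) : Submodule F M :=
  Submodule.span F {z | ∃ (g : Γ) (i : Fin b), Multiplicative.toAdd (π g) ∈ Ω ∧ z = S.act g (m i)}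

/-- Determinant of two integer vectors. -/
def dt (v w : ℤ × ℤ) : ℤ := v.1 * w.2 - v.2 * w.1

/-- First thick leg of the triangle `0, n v, n (v + w)`. -/
def leg1 (v w : ℤ × ℤ) (ρ n : ℕ) : Set (ℤ × ℤ) :=
  {h | |dt v h| ≤ ρ ∧ -(ρ : ℤ) ≤ dt h w ∧ dt h w ≤ n * dt v w + ρ}

/-- Second thick leg of the triangle `0, n v, n (v + w)`. -/
def leg2 (v w : ℤ × ℤ) (ρ n : ℕ) : Set (ℤ × ℤ) :=
  {h | |dt h w - n * dt v w| ≤ ρ ∧ -(ρ : ℤ) ≤ dt v h ∧ dt v h ≤ n * dt v w + ρ}

/-- The triangle `0, n v, n (v + w)`. -/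
def tri (v w : ℤ × ℤ) (n : ℕ) : Set (ℤ × ℤ) :=
  {h | 0 ≤ dt v h ∧ dt v h ≤ dt h w ∧ dt h w ≤ n * dt v w}

/-- Strip in direction `v0` starting at `h0`. -/
def strip (v0 h0 : ℤ × ℤ) (Y : Finset (ℤ × ℤ)) (m : ℕ) : Set (ℤ × ℤ) :=
  {h | ∃ j : ℕ, j < m ∧ ∃ y ∈ Y, h = h0 + (j : ℤ) • v0 + y}

/-- The homomorphism `g ↦ dt v (π g)` to `ℤ`. -/
def phv {Γ : Type} [Group Γ] (π : Γ →* Multiplicative (ℤ × ℤ)) (v : ℤ × ℤ) :
    Γ →* Multiplicative ℤ where
  toFun g := Multiplicative.ofAdd (dt v (Multiplicative.toAdd (π g)))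
  map_one' := by simp [dt]
  map_mul' := by
    intro g h
    rw [← ofAdd_add]
    congr 1
    simp only [map_mul, toAdd_mul, dt, Prod.fst_add, Prod.snd_add]
    ring

/-- First homology with real coefficients. -/
abbrev H1R (Γ : Type) [Group Γ] : Type := TensorProduct ℤ ℝ (Additive (Abelianization Γ))

/-- The linear form on `H1R Γ` induced by a homomorphism to `ℤ`. -/
noncomputable def linF {Γ : Type} [Group Γ] (φ : Γ →* Multiplicative ℤ) : H1R Γ →ₗ[ℝ] ℝ :=
  (TensorProduct.AlgebraTensorModule.rid ℤ ℝ ℝ).toLinearMap ∘ₗ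
    (LinearMap.baseChange ℝ
      ((MonoidHom.toAdditiveLeft (Abelianization.lift φ)).toIntLinearMap))

end TN970
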