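import Mathlib
import Pool.Agent.H7.L.Helper655_VNDefs
import Pool.Agent.H7.L.Helper970_TN_Defs

open scoped ENNReal InnerProductSpace Matrix TensorProduct

set_option autoImplicit false

namespace VN831

open Pool.Agent.Helper655.VN

/-- The ring homomorphism `ℤ[G] → N(G)`. -/
noncomputable def zN {G : Type} [Group G] : MonoidAlgebra ℤ G →+* NG G :=
  (MonoidAlgebra.lift ℤ (NG G) G canL).toRingHom

/-! ### Lück's extended dimension -/

/-- The left module `R^k e` of the row vectors `v` with `v e = v`. -/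
def rowMod {R : Type} [Ring R] {k : ℕ} (e : Matrix (Fin k) (Fin k) R) :
    Submodule R (Fin k → R) where
  carrier := {v | Matrix.vecMul v e = v}
  add_mem' := by
    intro v w hv hw
    show Matrix.vecMul (v + w) e = v + w
    rw [Matrix.add_vecMul, hv, hw]
  zero_mem' := by
    show Matrix.vecMul 0 e = 0
    simp
  smul_mem' := by
    intro c v hv
    show Matrix.vecMul (c • v) e = c • v
    rw [Matrix.smul_vecMul, hv]

/-- Lück's extended von Neumann dimension of a left `N(G)`-module `M`: the supremum of the von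
Neumann dimensions of the finitely generated projective submodules of `M`. Such a module is
`N(G)^k e` for an idempotent `k × k`-matrix `e`, and its dimension is the trace of `e`. -/
noncomputable def luckDim (G : Type) [Group G] (M : Type) [AddCommGroup M] [Module (NG G) M] :
    ℝ≥0∞ :=
  ⨆ (k : ℕ) (e : Matrix (Fin k) (Fin k) (NG G)) (_ : e * e = e)
    (_ : ∃ f : rowMod e →ₗ[NG G] M, Function.Injective f),
      ENNReal.ofReal (∑ i, (tr (e i i)).re)

/-! ### The Atiyah conjecture -/

/-- The Hilbert space `ℓ²(G)^ι`. -/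
abbrev Hn (ι : Type) [Fintype ι] (G : Type) : Type := PiLp 2 (fun _ : ι => EllTwo G)

/-- The operator `ℓ²(G)^κ → ℓ²(G)^ι` given by a matrix of operators acting on columns. -/
noncomputable def opM {G : Type} {ι κ : Type} [Fintype ι] [Fintype κ]
    (A : Matrix ι κ (EllTwo G →L[ℂ] EllTwo G)) : Hn κ G →L[ℂ] Hn ι G :=
  (PiLp.continuousLinearEquiv 2 ℂ (fun _ : ι => EllTwo G)).symm.toContinuousLinearMap ∘L
    ContinuousLinearMap.pi (fun i => ∑ k, (A i k) ∘L (PiLp.proj 2 (fun _ : κ => EllTwo G) k))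

theorem opM_apply {G : Type} {ι κ : Type} [Fintype ι] [Fintype κ]
    (A : Matrix ι κ (EllTwo G →L[ℂ] EllTwo G)) (ξ : Hn κ G) (i : ι) :
    (opM A ξ) i = ∑ k, A i k (ξ k) := by
  unfold opM
  simp

open scoped Classical in
/-- The unit vector `δ_1` in the `i`-th summand of `ℓ²(G)^ι`. -/
noncomputable def deltaI {G : Type} [Group G] {ι : Type} [Fintype ι] (i : ι) : Hn ι G :=
  WithLp.toLp 2 (Pi.single i (dl (1 : G)))

/-- The von Neumann dimension of a closed invariant subspace `W` of `ℓ²(G)^ι`: the trace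
`∑ i, ⟨δ_i, P δ_i⟩` of the orthogonal projection `P` onto `W`. -/
noncomputable def vnDim {G : Type} [Group G] {ι : Type} [Fintype ι] (W : Submodule ℂ (Hn ι G))
    [W.HasOrthogonalProjection] : ℝ :=
  ∑ i : ι, (⟪(deltaI i : Hn ι G), W.starProjection (deltaI i)⟫_ℂ).re

/-- Right multiplication `ξ ↦ ξ a` by an element `a` of `ℤ[G]` on `ℓ²(G)`. -/
noncomputable def rmul {G : Type} [Group G] (a : MonoidAlgebra ℤ G) : EllTwo G →L[ℂ] EllTwo G :=
  a.coeff.sum fun h c => (c : ℂ) • rho G h⁻¹

/-- The Atiyah Conjecture (integrality): for every `m × n` matrix `A` over `ℤ[G]` the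
von Neumann dimension of the kernel of `v ↦ v A`, `ℓ²(G)^m → ℓ²(G)^n`, is an integer. -/
def Atiyah (G : Type) [Group G] : Prop :=
  ∀ (m n : ℕ) (A : Matrix (Fin m) (Fin n) (MonoidAlgebra ℤ G)), ∃ k : ℤ,
    vnDim (LinearMap.ker (opM (fun (j : Fin n) (i : Fin m) => rmul (A i j))).toLinearMap) = k

/-! ### Homology with coefficients in `N(G)` as a derived functor -/

/-- The relations `x g ⊗ p = x ⊗ g p` of the tensor product over `ℤ[G]`. -/
noncomputable def bcRel (G : Type) [Group G] (P : Type) [AddCommGroup P] [Module (MonoidAlgebra ℤ G) P] :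
    Submodule (NG G) (NG G ⊗[ℤ] P) :=
  Submodule.span (NG G)
    {z | ∃ (x : NG G) (g : G) (p : P),
      z = (x * canL g) ⊗ₜ[ℤ] p - x ⊗ₜ[ℤ] ((MonoidAlgebra.single g (1 : ℤ)) • p)}

/-- `N(G) ⊗_{ℤ[G]} P` as a left `N(G)`-module. -/
abbrev BC (G : Type) [Group G] (P : Type) [AddCommGroup P] [Module (MonoidAlgebra ℤ G) P] : Type :=
  (NG G ⊗[ℤ] P) ⧸ bcRel G P

/-- `N(G) ⊗_{ℤ[G]} -` on homomorphisms. -/
noncomputable def bcMap {G : Type} [Group G] {P Q : Type} [AddCommGroup P]
    [Module (MonoidAlgebra ℤ G) P] [AddCommGroup Q] [Module (MonoidAlgebra ℤ G) Q]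
    (f : P →ₗ[MonoidAlgebra ℤ G] Q) : BC G P →ₗ[NG G] BC G Q :=
  Submodule.mapQ (bcRel G P) (bcRel G Q)
    (TensorProduct.AlgebraTensorModule.map (LinearMap.id : NG G →ₗ[NG G] NG G)
      (f.toAddMonoidHom.toIntLinearMap))
    (by
      rw [bcRel, Submodule.span_le]
      rintro z ⟨x, g, p, rfl⟩
      show _ ∈ bcRel G Q
      rw [map_sub]
      refine Submodule.subset_span ⟨x, g, f p, ?_⟩
      simp)

theorem bcMap_mk {G : Type} [Group G] {P Q : Type} [AddCommGroup P]
    [Module (MonoidAlgebra ℤ G) P] [AddCommGroup Q] [Module (MonoidAlgebra ℤ G) Q]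
    (f : P →ₗ[MonoidAlgebra ℤ G] Q) (x : NG G) (p : P) :
    bcMap f (Submodule.Quotient.mk (x ⊗ₜ[ℤ] p)) = Submodule.Quotient.mk (x ⊗ₜ[ℤ] (f p)) := by
  rfl

theorem bc_induction {G : Type} [Group G] {P : Type} [AddCommGroup P]
    [Module (MonoidAlgebra ℤ G) P] {M : Type} [AddCommGroup M] [Module (NG G) M]
    {f g : BC G P →ₗ[NG G] M}
    (h : ∀ (p : P), f (Submodule.Quotient.mk ((1 : NG G) ⊗ₜ[ℤ] p)) =
      g (Submodule.Quotient.mk ((1 : NG G) ⊗ₜ[ℤ] p))) : f = g := by
  refine LinearMap.ext fun z => ?_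
  obtain ⟨z, rfl⟩ := Submodule.Quotient.mk_surjective _ z
  induction z using TensorProduct.induction_on with
  | zero => simp
  | tmul x p =>
    have h1 : (Submodule.Quotient.mk (x ⊗ₜ[ℤ] p) : BC G P) =
        x • Submodule.Quotient.mk ((1 : NG G) ⊗ₜ[ℤ] p) := by
      rw [← Submodule.Quotient.mk_smul, TensorProduct.smul_tmul', smul_eq_mul, mul_one]
    rw [h1, map_smul, map_smul, h]
  | add x y hx hy =>
    rw [Submodule.Quotient.mk_add, map_add, map_add, hx, hy]

open CategoryTheory

/-- The functor `N(G) ⊗_{ℤ[G]} -` from left `ℤ[G]`-modules to left `N(G)`-modules. -/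
noncomputable def bcFunctor (G : Type) [Group G] :
    ModuleCat.{0} (MonoidAlgebra ℤ G) ⥤ ModuleCat.{0} (NG G) where
  obj P := ModuleCat.of (NG G) (BC G P)
  map f := ModuleCat.ofHom (bcMap f.hom)
  map_id P := by
    ext1
    apply bc_induction
    intro p
    rfl
  map_comp f g := by
    ext1
    apply bc_induction
    intro p
    rfl

theorem bcFunctor_additive (G : Type) [Group G] : (bcFunctor G).Additive where
  map_add {P Q f g} := by
    ext1
    apply bc_induction
    intro p
    show bcMap (f + g).hom _ = bcMap f.hom _ + bcMap g.hom _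
    rw [bcMap_mk, bcMap_mk, bcMap_mk, ← Submodule.Quotient.mk_add, ← TensorProduct.tmul_add]
    rfl

attribute [local instance] bcFunctor_additive

/-- The trivial left `ℤ[G]`-module `ℤ` (via the augmentation `ℤ[G] → ℤ`). -/
noncomputable def augZ (G : Type) [Group G] : MonoidAlgebra ℤ G →+* ℤ :=
  (MonoidAlgebra.lift ℤ ℤ G (1 : G →* ℤ)).toRingHom

/-- The trivial left `ℤ[G]`-module `ℤ`. -/
noncomputable def trivMod (G : Type) [Group G] : ModuleCat.{0} (MonoidAlgebra ℤ G) :=
  (ModuleCat.restrictScalars (augZ G)).obj (ModuleCat.of ℤ ℤ)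

/-- The group homology `H_n(G; N(G)) = Tor_n^{ℤ[G]}(N(G), ℤ)`, a left `N(G)`-module. -/
noncomputable def homN (G : Type) [Group G] (n : ℕ) : ModuleCat.{0} (NG G) :=
  ((bcFunctor G).leftDerived n).obj (trivMod G)

/-- The `n`-th `L²`-Betti number of `G`. -/
noncomputable def l2Betti (G : Type) [Group G] (n : ℕ) : ℝ≥0∞ := luckDim G (homN G n)

/-- `G` is of type FL: the trivial module has a resolution of finite length by finitely generated
free `ℤ[G]`-modules. -/
def TypeFL (G : Type) [Group G] : Prop :=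
  ∃ P : ProjectiveResolution (trivMod G),
    (∀ n, Module.Free (MonoidAlgebra ℤ G) (P.complex.X n)) ∧
    (∀ n, Module.Finite (MonoidAlgebra ℤ G) (P.complex.X n)) ∧
    (∃ m, ∀ n, m ≤ n → Subsingleton (P.complex.X n))

end VN831
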