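import Pool.Agent.H7.L.Helper831_V6_Defs

attribute [local instance] VN831.bcFunctor_additive VN831.viaAdd VN831.viaMod

set_option autoImplicit false

namespace V6

open Pool.Agent.RK TN970 VN831


theorem rightInv {K : Type} [DivisionRing K] {m n : Type} [Fintype m] [Fintype n]
    [DecidableEq m] (M : Matrix m n K) (h : LinearIndependent K (fun i => M i)) :
    ∃ W : Matrix n m K, M * W = 1 := by
  classical
  have hker : LinearMap.ker (Matrix.vecMulLinear M) = ⊥ := by
    rw [LinearMap.ker_eq_bot']
    intro v hv
    have h1 : ∑ i, v i • M i = 0 := by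
      rw [← Matrix.vecMul_eq_sum]
      exact hv
    exact funext (Fintype.linearIndependent_iff.1 h v h1)
  obtain ⟨g, hg⟩ := LinearMap.exists_leftInverse_of_injective _ hker
  refine ⟨Matrix.of fun t i => g (Pi.single t 1) i, ?_⟩
  ext i i'
  rw [Matrix.mul_apply]
  have h2 : M i = ∑ t, M i t • (Pi.single t 1 : n → K) := by
    funext s
    simp [Finset.sum_apply, Pi.single_apply]
  have h3 : g (M i) = Pi.single i 1 := by
    have h4 : Matrix.vecMulLinear M (Pi.single i 1) = M i := by
      show Matrix.vecMul (Pi.single i 1) M = M i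
      exact Matrix.single_one_vecMul i M
    rw [← h4]
    exact congrArg (fun F : (m → K) →ₗ[K] (m → K) => F (Pi.single i 1)) hg
  have h5 : g (M i) i' = ∑ t, M i t * g (Pi.single t 1) i' := by
    conv_lhs => rw [h2]
    rw [map_sum, Finset.sum_apply]
    refine Finset.sum_congr rfl fun t _ => ?_
    rw [map_smul]
    rfl
  show ∑ t, M i t * g (Pi.single t 1) i' = _
  rw [← h5, h3, Matrix.one_apply, Pi.single_apply]
  simp only [eq_comm]

end V6
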