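import Pool.Agent.H7.L.Helper831_V6_Defs

attribute [local instance] VN831.bcFunctor_additive VN831.viaAdd VN831.viaMod

set_option autoImplicit false

namespace V6

open Pool.Agent.RK TN970 VN831


theorem repSpec {Γ : Type} [Group Γ] (N : Subgroup Γ) (g : Γ) : g * (rep N g)⁻¹ ∈ N := by
  have h : (QuotientGroup.rightRel N) (rep N g) g := by
    unfold rep
    exact Quotient.mk_out g
  exact QuotientGroup.rightRel_apply.1 h

end V6
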