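import Pool.Agent.H7.L.Helper831_V6_Defs
import Pool.Agent.H7.L.Helper831_V6_P_repEq
import Pool.Agent.H7.L.Helper831_V6_P_repSpec

attribute [local instance] VN831.bcFunctor_additive VN831.viaAdd VN831.viaMod

set_option autoImplicit false

namespace V6

open Pool.Agent.RK TN970 VN831


theorem snFin_gen {Γ D : Type} [Group Γ] [DivisionRing D] (u : Γ →* Dˣ) (N : Subgroup Γ)
    (g : Γ) : ∃ c : Dc u N, ((u g : Dˣ) : D) = (c : D) * ((u (rep N g) : Dˣ) : D) := by
  have hmem : ((u (g * (rep N g)⁻¹) : Dˣ) : D) ∈ Dc u N :=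
    Subfield.subset_closure ⟨_, repSpec N g, rfl⟩
  refine ⟨⟨_, hmem⟩, ?_⟩
  show ((u g : Dˣ) : D) = ((u (g * (rep N g)⁻¹) : Dˣ) : D) * ((u (rep N g) : Dˣ) : D)
  rw [← Units.val_mul, ← map_mul, inv_mul_cancel_right]

theorem snFin_one {Γ D : Type} [Group Γ] [DivisionRing D] (u : Γ →* Dˣ) (N : Subgroup Γ)
    (x : D) (hx : x ∈ SN u N) :
    ∃ f : Γ →₀ Dc u N, (∀ g ∈ f.support, rep N g = g) ∧
      x = f.sum (fun g a => (a : D) * ((u g : Dˣ) : D)) := by
  classical
  unfold SN at hx
  induction hx using Submodule.span_induction with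
  | mem y hy =>
    obtain ⟨g, rfl⟩ := hy
    obtain ⟨c, hc⟩ := snFin_gen u N g
    refine ⟨Finsupp.single (rep N g) c, ?_, ?_⟩
    · intro h hh
      have h1 := Finsupp.support_single_subset hh
      rw [Finset.mem_singleton] at h1
      rw [h1, repEq]
      have h2 := N.inv_mem (repSpec N g)
      rwa [mul_inv_rev, inv_inv] at h2
    · rw [Finsupp.sum_single_index (by simp)]
      exact hc
  | zero => exact ⟨0, by simp, by simp⟩
  | add y z _ _ hy hz =>
    obtain ⟨f, hf1, hf2⟩ := hy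
    obtain ⟨f', hf1', hf2'⟩ := hz
    refine ⟨f + f', ?_, ?_⟩
    · intro g hg
      rcases Finset.mem_union.mp (Finsupp.support_add hg) with h | h
      · exact hf1 g h
      · exact hf1' g h
    · rw [Finsupp.sum_add_index' (by simp) (by intro a b c; push_cast; rw [add_mul]), ← hf2, ← hf2']
  | smul c y _ hy =>
    obtain ⟨f, hf1, hf2⟩ := hy
    refine ⟨f.mapRange (fun a => c * a) (by simp), ?_, ?_⟩
    · intro g hg
      exact hf1 g (Finsupp.support_mapRange hg)
    · rw [Finsupp.sum_mapRange_index (by simp), hf2, Finsupp.smul_sum]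
      refine Finsupp.sum_congr fun g _ => ?_
      show (c : D) * (((f g : Dc u N) : D) * _) = ((c * f g : Dc u N) : D) * _
      push_cast
      rw [mul_assoc]

theorem snFin {Γ D : Type} [Group Γ] [DivisionRing D] (u : Γ →* Dˣ) (N : Subgroup Γ) {n : Type}
    [Finite n] (x : n → D) (hx : ∀ i, x i ∈ SN u N) :
    ∃ (s : Finset Γ) (k : n → Γ → Dc u N), (∀ g ∈ s, rep N g = g) ∧
      ∀ i, x i = ∑ g ∈ s, ((k i g : Dc u N) : D) * ((u g : Dˣ) : D) := by
  classical
  haveI := Fintype.ofFinite n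
  choose f hf1 hf2 using fun i => snFin_one u N (x i) (hx i)
  refine ⟨Finset.univ.biUnion fun i => (f i).support, fun i g => f i g, ?_, ?_⟩
  · intro g hg
    obtain ⟨i, _, hi⟩ := Finset.mem_biUnion.mp hg
    exact hf1 i g hi
  · intro i
    rw [hf2 i]
    refine Finsupp.sum_of_support_subset _ ?_ _ (by simp)
    exact Finset.subset_biUnion_of_mem (fun i => (f i).support) (Finset.mem_univ i)

end V6
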