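import Pool.Agent.H7.L.RK_Defs
import Pool.Agent.H7.L.RK_Lp
import Pool.Agent.H7.L.RK_Proj
import Pool.Agent.H7.L.RK_Tr

set_option autoImplicit false
open Matrix


namespace Pool.Agent.RK.RkMul
open Pool.Agent.RK
open Pool.Agent.RK.Lp (lp_exists lp_unique rk_eq rk_star)
open Pool.Agent.RK.Proj (proj_le)
open Pool.Agent.RK.Tr (tr_star)

open Matrix








/-! ## TARGET (prove this) -/

theorem rk_mul_left {R : Type} [Ring R] [StarRing R] {τ : R →+ ℝ} (h : VN R τ) {m n k : Type}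
    [Fintype m] [Fintype n] [Fintype k] (A : Matrix m n R) (B : Matrix n k R) :
    rk τ (A * B) ≤ rk τ A := by
  classical
  obtain ⟨p, hp⟩ := lp_exists h A
  obtain ⟨p', hp'⟩ := lp_exists h (A * B)
  rw [rk_eq A p hp, rk_eq (A * B) p' hp']
  refine (proj_le h p' p hp'.idem hp'.star hp.idem hp.star ?_).1
  have h1 : (1 - p) * (A * B) = 0 := by
    rw [Matrix.sub_mul, Matrix.one_mul, ← Matrix.mul_assoc, hp.mul, sub_self]
  have h2 : (1 - p) * p' = 0 := by
    ext i j
    have h3 : Matrix.vecMul ((1 - p) i) (A * B) = 0 := by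
      rw [← Matrix.mul_apply_eq_vecMul, h1]
      rfl
    have h4 := hp'.min _ h3
    rw [← Matrix.mul_apply_eq_vecMul] at h4
    rw [h4]
    rfl
  rw [Matrix.sub_mul, Matrix.one_mul, sub_eq_zero] at h2
  exact h2.symm

theorem rk_mul_right {R : Type} [Ring R] [StarRing R] {τ : R →+ ℝ} (h : VN R τ) {m n k : Type}
    [Fintype m] [Fintype n] [Fintype k] (A : Matrix m n R) (B : Matrix n k R) :
    rk τ (A * B) ≤ rk τ B := by
  rw [← rk_star h (A * B), ← rk_star h B, Matrix.conjTranspose_mul]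
  exact rk_mul_left h _ _

theorem rk_nonneg_aux {R : Type} [Ring R] [StarRing R] {τ : R →+ ℝ} (h : VN R τ) {m n : Type}
    [Fintype m] [Fintype n] (A : Matrix m n R) :
    0 ≤ rk τ A ∧ rk τ A ≤ Fintype.card m := by
  classical
  obtain ⟨p, hp⟩ := lp_exists h A
  rw [rk_eq A p hp]
  constructor
  · have h1 := (tr_star h p).1
    rw [hp.star, hp.idem] at h1
    exact h1
  · have h1 := (proj_le h p 1 hp.idem hp.star (Matrix.one_mul 1) Matrix.conjTranspose_one
      (Matrix.one_mul p)).1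
    refine h1.trans (le_of_eq ?_)
    unfold Tr
    simp [h.one]

theorem rk_nonneg {R : Type} [Ring R] [StarRing R] {τ : R →+ ℝ} (h : VN R τ) {m n : Type}
    [Fintype m] [Fintype n] (A : Matrix m n R) :
    0 ≤ rk τ A ∧ rk τ A ≤ Fintype.card m ∧ rk τ A ≤ Fintype.card n := by
  refine ⟨(rk_nonneg_aux h A).1, (rk_nonneg_aux h A).2, ?_⟩
  rw [← rk_star h A]
  exact (rk_nonneg_aux h Aᴴ).2

end Pool.Agent.RK.RkMul
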