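import Pool.Agent.H7.L.Helper831_V6_Defs
import Pool.Agent.H7.L.RK_UN
import Pool.Agent.H7.L.RK_V3Abs
import Pool.Agent.H7.L.RK_UnData

attribute [local instance] VN831.bcFunctor_additive VN831.viaAdd VN831.viaMod

set_option autoImplicit false

namespace V6

open Pool.Agent.RK TN970 VN831

theorem unAdd {Γ : Type} [Group Γ] {R' R U D : Type} [Ring R'] [StarRing R'] [Ring R] [Ring U]
    [DivisionRing D] {τ' : R' →+ ℝ} {j : R' →+* R} {ι : R →+* U} {κ : D →+* U} {u : Γ →* Dˣ}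
    {lam : Γ →* R} {N : Subgroup Γ} (S : Setup τ' j ι κ u lam N) (y z : U) (hy : y ∈ UN j ι) (hz : z ∈ UN j ι) : y + z ∈ UN j ι :=
  Pool.Agent.RK.UN.un_add S.vn j S.jnz S.loc y z hy hz

theorem unMul {Γ : Type} [Group Γ] {R' R U D : Type} [Ring R'] [StarRing R'] [Ring R] [Ring U]
    [DivisionRing D] {τ' : R' →+ ℝ} {j : R' →+* R} {ι : R →+* U} {κ : D →+* U} {u : Γ →* Dˣ}
    {lam : Γ →* R} {N : Subgroup Γ} (S : Setup τ' j ι κ u lam N) (y z : U) (hy : y ∈ UN j ι) (hz : z ∈ UN j ι) : y * z ∈ UN j ι :=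
  Pool.Agent.RK.UN.un_mul S.vn j S.jnz S.loc y z hy hz

theorem unBase {Γ : Type} [Group Γ] {R' R U D : Type} [Ring R'] [StarRing R'] [Ring R] [Ring U]
    [DivisionRing D] {τ' : R' →+ ℝ} {j : R' →+* R} {ι : R →+* U} {κ : D →+* U} {u : Γ →* Dˣ}
    {lam : Γ →* R} {N : Subgroup Γ} (S : Setup τ' j ι κ u lam N) (x : R') : ι (j x) ∈ UN j ι := by
  obtain ⟨V, hV, h1, -⟩ := Pool.Agent.RK.UnData.un_data S.vn j S.jinj S.jnz S.loc
  rw [← hV]
  exact h1 x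

theorem unSum {Γ : Type} [Group Γ] {R' R U D : Type} [Ring R'] [StarRing R'] [Ring R] [Ring U]
    [DivisionRing D] {τ' : R' →+ ℝ} {j : R' →+* R} {ι : R →+* U} {κ : D →+* U} {u : Γ →* Dˣ}
    {lam : Γ →* R} {N : Subgroup Γ} (S : Setup τ' j ι κ u lam N) {n : Type} (s : Finset n) (y : n → U) (hy : ∀ i ∈ s, y i ∈ UN j ι) :
    ∑ i ∈ s, y i ∈ UN j ι := by
  obtain ⟨V, hV, h1, -⟩ := Pool.Agent.RK.UnData.un_data S.vn j S.jinj S.jnz S.loc
  rw [← hV] at hy ⊢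
  exact sum_mem hy

theorem unK {Γ : Type} [Group Γ] {R' R U D : Type} [Ring R'] [StarRing R'] [Ring R] [Ring U]
    [DivisionRing D] {τ' : R' →+ ℝ} {j : R' →+* R} {ι : R →+* U} {κ : D →+* U} {u : Γ →* Dˣ}
    {lam : Γ →* R} {N : Subgroup Γ} (S : Setup τ' j ι κ u lam N) (k : Dc u N) : κ (k : D) ∈ UN j ι := S.hK _ k.2

theorem unCommon {Γ : Type} [Group Γ] {R' R U D : Type} [Ring R'] [StarRing R'] [Ring R] [Ring U]
    [DivisionRing D] {τ' : R' →+ ℝ} {j : R' →+* R} {ι : R →+* U} {κ : D →+* U} {u : Γ →* Dˣ}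
    {lam : Γ →* R} {N : Subgroup Γ} (S : Setup τ' j ι κ u lam N) {n : Type} [Finite n] (y : n → U) (hy : ∀ i, y i ∈ UN j ι) :
    ∃ (s : R') (x : n → R'), Nz s ∧ ∀ i, ι (j s) * y i = ι (j (x i)) :=
  Pool.Agent.RK.UN.un_common S.vn j S.jnz S.loc y hy

theorem isUnitS {Γ : Type} [Group Γ] {R' R U D : Type} [Ring R'] [StarRing R'] [Ring R] [Ring U]
    [DivisionRing D] {τ' : R' →+ ℝ} {j : R' →+* R} {ι : R →+* U} {κ : D →+* U} {u : Γ →* Dˣ}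
    {lam : Γ →* R} {N : Subgroup Γ} (S : Setup τ' j ι κ u lam N) (s : R') (hs : Nz s) : IsUnit (ι (j s)) := S.loc.unit _ (S.jnz s hs)

theorem embedUN {Γ : Type} [Group Γ] {R' R U D : Type} [Ring R'] [StarRing R'] [Ring R] [Ring U]
    [DivisionRing D] {τ' : R' →+ ℝ} {j : R' →+* R} {ι : R →+* U} {κ : D →+* U} {u : Γ →* Dˣ}
    {lam : Γ →* R} {N : Subgroup Γ} (S : Setup τ' j ι κ u lam N) {k β : ℕ} (e : Matrix (Fin k) (Fin k) R') (he : e * e = e)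
    (F : Matrix (Fin k) (Fin β) U) (hF : ∀ i t, F i t ∈ UN j ι)
    (hinj : ∀ v : Fin k → R', Matrix.vecMul v e = v → (∀ t, ∑ i, ι (j (v i)) * F i t = 0) →
      v = 0) : Tr τ' e ≤ β := by
  refine Pool.Agent.RK.V3Abs.v3_abs S.vn (ι.comp j) (S.loc.inj.comp S.jinj)
    (fun s hs => isUnitS S s hs) e he F (fun i t => ?_) (fun v hv h => ?_)
  · obtain ⟨s, x, hs, hx⟩ := hF i t
    exact ⟨s, x, hs, hx⟩
  · refine hinj v hv fun t => ?_
    exact congrFun h t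

end V6
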