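import Pool.Agent.H7.L.Helper831_V6_Defs
import Pool.Agent.H7.L.Helper831_V6_Un

attribute [local instance] VN831.bcFunctor_additive VN831.viaAdd VN831.viaMod

set_option autoImplicit false

namespace V6

open Pool.Agent.RK TN970 VN831


theorem unIndep {Γ : Type} [Group Γ] {R' R U D : Type} [Ring R'] [StarRing R'] [Ring R] [Ring U]
    [DivisionRing D] {τ' : R' →+ ℝ} {j : R' →+* R} {ι : R →+* U} {κ : D →+* U} {u : Γ →* Dˣ}
    {lam : Γ →* R} {N : Subgroup Γ} (S : Setup τ' j ι κ u lam N) (s : Finset Γ) (hs : ∀ g ∈ s, ∀ h ∈ s, g ≠ h → g * h⁻¹ ∉ N) (c : Γ → U)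
    (hc : ∀ g ∈ s, c g ∈ UN j ι) (h : ∑ g ∈ s, c g * ι (lam g) = 0) : ∀ g ∈ s, c g = 0 := by
  classical
  obtain ⟨s0, x, hs0, hx⟩ := unCommon S (n := s) (fun g : s => c g) (fun g => hc g g.2)
  let x' : Γ → R' := fun g => if hg : g ∈ s then x ⟨g, hg⟩ else 0
  have hx' : ∀ g (hg : g ∈ s), x' g = x ⟨g, hg⟩ := fun g hg => dif_pos hg
  have key : ∑ g ∈ s, j (x' g) * lam g = 0 := by
    apply S.loc.inj
    rw [map_zero, map_sum]
    have e : ∑ g ∈ s, ι (j (x' g) * lam g) = ι (j s0) * ∑ g ∈ s, c g * ι (lam g) := by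
      rw [Finset.mul_sum]
      refine Finset.sum_congr rfl fun g hg => ?_
      have e1 := hx ⟨g, hg⟩
      simp only at e1
      rw [map_mul, ← mul_assoc, e1, hx' g hg]
    rw [e, h, mul_zero]
  have h0 := S.indep s hs x' key
  intro g hg
  have e1 := hx ⟨g, hg⟩
  simp only at e1
  rw [← hx' g hg, h0 g hg, map_zero, map_zero] at e1
  exact ((isUnitS S s0 hs0).mul_right_eq_zero).1 e1

end V6
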