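import Pool.Agent.H7.L.Helper831_V6_Defs
import Pool.Agent.H7.L.Helper831_V6_Un

attribute [local instance] VN831.bcFunctor_additive VN831.viaAdd VN831.viaMod

set_option autoImplicit false

namespace V6

open Pool.Agent.RK TN970 VN831


theorem insD {Γ : Type} [Group Γ] {R' R U D : Type} [Ring R'] [StarRing R'] [Ring R] [Ring U]
    [DivisionRing D] {τ' : R' →+ ℝ} {j : R' →+* R} {ι : R →+* U} {κ : D →+* U} {u : Γ →* Dˣ}
    {lam : Γ →* R} {N : Subgroup Γ} (S : Setup τ' j ι κ u lam N) {b : ℕ} (y : Fin b → D) (hy : ∀ t, y t ∈ SN u N) :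
    InS j ι κ u N (fun t => κ (y t)) := by
  refine ⟨1, fun _ => 1, fun _ => y, fun _ => ?_, fun _ t => hy t, fun t => ?_⟩
  · have h := unBase S 1
    rwa [map_one, map_one] at h
  · simp

end V6
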