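import Pool.Agent.H7.L.Helper831_V6_Defs

attribute [local instance] VN831.bcFunctor_additive VN831.viaAdd VN831.viaMod

set_option autoImplicit false

namespace V6

open Pool.Agent.RK TN970 VN831


theorem insSum_h1 {Γ : Type} [Group Γ] {R' R U D : Type} [Ring R'] [Ring R] [Ring U]
    [DivisionRing D] (j : R' →+* R) (ι : R →+* U) (κ : D →+* U) (u : Γ →* Dˣ)
    (N : Subgroup Γ) {b : ℕ} : InS j ι κ u N (fun _ : Fin b => (0 : U)) :=
  ⟨0, fun i => i.elim0, fun i => i.elim0, fun i => i.elim0, fun i => i.elim0, fun t => by simp⟩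

theorem insSum_h2 {Γ : Type} [Group Γ] {R' R U D : Type} [Ring R'] [Ring R] [Ring U]
    [DivisionRing D] (j : R' →+* R) (ι : R →+* U) (κ : D →+* U) (u : Γ →* Dˣ)
    (N : Subgroup Γ) {b : ℕ} (v w : Fin b → U) (hv : InS j ι κ u N v) (hw : InS j ι κ u N w) :
    InS j ι κ u N (fun t => v t + w t) := by
  obtain ⟨m1, c1, y1, h1, h2, h3⟩ := hv
  obtain ⟨m2, c2, y2, k1, k2, k3⟩ := hw
  refine ⟨m1 + m2, Fin.append c1 c2, Fin.append y1 y2, ?_, ?_, ?_⟩
  · intro i
    refine Fin.addCases (fun i => ?_) (fun i => ?_) i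
    · rw [Fin.append_left]; exact h1 i
    · rw [Fin.append_right]; exact k1 i
  · intro i
    refine Fin.addCases (fun i => ?_) (fun i => ?_) i
    · rw [Fin.append_left]; exact h2 i
    · rw [Fin.append_right]; exact k2 i
  · intro t
    rw [Fin.sum_univ_add]
    simp only [Fin.append_left, Fin.append_right]
    rw [h3 t, k3 t]

theorem insSum {Γ : Type} [Group Γ] {R' R U D : Type} [Ring R'] [StarRing R'] [Ring R] [Ring U]
    [DivisionRing D] {τ' : R' →+ ℝ} {j : R' →+* R} {ι : R →+* U} {κ : D →+* U} {u : Γ →* Dˣ}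
    {lam : Γ →* R} {N : Subgroup Γ} (S : Setup τ' j ι κ u lam N) {b : ℕ} {n : Type} [Fintype n] (v : n → Fin b → U)
    (hv : ∀ i, InS j ι κ u N (v i)) : InS j ι κ u N (fun t => ∑ i, v i t) := by
  
  classical
  have key : ∀ s : Finset n, InS j ι κ u N (fun t => ∑ i ∈ s, v i t) := by
    intro s
    induction s using Finset.induction_on with
    | empty =>
      simp only [Finset.sum_empty]
      exact insSum_h1 j ι κ u N
    | insert a s ha ih =>
      simp only [Finset.sum_insert ha]
      exact insSum_h2 j ι κ u N _ _ (hv a) ih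
  exact key Finset.univ

end V6
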