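import Pool.Agent.H7.L.Helper831_V6_Defs
import Pool.Agent.H7.L.Helper831_V6_P_snFin
import Pool.Agent.H7.L.Helper831_V6_Un

attribute [local instance] VN831.bcFunctor_additive VN831.viaAdd VN831.viaMod

set_option autoImplicit false

namespace V6

open Pool.Agent.RK TN970 VN831


theorem insDenom {Γ : Type} [Group Γ] {R' R U D : Type} [Ring R'] [StarRing R'] [Ring R] [Ring U]
    [DivisionRing D] {τ' : R' →+ ℝ} {j : R' →+* R} {ι : R →+* U} {κ : D →+* U} {u : Γ →* Dˣ}
    {lam : Γ →* R} {N : Subgroup Γ} (S : Setup τ' j ι κ u lam N) {n : Type} [Finite n] {a : ℕ} (w : n → Fin a → U)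
    (hw : ∀ q, InS j ι κ u N (w q)) :
    ∃ (s : R') (w' : n → Fin a → R), Nz s ∧ (∀ q i, (show Via j from w' q i) ∈ SR j lam) ∧
      ∀ q i, ι (j s) * w q i = ι (w' q i) := by
  classical
  choose m c y hc hy hv using hw
  obtain ⟨s, k, -, hk⟩ := snFin u N (n := (Σ q : n, Fin (m q)) × Fin a)
    (fun i => y i.1.1 i.1.2 i.2) (fun i => hy _ _ _)
  have hk' : ∀ (q : n) (l : Fin (m q)) (t : Fin a), y q l t =
      ∑ g ∈ s, ((k (⟨q, l⟩, t) g : Dc u N) : D) * ((u g : Dˣ) : D) := fun q l t => hk (⟨q, l⟩, t)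
  obtain ⟨s0, x, hs0, hx⟩ := unCommon S (n := n × Fin a × s)
    (fun i => ∑ l : Fin (m i.1), c i.1 l * κ ((k (⟨i.1, l⟩, i.2.1) i.2.2.1 : Dc u N) : D))
    (fun i => unSum S Finset.univ _ (fun l _ => unMul S _ _ (hc i.1 l) (unK S _)))
  have hx' : ∀ (q : n) (t : Fin a) (g : s), ι (j s0) *
      (∑ l : Fin (m q), c q l * κ ((k (⟨q, l⟩, t) g.1 : Dc u N) : D)) = ι (j (x (q, t, g))) :=
    fun q t g => hx (q, t, g)
  refine ⟨s0, fun q t => ∑ g : s, j (x (q, t, g)) * lam g.1, hs0, ?_, ?_⟩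
  · intro q t
    have h1 : (∑ g : s, (x (q, t, g)) • (show Via j from lam g.1)) ∈ SR j lam :=
      Submodule.sum_mem _ (fun g _ => Submodule.smul_mem _ _ (Submodule.subset_span ⟨g.1, rfl⟩))
    exact h1
  · intro q t
    have h2 : w q t = ∑ g : s, (∑ l : Fin (m q), c q l * κ ((k (⟨q, l⟩, t) g.1 : Dc u N) : D)) * ι (lam g.1) := by
      rw [hv q t]
      have h3 : ∀ l : Fin (m q), c q l * κ (y q l t) =
          ∑ g : s, c q l * κ ((k (⟨q, l⟩, t) g.1 : Dc u N) : D) * ι (lam g.1) := by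
        intro l
        rw [hk' q l t, map_sum, Finset.mul_sum,
          ← Finset.sum_coe_sort s (fun g => c q l * κ (((k (⟨q, l⟩, t) g : Dc u N) : D) * ((u g : Dˣ) : D)))]
        apply Finset.sum_congr rfl
        intro g _
        rw [map_mul, S.hu, mul_assoc]
      rw [Finset.sum_congr rfl (fun l _ => h3 l), Finset.sum_comm]
      apply Finset.sum_congr rfl
      intro g _
      rw [Finset.sum_mul]
    rw [h2, Finset.mul_sum, map_sum]
    apply Finset.sum_congr rfl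
    intro g _
    rw [← mul_assoc, hx' q t g, map_mul]

end V6
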