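import Pool.Agent.H7.L.Helper970_TN_Defs



namespace TN970
open scoped Classical


theorem conj_Dc {Γ : Type} [Group Γ] {D : Type} [DivisionRing D] (u : Γ →* Dˣ)
    (L : Subgroup Γ) (hL : L.Normal) (g : Γ) (d : D) (hd : d ∈ Dc u L) :
    ((u g : Dˣ) : D) * d * ((u g⁻¹ : Dˣ) : D) ∈ Dc u L := by
  have hc : ((u g⁻¹ : Dˣ) : D) = ((u g : Dˣ) : D)⁻¹ := by
    rw [map_inv, Units.val_inv_eq_inv_val]
  have hne : ((u g : Dˣ) : D) ≠ 0 := (u g).ne_zero
  rw [hc]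
  obtain ⟨c, hcd⟩ : ∃ c : D, c = ((u g : Dˣ) : D) := ⟨_, rfl⟩
  rw [← hcd] at hne ⊢
  have h1 : c⁻¹ * c = 1 := inv_mul_cancel₀ hne
  have h2 : c * c⁻¹ = 1 := mul_inv_cancel₀ hne
  have hd' : d ∈ Subfield.closure {x : D | ∃ g ∈ L, x = ((u g : Dˣ) : D)} := hd
  show c * d * c⁻¹ ∈ Dc u L
  induction hd' using Subfield.closure_induction with
  | mem x hx =>
    obtain ⟨l, hl, rfl⟩ := hx
    apply Subfield.subset_closure
    refine ⟨g * l * g⁻¹, hL.conj_mem l hl g, ?_⟩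
    rw [map_mul, map_mul, Units.val_mul, Units.val_mul, hc, hcd]
  | one =>
    rw [mul_one, h2]
    exact one_mem _
  | add x y hx hy ihx ihy =>
    rw [mul_add, add_mul]
    exact add_mem (ihx hx) (ihy hy)
  | neg x hx ihx =>
    rw [mul_neg, neg_mul]
    exact neg_mem (ihx hx)
  | inv x hx ihx =>
    have h3 : c * x⁻¹ * c⁻¹ = (c * x * c⁻¹)⁻¹ := by
      rw [mul_inv_rev, mul_inv_rev, inv_inv, mul_assoc]
    rw [h3]
    exact inv_mem (ihx hx)
  | mul x y hx hy ihx ihy =>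
    have h3 : c * (x * y) * c⁻¹ = (c * x * c⁻¹) * (c * y * c⁻¹) := by
      calc c * (x * y) * c⁻¹ = c * x * 1 * y * c⁻¹ := by rw [mul_one]; simp only [mul_assoc]
        _ = c * x * (c⁻¹ * c) * y * c⁻¹ := by rw [h1]
        _ = _ := by simp only [mul_assoc]
    rw [h3]
    exact mul_mem (ihx hx) (ihy hy)

end TN970
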