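import Pool.Agent.H7.L.Helper970_TN_Defs



namespace TN970
open scoped Classical

theorem eval_surj_fg (Γ : Type) [Group Γ] [Group.FG Γ] :
    Module.Finite ℤ (Additive (Abelianization Γ)) := by
  haveI : Group.FG (Abelianization Γ) :=
    Group.fg_of_surjective (f := (Abelianization.of : Γ →* Abelianization Γ))
      (QuotientGroup.mk_surjective)
  infer_instance

/-- the linear map on the abelianization -/
noncomputable def eval_surj_tl {Γ : Type} [Group Γ] (φ : Γ →* Multiplicative ℤ) :
    Additive (Abelianization Γ) →ₗ[ℤ] ℤ :=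
  (MonoidHom.toAdditiveLeft (Abelianization.lift φ)).toIntLinearMap

theorem eval_surj_tl_apply {Γ : Type} [Group Γ] (φ : Γ →* Multiplicative ℤ) (g : Γ) :
    eval_surj_tl φ (Additive.ofMul (Abelianization.of g)) = Multiplicative.toAdd (φ g) := by
  rfl

theorem eval_surj_tor {Γ : Type} [Group Γ] (φ : Γ →* Multiplicative ℤ) :
    Submodule.torsion ℤ (Additive (Abelianization Γ)) ≤ LinearMap.ker (eval_surj_tl φ) := by
  intro x hx
  rw [Submodule.mem_torsion_iff] at hx
  obtain ⟨a, ha⟩ := hx
  rw [LinearMap.mem_ker]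
  have h1 : eval_surj_tl φ ((a : ℤ) • x) = 0 := by
    have : (a : ℤ) • x = a • x := rfl
    rw [this, ha, map_zero]
  rw [map_smul, smul_eq_mul] at h1
  rcases mul_eq_zero.1 h1 with h2 | h2
  · exact absurd h2 (nonZeroDivisors.coe_ne_zero a)
  · exact h2

/-- the homomorphism to `ℤ` from a functional -/
noncomputable def eval_surj_fw {Γ : Type} [Group Γ] :
    (((Additive (Abelianization Γ)) ⧸ Submodule.torsion ℤ (Additive (Abelianization Γ))) →ₗ[ℤ] ℤ)
      →+ Additive (Γ →* Multiplicative ℤ) where
  toFun ψ := Additive.ofMul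
    { toFun := fun g => Multiplicative.ofAdd (ψ (Submodule.Quotient.mk
        (Additive.ofMul (Abelianization.of g))))
      map_one' := by
        rw [map_one, ofMul_one, Submodule.Quotient.mk_zero, map_zero, ofAdd_zero]
      map_mul' := by
        intro g h
        rw [map_mul, ofMul_mul, Submodule.Quotient.mk_add, map_add, ofAdd_add] }
  map_zero' := rfl
  map_add' := by
    intro ψ χ
    rfl

theorem eval_surj {Γ : Type} [Group Γ] [Group.FG Γ]
    (f : Additive (Γ →* Multiplicative ℤ) →+ ℤ) :
    ∃ g : Γ, ∀ φ : Γ →* Multiplicative ℤ, f (Additive.ofMul φ) = Multiplicative.toAdd (φ g) := by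
  haveI := eval_surj_fg Γ
  haveI hfree : Module.Free ℤ ((Additive (Abelianization Γ)) ⧸
      Submodule.torsion ℤ (Additive (Abelianization Γ))) := inferInstance
  haveI hfin : Module.Finite ℤ ((Additive (Abelianization Γ)) ⧸
      Submodule.torsion ℤ (Additive (Abelianization Γ))) := inferInstance
  obtain ⟨m', hm'⟩ := (Module.evalEquiv ℤ ((Additive (Abelianization Γ)) ⧸
      Submodule.torsion ℤ (Additive (Abelianization Γ)))).surjective
        ((f.comp eval_surj_fw).toIntLinearMap)
  obtain ⟨m, rfl⟩ := Submodule.Quotient.mk_surjective _ m'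
  obtain ⟨g, hg⟩ := QuotientGroup.mk_surjective (Additive.toMul m)
  refine ⟨g, fun φ => ?_⟩
  have h1 := congrArg (fun F => F (Submodule.liftQ _ (eval_surj_tl φ) (eval_surj_tor φ))) hm'
  have h2 : (f.comp eval_surj_fw).toIntLinearMap
      (Submodule.liftQ _ (eval_surj_tl φ) (eval_surj_tor φ)) = f (Additive.ofMul φ) := by
    show f (eval_surj_fw (Submodule.liftQ _ (eval_surj_tl φ) (eval_surj_tor φ))) = _
    congr 1
  rw [← h2]
  refine h1.symm.trans ?_
  show (Module.Dual.eval ℤ _ (Submodule.Quotient.mk m)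
    (Submodule.liftQ _ (eval_surj_tl φ) (eval_surj_tor φ))) = _
  rw [Module.Dual.eval_apply, Submodule.liftQ_apply]
  have h3 : m = Additive.ofMul (Abelianization.of g) := by
    rw [← ofMul_toMul m]
    exact congrArg Additive.ofMul hg.symm
  rw [h3]
  rfl

end TN970
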