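import Pool.Agent.H7.L.Helper970_TN_Defs



namespace TN970
open scoped Classical


theorem fg_hom {Γ : Type} [Group Γ] [Group.FG Γ] :
    ∃ s : Finset (Additive (Γ →* Multiplicative ℤ)),
      AddSubgroup.closure (s : Set (Additive (Γ →* Multiplicative ℤ))) = ⊤ := by
  obtain ⟨t, ht⟩ := (Group.FG.out : (⊤ : Subgroup Γ).FG)
  let Φ : Additive (Γ →* Multiplicative ℤ) →+ (t → ℤ) :=
    { toFun := fun φ g => Multiplicative.toAdd ((Additive.toMul φ) (g : Γ))
      map_zero' := by
        funext g
        rfl
      map_add' := by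
        intro φ ψ
        funext g
        rfl }
  have hinj : Function.Injective Φ.toIntLinearMap := by
    intro φ ψ h
    have h1 : Set.EqOn (⇑(Additive.toMul φ : Γ →* Multiplicative ℤ))
        (⇑(Additive.toMul ψ : Γ →* Multiplicative ℤ)) (t : Set Γ) := by
      intro g hg
      have h2 := congrFun h ⟨g, hg⟩
      exact h2
    have h3 : Additive.toMul φ = Additive.toMul ψ := MonoidHom.eq_of_eqOn_dense ht h1
    exact h3
  have hfin : Module.Finite ℤ (Additive (Γ →* Multiplicative ℤ)) :=
    Module.Finite.of_injective Φ.toIntLinearMap hinj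
  have hfg : AddGroup.FG (Additive (Γ →* Multiplicative ℤ)) :=
    Module.Finite.iff_addGroup_fg.1 hfin
  exact hfg.out

end TN970
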