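import Pool.Agent.H7.L.Helper970_TN_Defs



namespace TN970
open scoped Classical


theorem linF_tmul {Γ : Type} [Group Γ] (φ : Γ →* Multiplicative ℤ) (r : ℝ) (g : Γ) :
    linF φ (TensorProduct.tmul ℤ r (Additive.ofMul (Abelianization.of g))) =
      r * ((Multiplicative.toAdd (φ g) : ℤ) : ℝ) := by
  have h1 : (MonoidHom.toAdditiveLeft (Abelianization.lift φ)).toIntLinearMap
      (Additive.ofMul (Abelianization.of g)) = Multiplicative.toAdd (φ g) := by
    simp
  unfold linF
  rw [LinearMap.comp_apply, LinearMap.baseChange_tmul, h1]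
  show (TensorProduct.AlgebraTensorModule.rid ℤ ℝ ℝ)
    (TensorProduct.tmul ℤ r (Multiplicative.toAdd (φ g) : ℤ)) = _
  rw [TensorProduct.AlgebraTensorModule.rid_tmul, zsmul_eq_mul, mul_comm]

end TN970
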