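import Pool.Agent.H7.L.Helper970_TN_Defs
import Pool.Agent.H7.L.Helper970_TN_P_deriv_lemma



namespace TN970
open scoped Classical


theorem norming_q0 {V : Type} [AddCommGroup V] (p : V → ℤ)
    (hadd : ∀ x y, p (x + y) ≤ p x + p y) (hmul : ∀ (k : ℕ) (x : V), p (k • x) = k * p x) (z : V) :
    0 ≤ p z + p (-z) := by
  have h0 : p 0 = 0 := by
    have := hmul 0 0
    rw [zero_smul, Nat.cast_zero, zero_mul] at this
    exact this
  have := hadd z (-z)
  rw [add_neg_cancel, h0] at this
  exact this

theorem norming_list {V : Type} [AddCommGroup V] (l : List V) : ∀ (p : V → ℤ)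
    (_ : ∀ x y, p (x + y) ≤ p x + p y) (_ : ∀ (k : ℕ) (x : V), p (k • x) = k * p x),
    ∃ q : V → ℤ, (∀ x y, q (x + y) ≤ q x + q y) ∧ (∀ (k : ℕ) (x : V), q (k • x) = k * q x) ∧
      (∀ x, q x ≤ p x) ∧ ∀ z ∈ l, q z + q (-z) = 0 := by
  induction l with
  | nil =>
    intro p hadd hmul
    exact ⟨p, hadd, hmul, fun _ => le_refl _, fun z hz => absurd hz (by simp)⟩
  | cons w l ih =>
    intro p hadd hmul
    obtain ⟨p', h1, h2, h3, h4, h5⟩ := deriv_lemma p hadd hmul w
    obtain ⟨q, g1, g2, g3, g4⟩ := ih p' h1 h2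
    refine ⟨q, g1, g2, fun x => (g3 x).trans (h3 x), ?_⟩
    intro z hz
    rcases List.mem_cons.1 hz with hz | hz
    · rw [hz]
      have a1 := g3 w
      have a2 := g3 (-w)
      have a3 := norming_q0 q g1 g2 w
      omega
    · exact g4 z hz

theorem norming {V : Type} [AddCommGroup V] (s : Finset V) (hs : AddSubgroup.closure (s : Set V) = ⊤)
    (p : V → ℤ) (hadd : ∀ x y, p (x + y) ≤ p x + p y)
    (hmul : ∀ (k : ℕ) (x : V), p (k • x) = k * p x) (x : V) :
    ∃ a : V →+ ℤ, (∀ y, a y ≤ p y) ∧ a x = p x := by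
  obtain ⟨p', h1, h2, h3, h4, h5⟩ := deriv_lemma p hadd hmul x
  obtain ⟨q, g1, g2, g3, g4⟩ := norming_list s.toList p' h1 h2
  have hnn := norming_q0 q g1 g2
  have hqx : q x = p x := by
    have a1 := g3 x
    have a2 := g3 (-x)
    have a3 := hnn x
    omega
  have h0 : q 0 = 0 := by
    have := g2 0 0
    rw [zero_smul, Nat.cast_zero, zero_mul] at this
    exact this
  let H : AddSubgroup V :=
    { carrier := {z | q z + q (-z) = 0}
      add_mem' := by
        intro z w hz hw
        change q z + q (-z) = 0 at hz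
        change q w + q (-w) = 0 at hw
        change q (z + w) + q (-(z + w)) = 0
        have a1 := g1 z w
        have a2 := g1 (-z) (-w)
        rw [← neg_add] at a2
        have a3 := hnn (z + w)
        omega
      zero_mem' := by
        change q 0 + q (-0) = 0
        rw [neg_zero, h0, add_zero]
      neg_mem' := by
        intro z hz
        change q z + q (-z) = 0 at hz
        change q (-z) + q (- -z) = 0
        rw [neg_neg]
        omega }
  have hH : H = ⊤ := by
    rw [← top_le_iff, ← hs, AddSubgroup.closure_le]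
    intro z hz
    exact g4 z (Finset.mem_toList.2 hz)
  have hneg : ∀ z, q z + q (-z) = 0 := by
    intro z
    have : z ∈ H := by
      rw [hH]
      exact AddSubgroup.mem_top z
    exact this
  refine ⟨⟨⟨q, h0⟩, ?_⟩, fun y => (g3 y).trans (h3 y), hqx⟩
  intro y z
  change q (y + z) = q y + q z
  have a1 := g1 y z
  have a2 := g1 (y + z) (-z)
  rw [add_neg_cancel_right] at a2
  have a3 := hneg z
  omega

end TN970
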