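import Pool.Agent.H7.L.Helper970_TN_Defs
import Pool.Agent.H7.L.Helper970_TN_P_conj_Dc
import Pool.Agent.H7.L.Helper970_TN_P_RN_mul
import Pool.Agent.H7.L.Helper970_TN_P_growth



namespace TN970
open scoped Classical


theorem card_image_inst {α β : Type} (i1 i2 : DecidableEq β) (f : α → β) (s : Finset α) :
    (@Finset.image α β i1 f s).card = (@Finset.image α β i2 f s).card := by
  rw [Subsingleton.elim i1 i2]

theorem ore_rep {Γ : Type} [Group Γ] {D : Type} [DivisionRing D] (u : Γ →* Dˣ)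
    (L : Subgroup Γ) (n m : Γ) (h : n * m⁻¹ ∈ L) :
    ((u n : Dˣ) : D) ∈ Submodule.span (Dc u L) {((u m : Dˣ) : D)} := by
  have hk : ((u (n * m⁻¹) : Dˣ) : D) ∈ Dc u L := Subfield.subset_closure ⟨_, h, rfl⟩
  refine Submodule.mem_span_singleton.2 ⟨⟨_, hk⟩, ?_⟩
  change ((u (n * m⁻¹) : Dˣ) : D) * ((u m : Dˣ) : D) = _
  rw [← Units.val_mul, ← map_mul, inv_mul_cancel_right]

theorem ore_shift {Γ : Type} [Group Γ] {D : Type} [DivisionRing D] (u : Γ →* Dˣ)
    (L : Subgroup Γ) (hL : L.Normal) (g : Γ) (A B : Set D)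
    (hAB : ∀ x ∈ A, ((u g : Dˣ) : D) * x ∈ Submodule.span (Dc u L) B) (v : D)
    (hv : v ∈ Submodule.span (Dc u L) A) :
    ((u g : Dˣ) : D) * v ∈ Submodule.span (Dc u L) B := by
  induction hv using Submodule.span_induction with
  | mem x hx => exact hAB x hx
  | zero => rw [mul_zero]; exact Submodule.zero_mem _
  | add x y _ _ hx hy => rw [mul_add]; exact Submodule.add_mem _ hx hy
  | smul k x _ hx =>
    have hk := conj_Dc u L hL g (k : D) k.2
    have e : ((u g : Dˣ) : D) * (k • x) =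
        (⟨_, hk⟩ : Dc u L) • (((u g : Dˣ) : D) * x) := by
      change ((u g : Dˣ) : D) * ((k : D) * x) =
        ((u g : Dˣ) : D) * (k : D) * ((u g⁻¹ : Dˣ) : D) * (((u g : Dˣ) : D) * x)
      have h1 : ((u g⁻¹ : Dˣ) : D) * ((u g : Dˣ) : D) = 1 := by
        rw [← Units.val_mul, ← map_mul, inv_mul_cancel, map_one, Units.val_one]
      rw [mul_assoc (((u g : Dˣ) : D) * (k : D)), ← mul_assoc ((u g⁻¹ : Dˣ) : D), h1, one_mul,
        mul_assoc]
    rw [e]
    exact Submodule.smul_mem _ _ hx

theorem ore {Γ : Type} [Group Γ] {D : Type} [DivisionRing D] (u : Γ →* Dˣ) (hu : Linnell u)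
    (L N : Subgroup Γ) (hL : L.Normal) (hLN : L ≤ N)
    (hab : ∀ x ∈ N, ∀ y ∈ N, x * y * x⁻¹ * y⁻¹ ∈ L)
    (a c : D) (ha : a ∈ RN u L N) (hc : c ∈ RN u L N) (ha0 : a ≠ 0) :
    ∃ a' ∈ RN u L N, ∃ c' ∈ RN u L N, a' ≠ 0 ∧ a' * c = c' * a := by
  haveI hn : (L.subgroupOf N).Normal := hL.subgroupOf N
  let Q : Type := ↥N ⧸ L.subgroupOf N
  letI : CommGroup Q :=
    { (inferInstance : Group (↥N ⧸ L.subgroupOf N)) with
      mul_comm := by
        intro p q
        induction p using QuotientGroup.induction_on with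
        | H x =>
        induction q using QuotientGroup.induction_on with
        | H y =>
        change ((x * y : ↥N) : ↥N ⧸ L.subgroupOf N) = ((y * x : ↥N) : ↥N ⧸ L.subgroupOf N)
        refine QuotientGroup.eq.2 ?_
        rw [Subgroup.mem_subgroupOf]
        have := hab (y⁻¹ : Γ) (N.inv_mem y.2) (x⁻¹ : Γ) (N.inv_mem x.2)
        simpa [mul_assoc] using this }
  let rep : Q → Γ := fun x => ((Quotient.out x : ↥N) : Γ)
  have hrepN : ∀ x, rep x ∈ N := fun x => (Quotient.out x : ↥N).2
  have hmk : ∀ x : Q, ((Quotient.out x : ↥N) : ↥N ⧸ L.subgroupOf N) = x := fun x =>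
    QuotientGroup.out_eq' x
  -- elements of the same class differ by `L`
  have hcl : ∀ (n m : ↥N), ((n : ↥N) : ↥N ⧸ L.subgroupOf N) = m → (n : Γ) * (m : Γ)⁻¹ ∈ L := by
    intro n m h
    have h1 : ((m * n⁻¹ : ↥N) : ↥N ⧸ L.subgroupOf N) = 1 := by
      rw [QuotientGroup.mk_mul, QuotientGroup.mk_inv, h, mul_inv_cancel]
    have h2 := (QuotientGroup.eq_one_iff _).1 h1
    rw [Subgroup.mem_subgroupOf] at h2
    have h3 := L.inv_mem h2
    simpa using h3
  have hcl' : ∀ x y : Q, rep x * (rep y)⁻¹ ∈ L → x = y := by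
    intro x y h
    have h1 : (((Quotient.out x : ↥N) * (Quotient.out y : ↥N)⁻¹ : ↥N) : ↥N ⧸ L.subgroupOf N)
        = 1 := by
      rw [QuotientGroup.eq_one_iff, Subgroup.mem_subgroupOf]
      exact h
    rw [QuotientGroup.mk_mul, QuotientGroup.mk_inv, hmk, hmk] at h1
    exact mul_inv_eq_one.1 h1
  let ub : Q → D := fun x => ((u (rep x) : Dˣ) : D)
  -- finite supports
  have hsupp : ∀ v ∈ RN u L N, ∃ F : Finset Q, v ∈ Submodule.span (Dc u L) (ub '' (F : Set Q)) := by
    intro v hv
    unfold RN at hv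
    induction hv using Submodule.span_induction with
    | mem x hx =>
      obtain ⟨g, hg, rfl⟩ := hx
      refine ⟨{((⟨g, hg⟩ : ↥N) : ↥N ⧸ L.subgroupOf N)}, ?_⟩
      have h := ore_rep u L g (rep ((⟨g, hg⟩ : ↥N) : ↥N ⧸ L.subgroupOf N))
        (hcl ⟨g, hg⟩ _ (hmk _).symm)
      simpa [ub] using h
    | zero => exact ⟨∅, Submodule.zero_mem _⟩
    | add x y _ _ hx hy =>
      obtain ⟨F, hF⟩ := hx
      obtain ⟨F', hF'⟩ := hy
      refine ⟨F ∪ F', Submodule.add_mem _ ?_ ?_⟩
      · exact Submodule.span_mono (Set.image_mono (by simp)) hF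
      · exact Submodule.span_mono (Set.image_mono (by simp)) hF'
    | smul k x _ hx =>
      obtain ⟨F, hF⟩ := hx
      exact ⟨F, Submodule.smul_mem _ _ hF⟩
  obtain ⟨Fa, hFa⟩ := hsupp a ha
  obtain ⟨Fc, hFc⟩ := hsupp c hc
  obtain ⟨E, hE, hcard⟩ := growth (Fa ∪ Fc)
  set S : Finset Q := Finset.image (fun p : Q × Q => p.1 * p.2) (E ×ˢ (Fa ∪ Fc)) with hS
  have hFa' : a ∈ Submodule.span (Dc u L) (ub '' ((Fa ∪ Fc : Finset Q) : Set Q)) :=
    Submodule.span_mono (Set.image_mono (by simp)) hFa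
  have hFc' : c ∈ Submodule.span (Dc u L) (ub '' ((Fa ∪ Fc : Finset Q) : Set Q)) :=
    Submodule.span_mono (Set.image_mono (by simp)) hFc
  have hmulS : ∀ e ∈ E, ∀ v ∈ Submodule.span (Dc u L) (ub '' ((Fa ∪ Fc : Finset Q) : Set Q)),
      ub e * v ∈ Submodule.span (Dc u L) (ub '' (S : Set Q)) := by
    intro e he v hv
    refine ore_shift u L hL (rep e) _ _ ?_ v hv
    rintro _ ⟨f, hf, rfl⟩
    have hmem : e * f ∈ S := Finset.mem_image.2 ⟨(e, f), Finset.mem_product.2 ⟨he, by
      simpa using hf⟩, rfl⟩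
    have h1 : ((u (rep e) : Dˣ) : D) * ub f = ((u (rep e * rep f) : Dˣ) : D) := by
      rw [map_mul, Units.val_mul]
    rw [h1]
    have h2 := ore_rep u L (rep e * rep f) (rep (e * f))
      (hcl (Quotient.out e * Quotient.out f) (Quotient.out (e * f)) (by
        rw [QuotientGroup.mk_mul, hmk, hmk, hmk]))
    refine Submodule.span_mono ?_ h2
    rintro _ rfl
    exact ⟨e * f, hmem, rfl⟩
  -- dimension count
  let V : Submodule (Dc u L) D := Submodule.span (Dc u L) (ub '' (S : Set Q))
  haveI : FiniteDimensional (Dc u L) V :=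
    FiniteDimensional.span_of_finite _ (S.finite_toSet.image ub)
  have hrank : Module.finrank (Dc u L) V ≤ S.card := by
    have h1 : V = Submodule.span (Dc u L) ((S.image ub : Finset D) : Set D) := by
      simp [V]
    rw [h1]
    exact (finrank_span_finset_le_card _).trans Finset.card_image_le
  let w : E × Bool → V := fun p =>
    ⟨ub p.1 * (if p.2 then a else c), hmulS p.1 p.1.2 _ (by split_ifs; exacts [hFa', hFc'])⟩
  have hdep : ¬ LinearIndependent (Dc u L) w := by
    intro hli
    have := hli.fintype_card_le_finrank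
    have hcard' : S.card < 2 * E.card := lt_of_eq_of_lt (card_image_inst _ _ _ _) hcard
    rw [Fintype.card_prod, Fintype.card_coe, Fintype.card_bool] at this
    omega
  rw [Fintype.not_linearIndependent_iff] at hdep
  obtain ⟨k, hk0, i₀, hi₀⟩ := hdep
  have hsum : ∑ e : E, ((k (e, false) : D) * (ub e * c)) + ∑ e : E, ((k (e, true) : D) * (ub e * a))
      = 0 := by
    have h1 := congrArg (fun z : V => (z : D)) hk0
    simp only [Submodule.coe_sum, Submodule.coe_smul, Submodule.coe_zero, w] at h1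
    rw [Fintype.sum_prod_type] at h1
    simp only [Fintype.sum_bool, if_true] at h1
    rw [Finset.sum_add_distrib] at h1
    rw [add_comm]
    have hsm : ∀ (t : Dc u L) (x : D), t • x = (t : D) * x := fun _ _ => rfl
    simpa [hsm] using h1
  have hlin : LinearIndependent (Dc u L) (fun e : E => ub e) := by
    have hinj : Function.Injective rep := by
      intro x y hxy
      refine hcl' x y ?_
      rw [hxy, mul_inv_cancel]
      exact L.one_mem
    have h1 := hu L hL (E.image rep) (by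
      intro g hg h hh hne hgh
      obtain ⟨x, _, rfl⟩ := Finset.mem_image.1 hg
      obtain ⟨y, _, rfl⟩ := Finset.mem_image.1 hh
      exact hne (congrArg rep (hcl' x y hgh)))
    exact h1.comp (fun e : E => ⟨rep e, Finset.mem_image_of_mem _ e.2⟩) (by
      intro x y hxy
      exact Subtype.ext (hinj (Subtype.mk.inj hxy)))
  have hubRN : ∀ x : Q, ub x ∈ RN u L N := fun x => Submodule.subset_span ⟨rep x, hrepN x, rfl⟩
  refine ⟨∑ e : E, k (e, false) • ub e, Submodule.sum_mem _ fun e _ =>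
    Submodule.smul_mem _ _ (hubRN e), -∑ e : E, k (e, true) • ub e, Submodule.neg_mem _
    (Submodule.sum_mem _ fun e _ => Submodule.smul_mem _ _ (hubRN e)), ?_, ?_⟩
  · intro h0
    have hx : ∀ e : E, k (e, false) = 0 := Fintype.linearIndependent_iff.1 hlin _ h0
    have h2 : (∑ e : E, k (e, true) • ub e) * a = 0 := by
      rw [Finset.sum_mul]
      have : ∑ e : E, ((k (e, false) : D) * (ub e * c)) = 0 :=
        Finset.sum_eq_zero fun e _ => by rw [hx e]; simp
      rw [this, zero_add] at hsum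
      rw [← hsum]
      exact Finset.sum_congr rfl fun e _ => by
        change (k (e, true) : D) * ub e * a = _
        rw [mul_assoc]
    have h3 : ∑ e : E, k (e, true) • ub e = 0 := (mul_eq_zero.1 h2).resolve_right ha0
    have hy : ∀ e : E, k (e, true) = 0 := Fintype.linearIndependent_iff.1 hlin _ h3
    apply hi₀
    obtain ⟨e, b⟩ := i₀
    cases b
    · exact hx e
    · exact hy e
  · rw [Finset.sum_mul, neg_mul, Finset.sum_mul]
    have e1 : ∀ e : E, (k (e, false) • ub e) * c = (k (e, false) : D) * (ub e * c) := fun e => by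
      change (k (e, false) : D) * ub e * c = _
      rw [mul_assoc]
    have e2 : ∀ e : E, (k (e, true) • ub e) * a = (k (e, true) : D) * (ub e * a) := fun e => by
      change (k (e, true) : D) * ub e * a = _
      rw [mul_assoc]
    simp only [e1, e2]
    exact eq_neg_of_add_eq_zero_left hsum

end TN970
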