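import Pool.Agent.H7.L.Helper970_TN_Defs
import Pool.Agent.H7.L.Helper970_TN_P_conj_Dc
import Pool.Agent.H7.L.Helper970_TN_P_RN_mul
import Pool.Agent.H7.L.Helper970_TN_P_frac_fam



namespace TN970
open scoped Classical


theorem ind_up_mono {Γ : Type} [Group Γ] {D : Type} [DivisionRing D] (u : Γ →* Dˣ)
    {L N : Subgroup Γ} (h : L ≤ N) : Dc u L ≤ Dc u N := by
  apply Subfield.closure_mono
  rintro x ⟨g, hg, rfl⟩
  exact ⟨g, h hg, rfl⟩

theorem ind_up_SN_mono {Γ : Type} [Group Γ] {D : Type} [DivisionRing D] (u : Γ →* Dˣ)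
    {L N : Subgroup Γ} (h : L ≤ N) {y : D} (hy : y ∈ SN u L) : y ∈ SN u N := by
  unfold SN at hy
  induction hy using Submodule.span_induction with
  | mem x hx => exact Submodule.subset_span hx
  | zero => exact Submodule.zero_mem _
  | add x y _ _ hx hy => exact Submodule.add_mem _ hx hy
  | smul a x _ hx =>
    have e : a • x = (⟨a.1, ind_up_mono u h a.2⟩ : Dc u N) • x := rfl
    rw [e]
    exact Submodule.smul_mem _ _ hx

theorem ind_up_SN_umul {Γ : Type} [Group Γ] {D : Type} [DivisionRing D] (u : Γ →* Dˣ)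
    {L : Subgroup Γ} (hL : L.Normal) (g : Γ) {y : D} (hy : y ∈ SN u L) :
    ((u g : Dˣ) : D) * y ∈ SN u L := by
  unfold SN at hy
  induction hy using Submodule.span_induction with
  | mem x hx =>
    obtain ⟨h, rfl⟩ := hx
    apply Submodule.subset_span
    refine ⟨g * h, ?_⟩
    simp only [map_mul, Units.val_mul]
  | zero =>
    rw [mul_zero]
    exact Submodule.zero_mem _
  | add x y _ _ hx hy =>
    rw [mul_add]
    exact Submodule.add_mem _ hx hy
  | smul a x _ hx =>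
    have e : ((u g : Dˣ) : D) * (a • x) =
        (⟨((u g : Dˣ) : D) * a.1 * ((u g⁻¹ : Dˣ) : D), conj_Dc u L hL g a.1 a.2⟩ : Dc u L) •
          (((u g : Dˣ) : D) * x) := by
      show ((u g : Dˣ) : D) * (a.1 * x) =
        (((u g : Dˣ) : D) * a.1 * ((u g⁻¹ : Dˣ) : D)) * (((u g : Dˣ) : D) * x)
      have e1 : ((u g⁻¹ : Dˣ) : D) * ((u g : Dˣ) : D) = 1 := by
        rw [← Units.val_mul, ← map_mul, inv_mul_cancel, map_one, Units.val_one]
      calc ((u g : Dˣ) : D) * (a.1 * x)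
          = ((u g : Dˣ) : D) * a.1 * 1 * x := by rw [mul_one, mul_assoc]
        _ = ((u g : Dˣ) : D) * a.1 * (((u g⁻¹ : Dˣ) : D) * ((u g : Dˣ) : D)) * x := by rw [e1]
        _ = _ := by simp only [mul_assoc]
    rw [e]
    exact Submodule.smul_mem _ _ hx

theorem ind_up_RN {Γ : Type} [Group Γ] {D : Type} [DivisionRing D] (u : Γ →* Dˣ)
    (π : Γ →* Multiplicative (ℤ × ℤ)) (N : Subgroup Γ) (x : Γ)
    (hx : ∀ g : Γ, g ∈ N ↔ ∃ j : ℤ, π g = π (x ^ j)) {z : D} (hz : z ∈ RN u π.ker N) :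
    ∃ y : ℤ →₀ Dc u π.ker, (y.sum fun j a => a • ((u (x ^ j) : Dˣ) : D)) = z := by
  rw [← Finsupp.mem_span_range_iff_exists_finsupp]
  unfold RN at hz
  refine Submodule.span_le.mpr ?_ hz
  rintro w ⟨g, hg, rfl⟩
  obtain ⟨j, hj⟩ := (hx g).mp hg
  have hl : g * (x ^ j)⁻¹ ∈ π.ker := by
    rw [MonoidHom.mem_ker, map_mul, map_inv, hj, mul_inv_cancel]
  have hlD : ((u (g * (x ^ j)⁻¹) : Dˣ) : D) ∈ Dc u π.ker :=
    Subfield.subset_closure ⟨_, hl, rfl⟩
  have e : ((u g : Dˣ) : D) =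
      (⟨((u (g * (x ^ j)⁻¹) : Dˣ) : D), hlD⟩ : Dc u π.ker) • ((u (x ^ j) : Dˣ) : D) := by
    show ((u g : Dˣ) : D) = ((u (g * (x ^ j)⁻¹) : Dˣ) : D) * ((u (x ^ j) : Dˣ) : D)
    rw [← Units.val_mul, ← map_mul, inv_mul_cancel_right]
  rw [e]
  exact Submodule.smul_mem _ _ (Submodule.subset_span ⟨j, rfl⟩)

theorem ind_up {Γ : Type} [Group Γ] {D : Type} [DivisionRing D] (u : Γ →* Dˣ) (hu : Linnell u)
    (π : Γ →* Multiplicative (ℤ × ℤ)) {a b c : ℕ}
    (A : Matrix (Fin a) (Fin b) (MonoidAlgebra ℤ Γ)) (B : Matrix (Fin b) (Fin c) (MonoidAlgebra ℤ Γ))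
    (hAB : A * B = 0)
    (S : Semi (Dc u π.ker) (HN u π.ker (A.map (ev u)) (B.map (ev u))) Γ π)
    (hS : ∀ (g : Γ) (v w : ZN u π.ker (B.map (ev u))),
      (∀ i, (w : Fin b → D) i = ((u g : Dˣ) : D) * (v : Fin b → D) i) →
        S.act g (Submodule.Quotient.mk v) = Submodule.Quotient.mk w)
    (N : Subgroup Γ) (hN : N.Normal) (x : Γ) (hx : ∀ g : Γ, g ∈ N ↔ ∃ j : ℤ, π g = π (x ^ j))
    (hx0 : ∀ j : ℤ, π (x ^ j) = 1 → j = 0)
    (r : ℕ) (f : Fin r → HN u π.ker (A.map (ev u)) (B.map (ev u))) (hf : XInd S x f) :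
    ∃ f' : Fin r → HN u N (A.map (ev u)) (B.map (ev u)), LinearIndependent (Dc u N) f' := by
  have hLn : (π.ker).Normal := inferInstance
  have hLN : π.ker ≤ N := by
    intro g hg
    rw [hx]
    refine ⟨0, ?_⟩
    rw [zpow_zero, map_one]
    exact hg
  have hab : ∀ x ∈ N, ∀ y ∈ N, x * y * x⁻¹ * y⁻¹ ∈ π.ker := by
    intro y _ z _
    rw [MonoidHom.mem_ker, map_mul, map_mul, map_mul, map_inv, map_inv, mul_comm (π y) (π z),
      mul_inv_cancel_right, mul_inv_cancel]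
  choose v hv using fun i => Submodule.Quotient.mk_surjective _ (f i)
  have hvN : ∀ i, (v i : Fin b → D) ∈ ZN u N (B.map (ev u)) := fun i =>
    ⟨fun k => ind_up_SN_mono u hLN ((v i).2.1 k), (v i).2.2⟩
  refine ⟨fun i => Submodule.Quotient.mk ⟨(v i : Fin b → D), hvN i⟩, ?_⟩
  rw [Fintype.linearIndependent_iff]
  intro d hd
  have h1 : Submodule.mkQ ((BN u N (A.map (ev u))).submoduleOf (ZN u N (B.map (ev u))))
      (∑ i, d i • (⟨(v i : Fin b → D), hvN i⟩ : ZN u N (B.map (ev u)))) = 0 := by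
    rw [map_sum]
    simp only [map_smul]
    exact hd
  rw [Submodule.mkQ_apply, Submodule.Quotient.mk_eq_zero] at h1
  obtain ⟨w, hw1, hw2⟩ : ∃ w : Fin a → D, (∀ i, w i ∈ SN u N) ∧
      ((∑ i, d i • (⟨(v i : Fin b → D), hvN i⟩ : ZN u N (B.map (ev u))) : ZN u N (B.map (ev u))) :
        Fin b → D) = Matrix.vecMul w (A.map (ev u)) := h1
  have hw3 : ∀ k, ∑ i, (d i : D) * (v i : Fin b → D) k = Matrix.vecMul w (A.map (ev u)) k := by
    intro k
    rw [← hw2, Submodule.coe_sum, Finset.sum_apply]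
    rfl
  obtain ⟨α, hα, hα0, hαd, hαw⟩ := frac_fam u hu π.ker N hLn hLN hab (fun i => (d i : D))
    (fun i => (d i).2) w hw1
  choose y hy using fun i => ind_up_RN u π N x hx (hαd i)
  obtain ⟨T, hT⟩ : ∃ T : Finset ℤ, ∀ i, (y i).support ⊆ T :=
    ⟨Finset.univ.biUnion (fun i => (y i).support), fun i =>
      Finset.subset_biUnion_of_mem (fun i => (y i).support) (Finset.mem_univ i)⟩
  have hyT : ∀ i, ∑ j ∈ T, (y i j : D) * ((u (x ^ j) : Dˣ) : D) = α * (d i : D) := by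
    intro i
    rw [← hy i, Finsupp.sum]
    symm
    apply Finset.sum_subset (hT i)
    intro j _ hj
    rw [Finsupp.notMem_support_iff] at hj
    rw [hj, zero_smul]
  have hwZ : ∀ (i : Fin r) (j : ℤ), (fun k => ((u (x ^ j) : Dˣ) : D) * (v i : Fin b → D) k) ∈
      ZN u π.ker (B.map (ev u)) := by
    intro i j
    refine ⟨fun k => ind_up_SN_umul u hLn _ ((v i).2.1 k), ?_⟩
    funext k
    have h2 := congrFun (v i).2.2 k
    simp only [Matrix.vecMul, dotProduct, mul_assoc] at h2 ⊢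
    rw [← Finset.mul_sum, h2, Pi.zero_apply, mul_zero]
  have hact : ∀ i j, S.act (x ^ j) (f i) = Submodule.mkQ
      ((BN u π.ker (A.map (ev u))).submoduleOf (ZN u π.ker (B.map (ev u))))
      (⟨_, hwZ i j⟩ : ZN u π.ker (B.map (ev u))) := by
    intro i j
    rw [← hv i]
    exact hS (x ^ j) (v i) ⟨_, hwZ i j⟩ (fun k => rfl)
  have hz : Submodule.mkQ ((BN u π.ker (A.map (ev u))).submoduleOf (ZN u π.ker (B.map (ev u))))
      (∑ i, ∑ j ∈ T, y i j • (⟨_, hwZ i j⟩ : ZN u π.ker (B.map (ev u)))) = 0 := by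
    rw [Submodule.mkQ_apply, Submodule.Quotient.mk_eq_zero]
    show ∃ w' : Fin a → D, (∀ i, w' i ∈ SN u π.ker) ∧
      ((∑ i, ∑ j ∈ T, y i j • (⟨_, hwZ i j⟩ : ZN u π.ker (B.map (ev u))) :
        ZN u π.ker (B.map (ev u))) : Fin b → D) = Matrix.vecMul w' (A.map (ev u))
    refine ⟨fun i => α * w i, hαw, ?_⟩
    funext k
    rw [Submodule.coe_sum, Finset.sum_apply]
    have h3 : ∀ i : Fin r, ((∑ j ∈ T, y i j • (⟨_, hwZ i j⟩ : ZN u π.ker (B.map (ev u))) :
        ZN u π.ker (B.map (ev u))) : Fin b → D) k = α * ((d i : D) * (v i : Fin b → D) k) := by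
      intro i
      rw [Submodule.coe_sum, Finset.sum_apply, ← mul_assoc, ← hyT i, Finset.sum_mul]
      refine Finset.sum_congr rfl fun j _ => ?_
      rw [mul_assoc]
      rfl
    rw [Finset.sum_congr rfl (fun i _ => h3 i), ← Finset.mul_sum, hw3 k]
    simp only [Matrix.vecMul, dotProduct, Finset.mul_sum, mul_assoc]
  have h4 := (linearIndependent_iff'.mp hf) (Finset.univ ×ˢ T) (fun p => y p.1 p.2) (by
    rw [Finset.sum_product, ← hz, map_sum]
    refine Finset.sum_congr rfl fun i _ => ?_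
    rw [map_sum]
    refine Finset.sum_congr rfl fun j _ => ?_
    rw [map_smul, ← hact])
  intro i
  have h5 : α * (d i : D) = 0 := by
    rw [← hyT i]
    apply Finset.sum_eq_zero
    intro j hj
    have h6 := h4 (i, j) (Finset.mem_product.mpr ⟨Finset.mem_univ i, hj⟩)
    have h7 : y i j = 0 := h6
    rw [h7]
    simp
  have h8 : (d i : D) = 0 := (mul_eq_zero.mp h5).resolve_left hα0
  exact Subtype.ext h8

end TN970
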