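import Pool.Agent.H7.L.Helper970_TN_Defs



namespace TN970
open scoped Classical


theorem fill (N : Finset (ℤ × ℤ)) (hN : N.Nonempty) (v w : ℤ × ℤ) (hd : 0 < dt v w) :
    ∃ ρ0 : ℕ, ∀ ρ : ℕ, ρ0 ≤ ρ → ∀ n : ℕ, ∀ P : Set (ℤ × ℤ),
      (∀ t : ℤ × ℤ, ∀ h0 ∈ N, (∀ h ∈ N, h ≠ h0 → t + h ∈ P) → t + h0 ∈ P) →
      leg1 v w ρ n ⊆ P → leg2 v w ρ n ⊆ P → tri v w n ⊆ P := by
  classical
  obtain ⟨h0, hh0, hmax⟩ := Finset.exists_max_image N
    (fun h => (toLex (dt v h - dt h w, dt v h) : ℤ ×ₗ ℤ)) hN
  have hinj : ∀ h k : ℤ × ℤ, dt v h = dt v k → dt h w = dt k w → h = k := by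
    intro h k h1 h2
    simp only [dt] at h1 h2 hd
    have e1 : (v.1 * w.2 - v.2 * w.1) * (h.1 - k.1) = 0 := by
      linear_combination w.1 * h1 + v.1 * h2
    have e2 : (v.1 * w.2 - v.2 * w.1) * (h.2 - k.2) = 0 := by
      linear_combination w.2 * h1 + v.2 * h2
    have hne : v.1 * w.2 - v.2 * w.1 ≠ 0 := ne_of_gt hd
    have f1 : h.1 - k.1 = 0 := (mul_eq_zero.mp e1).resolve_left hne
    have f2 : h.2 - k.2 = 0 := (mul_eq_zero.mp e2).resolve_left hne
    exact Prod.ext (by linarith) (by linarith)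
  have adA : ∀ p q : ℤ × ℤ, dt v (p + q) = dt v p + dt v q := by
    intro p q; simp only [dt, Prod.fst_add, Prod.snd_add]; ring
  have adB : ∀ p q : ℤ × ℤ, dt (p + q) w = dt p w + dt q w := by
    intro p q; simp only [dt, Prod.fst_add, Prod.snd_add]; ring
  have sbA : ∀ p q : ℤ × ℤ, dt v (p - q) = dt v p - dt v q := by
    intro p q; simp only [dt, Prod.fst_sub, Prod.snd_sub]; ring
  have sbB : ∀ p q : ℤ × ℤ, dt (p - q) w = dt p w - dt q w := by
    intro p q; simp only [dt, Prod.fst_sub, Prod.snd_sub]; ring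
  have hlex : ∀ h ∈ N, h ≠ h0 → (dt v h - dt h w < dt v h0 - dt h0 w ∨
      (dt v h - dt h w = dt v h0 - dt h0 w ∧ dt v h < dt v h0)) := by
    intro h hh hne
    have h1 := hmax h hh
    rw [Prod.Lex.toLex_le_toLex] at h1
    rcases h1 with h1 | ⟨h1, h2⟩
    · exact Or.inl h1
    · refine Or.inr ⟨h1, lt_of_le_of_ne h2 ?_⟩
      intro h3
      apply hne
      apply hinj h h0 h3
      have h4 : dt v h - dt h w = dt v h0 - dt h0 w := h1
      linarith
  obtain ⟨R, hR⟩ : ∃ R : ℤ, 0 ≤ R ∧ ∀ h ∈ N, |dt v h| ≤ R ∧ |dt h w| ≤ R := by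
    refine ⟨∑ h ∈ N, (|dt v h| + |dt h w|), Finset.sum_nonneg fun h _ => by positivity, ?_⟩
    intro h hh
    have h1 := Finset.single_le_sum (f := fun h => |dt v h| + |dt h w|)
      (fun i _ => by positivity) hh
    have h2 := abs_nonneg (dt v h)
    have h3 := abs_nonneg (dt h w)
    constructor <;> linarith
  obtain ⟨hR0, hR⟩ := hR
  refine ⟨(2 * R).toNat, ?_⟩
  intro ρ hρ n P hP hl1 hl2
  have hρ' : 2 * R ≤ (ρ : ℤ) := Int.toNat_le.mp hρ
  set D := dt v w with hDdef
  have hnD : 0 ≤ (n : ℤ) * D := by positivity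
  have key : ∀ m : ℕ, ∀ p : ℤ × ℤ, p ∈ tri v w n →
      (((dt v p - dt p w) + n * D) * (n * D + 1) + dt v p < m) → p ∈ P := by
    intro m
    induction m with
    | zero =>
      intro p hp hm
      exfalso
      obtain ⟨p1, p2, p3⟩ := hp
      have p3' : dt p w ≤ n * D := p3
      have h1 : 0 ≤ (dt v p - dt p w) + n * D := by linarith
      have h2 : 0 ≤ ((dt v p - dt p w) + n * D) * (n * D + 1) := by positivity
      push_cast at hm
      linarith
    | succ m ih =>
      intro p hp hm
      obtain ⟨p1, p2, p3⟩ := hp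
      have p3' : dt p w ≤ n * D := p3
      have hstep : ∀ h ∈ N, h ≠ h0 → (p - h0) + h ∈ P := by
        intro h hh hne
        have e1 : dt v ((p - h0) + h) = dt v p - dt v h0 + dt v h := by rw [adA, sbA]
        have e2 : dt ((p - h0) + h) w = dt p w - dt h0 w + dt h w := by rw [adB, sbB]
        obtain ⟨a1, a2⟩ := hR h hh
        obtain ⟨b1, b2⟩ := hR h0 hh0
        rw [abs_le] at a1 a2 b1 b2
        obtain ⟨a11, a12⟩ := a1
        obtain ⟨a21, a22⟩ := a2
        obtain ⟨b11, b12⟩ := b1
        obtain ⟨b21, b22⟩ := b2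
        have hlx := hlex h hh hne
        have hle : dt v ((p - h0) + h) ≤ dt ((p - h0) + h) w := by
          rcases hlx with h1 | ⟨h1, h2⟩ <;> linarith
        by_cases c1 : dt v ((p - h0) + h) < 0
        · apply hl1
          refine ⟨?_, ?_, ?_⟩
          · rw [abs_le]; constructor <;> linarith
          · linarith
          · linarith
        · by_cases c2 : (n : ℤ) * D < dt ((p - h0) + h) w
          · apply hl2
            refine ⟨?_, ?_, ?_⟩
            · rw [abs_le]; constructor <;> linarith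
            · linarith
            · linarith
          · push Not at c1 c2
            apply ih _ ⟨c1, hle, c2⟩
            push_cast at hm
            rcases hlx with h1 | ⟨h1, h2⟩
            · have h4 : (dt v ((p - h0) + h) - dt ((p - h0) + h) w + n * D) ≤
                  (dt v p - dt p w + n * D) - 1 := by linarith
              have h5 : (dt v ((p - h0) + h) - dt ((p - h0) + h) w + n * D) * (n * D + 1) ≤
                  ((dt v p - dt p w + n * D) - 1) * (n * D + 1) :=
                mul_le_mul_of_nonneg_right h4 (by linarith)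
              nlinarith
            · have h4 : (dt v ((p - h0) + h) - dt ((p - h0) + h) w + n * D) =
                  (dt v p - dt p w + n * D) := by linarith
              rw [h4]
              linarith
      have := hP (p - h0) h0 hh0 hstep
      simpa using this
  intro p hp
  obtain ⟨p1, p2, p3⟩ := hp
  have p3' : dt p w ≤ n * D := p3
  have hnn : 0 ≤ ((dt v p - dt p w) + n * D) * (n * D + 1) + dt v p := by
    have : 0 ≤ (dt v p - dt p w) + n * D := by linarith
    positivity
  refine key ((((dt v p - dt p w) + n * D) * (n * D + 1) + dt v p).toNat + 1) p ⟨p1, p2, p3⟩ ?_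
  push_cast
  rw [Int.toNat_of_nonneg hnn]
  linarith

end TN970
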