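import Pool.Agent.H7.L.Helper970_TN_Defs



namespace TN970
open scoped Classical


theorem sp_closure {F : Type} [DivisionRing F] {M : Type} [AddCommGroup M] [Module F M]
    {Γ : Type} [Group Γ] {π : Γ →* Multiplicative (ℤ × ℤ)} (S : Semi F M Γ π)
    {b : ℕ} (m : Fin b → M) (i : Fin b) (N : Finset Γ) (c : Γ → F)
    (hc : ∀ g ∈ N, c g ≠ 0) (hinj : ∀ g ∈ N, ∀ h ∈ N, π g = π h → g = h)
    (hrel : ∑ g ∈ N, c g • S.act g (m i) = 0) (Ω : Set (ℤ × ℤ)) (hsurj : Function.Surjective π)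
    (t h0 : ℤ × ℤ) (hh0 : h0 ∈ N.image (fun g => Multiplicative.toAdd (π g)))
    (h : ∀ h ∈ N.image (fun g => Multiplicative.toAdd (π g)), h ≠ h0 →
      ∀ g : Γ, Multiplicative.toAdd (π g) = t + h → S.act g (m i) ∈ Sp S m Ω) :
    ∀ g : Γ, Multiplicative.toAdd (π g) = t + h0 → S.act g (m i) ∈ Sp S m Ω := by
  intro g hg
  obtain ⟨g', hg'⟩ := hsurj (Multiplicative.ofAdd t)
  obtain ⟨g0, hg0, hg0h⟩ := Finset.mem_image.1 hh0
  have h1 : ∑ h ∈ N, S.sig g' (c h) • S.act (g' * h) (m i) = 0 := by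
    have h2 := congrArg (S.act g') hrel
    rw [map_sum, map_zero] at h2
    rw [← h2]
    refine Finset.sum_congr rfl fun h _ => ?_
    rw [S.act_smul, S.act_mul]
  rw [← Finset.add_sum_erase N _ hg0] at h1
  have h2 : ∑ h ∈ N.erase g0, S.sig g' (c h) • S.act (g' * h) (m i) ∈ Sp S m Ω := by
    refine Submodule.sum_mem _ fun k hk => Submodule.smul_mem _ _ ?_
    obtain ⟨hk1, hk2⟩ := Finset.mem_erase.1 hk
    refine h (Multiplicative.toAdd (π k)) (Finset.mem_image_of_mem _ hk2) ?_ (g' * k) ?_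
    · intro he
      apply hk1
      refine hinj k hk2 g0 hg0 ?_
      apply Multiplicative.toAdd.injective
      exact he.trans hg0h.symm
    · rw [map_mul, toAdd_mul, hg', toAdd_ofAdd]
  have h3 : S.sig g' (c g0) • S.act (g' * g0) (m i) ∈ Sp S m Ω := by
    rw [eq_neg_of_add_eq_zero_left h1]
    exact Submodule.neg_mem _ h2
  have h4 : S.sig g' (c g0) ≠ 0 := (map_ne_zero _).2 (hc g0 hg0)
  have h5 : S.act (g' * g0) (m i) ∈ Sp S m Ω := by
    have h6 := Submodule.smul_mem _ (S.sig g' (c g0))⁻¹ h3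
    rwa [smul_smul, inv_mul_cancel₀ h4, one_smul] at h6
  have h7 : π ((g' * g0)⁻¹ * g) = 1 := by
    apply Multiplicative.toAdd.injective
    rw [map_mul, toAdd_mul, map_inv, toAdd_inv, map_mul, toAdd_mul, hg, hg0h, hg', toAdd_ofAdd,
      toAdd_one]
    abel
  obtain ⟨f, _, hf⟩ := S.ker_scalar _ h7 (m i)
  have h8 : g = (g' * g0) * ((g' * g0)⁻¹ * g) := by group
  rw [h8, S.act_mul, hf, S.act_smul]
  exact Submodule.smul_mem _ _ h5

end TN970
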