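import Pool.Agent.H7.L.Helper970_TN_Defs
import Pool.Agent.H7.L.Helper970_TN_P_fill
import Pool.Agent.H7.L.Helper970_TN_P_sp_closure



namespace TN970
open scoped Classical


theorem sp_fill {F : Type} [DivisionRing F] {M : Type} [AddCommGroup M] [Module F M]
    {Γ : Type} [Group Γ] {π : Γ →* Multiplicative (ℤ × ℤ)} (S : Semi F M Γ π)
    (hsurj : Function.Surjective π) {b : ℕ} (m : Fin b → M)
    (htor : ∀ i : Fin b, ∃ (N : Finset Γ) (c : Γ → F), N.Nonempty ∧ (∀ g ∈ N, c g ≠ 0) ∧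
      (∀ g ∈ N, ∀ h ∈ N, π g = π h → g = h) ∧ ∑ g ∈ N, c g • S.act g (m i) = 0)
    (v w : ℤ × ℤ) (hd : 0 < dt v w) :
    ∃ ρ : ℕ, ∀ n : ℕ, Sp S m (tri v w n) ≤ Sp S m (leg1 v w ρ n) ⊔ Sp S m (leg2 v w ρ n) := by
  choose N c hne hc hinj hrel using htor
  have hfill : ∀ i : Fin b, ∃ ρ0 : ℕ, ∀ ρ : ℕ, ρ0 ≤ ρ → ∀ n : ℕ, ∀ P : Set (ℤ × ℤ),
      (∀ t : ℤ × ℤ, ∀ h0 ∈ (N i).image (fun g => Multiplicative.toAdd (π g)),
        (∀ h ∈ (N i).image (fun g => Multiplicative.toAdd (π g)), h ≠ h0 → t + h ∈ P) →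
          t + h0 ∈ P) →
      leg1 v w ρ n ⊆ P → leg2 v w ρ n ⊆ P → tri v w n ⊆ P := fun i =>
    fill ((N i).image (fun g => Multiplicative.toAdd (π g))) ((hne i).image _) v w hd
  choose ρ0 hρ0 using hfill
  refine ⟨Finset.univ.sup ρ0, fun n => ?_⟩
  have hsup : Sp S m (leg1 v w (Finset.univ.sup ρ0) n ∪ leg2 v w (Finset.univ.sup ρ0) n) ≤
      Sp S m (leg1 v w (Finset.univ.sup ρ0) n) ⊔ Sp S m (leg2 v w (Finset.univ.sup ρ0) n) := by
    refine Submodule.span_le.2 ?_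
    rintro z ⟨g, i, hg, rfl⟩
    rcases hg with hg | hg
    · exact (le_sup_left : Sp S m (leg1 v w (Finset.univ.sup ρ0) n) ≤ _)
        (Submodule.subset_span ⟨g, i, hg, rfl⟩)
    · exact (le_sup_right : Sp S m (leg2 v w (Finset.univ.sup ρ0) n) ≤ _)
        (Submodule.subset_span ⟨g, i, hg, rfl⟩)
  refine le_trans (Submodule.span_le.2 ?_) hsup
  rintro z ⟨g, i, hg, rfl⟩
  have key := hρ0 i (Finset.univ.sup ρ0) (Finset.le_sup (Finset.mem_univ i)) n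
    {h | ∀ g, Multiplicative.toAdd (π g) = h → S.act g (m i) ∈
      Sp S m (leg1 v w (Finset.univ.sup ρ0) n ∪ leg2 v w (Finset.univ.sup ρ0) n)}
    (fun t h0 hh0 h => sp_closure S m i (N i) (c i) (hc i) (hinj i) (hrel i) _ hsurj t h0 hh0 h)
    (fun h hh g hg => Submodule.subset_span ⟨g, i, Or.inl (by rw [hg]; exact hh), rfl⟩)
    (fun h hh g hg => Submodule.subset_span ⟨g, i, Or.inr (by rw [hg]; exact hh), rfl⟩)
  exact key hg g rfl

end TN970
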