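import Pool.Agent.H7.L.Helper970_TN_Defs
import Pool.Agent.H7.L.Helper970_TN_P_line_bound



namespace TN970
open scoped Classical


theorem sp_strip_semi {F : Type} [DivisionRing F] {M : Type} [AddCommGroup M] [Module F M]
    {Γ : Type} [Group Γ] {π : Γ →* Multiplicative (ℤ × ℤ)} (S : Semi F M Γ π) (h : Γ)
    (W : Submodule F M) [FiniteDimensional F W] :
    ∃ V : Submodule F M, FiniteDimensional F V ∧ Module.finrank F V ≤ Module.finrank F W ∧
      ∀ w ∈ W, S.act h w ∈ V := by
  let bas := Module.finBasis F W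
  refine ⟨Submodule.span F (Set.range fun r => S.act h (bas r : M)),
    FiniteDimensional.span_of_finite F (Set.finite_range _), ?_, ?_⟩
  · have := finrank_range_le_card (R := F) (fun r => S.act h (bas r : M))
    simpa [Set.finrank] using this
  · intro w hw
    have h1 := congrArg (Submodule.subtype W) (bas.sum_repr ⟨w, hw⟩)
    rw [map_sum] at h1
    simp only [map_smul, Submodule.subtype_apply] at h1
    rw [← h1, map_sum]
    refine Submodule.sum_mem _ fun r _ => ?_
    rw [S.act_smul]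
    exact Submodule.smul_mem _ _ (Submodule.subset_span ⟨r, rfl⟩)

theorem sp_strip_sub {F : Type} [DivisionRing F] {M : Type} [AddCommGroup M] [Module F M]
    {Γ : Type} [Group Γ] {π : Γ →* Multiplicative (ℤ × ℤ)} (S : Semi F M Γ π) (x : Γ)
    {k : ℕ} (z : Fin k → M) (β : ℕ)
    (hβ : ∀ (r : ℕ) (f : Fin r → M), XInd S x f → r ≤ β) :
    ∀ s : Finset (Fin k), XInd S x (fun i : s => z i) → s.card ≤ β := by
  intro s hs
  refine hβ s.card (fun r => z (s.equivFin.symm r)) ?_
  have hinj : Function.Injective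
      (fun p : Fin s.card × ℤ => ((s.equivFin.symm p.1, p.2) : s × ℤ)) := by
    rintro ⟨a, c⟩ ⟨a', c'⟩ h
    simp only [Prod.mk.injEq, EmbeddingLike.apply_eq_iff_eq] at h
    rw [h.1, h.2]
  have hs' : LinearIndependent F (fun p : s × ℤ => S.act (x ^ p.2) (z p.1)) := hs
  have h2 := hs'.comp (fun p : Fin s.card × ℤ => ((s.equivFin.symm p.1, p.2) : s × ℤ)) hinj
  exact h2

theorem sp_strip {F : Type} [DivisionRing F] {M : Type} [AddCommGroup M] [Module F M]
    {Γ : Type} [Group Γ] {π : Γ →* Multiplicative (ℤ × ℤ)} (S : Semi F M Γ π)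
    (hsurj : Function.Surjective π) {b : ℕ} (m : Fin b → M)
    (x : Γ) (v0 : ℤ × ℤ) (hx : Multiplicative.toAdd (π x) = v0) (β : ℕ)
    (hβ : ∀ (r : ℕ) (f : Fin r → M), XInd S x f → r ≤ β) (Y : Finset (ℤ × ℤ)) :
    ∃ C : ℕ, ∀ (h0 : ℤ × ℤ) (n : ℕ),
      FiniteDimensional F (Sp S m (strip v0 h0 Y n)) ∧
      Module.finrank F (Sp S m (strip v0 h0 Y n)) ≤ n * β + C := by
  choose gy hgy using fun y : ℤ × ℤ => hsurj (Multiplicative.ofAdd y)
  let e := (Fintype.equivFin (Y × Fin b)).symm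
  let z : Fin (Fintype.card (Y × Fin b)) → M := fun a => S.act (gy (e a).1) (m (e a).2)
  have hβ' := sp_strip_sub S x z β hβ
  obtain ⟨C, hC⟩ := line_bound S x z β hβ'
  refine ⟨C, fun h0 n => ?_⟩
  set W : Submodule F M := Submodule.span F (Set.range fun p : Fin (Fintype.card (Y × Fin b)) ×
    Fin n => S.act (x ^ (p.2 : ℕ)) (z p.1)) with hW
  have : FiniteDimensional F W := FiniteDimensional.span_of_finite F (Set.finite_range _)
  obtain ⟨V, hV1, hV2, hV3⟩ := sp_strip_semi S (gy h0) W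
  have hle : Sp S m (strip v0 h0 Y n) ≤ V := by
    refine Submodule.span_le.2 ?_
    rintro w ⟨g, i, ⟨j, hj, y, hy, hg⟩, rfl⟩
    have hπ : π (gy h0 * x ^ j * gy y) = π g := by
      rw [map_mul, map_mul, map_pow, hgy, hgy]
      apply Multiplicative.toAdd.injective
      rw [toAdd_mul, toAdd_mul, toAdd_pow, hx, hg]
      simp
    obtain ⟨f, _, hf⟩ := S.ker_scalar ((gy h0 * x ^ j * gy y)⁻¹ * g)
      (by rw [map_mul, map_inv, hπ, inv_mul_cancel]) (m i)
    have h1 : S.act g (m i) = S.act (gy h0) (S.act (x ^ j) (S.act (gy y)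
        (S.act ((gy h0 * x ^ j * gy y)⁻¹ * g) (m i)))) := by
      rw [← S.act_mul, ← S.act_mul, ← S.act_mul]
      congr 2
      group
    rw [SetLike.mem_coe, h1, hf, S.act_smul, S.act_smul]
    refine hV3 _ (Submodule.smul_mem _ _ (Submodule.subset_span ?_))
    refine ⟨(e.symm (⟨y, hy⟩, i), ⟨j, hj⟩), ?_⟩
    simp only [z, Equiv.apply_symm_apply]
  exact ⟨Submodule.finiteDimensional_of_le hle,
    ((Submodule.finrank_mono hle).trans hV2).trans (hC n)⟩

end TN970
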