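import Pool.Agent.H7.L.Helper970_TN_Defs



namespace TN970
open scoped Classical


theorem phv_prim {Γ : Type} [Group Γ] (π : Γ →* Multiplicative (ℤ × ℤ))
    (hπ : Function.Surjective π) (v0 : ℤ × ℤ) (hv0 : IsCoprime v0.1 v0.2) (x : Γ)
    (hx : Multiplicative.toAdd (π x) = v0) :
    Function.Surjective (phv π v0) ∧
    (∀ g : Γ, g ∈ (phv π v0).ker ↔ ∃ j : ℤ, π g = π (x ^ j)) ∧
    (∀ j : ℤ, π (x ^ j) = 1 → j = 0) := by
  obtain ⟨a, b, hab⟩ := hv0
  have hpow : ∀ j : ℤ, Multiplicative.toAdd (π (x ^ j)) = (j * v0.1, j * v0.2) := by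
    intro j
    rw [map_zpow, toAdd_zpow, hx]
    ext
    · simp
    · simp
  refine ⟨?_, ?_, ?_⟩
  · intro n
    obtain ⟨g, hg⟩ := hπ (Multiplicative.ofAdd (-(Multiplicative.toAdd n * b), Multiplicative.toAdd n * a))
    refine ⟨g, ?_⟩
    show Multiplicative.ofAdd (dt v0 (Multiplicative.toAdd (π g))) = n
    rw [hg]
    apply Multiplicative.toAdd.injective
    show v0.1 * (Multiplicative.toAdd n * a) - v0.2 * (-(Multiplicative.toAdd n * b)) =
      Multiplicative.toAdd n
    linear_combination Multiplicative.toAdd n * hab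
  · intro g
    have hker : g ∈ (phv π v0).ker ↔ dt v0 (Multiplicative.toAdd (π g)) = 0 := by
      rw [MonoidHom.mem_ker]
      constructor
      · intro h
        exact congrArg Multiplicative.toAdd h
      · intro h
        show Multiplicative.ofAdd (dt v0 (Multiplicative.toAdd (π g))) = 1
        rw [h]
        rfl
    rw [hker]
    constructor
    · intro h
      obtain ⟨q, hq⟩ : ∃ q, q = Multiplicative.toAdd (π g) := ⟨_, rfl⟩
      rw [← hq] at h
      have h' : v0.1 * q.2 - v0.2 * q.1 = 0 := h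
      refine ⟨a * q.1 + b * q.2, ?_⟩
      apply Multiplicative.toAdd.injective
      rw [hpow, ← hq]
      ext
      · show q.1 = (a * q.1 + b * q.2) * v0.1
        linear_combination (-q.1) * hab - b * h'
      · show q.2 = (a * q.1 + b * q.2) * v0.2
        linear_combination (-q.2) * hab + a * h'
    · rintro ⟨j, hj⟩
      rw [hj, hpow]
      show v0.1 * (j * v0.2) - v0.2 * (j * v0.1) = 0
      ring
  · intro j hj
    have h1 := hpow j
    rw [hj] at h1
    have h2 : (0 : ℤ) = j * v0.1 := congrArg Prod.fst h1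
    have h3 : (0 : ℤ) = j * v0.2 := congrArg Prod.snd h1
    linear_combination (-j) * hab - a * h2 - b * h3

end TN970
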