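import Pool.Agent.H7.L.Helper970_TN_Defs
import Pool.Agent.H7.L.Helper970_TN_P_conj_Dc
import Pool.Agent.H7.L.Helper970_TN_P_RN_mul
import Pool.Agent.H7.L.Helper970_TN_P_frac_fam



namespace TN970
open scoped Classical


private theorem torsion_SN_mono {Γ : Type} [Group Γ] {D : Type} [DivisionRing D] (u : Γ →* Dˣ)
    {L N : Subgroup Γ} (h : L ≤ N) {x : D} (hx : x ∈ SN u L) : x ∈ SN u N := by
  refine Submodule.span_induction (p := fun x _ => x ∈ SN u N) ?_ ?_ ?_ ?_ hx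
  · rintro _ ⟨g, rfl⟩
    exact Submodule.subset_span ⟨g, rfl⟩
  · exact Submodule.zero_mem _
  · intro x y _ _ hx hy
    exact Submodule.add_mem _ hx hy
  · intro d x _ hx
    have hd : (d : D) ∈ Dc u N :=
      Subfield.closure_mono (fun x hx => by
        obtain ⟨g, hg, hx⟩ := hx
        exact ⟨g, h hg, hx⟩) d.2
    exact Submodule.smul_mem _ (⟨d, hd⟩ : Dc u N) hx

private theorem torsion_SN_left {Γ : Type} [Group Γ] {D : Type} [DivisionRing D] (u : Γ →* Dˣ)
    (L : Subgroup Γ) (hL : L.Normal) (g : Γ) {x : D} (hx : x ∈ SN u L) :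
    ((u g : Dˣ) : D) * x ∈ SN u L := by
  refine Submodule.span_induction (p := fun x _ => ((u g : Dˣ) : D) * x ∈ SN u L) ?_ ?_ ?_ ?_ hx
  · rintro _ ⟨h, rfl⟩
    refine Submodule.subset_span ⟨g * h, ?_⟩
    simp [map_mul]
  · rw [mul_zero]
    exact Submodule.zero_mem _
  · intro x y _ _ hx hy
    rw [mul_add]
    exact Submodule.add_mem _ hx hy
  · intro d x _ hx
    have e : ((u g : Dˣ) : D) * (d • x) =
        (⟨((u g : Dˣ) : D) * d * ((u g⁻¹ : Dˣ) : D), conj_Dc u L hL g d d.2⟩ : Dc u L) • (((u g : Dˣ) : D) * x) := by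
      show ((u g : Dˣ) : D) * ((d : D) * x) = ((u g : Dˣ) : D) * d * ((u g⁻¹ : Dˣ) : D) * (((u g : Dˣ) : D) * x)
      have e1 : ((u g⁻¹ : Dˣ) : D) * ((u g : Dˣ) : D) = 1 := by
        rw [← Units.val_mul, ← map_mul, inv_mul_cancel, map_one, Units.val_one]
      calc ((u g : Dˣ) : D) * ((d : D) * x) = ((u g : Dˣ) : D) * d * 1 * x := by
            rw [mul_one, mul_assoc]
        _ = _ := by
            rw [← e1]
            simp only [mul_assoc]
    rw [e]
    exact Submodule.smul_mem _ _ hx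

private theorem torsion_repr {Γ : Type} [Group Γ] {D : Type} [DivisionRing D] (u : Γ →* Dˣ)
    (π : Γ →* Multiplicative (ℤ × ℤ)) {s : D} (hs : s ∈ RN u π.ker ⊤) :
    ∃ l : Γ →₀ Dc u π.ker, (∀ g ∈ l.support, ∀ h ∈ l.support, π g = π h → g = h) ∧
      ∑ g ∈ l.support, (l g : D) * ((u g : Dˣ) : D) = s := by
  classical
  have hr : ∀ g : Γ, π (Function.invFun π (π g)) = π g := fun g => Function.invFun_eq ⟨g, rfl⟩
  have hle : RN u π.ker ⊤ ≤ Submodule.span (Dc u π.ker)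
      ((fun g : Γ => ((u g : Dˣ) : D)) '' {g | Function.invFun π (π g) = g}) := by
    refine Submodule.span_le.mpr ?_
    rintro _ ⟨g, -, rfl⟩
    have hmem : g * (Function.invFun π (π g))⁻¹ ∈ π.ker := by
      rw [MonoidHom.mem_ker, map_mul, map_inv, hr, mul_inv_cancel]
    have hd : ((u (g * (Function.invFun π (π g))⁻¹) : Dˣ) : D) ∈ Dc u π.ker :=
      Subfield.subset_closure ⟨_, hmem, rfl⟩
    have e : ((u g : Dˣ) : D) = (⟨_, hd⟩ : Dc u π.ker) • ((u (Function.invFun π (π g)) : Dˣ) : D) := by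
      show ((u g : Dˣ) : D) = ((u (g * (Function.invFun π (π g))⁻¹) : Dˣ) : D) * ((u (Function.invFun π (π g)) : Dˣ) : D)
      rw [← Units.val_mul, ← map_mul, inv_mul_cancel_right]
    rw [SetLike.mem_coe, e]
    refine Submodule.smul_mem _ _ (Submodule.subset_span ⟨Function.invFun π (π g), ?_, rfl⟩)
    show Function.invFun π (π (Function.invFun π (π g))) = Function.invFun π (π g)
    rw [hr]
  obtain ⟨l, hl, hls⟩ := (Finsupp.mem_span_image_iff_linearCombination (Dc u π.ker)).1 (hle hs)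
  refine ⟨l, ?_, ?_⟩
  · intro g hg h hh e
    have h1 : Function.invFun π (π g) = g := hl hg
    have h2 : Function.invFun π (π h) = h := hl hh
    rw [← h1, ← h2, e]
  · rw [← hls, Finsupp.linearCombination_apply]
    rfl

theorem torsion {Γ : Type} [Group Γ] {D : Type} [DivisionRing D] (u : Γ →* Dˣ) (hu : Linnell u)
    (π : Γ →* Multiplicative (ℤ × ℤ)) {a b c : ℕ}
    (A : Matrix (Fin a) (Fin b) (MonoidAlgebra ℤ Γ)) (B : Matrix (Fin b) (Fin c) (MonoidAlgebra ℤ Γ))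
    (hex : ∀ v ∈ ZN u ⊤ (B.map (ev u)), v ∈ BN u ⊤ (A.map (ev u)))
    (S : Semi (Dc u π.ker) (HN u π.ker (A.map (ev u)) (B.map (ev u))) Γ π)
    (hS : ∀ (g : Γ) (v w : ZN u π.ker (B.map (ev u))),
      (∀ i, (w : Fin b → D) i = ((u g : Dˣ) : D) * (v : Fin b → D) i) →
        S.act g (Submodule.Quotient.mk v) = Submodule.Quotient.mk w)
    (m : HN u π.ker (A.map (ev u)) (B.map (ev u))) :
    ∃ (N : Finset Γ) (c : Γ → Dc u π.ker), N.Nonempty ∧ (∀ g ∈ N, c g ≠ 0) ∧
      (∀ g ∈ N, ∀ h ∈ N, π g = π h → g = h) ∧ ∑ g ∈ N, c g • S.act g m = 0 := by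
  classical
  obtain ⟨v, rfl⟩ := Submodule.Quotient.mk_surjective _ m
  have hvS : ∀ i, (v : Fin b → D) i ∈ SN u π.ker := v.2.1
  have hvB : Matrix.vecMul (v : Fin b → D) (B.map (ev u)) = 0 := v.2.2
  have hv' : (v : Fin b → D) ∈ ZN u ⊤ (B.map (ev u)) := ⟨fun i => torsion_SN_mono u le_top (hvS i), hvB⟩
  obtain ⟨w, hw, hvw⟩ := hex v hv'
  have hker : (π.ker).Normal := inferInstance
  obtain ⟨s, hs, hs0, -, hsw⟩ := frac_fam u hu π.ker ⊤ hker le_top
    (fun x _ y _ => by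
      rw [MonoidHom.mem_ker, map_mul, map_mul, map_mul, map_inv, map_inv, mul_comm (π x) (π y),
        mul_inv_cancel_right, mul_inv_cancel]) (ι := Empty) (κ := Fin a) (fun e => e.elim) (fun e => e.elim) w hw
  obtain ⟨l, hl, hls⟩ := torsion_repr u π hs
  have hg : ∀ g : Γ, (fun i => ((u g : Dˣ) : D) * (v : Fin b → D) i) ∈ ZN u π.ker (B.map (ev u)) := by
    intro g
    refine ⟨fun i => torsion_SN_left u π.ker hker g (hvS i), ?_⟩
    have e : Matrix.vecMul (fun i => ((u g : Dˣ) : D) * (v : Fin b → D) i) (B.map (ev u)) =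
        ((u g : Dˣ) : D) • Matrix.vecMul (v : Fin b → D) (B.map (ev u)) := by
      rw [← Matrix.smul_vecMul]
      rfl
    rw [e, hvB, smul_zero]
  refine ⟨l.support, l, ?_, fun g hg => Finsupp.mem_support_iff.1 hg, hl, ?_⟩
  · rw [Finset.nonempty_iff_ne_empty]
    intro h0
    rw [h0, Finset.sum_empty] at hls
    exact hs0 hls.symm
  · have h1 : ∀ g : Γ, S.act g (Submodule.Quotient.mk v) = Submodule.Quotient.mk (⟨_, hg g⟩ : ZN u π.ker (B.map (ev u))) :=
      fun g => hS g v ⟨_, hg g⟩ (fun i => rfl)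
    have h2 : ∑ g ∈ l.support, l g • S.act g (Submodule.Quotient.mk v) =
        Submodule.Quotient.mk (∑ g ∈ l.support, l g • (⟨_, hg g⟩ : ZN u π.ker (B.map (ev u)))) := by
      refine Eq.trans ?_ (map_sum ((BN u π.ker (A.map (ev u))).submoduleOf (ZN u π.ker (B.map (ev u)))).mkQ
        (fun g => l g • (⟨_, hg g⟩ : ZN u π.ker (B.map (ev u)))) l.support).symm
      refine Finset.sum_congr rfl fun g _ => ?_
      rw [h1 g, map_smul]
      rfl
    rw [h2, Submodule.Quotient.mk_eq_zero]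
    show ((∑ g ∈ l.support, l g • (⟨_, hg g⟩ : ZN u π.ker (B.map (ev u))) : ZN u π.ker (B.map (ev u))) : Fin b → D) ∈
      BN u π.ker (A.map (ev u))
    refine ⟨fun j => s * w j, hsw, ?_⟩
    have e1 : Matrix.vecMul (fun j => s * w j) (A.map (ev u)) = s • (v : Fin b → D) := by
      rw [hvw, ← Matrix.smul_vecMul]
      rfl
    rw [e1, Submodule.coe_sum]
    ext i
    rw [Finset.sum_apply, Pi.smul_apply, smul_eq_mul, ← hls, Finset.sum_mul]
    refine Finset.sum_congr rfl fun g _ => ?_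
    show (l g : D) * (((u g : Dˣ) : D) * (v : Fin b → D) i) = (l g : D) * ((u g : Dˣ) : D) * (v : Fin b → D) i
    rw [mul_assoc]

end TN970
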