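import Pool.Agent.H7.L.Helper970_TN_Defs
import Pool.Agent.H7.L.Helper970_TN_P_main_ineq
import Pool.Agent.H7.L.Helper970_TN_P_semi_HN
import Pool.Agent.H7.L.Helper970_TN_P_torsion
import Pool.Agent.H7.L.Helper970_TN_P_ind_up
import Pool.Agent.H7.L.Helper970_TN_P_ind_down
import Pool.Agent.H7.L.Helper970_TN_P_finite_HN
import Pool.Agent.H7.L.Helper970_TN_P_phv_prim



namespace TN970
open scoped Classical


theorem ineq_HN {Γ : Type} [Group Γ] {D : Type} [DivisionRing D] (u : Γ →* Dˣ) (hu : Linnell u)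
    {a b c : ℕ}
    (A : Matrix (Fin a) (Fin b) (MonoidAlgebra ℤ Γ)) (B : Matrix (Fin b) (Fin c) (MonoidAlgebra ℤ Γ))
    (hAB : A * B = 0)
    (hex : ∀ v ∈ ZN u ⊤ (B.map (ev u)), v ∈ BN u ⊤ (A.map (ev u)))
    (π : Γ →* Multiplicative (ℤ × ℤ)) (hπ : Function.Surjective π)
    (v w v0 w0 z0 : ℤ × ℤ) (k l q : ℕ) (hk : 0 < k) (hl : 0 < l) (hq : 0 < q)
    (hv : v = (k : ℤ) • v0) (hw : w = (l : ℤ) • w0) (hz : v + w = (q : ℤ) • z0)
    (hv0 : IsCoprime v0.1 v0.2) (hw0 : IsCoprime w0.1 w0.2) (hz0 : IsCoprime z0.1 z0.2)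
    (hd : 0 < dt v w) :
    q * Module.finrank (Dc u (phv π z0).ker)
        (HN u (phv π z0).ker (A.map (ev u)) (B.map (ev u))) ≤
      k * Module.finrank (Dc u (phv π v0).ker)
        (HN u (phv π v0).ker (A.map (ev u)) (B.map (ev u))) +
      l * Module.finrank (Dc u (phv π w0).ker)
        (HN u (phv π w0).ker (A.map (ev u)) (B.map (ev u))) := by
  obtain ⟨S, hS⟩ := semi_HN u π (A.map (ev u)) (B.map (ev u))
  obtain ⟨x, hx⟩ := hπ (Multiplicative.ofAdd v0)
  obtain ⟨y, hy⟩ := hπ (Multiplicative.ofAdd w0)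
  obtain ⟨z, hz'⟩ := hπ (Multiplicative.ofAdd z0)
  have hx1 : Multiplicative.toAdd (π x) = v0 := by rw [hx]; rfl
  have hy1 : Multiplicative.toAdd (π y) = w0 := by rw [hy]; rfl
  have hz1 : Multiplicative.toAdd (π z) = z0 := by rw [hz']; rfl
  obtain ⟨sx, kx, tx⟩ := phv_prim π hπ v0 hv0 x hx1
  obtain ⟨sy, ky, ty⟩ := phv_prim π hπ w0 hw0 y hy1
  obtain ⟨sz, kz, tz⟩ := phv_prim π hπ z0 hz0 z hz1
  haveI fz := finite_HN u hu A B hAB hex (phv π z0) sz
  haveI fx := finite_HN u hu A B hAB hex (phv π v0) sx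
  haveI fy := finite_HN u hu A B hAB hex (phv π w0) sy
  obtain ⟨m, hm⟩ := ind_down u hu π A B hAB S hS (phv π z0).ker (MonoidHom.normal_ker _) z kz tz
    (Module.finrank (Dc u (phv π z0).ker)
        (HN u (phv π z0).ker (A.map (ev u)) (B.map (ev u))))
    (Module.finBasis (Dc u (phv π z0).ker)
        (HN u (phv π z0).ker (A.map (ev u)) (B.map (ev u))))
    (Module.Basis.linearIndependent _)
  refine main_ineq S hπ m (fun i => torsion u hu π A B hex S hS (m i)) v w v0 w0 z0 k l q hk hl hq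
    hv hw hz hd x y z hx1 hy1 hz1 _ _ ?_ ?_ hm
  · intro r f hf
    obtain ⟨f', hf'⟩ := ind_up u hu π A B hAB S hS (phv π v0).ker (MonoidHom.normal_ker _) x kx tx
      r f hf
    simpa using hf'.fintype_card_le_finrank
  · intro r f hf
    obtain ⟨f', hf'⟩ := ind_up u hu π A B hAB S hS (phv π w0).ker (MonoidHom.normal_ker _) y ky ty
      r f hf
    simpa using hf'.fintype_card_le_finrank

end TN970
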