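import Pool.Agent.H7.L.Helper970_TN_Defs



namespace TN970
open scoped Classical


theorem prim_decomp (v : ℤ × ℤ) (hv : v ≠ 0) :
    ∃ (k : ℕ) (v0 : ℤ × ℤ), 0 < k ∧ IsCoprime v0.1 v0.2 ∧ v = (k : ℤ) • v0 := by
  have hg : 0 < Int.gcd v.1 v.2 := by
    rw [Int.gcd_pos_iff]
    by_contra hcon
    push Not at hcon
    exact hv (Prod.ext hcon.1 hcon.2)
  refine ⟨Int.gcd v.1 v.2, (v.1 / (Int.gcd v.1 v.2 : ℤ), v.2 / (Int.gcd v.1 v.2 : ℤ)), hg, ?_, ?_⟩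
  · rw [Int.isCoprime_iff_gcd_eq_one]
    exact Int.gcd_div_gcd_div_gcd hg
  · have h1 : ((Int.gcd v.1 v.2 : ℕ) : ℤ) * (v.1 / (Int.gcd v.1 v.2 : ℤ)) = v.1 :=
      Int.mul_ediv_cancel' (Int.gcd_dvd_left ..)
    have h2 : ((Int.gcd v.1 v.2 : ℕ) : ℤ) * (v.2 / (Int.gcd v.1 v.2 : ℤ)) = v.2 :=
      Int.mul_ediv_cancel' (Int.gcd_dvd_right ..)
    ext
    · simp only [Prod.smul_mk, smul_eq_mul]
      exact h1.symm
    · simp only [Prod.smul_mk, smul_eq_mul]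
      exact h2.symm

end TN970
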