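import Pool.Agent.H7.L.Helper970_TN_Defs
import Pool.Agent.H7.L.Helper970_TN_P_pair_structure
import Pool.Agent.H7.L.Helper970_TN_P_prim_decomp
import Pool.Agent.H7.L.Helper970_TN_P_phv_prim
import Pool.Agent.H7.L.Helper970_TN_P_phv_lin
import Pool.Agent.H7.L.Helper970_TN_P_ineq_HN



namespace TN970
open scoped Classical


theorem subadd_pos {Γ : Type} [Group Γ] {D : Type} [DivisionRing D] (u : Γ →* Dˣ) (hu : Linnell u)
    {a b c : ℕ}
    (A : Matrix (Fin a) (Fin b) (MonoidAlgebra ℤ Γ)) (B : Matrix (Fin b) (Fin c) (MonoidAlgebra ℤ Γ))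
    (hAB : A * B = 0)
    (hex : ∀ v ∈ ZN u ⊤ (B.map (ev u)), v ∈ BN u ⊤ (A.map (ev u)))
    (β : (Γ →* Multiplicative ℤ) → ℕ)
    (hβ : ∀ φ : Γ →* Multiplicative ℤ, Function.Surjective φ → ∀ k : ℤ,
        β (φ ^ k) = k.natAbs * Module.finrank (Dc u φ.ker)
          (HN u φ.ker (A.map (ev u)) (B.map (ev u))))
    (π : Γ →* Multiplicative (ℤ × ℤ)) (hπ : Function.Surjective π) (v w : ℤ × ℤ)
    (hd : 0 < dt v w) :
    β (phv π v * phv π w) ≤ β (phv π v) + β (phv π w) := by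
  have hv : v ≠ 0 := by
    rintro rfl
    simp [dt] at hd
  have hw : w ≠ 0 := by
    rintro rfl
    simp [dt] at hd
  have hz : v + w ≠ 0 := by
    intro h
    have h1 : v = -w := eq_neg_of_add_eq_zero_left h
    subst h1
    simp only [dt, Prod.fst_neg, Prod.snd_neg] at hd
    have h2 : -w.1 * w.2 - -w.2 * w.1 = 0 := by ring
    omega
  obtain ⟨k, v0, hk, hv0, hkv⟩ := prim_decomp v hv
  obtain ⟨l, w0, hl, hw0, hlw⟩ := prim_decomp w hw
  obtain ⟨q, z0, hq, hz0, hqz⟩ := prim_decomp (v + w) hz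
  have key : ∀ (k : ℕ) (v v0 : ℤ × ℤ), IsCoprime v0.1 v0.2 → v = (k : ℤ) • v0 →
      β (phv π v) = k * Module.finrank (Dc u (phv π v0).ker)
        (HN u (phv π v0).ker (A.map (ev u)) (B.map (ev u))) := by
    intro k v v0 hv0 hkv
    obtain ⟨x, hx⟩ := hπ (Multiplicative.ofAdd v0)
    have hs := (phv_prim π hπ v0 hv0 x (by rw [hx]; rfl)).1
    rw [hkv, (phv_lin π v0 v0 (k : ℤ)).1, hβ _ hs (k : ℤ), Int.natAbs_natCast]
  rw [← (phv_lin π v w 0).2, key k v v0 hv0 hkv, key l w w0 hw0 hlw, key q (v + w) z0 hz0 hqz]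
  exact ineq_HN u hu A B hAB hex π hπ v w v0 w0 z0 k l q hk hl hq hkv hlw hqz hv0 hw0 hz0 hd

theorem subadd {Γ : Type} [Group Γ] {D : Type} [DivisionRing D] (u : Γ →* Dˣ) (hu : Linnell u)
    {a b c : ℕ}
    (A : Matrix (Fin a) (Fin b) (MonoidAlgebra ℤ Γ)) (B : Matrix (Fin b) (Fin c) (MonoidAlgebra ℤ Γ))
    (hAB : A * B = 0)
    (hex : ∀ v ∈ ZN u ⊤ (B.map (ev u)), v ∈ BN u ⊤ (A.map (ev u)))
    (β : (Γ →* Multiplicative ℤ) → ℕ) (hβ1 : β 1 = 0)
    (hβ : ∀ φ : Γ →* Multiplicative ℤ, Function.Surjective φ → ∀ k : ℤ,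
        β (φ ^ k) = k.natAbs * Module.finrank (Dc u φ.ker)
          (HN u φ.ker (A.map (ev u)) (B.map (ev u))))
    (φ ψ : Γ →* Multiplicative ℤ) : β (φ * ψ) ≤ β φ + β ψ := by
  rcases pair_structure φ ψ with ⟨rfl, rfl⟩ | ⟨χ, k, l, hχ, rfl, rfl⟩ | ⟨π, v, w, hπ, hd, rfl, rfl⟩
  · rw [mul_one, hβ1]
  · rw [← zpow_add, hβ χ hχ, hβ χ hχ, hβ χ hχ, ← add_mul]
    exact Nat.mul_le_mul_right _ (Int.natAbs_add_le k l)
  · rcases lt_or_gt_of_ne hd with h | h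
    · have h' : 0 < dt w v := by
        have h2 : dt w v = - dt v w := by simp only [dt]; ring
        omega
      rw [mul_comm (phv π v), add_comm (β (phv π v))]
      exact subadd_pos u hu A B hAB hex β hβ π hπ w v h'
    · exact subadd_pos u hu A B hAB hex β hβ π hπ v w h

end TN970
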