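import Pool.Agent.H7.L.RK_Defs

set_option autoImplicit false
open Matrix


namespace Pool.Agent.RK.RatOf
open Pool.Agent.RK

open Matrix

/-! ## TARGET (prove this) -/

theorem rat_of {Λ U : Type} [Ring Λ] [Ring U] (κ : Λ →+* U) {n : Type} [Fintype n]
    [DecidableEq n] (A : Matrix n n Λ) (B : Matrix n n U) (b c : n → Λ)
    (h1 : A.map κ * B = 1) (h2 : B * A.map κ = 1) :
    (∑ i, ∑ j, κ (b i) * B i j * κ (c j)) ∈ ratSet κ := by
  refine ⟨Fintype.card n, A.submatrix (Fintype.equivFin n).symm (Fintype.equivFin n).symm,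
    B.submatrix (Fintype.equivFin n).symm (Fintype.equivFin n).symm,
    fun i => b ((Fintype.equivFin n).symm i), fun i => c ((Fintype.equivFin n).symm i), ?_, ?_, ?_⟩
  · have e1 : (A.submatrix (Fintype.equivFin n).symm (Fintype.equivFin n).symm).map κ =
        (A.map κ).submatrix (Fintype.equivFin n).symm (Fintype.equivFin n).symm := rfl
    rw [e1, Matrix.submatrix_mul_equiv, h1, Matrix.submatrix_one_equiv]
  · have e1 : (A.submatrix (Fintype.equivFin n).symm (Fintype.equivFin n).symm).map κ =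
        (A.map κ).submatrix (Fintype.equivFin n).symm (Fintype.equivFin n).symm := rfl
    rw [e1, Matrix.submatrix_mul_equiv, h2, Matrix.submatrix_one_equiv]
  · simp only [Matrix.submatrix_apply]
    rw [← Equiv.sum_comp (Fintype.equivFin n).symm
      (fun i => ∑ j, κ (b i) * B i j * κ (c j))]
    refine Finset.sum_congr rfl fun i _ => ?_
    exact (Equiv.sum_comp (Fintype.equivFin n).symm
      (fun j => κ (b ((Fintype.equivFin n).symm i)) * B ((Fintype.equivFin n).symm i) j *
        κ (c j))).symm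

theorem rat_base {Λ U : Type} [Ring Λ] [Ring U] (κ : Λ →+* U) (a : Λ) : κ a ∈ ratSet κ := by
  refine ⟨1, 1, 1, fun _ => 1, fun _ => a, ?_, ?_, ?_⟩
  · rw [Matrix.map_one κ (map_zero κ) (map_one κ), mul_one]
  · rw [Matrix.map_one κ (map_zero κ) (map_one κ), mul_one]
  · simp

theorem rat_neg {Λ U : Type} [Ring Λ] [Ring U] (κ : Λ →+* U) (x : U) (hx : x ∈ ratSet κ) :
    -x ∈ ratSet κ := by
  obtain ⟨n, A, B, b, c, h1, h2, rfl⟩ := hx
  refine ⟨n, A, B, fun i => -b i, c, h1, h2, ?_⟩
  simp only [map_neg, neg_mul, Finset.sum_neg_distrib]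

end Pool.Agent.RK.RatOf
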