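import Pool.Agent.H7.L.RK_Defs
import Pool.Agent.H7.L.RK_RatOf

set_option autoImplicit false
open Matrix


namespace Pool.Agent.RK.RatAdd
open Pool.Agent.RK
open Pool.Agent.RK.RatOf (rat_of)

open Matrix



/-! ## TARGET (prove this) -/

theorem rat_add {Λ U : Type} [Ring Λ] [Ring U] (κ : Λ →+* U) (x y : U) (hx : x ∈ ratSet κ)
    (hy : y ∈ ratSet κ) : x + y ∈ ratSet κ := by
  obtain ⟨n, A, B, b, c, h1, h2, rfl⟩ := hx
  obtain ⟨n', A', B', b', c', h1', h2', rfl⟩ := hy
  have h := rat_of κ (Matrix.fromBlocks A 0 0 A') (Matrix.fromBlocks B 0 0 B')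
    (Sum.elim b b') (Sum.elim c c')
    (by
      rw [Matrix.fromBlocks_map, Matrix.fromBlocks_multiply]
      simp [h1, h1'])
    (by
      rw [Matrix.fromBlocks_map, Matrix.fromBlocks_multiply]
      simp [h2, h2'])
  have e : (∑ i, ∑ j, κ (Sum.elim b b' i) * (Matrix.fromBlocks B 0 0 B') i j *
      κ (Sum.elim c c' j)) = (∑ i, ∑ j, κ (b i) * B i j * κ (c j)) +
      (∑ i, ∑ j, κ (b' i) * B' i j * κ (c' j)) := by
    simp [Fintype.sum_sum_type]
  rw [e] at h
  exact h

theorem rat_mul {Λ U : Type} [Ring Λ] [Ring U] (κ : Λ →+* U) (x y : U) (hx : x ∈ ratSet κ)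
    (hy : y ∈ ratSet κ) : x * y ∈ ratSet κ := by
  obtain ⟨n, A, B, b, c, h1, h2, rfl⟩ := hx
  obtain ⟨n', A', B', b', c', h1', h2', rfl⟩ := hy
  let Z : Matrix (Fin n) (Fin n') Λ := Matrix.of fun i j => -(c i * b' j)
  let W : Matrix (Fin n) (Fin n') U := Matrix.of fun i j => κ (c i) * κ (b' j)
  have hZ : Z.map κ = -W := by
    ext i j
    simp [Z, W]
  have h := rat_of κ (Matrix.fromBlocks A Z 0 A') (Matrix.fromBlocks B (B * W * B') 0 B')
    (Sum.elim b 0) (Sum.elim 0 c')
    (by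
      rw [Matrix.fromBlocks_map, Matrix.fromBlocks_multiply, hZ]
      have e1 : A.map κ * (B * W * B') + -W * B' = 0 := by
        rw [← Matrix.mul_assoc, ← Matrix.mul_assoc, h1, Matrix.one_mul, Matrix.neg_mul, add_neg_cancel]
      rw [e1]
      simp [h1, h1'])
    (by
      rw [Matrix.fromBlocks_map, Matrix.fromBlocks_multiply, hZ]
      have e1 : B * -W + B * W * B' * A'.map κ = 0 := by
        rw [Matrix.mul_assoc (B * W), h2', Matrix.mul_one, Matrix.mul_neg, neg_add_cancel]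
      rw [e1]
      simp [h2, h2'])
  have e : (∑ i, ∑ j, κ (Sum.elim b 0 i) * (Matrix.fromBlocks B (B * W * B') 0 B') i j *
      κ (Sum.elim (0 : Fin n → Λ) c' j)) = (∑ i, ∑ j, κ (b i) * B i j * κ (c j)) *
      (∑ i, ∑ j, κ (b' i) * B' i j * κ (c' j)) := by
    have hW : ∀ i j, (B * W * B') i j = (∑ k, B i k * κ (c k)) * (∑ l, κ (b' l) * B' l j) := by
      intro i j
      rw [Matrix.mul_apply, Finset.sum_mul_sum]
      rw [Finset.sum_comm]
      apply Finset.sum_congr rfl
      intro l _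
      rw [Matrix.mul_apply, Finset.sum_mul]
      apply Finset.sum_congr rfl
      intro k _
      simp only [W, Matrix.of_apply, mul_assoc]
    have e1 : (∑ i, ∑ j, κ (Sum.elim b 0 i) * (Matrix.fromBlocks B (B * W * B') 0 B') i j *
      κ (Sum.elim (0 : Fin n → Λ) c' j)) = ∑ i, ∑ j, κ (b i) * (B * W * B') i j * κ (c' j) := by
      simp [Fintype.sum_sum_type]
    rw [e1]
    have e2 : (∑ i, ∑ j, κ (b i) * B i j * κ (c j)) = ∑ i, κ (b i) * ∑ k, B i k * κ (c k) := by
      apply Finset.sum_congr rfl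
      intro i _
      rw [Finset.mul_sum]
      apply Finset.sum_congr rfl
      intro k _
      rw [mul_assoc]
    have e3 : (∑ i, ∑ j, κ (b' i) * B' i j * κ (c' j)) =
        ∑ j, (∑ l, κ (b' l) * B' l j) * κ (c' j) := by
      rw [Finset.sum_comm]
      apply Finset.sum_congr rfl
      intro j _
      rw [Finset.sum_mul]
    rw [e2, e3, Finset.sum_mul_sum]
    apply Finset.sum_congr rfl
    intro i _
    apply Finset.sum_congr rfl
    intro j _
    rw [hW]
    simp only [mul_assoc]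
  rw [e] at h
  exact h

end Pool.Agent.RK.RatAdd
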