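import Pool.Agent.H7.L.RK_Defs
import Pool.Agent.H7.L.RK_RatOf

set_option autoImplicit false
open Matrix


namespace Pool.Agent.RK.RatInv
open Pool.Agent.RK
open Pool.Agent.RK.RatOf (rat_of)

open Matrix



/-! ## TARGET (prove this) -/

theorem rat_inv {Λ U : Type} [Ring Λ] [Ring U] (κ : Λ →+* U) (x y : U) (hx : x ∈ ratSet κ)
    (hxy : x * y = 1) (hyx : y * x = 1) : y ∈ ratSet κ := by
  obtain ⟨n, A, B, b, c, h1, h2, hxe⟩ := hx
  set C : Matrix (Fin n) Unit U := Matrix.of (fun i _ => κ (c i)) with hC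
  set R : Matrix Unit (Fin n) U := Matrix.of (fun _ j => κ (b j)) with hR
  set Y : Matrix Unit Unit U := Matrix.of (fun _ _ => y) with hY
  set X : Matrix Unit Unit U := Matrix.of (fun _ _ => x) with hX
  have hXY : X * Y = 1 := by
    ext i j
    simp [hX, hY, Matrix.mul_apply, hxy]
  have hYX : Y * X = 1 := by
    ext i j
    simp [hX, hY, Matrix.mul_apply, hyx]
  have hRBC : R * B * C = X := by
    ext i j
    simp only [hX, hxe, Matrix.mul_apply, hR, hC, Finset.sum_mul, Matrix.of_apply]
    exact Finset.sum_comm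
  set M : Matrix (Fin n ⊕ Unit) (Fin n ⊕ Unit) Λ :=
    fromBlocks A (Matrix.of fun i _ => c i) (Matrix.of fun _ j => b j) 0 with hM
  set N : Matrix (Fin n ⊕ Unit) (Fin n ⊕ Unit) U :=
    fromBlocks (B - B * C * Y * R * B) (B * C * Y) (Y * R * B) (-Y) with hN
  have hMm : M.map κ = fromBlocks (A.map κ) C R 0 := by
    rw [hM, fromBlocks_map]
    congr 1
    ext i j
    simp
  have e1 : M.map κ * N = 1 := by
    rw [hMm, hN, fromBlocks_multiply, ← fromBlocks_one]
    congr 1
    · rw [mul_sub, h1]
      have : A.map κ * (B * C * Y * R * B) = (A.map κ * B) * (C * Y * R * B) := by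
        simp only [Matrix.mul_assoc]
      rw [this, h1, Matrix.one_mul]
      have : C * (Y * R * B) = C * Y * R * B := by simp only [Matrix.mul_assoc]
      rw [this, sub_add_cancel]
    · have : A.map κ * (B * C * Y) = (A.map κ * B) * (C * Y) := by simp only [Matrix.mul_assoc]
      rw [this, h1, Matrix.one_mul, Matrix.mul_neg, add_neg_cancel]
    · have : R * (B - B * C * Y * R * B) = R * B - (R * B * C) * Y * (R * B) := by
        rw [Matrix.mul_sub]; simp only [Matrix.mul_assoc]
      rw [this, hRBC, hXY, Matrix.one_mul, Matrix.zero_mul, add_zero, sub_self]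
    · have : R * (B * C * Y) = (R * B * C) * Y := by simp only [Matrix.mul_assoc]
      rw [this, hRBC, hXY, Matrix.zero_mul, add_zero]
  have e2 : N * M.map κ = 1 := by
    rw [hMm, hN, fromBlocks_multiply, ← fromBlocks_one]
    congr 1
    · rw [Matrix.sub_mul, h2]
      have : B * C * Y * R * B * A.map κ = (B * C * Y * R) * (B * A.map κ) := by
        simp only [Matrix.mul_assoc]
      rw [this, h2, Matrix.mul_one, sub_add_cancel]
    · have : (B - B * C * Y * R * B) * C = B * C - (B * C) * (Y * (R * B * C)) := by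
        rw [Matrix.sub_mul]; simp only [Matrix.mul_assoc]
      rw [this, hRBC, hYX, Matrix.mul_one, Matrix.mul_zero, add_zero, sub_self]
    · have : Y * R * B * A.map κ = Y * R * (B * A.map κ) := by simp only [Matrix.mul_assoc]
      rw [this, h2, Matrix.mul_one, Matrix.neg_mul, add_neg_cancel]
    · have : Y * R * B * C = Y * (R * B * C) := by simp only [Matrix.mul_assoc]
      rw [this, hRBC, hYX, Matrix.mul_zero, add_zero]
  have key := rat_of κ M N (Sum.elim (fun _ => 0) (fun _ => 1)) (Sum.elim (fun _ => 0) (fun _ => -1))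
    e1 e2
  have hsum : (∑ i, ∑ j, κ ((Sum.elim (fun _ => 0) (fun _ => 1) : Fin n ⊕ Unit → Λ) i) * N i j *
      κ ((Sum.elim (fun _ => 0) (fun _ => -1) : Fin n ⊕ Unit → Λ) j)) = y := by
    simp [Fintype.sum_sum_type, hN, hY]
  rw [hsum] at key
  exact key

end Pool.Agent.RK.RatInv
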