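import Pool.Agent.H7.L.RK_Defs
import Pool.Agent.H7.L.RK_OreRest
import Pool.Agent.H7.L.RK_Nz

set_option autoImplicit false
open Matrix


namespace Pool.Agent.RK.Common
open Pool.Agent.RK
open Pool.Agent.RK.OreRest (ore_left ore_right)
open Pool.Agent.RK.Nz (nz_mul)

open Matrix





/-! ## TARGET (prove this) -/

theorem fam_right {R U : Type} [Ring R] [StarRing R] [Ring U] {τ : R →+ ℝ} (h : VN R τ)
    {ι : R →+* U} (hι : Loc ι) {α : Type} (y : α → U) (S : Finset α) :
    ∃ s : R, Nz s ∧ ∀ a ∈ S, ∃ x : R, y a * ι s = ι x := by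
  classical
  induction S using Finset.induction_on with
  | empty => exact ⟨1, fun x hx => by rwa [mul_one] at hx, fun a ha => absurd ha (Finset.notMem_empty a)⟩
  | insert a S _ ih =>
    obtain ⟨s, hs, hS⟩ := ih
    obtain ⟨t, z, ht, hz⟩ := hι.right (y a)
    obtain ⟨s', b', hs', he⟩ := ore_right h s t ht
    refine ⟨s * s', nz_mul s s' hs hs', ?_⟩
    intro b hb
    rcases Finset.mem_insert.mp hb with rfl | hb
    · exact ⟨z * b', by rw [he, map_mul, ← mul_assoc, hz, map_mul]⟩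
    · obtain ⟨x, hx⟩ := hS b hb
      exact ⟨x * s', by rw [map_mul, ← mul_assoc, hx, map_mul]⟩

theorem fam_left {R U : Type} [Ring R] [StarRing R] [Ring U] {τ : R →+ ℝ} (h : VN R τ)
    {ι : R →+* U} (hι : Loc ι) {α : Type} (y : α → U) (S : Finset α) :
    ∃ s : R, Nz s ∧ ∀ a ∈ S, ∃ x : R, ι s * y a = ι x := by
  classical
  induction S using Finset.induction_on with
  | empty => exact ⟨1, fun x hx => by rwa [mul_one] at hx, fun a ha => absurd ha (Finset.notMem_empty a)⟩
  | insert a S _ ih =>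
    obtain ⟨s, hs, hS⟩ := ih
    obtain ⟨t, z, ht, hz⟩ := hι.left (y a)
    obtain ⟨s', b', hs', he⟩ := ore_left h s t ht
    refine ⟨s' * s, nz_mul s' s hs' hs, ?_⟩
    intro b hb
    rcases Finset.mem_insert.mp hb with rfl | hb
    · exact ⟨b' * z, by rw [he, map_mul, mul_assoc, hz, map_mul]⟩
    · obtain ⟨x, hx⟩ := hS b hb
      exact ⟨s' * x, by rw [map_mul, mul_assoc, hx, map_mul]⟩

theorem common_right {R U : Type} [Ring R] [StarRing R] [Ring U] {τ : R →+ ℝ} (h : VN R τ)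
    {ι : R →+* U} (hι : Loc ι) {m n : Type} [Fintype m] [Fintype n] (X : Matrix m n U) :
    ∃ (s : R) (A : Matrix m n R), Nz s ∧ ∀ i j, X i j * ι s = ι (A i j) := by
  obtain ⟨s, hs, hS⟩ := fam_right h hι (fun p : m × n => X p.1 p.2) Finset.univ
  choose A hA using fun (i : m) (j : n) => hS (i, j) (Finset.mem_univ _)
  exact ⟨s, A, hs, hA⟩

theorem common_left {R U : Type} [Ring R] [StarRing R] [Ring U] {τ : R →+ ℝ} (h : VN R τ)
    {ι : R →+* U} (hι : Loc ι) {m n : Type} [Fintype m] [Fintype n] (X : Matrix m n U) :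
    ∃ (s : R) (A : Matrix m n R), Nz s ∧ ∀ i j, ι s * X i j = ι (A i j) := by
  obtain ⟨s, hs, hS⟩ := fam_left h hι (fun p : m × n => X p.1 p.2) Finset.univ
  choose A hA using fun (i : m) (j : n) => hS (i, j) (Finset.mem_univ _)
  exact ⟨s, A, hs, hA⟩

end Pool.Agent.RK.Common
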