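import Pool.Agent.H7.L.RK_Defs
import Pool.Agent.H7.L.RK_Lp

set_option autoImplicit false
open Matrix


namespace Pool.Agent.RK.RkInj
open Pool.Agent.RK
open Pool.Agent.RK.Lp (lp_exists lp_unique rk_eq rk_star)

open Matrix






/-! ## TARGET (prove this) -/

theorem rk_mul_of_inj {R : Type} [Ring R] [StarRing R] {τ : R →+ ℝ} (h : VN R τ) {m n k : Type}
    [Fintype m] [Fintype n] [Fintype k] (A : Matrix m n R) (B : Matrix n k R)
    (hB : ∀ x : n → R, Matrix.vecMul x B = 0 → x = 0) : rk τ (A * B) = rk τ A := by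
  obtain ⟨p, hp⟩ := lp_exists h A
  have h2 : IsLP (A * B) p := by
    refine ⟨hp.idem, hp.star, ?_, ?_⟩
    · rw [← Matrix.mul_assoc, hp.mul]
    · intro x hx
      apply hp.min
      apply hB
      rw [Matrix.vecMul_vecMul, hx]
  rw [rk_eq _ p h2, rk_eq _ p hp]

theorem rk_mul_of_inj' {R : Type} [Ring R] [StarRing R] {τ : R →+ ℝ} (h : VN R τ) {m n k : Type}
    [Fintype m] [Fintype n] [Fintype k] (A : Matrix m n R) (B : Matrix n k R)
    (hA : ∀ y : n → R, Matrix.mulVec A y = 0 → y = 0) : rk τ (A * B) = rk τ B := by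
  rw [← rk_star h (A * B), ← rk_star h B, Matrix.conjTranspose_mul]
  apply rk_mul_of_inj h
  intro x hx
  rw [Matrix.vecMul_conjTranspose, star_eq_zero] at hx
  exact star_eq_zero.1 (hA _ hx)

end Pool.Agent.RK.RkInj
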