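import Pool.Agent.H7.L.RK_Defs
import Pool.Agent.H7.L.RK_RatOf
import Pool.Agent.H7.L.RK_RatAdd
import Pool.Agent.H7.L.RK_RatInv
import Pool.Agent.H7.L.RK_RatUnit

set_option autoImplicit false
open Matrix


namespace Pool.Agent.RK.RatDiv
open Pool.Agent.RK
open Pool.Agent.RK.RatOf (rat_base rat_neg)
open Pool.Agent.RK.RatAdd (rat_add rat_mul)
open Pool.Agent.RK.RatInv (rat_inv)
open Pool.Agent.RK.RatUnit (rat_unit)

open Matrix








/-! ## TARGET (prove this) -/

/-- The rational closure is a division ring (V4). -/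
theorem rat_div {Λ R U : Type} [Ring Λ] [Ring R] [StarRing R] [Ring U] {τ : R →+ ℝ}
    (h : VN R τ) {ι : R →+* U} (hι : Loc ι) (κ : Λ →+* R)
    (hint : ∀ (m n : ℕ) (A : Matrix (Fin m) (Fin n) Λ), ∃ k : ℕ, rk τ (A.map κ) = k) :
    ∃ (D : Type) (_ : DivisionRing D) (e : D →+* U), Set.range e = ratSet (ι.comp κ) := by
  let S : Subring U :=
    { carrier := ratSet (ι.comp κ)
      mul_mem' := fun {a b} ha hb => rat_mul _ a b ha hb
      one_mem' := by
        have := rat_base (ι.comp κ) 1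
        rwa [map_one] at this
      add_mem' := fun {a b} ha hb => rat_add _ a b ha hb
      zero_mem' := by
        have := rat_base (ι.comp κ) 0
        rwa [map_zero] at this
      neg_mem' := fun {a} ha => rat_neg _ a ha }
  have h10 : (1 : U) ≠ 0 := by
    intro h1
    have h2 : (1 : R) = 0 := hι.inj (by rw [map_one, map_zero, h1])
    have h3 := h.one
    rw [h2, map_zero] at h3
    exact zero_ne_one h3
  haveI : Nontrivial S := ⟨⟨1, 0, fun e => h10 (congrArg Subtype.val e)⟩⟩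
  have hunit : ∀ a : S, IsUnit a ∨ a = 0 := by
    intro a
    by_cases ha : a = 0
    · exact Or.inr ha
    · left
      have ha' : (a : U) ≠ 0 := fun e => ha (Subtype.ext e)
      obtain ⟨u, hu⟩ := rat_unit h hι κ hint (a : U) a.2 ha'
      have h1 : (a : U) * (↑(u⁻¹) : U) = 1 := by rw [← hu]; exact u.mul_inv
      have h2 : (↑(u⁻¹) : U) * (a : U) = 1 := by rw [← hu]; exact u.inv_mul
      have h3 : (↑(u⁻¹) : U) ∈ ratSet (ι.comp κ) := rat_inv _ _ _ a.2 h1 h2
      exact ⟨⟨a, ⟨_, h3⟩, Subtype.ext h1, Subtype.ext h2⟩, rfl⟩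
  refine ⟨S, DivisionRing.ofIsUnitOrEqZero hunit, S.subtype, ?_⟩
  ext x
  constructor
  · rintro ⟨y, rfl⟩
    exact y.2
  · intro hx
    exact ⟨⟨x, hx⟩, rfl⟩

end Pool.Agent.RK.RatDiv
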