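import Pool.Agent.H7.L.RK_Defs2
import Pool.Agent.H7.L.RK_RatDiv
import Pool.Agent.H7.L.RK_RatOf

set_option autoImplicit false
open Matrix
open scoped Classical

namespace Pool.Agent.RK.DEx
open Pool.Agent.RK
open Pool.Agent.RK.RatDiv (rat_div)
open Pool.Agent.RK.RatOf (rat_base)

open Matrix




/-! ## TARGET (prove this) -/

/-- The division ring `D(Γ)` of a group satisfying the Atiyah conjecture. -/
theorem d_exists {Γ : Type} [Group Γ] {R U : Type} [Ring R] [StarRing R] [Ring U]
    {τ : R →+ ℝ} (h : VN R τ) {ι : R →+* U} (hι : Loc ι) (κ : MonoidAlgebra ℤ Γ →+* R)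
    (hint : ∀ (m n : ℕ) (A : Matrix (Fin m) (Fin n) (MonoidAlgebra ℤ Γ)),
      ∃ k : ℕ, rk τ (A.map κ) = k) :
    ∃ (D : Type) (_ : DivisionRing D) (e : D →+* U) (u : Γ →* Dˣ),
      Set.range e = ratSet (ι.comp κ) ∧
      (∀ g, e ((u g : Dˣ) : D) = ι (κ (MonoidAlgebra.of ℤ Γ g))) ∧
      ∀ a, e (TN970.ev u a) = ι (κ a) := by
  obtain ⟨D, inst, e, he⟩ := rat_div h hι κ hint
  have hR : Nontrivial R := by
    refine ⟨⟨1, 0, fun h1 => ?_⟩⟩
    have := h.one
    rw [h1, map_zero] at this
    exact zero_ne_one this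
  have hU : Nontrivial U := hι.inj.nontrivial
  have hinj : Function.Injective e := e.injective
  have hex : ∀ g : Γ, ∃ x : D, e x = ι (κ (MonoidAlgebra.of ℤ Γ g)) := by
    intro g
    have h1 : (ι.comp κ) (MonoidAlgebra.of ℤ Γ g) ∈ Set.range e := by
      rw [he]
      exact rat_base (ι.comp κ) _
    obtain ⟨x, hx⟩ := h1
    exact ⟨x, hx⟩
  choose v hv using hex
  let v' : Γ →* D :=
    { toFun := v
      map_one' := by
        apply hinj
        rw [hv, map_one, map_one, map_one, map_one]
      map_mul' := by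
        intro g g'
        apply hinj
        rw [map_mul e, hv, hv, hv, map_mul, map_mul, map_mul] }
  have hu : ∀ g, (((MonoidHom.toHomUnits v') g : Dˣ) : D) = v g := fun g => rfl
  refine ⟨D, inst, e, MonoidHom.toHomUnits v', he, fun g => ?_, ?_⟩
  · rw [hu, hv]
  · have hcomp : e.comp (TN970.ev (MonoidHom.toHomUnits v')) = ι.comp κ := by
      apply MonoidAlgebra.ringHom_ext
      · intro r
        have h1 : (e.comp (TN970.ev (MonoidHom.toHomUnits v'))).comp
            (MonoidAlgebra.singleOneRingHom : ℤ →+* MonoidAlgebra ℤ Γ) =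
            (ι.comp κ).comp (MonoidAlgebra.singleOneRingHom : ℤ →+* MonoidAlgebra ℤ Γ) :=
          RingHom.ext_int _ _
        exact congrFun (congrArg DFunLike.coe h1) r
      · intro g
        have h2 : TN970.ev (MonoidHom.toHomUnits v') (MonoidAlgebra.single g 1) = v g := by
          have := MonoidAlgebra.lift_of (R := ℤ) ((Units.coeHom D).comp (MonoidHom.toHomUnits v')) g
          exact this
        change e (TN970.ev (MonoidHom.toHomUnits v') (MonoidAlgebra.single g 1)) = _
        rw [h2, hv]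
        rfl
    intro a
    exact congrFun (congrArg DFunLike.coe hcomp) a
end Pool.Agent.RK.DEx
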