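import Pool.Agent.H7.L.Helper831_V6_P_upper
import Pool.Agent.H7.L.Helper831_V6_P_lower
import Pool.Agent.H7.L.Helper277_VN5
import Pool.Agent.H7.L.Helper655_VNLink
import Pool.Agent.H7.L.RK_Linn
import Pool.Agent.H7.L.RK_DEx
import Pool.Agent.H7.L.RK_LocEx
import Pool.Agent.H7.L.Helper970_TN_P_part1

attribute [local instance] VN831.bcFunctor_additive VN831.viaAdd VN831.viaMod
  Pool.Agent.Helper655.VN.kerM_hop

set_option autoImplicit false

open scoped ENNReal

namespace VN831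

open Pool.Agent.Helper655.VN Pool.Agent.RK TN970 V6

theorem zN_of {G : Type} [Group G] (g : G) : zN (MonoidAlgebra.of ℤ G g) = canL g := by
  show MonoidAlgebra.lift ℤ (NG G) G canL (MonoidAlgebra.of ℤ G g) = canL g
  exact MonoidAlgebra.lift_of _ _

theorem luckDim_congr {G : Type} [Group G] {M M' : Type} [AddCommGroup M] [Module (NG G) M]
    [AddCommGroup M'] [Module (NG G) M'] (f : M ≃ₗ[NG G] M') : luckDim G M = luckDim G M' := by
  unfold luckDim
  refine iSup_congr fun k => iSup_congr fun e => iSup_congr fun he => ?_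
  refine iSup_congr_Prop ⟨?_, ?_⟩ (fun _ => rfl)
  · rintro ⟨g, hg⟩
    exact ⟨f.toLinearMap ∘ₗ g, f.injective.comp hg⟩
  · rintro ⟨g, hg⟩
    exact ⟨f.symm.toLinearMap ∘ₗ g, f.symm.injective.comp hg⟩

theorem luckDim_le {G : Type} [Group G] {M : Type} [AddCommGroup M] [Module (NG G) M] (r : ℕ)
    (h : ∀ (k : ℕ) (e : Matrix (Fin k) (Fin k) (NG G)), e * e = e →
      ∀ f : rowMod e →ₗ[NG G] M, Function.Injective f → Tr (tau G) e ≤ r) :
    luckDim G M ≤ r := by
  unfold luckDim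
  refine iSup_le fun k => iSup_le fun e => iSup_le fun he => iSup_le ?_
  rintro ⟨f, hf⟩
  have h1 := h k e he f hf
  have h2 : (∑ i, (tr (e i i)).re) ≤ (r : ℝ) := h1
  calc ENNReal.ofReal (∑ i, (tr (e i i)).re) ≤ ENNReal.ofReal (r : ℝ) :=
        ENNReal.ofReal_le_ofReal h2
    _ = r := ENNReal.ofReal_natCast r

theorem le_luckDim {G : Type} [Group G] {M : Type} [AddCommGroup M] [Module (NG G) M] (r : ℕ)
    (f : (Fin r → NG G) →ₗ[NG G] M) (hf : Function.Injective f) : (r : ℝ≥0∞) ≤ luckDim G M := by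
  classical
  unfold luckDim
  have h1 : ∃ g : rowMod (1 : Matrix (Fin r) (Fin r) (NG G)) →ₗ[NG G] M, Function.Injective g :=
    ⟨f ∘ₗ (rowMod (1 : Matrix (Fin r) (Fin r) (NG G))).subtype,
      hf.comp (Submodule.injective_subtype _)⟩
  have h2 : (r : ℝ≥0∞) = ENNReal.ofReal
      (∑ i, (tr ((1 : Matrix (Fin r) (Fin r) (NG G)) i i)).re) := by
    have h3 : ∀ i : Fin r, (tr ((1 : Matrix (Fin r) (Fin r) (NG G)) i i)).re = 1 := by
      intro i
      rw [Matrix.one_apply_eq, tr_one, Complex.one_re]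
    rw [Finset.sum_congr rfl (fun i _ => h3 i)]
    simp
  rw [h2]
  exact le_iSup_of_le r (le_iSup_of_le 1 (le_iSup_of_le (one_mul 1) (le_iSup_of_le h1 le_rfl)))

/-- The Lück dimension of the explicit homology over `N(K)` is the dimension over the division
ring, if the latter is finite. -/
theorem luckDim_HR {Γ K : Type} [Group Γ] [Group K] {U D : Type} [Ring U] [DivisionRing D]
    {j : NG K →+* NG Γ} {ι : NG Γ →+* U} {κ : D →+* U} {u : Γ →* Dˣ} {N : Subgroup Γ}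
    (S : Setup (tau K) j ι κ u canL N) (hκ0 : ∀ a, κ (ev u a) = ι (zN a)) {a b d : ℕ}
    (A : Matrix (Fin a) (Fin b) (MonoidAlgebra ℤ Γ)) (B : Matrix (Fin b) (Fin d) (MonoidAlgebra ℤ Γ))
    (hfin : Module.Finite (Dc u N) (HN u N (A.map (ev u)) (B.map (ev u)))) :
    luckDim K (HR j (canL : Γ →* NG Γ) (A.map zN) (B.map zN)) =
      (Module.finrank (Dc u N) (HN u N (A.map (ev u)) (B.map (ev u))) : ℝ≥0∞) := by
  apply le_antisymm
  · exact luckDim_le _ fun k e he f hf => upper S zN hκ0 A B e he f hf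
  · obtain ⟨f, hf⟩ := lower S zN hκ0 A B
      (fun i => Module.finBasis (Dc u N) (HN u N (A.map (ev u)) (B.map (ev u))) i)
      (Module.finBasis (Dc u N) (HN u N (A.map (ev u)) (B.map (ev u)))).linearIndependent
    exact le_luckDim _ f hf

/-- If the Lück dimension of the explicit homology is zero, the homology over the division ring
vanishes. -/
theorem hex_of_luckDim {Γ K : Type} [Group Γ] [Group K] {U D : Type} [Ring U] [DivisionRing D]
    {j : NG K →+* NG Γ} {ι : NG Γ →+* U} {κ : D →+* U} {u : Γ →* Dˣ} {N : Subgroup Γ}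
    (S : Setup (tau K) j ι κ u canL N) (hκ0 : ∀ a, κ (ev u a) = ι (zN a)) {a b d : ℕ}
    (A : Matrix (Fin a) (Fin b) (MonoidAlgebra ℤ Γ)) (B : Matrix (Fin b) (Fin d) (MonoidAlgebra ℤ Γ))
    (h0 : luckDim K (HR j (canL : Γ →* NG Γ) (A.map zN) (B.map zN)) = 0) :
    ∀ v ∈ ZN u N (B.map (ev u)), v ∈ BN u N (A.map (ev u)) := by
  intro v hv
  by_contra hc
  have hne : (Submodule.Quotient.mk ⟨v, hv⟩ : HN u N (A.map (ev u)) (B.map (ev u))) ≠ 0 := by
    intro h
    rw [Submodule.Quotient.mk_eq_zero] at h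
    exact hc h
  obtain ⟨f, hf⟩ := lower S zN hκ0 A B (r := 1)
    (fun _ => (Submodule.Quotient.mk ⟨v, hv⟩ : HN u N (A.map (ev u)) (B.map (ev u))))
    (LinearIndependent.of_subsingleton (0 : Fin 1) hne)
  have h1 := le_luckDim 1 f hf
  rw [h0] at h1
  simp at h1

theorem canL_mul_eq_zero {Γ : Type} [Group Γ] (x : NG Γ) (g : Γ) (h : x * canL g = 0) :
    x = 0 := by
  have h1 : x * canL g * canL g⁻¹ = x := by
    rw [mul_assoc, ← map_mul, mul_inv_cancel, map_one, mul_one]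
  rw [← h1, h, zero_mul]

/-- The set-up for the whole group. -/
theorem setup_top {Γ : Type} [Group Γ] {U D : Type} [Ring U] [DivisionRing D]
    {ι : NG Γ →+* U} (hι : Loc ι) {κ : D →+* U} {u : Γ →* Dˣ}
    (hu : ∀ g, κ ((u g : Dˣ) : D) = ι (canL g)) :
    Setup (tau Γ) (RingHom.id (NG Γ)) ι κ u canL ⊤ where
  vn := vn_NG
  jinj := Function.injective_id
  jnz := fun s hs => hs
  loc := hι
  hu := hu
  hN := fun g _ => ⟨canL g, rfl⟩
  hK := Pool.Agent.RK.DcSub.dc_subset vn_NG (RingHom.id (NG Γ)) Function.injective_id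
    (fun s hs => hs) hι κ u canL hu ⊤ (fun g _ => ⟨canL g, rfl⟩)
  indep := by
    intro s hs x hx g hg
    have hsub : s = {g} := by
      rw [Finset.eq_singleton_iff_unique_mem]
      refine ⟨hg, fun h hh => ?_⟩
      by_contra hne
      exact hs h hh g hg hne (Subgroup.mem_top _)
    rw [hsub, Finset.sum_singleton] at hx
    exact canL_mul_eq_zero _ g hx

/-- The set-up for a subgroup. -/
theorem setup_sub {Γ : Type} [Group Γ] (N : Subgroup Γ) {U D : Type} [Ring U] [DivisionRing D]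
    {ι : NG Γ →+* U} (hι : Loc ι) {κ : D →+* U} {u : Γ →* Dˣ}
    (hu : ∀ g, κ ((u g : Dˣ) : D) = ι (canL g)) :
    Setup (tau N) (Pool.Agent.Helper277.VN5.jN N) ι κ u canL N where
  vn := vn_NG
  jinj := Pool.Agent.Helper277.VN5.jN_injective N
  jnz := fun s hs x hx => Pool.Agent.Helper277.VN5.jN_nz N s hs x hx
  loc := hι
  hu := hu
  hN := fun g hg => ⟨canL ⟨g, hg⟩, Pool.Agent.Helper277.VN5.jN_canL N ⟨g, hg⟩⟩
  hK := Pool.Agent.RK.DcSub.dc_subset vn_NG (Pool.Agent.Helper277.VN5.jN N)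
    (Pool.Agent.Helper277.VN5.jN_injective N)
    (fun s hs x hx => Pool.Agent.Helper277.VN5.jN_nz N s hs x hx) hι κ u canL hu N
    (fun g hg => ⟨canL ⟨g, hg⟩, Pool.Agent.Helper277.VN5.jN_canL N ⟨g, hg⟩⟩)
  indep := fun s hs x hx => Pool.Agent.Helper277.VN5.jN_indep N s x hs hx

/-- The division ring `D(Γ)` of a group satisfying the Atiyah Conjecture, with Linnell's
property. -/
theorem exists_D {Γ : Type} [Group Γ] (hA : Atiyah Γ) :
    ∃ (U : Type) (_ : Ring U) (ι : NG Γ →+* U) (D : Type) (_ : DivisionRing D) (κ : D →+* U)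
      (u : Γ →* Dˣ), Loc ι ∧ (∀ g, κ ((u g : Dˣ) : D) = ι (canL g)) ∧
        (∀ a, κ (ev u a) = ι (zN a)) ∧ Linnell u := by
  obtain ⟨U, hU, ι, hι⟩ := Pool.Agent.RK.LocEx.loc_exists (vn_NG (G := Γ))
  have hint : ∀ (m n : ℕ) (A : Matrix (Fin m) (Fin n) (MonoidAlgebra ℤ Γ)),
      ∃ k : ℕ, rk (tau Γ) (A.map zN) = k := by
    intro m n A
    obtain ⟨k, hk⟩ := atiyah_rk hA m n A
    have h0 := (Pool.Agent.RK.RkMul.rk_nonneg (vn_NG (G := Γ)) (A.map zN)).1
    rw [hk] at h0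
    have h1 : 0 ≤ k := by exact_mod_cast h0
    obtain ⟨l, rfl⟩ := Int.eq_ofNat_of_zero_le h1
    exact ⟨l, by rw [hk]; simp⟩
  obtain ⟨D, hD, κ, u, -, hu, hev⟩ := Pool.Agent.RK.DEx.d_exists (vn_NG (G := Γ)) hι zN hint
  have hu' : ∀ g, κ ((u g : Dˣ) : D) = ι (canL g) := fun g => by rw [hu, zN_of]
  refine ⟨U, hU, ι, D, hD, κ, u, hι, hu', hev, ?_⟩
  refine Pool.Agent.RK.Linn.linnell_of hι κ u canL hu' fun N hN => ?_
  have S := setup_sub N hι hu'
  exact ⟨NG N, inferInstance, inferInstance, tau N, Pool.Agent.Helper277.VN5.jN N, S.vn, S.jinj,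
    S.jnz, S.hN, fun s x hs hx => S.indep s hs x hx⟩

/-- The algebraic description of the homology of the subgroups (proved in `v7`). -/
def V7Concl (Γ : Type) [Group Γ] (n : ℕ) : Prop :=
  ∃ (a b d : ℕ) (A : Matrix (Fin a) (Fin b) (MonoidAlgebra ℤ Γ))
    (B : Matrix (Fin b) (Fin d) (MonoidAlgebra ℤ Γ)), A * B = 0 ∧
      ∀ (K : Type) [Group K] (i : K →* Γ) (_ : Function.Injective i) (j : NG K →+* NG Γ),
        (∀ k, j (canL k) = canL (i k)) → CosetIndep j (canL : Γ →* NG Γ) i.range →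
        Nonempty (homN K n ≃ₗ[NG K] HR j (canL : Γ →* NG Γ) (A.map zN) (B.map zN))

theorem main_of_v7 {Γ : Type} [Group Γ] [Group.FG Γ] (hA : Atiyah Γ) (n : ℕ)
    (h7 : V7Concl Γ n) (h0 : l2Betti Γ n = 0) :
    ∃ P : Finset (H1R Γ), P.Nonempty ∧ ∀ φ : Γ →* Multiplicative ℤ, Function.Surjective φ →
      ∃ t : ℝ, l2Betti φ.ker n = ENNReal.ofReal t ∧
        IsGreatest {t : ℝ | ∃ x ∈ convexHull ℝ (P : Set (H1R Γ)),
          ∃ y ∈ convexHull ℝ (P : Set (H1R Γ)), t = linF φ x - linF φ y} t := by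
  obtain ⟨U, hU, ι, D, hD, κ, u, hι, hu, hev, hL⟩ := exists_D hA
  obtain ⟨a, b, d, A, B, hAB, h7⟩ := h7
  have hex : ∀ v ∈ ZN u ⊤ (B.map (ev u)), v ∈ BN u ⊤ (A.map (ev u)) := by
    have S := setup_top hι hu
    have hr : (MonoidHom.id Γ).range = ⊤ := by
      rw [MonoidHom.range_eq_top]
      exact Function.surjective_id
    obtain ⟨f⟩ := h7 Γ (MonoidHom.id Γ) Function.injective_id (RingHom.id (NG Γ))
      (fun k => rfl) (by rw [hr]; exact S.indep)
    refine hex_of_luckDim S hev A B ?_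
    rw [← luckDim_congr f]
    exact h0
  obtain ⟨P, hP, hmain⟩ := part1 u hL A B hAB hex
  refine ⟨P, hP, fun φ hφ => ?_⟩
  obtain ⟨hfin, hgr⟩ := hmain φ hφ
  refine ⟨_, ?_, hgr⟩
  have S := setup_sub φ.ker hι hu
  have hr : (φ.ker.subtype).range = φ.ker := Subgroup.range_subtype _
  obtain ⟨f⟩ := h7 φ.ker φ.ker.subtype (Subgroup.subtype_injective _)
    (Pool.Agent.Helper277.VN5.jN φ.ker) (fun k => Pool.Agent.Helper277.VN5.jN_canL φ.ker k)
    (by rw [hr]; exact S.indep)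
  show luckDim φ.ker (homN φ.ker n) = _
  rw [luckDim_congr f, luckDim_HR S hev A B hfin]
  simp

end VN831
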