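import Pool.Agent.H7.L.N496_CV_L2Def
import Pool.Agent.H7.L.Helper831_VN_Bridge

/-!
# The short form of the `L²`-Betti numbers agrees with `VN831.l2Betti`
-/

set_option autoImplicit false

open scoped ENNReal InnerProductSpace

namespace Pool.Agent.N496.CV

open Pool.Agent.Helper655.VN

attribute [local instance] VN831.bcFunctor_additive V7N.bcF_additive

theorem isVN_NG (K : Type) [Group K] :
    IsVN (canL : K →* NG K) (fun x => (tr x).re) (dl : K → EllTwo K)
      ((NG K).subtype : NG K →+* (EllTwo K →L[ℂ] EllTwo K)) where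
  orth := by
    classical
    rw [orthonormal_iff_ite]
    intro g h
    rw [inner_dl]
    by_cases hgh : g = h
    · rw [if_pos hgh, hgh, dl_apply_self]
    · rw [if_neg hgh, dl_apply_ne _ _ hgh]
  dense := by
    classical
    intro f _
    have h1 := lp.hasSum_single (p := 2) (by norm_num) f
    refine mem_closure_of_tendsto h1 (Filter.Eventually.of_forall fun s => ?_)
    refine Submodule.sum_mem _ fun g _ => ?_
    have h4 : lp.single 2 g (f g) = (f g) • dl g := by
      unfold dl
      rw [← lp.single_smul]
      simp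
    rw [h4]
    exact Submodule.smul_mem _ _ (Submodule.subset_span ⟨g, rfl⟩)
  inj := Subtype.val_injective
  range T := by
    constructor
    · rintro ⟨x, rfl⟩ g R hR ξ
      have h1 : R = rho K g⁻¹ := ext_dl fun h => by rw [hR, rho_dl, inv_inv]
      have h2 := (mem_NG _).1 x.2 g⁻¹
      rw [h1]
      exact (congrArg (fun S : EllTwo K →L[ℂ] EllTwo K => S ξ) h2).symm
    · intro h
      refine ⟨⟨T, (mem_NG T).2 fun g => ?_⟩, rfl⟩
      ext1 ξ
      exact (h g⁻¹ (rho K g) (fun h => rho_dl g h) ξ).symm
  left g h := lam_dl g h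
  trace x := rfl

theorem hasL2Betti (K : Type) [Group K] (k : ℕ) : HasL2Betti K k (VN831.l2Betti K k) := by
  refine HasL2Betti.mk (NG K) (EllTwo K) canL (fun x => (tr x).re) dl _ (isVN_NG K) ?_
  rfl

end Pool.Agent.N496.CV
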