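import Pool.Agent.H7.L.N496_CV_Stm3

/-!
# Project CV, leaf RES (helper697): the complex `davis G` is a free resolution

The isomorphism of CONV (for the trivial subgroup) turns the exactness of the chains of functions (DAC) into the
exactness of the complex. In degree zero, a chain whose sum of values is zero is a boundary, all the boundaries have
augmentation zero and the augmentation is onto, so a chain with augmentation zero is a boundary.
-/

set_option autoImplicit false

noncomputable section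

namespace Pool.Agent.N496.CV

namespace PRES

open Pool.Agent.W907.SG Pool.Agent.W461.SGN Pool.Agent.N496.LT

section emb

variable {Γ : Type} [Group Γ] (C : GCx Γ)

/-- the numbering of the cells of dimension `n` -/
def nb (n : ℕ) : {i : C.ι // C.deg i = n} ≃ Fin (C.toFree.rank n) :=
  Fintype.equivFin {i : C.ι // C.deg i = n}

theorem d_eq (n : ℕ) (a : Fin (C.toFree.rank (n + 1))) (b : Fin (C.toFree.rank n)) :
    C.toFree.d n a b = C.D ((nb C (n + 1)).symm a).1 ((nb C n).symm b).1 := rfl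

/-- the chain with the coefficients `v` -/
def emb (n : ℕ) (v : Fin (C.toFree.rank n) → MonoidAlgebra ℤ Γ) (i : C.ι) (g : Γ) : ℤ :=
  if h : C.deg i = n then (v (nb C n ⟨i, h⟩)).coeff g else 0

theorem emb_of (n : ℕ) (v : Fin (C.toFree.rank n) → MonoidAlgebra ℤ Γ) (i : {i : C.ι // C.deg i = n}) (g : Γ) :
    emb C n v i.1 g = (v (nb C n i)).coeff g := by
  unfold emb
  rw [dif_pos i.2]

theorem emb_not (n : ℕ) (v : Fin (C.toFree.rank n) → MonoidAlgebra ℤ Γ) (i : C.ι) (h : C.deg i ≠ n) :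
    emb C n v i = 0 := by
  funext g
  unfold emb
  rw [dif_neg h]
  rfl

theorem emb_add (n : ℕ) (v w : Fin (C.toFree.rank n) → MonoidAlgebra ℤ Γ) :
    emb C n (v + w) = emb C n v + emb C n w := by
  funext i g
  rw [Pi.add_apply, Pi.add_apply]
  by_cases h : C.deg i = n
  · rw [emb_of C n _ ⟨i, h⟩, emb_of C n _ ⟨i, h⟩, emb_of C n _ ⟨i, h⟩, Pi.add_apply, MonoidAlgebra.coeff_add,
      Finsupp.add_apply]
  · rw [emb_not C n _ i h, emb_not C n _ i h, emb_not C n _ i h, Pi.zero_apply, add_zero]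

theorem emb_inj (n : ℕ) (v w : Fin (C.toFree.rank n) → MonoidAlgebra ℤ Γ) (h : emb C n v = emb C n w) :
    v = w := by
  funext a
  apply MonoidAlgebra.coeff_injective
  ext g
  have := congrFun (congrFun h ((nb C n).symm a).1) g
  rw [emb_of C n, emb_of C n, Equiv.apply_symm_apply] at this
  exact this

theorem emb_surj (n : ℕ) (f : C.ι → Γ → ℤ) (h : ∀ i, C.deg i ≠ n → f i = 0) (S : Finset Γ)
    (hS : ∀ i g, f i g ≠ 0 → g ∈ S) : ∃ v, emb C n v = f := by
  refine ⟨fun a => MonoidAlgebra.ofCoeff (Finsupp.onFinset S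
    (f ((nb C n).symm a).1) (fun g hg => hS _ g hg)), ?_⟩
  funext i g
  by_cases hi : C.deg i = n
  · rw [emb_of C n _ ⟨i, hi⟩, MonoidAlgebra.coeff_ofCoeff, Finsupp.onFinset_apply, Equiv.symm_apply_apply]
  · rw [emb_not C n _ i hi, h i hi]

theorem emb_fin (n : ℕ) (v : Fin (C.toFree.rank n) → MonoidAlgebra ℤ Γ) :
    ∃ S : Finset Γ, ∀ i g, emb C n v i g ≠ 0 → g ∈ S := by
  classical
  refine ⟨Finset.univ.biUnion fun a => (v a).coeff.support, fun i g h => ?_⟩
  by_cases hi : C.deg i = n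
  · rw [emb_of C n _ ⟨i, hi⟩] at h
    exact Finset.mem_biUnion.2 ⟨_, Finset.mem_univ _, Finsupp.mem_support_iff.2 h⟩
  · rw [emb_not C n _ i hi] at h
    exact absurd rfl h

theorem mul_emb (n : ℕ) (v : Fin (C.toFree.rank (n + 1)) → MonoidAlgebra ℤ Γ) (j : C.ι) (g : Γ) :
    ∑ i, (C.D i j).coeff.sum (fun γ a => a • emb C (n + 1) v i (g * γ⁻¹)) =
      emb C n (Matrix.vecMul v (C.toFree.d n)) j g := by
  by_cases hj : C.deg j = n
  · rw [emb_of C n _ ⟨j, hj⟩]
    have h0 := sum_deg C.deg (n + 1) (fun i => (C.D i j).coeff.sum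
      (fun γ a => a • emb C (n + 1) v i (g * γ⁻¹))) (fun k hk => by
        rw [emb_not C (n + 1) v k hk]
        simp)
    rw [← h0, ← (nb C (n + 1)).symm.sum_comp]
    show _ = (∑ a, v a * C.toFree.d n a (nb C n ⟨j, hj⟩)).coeff g
    rw [MonoidAlgebra.coeff_sum, Finsupp.finsetSum_apply]
    refine Finset.sum_congr rfl fun a _ => ?_
    rw [d_eq, Equiv.symm_apply_apply, MonoidAlgebra.coeff_mul_apply_right]
    refine Finsupp.sum_congr fun γ _ => ?_
    rw [emb_of C (n + 1), Equiv.apply_symm_apply, smul_eq_mul, mul_comm]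
  · rw [emb_not C n _ j hj, Pi.zero_apply]
    refine Finset.sum_eq_zero fun i _ => ?_
    by_cases hi : C.deg i = n + 1
    · have : C.D i j = 0 := by
        by_contra h
        exact hj (by have := C.D_deg i j h; omega)
      rw [this]
      simp
    · rw [emb_not C (n + 1) v i hi]
      simp

end emb

section main

variable {V : Type} [Fintype V] [LinearOrder V] {G : SimpleGraph V}

omit [Fintype V] [LinearOrder V] in
theorem inM_bot (f : W G → ℤ) :
    InM (⊥ : Subgroup (W G)) (1 : (⊥ : Subgroup (W G)) →* ℤ) Set.univ ⊥ f ↔ (Function.support f).Finite := by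
  constructor
  · intro h
    obtain ⟨S, hS⟩ := h.fin
    refine S.finite_toSet.subset fun w hw => ?_
    obtain ⟨h, x, hx, p, hp, e⟩ := hS w hw
    have h1 : (h : W G) = 1 := (Subgroup.mem_bot).1 h.2
    have h2 : p = 1 := (Subgroup.mem_bot).1 hp
    rw [h1, h2, one_mul, Prod.fst_one, mul_one] at e
    rw [e]
    exact hx
  · intro h
    refine ⟨fun w _ => Set.mem_univ w, fun p hp w => ?_, fun k w => ?_, h.toFinset, fun w hw => ?_⟩
    · rw [(Subgroup.mem_bot).1 hp, Prod.fst_one, Prod.snd_one, mul_one, Units.val_one, one_smul]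
    · have h1 : (k : W G) = 1 := (Subgroup.mem_bot).1 k.2
      rw [h1, one_mul, MonoidHom.one_apply, mul_one]
    · exact ⟨1, w, h.mem_toFinset.2 hw, 1, Subgroup.one_mem _, by simp⟩

omit [Fintype V] [LinearOrder V] in
theorem isCh_bot (i : ℕ) (c : Finset V → W G → ℤ) :
    IsCh G Set.univ (InM (⊥ : Subgroup (W G)) (1 : (⊥ : Subgroup (W G)) →* ℤ) Set.univ ⊥) i c ↔
      IsCh G Set.univ (fun f => (Function.support f).Finite) i c :=
  ⟨fun h => ⟨h.supp, fun T => (inM_bot _).1 (h.mem T), h.anti⟩,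
    fun h => ⟨h.supp, fun T => (inM_bot _).2 (h.mem T), h.anti⟩⟩

theorem fv_bot (n : ℕ) (v : Fin ((davis G).toFree.rank n) → MonoidAlgebra ℤ (th G).ker) :
    FV (⊥ : Subgroup (W G)) (1 : (⊥ : Subgroup (W G)) →* ℤ) n (emb (davis G) n v) := by
  refine ⟨fun i hi => emb_not _ n v i hi, fun i h g g' e => ?_, ?_⟩
  · have h1 : (h : W G) = 1 := (Subgroup.mem_bot).1 h.2
    rw [h1, one_mul] at e
    rw [Subtype.ext e, MonoidHom.one_apply, mul_one]
  · obtain ⟨S, hS⟩ := emb_fin (davis G) n v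
    exact ⟨S, fun i g hg => ⟨1, g, hS i g hg, by simp⟩⟩

theorem of_fv (n : ℕ) (f : (davis G).ι → (th G).ker → ℤ)
    (h : FV (⊥ : Subgroup (W G)) (1 : (⊥ : Subgroup (W G)) →* ℤ) n f) : ∃ v, emb (davis G) n v = f := by
  obtain ⟨S, hS⟩ := h.fin
  refine emb_surj (davis G) n f h.deg S fun i g hg => ?_
  obtain ⟨k, x, hx, e⟩ := hS i g hg
  have h1 : (k : W G) = 1 := (Subgroup.mem_bot).1 k.2
  rw [h1, one_mul] at e
  rw [Subtype.ext e]
  exact hx

theorem mulD_emb (n : ℕ) (v : Fin ((davis G).toFree.rank (n + 1)) → MonoidAlgebra ℤ (th G).ker) :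
    mulD (emb (davis G) (n + 1) v) = emb (davis G) n (Matrix.vecMul v ((davis G).toFree.d n)) := by
  funext j g
  exact mul_emb (davis G) n v j g

/-- the augmentation -/
def aug (Γ : Type) [Group Γ] : MonoidAlgebra ℤ Γ →+* ℤ := (MonoidAlgebra.lift ℤ ℤ Γ 1).toRingHom

theorem aug_single (Γ : Type) [Group Γ] (g : Γ) (n : ℤ) : aug Γ (MonoidAlgebra.single g n) = n := by
  show MonoidAlgebra.lift ℤ ℤ Γ 1 (MonoidAlgebra.single g n) = n
  rw [MonoidAlgebra.lift_single]
  simp

/-- the sum of the augmentations of the coefficients of a boundary -/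
theorem aug_row (i : (davis G).ι) : ∑ j, aug (th G).ker ((davis G).D i j) = 0 := by
  classical
  have h := fun t ht => row G i.1.1 i.1.2 i.2.1 i.2.2 t ht fun _ _ => 1
  have e : ∑ j, (davis G).D i j = ∑ t ∈ i.1.1, ((sg t (i.1.1.erase t) : ℤ) : MonoidAlgebra ℤ (th G).ker) *
        (1 - gs G i.1.2 t * 1) := by
    rw [← Finset.sum_congr rfl h]
    simp only [mul_one]
    rw [Finset.sum_comm]
    rfl
  rw [← map_sum, e, map_sum]
  refine Finset.sum_eq_zero fun t _ => ?_
  rw [map_mul, mul_one, map_sub, map_one]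
  unfold gs
  rw [aug_single, sub_self, mul_zero]

/-- the augmentation of the boundaries of dimension zero -/
theorem aug_d (w : Fin ((davis G).toFree.rank 1) → MonoidAlgebra ℤ (th G).ker) :
    ∑ j, aug (th G).ker (Matrix.vecMul w ((davis G).toFree.d 0) j) = 0 := by
  have h1 : ∀ j, aug (th G).ker (Matrix.vecMul w ((davis G).toFree.d 0) j) =
      ∑ a, aug (th G).ker (w a) * aug (th G).ker ((davis G).toFree.d 0 a j) := fun j => by
    show aug (th G).ker (∑ a, w a * (davis G).toFree.d 0 a j) = _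
    rw [map_sum]
    exact Finset.sum_congr rfl fun a _ => map_mul _ _ _
  rw [Finset.sum_congr rfl fun j _ => h1 j, Finset.sum_comm]
  refine Finset.sum_eq_zero fun a _ => ?_
  rw [← Finset.mul_sum]
  have h2 : ∑ j, aug (th G).ker ((davis G).toFree.d 0 a j) = 0 := by
    have h3 := sum_deg (davis G).deg 0 (fun j => aug (th G).ker ((davis G).D ((nb (davis G) 1).symm a).1 j))
      (fun k hk => by
        have h4 : (davis G).D ((nb (davis G) 1).symm a).1 k = 0 := by
          by_contra h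
          apply hk
          have := (davis G).D_deg _ _ h
          rw [((nb (davis G) 1).symm a).2] at this
          omega
        rw [h4, map_zero])
    rw [aug_row, ← (nb (davis G) 0).symm.sum_comp] at h3
    exact h3
  rw [h2, mul_zero]

/-- a chain of dimension zero is a cycle -/
theorem bdf_zero (c : Finset V → W G → ℤ)
    (h : IsCh G Set.univ (fun f => (Function.support f).Finite) 0 c) : bdf G c = 0 := by
  funext T w
  unfold bdf
  refine Finset.sum_eq_zero fun v hv => ?_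
  rw [h.supp (insert v T) fun h1 => ?_]
  · simp
  · have := h1.2.2
    rw [Finset.card_eq_zero] at this
    exact Finset.insert_ne_empty v T this

end main

end PRES

open Pool.Agent.W907.SG Pool.Agent.W461.SGN Pool.Agent.N496.LT PRES

/-- **The complex `davis G` is a free resolution of the trivial module.** -/
theorem res (h1 : DAC) (h2 : CONV) : RES := by
  intro V _ _ G
  obtain ⟨Ψ, a1, a2, a3, a4, a5, -⟩ := h2 V G ⊥ ℤ 1 bot_le
  have b1 : ∀ n v, IsCh G Set.univ (fun f => (Function.support f).Finite) n (Ψ (emb (davis G) n v)) :=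
    fun n v => (isCh_bot n _).1 (a1 n _ (fv_bot n v))
  have b2 : ∀ n c, IsCh G Set.univ (fun f => (Function.support f).Finite) n c →
      ∃ v, Ψ (emb (davis G) n v) = c := by
    intro n c hc
    obtain ⟨f, hf, hf'⟩ := a2 n c ((isCh_bot n c).2 hc)
    obtain ⟨v, rfl⟩ := of_fv n f hf
    exact ⟨v, hf'⟩
  have b3 : ∀ n v w, Ψ (emb (davis G) n v) = Ψ (emb (davis G) n w) → v = w :=
    fun n v w h => emb_inj _ n v w (a3 h)
  have b4 : ∀ n v w, Ψ (emb (davis G) n (v + w)) = Ψ (emb (davis G) n v) + Ψ (emb (davis G) n w) :=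
    fun n v w => by rw [emb_add, a4]
  have b5 : ∀ n v, bdf G (Ψ (emb (davis G) (n + 1) v)) =
      Ψ (emb (davis G) n (Matrix.vecMul v ((davis G).toFree.d n))) :=
    fun n v => by rw [← a5 (n + 1) _ (fv_bot (n + 1) v), mulD_emb]
  have b0 : ∀ n, Ψ (emb (davis G) n 0) = 0 := fun n => by
    have := b4 n 0 0
    rw [add_zero] at this
    exact left_eq_add.1 this
  have b6 : ∀ n v, bdf G (Ψ (emb (davis G) n v)) = 0 →
      (n = 0 → ∑ᶠ w, Ψ (emb (davis G) n v) ∅ w = 0) →
      ∃ w, v = Matrix.vecMul w ((davis G).toFree.d n) := by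
    intro n v hv h0
    obtain ⟨e, he, he'⟩ := h1 V G n (Ψ (emb (davis G) n v)) (b1 n v) hv h0
    obtain ⟨w, rfl⟩ := b2 (n + 1) e he
    refine ⟨w, b3 n _ _ ?_⟩
    rw [← b5, he']
  -- the sum of the values
  obtain ⟨η, hη⟩ : ∃ η : (Fin ((davis G).toFree.rank 0) → MonoidAlgebra ℤ (th G).ker) →+ ℤ,
      ∀ v, η v = ∑ᶠ w, Ψ (emb (davis G) 0 v) ∅ w :=
    ⟨AddMonoidHom.mk' (fun v => ∑ᶠ w, Ψ (emb (davis G) 0 v) ∅ w) (fun v w => by
      show ∑ᶠ x, Ψ (emb (davis G) 0 (v + w)) ∅ x = _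
      rw [b4]
      exact finsum_add_distrib ((b1 0 v).mem ∅) ((b1 0 w).mem ∅)), fun v => rfl⟩
  have b7 : ∀ v, η v = 0 → ∃ w, v = Matrix.vecMul w ((davis G).toFree.d 0) := fun v hv =>
    b6 0 v (bdf_zero _ (b1 0 v)) fun _ => by rw [← hη, hv]
  -- the augmentation
  obtain ⟨ε, hε⟩ : ∃ ε : (Fin ((davis G).toFree.rank 0) → MonoidAlgebra ℤ (th G).ker) →+ ℤ,
      ∀ v, ε v = ∑ j, aug (th G).ker (v j) :=
    ⟨AddMonoidHom.mk' (fun v => ∑ j, aug (th G).ker (v j)) (fun v w => by
      show ∑ j, aug (th G).ker (v j + w j) = _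
      rw [← Finset.sum_add_distrib]
      exact Finset.sum_congr rfl fun j _ => map_add _ _ _), fun v => rfl⟩
  have hs : Function.Surjective ε := fun n => by
    obtain ⟨a⟩ : Nonempty (Fin ((davis G).toFree.rank 0)) := ⟨nb (davis G) 0
      ⟨⟨((∅ : Finset V), (∅ : Finset V)), by simp, Finset.disjoint_empty_left _⟩,
        (Finset.card_empty : (∅ : Finset V).card = 0)⟩⟩
    refine ⟨Pi.single a (MonoidAlgebra.single 1 n), ?_⟩
    rw [hε, Finset.sum_eq_single a]
    · rw [Pi.single_eq_same, aug_single]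
    · intro b _ hb
      rw [Pi.single_eq_of_ne hb, map_zero]
    · intro h
      exact absurd (Finset.mem_univ a) h
  refine ⟨ε, fun g v => ?_, hs, fun v => ⟨fun hv => ?_, ?_⟩, fun n v => ⟨fun hv => ?_, ?_⟩⟩
  · rw [hε, hε]
    refine Finset.sum_congr rfl fun j _ => ?_
    rw [map_mul, aug_single, one_mul]
  · obtain ⟨v₀, hv₀⟩ := hs 1
    obtain ⟨w, hw⟩ := b7 (η v₀ • v - η v • v₀) (by
      rw [map_sub, map_zsmul, map_zsmul, smul_eq_mul, smul_eq_mul, mul_comm, sub_self])
    have h3 : ε (η v₀ • v - η v • v₀) = 0 := by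
      rw [hw, hε]
      exact aug_d w
    rw [map_sub, map_zsmul, map_zsmul, hv, hv₀, smul_zero, smul_eq_mul, mul_one, zero_sub, neg_eq_zero] at h3
    exact b7 v h3
  · rintro ⟨w, rfl⟩
    rw [hε]
    exact aug_d w
  · refine b6 (n + 1) v ?_ fun h => absurd h (Nat.succ_ne_zero n)
    rw [b5, hv, b0]
  · rintro ⟨w, rfl⟩
    rw [Matrix.vecMul_vecMul, (davis G).toFree.d_comp_d, Matrix.vecMul_zero]

end Pool.Agent.N496.CV
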