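import Pool.Agent.H7.L.Helper831_VN_Cx

attribute [local instance] VN831.bcFunctor_additive VN831.viaAdd VN831.viaMod

set_option autoImplicit false

namespace V7N

open CategoryTheory

open scoped TensorProduct

/-- The ring homomorphism `ℤ[Γ] → W` extending `c`. -/
noncomputable def evM {Γ : Type} [Group Γ] {W : Type} [Ring W] (c : Γ →* W) :
    MonoidAlgebra ℤ Γ →+* W :=
  (MonoidAlgebra.lift ℤ W Γ c).toRingHom

section basechange

variable {G R : Type} [Group G] [Ring R] (c : G →* R)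

/-- The relations `x g ⊗ p = x ⊗ g p` of the tensor product over `ℤ[G]`. -/
noncomputable def bcR (P : Type) [AddCommGroup P] [Module (MonoidAlgebra ℤ G) P] :
    Submodule R (R ⊗[ℤ] P) :=
  Submodule.span R
    {z | ∃ (x : R) (g : G) (p : P),
      z = (x * c g) ⊗ₜ[ℤ] p - x ⊗ₜ[ℤ] ((MonoidAlgebra.single g (1 : ℤ)) • p)}

/-- `R ⊗_{ℤ[G]} P` as a left `R`-module. -/
abbrev BCG (P : Type) [AddCommGroup P] [Module (MonoidAlgebra ℤ G) P] : Type :=
  (R ⊗[ℤ] P) ⧸ bcR c P

/-- `R ⊗_{ℤ[G]} -` on homomorphisms. -/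
noncomputable def bcM {P Q : Type} [AddCommGroup P]
    [Module (MonoidAlgebra ℤ G) P] [AddCommGroup Q] [Module (MonoidAlgebra ℤ G) Q]
    (f : P →ₗ[MonoidAlgebra ℤ G] Q) : BCG c P →ₗ[R] BCG c Q :=
  Submodule.mapQ (bcR c P) (bcR c Q)
    (TensorProduct.AlgebraTensorModule.map (LinearMap.id : R →ₗ[R] R)
      (f.toAddMonoidHom.toIntLinearMap))
    (by
      rw [bcR, Submodule.span_le]
      rintro z ⟨x, g, p, rfl⟩
      show _ ∈ bcR c Q
      rw [map_sub]
      refine Submodule.subset_span ⟨x, g, f p, ?_⟩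
      simp)

theorem bcM_mk {P Q : Type} [AddCommGroup P]
    [Module (MonoidAlgebra ℤ G) P] [AddCommGroup Q] [Module (MonoidAlgebra ℤ G) Q]
    (f : P →ₗ[MonoidAlgebra ℤ G] Q) (x : R) (p : P) :
    bcM c f (Submodule.Quotient.mk (x ⊗ₜ[ℤ] p)) = Submodule.Quotient.mk (x ⊗ₜ[ℤ] (f p)) := by
  rfl

theorem bc_ind {P : Type} [AddCommGroup P]
    [Module (MonoidAlgebra ℤ G) P] {M : Type} [AddCommGroup M] [Module R M]
    {f g : BCG c P →ₗ[R] M}
    (h : ∀ (p : P), f (Submodule.Quotient.mk ((1 : R) ⊗ₜ[ℤ] p)) =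
      g (Submodule.Quotient.mk ((1 : R) ⊗ₜ[ℤ] p))) : f = g := by
  refine LinearMap.ext fun z => ?_
  obtain ⟨z, rfl⟩ := Submodule.Quotient.mk_surjective _ z
  induction z using TensorProduct.induction_on with
  | zero => simp
  | tmul x p =>
    have h1 : (Submodule.Quotient.mk (x ⊗ₜ[ℤ] p) : BCG c P) =
        x • Submodule.Quotient.mk ((1 : R) ⊗ₜ[ℤ] p) := by
      rw [← Submodule.Quotient.mk_smul, TensorProduct.smul_tmul', smul_eq_mul, mul_one]
    rw [h1, map_smul, map_smul, h]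
  | add x y hx hy =>
    rw [Submodule.Quotient.mk_add, map_add, map_add, hx, hy]

/-- The functor `R ⊗_{ℤ[G]} -` from left `ℤ[G]`-modules to left `R`-modules. -/
noncomputable def bcF : ModuleCat.{0} (MonoidAlgebra ℤ G) ⥤ ModuleCat.{0} R where
  obj P := ModuleCat.of R (BCG c P)
  map f := ModuleCat.ofHom (bcM c f.hom)
  map_id P := by
    ext1
    apply bc_ind
    intro p
    rfl
  map_comp f g := by
    ext1
    apply bc_ind
    intro p
    rfl

theorem bcF_additive : (bcF c).Additive where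
  map_add {P Q f g} := by
    ext1
    apply bc_ind
    intro p
    show bcM c (f + g).hom _ = bcM c f.hom _ + bcM c g.hom _
    rw [bcM_mk, bcM_mk, bcM_mk, ← Submodule.Quotient.mk_add, ← TensorProduct.tmul_add]
    rfl

attribute [local instance] bcF_additive

end basechange

/-- The augmentation `ℤ[G] → ℤ`. -/
noncomputable def augG (G : Type) [Group G] : MonoidAlgebra ℤ G →+* ℤ :=
  (MonoidAlgebra.lift ℤ ℤ G (1 : G →* ℤ)).toRingHom

/-- The trivial left `ℤ[G]`-module `ℤ`. -/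
noncomputable def trivG (G : Type) [Group G] : ModuleCat.{0} (MonoidAlgebra ℤ G) :=
  (ModuleCat.restrictScalars (augG G)).obj (ModuleCat.of ℤ ℤ)

/-- A resolution of the trivial module `ℤ` by finitely generated free left `ℤ[Γ]`-modules,
written with matrices (row vectors, right multiplication). -/
structure FreeRes (Γ : Type) [Group Γ] where
  r : ℕ → ℕ
  d : ∀ n, Matrix (Fin (r (n + 1))) (Fin (r n)) (MonoidAlgebra ℤ Γ)
  ε : (Fin (r 0) → MonoidAlgebra ℤ Γ) →+ ℤ
  ε_smul : ∀ (g : Γ) (v : Fin (r 0) → MonoidAlgebra ℤ Γ),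
    ε (fun i => MonoidAlgebra.single g (1 : ℤ) * v i) = ε v
  ε_surj : Function.Surjective ε
  exact_zero : ∀ v, ε v = 0 ↔ ∃ w, v = Matrix.vecMul w (d 0)
  exact_succ : ∀ n v, Matrix.vecMul v (d n) = 0 ↔ ∃ w, v = Matrix.vecMul w (d (n + 1))

section resolution

variable {K Γ : Type} [Group K] [Group Γ]

/-- The ring homomorphism `ℤ[K] → ℤ[Γ]` induced by a homomorphism of groups. -/
noncomputable def inc (i : K →* Γ) : MonoidAlgebra ℤ K →+* MonoidAlgebra ℤ Γ :=
  MonoidAlgebra.mapDomainRingHom ℤ i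

/-- `ℤ[Γ]^r` as a left module over `ℤ[K]`. -/
def RM (_i : K →* Γ) (r : ℕ) : Type := Fin r → MonoidAlgebra ℤ Γ

/-- The additive group structure of `RM i r`. -/
@[reducible] noncomputable def rmAdd (i : K →* Γ) (r : ℕ) : AddCommGroup (RM i r) :=
  inferInstanceAs (AddCommGroup (Fin r → MonoidAlgebra ℤ Γ))

attribute [local instance] rmAdd

/-- The module structure of `RM i r`. -/
@[reducible] noncomputable def rmMod (i : K →* Γ) (r : ℕ) : Module (MonoidAlgebra ℤ K) (RM i r) :=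
  Module.compHom (Fin r → MonoidAlgebra ℤ Γ) (inc i)

attribute [local instance] rmMod

/-- Right multiplication with a matrix. -/
noncomputable def dm (i : K →* Γ) {a b : ℕ}
    (M : Matrix (Fin a) (Fin b) (MonoidAlgebra ℤ Γ)) :
    RM i a →ₗ[MonoidAlgebra ℤ K] RM i b where
  toFun v := Matrix.vecMul (show Fin a → MonoidAlgebra ℤ Γ from v) M
  map_add' _ _ := Matrix.add_vecMul _ _ _
  map_smul' c v := Matrix.smul_vecMul (inc i c) (show Fin a → MonoidAlgebra ℤ Γ from v) M

theorem dm_comp (C : FreeRes Γ) (i : K →* Γ) (n : ℕ) :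
    (dm i (C.d n)).comp (dm i (C.d (n + 1))) = 0 := by
  apply LinearMap.ext
  intro v
  change Matrix.vecMul (Matrix.vecMul v (C.d (n + 1))) (C.d n) = 0
  exact (C.exact_succ n _).2 ⟨v, rfl⟩

/-- The chain complex of `ℤ[K]`-modules given by a free resolution over `ℤ[Γ]`. -/
noncomputable def resC (C : FreeRes Γ) (i : K →* Γ) :
    ChainComplex (ModuleCat.{0} (MonoidAlgebra ℤ K)) ℕ :=
  ChainComplex.of (fun n => ModuleCat.of (MonoidAlgebra ℤ K) (RM i (C.r n)))
    (fun n => ModuleCat.ofHom (dm i (C.d n)))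
    (fun n => by
      rw [← ModuleCat.ofHom_comp, dm_comp]
      rfl)

end resolution

end V7N
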