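import Pool.Agent.H7.L.Helper970_V7_Defs
import Pool.Agent.H7.L.Helper970_V7_P_proj_res
import Pool.Agent.H7.L.Helper970_V7_P_phi
import Pool.Agent.H7.L.Helper970_V7_P_homology_succ

attribute [local instance] VN831.bcFunctor_additive VN831.viaAdd VN831.viaMod V7N.bcF_additive
  V7N.rmAdd V7N.rmMod

namespace V7N

open CategoryTheory

open scoped TensorProduct

theorem ts_resC_d {K Γ : Type} [Group K] [Group Γ] (C : FreeRes Γ) (i : K →* Γ) (n : ℕ) :
    (resC C i).d (n + 1) n = ModuleCat.ofHom (dm i (C.d n)) :=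
  ChainComplex.of_d (fun n => ModuleCat.of (MonoidAlgebra ℤ K) (RM i (C.r n)))
    (fun n => ModuleCat.ofHom (dm i (C.d n))) n

/-- comparison of homology groups of `R`-linear maps and of matrices -/
theorem ts_lin {R W Γ : Type} [Ring R] [Ring W] [Group Γ] (j : R →+* W) (cW : Γ →* W)
    {a b c : ℕ} (A : Matrix (Fin a) (Fin b) W) (B : Matrix (Fin b) (Fin c) W)
    {M2 M1 M0 : Type} [AddCommGroup M2] [Module R M2] [AddCommGroup M1] [Module R M1]
    [AddCommGroup M0] [Module R M0] (g : M2 →ₗ[R] M1) (h : M1 →ₗ[R] M0)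
    (e2 : M2 ≃ₗ[R] (Submodule.pi Set.univ (fun _ : Fin a => VN831.SR j cW) :
      Submodule R (Fin a → VN831.Via j)))
    (e1 : M1 ≃ₗ[R] (Submodule.pi Set.univ (fun _ : Fin b => VN831.SR j cW) :
      Submodule R (Fin b → VN831.Via j)))
    (e0 : M0 ≃ₗ[R] (Submodule.pi Set.univ (fun _ : Fin c => VN831.SR j cW) :
      Submodule R (Fin c → VN831.Via j)))
    (hg : ∀ x, ((e1 (g x)) : Fin b → VN831.Via j) =
      VN831.rmM j A ((e2 x) : Fin a → VN831.Via j))
    (hh : ∀ x, ((e0 (h x)) : Fin c → VN831.Via j) =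
      VN831.rmM j B ((e1 x) : Fin b → VN831.Via j)) :
    Nonempty ((LinearMap.ker h ⧸ (LinearMap.range g).submoduleOf (LinearMap.ker h)) ≃ₗ[R]
      VN831.HR j cW A B) := by
  set ψ : M1 →ₗ[R] (Fin b → VN831.Via j) := (Submodule.subtype _).comp e1.toLinearMap with hψ
  have hψi : Function.Injective ψ := by
    rw [hψ]
    exact (Subtype.val_injective).comp e1.injective
  have hψa : ∀ x, ψ x = (e1 x : Fin b → VN831.Via j) := fun x => rfl
  have hZ : (LinearMap.ker h).map ψ = VN831.ZR j cW B := by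
    ext v
    constructor
    · rintro ⟨x, hx, rfl⟩
      have hx' : h x = 0 := hx
      refine ⟨(e1 x).2, ?_⟩
      show VN831.rmM j B (ψ x) = 0
      rw [hψa, ← hh, hx', map_zero]
      rfl
    · rintro ⟨h1, h2⟩
      refine ⟨e1.symm ⟨v, h1⟩, ?_, ?_⟩
      · have h3 := hh (e1.symm ⟨v, h1⟩)
        rw [LinearEquiv.apply_symm_apply] at h3
        have h4 : e0 (h (e1.symm ⟨v, h1⟩)) = 0 := Subtype.ext (h3.trans h2)
        exact e0.map_eq_zero_iff.1 h4
      · rw [hψa, LinearEquiv.apply_symm_apply]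
  set φ : LinearMap.ker h ≃ₗ[R] VN831.ZR j cW B :=
    (Submodule.equivMapOfInjective ψ hψi (LinearMap.ker h)).trans (LinearEquiv.ofEq _ _ hZ) with hφ
  have hφa : ∀ x, ((φ x : VN831.ZR j cW B) : Fin b → VN831.Via j) = ψ x := fun x => rfl
  refine ⟨Submodule.Quotient.equiv _ _ φ ?_⟩
  ext v
  constructor
  · rintro ⟨x, hx, rfl⟩
    obtain ⟨y, hy⟩ : (x : M1) ∈ LinearMap.range g := hx
    refine ⟨(e2 y : Fin a → VN831.Via j), (e2 y).2, ?_⟩
    change _ = ((φ x : VN831.ZR j cW B) : Fin b → VN831.Via j)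
    rw [hφa, ← hy, hψa, hg]
  · rintro ⟨w, hw, hv⟩
    have hv' : (v : Fin b → VN831.Via j) = VN831.rmM j A w := hv.symm
    refine ⟨φ.symm v, ?_, ?_⟩
    · change ((φ.symm v : LinearMap.ker h) : M1) ∈ LinearMap.range g
      refine ⟨e2.symm ⟨w, hw⟩, ?_⟩
      apply hψi
      rw [← hφa, LinearEquiv.apply_symm_apply, hψa, hg, LinearEquiv.apply_symm_apply, hv']
    · exact LinearEquiv.apply_symm_apply _ _

theorem ts_mat {K Γ : Type} [Group K] [Group Γ] {R W : Type} [Ring R] [Ring W]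
    (i : K →* Γ) (c : K →* R) (cW : Γ →* W) (j : R →+* W)
    {a b : ℕ} (M : Matrix (Fin a) (Fin b) (MonoidAlgebra ℤ Γ))
    (ea : BCG c (RM i a) ≃ₗ[R]
        (Submodule.pi Set.univ (fun _ : Fin a => VN831.SR j cW) :
          Submodule R (Fin a → VN831.Via j)))
    (eb : BCG c (RM i b) ≃ₗ[R]
        (Submodule.pi Set.univ (fun _ : Fin b => VN831.SR j cW) :
          Submodule R (Fin b → VN831.Via j)))
    (ha : ∀ (x : RM i a) (k : Fin a),
        ((ea (Submodule.Quotient.mk ((1 : R) ⊗ₜ[ℤ] x))).1 k) =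
          (show VN831.Via j from evM cW (x k)))
    (hb : ∀ (x : RM i b) (k : Fin b),
        ((eb (Submodule.Quotient.mk ((1 : R) ⊗ₜ[ℤ] x))).1 k) =
          (show VN831.Via j from evM cW (x k)))
    (y : BCG c (RM i a)) :
    ((eb (bcM c (dm i M) y)) : Fin b → VN831.Via j) =
      VN831.rmM j (M.map (evM cW)) ((ea y) : Fin a → VN831.Via j) := by
  set g1 : BCG c (RM i a) →ₗ[R] (Fin b → VN831.Via j) :=
    ((Submodule.subtype _).comp eb.toLinearMap).comp (bcM c (dm i M)) with hg1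
  set g2 : BCG c (RM i a) →ₗ[R] (Fin b → VN831.Via j) :=
    (VN831.rmM j (M.map (evM cW))).comp ((Submodule.subtype _).comp ea.toLinearMap)
    with hg2
  have key : g1 = g2 := by
    apply bc_ind
    intro m
    funext k
    have h1 : g1 (Submodule.Quotient.mk ((1 : R) ⊗ₜ[ℤ] m)) k =
        ((eb (Submodule.Quotient.mk ((1 : R) ⊗ₜ[ℤ] (dm i M m)))) : Fin b → VN831.Via j) k := rfl
    have h2 : g2 (Submodule.Quotient.mk ((1 : R) ⊗ₜ[ℤ] m)) k =
        VN831.rmM j (M.map (evM cW))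
          ((ea (Submodule.Quotient.mk ((1 : R) ⊗ₜ[ℤ] m))) : Fin a → VN831.Via j) k := rfl
    rw [h1, h2, hb]
    have h3 : ((ea (Submodule.Quotient.mk ((1 : R) ⊗ₜ[ℤ] m))) : Fin a → VN831.Via j) =
        fun l => (show VN831.Via j from evM cW (m l)) := funext fun l => ha m l
    rw [h3]
    have h4 : (dm i M m) k = ∑ l, (m l) * M l k := rfl
    have h5 : evM cW ((dm i M m) k) = ∑ l, evM cW (m l) * evM cW (M l k) := by
      rw [h4, map_sum]
      exact Finset.sum_congr rfl fun l _ => map_mul _ _ _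
    exact h5
  exact LinearMap.congr_fun key y

theorem v7_succ {K Γ : Type} [Group K] [Group Γ] {R W : Type} [Ring R] [Ring W]
    (C : FreeRes Γ) (n : ℕ)
    (i : K →* Γ) (hi : Function.Injective i) (c : K →* R) (cW : Γ →* W) (j : R →+* W)
    (hc : ∀ k, j (c k) = cW (i k)) (hind : VN831.CosetIndep j cW i.range) :
    Nonempty ((((bcF c).leftDerived (n + 1)).obj (trivG K)) ≃ₗ[R]
      VN831.HR j cW ((C.d (n + 1)).map (evM cW)) ((C.d n).map (evM cW))) := by
  obtain ⟨P, hP⟩ := proj_res C i hi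
  have h1 : Nonempty (((bcF c).leftDerived (n + 1)).obj (trivG K) ≅
      (((bcF c).mapHomologicalComplex (ComplexShape.down ℕ)).obj P.complex).homology (n + 1)) :=
    ⟨P.isoLeftDerivedObj (bcF c) (n + 1)⟩
  rw [hP] at h1
  obtain ⟨i1⟩ := h1
  have l1 := i1.toLinearEquiv
  obtain ⟨l2⟩ := homology_succ
    (((bcF c).mapHomologicalComplex (ComplexShape.down ℕ)).obj (resC C i)) n
  obtain ⟨e2, h2⟩ := phi i hi c cW j hc hind (C.r (n + 1 + 1))
  obtain ⟨e1, h1⟩ := phi i hi c cW j hc hind (C.r (n + 1))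
  obtain ⟨e0, h0⟩ := phi i hi c cW j hc hind (C.r n)
  have d1 : (((bcF c).mapHomologicalComplex (ComplexShape.down ℕ)).obj (resC C i)).d
      (n + 1 + 1) (n + 1) = ModuleCat.ofHom (bcM c (dm i (C.d (n + 1)))) := by
    change (bcF c).map ((resC C i).d (n + 1 + 1) (n + 1)) = _
    rw [ts_resC_d]
    rfl
  have d0 : (((bcF c).mapHomologicalComplex (ComplexShape.down ℕ)).obj (resC C i)).d
      (n + 1) n = ModuleCat.ofHom (bcM c (dm i (C.d n))) := by
    change (bcF c).map ((resC C i).d (n + 1) n) = _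
    rw [ts_resC_d]
    rfl
  rw [d1, d0] at l2
  obtain ⟨l3⟩ := ts_lin j cW ((C.d (n + 1)).map (evM cW)) ((C.d n).map (evM cW))
    (bcM c (dm i (C.d (n + 1)))) (bcM c (dm i (C.d n))) e2 e1 e0
    (fun x => ts_mat i c cW j (C.d (n + 1)) e2 e1 h2 h1 x)
    (fun x => ts_mat i c cW j (C.d n) e1 e0 h1 h0 x)
  exact ⟨(l1.trans l2).trans l3⟩

end V7N
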