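import Pool.Agent.H7.L.Helper655_VNInst

attribute [local instance] Pool.Agent.Helper655.VN.kerM_hop

set_option autoImplicit false
set_option linter.unusedSectionVars false

open scoped InnerProductSpace Matrix Topology
open Filter Pool.Agent.RK

namespace Pool.Agent.Helper655.VN

variable {G : Type} [Group G]

/-- Right multiplication by `a ∈ ℤ[G]` on `ℓ²(G)`: `(ξ a)(h) = ∑ g, a(g) ξ(h g⁻¹)`. -/
noncomputable def rmul (a : MonoidAlgebra ℤ G) : EllTwo G →L[ℂ] EllTwo G :=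
  a.coeff.sum fun g c => c • rho G g⁻¹

theorem rmul_apply (a : MonoidAlgebra ℤ G) (ξ : EllTwo G) (h : G) :
    (rmul a ξ) h = a.coeff.sum fun g c => (c : ℂ) * ξ (h * g⁻¹) := by
  unfold rmul Finsupp.sum
  rw [sum_apply, lp.coeFn_sum, Finset.sum_apply]
  refine Finset.sum_congr rfl fun g _ => ?_
  rw [smul_apply]
  show (a.coeff g) • (ξ (h * g⁻¹)) = _
  rw [zsmul_eq_mul]

/-- The canonical ring homomorphism `ℤ[G] → N(G)`. -/
noncomputable def zN (G : Type) [Group G] : MonoidAlgebra ℤ G →+* NG G :=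
  (MonoidAlgebra.lift ℤ (NG G) G canL).toRingHom

theorem zN_apply (a : MonoidAlgebra ℤ G) : zN G a = a.coeff.sum fun g c => c • canL g :=
  MonoidAlgebra.lift_apply _ _

theorem coe_zN (a : MonoidAlgebra ℤ G) :
    ((zN G a : NG G) : EllTwo G →L[ℂ] EllTwo G) = a.coeff.sum fun g c => c • lam G g := by
  rw [zN_apply]
  unfold Finsupp.sum
  rw [AddSubmonoidClass.coe_finsetSum]
  refine Finset.sum_congr rfl fun g _ => ?_
  rfl

theorem coe_star_zN (a : MonoidAlgebra ℤ G) :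
    ((star (zN G a) : NG G) : EllTwo G →L[ℂ] EllTwo G) = a.coeff.sum fun g c => c • lam G g⁻¹ := by
  show star ((zN G a : NG G) : EllTwo G →L[ℂ] EllTwo G) = _
  rw [coe_zN]
  unfold Finsupp.sum
  rw [star_sum]
  refine Finset.sum_congr rfl fun g _ => ?_
  rw [star_zsmul, star_lam]

/-- the flip `ξ ↦ (g ↦ ξ(g⁻¹))` -/
noncomputable def fl : EllTwo G →L[ℂ] EllTwo G := permOp (Equiv.inv G)

theorem fl_apply (ξ : EllTwo G) (h : G) : (fl ξ) h = ξ h⁻¹ := rfl

theorem fl_fl (ξ : EllTwo G) : fl (fl ξ) = ξ := by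
  ext h
  rw [fl_apply, fl_apply, inv_inv]

theorem fl_rho (g : G) (ξ : EllTwo G) : fl (rho G g ξ) = lam G g (fl ξ) := by
  ext h
  show ξ (h⁻¹ * g) = ξ ((g⁻¹ * h)⁻¹)
  group

theorem fl_rmul (a : MonoidAlgebra ℤ G) (ξ : EllTwo G) :
    fl (rmul a ξ) = ((star (zN G a) : NG G) : EllTwo G →L[ℂ] EllTwo G) (fl ξ) := by
  rw [coe_star_zN]
  unfold rmul Finsupp.sum
  rw [sum_apply, sum_apply, map_sum]
  refine Finset.sum_congr rfl fun g _ => ?_
  show fl ((a.coeff g) • rho G g⁻¹ ξ) = (a.coeff g) • lam G g⁻¹ (fl ξ)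
  rw [map_zsmul, fl_rho]

theorem fl_dl_one : fl (dl (1 : G)) = dl 1 := by
  unfold fl
  rw [permOp_dl]
  congr 1
  show (1 : G)⁻¹ = 1
  exact inv_one

theorem fl_inner (x y : EllTwo G) : ⟪fl x, y⟫_ℂ = ⟪x, fl y⟫_ℂ := by
  have h : star (fl : EllTwo G →L[ℂ] EllTwo G) = fl := by
    unfold fl
    rw [star_permOp]
    rfl
  conv_lhs => rw [← h, ContinuousLinearMap.star_eq_adjoint]
  rw [ContinuousLinearMap.adjoint_inner_left]

variable {ι κ : Type} [Fintype ι] [Fintype κ] [DecidableEq ι] [DecidableEq κ]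

/-- the diagonal flip -/
noncomputable def flN : EllN G ι →L[ℂ] EllN G ι :=
  (PiLp.continuousLinearEquiv 2 ℂ (fun _ : ι => EllTwo G)).symm.toContinuousLinearMap ∘L
    ContinuousLinearMap.pi (fun k => fl ∘L prj k)

theorem flN_apply (x : EllN G ι) (k : ι) : (flN x) k = fl (x k) := rfl

theorem flN_flN (x : EllN G ι) : flN (flN x) = x := by
  apply ext_N
  intro k
  rw [flN_apply, flN_apply, fl_fl]

theorem flN_inner (x y : EllN G ι) : ⟪flN x, y⟫_ℂ = ⟪x, flN y⟫_ℂ := by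
  rw [PiLp.inner_apply, PiLp.inner_apply]
  refine Finset.sum_congr rfl fun k _ => ?_
  rw [flN_apply, flN_apply, fl_inner]

theorem flN_dl (i : ι) : flN (inj i (dl (1 : G)) : EllN G ι) = inj i (dl 1) := by
  apply ext_N
  intro k
  rw [flN_apply]
  by_cases h : k = i
  · subst h
    rw [inj_self, fl_dl_one]
  · rw [inj_ne i k h, map_zero]

/-- The flip identifies the kernel of `v ↦ v A` with the kernel of `opM (A.map zN)ᴴ`. -/
theorem mem_ker_iff (A : Matrix ι κ (MonoidAlgebra ℤ G)) (v : EllN G ι) :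
    (∀ j, ∑ i, rmul (A i j) (v i) = 0) ↔ flN v ∈ kerM ((A.map (zN G))ᴴ) := by
  rw [mem_kerM]
  have h1 : ∀ j, (opM ((A.map (zN G))ᴴ) (flN v)) j = fl (∑ i, rmul (A i j) (v i)) := by
    intro j
    rw [opM_apply, map_sum]
    refine Finset.sum_congr rfl fun i _ => ?_
    rw [fl_rmul, flN_apply, Matrix.conjTranspose_apply, Matrix.map_apply]
  constructor
  · intro h
    apply ext_N
    intro j
    rw [h1, h j, map_zero]
    rfl
  · intro h j
    have h2 := h1 j
    rw [h] at h2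
    have h3 : fl (fl (∑ i, rmul (A i j) (v i))) = 0 := by
      rw [← h2]
      show fl (0 : EllTwo G) = 0
      exact map_zero _
    rwa [fl_fl] at h3

theorem starProj_flip (A : Matrix ι κ (MonoidAlgebra ℤ G)) (K : Submodule ℂ (EllN G ι))
    [K.HasOrthogonalProjection] (hK : ∀ v : EllN G ι, v ∈ K ↔ ∀ j, ∑ i, rmul (A i j) (v i) = 0)
    (x : EllN G ι) :
    K.starProjection x = flN ((kerM ((A.map (zN G))ᴴ)).starProjection (flN x)) := by
  symm
  refine (Submodule.eq_starProjection_of_mem_of_inner_eq_zero ?_ ?_).symm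
  · rw [hK, mem_ker_iff, flN_flN]
    exact Submodule.starProjection_apply_mem _ _
  · intro w hw
    rw [hK, mem_ker_iff] at hw
    have h1 : x - flN ((kerM ((A.map (zN G))ᴴ)).starProjection (flN x)) =
        flN (flN x - (kerM ((A.map (zN G))ᴴ)).starProjection (flN x)) := by
      rw [map_sub, flN_flN]
    rw [h1, flN_inner]
    exact Submodule.starProjection_inner_eq_zero _ _ hw

/-- The von Neumann dimension of the kernel of `v ↦ v A` on `ℓ²(G)^ι`. -/
theorem dim_ker (A : Matrix ι κ (MonoidAlgebra ℤ G)) (K : Submodule ℂ (EllN G ι))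
    [K.HasOrthogonalProjection] (hK : ∀ v : EllN G ι, v ∈ K ↔ ∀ j, ∑ i, rmul (A i j) (v i) = 0) :
    ∑ i, ⟪inj i (dl (1 : G)), K.starProjection (inj i (dl (1 : G)))⟫_ℂ =
      mtr (kp ((A.map (zN G))ᴴ)) := by
  rw [mtr_eq_inner]
  refine Finset.sum_congr rfl fun i _ => ?_
  rw [starProj_flip A K hK, ← flN_inner, flN_dl, opM_kp]

theorem rk_eq (A : Matrix ι κ (NG G)) : rk (tau G) A = Fintype.card ι - (mtr (kp Aᴴ)).re := by
  have h : ∃ p, IsLP A p := ⟨_, isLP_kp A⟩
  unfold rk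
  rw [dif_pos h, isLP_unique A _ _ h.choose_spec (isLP_kp A), Tr_eq, mtr_sub, mtr_one,
    Complex.sub_re, Complex.natCast_re]

/-- **The Atiyah link.** The rank of the matrix `A` over `N(G)` is `m` minus the von Neumann
dimension of the kernel of `v ↦ v A`. -/
theorem rk_zN (A : Matrix ι κ (MonoidAlgebra ℤ G)) (K : Submodule ℂ (EllN G ι))
    [K.HasOrthogonalProjection] (hK : ∀ v : EllN G ι, v ∈ K ↔ ∀ j, ∑ i, rmul (A i j) (v i) = 0) :
    rk (tau G) (A.map (zN G)) = Fintype.card ι -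
      ∑ i, (⟪inj i (dl (1 : G)), K.starProjection (inj i (dl (1 : G)))⟫_ℂ).re := by
  rw [rk_eq, ← dim_ker A K hK, Complex.re_sum]

end Pool.Agent.Helper655.VN
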