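import Pool.Agent.H7.L.Helper655_VNDefs

set_option autoImplicit false
set_option linter.unusedSectionVars false

open scoped InnerProductSpace Matrix

namespace Pool.Agent.Helper655.VN

universe u

variable {G : Type u} [Group G]

/-- `ℓ²(G)^ι` as a Hilbert space -/
abbrev EllN (G : Type u) (ι : Type*) [Fintype ι] := PiLp 2 (fun _ : ι => EllTwo G)

variable {ι κ μ : Type*} [Fintype ι] [Fintype κ] [Fintype μ] [DecidableEq ι] [DecidableEq κ]
  [DecidableEq μ]

/-- coordinate projection -/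
noncomputable def prj (i : ι) : EllN G ι →L[ℂ] EllTwo G := PiLp.proj 2 (fun _ : ι => EllTwo G) i

/-- coordinate inclusion -/
noncomputable def inj (i : ι) : EllTwo G →L[ℂ] EllN G ι :=
  (PiLp.continuousLinearEquiv 2 ℂ (fun _ : ι => EllTwo G)).symm.toContinuousLinearMap ∘L
    ContinuousLinearMap.single ℂ (fun _ : ι => EllTwo G) i

/-- The operator `(x_i) ↦ (∑ i, A k i x_i)_k` on `ℓ²(G)^ι` given by a matrix over `N(G)`. -/
noncomputable def opM (A : Matrix κ ι (NG G)) : EllN G ι →L[ℂ] EllN G κ :=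
  (PiLp.continuousLinearEquiv 2 ℂ (fun _ : κ => EllTwo G)).symm.toContinuousLinearMap ∘L
    ContinuousLinearMap.pi (fun k => ∑ i, (A k i : EllTwo G →L[ℂ] EllTwo G) ∘L prj i)

theorem prj_apply (i : ι) (x : EllN G ι) : prj i x = x i := rfl

theorem inj_self (i : ι) (x : EllTwo G) : (inj i x : EllN G ι) i = x := by
  show (Pi.single i x : ι → EllTwo G) i = x
  simp

theorem inj_ne (i j : ι) (h : j ≠ i) (x : EllTwo G) : (inj i x : EllN G ι) j = 0 := by
  show (Pi.single i x : ι → EllTwo G) j = 0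
  simp [h]

theorem opM_apply (A : Matrix κ ι (NG G)) (x : EllN G ι) (k : κ) :
    (opM A x) k = ∑ i, (A k i : EllTwo G →L[ℂ] EllTwo G) (x i) := by
  show (∑ i, (A k i : EllTwo G →L[ℂ] EllTwo G) ∘L prj i) x = _
  rw [sum_apply]
  rfl

theorem ext_N {x y : EllN G ι} (h : ∀ i, x i = y i) : x = y := by
  apply PiLp.ext
  exact h

theorem sum_inj (x : EllN G ι) : ∑ i, inj i (x i) = x := by
  apply ext_N
  intro k
  rw [← prj_apply, map_sum, Finset.sum_eq_single k]
  · exact inj_self k _
  · intro b _ hb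
    exact inj_ne b k (Ne.symm hb) _
  · intro h
    exact absurd (Finset.mem_univ k) h

theorem ext_inj {E : Type*} [NormedAddCommGroup E] [NormedSpace ℂ E] {S T : EllN G ι →L[ℂ] E}
    (h : ∀ i x, S (inj i x) = T (inj i x)) : S = T := by
  ext x
  rw [← sum_inj x, map_sum, map_sum]
  exact Finset.sum_congr rfl fun i _ => h i _

theorem ext_inj_dl {E : Type*} [NormedAddCommGroup E] [NormedSpace ℂ E] {S T : EllN G ι →L[ℂ] E}
    (h : ∀ i g, S (inj i (dl g)) = T (inj i (dl g))) : S = T := by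
  apply ext_inj
  intro i x
  have h1 : S ∘L inj i = T ∘L inj i := ext_dl fun g => h i g
  exact congrArg (fun z : EllTwo G →L[ℂ] E => z x) h1

theorem opM_inj (A : Matrix κ ι (NG G)) (i : ι) (x : EllTwo G) (k : κ) :
    (opM A (inj i x)) k = (A k i : EllTwo G →L[ℂ] EllTwo G) x := by
  rw [opM_apply, Finset.sum_eq_single i]
  · rw [inj_self]
  · intro b _ hb
    rw [inj_ne i b hb, map_zero]
  · intro h
    exact absurd (Finset.mem_univ i) h

theorem opM_mul (A : Matrix μ κ (NG G)) (B : Matrix κ ι (NG G)) :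
    opM (A * B) = opM A ∘L opM B := by
  apply ext_inj
  intro i x
  apply ext_N
  intro m
  show _ = (opM A (opM B (inj i x))) m
  rw [opM_inj, opM_apply, Matrix.mul_apply]
  have h1 : ∀ k, (opM B (inj i x)) k = (B k i : EllTwo G →L[ℂ] EllTwo G) x := fun k => opM_inj B i x k
  simp only [h1]
  rw [AddSubmonoidClass.coe_finsetSum, sum_apply]
  rfl

theorem opM_one : opM (1 : Matrix ι ι (NG G)) = 1 := by
  apply ext_inj
  intro i x
  apply ext_N
  intro k
  rw [opM_inj]
  show _ = (inj i x) k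
  by_cases h : k = i
  · subst h
    rw [Matrix.one_apply_eq, inj_self]
    rfl
  · rw [Matrix.one_apply_ne h, inj_ne i k h]
    rfl

theorem opM_add (A B : Matrix κ ι (NG G)) : opM (A + B) = opM A + opM B := by
  apply ext_inj
  intro i x
  apply ext_N
  intro k
  show _ = (opM A (inj i x)) k + (opM B (inj i x)) k
  rw [opM_inj, opM_inj, opM_inj]
  rfl

theorem opM_sub (A B : Matrix κ ι (NG G)) : opM (A - B) = opM A - opM B := by
  apply ext_inj
  intro i x
  apply ext_N
  intro k
  show _ = (opM A (inj i x)) k - (opM B (inj i x)) k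
  rw [opM_inj, opM_inj, opM_inj]
  rfl

theorem opM_smul (c : ℂ) (A : Matrix κ ι (NG G)) : opM (c • A) = c • opM A := by
  apply ext_inj
  intro i x
  apply ext_N
  intro k
  show _ = c • (opM A (inj i x)) k
  rw [opM_inj, opM_inj]
  rfl

theorem opM_zero : opM (0 : Matrix κ ι (NG G)) = 0 := by
  apply ext_inj
  intro i x
  apply ext_N
  intro k
  rw [opM_inj]
  rfl

theorem opM_injective : Function.Injective (opM : Matrix κ ι (NG G) → _) := by
  intro A B h
  ext1 k i
  apply Subtype.ext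
  ext1 x
  rw [← opM_inj A i x k, ← opM_inj B i x k, h]

theorem opM_adjoint (A : Matrix κ ι (NG G)) :
    ContinuousLinearMap.adjoint (opM A) = opM Aᴴ := by
  symm
  rw [ContinuousLinearMap.eq_adjoint_iff]
  intro x y
  rw [PiLp.inner_apply, PiLp.inner_apply]
  simp only [opM_apply]
  simp only [sum_inner, inner_sum]
  rw [Finset.sum_comm]
  refine Finset.sum_congr rfl fun k _ => Finset.sum_congr rfl fun i _ => ?_
  rw [Matrix.conjTranspose_apply]
  show ⟪(star (A k i : EllTwo G →L[ℂ] EllTwo G)) (x k), y i⟫_ℂ = _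
  rw [ContinuousLinearMap.star_eq_adjoint, ContinuousLinearMap.adjoint_inner_left]

/-- diagonal right translation -/
noncomputable def rhoN (g : G) : EllN G ι →L[ℂ] EllN G ι :=
  (PiLp.continuousLinearEquiv 2 ℂ (fun _ : ι => EllTwo G)).symm.toContinuousLinearMap ∘L
    ContinuousLinearMap.pi (fun k => rho G g ∘L prj k)

theorem rhoN_apply (g : G) (x : EllN G ι) (k : ι) : (rhoN g x) k = rho G g (x k) := rfl

theorem rhoN_inj (g : G) (i : ι) (x : EllTwo G) : rhoN g (inj i x : EllN G ι) = inj i (rho G g x) := by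
  apply ext_N
  intro k
  rw [rhoN_apply]
  by_cases h : k = i
  · subst h
    rw [inj_self, inj_self]
  · rw [inj_ne i k h, inj_ne i k h, map_zero]

theorem rhoN_opM (g : G) (A : Matrix κ ι (NG G)) : rhoN g ∘L opM A = opM A ∘L rhoN g := by
  apply ext_inj
  intro i x
  apply ext_N
  intro k
  show rho G g ((opM A (inj i x)) k) = (opM A (rhoN g (inj i x))) k
  rw [rhoN_inj, opM_inj, opM_inj]
  exact congrArg (fun z : EllTwo G →L[ℂ] EllTwo G => z x) ((mem_NG _).1 (A k i).2 g)

/-- the matrix of an operator commuting with right translations -/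
theorem exists_opM (T : EllN G ι →L[ℂ] EllN G κ) (hT : ∀ g : G, rhoN g ∘L T = T ∘L rhoN g) :
    ∃ A : Matrix κ ι (NG G), opM A = T := by
  have hmem : ∀ (k : κ) (i : ι), prj k ∘L T ∘L inj i ∈ NG G := by
    intro k i
    rw [mem_NG]
    intro g
    ext1 x
    show rho G g ((T (inj i x)) k) = (T (inj i (rho G g x))) k
    rw [← rhoN_inj, ← rhoN_apply]
    have h1 := congrArg (fun z : EllN G ι →L[ℂ] EllN G κ => z (inj i x)) (hT g)
    have h2 : rhoN g (T (inj i x)) = T (rhoN g (inj i x)) := h1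
    rw [h2]
  refine ⟨fun k i => ⟨prj k ∘L T ∘L inj i, hmem k i⟩, ?_⟩
  apply ext_inj
  intro i x
  apply ext_N
  intro k
  exact opM_inj (G := G) (fun k i => ⟨prj k ∘L T ∘L inj i, hmem k i⟩) i x k

theorem rhoN_rhoN (g : G) (x : EllN G ι) : rhoN g (rhoN g⁻¹ x) = x := by
  apply ext_N
  intro k
  rw [rhoN_apply, rhoN_apply]
  ext h
  show (x k) (h * g * g⁻¹) = (x k) h
  rw [mul_assoc, mul_inv_cancel, mul_one]

theorem rhoN_inner (g : G) (x y : EllN G ι) : ⟪rhoN g x, y⟫_ℂ = ⟪x, rhoN g⁻¹ y⟫_ℂ := by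
  rw [PiLp.inner_apply, PiLp.inner_apply]
  refine Finset.sum_congr rfl fun k _ => ?_
  rw [rhoN_apply, rhoN_apply, ← star_rho, ContinuousLinearMap.star_eq_adjoint,
    ContinuousLinearMap.adjoint_inner_right]

/-- The orthogonal projection onto an invariant closed subspace is given by a matrix over `N(G)`. -/
theorem exists_proj (K : Submodule ℂ (EllN G ι)) [K.HasOrthogonalProjection]
    (hK : ∀ (g : G), ∀ x ∈ K, rhoN g x ∈ K) :
    ∃ p : Matrix ι ι (NG G), opM p = K.starProjection ∧ p * p = p ∧ pᴴ = p := by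
  have h1 : ∃ p : Matrix ι ι (NG G), opM p = K.starProjection := by
    apply exists_opM
    intro g
    ext1 x
    show rhoN g (K.starProjection x) = K.starProjection (rhoN g x)
    symm
    apply Submodule.eq_starProjection_of_mem_of_inner_eq_zero
    · exact hK g _ (Submodule.starProjection_apply_mem K x)
    · intro w hw
      rw [← map_sub, rhoN_inner]
      exact Submodule.starProjection_inner_eq_zero x _ (hK g⁻¹ w hw)
  obtain ⟨p, hp⟩ := h1
  refine ⟨p, hp, ?_, ?_⟩
  · apply opM_injective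
    rw [opM_mul, hp]
    exact (Submodule.isIdempotentElem_starProjection K)
  · apply opM_injective
    rw [← opM_adjoint, hp]
    exact (isSelfAdjoint_starProjection K).star_eq

/-- The kernel of a matrix. -/
noncomputable def kerM (A : Matrix κ ι (NG G)) : Submodule ℂ (EllN G ι) :=
  LinearMap.ker (opM A : EllN G ι →ₗ[ℂ] EllN G κ)

theorem mem_kerM (A : Matrix κ ι (NG G)) (x : EllN G ι) : x ∈ kerM A ↔ opM A x = 0 := Iff.rfl

theorem kerM_hop (A : Matrix κ ι (NG G)) : (kerM A).HasOrthogonalProjection := by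
  have h1 : IsClosed ((kerM A : Submodule ℂ (EllN G ι)) : Set (EllN G ι)) :=
    (opM A).isClosed_ker
  have : CompleteSpace (kerM A) := h1.completeSpace_coe
  infer_instance

attribute [local instance] kerM_hop

theorem kerM_inv (A : Matrix κ ι (NG G)) (g : G) : ∀ x ∈ kerM A, rhoN g x ∈ kerM A := by
  intro x hx
  rw [mem_kerM] at hx ⊢
  have h1 := congrArg (fun z : EllN G ι →L[ℂ] EllN G κ => z x) (rhoN_opM g A)
  have h2 : rhoN g (opM A x) = opM A (rhoN g x) := h1
  rw [← h2, hx, map_zero]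

/-- The projection matrix onto the kernel. -/
noncomputable def kp (A : Matrix κ ι (NG G)) : Matrix ι ι (NG G) :=
  (exists_proj (kerM A) (kerM_inv A)).choose

theorem opM_kp (A : Matrix κ ι (NG G)) : opM (kp A) = (kerM A).starProjection :=
  (exists_proj (kerM A) (kerM_inv A)).choose_spec.1

theorem kp_mul_self (A : Matrix κ ι (NG G)) : kp A * kp A = kp A :=
  (exists_proj (kerM A) (kerM_inv A)).choose_spec.2.1

theorem kp_star (A : Matrix κ ι (NG G)) : (kp A)ᴴ = kp A :=
  (exists_proj (kerM A) (kerM_inv A)).choose_spec.2.2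

theorem mul_kp (A : Matrix κ ι (NG G)) : A * kp A = 0 := by
  apply opM_injective
  rw [opM_mul, opM_kp, opM_zero]
  ext1 x
  exact (mem_kerM A _).1 (Submodule.starProjection_apply_mem _ x)

theorem kp_mul (A : Matrix κ ι (NG G)) (B : Matrix ι μ (NG G)) (h : A * B = 0) : kp A * B = B := by
  apply opM_injective
  rw [opM_mul, opM_kp]
  ext1 x
  show (kerM A).starProjection (opM B x) = opM B x
  rw [Submodule.starProjection_eq_self_iff, mem_kerM]
  have h1 := congrArg (fun z : Matrix κ μ (NG G) => opM z x) h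
  have h2 : opM (A * B) x = opM 0 x := h1
  rw [opM_mul, opM_zero] at h2
  exact h2

/-- the trace of a matrix over `N(G)` -/
noncomputable def mtr (A : Matrix ι ι (NG G)) : ℂ := ∑ i, tr (A i i)

theorem mtr_add (A B : Matrix ι ι (NG G)) : mtr (A + B) = mtr A + mtr B := by
  unfold mtr
  rw [← Finset.sum_add_distrib]
  exact Finset.sum_congr rfl fun i _ => map_add tr _ _

theorem mtr_sub (A B : Matrix ι ι (NG G)) : mtr (A - B) = mtr A - mtr B := by
  unfold mtr
  rw [← Finset.sum_sub_distrib]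
  exact Finset.sum_congr rfl fun i _ => map_sub tr _ _

theorem mtr_smul (c : ℂ) (A : Matrix ι ι (NG G)) : mtr (c • A) = c * mtr A := by
  unfold mtr
  rw [Finset.mul_sum]
  exact Finset.sum_congr rfl fun i _ => map_smul tr c _

theorem mtr_one : mtr (1 : Matrix ι ι (NG G)) = Fintype.card ι := by
  unfold mtr
  simp [tr_one]

theorem mtr_mul_comm (A : Matrix ι κ (NG G)) (B : Matrix κ ι (NG G)) :
    mtr (A * B) = mtr (B * A) := by
  unfold mtr
  simp only [Matrix.mul_apply, map_sum]
  rw [Finset.sum_comm]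
  exact Finset.sum_congr rfl fun k _ => Finset.sum_congr rfl fun i _ => tr_mul_comm _ _

theorem mtr_star_mul_self (A : Matrix κ ι (NG G)) :
    mtr (Aᴴ * A) = ((∑ i, ∑ k, ‖(A k i : EllTwo G →L[ℂ] EllTwo G) (dl 1)‖ ^ 2 : ℝ) : ℂ) := by
  unfold mtr
  rw [Complex.ofReal_sum]
  refine Finset.sum_congr rfl fun i _ => ?_
  rw [Matrix.mul_apply, map_sum, Complex.ofReal_sum]
  refine Finset.sum_congr rfl fun k _ => ?_
  rw [Matrix.conjTranspose_apply, tr_star_mul_self]

theorem mtr_faithful (A : Matrix κ ι (NG G)) (h : mtr (Aᴴ * A) = 0) : A = 0 := by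
  rw [mtr_star_mul_self] at h
  have h1 : (∑ i, ∑ k, ‖(A k i : EllTwo G →L[ℂ] EllTwo G) (dl 1)‖ ^ 2 : ℝ) = 0 := by exact_mod_cast h
  ext1 k i
  have h2 := (Finset.sum_eq_zero_iff_of_nonneg (fun i _ => Finset.sum_nonneg fun k _ => sq_nonneg _)).1
    h1 i (Finset.mem_univ i)
  have h3 := (Finset.sum_eq_zero_iff_of_nonneg (fun k _ => sq_nonneg _)).1 h2 k (Finset.mem_univ k)
  apply tr_faithful
  rw [tr_star_mul_self, h3]
  simp

theorem mtr_eq_inner (A : Matrix ι ι (NG G)) :
    mtr A = ∑ i, ⟪inj i (dl 1), opM A (inj i (dl 1))⟫_ℂ := by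
  unfold mtr
  refine Finset.sum_congr rfl fun i _ => ?_
  rw [PiLp.inner_apply, Finset.sum_eq_single i]
  · rw [inj_self, opM_inj]
    rfl
  · intro b _ hb
    rw [inj_ne i b hb, inner_zero_left]
  · intro h
    exact absurd (Finset.mem_univ i) h

end Pool.Agent.Helper655.VN
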