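import Pool.Agent.H7.L.Helper831_VN_Defs

attribute [local instance] VN831.bcFunctor_additive

set_option autoImplicit false

namespace VN831

open Pool.Agent.Helper655.VN

/-- The additive group of `R`, as a left module over `S` via the ring homomorphism `j`. -/
def Via {S R : Type} [Ring S] [Ring R] (_j : S →+* R) : Type := R

/-- The additive group structure of `Via j`. -/
@[reducible] def viaAdd {S R : Type} [Ring S] [Ring R] (j : S →+* R) : AddCommGroup (Via j) :=
  inferInstanceAs (AddCommGroup R)

attribute [local instance] viaAdd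

/-- The module structure of `Via j`. -/
@[reducible] noncomputable def viaMod {S R : Type} [Ring S] [Ring R] (j : S →+* R) :
    Module S (Via j) :=
  Module.compHom R j

attribute [local instance] viaMod

theorem Via.smul_def {S R : Type} [Ring S] [Ring R] (j : S →+* R) (s : S) (x : R) :
    (s • (show Via j from x)) = (show Via j from (j s * x)) := rfl

/-- Right multiplication of row vectors by a matrix. -/
noncomputable def rmM {S R : Type} [Ring S] [Ring R] (j : S →+* R) {a b : ℕ}
    (A : Matrix (Fin a) (Fin b) R) : (Fin a → Via j) →ₗ[S] (Fin b → Via j) where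
  toFun v := (Matrix.vecMul (show Fin a → R from v) A : Fin b → R)
  map_add' v w := Matrix.add_vecMul A v w
  map_smul' s v := by
    funext k
    have h : ∀ v : Fin a → R, ∑ i, (j s * v i) * A i k = j s * ∑ i, v i * A i k := fun v => by
      rw [Finset.mul_sum]
      exact Finset.sum_congr rfl fun i _ => mul_assoc _ _ _
    exact h v

theorem rmM_apply {S R : Type} [Ring S] [Ring R] (j : S →+* R) {a b : ℕ}
    (A : Matrix (Fin a) (Fin b) R) (v : Fin a → R) (k : Fin b) :
    (rmM j A (show Fin a → Via j from v) : Fin b → R) k = ∑ i, v i * A i k := rfl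

/-- The `S`-span of the group `Γ` in `R`. -/
noncomputable def SR {S R : Type} [Ring S] [Ring R] (j : S →+* R) {Γ : Type} [Group Γ]
    (c : Γ →* R) : Submodule S (Via j) :=
  Submodule.span S (Set.range fun g : Γ => (show Via j from c g))

/-- Cycles: rows with entries in the span of `Γ` which are annihilated by `B`. -/
noncomputable def ZR {S R : Type} [Ring S] [Ring R] (j : S →+* R) {Γ : Type} [Group Γ]
    (c : Γ →* R) {b d : ℕ} (B : Matrix (Fin b) (Fin d) R) : Submodule S (Fin b → Via j) :=
  (Submodule.pi Set.univ fun _ => SR j c) ⊓ LinearMap.ker (rmM j B)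

/-- Boundaries: the rows `w A` with `w` a row with entries in the span of `Γ`. -/
noncomputable def BR {S R : Type} [Ring S] [Ring R] (j : S →+* R) {Γ : Type} [Group Γ]
    (c : Γ →* R) {a b : ℕ} (A : Matrix (Fin a) (Fin b) R) : Submodule S (Fin b → Via j) :=
  (Submodule.pi Set.univ fun _ => SR j c).map (rmM j A)

/-- The homology of `SR^a → SR^b → SR^d`. -/
abbrev HR {S R : Type} [Ring S] [Ring R] (j : S →+* R) {Γ : Type} [Group Γ]
    (c : Γ →* R) {a b d : ℕ} (A : Matrix (Fin a) (Fin b) R) (B : Matrix (Fin b) (Fin d) R) :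
    Type :=
  (ZR j c B) ⧸ ((BR j c A).submoduleOf (ZR j c B))

/-- Elements of `Γ` from pairwise different cosets `K g` are left independent over `S`. -/
def CosetIndep {S R : Type} [Ring S] [Ring R] (j : S →+* R) {Γ : Type} [Group Γ]
    (c : Γ →* R) (K : Subgroup Γ) : Prop :=
  ∀ s : Finset Γ, (∀ g ∈ s, ∀ h ∈ s, g ≠ h → g * h⁻¹ ∉ K) → ∀ x : Γ → S,
    ∑ g ∈ s, j (x g) * c g = 0 → ∀ g ∈ s, x g = 0

end VN831
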