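import Pool.Agent.H7.L.RK_Defs2
import Pool.Agent.H7.L.Helper831_VN_Cx

attribute [local instance] VN831.bcFunctor_additive VN831.viaAdd VN831.viaMod

set_option autoImplicit false

namespace V6

open Pool.Agent.RK TN970 VN831

/-- The data of the comparison of dimensions over `R'` and over `Dc u N`. -/
structure Setup {Γ : Type} [Group Γ] {R' R U D : Type} [Ring R'] [StarRing R'] [Ring R] [Ring U]
    [DivisionRing D] (τ' : R' →+ ℝ) (j : R' →+* R) (ι : R →+* U) (κ : D →+* U) (u : Γ →* Dˣ)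
    (lam : Γ →* R) (N : Subgroup Γ) : Prop where
  vn : VN R' τ'
  jinj : Function.Injective j
  jnz : ∀ s, Nz s → Nz (j s)
  loc : Loc ι
  hu : ∀ g, κ ((u g : Dˣ) : D) = ι (lam g)
  hN : ∀ g ∈ N, ∃ r : R', j r = lam g
  hK : ∀ d ∈ Dc u N, κ d ∈ UN j ι
  indep : CosetIndep j lam N

/-- A representative of the right coset `N g`. -/
noncomputable def rep {Γ : Type} [Group Γ] (N : Subgroup Γ) (g : Γ) : Γ :=
  (Quotient.mk (QuotientGroup.rightRel N) g).out

/-- Rows over `U` which are combinations, with coefficients in `U_N`, of rows over `D` with entries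
in the `Dc u N`-span of `Γ`. -/
def InS {Γ : Type} [Group Γ] {R' R U D : Type} [Ring R'] [Ring R] [Ring U]
    [DivisionRing D] (j : R' →+* R) (ι : R →+* U) (κ : D →+* U) (u : Γ →* Dˣ)
    (N : Subgroup Γ) {b : ℕ} (v : Fin b → U) : Prop :=
  ∃ (m : ℕ) (c : Fin m → U) (y : Fin m → Fin b → D), (∀ i, c i ∈ UN j ι) ∧
    (∀ i t, y i t ∈ SN u N) ∧ ∀ t, v t = ∑ i, c i * κ (y i t)

end V6
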