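import Pool.Agent.H7.L.Helper831_V6_Defs
import Pool.Agent.H7.L.Helper831_V6_P_insDenom

attribute [local instance] VN831.bcFunctor_additive VN831.viaAdd VN831.viaMod

set_option autoImplicit false

namespace V6

open Pool.Agent.RK TN970 VN831


theorem bdTorsion {Γ : Type} [Group Γ] {R' R U D : Type} [Ring R'] [StarRing R'] [Ring R] [Ring U]
    [DivisionRing D] {τ' : R' →+ ℝ} {j : R' →+* R} {ι : R →+* U} {κ : D →+* U} {u : Γ →* Dˣ}
    {lam : Γ →* R} {N : Subgroup Γ} (S : Setup τ' j ι κ u lam N) (κ0 : MonoidAlgebra ℤ Γ →+* R) (hκ0 : ∀ a, κ (ev u a) = ι (κ0 a))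
    {a b d : ℕ} (A : Matrix (Fin a) (Fin b) (MonoidAlgebra ℤ Γ))
    (B : Matrix (Fin b) (Fin d) (MonoidAlgebra ℤ Γ)) (z : ZR j lam (B.map κ0))
    (w : Fin a → U) (hw : InS j ι κ u N w)
    (h : ∀ t, ι (show R from (z : Fin b → Via j) t) = ∑ l, w l * κ (ev u (A l t))) :
    ∃ s : R', Nz s ∧
      s • (Submodule.Quotient.mk z : HR j lam (A.map κ0) (B.map κ0)) = 0 := by
  obtain ⟨s, w', hs, hw'm, hw'⟩ := insDenom S (n := Unit) (fun _ => w) (fun _ => hw)
  refine ⟨s, hs, ?_⟩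
  rw [← Submodule.Quotient.mk_smul, Submodule.Quotient.mk_eq_zero]
  change s • (z : Fin b → Via j) ∈ (Submodule.pi Set.univ fun _ => SR j lam).map (rmM j (A.map κ0))
  rw [Submodule.mem_map]
  refine ⟨(show Fin a → Via j from w' ()), ?_, ?_⟩
  · rw [Submodule.mem_pi]
    intro i _
    exact hw'm () i
  · funext t
    have h1 : ι (∑ l, w' () l * (A.map κ0) l t) =
        ι (j s * (show R from (z : Fin b → Via j) t)) := by
      rw [map_sum, map_mul, h t, Finset.mul_sum]
      refine Finset.sum_congr rfl fun l _ => ?_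
      rw [map_mul, ← hw' () l, Matrix.map_apply, ← hκ0, mul_assoc]
    exact S.loc.inj h1

end V6
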