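import Pool.Agent.H7.L.Helper831_V6_Defs

attribute [local instance] VN831.bcFunctor_additive VN831.viaAdd VN831.viaMod

set_option autoImplicit false

namespace V6

open Pool.Agent.RK TN970 VN831


theorem splitKer {K V W : Type} [DivisionRing K] [AddCommGroup V] [Module K V] [AddCommGroup W]
    [Module K W] (β : V →ₗ[K] W) {m : ℕ} (y : Fin m → V) :
    ∃ (p q : ℕ) (z : Fin p → V) (z' : Fin q → V) (a : Fin m → Fin p → K) (a' : Fin m → Fin q → K),
      (∀ l, z l ∈ Submodule.span K (Set.range y)) ∧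
      (∀ l, z' l ∈ Submodule.span K (Set.range y)) ∧ (∀ l, β (z l) = 0) ∧
      LinearIndependent K (fun l => β (z' l)) ∧
      ∀ i, y i = ∑ l, a i l • z l + ∑ l, a' i l • z' l := by
  classical
  obtain ⟨Y, hY⟩ : ∃ Y : Submodule K V, Y = Submodule.span K (Set.range y) := ⟨_, rfl⟩
  haveI hfin : Module.Finite K Y := by
    rw [hY]
    exact Module.Finite.span_of_finite K (Set.finite_range y)
  obtain ⟨Q, hPQ⟩ := Submodule.exists_isCompl (LinearMap.ker (β.domRestrict Y))
  obtain ⟨P, hP⟩ : ∃ P : Submodule K Y, P = LinearMap.ker (β.domRestrict Y) := ⟨_, rfl⟩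
  rw [← hP] at hPQ
  let bP := Module.finBasis K P
  let bQ := Module.finBasis K Q
  have hyY : ∀ i, y i ∈ Y := fun i => by
    rw [hY]
    exact Submodule.subset_span (Set.mem_range_self i)
  have hdec : ∀ i, ∃ p : P, ∃ q : Q, y i = ((p : Y) : V) + ((q : Y) : V) := by
    intro i
    have h1 : (⟨y i, hyY i⟩ : Y) ∈ P ⊔ Q := by
      rw [hPQ.sup_eq_top]
      exact Submodule.mem_top
    obtain ⟨p, hp, q, hq, hpq⟩ := Submodule.mem_sup.1 h1
    exact ⟨⟨p, hp⟩, ⟨q, hq⟩, (congrArg Subtype.val hpq).symm⟩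
  choose p q hpq using hdec
  refine ⟨_, _, fun l => ((bP l : Y) : V), fun l => ((bQ l : Y) : V), fun i l => bP.repr (p i) l,
    fun i l => bQ.repr (q i) l, ?_, ?_, ?_, ?_, ?_⟩
  · intro l
    rw [← hY]
    exact (bP l : Y).2
  · intro l
    rw [← hY]
    exact (bQ l : Y).2
  · intro l
    have h1 : (bP l : Y) ∈ LinearMap.ker (β.domRestrict Y) := by
      rw [← hP]
      exact (bP l).2
    exact h1
  · have h1 : LinearMap.ker ((β.domRestrict Y).comp Q.subtype) = ⊥ := by
      rw [LinearMap.ker_eq_bot']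
      intro x hx
      have h2 : (x : Y) ∈ P := by
        rw [hP]
        exact hx
      have h3 : (x : Y) ∈ P ⊓ Q := ⟨h2, x.2⟩
      rw [hPQ.inf_eq_bot, Submodule.mem_bot] at h3
      exact Subtype.ext h3
    exact bQ.linearIndependent.map' _ h1
  · intro i
    have h1 : p i = ∑ l, bP.repr (p i) l • bP l := (bP.sum_repr (p i)).symm
    have h2 : q i = ∑ l, bQ.repr (q i) l • bQ l := (bQ.sum_repr (q i)).symm
    have h3 : ((p i : Y) : V) = ∑ l, bP.repr (p i) l • ((bP l : Y) : V) := by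
      conv_lhs => rw [h1]
      simp only [Submodule.coe_sum, Submodule.coe_smul]
    have h4 : ((q i : Y) : V) = ∑ l, bQ.repr (q i) l • ((bQ l : Y) : V) := by
      conv_lhs => rw [h2]
      simp only [Submodule.coe_sum, Submodule.coe_smul]
    rw [hpq i, h3, h4]

end V6
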