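import Pool.Agent.H7.L.Helper831_V6_Defs
import Pool.Agent.H7.L.Helper831_V6_P_bdTorsion
import Pool.Agent.H7.L.Helper831_V6_P_insSmul
import Pool.Agent.H7.L.Helper831_V6_P_insSum
import Pool.Agent.H7.L.Helper831_V6_P_upperCore
import Pool.Agent.H7.L.Helper831_V6_Un

attribute [local instance] VN831.bcFunctor_additive VN831.viaAdd VN831.viaMod

set_option autoImplicit false

namespace V6

open Pool.Agent.RK TN970 VN831


theorem upper {Γ : Type} [Group Γ] {R' R U D : Type} [Ring R'] [StarRing R'] [Ring R] [Ring U]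
    [DivisionRing D] {τ' : R' →+ ℝ} {j : R' →+* R} {ι : R →+* U} {κ : D →+* U} {u : Γ →* Dˣ}
    {lam : Γ →* R} {N : Subgroup Γ} (S : Setup τ' j ι κ u lam N) (κ0 : MonoidAlgebra ℤ Γ →+* R) (hκ0 : ∀ a, κ (ev u a) = ι (κ0 a))
    {a b d : ℕ} (A : Matrix (Fin a) (Fin b) (MonoidAlgebra ℤ Γ))
    (B : Matrix (Fin b) (Fin d) (MonoidAlgebra ℤ Γ))
    [Module.Finite (Dc u N) (HN u N (A.map (ev u)) (B.map (ev u)))]
    {k : ℕ} (e : Matrix (Fin k) (Fin k) R') (he : e * e = e)
    (f : rowMod e →ₗ[R'] HR j lam (A.map κ0) (B.map κ0)) (hf : Function.Injective f) :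
    Tr τ' e ≤ Module.finrank (Dc u N) (HN u N (A.map (ev u)) (B.map (ev u))) := by
  classical
  obtain ⟨bas, _⟩ : ∃ bas : Module.Basis (Fin (Module.finrank (Dc u N) (HN u N (A.map (ev u)) (B.map (ev u)))))
      (Dc u N) (HN u N (A.map (ev u)) (B.map (ev u))), True := ⟨Module.finBasis _ _, trivial⟩
  have hxe : ∀ q, ∃ x : ZN u N (B.map (ev u)),
      (Submodule.Quotient.mk x : HN u N (A.map (ev u)) (B.map (ev u))) = bas q :=
    fun q => Submodule.Quotient.mk_surjective _ (bas q)
  choose x hx using hxe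
  have hspan : ⊤ ≤ Submodule.span (Dc u N) (Set.range fun q =>
      (Submodule.Quotient.mk (x q) : HN u N (A.map (ev u)) (B.map (ev u)))) := by
    have h1 : (fun q => (Submodule.Quotient.mk (x q) : HN u N (A.map (ev u)) (B.map (ev u)))) = bas :=
      funext hx
    rw [h1, bas.span_eq]
  have hrow : ∀ i, (fun t => e i t) ∈ rowMod e := by
    intro i
    show Matrix.vecMul (fun t => e i t) e = fun t => e i t
    funext t
    have h1 := congrFun (congrFun he i) t
    rw [Matrix.mul_apply] at h1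
    exact h1
  have hve : ∀ i, ∃ v : ZR j lam (B.map κ0),
      (Submodule.Quotient.mk v : HR j lam (A.map κ0) (B.map κ0)) = f ⟨_, hrow i⟩ :=
    fun i => Submodule.Quotient.mk_surjective _ _
  choose v hv using hve
  obtain ⟨F, w, hF, hw, hFw⟩ := upperCore S κ0 hκ0 A B x hspan
    (fun i t => (show R from (v i : Fin b → Via j) t))
    (fun i t => (v i).2.1 t (Set.mem_univ t))
    (fun i t => by
      have h1 : rmM j (B.map κ0) (v i : Fin b → Via j) = 0 := (v i).2.2
      have h2 := congrFun h1 t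
      exact h2)
  refine embedUN S e he F hF ?_
  intro y hy hyF
  -- the class of y
  have hyrow : y ∈ rowMod e := hy
  have hysum : (⟨y, hyrow⟩ : rowMod e) = ∑ i, y i • (⟨_, hrow i⟩ : rowMod e) := by
    apply Subtype.ext
    rw [Submodule.coe_sum]
    funext t
    rw [Finset.sum_apply]
    have h1 := congrFun hy t
    exact h1.symm
  have hfy : f ⟨y, hyrow⟩ = (Submodule.Quotient.mk (∑ i, y i • v i) :
      HR j lam (A.map κ0) (B.map κ0)) := by
    rw [hysum, map_sum]
    have h1 : (Submodule.Quotient.mk (∑ i, y i • v i) : HR j lam (A.map κ0) (B.map κ0))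
        = ∑ i, y i • (Submodule.Quotient.mk (v i) : HR j lam (A.map κ0) (B.map κ0)) := by
      rw [← Submodule.mkQ_apply, map_sum]
      refine Finset.sum_congr rfl fun i _ => ?_
      rw [map_smul]
      rfl
    rw [h1]
    refine Finset.sum_congr rfl fun i _ => ?_
    rw [map_smul, hv]
  have hzt : ∀ t, ι (show R from ((∑ i, y i • v i : ZR j lam (B.map κ0)) : Fin b → Via j) t)
      = ∑ l, (∑ i, ι (j (y i)) * w i l) * κ (ev u (A l t)) := by
    intro t
    have h1 : (show R from ((∑ i, y i • v i : ZR j lam (B.map κ0)) : Fin b → Via j) t)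
        = ∑ i, j (y i) * (show R from (v i : Fin b → Via j) t) := by
      rw [Submodule.coe_sum, Finset.sum_apply]
      rfl
    rw [h1, map_sum]
    have h2 : ∀ i, ι (j (y i) * (show R from (v i : Fin b → Via j) t))
        = ∑ q, (ι (j (y i)) * F i q) * κ ((x q : Fin b → D) t)
          + ∑ l, (ι (j (y i)) * w i l) * κ (ev u (A l t)) := by
      intro i
      rw [map_mul, hFw i t, mul_add, Finset.mul_sum, Finset.mul_sum]
      congr 1
      · exact Finset.sum_congr rfl fun q _ => (mul_assoc _ _ _).symm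
      · exact Finset.sum_congr rfl fun q _ => (mul_assoc _ _ _).symm
    rw [Finset.sum_congr rfl (fun i _ => h2 i), Finset.sum_add_distrib, Finset.sum_comm]
    have h3 : ∑ q, ∑ i, (ι (j (y i)) * F i q) * κ ((x q : Fin b → D) t) = 0 := by
      refine Finset.sum_eq_zero fun q _ => ?_
      rw [← Finset.sum_mul, hyF q, zero_mul]
    rw [h3, zero_add, Finset.sum_comm]
    refine Finset.sum_congr rfl fun l _ => ?_
    rw [Finset.sum_mul]
  obtain ⟨s, hs, hsz⟩ := bdTorsion S κ0 hκ0 A B (∑ i, y i • v i) (fun l => ∑ i, ι (j (y i)) * w i l)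
    (insSum S (fun i l => ι (j (y i)) * w i l) (fun i => insSmul S (w i) (hw i) _ (unBase S (y i)))) hzt
  rw [← hfy, ← map_smul] at hsz
  have h0 : s • (⟨y, hyrow⟩ : rowMod e) = 0 := hf (by rw [hsz, map_zero])
  funext i
  have h1 : s * y i = 0 := by
    have h2 := congrArg Subtype.val h0
    exact congrFun h2 i
  have h3 : ι (j s) * ι (j (y i)) = 0 := by
    rw [← map_mul, ← map_mul, h1, map_zero, map_zero]
  have h4 : ι (j (y i)) = 0 := (isUnitS S s hs).mul_right_eq_zero.1 h3
  have h5 : j (y i) = 0 := S.loc.inj (by rw [h4, map_zero])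
  exact S.jinj (by rw [h5]; exact (map_zero j).symm)

end V6
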