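import Pool.Agent.H7.L.Helper970_V7_Defs

attribute [local instance] VN831.bcFunctor_additive VN831.viaAdd VN831.viaMod V7N.bcF_additive
  V7N.rmAdd V7N.rmMod

set_option autoImplicit false



namespace V7N
open CategoryTheory
open scoped TensorProduct


theorem freeRes_aux581 {G : Type} [Group G] (X : ℕ → Type) [∀ n, AddCommGroup (X n)]
    [∀ n, Module (MonoidAlgebra ℤ G) (X n)] (hfree : ∀ n, Module.Free (MonoidAlgebra ℤ G) (X n))
    (hfin : ∀ n, Module.Finite (MonoidAlgebra ℤ G) (X n))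
    (D : ∀ n, X (n + 1) →ₗ[MonoidAlgebra ℤ G] X n) (T : Type) [AddCommGroup T]
    [Module (MonoidAlgebra ℤ G) T] (p : X 0 →ₗ[MonoidAlgebra ℤ G] T) (θ : T ≃+ ℤ)
    (hT : ∀ (g : G) (t : T), θ (MonoidAlgebra.single g (1 : ℤ) • t) = θ t)
    (hs : Function.Surjective p) (h0 : ∀ v, p v = 0 ↔ ∃ w, D 0 w = v)
    (hn : ∀ n v, D n v = 0 ↔ ∃ w, D (n + 1) w = v) : Nonempty (FreeRes G) := by
  have hb : ∀ n, ∃ r : ℕ, Nonempty (Module.Basis (Fin r) (MonoidAlgebra ℤ G) (X n)) := by
    intro n
    have := hfree n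
    have := hfin n
    have hf : Finite (Module.Free.ChooseBasisIndex (MonoidAlgebra ℤ G) (X n)) :=
      Module.Finite.finite_basis (Module.Free.chooseBasis (MonoidAlgebra ℤ G) (X n))
    obtain ⟨r, ⟨e⟩⟩ := Finite.exists_equiv_fin
      (Module.Free.ChooseBasisIndex (MonoidAlgebra ℤ G) (X n))
    exact ⟨r, ⟨(Module.Free.chooseBasis (MonoidAlgebra ℤ G) (X n)).reindex e⟩⟩
  choose r hb using hb
  let b : ∀ n, Module.Basis (Fin (r n)) (MonoidAlgebra ℤ G) (X n) := fun n => (hb n).some
  let d : ∀ n, Matrix (Fin (r (n + 1))) (Fin (r n)) (MonoidAlgebra ℤ G) := fun n =>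
    Matrix.of fun a j => (b n).equivFun (D n (b (n + 1) a)) j
  have key : ∀ (n : ℕ) (x : X (n + 1)),
      (b n).equivFun (D n x) = Matrix.vecMul ((b (n + 1)).equivFun x) (d n) := by
    intro n x
    conv_lhs => rw [← (b (n + 1)).sum_equivFun x]
    rw [map_sum, map_sum]
    funext j
    rw [Finset.sum_apply]
    simp only [Matrix.vecMul, dotProduct, d, Matrix.of_apply]
    refine Finset.sum_congr rfl fun a _ => ?_
    rw [map_smul, map_smul]
    rfl
  have key' : ∀ (n : ℕ) (v : Fin (r (n + 1)) → MonoidAlgebra ℤ G),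
      Matrix.vecMul v (d n) = (b n).equivFun (D n ((b (n + 1)).equivFun.symm v)) := by
    intro n v
    rw [key, LinearEquiv.apply_symm_apply]
  refine ⟨⟨r, d, θ.toAddMonoidHom.comp (p.toAddMonoidHom.comp
    ((b 0).equivFun.symm.toLinearMap.toAddMonoidHom)), ?_, ?_, ?_, ?_⟩⟩
  · intro g v
    change θ (p ((b 0).equivFun.symm (MonoidAlgebra.single g (1 : ℤ) • v))) =
      θ (p ((b 0).equivFun.symm v))
    rw [map_smul, map_smul, hT]
  · exact θ.surjective.comp (hs.comp (b 0).equivFun.symm.surjective)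
  · intro v
    change θ (p ((b 0).equivFun.symm v)) = 0 ↔ _
    rw [map_eq_zero_iff θ θ.injective, h0]
    constructor
    · rintro ⟨w, hw⟩
      refine ⟨(b 1).equivFun w, ?_⟩
      rw [← key, hw, LinearEquiv.apply_symm_apply]
    · rintro ⟨w, rfl⟩
      refine ⟨(b 1).equivFun.symm w, ?_⟩
      rw [key', LinearEquiv.symm_apply_apply]
  · intro n v
    rw [key', map_eq_zero_iff _ (b n).equivFun.injective, hn]
    constructor
    · rintro ⟨w, hw⟩
      refine ⟨(b (n + 2)).equivFun w, ?_⟩
      rw [← key, hw, LinearEquiv.apply_symm_apply]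
    · rintro ⟨w, rfl⟩
      refine ⟨(b (n + 2)).equivFun.symm w, ?_⟩
      rw [key', LinearEquiv.symm_apply_apply]

theorem freeRes_of {G : Type} [Group G] (P : ProjectiveResolution (trivG G))
    (hfree : ∀ n, Module.Free (MonoidAlgebra ℤ G) (P.complex.X n))
    (hfin : ∀ n, Module.Finite (MonoidAlgebra ℤ G) (P.complex.X n)) :
    Nonempty (FreeRes G) := by
  have hs : Function.Surjective (P.π.f 0).hom :=
    (ModuleCat.epi_iff_surjective (P.π.f 0)).mp inferInstance
  refine freeRes_aux581 (fun n => (P.complex.X n : Type)) hfree hfin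
    (fun n => (P.complex.d (n + 1) n).hom) (trivG G : Type) (P.π.f 0).hom
    (AddEquiv.refl ℤ) ?_ hs ?_ ?_
  · intro g t
    have h1 : augG G (MonoidAlgebra.single g 1) = 1 := by simp [augG]
    have h2 : augG G (MonoidAlgebra.single g 1) * (show ℤ from t) = (show ℤ from t) := by
      rw [h1, one_mul]
    exact h2
  · intro v
    constructor
    · intro hv
      have := (ShortComplex.moduleCat_exact_iff _).mp P.exact₀ v hv
      obtain ⟨w, hw⟩ := this
      exact ⟨w, hw⟩
    · rintro ⟨w, rfl⟩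
      have := P.complex_d_comp_π_f_zero
      exact congrArg (fun f => f.hom w) this
  · intro n v
    constructor
    · intro hv
      have := (ShortComplex.moduleCat_exact_iff _).mp (P.exact_succ n) v hv
      obtain ⟨w, hw⟩ := this
      exact ⟨w, hw⟩
    · rintro ⟨w, rfl⟩
      have := P.complex.d_comp_d (n + 2) (n + 1) n
      exact congrArg (fun f => f.hom w) this

end V7N
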