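import Pool.Agent.H7.L.Helper970_V7_P_v7_succ
import Pool.Agent.H7.L.Helper970_V7_P_v7_zero
import Pool.Agent.H7.L.Helper970_V7_P_freeRes_of

attribute [local instance] VN831.bcFunctor_additive VN831.viaAdd VN831.viaMod V7N.bcF_additive
  V7N.rmAdd V7N.rmMod

namespace V7N

open CategoryTheory

theorem gen_mul (Γ : Type) [Group Γ] (C : FreeRes Γ) (n : ℕ) : C.d (n + 1) * C.d n = 0 := by
  refine Matrix.ext fun a b => ?_
  have h := (C.exact_succ n (Matrix.vecMul (Pi.single a 1) (C.d (n + 1)))).2 ⟨_, rfl⟩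
  rw [Matrix.vecMul_vecMul] at h
  have h2 := congrFun h b
  rw [Matrix.single_one_vecMul] at h2
  exact h2

/-- The comparison over arbitrary rings: one pair of matrices computes, in degree `n`, the left
derived functors of all base changes along subgroups. -/
theorem v7_gen {Γ : Type} [Group Γ] (P : ProjectiveResolution (trivG Γ))
    (hfree : ∀ n, Module.Free (MonoidAlgebra ℤ Γ) (P.complex.X n))
    (hfin : ∀ n, Module.Finite (MonoidAlgebra ℤ Γ) (P.complex.X n)) (n : ℕ) : ∃ (a b d : ℕ)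
    (A : Matrix (Fin a) (Fin b) (MonoidAlgebra ℤ Γ))
    (B : Matrix (Fin b) (Fin d) (MonoidAlgebra ℤ Γ)),
    A * B = 0 ∧
    ∀ (K : Type) [Group K] (R W : Type) [Ring R] [Ring W] (i : K →* Γ)
      (_ : Function.Injective i) (c : K →* R) (cW : Γ →* W) (j : R →+* W),
      (∀ k, j (c k) = cW (i k)) → VN831.CosetIndep j cW i.range →
      Nonempty ((((bcF c).leftDerived n).obj (trivG K)) ≃ₗ[R]
        VN831.HR j cW (A.map (evM cW)) (B.map (evM cW))) := by
  obtain ⟨C⟩ := freeRes_of (G := Γ) P hfree hfin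
  rcases n with _ | n
  · refine ⟨C.r 1, C.r 0, 0, C.d 0, 0, Matrix.ext fun _ b => b.elim0, ?_⟩
    intro K _ R W _ _ i hi c cW j hc hind
    exact v7_zero C i hi c cW j hc hind
  · refine ⟨C.r (n + 1 + 1), C.r (n + 1), C.r n, C.d (n + 1), C.d n, gen_mul Γ C n, ?_⟩
    intro K _ R W _ _ i hi c cW j hc hind
    exact v7_succ C n i hi c cW j hc hind

end V7N
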