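import Mathlib

open scoped InnerProductSpace Topology CompactlySupported InnerProduct

noncomputable section

namespace Pool.Agent.Helper993.FK

/-- The Hilbert space `L²(G)^r` of square summable complex functions on `Fin r × G`. -/
def L2Pow (G : Type) (r : ℕ) : Type := lp (fun _ : Fin r × G => ℂ) 2

instance (G : Type) (r : ℕ) : NormedAddCommGroup (L2Pow G r) :=
  lp.normedAddCommGroup (E := fun _ : Fin r × G => ℂ) (p := 2)

instance (G : Type) (r : ℕ) : InnerProductSpace ℂ (L2Pow G r) :=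
  lp.instInnerProductSpace (G := fun _ : Fin r × G => ℂ)

instance (G : Type) (r : ℕ) : CompleteSpace (L2Pow G r) :=
  lp.completeSpace (E := fun _ : Fin r × G => ℂ) (p := 2)

/-- The value at `g` of the `i`-th entry of `x`. -/
def coord {G : Type} {r : ℕ} (x : L2Pow G r) (i : Fin r) (g : G) : ℂ :=
  (show lp (fun _ : Fin r × G => ℂ) 2 from x) (i, g)

theorem coord_summable {G : Type} {r : ℕ} (x : L2Pow G r) :
    Summable (fun p : Fin r × G => ‖coord x p.1 p.2‖ ^ ((2 : ENNReal).toReal)) :=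
  (lp.memℓp (show lp (fun _ : Fin r × G => ℂ) 2 from x)).summable (by norm_num)

theorem norm_rpow_eq {G : Type} {r : ℕ} (x : L2Pow G r) :
    ‖x‖ ^ ((2 : ENNReal).toReal)
      = ∑' p : Fin r × G, ‖coord x p.1 p.2‖ ^ ((2 : ENNReal).toReal) :=
  lp.norm_rpow_eq_tsum (by norm_num) (show lp (fun _ : Fin r × G => ℂ) 2 from x)

theorem norm_le_of {G : Type} {r : ℕ} (y : L2Pow G r) {C : ℝ} (hC : 0 ≤ C)
    (h : ∑' p : Fin r × G, ‖coord y p.1 p.2‖ ^ ((2 : ENNReal).toReal)
      ≤ C ^ ((2 : ENNReal).toReal)) : ‖y‖ ≤ C :=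
  lp.norm_le_of_tsum_le (by norm_num) hC (f := (show lp (fun _ : Fin r × G => ℂ) 2 from y)) h

section shift
variable {G : Type} [Group G] {r s : ℕ} (i : Fin r) (j : Fin s) (g : G)

/-- The function `x g` placed in the `j`-th entry, where `x` is the `i`-th entry of a vector. -/
def shiftFun (x : L2Pow G r) (p : Fin s × G) : ℂ :=
  if p.1 = j then coord x i (p.2 * g⁻¹) else 0

theorem shiftFun_summable_aux (x : L2Pow G r) :
    Summable (fun h : G => ‖shiftFun i j g x (j, h)‖ ^ ((2 : ENNReal).toReal)) := by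
  have h1 : Function.Injective (fun h : G => ((i, h * g⁻¹) : Fin r × G)) := by
    intro a b hab
    simpa using hab
  have h2 := (coord_summable x).comp_injective h1
  simpa [shiftFun, Function.comp_def] using h2

theorem shiftFun_summable (x : L2Pow G r) :
    Summable (fun p : Fin s × G => ‖shiftFun i j g x p‖ ^ ((2 : ENNReal).toReal)) := by
  have h3 : Function.Injective (fun h : G => ((j, h) : Fin s × G)) := by
    intro a b hab
    simpa using hab
  rw [← h3.summable_iff]
  · exact shiftFun_summable_aux i j g x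
  · rintro ⟨j', h⟩ hp
    have : j' ≠ j := by
      rintro rfl
      exact hp ⟨h, rfl⟩
    simp [shiftFun, this]

theorem shiftFun_mem (x : L2Pow G r) :
    Memℓp (fun p : Fin s × G => shiftFun i j g x p) 2 :=
  memℓp_gen (shiftFun_summable i j g x)

/-- The linear map `L²(G)^r → L²(G)^s` which sends `x` to the vector whose `j`-th entry is
`x_i g` (that is `h ↦ x_i (h g⁻¹)`) and whose other entries are zero. -/
def shiftₗ : L2Pow G r →ₗ[ℂ] L2Pow G s where
  toFun x := (⟨shiftFun i j g x, shiftFun_mem i j g x⟩ : lp (fun _ : Fin s × G => ℂ) 2)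
  map_add' x y := by
    apply lp.ext
    funext p
    change shiftFun i j g (x + y) p = shiftFun i j g x p + shiftFun i j g y p
    unfold shiftFun
    split_ifs
    · rfl
    · simp
  map_smul' c x := by
    apply lp.ext
    funext p
    change shiftFun i j g (c • x) p = c * shiftFun i j g x p
    unfold shiftFun
    split_ifs
    · rfl
    · simp

theorem shift_bound (x : L2Pow G r) : ‖(shiftₗ i j g : L2Pow G r →ₗ[ℂ] L2Pow G s) x‖ ≤ 1 * ‖x‖ := by
  rw [one_mul]
  apply norm_le_of _ (norm_nonneg _)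
  rw [norm_rpow_eq x]
  change ∑' p : Fin s × G, ‖shiftFun i j g x p‖ ^ ((2 : ENNReal).toReal)
    ≤ ∑' p : Fin r × G, ‖coord x p.1 p.2‖ ^ ((2 : ENNReal).toReal)
  have h1 : Function.Injective (fun h : G => ((i, h * g⁻¹) : Fin r × G)) := by
    intro a b hab
    simpa using hab
  have h3 : Function.Injective (fun h : G => ((j, h) : Fin s × G)) := by
    intro a b hab
    simpa using hab
  have e1 : ∑' p : Fin s × G, ‖shiftFun i j g x p‖ ^ ((2 : ENNReal).toReal)
      = ∑' h : G, ‖shiftFun i j g x (j, h)‖ ^ ((2 : ENNReal).toReal) := by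
    refine (h3.tsum_eq ?_).symm
    rintro ⟨j', h⟩ hp
    by_contra hcon
    have : j' ≠ j := by
      rintro rfl
      exact hcon ⟨h, rfl⟩
    simp [shiftFun, this] at hp
  rw [e1]
  have e2 : ∀ h : G, ‖shiftFun i j g x (j, h)‖ ^ ((2 : ENNReal).toReal)
      = ‖coord x i (h * g⁻¹)‖ ^ ((2 : ENNReal).toReal) := by
    intro h; simp [shiftFun]
  simp_rw [e2]
  exact tsum_comp_le_tsum_of_inj (coord_summable x) (fun p => by positivity) h1

/-- `shiftₗ` as a bounded operator. -/
def shift : L2Pow G r →L[ℂ] L2Pow G s :=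
  (shiftₗ i j g).mkContinuous 1 (shift_bound i j g)

end shift

/-- `∑_{i,j} ∑_g A_{ij}(g) S_{i,j,g}` for a matrix `A` over the rational group ring of `G`. -/
def linComb {G V : Type} [Group G] [AddCommMonoid V] [Module ℂ V] {r s : ℕ}
    (A : Matrix (Fin r) (Fin s) (MonoidAlgebra ℚ G)) (S : Fin r → Fin s → G → V) : V :=
  ∑ i, ∑ j, ∑ g ∈ (A i j).coeff.support, (((A i j).coeff g : ℚ) : ℂ) • S i j g

/-- The bounded operator `L²(G)^r → L²(G)^s`, `x ↦ x A` (right multiplication on row vectors),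
for an `r × s` matrix `A` over the rational group ring of `G`. -/
def rMul {G : Type} [Group G] {r s : ℕ} (A : Matrix (Fin r) (Fin s) (MonoidAlgebra ℚ G)) :
    L2Pow G r →L[ℂ] L2Pow G s :=
  linComb A (fun i j g => shift i j g)

open Classical in
/-- The vector of `L²(G)^r` whose `i`-th entry is the unit element of `G` and whose other entries
are zero. -/
def unitVec {G : Type} [Group G] {r : ℕ} (i : Fin r) : L2Pow G r :=
  (lp.single 2 (i, (1 : G)) (1 : ℂ) : lp (fun _ : Fin r × G => ℂ) 2)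

section
variable {H : Type} [NormedAddCommGroup H] [InnerProductSpace ℂ H] [CompleteSpace H]

/-- `tr (h(T))` where `h(T)` is given by continuous functional calculus and
`tr S = ∑ i, ⟪e i, S (e i)⟫`. -/
def traceVal {r : ℕ} (e : Fin r → H) (T : H →L[ℂ] H) (h : ℝ → ℝ) : ℝ :=
  ∑ i, (⟪e i, cfc h T (e i)⟫_ℂ).re

theorem traceVal_add {r : ℕ} (e : Fin r → H) (T : H →L[ℂ] H) (f g : C_c(ℝ, ℝ)) :
    traceVal e T (f + g : C_c(ℝ, ℝ)) = traceVal e T f + traceVal e T g := by
  unfold traceVal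
  rw [← Finset.sum_add_distrib]
  apply Finset.sum_congr rfl
  intro i _
  have : cfc ((f + g : C_c(ℝ, ℝ)) : ℝ → ℝ) T = cfc (f : ℝ → ℝ) T + cfc (g : ℝ → ℝ) T := by
    exact cfc_add (R := ℝ) (a := T) (f := f) (g := g) (by fun_prop) (by fun_prop)
  rw [this]
  simp

theorem traceVal_smul {r : ℕ} (e : Fin r → H) (T : H →L[ℂ] H) (c : ℝ) (f : C_c(ℝ, ℝ)) :
    traceVal e T (c • f : C_c(ℝ, ℝ)) = c • traceVal e T f := by
  unfold traceVal
  rw [smul_eq_mul, Finset.mul_sum]
  apply Finset.sum_congr rfl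
  intro i _
  have : cfc ((c • f : C_c(ℝ, ℝ)) : ℝ → ℝ) T = c • cfc (f : ℝ → ℝ) T := by
    exact cfc_smul (R := ℝ) c f T (by fun_prop)
  rw [this]
  simp

/-- The linear functional `h ↦ tr (h(T))` on compactly supported continuous functions. -/
def traceLinear {r : ℕ} (e : Fin r → H) (T : H →L[ℂ] H) : C_c(ℝ, ℝ) →ₗ[ℝ] ℝ where
  toFun h := traceVal e T h
  map_add' := traceVal_add e T
  map_smul' := traceVal_smul e T

theorem traceLinear_nonneg {r : ℕ} (e : Fin r → H) (T : H →L[ℂ] H) (f : C_c(ℝ, ℝ))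
    (hf : 0 ≤ f) : 0 ≤ traceLinear e T f := by
  change 0 ≤ ∑ i, (⟪e i, cfc (f : ℝ → ℝ) T (e i)⟫_ℂ).re
  apply Finset.sum_nonneg
  intro i _
  have h1 : (0 : H →L[ℂ] H) ≤ cfc (f : ℝ → ℝ) T :=
    cfc_nonneg (fun x _ => hf x)
  have h2 := (ContinuousLinearMap.nonneg_iff_isPositive _).mp h1
  exact h2.re_inner_nonneg_right (e i)

/-- The positive functional `h ↦ tr (h(T))` on compactly supported continuous functions. -/
def traceFunctional {r : ℕ} (e : Fin r → H) (T : H →L[ℂ] H) : C_c(ℝ, ℝ) →ₚ[ℝ] ℝ :=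
  PositiveLinearMap.mk₀ (traceLinear e T) (traceLinear_nonneg e T)

/-- The spectral measure of `T` for the trace `tr S = ∑ i, ⟪e i, S (e i)⟫`: the Borel measure on
`ℝ` which represents the functional `h ↦ tr (h(T))` (Riesz, Markov, Kakutani). -/
def spectralMeasure {r : ℕ} (e : Fin r → H) (T : H →L[ℂ] H) : MeasureTheory.Measure ℝ :=
  RealRMK.rieszMeasure (traceFunctional e T)

/-- The defining property of the spectral measure. -/
theorem integral_spectralMeasure {r : ℕ} (e : Fin r → H) (T : H →L[ℂ] H) (h : C_c(ℝ, ℝ)) :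
    ∫ x, h x ∂(spectralMeasure e T) = ∑ i, (⟪e i, cfc (h : ℝ → ℝ) T (e i)⟫_ℂ).re :=
  RealRMK.integral_rieszMeasure _ _
end

section
variable {H K : Type} [NormedAddCommGroup H] [InnerProductSpace ℂ H] [CompleteSpace H]
  [NormedAddCommGroup K] [InnerProductSpace ℂ K] [CompleteSpace K]

/-- The spectral measure of `f* f` for the trace `tr S = ∑ i, ⟪e i, S (e i)⟫`. -/
def specMeas {r : ℕ} (e : Fin r → H) (f : H →L[ℂ] K) : MeasureTheory.Measure ℝ :=
  spectralMeasure e ((ContinuousLinearMap.adjoint f) ∘L f)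

open Classical in
/-- With `μ` the spectral measure of `f* f` for the trace `tr S = ∑ i, ⟪e i, S (e i)⟫`, this is
`exp ((1/2) ∫_{(0,∞)} log x dμ(x))` if this integral is `> -∞`, and `0` otherwise. -/
def detOf {r : ℕ} (e : Fin r → H) (f : H →L[ℂ] K) : ℝ :=
  if MeasureTheory.IntegrableOn Real.log (Set.Ioi 0) (specMeas e f) then
    Real.exp (1 / 2 * ∫ x in Set.Ioi (0 : ℝ), Real.log x ∂(specMeas e f))
  else 0
end

/-- The Fuglede-Kadison determinant of `f : L²(G)^r → L²(G)^s` (with the von Neumann trace). -/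
def fkDet {G : Type} [Group G] {r s : ℕ} (f : L2Pow G r →L[ℂ] L2Pow G s) : ℝ :=
  detOf unitVec f

/-- Property (FK-approx): for every normal chain `G = G_0 ⊇ G_1 ⊇ ⋯` with trivial intersection and
every matrix `A` over `ℚ[G]`, the determinants over the quotients converge to the determinant over
`G`. -/
def FKApprox (G : Type) [Group G] : Prop :=
  ∀ (N : ℕ → Subgroup G) [∀ i, (N i).Normal], N 0 = ⊤ → Antitone N → ⨅ i, N i = ⊥ →
    ∀ (r s : ℕ), 1 ≤ r → 1 ≤ s → ∀ A : Matrix (Fin r) (Fin s) (MonoidAlgebra ℚ G),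
      Filter.Tendsto
        (fun i => fkDet (rMul (A.map (MonoidAlgebra.mapDomain (QuotientGroup.mk' (N i))))))
        Filter.atTop (𝓝 (fkDet (rMul A)))

end Pool.Agent.Helper993.FK
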