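import Pool.Agent.H7.L.Helper993_Homotopy
import Pool.Agent.H7.L.Helper993_DeltaDef

open scoped InnerProductSpace Topology

noncomputable section

namespace Pool.Agent.Helper993.FK

open ContinuousLinearMap

theorem fkDet_pos_of_eq_zero {G : Type} [Group G] {r s : ℕ} (hr : r = 0)
    (f : L2Pow G r →L[ℂ] L2Pow G s) : 0 < fkDet f := by
  subst hr
  have h1 : MeasureTheory.IntegrableOn Real.log (Set.Ioi 0) (specMeas unitVec f) := by
    unfold specMeas
    exact log_integrable unitVec _ (adjoint_comp_nonneg f) (C := 0) (fun n => by simp [traceVal])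
  unfold fkDet detOf
  rw [if_pos h1]
  exact Real.exp_pos _

theorem lap_ker {H K L : Type} [NormedAddCommGroup H] [InnerProductSpace ℂ H]
    [CompleteSpace H] [NormedAddCommGroup K] [InnerProductSpace ℂ K] [CompleteSpace K]
    [NormedAddCommGroup L] [InnerProductSpace ℂ L] [CompleteSpace L]
    (A : H →L[ℂ] K) (B : L →L[ℂ] H) (v : H) (h : (B ∘L B.adjoint + A.adjoint ∘L A) v = 0) :
    A v = 0 ∧ B.adjoint v = 0 := by
  have h1 : ⟪v, (B ∘L B.adjoint + A.adjoint ∘L A) v⟫_ℂ = 0 := by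
    rw [h, inner_zero_right]
  rw [add_apply, inner_add_right, comp_apply, comp_apply,
    ContinuousLinearMap.adjoint_inner_right, ← ContinuousLinearMap.adjoint_inner_left,
    inner_self_eq_norm_sq_to_K, inner_self_eq_norm_sq_to_K] at h1
  have h2 : ‖B.adjoint v‖ ^ 2 + ‖A v‖ ^ 2 = 0 := by
    have h2' : ((‖B.adjoint v‖ ^ 2 + ‖A v‖ ^ 2 : ℝ) : ℂ) = 0 := by
      push_cast
      exact h1
    exact Complex.ofReal_eq_zero.mp h2'
  have h3 : ‖B.adjoint v‖ ^ 2 = 0 := by nlinarith [sq_nonneg ‖B.adjoint v‖, sq_nonneg ‖A v‖]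
  have h4 : ‖A v‖ ^ 2 = 0 := by nlinarith [sq_nonneg ‖B.adjoint v‖, sq_nonneg ‖A v‖]
  exact ⟨norm_eq_zero.mp (pow_eq_zero_iff two_ne_zero |>.mp h4),
    norm_eq_zero.mp (pow_eq_zero_iff two_ne_zero |>.mp h3)⟩

theorem lap_ker_zero {H L : Type} [NormedAddCommGroup H] [InnerProductSpace ℂ H]
    [CompleteSpace H] [NormedAddCommGroup L] [InnerProductSpace ℂ L] [CompleteSpace L]
    (B : L →L[ℂ] H) (v : H) (h : (B ∘L B.adjoint) v = 0) : B.adjoint v = 0 := by
  have h1 : ⟪v, (B ∘L B.adjoint) v⟫_ℂ = 0 := by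
    rw [h, inner_zero_right]
  rw [comp_apply, ← ContinuousLinearMap.adjoint_inner_left] at h1
  exact inner_self_eq_zero.mp h1

end Pool.Agent.Helper993.FK

namespace Pool.Agent.Helper993.Delta

open Pool.Agent.Helper993.FK ContinuousLinearMap

namespace OneVertex

variable (X : OneVertex)

theorem l2boundary_eq (n : ℕ) : X.l2boundary n = rMul ((X.boundary n).map toQ) := rfl

theorem laplacian_zero : X.laplacian 0 = rMul ((adjZ (X.boundary 0) * X.boundary 0).map toQ) := by
  rw [toQ_mul, toQ_adjZ, rMul_mul, ← adjoint_rMul]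
  rfl

theorem laplacian_succ (n : ℕ) : X.laplacian (n + 1)
    = rMul ((adjZ (X.boundary (n + 1)) * X.boundary (n + 1)
      + X.boundary n * adjZ (X.boundary n)).map toQ) := by
  have h : (adjZ (X.boundary (n + 1)) * X.boundary (n + 1)
      + X.boundary n * adjZ (X.boundary n)).map toQ
      = (adjZ (X.boundary (n + 1)) * X.boundary (n + 1)).map toQ
        + (X.boundary n * adjZ (X.boundary n)).map toQ := by
    ext1 i j
    exact map_add (MonoidAlgebra.mapRingHom X.pi1 (Int.castRingHom ℚ)) _ _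
  rw [h, rMul_add, toQ_mul, toQ_adjZ, rMul_mul, ← adjoint_rMul, toQ_mul, toQ_adjZ, rMul_mul,
    ← adjoint_rMul]
  rfl

variable {X}

theorem laplacian_inj (h0 : ∀ v, (X.l2boundary 0).adjoint v = 0 → v = 0)
    (h : ∀ n v, X.l2boundary n v = 0 → (X.l2boundary (n + 1)).adjoint v = 0 → v = 0) :
    ∀ n v, X.laplacian n v = 0 → v = 0
  | 0, v, hv => h0 v (lap_ker_zero (X.l2boundary 0) v hv)
  | n + 1, v, hv => by
    have := lap_ker (X.l2boundary n) (X.l2boundary (n + 1)) v hv
    exact h n v this.1 this.2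

theorem exists_matrix (n : ℕ) : ∃ S : Matrix (Fin (X.num n)) (Fin (X.num n)) (MonoidAlgebra ℤ X.pi1),
    X.laplacian n = rMul (S.map toQ) := by
  cases n with
  | zero => exact ⟨_, X.laplacian_zero⟩
  | succ n => exact ⟨_, X.laplacian_succ n⟩

theorem detL2Acyclic_of (N : ℕ → Subgroup X.pi1) [∀ i, (N i).Normal]
    [∀ i, Finite (X.pi1 ⧸ N i)] (hanti : Antitone N) (hinf : ⨅ i, N i = ⊥)
    (h0 : ∀ v, (X.l2boundary 0).adjoint v = 0 → v = 0)
    (h : ∀ n v, X.l2boundary n v = 0 → (X.l2boundary (n + 1)).adjoint v = 0 → v = 0) :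
    X.DetL2Acyclic := by
  intro n
  have hinj := laplacian_inj h0 h n
  constructor
  · unfold l2betti dimKer
    apply Finset.sum_eq_zero
    intro i _
    have h1 : (X.laplacian n).ker.starProjection (unitVec i) = 0 :=
      hinj _ (LinearMap.mem_ker.mp (Submodule.starProjection_apply_mem _ _))
    rw [h1]
    exact congrArg Complex.re (inner_zero_right (𝕜 := ℂ) (unitVec i : L2Pow X.pi1 (X.num n)))
  · by_cases hn : X.num n = 0
    · exact fkDet_pos_of_eq_zero hn _
    · have : NeZero (X.num n) := ⟨hn⟩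
      obtain ⟨S, hS⟩ := exists_matrix (X := X) n
      rw [hS] at hinj ⊢
      exact fkDet_pos N hanti hinf S hinj

theorem detL2Acyclic_of3 (N : ℕ → Subgroup X.pi1) [∀ i, (N i).Normal]
    [∀ i, Finite (X.pi1 ⧸ N i)] (hanti : Antitone N) (hinf : ⨅ i, N i = ⊥)
    (h0 : ∀ v, (X.l2boundary 0).adjoint v = 0 → v = 0)
    (h1 : ∀ v, X.l2boundary 0 v = 0 → (X.l2boundary 1).adjoint v = 0 → v = 0)
    (h2 : ∀ v, X.l2boundary 1 v = 0 → (X.l2boundary 2).adjoint v = 0 → v = 0)
    (h3 : ∀ v, X.l2boundary 2 v = 0 → v = 0)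
    (h4 : ∀ n (v : L2Pow X.pi1 (X.num (n + 4))), v = 0) :
    X.DetL2Acyclic := by
  refine detL2Acyclic_of N hanti hinf h0 fun n => ?_
  rcases n with _ | _ | _ | n
  · exact h1
  · exact h2
  · exact fun v hv _ => h3 v hv
  · exact fun v _ _ => h4 n v

end OneVertex

end Pool.Agent.Helper993.Delta
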