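import Pool.Agent.H7.L.Helper993_RMul

open scoped InnerProductSpace Topology CompactlySupported InnerProduct

noncomputable section

namespace Pool.Agent.Helper993.FK

open MeasureTheory Polynomial

section general
variable {H : Type} [NormedAddCommGroup H] [InnerProductSpace ℂ H] [CompleteSpace H] {r : ℕ}

theorem spectrum_Icc (T : H →L[ℂ] H) (hT : 0 ≤ T) {K : ℝ} (hK : ‖T‖ ≤ K) :
    spectrum ℝ T ⊆ Set.Icc 0 K := by
  intro x hx
  refine ⟨spectrum_nonneg_of_nonneg hT hx, ?_⟩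
  rcases subsingleton_or_nontrivial H with hH | hH
  · have : Subsingleton (H →L[ℂ] H) := ⟨fun a b => by ext v; exact Subsingleton.elim _ _⟩
    rw [spectrum.of_subsingleton] at hx
    exact absurd hx (Set.notMem_empty _)
  · have h1 := spectrum.norm_le_norm_of_mem hx
    exact (le_abs_self x).trans (h1.trans hK)

theorem traceVal_near (e : Fin r → H) (he : ∀ i, ‖e i‖ ≤ 1) (T : H →L[ℂ] H) (hT : 0 ≤ T) {K : ℝ}
    (hK : ‖T‖ ≤ K) {f g : ℝ → ℝ} (hf : Continuous f) (hg : Continuous g) {ε : ℝ} (hε : 0 ≤ ε)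
    (h : ∀ x ∈ Set.Icc 0 K, |f x - g x| ≤ ε) : |traceVal e T f - traceVal e T g| ≤ r * ε := by
  have hsa : IsSelfAdjoint T := IsSelfAdjoint.of_nonneg hT
  have h1 : cfc f T - cfc g T = cfc (fun x => f x - g x) T := by
    rw [cfc_sub (R := ℝ) (a := T) f g (hf.continuousOn) (hg.continuousOn)]
  have h2 : ‖cfc f T - cfc g T‖ ≤ ε := by
    rw [h1]
    apply norm_cfc_le hε
    intro x hx
    exact h x (spectrum_Icc T hT hK hx)
  unfold traceVal
  rw [← Finset.sum_sub_distrib]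
  refine (Finset.abs_sum_le_sum_abs _ _).trans ?_
  calc ∑ i : Fin r, |(⟪e i, cfc f T (e i)⟫_ℂ).re - (⟪e i, cfc g T (e i)⟫_ℂ).re|
      ≤ ∑ _i : Fin r, ε := by
        apply Finset.sum_le_sum
        intro i _
        have h3 : (⟪e i, cfc f T (e i)⟫_ℂ).re - (⟪e i, cfc g T (e i)⟫_ℂ).re
            = (⟪e i, (cfc f T - cfc g T) (e i)⟫_ℂ).re := by
          rw [sub_apply, inner_sub_right, Complex.sub_re]
        rw [h3]
        refine (Complex.abs_re_le_norm _).trans ?_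
        refine (norm_inner_le_norm _ _).trans ?_
        have h4 := (cfc f T - cfc g T).le_opNorm (e i)
        have h5 := he i
        have h6 := norm_nonneg (e i)
        have h7 := norm_nonneg (cfc f T - cfc g T)
        calc ‖e i‖ * ‖(cfc f T - cfc g T) (e i)‖ ≤ 1 * (‖cfc f T - cfc g T‖ * ‖e i‖) := by
              apply mul_le_mul h5 h4 (norm_nonneg _) zero_le_one
          _ ≤ 1 * (ε * 1) := by
              rw [one_mul, one_mul]
              exact mul_le_mul h2 h5 h6 hε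
          _ = ε := by ring
    _ = r * ε := by simp

theorem traceVal_mono (e : Fin r → H) (T : H →L[ℂ] H) (hT : 0 ≤ T) {K : ℝ}
    (hK : ‖T‖ ≤ K) {f g : ℝ → ℝ} (hf : Continuous f) (hg : Continuous g)
    (h : ∀ x ∈ Set.Icc 0 K, f x ≤ g x) : traceVal e T f ≤ traceVal e T g := by
  have hsa : IsSelfAdjoint T := IsSelfAdjoint.of_nonneg hT
  unfold traceVal
  apply Finset.sum_le_sum
  intro i _
  have h1 : cfc f T ≤ cfc g T :=
    cfc_mono (fun x hx => h x (spectrum_Icc T hT hK hx)) hf.continuousOn hg.continuousOn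
  rw [ContinuousLinearMap.le_def] at h1
  have h2 := h1.re_inner_nonneg_right (e i)
  rw [sub_apply, inner_sub_right, map_sub] at h2
  have h3 : (0 : ℝ) ≤ (⟪e i, cfc g T (e i)⟫_ℂ).re - (⟪e i, cfc f T (e i)⟫_ℂ).re := h2
  linarith

theorem traceVal_congr (e : Fin r → H) (T : H →L[ℂ] H) (hT : 0 ≤ T) {K : ℝ}
    (hK : ‖T‖ ≤ K) {f g : ℝ → ℝ} (h : ∀ x ∈ Set.Icc 0 K, f x = g x) :
    traceVal e T f = traceVal e T g := by
  unfold traceVal
  have : cfc f T = cfc g T := cfc_congr (fun x hx => h x (spectrum_Icc T hT hK hx))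
  rw [this]

/-- If `T w = c w` then `f(T) w = f(c) w`. -/
theorem cfc_apply_eigen (T : H →L[ℂ] H) (hT : 0 ≤ T) {K : ℝ} (hK : ‖T‖ ≤ K) {f : ℝ → ℝ}
    (hf : Continuous f) (w : H) {c : ℝ} (hc : c ∈ Set.Icc 0 K) (hw : T w = (c : ℂ) • w) :
    cfc f T w = ((f c : ℝ) : ℂ) • w := by
  have hsa : IsSelfAdjoint T := IsSelfAdjoint.of_nonneg hT
  rw [← sub_eq_zero, ← norm_eq_zero]
  apply le_antisymm _ (norm_nonneg _)
  apply le_of_forall_pos_le_add
  intro δ hδ
  obtain ⟨p, hp⟩ := exists_polynomial_near_of_continuousOn 0 K f hf.continuousOn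
    (δ / (2 * (‖w‖ + 1))) (by positivity)
  have h1 : cfc (fun x => p.eval x) T = aeval T p := cfc_polynomial p T hsa
  have h2 := aeval_apply_eigen T p w c hw
  have h3 : ‖cfc f T - aeval T p‖ ≤ δ / (2 * (‖w‖ + 1)) := by
    rw [← h1, ← cfc_sub (R := ℝ) (a := T) f (fun x => p.eval x) hf.continuousOn
      (by fun_prop)]
    apply norm_cfc_le (by positivity)
    intro x hx
    have := hp x (spectrum_Icc T hT hK hx)
    rw [abs_sub_comm] at this
    exact this.le
  have h4 : cfc f T w - ((f c : ℝ) : ℂ) • w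
      = (cfc f T - aeval T p) w + (((p.eval c - f c : ℝ)) : ℂ) • w := by
    rw [sub_apply, h2]
    push_cast
    rw [sub_smul]
    abel
  rw [h4, zero_add]
  refine (norm_add_le _ _).trans ?_
  have h5 : ‖(cfc f T - aeval T p) w‖ ≤ δ / (2 * (‖w‖ + 1)) * ‖w‖ :=
    ((cfc f T - aeval T p).le_opNorm w).trans (mul_le_mul_of_nonneg_right h3 (norm_nonneg _))
  have h6 : ‖(((p.eval c - f c : ℝ)) : ℂ) • w‖ ≤ δ / (2 * (‖w‖ + 1)) * ‖w‖ := by
    rw [norm_smul, Complex.norm_real, Real.norm_eq_abs]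
    exact mul_le_mul_of_nonneg_right (hp c hc).le (norm_nonneg _)
  have h7 : δ / (2 * (‖w‖ + 1)) * ‖w‖ ≤ δ / 2 := by
    rw [div_mul_eq_mul_div, div_le_div_iff₀ (by positivity) (by positivity)]
    nlinarith [norm_nonneg w]
  linarith

/-- a continuous function equal to one at zero and vanishing beyond `δ` -/
def bump (δ x : ℝ) : ℝ := max 0 (min 1 (1 - x / δ))

theorem bump_continuous (δ : ℝ) : Continuous (bump δ) := by
  unfold bump
  fun_prop

theorem bump_nonneg (δ x : ℝ) : 0 ≤ bump δ x := le_max_left _ _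

theorem bump_le_one (δ x : ℝ) : bump δ x ≤ 1 := max_le zero_le_one (min_le_left _ _)

theorem bump_zero (δ : ℝ) : bump δ 0 = 1 := by simp [bump]

theorem bump_of_le {δ x : ℝ} (hδ : 0 < δ) (h : δ ≤ x) : bump δ x = 0 := by
  unfold bump
  have : 1 - x / δ ≤ 0 := by
    rw [sub_nonpos, le_div_iff₀ hδ]
    linarith
  rw [max_eq_left]
  exact (min_le_right _ _).trans this

theorem bump_mul_le {δ x : ℝ} (hδ : 0 < δ) (hx : 0 ≤ x) : |bump δ x * x| ≤ δ := by
  rw [abs_of_nonneg (mul_nonneg (bump_nonneg _ _) hx)]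
  rcases le_total δ x with h | h
  · rw [bump_of_le hδ h, zero_mul]; exact hδ.le
  · calc bump δ x * x ≤ 1 * x := mul_le_mul_of_nonneg_right (bump_le_one _ _) hx
      _ ≤ δ := by linarith

theorem dense_range_of_injective (T : H →L[ℂ] H) (hT : 0 ≤ T) (hinj : ∀ v, T v = 0 → v = 0)
    (v : H) {ε : ℝ} (hε : 0 < ε) : ∃ w, ‖v - T w‖ < ε := by
  have hsa : IsSelfAdjoint T := IsSelfAdjoint.of_nonneg hT
  have h1 : (T.range)ᗮ = ⊥ := by
    rw [ContinuousLinearMap.orthogonal_range, hsa.adjoint_eq]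
    rw [Submodule.eq_bot_iff]
    intro x hx
    exact hinj x hx
  have h2 : (T.range).topologicalClosure = ⊤ :=
    (Submodule.topologicalClosure_eq_top_iff).mpr h1
  have h3 : v ∈ closure (T.range : Set H) := by
    rw [← Submodule.topologicalClosure_coe, h2]
    trivial
  obtain ⟨y, ⟨w, hw⟩, hy⟩ := Metric.mem_closure_iff.mp h3 ε hε
  refine ⟨w, ?_⟩
  rw [← hw] at hy
  rwa [dist_eq_norm] at hy

theorem bump_small (e : Fin r → H) (he : ∀ i, ‖e i‖ ≤ 1) (T : H →L[ℂ] H) (hT : 0 ≤ T)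
    (hinj : ∀ v, T v = 0 → v = 0) {ε : ℝ} (hε : 0 < ε) :
    ∃ δ, 0 < δ ∧ traceVal e T (bump δ) ≤ ε := by
  have hsa : IsSelfAdjoint T := IsSelfAdjoint.of_nonneg hT
  set ε' := ε / (2 * (r + 1)) with hε'
  have hε'pos : 0 < ε' := by positivity
  choose w hw using fun i => dense_range_of_injective T hT hinj (e i) hε'pos
  set W := ∑ i, ‖w i‖ with hW
  have hW0 : 0 ≤ W := Finset.sum_nonneg fun i _ => norm_nonneg _
  refine ⟨ε' / (W + 1), by positivity, ?_⟩
  set δ := ε' / (W + 1) with hδ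
  have hδpos : 0 < δ := by positivity
  have hsub := spectrum_Icc T hT le_rfl
  have hn1 : ‖cfc (bump δ) T‖ ≤ 1 := by
    apply norm_cfc_le zero_le_one
    intro x _
    rw [Real.norm_eq_abs, abs_of_nonneg (bump_nonneg _ _)]
    exact bump_le_one _ _
  have hn2 : ‖cfc (bump δ) T * T‖ ≤ δ := by
    have : cfc (bump δ) T * T = cfc (fun x => bump δ x * x) T := by
      rw [cfc_mul (R := ℝ) (a := T) (bump δ) (fun x => x) (bump_continuous δ).continuousOn
        continuousOn_id, cfc_id' ℝ T]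
    rw [this]
    apply norm_cfc_le hδpos.le
    intro x hx
    exact bump_mul_le hδpos (hsub hx).1
  have hi : ∀ i, (⟪e i, cfc (bump δ) T (e i)⟫_ℂ).re ≤ 2 * ε' := by
    intro i
    refine (Complex.re_le_norm _).trans ((norm_inner_le_norm _ _).trans ?_)
    have h1 : cfc (bump δ) T (e i) = cfc (bump δ) T (e i - T (w i)) + (cfc (bump δ) T * T) (w i) := by
      rw [mul_apply_eq_comp, map_sub]
      abel
    have h2 : ‖cfc (bump δ) T (e i)‖ ≤ 1 * ε' + δ * ‖w i‖ := by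
      rw [h1]
      refine (norm_add_le _ _).trans (add_le_add ?_ ?_)
      · exact ((cfc (bump δ) T).le_opNorm _).trans
          (mul_le_mul hn1 (hw i).le (norm_nonneg _) zero_le_one)
      · exact ((cfc (bump δ) T * T).le_opNorm _).trans
          (mul_le_mul_of_nonneg_right hn2 (norm_nonneg _))
    have h3 : ‖w i‖ ≤ W := Finset.single_le_sum (f := fun i => ‖w i‖)
      (fun i _ => norm_nonneg _) (Finset.mem_univ i)
    have h4 : δ * ‖w i‖ ≤ ε' := by
      rw [hδ, div_mul_eq_mul_div, div_le_iff₀ (by positivity)]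
      exact mul_le_mul_of_nonneg_left (by linarith) hε'pos.le
    calc ‖e i‖ * ‖cfc (bump δ) T (e i)‖ ≤ 1 * ‖cfc (bump δ) T (e i)‖ :=
          mul_le_mul_of_nonneg_right (he i) (norm_nonneg _)
      _ ≤ 2 * ε' := by linarith
  unfold traceVal
  calc ∑ i, (⟪e i, cfc (bump δ) T (e i)⟫_ℂ).re ≤ ∑ _i : Fin r, 2 * ε' :=
        Finset.sum_le_sum fun i _ => hi i
    _ = r * (2 * ε') := by simp
    _ ≤ ε := by
        rw [hε']
        have : (r : ℝ) * (2 * (ε / (2 * (r + 1)))) = ε * (r / (r + 1)) := by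
          field_simp
        rw [this]
        have : (r : ℝ) / (r + 1) ≤ 1 := by
          rw [div_le_one (by positivity)]
          linarith
        nlinarith

theorem cfc_bump_nonneg (T : H →L[ℂ] H) (δ : ℝ) (v : H) :
    0 ≤ (⟪v, cfc (bump δ) T v⟫_ℂ).re := by
  have h1 : (0 : H →L[ℂ] H) ≤ cfc (bump δ) T := cfc_nonneg (fun x _ => bump_nonneg δ x)
  have h2 := (ContinuousLinearMap.nonneg_iff_isPositive _).mp h1
  exact h2.re_inner_nonneg_right v

theorem inner_ker_le (e : Fin r → H) (T : H →L[ℂ] H) (hT : 0 ≤ T) (δ : ℝ)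
    (w : H) (hw : T w = 0) (i : Fin r) :
    ‖⟪e i, w⟫_ℂ‖ ^ 2 ≤ traceVal e T (bump δ) * ‖w‖ ^ 2 := by
  have hsa : IsSelfAdjoint T := IsSelfAdjoint.of_nonneg hT
  set s : ℝ → ℝ := fun x => Real.sqrt (bump δ x) with hs
  have hsc : Continuous s := (bump_continuous δ).sqrt
  set S := cfc s T with hS
  have hSsa : IsSelfAdjoint S := cfc_predicate s T
  have hSw : S w = w := by
    have h1 := cfc_apply_eigen T hT le_rfl hsc w (c := 0) ⟨le_rfl, norm_nonneg _⟩ (by simp [hw])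
    rw [h1]
    simp [hs, bump_zero]
  have hSS : S * S = cfc (bump δ) T := by
    rw [hS, ← cfc_mul (R := ℝ) (a := T) s s hsc.continuousOn hsc.continuousOn]
    congr 1
    funext x
    exact Real.mul_self_sqrt (bump_nonneg δ x)
  have h1 : ⟪e i, w⟫_ℂ = ⟪S (e i), w⟫_ℂ := by
    conv_lhs => rw [← hSw]
    rw [← ContinuousLinearMap.adjoint_inner_left, hSsa.adjoint_eq]
  have h2 : ‖S (e i)‖ ^ 2 = (⟪e i, cfc (bump δ) T (e i)⟫_ℂ).re := by
    rw [← hSS, mul_apply_eq_comp, ← ContinuousLinearMap.adjoint_inner_left, hSsa.adjoint_eq]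
    exact norm_sq_eq_re_inner (𝕜 := ℂ) (S (e i))
  have h3 : ‖S (e i)‖ ^ 2 ≤ traceVal e T (bump δ) := by
    rw [h2]
    exact Finset.single_le_sum (f := fun i => (⟪e i, cfc (bump δ) T (e i)⟫_ℂ).re)
      (fun i _ => cfc_bump_nonneg T δ (e i)) (Finset.mem_univ i)
  rw [h1]
  calc ‖⟪S (e i), w⟫_ℂ‖ ^ 2 ≤ (‖S (e i)‖ * ‖w‖) ^ 2 := by
        apply pow_le_pow_left₀ (norm_nonneg _)
        exact norm_inner_le_norm _ _
    _ = ‖S (e i)‖ ^ 2 * ‖w‖ ^ 2 := by ring
    _ ≤ _ := mul_le_mul_of_nonneg_right h3 (by positivity)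

end general

end Pool.Agent.Helper993.FK
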