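import Pool.Agent.H7.L.Helper993_Approx

open scoped InnerProductSpace Topology CompactlySupported InnerProduct

noncomputable section

namespace Pool.Agent.Helper993.FK

open MeasureTheory Polynomial

section general
variable {H : Type} [NormedAddCommGroup H] [InnerProductSpace ℂ H] [CompleteSpace H] {r : ℕ}

theorem traceVal_aeval (e : Fin r → H) (T : H →L[ℂ] H) (hT : 0 ≤ T) (p : ℝ[X]) :
    traceVal e T (fun x => p.eval x)
      = ∑ m ∈ Finset.range (p.natDegree + 1), p.coeff m * ∑ i, (⟪e i, (T ^ m) (e i)⟫_ℂ).re := by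
  have hsa : IsSelfAdjoint T := IsSelfAdjoint.of_nonneg hT
  unfold traceVal
  rw [cfc_polynomial p T hsa]
  have h1 : ∀ i, (⟪e i, (aeval T p) (e i)⟫_ℂ).re
      = ∑ m ∈ Finset.range (p.natDegree + 1), p.coeff m * (⟪e i, (T ^ m) (e i)⟫_ℂ).re := by
    intro i
    rw [aeval_eq_sum_range, sum_apply, inner_sum, Complex.re_sum]
    apply Finset.sum_congr rfl
    intro m _
    rw [smul_apply, inner_smul_right_eq_smul]
    simp
  simp_rw [h1]
  rw [Finset.sum_comm]
  apply Finset.sum_congr rfl
  intro m _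
  rw [Finset.mul_sum]

end general

section chain
variable {G : Type} [Group G] {r s : ℕ}

/-- the matrix over the quotient -/
def mq (N : Subgroup G) [N.Normal] (A : Matrix (Fin r) (Fin s) (MonoidAlgebra ℚ G)) :
    Matrix (Fin r) (Fin s) (MonoidAlgebra ℚ (G ⧸ N)) :=
  A.map (MonoidAlgebra.mapDomain (QuotientGroup.mk' N))

theorem mq_eq (N : Subgroup G) [N.Normal] (A : Matrix (Fin r) (Fin s) (MonoidAlgebra ℚ G)) :
    mq N A = A.map (MonoidAlgebra.mapDomainRingHom ℚ (QuotientGroup.mk' N)) := rfl

theorem mq_mul {t : ℕ} (N : Subgroup G) [N.Normal] (A : Matrix (Fin r) (Fin s) (MonoidAlgebra ℚ G))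
    (B : Matrix (Fin s) (Fin t) (MonoidAlgebra ℚ G)) : mq N (A * B) = mq N A * mq N B := by
  rw [mq_eq, mq_eq, mq_eq, Matrix.map_mul]

theorem mq_pow (N : Subgroup G) [N.Normal] (A : Matrix (Fin r) (Fin r) (MonoidAlgebra ℚ G)) (m : ℕ) :
    mq N (A ^ m) = (mq N A) ^ m := by
  induction m with
  | zero =>
    rw [pow_zero, pow_zero, mq_eq]
    exact Matrix.map_one _ (map_zero _) (map_one _)
  | succ m ih => rw [pow_succ, pow_succ, mq_mul, ih]

theorem mq_adjQ (N : Subgroup G) [N.Normal] (A : Matrix (Fin r) (Fin s) (MonoidAlgebra ℚ G)) :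
    mq N (adjQ A) = adjQ (mq N A) := by
  ext1 i j
  simp only [mq, adjQ, Matrix.map_apply, Matrix.transpose_apply, invol, MonoidAlgebra.mapDomain,
    MonoidAlgebra.coeff_ofCoeff, ← Finsupp.mapDomain_comp]
  congr 2

theorem rMul_one : rMul (1 : Matrix (Fin r) (Fin r) (MonoidAlgebra ℚ G)) = 1 := by
  rw [rMul_eq_sc]
  ext x
  apply coord_ext
  intro j h
  rw [sum_apply, coord_sum, Finset.sum_eq_single j]
  · rw [sum_apply, coord_sum, Finset.sum_eq_single j]
    · rw [Matrix.one_apply_eq, MonoidAlgebra.one_def, sc_single]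
      rw [smul_apply, coord_smul, coord_shift]
      simp
    · intro k _ hk
      rw [Matrix.one_apply_ne hk.symm, sc_zero]
      rfl
    · simp
  · intro i _ hi
    rw [sum_apply, coord_sum]
    apply Finset.sum_eq_zero
    intro k _
    by_cases hk : i = k
    · subst hk
      rw [Matrix.one_apply_eq, MonoidAlgebra.one_def, sc_single]
      rw [smul_apply, coord_smul, coord_shift, if_neg hi.symm, mul_zero]
    · rw [Matrix.one_apply_ne hk, sc_zero]
      rfl
  · simp

theorem rMul_pow (S : Matrix (Fin r) (Fin r) (MonoidAlgebra ℚ G)) (m : ℕ) :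
    rMul (S ^ m) = (rMul S) ^ m := by
  induction m with
  | zero => rw [pow_zero, pow_zero, rMul_one]
  | succ m ih => rw [pow_succ, rMul_mul, ih, pow_succ']; rfl

/-- the trace of a matrix over the group ring -/
def trc (S : Matrix (Fin r) (Fin r) (MonoidAlgebra ℚ G)) : ℝ := ∑ i, (((S i i).coeff 1 : ℚ) : ℝ)

theorem traceVal_poly (S : Matrix (Fin r) (Fin r) (MonoidAlgebra ℚ G)) (hS : 0 ≤ rMul S) (p : ℝ[X]) :
    traceVal unitVec (rMul S) (fun x => p.eval x)
      = ∑ m ∈ Finset.range (p.natDegree + 1), p.coeff m * trc (S ^ m) := by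
  rw [traceVal_aeval unitVec (rMul S) hS]
  apply Finset.sum_congr rfl
  intro m _
  congr 1
  unfold trc
  apply Finset.sum_congr rfl
  intro i _
  rw [← rMul_pow, inner_rMul_unitVec, ← Complex.ofReal_ratCast, Complex.ofReal_re]

variable (N : ℕ → Subgroup G) [∀ i, (N i).Normal] (hanti : Antitone N) (hinf : ⨅ i, N i = ⊥)

include hanti hinf in
theorem eventually_coeff (a : MonoidAlgebra ℚ G) :
    ∀ᶠ i in Filter.atTop,
      (MonoidAlgebra.mapDomain (QuotientGroup.mk' (N i)) a).coeff 1 = a.coeff 1 := by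
  induction a using MonoidAlgebra.induction_linear with
  | zero => simp
  | add a b h1 h2 =>
    filter_upwards [h1, h2] with i h3 h4
    rw [MonoidAlgebra.mapDomain_add, MonoidAlgebra.coeff_add, MonoidAlgebra.coeff_add,
      Finsupp.add_apply, Finsupp.add_apply, h3, h4]
  | single g c =>
    by_cases hg : g = 1
    · subst hg
      filter_upwards with i
      rw [MonoidAlgebra.mapDomain_single, show (QuotientGroup.mk' (N i)) 1 = 1 from map_one _]
      simp
    · have h1 : ∃ i, g ∉ N i := by
        by_contra hcon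
        push Not at hcon
        apply hg
        rw [← Subgroup.mem_bot, ← hinf, Subgroup.mem_iInf]
        exact hcon
      obtain ⟨i0, h0⟩ := h1
      filter_upwards [Filter.eventually_ge_atTop i0] with i hi
      rw [MonoidAlgebra.mapDomain_single]
      have h2 : (QuotientGroup.mk' (N i)) g ≠ 1 := by
        intro h
        rw [QuotientGroup.mk'_apply, QuotientGroup.eq_one_iff] at h
        exact h0 (hanti hi h)
      classical
      rw [MonoidAlgebra.coeff_single, MonoidAlgebra.coeff_single, Finsupp.single_apply,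
        Finsupp.single_apply, if_neg h2, if_neg hg]

include hanti hinf in
theorem eventually_trc (S : Matrix (Fin r) (Fin r) (MonoidAlgebra ℚ G)) :
    ∀ᶠ i in Filter.atTop, trc (mq (N i) S) = trc S := by
  have h : ∀ᶠ i in Filter.atTop, ∀ j : Fin r,
      (MonoidAlgebra.mapDomain (QuotientGroup.mk' (N i)) (S j j)).coeff 1 = (S j j).coeff 1 :=
    Filter.eventually_all.mpr fun j => eventually_coeff N hanti hinf (S j j)
  filter_upwards [h] with i hi
  unfold trc
  apply Finset.sum_congr rfl
  intro j _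
  rw [mq, Matrix.map_apply, hi j]

include hanti hinf in
theorem eventually_poly (S : Matrix (Fin r) (Fin r) (MonoidAlgebra ℚ G)) (hS : 0 ≤ rMul S)
    (hSi : ∀ i, 0 ≤ rMul (mq (N i) S)) (p : ℝ[X]) :
    ∀ᶠ i in Filter.atTop, traceVal unitVec (rMul (mq (N i) S)) (fun x => p.eval x)
      = traceVal unitVec (rMul S) (fun x => p.eval x) := by
  have h : ∀ᶠ i in Filter.atTop, ∀ m ∈ Finset.range (p.natDegree + 1), trc (mq (N i) (S ^ m)) = trc (S ^ m) := by
    rw [Filter.eventually_all_finset]
    intro m _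
    exact eventually_trc N hanti hinf (S ^ m)
  filter_upwards [h] with i hi
  rw [traceVal_poly _ (hSi i), traceVal_poly _ hS]
  apply Finset.sum_congr rfl
  intro m hm
  rw [← mq_pow, hi m hm]

include hanti hinf in
/-- The spectral traces over the quotients converge. -/
theorem tendsto_traceVal (S : Matrix (Fin r) (Fin r) (MonoidAlgebra ℚ G)) (hS : 0 ≤ rMul S)
    (hSi : ∀ i, 0 ≤ rMul (mq (N i) S)) {h : ℝ → ℝ} (hh : Continuous h) :
    Filter.Tendsto (fun i => traceVal unitVec (rMul (mq (N i) S)) h) Filter.atTop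
      (𝓝 (traceVal unitVec (rMul S) h)) := by
  rw [Metric.tendsto_atTop']
  intro ε hε
  have hK : ‖rMul S‖ ≤ n1M S := by
    have := norm_rMul_map_le (Q := G) id S
    have e : S.map (MonoidAlgebra.mapDomain (id : G → G)) = S := by
      ext1 i j
      rw [Matrix.map_apply, MonoidAlgebra.mapDomain, Finsupp.mapDomain_id]
    rwa [e] at this
  have hKi : ∀ i, ‖rMul (mq (N i) S)‖ ≤ n1M S := fun i => norm_rMul_map_le _ S
  obtain ⟨p, hp⟩ := exists_polynomial_near_of_continuousOn 0 (n1M S) h hh.continuousOn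
    (ε / (4 * (r + 1))) (by positivity)
  have hp' : ∀ x ∈ Set.Icc 0 (n1M S), |h x - p.eval x| ≤ ε / (4 * (r + 1)) := by
    intro x hx
    rw [abs_sub_comm]
    exact (hp x hx).le
  have hb : (r : ℝ) * (ε / (4 * (r + 1))) ≤ ε / 4 := by
    rw [mul_div_assoc', div_le_div_iff₀ (by positivity) (by positivity)]
    nlinarith
  have hev := eventually_poly N hanti hinf S hS hSi p
  obtain ⟨i0, hi0⟩ := Filter.eventually_atTop.mp hev
  refine ⟨i0, fun i hi => ?_⟩
  rw [Real.dist_eq]
  have e1 := traceVal_near unitVec (fun j => (norm_unitVec j).le) (rMul (mq (N i) S)) (hSi i)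
    (hKi i) hh p.continuous (by positivity) hp'
  have e2 := traceVal_near unitVec (fun j => (norm_unitVec j).le) (rMul S) hS
    hK hh p.continuous (by positivity) hp'
  have e3 := hi0 i hi.le
  rw [abs_le] at e1 e2
  rw [abs_lt]
  constructor <;> linarith

end chain

end Pool.Agent.Helper993.FK
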