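import Pool.Agent.H7.L.Helper993_Chain

open scoped InnerProductSpace Topology CompactlySupported InnerProduct

noncomputable section

namespace Pool.Agent.Helper993.FK

open MeasureTheory Polynomial

section general
variable {H : Type} [NormedAddCommGroup H] [InnerProductSpace ℂ H] [CompleteSpace H]
  [FiniteDimensional ℂ H]

theorem traceVal_finite {Q : Type} [Fintype Q] [Nonempty Q] {r : ℕ}
    (b : OrthonormalBasis (Fin r × Q) ℂ H)
    (T : H →L[ℂ] H) (hT : (T : H →ₗ[ℂ] H).IsSymmetric) (e : Fin r → H)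
    (U : Q → H →L[ℂ] H) (hU : ∀ q i, U q (e i) = b (i, q))
    (hUi : ∀ q x y, ⟪U q x, U q y⟫_ℂ = ⟪x, y⟫_ℂ)
    (hUT : ∀ q, Commute T (U q)) [Nontrivial H] (h : ℝ → ℝ) :
    traceVal e T h =
      ∑ i, (1 / (Fintype.card Q : ℝ)) * h (hT.eigenvalues rfl i) := by
  obtain ⟨P, hP1, hP2⟩ := cfc_eq_aeval T hT h
  have h1 : traceVal e T h = ∑ i, (⟪e i, (aeval T P) (e i)⟫_ℂ).re := by
    unfold traceVal
    rw [hP2]
  have h2 : ∀ i q, ⟪b (i, q), (aeval T P) (b (i, q))⟫_ℂ = ⟪e i, (aeval T P) (e i)⟫_ℂ := by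
    intro i q
    have hc : Commute (aeval T P) (U q) := commute_aeval T (U q) (hUT q) P
    rw [← hU q i]
    have : (aeval T P) (U q (e i)) = U q ((aeval T P) (e i)) := by
      have := congrArg (fun (S : H →L[ℂ] H) => S (e i)) hc.eq
      simpa using this
    rw [this, hUi]
  have h3 : ∑ p, ⟪b p, (aeval T P) (b p)⟫_ℂ
      = ∑ i, ((h (hT.eigenvalues rfl i) : ℝ) : ℂ) := by
    have t1 := LinearMap.trace_eq_sum_inner ((aeval T P : H →L[ℂ] H) : H →ₗ[ℂ] H) b
    have t2 := LinearMap.trace_eq_sum_inner ((aeval T P : H →L[ℂ] H) : H →ₗ[ℂ] H)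
      (hT.eigenvectorBasis rfl)
    have t3 := t1.symm.trans t2
    refine t3.trans ?_
    apply Finset.sum_congr rfl
    intro i _
    have h1 : T (hT.eigenvectorBasis rfl i)
      = ((hT.eigenvalues rfl i : ℝ) : ℂ) • hT.eigenvectorBasis rfl i :=
        hT.apply_eigenvectorBasis rfl i
    have h2 := aeval_apply_eigen T P _ _ h1
    rw [hP1] at h2
    rw [ContinuousLinearMap.coe_coe, h2, inner_smul_right]
    simp
  have h4 : (Fintype.card Q : ℂ) * ∑ i, ⟪e i, (aeval T P) (e i)⟫_ℂ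
      = ∑ i, ((h (hT.eigenvalues rfl i) : ℝ) : ℂ) := by
    rw [← h3, Fintype.sum_prod_type]
    simp_rw [h2]
    simp [Finset.mul_sum]
  have h5 := congrArg Complex.re h4
  rw [Complex.re_sum] at h5
  simp only [Complex.ofReal_re] at h5
  have h6 : ((Fintype.card Q : ℂ) * ∑ i, ⟪e i, (aeval T P) (e i)⟫_ℂ).re
      = (Fintype.card Q : ℝ) * ∑ i, (⟪e i, (aeval T P) (e i)⟫_ℂ).re := by
    rw [← Complex.re_sum]
    simp
  rw [h6] at h5
  rw [h1, ← Finset.mul_sum, ← h5]
  have : (Fintype.card Q : ℝ) ≠ 0 := by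
    exact_mod_cast Fintype.card_ne_zero
  field_simp

end general

/-- The product of the nonzero eigenvalues of an integer matrix is at least one. -/
theorem prod_nonzero_ge_one {n : ℕ} (lam : Fin n → ℝ) (hnonneg : ∀ k, 0 ≤ lam k) (P : ℤ[X])
    (hP : P.map (Int.castRingHom ℂ) = ∏ k, (X - C ((lam k : ℝ) : ℂ))) :
    1 ≤ ∏ k with lam k ≠ 0, lam k := by
  classical
  set m := (Finset.univ.filter fun k => ¬ lam k ≠ 0).card with hm
  have h1 : (∏ k, (X - C ((lam k : ℝ) : ℂ)))
      = (∏ k with lam k ≠ 0, (X - C ((lam k : ℝ) : ℂ))) * X ^ m := by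
    rw [← Finset.prod_filter_mul_prod_filter_not Finset.univ (fun k => lam k ≠ 0)]
    congr 1
    rw [hm, ← Finset.prod_const]
    apply Finset.prod_congr rfl
    intro k hk
    simp only [ne_eq, not_not, Finset.mem_filter, Finset.mem_univ, true_and] at hk
    rw [hk]
    simp
  have h2 : ((P.coeff m : ℤ) : ℂ) = (∏ k with lam k ≠ 0, (-((lam k : ℝ) : ℂ))) := by
    have := congrArg (fun q : ℂ[X] => q.coeff m) hP
    simp only [coeff_map, eq_intCast] at this
    rw [this, h1, coeff_mul_X_pow', if_pos le_rfl, Nat.sub_self, coeff_zero_eq_eval_zero,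
      eval_prod]
    apply Finset.prod_congr rfl
    intro k _
    simp
  have h3 : ‖((P.coeff m : ℤ) : ℂ)‖ = ∏ k with lam k ≠ 0, lam k := by
    rw [h2, norm_prod]
    apply Finset.prod_congr rfl
    intro k _
    rw [norm_neg, Complex.norm_real, Real.norm_eq_abs, abs_of_nonneg (hnonneg k)]
  have h4 : 0 < ∏ k with lam k ≠ 0, lam k := by
    apply Finset.prod_pos
    intro k hk
    simp only [ne_eq, Finset.mem_filter, Finset.mem_univ, true_and] at hk
    exact lt_of_le_of_ne (hnonneg k) (Ne.symm hk)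
  rw [← h3] at h4 ⊢
  have h5 : (P.coeff m : ℤ) ≠ 0 := by
    intro h
    rw [h] at h4
    simp at h4
  rw [Complex.norm_intCast]
  exact_mod_cast Int.one_le_abs h5

end Pool.Agent.Helper993.FK
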