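import Pool.Agent.H7.L.Helper993_FinLevel

open scoped InnerProductSpace Topology CompactlySupported InnerProduct

noncomputable section

namespace Pool.Agent.Helper993.FK

open MeasureTheory Polynomial

/-- The inclusion of the integral into the rational group ring. -/
def toQ {G : Type} [Group G] (a : MonoidAlgebra ℤ G) : MonoidAlgebra ℚ G :=
  MonoidAlgebra.mapRingHom G (Int.castRingHom ℚ) a

theorem toQ_coeff {G : Type} [Group G] (a : MonoidAlgebra ℤ G) (g : G) :
    (toQ a).coeff g = ((a.coeff g : ℤ) : ℚ) := by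
  simp [toQ]

section finite
variable {Q : Type} [Group Q] [Fintype Q] [DecidableEq Q] {r : ℕ}

/-- the basis vector at `(i, q)` -/
def bv (p : Fin r × Q) : L2Pow Q r :=
  show lp (fun _ : Fin r × Q => ℂ) 2 from lp.single 2 p (1 : ℂ)

omit [Group Q] [Fintype Q] in
theorem coord_bv (p : Fin r × Q) (j : Fin r) (h : Q) :
    coord (bv p) j h = if (j, h) = p then 1 else 0 := by
  change (lp.single 2 p (1 : ℂ) : lp (fun _ : Fin r × Q => ℂ) 2) (j, h) = _
  rw [lp.single_apply, Pi.single_apply]

omit [Group Q] [Fintype Q] in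
theorem inner_bv (p : Fin r × Q) (x : L2Pow Q r) : ⟪bv p, x⟫_ℂ = coord x p.1 p.2 := by
  have h := lp.inner_single_left (𝕜 := ℂ) (G := fun _ : Fin r × Q => ℂ) p (1 : ℂ)
    (show lp (fun _ : Fin r × Q => ℂ) 2 from x)
  refine Eq.trans h ?_
  simp
  rfl

/-- the standard orthonormal basis -/
def stdB (Q : Type) [Fintype Q] [DecidableEq Q] [Group Q] (r : ℕ) :
    OrthonormalBasis (Fin r × Q) ℂ (L2Pow Q r) :=
  OrthonormalBasis.mk (v := fun p => bv p) (by
    rw [orthonormal_iff_ite]
    intro i j
    refine (inner_bv i (bv j)).trans ?_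
    rw [coord_bv]) (by
    intro x _
    have : x = ∑ p : Fin r × Q, (coord x p.1 p.2) • (bv p) := by
      apply coord_ext
      intro j g
      rw [coord_sum]
      simp_rw [coord_smul, coord_bv]
      simp
    rw [this]
    apply Submodule.sum_mem
    intro q _
    apply Submodule.smul_mem
    exact Submodule.subset_span ⟨q, rfl⟩)

theorem stdB_apply (p : Fin r × Q) : stdB Q r p = bv p := by
  rw [stdB, OrthonormalBasis.coe_mk]

theorem sum_stdB (c : Fin r × Q → ℂ) (j : Fin r) (h : Q) :
    coord (∑ p, c p • stdB Q r p) j h = c (j, h) := by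
  rw [coord_sum]
  simp_rw [coord_smul, stdB_apply, coord_bv]
  simp

theorem rMul_stdB (S : Matrix (Fin r) (Fin r) (MonoidAlgebra ℚ Q)) (p : Fin r × Q) :
    rMul S (stdB Q r p)
      = ∑ q : Fin r × Q, (((S p.1 q.1).coeff (p.2⁻¹ * q.2) : ℚ) : ℂ) • stdB Q r q := by
  apply coord_ext
  intro j h
  rw [sum_stdB, rMul_apply, Finset.sum_eq_single p.1]
  · have h1 : ∀ g : Q, coord (stdB Q r p) p.1 (h * g⁻¹) = if g = p.2⁻¹ * h then 1 else 0 := by
      intro g
      rw [stdB_apply, coord_bv]
      have : ((p.1, h * g⁻¹) = p) ↔ (g = p.2⁻¹ * h) := by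
        constructor
        · intro e
          have := (Prod.ext_iff.mp e).2
          simp only at this
          rw [← this]
          group
        · intro e
          rw [e]
          ext
          · rfl
          · simp
      simp only [this]
    simp_rw [h1]
    simp only [mul_ite, mul_one, mul_zero, Finset.sum_ite_eq']
    by_cases hg : p.2⁻¹ * h ∈ (S p.1 j).coeff.support
    · rw [if_pos hg]
    · rw [if_neg hg]
      rw [Finsupp.notMem_support_iff] at hg
      rw [hg]; simp
  · intro i _ hi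
    apply Finset.sum_eq_zero
    intro g _
    rw [stdB_apply, coord_bv, if_neg, mul_zero]
    intro h
    exact hi (congrArg Prod.fst h)
  · simp

theorem unitVec_stdB (i : Fin r) : (unitVec i : L2Pow Q r) = stdB Q r (i, 1) := by
  rw [stdB_apply, unitVec_eq]
  rfl

/-- Everything which is needed about the spectrum over a finite group. -/
theorem fin_package [NeZero r] (SZ : Matrix (Fin r) (Fin r) (MonoidAlgebra ℤ Q))
    (hS : 0 ≤ rMul (SZ.map toQ)) :
    ∃ (n : ℕ) (lam : Fin n → ℝ), n = r * Fintype.card Q ∧ (∀ k, 0 ≤ lam k) ∧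
      (∀ k, lam k ≤ ‖rMul (SZ.map toQ)‖) ∧ 1 ≤ ∏ k with lam k ≠ 0, lam k ∧
      (∀ h : ℝ → ℝ, traceVal unitVec (rMul (SZ.map toQ)) h
        = ∑ k, (1 / (Fintype.card Q : ℝ)) * h (lam k)) ∧
      ((∀ v, rMul (SZ.map toQ) v = 0 → v = 0) → ∀ k, lam k ≠ 0) := by
  have hfin : FiniteDimensional ℂ (L2Pow Q r) := (stdB Q r).toBasis.finiteDimensional_of_finite
  set S := SZ.map toQ with hSdef
  set T := rMul S with hTdef
  have hpos : T.IsPositive := (ContinuousLinearMap.nonneg_iff_isPositive T).mp hS
  have hT : (T : L2Pow Q r →ₗ[ℂ] L2Pow Q r).IsSymmetric := hpos.isSymmetric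
  have hnt : Nontrivial (L2Pow Q r) := by
    refine ⟨unitVec 0, 0, ?_⟩
    intro h
    have h1 := norm_unitVec (G := Q) (r := r) 0
    rw [h] at h1
    simp at h1
  let U : Q → L2Pow Q r →L[ℂ] L2Pow Q r := fun q =>
    (((stdB Q r).equiv (stdB Q r) (Equiv.prodCongr (Equiv.refl _)
      (Equiv.mulLeft q))).toContinuousLinearEquiv : L2Pow Q r →L[ℂ] L2Pow Q r)
  have hUb : ∀ q (p : Fin r × Q), U q (stdB Q r p) = stdB Q r (p.1, q * p.2) := by
    intro q p
    simp [U]
    rfl
  have hUi : ∀ q x y, ⟪U q x, U q y⟫_ℂ = ⟪x, y⟫_ℂ := by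
    intro q x y
    exact ((stdB Q r).equiv (stdB Q r) _).inner_map_map x y
  have hUT : ∀ q, Commute T (U q) := by
    intro q
    have : (T ∘L U q) = (U q ∘L T) := by
      apply ContinuousLinearMap.coe_injective
      apply (stdB Q r).toBasis.ext
      intro p
      simp only [OrthonormalBasis.coe_toBasis, ContinuousLinearMap.coe_coe,
        ContinuousLinearMap.comp_apply]
      rw [hUb, hTdef, rMul_stdB, rMul_stdB, map_sum]
      simp_rw [map_smul, hUb]
      refine (Fintype.sum_equiv (Equiv.prodCongr (Equiv.refl _) (Equiv.mulLeft q)) _ _ ?_).symm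
      rintro ⟨j, y⟩
      simp
    exact this
  have htr := traceVal_finite (stdB Q r) T hT unitVec U
    (fun q i => by rw [unitVec_stdB, hUb]; simp) hUi hUT
  have hcard : Module.finrank ℂ (L2Pow Q r) = r * Fintype.card Q := by
    rw [Module.finrank_eq_card_basis (stdB Q r).toBasis]
    simp
  have hnonneg : ∀ k, 0 ≤ hT.eigenvalues rfl k := by
    intro k
    apply eigenvalue_nonneg_of_nonneg (hT.hasEigenvalue_eigenvalues rfl k)
    intro x
    exact hpos.re_inner_nonneg_right x
  have heig : ∀ k, T (hT.eigenvectorBasis rfl k)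
      = ((hT.eigenvalues rfl k : ℝ) : ℂ) • hT.eigenvectorBasis rfl k :=
    fun k => hT.apply_eigenvectorBasis rfl k
  refine ⟨_, hT.eigenvalues rfl, hcard, hnonneg, ?_, ?_, fun h => htr h, ?_⟩
  · intro k
    have h1 := T.le_opNorm (hT.eigenvectorBasis rfl k)
    rw [heig k, norm_smul, (hT.eigenvectorBasis rfl).orthonormal.1 k, Complex.norm_real,
      Real.norm_eq_abs, mul_one, mul_one] at h1
    exact (le_abs_self _).trans h1
  · let MZ : Matrix (Fin r × Q) (Fin r × Q) ℤ := Matrix.of fun q p =>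
      (SZ p.1 q.1).coeff (p.2⁻¹ * q.2)
    apply prod_nonzero_ge_one _ hnonneg MZ.charpoly
    have h1 : LinearMap.toMatrix (stdB Q r).toBasis (stdB Q r).toBasis
        (T : L2Pow Q r →ₗ[ℂ] L2Pow Q r) = MZ.map (Int.castRingHom ℂ) := by
      ext q p
      rw [LinearMap.toMatrix_apply]
      rw [OrthonormalBasis.coe_toBasis, ContinuousLinearMap.coe_coe, hTdef, rMul_stdB]
      rw [map_sum, Finsupp.finsetSum_apply]
      simp only [map_smul, Finsupp.smul_apply, smul_eq_mul, Matrix.map_apply, MZ, Matrix.of_apply]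
      rw [Finset.sum_eq_single q]
      · rw [← OrthonormalBasis.coe_toBasis, Module.Basis.repr_self, Finsupp.single_eq_same, mul_one,
          hSdef, Matrix.map_apply, toQ_coeff]
        simp
      · intro q' _ hq'
        rw [← OrthonormalBasis.coe_toBasis, Module.Basis.repr_self, Finsupp.single_eq_of_ne hq'.symm,
          mul_zero]
      · simp
    have h2 := LinearMap.charpoly_toMatrix (T : L2Pow Q r →ₗ[ℂ] L2Pow Q r) (stdB Q r).toBasis
    have h3 := hT.charpoly_eq rfl
    rw [← Matrix.charpoly_map, ← h1, h2, h3]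
    rfl
  · intro hinj k h0
    have h1 := heig k
    rw [h0] at h1
    have h2 := hinj _ (by rw [h1]; simp)
    have h3 := (hT.eigenvectorBasis rfl).orthonormal.1 k
    rw [h2] at h3
    simp at h3

end finite

end Pool.Agent.Helper993.FK
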