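import Pool.Agent.H7.L.Helper993_Luck

open scoped InnerProductSpace Topology

noncomputable section

namespace Pool.Agent.Helper993.FK

open ContinuousLinearMap

section
variable {G : Type} [Group G] {r s t : ℕ}

theorem rMul_add (A B : Matrix (Fin r) (Fin s) (MonoidAlgebra ℚ G)) :
    rMul (A + B) = rMul A + rMul B := by
  rw [rMul_eq_sc, rMul_eq_sc, rMul_eq_sc]
  simp only [Matrix.add_apply, sc_add, Finset.sum_add_distrib]

/-- right multiplication by a group element -/
def trM (z : G) (r : ℕ) : Matrix (Fin r) (Fin r) (MonoidAlgebra ℚ G) :=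
  Matrix.diagonal fun _ => MonoidAlgebra.single z 1

/-- the matrix `z - 1` -/
def zeta (z : G) (r : ℕ) : Matrix (Fin r) (Fin r) (MonoidAlgebra ℚ G) :=
  Matrix.diagonal fun _ => MonoidAlgebra.single z 1 - 1

theorem zeta_add_one (z : G) (r : ℕ) : zeta z r + 1 = trM z r := by
  unfold zeta trM
  rw [← Matrix.diagonal_one, Matrix.diagonal_add]
  simp

theorem coord_trM (z : G) (v : L2Pow G r) (j : Fin r) (h : G) :
    coord (rMul (trM z r) v) j h = coord v j (h * z⁻¹) := by
  rw [rMul_apply, Finset.sum_eq_single j]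
  · unfold trM
    rw [Matrix.diagonal_apply_eq, MonoidAlgebra.coeff_single,
      Finsupp.support_single, Finset.sum_singleton]
    · simp
    · exact one_ne_zero
  · intro i _ hi
    unfold trM
    rw [Matrix.diagonal_apply_ne _ hi]
    simp
  · intro h
    exact absurd (Finset.mem_univ _) h

theorem zeta_inj {z : G} (hz : ¬ IsOfFinOrder z) (v : L2Pow G r)
    (h : rMul (zeta z r) v = 0) : v = 0 := by
  have h1 : rMul (trM z r) v = v := by
    rw [← zeta_add_one, rMul_add, rMul_one, add_apply, h, zero_add]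
    rfl
  apply coord_ext
  intro j g
  rw [coord_zero]
  have h2 : ∀ k, coord v j (k * z⁻¹) = coord v j k := by
    intro k
    have := coord_trM z v j k
    rw [h1] at this
    exact this.symm
  have h3 : ∀ n : ℕ, coord v j (g * (z⁻¹) ^ n) = coord v j g := by
    intro n
    induction n with
    | zero => simp
    | succ n ih => rw [pow_succ, ← mul_assoc, h2, ih]
  have hinj : Function.Injective (fun n : ℕ => ((j, g * (z⁻¹) ^ n) : Fin r × G)) := by
    intro a b hab
    have h4 : (z⁻¹) ^ a = (z⁻¹) ^ b := by simpa using hab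
    have h5 : Function.Injective (fun n : ℕ => (z⁻¹) ^ n) :=
      injective_pow_iff_not_isOfFinOrder.mpr (by rwa [isOfFinOrder_inv_iff])
    exact h5 h4
  have h6 := (coord_summable v).comp_injective hinj
  simp only [Function.comp_def, h3] at h6
  rw [summable_const_iff] at h6
  have h7 : ‖coord v j g‖ = 0 := by
    by_contra hne
    have hpos : 0 < ‖coord v j g‖ := lt_of_le_of_ne (norm_nonneg _) (Ne.symm hne)
    have := Real.rpow_pos_of_pos hpos ((2 : ENNReal).toReal)
    linarith
  exact norm_eq_zero.mp h7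

theorem zeta_comm {z : G} (hz : ∀ g, z * g = g * z) (A : Matrix (Fin r) (Fin s) (MonoidAlgebra ℚ G)) :
    zeta z r * A = A * zeta z s := by
  have h : ∀ a : MonoidAlgebra ℚ G, (MonoidAlgebra.single z 1 - 1) * a
      = a * (MonoidAlgebra.single z 1 - 1) := by
    intro a
    rw [sub_mul, mul_sub, one_mul, mul_one]
    congr 1
    induction a using MonoidAlgebra.induction_linear with
    | zero => simp
    | add a b h1 h2 => rw [mul_add, add_mul, h1, h2]
    | single g c => rw [MonoidAlgebra.single_mul_single, MonoidAlgebra.single_mul_single, hz, one_mul,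
        mul_one]
  unfold zeta
  ext1 i j
  rw [Matrix.diagonal_mul, Matrix.mul_diagonal, h]

theorem range_orth {H K : Type} [NormedAddCommGroup H] [InnerProductSpace ℂ H]
    [CompleteSpace H] [NormedAddCommGroup K] [InnerProductSpace ℂ K] [CompleteSpace K]
    (B : H →L[ℂ] K) (u : H) (w : K) (hw : w = B u) (h : B.adjoint w = 0) : w = 0 := by
  have h4 : ⟪w, w⟫_ℂ = 0 := by
    nth_rw 2 [hw]
    rw [← ContinuousLinearMap.adjoint_inner_left, h, inner_zero_left]
  exact inner_self_eq_zero.mp h4

/-- A vector in the kernel of the outgoing boundary and orthogonal to the incoming boundary is zero,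
if `z - 1` is null-homotopic. -/
theorem homotopy_inj {z : G} (hz : ∀ g, z * g = g * z) (hz' : ¬ IsOfFinOrder z)
    (A : Matrix (Fin r) (Fin s) (MonoidAlgebra ℚ G)) (h : Matrix (Fin s) (Fin r) (MonoidAlgebra ℚ G))
    (k : Matrix (Fin r) (Fin t) (MonoidAlgebra ℚ G)) (B : Matrix (Fin t) (Fin r) (MonoidAlgebra ℚ G))
    (hom : A * h + k * B = zeta z r) (v : L2Pow G r) (h1 : rMul A v = 0)
    (h2 : (rMul B).adjoint v = 0) : v = 0 := by
  apply zeta_inj hz'
  have h3 : rMul (zeta z r) v = rMul B (rMul k v) := by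
    rw [← hom, rMul_add, rMul_mul, rMul_mul, add_apply, comp_apply, h1, map_zero, zero_add]
    rfl
  have h5 : (rMul B).adjoint (rMul (zeta z r) v) = rMul (zeta z t) ((rMul B).adjoint v) := by
    rw [adjoint_rMul]
    have h6 : (rMul (adjQ B)) ∘L (rMul (zeta z r)) = rMul (zeta z t) ∘L rMul (adjQ B) := by
      rw [← rMul_mul, ← rMul_mul, zeta_comm hz]
    exact congrArg (fun f => f v) h6
  refine range_orth (rMul B) (rMul k v) _ h3 ?_
  rw [h5, h2, map_zero]

end

end Pool.Agent.Helper993.FK
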