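import Pool.Agent.H7.L.Helper993_FinPack

open scoped InnerProductSpace Topology CompactlySupported InnerProduct

noncomputable section

namespace Pool.Agent.Helper993.FK

open MeasureTheory Polynomial

section eig
variable {n : ℕ} (lam : Fin n → ℝ)

theorem sum_log_nonneg (hprod : 1 ≤ ∏ k with lam k ≠ 0, lam k) :
    0 ≤ ∑ k with lam k ≠ 0, Real.log (lam k) := by
  rw [← Real.log_prod]
  · exact Real.log_nonneg hprod
  · intro k hk
    simpa using hk

theorem count_bound (hnonneg : ∀ k, 0 ≤ lam k) {K : ℝ} (hK1 : 1 ≤ K) (hK : ∀ k, lam k ≤ K)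
    (hprod : 1 ≤ ∏ k with lam k ≠ 0, lam k) {δ : ℝ} :
    ((Finset.univ.filter fun k => lam k ≠ 0 ∧ lam k < δ).card : ℝ) * Real.log (1 / δ)
      ≤ n * Real.log K := by
  have h1 := sum_log_nonneg lam hprod
  have hlogK : 0 ≤ Real.log K := Real.log_nonneg hK1
  have h2 : ∑ k with lam k ≠ 0, Real.log (lam k)
      ≤ ∑ k with lam k ≠ 0, ((if lam k < δ then Real.log δ else 0) + Real.log K) := by
    apply Finset.sum_le_sum
    intro k hk
    have hk' : lam k ≠ 0 := by simpa using hk
    have hpos : 0 < lam k := lt_of_le_of_ne (hnonneg k) hk'.symm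
    split_ifs with h
    · have := Real.log_le_log hpos h.le
      linarith
    · have := Real.log_le_log hpos (hK k)
      linarith
  rw [Finset.sum_add_distrib] at h2
  have h3 : ∑ k with lam k ≠ 0, Real.log K ≤ n * Real.log K := by
    rw [Finset.sum_const, nsmul_eq_mul]
    apply mul_le_mul_of_nonneg_right _ hlogK
    have := Finset.card_filter_le (Finset.univ : Finset (Fin n)) (fun k => lam k ≠ 0)
    rw [Finset.card_univ, Fintype.card_fin] at this
    exact_mod_cast this
  have h4 : ∑ k with lam k ≠ 0, (if lam k < δ then Real.log δ else 0)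
      = ((Finset.univ.filter fun k => lam k ≠ 0 ∧ lam k < δ).card : ℝ) * Real.log δ := by
    rw [← Finset.sum_filter, Finset.filter_filter, Finset.sum_const, nsmul_eq_mul]
  rw [h4] at h2
  have h5 : Real.log (1 / δ) = - Real.log δ := by
    rw [one_div, Real.log_inv]
  rw [h5]
  linarith

theorem zero_le_sum_bump (δ : ℝ) :
    ((Finset.univ.filter fun k => lam k = 0).card : ℝ) ≤ ∑ k, bump δ (lam k) := by
  rw [Finset.card_filter]
  push_cast
  apply Finset.sum_le_sum
  intro k _
  split_ifs with h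
  · rw [h, bump_zero]
  · exact bump_nonneg _ _

theorem sum_bump_le {δ : ℝ} (hδ : 0 < δ) :
    ∑ k, bump δ (lam k) ≤ ((Finset.univ.filter fun k => lam k = 0).card : ℝ)
      + ((Finset.univ.filter fun k => lam k ≠ 0 ∧ lam k < δ).card : ℝ) := by
  rw [Finset.card_filter, Finset.card_filter]
  push_cast
  rw [← Finset.sum_add_distrib]
  apply Finset.sum_le_sum
  intro k _
  by_cases h0 : lam k = 0
  · rw [if_pos h0]
    have := bump_le_one δ (lam k)
    split_ifs <;> linarith
  · rw [if_neg h0]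
    by_cases h1 : lam k < δ
    · rw [if_pos ⟨h0, h1⟩]
      have := bump_le_one δ (lam k)
      linarith
    · rw [bump_of_le hδ (not_lt.mp h1)]
      split_ifs <;> norm_num

/-- a bounded continuous version of `|log x|` -/
def gm (M x : ℝ) : ℝ := min M |Real.log (max x (Real.exp (-M)))|

theorem gm_continuous (M : ℝ) : Continuous (gm M) := by
  unfold gm
  apply Continuous.min continuous_const
  apply Continuous.abs
  apply Continuous.log
  · exact continuous_id.max continuous_const
  · intro x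
    exact (lt_of_lt_of_le (Real.exp_pos _) (le_max_right _ _)).ne'

theorem gm_nonneg {M : ℝ} (hM : 0 ≤ M) (x : ℝ) : 0 ≤ gm M x := le_min hM (abs_nonneg _)

theorem gm_le (M x : ℝ) : gm M x ≤ M := min_le_left _ _

theorem gm_le_abs_log {M x : ℝ} (hx : 0 < x) : gm M x ≤ |Real.log x| := by
  unfold gm
  rcases le_total (Real.exp (-M)) x with h | h
  · rw [max_eq_left h]
    exact min_le_right _ _
  · refine (min_le_left _ _).trans ?_
    have h1 := Real.log_le_log hx h
    rw [Real.log_exp] at h1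
    have := neg_le_abs (Real.log x)
    linarith

theorem gm_eq {M x : ℝ} (hx : 0 < x) (h : |Real.log x| ≤ M) : gm M x = |Real.log x| := by
  have h1 : Real.exp (-M) ≤ x := by
    rw [← Real.exp_log hx]
    apply Real.exp_le_exp.mpr
    have := neg_abs_le (Real.log x)
    linarith
  unfold gm
  rw [max_eq_left h1, min_eq_right h]

theorem sum_gm_le (hnonneg : ∀ k, 0 ≤ lam k) {K : ℝ} (hK1 : 1 ≤ K) (hK : ∀ k, lam k ≤ K)
    (hprod : 1 ≤ ∏ k with lam k ≠ 0, lam k) {M : ℝ} :
    ∑ k, gm M (lam k) ≤ M * ((Finset.univ.filter fun k => lam k = 0).card : ℝ)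
      + 2 * n * Real.log K := by
  have h1 := sum_log_nonneg lam hprod
  have hlogK : 0 ≤ Real.log K := Real.log_nonneg hK1
  have h2 : ∑ k, gm M (lam k) ≤ ∑ k, ((if lam k = 0 then M else 0)
      + 2 * Real.log K - (if lam k ≠ 0 then Real.log (lam k) else 0)) := by
    apply Finset.sum_le_sum
    intro k _
    by_cases h0 : lam k = 0
    · rw [if_pos h0, if_neg (by simpa using h0)]
      have := gm_le M (lam k)
      linarith
    · rw [if_neg h0, if_pos h0]
      have hpos : 0 < lam k := lt_of_le_of_ne (hnonneg k) (Ne.symm h0)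
      have h3 := gm_le_abs_log (M := M) hpos
      have h4 := Real.log_le_log hpos (hK k)
      rcases abs_cases (Real.log (lam k)) with h5 | h5 <;> linarith [h5.1]
  refine h2.trans ?_
  rw [Finset.sum_sub_distrib, Finset.sum_add_distrib, ← Finset.sum_filter, ← Finset.sum_filter,
    Finset.sum_const, Finset.sum_const, nsmul_eq_mul, nsmul_eq_mul, Finset.card_univ,
    Fintype.card_fin]
  linarith

end eig

section groups
variable {G : Type} [Group G] {r : ℕ} [NeZero r] (N : ℕ → Subgroup G) [∀ i, (N i).Normal]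
  [∀ i, Finite (G ⧸ N i)] (hanti : Antitone N) (hinf : ⨅ i, N i = ⊥)
  (SZ : Matrix (Fin r) (Fin r) (MonoidAlgebra ℤ G))
  (hS : 0 ≤ rMul (SZ.map toQ)) (hSi : ∀ i, 0 ≤ rMul (mq (N i) (SZ.map toQ)))

theorem mq_toQ (N : Subgroup G) [N.Normal] {r s : ℕ} (SZ : Matrix (Fin r) (Fin s) (MonoidAlgebra ℤ G)) :
    mq N (SZ.map toQ) = (SZ.map (MonoidAlgebra.mapDomain (QuotientGroup.mk' N))).map toQ := by
  ext1 i j
  have h := MonoidAlgebra.mapRingHom_comp_mapDomainRingHom (Int.castRingHom ℚ) (QuotientGroup.mk' N)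
  have h2 := congrArg (fun (f : MonoidAlgebra ℤ G →+* MonoidAlgebra ℚ (G ⧸ N)) => f (SZ i j)) h
  exact h2.symm

/-- the constant in the bounds -/
def KK (SZ : Matrix (Fin r) (Fin r) (MonoidAlgebra ℤ G)) : ℝ := max 1 (n1M (SZ.map toQ))

omit [NeZero r] in
theorem one_le_KK (SZ : Matrix (Fin r) (Fin r) (MonoidAlgebra ℤ G)) : 1 ≤ KK SZ := le_max_left _ _

include hSi in
/-- the spectrum over the `i`-th quotient -/
theorem package_i (i : ℕ) : ∃ (q : ℕ) (lam : Fin (r * q) → ℝ), 0 < q ∧ (∀ k, 0 ≤ lam k) ∧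
      (∀ k, lam k ≤ KK SZ) ∧ 1 ≤ ∏ k with lam k ≠ 0, lam k ∧
      (∀ h : ℝ → ℝ, traceVal unitVec (rMul (mq (N i) (SZ.map toQ))) h
        = ∑ k, (1 / (q : ℝ)) * h (lam k)) ∧
      ((∀ v, rMul (mq (N i) (SZ.map toQ)) v = 0 → v = 0) → ∀ k, lam k ≠ 0) := by
  classical
  have : Fintype (G ⧸ N i) := Fintype.ofFinite _
  have h := hSi i
  rw [mq_toQ] at h
  obtain ⟨n, lam, hn, h1, h2, h3, h4, h5⟩ := fin_package _ h
  subst hn
  refine ⟨Fintype.card (G ⧸ N i), lam, Fintype.card_pos, h1, ?_, h3, ?_, ?_⟩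
  · intro k
    refine (h2 k).trans ?_
    rw [← mq_toQ]
    exact (norm_rMul_map_le _ _).trans (le_max_right _ _)
  · rw [mq_toQ]
    exact h4
  · rw [mq_toQ]
    exact h5

omit [NeZero r] in
theorem tau_i_le {q : ℕ} (lam : Fin (r * q) → ℝ) (c : ℝ)
    (h : ℝ → ℝ) (hb : ∑ k, h (lam k) ≤ c) : ∑ k, (1 / (q : ℝ)) * h (lam k) ≤ c / q := by
  rw [← Finset.mul_sum, one_div, inv_mul_eq_div]
  exact div_le_div_of_nonneg_right hb (Nat.cast_nonneg q)

include hanti hinf hS hSi in
/-- the main estimate -/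
theorem traceVal_gm_le (hinj : ∀ v, rMul (SZ.map toQ) v = 0 → v = 0) {M : ℝ} (hM : 0 ≤ M) :
    traceVal unitVec (rMul (SZ.map toQ)) (gm M) ≤ 2 * r * Real.log (KK SZ) := by
  apply le_of_forall_pos_le_add
  intro ε hε
  obtain ⟨δ, hδ, hb⟩ := bump_small unitVec (fun i => (norm_unitVec i).le) (rMul (SZ.map toQ)) hS hinj
    (ε := ε / (4 * (M + 1))) (by positivity)
  have t1 := tendsto_traceVal N hanti hinf (SZ.map toQ) hS hSi (bump_continuous δ)
  have t2 := tendsto_traceVal N hanti hinf (SZ.map toQ) hS hSi (gm_continuous M)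
  have e1 : ∀ᶠ i in Filter.atTop, traceVal unitVec (rMul (mq (N i) (SZ.map toQ))) (bump δ)
      < ε / (2 * (M + 1)) := by
    apply t1.eventually_lt_const
    have : ε / (4 * (M + 1)) < ε / (2 * (M + 1)) := by
      apply div_lt_div_of_pos_left hε (by positivity)
      nlinarith
    linarith
  have e2 : ∀ᶠ i in Filter.atTop, traceVal unitVec (rMul (mq (N i) (SZ.map toQ))) (gm M)
      ≤ 2 * r * Real.log (KK SZ) + ε := by
    filter_upwards [e1] with i hi
    obtain ⟨q, lam, hq, h1, h2, h3, h4, _⟩ := package_i N SZ hSi i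
    rw [h4] at hi
    rw [h4]
    have hq' : (0 : ℝ) < q := by exact_mod_cast hq
    have k1 := sum_gm_le lam h1 (one_le_KK SZ) h2 h3 (M := M)
    have k2 := tau_i_le lam _ (gm M) k1
    have k3 := zero_le_sum_bump lam δ
    rw [← Finset.mul_sum, one_div, inv_mul_eq_div] at hi
    have k4 : ((Finset.univ.filter fun k => lam k = 0).card : ℝ) / q < ε / (2 * (M + 1)) :=
      lt_of_le_of_lt (div_le_div_of_nonneg_right k3 hq'.le) hi
    refine k2.trans ?_
    have k5 : (M * ((Finset.univ.filter fun k => lam k = 0).card : ℝ)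
        + 2 * ((r * q : ℕ) : ℝ) * Real.log (KK SZ)) / q
        = M * (((Finset.univ.filter fun k => lam k = 0).card : ℝ) / q)
          + 2 * r * Real.log (KK SZ) := by
      push_cast
      field_simp
    rw [k5]
    have k6 : M * (((Finset.univ.filter fun k => lam k = 0).card : ℝ) / q)
        ≤ M * (ε / (2 * (M + 1))) := mul_le_mul_of_nonneg_left k4.le hM
    have k7 : M * (ε / (2 * (M + 1))) ≤ ε := by
      rw [mul_div_assoc', div_le_iff₀ (by positivity)]
      nlinarith
    linarith
  exact le_of_tendsto t2 e2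

include hanti hinf hS hSi in
theorem traceVal_bump_le (hinj : ∀ i, ∀ v, rMul (mq (N i) (SZ.map toQ)) v = 0 → v = 0)
    {δ : ℝ} (hδ : 0 < δ) (hδ1 : δ < 1) :
    traceVal unitVec (rMul (SZ.map toQ)) (bump δ) ≤ r * Real.log (KK SZ) / Real.log (1 / δ) := by
  have t1 := tendsto_traceVal N hanti hinf (SZ.map toQ) hS hSi (bump_continuous δ)
  refine le_of_tendsto' t1 (fun i => ?_)
  obtain ⟨q, lam, hq, h1, h2, h3, h4, h5⟩ := package_i N SZ hSi i
  have hlog : 0 < Real.log (1 / δ) := by
    apply Real.log_pos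
    rw [lt_div_iff₀ hδ]
    linarith
  have hne := h5 (hinj i)
  rw [h4]
  have hq' : (0 : ℝ) < q := by exact_mod_cast hq
  have k1 := sum_bump_le lam hδ
  have k0 : ((Finset.univ.filter fun k => lam k = 0).card : ℝ) = 0 := by
    have : (Finset.univ.filter fun k => lam k = 0) = ∅ := by
      apply Finset.filter_eq_empty_iff.mpr
      intro k _
      exact hne k
    rw [this]
    simp
  rw [k0, zero_add] at k1
  have k2 := count_bound lam h1 (one_le_KK SZ) h2 h3 (δ := δ)
  have k3 : ((Finset.univ.filter fun k => lam k ≠ 0 ∧ lam k < δ).card : ℝ)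
      ≤ ((r * q : ℕ) : ℝ) * Real.log (KK SZ) / Real.log (1 / δ) := by
    rw [le_div_iff₀ hlog]
    exact k2
  refine (tau_i_le lam _ (bump δ) (k1.trans k3)).trans (le_of_eq ?_)
  push_cast
  field_simp

omit [NeZero r] in
/-- left translation of a vector -/
theorem exists_translate (w : L2Pow G r) (g : G) :
    ∃ w' : L2Pow G r, ∀ j h, coord w' j h = coord w j (g * h) := by
  have h3 : Function.Injective (fun p : Fin r × G => ((p.1, g * p.2) : Fin r × G)) := by
    rintro ⟨i, a⟩ ⟨j, b⟩ hab
    simpa using hab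
  have h1 := (coord_summable w).comp_injective h3
  have h2 : Memℓp (fun p : Fin r × G => coord w p.1 (g * p.2)) 2 := memℓp_gen h1
  exact ⟨(⟨_, h2⟩ : lp (fun _ : Fin r × G => ℂ) 2), fun j h => rfl⟩

include hanti hinf hS hSi in
/-- If all quotient operators are injective then so is the limit operator. -/
theorem injective_of_quotients
    (hinj : ∀ i, ∀ v, rMul (mq (N i) (SZ.map toQ)) v = 0 → v = 0) :
    ∀ v, rMul (SZ.map toQ) v = 0 → v = 0 := by
  intro w hw
  apply coord_ext
  intro j g
  rw [coord_zero]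
  obtain ⟨w', hw'⟩ := exists_translate w g
  have h1 : rMul (SZ.map toQ) w' = 0 := by
    apply coord_ext
    intro k h
    rw [coord_zero, rMul_apply]
    have := congrArg (fun x => coord x k (g * h)) hw
    simp only [coord_zero, rMul_apply] at this
    rw [← this]
    simp only [hw', mul_assoc]
  have h2 : ⟪(unitVec j : L2Pow G r), w'⟫_ℂ = coord w j g := by
    rw [inner_unitVec, hw', mul_one]
  have key : ∀ δ : ℝ, 0 < δ → δ < 1 → ‖coord w j g‖ ^ 2
      ≤ r * Real.log (KK SZ) / Real.log (1 / δ) * ‖w'‖ ^ 2 := by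
    intro δ hδ hδ1
    rw [← h2]
    refine (inner_ker_le unitVec (rMul (SZ.map toQ)) hS δ w' h1 j).trans ?_
    exact mul_le_mul_of_nonneg_right (traceVal_bump_le N hanti hinf SZ hS hSi hinj hδ hδ1)
      (by positivity)
  have h3 : ‖coord w j g‖ ^ 2 ≤ 0 := by
    have hlim : Filter.Tendsto (fun n : ℕ => r * Real.log (KK SZ) / ((n : ℝ) + 1) * ‖w'‖ ^ 2)
        Filter.atTop (𝓝 (0 * ‖w'‖ ^ 2)) := by
      apply Filter.Tendsto.mul_const
      apply Filter.Tendsto.div_atTop tendsto_const_nhds
      exact Filter.tendsto_atTop_add_const_right _ _ tendsto_natCast_atTop_atTop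
    rw [zero_mul] at hlim
    refine ge_of_tendsto' hlim (fun n => ?_)
    have := key (Real.exp (-((n : ℝ) + 1))) (Real.exp_pos _)
      (by rw [Real.exp_lt_one_iff]; have : (0:ℝ) ≤ n := Nat.cast_nonneg n; linarith)
    rwa [one_div, ← Real.exp_neg, neg_neg, Real.log_exp] at this
  have h4 : ‖coord w j g‖ = 0 := by
    have := norm_nonneg (coord w j g)
    nlinarith [sq_nonneg ‖coord w j g‖]
  exact norm_eq_zero.mp h4

end groups

section det
variable {H : Type} [NormedAddCommGroup H] [InnerProductSpace ℂ H] [CompleteSpace H] {r : ℕ}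

/-- a continuous cutoff function -/
def cut (n : ℕ) (x : ℝ) : ℝ := max 0 (min 1 (n + 1 - |x|))

theorem cut_continuous (n : ℕ) : Continuous (cut n) := by
  unfold cut
  fun_prop

theorem cut_nonneg (n : ℕ) (x : ℝ) : 0 ≤ cut n x := le_max_left _ _

theorem cut_eq_one {n : ℕ} {x : ℝ} (h : |x| ≤ n) : cut n x = 1 := by
  unfold cut
  rw [min_eq_left (by linarith), max_eq_right zero_le_one]

theorem cut_eq_zero {n : ℕ} {x : ℝ} (h : (n : ℝ) + 1 ≤ |x|) : cut n x = 0 := by
  unfold cut
  rw [max_eq_left]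
  exact (min_le_right _ _).trans (by linarith)

/-- the compactly supported function `gm n · cut n` -/
def gc (n : ℕ) : C_c(ℝ, ℝ) where
  toFun x := gm n x * cut n x
  continuous_toFun := (gm_continuous n).mul (cut_continuous n)
  hasCompactSupport' := by
    apply HasCompactSupport.intro (isCompact_Icc (a := -((n : ℝ) + 1)) (b := (n : ℝ) + 1))
    intro x hx
    have : (n : ℝ) + 1 ≤ |x| := by
      by_contra hcon
      push Not at hcon
      rw [abs_lt] at hcon
      exact hx ⟨hcon.1.le, hcon.2.le⟩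
    rw [cut_eq_zero this, mul_zero]

theorem gc_apply (n : ℕ) (x : ℝ) : gc n x = gm n x * cut n x := rfl

/-- If the truncated logarithms have bounded traces then the logarithm is integrable. -/
theorem log_integrable (e : Fin r → H) (T : H →L[ℂ] H) (hT : 0 ≤ T) {C : ℝ}
    (hC : ∀ n : ℕ, traceVal e T (gm n) ≤ C) :
    IntegrableOn Real.log (Set.Ioi 0) (spectralMeasure e T) := by
  set μ := spectralMeasure e T with hμ
  have hreg : Measure.Regular μ := by
    rw [hμ]
    unfold spectralMeasure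
    infer_instance
  obtain ⟨K, hK⟩ := exists_nat_ge ‖T‖
  have h1 : ∀ n : ℕ, K ≤ n → ∫ x, gc n x ∂μ ≤ C := by
    intro n hn
    rw [hμ, integral_spectralMeasure]
    have h2 : traceVal e T (gc n) = traceVal e T (gm n) := by
      apply traceVal_congr e T hT hK
      intro x hx
      rw [gc_apply, cut_eq_one, mul_one]
      rw [abs_of_nonneg hx.1]
      exact hx.2.trans (by exact_mod_cast hn)
    exact h2.le.trans (hC n)
  have h3 : ∀ n : ℕ, K ≤ n → ∫⁻ x in Set.Ioi 0, ENNReal.ofReal (gc n x) ∂μ ≤ ENNReal.ofReal C := by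
    intro n hn
    have hnn : ∀ x, 0 ≤ gc n x := fun x => by
      rw [gc_apply]
      exact mul_nonneg (gm_nonneg (Nat.cast_nonneg n) x) (cut_nonneg n x)
    have hint : Integrable (gc n) μ := (gc n).continuous.integrable_of_hasCompactSupport
      (gc n).hasCompactSupport
    calc ∫⁻ x in Set.Ioi 0, ENNReal.ofReal (gc n x) ∂μ ≤ ∫⁻ x, ENNReal.ofReal (gc n x) ∂μ :=
          setLIntegral_le_lintegral _ _
      _ = ENNReal.ofReal (∫ x, gc n x ∂μ) :=
          (ofReal_integral_eq_lintegral_ofReal hint (Filter.Eventually.of_forall hnn)).symm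
      _ ≤ ENNReal.ofReal C := ENNReal.ofReal_le_ofReal (h1 n hn)
  have h4 : ∫⁻ x in Set.Ioi 0, ‖Real.log x‖ₑ ∂μ ≤ ENNReal.ofReal C := by
    calc ∫⁻ x in Set.Ioi 0, ‖Real.log x‖ₑ ∂μ
        ≤ ∫⁻ x in Set.Ioi 0, Filter.liminf (fun n => ENNReal.ofReal (gc n x)) Filter.atTop ∂μ := by
          apply setLIntegral_mono' measurableSet_Ioi
          intro x hx
          have hx' : 0 < x := hx
          apply le_of_eq
          symm
          apply Filter.Tendsto.liminf_eq
          apply tendsto_const_nhds.congr'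
          obtain ⟨m, hm⟩ := exists_nat_ge (max |x| |Real.log x|)
          filter_upwards [Filter.eventually_ge_atTop m] with n hn
          have hn' : (m : ℝ) ≤ n := by exact_mod_cast hn
          rw [gc_apply, gm_eq hx' ((le_max_right _ _).trans (hm.trans hn')),
            cut_eq_one ((le_max_left _ _).trans (hm.trans hn')), mul_one,
            ← ofReal_norm, Real.norm_eq_abs]
      _ ≤ Filter.liminf (fun n => ∫⁻ x in Set.Ioi 0, ENNReal.ofReal (gc n x) ∂μ) Filter.atTop := by
          apply lintegral_liminf_le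
          intro n
          exact ((gc n).continuous.measurable).ennreal_ofReal
      _ ≤ ENNReal.ofReal C := by
          apply Filter.liminf_le_of_frequently_le'
          apply Filter.Eventually.frequently
          filter_upwards [Filter.eventually_ge_atTop K] with n hn
          exact h3 n hn
  refine ⟨Real.measurable_log.aestronglyMeasurable, ?_⟩
  exact lt_of_le_of_lt h4 ENNReal.ofReal_lt_top

end det

section main
variable {G : Type} [Group G] {r s : ℕ}

/-- the adjoint over the integral group ring -/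
def adjZ (A : Matrix (Fin r) (Fin s) (MonoidAlgebra ℤ G)) :
    Matrix (Fin s) (Fin r) (MonoidAlgebra ℤ G) :=
  A.transpose.map (MonoidAlgebra.mapDomain fun g => g⁻¹)

theorem toQ_mul {t : ℕ} (A : Matrix (Fin r) (Fin s) (MonoidAlgebra ℤ G))
    (B : Matrix (Fin s) (Fin t) (MonoidAlgebra ℤ G)) :
    (A * B).map toQ = A.map toQ * B.map toQ := by
  have : (toQ : MonoidAlgebra ℤ G → MonoidAlgebra ℚ G)
    = MonoidAlgebra.mapRingHom G (Int.castRingHom ℚ) := rfl
  rw [this, Matrix.map_mul]

theorem toQ_adjZ (A : Matrix (Fin r) (Fin s) (MonoidAlgebra ℤ G)) :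
    (adjZ A).map toQ = adjQ (A.map toQ) := by
  ext1 i j
  simp only [adjZ, adjQ, Matrix.map_apply, Matrix.transpose_apply, invol]
  apply MonoidAlgebra.coeff_injective
  ext g
  rw [toQ_coeff]
  have e1 : (MonoidAlgebra.mapDomain (fun g : G => g⁻¹) (A j i)).coeff g = (A j i).coeff g⁻¹ := by
    have := Finsupp.mapDomain_apply (f := fun g : G => g⁻¹) inv_injective (A j i).coeff g⁻¹
    rw [inv_inv] at this
    rw [← this]
    simp [MonoidAlgebra.mapDomain]
  have e2 : (MonoidAlgebra.mapDomain (fun g : G => g⁻¹) (toQ (A j i))).coeff g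
      = (toQ (A j i)).coeff g⁻¹ := by
    have := Finsupp.mapDomain_apply (f := fun g : G => g⁻¹) inv_injective (toQ (A j i)).coeff g⁻¹
    rw [inv_inv] at this
    rw [← this]
    simp [MonoidAlgebra.mapDomain]
  rw [e1, e2, toQ_coeff]

theorem adjoint_comp_rMul (A : Matrix (Fin r) (Fin s) (MonoidAlgebra ℚ G)) :
    (ContinuousLinearMap.adjoint (rMul A)) ∘L (rMul A) = rMul (A * adjQ A) := by
  rw [rMul_mul, adjoint_rMul]

theorem adjoint_comp_nonneg {H K : Type} [NormedAddCommGroup H] [InnerProductSpace ℂ H]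
    [CompleteSpace H] [NormedAddCommGroup K] [InnerProductSpace ℂ K] [CompleteSpace K]
    (f : H →L[ℂ] K) : 0 ≤ (ContinuousLinearMap.adjoint f) ∘L f := by
  rw [ContinuousLinearMap.nonneg_iff_isPositive]
  exact ContinuousLinearMap.isPositive_adjoint_comp_self f

theorem rMul_self_nonneg (A : Matrix (Fin r) (Fin s) (MonoidAlgebra ℚ G)) :
    0 ≤ rMul (A * adjQ A) := by
  rw [← adjoint_comp_rMul]
  exact adjoint_comp_nonneg _

theorem ker_adjoint_comp {H K : Type} [NormedAddCommGroup H] [InnerProductSpace ℂ H]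
    [CompleteSpace H] [NormedAddCommGroup K] [InnerProductSpace ℂ K] [CompleteSpace K]
    (f : H →L[ℂ] K) (v : H) (h : ((ContinuousLinearMap.adjoint f) ∘L f) v = 0) : f v = 0 := by
  have h1 : ⟪f v, f v⟫_ℂ = 0 := by
    rw [← ContinuousLinearMap.adjoint_inner_right]
    rw [ContinuousLinearMap.comp_apply] at h
    rw [h, inner_zero_right]
  exact inner_self_eq_zero.mp h1

variable [NeZero r] (N : ℕ → Subgroup G) [∀ i, (N i).Normal]
  [∀ i, Finite (G ⧸ N i)] (hanti : Antitone N) (hinf : ⨅ i, N i = ⊥)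

include hanti hinf in
/-- Over a residually finite group, injective integer matrices have positive Fuglede-Kadison
determinant. -/
theorem fkDet_pos (A : Matrix (Fin r) (Fin s) (MonoidAlgebra ℤ G))
    (hinj : ∀ v, rMul (A.map toQ) v = 0 → v = 0) : 0 < fkDet (rMul (A.map toQ)) := by
  have e1 : (A.map toQ) * adjQ (A.map toQ) = (A * adjZ A).map toQ := by
    rw [toQ_mul, toQ_adjZ]
  have hS : 0 ≤ rMul ((A * adjZ A).map toQ) := by
    rw [← e1]; exact rMul_self_nonneg _
  have hSi : ∀ i, 0 ≤ rMul (mq (N i) ((A * adjZ A).map toQ)) := by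
    intro i
    rw [← e1, mq_mul, mq_adjQ]
    exact rMul_self_nonneg _
  have hinj' : ∀ v, rMul ((A * adjZ A).map toQ) v = 0 → v = 0 := by
    intro v hv
    rw [← e1, ← adjoint_comp_rMul] at hv
    exact hinj v (ker_adjoint_comp _ v hv)
  have h1 : IntegrableOn Real.log (Set.Ioi 0) (specMeas unitVec (rMul (A.map toQ))) := by
    unfold specMeas
    rw [adjoint_comp_rMul, e1]
    exact log_integrable unitVec _ hS (fun n =>
      traceVal_gm_le N hanti hinf (A * adjZ A) hS hSi hinj' (Nat.cast_nonneg n))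
  unfold fkDet detOf
  rw [if_pos h1]
  exact Real.exp_pos _

include hanti hinf in
/-- If the images of an integer matrix over all the quotients are injective then so is the
matrix. -/
theorem injective_of_finite_level (A : Matrix (Fin r) (Fin s) (MonoidAlgebra ℤ G))
    (hinj : ∀ i, ∀ v, rMul (mq (N i) (A.map toQ)) v = 0 → v = 0) :
    ∀ v, rMul (A.map toQ) v = 0 → v = 0 := by
  have e1 : (A.map toQ) * adjQ (A.map toQ) = (A * adjZ A).map toQ := by
    rw [toQ_mul, toQ_adjZ]
  have hS : 0 ≤ rMul ((A * adjZ A).map toQ) := by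
    rw [← e1]; exact rMul_self_nonneg _
  have hSi : ∀ i, 0 ≤ rMul (mq (N i) ((A * adjZ A).map toQ)) := by
    intro i
    rw [← e1, mq_mul, mq_adjQ]
    exact rMul_self_nonneg _
  have h := injective_of_quotients N hanti hinf (A * adjZ A) hS hSi (by
    intro i v hv
    rw [← e1, mq_mul, mq_adjQ, ← adjoint_comp_rMul] at hv
    exact hinj i v (ker_adjoint_comp _ v hv))
  intro v hv
  apply h
  rw [← e1, rMul_mul, ContinuousLinearMap.comp_apply, hv, map_zero]

end main

end Pool.Agent.Helper993.FK
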