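import Pool.Agent.H7.L.W907_SG_Defs
import Pool.Agent.H7.L.W461_SG_NIL

/-!
# Project CV: `L²`-Betti numbers of arbitrary covers of Davis manifolds. Definitions.

`W G` acts on functions `W G → R` from the right, `(f · x) w = f (w x)`. Chains are families `c T : W G → R`, `T` a
clique, with `c T (w t) = - c T w` for `t ∈ T`.
-/

set_option autoImplicit false

noncomputable section

namespace Pool.Agent.N496.CV

open Pool.Agent.W907.SG Pool.Agent.W461.SGN

section defs

variable {V : Type} [Fintype V] [LinearOrder V] (G : SimpleGraph V)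

/-- the boundary of a chain of functions on `W G` -/
def bdf {R : Type} [AddCommGroup R] (c : Finset V → W G → R) (T : Finset V) (w : W G) : R :=
  ∑ v ∈ Tᶜ, sg v T • c (insert v T) w

/-- the `i`-chains on the vertex set `C` with coefficients in a class `M` of functions on `W G` -/
structure IsCh {R : Type} [AddCommGroup R] (C : Set V) (M : (W G → R) → Prop) (i : ℕ) (c : Finset V → W G → R) :
    Prop where
  supp : ∀ T : Finset V, ¬ (G.IsClique (T : Set V) ∧ (T : Set V) ⊆ C ∧ T.card = i) → c T = 0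
  mem : ∀ T, M (c T)
  anti : ∀ T, ∀ t ∈ T, ∀ w, c T (w * (cox G).simple t) = - c T w

/-- the `i`-th homology vanishes -/
def Hv {R : Type} [AddCommGroup R] (C : Set V) (M : (W G → R) → Prop) (i : ℕ) : Prop :=
  ∀ c, IsCh G C M i c → bdf G c = 0 → ∃ e, IsCh G C M (i + 1) e ∧ bdf G e = c

variable {G}

/-- The coefficients: functions on `W G` supported on `Y`, multiplied by the sign `p.2` under the right translation by
`p.1` for `p ∈ E`, by `u h⁻¹` (on the right) under the left translation by `h ∈ K`, with finite support modulo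
`K` and `E`. -/
structure InM {R : Type} [Ring R] (K : Subgroup (W G)) (u : K →* R) (Y : Set (W G)) (E : Subgroup (W G × ℤˣ))
    (f : W G → R) : Prop where
  supp : ∀ w, f w ≠ 0 → w ∈ Y
  eqE : ∀ p ∈ E, ∀ w, f (w * p.1) = ((p.2 : ℤˣ) : ℤ) • f w
  eqK : ∀ (h : K) w, f (h * w) = f w * u h⁻¹
  fin : ∃ S : Finset (W G), ∀ w, f w ≠ 0 → ∃ h : K, ∃ x ∈ S, ∃ p ∈ E, w = h * x * p.1

/-- admissible pairs `(Y, E)` for the vertex set `L` -/
structure Good (K : Subgroup (W G)) (L : Set V) (Y : Set (W G)) (E : Subgroup (W G × ℤˣ)) : Prop where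
  comm : ∃ Q : Set V, (∀ p ∈ E, p.1 ∈ Subgroup.closure ((cox G).simple '' Q)) ∧ ∀ q ∈ Q, ∀ v ∈ L, G.Adj q v
  YK : ∀ h ∈ K, ∀ w ∈ Y, h * w ∈ Y
  YE : ∀ p ∈ E, ∀ w ∈ Y, w * p.1 ∈ Y
  YL : ∀ v ∈ L, ∀ w ∈ Y, w * (cox G).simple v ∈ Y
  free : ∀ w ∈ Y, ∀ p ∈ E, w * p.1 * w⁻¹ ∈ K → p = 1

/-- the conditions on the group `K` and the ring `R` -/
structure Rg {R : Type} [Ring R] (K : Subgroup (W G)) (u : K →* R) : Prop where
  tf : ∀ (k : K) (n : ℕ), 0 < n → k ^ n = 1 → k = 1
  two : IsUnit (2 : R)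
  inv : ∀ h : K, h ≠ 1 → IsUnit (1 - u h)

/-- add a vertex which acts by the sign `e` -/
def addv (E : Subgroup (W G × ℤˣ)) (v : V) (e : ℤˣ) : Subgroup (W G × ℤˣ) :=
  E ⊔ Subgroup.closure {((cox G).simple v, e)}

/-- add the infinite dihedral group generated by `s` and `t` -/
def addD (E : Subgroup (W G × ℤˣ)) (s t : V) : Subgroup (W G × ℤˣ) :=
  E ⊔ Subgroup.closure {((cox G).simple s, 1), ((cox G).simple t, 1)}

/-- the elements of `Y` at which the new group acts freely modulo `K` -/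
def fr (K : Subgroup (W G)) (Y : Set (W G)) (E : Subgroup (W G × ℤˣ)) : Set (W G) :=
  {w | w ∈ Y ∧ ∀ p ∈ E, w * p.1 * w⁻¹ ∈ K → p = 1}

end defs

/-! ### The leaves -/

/-- special subgroups with disjoint sets of generators intersect trivially, and the group of a full subgraph embeds -/
def SPEC : Prop := ∀ (V : Type) (G : SimpleGraph V),
    (∀ (Q C : Set V), Disjoint Q C → ∀ g : W G, g ∈ Subgroup.closure ((cox G).simple '' Q) →
      g ∈ Subgroup.closure ((cox G).simple '' C) → g = 1) ∧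
    (∀ C : Set V, ∃ f : W (G.induce C) →* W G, Function.Injective f ∧ (∀ v : C, f ((cox (G.induce C)).simple v) =
      (cox G).simple v.1)) ∧
    (∀ s t : V, s ≠ t → ¬ G.Adj s t → ∀ n : ℕ, 0 < n → ((cox G).simple s * (cox G).simple t) ^ n ≠ 1)

/-- the kernel of `W → (ℤ/2)^V` is torsion free -/
def TF : Prop := ∀ (V : Type) [Finite V] (G : SimpleGraph V), ∀ g ∈ (th G).ker, ∀ n : ℕ, 0 < n → g ^ n = 1 → g = 1

/-- adding a commuting vertex -/
def GDV : Prop := ∀ (V : Type) [Fintype V] [LinearOrder V] (G : SimpleGraph V) (K : Subgroup (W G)) (L L' : Set V)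
    (Y : Set (W G)) (E : Subgroup (W G × ℤˣ)) (v : V) (e : ℤˣ), (∀ (k : K) (n : ℕ), 0 < n → k ^ n = 1 → k = 1) →
    Good K L Y E → v ∈ L → L' ⊆ L → (∀ x ∈ L', G.Adj v x) → Good K L' Y (addv E v e)

/-- adding a commuting infinite dihedral group -/
def GDD : Prop := ∀ (V : Type) [Fintype V] [LinearOrder V] (G : SimpleGraph V) (K : Subgroup (W G)) (L L' : Set V)
    (Y : Set (W G)) (E : Subgroup (W G × ℤˣ)) (s t : V), Good K L Y E → s ∈ L → t ∈ L → L' ⊆ L →
    (∀ x ∈ L', G.Adj s x ∧ G.Adj t x) → Good K L' (fr K Y (addD E s t)) (addD E s t)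

/-- no function is antiinvariant under `s` and under `t` -/
def INJ : Prop := ∀ (V : Type) [Fintype V] [LinearOrder V] (G : SimpleGraph V) (K : Subgroup (W G)) (R : Type)
    [Ring R] (u : K →* R) (L : Set V) (Y : Set (W G)) (E : Subgroup (W G × ℤˣ)) (s t : V) (f : W G → R),
    Rg K u → Good K L Y E → s ∈ L → t ∈ L → s ≠ t → ¬ G.Adj s t → InM K u Y E f →
    (∀ w, f (w * (cox G).simple s) = - f w) → (∀ w, f (w * (cox G).simple t) = - f w) → f = 0

/-- the part with finite orbits: every function vanishing on the free part is `g - g(· s t)` -/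
def FINP : Prop := ∀ (V : Type) [Fintype V] [LinearOrder V] (G : SimpleGraph V) (K : Subgroup (W G)) (R : Type)
    [Ring R] (u : K →* R) (L : Set V) (Y : Set (W G)) (E : Subgroup (W G × ℤˣ)) (s t : V) (f : W G → R),
    Rg K u → Good K L Y E → s ∈ L → t ∈ L → s ≠ t → ¬ G.Adj s t → InM K u Y E f →
    (∀ w ∈ fr K Y (addD E s t), f w = 0) →
    ∃ g, InM K u Y E g ∧ ∀ w, f w = g w - g (w * ((cox G).simple s * (cox G).simple t))

/-- The sum over the cosets of the infinite dihedral group, on the free part: an additive surjective map `Φ` which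
kills the antiinvariants, commutes with the right translation by commuting elements, and whose kernel (on the free
part) is generated by the antiinvariants. -/
def FREEP : Prop := ∀ (V : Type) [Fintype V] [LinearOrder V] (G : SimpleGraph V) (K : Subgroup (W G)) (R : Type)
    [Ring R] (u : K →* R) (L : Set V) (Y : Set (W G)) (E : Subgroup (W G × ℤˣ)) (s t : V),
    Rg K u → Good K L Y E → s ∈ L → t ∈ L → s ≠ t → ¬ G.Adj s t →
    ∃ Φ : (W G → R) → (W G → R),
      (∀ f, InM K u Y E f → InM K u (fr K Y (addD E s t)) (addD E s t) (Φ f)) ∧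
      (∀ f g, InM K u Y E f → InM K u Y E g → Φ (f + g) = Φ f + Φ g) ∧
      (∀ f, InM K u Y E f → Φ (-f) = - Φ f) ∧ Φ 0 = 0 ∧
      (∀ f, InM K u Y E f → ∀ v ∈ L, G.Adj s v → G.Adj t v →
        ∀ w, Φ (fun x => f (x * (cox G).simple v)) w = Φ f (w * (cox G).simple v)) ∧
      (∀ f, InM K u Y E f → ((∀ w, f (w * (cox G).simple s) = - f w) ∨ (∀ w, f (w * (cox G).simple t) = - f w)) →
        Φ f = 0) ∧
      (∀ g, InM K u (fr K Y (addD E s t)) (addD E s t) g → ∃ f, InM K u Y E f ∧ Φ f = g) ∧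
      (∀ f, InM K u Y E f → Φ f = 0 → (∀ w, w ∉ fr K Y (addD E s t) → f w = 0) →
        ∃ p q, InM K u Y E p ∧ InM K u Y E q ∧ f = p + q ∧ (∀ w, p (w * (cox G).simple s) = - p w) ∧
          (∀ w, q (w * (cox G).simple t) = - q w))

/-- suspensions -/
def SUS : Prop := ∀ (V : Type) [Fintype V] [LinearOrder V] (G : SimpleGraph V) (K : Subgroup (W G)) (R : Type)
    [Ring R] (u : K →* R) (L C : Set V) (Y : Set (W G)) (E : Subgroup (W G × ℤˣ)) (s t : V) (i : ℕ),
    Rg K u → Good K L Y E → s ∈ L → t ∈ L → s ≠ t → ¬ G.Adj s t → C ⊆ L → (∀ x ∈ C, G.Adj s x ∧ G.Adj t x) →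
    Hv G C (InM K u (fr K Y (addD E s t)) (addD E s t)) i → Hv G (insert s (insert t C)) (InM K u Y E) i

/-- cones -/
def CON : Prop := ∀ (V : Type) [Fintype V] [LinearOrder V] (G : SimpleGraph V) (K : Subgroup (W G)) (R : Type)
    [Ring R] (u : K →* R) (L C : Set V) (Y : Set (W G)) (E : Subgroup (W G × ℤˣ)) (s : V) (i : ℕ),
    Rg K u → Good K L Y E → s ∈ L → C ⊆ L → (∀ x ∈ C, G.Adj s x) →
    Hv G C (InM K u Y (addv E s 1)) i → Hv G (insert s C) (InM K u Y E) i

/-- adding a vertex -/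
def LNK : Prop := ∀ (V : Type) [Fintype V] [LinearOrder V] (G : SimpleGraph V) (K : Subgroup (W G)) (R : Type)
    [Ring R] (u : K →* R) (L C : Set V) (Y : Set (W G)) (E : Subgroup (W G × ℤˣ)) (v : V) (i : ℕ),
    Rg K u → Good K L Y E → v ∈ L → C ⊆ L → v ∉ C →
    Hv G C (InM K u Y E) (i + 1) → Hv G (C ∩ G.neighborSet v) (InM K u Y (addv E v (-1))) i →
    Hv G (insert v C) (InM K u Y E) (i + 1)

/-- the length function of a right-angled Coxeter group -/
def LEN : Prop := ∀ (V : Type) (G : SimpleGraph V), ∃ l : W G → ℕ, l 1 = 0 ∧ (∀ w, l w = 0 → w = 1) ∧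
    (∀ w t, l (w * (cox G).simple t) = l w + 1 ∨ l (w * (cox G).simple t) + 1 = l w) ∧
    (∀ w, w ≠ 1 → ∃ t, l (w * (cox G).simple t) + 1 = l w) ∧
    (∀ w s t, s ≠ t → l (w * (cox G).simple s) + 1 = l w → l (w * (cox G).simple t) + 1 = l w →
      G.Adj s t ∧ l (w * (cox G).simple s * (cox G).simple t) + 1 = l (w * (cox G).simple s))

/-- the Davis complex is acyclic -/
def DAC : Prop := ∀ (V : Type) [Fintype V] [LinearOrder V] (G : SimpleGraph V) (i : ℕ) (c : Finset V → W G → ℤ),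
    IsCh G Set.univ (fun f => (Function.support f).Finite) i c → bdf G c = 0 →
    (i = 0 → ∑ᶠ w, c ∅ w = 0) →
    ∃ e, IsCh G Set.univ (fun f => (Function.support f).Finite) (i + 1) e ∧ bdf G e = c

end Pool.Agent.N496.CV
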