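import Mathlib

/-!
# Project LT (helper496): the square of the boundary of a tensor product (helper403)
-/

set_option autoImplicit false

namespace Pool.Agent.N496.LT

/-- the square of the boundary of a tensor product is zero, for commuting coefficients -/
theorem prod_sq_gen {R₁ R₂ R I J : Type} [Ring R₁] [Ring R₂] [Ring R] [Fintype I] [DecidableEq I]
    [Fintype J] [DecidableEq J] (φ : R₁ →+* R) (ψ : R₂ →+* R) (hc : ∀ a b, φ a * ψ b = ψ b * φ a)
    (A : Matrix I I R₁) (B : Matrix J J R₂) (deg : I → ℕ)
    (hA : ∀ i j, A i j ≠ 0 → deg i = deg j + 1) (hAA : A * A = 0) (hBB : B * B = 0) :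
    (Matrix.of fun x y : I × J =>
      (if x.2 = y.2 then φ (A x.1 y.1) else 0) +
      (if x.1 = y.1 then (-1) ^ deg x.1 * ψ (B x.2 y.2) else 0)) *
    (Matrix.of fun x y : I × J =>
      (if x.2 = y.2 then φ (A x.1 y.1) else 0) +
      (if x.1 = y.1 then (-1) ^ deg x.1 * ψ (B x.2 y.2) else 0)) = 0 := by
  ext ⟨i, j⟩ ⟨i', j'⟩
  rw [Matrix.mul_apply, Matrix.zero_apply, Fintype.sum_prod_type]
  simp only [Matrix.of_apply]
  have e : ∀ (k : I) (l : J),
      ((if j = l then φ (A i k) else 0) + (if i = k then (-1) ^ deg i * ψ (B j l) else 0)) *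
      ((if l = j' then φ (A k i') else 0) + (if k = i' then (-1) ^ deg k * ψ (B l j') else 0)) =
      (if l = j then (if j = j' then φ (A i k * A k i') else 0) else 0) +
      (if k = i' then (if l = j then φ (A i i') * ((-1) ^ deg i' * ψ (B j j')) else 0) else 0) +
      (if k = i then (if l = j' then ((-1) ^ deg i * ψ (B j j')) * φ (A i i') else 0) else 0) +
      (if k = i then (if i = i' then ((-1) ^ deg i * (-1) ^ deg i) * ψ (B j l * B l j') else 0)
        else 0) := by
    intro k l
    have hcs : ∀ (n : ℕ) (r : R), r * (-1) ^ n = (-1) ^ n * r := fun n r =>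
      ((Commute.neg_one_left r).pow_left n).symm.eq
    rw [add_mul, mul_add, mul_add, ← add_assoc]
    refine congrArg₂ (· + ·) (congrArg₂ (· + ·) (congrArg₂ (· + ·) ?_ ?_) ?_) ?_
    · by_cases h1 : l = j
      · subst h1
        by_cases h2 : l = j' <;> simp [h2]
      · simp [h1, Ne.symm h1]
    · by_cases h1 : l = j
      · subst h1
        by_cases h2 : k = i'
        · subst h2
          simp
        · simp [h2]
      · simp [h1, Ne.symm h1]
    · by_cases h1 : k = i
      · subst h1
        by_cases h2 : l = j'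
        · subst h2
          simp
        · simp [h2]
      · simp [h1, Ne.symm h1]
    · by_cases h1 : k = i
      · subst h1
        by_cases h2 : k = i'
        · subst h2
          simp only [if_true]
          rw [map_mul, ← mul_assoc, mul_assoc _ _ ((-1) ^ deg k), hcs, ← mul_assoc, mul_assoc,
            mul_assoc]
        · simp [h2]
      · simp [h1, Ne.symm h1]
  rw [Finset.sum_congr rfl fun k _ => Finset.sum_congr rfl fun l _ => e k l]
  simp only [Finset.sum_add_distrib]
  have h1 : ∑ k : I, ∑ l : J, (if l = j then (if j = j' then φ (A i k * A k i') else 0) else 0) = 0 := by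
    simp only [Finset.sum_ite_eq', Finset.mem_univ, if_true]
    split_ifs
    · rw [← map_sum]
      have := congrFun (congrFun hAA i) i'
      rw [Matrix.mul_apply] at this
      rw [this, Matrix.zero_apply, map_zero]
    · simp
  have h4 : ∑ k : I, ∑ l : J, (if k = i then (if i = i' then ((-1) ^ deg i * (-1) ^ deg i) *
      ψ (B j l * B l j') else 0) else 0) = 0 := by
    rw [Finset.sum_comm]
    simp only [Finset.sum_ite_eq', Finset.mem_univ, if_true]
    split_ifs
    · rw [← Finset.mul_sum, ← map_sum]
      have := congrFun (congrFun hBB j) j'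
      rw [Matrix.mul_apply] at this
      rw [this, Matrix.zero_apply, map_zero, mul_zero]
    · simp
  have h2 : ∑ k : I, ∑ l : J, (if k = i' then (if l = j then φ (A i i') *
      ((-1) ^ deg i' * ψ (B j j')) else 0) else 0) = φ (A i i') * ((-1) ^ deg i' * ψ (B j j')) := by
    rw [Finset.sum_comm]
    simp
  have h3 : ∑ k : I, ∑ l : J, (if k = i then (if l = j' then ((-1) ^ deg i * ψ (B j j')) *
      φ (A i i') else 0) else 0) = ((-1) ^ deg i * ψ (B j j')) * φ (A i i') := by
    rw [Finset.sum_comm]
    simp
  rw [h1, h2, h3, h4, zero_add, add_zero]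
  by_cases h0 : A i i' = 0
  · rw [h0, map_zero, zero_mul, mul_zero, add_zero]
  · rw [hA i i' h0, pow_succ]
    have hcs : φ (A i i') * (-1) ^ deg i' = (-1) ^ deg i' * φ (A i i') :=
      ((Commute.neg_one_left (φ (A i i'))).pow_left (deg i')).symm.eq
    rw [← mul_assoc, hcs, mul_assoc, hc]
    simp [mul_assoc]

theorem comm_inl_inr {G H : Type} [Group G] [Group H] (a : MonoidAlgebra ℤ G)
    (b : MonoidAlgebra ℤ H) :
    MonoidAlgebra.mapDomainRingHom ℤ (MonoidHom.inl G H) a *
      MonoidAlgebra.mapDomainRingHom ℤ (MonoidHom.inr G H) b =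
    MonoidAlgebra.mapDomainRingHom ℤ (MonoidHom.inr G H) b *
      MonoidAlgebra.mapDomainRingHom ℤ (MonoidHom.inl G H) a := by
  induction a using MonoidAlgebra.induction_linear with
  | zero => simp
  | add f g hf hg => rw [map_add, add_mul, mul_add, hf, hg]
  | single g n =>
    induction b using MonoidAlgebra.induction_linear with
    | zero => simp
    | add f g hf hg => rw [map_add, add_mul, mul_add, hf, hg]
    | single h m =>
      simp [MonoidAlgebra.single_mul_single, mul_comm]

/-- **The square of the boundary of the product complex is zero.** -/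
theorem prod_sq {G H I J : Type} [Group G] [Group H] [Fintype I] [DecidableEq I] [Fintype J]
    [DecidableEq J] (A : Matrix I I (MonoidAlgebra ℤ G)) (B : Matrix J J (MonoidAlgebra ℤ H))
    (deg : I → ℕ) (hA : ∀ i j, A i j ≠ 0 → deg i = deg j + 1) (hAA : A * A = 0) (hBB : B * B = 0) :
    (Matrix.of fun x y : I × J =>
      (if x.2 = y.2 then MonoidAlgebra.mapDomainRingHom ℤ (MonoidHom.inl G H) (A x.1 y.1) else 0) +
      (if x.1 = y.1 then (-1) ^ deg x.1 * MonoidAlgebra.mapDomainRingHom ℤ (MonoidHom.inr G H)
        (B x.2 y.2) else 0)) *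
    (Matrix.of fun x y : I × J =>
      (if x.2 = y.2 then MonoidAlgebra.mapDomainRingHom ℤ (MonoidHom.inl G H) (A x.1 y.1) else 0) +
      (if x.1 = y.1 then (-1) ^ deg x.1 * MonoidAlgebra.mapDomainRingHom ℤ (MonoidHom.inr G H)
        (B x.2 y.2) else 0)) = 0 :=
  prod_sq_gen _ _ comm_inl_inr A B deg hA hAA hBB

end Pool.Agent.N496.LT
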