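import Pool.Agent.H7.L.W461_SG_NIL

/-!
# Project LT: the boundary of the Davis complex has square zero
-/

set_option autoImplicit false

open scoped Matrix

noncomputable section

namespace Pool.Agent.N496.LT

open Pool.Agent.W907.SG Pool.Agent.W461.SGN

section davis

variable {V : Type} [Fintype V] [LinearOrder V] (G : SimpleGraph V)

/-- The set of the vertices whose parity in `w` is odd. -/
def par (w : W G) : Finset V := Finset.univ.filter fun v => th G w v = -1

/-- The product of the generators in `A` in increasing order. -/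
def rep (A : Finset V) : W G := ((A.sort (· ≤ ·)).map (cox G).simple).prod

omit [Fintype V] [LinearOrder V] in
theorem th_list [DecidableEq V] (l : List V) (v : V) : th G ((l.map (cox G).simple).prod) v = (-1) ^ (l.count v) := by
  induction l with
  | nil => simp
  | cons u l ih =>
    rw [List.map_cons, List.prod_cons, map_mul, Pi.mul_apply, ih, th_simple, List.count_cons]
    by_cases h : v = u
    · subst h
      simp [pow_succ]
    · simp [h, Ne.symm h]

omit [Fintype V] in
theorem th_rep (A : Finset V) (v : V) : th G (rep G A) v = if v ∈ A then -1 else 1 := by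
  unfold rep
  rw [th_list]
  have hn : (A.sort (· ≤ ·)).Nodup := A.sort_nodup _
  by_cases h : v ∈ A
  · rw [if_pos h, List.count_eq_one_of_mem hn ((A.mem_sort _).2 h), pow_one]
  · rw [if_neg h, List.count_eq_zero_of_not_mem (by rw [A.mem_sort]; exact h), pow_zero]

theorem mul_rep_mem (w : W G) : w * (rep G (par G w))⁻¹ ∈ (th G).ker := by
  rw [MonoidHom.mem_ker, map_mul, map_inv, mul_inv_eq_one]
  funext v
  rw [th_rep]
  have h1 : v ∈ par G w ↔ th G w v = -1 := by simp [par]
  rcases Int.units_eq_one_or (th G w v) with h | h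
  · rw [if_neg (by rw [h1, h]; decide), h]
  · rw [if_pos (by rw [h1, h]), h]

/-- `w = gm w * rep (par w)` -/
def gm (w : W G) : (th G).ker := ⟨w * (rep G (par G w))⁻¹, mul_rep_mem G w⟩

omit [LinearOrder V] in
theorem mem_par (w : W G) (v : V) : v ∈ par G w ↔ th G w v = -1 := by simp [par]

/-- the parity of `rep A * s_t` -/
theorem par_rep_simple (A : Finset V) (t : V) (ht : t ∉ A) :
    par G (rep G A * (cox G).simple t) = insert t A := by
  ext v
  rw [mem_par, Finset.mem_insert]
  by_cases hv : v = t
  · subst hv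
    rw [th_self, th_rep, if_neg ht]
    simp
  · rw [th_other G _ _ _ hv, th_rep]
    by_cases hA : v ∈ A
    · rw [if_pos hA]
      simp [hA]
    · rw [if_neg hA]
      simp only [hv, hA, or_self, iff_false]
      decide

/-- the coset representative of the product -/
theorem gm_val (A : Finset V) (t : V) (ht : t ∉ A) :
    ((gm G (rep G A * (cox G).simple t) : (th G).ker) : W G) =
      rep G A * (cox G).simple t * (rep G (insert t A))⁻¹ := by
  show rep G A * (cox G).simple t * (rep G (par G (rep G A * (cox G).simple t)))⁻¹ = _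
  rw [par_rep_simple G A t ht]

/-- the key identity: the cocycle is symmetric for adjacent vertices -/
theorem gm_comm (A : Finset V) (t u : V) (ht : t ∉ A) (hu : u ∉ A) (h : G.Adj t u) :
    gm G (rep G A * (cox G).simple t) * gm G (rep G (insert t A) * (cox G).simple u) =
      gm G (rep G A * (cox G).simple u) * gm G (rep G (insert u A) * (cox G).simple t) := by
  have htu : t ≠ u := h.ne
  apply Subtype.ext
  rw [Subgroup.coe_mul, Subgroup.coe_mul, gm_val G A t ht, gm_val G A u hu,
    gm_val G (insert t A) u (by simp [hu, htu.symm]), gm_val G (insert u A) t (by simp [ht, htu]),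
    Finset.insert_comm u t A]
  calc rep G A * (cox G).simple t * (rep G (insert t A))⁻¹ *
        (rep G (insert t A) * (cox G).simple u * (rep G (insert t (insert u A)))⁻¹)
      = rep G A * ((cox G).simple t * (cox G).simple u) * (rep G (insert t (insert u A)))⁻¹ := by
        group
    _ = rep G A * ((cox G).simple u * (cox G).simple t) * (rep G (insert t (insert u A)))⁻¹ := by
        rw [simple_comm G t u h]
    _ = _ := by group

/-- the indicator -/
def ic (A B : Finset V) : MonoidAlgebra ℤ (th G).ker := if A = B then 1 else 0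

/-- the coefficient of the neighbour -/
def gs (A : Finset V) (t : V) : MonoidAlgebra ℤ (th G).ker :=
  MonoidAlgebra.single (gm G (rep G A * (cox G).simple t)) 1

open Classical in
/-- the coefficient of the boundary -/
def cf (T A T' A' : Finset V) : MonoidAlgebra ℤ (th G).ker :=
  ∑ t ∈ T, if T' = T.erase t then
    ((sg t (T.erase t) : ℤ) : MonoidAlgebra ℤ (th G).ker) *
      ((if A' = A then 1 else 0) - (if A' = insert t A then
        MonoidAlgebra.single (gm G (rep G A * (cox G).simple t)) 1 else 0)) else 0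

/-- the double boundary cancels -/
theorem double (T A T2 A2 : Finset V) (hT : G.IsClique (T : Set V)) (hd : Disjoint T A) :
    ∑ t ∈ T, ((sg t (T.erase t) : ℤ) : MonoidAlgebra ℤ (th G).ker) *
      (cf G (T.erase t) A T2 A2 - gs G A t * cf G (T.erase t) (insert t A) T2 A2) = 0 := by
  classical
  have hA : ∀ t ∈ T, t ∉ A := fun t ht h => Finset.disjoint_left.1 hd ht h
  -- the bracket
  obtain ⟨Br, hBr⟩ : ∃ Br : V → V → MonoidAlgebra ℤ (th G).ker, Br = fun t u =>
      (if A2 = A then 1 else 0) - (if A2 = insert u A then gs G A u else 0) -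
      (if A2 = insert t A then gs G A t else 0) +
      (if A2 = insert u (insert t A) then gs G A t * gs G (insert t A) u else 0) := ⟨_, rfl⟩
  have h1 : ∀ t ∈ T, ((sg t (T.erase t) : ℤ) : MonoidAlgebra ℤ (th G).ker) *
      (cf G (T.erase t) A T2 A2 - gs G A t * cf G (T.erase t) (insert t A) T2 A2) =
      ∑ u ∈ T.erase t, (if T2 = (T.erase t).erase u then
        ((sg t (T.erase t) * sg u ((T.erase t).erase u) : ℤ) : MonoidAlgebra ℤ (th G).ker) *
          Br t u else 0) := by
    intro t ht
    unfold cf
    rw [Finset.mul_sum, ← Finset.sum_sub_distrib, Finset.mul_sum]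
    refine Finset.sum_congr rfl fun u hu => ?_
    by_cases h2 : T2 = (T.erase t).erase u
    · rw [if_pos h2, if_pos h2, if_pos h2, hBr]
      have hc := (Int.cast_commute (sg u ((T.erase t).erase u)) (gs G A t)).eq
      have e : gs G A t * (((sg u ((T.erase t).erase u) : ℤ) : MonoidAlgebra ℤ (th G).ker) *
          ((if A2 = insert t A then 1 else 0) - (if A2 = insert u (insert t A) then
            MonoidAlgebra.single (gm G (rep G (insert t A) * (cox G).simple u)) 1 else 0))) =
          ((sg u ((T.erase t).erase u) : ℤ) : MonoidAlgebra ℤ (th G).ker) *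
          ((if A2 = insert t A then gs G A t else 0) - (if A2 = insert u (insert t A) then
            gs G A t * gs G (insert t A) u else 0)) := by
        rw [← mul_assoc, ← hc, mul_assoc, mul_sub]
        congr 2
        · split_ifs
          · rw [mul_one]
          · rw [mul_zero]
        · split_ifs
          · rfl
          · rw [mul_zero]
      rw [e]
      push_cast
      show _ = _
      rw [← mul_sub, ← mul_assoc]
      congr 1
      show _ - (if A2 = insert u A then gs G A u else 0) - _ = _
      abel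
    · rw [if_neg h2, if_neg h2, if_neg h2, mul_zero, sub_zero, mul_zero]
  rw [Finset.sum_congr rfl h1, Finset.sum_sigma']
  refine Finset.sum_involution (fun (x : Σ _ : V, V) _ => ⟨x.2, x.1⟩) ?_ ?_ ?_ ?_
  · rintro ⟨t, u⟩ h
    simp only [Finset.mem_sigma, Finset.mem_erase] at h
    obtain ⟨ht, hut, hu⟩ := h
    simp only
    have e1 : (T.erase u).erase t = (T.erase t).erase u := Finset.erase_right_comm
    rw [e1]
    by_cases h2 : T2 = (T.erase t).erase u
    · rw [if_pos h2, if_pos h2]
      have hadj : G.Adj t u := hT ht hu (Ne.symm hut)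
      have hs := sg_swap t u ((T.erase t).erase u) (Ne.symm hut) (by simp) (by simp)
      have e2 : insert u ((T.erase t).erase u) = T.erase t :=
        Finset.insert_erase (Finset.mem_erase.2 ⟨hut, hu⟩)
      have e3 : insert t ((T.erase t).erase u) = T.erase u := by
        rw [← e1]
        exact Finset.insert_erase (Finset.mem_erase.2 ⟨Ne.symm hut, ht⟩)
      rw [e2, e3] at hs
      have hb : Br t u = Br u t := by
        rw [hBr]
        simp only
        have hg : gs G A t * gs G (insert t A) u = gs G A u * gs G (insert u A) t := by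
          unfold gs
          rw [MonoidAlgebra.single_mul_single, MonoidAlgebra.single_mul_single,
            gm_comm G A t u (hA t ht) (hA u hu) hadj]
        rw [hg, Finset.insert_comm u t A]
        abel
      rw [hs, hb, ← add_mul]
      push_cast
      rw [neg_add_cancel, zero_mul]
    · rw [if_neg h2, if_neg h2, add_zero]
  · rintro ⟨t, u⟩ h _ h3
    simp only [Finset.mem_sigma, Finset.mem_erase] at h
    simp only [Sigma.mk.injEq, heq_eq_eq] at h3
    exact h.2.1 h3.1
  · rintro ⟨t, u⟩ h
    simp only [Finset.mem_sigma, Finset.mem_erase] at h ⊢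
    exact ⟨h.2.2, fun e => h.2.1 e.symm, h.1⟩
  · rintro ⟨t, u⟩ _
    rfl

/-- the cells -/
abbrev Cell : Type := {c : Finset V × Finset V // G.IsClique (c.1 : Set V) ∧ Disjoint c.1 c.2}

open Classical in
/-- one row of the product -/
theorem row (T A : Finset V) (hT : G.IsClique (T : Set V)) (hd : Disjoint T A) (t : V) (ht : t ∈ T)
    (X : Finset V → Finset V → MonoidAlgebra ℤ (th G).ker) :
    ∑ c' : Cell G, (if c'.1.1 = T.erase t then
      ((sg t (T.erase t) : ℤ) : MonoidAlgebra ℤ (th G).ker) *
      ((if c'.1.2 = A then 1 else 0) - (if c'.1.2 = insert t A then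
        MonoidAlgebra.single (gm G (rep G A * (cox G).simple t)) 1 else 0)) else 0) *
        X c'.1.1 c'.1.2 =
      ((sg t (T.erase t) : ℤ) : MonoidAlgebra ℤ (th G).ker) *
        (X (T.erase t) A - gs G A t * X (T.erase t) (insert t A)) := by
  have hA : ∀ t ∈ T, t ∉ A := fun t ht h => Finset.disjoint_left.1 hd ht h
  have hcl : G.IsClique ((T.erase t : Finset V) : Set V) :=
    hT.subset (by rw [Finset.coe_erase]; exact Set.sdiff_subset)
  have hd1 : Disjoint (T.erase t) A := Finset.disjoint_of_subset_left (Finset.erase_subset t T) hd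
  have hd2 : Disjoint (T.erase t) (insert t A) := by
    rw [Finset.disjoint_insert_right]
    exact ⟨Finset.notMem_erase t T, hd1⟩
  obtain ⟨c3, hc3⟩ : ∃ c : Cell G, c.1 = (T.erase t, A) := ⟨⟨(T.erase t, A), hcl, hd1⟩, rfl⟩
  obtain ⟨c4, hc4⟩ : ∃ c : Cell G, c.1 = (T.erase t, insert t A) :=
    ⟨⟨(T.erase t, insert t A), hcl, hd2⟩, rfl⟩
  have hne : A ≠ insert t A := fun h => hA t ht (h ▸ Finset.mem_insert_self t A)
  obtain ⟨σ, hσ⟩ : ∃ σ : MonoidAlgebra ℤ (th G).ker,
      σ = ((sg t (T.erase t) : ℤ) : MonoidAlgebra ℤ (th G).ker) := ⟨_, rfl⟩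
  obtain ⟨g, hg⟩ : ∃ g : MonoidAlgebra ℤ (th G).ker, g = gs G A t := ⟨_, rfl⟩
  have hg' : MonoidAlgebra.single (gm G (rep G A * (cox G).simple t)) 1 = g := hg.symm
  rw [← hσ, ← hg, hg']
  have hpt : ∀ c' : Cell G,
      (if c'.1.1 = T.erase t then σ *
      ((if c'.1.2 = A then 1 else 0) - (if c'.1.2 = insert t A then g else 0)) else 0) *
        X c'.1.1 c'.1.2 =
      (if c' = c3 then σ * X (T.erase t) A else 0) -
      (if c' = c4 then σ * (g * X (T.erase t) (insert t A)) else 0) := by
    intro c'
    have i3 : c' = c3 ↔ c'.1.1 = T.erase t ∧ c'.1.2 = A := by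
      rw [Subtype.ext_iff, hc3, Prod.ext_iff]
    have i4 : c' = c4 ↔ c'.1.1 = T.erase t ∧ c'.1.2 = insert t A := by
      rw [Subtype.ext_iff, hc4, Prod.ext_iff]
    by_cases h1 : c'.1.1 = T.erase t
    · rw [if_pos h1]
      by_cases h2 : c'.1.2 = A
      · rw [if_pos h2, if_neg (by rw [h2]; exact hne), if_pos (i3.2 ⟨h1, h2⟩),
          if_neg (fun h => hne (h2.symm.trans (i4.1 h).2)), sub_zero, sub_zero, mul_one, h1, h2]
      · by_cases h3 : c'.1.2 = insert t A
        · rw [if_neg h2, if_pos h3, if_neg (fun h => h2 (i3.1 h).2), if_pos (i4.2 ⟨h1, h3⟩), h1, h3,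
            zero_sub, zero_sub, mul_neg, neg_mul, mul_assoc]
        · rw [if_neg h2, if_neg h3, if_neg (fun h => h2 (i3.1 h).2),
            if_neg (fun h => h3 (i4.1 h).2)]
          simp only [sub_zero, mul_zero, zero_mul]
    · rw [if_neg h1, if_neg (fun h => h1 (i3.1 h).1), if_neg (fun h => h1 (i4.1 h).1), zero_mul,
        sub_zero]
  rw [Finset.sum_congr rfl fun c' _ => hpt c', Finset.sum_sub_distrib, Finset.sum_ite_eq',
    Finset.sum_ite_eq', if_pos (Finset.mem_univ _), if_pos (Finset.mem_univ _), mul_sub]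

/-- the matrix of the boundary -/
def dv : Matrix (Cell G) (Cell G) (MonoidAlgebra ℤ (th G).ker) :=
  Matrix.of fun c c' => cf G c.1.1 c.1.2 c'.1.1 c'.1.2

open Classical in
theorem dv_sq : dv G * dv G = 0 := by
  ext1 c c2
  rw [Matrix.mul_apply, Matrix.zero_apply, ← double G c.1.1 c.1.2 c2.1.1 c2.1.2 c.2.1 c.2.2]
  have h1 : ∀ c' : Cell G, dv G c c' * dv G c' c2 = ∑ t ∈ c.1.1,
      (if c'.1.1 = c.1.1.erase t then
      ((sg t (c.1.1.erase t) : ℤ) : MonoidAlgebra ℤ (th G).ker) *
      ((if c'.1.2 = c.1.2 then 1 else 0) - (if c'.1.2 = insert t c.1.2 then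
        MonoidAlgebra.single (gm G (rep G c.1.2 * (cox G).simple t)) 1 else 0)) else 0) *
        cf G c'.1.1 c'.1.2 c2.1.1 c2.1.2 := fun c' => by
    rw [← Finset.sum_mul]
    rfl
  rw [Finset.sum_congr rfl fun c' _ => h1 c', Finset.sum_comm]
  exact Finset.sum_congr rfl fun t ht =>
    row G c.1.1 c.1.2 c.2.1 c.2.2 t ht fun T A => cf G T A c2.1.1 c2.1.2

open Classical in
/-- **the boundary of the Davis complex has square zero** -/
theorem davis_sq : (Matrix.of fun (c c' : {c : Finset V × Finset V //
      G.IsClique (c.1 : Set V) ∧ Disjoint c.1 c.2}) => ∑ t ∈ c.1.1, if c'.1.1 = c.1.1.erase t then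
    ((sg t (c.1.1.erase t) : ℤ) : MonoidAlgebra ℤ (th G).ker) *
      ((if c'.1.2 = c.1.2 then 1 else 0) - (if c'.1.2 = insert t c.1.2 then
        MonoidAlgebra.single (gm G (rep G c.1.2 * (cox G).simple t)) 1 else 0)) else 0) *
    (Matrix.of fun (c c' : {c : Finset V × Finset V //
      G.IsClique (c.1 : Set V) ∧ Disjoint c.1 c.2}) => ∑ t ∈ c.1.1, if c'.1.1 = c.1.1.erase t then
    ((sg t (c.1.1.erase t) : ℤ) : MonoidAlgebra ℤ (th G).ker) *
      ((if c'.1.2 = c.1.2 then 1 else 0) - (if c'.1.2 = insert t c.1.2 then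
        MonoidAlgebra.single (gm G (rep G c.1.2 * (cox G).simple t)) 1 else 0)) else 0) = 0 :=
  dv_sq G

end davis

end Pool.Agent.N496.LT
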