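import Pool.Agent.H7.L.TH630_Tor_FZ
import Pool.Agent.H7.L.TH630_Tor_Defs
import Pool.Agent.H7.L.Helper993_Acyclic

/-!
`L²`-torsion of free chain complexes over groups which embed in `F × ℤ`, and limits.
-/

open scoped InnerProductSpace Topology Matrix

noncomputable section

namespace Pool.Agent.TH630.Tor

open Pool.Agent.Helper993.FK Pool.Agent.Helper993.Delta

theorem toQ_add {G : Type} [Group G] {r s : ℕ} (A B : Matrix (Fin r) (Fin s) (MonoidAlgebra ℤ G)) :
    (A + B).map toQ = A.map toQ + B.map toQ := by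
  ext1 i j
  exact map_add (MonoidAlgebra.mapRingHom G (Int.castRingHom ℚ)) _ _

theorem mapDomain_adjZ {G H : Type} [Group G] [Group H] (f : G →* H) {r s : ℕ}
    (A : Matrix (Fin r) (Fin s) (MonoidAlgebra ℤ G)) :
    (adjZ A).map (MonoidAlgebra.mapDomainRingHom ℤ f)
      = adjZ (A.map (MonoidAlgebra.mapDomainRingHom ℤ f)) := by
  ext1 i j
  simp only [adjZ, Matrix.map_apply, Matrix.transpose_apply, invol,
    MonoidAlgebra.mapDomainRingHom_apply, MonoidAlgebra.mapDomain,
    MonoidAlgebra.coeff_ofCoeff, ← Finsupp.mapDomain_comp]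
  congr 2
  ext g
  simp

section nondeg
variable {Q F : Type} [Group Q] [Group F] [Fintype F] [DecidableEq F]
  (π : Q →* F) (κ : Q →* Multiplicative ℤ) {r s : ℕ}

theorem nondeg_mul_adj {B : Matrix (Fin r) (Fin r) (MonoidAlgebra ℤ Q)} (hB : Nondeg π κ B) :
    Nondeg π κ (B * adjZ B) := by
  obtain ⟨z, hz, h⟩ := hB
  refine ⟨z, hz, ?_⟩
  have h2 := det_mul_adj π κ hz B
  intro h3
  rw [h3, norm_zero] at h2
  have : 0 < ‖(evM π κ (uz z) (B.map toQ) : Matrix (Fin r × F) (Fin r × F) ℂ).det‖ :=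
    norm_pos_iff.mpr h
  have := pow_pos this 2
  linarith

end nondeg

namespace FreeCx

variable {G : Type} [Group G] (C : FreeCx G)

/-- The matrix of the Laplacian. -/
def lapM : ∀ n, Matrix (Fin (C.rank n)) (Fin (C.rank n)) (MonoidAlgebra ℤ G)
  | 0 => adjZ (C.d 0) * C.d 0
  | n + 1 => adjZ (C.d (n + 1)) * C.d (n + 1) + C.d n * adjZ (C.d n)

theorem laplacian_eq (n : ℕ) : C.laplacian n = rMul ((C.lapM n).map toQ) := by
  cases n with
  | zero =>
    unfold lapM
    rw [toQ_mul, toQ_adjZ, rMul_mul, ← adjoint_rMul]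
    rfl
  | succ n =>
    unfold lapM
    rw [toQ_add, rMul_add, toQ_mul, toQ_adjZ, rMul_mul, ← adjoint_rMul, toQ_mul, toQ_adjZ,
      rMul_mul, ← adjoint_rMul]
    rfl

theorem quot_lapM (N : Subgroup G) [N.Normal] (n : ℕ) : (C.quot N).lapM n
    = (C.lapM n).map (MonoidAlgebra.mapDomainRingHom ℤ (QuotientGroup.mk' N)) := by
  cases n with
  | zero =>
    unfold lapM
    rw [Matrix.map_mul, mapDomain_adjZ]
    rfl
  | succ n =>
    unfold lapM
    have h := Matrix.map_add (MonoidAlgebra.mapDomainRingHom ℤ (QuotientGroup.mk' N))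
      (map_add _) (adjZ (C.d (n + 1)) * C.d (n + 1)) (C.d n * adjZ (C.d n))
    rw [h, Matrix.map_mul, mapDomain_adjZ, Matrix.map_mul, mapDomain_adjZ]
    rfl

theorem dimKer_of_inj {r : ℕ} (T : L2Pow G r →L[ℂ] L2Pow G r) (h : ∀ v, T v = 0 → v = 0) :
    dimKer T = 0 := by
  unfold dimKer
  apply Finset.sum_eq_zero
  intro i _
  have h1 : T.ker.starProjection (unitVec i) = 0 :=
    h _ (LinearMap.mem_ker.mp (Submodule.starProjection_apply_mem _ _))
  rw [h1]
  exact congrArg Complex.re (inner_zero_right (𝕜 := ℂ) (unitVec i : L2Pow G r))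

/-- Over a group which embeds in `F × ℤ`. -/
theorem level {Q F : Type} [Group Q] [Group F] [Fintype F] [DecidableEq F]
    (π : Q →* F) (κ : Q →* Multiplicative ℤ) (hinj : ∀ q, π q = 1 → κ q = 1 → q = 1)
    (C : FreeCx Q) (h : ∀ n, Nondeg π κ (C.lapM n)) :
    C.DetL2Acyclic ∧ C.l2torsion = -(1 / 2) * ∑ n ∈ Finset.range (C.dim + 1),
      (-1) ^ n * n * logDet π κ (C.lapM n) := by
  constructor
  · intro n
    obtain ⟨_, h2, h3⟩ := log_fkDet_square π κ hinj (C.lapM n) (h n)
    rw [← C.laplacian_eq n] at h2 h3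
    exact ⟨dimKer_of_inj _ h3, h2⟩
  · unfold l2torsion
    congr 1
    apply Finset.sum_congr rfl
    intro n _
    obtain ⟨h1, _, _⟩ := log_fkDet_square π κ hinj (C.lapM n) (h n)
    rw [← h1, C.laplacian_eq n]

theorem mq_map {N : Subgroup G} [N.Normal] {r : ℕ}
    (A : Matrix (Fin r) (Fin r) (MonoidAlgebra ℤ G)) :
    mq N ((A * adjZ A).map toQ)
      = ((A.map (MonoidAlgebra.mapDomainRingHom ℤ (QuotientGroup.mk' N)))
        * adjZ (A.map (MonoidAlgebra.mapDomainRingHom ℤ (QuotientGroup.mk' N)))).map toQ := by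
  rw [mq_toQ, ← mapDomain_adjZ, ← Matrix.map_mul]
  rfl

/-- Over the group, from the levels. -/
theorem limit (N : ℕ → Subgroup G) [∀ i, (N i).Normal] (hanti : Antitone N)
    (hinf : ⨅ i, N i = ⊥)
    (F : ℕ → Type) [∀ i, Group (F i)] [∀ i, Fintype (F i)] [∀ i, DecidableEq (F i)]
    (π : ∀ i, (G ⧸ N i) →* F i) (κ : ∀ i, (G ⧸ N i) →* Multiplicative ℤ)
    (hinj : ∀ i, ∀ q, π i q = 1 → κ i q = 1 → q = 1)
    (h : ∀ i, 1 ≤ i → ∀ n, Nondeg (π i) (κ i) ((C.quot (N i)).lapM n)) : C.DetL2Acyclic := by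
  intro n
  have key := limit_package N hanti hinf (C.lapM n)
    (C := C.rank n * Real.log (KK (C.lapM n * adjZ (C.lapM n))))
    (C' := 2 * C.rank n * Real.log (KK (C.lapM n * adjZ (C.lapM n)))) ?_ ?_
  · obtain ⟨h1, h2⟩ := key
    rw [← C.laplacian_eq n] at h1 h2
    exact ⟨dimKer_of_inj _ h1, h2⟩
  all_goals
    intro i hi
    have hn := h i hi n
    rw [quot_lapM] at hn
    obtain ⟨h1, h2, _⟩ := fz_package (π i) (κ i) (hinj i)
      ((C.lapM n).map (MonoidAlgebra.mapDomainRingHom ℤ (QuotientGroup.mk' (N i))))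
      (nondeg_mul_adj _ _ hn) (one_le_KK (C.lapM n * adjZ (C.lapM n)))
      (by rw [← mq_map]; exact (norm_rMul_map_le _ _).trans (le_max_right _ _))
    rw [mq_map]
  · exact h1
  · exact h2

end FreeCx

/-- Over a finite group all determinants are positive. -/
theorem fkDet_pos_finite {Q : Type} [Group Q] [Finite Q] {r s : ℕ}
    (A : Matrix (Fin r) (Fin s) (MonoidAlgebra ℤ Q)) : 0 < fkDet (rMul (A.map toQ)) := by
  classical
  have := Fintype.ofFinite Q
  by_cases hr : r = 0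
  · exact fkDet_pos_of_eq_zero hr _
  have : NeZero r := ⟨hr⟩
  have hS : 0 ≤ rMul ((A * adjZ A).map toQ) := by
    rw [mul_adjZ_toQ]; exact rMul_self_nonneg _
  obtain ⟨n, lam, -, -, -, -, h, -⟩ := fin_package _ hS
  have h1 : spectralMeasure unitVec (rMul ((A * adjZ A).map toQ))
      = atomic (1 / (Fintype.card Q : ℝ)) lam := by
    unfold spectralMeasure
    apply MeasureTheory.Measure.ext_of_integral_eq_on_compactlySupported
    intro f
    rw [RealRMK.integral_rieszMeasure]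
    refine Eq.trans ?_ ((integral_atomic (by positivity) _ f).2).symm
    exact h f
  have h2 : MeasureTheory.IntegrableOn Real.log (Set.Ioi 0)
      (specMeas unitVec (rMul (A.map toQ))) := by
    unfold specMeas
    rw [adjoint_comp_rMul, ← mul_adjZ_toQ, h1]
    exact (integral_atomic (by positivity) _ _).1.integrableOn
  unfold fkDet detOf
  rw [if_pos h2]
  exact Real.exp_pos _

end Pool.Agent.TH630.Tor
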