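import Pool.Agent.H7.L.R782_Bal_Main
import Pool.Agent.H7.L.TH630_Tor_Cx
import Pool.Agent.H7.L.Y132_SI_Free
import Pool.Agent.H7.L.N496_LT_D1
import Pool.Agent.H7.L.N496_LT_D2

/-!
# Project LT: definitions

`GCx G`: finite based free chain complexes over `ℤ[G]`, with all the degrees in one finite index set. Products,
quotients, homology torsion. The chain complex `davis G` of the Davis complex of the right-angled Coxeter group of
the graph `G` over the kernel of `W → (ℤ/2)^V`.
-/

set_option autoImplicit false

open scoped Matrix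

noncomputable section

namespace Pool.Agent.N496.LT

open Pool.Agent.W907.SG Pool.Agent.TH630.Tor Pool.Agent.W461.SGN

/-- A finite based free chain complex of left modules over the integral group ring of `G` (chains are row vectors):
`ι` is the set of (orbits of) cells of all dimensions, `D i j` is the coefficient of the cell `j` in the boundary of
the cell `i`. -/
structure GCx (G : Type) [Group G] where
  /-- the cells -/
  ι : Type
  [fin : Fintype ι]
  [dec : DecidableEq ι]
  /-- the dimension of a cell -/
  deg : ι → ℕ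
  /-- the boundary -/
  D : Matrix ι ι (MonoidAlgebra ℤ G)
  D_deg : ∀ i j, D i j ≠ 0 → deg i = deg j + 1
  D_sq : D * D = 0

attribute [instance] GCx.fin GCx.dec

theorem sum_deg {ι : Type} [Fintype ι] (deg : ι → ℕ) (n : ℕ) {M : Type} [AddCommMonoid M] (f : ι → M)
    (h : ∀ k, deg k ≠ n → f k = 0) : ∑ k : {i : ι // deg i = n}, f k.1 = ∑ k, f k := by
  rw [← Finset.sum_subtype (Finset.univ.filter fun k => deg k = n) (by simp) f, Finset.sum_filter]
  refine Finset.sum_congr rfl fun k _ => ?_
  split_ifs with hk
  · rfl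
  · exact (h k hk).symm

namespace GCx

variable {G H : Type} [Group G] [Group H]

/-- The complex, one degree at a time. -/
def toFree (C : GCx G) : FreeCx G where
  rank n := Fintype.card {i : C.ι // C.deg i = n}
  dim := Finset.univ.sup C.deg
  rank_eq_zero n hn := by
    rw [Fintype.card_eq_zero_iff]
    refine ⟨fun i => ?_⟩
    have := Finset.le_sup (f := C.deg) (Finset.mem_univ i.1)
    rw [i.2] at this
    omega
  d n := Matrix.of fun a b => C.D ((Fintype.equivFin {i : C.ι // C.deg i = n + 1}).symm a).1
    ((Fintype.equivFin {i : C.ι // C.deg i = n}).symm b).1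
  d_comp_d n := by
    ext1 a b
    have h := congrFun (congrFun C.D_sq ((Fintype.equivFin {i : C.ι // C.deg i = n + 1 + 1}).symm a).1)
      ((Fintype.equivFin {i : C.ι // C.deg i = n}).symm b).1
    have h1 := sum_deg C.deg (n + 1) (fun k => C.D ((Fintype.equivFin {i : C.ι // C.deg i = n + 1 + 1}).symm a).1 k *
          C.D k ((Fintype.equivFin {i : C.ι // C.deg i = n}).symm b).1) (fun k hk => by
        by_cases h0 : C.D ((Fintype.equivFin {i : C.ι // C.deg i = n + 1 + 1}).symm a).1 k = 0
        · rw [h0, zero_mul]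
        · exfalso
          apply hk
          have := C.D_deg _ _ h0
          rw [((Fintype.equivFin {i : C.ι // C.deg i = n + 1 + 1}).symm a).2] at this
          omega)
    rw [← (Fintype.equivFin {i : C.ι // C.deg i = n + 1}).symm.sum_comp] at h1
    exact h1.trans h

/-- The `n`-cycles. -/
def cyc (C : GCx G) (n : ℕ) : Submodule ℤ (C.ι → MonoidAlgebra ℤ G) where
  carrier := {v | (∀ i, C.deg i ≠ n → v i = 0) ∧ v ᵥ* C.D = 0}
  add_mem' := by
    rintro v w ⟨h1, h2⟩ ⟨h3, h4⟩
    refine ⟨fun i hi => by simp [h1 i hi, h3 i hi], ?_⟩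
    rw [Matrix.add_vecMul, h2, h4, add_zero]
  zero_mem' := ⟨fun i _ => rfl, Matrix.zero_vecMul _⟩
  smul_mem' := by
    rintro c v ⟨h1, h2⟩
    refine ⟨fun i hi => by simp [h1 i hi], ?_⟩
    rw [Matrix.smul_vecMul, h2, smul_zero]

/-- The `n`-boundaries. -/
def bdy (C : GCx G) (n : ℕ) : Submodule ℤ (C.ι → MonoidAlgebra ℤ G) where
  carrier := {v | ∃ u : C.ι → MonoidAlgebra ℤ G, (∀ i, C.deg i ≠ n + 1 → u i = 0) ∧ u ᵥ* C.D = v}
  add_mem' := by
    rintro _ _ ⟨v, h1, rfl⟩ ⟨w, h3, rfl⟩
    exact ⟨v + w, fun i hi => by simp [h1 i hi, h3 i hi], Matrix.add_vecMul _ _ _⟩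
  zero_mem' := ⟨0, fun i _ => rfl, Matrix.zero_vecMul _⟩
  smul_mem' := by
    rintro c _ ⟨v, h1, rfl⟩
    exact ⟨c • v, fun i hi => by simp [h1 i hi], Matrix.smul_vecMul _ _ _⟩

/-- The order of the torsion subgroup of the `n`-th homology group (of the complex of abelian groups). -/
def torsOrder (C : GCx G) (n : ℕ) : ℕ := Pool.Agent.Helper993.Delta.torsionCard (C.cyc n) (C.bdy n)

/-- The quotient complex over `G ⧸ N`: the chain complex of the quotient space by `N`. -/
def quot (C : GCx G) (N : Subgroup G) [N.Normal] : GCx (G ⧸ N) where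
  ι := C.ι
  deg := C.deg
  D := C.D.map (MonoidAlgebra.mapDomainRingHom ℤ (QuotientGroup.mk' N))
  D_deg i j h := C.D_deg i j fun h0 => h (by rw [Matrix.map_apply, h0, map_zero])
  D_sq := by
    rw [← Matrix.map_mul, C.D_sq]
    exact Matrix.map_zero _ (map_zero _)

/-- The chain complex of the product of two spaces. -/
def prod (C : GCx G) (E : GCx H) : GCx (G × H) where
  ι := C.ι × E.ι
  deg x := C.deg x.1 + E.deg x.2
  D := Matrix.of fun x y =>
    (if x.2 = y.2 then MonoidAlgebra.mapDomainRingHom ℤ (MonoidHom.inl G H) (C.D x.1 y.1) else 0) +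
    (if x.1 = y.1 then (-1) ^ C.deg x.1 * MonoidAlgebra.mapDomainRingHom ℤ (MonoidHom.inr G H) (E.D x.2 y.2)
      else 0)
  D_deg x y h := by
    by_contra h0
    apply h
    rw [Matrix.of_apply]
    have h1 : (if x.2 = y.2 then MonoidAlgebra.mapDomainRingHom ℤ (MonoidHom.inl G H) (C.D x.1 y.1) else 0) = 0 := by
      split_ifs with h2
      · have h3 : C.D x.1 y.1 = 0 := by
          by_contra h3
          have := C.D_deg _ _ h3
          exact h0 (by rw [this, h2]; ring)
        rw [h3, map_zero]
      · rfl
    have h4 : (if x.1 = y.1 then (-1) ^ C.deg x.1 * MonoidAlgebra.mapDomainRingHom ℤ (MonoidHom.inr G H)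
        (E.D x.2 y.2) else 0) = 0 := by
      split_ifs with h2
      · have h3 : E.D x.2 y.2 = 0 := by
          by_contra h3
          have := E.D_deg _ _ h3
          exact h0 (by rw [this, h2]; ring)
        rw [h3, map_zero, mul_zero]
      · rfl
    rw [h1, h4, add_zero]
  D_sq := prod_sq C.D E.D C.deg C.D_deg C.D_sq E.D_sq

/-- The integral matrix of the boundary of a complex over a finite group, mapped to `F`. The cell `(i, g)` is the
translate by `g` of the cell `i`. -/
def mat (C : GCx G) (F : Type) [Ring F] : Matrix (C.ι × G) (C.ι × G) F :=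
  Matrix.of fun x y => (((C.D x.1 y.1).coeff (x.2⁻¹ * y.2) : ℤ) : F)

/-- The rank of the boundary map on the `n`-chains with coefficients in `F`. -/
def rk (C : GCx G) (F : Type) [Field F] [Fintype G] (n : ℕ) : ℕ :=
  ((C.mat F).submatrix (fun x : {x : C.ι × G // C.deg x.1 = n} => x.1) id).rank

/-- The `n`-th Betti number with coefficients in `F`. -/
def betti (C : GCx G) (F : Type) [Field F] [Fintype G] (n : ℕ) : ℤ :=
  Fintype.card {i : C.ι // C.deg i = n} * Fintype.card G - C.rk F n - C.rk F (n + 1)

/-- the number of cyclic summands of `p`-power order of the `n`-th integral homology group -/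
def tp (C : GCx G) (p : ℕ) [Fact p.Prime] [Fintype G] (n : ℕ) : ℕ := C.rk ℝ (n + 1) - C.rk (ZMod p) (n + 1)

end GCx

/-- There is a sequence of normal subgroups of finite index with trivial intersection. -/
def ResFin (G : Type) [Group G] : Prop :=
  ∃ (N : ℕ → Subgroup G) (_ : ∀ i, (N i).Normal), (∀ i, (N i).FiniteIndex) ∧ Antitone N ∧ ⨅ i, N i = ⊥

section davis

variable {V : Type} [Fintype V] [LinearOrder V] (G : SimpleGraph V)

open Classical in
/-- The cellular chain complex of the Davis complex of the right-angled Coxeter group `W G` over the kernel `Γ` of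
`W G → (ℤ/2)^V`. The cells are the cubes `w W_T`, `T` a clique; the orbits of `Γ` are represented by the cells
`(T, A)`, that is `rep A W_T` with `A` disjoint from `T`. The boundary of a cube `w W_T` is the alternating sum of
`w W_{T - t}` and `- w t W_{T - t}`. -/
def davis : GCx (th G).ker where
  ι := {c : Finset V × Finset V // G.IsClique (c.1 : Set V) ∧ Disjoint c.1 c.2}
  deg c := c.1.1.card
  D := Matrix.of fun c c' => ∑ t ∈ c.1.1, if c'.1.1 = c.1.1.erase t then
    ((sg t (c.1.1.erase t) : ℤ) : MonoidAlgebra ℤ (th G).ker) *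
      ((if c'.1.2 = c.1.2 then 1 else 0) - (if c'.1.2 = insert t c.1.2 then
        MonoidAlgebra.single (gm G (rep G c.1.2 * (cox G).simple t)) 1 else 0)) else 0
  D_deg c c' h := by
    rw [Matrix.of_apply] at h
    obtain ⟨t, ht, h1⟩ := Finset.exists_ne_zero_of_sum_ne_zero h
    have h2 : c'.1.1 = c.1.1.erase t := by
      by_contra h2
      exact h1 (if_neg h2)
    rw [h2, Finset.card_erase_of_mem ht]
    have : 0 < c.1.1.card := Finset.card_pos.2 ⟨t, ht⟩
    omega
  D_sq := davis_sq G

end davis

end Pool.Agent.N496.LT
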