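import Pool.Agent.H7.L.W907_SG_Stmts

/-!
# Contraction of an edge

If the edge `st` of `G` is not contained in an induced 4-cycle, then contracting it does not change
the Betti numbers with coefficients in which `s` and `t` act in the same way.
-/

set_option autoImplicit false

namespace Pool.Agent.R781.VS

open Module Pool.Agent.W907.SG

/-- the contraction of the edge `st`: the vertex `t` is removed (it becomes isolated), and its
neighbours become neighbours of `s` -/
def con {V : Type} (G : SimpleGraph V) (s t : V) : SimpleGraph V where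
  Adj x y := x ≠ y ∧ x ≠ t ∧ y ≠ t ∧ (G.Adj x y ∨ (x = s ∧ G.Adj t y) ∨ (y = s ∧ G.Adj t x))
  symm := ⟨by
    rintro x y ⟨h1, h2, h3, h4⟩
    refine ⟨h1.symm, h3, h2, ?_⟩
    rcases h4 with h | h | h
    · exact Or.inl h.symm
    · exact Or.inr (Or.inr h)
    · exact Or.inr (Or.inl h)⟩
  loopless := ⟨fun x h => h.1 rfl⟩

/-- the edge `st` is not contained in an induced 4-cycle -/
def NoSq {V : Type} (G : SimpleGraph V) (s t : V) : Prop :=
  ∀ x y, G.Adj s x → ¬ G.Adj t x → x ≠ t → G.Adj t y → ¬ G.Adj s y → y ≠ s → ¬ G.Adj x y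

variable {V F M : Type} [Fintype V] [LinearOrder V] [Field F] [AddCommGroup M] [Module F M]
  {G : SimpleGraph V} {ρ : V → M →ₗ[F] M} {s t : V}

theorem sgn_ne {u v : V} {T : Finset V} (huv : u ≠ v) (hu : u ∉ T) (hv : v ∉ T) :
    sg u (insert v T) * sg v (insert u T) = - (sg u T * sg v T) := by
  have h1 := sg_swap u v T huv hu hv
  have h2 := sg_mul_self u T
  have h3 := sg_mul_self v T
  have h4 := sg_mul_self v (insert u T)
  calc sg u (insert v T) * sg v (insert u T)
      = (sg u (insert v T) * sg v T) * (sg v T * sg v (insert u T)) := by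
        linear_combination (-(sg u (insert v T) * sg v (insert u T))) * h3
    _ = - (sg v (insert u T) * sg u T) * (sg v T * sg v (insert u T)) := by rw [h1]
    _ = - (sg u T * sg v T) := by linear_combination (- (sg u T * sg v T)) * h4

/-- the chain map -/
def cm (F : Type) {V M : Type} [Fintype V] [LinearOrder V] [Field F] [AddCommGroup M] [Module F M]
    (s t : V) : (Finset V → M) →ₗ[F] (Finset V → M) where
  toFun c T := if t ∈ T then 0 else if s ∈ T then
    c T + (sg s (T.erase s) * sg t (T.erase s)) • c (insert t (T.erase s)) else c T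
  map_add' c d := by
    funext T
    simp only [Pi.add_apply]
    split_ifs
    · simp
    · rw [smul_add]; abel
    · rfl
  map_smul' a c := by
    funext T
    simp only [Pi.smul_apply, RingHom.id_apply]
    split_ifs
    · simp
    · rw [smul_add, smul_comm]
    · rfl

theorem cm_t (c : Finset V → M) {T : Finset V} (h : t ∈ T) : cm F s t c T = 0 := if_pos h

theorem cm_s (c : Finset V → M) {T : Finset V} (hs : s ∉ T) (ht : t ∉ insert s T) :
    cm F s t c (insert s T) = c (insert s T) + (sg s T * sg t T) • c (insert t T) := by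
  show (if t ∈ insert s T then (0 : M) else if s ∈ insert s T then
    c (insert s T) + (sg s ((insert s T).erase s) * sg t ((insert s T).erase s)) •
      c (insert t ((insert s T).erase s)) else c (insert s T)) = _
  rw [if_neg ht, if_pos (Finset.mem_insert_self _ _), Finset.erase_insert hs]

theorem cm_n (c : Finset V → M) {T : Finset V} (ht : t ∉ T) (hs : s ∉ T) : cm F s t c T = c T := by
  show (if t ∈ T then (0 : M) else if s ∈ T then _ else c T) = c T
  rw [if_neg ht, if_neg hs]

theorem cm_bd (hst : s ≠ t) (c : Finset V → M) : bd F (cm F s t c) = cm F s t (bd F c) := by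
  classical
  funext U
  by_cases ht : t ∈ U
  · rw [cm_t _ ht, bd_apply]
    refine Finset.sum_eq_zero fun v _ => ?_
    rw [cm_t _ (Finset.mem_insert_of_mem ht), smul_zero]
  by_cases hs : s ∈ U
  · obtain ⟨U0, hU0, rfl⟩ : ∃ U0, s ∉ U0 ∧ U = insert s U0 :=
      ⟨U.erase s, Finset.notMem_erase _ _, (Finset.insert_erase hs).symm⟩
    have ht0 : t ∉ U0 := fun h => ht (Finset.mem_insert_of_mem h)
    rw [cm_s _ hU0 ht, bd_apply, bd_apply, bd_apply]
    have htc : t ∈ (insert s U0)ᶜ := by simpa using ht
    have hsc : s ∈ (insert t U0)ᶜ := by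
      simp only [Finset.mem_compl, Finset.mem_insert, not_or]; exact ⟨hst, hU0⟩
    rw [← Finset.add_sum_erase _ _ htc, ← Finset.add_sum_erase (insert s U0)ᶜ
      (fun v => sg v (insert s U0) • c (insert v (insert s U0))) htc, ← Finset.add_sum_erase (insert t U0)ᶜ
      (fun v => sg v (insert t U0) • c (insert v (insert t U0))) hsc]
    have hset : (insert t U0)ᶜ.erase s = (insert s U0)ᶜ.erase t := by
      ext v; simp only [Finset.mem_erase, Finset.mem_compl, Finset.mem_insert]; tauto
    rw [hset, cm_t _ (Finset.mem_insert_self _ _), smul_zero, zero_add, smul_add, Finset.smul_sum]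
    have key : ∀ v ∈ (insert s U0)ᶜ.erase t,
        sg v (insert s U0) • cm F s t c (insert v (insert s U0)) =
        sg v (insert s U0) • c (insert v (insert s U0)) +
          (sg s U0 * sg t U0) • sg v (insert t U0) • c (insert v (insert t U0)) := by
      intro v hv
      simp only [Finset.mem_erase, Finset.mem_compl, Finset.mem_insert, not_or] at hv
      obtain ⟨hvt, hvs, hvU⟩ := hv
      have h1 : s ∉ insert v U0 := by
        simp only [Finset.mem_insert, not_or]; exact ⟨Ne.symm hvs, hU0⟩
      have h2 : t ∉ insert s (insert v U0) := by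
        simp only [Finset.mem_insert, not_or]; exact ⟨hst.symm, Ne.symm hvt, ht0⟩
      rw [Finset.insert_comm v s U0, cm_s _ h1 h2, smul_add, smul_smul, smul_smul,
        Finset.insert_comm v t U0]
      congr 2
      have e1 := sgn_ne (T := U0) hvs hvU hU0
      have e2 := sgn_ne (T := U0) hvt hvU ht0
      have e3 := sg_mul_self t (insert v U0)
      have e4 := sg_mul_self t U0
      calc sg v (insert s U0) * (sg s (insert v U0) * sg t (insert v U0))
          = - (sg v U0 * sg s U0) * sg t (insert v U0) := by rw [← e1]; ring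
        _ = sg s U0 * sg t U0 * sg v (insert t U0) := by
          have e5 : sg v (insert t U0) = - (sg v U0 * sg t U0) * sg t (insert v U0) := by
            rw [← e2]; linear_combination (-(sg v (insert t U0))) * e3
          rw [e5]
          linear_combination (sg s U0 * sg v U0 * sg t (insert v U0)) * e4
    rw [Finset.sum_congr rfl key, Finset.sum_add_distrib]
    have e6 := sgn_ne (T := U0) hst hU0 ht0
    have e7 : sg t (insert s U0) • c (insert t (insert s U0)) +
        (sg s U0 * sg t U0) • sg s (insert t U0) • c (insert s (insert t U0)) = 0 := by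
      rw [Finset.insert_comm s t U0, smul_smul, ← add_smul]
      have : sg t (insert s U0) + sg s U0 * sg t U0 * sg s (insert t U0) = 0 := by
        have e8 := sg_mul_self s (insert t U0)
        have e9 : sg t (insert s U0) = - (sg s U0 * sg t U0) * sg s (insert t U0) := by
          rw [← e6]; linear_combination (-(sg t (insert s U0))) * e8
        rw [e9]; ring
      rw [this, zero_smul]
    have e10 : ∀ a b x y : M, x + y = 0 → a + b = x + a + (y + b) := by
      intro a b x y h
      have : x + a + (y + b) = (x + y) + (a + b) := by abel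
      rw [this, h, zero_add]
    exact e10 _ _ _ _ e7
  · rw [cm_n _ ht hs, bd_apply, bd_apply]
    have htc : t ∈ Uᶜ := by simpa using ht
    have hsc : s ∈ Uᶜ.erase t := by
      simp only [Finset.mem_erase, Finset.mem_compl]; exact ⟨hst, hs⟩
    rw [← Finset.add_sum_erase _ _ htc, ← Finset.add_sum_erase _ _ hsc,
      ← Finset.add_sum_erase Uᶜ (fun v => sg v U • c (insert v U)) htc,
      ← Finset.add_sum_erase (Uᶜ.erase t) (fun v => sg v U • c (insert v U)) hsc,
      cm_t _ (Finset.mem_insert_self _ _), smul_zero, zero_add,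
      cm_s _ hs (by simp only [Finset.mem_insert, not_or]; exact ⟨hst.symm, ht⟩), smul_add, smul_smul]
    have e1 : sg s U * (sg s U * sg t U) = sg t U := by
      linear_combination (sg t U) * sg_mul_self s U
    rw [e1]
    have key : ∀ v ∈ (Uᶜ.erase t).erase s, sg v U • cm F s t c (insert v U) =
        sg v U • c (insert v U) := by
      intro v hv
      simp only [Finset.mem_erase, Finset.mem_compl] at hv
      rw [cm_n _ (by simp only [Finset.mem_insert, not_or]; exact ⟨Ne.symm hv.2.1, ht⟩)
        (by simp only [Finset.mem_insert, not_or]; exact ⟨Ne.symm hv.1, hs⟩)]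
    rw [Finset.sum_congr rfl key]
    abel


/-! ### cliques -/

theorem clique_insert_iff {G : SimpleGraph V} {x : V} {T : Finset V} (hx : x ∉ T) :
    G.IsClique ((insert x T : Finset V) : Set V) ↔ G.IsClique (T : Set V) ∧ ∀ y ∈ T, G.Adj x y := by
  rw [Finset.coe_insert, SimpleGraph.isClique_insert_of_notMem (by simpa using hx)]
  simp

theorem con_clique_n {T : Finset V} (hs : s ∉ T) (ht : t ∉ T) :
    (con G s t).IsClique (T : Set V) ↔ G.IsClique (T : Set V) := by
  constructor
  · intro h x hx y hy hxy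
    rcases (h hx hy hxy).2.2.2 with h1 | h1 | h1
    · exact h1
    · exact absurd (h1.1 ▸ hx) hs
    · exact absurd (h1.1 ▸ hy) hs
  · intro h x hx y hy hxy
    exact ⟨hxy, fun e => ht (e ▸ hx), fun e => ht (e ▸ hy), Or.inl (h hx hy hxy)⟩

theorem con_clique_s (hst : s ≠ t) {T : Finset V} (hs : s ∉ T) (ht : t ∉ T) :
    (con G s t).IsClique ((insert s T : Finset V) : Set V) ↔
      G.IsClique (T : Set V) ∧ ∀ y ∈ T, G.Adj s y ∨ G.Adj t y := by
  rw [clique_insert_iff hs, con_clique_n hs ht]
  refine and_congr Iff.rfl (forall₂_congr fun y hy => ?_)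
  have hys : y ≠ s := fun e => hs (e ▸ hy)
  have hyt : y ≠ t := fun e => ht (e ▸ hy)
  constructor
  · rintro ⟨-, -, -, h | h | h⟩
    · exact Or.inl h
    · exact Or.inr h.2
    · exact absurd h.1 hys
  · rintro (h | h)
    · exact ⟨hys.symm, hst, hyt, Or.inl h⟩
    · exact ⟨hys.symm, hst, hyt, Or.inr (Or.inl ⟨rfl, h⟩)⟩

/-- each clique of the contraction comes from a clique of the graph -/
theorem clique_lift (hsq : NoSq G s t) {T : Finset V} (hs : s ∉ T) (ht : t ∉ T)
    (h : G.IsClique (T : Set V)) (h2 : ∀ y ∈ T, G.Adj s y ∨ G.Adj t y) :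
    G.IsClique ((insert s T : Finset V) : Set V) ∨ G.IsClique ((insert t T : Finset V) : Set V) := by
  rw [clique_insert_iff hs, clique_insert_iff ht]
  by_contra hcon
  push Not at hcon
  obtain ⟨h3, h4⟩ := hcon
  obtain ⟨x0, hx0, hx0'⟩ := h3 h
  obtain ⟨y0, hy0, hy0'⟩ := h4 h
  have hx1 : G.Adj t x0 := (h2 x0 hx0).resolve_left hx0'
  have hy1 : G.Adj s y0 := (h2 y0 hy0).resolve_right hy0'
  refine hsq y0 x0 hy1 hy0' (fun e => ht (e ▸ hy0)) hx1 hx0' (fun e => hs (e ▸ hx0)) ?_
  exact h hy0 hx0 (fun e => hy0' (e ▸ hx1))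

/-! ### the chain map on the complexes -/

theorem cm_mem (hst : s ≠ t) (hρ : ρ s = ρ t) {i : ℕ} {c : Finset V → M}
    (h : c ∈ KK G ρ Set.univ ∅ i) : cm F s t c ∈ KK (con G s t) ρ {t}ᶜ ∅ i := by
  classical
  rw [mem_KK] at h ⊢
  obtain ⟨h1, h2⟩ := h
  refine ⟨fun T hT => ?_, fun T u hu => ?_⟩
  · by_cases ht : t ∈ T
    · exact cm_t _ ht
    by_cases hs : s ∈ T
    · obtain ⟨U, hU, rfl⟩ : ∃ U, s ∉ U ∧ T = insert s U :=
        ⟨T.erase s, Finset.notMem_erase _ _, (Finset.insert_erase hs).symm⟩
      have htU : t ∉ U := fun h => ht (Finset.mem_insert_of_mem h)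
      rw [cm_s _ hU ht]
      have hA : ((insert s U : Finset V) : Set V) ⊆ {t}ᶜ := by
        intro x hx e
        exact ht (by rw [← Set.mem_singleton_iff.1 e]; exact hx)
      rw [h1 (insert s U), h1 (insert t U), smul_zero, add_zero]
      · rintro ⟨h3, -, h4⟩
        rw [clique_insert_iff htU] at h3
        refine hT ⟨(con_clique_s hst hU htU).2 ⟨h3.1, fun y hy => Or.inr (h3.2 y hy)⟩, hA, ?_⟩
        rw [Finset.card_insert_of_notMem htU] at h4
        rw [Finset.card_insert_of_notMem hU, h4]
      · rintro ⟨h3, -, h4⟩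
        rw [clique_insert_iff hU] at h3
        exact hT ⟨(con_clique_s hst hU htU).2 ⟨h3.1, fun y hy => Or.inl (h3.2 y hy)⟩, hA, h4⟩
    · rw [cm_n _ ht hs]
      refine h1 T ?_
      rintro ⟨h3, -, h4⟩
      refine hT ⟨(con_clique_n hs ht).2 h3, ?_, h4⟩
      intro x hx e
      exact ht (by rw [← Set.mem_singleton_iff.1 e]; exact hx)
  · have hu' : u ∈ T := by
      rcases hu with hu | hu
      · exact hu
      · exact absurd hu (by simp)
    by_cases ht : t ∈ T
    · rw [cm_t _ ht]; simp
    by_cases hs : s ∈ T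
    · obtain ⟨U, hU, rfl⟩ : ∃ U, s ∉ U ∧ T = insert s U :=
        ⟨T.erase s, Finset.notMem_erase _ _, (Finset.insert_erase hs).symm⟩
      rw [cm_s _ hU ht, map_add, map_zsmul, neg_add, ← smul_neg, h2 (insert s U) u (Or.inl hu')]
      congr 2
      rcases Finset.mem_insert.1 hu' with rfl | hu2
      · rw [hρ]
        exact h2 (insert t U) t (Or.inl (Finset.mem_insert_self _ _))
      · exact h2 (insert t U) u (Or.inl (Finset.mem_insert_of_mem hu2))
    · rw [cm_n _ ht hs]
      exact h2 T u (Or.inl hu')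

open Classical in
/-- a lift of a chain -/
noncomputable def lf (G : SimpleGraph V) (s t : V) (y : Finset V → M) (T : Finset V) : M :=
  if t ∈ T then
    if s ∈ T then 0
    else if G.IsClique ((insert s (T.erase t) : Finset V) : Set V) then 0
    else (sg s (T.erase t) * sg t (T.erase t)) • y (insert s (T.erase t))
  else if s ∈ T then
    if G.IsClique (T : Set V) then y T else 0
  else y T

theorem lf_st (y : Finset V → M) {T : Finset V} (ht : t ∈ T) (hs : s ∈ T) : lf G s t y T = 0 := by
  unfold lf
  rw [if_pos ht, if_pos hs]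

theorem lf_n (y : Finset V → M) {T : Finset V} (ht : t ∉ T) (hs : s ∉ T) : lf G s t y T = y T := by
  unfold lf
  rw [if_neg ht, if_neg hs]

theorem lf_s1 (y : Finset V → M) {T : Finset V} (ht : t ∉ T) (hs : s ∈ T)
    (h : G.IsClique (T : Set V)) : lf G s t y T = y T := by
  unfold lf
  rw [if_neg ht, if_pos hs, if_pos h]

theorem lf_s2 (y : Finset V → M) {T : Finset V} (ht : t ∉ T) (hs : s ∈ T)
    (h : ¬ G.IsClique (T : Set V)) : lf G s t y T = 0 := by
  unfold lf
  rw [if_neg ht, if_pos hs, if_neg h]

theorem lf_t1 (y : Finset V → M) {U : Finset V} (ht : t ∉ U) (hs : s ∉ insert t U)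
    (h : G.IsClique ((insert s U : Finset V) : Set V)) : lf G s t y (insert t U) = 0 := by
  unfold lf
  rw [if_pos (Finset.mem_insert_self _ _), if_neg hs, Finset.erase_insert ht, if_pos h]

theorem lf_t2 (y : Finset V → M) {U : Finset V} (ht : t ∉ U) (hs : s ∉ insert t U)
    (h : ¬ G.IsClique ((insert s U : Finset V) : Set V)) :
    lf G s t y (insert t U) = (sg s U * sg t U) • y (insert s U) := by
  unfold lf
  rw [if_pos (Finset.mem_insert_self _ _), if_neg hs, Finset.erase_insert ht, if_neg h]

theorem lf_mem (hst : s ≠ t) (hsq : NoSq G s t) (hρ : ρ s = ρ t) {i : ℕ} {y : Finset V → M}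
    (h : y ∈ KK (con G s t) ρ {t}ᶜ ∅ i) : lf G s t y ∈ KK G ρ Set.univ ∅ i := by
  classical
  rw [mem_KK] at h ⊢
  obtain ⟨h1, h2⟩ := h
  refine ⟨fun T hT => ?_, fun T u hu => ?_⟩
  · by_cases ht : t ∈ T
    · by_cases hs : s ∈ T
      · exact lf_st _ ht hs
      obtain ⟨U, hU, rfl⟩ : ∃ U, t ∉ U ∧ T = insert t U :=
        ⟨T.erase t, Finset.notMem_erase _ _, (Finset.insert_erase ht).symm⟩
      have hsU : s ∉ U := fun h => hs (Finset.mem_insert_of_mem h)
      by_cases hc : G.IsClique ((insert s U : Finset V) : Set V)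
      · exact lf_t1 _ hU hs hc
      · rw [lf_t2 _ hU hs hc, h1, smul_zero]
        rintro ⟨h3, -, h4⟩
        rw [con_clique_s hst hsU hU] at h3
        refine hT ⟨(clique_lift hsq hsU hU h3.1 h3.2).resolve_left hc, Set.subset_univ _, ?_⟩
        rw [Finset.card_insert_of_notMem hsU] at h4
        rw [Finset.card_insert_of_notMem hU, h4]
    · by_cases hs : s ∈ T
      · by_cases hc : G.IsClique (T : Set V)
        · rw [lf_s1 _ ht hs hc]
          refine h1 T ?_
          rintro ⟨-, -, h4⟩
          exact hT ⟨hc, Set.subset_univ _, h4⟩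
        · exact lf_s2 _ ht hs hc
      · rw [lf_n _ ht hs]
        refine h1 T ?_
        rintro ⟨h3, -, h4⟩
        exact hT ⟨(con_clique_n hs ht).1 h3, Set.subset_univ _, h4⟩
  · have hu' : u ∈ T := by
      rcases hu with hu | hu
      · exact hu
      · exact absurd hu (by simp)
    by_cases ht : t ∈ T
    · by_cases hs : s ∈ T
      · rw [lf_st _ ht hs]; simp
      obtain ⟨U, hU, rfl⟩ : ∃ U, t ∉ U ∧ T = insert t U :=
        ⟨T.erase t, Finset.notMem_erase _ _, (Finset.insert_erase ht).symm⟩
      by_cases hc : G.IsClique ((insert s U : Finset V) : Set V)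
      · rw [lf_t1 _ hU hs hc]; simp
      · rw [lf_t2 _ hU hs hc, map_zsmul, ← smul_neg]
        congr 1
        rcases Finset.mem_insert.1 hu' with rfl | hu2
        · rw [← hρ]
          exact h2 _ s (Or.inl (Finset.mem_insert_self _ _))
        · exact h2 _ u (Or.inl (Finset.mem_insert_of_mem hu2))
    · by_cases hs : s ∈ T
      · by_cases hc : G.IsClique (T : Set V)
        · rw [lf_s1 _ ht hs hc]
          exact h2 T u (Or.inl hu')
        · rw [lf_s2 _ ht hs hc]; simp
      · rw [lf_n _ ht hs]
        exact h2 T u (Or.inl hu')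

theorem cm_lf (hst : s ≠ t) {i : ℕ} {y : Finset V → M} (h : y ∈ KK (con G s t) ρ {t}ᶜ ∅ i) :
    cm F s t (lf G s t y) = y := by
  classical
  rw [mem_KK] at h
  funext T
  by_cases ht : t ∈ T
  · rw [cm_t _ ht, h.1 T]
    rintro ⟨-, h3, -⟩
    exact h3 ht rfl
  by_cases hs : s ∈ T
  · obtain ⟨U, hU, rfl⟩ : ∃ U, s ∉ U ∧ T = insert s U :=
      ⟨T.erase s, Finset.notMem_erase _ _, (Finset.insert_erase hs).symm⟩
    have htU : t ∉ U := fun h => ht (Finset.mem_insert_of_mem h)
    have hsU : s ∉ insert t U := by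
      simp only [Finset.mem_insert, not_or]; exact ⟨hst, hU⟩
    rw [cm_s _ hU ht]
    by_cases hc : G.IsClique ((insert s U : Finset V) : Set V)
    · rw [lf_s1 _ ht hs hc, lf_t1 _ htU hsU hc, smul_zero, add_zero]
    · rw [lf_s2 _ ht hs hc, lf_t2 _ htU hsU hc, smul_smul, zero_add]
      have : sg s U * sg t U * (sg s U * sg t U) = 1 := by
        have e1 := sg_mul_self s U
        have e2 := sg_mul_self t U
        calc sg s U * sg t U * (sg s U * sg t U) = (sg s U * sg s U) * (sg t U * sg t U) := by ring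
          _ = 1 := by rw [e1, e2, one_mul]
      rw [this, one_smul]
  · rw [cm_n _ ht hs, lf_n _ ht hs]

/-- the primitive of a cycle in the kernel -/
def pr (F : Type) {V M : Type} [Fintype V] [LinearOrder V] [Field F] [AddCommGroup M] [Module F M]
    (s t : V) (w : Finset V → M) (T : Finset V) : M :=
  if s ∈ T ∧ t ∈ T then sg s (T.erase s) • w (T.erase s) else 0

theorem pr_mem (hadj : G.Adj s t) (hρ : ρ s = ρ t) {i : ℕ} {w : Finset V → M}
    (h : w ∈ KK G ρ Set.univ ∅ i) (h0 : cm F s t w = 0) : pr F s t w ∈ KK G ρ Set.univ ∅ (i + 1) := by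
  classical
  rw [mem_KK] at h ⊢
  obtain ⟨h1, h2⟩ := h
  have hst : s ≠ t := hadj.ne
  refine ⟨fun T hT => ?_, fun T u hu => ?_⟩
  · unfold pr
    by_cases hT2 : s ∈ T ∧ t ∈ T
    · obtain ⟨hs, ht⟩ := hT2
      obtain ⟨U, hU, rfl⟩ : ∃ U, s ∉ U ∧ T = insert s U :=
        ⟨T.erase s, Finset.notMem_erase _ _, (Finset.insert_erase hs).symm⟩
      have htU : t ∈ U := (Finset.mem_insert.1 ht).resolve_left hst.symm
      rw [if_pos ⟨hs, ht⟩, Finset.erase_insert hU]
      by_contra hne
      have hw : w U ≠ 0 := fun e => hne (by rw [e, smul_zero])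
      obtain ⟨U0, hU0, rfl⟩ : ∃ U0, t ∉ U0 ∧ U = insert t U0 :=
        ⟨U.erase t, Finset.notMem_erase _ _, (Finset.insert_erase htU).symm⟩
      have hsU0 : s ∉ U0 := fun h => hU (Finset.mem_insert_of_mem h)
      have htU0 : t ∉ insert s U0 := by
        simp only [Finset.mem_insert, not_or]; exact ⟨hst.symm, hU0⟩
      have hk := congrFun h0 (insert s U0)
      rw [cm_s _ hsU0 htU0, Pi.zero_apply] at hk
      have hw2 : w (insert s U0) ≠ 0 := by
        intro e
        rw [e, zero_add] at hk
        apply hw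
        have e1 : (sg s U0 * sg t U0) • (sg s U0 * sg t U0) • w (insert t U0) = 0 := by
          rw [hk, smul_zero]
        rw [smul_smul] at e1
        have e2 : sg s U0 * sg t U0 * (sg s U0 * sg t U0) = 1 := by
          have e1 := sg_mul_self s U0
          have e2 := sg_mul_self t U0
          calc sg s U0 * sg t U0 * (sg s U0 * sg t U0) = (sg s U0 * sg s U0) * (sg t U0 * sg t U0) := by
                ring
            _ = 1 := by rw [e1, e2, one_mul]
        rwa [e2, one_smul] at e1
      have c1 : G.IsClique ((insert t U0 : Finset V) : Set V) ∧ (insert t U0).card = i := by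
        by_contra hc
        exact hw (h1 _ fun h => hc ⟨h.1, h.2.2⟩)
      have c2 : G.IsClique ((insert s U0 : Finset V) : Set V) := by
        by_contra hc
        exact hw2 (h1 _ fun h => hc h.1)
      refine hT ⟨?_, Set.subset_univ _, ?_⟩
      · rw [clique_insert_iff hU]
        refine ⟨c1.1, fun y hy => ?_⟩
        rcases Finset.mem_insert.1 hy with rfl | hy
        · exact hadj
        · exact ((clique_insert_iff hsU0).1 c2).2 y hy
      · rw [Finset.card_insert_of_notMem hU, c1.2]
    · rw [if_neg hT2]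
  · have hu' : u ∈ T := by
      rcases hu with hu | hu
      · exact hu
      · exact absurd hu (by simp)
    unfold pr
    by_cases hT2 : s ∈ T ∧ t ∈ T
    · rw [if_pos hT2, map_zsmul, ← smul_neg]
      congr 1
      by_cases hus : u = s
      · subst hus
        rw [hρ]
        exact h2 _ t (Or.inl (Finset.mem_erase.2 ⟨hst.symm, hT2.2⟩))
      · exact h2 _ u (Or.inl (Finset.mem_erase.2 ⟨hus, hu'⟩))
    · rw [if_neg hT2]; simp

theorem pr_bd (hst : s ≠ t) {w : Finset V → M} (h0 : cm F s t w = 0) (hb : bd F w = 0) :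
    bd F (pr F s t w) = w := by
  classical
  funext U
  rw [bd_apply]
  by_cases hs : s ∈ U
  · by_cases ht : t ∈ U
    · obtain ⟨W, hW, rfl⟩ : ∃ W, s ∉ W ∧ U = insert s W :=
        ⟨U.erase s, Finset.notMem_erase _ _, (Finset.insert_erase hs).symm⟩
      have htW : t ∈ W := (Finset.mem_insert.1 ht).resolve_left hst.symm
      have key : ∀ v ∈ (insert s W)ᶜ, sg v (insert s W) • pr F s t w (insert v (insert s W)) =
          - (sg s W • sg v W • w (insert v W)) := by
        intro v hv
        simp only [Finset.mem_compl, Finset.mem_insert, not_or] at hv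
        have h1 : s ∉ insert v W := by
          simp only [Finset.mem_insert, not_or]; exact ⟨Ne.symm hv.1, hW⟩
        unfold pr
        rw [if_pos ⟨by simp, by simp [htW]⟩, Finset.insert_comm v s W, Finset.erase_insert h1,
          smul_smul, smul_smul, ← neg_smul, sgn_ne hv.1 hv.2 hW, mul_comm (sg v W)]
      rw [Finset.sum_congr rfl key, Finset.sum_neg_distrib]
      have hbW := congrFun hb W
      rw [bd_apply, Pi.zero_apply, ← Finset.add_sum_erase _ _ (show s ∈ Wᶜ by simpa using hW)] at hbW
      have hset : Wᶜ.erase s = (insert s W)ᶜ := by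
        ext v; simp only [Finset.mem_erase, Finset.mem_compl, Finset.mem_insert, not_or]
      rw [hset] at hbW
      rw [← Finset.smul_sum, eq_neg_of_add_eq_zero_right hbW, smul_neg, smul_smul, sg_mul_self,
        one_smul, neg_neg]
    · obtain ⟨W, hW, rfl⟩ : ∃ W, s ∉ W ∧ U = insert s W :=
        ⟨U.erase s, Finset.notMem_erase _ _, (Finset.insert_erase hs).symm⟩
      have htW : t ∉ W := fun h => ht (Finset.mem_insert_of_mem h)
      rw [Finset.sum_eq_single_of_mem t (by simpa using ht)]
      · unfold pr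
        have h1 : (insert t (insert s W)).erase s = insert t W := by
          rw [Finset.insert_comm, Finset.erase_insert]
          simp only [Finset.mem_insert, not_or]; exact ⟨hst, hW⟩
        rw [if_pos ⟨by simp, by simp⟩, h1, smul_smul, mul_comm, sgn_ne hst hW htW]
        have hk := congrFun h0 (insert s W)
        rw [cm_s _ hW ht, Pi.zero_apply] at hk
        rw [neg_smul]
        exact (eq_neg_of_add_eq_zero_left hk).symm
      · intro v _ hvt
        unfold pr
        rw [if_neg, smul_zero]
        rintro ⟨-, h⟩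
        exact ht ((Finset.mem_insert.1 h).resolve_left (Ne.symm hvt))
  · by_cases ht : t ∈ U
    · rw [Finset.sum_eq_single_of_mem s (by simpa using hs)]
      · unfold pr
        rw [if_pos ⟨by simp, by simp [ht]⟩, Finset.erase_insert hs, smul_smul, sg_mul_self, one_smul]
      · intro v _ hvs
        unfold pr
        rw [if_neg, smul_zero]
        rintro ⟨h, -⟩
        exact hs ((Finset.mem_insert.1 h).resolve_left (Ne.symm hvs))
    · have hk := congrFun h0 U
      rw [cm_n _ ht hs, Pi.zero_apply] at hk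
      rw [hk]
      refine Finset.sum_eq_zero fun v _ => ?_
      unfold pr
      rw [if_neg, smul_zero]
      rintro ⟨h3, h4⟩
      rcases Finset.mem_insert.1 h3 with rfl | h3
      · exact ht ((Finset.mem_insert.1 h4).resolve_left hst.symm)
      · exact hs h3

/-- Contraction of an edge which is not contained in an induced 4-cycle. -/
theorem beta_con (hmid : S_MID) [FiniteDimensional F M] (hadj : G.Adj s t) (hsq : NoSq G s t)
    (hρ : ρ s = ρ t) (i : ℕ) :
    beta G ρ Set.univ ∅ i ≤ beta (con G s t) ρ {t}ᶜ ∅ i := by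
  have hst : s ≠ t := hadj.ne
  have h := hmid F PUnit (Finset V → M) (Finset V → M) 0 (cm F s t) ⊥ ⊥
    (BB G ρ Set.univ ∅ i) (ZZ G ρ Set.univ ∅ i) (BB (con G s t) ρ {t}ᶜ ∅ i) (ZZ (con G s t) ρ {t}ᶜ ∅ i)
    le_rfl (BB_le_ZZ _ _ _ _ _) (BB_le_ZZ _ _ _ _ _) (by simp) ?_ ?_
  · have h0 : finrank F (⊥ : Submodule F PUnit) = 0 := finrank_bot _ _
    rw [h0, Nat.sub_self, zero_add] at h
    exact h
  · rintro _ ⟨z, ⟨hz1, hz2⟩, rfl⟩
    have hz2 : bd F z = 0 := hz2
    refine ⟨cm_mem hst hρ hz1, ?_⟩
    show bd F (cm F s t z) = 0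
    rw [cm_bd hst, hz2, map_zero]
  · rintro z ⟨hz1, hz2⟩ ⟨y, hy, hyz⟩
    have hz2 : bd F z = 0 := hz2
    have hl := lf_mem (ρ := ρ) hst hsq hρ hy
    set w := z - bd F (lf G s t y) with hw
    have hw1 : w ∈ KK G ρ Set.univ ∅ i := sub_mem hz1 (bd_mem_KK hl)
    have hw2 : bd F w = 0 := by rw [hw, map_sub, hz2, bd_bd, sub_zero]
    have hw3 : cm F s t w = 0 := by
      rw [hw, map_sub, ← cm_bd hst, cm_lf hst hy, hyz, sub_self]
    refine ⟨0, Submodule.zero_mem _, z, ?_, by simp⟩
    refine ⟨lf G s t y + pr F s t w, add_mem hl (pr_mem hadj hρ hw1 hw3), ?_⟩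
    rw [map_add, pr_bd hst hw3 hw2, hw]
    abel

end Pool.Agent.R781.VS
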