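import Pool.Agent.H7.L.R781_VS_Contr

/-!
# The deformation

`E = M[x] / x^(n+1)`, with `x` acting as the shift `sh`. The generators `s` and `t` act by
`c (d + x σ (1 + d))`.
-/

set_option autoImplicit false

namespace Pool.Agent.R781.VS

open Module Pool.Agent.W907.SG

variable {V F M : Type} [Fintype V] [LinearOrder V] [Field F] [AddCommGroup M] [Module F M]

/-- multiplication by `x` -/
def sh (F : Type) {M : Type} [Field F] [AddCommGroup M] [Module F M] {n : ℕ} :
    (Fin (n + 1) → M) →ₗ[F] (Fin (n + 1) → M) where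
  toFun w := Fin.cons 0 (fun i : Fin n => w i.castSucc)
  map_add' f g := by
    funext j
    refine Fin.cases ?_ (fun i => ?_) j <;> simp
  map_smul' a f := by
    funext j
    refine Fin.cases ?_ (fun i => ?_) j <;> simp

theorem sh_zero {n : ℕ} (w : Fin (n + 1) → M) : sh F w 0 = 0 := rfl

theorem sh_succ {n : ℕ} (w : Fin (n + 1) → M) (i : Fin n) : sh F w i.succ = w i.castSucc := rfl

/-- the relations between the operators -/
structure Rel (G : SimpleGraph V) (s t : V) (b : V → M →ₗ[F] M) (c d σ : M →ₗ[F] M) : Prop where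
  c2 : ∀ m, c (c m) = m
  d2 : ∀ m, d (d m) = m
  s2 : ∀ m, σ (σ m) = m
  cd : ∀ m, c (d m) = d (c m)
  cs : ∀ m, c (σ m) = σ (c m)
  sd : ∀ m, σ (d m) = - d (σ m)
  bs : ∀ v, v ≠ s → v ≠ t → ∀ m, b v (σ m) = σ (b v m)
  bc : ∀ v, v ≠ s → v ≠ t → (G.Adj v s ∨ G.Adj v t) → ∀ m, b v (c m) = c (b v m)
  bd : ∀ v, v ≠ s → v ≠ t → (G.Adj v s ∨ G.Adj v t) → ∀ m, b v (d m) = d (b v m)

/-- the action of `s` and `t` -/
def defs {n : ℕ} (c d σ : M →ₗ[F] M) : (Fin (n + 1) → M) →ₗ[F] (Fin (n + 1) → M) where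
  toFun w j := c (d (w j) + σ (sh F w j + d (sh F w j)))
  map_add' f g := by
    funext j
    simp only [map_add, Pi.add_apply]
    abel
  map_smul' a f := by
    funext j
    simp only [map_smul, Pi.smul_apply, RingHom.id_apply, ← smul_add]

theorem defs_apply {n : ℕ} (c d σ : M →ₗ[F] M) (w : Fin (n + 1) → M) (j : Fin (n + 1)) :
    defs c d σ w j = c (d (w j) + σ (sh F w j + d (sh F w j))) := rfl

/-- the action of the generators on `E` -/
def dr {n : ℕ} (s t : V) (b : V → M →ₗ[F] M) (c d σ : M →ₗ[F] M) (v : V) :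
    (Fin (n + 1) → M) →ₗ[F] (Fin (n + 1) → M) :=
  if v = s ∨ v = t then defs c d σ else (b v).compLeft (Fin (n + 1))

/-- the limit action -/
def lr (s t : V) (b : V → M →ₗ[F] M) (d : M →ₗ[F] M) (ε : V → F) (v : V) : M →ₗ[F] M :=
  if v = s ∨ v = t then d else ε v • b v

/-- the sign attached to a face -/
def eT (s t : V) (ε : V → F) (T : Finset V) : F := if s ∈ T then ε s else ε t

/-- half of the projection: `(1 - e c) / 2` -/
def Pm (c : M →ₗ[F] M) (e : F) : M →ₗ[F] M := (2 : F)⁻¹ • (LinearMap.id - e • c)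

/-- half of the projection: `(1 + e c) / 2` -/
def Pp (c : M →ₗ[F] M) (e : F) : M →ₗ[F] M := (2 : F)⁻¹ • (LinearMap.id + e • c)

theorem Pm_apply (c : M →ₗ[F] M) (e : F) (m : M) : Pm c e m = (2 : F)⁻¹ • (m - e • c m) := rfl

theorem Pp_apply (c : M →ₗ[F] M) (e : F) (m : M) : Pp c e m = (2 : F)⁻¹ • (m + e • c m) := rfl

/-- the correction term -/
def Qc (s t : V) (c σ : M →ₗ[F] M) (ε : V → F) (z : Finset V → M) (T : Finset V) : M :=
  if s ∈ T ∨ t ∈ T then σ (Pm c (eT s t ε T) (z T)) else 0

/-- the map from sequences of limit chains to chains -/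
def Lc {n : ℕ} (s t : V) (c σ : M →ₗ[F] M) (ε : V → F) :
    (Fin (n + 1) → (Finset V → M)) →ₗ[F] (Finset V → (Fin (n + 1) → M)) where
  toFun cs T j := sh F cs j T + Qc s t c σ ε (cs j) T
  map_add' f g := by
    funext T j
    simp only [map_add, Pi.add_apply, Qc]
    split_ifs
    · abel
    · abel
  map_smul' a f := by
    funext T j
    simp only [map_smul, Pi.smul_apply, RingHom.id_apply, Qc, smul_add]
    split_ifs
    · rfl
    · rw [smul_zero]

theorem Lc_apply {n : ℕ} (s t : V) (c σ : M →ₗ[F] M) (ε : V → F) (cs : Fin (n + 1) → (Finset V → M))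
    (T : Finset V) (j : Fin (n + 1)) :
    Lc s t c σ ε cs T j = sh F cs j T + Qc s t c σ ε (cs j) T := rfl

section eig
variable {G : SimpleGraph V} {s t : V} {b : V → M →ₗ[F] M} {c d σ : M →ₗ[F] M}

theorem ee {e : F} (h : e = 1 ∨ e = -1) : e * e = 1 := by
  rcases h with h | h <;> rw [h] <;> ring


section P
omit [Fintype V] [LinearOrder V]

theorem Pp_add_Pm (h2 : (2 : F) ≠ 0) (c : M →ₗ[F] M) (e : F) (m : M) : Pp c e m + Pm c e m = m := by
  rw [Pp_apply, Pm_apply, ← smul_add]
  have : m + e • c m + (m - e • c m) = (2 : F) • m := by rw [two_smul]; abel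
  rw [this, smul_smul, inv_mul_cancel₀ h2, one_smul]

theorem ec_Pm {c : M →ₗ[F] M} (hc : ∀ m, c (c m) = m) {e : F} (he : e * e = 1) (m : M) :
    e • c (Pm c e m) = - Pm c e m := by
  rw [Pm_apply, map_smul, map_sub, map_smul, hc, smul_comm, ← smul_neg, smul_sub, smul_smul, he, one_smul,
    neg_sub]

theorem ec_Pp {c : M →ₗ[F] M} (hc : ∀ m, c (c m) = m) {e : F} (he : e * e = 1) (m : M) :
    e • c (Pp c e m) = Pp c e m := by
  rw [Pp_apply, map_smul, map_add, map_smul, hc, smul_comm, smul_add, smul_smul, he, one_smul, add_comm]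

theorem Pm_comm {c f : M →ₗ[F] M} (h : ∀ m, f (c m) = c (f m)) (e : F) (m : M) :
    f (Pm c e m) = Pm c e (f m) := by
  rw [Pm_apply, Pm_apply, map_smul, map_sub, map_smul, h]

theorem Pp_comm {c f : M →ₗ[F] M} (h : ∀ m, f (c m) = c (f m)) (e : F) (m : M) :
    f (Pp c e m) = Pp c e (f m) := by
  rw [Pp_apply, Pp_apply, map_smul, map_add, map_smul, h]

theorem Pm_Pp {c : M →ₗ[F] M} (hc : ∀ m, c (c m) = m) {e : F} (he : e * e = 1) (m : M) :
    Pm c e (Pp c e m) = 0 := by
  rw [Pm_apply, ec_Pp hc he, sub_self, smul_zero]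

theorem Pp_Pm {c : M →ₗ[F] M} (hc : ∀ m, c (c m) = m) {e : F} (he : e * e = 1) (m : M) :
    Pp c e (Pm c e m) = 0 := by
  rw [Pp_apply, ec_Pm hc he, add_neg_cancel, smul_zero]

theorem Pp_Pp (h2 : (2 : F) ≠ 0) {c : M →ₗ[F] M} (hc : ∀ m, c (c m) = m) {e : F} (he : e * e = 1) (m : M) :
    Pp c e (Pp c e m) = Pp c e m := by
  rw [Pp_apply c e (Pp c e m), ec_Pp hc he, ← two_smul F, smul_smul, inv_mul_cancel₀ h2, one_smul]

theorem Pm_Pm (h2 : (2 : F) ≠ 0) {c : M →ₗ[F] M} (hc : ∀ m, c (c m) = m) {e : F} (he : e * e = 1) (m : M) :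
    Pm c e (Pm c e m) = Pm c e m := by
  rw [Pm_apply c e (Pm c e m), ec_Pm hc he, sub_neg_eq_add, ← two_smul F, smul_smul, inv_mul_cancel₀ h2,
    one_smul]

end P

/-- the lifted chains are eigenvectors -/
theorem eig_up (h2 : (2 : F) ≠ 0) (R : Rel G s t b c d σ) {e : F} (he : e * e = 1) {m m' m'' : M}
    (hm : d m = - m) (hm' : d m' = - m') (hm'' : d m'' = - m'') :
    e • c (d (m' + σ (Pm c e m)) + σ ((m'' + σ (Pm c e m')) + d (m'' + σ (Pm c e m')))) =
      - (m' + σ (Pm c e m)) := by
  have hdc : ∀ m, d (c m) = c (d m) := fun m => (R.cd m).symm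
  have e1 : ∀ x, d x = - x → d (σ (Pm c e x)) = σ (Pm c e x) := by
    intro x hx
    have h := R.sd (Pm c e x)
    rw [Pm_comm hdc, hx, map_neg, map_neg, neg_inj] at h
    exact h.symm
  have e2 : (m'' + σ (Pm c e m')) + d (m'' + σ (Pm c e m')) = (2 : F) • σ (Pm c e m') := by
    rw [map_add, hm'', e1 _ hm', two_smul]; abel
  rw [e2, map_smul, R.s2, map_add d, hm', e1 _ hm]
  have e3 : - m' + σ (Pm c e m) + (2 : F) • Pm c e m' = - Pp c e m' + Pm c e m' + σ (Pm c e m) := by
    have h := Pp_add_Pm h2 c e m'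
    rw [two_smul]
    nth_rw 1 [← h]
    abel
  have hσc : ∀ m, σ (c m) = c (σ m) := fun m => (R.cs m).symm
  rw [e3, map_add, map_add, map_neg, smul_add, smul_add, smul_neg, ec_Pp R.c2 he, ec_Pm R.c2 he,
    Pm_comm hσc, ec_Pm R.c2 he]
  nth_rw 3 [← Pp_add_Pm h2 c e m']
  abel

/-- the components of the eigenvectors -/
theorem eig_down (h2 : (2 : F) ≠ 0) (R : Rel G s t b c d σ) {e : F} (he : e * e = 1) {y z : M}
    (h : e • c (d y + σ (z + d z)) = - y) :
    d (Pp c e y) = - Pp c e y ∧ Pm c e y - d (Pm c e y) = σ (Pm c e z + d (Pm c e z)) := by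
  have hdc : ∀ m, d (c m) = c (d m) := fun m => (R.cd m).symm
  have hσc : ∀ m, σ (c m) = c (σ m) := fun m => (R.cs m).symm
  have hA : d y + σ (z + d z) = - (e • c y) := by
    have h3 : e • c (e • c (d y + σ (z + d z))) = e • c (- y) := by rw [h]
    rw [map_smul, R.c2, smul_smul, he, one_smul, map_neg, smul_neg] at h3
    exact h3
  have hP : d (Pp c e y) + σ (Pp c e z + d (Pp c e z)) = - Pp c e y := by
    have h3 := congrArg (Pp c e) hA
    rw [map_add, ← Pp_comm hdc, ← Pp_comm hσc, map_add, ← Pp_comm hdc, map_neg, map_smul,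
      ← Pp_comm (fun m => rfl), ec_Pp R.c2 he] at h3
    exact h3
  have hM : d (Pm c e y) + σ (Pm c e z + d (Pm c e z)) = Pm c e y := by
    have h3 := congrArg (Pm c e) hA
    rw [map_add, ← Pm_comm hdc, ← Pm_comm hσc, map_add, ← Pm_comm hdc, map_neg, map_smul,
      ← Pm_comm (fun m => rfl), ec_Pm R.c2 he, neg_neg] at h3
    exact h3
  refine ⟨?_, ?_⟩
  · -- `(1 + d) p = 0`
    set p := Pp c e y
    set q := Pp c e z
    have h3 : p + d p = - σ (q + d q) := by
      rw [← eq_sub_iff_add_eq] at hP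
      rw [hP]; abel
    have h4 : d (p + d p) = p + d p := by rw [map_add, R.d2]; abel
    have h5 : d (σ (q + d q)) = - σ (q + d q) := by
      have := R.sd (q + d q)
      rw [map_add, R.d2] at this
      have h6 : d q + q = q + d q := by abel
      rw [h6] at this
      exact (neg_eq_iff_eq_neg.2 this).symm
    rw [h3, map_neg, h5, neg_neg] at h4
    have h6 : (2 : F) • σ (q + d q) = 0 := by
      rw [two_smul]
      nth_rw 1 [h4]
      abel
    have h7 : σ (q + d q) = 0 := (smul_eq_zero.1 h6).resolve_left h2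
    rw [h7, neg_zero] at h3
    exact eq_neg_of_add_eq_zero_right h3
  · rw [sub_eq_iff_eq_add, add_comm]
    exact hM.symm

end eig

/-! ### the chain groups -/

section chains
variable {G G0 : SimpleGraph V} {s t : V} {b : V → M →ₗ[F] M} {c d σ : M →ₗ[F] M} {ε : V → F}
  {n : ℕ}

theorem eT_sq (hε : ∀ v, ε v * ε v = 1) (T : Finset V) : eT s t ε T * eT s t ε T = 1 := by
  unfold eT
  split_ifs
  · exact hε s
  · exact hε t

theorem Qc_st (z : Finset V → M) {T : Finset V} (h : s ∈ T ∨ t ∈ T) :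
    Qc s t c σ ε z T = σ (Pm c (eT s t ε T) (z T)) := if_pos h

theorem Qc_n (z : Finset V → M) {T : Finset V} (h : ¬ (s ∈ T ∨ t ∈ T)) :
    Qc s t c σ ε z T = 0 := if_neg h

theorem Lc_zero (cs : Fin (n + 1) → (Finset V → M)) (T : Finset V) :
    Lc s t c σ ε cs T 0 = Qc s t c σ ε (cs 0) T := by
  rw [Lc_apply, sh_zero, Pi.zero_apply, zero_add]

theorem Lc_succ (cs : Fin (n + 1) → (Finset V → M)) (T : Finset V) (i : Fin n) :
    Lc s t c σ ε cs T i.succ = cs i.castSucc T + Qc s t c σ ε (cs i.succ) T := by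
  rw [Lc_apply, sh_succ]

/-- the lifted chains are chains -/
theorem Lc_mem (h2 : (2 : F) ≠ 0) (R : Rel G s t b c d σ) (hε : ∀ v, ε v * ε v = 1)
    (hG1 : ∀ T : Finset V, G0.IsClique (T : Set V) → G.IsClique (T : Set V))
    (hG2 : ∀ T : Finset V, G0.IsClique (T : Set V) → s ∈ T → t ∈ T → ε s = ε t) {k : ℕ}
    {cs : Fin (n + 1) → (Finset V → M)} (h : ∀ j, cs j ∈ KK G0 (lr s t b d ε) Set.univ ∅ k) :
    Lc s t c σ ε cs ∈ KK G (fun v => ε v • dr s t b c d σ v) Set.univ ∅ k := by
  classical
  rw [mem_KK]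
  refine ⟨fun T hT => ?_, fun T u hu => ?_⟩
  · have h0 : ∀ j, cs j T = 0 := fun j => ((mem_KK.1 (h j)).1 T) fun h => hT ⟨hG1 T h.1, h.2.1, h.2.2⟩
    funext j
    rw [Pi.zero_apply]
    refine Fin.cases ?_ (fun i => ?_) j
    · rw [Lc_zero]
      unfold Qc
      rw [h0, map_zero, map_zero, ite_self]
    · rw [Lc_succ, h0]
      unfold Qc
      rw [h0, map_zero, map_zero, ite_self, zero_add]
  · have hu : u ∈ T := by
      rcases hu with hu | hu
      · exact hu
      · exact absurd hu (by simp)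
    by_cases hc : G0.IsClique (T : Set V)
    swap
    · have h0 : ∀ j, cs j T = 0 := fun j => ((mem_KK.1 (h j)).1 T) fun h => hc h.1
      have h1 : Lc s t c σ ε cs T = 0 := by
        funext j
        rw [Pi.zero_apply]
        refine Fin.cases ?_ (fun i => ?_) j
        · rw [Lc_zero]
          unfold Qc
          rw [h0, map_zero, map_zero, ite_self]
        · rw [Lc_succ, h0]
          unfold Qc
          rw [h0, map_zero, map_zero, ite_self, zero_add]
      rw [h1, map_zero, neg_zero]
    have hcG := hG1 T hc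
    have hE : ∀ j, ∀ v ∈ T, lr s t b d ε v (cs j T) = - cs j T := fun j v hv =>
      (mem_KK.1 (h j)).2 T v (Or.inl hv)
    funext j
    show ε u • dr s t b c d σ u (Lc s t c σ ε cs T) j = - Lc s t c σ ε cs T j
    by_cases hst : u = s ∨ u = t
    · have hT2 : s ∈ T ∨ t ∈ T := by rcases hst with h | h <;> rw [← h] <;> simp [hu]
      have hdj : ∀ j, d (cs j T) = - cs j T := by
        intro j
        have := hE j u hu
        unfold lr at this
        rwa [if_pos hst] at this
      have heu : ε u = eT s t ε T := by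
        unfold eT
        split_ifs with hs
        · rcases hst with h | h
          · rw [h]
          · rw [h]
            exact (hG2 T hc hs (h ▸ hu)).symm
        · rcases hst with h | h
          · exact absurd (h ▸ hu) hs
          · rw [h]
      have hdr : dr (n := n) s t b c d σ u = defs c d σ := if_pos hst
      rw [heu, hdr, defs_apply]
      have key : ∀ (m m' m'' : M), d m = - m → d m' = - m' → d m'' = - m'' → ∀ y z : M,
          y = m' + σ (Pm c (eT s t ε T) m) → z = m'' + σ (Pm c (eT s t ε T) m') →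
          eT s t ε T • c (d y + σ (z + d z)) = - y := by
        intro m m' m'' h3 h4 h5 y z hy hz
        rw [hy, hz]
        exact eig_up h2 R (eT_sq hε T) h3 h4 h5
      refine Fin.cases ?_ (fun i => ?_) j
      · refine key (cs 0 T) 0 0 (hdj 0) (by simp) (by simp) _ _ ?_ ?_
        · rw [Lc_zero, Qc_st _ hT2, zero_add]
        · rw [sh_zero, map_zero, map_zero, zero_add]
      · rw [sh_succ]
        obtain ⟨m'', hm1, hm2⟩ : ∃ m'' : M, d m'' = - m'' ∧
            Lc s t c σ ε cs T i.castSucc = m'' + σ (Pm c (eT s t ε T) (cs i.castSucc T)) := by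
          generalize i.castSucc = l
          refine Fin.cases ?_ (fun k => ?_) l
          · exact ⟨0, by simp, by rw [Lc_zero, Qc_st _ hT2, zero_add]⟩
          · exact ⟨cs k.castSucc T, hdj _, by rw [Lc_succ, Qc_st _ hT2]⟩
        refine key (cs i.succ T) (cs i.castSucc T) m'' (hdj _) (hdj _) hm1 _ _ ?_ hm2
        rw [Lc_succ, Qc_st _ hT2]
    · have hus : u ≠ s := fun h => hst (Or.inl h)
      have hut : u ≠ t := fun h => hst (Or.inr h)
      have hbj : ∀ j, ε u • b u (cs j T) = - cs j T := by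
        intro j
        have := hE j u hu
        unfold lr at this
        rwa [if_neg hst] at this
      have hdr : dr (n := n) s t b c d σ u = (b u).compLeft (Fin (n + 1)) := if_neg hst
      rw [hdr]
      show ε u • b u (Lc s t c σ ε cs T j) = - Lc s t c σ ε cs T j
      have hQ : ∀ j, ε u • b u (Qc s t c σ ε (cs j) T) = - Qc s t c σ ε (cs j) T := by
        intro j
        by_cases hT2 : s ∈ T ∨ t ∈ T
        · rw [Qc_st _ hT2]
          have hadj : G.Adj u s ∨ G.Adj u t := by
            rcases hT2 with h | h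
            · exact Or.inl (hcG hu h hus)
            · exact Or.inr (hcG hu h hut)
          rw [R.bs u hus hut, Pm_comm (R.bc u hus hut hadj), ← map_smul, ← map_smul, hbj, map_neg, map_neg]
        · rw [Qc_n _ hT2, map_zero, smul_zero, neg_zero]
      refine Fin.cases ?_ (fun i => ?_) j
      · rw [Lc_zero, hQ]
      · rw [Lc_succ, map_add, smul_add, hbj, hQ, neg_add]

theorem bd_Lc_zero (cs : Fin (n + 1) → (Finset V → M)) (T : Finset V) :
    bd F (Lc s t c σ ε cs) T 0 = bd F (Qc s t c σ ε (cs 0)) T := by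
  rw [bd_apply, bd_apply, Finset.sum_apply]
  refine Finset.sum_congr rfl fun v _ => ?_
  rw [Pi.smul_apply, Lc_zero]

theorem bd_Lc_succ (cs : Fin (n + 1) → (Finset V → M)) (T : Finset V) (i : Fin n) :
    bd F (Lc s t c σ ε cs) T i.succ = bd F (cs i.castSucc) T + bd F (Qc s t c σ ε (cs i.succ)) T := by
  rw [bd_apply, bd_apply, bd_apply, Finset.sum_apply, ← Finset.sum_add_distrib]
  refine Finset.sum_congr rfl fun v _ => ?_
  rw [Pi.smul_apply, Lc_succ, smul_add]

/-- the rank of the boundary operator -/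
theorem rank_up [FiniteDimensional F M] (h2 : (2 : F) ≠ 0) (R : Rel G s t b c d σ)
    (hε : ∀ v, ε v * ε v = 1)
    (hG1 : ∀ T : Finset V, G0.IsClique (T : Set V) → G.IsClique (T : Set V))
    (hG2 : ∀ T : Finset V, G0.IsClique (T : Set V) → s ∈ T → t ∈ T → ε s = ε t) (k : ℕ) :
    n * finrank F (BB G0 (lr s t b d ε) Set.univ ∅ k) ≤
      finrank F (BB G (fun v => ε v • dr (n := n) s t b c d σ v) Set.univ ∅ k) := by
  classical
  obtain ⟨g, hg1, hg2⟩ : ∃ g : ↥(BB G0 (lr s t b d ε) Set.univ ∅ k) →ₗ[F] (Finset V → M),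
      (∀ y, g y ∈ KK G0 (lr s t b d ε) Set.univ ∅ (k + 1)) ∧ ∀ y, bd F (g y) = y.1 := by
    obtain ⟨g, hg⟩ := ((bd F (V := V) (M := M)).submoduleMap
      (KK G0 (lr s t b d ε) Set.univ ∅ (k + 1))).exists_rightInverse_of_surjective
        (LinearMap.range_eq_top.2 (LinearMap.submoduleMap_surjective _ _))
    exact ⟨(KK G0 (lr s t b d ε) Set.univ ∅ (k + 1)).subtype.comp g, fun y => (g y).2,
      fun y => congrArg (fun f => (f y).1) hg⟩
  -- the sequences
  obtain ⟨cs, hcs1, hcs2⟩ : ∃ cs : (Fin n → ↥(BB G0 (lr s t b d ε) Set.univ ∅ k)) →ₗ[F]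
      (Fin (n + 1) → (Finset V → M)), (∀ β (i : Fin n), cs β i.castSucc = g (β i)) ∧
      ∀ β, cs β (Fin.last n) = 0 := by
    refine ⟨{ toFun := fun β => Fin.snoc (α := fun _ => Finset V → M) (fun j => g (β j)) 0
              map_add' := fun f g' => ?_
              map_smul' := fun a f => ?_ }, fun β i => ?_, fun β => ?_⟩
    · funext j
      refine Fin.lastCases ?_ (fun i => ?_) j
      · simp
      · simp
    · funext j
      refine Fin.lastCases ?_ (fun i => ?_) j
      · simp
      · simp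
    · simp
    · simp
  have hmem : ∀ β j, cs β j ∈ KK G0 (lr s t b d ε) Set.univ ∅ (k + 1) := by
    intro β j
    refine Fin.lastCases ?_ (fun i => ?_) j
    · rw [hcs2]; exact Submodule.zero_mem _
    · rw [hcs1]; exact hg1 _
  let f : (Fin n → ↥(BB G0 (lr s t b d ε) Set.univ ∅ k)) →ₗ[F]
      ↥(BB G (fun v => ε v • dr (n := n) s t b c d σ v) Set.univ ∅ k) :=
    ((bd F).comp ((Lc s t c σ ε).comp cs)).codRestrict _ fun β =>
      ⟨Lc s t c σ ε (cs β), Lc_mem h2 R hε hG1 hG2 (hmem β), rfl⟩
  have hf : Function.Injective f := by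
    rw [injective_iff_map_eq_zero]
    intro β hβ
    have hβ' : bd F (Lc s t c σ ε (cs β)) = 0 := congrArg Subtype.val hβ
    have hall : ∀ j : Fin (n + 1), cs β j = 0 := by
      intro j
      refine Fin.reverseInduction (motive := fun j => cs β j = 0) (hcs2 β) (fun i hi => ?_) j
      have h3 : bd F (cs β i.castSucc) = 0 := by
        funext T
        have h4 := congrFun (congrFun hβ' T) i.succ
        rw [bd_Lc_succ, hi] at h4
        have h5 : Qc s t c σ ε (0 : Finset V → M) = 0 := by
          funext T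
          unfold Qc
          rw [Pi.zero_apply, map_zero, map_zero, ite_self]
        rw [h5, map_zero] at h4
        simpa using h4
      rw [hcs1, hg2] at h3
      have h4 : β i = 0 := Subtype.ext h3
      rw [hcs1, h4, map_zero]
    funext i
    apply Subtype.ext
    rw [← hg2, ← hcs1, hall, map_zero]
    rfl
  have := LinearMap.finrank_le_finrank_of_injective hf
  rwa [finrank_pi_fintype, Finset.sum_const, Finset.card_univ, Fintype.card_fin, smul_eq_mul] at this


/-- the limit of a chain -/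
def Dn (F : Type) {V M : Type} [LinearOrder V] [Field F] [AddCommGroup M] [Module F M] {n : ℕ} (s t : V)
    (c d σ : M →ₗ[F] M) (ε : V → F) (y : Finset V → (Fin (n + 1) → M)) (j : Fin (n + 1))
    (T : Finset V) : M :=
  if s ∈ T ∨ t ∈ T then
    Pp c (eT s t ε T) (y T j) + σ (Pm c (eT s t ε T) (y T j) + d (Pm c (eT s t ε T) (y T j)))
  else y T j

theorem Dn_st (y : Finset V → (Fin (n + 1) → M)) (j : Fin (n + 1)) {T : Finset V} (h : s ∈ T ∨ t ∈ T) :
    Dn F s t c d σ ε y j T =
    Pp c (eT s t ε T) (y T j) + σ (Pm c (eT s t ε T) (y T j) + d (Pm c (eT s t ε T) (y T j))) := if_pos h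

theorem Dn_n (y : Finset V → (Fin (n + 1) → M)) (j : Fin (n + 1)) {T : Finset V} (h : ¬ (s ∈ T ∨ t ∈ T)) :
    Dn F s t c d σ ε y j T = y T j := if_neg h

/-- the equation of the components at a face containing `s` or `t` -/
theorem dr_eq (hε : ∀ v, ε v * ε v = 1) {k : ℕ} {y : Finset V → (Fin (n + 1) → M)}
    (h : y ∈ KK G (fun v => ε v • dr s t b c d σ v) Set.univ ∅ k) {T : Finset V} (hT : s ∈ T ∨ t ∈ T)
    (j : Fin (n + 1)) :
    eT s t ε T • c (d (y T j) + σ (sh F (y T) j + d (sh F (y T) j))) = - y T j := by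
  have h2 := (mem_KK.1 h).2 T
  by_cases hs : s ∈ T
  · have h3 : (ε s • dr (n := n) s t b c d σ s) (y T) = - y T := h2 s (Or.inl hs)
    have h4 : dr (n := n) s t b c d σ s = defs c d σ := if_pos (Or.inl rfl)
    rw [h4] at h3
    have h5 := congrFun h3 j
    have h6 : eT s t ε T = ε s := if_pos hs
    rw [h6]
    exact h5
  · have ht : t ∈ T := hT.resolve_left hs
    have h3 : (ε t • dr (n := n) s t b c d σ t) (y T) = - y T := h2 t (Or.inl ht)
    have h4 : dr (n := n) s t b c d σ t = defs c d σ := if_pos (Or.inr rfl)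
    rw [h4] at h3
    have h5 := congrFun h3 j
    have h6 : eT s t ε T = ε t := if_neg hs
    rw [h6]
    exact h5

theorem Dn_mem (h2 : (2 : F) ≠ 0) (R : Rel G s t b c d σ) (hε : ∀ v, ε v * ε v = 1)
    (hG : ∀ T : Finset V, G.IsClique (T : Set V) → ¬ G0.IsClique (T : Set V) → s ∈ T ∧ t ∈ T ∧ ε s = - ε t)
    {k : ℕ} {y : Finset V → (Fin (n + 1) → M)}
    (h : y ∈ KK G (fun v => ε v • dr s t b c d σ v) Set.univ ∅ k) (j : Fin (n + 1)) :
    Dn F s t c d σ ε y j ∈ KK G0 (lr s t b d ε) Set.univ ∅ k := by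
  classical
  have hy := mem_KK.1 h
  rw [mem_KK]
  refine ⟨fun T hT => ?_, fun T u hu => ?_⟩
  · have h0 : y T = 0 := by
      by_cases hc : G.IsClique (T : Set V) ∧ (T : Set V) ⊆ Set.univ ∧ T.card = k
      · have hn : ¬ G0.IsClique (T : Set V) := fun h3 => hT ⟨h3, hc.2⟩
        obtain ⟨hs, ht, he⟩ := hG T hc.1 hn
        have e1 : (ε s • dr (n := n) s t b c d σ s) (y T) = - y T := hy.2 T s (Or.inl hs)
        have e2 : (ε t • dr (n := n) s t b c d σ t) (y T) = - y T := hy.2 T t (Or.inl ht)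
        have h4 : dr (n := n) s t b c d σ s = defs c d σ := if_pos (Or.inl rfl)
        have h5 : dr (n := n) s t b c d σ t = defs c d σ := if_pos (Or.inr rfl)
        rw [h4, he, LinearMap.smul_apply, neg_smul, neg_inj] at e1
        rw [h5, LinearMap.smul_apply] at e2
        have e3 : (2 : F) • y T = 0 := by
          rw [two_smul]
          nth_rw 1 [← e1]
          rw [e2, neg_add_cancel]
        exact (smul_eq_zero.1 e3).resolve_left h2
      · exact hy.1 T hc
    unfold Dn
    rw [h0, Pi.zero_apply, map_zero, map_zero, map_zero, add_zero, map_zero, add_zero, ite_self]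
  · have hu : u ∈ T := by
      rcases hu with hu | hu
      · exact hu
      · exact absurd hu (by simp)
    by_cases hcG : G.IsClique (T : Set V)
    swap
    · have h0 : y T = 0 := hy.1 T fun h => hcG h.1
      have h1 : Dn F s t c d σ ε y j T = 0 := by
        unfold Dn
        rw [h0, Pi.zero_apply, map_zero, map_zero, map_zero, add_zero, map_zero, add_zero, ite_self]
      rw [h1, map_zero, neg_zero]
    have hσc : ∀ m, σ (c m) = c (σ m) := fun m => (R.cs m).symm
    by_cases hst : u = s ∨ u = t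
    · have hT2 : s ∈ T ∨ t ∈ T := by rcases hst with h | h <;> rw [← h] <;> simp [hu]
      have hlr : lr s t b d ε u = d := if_pos hst
      rw [hlr, Dn_st _ _ hT2]
      have e1 := (eig_down h2 R (eT_sq hε T) (dr_eq hε h hT2 j)).1
      rw [map_add, e1, neg_add]
      congr 1
      have e2 := R.sd (Pm c (eT s t ε T) (y T j) + d (Pm c (eT s t ε T) (y T j)))
      rw [map_add, R.d2, add_comm (d _)] at e2
      exact (neg_eq_iff_eq_neg.2 e2).symm
    · have hus : u ≠ s := fun h => hst (Or.inl h)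
      have hut : u ≠ t := fun h => hst (Or.inr h)
      have hlr : lr s t b d ε u = ε u • b u := if_neg hst
      have hdr : dr (n := n) s t b c d σ u = (b u).compLeft (Fin (n + 1)) := if_neg hst
      have e1 : (ε u • dr (n := n) s t b c d σ u) (y T) = - y T := hy.2 T u (Or.inl hu)
      rw [hdr] at e1
      have e2 : ε u • b u (y T j) = - y T j := congrFun e1 j
      rw [hlr]
      by_cases hT2 : s ∈ T ∨ t ∈ T
      · have hadj : G.Adj u s ∨ G.Adj u t := by
          rcases hT2 with h | h
          · exact Or.inl (hcG hu h hus)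
          · exact Or.inr (hcG hu h hut)
        obtain ⟨B, hB⟩ : ∃ B : M →ₗ[F] M, B = ε u • b u := ⟨_, rfl⟩
        have hBm : ∀ m, B m = ε u • b u m := fun m => by rw [hB]; rfl
        have hbc : ∀ m, B (c m) = c (B m) := fun m => by
          rw [hBm, hBm, R.bc u hus hut hadj, map_smul]
        have hbs : ∀ m, B (σ m) = σ (B m) := fun m => by
          rw [hBm, hBm, R.bs u hus hut, map_smul]
        have hbd : ∀ m, B (d m) = d (B m) := fun m => by
          rw [hBm, hBm, R.bd u hus hut hadj, map_smul]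
        have hby : B (y T j) = - y T j := by rw [hBm]; exact e2
        rw [Dn_st _ _ hT2, ← hB, map_add, Pp_comm hbc, hbs, map_add B, hbd, Pm_comm hbc, hby, map_neg, map_neg,
          map_neg, ← neg_add, map_neg, ← neg_add]
      · rw [Dn_n _ _ hT2]
        exact e2

/-- the dimension of the chain groups -/
theorem dim_up [FiniteDimensional F M] (h2 : (2 : F) ≠ 0) (R : Rel G s t b c d σ)
    (hε : ∀ v, ε v * ε v = 1)
    (hG : ∀ T : Finset V, G.IsClique (T : Set V) → ¬ G0.IsClique (T : Set V) → s ∈ T ∧ t ∈ T ∧ ε s = - ε t)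
    (k : ℕ) :
    finrank F (KK G (fun v => ε v • dr (n := n) s t b c d σ v) Set.univ ∅ k) ≤
      (n + 1) * finrank F (KK G0 (lr s t b d ε) Set.univ ∅ k) := by
  classical
  let f : ↥(KK G (fun v => ε v • dr (n := n) s t b c d σ v) Set.univ ∅ k) →ₗ[F]
      (Fin (n + 1) → ↥(KK G0 (lr s t b d ε) Set.univ ∅ k)) :=
    { toFun := fun y j => ⟨Dn F s t c d σ ε y.1 j, Dn_mem h2 R hε hG y.2 j⟩
      map_add' := fun y y' => by
        funext j
        apply Subtype.ext
        funext T
        show Dn F s t c d σ ε (y.1 + y'.1) j T = Dn F s t c d σ ε y.1 j T + Dn F s t c d σ ε y'.1 j T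
        unfold Dn
        simp only [Pi.add_apply, map_add]
        split_ifs
        · abel
        · rfl
      map_smul' := fun a y => by
        funext j
        apply Subtype.ext
        funext T
        show Dn F s t c d σ ε (a • y.1) j T = a • Dn F s t c d σ ε y.1 j T
        unfold Dn
        simp only [Pi.smul_apply, map_smul, ← smul_add]
        split_ifs
        · rfl
        · rfl }
  have hf : Function.Injective f := by
    rw [injective_iff_map_eq_zero]
    rintro ⟨y, hy⟩ hy0
    apply Subtype.ext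
    show y = 0
    have h0 : ∀ j T, Dn F s t c d σ ε y j T = 0 := fun j T =>
      congrFun (congrArg Subtype.val (congrFun hy0 j)) T
    funext T
    by_cases hT2 : s ∈ T ∨ t ∈ T
    swap
    · funext j
      have := h0 j T
      rwa [Dn_n _ _ hT2] at this
    set e := eT s t ε T with he
    have hee : e * e = 1 := eT_sq hε T
    have hσc : ∀ m, σ (c m) = c (σ m) := fun m => (R.cs m).symm
    have hdc : ∀ m, d (c m) = c (d m) := fun m => (R.cd m).symm
    have e1 : ∀ j, Pp c e (y T j) = 0 ∧ Pm c e (y T j) + d (Pm c e (y T j)) = 0 := by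
      intro j
      have h3 := h0 j T
      rw [Dn_st _ _ hT2] at h3
      have h4 := congrArg (Pp c e) h3
      have h5 := congrArg (Pm c e) h3
      rw [map_add, Pp_Pp h2 R.c2 hee, ← Pp_comm hσc, map_add (Pp c e), ← Pp_comm hdc, Pp_Pm R.c2 hee, map_zero,
        map_zero, add_zero, map_zero, add_zero] at h4
      rw [h4, zero_add] at h3
      have h6 := congrArg σ h3
      rw [R.s2, map_zero] at h6
      exact ⟨h4, h6⟩
    have e2 : ∀ j, Pm c e (y T j) = 0 := by
      intro j
      have h3 := (eig_down h2 R hee (dr_eq hε hy hT2 j)).2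
      have h4 : Pm c e (sh F (y T) j) + d (Pm c e (sh F (y T) j)) = 0 := by
        refine Fin.cases ?_ (fun i => ?_) j
        · rw [sh_zero, map_zero, map_zero, add_zero]
        · rw [sh_succ]; exact (e1 _).2
      rw [h4, map_zero] at h3
      have h5 := (e1 j).2
      have h6 : (2 : F) • Pm c e (y T j) = 0 := by
        rw [two_smul]
        calc Pm c e (y T j) + Pm c e (y T j)
            = (Pm c e (y T j) - d (Pm c e (y T j))) + (Pm c e (y T j) + d (Pm c e (y T j))) := by abel
          _ = 0 := by rw [h3, h5, add_zero]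
      exact (smul_eq_zero.1 h6).resolve_left h2
    funext j
    rw [← Pp_add_Pm h2 c e (y T j), (e1 j).1, e2 j, add_zero]
    rfl
  have := LinearMap.finrank_le_finrank_of_injective hf
  rwa [finrank_pi_fintype, Finset.sum_const, Finset.card_univ, Fintype.card_fin, smul_eq_mul] at this

end chains

end Pool.Agent.R781.VS
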