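import Pool.Agent.H7.L.R781_VS_Conv
import Pool.Agent.H7.L.R781_VS_Bound

/-!
# Fourier transform and unipotence
-/

set_option autoImplicit false
set_option linter.unusedSectionVars false

namespace Pool.Agent.R781.VS

open Module Pool.Agent.W907.SG Pool.Agent.W907.SM
open Pool.Agent.W143.SG.MLP (beta_zero beta_iso rp rp_apply foldr_pull chi chi_act chi_sq)
open Pool.Agent.W705.SM (cw beta_pi hm hm_apply genH unip)
open Pool.Agent.W461.SGN (liftable simple_mul_self simple_comm)

section flu
variable {V : Type} [DecidableEq V]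

/-- change of a coordinate -/
def flu (v : V) (e : V → ℤˣ) : V → ℤˣ := Pi.mulSingle v (-1) * e

theorem flu_flu (v : V) (e : V → ℤˣ) : flu v (flu v e) = e := by
  unfold flu
  rw [← mul_assoc, ← Pi.mulSingle_mul]
  have : (-1 : ℤˣ) * -1 = 1 := by decide
  rw [this, Pi.mulSingle_one, one_mul]

theorem flu_comm (u v : V) (e : V → ℤˣ) : flu u (flu v e) = flu v (flu u e) := by
  unfold flu
  rw [← mul_assoc, ← mul_assoc, mul_comm (Pi.mulSingle u (-1) : V → ℤˣ)]

theorem foldr_flu {F : Type} [Field F] (l : List V) (f : (V → ℤˣ) → F) (e : V → ℤˣ) :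
    l.foldr (fun v => pull F flu v) f e = f ((l.map (fun v => (Pi.mulSingle v (-1) : V → ℤˣ))).prod * e) := by
  induction l generalizing e with
  | nil => rw [List.map_nil, List.prod_nil, one_mul]; rfl
  | cons v l ih =>
    rw [List.foldr_cons, pull_apply, ih, List.map_cons, List.prod_cons]
    congr 1
    unfold flu
    rw [← mul_assoc, mul_comm (List.prod _)]

theorem even_prod (l : List V) (hl : EvenWord l) :
    (l.map (fun v => (Pi.mulSingle v (-1) : V → ℤˣ))).prod = 1 := by
  funext u
  have h := hl (fun v => (Pi.mulSingle v (-1) : V → ℤˣ) u)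
  rw [Pi.list_prod_apply, List.map_map]
  exact h

end flu

section four
variable {p : ℕ} [Fact p.Prime] {V : Type} [Fintype V] [LinearOrder V] {G : SimpleGraph V}
  {M : Type} [AddCommGroup M] [Module (ZMod p) M] [FiniteDimensional (ZMod p) M]

theorem four (hp2 : (2 : ZMod p) ≠ 0) (hp3 : p ≠ 2) (hS : S_SUB) (hL : S_LINEP)
    (s : V → M →ₗ[ZMod p] M) (hs : ∀ v m, s v (s v m) = m)
    (hsc : ∀ u v, G.Adj u v → ∀ m, s u (s v m) = s v (s u m)) (i B : ℕ)
    (hB : ∀ ε : V → ZMod p, (∀ v, ε v = 1 ∨ ε v = -1) →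
      beta G (fun v => ε v • s v) Set.univ ∅ i ≤ B) :
    beta G (rp (V := V) flu s) Set.univ ∅ i ≤ 2 ^ Fintype.card V * B := by
  classical
  have h1 := genH G hp2 hp3 hS hL s hs hsc i B hB (2 ^ Fintype.card V) ((V → ℤˣ) → ZMod p) (by
      rw [finrank_fintype_fun_eq_card, Fintype.card_fun]
      rfl) (pull (ZMod p) flu) (fun v f => by
      funext e
      rw [pull_apply, pull_apply, flu_flu]) (fun u v _ f => by
      funext e
      rw [pull_apply, pull_apply, pull_apply, pull_apply, flu_comm]) (fun l hl => by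
      refine ⟨0, fun f => ?_⟩
      rw [pow_zero, Function.iterate_one]
      funext e
      rw [foldr_flu, even_prod l hl, one_mul])
  refine le_trans ?_ h1
  refine beta_iso hS G (hm (pull (ZMod p) flu) s) (rp flu s)
      { toFun := fun φ z => φ (Pi.single z 1)
        map_add' := fun f g => rfl
        map_smul' := fun c f => rfl } hp2 ?_ ?_ ?_ ?_ ?_ i
  · intro v m
    funext z
    rw [rp_apply, rp_apply, flu_flu, hs]
  · intro u v huv m
    funext z
    rw [rp_apply, rp_apply, rp_apply, rp_apply, flu_comm v u, hsc u v huv]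
  · intro v φ
    funext z
    show s v (φ (pull (ZMod p) flu v (Pi.single z 1))) =
      s v (φ (Pi.single (flu v z) 1))
    congr 2
    funext y
    rw [pull_apply, Pi.single_apply, Pi.single_apply]
    refine if_congr ?_ rfl rfl
    constructor
    · intro h; rw [← h, flu_flu]
    · intro h; rw [h, flu_flu]
  · intro φ ψ h
    refine (Pi.basisFun (ZMod p) _).ext fun z => ?_
    rw [Pi.basisFun_apply]
    exact congrFun h z
  · intro g
    refine ⟨(Pi.basisFun (ZMod p) _).constr (ZMod p) g, ?_⟩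
    funext z
    show (Pi.basisFun (ZMod p) _).constr (ZMod p) g (Pi.single z 1) = g z
    rw [← Pi.basisFun_apply, Basis.constr_basis]

end four

/-! ### filtered operators -/

section filt
variable {F M : Type} [Field F] [AddCommGroup M] [Module F M] {n : ℕ}

/-- `T` preserves the filtration and acts by `T0` on the graded pieces -/
def Fil (T : (Fin (n + 1) → M) →ₗ[F] (Fin (n + 1) → M)) (T0 : M →ₗ[F] M) : Prop :=
  ∀ (w : Fin (n + 1) → M) (j : ℕ), (∀ i : Fin (n + 1), (i : ℕ) < j → w i = 0) →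
    ∀ i : Fin (n + 1), (i : ℕ) ≤ j → T w i = T0 (w i)

theorem Fil.comp {T T' : (Fin (n + 1) → M) →ₗ[F] (Fin (n + 1) → M)} {T0 T0' : M →ₗ[F] M}
    (h : Fil T T0) (h' : Fil T' T0') : Fil (T * T') (T0 * T0') := by
  intro w j hw i hi
  have h1 : ∀ i : Fin (n + 1), (i : ℕ) ≤ j → T' w i = T0' (w i) := h' w j hw
  have h2 := h (T' w) j (fun k hk => by rw [h1 k hk.le, hw k hk, map_zero]) i hi
  show T (T' w) i = T0 (T0' (w i))
  rw [h2, h1 i hi]

theorem Fil.one : Fil (1 : (Fin (n + 1) → M) →ₗ[F] (Fin (n + 1) → M)) 1 := fun _ _ _ _ _ => rfl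

theorem Fil.nil {T : (Fin (n + 1) → M) →ₗ[F] (Fin (n + 1) → M)} (h : Fil T 1) :
    (T - 1) ^ (n + 1) = 0 := by
  have h1 : ∀ (k : ℕ) (w : Fin (n + 1) → M) (i : Fin (n + 1)), (i : ℕ) < k → ((T - 1) ^ k) w i = 0 := by
    intro k
    induction k with
    | zero => intro w i hi; exact absurd hi (by omega)
    | succ k ih =>
      intro w i hi
      rw [pow_succ']
      show T (((T - 1) ^ k) w) i - ((T - 1) ^ k) w i = 0
      rw [h (((T - 1) ^ k) w) k (ih w) i (by omega)]
      exact sub_self _
  refine LinearMap.ext fun w => funext fun i => ?_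
  exact h1 (n + 1) w i i.2

theorem Fil.unip {p : ℕ} [Fact p.Prime] {M : Type} [AddCommGroup M] [Module (ZMod p) M] {n : ℕ}
    {T : (Fin (n + 1) → M) →ₗ[ZMod p] (Fin (n + 1) → M)} (h : Fil T 1) : T ^ (p ^ (n + 1)) = 1 := by
  have hA : ((p : ℕ) : Module.End (ZMod p) (Fin (n + 1) → M)) = 0 := by
    refine LinearMap.ext fun w => ?_
    show ((p : ℕ) : Module.End (ZMod p) (Fin (n + 1) → M)) w = 0
    rw [Module.End.natCast_apply, ← Nat.cast_smul_eq_nsmul (ZMod p), ZMod.natCast_self, zero_smul]
  have h1 := Pool.Agent.W705.SM.unip (A := Module.End (ZMod p) (Fin (n + 1) → M)) hA (T - 1) (n + 1) h.nil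
  rwa [add_sub_cancel] at h1

end filt

/-! ### the representation -/

section rep
variable {V F M : Type} [Fintype V] [LinearOrder V] [Field F] [AddCommGroup M] [Module F M]
  {G : SimpleGraph V} {s t : V} {b : V → M →ₗ[F] M} {c d σ : M →ₗ[F] M} {n : ℕ}

theorem sh_defs (w : Fin (n + 1) → M) (j : Fin (n + 1)) :
    sh F (defs c d σ w) j = c (d (sh F w j) + σ (sh F (sh F w) j + d (sh F (sh F w) j))) := by
  refine Fin.cases ?_ (fun i => ?_) j
  · rw [sh_zero, sh_zero, sh_zero]
    simp only [map_zero, add_zero]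
  · rw [sh_succ, sh_succ, sh_succ, defs_apply]

theorem defs_defs (R : Rel G s t b c d σ) (w : Fin (n + 1) → M) : defs c d σ (defs c d σ w) = w := by
  funext j
  rw [defs_apply, sh_defs, defs_apply]
  generalize w j = m
  generalize sh F w j = m'
  generalize sh F (sh F w) j = m''
  have hdc : ∀ m, d (c m) = c (d m) := fun m => (R.cd m).symm
  have hσc : ∀ m, σ (c m) = c (σ m) := fun m => (R.cs m).symm
  have hds : ∀ m, d (σ m) = - σ (d m) := fun m => by rw [R.sd, neg_neg]
  simp only [hdc, hσc, map_add, R.c2, R.d2, R.s2, hds, map_neg]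
  abel

theorem dr_inv (R : Rel G s t b c d σ) (hb : ∀ v, v ≠ s → v ≠ t → ∀ m, b v (b v m) = m) (v : V)
    (w : Fin (n + 1) → M) : dr s t b c d σ v (dr s t b c d σ v w) = w := by
  by_cases h : v = s ∨ v = t
  · have : dr (n := n) s t b c d σ v = defs c d σ := if_pos h
    rw [this]
    exact defs_defs R w
  · have : dr (n := n) s t b c d σ v = (b v).compLeft (Fin (n + 1)) := if_neg h
    rw [this]
    funext j
    exact hb v (fun e => h (Or.inl e)) (fun e => h (Or.inr e)) _

theorem dr_comm_aux (R : Rel G s t b c d σ) {v : V} (hs : v ≠ s) (ht : v ≠ t)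
    (ha : G.Adj v s ∨ G.Adj v t) (w : Fin (n + 1) → M) :
    defs c d σ ((b v).compLeft (Fin (n + 1)) w) = (b v).compLeft (Fin (n + 1)) (defs c d σ w) := by
  have h1 : ∀ j, sh F ((b v).compLeft (Fin (n + 1)) w) j = b v (sh F w j) := by
    intro j
    refine Fin.cases ?_ (fun i => ?_) j
    · rw [sh_zero, sh_zero, map_zero]
    · rw [sh_succ, sh_succ]; rfl
  funext j
  rw [defs_apply, h1]
  show c (d (b v (w j)) + σ (b v (sh F w j) + d (b v (sh F w j)))) =
    b v (c (d (w j) + σ (sh F w j + d (sh F w j))))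
  rw [R.bc v hs ht ha, map_add (b v), R.bd v hs ht ha, R.bs v hs ht, map_add (b v), R.bd v hs ht ha]

theorem dr_comm (R : Rel G s t b c d σ)
    (hc : ∀ u v, u ≠ s → u ≠ t → v ≠ s → v ≠ t → G.Adj u v → ∀ m, b u (b v m) = b v (b u m)) (u v : V)
    (huv : G.Adj u v) (w : Fin (n + 1) → M) :
    dr s t b c d σ u (dr s t b c d σ v w) = dr s t b c d σ v (dr s t b c d σ u w) := by
  by_cases hu : u = s ∨ u = t
  · have e1 : dr (n := n) s t b c d σ u = defs c d σ := if_pos hu
    by_cases hv : v = s ∨ v = t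
    · have e2 : dr (n := n) s t b c d σ v = defs c d σ := if_pos hv
      rw [e1, e2]
    · have e2 : dr (n := n) s t b c d σ v = (b v).compLeft (Fin (n + 1)) := if_neg hv
      rw [e1, e2]
      refine dr_comm_aux R (fun e => hv (Or.inl e)) (fun e => hv (Or.inr e)) ?_ w
      rcases hu with h | h
      · exact Or.inl (h ▸ huv.symm)
      · exact Or.inr (h ▸ huv.symm)
  · have e1 : dr (n := n) s t b c d σ u = (b u).compLeft (Fin (n + 1)) := if_neg hu
    by_cases hv : v = s ∨ v = t
    · have e2 : dr (n := n) s t b c d σ v = defs c d σ := if_pos hv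
      rw [e1, e2]
      refine (dr_comm_aux R (fun e => hu (Or.inl e)) (fun e => hu (Or.inr e)) ?_ w).symm
      rcases hv with h | h
      · exact Or.inl (h ▸ huv)
      · exact Or.inr (h ▸ huv)
    · have e2 : dr (n := n) s t b c d σ v = (b v).compLeft (Fin (n + 1)) := if_neg hv
      rw [e1, e2]
      funext j
      exact hc u v (fun e => hu (Or.inl e)) (fun e => hu (Or.inr e)) (fun e => hv (Or.inl e))
        (fun e => hv (Or.inr e)) huv _

theorem Fil_defs : Fil (n := n) (defs c d σ) (c * d) := by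
  intro w j hw i hi
  have h1 : sh F w i = 0 := by
    revert hi
    refine Fin.cases ?_ (fun k => ?_) i
    · intro _; rfl
    · intro hk
      rw [sh_succ]
      apply hw
      rw [Fin.val_castSucc]
      rw [Fin.val_succ] at hk
      omega
  rw [defs_apply, h1, map_zero, add_zero, map_zero, add_zero]
  rfl

theorem Fil_comp (T : M →ₗ[F] M) : Fil (n := n) (T.compLeft (Fin (n + 1))) T := fun _ _ _ _ _ => rfl

end rep

end Pool.Agent.R781.VS
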