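import Pool.Agent.H7.L.W705_SM_T4b
import Pool.Agent.H7.L.W461_SG_NIL

/-!
# Coefficients induced from a finite quotient group

`Φ` is a homomorphism from the right-angled Coxeter group to a finite group `J`. A module `U` on
which the elements of the kernel of `Φ` act with `p`-power order is filtered by modules on which
the kernel acts trivially; for these the tensor product with an induced module is a multiple of the
induced module.
-/

set_option autoImplicit false
set_option linter.unusedSectionVars false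

namespace Pool.Agent.R781.VS

open Module Pool.Agent.W907.SG Pool.Agent.W907.SM
open Pool.Agent.W143.SG.MLP (beta_zero beta_iso rp rp_apply foldr_pull)
open Pool.Agent.W705.SM (cw beta_pi hm hm_apply)
open Pool.Agent.W461.SGN (liftable simple_mul_self simple_comm)

section fixed
variable {p : ℕ} [Fact p.Prime] {Γ U : Type} [Group Γ] [AddCommGroup U] [Module (ZMod p) U]

theorem exists_fixed [FiniteDimensional (ZMod p) U] [Nontrivial U] (S : Γ →* Module.End (ZMod p) U)
    (N : Subgroup Γ) (h : ∀ g ∈ N, ∃ k : ℕ, (S g) ^ (p ^ k) = 1) :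
    ∃ x : U, x ≠ 0 ∧ ∀ g ∈ N, S g x = x := by
  classical
  have : Finite U := Module.finite_of_finite (ZMod p)
  have hP : IsPGroup p (N.map S.toHomUnits) := by
    rintro ⟨_, g, hg, rfl⟩
    obtain ⟨k, hk⟩ := h g hg
    refine ⟨k, ?_⟩
    apply Subtype.ext
    apply Units.ext
    exact hk
  have hcard : p ∣ Nat.card U := by
    rw [Module.natCard_eq_pow_finrank (K := ZMod p)]
    rw [Nat.card_zmod]
    exact dvd_pow_self p (Module.finrank_pos (R := ZMod p) (M := U)).ne'
  have h0 : (0 : U) ∈ MulAction.fixedPoints (N.map S.toHomUnits) U := by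
    rintro ⟨g, hg⟩
    exact smul_zero g
  obtain ⟨x₀, hx₀, hne⟩ := hP.exists_fixed_point_of_prime_dvd_card_of_fixed_point U hcard h0
  exact ⟨x₀, Ne.symm hne, fun g hg => hx₀ ⟨_, g, hg, rfl⟩⟩

end fixed

section J
variable {p : ℕ} [Fact p.Prime] {V : Type} [Fintype V] [LinearOrder V] {G : SimpleGraph V}
  {J : Type} [Group J] [Fintype J]
  {M0 : Type} [AddCommGroup M0] [Module (ZMod p) M0] [FiniteDimensional (ZMod p) M0]

/-- the operators of the generators -/
noncomputable def gn {U : Type} [AddCommGroup U] [Module (ZMod p) U] (S : W G →* Module.End (ZMod p) U) (v : V) :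
    U →ₗ[ZMod p] U := S ((cox G).simple v)

theorem gn_inv {U : Type} [AddCommGroup U] [Module (ZMod p) U] (S : W G →* Module.End (ZMod p) U) (v : V)
    (m : U) : gn S v (gn S v m) = m := by
  show (S ((cox G).simple v) * S ((cox G).simple v)) m = m
  rw [← map_mul, simple_mul_self, map_one]
  rfl

theorem gn_comm {U : Type} [AddCommGroup U] [Module (ZMod p) U] (S : W G →* Module.End (ZMod p) U) (u v : V)
    (h : G.Adj u v) (m : U) : gn S u (gn S v m) = gn S v (gn S u m) := by
  show (S ((cox G).simple u) * S ((cox G).simple v)) m = (S ((cox G).simple v) * S ((cox G).simple u)) m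
  rw [← map_mul, ← map_mul, simple_comm G u v h]

/-- left multiplication on `J` -/
noncomputable def la (Φ : W G →* J) (v : V) (z : J) : J := Φ ((cox G).simple v) * z

theorem la_inv (Φ : W G →* J) (v : V) (z : J) : la Φ v (la Φ v z) = z := by
  unfold la
  rw [← mul_assoc, ← map_mul, simple_mul_self, map_one, one_mul]

theorem la_comm (Φ : W G →* J) (u v : V) (h : G.Adj u v) (z : J) :
    la Φ u (la Φ v z) = la Φ v (la Φ u z) := by
  unfold la
  rw [← mul_assoc, ← mul_assoc, ← map_mul, ← map_mul, simple_comm G u v h]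

/-- the induced module `J → M0` -/
noncomputable def rJ (Φ : W G →* J) (S0 : W G →* Module.End (ZMod p) M0) (v : V) : (J → M0) →ₗ[ZMod p] (J → M0) :=
  rp (la Φ) (gn S0) v

theorem rJ_apply (Φ : W G →* J) (S0 : W G →* Module.End (ZMod p) M0) (v : V) (f : J → M0) (z : J) :
    rJ Φ S0 v f z = gn S0 v (f (la Φ v z)) := rfl

theorem rJ_inv (Φ : W G →* J) (S0 : W G →* Module.End (ZMod p) M0) (v : V) (f : J → M0) :
    rJ Φ S0 v (rJ Φ S0 v f) = f := by
  funext z
  rw [rJ_apply, rJ_apply, la_inv, gn_inv]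

theorem rJ_comm (Φ : W G →* J) (S0 : W G →* Module.End (ZMod p) M0) (u v : V) (h : G.Adj u v) (f : J → M0) :
    rJ Φ S0 u (rJ Φ S0 v f) = rJ Φ S0 v (rJ Φ S0 u f) := by
  funext z
  rw [rJ_apply, rJ_apply, rJ_apply, rJ_apply, la_comm Φ v u h.symm, gn_comm S0 u v h]

/-- an equivariant function on `J` with values in the automorphisms -/
theorem exists_T {U : Type} [AddCommGroup U] [Module (ZMod p) U] (Φ : W G →* J)
    (S : W G →* Module.End (ZMod p) U) (h : ∀ g, Φ g = 1 → S g = 1) :
    ∃ T T' : J → Module.End (ZMod p) U, (∀ z, T z * T' z = 1) ∧ (∀ z, T' z * T z = 1) ∧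
      ∀ v z, T (la Φ v z) = gn S v * T z := by
  classical
  let r : Setoid J :=
    { r := fun z z' => ∃ g, z = Φ g * z'
      iseqv := ⟨fun z => ⟨1, by rw [map_one, one_mul]⟩, by
        rintro z z' ⟨g, rfl⟩
        exact ⟨g⁻¹, by rw [← mul_assoc, ← map_mul, inv_mul_cancel, map_one, one_mul]⟩, by
        rintro z z' z'' ⟨g, rfl⟩ ⟨g', rfl⟩
        exact ⟨g * g', by rw [map_mul, mul_assoc]⟩⟩ }
  have hr : ∀ z : J, ∃ g, z = Φ g * (Quotient.mk r z).out := fun z => r.symm (Quotient.mk_out z)
  choose γ hγ using hr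
  refine ⟨fun z => S (γ z), fun z => S (γ z)⁻¹, fun z => ?_, fun z => ?_, fun v z => ?_⟩
  · rw [← map_mul, mul_inv_cancel, map_one]
  · rw [← map_mul, inv_mul_cancel, map_one]
  · have hq : Quotient.mk r (la Φ v z) = Quotient.mk r z := Quotient.sound ⟨(cox G).simple v, rfl⟩
    have h1 := hγ (la Φ v z)
    rw [hq] at h1
    have h2 := hγ z
    have h3 : Φ (γ (la Φ v z)) = Φ ((cox G).simple v * γ z) := by
      have h4 : Φ (γ (la Φ v z)) * (Quotient.mk r z).out =
          Φ ((cox G).simple v * γ z) * (Quotient.mk r z).out := by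
        rw [← h1, map_mul, mul_assoc, ← h2]
        rfl
      exact mul_right_cancel h4
    have h5 : S ((γ (la Φ v z))⁻¹ * ((cox G).simple v * γ z)) = 1 := by
      apply h
      rw [map_mul, map_inv, h3, inv_mul_cancel]
    show S (γ (la Φ v z)) = S ((cox G).simple v) * S (γ z)
    rw [← map_mul]
    calc S (γ (la Φ v z)) = S (γ (la Φ v z)) * S ((γ (la Φ v z))⁻¹ * ((cox G).simple v * γ z)) := by
          rw [h5, mul_one]
      _ = S ((cox G).simple v * γ z) := by rw [← map_mul, mul_inv_cancel_left]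

/-- modules on which the kernel acts trivially -/
theorem triv (hp2 : (2 : ZMod p) ≠ 0) (hS : S_SUB) {U : Type} [AddCommGroup U] [Module (ZMod p) U]
    [FiniteDimensional (ZMod p) U] (Φ : W G →* J) (S0 : W G →* Module.End (ZMod p) M0)
    (S : W G →* Module.End (ZMod p) U) (h : ∀ g, Φ g = 1 → S g = 1) (i : ℕ) :
    beta G (hm (gn S) (rJ Φ S0)) Set.univ ∅ i ≤
      finrank (ZMod p) U * beta G (rJ Φ S0) Set.univ ∅ i := by
  classical
  obtain ⟨T, T', hT1, hT2, hT3⟩ := exists_T Φ S h
  have hT1' : ∀ z u, T z (T' z u) = u := fun z u => by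
    have := congrArg (fun f => f u) (hT1 z)
    exact this
  have hT2' : ∀ z u, T' z (T z u) = u := fun z u => by
    have := congrArg (fun f => f u) (hT2 z)
    exact this
  set B := Module.finBasis (ZMod p) U with hB
  -- from functions to homomorphisms
  let Θ : (Fin (finrank (ZMod p) U) → (J → M0)) →ₗ[ZMod p] (U →ₗ[ZMod p] (J → M0)) :=
    { toFun := fun ψ =>
        { toFun := fun u z => ∑ j, B.repr (T' z u) j • ψ j z
          map_add' := fun u u' => by
            funext z
            simp only [map_add, Finsupp.add_apply, add_smul, Finset.sum_add_distrib, Pi.add_apply]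
          map_smul' := fun a u => by
            funext z
            simp only [map_smul, Finsupp.smul_apply, smul_eq_mul, mul_smul, Pi.smul_apply,
              RingHom.id_apply, Finset.smul_sum] }
      map_add' := fun ψ ψ' => by
        ext u z
        simp only [Pi.add_apply, smul_add, Finset.sum_add_distrib, LinearMap.coe_mk, AddHom.coe_mk,
          LinearMap.add_apply]
      map_smul' := fun a ψ => by
        ext u z
        simp only [Pi.smul_apply, RingHom.id_apply, LinearMap.coe_mk, AddHom.coe_mk, LinearMap.smul_apply,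
          Finset.smul_sum]
        exact Finset.sum_congr rfl fun j _ => smul_comm _ _ _ }
  have hΘ : ∀ ψ u z, Θ ψ u z = ∑ j, B.repr (T' z u) j • ψ j z := fun _ _ _ => rfl
  have hΘ2 : ∀ ψ j z, Θ ψ (T z (B j)) z = ψ j z := by
    intro ψ j z
    rw [hΘ, hT2', Basis.repr_self]
    rw [Finset.sum_eq_single_of_mem j (Finset.mem_univ _)]
    · rw [Finsupp.single_eq_same, one_smul]
    · intro k _ hk
      rw [Finsupp.single_eq_of_ne hk, zero_smul]
  have h1 := beta_iso hS G (cw (Fin (finrank (ZMod p) U)) (rJ Φ S0)) (hm (gn S) (rJ Φ S0)) Θ hp2 ?_ ?_ ?_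
    ?_ ?_ i
  · rw [beta_pi, Fintype.card_fin] at h1
    exact h1
  · intro v φ
    ext u z
    rw [hm_apply, hm_apply, gn_inv, rJ_inv]
  · intro u v huv φ
    ext x z
    rw [hm_apply, hm_apply, hm_apply, hm_apply, rJ_comm Φ S0 u v huv, gn_comm S v u huv.symm]
  · intro v ψ
    ext u z
    rw [hm_apply, rJ_apply, hΘ, hΘ, map_sum]
    refine Finset.sum_congr rfl fun j _ => ?_
    rw [map_smul]
    congr 2
    have h3 : T' (la Φ v z) (gn S v u) = T' z u := by
      have h4 : T (la Φ v z) (T' z u) = gn S v u := by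
        rw [hT3]
        show gn S v (T z (T' z u)) = gn S v u
        rw [hT1']
      rw [← h4, hT2']
    rw [h3]
  · intro ψ ψ' hψ
    funext j z
    rw [← hΘ2 ψ j z, hψ, hΘ2]
  · intro φ
    refine ⟨fun j z => φ (T z (B j)) z, ?_⟩
    ext u z
    rw [hΘ]
    have h3 : u = T z (∑ j, B.repr (T' z u) j • B j) := by
      rw [Basis.sum_repr, hT1']
    conv_rhs => rw [h3, map_sum, map_sum, Finset.sum_apply]
    refine Finset.sum_congr rfl fun j _ => ?_
    rw [map_smul, map_smul, Pi.smul_apply]

/-- The general bound. -/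
theorem genJ (hp2 : (2 : ZMod p) ≠ 0) (hS : S_SUB) (Φ : W G →* J) (S0 : W G →* Module.End (ZMod p) M0)
    (i : ℕ) : ∀ (n : ℕ) (U : Type) [AddCommGroup U] [Module (ZMod p) U] [FiniteDimensional (ZMod p) U],
    finrank (ZMod p) U = n → ∀ S : W G →* Module.End (ZMod p) U,
    (∀ g, Φ g = 1 → ∃ k : ℕ, (S g) ^ (p ^ k) = 1) →
    beta G (hm (gn S) (rJ Φ S0)) Set.univ ∅ i ≤ n * beta G (rJ Φ S0) Set.univ ∅ i := by
  intro n
  induction n using Nat.strong_induction_on with
  | _ n ih =>
  intro U _ _ _ hU S hSk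
  rcases Nat.eq_zero_or_pos n with hn | hn
  · subst hn
    have : Subsingleton U := finrank_zero_iff.1 hU
    have : Subsingleton (U →ₗ[ZMod p] (J → M0)) := ⟨fun f g => by
      ext e
      rw [Subsingleton.elim e 0, map_zero, map_zero]⟩
    rw [beta_zero]
    exact Nat.zero_le _
  have : Nontrivial U := nontrivial_of_finrank_pos (R := ZMod p) (by omega)
  obtain ⟨x0, hx0, hx⟩ := exists_fixed S Φ.ker (fun g hg => hSk g (Φ.mem_ker.1 hg))
  obtain ⟨U1, hU1⟩ : ∃ U1 : Submodule (ZMod p) U, ∀ u, u ∈ U1 ↔ ∀ g, Φ g = 1 → S g u = u :=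
    ⟨{ carrier := {u | ∀ g, Φ g = 1 → S g u = u}
       add_mem' := fun {a b} ha hb g hg => by rw [map_add, ha g hg, hb g hg]
       zero_mem' := fun g _ => map_zero _
       smul_mem' := fun c x hx g hg => by rw [map_smul, hx g hg] }, fun u => Iff.rfl⟩
  have hst : ∀ g, U1 ≤ U1.comap (S g) := by
    intro g u hu
    rw [Submodule.mem_comap, hU1]
    rw [hU1] at hu
    intro h hh
    have h1 : S (g⁻¹ * h * g) u = u := by
      apply hu
      rw [map_mul, map_mul, hh, mul_one, map_inv, inv_mul_cancel]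
    have h2 : S h (S g u) = S g (S (g⁻¹ * h * g) u) := by
      show (S h * S g) u = (S g * S (g⁻¹ * h * g)) u
      rw [← map_mul, ← map_mul]
      congr 2
      group
    rw [h2, h1]
  let S1 : W G →* Module.End (ZMod p) U1 :=
    { toFun := fun g => (S g).restrict (hst g)
      map_one' := by
        ext u
        show S 1 u.1 = u.1
        rw [map_one]; rfl
      map_mul' := fun g h => by
        ext u
        show S (g * h) u.1 = S g (S h u.1)
        rw [map_mul]; rfl }
  let S2 : W G →* Module.End (ZMod p) (U ⧸ U1) :=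
    { toFun := fun g => U1.mapQ U1 (S g) (hst g)
      map_one' := by
        ext u
        show U1.mkQ (S 1 u) = U1.mkQ u
        rw [map_one]; rfl
      map_mul' := fun g h => by
        ext u
        show U1.mkQ (S (g * h) u) = U1.mkQ (S g (S h u))
        rw [map_mul]; rfl }
  have hS1 : ∀ g (u : U1), (S1 g u).1 = S g u.1 := fun _ _ => rfl
  have hS2 : ∀ g (u : U), S2 g (U1.mkQ u) = U1.mkQ (S g u) := fun _ _ => rfl
  have hS2k : ∀ g (k : ℕ) (u : U), (S2 g ^ k) (U1.mkQ u) = U1.mkQ ((S g ^ k) u) := by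
    intro g k
    induction k with
    | zero => intro u; rfl
    | succ k ihk =>
      intro u
      rw [pow_succ, pow_succ]
      show (S2 g ^ k) (S2 g (U1.mkQ u)) = U1.mkQ ((S g ^ k) (S g u))
      rw [hS2, ihk]
  have hU1pos : 0 < finrank (ZMod p) U1 := by
    have : Nontrivial U1 := ⟨⟨x0, (hU1 x0).2 fun g hg => hx g (Φ.mem_ker.2 hg)⟩, 0, fun h =>
      hx0 (congrArg Subtype.val h)⟩
    exact finrank_pos
  have hq := Submodule.finrank_quotient_add_finrank U1
  have h1 := ih (finrank (ZMod p) (U ⧸ U1)) (by omega) (U ⧸ U1) rfl S2 (by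
    intro g hg
    obtain ⟨k, hk⟩ := hSk g hg
    refine ⟨k, ?_⟩
    ext u
    show (S2 g ^ (p ^ k)) (U1.mkQ u) = U1.mkQ u
    rw [hS2k, hk]
    rfl)
  have h2 := triv hp2 hS Φ S0 S1 (by
    intro g hg
    ext u
    rw [hS1]
    exact (hU1 u.1).1 u.2 g hg) i
  have hsub := hS V (ZMod p) ((U ⧸ U1) →ₗ[ZMod p] (J → M0)) (U →ₗ[ZMod p] (J → M0))
    (U1 →ₗ[ZMod p] (J → M0)) G (hm (gn S2) (rJ Φ S0)) (hm (gn S) (rJ Φ S0)) (hm (gn S1) (rJ Φ S0))
    { toFun := fun ψ => ψ ∘ₗ U1.mkQ
      map_add' := fun f g => by ext x; rfl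
      map_smul' := fun c f => by ext x; rfl }
    { toFun := fun φ => φ ∘ₗ U1.subtype
      map_add' := fun f g => rfl
      map_smul' := fun c f => rfl }
    hp2
    (by
      intro v φ
      ext e z
      rw [hm_apply, hm_apply, gn_inv, rJ_inv])
    (by
      intro u v huv φ
      ext e z
      rw [hm_apply, hm_apply, hm_apply, hm_apply, rJ_comm Φ S0 u v huv, gn_comm S v u huv.symm])
    (by
      intro v ψ
      rfl)
    (by
      intro v φ
      rfl)
    (by
      intro f g hfg
      exact (LinearMap.cancel_right U1.mkQ_surjective).1 hfg)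
    (by
      intro ψ
      obtain ⟨φ, hφ⟩ := LinearMap.exists_extend ψ
      exact ⟨φ, hφ⟩)
    (by
      ext φ
      rw [LinearMap.mem_range, LinearMap.mem_ker]
      constructor
      · rintro ⟨ψ, rfl⟩
        ext u z
        show ψ (U1.mkQ u.1) z = 0
        have : U1.mkQ u.1 = 0 := by
          rw [Submodule.mkQ_apply, Submodule.Quotient.mk_eq_zero]
          exact u.2
        rw [this, map_zero]
        rfl
      · intro h
        have h3 : U1 ≤ LinearMap.ker φ := by
          intro u hu
          exact congrArg (fun f => f ⟨u, hu⟩) h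
        exact ⟨U1.liftQ φ h3, Submodule.liftQ_mkQ U1 φ h3⟩) i
  calc _ ≤ _ := hsub
    _ ≤ finrank (ZMod p) (U ⧸ U1) * beta G (rJ Φ S0) Set.univ ∅ i +
        finrank (ZMod p) U1 * beta G (rJ Φ S0) Set.univ ∅ i := Nat.add_le_add h1 h2
    _ = _ := by rw [← add_mul, hq, hU]

end J

end Pool.Agent.R781.VS
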