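import Pool.Agent.H7.L.R781_VS_Model
import Pool.Agent.H7.L.W338_SG_ADD
import Pool.Agent.H7.L.W907_SG_All

/-!
# Vertex splitting
-/

set_option autoImplicit false
set_option linter.unusedSectionVars false

namespace Pool.Agent.R781.VS

open Module Pool.Agent.W907.SG Pool.Agent.W907.SM
open Pool.Agent.W143.SG.MLP (beta_zero beta_iso rp rp_apply foldr_pull chi chi_act chi_sq)
open Pool.Agent.W705.SM (cw beta_pi hm hm_apply genH)
open Pool.Agent.W461.SGN (liftable simple_mul_self simple_comm)
open Pool.Agent.W338.SG (small_restrict)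

section model
variable {V X : Type} [Fintype V] [LinearOrder V] [Fintype X] [DecidableEq X]
  {G : SimpleGraph V} {s t : V} {q : V → Equiv.Perm X} {sgn : V → X → Bool}

/-- the permutations of the generators of `W G` -/
def q' (q : V → Equiv.Perm X) (s t : V) (v : V) : Equiv.Perm X := if v = t then q s else q v

theorem q'_inv (D : Dat G s t q sgn) (v : V) : q' q s t v * q' q s t v = 1 := by
  unfold q'
  split_ifs
  · exact D.inv s
  · exact D.inv v

theorem q'_comm (D : Dat G s t q sgn) (u v : V) (h : G.Adj u v) :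
    q' q s t u * q' q s t v = q' q s t v * q' q s t u := by
  unfold q'
  split_ifs with h1 h2 h2
  · rfl
  · by_cases h3 : v = s
    · rw [h3]
    · exact (D.comm v s (con_adj D.adj.ne h3 h2 (Or.inr (h1 ▸ h.symm)))).symm
  · by_cases h3 : u = s
    · rw [h3]
    · exact D.comm u s (con_adj D.adj.ne h3 h1 (Or.inr (h2 ▸ h)))
  · exact D.comm u v (con_adj' h1 h2 h)

/-- the homomorphism to the finite group -/
noncomputable def Φ (D : Dat G s t q sgn) : W G →* Equiv.Perm X × (V → ℤˣ) :=
  (cox G).toCoxeterSystem.lift ⟨fun v => (q' q s t v, Pi.mulSingle v (-1)),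
    liftable G _ (fun v => Prod.ext (q'_inv D v) (by
      show (Pi.mulSingle v (-1) * Pi.mulSingle v (-1) : V → ℤˣ) = 1
      rw [← Pi.mulSingle_mul]
      have : (-1 : ℤˣ) * -1 = 1 := by decide
      rw [this, Pi.mulSingle_one])) (fun u v huv => Prod.ext (q'_comm D u v huv) (mul_comm _ _))⟩

theorem Φ_simple (D : Dat G s t q sgn) (v : V) :
    Φ D ((cox G).simple v) = (q' q s t v, Pi.mulSingle v (-1)) :=
  CoxeterSystem.lift_apply_simple _ _ v

/-- the representation -/
noncomputable def SS (D : Dat G s t q sgn) (p n : ℕ) [Fact p.Prime] :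
    W G →* Module.End (ZMod p) (Fin (n + 1) → X → ZMod p) :=
  (cox G).toCoxeterSystem.lift ⟨fun v => dr s t (bX (ZMod p) q) LinearMap.id (bX (ZMod p) q s)
      (sX (ZMod p) (sv (ZMod p) (sgn s))) v,
    liftable G _ (fun v => LinearMap.ext fun w => dr_inv (relX D (ZMod p)) (fun v _ _ m =>
      bX_inv D (ZMod p) v m) v w) (fun u v huv => LinearMap.ext fun w => dr_comm (relX D (ZMod p))
        (bX_comm D (ZMod p)) u v huv w)⟩

theorem SS_simple (D : Dat G s t q sgn) (p n : ℕ) [Fact p.Prime] (v : V) :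
    SS D p n ((cox G).simple v) = dr s t (bX (ZMod p) q) LinearMap.id (bX (ZMod p) q s)
      (sX (ZMod p) (sv (ZMod p) (sgn s))) v :=
  CoxeterSystem.lift_apply_simple _ _ v

/-- the linear map of a permutation -/
def pf (F : Type) [Field F] (π : Equiv.Perm X) : Module.End F (X → F) where
  toFun f x := f (π⁻¹ x)
  map_add' _ _ := rfl
  map_smul' _ _ := rfl

theorem SS_fil (D : Dat G s t q sgn) (p n : ℕ) [Fact p.Prime] (g : W G) :
    Fil (SS D p n g) (pf (ZMod p) (Φ D g).1) := by
  refine (cox G).toCoxeterSystem.simple_induction (p := fun g => Fil (SS D p n g) (pf (ZMod p) (Φ D g).1)) g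
    (fun v => ?_) ?_ (fun g h hg hh => ?_)
  · show Fil (SS D p n ((cox G).simple v)) (pf (ZMod p) (Φ D ((cox G).simple v)).1)
    rw [SS_simple, Φ_simple]
    have hinv : ∀ v, (q v)⁻¹ = q v := fun v => inv_eq_of_mul_eq_one_left (D.inv v)
    by_cases h : v = s ∨ v = t
    · have e1 : q' q s t v = q s := by
        unfold q'
        split_ifs with h1
        · rfl
        · rw [h.resolve_right h1]
      have e2 : dr (n := n) s t (bX (ZMod p) q) LinearMap.id (bX (ZMod p) q s)
          (sX (ZMod p) (sv (ZMod p) (sgn s))) v = defs LinearMap.id (bX (ZMod p) q s)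
          (sX (ZMod p) (sv (ZMod p) (sgn s))) := if_pos h
      rw [e2]
      have e3 : pf (ZMod p) (q' q s t v) = LinearMap.id * bX (ZMod p) q s := by
        rw [e1]
        refine LinearMap.ext fun f => funext fun x => ?_
        show f ((q s)⁻¹ x) = f (q s x)
        rw [hinv]
      show Fil _ (pf (ZMod p) (q' q s t v))
      rw [e3]
      exact Fil_defs
    · have e1 : q' q s t v = q v := if_neg fun e => h (Or.inr e)
      have e2 : dr (n := n) s t (bX (ZMod p) q) LinearMap.id (bX (ZMod p) q s)
          (sX (ZMod p) (sv (ZMod p) (sgn s))) v = (bX (ZMod p) q v).compLeft _ := if_neg h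
      rw [e2]
      have e3 : pf (ZMod p) (q' q s t v) = bX (ZMod p) q v := by
        rw [e1]
        refine LinearMap.ext fun f => funext fun x => ?_
        show f ((q v)⁻¹ x) = f (q v x)
        rw [hinv]
      show Fil _ (pf (ZMod p) (q' q s t v))
      rw [e3]
      exact Fil_comp _
  · rw [map_one, map_one]
    exact Fil.one
  · rw [map_mul, map_mul]
    exact hg.comp hh

theorem SS_unip (D : Dat G s t q sgn) (p n : ℕ) [Fact p.Prime] (g : W G) (h : Φ D g = 1) :
    ∃ k : ℕ, (SS D p n g) ^ (p ^ k) = 1 := by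
  refine ⟨n + 1, ?_⟩
  have h1 := SS_fil D p n g
  rw [h] at h1
  exact Fil.unip h1

/-- the bound for the induced module -/
theorem beta_rJ (D : Dat G s t q sgn) (hsq : NoSq G s t) (p n : ℕ) [Fact p.Prime] (hp2 : (2 : ZMod p) ≠ 0)
    (hp3 : p ≠ 2) (k R : ℕ)
    (hR : ∀ ε : V → ZMod p, (∀ v, ε v = 1 ∨ ε v = -1) →
      beta (con G s t) (lr s t (bM (ZMod p) q) (dM (ZMod p) (q s)) ε) {t}ᶜ ∅ k +
        bPrev G (lr s t (bM (ZMod p) q) (dM (ZMod p) (q s)) ε) (G.neighborSet s ∩ G.neighborSet t) k ≤ R) :
    beta G (rJ (Φ D) (SS D p n)) Set.univ ∅ k ≤ 2 ^ Fintype.card V *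
      (n * R + 2 ^ Fintype.card V * (Fintype.card (Equiv.Perm X) * Fintype.card X)) := by
  classical
  -- the operators on `Perm X → M0`
  obtain ⟨S, hSd⟩ : ∃ S : V → (Equiv.Perm X → (Fin (n + 1) → X → ZMod p)) →ₗ[ZMod p]
      (Equiv.Perm X → (Fin (n + 1) → X → ZMod p)), S = rp (fun v π => q' q s t v * π)
        (fun v => dr s t (bX (ZMod p) q) LinearMap.id (bX (ZMod p) q s)
          (sX (ZMod p) (sv (ZMod p) (sgn s))) v) := ⟨_, rfl⟩
  have hSa : ∀ v f π, S v f π = dr s t (bX (ZMod p) q) LinearMap.id (bX (ZMod p) q s)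
          (sX (ZMod p) (sv (ZMod p) (sgn s))) v (f (q' q s t v * π)) := by
    intro v f π
    rw [hSd]; rfl
  have hSinv : ∀ v m, S v (S v m) = m := by
    intro v m
    funext π
    rw [hSa, hSa, dr_inv (relX D (ZMod p)) (fun v _ _ m => bX_inv D (ZMod p) v m), ← mul_assoc, q'_inv D,
      one_mul]
  have hScomm : ∀ u v, G.Adj u v → ∀ m, S u (S v m) = S v (S u m) := by
    intro u v huv m
    funext π
    rw [hSa, hSa, hSa, hSa, dr_comm (relX D (ZMod p)) (bX_comm D (ZMod p)) u v huv, ← mul_assoc, ← mul_assoc,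
      q'_comm D u v huv]
  -- twisted versions
  have hB : ∀ ε : V → ZMod p, (∀ v, ε v = 1 ∨ ε v = -1) →
      beta G (fun v => ε v • S v) Set.univ ∅ k ≤
        n * R + 2 ^ Fintype.card V * (Fintype.card (Equiv.Perm X) * Fintype.card X) := by
    intro ε hε
    have hε2 : ∀ v, ε v * ε v = 1 := by
      intro v
      rcases hε v with h | h <;> rw [h] <;> ring
    have h1 := beta_def (n := n) (G := G) mid edge eig hp2 (relM D (ZMod p)) hε D.adj hsq k
    have h2 : finrank (ZMod p) (Equiv.Perm X → X → ZMod p) = Fintype.card (Equiv.Perm X) * Fintype.card X := by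
      rw [finrank_pi_fintype, Finset.sum_const, Finset.card_univ, smul_eq_mul, finrank_fintype_fun_eq_card]
    rw [h2] at h1
    refine le_trans ?_ (h1.trans (Nat.add_le_add_right (Nat.mul_le_mul_left n (hR ε hε)) _))
    refine beta_iso sub G (fun v => ε v • dr (n := n) s t (bM (ZMod p) q) (cM (ZMod p) (q s))
      (dM (ZMod p) (q s)) (sM (ZMod p) (sv (ZMod p) (sgn s))) v) (fun v => ε v • S v)
      { toFun := fun f π j => f j π
        map_add' := fun _ _ => rfl
        map_smul' := fun _ _ => rfl } hp2 ?_ ?_ ?_ ?_ ?_ k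
    · intro v m
      rw [LinearMap.smul_apply, LinearMap.smul_apply, map_smul, smul_smul, hε2, one_smul, hSinv]
    · intro u v huv m
      rw [LinearMap.smul_apply, LinearMap.smul_apply, LinearMap.smul_apply, LinearMap.smul_apply,
        map_smul, map_smul, hScomm u v huv, smul_comm]
    · intro v m
      rw [LinearMap.smul_apply, map_smul, LinearMap.smul_apply]
      congr 1
      funext π
      rw [hSa]
      by_cases h : v = s ∨ v = t
      · have e1 : q' q s t v = q s := by
          unfold q'
          split_ifs with h1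
          · rfl
          · rw [h.resolve_right h1]
        have e2 : dr (n := n) s t (bX (ZMod p) q) LinearMap.id (bX (ZMod p) q s)
            (sX (ZMod p) (sv (ZMod p) (sgn s))) v = defs LinearMap.id (bX (ZMod p) q s)
            (sX (ZMod p) (sv (ZMod p) (sgn s))) := if_pos h
        have e3 : dr (n := n) s t (bM (ZMod p) q) (cM (ZMod p) (q s))
          (dM (ZMod p) (q s)) (sM (ZMod p) (sv (ZMod p) (sgn s))) v = defs (cM (ZMod p) (q s))
          (dM (ZMod p) (q s)) (sM (ZMod p) (sv (ZMod p) (sgn s))) := if_pos h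
        rw [e2, e3, e1]
        funext j
        have hsh : sh (ZMod p) (fun j : Fin (n + 1) => m j (q s * π)) j = sh (ZMod p) m j (q s * π) := by
          refine Fin.cases ?_ (fun i => ?_) j
          · rfl
          · rfl
        show defs (cM (ZMod p) (q s)) (dM (ZMod p) (q s)) (sM (ZMod p) (sv (ZMod p) (sgn s))) m j π =
          defs LinearMap.id (bX (ZMod p) q s) (sX (ZMod p) (sv (ZMod p) (sgn s)))
            (fun j : Fin (n + 1) => m j (q s * π)) j
        rw [defs_apply, defs_apply, hsh]
        rfl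
      · have e1 : q' q s t v = q v := if_neg fun e => h (Or.inr e)
        have e2 : dr (n := n) s t (bX (ZMod p) q) LinearMap.id (bX (ZMod p) q s)
            (sX (ZMod p) (sv (ZMod p) (sgn s))) v = (bX (ZMod p) q v).compLeft _ := if_neg h
        have e3 : dr (n := n) s t (bM (ZMod p) q) (cM (ZMod p) (q s))
          (dM (ZMod p) (q s)) (sM (ZMod p) (sv (ZMod p) (sgn s))) v = (bM (ZMod p) q v).compLeft _ :=
            if_neg h
        rw [e2, e3, e1]
        rfl
    · intro f g h
      funext j π
      exact congrFun (congrFun h π) j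
    · intro g
      exact ⟨fun j π => g π j, rfl⟩
  have h4 := four hp2 hp3 sub linep S hSinv hScomm k _ hB
  refine le_trans ?_ h4
  refine beta_iso sub G (rp (V := V) flu S) (rJ (Φ D) (SS D p n))
    { toFun := fun f z => f z.2 z.1
      map_add' := fun _ _ => rfl
      map_smul' := fun _ _ => rfl } hp2 ?_ ?_ ?_ ?_ ?_ k
  · exact fun v m => rJ_inv (Φ D) (SS D p n) v m
  · exact fun u v huv m => rJ_comm (Φ D) (SS D p n) u v huv m
  · intro v m
    funext z
    rw [rJ_apply]
    have e1 : la (Φ D) v z = (q' q s t v * z.1, flu v z.2) := by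
      unfold la
      rw [Φ_simple]
      rfl
    have e2 : gn (SS D p n) v = dr s t (bX (ZMod p) q) LinearMap.id (bX (ZMod p) q s)
      (sX (ZMod p) (sv (ZMod p) (sgn s))) v := SS_simple D p n v
    rw [e1, e2]
    show S v (m (flu v z.2)) z.1 = dr s t (bX (ZMod p) q) LinearMap.id (bX (ZMod p) q s)
      (sX (ZMod p) (sv (ZMod p) (sgn s))) v (m (flu v z.2) (q' q s t v * z.1))
    rw [hSa]
  · intro f g h
    funext e π
    exact congrFun h (π, e)
  · intro g
    exact ⟨fun e π => g (π, e), rfl⟩

end model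

end Pool.Agent.R781.VS
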