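import Pool.Agent.H7.L.R782_Bal_CsDef
import Pool.Agent.H7.L.R782_Bal_Class
import Pool.Agent.H7.L.R782_Bal_Boolean

/-!
# `ℓ²`-vanishing for colourwise barycentric subdivisions
-/

set_option autoImplicit false
set_option linter.unusedSectionVars false

namespace Pool.Agent.R782.Bal

open Finset Pool.Agent.W907.SG Pool.Agent.W907.SM
open Pool.Agent.TH652.Above (lv_img lv_set lv_univ HSph singer_of_above)

variable {N k : ℕ} {X : Finset (Finset (Fin N))} {col : Fin N → Fin k}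

instance : Finite (MF X col) := by unfold MF; infer_instance

/-- the colour -/
noncomputable def mc (σ : MF X col) : Fin k := col (σ.2.2.1.choose)

theorem mc_eq (σ : MF X col) {v : Fin N} (hv : v ∈ σ.1) : col v = mc σ :=
  σ.2.2.2 v hv _ σ.2.2.1.choose_spec

theorem adj_same {σ τ : MF X col} (h : (cs X col).Adj σ τ) (hc : mc σ = mc τ) : σ.1 ⊆ τ.1 ∨ τ.1 ⊆ σ.1 :=
  h.2.2 fun v hv w hw => by rw [mc_eq σ hv, mc_eq τ hw, hc]

theorem card_pos' (σ : MF X col) : 0 < σ.1.card := Finset.card_pos.mpr σ.2.2.1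

/-! ### the lower sets -/

theorem lv_lower (hX : ∀ σ ∈ X, ∀ τ : Finset (Fin N), τ ⊆ σ → τ ∈ X) (σ : MF X col) (hσ : Even σ.1.card) (i : ℕ) :
    LV ((cs X col).induce {τ | τ.1 ⊂ σ.1}) i := by
  classical
  obtain ⟨j, hj⟩ := hσ
  have hj' : σ.1.card = 2 * j := by omega
  have hpos := card_pos' σ
  have h0 := lv_bool (j := j) (by omega) i
  set e : Fin (2 * j) ↪ Fin N := (σ.1.orderEmbOfFin hj').toEmbedding with he
  have hr : ∀ τ : Finset (Fin (2 * j)), τ.map e ⊆ σ.1 := by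
    intro τ v hv
    obtain ⟨w, _, rfl⟩ := mem_map.mp hv
    exact σ.1.orderEmbOfFin_mem hj' w
  have hfull : (univ : Finset (Fin (2 * j))).map e = σ.1 := by
    refine eq_of_subset_of_card_le (hr _) ?_
    rw [card_map, card_univ, Fintype.card_fin, hj']
  set f : Vb (2 * j) → MF X col := fun τ => ⟨τ.1.map e, hX _ σ.2.1 _ (hr _), τ.2.1.map,
    fun v hv w hw => σ.2.2.2 v (hr _ hv) w (hr _ hw)⟩ with hf
  have hfs : ∀ τ τ' : Vb (2 * j), (f τ).1 ⊆ (f τ').1 ↔ τ.1 ⊆ τ'.1 := fun τ τ' => map_subset_map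
  have hfi : ∀ τ τ' : Vb (2 * j), f τ = f τ' → τ = τ' := by
    intro τ τ' h
    exact Subtype.ext (map_injective e (congrArg Subtype.val h))
  rw [← lv_univ] at h0
  have h1 := (lv_img (G := cs X col) f Set.univ (fun a _ b _ h => hfi a b h) ?_ i).1 h0
  · refine lv_set ?_ h1
    ext τ
    constructor
    · intro hτ
      have hτ : τ.1 ⊂ σ.1 := hτ
      have hm : (univ.filter (fun w => e w ∈ τ.1)).map e = τ.1 := by
        ext v
        rw [mem_map]
        constructor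
        · rintro ⟨w, hw, rfl⟩
          exact (mem_filter.mp hw).2
        · intro hv
          have h2 : v ∈ (univ : Finset (Fin (2 * j))).map e := hfull ▸ hτ.subset hv
          obtain ⟨w, _, rfl⟩ := mem_map.mp h2
          exact ⟨w, mem_filter.mpr ⟨mem_univ _, hv⟩, rfl⟩
      refine ⟨⟨univ.filter (fun w => e w ∈ τ.1), ?_, ?_⟩, trivial, Subtype.ext hm⟩
      · have h2 := τ.2.2.1
        rw [← hm] at h2
        exact map_nonempty.mp h2
      · intro h2
        rw [h2, hfull] at hm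
        exact hτ.ne hm.symm
    · rintro ⟨τ', _, rfl⟩
      refine (hr _).ssubset_of_ne fun h2 => τ'.2.2 ?_
      rw [← hfull] at h2
      exact map_injective e h2
  · intro a _ b _
    rw [adjb]
    constructor
    · intro h
      have hne : a ≠ b := fun h2 => h.1 (by rw [h2])
      have h3 := h.2.2 fun v hv w hw => σ.2.2.2 v (hr _ hv) w (hr _ hw)
      rw [hfs, hfs] at h3
      rcases h3 with h3 | h3
      · exact Or.inl (h3.ssubset_of_ne fun h4 => hne (Subtype.ext h4))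
      · exact Or.inr (h3.ssubset_of_ne fun h4 => hne (Subtype.ext h4.symm))
    · intro h
      have hne : a ≠ b := by
        rintro rfl
        rcases h with h | h <;> exact h.2 (Finset.Subset.refl _)
      refine ⟨fun h2 => hne (hfi _ _ h2), hX _ σ.2.1 _ (union_subset (hr _) (hr _)), fun _ => ?_⟩
      rw [hfs, hfs]
      exact h.imp (fun h => h.subset) (fun h => h.subset)

/-! ### the union of a clique -/

/-- the largest element of a given colour in a clique -/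
theorem exists_top {S : Finset (MF X col)} (hS : (cs X col).IsClique (S : Set (MF X col))) (c : Fin k)
    (h : ∃ σ ∈ S, mc σ = c) : ∃ T ∈ S, mc T = c ∧ ∀ σ ∈ S, mc σ = c → σ.1 ⊆ T.1 := by
  classical
  obtain ⟨σ0, h0, h0c⟩ := h
  obtain ⟨T, hT, hmax⟩ := exists_max_image (S.filter (fun σ => mc σ = c)) (fun σ => σ.1.card)
    ⟨σ0, mem_filter.mpr ⟨h0, h0c⟩⟩
  rw [mem_filter] at hT
  refine ⟨T, hT.1, hT.2, fun σ hσ hσc => ?_⟩
  by_cases hne : σ = T
  · rw [hne]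
  · rcases adj_same (hS hσ hT.1 hne) (hσc.trans hT.2.symm) with h1 | h1
    · exact h1
    · have h2 := hmax σ (mem_filter.mpr ⟨hσ, hσc⟩)
      exact (eq_of_subset_of_card_le h1 h2).ge

/-- the union of a clique is a simplex -/
theorem union_mem (hX : ∀ σ ∈ X, ∀ τ : Finset (Fin N), τ ⊆ σ → τ ∈ X)
    (hfl : ∀ σ : Finset (Fin N), (∀ c c' : Fin k, σ.filter (fun v => col v = c ∨ col v = c') ∈ X) → σ ∈ X)
    {S : Finset (MF X col)} (hS : (cs X col).IsClique (S : Set (MF X col))) (hne : S.Nonempty)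
    (σ : Finset (Fin N)) (hσ : ∀ v, v ∈ σ ↔ ∃ τ ∈ S, v ∈ τ.1) : σ ∈ X := by
  classical
  obtain ⟨τ0, h0⟩ := hne
  have hemp : ∅ ∈ X := hX _ τ0.2.1 _ (empty_subset _)
  refine hfl σ fun c c' => ?_
  by_cases h1 : ∃ τ ∈ S, mc τ = c
  · obtain ⟨T, hT, hTc, hTm⟩ := exists_top hS c h1
    by_cases h2 : ∃ τ ∈ S, mc τ = c'
    · obtain ⟨T', hT', hTc', hTm'⟩ := exists_top hS c' h2
      have h3 : T.1 ∪ T'.1 ∈ X := by
        by_cases h4 : T = T'
        · rw [h4, union_self]; exact T'.2.1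
        · exact (hS hT hT' h4).2.1
      refine hX _ h3 _ fun v hv => ?_
      rw [mem_filter, hσ] at hv
      obtain ⟨⟨τ, hτ, hvτ⟩, hvc⟩ := hv
      rw [mc_eq τ hvτ] at hvc
      rw [mem_union]
      exact hvc.imp (fun h => hTm τ hτ h hvτ) (fun h => hTm' τ hτ h hvτ)
    · refine hX _ T.2.1 _ fun v hv => ?_
      rw [mem_filter, hσ] at hv
      obtain ⟨⟨τ, hτ, hvτ⟩, hvc⟩ := hv
      rw [mc_eq τ hvτ] at hvc
      rcases hvc with h | h
      · exact hTm τ hτ h hvτ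
      · exact absurd ⟨τ, hτ, h⟩ h2
  · by_cases h2 : ∃ τ ∈ S, mc τ = c'
    · obtain ⟨T', hT', hTc', hTm'⟩ := exists_top hS c' h2
      refine hX _ T'.2.1 _ fun v hv => ?_
      rw [mem_filter, hσ] at hv
      obtain ⟨⟨τ, hτ, hvτ⟩, hvc⟩ := hv
      rw [mc_eq τ hvτ] at hvc
      rcases hvc with h | h
      · exact absurd ⟨τ, hτ, h⟩ h1
      · exact hTm' τ hτ h hvτ
    · refine hX _ hemp _ fun v hv => ?_
      rw [mem_filter, hσ] at hv
      obtain ⟨⟨τ, hτ, hvτ⟩, hvc⟩ := hv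
      rw [mc_eq τ hvτ] at hvc
      rcases hvc with h | h
      · exact absurd ⟨τ, hτ, h⟩ h1
      · exact absurd ⟨τ, hτ, h⟩ h2

/-! ### the embedding -/

open Classical in
/-- the canonical map from the realization of the subdivision to the realization of `X` -/
noncomputable def bar (X : Finset (Finset (Fin N))) (col : Fin N → Fin k) (x : MF X col → ℝ) (v : Fin N) : ℝ :=
  ∑ᶠ σ : MF X col, x σ * (if v ∈ σ.1 then (σ.1.card : ℝ)⁻¹ else 0)

theorem bar_cont : Continuous (bar X col) := by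
  classical
  have : Fintype (MF X col) := Fintype.ofFinite _
  refine continuous_pi fun v => ?_
  have h : (fun x : MF X col → ℝ => bar X col x v) =
      fun x => ∑ σ : MF X col, x σ * (if v ∈ σ.1 then (σ.1.card : ℝ)⁻¹ else 0) := by
    funext x
    rw [bar, finsum_eq_sum_of_fintype]
  rw [h]
  exact continuous_finsetSum _ fun σ _ => (continuous_apply σ).mul continuous_const

theorem bar_ne {x : MF X col → ℝ} (hx : ∀ σ, 0 ≤ x σ) (v : Fin N) :
    bar X col x v ≠ 0 ↔ ∃ σ, x σ ≠ 0 ∧ v ∈ σ.1 := by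
  classical
  have : Fintype (MF X col) := Fintype.ofFinite _
  rw [bar, finsum_eq_sum_of_fintype, ne_eq, sum_eq_zero_iff_of_nonneg]
  · push Not
    constructor
    · rintro ⟨σ, _, h⟩
      refine ⟨σ, left_ne_zero_of_mul h, ?_⟩
      by_contra h2
      rw [if_neg h2, mul_zero] at h
      exact h rfl
    · rintro ⟨σ, h1, h2⟩
      refine ⟨σ, mem_univ σ, ?_⟩
      rw [if_pos h2]
      exact mul_ne_zero h1 (inv_ne_zero (Nat.cast_ne_zero.mpr (card_pos' σ).ne'))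
  · intro σ _
    refine mul_nonneg (hx σ) ?_
    split_ifs <;> positivity

theorem bar_nonneg {x : MF X col → ℝ} (hx : ∀ σ, 0 ≤ x σ) (v : Fin N) : 0 ≤ bar X col x v := by
  classical
  have : Fintype (MF X col) := Fintype.ofFinite _
  rw [bar, finsum_eq_sum_of_fintype]
  refine sum_nonneg fun σ _ => mul_nonneg (hx σ) ?_
  split_ifs <;> positivity

theorem bar_sum (x : MF X col → ℝ) : ∑ v, bar X col x v = ∑ᶠ σ, x σ := by
  classical
  have : Fintype (MF X col) := Fintype.ofFinite _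
  simp only [bar, finsum_eq_sum_of_fintype]
  rw [sum_comm]
  refine sum_congr rfl fun σ _ => ?_
  rw [← mul_sum, sum_ite_mem, univ_inter, sum_const, nsmul_eq_mul,
    mul_inv_cancel₀ (Nat.cast_ne_zero.mpr (card_pos' σ).ne'), mul_one]

theorem rea_clique {x : MF X col → ℝ} (hx : x ∈ Rea (cs X col)) :
    ∃ S : Finset (MF X col), (cs X col).IsClique (S : Set (MF X col)) ∧ S.Nonempty ∧ ∀ σ, σ ∈ S ↔ x σ ≠ 0 := by
  classical
  have : Fintype (MF X col) := Fintype.ofFinite _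
  obtain ⟨_, h2, h3⟩ := hx
  refine ⟨univ.filter (fun σ => x σ ≠ 0), ?_, ?_, fun σ => by simp⟩
  · refine h3.subset fun σ hσ => ?_
    rw [mem_coe, mem_filter] at hσ
    exact hσ.2
  · by_contra h
    rw [not_nonempty_iff_eq_empty, filter_eq_empty_iff] at h
    rw [finsum_eq_sum_of_fintype, sum_eq_zero fun σ hσ => not_not.mp (h hσ)] at h2
    exact zero_ne_one h2

theorem bar_mem (hX : ∀ σ ∈ X, ∀ τ : Finset (Fin N), τ ⊆ σ → τ ∈ X)
    (hfl : ∀ σ : Finset (Fin N), (∀ c c' : Fin k, σ.filter (fun v => col v = c ∨ col v = c') ∈ X) → σ ∈ X)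
    {x : MF X col → ℝ} (hx : x ∈ Rea (cs X col)) : bar X col x ∈ Rx X := by
  classical
  obtain ⟨S, hS, hne, hSx⟩ := rea_clique hx
  obtain ⟨h1, h2, h3⟩ := hx
  refine ⟨bar_nonneg h1, ?_, ?_⟩
  · rw [bar_sum, h2]
  · refine union_mem hX hfl hS hne _ fun v => ?_
    rw [mem_filter]
    simp only [mem_univ, true_and]
    rw [bar_ne h1]
    constructor
    · rintro ⟨σ, h4, h5⟩
      exact ⟨σ, (hSx σ).mpr h4, h5⟩
    · rintro ⟨σ, h4, h5⟩
      exact ⟨σ, (hSx σ).mp h4, h5⟩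

theorem bar_top {x : MF X col → ℝ} (hx : x ∈ Rea (cs X col)) (c : Fin k) (v0 : Fin N) (hv0 : col v0 = c)
    (h0 : bar X col x v0 ≠ 0) : ∃ T : MF X col, x T ≠ 0 ∧ ∀ v, v ∈ T.1 ↔ (bar X col x v ≠ 0 ∧ col v = c) := by
  obtain ⟨S, hS, _, hSx⟩ := rea_clique hx
  obtain ⟨σ0, h1, h2⟩ := (bar_ne hx.1 v0).mp h0
  obtain ⟨T, hT, hTc, hTm⟩ := exists_top hS c ⟨σ0, (hSx σ0).mpr h1, by rw [← mc_eq σ0 h2, hv0]⟩
  refine ⟨T, (hSx T).mp hT, fun v => ⟨fun hv => ⟨(bar_ne hx.1 v).mpr ⟨T, (hSx T).mp hT, hv⟩, ?_⟩, ?_⟩⟩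
  · rw [mc_eq T hv, hTc]
  · rintro ⟨h3, h4⟩
    obtain ⟨σ, h5, h6⟩ := (bar_ne hx.1 v).mp h3
    exact hTm σ ((hSx σ).mpr h5) (by rw [← mc_eq σ h6, h4]) h6

/-- the embedding of the subdivision -/
theorem emb_cs {d : ℕ} (hX : ∀ σ ∈ X, ∀ τ : Finset (Fin N), τ ⊆ σ → τ ∈ X)
    (hfl : ∀ σ : Finset (Fin N), (∀ c c' : Fin k, σ.filter (fun v => col v = c ∨ col v = c') ∈ X) → σ ∈ X)
    (f : (Fin N → ℝ) → EuclideanSpace ℝ (Fin (2 * d + 1))) (hf : ContinuousOn f (Rx X))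
    (hf1 : ∀ x ∈ Rx X, ‖f x‖ = 1) (hfi : Set.InjOn f (Rx X)) : Emb d (cs X col) := by
  refine Emb.unit (fun x => f (bar X col x)) inferInstance
    (hf.comp bar_cont.continuousOn fun x hx => bar_mem hX hfl hx) (fun x hx => hf1 _ (bar_mem hX hfl hx)) ?_
  intro x hx y hy hxy h
  have h1 := hfi (bar_mem hX hfl hx) (bar_mem hX hfl hy) h
  obtain ⟨S, _, ⟨σ0, hσ0⟩, hSx⟩ := rea_clique hx
  obtain ⟨v0, hv0⟩ := σ0.2.2.1
  have hb : bar X col x v0 ≠ 0 := (bar_ne hx.1 v0).mpr ⟨σ0, (hSx σ0).mp hσ0, hv0⟩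
  obtain ⟨T, hT, hT2⟩ := bar_top hx (col v0) v0 rfl hb
  obtain ⟨T', hT', hT2'⟩ := bar_top hy (col v0) v0 rfl (h1 ▸ hb)
  have h2 : T = T' := by
    apply Subtype.ext
    ext v
    rw [hT2, hT2', h1]
  rcases hxy T with h3 | h3
  · exact hT h3
  · rw [h2] at h3
    exact hT' h3

/-! ### the theorem -/

/-- **Theorem.** -/
theorem lv_cs {d : ℕ} (hX : ∀ σ ∈ X, ∀ τ : Finset (Fin N), τ ⊆ σ → τ ∈ X)
    (a : Fin k → ℕ) (ha : ∑ c, a c ≤ d + 1)
    (hsz : ∀ σ ∈ X, ∀ c, (∀ v ∈ σ, col v = c) → σ.card ≤ 2 * a c)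
    (hE : Emb d (cs X col)) (i : ℕ) (hi : d < i) : LV (cs X col) i := by
  classical
  refine lv_relsub (cs X col) {σ | Even σ.1.card} (fun σ => {τ | τ.1 ⊂ σ.1}) (fun σ => σ.1.card) (d + 1)
    ?_ ?_ ?_ ?_ i hi
  · intro σ _ τ hτ
    have hτ : τ.1 ⊂ σ.1 := hτ
    refine ⟨⟨?_, ?_, fun _ => Or.inr hτ.subset⟩, card_lt_card hτ⟩
    · rintro rfl
      exact hτ.2 (Finset.Subset.refl _)
    · rw [union_eq_left.mpr hτ.subset]
      exact σ.2.1
  · intro σ _ ω hω hωl τ hτ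
    have hτ : τ.1 ⊂ σ.1 := hτ
    have hωl : ¬ ω.1 ⊂ σ.1 := hωl
    refine ⟨?_, ?_, fun h => ?_⟩
    · rintro rfl
      exact hωl hτ
    · refine hX _ hω.2.1 _ ?_
      rw [union_comm]
      exact union_subset_union_left hτ.subset
    · right
      have h1 : mc σ = mc ω := by
        obtain ⟨v, hv⟩ := τ.2.2.1
        obtain ⟨w, hw⟩ := ω.2.2.1
        rw [← mc_eq σ (hτ.subset hv), ← mc_eq ω hw]
        exact (h w hw v hv).symm
      rcases adj_same hω h1 with h2 | h2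
      · exact hτ.subset.trans h2
      · exact absurd (h2.ssubset_of_ne fun h3 => hω.1 (Subtype.ext h3.symm)) hωl
  · intro σ hσ i
    exact lv_lower hX σ hσ i
  · intro i hi _ _
    -- the colours
    have hcard : Fintype.card (Σ c : Fin k, Fin (a c)) ≤ Fintype.card (Fin (d + 1)) := by
      rw [Fintype.card_sigma, Fintype.card_fin]
      simpa using ha
    obtain ⟨ι⟩ := Function.Embedding.nonempty_of_card_le hcard
    have hlt : ∀ σ : ↥({σ : MF X col | Even σ.1.card}ᶜ), (σ.1.1.card - 1) / 2 < a (mc σ.1) := by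
      intro σ
      have h1 := hsz σ.1.1 σ.1.2.1 (mc σ.1) fun v hv => mc_eq σ.1 hv
      have h2 : ¬ Even σ.1.1.card := σ.2
      rw [Nat.not_even_iff_odd] at h2
      obtain ⟨r, hr⟩ := h2
      omega
    refine l2_emb (hE.induce _) (fun σ => ι ⟨mc σ.1, ⟨(σ.1.1.card - 1) / 2, hlt σ⟩⟩) ?_ i (by omega)
    intro σ τ hστ h
    have hστ : (cs X col).Adj σ.1 τ.1 := hστ
    have h1 := ι.injective h
    rw [Sigma.mk.injEq] at h1
    obtain ⟨h2, h3⟩ := h1
    have h4 : (σ.1.1.card - 1) / 2 = (τ.1.1.card - 1) / 2 := by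
      have h5 : ∀ (n m : ℕ) (_ : n = m) (x : Fin n) (y : Fin m), x ≍ y → x.1 = y.1 := by
        rintro n m rfl x y h
        rw [eq_of_heq h]
      exact h5 _ _ (by rw [h2]) _ _ h3
    have hσ : ¬ Even σ.1.1.card := σ.2
    have hτ : ¬ Even τ.1.1.card := τ.2
    rw [Nat.not_even_iff_odd] at hσ hτ
    have h5 : σ.1.1.card = τ.1.1.card := by
      obtain ⟨r, hr⟩ := hσ
      obtain ⟨s, hs⟩ := hτ
      omega
    rcases adj_same hστ h2 with h6 | h6
    · exact hστ.1 (Subtype.ext (eq_of_subset_of_card_le h6 h5.ge))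
    · exact hστ.1 (Subtype.ext (eq_of_subset_of_card_le h6 h5.le).symm)

end Pool.Agent.R782.Bal
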