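import Pool.Agent.H7.L.R782_Bal_Emb

/-!
# Colourwise barycentric subdivisions
-/

set_option autoImplicit false

namespace Pool.Agent.R782.Bal

/-- the nonempty simplices of `X` all of whose vertices have the same colour -/
def MF {N k : ℕ} (X : Finset (Finset (Fin N))) (col : Fin N → Fin k) : Type :=
  {σ : Finset (Fin N) // σ ∈ X ∧ σ.Nonempty ∧ ∀ v ∈ σ, ∀ w ∈ σ, col v = col w}

/-- The graph of the colourwise barycentric subdivision of the simplicial complex `X`. Its vertices are the
nonempty monochromatic simplices of `X`; two of them are adjacent if their union is a simplex of `X` and, in the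
case that they have the same colour, one of them is contained in the other. (With one colour this is the barycentric
subdivision. If every monochromatic simplex has at most two vertices then the monochromatic edges are subdivided by
their midpoints.) -/
def cs {N k : ℕ} (X : Finset (Finset (Fin N))) (col : Fin N → Fin k) : SimpleGraph (MF X col) where
  Adj σ τ := σ ≠ τ ∧ σ.1 ∪ τ.1 ∈ X ∧ ((∀ v ∈ σ.1, ∀ w ∈ τ.1, col v = col w) → σ.1 ⊆ τ.1 ∨ τ.1 ⊆ σ.1)
  symm := ⟨by
    rintro σ τ ⟨h1, h2, h3⟩
    refine ⟨h1.symm, by rwa [Finset.union_comm], fun h => ?_⟩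
    exact (h3 fun v hv w hw => (h w hw v hv).symm).symm⟩
  loopless := ⟨fun σ h => h.1 rfl⟩

/-- the geometric realization of the simplicial complex `X` -/
def Rx {N : ℕ} (X : Finset (Finset (Fin N))) : Set (Fin N → ℝ) :=
  {x | (∀ v, 0 ≤ x v) ∧ ∑ v, x v = 1 ∧ Finset.univ.filter (fun v => x v ≠ 0) ∈ X}

/-- The colouring of the vertices of `X` is `(d+1)`-small: there are numbers `a c` with sum at most `d + 1` such
that every simplex all of whose vertices have the colour `c` has at most `2 a c` vertices. (For example: one colour
and `dim X ≤ 2 d + 1`; or `d + 1` colours without monochromatic triangles; or a proper colouring by `d + 1`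
colours.) -/
def Small {N k : ℕ} (d : ℕ) (X : Finset (Finset (Fin N))) (col : Fin N → Fin k) : Prop :=
  ∃ a : Fin k → ℕ, ∑ c, a c ≤ d + 1 ∧ ∀ σ ∈ X, ∀ c, (∀ v ∈ σ, col v = c) → σ.card ≤ 2 * a c

/-- `X` is embedded in a sphere of dimension `2 d`. -/
inductive EmbX (d : ℕ) {N k : ℕ} (X : Finset (Finset (Fin N))) (col : Fin N → Fin k) : Prop
  /-- The missing faces of `X` have vertices of at most two colours (this holds if there are at most two colours, and
  if `X` is a flag complex), and there is a continuous injective map of the geometric realization of `X` to the unit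
  sphere of the euclidean space of dimension `2 d + 1`. -/
  | real (f : (Fin N → ℝ) → EuclideanSpace ℝ (Fin (2 * d + 1))) :
      (∀ σ : Finset (Fin N), (∀ c c' : Fin k, σ.filter (fun v => col v = c ∨ col v = c') ∈ X) → σ ∈ X) →
      ContinuousOn f (Rx X) → (∀ x ∈ Rx X, ‖f x‖ = 1) → Set.InjOn f (Rx X) → EmbX d X col
  /-- The colourwise barycentric subdivision is embedded in the sense of `Emb`. -/
  | sub : Emb d (cs X col) → EmbX d X col

end Pool.Agent.R782.Bal
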