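import Pool.Agent.H7.L.W907_SM_Stmts

namespace Pool.Agent.W111.SM

open Pool.Agent.W907.SG Pool.Agent.W907.SM

/-- `L2Van` for the full subgraph on `A`, for all choices of the instances -/
def L2A {V : Type} (G : SimpleGraph V) (A : Set V) (i : ℕ) : Prop :=
  ∀ (_ : Fintype ↥A) (_ : LinearOrder ↥A), L2Van (G.induce A) i

theorem l2a_of (hord : S_ORD) {V : Type} (G : SimpleGraph V) (A : Set V) (i : ℕ)
    (f : Fintype ↥A) (o : LinearOrder ↥A) (h : L2Van (G.induce A) i) : L2A G A i :=
  fun f' o' => hord _ _ f f' o o' _ _ i ⟨SimpleGraph.Iso.refl⟩ h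

/-- nested induced subgraphs -/
noncomputable def nestIso {V : Type} (G : SimpleGraph V) (B A : Set V) (C : Set ↥B)
    (h : ∀ x : V, x ∈ A ↔ ∃ hx : x ∈ B, (⟨x, hx⟩ : ↥B) ∈ C) :
    G.induce A ≃g (G.induce B).induce C where
  toFun x := ⟨⟨x.1, ((h x.1).1 x.2).1⟩, ((h x.1).1 x.2).2⟩
  invFun y := ⟨y.1.1, (h y.1.1).2 ⟨y.1.2, y.2⟩⟩
  left_inv x := rfl
  right_inv y := rfl
  map_rel_iff' := Iff.rfl

theorem l2_nest (hord : S_ORD) {V : Type} (G : SimpleGraph V) (B A : Set V) (C : Set ↥B)
    (h : ∀ x : V, x ∈ A ↔ ∃ hx : x ∈ B, (⟨x, hx⟩ : ↥B) ∈ C) (i : ℕ) [Finite V] (hA : L2A G A i)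
    (f : Fintype ↥C) (o : LinearOrder ↥C) : L2Van ((G.induce B).induce C) i := by
  classical
  haveI := Fintype.ofFinite V
  let oA : LinearOrder ↥A := LinearOrder.lift' (nestIso G B A C h) (nestIso G B A C h).injective
  let fA : Fintype ↥A := Fintype.ofFinite _
  exact hord _ _ fA f oA o _ _ i ⟨nestIso G B A C h⟩ (hA _ _)

theorem l2a_insert (hadd : S_L2ADD) (hord : S_ORD) {V : Type} [Finite V] [LinearOrder V] (G : SimpleGraph V)
    (A : Set V) (v : V) (i : ℕ) (hv : v ∉ A) (hA : L2A G A i)
    (hL : ∀ j, i = j + 1 → L2A G (A ∩ G.neighborSet v) j) : L2A G (insert v A) i := by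
  classical
  haveI := Fintype.ofFinite V
  letI fB : Fintype ↥(insert v A) := Fintype.ofFinite _
  refine l2a_of hord G _ i fB inferInstance ?_
  letI : Fintype ↥({(⟨v, Set.mem_insert v A⟩ : ↥(insert v A))}ᶜ : Set ↥(insert v A)) := Fintype.ofFinite _
  letI : Fintype ↥((G.induce (insert v A)).neighborSet (⟨v, Set.mem_insert v A⟩ : ↥(insert v A))) :=
    Fintype.ofFinite _
  refine hadd _ (G.induce (insert v A)) ⟨v, Set.mem_insert v A⟩ i ?_ ?_
  · refine l2_nest hord G (insert v A) A _ ?_ i hA _ _
    intro x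
    constructor
    · intro hx
      refine ⟨Set.mem_insert_of_mem _ hx, ?_⟩
      simp only [Set.mem_compl_iff, Set.mem_singleton_iff, Subtype.mk.injEq]
      rintro rfl
      exact hv hx
    · rintro ⟨hx, hx2⟩
      simp only [Set.mem_compl_iff, Set.mem_singleton_iff, Subtype.mk.injEq] at hx2
      rcases hx with h | h
      · exact absurd h hx2
      · exact h
  · intro j hj
    refine l2_nest hord G (insert v A) (A ∩ G.neighborSet v) _ ?_ j (hL j hj) _ _
    intro x
    constructor
    · rintro ⟨hx, hx2⟩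
      exact ⟨Set.mem_insert_of_mem _ hx, hx2⟩
    · rintro ⟨hx, hx2⟩
      have hx3 : G.Adj v x := hx2
      refine ⟨?_, hx3⟩
      rcases hx with h | h
      · exact absurd h.symm hx3.ne
      · exact h

theorem l2a_join (hadd : S_L2ADD) (hord : S_ORD) {V : Type} [Finite V] [LinearOrder V] (G : SimpleGraph V)
    (A : Set V) (hA : ∀ i, L2A G A i) (n : ℕ) : ∀ B : Set V, B.ncard ≤ n → (∀ a ∈ A, ∀ b ∈ B, G.Adj b a) →
    ∀ i, L2A G (A ∪ B) i := by
  classical
  haveI := Fintype.ofFinite V
  induction n with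
  | zero =>
    intro B hB _ i
    have : B = ∅ := by
      rwa [Nat.le_zero, Set.ncard_eq_zero] at hB
    rw [this, Set.union_empty]
    exact hA i
  | succ n ih =>
    intro B hB hAB i
    by_cases hne : B = ∅
    · rw [hne, Set.union_empty]
      exact hA i
    obtain ⟨b, hb⟩ := Set.nonempty_iff_ne_empty.2 hne
    have hbA : b ∉ A := fun h => (hAB b h b hb).ne rfl
    have h1 : A ∪ B = insert b (A ∪ (B \ {b})) := by
      ext x
      simp only [Set.mem_union, Set.mem_insert_iff, Set.mem_diff, Set.mem_singleton_iff]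
      constructor
      · rintro (h | h)
        · exact Or.inr (Or.inl h)
        · by_cases hx : x = b
          · exact Or.inl hx
          · exact Or.inr (Or.inr ⟨h, hx⟩)
      · rintro (rfl | h | h)
        · exact Or.inr hb
        · exact Or.inl h
        · exact Or.inr h.1
    have hc : (B \ {b}).ncard ≤ n := by
      have := Set.ncard_diff_singleton_add_one hb (Set.toFinite B)
      omega
    rw [h1]
    refine l2a_insert hadd hord G _ b i ?_ ?_ ?_
    · simp only [Set.mem_union, Set.mem_diff, Set.mem_singleton_iff, not_true_eq_false, and_false, or_false]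
      exact hbA
    · exact ih _ hc (fun a ha x hx => hAB a ha x hx.1) i
    · intro j _
      have h2 : (A ∪ B \ {b}) ∩ G.neighborSet b = A ∪ ((B \ {b}) ∩ G.neighborSet b) := by
        ext x
        simp only [Set.mem_inter_iff, Set.mem_union]
        constructor
        · rintro ⟨h | h, h'⟩
          · exact Or.inl h
          · exact Or.inr ⟨h, h'⟩
        · rintro (h | h)
          · exact ⟨Or.inl h, hAB x h b hb⟩
          · exact ⟨Or.inr h.1, h.2⟩
      rw [h2]
      refine ih _ ?_ (fun a ha x hx => hAB a ha x hx.1.1) j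
      exact (Set.ncard_le_ncard Set.inter_subset_left (Set.toFinite _)).trans hc

theorem odd_of (hadd : S_L2ADD) (hord : S_ORD) : M_ODD := by
  intro n V _ _ r rk htr hrk hlow i hev
  classical
  set E : Set V := {v | Even (rk v : ℕ)} with hE
  set G : SimpleGraph V := W907.SM.cmp r with hG
  have hadj : ∀ x y, G.Adj x y ↔ x ≠ y ∧ (r x y ∨ r y x) := fun x y => SimpleGraph.fromRel_adj r x y
  have hne : ∀ x y, r x y → x ≠ y := by
    rintro x y h rfl
    exact lt_irrefl _ (hrk _ _ h)
  have hlow' : ∀ σ, Odd (rk σ : ℕ) → ∀ j, L2A G {v | r v σ} j := by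
    intro σ hσ j
    letI f : Fintype ↥{v | r v σ} := Fintype.ofFinite _
    exact l2a_of hord G _ j f inferInstance (hlow σ hσ f j)
  have hE0 : L2A G E i := by
    letI f : Fintype ↥E := Fintype.ofFinite _
    exact l2a_of hord G _ i f inferInstance (hev f)
  have key : ∀ s : Finset V, (∀ x ∈ s, Odd (rk x : ℕ)) →
      (∀ x ∈ s, ∀ y, Odd (rk y : ℕ) → rk y < rk x → y ∈ s) → L2A G (E ∪ (s : Set V)) i := by
    intro s
    refine Finset.induction_on_max_value rk (motive := fun s : Finset V => (∀ x ∈ s, Odd (rk x : ℕ)) →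
      (∀ x ∈ s, ∀ y, Odd (rk y : ℕ) → rk y < rk x → y ∈ s) → L2A G (E ∪ (s : Set V)) i) s ?_ ?_
    · intro _ _
      rw [Finset.coe_empty, Set.union_empty]
      exact hE0
    · intro a s ha hmax ih hodd hcl
      have hs1 : ∀ x ∈ s, Odd (rk x : ℕ) := fun x hx => hodd x (Finset.mem_insert_of_mem hx)
      have hs2 : ∀ x ∈ s, ∀ y, Odd (rk y : ℕ) → rk y < rk x → y ∈ s := by
        intro x hx y hy hlt
        rcases Finset.mem_insert.1 (hcl x (Finset.mem_insert_of_mem hx) y hy hlt) with h | h
        · subst h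
          exact absurd (hmax x hx) (not_le.2 hlt)
        · exact h
      have hao : Odd (rk a : ℕ) := hodd a (Finset.mem_insert_self a s)
      have h1 : E ∪ ((insert a s : Finset V) : Set V) = insert a (E ∪ (s : Set V)) := by
        rw [Finset.coe_insert, Set.union_insert]
      rw [h1]
      refine l2a_insert hadd hord G _ a i ?_ (ih hs1 hs2) ?_
      · rintro (h | h)
        · exact (Nat.not_even_iff_odd.2 hao) h
        · exact ha h
      · intro j _
        have h2 : (E ∪ (s : Set V)) ∩ G.neighborSet a = {v | r v a} ∪ {v | r a v ∧ Even (rk v : ℕ)} := by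
          ext x
          simp only [Set.mem_inter_iff, Set.mem_union, SimpleGraph.mem_neighborSet, Set.mem_setOf_eq,
            Finset.mem_coe]
          rw [hadj]
          constructor
          · rintro ⟨hx, -, h | h⟩
            · rcases hx with hx | hx
              · exact Or.inr ⟨h, hx⟩
              · exact absurd (hmax x hx) (not_le.2 (hrk _ _ h))
            · exact Or.inl h
          · rintro (h | ⟨h, hx⟩)
            · refine ⟨?_, (hne _ _ h).symm, Or.inr h⟩
              by_cases hx : Even (rk x : ℕ)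
              · exact Or.inl hx
              · right
                rw [Nat.not_even_iff_odd] at hx
                rcases Finset.mem_insert.1 (hcl a (Finset.mem_insert_self a s) x hx (hrk _ _ h)) with h' | h'
                · exact absurd h' (hne _ _ h)
                · exact h'
            · exact ⟨Or.inl hx, hne _ _ h, Or.inl h⟩
        rw [h2]
        refine l2a_join hadd hord G _ (hlow' a hao) _ _ le_rfl ?_ j
        rintro x hx y ⟨hy, -⟩
        rw [hadj]
        exact ⟨(hne _ _ (htr _ _ _ hx hy)).symm, Or.inr (htr _ _ _ hx hy)⟩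
  have hfin := key (Finset.univ.filter fun v => Odd (rk v : ℕ)) (by simp) (by
    intro x _ y hy _
    simpa using hy)
  have hu : E ∪ ((Finset.univ.filter fun v => Odd (rk v : ℕ) : Finset V) : Set V) = Set.univ := by
    ext x
    simp only [Set.mem_union, Finset.mem_coe, Finset.mem_filter, Finset.mem_univ, true_and, Set.mem_univ,
      iff_true]
    rcases Nat.even_or_odd (rk x : ℕ) with h | h
    · exact Or.inl h
    · exact Or.inr h
  rw [hu] at hfin
  letI f : Fintype ↥(Set.univ : Set V) := Fintype.ofFinite _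
  exact hord _ _ f _ _ _ _ _ i ⟨SimpleGraph.induceUnivIso G⟩ (hfin _ inferInstance)

end Pool.Agent.W111.SM
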