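import Pool.Agent.H7.L.W907_SM_Stmts

set_option autoImplicit false

namespace Pool.Agent.W240.SM

open Pool.Agent.W907.SG Pool.Agent.W907.SM

/-! ### T2 -/

/-- M_T2: generic points -/
theorem t2 : M_T2 := by
  classical
  intro V _ f hf
  obtain ⟨m, hm⟩ := MvPolynomial.ne_zero_iff.1 hf
  obtain ⟨p, hple, hp⟩ := Nat.exists_infinite_primes ((f.coeff m).natAbs + 3)
  have : Fact p.Prime := ⟨hp⟩
  refine ⟨p, ⟨hp⟩, by omega, ?_⟩
  -- the reduction is nonzero
  have hfp : MvPolynomial.map (Int.castRingHom (Polynomial (ZMod p))) f ≠ 0 := by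
    intro h0
    have h1 := congrArg (MvPolynomial.coeff m) h0
    rw [MvPolynomial.coeff_map, MvPolynomial.coeff_zero, eq_intCast] at h1
    have h2 : ((f.coeff m : ℤ) : ZMod p) = 0 := by
      have h3 := congrArg (Polynomial.coeff · 0) h1
      simpa using h3
    rw [ZMod.intCast_zmod_eq_zero_iff_dvd] at h2
    have h4 := Int.natAbs_dvd_natAbs.2 h2
    have h5 := Nat.le_of_dvd (Int.natAbs_pos.2 hm) h4
    rw [Int.natAbs_natCast] at h5
    omega
  have : Fintype V := Fintype.ofFinite V
  let sel : (V → Bool) → V → V ⊕ V := fun χ v => if χ v then Sum.inl v else Sum.inr v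
  have hsel : ∀ χ, Function.Injective (sel χ) := by
    intro χ v w h
    simp only [sel] at h
    split_ifs at h
    · exact Sum.inl_injective h
    · exact Sum.inr_injective h
  let Q : MvPolynomial (V ⊕ V) (Polynomial (ZMod p)) :=
    ∏ χ : V → Bool, MvPolynomial.rename (sel χ)
      (MvPolynomial.map (Int.castRingHom (Polynomial (ZMod p))) f)
  have hQ : Q ≠ 0 := by
    refine Finset.prod_ne_zero_iff.2 fun χ _ => ?_
    intro h0
    exact hfp (MvPolynomial.rename_injective _ (hsel χ) (by rw [h0, map_zero]))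
  let S : V ⊕ V → Set (Polynomial (ZMod p)) := fun i =>
    Sum.elim (fun _ => Set.range fun a => Polynomial.X * a)
      (fun _ => Set.range fun a => 1 + Polynomial.X * a) i
  have hS : ∀ i, (S i).Infinite := by
    rintro (v | v)
    · exact Set.infinite_range_of_injective fun a b h => mul_left_cancel₀ Polynomial.X_ne_zero h
    · exact Set.infinite_range_of_injective fun a b h =>
        mul_left_cancel₀ Polynomial.X_ne_zero (add_left_cancel h)
  have hex : ∃ x ∈ Set.pi Set.univ S, MvPolynomial.eval x Q ≠ 0 := by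
    by_contra hcon
    push Not at hcon
    exact hQ (MvPolynomial.funext_set S hS fun x hx => by rw [hcon x hx, map_zero])
  obtain ⟨x, hx, hxQ⟩ := hex
  have hα : ∀ v : V, ∃ a, Polynomial.X * a = x (Sum.inl v) := fun v => hx (Sum.inl v) trivial
  have hβ : ∀ v : V, ∃ a, 1 + Polynomial.X * a = x (Sum.inr v) := fun v => hx (Sum.inr v) trivial
  choose α hα using hα
  choose β hβ using hβ
  refine ⟨α, β, fun χ h0 => hxQ ?_⟩
  rw [map_prod]
  refine Finset.prod_eq_zero (Finset.mem_univ χ) ?_
  rw [MvPolynomial.eval_rename, MvPolynomial.eval_map, ← h0, MvPolynomial.aeval_def]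
  congr 1
  funext v
  simp only [Function.comp, sel, Pool.Agent.W907.SM.slope]
  split_ifs
  · exact (hα v).symm
  · exact (hβ v).symm

/-! ### IND2 -/

/-- the exponent vector of a squarefree monomial -/
noncomputable def ind {V : Type} (E : Set V) [DecidableEq V] (T : Finset V) : ↥E →₀ ℕ :=
  ∑ v ∈ T, open Classical in if h : v ∈ E then Finsupp.single ⟨v, h⟩ 1 else 0

lemma ind_apply {V : Type} (E : Set V) [DecidableEq V] (T : Finset V) (w : ↥E) :
    ind E T w = if (w : V) ∈ T then 1 else 0 := by
  classical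
  unfold ind
  rw [Finsupp.finsetSum_apply]
  have h1 : ∀ v ∈ T, ((open Classical in if h : v ∈ E then Finsupp.single (⟨v, h⟩ : ↥E) 1 else 0 :
      ↥E →₀ ℕ)) w = if v = w then 1 else 0 := by
    intro v _
    by_cases h : v ∈ E
    · rw [dif_pos h, Finsupp.single_apply]
      congr 1
      exact propext ⟨fun h2 => by rw [← h2], fun h2 => Subtype.ext h2⟩
    · rw [dif_neg h, if_neg]
      · rfl
      · intro h2
        exact h (h2 ▸ w.2)
  rw [Finset.sum_congr rfl h1, Finset.sum_ite_eq']

lemma prod_gen {V : Type} [DecidableEq V] (E : Set V) (T : Finset V) (hT : (T : Set V) ⊆ E) :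
    ∏ v ∈ T, gen E v = algebraMap (MvPolynomial ↥E (ZMod 2)) _
      (MvPolynomial.monomial (ind E T) 1) := by
  classical
  unfold ind
  rw [MvPolynomial.monomial_sum_one, map_prod]
  refine Finset.prod_congr rfl fun v hv => ?_
  have h : v ∈ E := hT hv
  unfold gen
  rw [dif_pos h, dif_pos h]
  rfl

lemma core {V : Type} [Fintype V] [DecidableEq V] (E : Set V)
    (g : Finset V → MvPolynomial ↥E (ZMod 2)) (hg : ∀ T : Finset V, ¬ (T : Set V) ⊆ E → g T = 0)
    (hsum : ∑ T : Finset V, MvPolynomial.monomial (ind E T) 1 * g T ^ 2 = 0) : g = 0 := by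
  classical
  funext T
  by_cases hT : (T : Set V) ⊆ E
  swap
  · rw [hg T hT]
    rfl
  apply MvPolynomial.ext
  intro d
  have h1 := congrArg (MvPolynomial.coeff (ind E T + 2 • d)) hsum
  rw [MvPolynomial.coeff_sum, MvPolynomial.coeff_zero] at h1
  have h2 : ∀ T' : Finset V, T' ≠ T →
      MvPolynomial.coeff (ind E T + 2 • d) (MvPolynomial.monomial (ind E T') 1 * g T' ^ 2) = 0 := by
    intro T' hne
    by_cases hT' : (T' : Set V) ⊆ E
    swap
    · rw [hg T' hT']
      simp
    rw [MvPolynomial.coeff_monomial_mul']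
    split_ifs with hle
    · rw [one_mul, ← MvPolynomial.expand_zmod]
      have h3 : ∃ w : V, w ∈ E ∧ ¬ (w ∈ T ↔ w ∈ T') := by
        by_contra hcon
        push Not at hcon
        apply hne
        ext w
        by_cases hw : w ∈ E
        · exact (hcon w hw).symm
        · exact ⟨fun h => absurd (hT' h) hw, fun h => absurd (hT h) hw⟩
      obtain ⟨w, hwE, hw⟩ := h3
      apply MvPolynomial.coeff_expand_of_not_dvd (i := (⟨w, hwE⟩ : ↥E))
      rw [Finsupp.tsub_apply, Finsupp.add_apply, Finsupp.smul_apply, ind_apply, ind_apply]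
      have h4 := hle ⟨w, hwE⟩
      rw [Finsupp.add_apply, Finsupp.smul_apply, ind_apply, ind_apply] at h4
      simp only [smul_eq_mul] at h4 ⊢
      by_cases h5 : w ∈ T
      · have h6 : w ∉ T' := fun h => hw ⟨fun _ => h, fun _ => h5⟩
        rw [if_pos h5, if_neg h6]
        omega
      · have h6 : w ∈ T' := by
          by_contra h
          exact hw ⟨fun h' => absurd h' h5, fun h' => absurd h' h⟩
        rw [if_neg h5, if_pos h6] at h4 ⊢
        omega
    · rfl
  rw [Finset.sum_eq_single T (fun T' _ hne => h2 T' hne) (fun h => absurd (Finset.mem_univ T) h),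
    MvPolynomial.coeff_monomial_mul, one_mul, ← MvPolynomial.expand_zmod,
    MvPolynomial.coeff_expand_smul 2 (by norm_num)] at h1
  rw [h1]
  rfl

/-- M_IND2: generic slopes are independent over the squares -/
theorem ind2 : M_IND2 := by
  classical
  intro V _ _ E x hx hsum
  obtain ⟨b, hb⟩ := IsLocalization.exist_integer_multiples_of_finite
    (nonZeroDivisors (MvPolynomial ↥E (ZMod 2))) x
  choose g hg using hb
  have hb0 : algebraMap (MvPolynomial ↥E (ZMod 2)) (FractionRing (MvPolynomial ↥E (ZMod 2)))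
      (b : MvPolynomial ↥E (ZMod 2)) ≠ 0 := by
    intro h
    have := (IsFractionRing.injective (MvPolynomial ↥E (ZMod 2))
      (FractionRing (MvPolynomial ↥E (ZMod 2)))) (h.trans (map_zero _).symm)
    exact nonZeroDivisors.coe_ne_zero b this
  have hg' : ∀ T, algebraMap (MvPolynomial ↥E (ZMod 2))
      (FractionRing (MvPolynomial ↥E (ZMod 2))) (g T)
      = algebraMap (MvPolynomial ↥E (ZMod 2)) (FractionRing (MvPolynomial ↥E (ZMod 2)))
        (b : MvPolynomial ↥E (ZMod 2)) * x T := by
    intro T
    rw [hg T, Algebra.smul_def]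
  have hinj := IsFractionRing.injective (MvPolynomial ↥E (ZMod 2))
      (FractionRing (MvPolynomial ↥E (ZMod 2)))
  have hg0 : ∀ T : Finset V, ¬ (T : Set V) ⊆ E → g T = 0 := by
    intro T hT
    apply hinj
    rw [hg' T, hx T hT, mul_zero, map_zero]
  have hgz : g = 0 := by
    apply core E g hg0
    apply hinj
    rw [map_zero, map_sum]
    have h1 : ∀ T : Finset V, algebraMap (MvPolynomial ↥E (ZMod 2))
        (FractionRing (MvPolynomial ↥E (ZMod 2)))
        (MvPolynomial.monomial (ind E T) 1 * g T ^ 2)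
        = (algebraMap (MvPolynomial ↥E (ZMod 2)) (FractionRing (MvPolynomial ↥E (ZMod 2)))
          (b : MvPolynomial ↥E (ZMod 2))) ^ 2 * ((∏ v ∈ T, gen E v) * x T ^ 2) := by
      intro T
      by_cases hT : (T : Set V) ⊆ E
      · rw [map_mul, map_pow, hg' T, prod_gen E T hT]
        ring
      · rw [hg0 T hT, hx T hT]
        simp
    rw [Finset.sum_congr rfl fun T _ => h1 T, ← Finset.mul_sum, hsum, mul_zero]
  funext T
  have h2 := hg' T
  rw [hgz, Pi.zero_apply, map_zero] at h2
  rcases mul_eq_zero.1 h2.symm with h3 | h3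
  · exact absurd h3 hb0
  · exact h3

/-! ### LTR -/

open Classical in
/-- extension by zero along an embedding -/
noncomputable def ex {U V A : Type} [Zero A] (e : U ↪ V) (z : Finset U → A) : Finset V → A :=
  fun T => if h : ∃ T' : Finset U, T'.map e = T then z h.choose else 0

theorem ex_map {U V A : Type} [Zero A] (e : U ↪ V) (z : Finset U → A) (T : Finset U) :
    ex e z (T.map e) = z T := by
  classical
  have h : ∃ T' : Finset U, T'.map e = T.map e := ⟨T, rfl⟩
  unfold ex
  rw [dif_pos h]
  congr 1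
  exact Finset.map_injective e h.choose_spec

theorem ex_not {U V A : Type} [Zero A] (e : U ↪ V) (z : Finset U → A) (T : Finset V)
    (h : ¬ ∃ T' : Finset U, T'.map e = T) : ex e z T = 0 := by
  classical
  exact dif_neg h

theorem ismap_iff {U V : Type} (e : U ↪ V) (T : Finset V) :
    (∃ T' : Finset U, T'.map e = T) ↔ (T : Set V) ⊆ Set.range e := by
  classical
  constructor
  · rintro ⟨T', rfl⟩ x hx
    rw [Finset.mem_coe, Finset.mem_map] at hx
    obtain ⟨y, _, rfl⟩ := hx
    exact ⟨y, rfl⟩
  · intro h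
    rw [← Set.image_univ, Finset.subset_set_image_iff] at h
    obtain ⟨s', _, h2⟩ := h
    exact ⟨s', by rw [Finset.map_eq_image]; exact h2⟩

theorem sg_map {U V : Type} [LinearOrder U] [LinearOrder V] (e : U ↪ V) (he : StrictMono e) (u : U)
    (T : Finset U) : sg (e u) (T.map e) = sg u T := by
  unfold sg
  rw [Finset.filter_map, Finset.card_map]
  congr 2
  refine Finset.filter_congr fun x _ => ?_
  exact he.lt_iff_lt

theorem bdd_ex {U V A : Type} [AddCommGroup A] [Fintype U] [LinearOrder U] [Fintype V]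
    [LinearOrder V] (e : U ↪ V) (he : StrictMono e) (z : Finset U → A) :
    bdd (ex e z) = ex e (bdd z) := by
  classical
  funext T
  by_cases h : ∃ T' : Finset U, T'.map e = T
  · obtain ⟨T', rfl⟩ := h
    rw [ex_map]
    unfold bdd
    have h1 : ∑ u ∈ T'ᶜ, sg u T' • z (insert u T') =
        ∑ v ∈ T'ᶜ.map e, sg v (T'.map e) • ex e z (insert v (T'.map e)) := by
      rw [Finset.sum_map]
      refine Finset.sum_congr rfl fun u _ => ?_
      rw [sg_map e he, ← Finset.map_insert, ex_map]
    rw [h1]
    symm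
    refine Finset.sum_subset ?_ ?_
    · intro v hv
      rw [Finset.mem_map] at hv
      obtain ⟨u, hu, rfl⟩ := hv
      rw [Finset.mem_compl] at hu ⊢
      intro h2
      rw [Finset.mem_map'] at h2
      exact hu h2
    · intro v hv hv'
      rw [ex_not, smul_zero]
      rw [ismap_iff]
      intro h2
      obtain ⟨u, rfl⟩ := h2 (show v ∈ ((insert v (T'.map e) : Finset V) : Set V) by simp)
      apply hv'
      rw [Finset.mem_map', Finset.mem_compl]
      intro h3
      rw [Finset.mem_compl] at hv
      exact hv (Finset.mem_map_of_mem e h3)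
  · rw [ex_not e _ T h]
    unfold bdd
    refine Finset.sum_eq_zero fun v _ => ?_
    rw [ex_not, smul_zero]
    rw [ismap_iff] at h ⊢
    intro h2
    apply h
    intro x hx
    apply h2
    rw [Finset.coe_insert]
    exact Set.mem_insert_of_mem _ hx

theorem clique_map {U V : Type} (e : U ↪ V) (G : SimpleGraph V) (H : SimpleGraph U)
    (hadj : ∀ u u', H.Adj u u' ↔ G.Adj (e u) (e u')) (T : Finset U) :
    G.IsClique ((T.map e : Finset V) : Set V) ↔ H.IsClique (T : Set U) := by
  constructor
  · intro h x hx y hy hxy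
    rw [hadj]
    exact h (by simpa using hx) (by simpa using hy) (fun h' => hxy (e.injective h'))
  · intro h x hx y hy hxy
    rw [Finset.coe_map] at hx hy
    obtain ⟨a, ha, rfl⟩ := hx
    obtain ⟨b, hb, rfl⟩ := hy
    rw [← hadj]
    exact h ha hb (fun h' => hxy (by rw [h']))

/-- M_LTR: transport to a subtype -/
theorem ltr : M_LTR := by
  classical
  intro U V C R _ _ _ _ _ _ G H col D τ φ hφ hadj hD i hEX z hz hbz
  let e : U ↪ V := ⟨φ, hφ.injective⟩
  have he : StrictMono e := hφ
  have hrange : Set.range e = Set.range φ := rfl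
  have hz1 : IsLC G col D τ (Set.range φ) i (ex e z) := by
    refine ⟨?_, ?_⟩
    · intro T hT
      by_cases h : ∃ T' : Finset U, T'.map e = T
      · obtain ⟨T', rfl⟩ := h
        rw [ex_map]
        apply hz.supp
        rintro ⟨h1, _, h3⟩
        apply hT
        refine ⟨(clique_map e G H hadj T').2 h1, ?_, by rw [Finset.card_map, h3]⟩
        exact (ismap_iff e _).1 ⟨T', rfl⟩
      · exact ex_not e z T h
    · intro T t ht _ ε
      by_cases h : ∃ T' : Finset U, T'.map e = T
      · obtain ⟨T', rfl⟩ := h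
        rw [ex_map]
        rw [Finset.mem_map] at ht
        obtain ⟨u, hu, rfl⟩ := ht
        exact hz.line T' u hu trivial ε
      · rw [ex_not e z T h]
        simp
  have hz2 : bdd (ex e z) = 0 := by
    rw [bdd_ex e he, hbz]
    funext T
    by_cases h : ∃ T' : Finset U, T'.map e = T
    · obtain ⟨T', rfl⟩ := h
      rw [ex_map]
      rfl
    · rw [ex_not e _ T h]
      rfl
  obtain ⟨y', hy', hby'⟩ := hEX (ex e z) hz1 hz2
  refine ⟨fun T => y' (T.map e), ⟨?_, ?_⟩, ?_⟩
  · intro T hT
    apply hy'.supp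
    rintro ⟨h1, _, h3⟩
    apply hT
    refine ⟨(clique_map e G H hadj T).1 h1, Set.subset_univ _, by rw [← h3, Finset.card_map]⟩
  · intro T t ht _ ε
    exact hy'.line (T.map e) (e t) (Finset.mem_map_of_mem e ht) (hD t) ε
  · have h1 : ex e (fun T => y' (T.map e)) = y' := by
      funext T
      by_cases h : ∃ T' : Finset U, T'.map e = T
      · obtain ⟨T', rfl⟩ := h
        rw [ex_map]
      · rw [ex_not e _ T h]
        symm
        apply hy'.supp
        rintro ⟨_, h2, _⟩
        exact h ((ismap_iff e T).2 h2)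
    have h2 : ex e (bdd (fun T => y' (T.map e))) = ex e z := by
      rw [← bdd_ex e he, h1, hby']
    funext T
    rw [← ex_map e (bdd (fun T => y' (T.map e))) T, h2, ex_map]

end Pool.Agent.W240.SM
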