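import Pool.Agent.H7.L.W907_SM_Stmts2

/-! Project SM, part JT: join with a complex without top cycles. -/

set_option autoImplicit false

namespace Pool.Agent.W479.SM

open Pool.Agent.W907.SG Pool.Agent.W907.SM
open scoped Classical

/-! ### signs -/

section Signs
variable {V : Type} [LinearOrder V]

/-- the sign of the shuffle `S, U` -/
def sgn (S U : Finset V) : ℤ := ∏ s ∈ S, sg s U

lemma sgn_self (S U : Finset V) : sgn S U * sgn S U = 1 := by
  unfold sgn
  rw [← Finset.prod_mul_distrib]
  exact Finset.prod_eq_one fun s _ => sg_mul_self s U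

lemma sg_union (v : V) (S U : Finset V) (h : Disjoint S U) : sg v (S ∪ U) = sg v S * sg v U := by
  unfold sg
  rw [Finset.filter_union, Finset.card_union_of_disjoint, pow_add]
  exact Finset.disjoint_filter_filter h

lemma sgn_insL (v : V) (S U : Finset V) (h : v ∉ S) :
    sgn (insert v S) U = sg v U * sgn S U := by
  unfold sgn
  rw [Finset.prod_insert h]

lemma prod_lt (v : V) (S : Finset V) (h : v ∉ S) :
    ∏ s ∈ S, (if v < s then (-1 : ℤ) else 1) = (-1) ^ S.card * sg v S := by
  induction S using Finset.induction_on with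
  | empty => simp [sg]
  | insert s S hs ih =>
    rw [Finset.mem_insert, not_or] at h
    rw [Finset.prod_insert hs, ih h.2, Finset.card_insert_of_notMem hs, sg_insert v s S hs, pow_succ]
    rcases lt_or_gt_of_ne h.1 with h1 | h1
    · rw [if_pos h1, if_neg (not_lt.2 h1.le)]; ring
    · rw [if_neg (not_lt.2 (le_of_lt h1)), if_pos h1]; ring

lemma sgn_insR (v : V) (S U : Finset V) (h : v ∉ S) (h' : v ∉ U) :
    sgn S (insert v U) = (-1) ^ S.card * sg v S * sgn S U := by
  unfold sgn
  have : ∀ s ∈ S, sg s (insert v U) = (if v < s then -1 else 1) * sg s U :=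
    fun s _ => sg_insert s v U h'
  rw [Finset.prod_congr rfl this, Finset.prod_mul_distrib, prod_lt v S h]

end Signs

/-! ### slices -/

section Slices
variable {V C K : Type} [Fintype V] [LinearOrder V] [DecidableEq C] [Field K]

/-- the part in `Z` -/
noncomputable def zp (Z : Set V) (T : Finset V) : Finset V := T.filter (fun v => v ∈ Z)

/-- the part outside of `Z` -/
noncomputable def zc (Z : Set V) (T : Finset V) : Finset V := T.filter (fun v => v ∉ Z)

omit [Fintype V] in
lemma zp_union (Z : Set V) (T : Finset V) : zp Z T ∪ zc Z T = T :=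
  Finset.filter_union_filter_not_eq _ _

omit [Fintype V] in
lemma zpc_disj (Z : Set V) (T : Finset V) : Disjoint (zp Z T) (zc Z T) :=
  Finset.disjoint_filter_filter_not _ _ _

omit [Fintype V] in
lemma zp_of (Z : Set V) (S U : Finset V) (hS : (S : Set V) ⊆ Z) (hU : ∀ u ∈ U, u ∉ Z) :
    zp Z (S ∪ U) = S := by
  unfold zp
  rw [Finset.filter_union, Finset.filter_true_of_mem (fun x hx => hS hx),
    Finset.filter_false_of_mem hU, Finset.union_empty]

omit [Fintype V] in
lemma disj_of (Z : Set V) (S U : Finset V) (hS : (S : Set V) ⊆ Z) (hU : ∀ u ∈ U, u ∉ Z) :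
    Disjoint S U := by
  rw [Finset.disjoint_left]
  intro x hx hx'
  exact hU x hx' (hS hx)

/-- bits in `B` from the first, the others from the second argument -/
noncomputable def mixb (B : Set C) (ε ε' : C → Bool) : C → Bool := fun c => if c ∈ B then ε c else ε' c

omit [DecidableEq C] in
lemma mixb_self (B : Set C) (ε ε' : C → Bool) : mixb B (mixb B ε ε') ε = ε := by
  funext c
  unfold mixb
  by_cases h : c ∈ B
  · simp [h]
  · simp [h]

lemma mixb_upd_mem (B : Set C) (ε ε' : C → Bool) (c : C) (b : Bool) (hc : c ∈ B) :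
    mixb B (Function.update ε c b) ε' = Function.update (mixb B ε ε') c b := by
  funext x
  unfold mixb
  by_cases hx : x = c
  · subst hx; simp [hc]
  · simp [Function.update_of_ne hx]

lemma mixb_upd_mem' (B : Set C) (ε ε' : C → Bool) (c : C) (b : Bool) (hc : c ∈ B) :
    mixb B ε (Function.update ε' c b) = mixb B ε ε' := by
  funext x
  unfold mixb
  by_cases hx : x = c
  · subst hx; simp [hc]
  · simp [Function.update_of_ne hx]

lemma mixb_upd_not (B : Set C) (ε ε' : C → Bool) (c : C) (b : Bool) (hc : c ∉ B) :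
    mixb B ε (Function.update ε' c b) = Function.update (mixb B ε ε') c b := by
  funext x
  unfold mixb
  by_cases hx : x = c
  · subst hx; simp [hc]
  · simp [Function.update_of_ne hx]

lemma mixb_upd_not' (B : Set C) (ε ε' : C → Bool) (c : C) (b : Bool) (hc : c ∉ B) :
    mixb B (Function.update ε c b) ε' = mixb B ε ε' := by
  funext x
  unfold mixb
  by_cases hx : x = c
  · subst hx; simp [hc]
  · simp [Function.update_of_ne hx]

/-- boundary in the direction of `Z` -/
noncomputable def dZ (Z : Set V) (c : Finset V → (C → Bool) → K) : Finset V → (C → Bool) → K :=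
  fun T => ∑ v ∈ Tᶜ.filter (fun v => v ∈ Z), sg v T • c (insert v T)

/-- slices -/
noncomputable def slc (Z : Set V) (B : Set C) (c : Finset V → (C → Bool) → K) (U : Finset V)
    (ε' : C → Bool) : Finset V → (C → Bool) → K :=
  fun S ε => if (S : Set V) ⊆ Z then sgn S U • c (S ∪ U) (mixb B ε ε') else 0

/-- slicewise application of a linear map -/
noncomputable def lft (Z : Set V) (B : Set C)
    (r : (Finset V → (C → Bool) → K) →ₗ[K] (Finset V → (C → Bool) → K))
    (c : Finset V → (C → Bool) → K) : Finset V → (C → Bool) → K :=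
  fun T ε => sgn (zp Z T) (zc Z T) •
    r (slc Z B c (zc Z T) ε) (zp Z T) (mixb B ε (fun _ => false))

omit [Fintype V] in
lemma slc_LC {G : SimpleGraph V} {col : V → C} {D : Set C} {τ : V → K} {Z A : Set V} {i q : ℕ}
    {c : Finset V → (C → Bool) → K} (hc : IsLC G col D τ A i c)
    (hq : ∀ T, c T ≠ 0 → (zp Z T).card = q) (U : Finset V) (hU : ∀ u ∈ U, u ∉ Z)
    (ε' : C → Bool) : IsLC G col D τ Z q (slc Z (col '' Z) c U ε') := by
  refine ⟨fun S hS => ?_, fun S t ht htD ε => ?_⟩
  · funext ε
    unfold slc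
    split_ifs with h
    · by_cases h0 : c (S ∪ U) = 0
      · rw [h0]; simp
      · exfalso
        apply hS
        have h1 := hq _ h0
        rw [zp_of Z S U h hU] at h1
        have h2 : G.IsClique ((S ∪ U : Finset V) : Set V) := by
          by_contra hcl
          exact h0 (hc.supp _ (fun h3 => hcl h3.1))
        refine ⟨h2.subset ?_, h, h1⟩
        intro x hx
        exact Finset.mem_coe.2 (Finset.mem_union_left _ (Finset.mem_coe.1 hx))
    · rfl
  · unfold slc
    split_ifs with h
    · have hB : col t ∈ col '' Z := ⟨t, h ht, rfl⟩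
      rw [mixb_upd_mem _ _ _ _ _ hB, mixb_upd_mem _ _ _ _ _ hB,
        hc.line (S ∪ U) t (Finset.mem_union_left _ ht) htD]
      exact (mul_smul_comm _ _ _).symm
    · rw [mul_zero]

lemma bdd_slc (Z : Set V) (B : Set C) (c : Finset V → (C → Bool) → K) (U : Finset V)
    (hU : ∀ u ∈ U, u ∉ Z) (ε' : C → Bool) :
    bdd (slc Z B c U ε') = slc Z B (dZ Z c) U ε' := by
  funext S ε
  unfold bdd
  rw [Finset.sum_apply]
  by_cases h : (S : Set V) ⊆ Z
  · have hd : Disjoint S U := disj_of Z S U h hU
    have e1 : slc Z B (dZ Z c) U ε' S ε = ∑ v ∈ (S ∪ U)ᶜ.filter (fun v => v ∈ Z),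
        (sgn S U * sg v (S ∪ U)) • c (insert v (S ∪ U)) (mixb B ε ε') := by
      unfold slc dZ
      rw [if_pos h, Finset.sum_apply, Finset.smul_sum]
      refine Finset.sum_congr rfl fun v _ => ?_
      rw [Pi.smul_apply, smul_smul]
    rw [e1]
    have e2 : (S ∪ U)ᶜ.filter (fun v => v ∈ Z) = Sᶜ.filter (fun v => v ∈ Z) := by
      ext v
      simp only [Finset.mem_filter, Finset.mem_compl, Finset.mem_union, not_or]
      constructor
      · rintro ⟨⟨h1, _⟩, h3⟩; exact ⟨h1, h3⟩
      · rintro ⟨h1, h3⟩; exact ⟨⟨h1, fun h4 => hU v h4 h3⟩, h3⟩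
    rw [e2]
    symm
    rw [Finset.sum_filter]
    refine Finset.sum_congr rfl fun v hv => ?_
    rw [Finset.mem_compl] at hv
    rw [Pi.smul_apply]
    unfold slc
    by_cases hvZ : v ∈ Z
    · have h2 : ((insert v S : Finset V) : Set V) ⊆ Z := by
        intro x hx
        rcases Finset.mem_insert.1 (Finset.mem_coe.1 hx) with h3 | h3
        · rw [h3]; exact hvZ
        · exact h h3
      rw [if_pos hvZ, if_pos h2, smul_smul, sgn_insL v S U hv, sg_union v S U hd,
        Finset.insert_union]
      congr 1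
      ring
    · have h2 : ¬ ((insert v S : Finset V) : Set V) ⊆ Z := fun h3 =>
        hvZ (h3 (Finset.mem_coe.2 (Finset.mem_insert_self v S)))
      rw [if_neg hvZ, if_neg h2, smul_zero]
  · have e1 : slc Z B (dZ Z c) U ε' S ε = 0 := by unfold slc; rw [if_neg h]
    rw [e1]
    refine Finset.sum_eq_zero fun v _ => ?_
    rw [Pi.smul_apply]
    unfold slc
    rw [if_neg (fun h3 => h (fun x hx => h3 (Finset.mem_coe.2 (Finset.mem_insert_of_mem hx)))),
      smul_zero]

lemma slc_dW (Z W : Set V) (hZW : ∀ w ∈ W, w ∉ Z) (B : Set C) (c : Finset V → (C → Bool) → K)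
    (q : ℕ) (hq : ∀ T, c T ≠ 0 → (zp Z T).card = q) (U : Finset V) (hU : ∀ u ∈ U, u ∉ Z)
    (ε' : C → Bool) : slc Z B (dZ W c) U ε' =
      ((-1 : ℤ) ^ q) • ∑ v ∈ Uᶜ.filter (fun v => v ∈ W), sg v U • slc Z B c (insert v U) ε' := by
  funext S ε
  rw [Pi.smul_apply, Pi.smul_apply, Finset.sum_apply, Finset.sum_apply]
  by_cases h : (S : Set V) ⊆ Z
  · have e1 : slc Z B (dZ W c) U ε' S ε = ∑ v ∈ (S ∪ U)ᶜ.filter (fun v => v ∈ W),
        (sgn S U * sg v (S ∪ U)) • c (insert v (S ∪ U)) (mixb B ε ε') := by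
      unfold slc dZ
      rw [if_pos h, Finset.sum_apply, Finset.smul_sum]
      refine Finset.sum_congr rfl fun v _ => ?_
      rw [Pi.smul_apply, smul_smul]
    rw [e1]
    have e2 : (S ∪ U)ᶜ.filter (fun v => v ∈ W) = Uᶜ.filter (fun v => v ∈ W) := by
      ext v
      simp only [Finset.mem_filter, Finset.mem_compl, Finset.mem_union, not_or]
      constructor
      · rintro ⟨⟨_, h1⟩, h3⟩; exact ⟨h1, h3⟩
      · rintro ⟨h1, h3⟩; exact ⟨⟨fun h4 => hZW v h3 (h h4), h1⟩, h3⟩
    rw [e2, Finset.smul_sum]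
    refine Finset.sum_congr rfl fun v hv => ?_
    rw [Finset.mem_filter, Finset.mem_compl] at hv
    have hvS : v ∉ S := fun h4 => hZW v hv.2 (h h4)
    have hU' : ∀ u ∈ insert v U, u ∉ Z := by
      intro u hu
      rcases Finset.mem_insert.1 hu with h5 | h5
      · rw [h5]; exact hZW v hv.2
      · exact hU u h5
    rw [Pi.smul_apply, Pi.smul_apply]
    unfold slc
    rw [if_pos h, ← Finset.union_insert]
    by_cases h0 : c (S ∪ insert v U) = 0
    · rw [h0]; simp
    · have h6 := hq _ h0
      rw [zp_of Z S _ h hU'] at h6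
      have hd : Disjoint S U := disj_of Z S U h hU
      rw [smul_smul, smul_smul, sgn_insR v S U hvS hv.1, h6, sg_union v S U hd]
      congr 1
      have e5 : ((-1 : ℤ) ^ q) * (-1) ^ q = 1 := by rw [← mul_pow]; norm_num
      calc sgn S U * (sg v S * sg v U) = 1 * (sgn S U * (sg v S * sg v U)) := (one_mul _).symm
        _ = ((-1 : ℤ) ^ q * (-1) ^ q) * (sgn S U * (sg v S * sg v U)) := by rw [e5]
        _ = _ := by ring
  · have e1 : slc Z B (dZ W c) U ε' S ε = 0 := by unfold slc; rw [if_neg h]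
    rw [e1, Finset.sum_eq_zero, smul_zero]
    intro v _
    rw [Pi.smul_apply, Pi.smul_apply]
    unfold slc
    rw [if_neg h, smul_zero]

omit [Fintype V] in
lemma zp_insert_mem (Z : Set V) (v : V) (T : Finset V) (hv : v ∈ Z) :
    zp Z (insert v T) = insert v (zp Z T) := by
  unfold zp; rw [Finset.filter_insert, if_pos hv]

omit [Fintype V] in
lemma zc_insert_mem (Z : Set V) (v : V) (T : Finset V) (hv : v ∈ Z) :
    zc Z (insert v T) = zc Z T := by
  unfold zc; rw [Finset.filter_insert, if_neg (not_not.2 hv)]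

omit [Fintype V] in
lemma zp_insert_not (Z : Set V) (v : V) (T : Finset V) (hv : v ∉ Z) :
    zp Z (insert v T) = zp Z T := by
  unfold zp; rw [Finset.filter_insert, if_neg hv]

omit [Fintype V] in
lemma zc_insert_not (Z : Set V) (v : V) (T : Finset V) (hv : v ∉ Z) :
    zc Z (insert v T) = insert v (zc Z T) := by
  unfold zc; rw [Finset.filter_insert, if_pos hv]

lemma dZ_lft (Z : Set V) (B : Set C)
    (r : (Finset V → (C → Bool) → K) →ₗ[K] (Finset V → (C → Bool) → K))
    (hr : ∀ u (S : Finset V), ¬ (S : Set V) ⊆ Z → r u S = 0)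
    (c : Finset V → (C → Bool) → K) (T : Finset V) (ε : C → Bool) :
    dZ Z (lft Z B r c) T ε = sgn (zp Z T) (zc Z T) •
      bdd (r (slc Z B c (zc Z T) ε)) (zp Z T) (mixb B ε (fun _ => false)) := by
  unfold dZ bdd
  rw [Finset.sum_apply, Finset.sum_apply, Finset.smul_sum]
  have e1 : Tᶜ.filter (fun v => v ∈ Z) = (zp Z T)ᶜ.filter (fun v => v ∈ Z) := by
    ext v
    unfold zp
    simp only [Finset.mem_filter, Finset.mem_compl, not_and]
    constructor
    · rintro ⟨h1, h3⟩; exact ⟨fun h4 => absurd h4 h1, h3⟩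
    · rintro ⟨h1, h3⟩; exact ⟨fun h4 => h1 h4 h3, h3⟩
  rw [e1, Finset.sum_filter]
  refine Finset.sum_congr rfl fun v hv => ?_
  rw [Finset.mem_compl] at hv
  by_cases hvZ : v ∈ Z
  · rw [if_pos hvZ, Pi.smul_apply, Pi.smul_apply]
    unfold lft
    rw [zp_insert_mem Z v T hvZ, zc_insert_mem Z v T hvZ, smul_smul, smul_smul,
      sgn_insL v _ _ hv]
    congr 1
    have h1 : sg v T = sg v (zp Z T) * sg v (zc Z T) := by
      rw [← sg_union v _ _ (zpc_disj Z T), zp_union]
    rw [h1]
    have h2 := sg_mul_self v (zc Z T)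
    linear_combination (sg v (zp Z T) * sgn (zp Z T) (zc Z T)) * h2
  · rw [if_neg hvZ, Pi.smul_apply, hr, Pi.zero_apply, smul_zero, smul_zero]
    intro h3
    exact hvZ (h3 (Finset.mem_coe.2 (Finset.mem_insert_self v _)))

lemma dW_lft (Z W : Set V) (hZW : ∀ w ∈ W, w ∉ Z) (B : Set C)
    (r : (Finset V → (C → Bool) → K) →ₗ[K] (Finset V → (C → Bool) → K))
    (q : ℕ) (hr : ∀ u (S : Finset V), S.card ≠ q + 1 → r u S = 0)
    (c : Finset V → (C → Bool) → K) (hq : ∀ T, c T ≠ 0 → (zp Z T).card = q) :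
    dZ W (lft Z B r c) = - lft Z B r (dZ W c) := by
  funext T ε
  rw [Pi.neg_apply, Pi.neg_apply]
  have hU : ∀ u ∈ zc Z T, u ∉ Z := fun u hu => (Finset.mem_filter.1 hu).2
  have e0 : lft Z B r (dZ W c) T ε = sgn (zp Z T) (zc Z T) • (((-1 : ℤ) ^ q) •
      ∑ v ∈ (zc Z T)ᶜ.filter (fun v => v ∈ W), sg v (zc Z T) •
        r (slc Z B c (insert v (zc Z T)) ε) (zp Z T) (mixb B ε (fun _ => false))) := by
    unfold lft
    rw [slc_dW Z W hZW B c q hq (zc Z T) hU ε, map_zsmul, map_sum, Pi.smul_apply, Pi.smul_apply,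
      Finset.sum_apply, Finset.sum_apply]
    congr 2
    refine Finset.sum_congr rfl fun v _ => ?_
    rw [map_zsmul, Pi.smul_apply, Pi.smul_apply]
  rw [e0]
  have e1 : Tᶜ.filter (fun v => v ∈ W) = (zc Z T)ᶜ.filter (fun v => v ∈ W) := by
    ext v
    unfold zc
    simp only [Finset.mem_filter, Finset.mem_compl, not_and]
    constructor
    · rintro ⟨h1, h3⟩; exact ⟨fun h4 => absurd h4 h1, h3⟩
    · rintro ⟨h1, h3⟩; exact ⟨fun h4 => h1 h4 (hZW v h3), h3⟩
  have e2 : dZ W (lft Z B r c) T ε = ∑ v ∈ (zc Z T)ᶜ.filter (fun v => v ∈ W),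
      (sg v T * sgn (zp Z T) (insert v (zc Z T))) •
        r (slc Z B c (insert v (zc Z T)) ε) (zp Z T) (mixb B ε (fun _ => false)) := by
    unfold dZ
    rw [Finset.sum_apply, e1]
    refine Finset.sum_congr rfl fun v hv => ?_
    rw [Finset.mem_filter] at hv
    have hvZ := hZW v hv.2
    rw [Pi.smul_apply]
    unfold lft
    rw [zp_insert_not Z v T hvZ, zc_insert_not Z v T hvZ, smul_smul]
  rw [e2, smul_smul, Finset.smul_sum, ← Finset.sum_neg_distrib]
  refine Finset.sum_congr rfl fun v hv => ?_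
  rw [Finset.mem_filter, Finset.mem_compl] at hv
  have hvZ := hZW v hv.2
  have hvS : v ∉ zp Z T := fun h => hvZ (Finset.mem_filter.1 h).2
  by_cases hcard : (zp Z T).card = q + 1
  · rw [smul_smul, ← neg_smul, sgn_insR v _ _ hvS hv.1, hcard]
    congr 1
    have h1 : sg v T = sg v (zp Z T) * sg v (zc Z T) := by
      rw [← sg_union v _ _ (zpc_disj Z T), zp_union]
    rw [h1, pow_succ]
    have h2 := sg_mul_self v (zp Z T)
    linear_combination (-((-1 : ℤ) ^ q) * sg v (zc Z T) * sgn (zp Z T) (zc Z T)) * h2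
  · rw [hr _ _ hcard]
    simp

lemma lft_LC {G : SimpleGraph V} {col : V → C} {D : Set C} {τ : V → K} {Z W : Set V} {p q q' : ℕ}
    (hcol : ∀ u w, G.Adj u w → col u ≠ col w) (hadj : ∀ z ∈ Z, ∀ w ∈ W, G.Adj z w)
    {c : Finset V → (C → Bool) → K} (hc : IsLC G col D τ (Z ∪ W) (p + q) c)
    (hq : ∀ T, c T ≠ 0 → (zp Z T).card = q)
    (r : (Finset V → (C → Bool) → K) →ₗ[K] (Finset V → (C → Bool) → K))
    (hr : ∀ u, IsLC G col D τ Z q' (r u)) :
    IsLC G col D τ (Z ∪ W) (p + q') (lft Z (col '' Z) r c) ∧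
      ∀ T, lft Z (col '' Z) r c T ≠ 0 → (zp Z T).card = q' := by
  have hZc : ∀ w ∈ W, col w ∉ col '' Z := by
    rintro w hw ⟨z, hz, h⟩
    exact hcol z w (hadj z hz w hw) h
  have key : ∀ T, lft Z (col '' Z) r c T ≠ 0 → (zp Z T).card = q' ∧ (zc Z T).card = p ∧
      G.IsClique ((zp Z T : Finset V) : Set V) ∧ G.IsClique ((zc Z T : Finset V) : Set V) ∧
      ((zc Z T : Finset V) : Set V) ⊆ W := by
    intro T hT
    have h1 : ∃ ε, lft Z (col '' Z) r c T ε ≠ 0 := by
      by_contra hcon
      push Not at hcon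
      exact hT (funext hcon)
    obtain ⟨ε, hε⟩ := h1
    unfold lft at hε
    have h2 : r (slc Z (col '' Z) c (zc Z T) ε) (zp Z T) ≠ 0 := by
      intro h0
      rw [h0] at hε
      simp at hε
    have h3 : G.IsClique ((zp Z T : Finset V) : Set V) ∧ ((zp Z T : Finset V) : Set V) ⊆ Z ∧
        (zp Z T).card = q' := by
      by_contra h4
      exact h2 ((hr _).supp _ h4)
    have h4 : slc Z (col '' Z) c (zc Z T) ε ≠ 0 := by
      intro h0
      rw [h0, map_zero] at h2
      exact h2 rfl
    have h5 : ∃ S : Finset V, (S : Set V) ⊆ Z ∧ c (S ∪ zc Z T) ≠ 0 := by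
      by_contra hcon
      push Not at hcon
      apply h4
      funext S ε'
      unfold slc
      split_ifs with h6
      · rw [hcon S h6]; simp
      · rfl
    obtain ⟨S, hS, hcS⟩ := h5
    have hU : ∀ u ∈ zc Z T, u ∉ Z := fun u hu => (Finset.mem_filter.1 hu).2
    have h6 : G.IsClique ((S ∪ zc Z T : Finset V) : Set V) ∧
        ((S ∪ zc Z T : Finset V) : Set V) ⊆ Z ∪ W ∧ (S ∪ zc Z T).card = p + q := by
      by_contra h7
      exact hcS (hc.supp _ h7)
    have h7 := hq _ hcS
    rw [zp_of Z S _ hS hU] at h7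
    have h8 := h6.2.2
    rw [Finset.card_union_of_disjoint (disj_of Z S _ hS hU), h7] at h8
    refine ⟨h3.2.2, by omega, h3.1, h6.1.subset ?_, ?_⟩
    · intro x hx
      exact Finset.mem_coe.2 (Finset.mem_union_right _ (Finset.mem_coe.1 hx))
    · intro x hx
      rcases h6.2.1 (Finset.mem_coe.2 (Finset.mem_union_right _ (Finset.mem_coe.1 hx))) with h | h
      · exact absurd h (hU x (Finset.mem_coe.1 hx))
      · exact h
  refine ⟨⟨fun T hT => ?_, fun T t ht htD ε => ?_⟩, fun T hT => (key T hT).1⟩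
  · by_contra h0
    obtain ⟨k1, k2, k3, k4, k5⟩ := key T h0
    apply hT
    have hTu := zp_union Z T
    refine ⟨?_, ?_, ?_⟩
    · rw [← hTu]
      intro x hx y hy hxy
      rcases Finset.mem_union.1 (Finset.mem_coe.1 hx) with hx | hx <;>
        rcases Finset.mem_union.1 (Finset.mem_coe.1 hy) with hy | hy
      · exact k3 (Finset.mem_coe.2 hx) (Finset.mem_coe.2 hy) hxy
      · exact hadj x (Finset.mem_filter.1 hx).2 y (k5 (Finset.mem_coe.2 hy))
      · exact (hadj y (Finset.mem_filter.1 hy).2 x (k5 (Finset.mem_coe.2 hx))).symm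
      · exact k4 (Finset.mem_coe.2 hx) (Finset.mem_coe.2 hy) hxy
    · rw [← hTu]
      intro x hx
      rcases Finset.mem_union.1 (Finset.mem_coe.1 hx) with hx | hx
      · exact Or.inl (Finset.mem_filter.1 hx).2
      · exact Or.inr (k5 (Finset.mem_coe.2 hx))
    · rw [← hTu, Finset.card_union_of_disjoint (zpc_disj Z T), k1, k2, add_comm]
  · by_cases h0 : lft Z (col '' Z) r c T = 0
    · rw [h0]; simp
    obtain ⟨k1, k2, k3, k4, k5⟩ := key T h0
    unfold lft
    by_cases htZ : t ∈ Z
    · have hB : col t ∈ col '' Z := ⟨t, htZ, rfl⟩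
      have hs : ∀ b, slc Z (col '' Z) c (zc Z T) (Function.update ε (col t) b) =
          slc Z (col '' Z) c (zc Z T) ε := by
        intro b
        funext S ε'
        unfold slc
        rw [mixb_upd_mem' _ _ _ _ _ hB]
      rw [hs, hs, mixb_upd_mem _ _ _ _ _ hB, mixb_upd_mem _ _ _ _ _ hB,
        (hr _).line (zp Z T) t (Finset.mem_filter.2 ⟨ht, htZ⟩) htD]
      exact (mul_smul_comm _ _ _).symm
    · have htU : t ∈ zc Z T := Finset.mem_filter.2 ⟨ht, htZ⟩
      have hB : col t ∉ col '' Z := hZc t (k5 (Finset.mem_coe.2 htU))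
      have hs : slc Z (col '' Z) c (zc Z T) (Function.update ε (col t) true) =
          τ t • slc Z (col '' Z) c (zc Z T) (Function.update ε (col t) false) := by
        funext S ε'
        rw [Pi.smul_apply, Pi.smul_apply]
        unfold slc
        split_ifs with h6
        · rw [mixb_upd_not _ _ _ _ _ hB, mixb_upd_not _ _ _ _ _ hB,
            hc.line (S ∪ zc Z T) t (Finset.mem_union_right _ htU) htD, smul_eq_mul]
          exact (mul_smul_comm _ _ _).symm
        · rw [smul_zero]
      rw [hs, map_smul, Pi.smul_apply, Pi.smul_apply, mixb_upd_not' _ _ _ _ _ hB,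
        mixb_upd_not' _ _ _ _ _ hB, smul_eq_mul]
      exact (mul_smul_comm _ _ _).symm

end Slices

/-! ### the main argument -/

section Main
variable {V C K : Type} [Fintype V] [LinearOrder V] [DecidableEq C] [Field K]

omit [Fintype V] [LinearOrder V] in
/-- the submodule of line chains -/
def LCs (G : SimpleGraph V) (col : V → C) (D : Set C) (τ : V → K) (A : Set V) (i : ℕ) :
    Submodule K (Finset V → (C → Bool) → K) where
  carrier := {c | IsLC G col D τ A i c}
  add_mem' := by
    intro c d hc hd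
    refine ⟨fun T hT => ?_, fun T t ht htD ε => ?_⟩
    · rw [Pi.add_apply, hc.supp T hT, hd.supp T hT, add_zero]
    · rw [Pi.add_apply, Pi.add_apply, Pi.add_apply, hc.line T t ht htD, hd.line T t ht htD, mul_add]
  zero_mem' := ⟨fun T _ => rfl, fun T t _ _ ε => by simp⟩
  smul_mem' := by
    intro a c hc
    refine ⟨fun T hT => ?_, fun T t ht htD ε => ?_⟩
    · rw [Pi.smul_apply, hc.supp T hT, smul_zero]
    · simp only [Pi.smul_apply, smul_eq_mul]
      rw [hc.line T t ht htD]; ring

variable {G : SimpleGraph V} {col : V → C} {D : Set C} {τ : V → K}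

lemma LC_bdd {A : Set V} {i : ℕ} {c : Finset V → (C → Bool) → K} (hc : IsLC G col D τ A (i + 1) c) :
    IsLC G col D τ A i (bdd c) := by
  refine ⟨fun T hT => ?_, fun T t ht htD ε => ?_⟩
  · unfold bdd
    refine Finset.sum_eq_zero fun v hv => ?_
    rw [hc.supp (insert v T), smul_zero]
    rintro ⟨h3, h4, h5⟩
    apply hT
    refine ⟨h3.subset (by simp), fun x hx => h4 (by simp at hx ⊢; exact Or.inr hx), ?_⟩
    rw [Finset.card_insert_of_notMem (by simpa using hv)] at h5
    omega
  · unfold bdd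
    rw [Finset.sum_apply, Finset.sum_apply, Finset.mul_sum]
    refine Finset.sum_congr rfl fun v _ => ?_
    rw [Pi.smul_apply, Pi.smul_apply, hc.line (insert v T) t (Finset.mem_insert_of_mem ht) htD]
    exact (mul_smul_comm _ _ _).symm

lemma exA {X : Set V} {p : ℕ} (h : EX G col D τ X p) :
    ∃ r : (Finset V → (C → Bool) → K) →ₗ[K] (Finset V → (C → Bool) → K),
      (∀ u, IsLC G col D τ X (p + 1) (r u)) ∧
      ∀ u, IsLC G col D τ X p u → bdd u = 0 → bdd (r u) = u := by
  set Zc : Submodule K (Finset V → (C → Bool) → K) := LCs G col D τ X p ⊓ LinearMap.ker (bd K)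
    with hZc
  have hmem : ∀ u : Zc, ∃ y : LCs G col D τ X (p + 1), bd K (y : Finset V → (C → Bool) → K) = u := by
    rintro ⟨u, hu⟩
    obtain ⟨y, hy, hby⟩ := h u hu.1 (LinearMap.mem_ker.1 hu.2)
    exact ⟨⟨y, hy⟩, hby⟩
  choose F hF using hmem
  set b := Module.Basis.ofVectorSpace K Zc with hb
  set r0 : Zc →ₗ[K] LCs G col D τ X (p + 1) := b.constr K (fun j => F (b j)) with hr0
  have h0 : (bd K).comp ((LCs G col D τ X (p + 1)).subtype.comp r0) = Zc.subtype := by
    refine b.ext fun j => ?_
    rw [LinearMap.comp_apply, LinearMap.comp_apply, hr0, Module.Basis.constr_basis]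
    exact hF _
  obtain ⟨r', hr'⟩ := LinearMap.exists_extend r0
  refine ⟨(LCs G col D τ X (p + 1)).subtype.comp r', fun u => (r' u).2, fun u hu hbu => ?_⟩
  have hu' : u ∈ Zc := ⟨hu, LinearMap.mem_ker.2 hbu⟩
  have e1 : r' u = r0 ⟨u, hu'⟩ := by
    rw [← hr']; rfl
  have e2 := LinearMap.congr_fun h0 ⟨u, hu'⟩
  rw [LinearMap.comp_apply, LinearMap.comp_apply] at e2
  rw [LinearMap.comp_apply, e1]
  exact e2

lemma exB {Y : Set V} {b : ℕ}
    (h : ∀ z : Finset V → (C → Bool) → K, IsLC G col D τ Y b z → bdd z = 0 → z = 0) :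
    ∃ r : (Finset V → (C → Bool) → K) →ₗ[K] (Finset V → (C → Bool) → K),
      (∀ u, IsLC G col D τ Y b (r u)) ∧
      ∀ u, IsLC G col D τ Y b u → r (bdd u) = u := by
  have hg : LinearMap.ker ((bd K (V := V) (M := (C → Bool) → K)).comp
      (LCs G col D τ Y b).subtype) = ⊥ := by
    rw [LinearMap.ker_eq_bot']
    rintro ⟨u, hu⟩ hbu
    exact Subtype.ext (h u hu hbu)
  obtain ⟨r', hr'⟩ := LinearMap.exists_leftInverse_of_injective _ hg
  refine ⟨(LCs G col D τ Y b).subtype.comp r', fun u => (r' u).2, fun u hu => ?_⟩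
  have e := LinearMap.congr_fun hr' ⟨u, hu⟩
  rw [LinearMap.comp_apply]
  have e' := congrArg (fun w => ((w : LCs G col D τ Y b) : Finset V → (C → Bool) → K)) e
  exact e'

lemma slc_at (Z : Set V) (B : Set C) (c : Finset V → (C → Bool) → K) (T : Finset V)
    (ε : C → Bool) :
    sgn (zp Z T) (zc Z T) •
      slc Z B c (zc Z T) ε (zp Z T) (mixb B ε (fun _ => false)) = c T ε := by
  have h : ((zp Z T : Finset V) : Set V) ⊆ Z := fun x hx => (Finset.mem_filter.1 hx).2
  unfold slc
  rw [if_pos h, smul_smul, sgn_self, one_smul, zp_union, mixb_self]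

lemma stepA {X Y : Set V} {p q : ℕ} (hcol : ∀ u w, G.Adj u w → col u ≠ col w)
    (hadj : ∀ x ∈ X, ∀ y ∈ Y, G.Adj x y)
    {c : Finset V → (C → Bool) → K} (hc : IsLC G col D τ (X ∪ Y) (q + p) c)
    (hq : ∀ T, c T ≠ 0 → (zp X T).card = p) (hE : EX G col D τ X p) (hd : dZ X c = 0) :
    ∃ y, IsLC G col D τ (X ∪ Y) (q + (p + 1)) y ∧ (∀ T, y T ≠ 0 → (zp X T).card = p + 1) ∧
      dZ X y = c := by
  obtain ⟨r, hr1, hr2⟩ := exA hE
  obtain ⟨h1, h2⟩ := lft_LC hcol hadj hc hq r hr1
  refine ⟨_, h1, h2, ?_⟩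
  funext T ε
  rw [dZ_lft X _ r (fun u S hS => (hr1 u).supp S (fun h => hS h.2.1))]
  have hU : ∀ u ∈ zc X T, u ∉ X := fun u hu => (Finset.mem_filter.1 hu).2
  rw [hr2 _ (slc_LC hc hq _ hU ε), slc_at]
  rw [bdd_slc X _ c _ hU ε, hd]
  funext S ε'
  unfold slc
  split_ifs with h
  · simp
  · rfl

lemma stepB {X Y : Set V} {p b : ℕ} (hcol : ∀ u w, G.Adj u w → col u ≠ col w)
    (hadj : ∀ y ∈ Y, ∀ x ∈ X, G.Adj y x)
    {c z : Finset V → (C → Bool) → K} (hc : IsLC G col D τ (Y ∪ X) ((p + 1) + b) c)
    (hz : IsLC G col D τ (Y ∪ X) (p + (b + 1)) z)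
    (hcq : ∀ T, c T ≠ 0 → (zp Y T).card = b) (hzq : ∀ T, z T ≠ 0 → (zp Y T).card = b + 1)
    (hY : ∀ z : Finset V → (C → Bool) → K, IsLC G col D τ Y (b + 1) z → bdd z = 0 → z = 0)
    (hd : dZ X c = - dZ Y z) :
    ∃ y, IsLC G col D τ (Y ∪ X) ((p + 1) + (b + 1)) y ∧ (∀ T, y T ≠ 0 → (zp Y T).card = b + 1) ∧
      dZ X y = z := by
  obtain ⟨r, hr1, hr2⟩ := exB hY
  obtain ⟨h1, h2⟩ := lft_LC hcol hadj hc hcq r hr1
  refine ⟨_, h1, h2, ?_⟩
  have hYX : ∀ w ∈ X, w ∉ Y := fun w hw hw' => G.irrefl (hadj w hw' w hw)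
  rw [dW_lft Y X hYX _ r b (fun u S hS => (hr1 u).supp S (fun h => hS h.2.2)) c hcq, hd]
  funext T ε
  rw [Pi.neg_apply, Pi.neg_apply]
  unfold lft
  have hU : ∀ u ∈ zc Y T, u ∉ Y := fun u hu => (Finset.mem_filter.1 hu).2
  have e1 : slc Y (col '' Y) (-dZ Y z) (zc Y T) ε = - bdd (slc Y (col '' Y) z (zc Y T) ε) := by
    rw [bdd_slc Y _ z _ hU ε]
    funext S ε'
    rw [Pi.neg_apply, Pi.neg_apply]
    unfold slc
    split_ifs with h
    · rw [Pi.neg_apply, Pi.neg_apply, smul_neg]
    · rw [neg_zero]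
  rw [e1, map_neg, hr2 _ (slc_LC hz hzq _ hU ε), Pi.neg_apply, Pi.neg_apply, smul_neg, neg_neg,
    slc_at]

lemma bdd_eq {X Y : Set V} (hXY : ∀ v ∈ X, v ∉ Y) (c : Finset V → (C → Bool) → K)
    (hc : ∀ T : Finset V, ¬ (T : Set V) ⊆ X ∪ Y → c T = 0) : bdd c = dZ X c + dZ Y c := by
  funext T
  rw [Pi.add_apply]
  unfold bdd dZ
  rw [Finset.sum_filter, Finset.sum_filter, ← Finset.sum_add_distrib]
  refine Finset.sum_congr rfl fun v _ => ?_
  by_cases h1 : v ∈ X
  · rw [if_pos h1, if_neg (hXY v h1), add_zero]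
  · rw [if_neg h1, zero_add]
    by_cases h2 : v ∈ Y
    · rw [if_pos h2]
    · rw [if_neg h2, hc, smul_zero]
      intro h3
      rcases h3 (Finset.mem_coe.2 (Finset.mem_insert_self v T)) with h | h
      · exact h1 h
      · exact h2 h

/-- the component of degree `q` with respect to `Y` -/
noncomputable def prt (Y : Set V) (q : ℕ) (z : Finset V → (C → Bool) → K) :
    Finset V → (C → Bool) → K := fun T => if (zp Y T).card = q then z T else 0

lemma prt_LC {A Y : Set V} {i q : ℕ} {z : Finset V → (C → Bool) → K}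
    (hz : IsLC G col D τ A i z) : IsLC G col D τ A i (prt Y q z) := by
  refine ⟨fun T hT => ?_, fun T t ht htD ε => ?_⟩
  · unfold prt
    rw [hz.supp T hT, ite_self]
  · unfold prt
    split_ifs
    · exact hz.line T t ht htD ε
    · simp

lemma prt_deg {Y : Set V} {q : ℕ} {z : Finset V → (C → Bool) → K} (T : Finset V)
    (h : prt Y q z T ≠ 0) : (zp Y T).card = q := by
  by_contra h1
  apply h
  unfold prt
  rw [if_neg h1]

lemma prt_bdd {X Y : Set V} (hXY : ∀ v ∈ X, v ∉ Y) (z : Finset V → (C → Bool) → K)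
    (hz : ∀ T : Finset V, ¬ (T : Set V) ⊆ X ∪ Y → z T = 0) (q : ℕ) :
    prt Y q (bdd z) = dZ X (prt Y q z) + dZ Y (prt Y (q + 1) z) := by
  rw [bdd_eq hXY z hz]
  funext T
  rw [Pi.add_apply]
  have e1 : dZ X (prt Y q z) T = if (zp Y T).card = q then dZ X z T else 0 := by
    unfold dZ
    split_ifs with h
    · refine Finset.sum_congr rfl fun v hv => ?_
      rw [Finset.mem_filter] at hv
      unfold prt
      rw [zp_insert_not Y v T (hXY v hv.2), if_pos h]
    · refine Finset.sum_eq_zero fun v hv => ?_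
      rw [Finset.mem_filter] at hv
      unfold prt
      rw [zp_insert_not Y v T (hXY v hv.2), if_neg h, smul_zero]
  have e2 : dZ Y (prt Y (q + 1) z) T = if (zp Y T).card = q then dZ Y z T else 0 := by
    have hcard : ∀ v ∈ Tᶜ.filter (fun v => v ∈ Y), (zp Y (insert v T)).card = (zp Y T).card + 1 := by
      intro v hv
      rw [Finset.mem_filter, Finset.mem_compl] at hv
      rw [zp_insert_mem Y v T hv.2, Finset.card_insert_of_notMem]
      exact fun h => hv.1 (Finset.mem_filter.1 h).1
    unfold dZ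
    split_ifs with h
    · refine Finset.sum_congr rfl fun v hv => ?_
      unfold prt
      rw [hcard v hv, h, if_pos rfl]
    · refine Finset.sum_eq_zero fun v hv => ?_
      unfold prt
      rw [hcard v hv, if_neg (fun h' => h (Nat.add_right_cancel h')), smul_zero]
  rw [e1, e2]
  unfold prt
  split_ifs with h
  · rfl
  · rw [add_zero]

lemma card_split {X Y : Set V} (hXY : ∀ v ∈ X, v ∉ Y) (T : Finset V) (hT : (T : Set V) ⊆ X ∪ Y) :
    (zp X T).card + (zp Y T).card = T.card := by
  have e : zp Y T = zc X T := by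
    unfold zp zc
    refine Finset.filter_congr fun v hv => ⟨fun h h' => hXY v h' h, fun h => ?_⟩
    rcases hT (Finset.mem_coe.2 hv) with h' | h'
    · exact absurd h' h
    · exact h'
  rw [e, ← Finset.card_union_of_disjoint (zpc_disj X T), zp_union]

theorem jt : B_JT := by
  intro V C K _ _ _ _ _ G col D τ X Y a b hcol hadj hEX hYb hYtop i hi
  have hXY : ∀ v ∈ X, v ∉ Y := fun v h h' => G.irrefl (hadj v h v h')
  have hadj' : ∀ y ∈ Y, ∀ x ∈ X, G.Adj y x := fun y hy x hx => (hadj x hx y hy).symm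
  have main : ∀ q : ℕ, ∀ z : Finset V → (C → Bool) → K, IsLC G col D τ (X ∪ Y) i z → bdd z = 0 →
      (∀ T, z T ≠ 0 → (zp Y T).card < q) →
      ∃ y : Finset V → (C → Bool) → K, IsLC G col D τ (X ∪ Y) (i + 1) y ∧ bdd y = z := by
    intro q
    induction q with
    | zero =>
      intro z hz hbz hq
      refine ⟨0, (LCs G col D τ (X ∪ Y) (i + 1)).zero_mem, ?_⟩
      have h0 : z = 0 := by
        funext T
        by_contra h
        exact absurd (hq T h) (Nat.not_lt_zero _)
      rw [h0]
      exact map_zero (bd K)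
    | succ q ih =>
      intro z hz hbz hq
      have hzs : ∀ T : Finset V, ¬ (T : Set V) ⊆ X ∪ Y → z T = 0 := fun T hT =>
        hz.supp T (fun h => hT h.2.1)
      by_cases hlt : ∀ T, z T ≠ 0 → (zp Y T).card < q
      · exact ih z hz hbz hlt
      push Not at hlt
      obtain ⟨T0, hT0, hT0q⟩ := hlt
      have hT0q' : (zp Y T0).card = q := le_antisymm (Nat.lt_succ_iff.1 (hq T0 hT0)) hT0q
      have hT0s : G.IsClique (T0 : Set V) ∧ (T0 : Set V) ⊆ X ∪ Y ∧ T0.card = i := by
        by_contra h
        exact hT0 (hz.supp T0 h)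
      have hc0 := card_split hXY T0 hT0s.2.1
      rw [hT0s.2.2, hT0q'] at hc0
      set p := (zp X T0).card with hp
      have hi' : i = q + p := by omega
      have hqb : q ≤ b := by
        rw [← hT0q']
        refine hYb _ (hT0s.1.subset ?_) (fun x hx => (Finset.mem_filter.1 hx).2)
        intro x hx
        exact (Finset.mem_filter.1 hx).1
      have hprt0 : prt Y (q + 1) z = 0 := by
        funext T
        by_contra h
        have h1 := prt_deg T h
        have h2 : z T ≠ 0 := by
          intro h3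
          apply h
          unfold prt
          rw [h3, ite_self]
          rfl
        have := hq T h2
        omega
      have hrel : ∀ q', dZ X (prt Y q' z) + dZ Y (prt Y (q' + 1) z) = 0 := by
        intro q'
        rw [← prt_bdd hXY z hzs q', hbz]
        funext T
        unfold prt
        rw [Pi.zero_apply, ite_self]
      have key : ∃ y : Finset V → (C → Bool) → K, IsLC G col D τ (X ∪ Y) (i + 1) y ∧
          (∀ T, y T ≠ 0 → (zp Y T).card = q) ∧ dZ X y = prt Y q z := by
        by_cases hpa : a ≤ p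
        · have hd : dZ X (prt Y q z) = 0 := by
            have h := hrel q
            rw [hprt0] at h
            have h0 : dZ Y (0 : Finset V → (C → Bool) → K) = 0 := by
              funext T
              unfold dZ
              simp
            rwa [h0, add_zero] at h
          have hzl : IsLC G col D τ (X ∪ Y) (q + p) (prt Y q z) := by
            rw [← hi']; exact prt_LC hz
          obtain ⟨y, hy1, hy2, hy3⟩ := stepA hcol hadj hzl (fun T hT => by
            have h1 := prt_deg T hT
            have h2 : G.IsClique (T : Set V) ∧ (T : Set V) ⊆ X ∪ Y ∧ T.card = q + p := by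
              by_contra h
              exact hT (hzl.supp T h)
            have h3 := card_split hXY T h2.2.1
            omega) (hEX p hpa) hd
          have hy1' : IsLC G col D τ (X ∪ Y) (i + 1) y := by
            rw [hi']; exact hy1
          refine ⟨y, hy1', fun T hT => ?_, hy3⟩
          have h1 := hy2 T hT
          have h2 : G.IsClique (T : Set V) ∧ (T : Set V) ⊆ X ∪ Y ∧ T.card = q + (p + 1) := by
            by_contra h
            exact hT (hy1.supp T h)
          have h3 := card_split hXY T h2.2.1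
          omega
        · have hqb' : q = b := by omega
          subst hqb'
          obtain _ | b' := q
          · exfalso
            have h := hYtop (fun T _ => if T = ∅ then 1 else 0) ⟨fun T hT => ?_,
              fun T t ht htD ε => ?_⟩ ?_
            · have h1 := congrFun (congrFun h ∅) (fun _ => false)
              simp at h1
            · rw [if_neg]
              · rfl
              · intro h0
                apply hT
                subst h0
                simp
            · have h0 : T ≠ ∅ := Finset.ne_empty_of_mem ht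
              simp [h0]
            · funext T
              unfold bdd
              refine Finset.sum_eq_zero fun v _ => ?_
              funext ε
              simp
          · have hzl : IsLC G col D τ (Y ∪ X) (p + (b' + 1)) (prt Y (b' + 1) z) := by
              rw [Set.union_comm, show p + (b' + 1) = i by omega]; exact prt_LC hz
            have hcl : IsLC G col D τ (Y ∪ X) ((p + 1) + b') (prt Y b' z) := by
              rw [Set.union_comm, show (p + 1) + b' = i by omega]; exact prt_LC hz
            obtain ⟨y, hy1, hy2, hy3⟩ := stepB hcol hadj' hcl hzl (fun T hT => prt_deg T hT)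
              (fun T hT => prt_deg T hT) hYtop (eq_neg_of_add_eq_zero_left (hrel b'))
            refine ⟨y, ?_, hy2, hy3⟩
            rw [Set.union_comm, show i + 1 = (p + 1) + (b' + 1) by omega]
            exact hy1
      obtain ⟨y, hy1, hy2, hy3⟩ := key
      have hys : ∀ T : Finset V, ¬ (T : Set V) ⊆ X ∪ Y → y T = 0 := fun T hT =>
        hy1.supp T (fun h => hT h.2.1)
      have hz' : IsLC G col D τ (X ∪ Y) i (z - bdd y) :=
        (LCs G col D τ (X ∪ Y) i).sub_mem hz (LC_bdd hy1)
      have hbz' : bdd (z - bdd y) = 0 := by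
        have e : bdd (z - bdd y) = bdd z - bdd (bdd y) := map_sub (bd K) z (bdd y)
        rw [e, hbz, zero_sub]
        have e2 : bdd (bdd y) = 0 := bd_bd (F := K) y
        rw [e2, neg_zero]
      obtain ⟨y', hy'1, hy'2⟩ := ih (z - bdd y) hz' hbz' (fun T hT => by
        by_contra hcon
        rw [not_lt] at hcon
        apply hT
        rw [bdd_eq hXY y hys, hy3, Pi.sub_apply, Pi.add_apply]
        have e1 : dZ Y y T = 0 := by
          unfold dZ
          refine Finset.sum_eq_zero fun v hv => ?_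
          rw [Finset.mem_filter, Finset.mem_compl] at hv
          have h1 : y (insert v T) = 0 := by
            by_contra h2
            have h3 := hy2 _ h2
            rw [zp_insert_mem Y v T hv.2, Finset.card_insert_of_notMem] at h3
            · omega
            · exact fun h => hv.1 (Finset.mem_filter.1 h).1
          rw [h1, smul_zero]
        rw [e1, add_zero]
        unfold prt
        split_ifs with h
        · exact sub_self _
        · rw [sub_zero]
          by_contra h2
          have := hq T h2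
          omega)
      refine ⟨y + y', (LCs G col D τ (X ∪ Y) (i + 1)).add_mem hy1 hy'1, ?_⟩
      have e : bdd (y + y') = bdd y + bdd y' := map_add (bd K) y y'
      rw [e, hy'2, add_sub_cancel]
  intro z hz hbz
  refine main (b + 1) z hz hbz (fun T hT => ?_)
  have hTs : G.IsClique (T : Set V) ∧ (T : Set V) ⊆ X ∪ Y ∧ T.card = i := by
    by_contra h
    exact hT (hz.supp T h)
  refine Nat.lt_succ_of_le (hYb _ (hTs.1.subset ?_) (fun x hx => (Finset.mem_filter.1 hx).2))
  intro x hx
  exact (Finset.mem_filter.1 hx).1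

end Main

end Pool.Agent.W479.SM
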