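import Pool.Agent.H7.L.W578_SM_B

/-!
Project SM, part KEY: no top cycles in odd length.
-/

namespace Pool.Agent.W578.SM

open Pool.Agent.W907.SG Pool.Agent.W907.SM

set_option autoImplicit false

variable {n : ℕ} {V K : Type} [Fintype V] [DecidableEq V] [Field K] {r : V → V → Prop} {rk : V → Fin n}
  {τ : V → K}

/-- the form vanishes on a family of `0` -/
lemma indep [CharP K 2] (hrk : ∀ x y, r x y → rk x < rk y) {k : ℕ} {L : V → Bil V K}
    (hL : Good r rk τ k L) {N : Set V} (hN : IsN r rk (2 * k + 2) N)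
    (thin : ∀ R ∈ N, (rk R : ℕ) = 2 * k → {M | M ∈ N ∧ r R M}.ncard = 2)
    (hP : ∀ s : Fin n, (s : ℕ) = 2 * k + 1 →
      PRIM r rk τ N (DblF n k) (RgF n (2 * k) (2 * k + 2)) s) {x' d b' : Finset V → K}
    (hd : Fam r rk τ k N 0 d) (hx' : ZB r rk τ (DblF n (k + 1)) (DblF n (k + 1)) N x')
    (hb' : Fam r rk τ k N x' b') : EE rk τ k L d b' = 0 := by
  have hn := IsN_le hN
  obtain ⟨u, hu, hu2⟩ := wt hrk (by omega) hx'
  obtain ⟨b'', hb''⟩ := exFam hrk (by omega) hP hu
  have key : ∀ R, (rk R : ℕ) = 2 * k → ∃ δ : Finset V → K, ∀ M, (rk M : ℕ) = 2 * k + 1 →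
      ∀ b, Sp r rk N (DblF n k ∪ RgF n (2 * k) (2 * k + 2)) b →
        L R (sl R (sl M d)) (sl R (sl M b)) = L R δ (sl R (sl M b)) := by
    intro R hR
    by_cases hRN : R ∈ N
    · obtain ⟨M₁, M₂, hne, h12⟩ := Set.ncard_eq_two.1 (thin R hRN hR)
      have hr : ∀ M, M ∈ N → r R M → (rk M : ℕ) = 2 * k + 1 := by
        intro M h1 h2
        have e1 := IsN_lt hrk hN h1
        have e2 := hrk _ _ h2
        rw [Fin.lt_def, hR] at e2
        omega
      have hm1 : M₁ ∈ N ∧ r R M₁ := by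
        have : M₁ ∈ {M | M ∈ N ∧ r R M} := by rw [h12]; simp
        exact this
      have hm2 : M₂ ∈ N ∧ r R M₂ := by
        have : M₂ ∈ {M | M ∈ N ∧ r R M} := by rw [h12]; simp
        exact this
      refine ⟨sl R (sl M₁ d), fun M hM b hb => ?_⟩
      by_cases hMN : M ∈ N ∧ r R M
      · have : M ∈ ({M₁, M₂} : Set V) := by rw [← h12]; exact hMN
        rcases this with h | h
        · rw [h]
        · have h' : M = M₂ := h
          have hp := PAIR hrk hd.1 (m := 2 * k) ⟨⟨2 * k + 1, by omega⟩, by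
            rw [Finset.mem_union, mem_RgF]
            right
            constructor
            · show 2 * k ≤ 2 * k + 1; omega
            · show 2 * k + 1 < 2 * k + 2; omega, rfl⟩ R hR (by rw [hd.2.1, map_zero]) hne h12
              (hr _ hm1.1 hm1.2) (hr _ hm2.1 hm2.2)
          rw [h', hp]
      · rw [PAIR0 hrk hb R M hR hM hMN, map_zero, map_zero]
    · refine ⟨0, fun M hM b hb => ?_⟩
      rw [sl_comm R M b, sl_notMem hb R hRN, map_zero, map_zero, map_zero]
  choose δ hδ using fun R : {R : V // (rk R : ℕ) = 2 * k} => key R.1 R.2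
  have e1 : ∀ R : V, (hR : (rk R : ℕ) = 2 * k) →
      ∑ M ∈ Finset.univ.filter (fun M => (rk M : ℕ) = 2 * k + 1),
        τ R * L R (sl R (sl M d)) (sl R (sl M b')) =
      ∑ M ∈ Finset.univ.filter (fun M => (rk M : ℕ) = 2 * k + 1),
        L R (sl R (sl M d)) (sl R (sl M b'')) := by
    intro R hR
    have f1 : ∑ M ∈ Finset.univ.filter (fun M => (rk M : ℕ) = 2 * k + 1),
        L R (sl R (sl M d)) (sl R (sl M b'')) = L R (δ ⟨R, hR⟩) (sl R u) := by
      rw [← famSum hrk (by omega) hb'' hu.1, map_sum, map_sum]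
      refine Finset.sum_congr rfl fun M hM => ?_
      exact hδ ⟨R, hR⟩ M (Finset.mem_filter.1 hM).2 _ hb''.1
    have f2 : ∑ M ∈ Finset.univ.filter (fun M => (rk M : ℕ) = 2 * k + 1),
        τ R * L R (sl R (sl M d)) (sl R (sl M b')) = τ R * L R (δ ⟨R, hR⟩) (sl R x') := by
      rw [← famSum hrk (by omega) hb' hx'.1, map_sum, map_sum, Finset.mul_sum]
      refine Finset.sum_congr rfl fun M hM => ?_
      rw [hδ ⟨R, hR⟩ M (Finset.mem_filter.1 hM).2 _ hb'.1]
    rw [f1, f2, hu2 R hR, map_smul, smul_eq_mul]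
  unfold EE
  rw [Finset.sum_comm, Finset.sum_congr rfl fun R hR => e1 R (Finset.mem_filter.1 hR).2,
    Finset.sum_comm]
  refine Finset.sum_eq_zero fun M hM => ?_
  have hM' := (Finset.mem_filter.1 hM).2
  exact hL.I {v | r v M} (Or.inr ⟨M, rfl, hM'.symm⟩) _ _
    (slFam hrk hd (N' := N) (fun T _ => rfl) hM') (slFam hrk hb'' hu.1 hM')

lemma level0 [CharP K 2] (hrk : ∀ x y, r x y → rk x < rk y)
    (two : ∀ N : Set V, IsN r rk 1 N → N.ncard = 2) : ∃ L : V → Bil V K, Good r rk τ 0 L := by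
  classical
  refine ⟨fun _ => (LinearMap.mul K K).compl₁₂ (LinearMap.proj ∅) (LinearMap.proj ∅), ?_, ?_, ?_⟩
  · intro R x x'
    simp only [LinearMap.compl₁₂_apply, LinearMap.proj_apply, LinearMap.mul_apply']
    ring
  · intro R _ x hx
    simp only [LinearMap.compl₁₂_apply, LinearMap.proj_apply, LinearMap.mul_apply']
    rw [Finset.sum_eq_single ∅]
    · rw [Finset.prod_empty]; ring
    · intro T _ hT
      have : x T = 0 := by
        by_contra hne
        have h1 := (hx.1.ty hne).2.2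
        have h2 : DblF n 0 = ∅ := by
          ext c; rw [mem_DblF]; simp
        rw [h2, Finset.image_eq_empty] at h1
        exact hT h1
      rw [this]; ring
    · intro h; exact absurd (Finset.mem_univ _) h
  · intro N hN b b' hb hb'
    obtain ⟨R₁, R₂, hne, h12⟩ := Set.ncard_eq_two.1 (two N (by simpa using hN))
    have hr : ∀ R ∈ N, (rk R : ℕ) = 2 * 0 := by
      intro R hR
      have := IsN_lt hrk hN hR
      omega
    have h1 : R₁ ∈ N := by rw [h12]; simp
    have h2 : R₂ ∈ N := by rw [h12]; simp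
    have hs : ∀ R, ∀ c : Finset V → K, (sl R c) ∅ = c {R} := by
      intro R c
      rw [sl_apply, if_neg (by simp)]; simp
    have hz : ∀ R, R ∉ N → ∀ c, ZB r rk τ (DblF n 0) (DblF n (0 + 1)) N c → c {R} = 0 := by
      intro R hR c hc
      by_contra h
      exact hR ((hc.1.ty h).2.1 (by simp))
    have hp : ∀ c, ZB r rk τ (DblF n 0) (DblF n (0 + 1)) N c → c {R₁} = c {R₂} := by
      intro c hc
      have e := congrFun hc.2.1 ∅
      rw [pd_apply, Pi.zero_apply] at e
      have e2 : ∑ v ∈ (∅ : Finset V)ᶜ, c (insert v ∅) = ∑ v ∈ ({R₁, R₂} : Finset V), c (insert v ∅) := by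
        symm
        refine Finset.sum_subset (by simp) fun v _ hv => ?_
        have hvN : v ∉ N := by
          rw [h12]; simpa using hv
        simpa using hz v hvN c hc
      rw [e2, Finset.sum_pair hne] at e
      simpa using CharTwo.add_eq_zero.1 e
    simp only [LinearMap.compl₁₂_apply, LinearMap.proj_apply, LinearMap.mul_apply', hs]
    have e3 : ∑ R ∈ Finset.univ.filter (fun R => (rk R : ℕ) = 2 * 0), b {R} * b' {R} =
        ∑ R ∈ ({R₁, R₂} : Finset V), b {R} * b' {R} := by
      symm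
      refine Finset.sum_subset ?_ fun v _ hv => ?_
      · intro R hR
        rw [Finset.mem_filter]
        refine ⟨Finset.mem_univ _, ?_⟩
        rw [Finset.mem_insert, Finset.mem_singleton] at hR
        rcases hR with rfl | rfl
        · exact hr _ h1
        · exact hr _ h2
      · have hvN : v ∉ N := by
          rw [h12]; simpa using hv
        rw [hz v hvN b hb, zero_mul]
    rw [e3, Finset.sum_pair hne, hp b hb, hp b' hb']
    exact CharTwo.add_self_eq_zero _

/-- linear choice of families -/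
lemma section' {k : ℕ} {N : Set V}
    (h : ∀ x, ZB r rk τ (DblF n k) (DblF n (k + 1)) N x → ∃ b, Fam r rk τ k N x b) :
    ∃ σ : (Finset V → K) →ₗ[K] (Finset V → K),
      ∀ x, ZB r rk τ (DblF n k) (DblF n (k + 1)) N x → Fam r rk τ k N x (σ x) := by
  let Zs : Submodule K (Finset V → K) :=
    { carrier := {x | ZB r rk τ (DblF n k) (DblF n (k + 1)) N x}
      add_mem' := by
        rintro x y ⟨h1, h2, h3⟩ ⟨h4, h5, h6⟩
        refine ⟨fun T hT => by rw [Pi.add_apply, h1 T hT, h4 T hT, add_zero], by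
          rw [pd_add, h2, h5, add_zero], fun c hc T hT => by
          rw [pt_add, Pi.add_apply, h3 c hc T hT, h6 c hc T hT, add_zero]⟩
      zero_mem' := by
        refine ⟨fun T _ => rfl, by
          unfold pd; simp, fun c _ T _ => by unfold pt; simp⟩
      smul_mem' := by
        rintro a x ⟨h1, h2, h3⟩
        refine ⟨fun T hT => by rw [Pi.smul_apply, h1 T hT, smul_zero], by
          rw [pd_smul, h2, smul_zero], fun c hc T hT => by
          rw [pt_smul, Pi.smul_apply, h3 c hc T hT, smul_zero]⟩ }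
  let Fs : Submodule K (Finset V → K) :=
    { carrier := {b | Fam r rk τ k N (pd b) b ∧ pd b ∈ Zs}
      add_mem' := by
        rintro x y ⟨⟨h1, h2, h3⟩, h7⟩ ⟨⟨h4, h5, h6⟩, h8⟩
        refine ⟨⟨fun T hT => by rw [Pi.add_apply, h1 T hT, h4 T hT, add_zero], rfl,
          fun c hc T hT => by
          rw [pt_add, Pi.add_apply, h3 c hc T hT, h6 c hc T hT, add_zero]⟩, ?_⟩
        rw [pd_add]; exact Zs.add_mem h7 h8
      zero_mem' := by
        have : pd (0 : Finset V → K) = 0 := by unfold pd; simp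
        refine ⟨⟨fun T _ => rfl, rfl, fun c _ T _ => by unfold pt; simp⟩, ?_⟩
        rw [this]; exact Zs.zero_mem
      smul_mem' := by
        rintro a x ⟨⟨h1, h2, h3⟩, h7⟩
        refine ⟨⟨fun T hT => by rw [Pi.smul_apply, h1 T hT, smul_zero], rfl,
          fun c hc T hT => by
          rw [pt_smul, Pi.smul_apply, h3 c hc T hT, smul_zero]⟩, ?_⟩
        rw [pd_smul]; exact Zs.smul_mem a h7 }
  let f : Fs →ₗ[K] Zs :=
    { toFun := fun b => ⟨pd b.1, b.2.2⟩
      map_add' := fun b c => by apply Subtype.ext; exact pd_add _ _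
      map_smul' := fun a b => by apply Subtype.ext; exact pd_smul _ _ }
  have hf : LinearMap.range f = ⊤ := by
    rw [LinearMap.range_eq_top]
    rintro ⟨x, hx⟩
    obtain ⟨b, h1, h2, h3⟩ := h x hx
    refine ⟨⟨b, ⟨h1, rfl, h3⟩, by rw [h2]; exact hx⟩, ?_⟩
    apply Subtype.ext
    exact h2
  obtain ⟨g, hg⟩ := LinearMap.exists_rightInverse_of_surjective f hf
  obtain ⟨σ, hσ⟩ := LinearMap.exists_extend (Fs.subtype ∘ₗ g)
  refine ⟨σ, fun x hx => ?_⟩
  have e1 : σ x = (g ⟨x, hx⟩).1 := by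
    have := congrArg (fun φ => φ ⟨x, hx⟩) hσ
    simpa using this
  have e2 : pd (g ⟨x, hx⟩).1 = x := by
    have := congrArg (fun φ => (φ ⟨x, hx⟩).1) hg
    exact this
  have e3 := (g ⟨x, hx⟩).2.1
  rw [e1]
  rw [e2] at e3
  exact e3

lemma step [CharP K 2] (hrk : ∀ x y, r x y → rk x < rk y) {k : ℕ} {L : V → Bil V K}
    (hL : Good r rk τ k L)
    (thin : ∀ (N : Set V) (m : ℕ), IsN r rk (m + 2) N → ∀ R ∈ N, (rk R : ℕ) = m →
      {M | M ∈ N ∧ r R M}.ncard = 2)
    (hP : ∀ N : Set V, IsN r rk (2 * k + 2) N → ∀ s : Fin n, (s : ℕ) = 2 * k + 1 →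
      PRIM r rk τ N (DblF n k) (RgF n (2 * k) (2 * k + 2)) s)
    (hP' : ∀ N : Set V, IsN r rk (2 * k + 3) N → ∀ s : Fin n, (s : ℕ) = 2 * k + 1 →
      PRIM r rk τ N (DblF n k) (RgF n (2 * k) (2 * k + 3)) s) :
    ∃ L' : V → Bil V K, Good r rk τ (k + 1) L' := by
  classical
  have hNy : ∀ y : V, (rk y : ℕ) = 2 * k + 2 → IsN r rk (2 * k + 2) {v | r v y} :=
    fun y hy => Or.inr ⟨y, rfl, hy.symm⟩
  have hσ : ∀ y : V, ∃ σ : (Finset V → K) →ₗ[K] (Finset V → K), (rk y : ℕ) = 2 * k + 2 →
      ∀ x, ZB r rk τ (DblF n k) (DblF n (k + 1)) {v | r v y} x →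
        Fam r rk τ k {v | r v y} x (σ x) := by
    intro y
    by_cases hy : (rk y : ℕ) = 2 * k + 2
    · obtain ⟨σ, h⟩ := section' (r := r) (rk := rk) (τ := τ) (k := k) (N := {v | r v y})
        (fun x hx => exFam hrk (by have := (rk y).isLt; omega) (hP _ (hNy y hy)) hx)
      exact ⟨σ, fun _ => h⟩
    · exact ⟨0, fun h => absurd h hy⟩
  choose σ hσ using hσ
  let L' : V → Bil V K := fun y =>
    ∑ M ∈ Finset.univ.filter (fun M => (rk M : ℕ) = 2 * k + 1),
      ∑ R ∈ Finset.univ.filter (fun R => (rk R : ℕ) = 2 * k),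
        τ R • (L R).compl₁₂ (sl R ∘ₗ sl M ∘ₗ σ y) (sl R ∘ₗ sl M ∘ₗ σ y)
  have hL' : ∀ y x x', L' y x x' = EE rk τ k L (σ y x) (σ y x') := by
    intro y x x'
    simp only [L', EE, LinearMap.sum_apply, LinearMap.smul_apply, LinearMap.compl₁₂_apply,
      LinearMap.comp_apply, smul_eq_mul]
  have hmono : ∀ {N : Set V} {x : Finset V → K},
      ZB r rk τ (DblF n (k + 1)) (DblF n (k + 1)) N x → ZB r rk τ (DblF n k) (DblF n (k + 1)) N x := by
    intro N x hx
    refine ⟨hx.1, hx.2.1, hx.2.2.mono ?_⟩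
    intro c hc
    rw [mem_DblF] at hc ⊢
    exact ⟨hc.1, by omega⟩
  have hval : ∀ y, (rk y : ℕ) = 2 * k + 2 → ∀ x x',
      ZB r rk τ (DblF n (k + 1)) (DblF n (k + 1)) {v | r v y} x →
      ZB r rk τ (DblF n (k + 1)) (DblF n (k + 1)) {v | r v y} x' →
      ∀ b b', Fam r rk τ k {v | r v y} x b → Fam r rk τ k {v | r v y} x' b' →
        L' y x x' = EE rk τ k L b b' := by
    intro y hy x x' hx hx' b b' hb hb'
    rw [hL']
    have h1 := hσ y hy x (hmono hx)
    have h2 := hσ y hy x' (hmono hx')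
    have e1 : EE rk τ k L (σ y x - b) (σ y x') = 0 := by
      apply indep hrk hL (hNy y hy) (thin _ _ (hNy y hy)) (hP _ (hNy y hy)) _ hx' h2
      have := h1.sub hb
      rwa [sub_self] at this
    have e2 : EE rk τ k L (σ y x' - b') b = 0 := by
      apply indep hrk hL (hNy y hy) (thin _ _ (hNy y hy)) (hP _ (hNy y hy)) _ hx hb
      have := h2.sub hb'
      rwa [sub_self] at this
    rw [EE_sub, sub_eq_zero] at e1 e2
    rw [e1, EE_symm hL.symm b, e2, EE_symm hL.symm]
  refine ⟨L', ?_, ?_, ?_⟩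
  · intro R x x'
    rw [hL', hL', EE_symm hL.symm]
  · intro y hy x hx
    have hy' : (rk y : ℕ) = 2 * k + 2 := by omega
    have hk : 2 * k + 2 < n := by have := (rk y).isLt; omega
    have h1 := hσ y hy' x (hmono hx)
    rw [hL']
    unfold EE
    rw [Finset.sum_comm]
    have h2 : ∀ R ∈ Finset.univ.filter (fun R => (rk R : ℕ) = 2 * k),
        ∑ M ∈ Finset.univ.filter (fun M => (rk M : ℕ) = 2 * k + 1),
          τ R * L R (sl R (sl M (σ y x))) (sl R (sl M (σ y x))) =
        ∑ T, τ R * ((∏ v ∈ T, τ v) * (sl R x T) ^ 2) := by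
      intro R hR
      have hR' := (Finset.mem_filter.1 hR).2
      have h3 : ∀ M ∈ Finset.univ.filter (fun M => (rk M : ℕ) = 2 * k + 1),
          τ R * L R (sl R (sl M (σ y x))) (sl R (sl M (σ y x))) =
          ∑ T, τ R * ((∏ v ∈ T, τ v) * (sl R (sl M (σ y x)) T) ^ 2) := by
        intro M hM
        rw [hL.Q R hR' _ (slZ hrk (slFam hrk h1 hx.1 (Finset.mem_filter.1 hM).2) hR'),
          Finset.mul_sum]
      rw [Finset.sum_congr rfl h3, Finset.sum_comm]
      refine Finset.sum_congr rfl fun T _ => ?_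
      have hh : (sl R x) T = ∑ M ∈ Finset.univ.filter (fun M => (rk M : ℕ) = 2 * k + 1),
          (sl R (sl M (σ y x))) T := by
        have h5 := famSum hrk (by omega) h1 hx.1
        conv_lhs => rw [← h5]
        rw [map_sum, Finset.sum_apply]
      rw [← Finset.mul_sum, ← Finset.mul_sum, ← CharTwo.sum_sq, hh]
    rw [Finset.sum_congr rfl h2]
    apply REC hrk hx.1
    refine ⟨⟨2 * k, by omega⟩, ?_, rfl⟩
    rw [mem_DblF]
    exact ⟨even_two_mul k, by show 2 * k < 2 * (k + 1); omega⟩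
  · intro N hN b b' hb hb'
    have hn := IsN_le hN
    have hN' : IsN r rk (2 * k + 3) N := by
      have : 2 * (k + 1) + 1 = 2 * k + 3 := by ring
      rwa [this] at hN
    have hs : (⟨2 * k + 1, by omega⟩ : Fin n) ∉ DblF n k := by
      rw [mem_DblF]
      rintro ⟨-, h⟩
      have : 2 * k + 1 < 2 * k := h
      omega
    have e : (DblF n k ∪ RgF n (2 * k) (2 * k + 3)).erase (⟨2 * k + 1, by omega⟩ : Fin n) =
        DblF n (k + 1 + 1) := by
      ext c
      rw [Finset.mem_erase, Finset.mem_union, mem_DblF, mem_RgF, mem_DblF, ne_eq, Fin.ext_iff,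
        Nat.even_iff]
      show ¬ (c : ℕ) = 2 * k + 1 ∧ _ ↔ _
      omega
    have hT : ∀ {x : Finset V → K}, Tau rk τ (DblF n (k + 1)) x → Tau rk τ (DblF n k) x := by
      intro x hx
      apply hx.mono
      intro c hc
      rw [mem_DblF] at hc ⊢
      exact ⟨hc.1, by omega⟩
    obtain ⟨p, hp1, hp2, hp3⟩ := PRIM_out hrk hs (hP' N hN' _ rfl) (by rw [e]; exact hb.1) hb.2.1
      (hT hb.2.2)
    obtain ⟨p', hp1', hp2', hp3'⟩ := PRIM_out hrk hs (hP' N hN' _ rfl) (by rw [e]; exact hb'.1)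
      hb'.2.1 (hT hb'.2.2)
    have e2 : ∀ y : V, (rk y : ℕ) = 2 * k + 2 →
        (DblF n k ∪ RgF n (2 * k) (2 * k + 3)).erase (rk y) =
          DblF n k ∪ RgF n (2 * k) (2 * k + 2) := by
      intro y hy
      ext c
      rw [Finset.mem_erase, Finset.mem_union, Finset.mem_union, mem_DblF, mem_RgF, mem_RgF, ne_eq,
        Fin.ext_iff, hy, Nat.even_iff]
      omega
    have hfam : ∀ y : V, (rk y : ℕ) = 2 * k + 2 → ∀ q c : Finset V → K,
        Sp r rk N (DblF n k ∪ RgF n (2 * k) (2 * k + 3)) q → pd q = c → Tau rk τ (DblF n k) q →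
        Fam r rk τ k {v | r v y} (sl y c) (sl y q) := by
      intro y hy q c h1 h2 h3
      refine ⟨?_, ?_, slTau h3 y ?_⟩
      · rw [← e2 y hy]
        apply slSp hrk h1
        intro c hc
        rw [Finset.mem_union, mem_DblF, mem_RgF] at hc
        rw [Fin.le_def, hy]
        omega
      · rw [pd_sl, h2]
      · rw [mem_DblF, hy]
        omega
    have e3 : ∀ y ∈ Finset.univ.filter (fun R => (rk R : ℕ) = 2 * (k + 1)),
        L' y (sl y b) (sl y b') = EE rk τ k L (sl y p) (sl y p') := by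
      intro y hy
      have hy' : (rk y : ℕ) = 2 * (k + 1) := (Finset.mem_filter.1 hy).2
      have hy'' : (rk y : ℕ) = 2 * k + 2 := by omega
      exact hval y hy'' _ _ (slZ hrk hb hy') (slZ hrk hb' hy') _ _
        (hfam y hy'' p b hp1 hp2 hp3) (hfam y hy'' p' b' hp1' hp2' hp3')
    rw [Finset.sum_congr rfl e3]
    unfold EE
    rw [Finset.sum_comm]
    refine Finset.sum_eq_zero fun M hM => ?_
    rw [Finset.sum_comm]
    refine Finset.sum_eq_zero fun R hR => ?_
    have hM' := (Finset.mem_filter.1 hM).2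
    by_cases hMN : M ∈ N
    · obtain ⟨y₁, y₂, hne, h12⟩ := Set.ncard_eq_two.1 (thin N (2 * k + 1) hN' M hMN hM')
      have hr : ∀ y, y ∈ N → r M y → (rk y : ℕ) = 2 * k + 1 + 1 := by
        intro y h1 h2
        have e1 := IsN_lt hrk hN h1
        have e2 := hrk _ _ h2
        rw [Fin.lt_def, hM'] at e2
        omega
      have hm1 : y₁ ∈ N ∧ r M y₁ := by
        have : y₁ ∈ {y | y ∈ N ∧ r M y} := by rw [h12]; simp
        exact this
      have hm2 : y₂ ∈ N ∧ r M y₂ := by
        have : y₂ ∈ {y | y ∈ N ∧ r M y} := by rw [h12]; simp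
        exact this
      have hzero : ∀ q c : Finset V → K,
          Sp r rk N (DblF n k ∪ RgF n (2 * k) (2 * k + 3)) q → pd q = c →
          Sp r rk N (DblF n (k + 1 + 1)) c → sl M (sl y₁ q) = sl M (sl y₂ q) := by
        intro q c h1 h2 h3
        refine PAIR hrk h1 ⟨⟨2 * k + 2, by omega⟩, ?_, rfl⟩ M hM' ?_ hne h12 (hr _ hm1.1 hm1.2)
          (hr _ hm2.1 hm2.2)
        · rw [Finset.mem_union, mem_RgF]
          right
          constructor
          · show 2 * k ≤ 2 * k + 2; omega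
          · show 2 * k + 2 < 2 * k + 3; omega
        · rw [h2]
          apply sl_zero h3
          rw [mem_DblF, hM', Nat.even_iff]
          omega
      have e4 : ∑ y ∈ Finset.univ.filter (fun R => (rk R : ℕ) = 2 * (k + 1)),
          τ R * L R (sl R (sl M (sl y p))) (sl R (sl M (sl y p'))) =
          ∑ y ∈ ({y₁, y₂} : Finset V), τ R * L R (sl R (sl M (sl y p))) (sl R (sl M (sl y p'))) := by
        symm
        refine Finset.sum_subset ?_ fun v hv hv2 => ?_
        · intro y hy
          rw [Finset.mem_filter]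
          refine ⟨Finset.mem_univ _, ?_⟩
          rw [Finset.mem_insert, Finset.mem_singleton] at hy
          rcases hy with rfl | rfl
          · have := hr _ hm1.1 hm1.2; omega
          · have := hr _ hm2.1 hm2.2; omega
        · rw [Finset.mem_filter] at hv
          have : sl M (sl v p) = 0 := by
            apply PAIR0 hrk hp1 M v hM' (by omega)
            intro h
            apply hv2
            have : v ∈ ({y₁, y₂} : Set V) := by rw [← h12]; exact h
            simpa using this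
          rw [this, map_zero, map_zero, LinearMap.zero_apply, mul_zero]
      rw [e4, Finset.sum_pair hne, hzero p b hp1 hp2 hb.1, hzero p' b' hp1' hp2' hb'.1]
      exact CharTwo.add_self_eq_zero _
    · refine Finset.sum_eq_zero fun y _ => ?_
      rw [sl_comm M y p, sl_notMem hp1 M hMN, map_zero, map_zero, map_zero, LinearMap.zero_apply,
        mul_zero]

theorem key : M_KEY := by
  intro n V K _ _ _ _ r rk τ j htr hrk thin two hInd hP hP' N hN x hx
  classical
  have hG : ∀ k, k ≤ j → ∃ L : V → Bil V K, Good r rk τ k L := by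
    intro k
    induction k with
    | zero => intro _; exact level0 hrk two
    | succ k ih =>
      intro hk
      obtain ⟨L, hL⟩ := ih (by omega)
      exact step hrk hL thin (hP k (by omega)) (hP' k (by omega))
  obtain ⟨L, hL⟩ := hG j le_rfl
  have hn := IsN_le hN
  rw [TZ_iff hrk, Finset.union_empty] at hx
  obtain ⟨u, hu, hu2⟩ := wt hrk (by omega) hx
  have hx' : ZB r rk τ (DblF n j) (DblF n (j + 1)) N x := by
    refine ⟨hx.1, hx.2.1, Tau.mono hx.2.2 ?_⟩
    intro c hc
    rw [mem_DblF] at hc ⊢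
    exact ⟨hc.1, by omega⟩
  have h1 := hL.I N hN x u hx' hu
  have h2 : ∀ R ∈ Finset.univ.filter (fun R => (rk R : ℕ) = 2 * j), L R (sl R x) (sl R u) =
      ∑ T, τ R * ((∏ v ∈ T, τ v) * (sl R x T) ^ 2) := by
    intro R hR
    have hR' := (Finset.mem_filter.1 hR).2
    rw [hu2 R hR', map_smul, smul_eq_mul, hL.Q R hR' _ (slZ hrk hx' hR'), Finset.mul_sum]
  rw [Finset.sum_congr rfl h2, REC hrk hx.1 ⟨⟨2 * j, by omega⟩, by
    rw [mem_DblF]
    exact ⟨even_two_mul j, by show 2 * j < 2 * (j + 1); omega⟩, rfl⟩] at h1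
  apply hInd x _ h1
  intro T hT
  apply hx.1
  intro hty
  apply hT
  intro v hv
  have : rk v ∈ DblF n (j + 1) := by
    rw [← hty.2.2]; exact Finset.mem_image_of_mem _ hv
  exact (mem_DblF.1 this).1

end Pool.Agent.W578.SM
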