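import Pool.Agent.H7.L.W907_SM_Stmts2
import Pool.Agent.H7.L.W907_SG_All
import Pool.Agent.H7.L.W111_SM_Odd

namespace Pool.Agent.W597.SM

open Pool.Agent.W907.SG Pool.Agent.W907.SM
open Pool.Agent.W111.SM (L2A l2a_of l2a_insert)

theorem l2a_empty {V : Type} (G : SimpleGraph V) (i : ℕ) (hi : 1 ≤ i) : L2A G ∅ i := by
  intro f o c hc
  funext w T
  apply hc.supp
  rintro ⟨-, h⟩
  have : T = ∅ := by
    apply Finset.eq_empty_of_forall_notMem
    intro x
    exact absurd x.2 (Set.notMem_empty _)
  rw [this, Finset.card_empty] at h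
  omega

theorem evn_of (hadd : S_L2ADD) (hord : S_ORD) (hlkg : B_LKG) : B_EVN := by
  intro hodd n V _ _ r rk hG A _ i hi
  classical
  rcases Nat.even_or_odd n with hev | hod
  swap
  · exact hodd n V r rk hG hod A i hi
  set G : SimpleGraph V := Pool.Agent.W907.SM.cmp r with hGd
  have hadj : ∀ x y, G.Adj x y ↔ x ≠ y ∧ (r x y ∨ r y x) := fun x y => SimpleGraph.fromRel_adj r x y
  -- links
  have hlink : ∀ (v : V) (B : Set V) (j : ℕ), n < 2 * (j + 1) → L2A G (B ∩ G.neighborSet v) j := by
    intro v B j hj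
    have hn1 : 1 ≤ n := by
      have := (rk v).2
      omega
    have hlt : ∀ u : ↥(G.neighborSet v), (if r u.1 v then (rk u.1 : ℕ) else (rk u.1 : ℕ) - 1) < n - 1 := by
      intro u
      have hu : v ≠ u.1 ∧ (r v u.1 ∨ r u.1 v) := (hadj v u.1).1 u.2
      split_ifs with h
      · have h1 : (rk u.1 : ℕ) < (rk v : ℕ) := hG.rk_lt _ _ h
        have h2 := (rk v).2
        omega
      · have h3 : r v u.1 := by
          rcases hu.2 with h' | h'
          · exact h'
          · exact absurd h' h
        have h1 : (rk v : ℕ) < (rk u.1 : ℕ) := hG.rk_lt _ _ h3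
        have h2 := (rk u.1).2
        omega
    let fN : Fintype ↥(G.neighborSet v) := Fintype.ofFinite _
    have hgor := hlkg n V r rk hG v (n - 1)
      (fun u => ⟨if r u.1 v then (rk u.1 : ℕ) else (rk u.1 : ℕ) - 1, hlt u⟩) (by omega)
      (by
        intro u hu
        simp [hu])
      (by
        intro u hu
        have h1 : (rk v : ℕ) < (rk u.1 : ℕ) := hG.rk_lt _ _ hu
        have h2 : ¬ r u.1 v := by
          intro h
          have h3 : (rk u.1 : ℕ) < (rk v : ℕ) := hG.rk_lt _ _ h
          omega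
        simp only [h2, if_false]
        omega)
    have hoddm : Odd (n - 1) := Nat.Even.sub_odd hn1 hev odd_one
    let fA : Fintype ↥({x : ↥(G.neighborSet v) | x.1 ∈ B} : Set ↥(G.neighborSet v)) := Fintype.ofFinite _
    have h1 := hodd (n - 1) _ _ _ hgor hoddm {x : ↥(G.neighborSet v) | x.1 ∈ B} j (by
      obtain ⟨t, ht⟩ := hev
      omega)
    intro f' o'
    refine hord _ _ fA f' _ o' _ _ j ⟨?_⟩ h1
    exact
      { toFun := fun x => ⟨x.1.1, x.2, x.1.2⟩
        invFun := fun y => ⟨⟨y.1, y.2.2⟩, y.2.1⟩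
        left_inv := fun x => rfl
        right_inv := fun y => rfl
        map_rel_iff' := by
          intro a b
          have h3 : (SimpleGraph.fromRel (fun x y : ↥(G.neighborSet v) => r x.1 y.1)).Adj a.1 b.1 ↔
              a.1 ≠ b.1 ∧ (r a.1.1 b.1.1 ∨ r b.1.1 a.1.1) := SimpleGraph.fromRel_adj _ _ _
          have h4 : a.1 ≠ b.1 ↔ a.1.1 ≠ b.1.1 := by
            rw [ne_eq, Subtype.ext_iff]
          have h5 := hadj a.1.1 b.1.1
          rw [h4, ← h5] at h3
          exact h3.symm }
  have key : ∀ s : Finset V, L2A G (s : Set V) i := by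
    intro s
    induction s using Finset.induction_on with
    | empty =>
      rw [Finset.coe_empty]
      exact l2a_empty G i (by omega)
    | insert a s ha ih =>
      rw [Finset.coe_insert]
      refine l2a_insert hadd hord G _ a i (by simpa using ha) ih ?_
      intro j hj
      exact hlink a _ j (by omega)
  have := key A.toFinset
  rw [Set.coe_toFinset] at this
  exact this _ _

theorem evn (hlkg : B_LKG) : B_EVN := evn_of l2add ord hlkg

end Pool.Agent.W597.SM
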