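import Pool.Agent.H7.L.W907_SM_Stmts2
import Pool.Agent.H7.L.W240_SM_ALG

set_option autoImplicit false

namespace Pool.Agent.W657.SM

open Pool.Agent.W907.SG Pool.Agent.W907.SM

/-! ### field descent for line complexes -/

/-- exactness over an extension field implies exactness over the ground field -/
theorem desc {V C K₀ K : Type} [Fintype V] [LinearOrder V] [DecidableEq C] [Field K₀] [CommRing K]
    [Nontrivial K] [Algebra K₀ K] (G : SimpleGraph V) (col : V → C) (D : Set C) (τ : V → K₀) (A : Set V)
    (i : ℕ) (h : EX G col D (fun v => algebraMap K₀ K (τ v)) A i) : EX G col D τ A i := by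
  classical
  intro z hz hbz
  have hz1 : IsLC G col D (fun v => algebraMap K₀ K (τ v)) A i
      (fun T ε => algebraMap K₀ K (z T ε)) := by
    refine ⟨fun T hT => ?_, fun T t ht hD ε => ?_⟩
    · funext ε
      rw [hz.supp T hT]
      simp
    · rw [hz.line T t ht hD ε, map_mul]
  have hz2 : bdd (fun (T : Finset V) (ε : C → Bool) => algebraMap K₀ K (z T ε)) = 0 := by
    funext T ε
    have h1 := congrFun (congrFun hbz T) ε
    simp only [bdd, Finset.sum_apply, Pi.smul_apply, Pi.zero_apply] at h1 ⊢
    have h2 := congrArg (algebraMap K₀ K) h1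
    rw [map_sum, map_zero] at h2
    rw [← h2]
    refine Finset.sum_congr rfl fun v _ => ?_
    rw [map_zsmul]
  obtain ⟨y, hy, hby⟩ := h _ hz1 hz2
  obtain ⟨π, hπ⟩ := LinearMap.exists_leftInverse_of_injective (Algebra.linearMap K₀ K)
    (LinearMap.ker_eq_bot.2 (algebraMap K₀ K).injective)
  have hπ' : ∀ a : K₀, π (algebraMap K₀ K a) = a := fun a => LinearMap.congr_fun hπ a
  refine ⟨fun T ε => π (y T ε), ⟨fun T hT => ?_, fun T t ht hD ε => ?_⟩, ?_⟩
  · funext ε
    rw [hy.supp T hT]
    simp
  · show π (y T (Function.update ε (col t) true)) = τ t * π (y T (Function.update ε (col t) false))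
    rw [hy.line T t ht hD ε, ← Algebra.smul_def, map_smul, smul_eq_mul]
  · funext T ε
    have h1 := congrFun (congrFun hby T) ε
    simp only [bdd, Finset.sum_apply, Pi.smul_apply] at h1 ⊢
    have h2 := congrArg π h1
    rw [map_sum, hπ'] at h2
    rw [← h2]
    refine Finset.sum_congr rfl fun v _ => ?_
    rw [map_zsmul]

/-- the embedding of the fields of rational functions given by an injection of the variables -/
noncomputable def emb {U V : Type} (f : U → V) (hf : Function.Injective f) :
    FractionRing (MvPolynomial U (ZMod 2)) →+* FractionRing (MvPolynomial V (ZMod 2)) :=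
  IsFractionRing.map (A := MvPolynomial U (ZMod 2)) (B := MvPolynomial V (ZMod 2))
    (K := FractionRing (MvPolynomial U (ZMod 2))) (L := FractionRing (MvPolynomial V (ZMod 2)))
    (j := (MvPolynomial.rename f : MvPolynomial U (ZMod 2) →ₐ[ZMod 2] MvPolynomial V (ZMod 2)).toRingHom)
    (MvPolynomial.rename_injective f hf)

theorem emb_X {U V : Type} (f : U → V) (hf : Function.Injective f) (u : U) :
    emb f hf (algebraMap (MvPolynomial U (ZMod 2)) _ (MvPolynomial.X u)) =
      algebraMap (MvPolynomial V (ZMod 2)) _ (MvPolynomial.X (f u)) := by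
  unfold emb IsFractionRing.map
  rw [IsLocalization.map_eq]
  congr 1
  exact MvPolynomial.rename_X f u

/-- B_DESC -/
theorem b_desc : B_DESC := by
  classical
  intro V C _ _ _ G col A _ i h
  have h1 := Pool.Agent.W240.SM.ltr ↥A V C (FractionRing (MvPolynomial V (ZMod 2))) G (G.induce A) col
    Set.univ (fun v => algebraMap (MvPolynomial V (ZMod 2)) (FractionRing (MvPolynomial V (ZMod 2)))
      (MvPolynomial.X v)) Subtype.val (fun a b hab => hab) (fun u u' => Iff.rfl)
      (fun u => Set.mem_univ _) i (by rw [Subtype.range_coe]; exact h)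
  let _ : Algebra (FractionRing (MvPolynomial ↥A (ZMod 2))) (FractionRing (MvPolynomial V (ZMod 2))) :=
    (emb Subtype.val Subtype.val_injective).toAlgebra
  refine desc (K := FractionRing (MvPolynomial V (ZMod 2))) _ _ _ _ _ _ ?_
  convert h1 using 2 with v
  exact emb_X _ _ v

/-- B_GENIND -/
theorem b_genind : B_GENIND := by
  classical
  intro V _ _ E x hx hsum
  let φ := emb (fun v : V => (⟨v, Set.mem_univ v⟩ : ↥(Set.univ : Set V)))
    (fun a b h => congrArg Subtype.val h)
  have hgen : ∀ v : V, φ (algebraMap (MvPolynomial V (ZMod 2)) _ (MvPolynomial.X v)) =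
      gen (Set.univ : Set V) v := by
    intro v
    refine (emb_X _ _ v).trans ?_
    unfold gen
    rw [dif_pos (Set.mem_univ v)]
  have h1 := Pool.Agent.W240.SM.ind2 V Set.univ (fun T => φ (x T))
    (fun T hT => absurd (Set.subset_univ _) hT) (by
      have h2 := congrArg φ hsum
      rw [map_sum, map_zero] at h2
      rw [← h2]
      refine Finset.sum_congr rfl fun T _ => ?_
      rw [map_mul, map_pow, map_prod]
      congr 1
      exact Finset.prod_congr rfl fun v _ => (hgen v).symm)
  funext T
  have h3 := congrFun h1 T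
  exact φ.injective (h3.trans (map_zero φ).symm)

end Pool.Agent.W657.SM
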