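import Pool.Agent.H7.L.W907_SM_Stmts
import Pool.Agent.H7.L.W52_SG_TR

set_option autoImplicit false

/-!
# Links and lower intervals of Gorenstein* posets (part SM-EXT, by helper215)
-/

namespace Pool.Agent.W215.SM

open Pool.Agent.W907.SG Pool.Agent.W907.SM


theorem cmp_adj {V : Type} (r : V → V → Prop) (u v : V) :
    (Pool.Agent.W907.SM.cmp r).Adj u v ↔ u ≠ v ∧ (r u v ∨ r v u) := by
  unfold Pool.Agent.W907.SM.cmp
  exact SimpleGraph.fromRel_adj r u v

theorem rk_ne {n : ℕ} {V : Type} {r : V → V → Prop} {rk : V → Fin n}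
    (h : ∀ x y, r x y → rk x < rk y) {u v : V} (huv : (Pool.Agent.W907.SM.cmp r).Adj u v) : rk u ≠ rk v := by
  rw [cmp_adj] at huv
  rcases huv.2 with h1 | h1
  · exact (h _ _ h1).ne
  · exact (h _ _ h1).ne'

theorem injOn_rk {n : ℕ} {V : Type} {r : V → V → Prop} {rk : V → Fin n}
    (h : ∀ x y, r x y → rk x < rk y) {F : Finset V} (hF : (Pool.Agent.W907.SM.cmp r).IsClique (F : Set V)) :
    Set.InjOn rk (F : Set V) := by
  intro u hu v hv huv
  by_contra hne
  exact rk_ne h (hF hu hv hne) huv

theorem card_le {n : ℕ} {V : Type} {r : V → V → Prop} {rk : V → Fin n}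
    (h : ∀ x y, r x y → rk x < rk y) {F : Finset V} (hF : (Pool.Agent.W907.SM.cmp r).IsClique (F : Set V)) :
    F.card ≤ n := by
  classical
  rw [← Finset.card_image_of_injOn (injOn_rk h hF)]
  exact (Finset.card_le_univ _).trans (by simp)

theorem exists_clique {V F M : Type} [Fintype V] [LinearOrder V] [Field F] [AddCommGroup M]
    [Module F M] (G : SimpleGraph V) (ρ : V → M →ₗ[F] M) (A S : Set V) (i : ℕ)
    (h : beta G ρ A S i ≠ 0) :
    ∃ T : Finset V, G.IsClique (T : Set V) ∧ (T : Set V) ⊆ A ∧ T.card = i := by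
  by_contra hno
  apply h
  unfold beta
  have h1 : ZZ G ρ A S i = ⊥ := by
    rw [eq_bot_iff]
    rintro c ⟨hc, _⟩
    rw [Submodule.mem_bot]
    funext T
    exact (mem_KK.1 hc).1 T (fun hT => hno ⟨T, hT⟩)
  rw [h1, finrank_bot, Nat.zero_sub]

theorem ext : M_EXT := by
  intro n V _ _ r rk hG F hF
  have hle : F.card ≤ n := card_le hG.rk_lt hF
  have hb := hG.sphere F hF (n - F.card)
  rw [if_pos (by omega)] at hb
  obtain ⟨T, hT1, hT2, hT3⟩ := exists_clique _ _ _ _ _ (by rw [hb]; exact one_ne_zero)
  refine ⟨F ∪ T, Finset.subset_union_left, ?_, ?_⟩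
  · intro x hx y hy hxy
    rw [Finset.coe_union] at hx hy
    rcases hx with hx | hx
    · rcases hy with hy | hy
      · exact hF hx hy hxy
      · exact (hT2 hy x hx).symm
    · rcases hy with hy | hy
      · exact hT2 hx y hy
      · exact hT1 hx hy hxy
  · rw [Finset.card_union_of_disjoint, hT3]
    · omega
    · rw [Finset.disjoint_left]
      intro x hx hx'
      exact (Pool.Agent.W907.SM.cmp r).loopless.irrefl x (hT2 hx' x hx)

theorem int : M_INT := by
  intro n V _ _ r rk hG N m hN F hF hFN i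
  classical
  rcases hN with ⟨rfl, rfl⟩ | ⟨y, rfl, rfl⟩
  · rw [Set.inter_univ]
    exact hG.sphere F hF i
  · -- the chain `F ∪ {y}`
    have hFy : (Pool.Agent.W907.SM.cmp r).IsClique ((insert y F : Finset V) : Set V) := by
      intro a ha b hb hab
      rw [Finset.mem_coe, Finset.mem_insert] at ha hb
      rcases ha with rfl | ha
      · rcases hb with rfl | hb
        · exact absurd rfl hab
        · rw [cmp_adj]
          exact ⟨hab, Or.inr (hFN hb)⟩
      · rcases hb with rfl | hb
        · rw [cmp_adj]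
          exact ⟨hab, Or.inl (hFN ha)⟩
        · exact hF ha hb hab
    obtain ⟨F', h1, h2, h3⟩ := ext n V r rk hG (insert y F) hFy
    have hy : y ∈ F' := h1 (Finset.mem_insert_self y F)
    have himg : F'.image rk = Finset.univ := by
      apply Finset.eq_univ_of_card
      rw [Finset.card_image_of_injOn (injOn_rk hG.rk_lt h2), h3, Fintype.card_fin]
    set U : Finset V := F'.filter (fun u => r y u) with hU
    have hUrk : U = F'.filter (fun u => rk y < rk u) := by
      rw [hU]
      ext u
      simp only [Finset.mem_filter, and_congr_right_iff]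
      intro hu
      refine ⟨fun h => hG.rk_lt _ _ h, fun h => ?_⟩
      have hne : y ≠ u := fun e => by rw [e] at h; exact lt_irrefl _ h
      have := h2 hy hu hne
      rw [cmp_adj] at this
      rcases this.2 with h4 | h4
      · exact h4
      · exact absurd (hG.rk_lt _ _ h4) (not_lt.2 h.le)
    have hUimg : U.image rk = Finset.Ioi (rk y) := by
      ext c
      rw [Finset.mem_image, Finset.mem_Ioi]
      constructor
      · rintro ⟨u, hu, rfl⟩
        exact hG.rk_lt _ _ (Finset.mem_filter.1 hu).2
      · intro hc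
        have hc' : c ∈ F'.image rk := by rw [himg]; exact Finset.mem_univ c
        obtain ⟨u, hu, rfl⟩ := Finset.mem_image.1 hc'
        exact ⟨u, by rw [hUrk]; exact Finset.mem_filter.2 ⟨hu, hc⟩, rfl⟩
    have hUF' : U ⊆ F' := Finset.filter_subset _ _
    have hUc : U.card = n - 1 - (rk y : ℕ) := by
      rw [← Finset.card_image_of_injOn ((injOn_rk hG.rk_lt h2).mono (by exact_mod_cast hUF')),
        hUimg, Fin.card_Ioi]
    have hF2 : (Pool.Agent.W907.SM.cmp r).IsClique ((insert y (F ∪ U) : Finset V) : Set V) := by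
      refine h2.subset ?_
      intro a ha
      rw [Finset.mem_coe, Finset.mem_insert, Finset.mem_union] at ha
      rcases ha with rfl | ha | ha
      · exact hy
      · exact h1 (Finset.mem_insert_of_mem ha)
      · exact hUF' ha
    have hlk : lk (Pool.Agent.W907.SM.cmp r) (insert y (F ∪ U)) = lk (Pool.Agent.W907.SM.cmp r) F ∩ {v | r v y} := by
      ext v
      constructor
      · intro hv
        refine ⟨fun u hu => hv u (Finset.mem_insert_of_mem (Finset.mem_union_left _ hu)), ?_⟩
        have hvy := hv y (Finset.mem_insert_self _ _)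
        rw [cmp_adj] at hvy
        rcases hvy.2 with h4 | h4
        · exact h4
        · exfalso
          have h5 : rk v ∈ U.image rk := by
            rw [hUimg, Finset.mem_Ioi]
            exact hG.rk_lt _ _ h4
          obtain ⟨u, hu, hu2⟩ := Finset.mem_image.1 h5
          exact rk_ne hG.rk_lt
            (hv u (Finset.mem_insert_of_mem (Finset.mem_union_right _ hu))) hu2.symm
      · rintro ⟨hv1, hv2⟩ u hu
        have hv2' : r v y := hv2
        rw [Finset.mem_insert, Finset.mem_union] at hu
        rcases hu with rfl | hu | hu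
        · rw [cmp_adj]
          exact ⟨fun e => by rw [e] at hv2'; exact lt_irrefl _ (hG.rk_lt _ _ hv2'), Or.inl hv2'⟩
        · exact hv1 u hu
        · have h4 := hG.trans _ _ _ hv2' (Finset.mem_filter.1 hu).2
          rw [cmp_adj]
          exact ⟨fun e => by rw [e] at h4; exact lt_irrefl _ (hG.rk_lt _ _ h4), Or.inl h4⟩
    have hcard : (insert y (F ∪ U)).card = F.card + 1 + (n - 1 - (rk y : ℕ)) := by
      rw [Finset.card_insert_of_notMem, Finset.card_union_of_disjoint, hUc]
      · ring
      · rw [Finset.disjoint_left]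
        intro x hx hx'
        have a1 := hG.rk_lt _ _ (hFN hx)
        have a2 := hG.rk_lt _ _ (Finset.mem_filter.1 hx').2
        exact lt_asymm a1 a2
      · intro h4
        rw [Finset.mem_union] at h4
        rcases h4 with h4 | h4
        · exact lt_irrefl _ (hG.rk_lt _ _ (hFN h4))
        · exact lt_irrefl _ (hG.rk_lt _ _ (Finset.mem_filter.1 h4).2)
    have hs := hG.sphere _ hF2 i
    rw [hlk, hcard] at hs
    rw [hs]
    have hlt := (rk y).isLt
    by_cases hc : i + F.card = (rk y : ℕ)
    · rw [if_pos hc, if_pos (by omega)]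
    · rw [if_neg hc, if_neg (by omega)]

theorem subg : M_SUBG := by
  intro n V _ _ r rk hG σ _ rk' hrk
  refine ⟨fun x y z h1 h2 => hG.trans _ _ _ h1 h2, fun x y h => ?_, fun F hF i => ?_⟩
  · rw [Fin.lt_def, hrk, hrk]
    exact hG.rk_lt _ _ h
  · classical
    set r' : ↥{v | r v σ} → ↥{v | r v σ} → Prop := fun a b => r a.1 b.1 with hr'
    have hadj : ∀ a b : ↥{v | r v σ}, (Pool.Agent.W907.SM.cmp r').Adj a b ↔ (Pool.Agent.W907.SM.cmp r).Adj a.1 b.1 := by
      intro a b
      rw [cmp_adj, cmp_adj, hr', ne_eq, ne_eq, Subtype.ext_iff]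
    set FV : Finset V := F.image Subtype.val with hFV
    have hcl : (Pool.Agent.W907.SM.cmp r).IsClique (FV : Set V) := by
      intro a ha b hb hab
      rw [Finset.mem_coe, hFV, Finset.mem_image] at ha hb
      obtain ⟨a', ha', rfl⟩ := ha
      obtain ⟨b', hb', rfl⟩ := hb
      rw [← hadj]
      exact hF ha' hb' (fun e => hab (by rw [e]))
    have hFVN : (FV : Set V) ⊆ {v | r v σ} := by
      intro a ha
      rw [Finset.mem_coe, hFV, Finset.mem_image] at ha
      obtain ⟨a', ha', rfl⟩ := ha
      exact a'.2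
    have hcard : FV.card = F.card := Finset.card_image_of_injective _ Subtype.val_injective
    have h1 := int n V r rk hG {v | r v σ} (rk σ : ℕ) (Or.inr ⟨σ, rfl, rfl⟩) FV hcl hFVN i
    rw [hcard] at h1
    rw [← h1]
    -- transport
    let U := {x : ↥{v | r v σ} // x ∈ lk (Pool.Agent.W907.SM.cmp r') F}
    letI : Fintype U := Fintype.ofFinite U
    let φ₁ : U → ↥{v | r v σ} := fun x => x.1
    let φ₂ : U → V := fun x => x.1.1
    let H : SimpleGraph U := (Pool.Agent.W907.SM.cmp r').comap φ₁
    have t1 := Pool.Agent.W52.SG.tr U ↥{v | r v σ} (ZMod 2) (ZMod 2) (Pool.Agent.W907.SM.cmp r') H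
      (fun _ => LinearMap.id) φ₁ (fun a b h => h) (fun u u' => Iff.rfl) i
    have t2 := Pool.Agent.W52.SG.tr U V (ZMod 2) (ZMod 2) (Pool.Agent.W907.SM.cmp r) H
      (fun _ => LinearMap.id) φ₂ (fun a b h => h) (fun u u' => hadj _ _) i
    have r1 : Set.range φ₁ = lk (Pool.Agent.W907.SM.cmp r') F := Subtype.range_coe
    have r2 : Set.range φ₂ = lk (Pool.Agent.W907.SM.cmp r) FV ∩ {v | r v σ} := by
      ext v
      constructor
      · rintro ⟨x, rfl⟩
        refine ⟨fun u hu => ?_, x.1.2⟩
        rw [hFV, Finset.mem_image] at hu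
        obtain ⟨u', hu', rfl⟩ := hu
        exact (hadj _ _).1 (x.2 u' hu')
      · rintro ⟨hv1, hv2⟩
        refine ⟨⟨⟨v, hv2⟩, fun u hu => (hadj _ _).2 (hv1 u.1 ?_)⟩, rfl⟩
        rw [hFV]
        exact Finset.mem_image_of_mem _ hu
    rw [r1] at t1
    rw [r2] at t2
    exact t1.trans t2.symm

end Pool.Agent.W215.SM
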