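import Pool.Agent.H7.L.W907_SM_Main

set_option autoImplicit false

namespace Pool.Agent.W907.SM

open Pool.Agent.W907.SG

/-- Theorem B -/
theorem above (hV0 : M_V0) (hVS : M_VSTEP) (hCA : M_CONVA) (hKey : M_KEY) (hCS : M_CSTEP) (hTh : M_THIN)
    (hT1 : M_T1) (hT2 : M_T2) (hT3 : M_T3) (hT4 : M_T4) (hT6 : M_T6)
    (hKI : B_KEYI) (hABV : B_ABV) (hD : B_DESC) (hGI : B_GENIND) (hEVN : B_EVN) :
    ∀ (n : ℕ) (V : Type) [Fintype V] [LinearOrder V] (r : V → V → Prop) (rk : V → Fin n), GorStar n r rk →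
      ∀ (A : Set V) [Fintype ↥A] (i : ℕ), n < 2 * i → L2Van ((cmp r).induce A) i := by
  refine hEVN ?_
  intro n V _ _ r rk hG hn A _ i hi
  classical
  have hKW := hKI (by
    intro n V K _ _ _ _ r rk τ j hG hn hI
    exact (vv_all hV0 hVS hCA hKey hCS hTh hG hI j (by omega)).2.1 Set.univ (Or.inl ⟨rfl, hn.symm⟩))
  obtain ⟨j, hj⟩ := hn
  have : CharP (MvPolynomial V (ZMod 2)) 2 := inferInstance
  have : CharP (FractionRing (MvPolynomial V (ZMod 2))) 2 := inferInstance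
  have hE := hABV n V (FractionRing (MvPolynomial V (ZMod 2))) r rk
    (fun v => algebraMap (MvPolynomial V (ZMod 2)) (FractionRing (MvPolynomial V (ZMod 2)))
      (MvPolynomial.X v)) hG.trans hG.rk_lt
    (hKW n V _ r rk _ hG (hGI V {v | Even (rk v : ℕ)})) j hj A i (by omega)
  exact l2_of_ex hT1 hT2 hT3 hT4 hT6 ↥A (Fin n) _ (fun u => rk u.1) i
    (fun u w h => rk_ne hG.rk_lt _ _ h) (hD V (Fin n) (cmp r) rk A i hE)

end Pool.Agent.W907.SM
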