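import Pool.Agent.H7.L.W907_SM_Ext
import Pool.Agent.H7.L.W215_SM_LADD

set_option autoImplicit false

/-!
# Rank selections of Gorenstein* posets are Cohen-Macaulay (part SM-V0, by helper215)
-/

namespace Pool.Agent.W215.SM.VZero

open Pool.Agent.W907.SG Pool.Agent.W907.SM Pool.Agent.W215.SM


/-- exactness over `F_2` gives exactness over every field of characteristic 2 -/
theorem ex_of_beta {V K : Type} [Fintype V] [LinearOrder V] [Field K] [CharP K 2] {C : Type}
    [DecidableEq C] (G : SimpleGraph V) (col : V → C) (τ : V → K) (A : Set V) (i : ℕ)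
    (hb : beta G (fun _ => (LinearMap.id : ZMod 2 →ₗ[ZMod 2] ZMod 2)) A ∅ i = 0) :
    EX G col (∅ : Set C) τ A i := by
  classical
  intro z hz hbz
  let : Algebra (ZMod 2) K := ZMod.algebra K 2
  let M := (C → Bool) → K
  let b := Module.Basis.ofVectorSpace (ZMod 2) M
  -- exactness over `ZMod 2`
  have hle : BB G (fun _ => (LinearMap.id : ZMod 2 →ₗ[ZMod 2] ZMod 2)) A ∅ i =
      ZZ G (fun _ => (LinearMap.id : ZMod 2 →ₗ[ZMod 2] ZMod 2)) A ∅ i := by
    apply Submodule.eq_of_le_of_finrank_le (BB_le_ZZ _ _ _ _ _)
    unfold beta at hb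
    omega
  have key : ∀ k, ∃ y ∈ KK G (fun _ => (LinearMap.id : ZMod 2 →ₗ[ZMod 2] ZMod 2)) A ∅ (i + 1),
      bd (ZMod 2) y = fun T => b.coord k (z T) := by
    intro k
    have h1 : (fun T => b.coord k (z T)) ∈
        ZZ G (fun _ => (LinearMap.id : ZMod 2 →ₗ[ZMod 2] ZMod 2)) A ∅ i := by
      refine ⟨mem_KK.2 ⟨fun T hT => ?_, fun T t _ => ?_⟩, ?_⟩
      · show b.coord k (z T) = 0
        rw [hz.supp T hT, map_zero]
      · rw [LinearMap.id_apply]
        exact (ZMod.neg_eq_self_mod_two _).symm
      · refine LinearMap.mem_ker.2 ?_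
        have h2 := LAdd.bdd_map (V := V) (b.coord k).toAddMonoidHom z
        rw [hbz] at h2
        refine Eq.trans h2 ?_
        funext T
        show b.coord k 0 = 0
        exact map_zero _
    rw [← hle] at h1
    obtain ⟨y, hy1, hy2⟩ := h1
    exact ⟨y, hy1, hy2⟩
  choose y hy1 hy2 using key
  let s : Finset _ := Finset.univ.biUnion (fun T : Finset V => (b.repr (z T)).support)
  refine ⟨fun T => ∑ k ∈ s, y k T • b k, ⟨fun T hT => ?_, fun T t _ h => absurd h (by simp)⟩, ?_⟩
  · refine Finset.sum_eq_zero fun k _ => ?_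
    rw [(mem_KK.1 (hy1 k)).1 T hT, zero_smul]
  · funext T
    rw [LAdd.bdd_apply]
    have h3 : ∀ u ∈ Tᶜ, sg u T • (∑ k ∈ s, y k (insert u T) • b k : M) =
        ∑ k ∈ s, (sg u T • y k (insert u T)) • b k := by
      intro u _
      rw [Finset.smul_sum]
      exact Finset.sum_congr rfl fun k _ => by rw [smul_assoc]
    rw [Finset.sum_congr rfl h3, Finset.sum_comm]
    have h4 : ∀ k ∈ s, ∑ u ∈ Tᶜ, (sg u T • y k (insert u T)) • b k = b.repr (z T) k • b k := by
      intro k _
      rw [← Finset.sum_smul]
      congr 1
      exact congrFun (hy2 k) T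
    rw [Finset.sum_congr rfl h4]
    have h5 : (b.repr (z T)).support ⊆ s :=
      Finset.subset_biUnion_of_mem (fun T : Finset V => (b.repr (z T)).support)
        (Finset.mem_univ T)
    have h6 := b.linearCombination_repr (z T)
    rw [Finsupp.linearCombination_apply, Finsupp.sum_of_support_subset _ h5 _ (by simp)] at h6
    exact h6

section
variable {n : ℕ} {V K : Type} [Fintype V] [LinearOrder V] [Field K] [CharP K 2]
  {r : V → V → Prop} {rk : V → Fin n}

/-- the main induction -/
theorem main (hG : GorStar n r rk) (τ : V → K) :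
    ∀ (m : ℕ) (F : Finset V) (S : Finset (Fin n)), (Pool.Agent.W907.SM.cmp r).IsClique (F : Set V) →
    (∀ u ∈ F, rk u ∉ S) → F.card + S.card + m = n → ∀ i, i < S.card →
      EX (Pool.Agent.W907.SM.cmp r) rk (∅ : Set (Fin n)) τ (lk (Pool.Agent.W907.SM.cmp r) F ∩ {v | rk v ∈ S}) i := by
  classical
  intro m
  induction m with
  | zero =>
    intro F S hF hFS hn i hi
    have himg : (F.image rk).card = F.card := Finset.card_image_of_injOn (injOn_rk hG.rk_lt hF)
    have hun : F.image rk ∪ S = Finset.univ := by
      apply Finset.eq_univ_of_card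
      rw [Finset.card_union_of_disjoint, himg, Fintype.card_fin]
      · omega
      · rw [Finset.disjoint_left]
        intro c hc
        obtain ⟨u, hu, rfl⟩ := Finset.mem_image.1 hc
        exact hFS u hu
    have hset : lk (Pool.Agent.W907.SM.cmp r) F ∩ {v | rk v ∈ S} = lk (Pool.Agent.W907.SM.cmp r) F := by
      rw [Set.inter_eq_left]
      intro v hv
      have h1 : rk v ∈ F.image rk ∪ S := by rw [hun]; exact Finset.mem_univ _
      rcases Finset.mem_union.1 h1 with h2 | h2
      · obtain ⟨u, hu, hu2⟩ := Finset.mem_image.1 h2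
        exact absurd hu2.symm (rk_ne hG.rk_lt (hv u hu))
      · exact h2
    rw [hset]
    apply ex_of_beta
    rw [hG.sphere F hF i, if_neg (by omega)]
  | succ m ih =>
    intro F S hF hFS hn i hi
    -- a missing rank
    obtain ⟨s, hsF, hsS⟩ : ∃ s : Fin n, s ∉ F.image rk ∧ s ∉ S := by
      by_contra hno
      have hun : F.image rk ∪ S = Finset.univ := by
        rw [Finset.eq_univ_iff_forall]
        intro c
        rw [Finset.mem_union]
        by_contra h
        exact hno ⟨c, fun h1 => h (Or.inl h1), fun h1 => h (Or.inr h1)⟩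
      have h1 := Finset.card_union_le (F.image rk) S
      have h2 : (F.image rk).card ≤ F.card := Finset.card_image_le
      rw [hun, Finset.card_univ, Fintype.card_fin] at h1
      omega
    have h1 := ih F (insert s S) hF (by
      intro u hu h2
      rcases Finset.mem_insert.1 h2 with h3 | h3
      · exact hsF (Finset.mem_image.2 ⟨u, hu, h3⟩)
      · exact hFS u hu h3) (by rw [Finset.card_insert_of_notMem hsS]; omega) i (by
      rw [Finset.card_insert_of_notMem hsS]; omega)
    -- deletion of the vertices of rank `s`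
    have h2 : ∀ E : Finset V, (∀ σ ∈ E, σ ∈ lk (Pool.Agent.W907.SM.cmp r) F ∧ rk σ = s) →
        EX (Pool.Agent.W907.SM.cmp r) rk (∅ : Set (Fin n)) τ ((lk (Pool.Agent.W907.SM.cmp r) F ∩ {v | rk v ∈ S}) ∪ (E : Set V)) i →
        EX (Pool.Agent.W907.SM.cmp r) rk (∅ : Set (Fin n)) τ (lk (Pool.Agent.W907.SM.cmp r) F ∩ {v | rk v ∈ S}) i := by
      intro E
      induction E using Finset.induction_on with
      | empty =>
        intro _ h
        rw [Finset.coe_empty, Set.union_empty] at h
        exact h
      | insert σ E hσE ihE =>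
        intro hE h
        refine ihE (fun x hx => hE x (Finset.mem_insert_of_mem hx)) ?_
        obtain ⟨hσ1, hσ2⟩ := hE σ (Finset.mem_insert_self σ E)
        refine LAdd.ldel V (Fin n) K (Pool.Agent.W907.SM.cmp r) rk ∅ τ _ σ i ?_ (by simp) ?_ ?_
        · rintro (h3 | h3)
          · have h4 : rk σ ∈ S := h3.2
            rw [hσ2] at h4
            exact hsS h4
          · exact hσE (Finset.mem_coe.1 h3)
        · rw [Finset.coe_insert, Set.union_insert] at h
          exact h
        · have h3 : ((lk (Pool.Agent.W907.SM.cmp r) F ∩ {v | rk v ∈ S}) ∪ (E : Set V)) ∩ (Pool.Agent.W907.SM.cmp r).neighborSet σ =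
              lk (Pool.Agent.W907.SM.cmp r) (insert σ F) ∩ {v | rk v ∈ S} := by
            ext v
            constructor
            · rintro ⟨h4, h5⟩
              rcases h4 with h4 | h4
              · refine ⟨fun u hu => ?_, h4.2⟩
                rcases Finset.mem_insert.1 hu with rfl | hu
                · exact SimpleGraph.Adj.symm h5
                · exact h4.1 u hu
              · exfalso
                have h6 := (hE v (Finset.mem_insert_of_mem (Finset.mem_coe.1 h4))).2
                exact rk_ne hG.rk_lt h5 (hσ2.trans h6.symm)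
            · rintro ⟨h4, h5⟩
              refine ⟨Or.inl ⟨fun u hu => h4 u (Finset.mem_insert_of_mem hu), h5⟩, ?_⟩
              exact (h4 σ (Finset.mem_insert_self σ F)).symm
          rw [h3]
          have hσF : σ ∉ F := fun h => (Pool.Agent.W907.SM.cmp r).loopless.irrefl σ (hσ1 σ h)
          refine ih (insert σ F) S ?_ ?_ ?_ i hi
          · intro a ha b hb hab
            rw [Finset.mem_coe, Finset.mem_insert] at ha hb
            rcases ha with rfl | ha
            · rcases hb with rfl | hb
              · exact absurd rfl hab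
              · exact hσ1 b hb
            · rcases hb with rfl | hb
              · exact (hσ1 a ha).symm
              · exact hF ha hb hab
          · intro u hu
            rcases Finset.mem_insert.1 hu with rfl | hu
            · rw [hσ2]; exact hsS
            · exact hFS u hu
          · rw [Finset.card_insert_of_notMem hσF]; omega
    refine h2 (Finset.univ.filter (fun σ => σ ∈ lk (Pool.Agent.W907.SM.cmp r) F ∧ rk σ = s))
      (fun σ hσ => (Finset.mem_filter.1 hσ).2) ?_
    have h3 : (lk (Pool.Agent.W907.SM.cmp r) F ∩ {v | rk v ∈ S}) ∪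
        ((Finset.univ.filter (fun σ => σ ∈ lk (Pool.Agent.W907.SM.cmp r) F ∧ rk σ = s) : Finset V) : Set V) =
        lk (Pool.Agent.W907.SM.cmp r) F ∩ {v | rk v ∈ insert s S} := by
      ext v
      simp only [Set.mem_union, Set.mem_inter_iff, Set.mem_ofPred_eq, Finset.coe_filter,
        Finset.mem_univ, true_and, Finset.mem_insert]
      tauto
    rw [h3]
    exact h1

end

theorem v0 : M_V0 := by
  intro n V K _ _ _ _ r rk τ hG F S hF _ _ hFS i hi
  have hD : DblF n 0 = ∅ := by
    unfold DblF
    rw [Finset.filter_eq_empty_iff]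
    intro c _ h
    omega
  rw [hD, Finset.coe_empty, Finset.empty_union]
  have himg : (F.image rk).card = F.card := Finset.card_image_of_injOn (injOn_rk hG.rk_lt hF)
  have hle : F.card + S.card ≤ n := by
    rw [← himg, ← Finset.card_union_of_disjoint]
    · exact (Finset.card_le_univ _).trans (by simp)
    · rw [Finset.disjoint_left]
      intro c hc
      obtain ⟨u, hu, rfl⟩ := Finset.mem_image.1 hc
      exact hFS u hu
  exact main hG τ (n - F.card - S.card) F S hF hFS (by omega) i (by omega)

end Pool.Agent.W215.SM.VZero
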