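import Pool.Agent.H7.L.W907_SM_Stmts

/-!
Project SM (helper907), part T1: generic exactness in characteristic two gives an integral polynomial
killing the homology of all line complexes.
-/

set_option autoImplicit false

namespace Pool.Agent.W977.SM.T1

open Pool.Agent.W907.SG Pool.Agent.W907.SM
open scoped Matrix

/-! ### linear algebra over a field -/

theorem sect {E A B : Type} [Field E] [AddCommGroup A] [Module E A] [AddCommGroup B] [Module E B]
    (g : A →ₗ[E] B) : ∃ s : B →ₗ[E] A, ∀ x, g (s (g x)) = g x := by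
  obtain ⟨s, hs⟩ := g.rangeRestrict.exists_rightInverse_of_surjective g.range_rangeRestrict
  obtain ⟨s', hs'⟩ := s.exists_extend
  refine ⟨s', fun x => ?_⟩
  have h1 : s' (g x) = s (g.rangeRestrict x) := by
    have := LinearMap.congr_fun hs' (g.rangeRestrict x)
    exact this
  rw [h1]
  have h2 := LinearMap.congr_fun hs (g.rangeRestrict x)
  exact congrArg Subtype.val h2

theorem contr {E M : Type} [Field E] [AddCommGroup M] [Module E M] (p q d : M →ₗ[E] M)
    (hp : ∀ x, p (p x) = p x) (_hq : ∀ x, q (q x) = q x)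
    (hex : ∀ z, p z = z → d z = 0 → ∃ y, q y = y ∧ d y = z) :
    ∃ P Q : M →ₗ[E] M, ∀ x, p x = x → d (q (P x)) + Q (d x) = x := by
  obtain ⟨s1, h1⟩ := sect (d ∘ₗ p)
  obtain ⟨s2, h2⟩ := sect (d ∘ₗ q)
  refine ⟨s2 ∘ₗ (LinearMap.id - p ∘ₗ s1 ∘ₗ d), p ∘ₗ s1, fun x hx => ?_⟩
  have h3 : d (p (s1 (d x))) = d x := by
    have := h1 x
    simp only [LinearMap.comp_apply, hx] at this
    exact this
  have e1 : p (x - p (s1 (d x))) = x - p (s1 (d x)) := by rw [map_sub, hx, hp]
  have e2 : d (x - p (s1 (d x))) = 0 := by rw [map_sub, h3, sub_self]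
  obtain ⟨y, hy, hdy⟩ := hex _ e1 e2
  have h4 : d (q (s2 (x - p (s1 (d x))))) = x - p (s1 (d x)) := by
    have := h2 y
    simp only [LinearMap.comp_apply, hy, hdy] at this
    exact this
  simp only [LinearMap.comp_apply, LinearMap.sub_apply, LinearMap.id_apply]
  rw [h4]
  abel

/-! ### coordinates -/

section Coord

variable {V C : Type} [Fintype V] [LinearOrder V] [Fintype C] [DecidableEq C]

/-- the index set of the coordinates -/
abbrev NN (V C : Type) : Type := Finset V × (C → Bool)

/-- clear the colours of `T` -/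
def cl (col : V → C) (T : Finset V) (ε : C → Bool) : C → Bool :=
  fun c => if ∃ t ∈ T, col t = c then false else ε c

omit [Fintype V] [LinearOrder V] [Fintype C] in
theorem cl_update (col : V → C) (T : Finset V) (ε : C → Bool) (t : V) (ht : t ∈ T) (b : Bool) :
    cl col T (Function.update ε (col t) b) = cl col T ε := by
  funext c
  unfold cl
  by_cases h : ∃ t ∈ T, col t = c
  · rw [if_pos h, if_pos h]
  · rw [if_neg h, if_neg h]
    rw [Function.update_of_ne]
    intro h'
    exact h ⟨t, ht, h'.symm⟩

omit [Fintype V] [LinearOrder V] [Fintype C] in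
theorem cl_cl (col : V → C) (T : Finset V) (ε : C → Bool) : cl col T (cl col T ε) = cl col T ε := by
  funext c
  unfold cl
  split_ifs <;> rfl

open Classical in
/-- the projection onto the line chains -/
noncomputable def pf {R : Type} [CommRing R] (G : SimpleGraph V) (col : V → C) (τ : V → R) (i : ℕ) :
    (NN V C → R) →ₗ[R] (NN V C → R) where
  toFun x := fun p => if G.IsClique (p.1 : Set V) ∧ p.1.card = i then
    (∏ t ∈ p.1, if p.2 (col t) then τ t else 1) * x (p.1, cl col p.1 p.2) else 0
  map_add' x y := by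
    funext p
    simp only [Pi.add_apply]
    split_ifs
    · ring
    · ring
  map_smul' a x := by
    funext p
    simp only [Pi.smul_apply, smul_eq_mul, RingHom.id_apply]
    split_ifs
    · ring
    · ring

open Classical in
omit [Fintype V] [Fintype C] in
theorem pf_apply {R : Type} [CommRing R] (G : SimpleGraph V) (col : V → C) (τ : V → R) (i : ℕ)
    (x : NN V C → R) (p : NN V C) : pf G col τ i x p =
    if G.IsClique (p.1 : Set V) ∧ p.1.card = i then
    (∏ t ∈ p.1, if p.2 (col t) then τ t else 1) * x (p.1, cl col p.1 p.2) else 0 := by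
  unfold pf
  simp only [LinearMap.coe_mk, AddHom.coe_mk]

omit [Fintype V] [Fintype C] in
theorem pf_mem {R : Type} [CommRing R] (G : SimpleGraph V) (col : V → C) (τ : V → R) (i : ℕ)
    (hcol : ∀ u w, G.Adj u w → col u ≠ col w) (x : NN V C → R) :
    IsLC G col Set.univ τ Set.univ i (fun T ε => pf G col τ i x (T, ε)) where
  supp := by
    intro T hT
    funext ε
    rw [pf_apply, if_neg]
    · rfl
    · rintro ⟨h1, h2⟩
      exact hT ⟨h1, Set.subset_univ _, h2⟩
  line := by
    intro T t ht _ ε
    rw [pf_apply, pf_apply]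
    by_cases h : G.IsClique (T : Set V) ∧ T.card = i
    · rw [if_pos h, if_pos h]
      simp only [cl_update col T ε t ht]
      rw [← Finset.mul_prod_erase T _ ht, ← Finset.mul_prod_erase T _ ht]
      simp only [Function.update_self, if_true, if_false, Bool.false_eq_true]
      have h1 : ∀ b : Bool, ∏ s ∈ T.erase t, (if Function.update ε (col t) b (col s) = true then
          τ s else 1) = ∏ s ∈ T.erase t, (if ε (col s) = true then τ s else 1) := by
        intro b
        refine Finset.prod_congr rfl fun s hs => ?_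
        rw [Finset.mem_erase] at hs
        have : col s ≠ col t := hcol s t (h.1 hs.2 ht hs.1)
        rw [Function.update_of_ne this]
      rw [h1, h1]
      ring
    · rw [if_neg h, if_neg h, mul_zero]

omit [Fintype V] [Fintype C] in
theorem pf_eq {R : Type} [CommRing R] (G : SimpleGraph V) (col : V → C) (τ : V → R) (i : ℕ)
    (hcol : ∀ u w, G.Adj u w → col u ≠ col w) (c : Finset V → (C → Bool) → R)
    (hc : IsLC G col Set.univ τ Set.univ i c) :
    pf G col τ i (fun p => c p.1 p.2) = fun p => c p.1 p.2 := by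
  classical
  funext ⟨T, ε⟩
  rw [pf_apply]
  by_cases h : G.IsClique (T : Set V) ∧ T.card = i
  · rw [if_pos h]
    have key : ∀ S : Finset V, S ⊆ T →
        (∏ t ∈ S, if ε (col t) then τ t else 1) * c T (cl col S ε) = c T ε := by
      intro S
      induction S using Finset.induction_on with
      | empty =>
        intro _
        have : cl col ∅ ε = ε := by
          funext c
          unfold cl
          simp
        rw [this]
        simp
      | insert s S hs ih =>
        intro hST
        have hsT : s ∈ T := hST (Finset.mem_insert_self _ _)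
        have hST' : S ⊆ T := fun x hx => hST (Finset.mem_insert_of_mem hx)
        have hne : ∀ t ∈ S, col t ≠ col s := by
          intro t ht
          have : t ≠ s := fun e => hs (e ▸ ht)
          exact hcol t s (h.1 (hST' ht) hsT this)
        have h1 : cl col (insert s S) ε = Function.update (cl col S ε) (col s) false := by
          funext c
          by_cases hcs : c = col s
          · subst hcs
            rw [Function.update_self]
            unfold cl
            rw [if_pos ⟨s, Finset.mem_insert_self _ _, rfl⟩]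
          · rw [Function.update_of_ne hcs]
            unfold cl
            have : (∃ t ∈ insert s S, col t = c) ↔ ∃ t ∈ S, col t = c := by
              constructor
              · rintro ⟨t, ht, rfl⟩
                rw [Finset.mem_insert] at ht
                rcases ht with rfl | ht
                · exact absurd rfl hcs
                · exact ⟨t, ht, rfl⟩
              · rintro ⟨t, ht, rfl⟩
                exact ⟨t, Finset.mem_insert_of_mem ht, rfl⟩
            simp only [this]
        have h2 : cl col S ε (col s) = ε (col s) := by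
          unfold cl
          rw [if_neg]
          rintro ⟨t, ht, h'⟩
          exact hne t ht h'
        have h3 : c T (cl col S ε) = (if ε (col s) then τ s else 1) * c T (cl col (insert s S) ε) := by
          rw [h1]
          by_cases hb : ε (col s) = true
          · rw [if_pos hb, ← hc.line T s hsT (Set.mem_univ _) (cl col S ε)]
            congr 1
            rw [← hb, ← h2, Function.update_eq_self]
          · rw [if_neg hb, one_mul]
            congr 1
            have hb' : ε (col s) = false := by simpa using hb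
            rw [← hb', ← h2, Function.update_eq_self]
        rw [Finset.prod_insert hs, mul_assoc, mul_left_comm, ← h3]
        exact ih hST'
    exact key T (Finset.Subset.refl T)
  · rw [if_neg h]
    have := hc.supp T (fun h' => h ⟨h'.1, h'.2.2⟩)
    show 0 = c T ε
    rw [this]
    rfl

omit [Fintype V] [Fintype C] in
theorem pf_pf {R : Type} [CommRing R] (G : SimpleGraph V) (col : V → C) (τ : V → R) (i : ℕ)
    (hcol : ∀ u w, G.Adj u w → col u ≠ col w) (x : NN V C → R) :
    pf G col τ i (pf G col τ i x) = pf G col τ i x :=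
  pf_eq G col τ i hcol _ (pf_mem G col τ i hcol x)

/-- the boundary operator as a linear map -/
def df {R : Type} [CommRing R] : (NN V C → R) →ₗ[R] (NN V C → R) where
  toFun x := fun p => ∑ v ∈ p.1ᶜ, sg v p.1 • x (insert v p.1, p.2)
  map_add' x y := by
    funext p
    simp [Finset.sum_add_distrib]
  map_smul' a x := by
    funext p
    simp only [Pi.smul_apply, RingHom.id_apply, Finset.smul_sum]
    refine Finset.sum_congr rfl fun v _ => ?_
    exact smul_comm _ _ _

omit [Fintype C] [DecidableEq C] in
theorem df_apply {R : Type} [CommRing R] (x : NN V C → R) (p : NN V C) :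
    df x p = ∑ v ∈ p.1ᶜ, sg v p.1 • x (insert v p.1, p.2) := rfl

omit [Fintype C] [DecidableEq C] in
theorem df_eq {R : Type} [CommRing R] (c : Finset V → (C → Bool) → R) :
    df (fun p : NN V C => c p.1 p.2) = fun p => bdd c p.1 p.2 := by
  funext p
  rw [df_apply]
  unfold bdd
  rw [Finset.sum_apply]
  rfl

theorem bdd_bdd {M : Type} [AddCommGroup M] (c : Finset V → M) : bdd (bdd c) = 0 := by
  classical
  funext T
  show ∑ v ∈ Tᶜ, sg v T • bdd c (insert v T) = 0
  have h1 : ∀ v ∈ Tᶜ, sg v T • bdd c (insert v T)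
      = ∑ u ∈ Tᶜ.erase v, (sg v T * sg u (insert v T)) • c (insert u (insert v T)) := by
    intro v hv
    unfold bdd
    rw [Finset.smul_sum]
    have : (insert v T)ᶜ = Tᶜ.erase v := by
      ext u; simp
    rw [this]
    exact Finset.sum_congr rfl fun u _ => by rw [smul_smul]
  rw [Finset.sum_congr rfl h1]
  rw [Finset.sum_sigma']
  refine Finset.sum_involution (fun (x : Σ _ : V, V) _ => ⟨x.2, x.1⟩) ?_ ?_ ?_ ?_
  · rintro ⟨v, u⟩ h
    simp only [Finset.mem_sigma, Finset.mem_compl, Finset.mem_erase] at h
    obtain ⟨hv, huv, hu⟩ := h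
    simp only
    rw [Finset.insert_comm v u T, ← add_smul]
    have := sg_swap u v T huv hu hv
    have h0 : sg v T * sg u (insert v T) + sg u T * sg v (insert u T) = 0 := by
      rw [mul_comm (sg v T), this]; ring
    rw [h0, zero_smul]
  · rintro ⟨v, u⟩ h _ h3
    simp only [Finset.mem_sigma, Finset.mem_compl, Finset.mem_erase] at h
    simp only [Sigma.mk.injEq, heq_eq_eq] at h3
    exact h.2.1 h3.1
  · rintro ⟨v, u⟩ h
    simp only [Finset.mem_sigma, Finset.mem_compl, Finset.mem_erase] at h ⊢
    exact ⟨h.2.2, fun e => h.2.1 e.symm, h.1⟩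
  · rintro ⟨v, u⟩ _
    rfl

theorem bdd_LC {R : Type} [CommRing R] (G : SimpleGraph V) (col : V → C) (τ : V → R) (i : ℕ)
    (c : Finset V → (C → Bool) → R) (hc : IsLC G col Set.univ τ Set.univ (i + 1) c) :
    IsLC G col Set.univ τ Set.univ i (bdd c) where
  supp := by
    intro T hT
    unfold bdd
    refine Finset.sum_eq_zero fun v hv => ?_
    rw [hc.supp (insert v T), smul_zero]
    rintro ⟨h3, _, h5⟩
    apply hT
    refine ⟨h3.subset (by simp), Set.subset_univ _, ?_⟩
    rw [Finset.card_insert_of_notMem (by simpa using hv)] at h5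
    omega
  line := by
    intro T t ht _ ε
    unfold bdd
    rw [Finset.sum_apply, Finset.sum_apply, Finset.mul_sum]
    refine Finset.sum_congr rfl fun v _ => ?_
    simp only [Pi.smul_apply]
    rw [hc.line (insert v T) t (Finset.mem_insert_of_mem ht) (Set.mem_univ _) ε, mul_smul_comm]

omit [Fintype V] [Fintype C] in
theorem pf_nat {R S : Type} [CommRing R] [CommRing S] (φ : R →+* S) (G : SimpleGraph V)
    (col : V → C) (τ : V → R) (i : ℕ) (x : NN V C → R) (p : NN V C) :
    φ (pf G col τ i x p) = pf G col (fun v => φ (τ v)) i (fun p => φ (x p)) p := by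
  rw [pf_apply, pf_apply]
  split_ifs
  · rw [map_mul, map_prod]
    congr 1
    refine Finset.prod_congr rfl fun t _ => ?_
    split_ifs
    · rfl
    · exact map_one φ
  · exact map_zero φ

omit [Fintype C] [DecidableEq C] in
theorem df_nat {R S : Type} [CommRing R] [CommRing S] (φ : R →+* S)
    (x : NN V C → R) (p : NN V C) : φ (df x p) = df (fun p => φ (x p)) p := by
  rw [df_apply, df_apply, map_sum]
  exact Finset.sum_congr rfl fun v _ => map_zsmul φ _ _

/-- matrices -/
noncomputable def mP {R : Type} [CommRing R] (G : SimpleGraph V) (col : V → C) (τ : V → R) (i : ℕ) :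
    Matrix (NN V C) (NN V C) R := LinearMap.toMatrix' (pf G col τ i)

noncomputable def mD (V C R : Type) [Fintype V] [LinearOrder V] [Fintype C] [DecidableEq C]
    [CommRing R] : Matrix (NN V C) (NN V C) R := LinearMap.toMatrix' (df (V := V) (C := C) (R := R))

theorem mP_map {R S : Type} [CommRing R] [CommRing S] (φ : R →+* S) (G : SimpleGraph V)
    (col : V → C) (τ : V → R) (i : ℕ) :
    φ.mapMatrix (mP G col τ i) = mP G col (fun v => φ (τ v)) i := by
  ext p r
  simp only [RingHom.mapMatrix_apply, Matrix.map_apply, mP, LinearMap.toMatrix'_apply]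
  rw [pf_nat]
  have h0 : (fun p : NN V C => φ ((Pi.single r 1 : NN V C → R) p)) = Pi.single r 1 := by
    funext s
    by_cases h : s = r
    · subst h; simp
    · simp [h]
  rw [h0]

theorem mD_map {R S : Type} [CommRing R] [CommRing S] (φ : R →+* S) :
    φ.mapMatrix (mD V C R) = mD V C S := by
  ext p r
  simp only [RingHom.mapMatrix_apply, Matrix.map_apply, mD, LinearMap.toMatrix'_apply]
  rw [df_nat]
  have h0 : (fun p : NN V C => φ ((Pi.single r 1 : NN V C → R) p)) = Pi.single r 1 := by
    funext s
    by_cases h : s = r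
    · subst h; simp
    · simp [h]
  rw [h0]

theorem mP_mulVec {R : Type} [CommRing R] (G : SimpleGraph V) (col : V → C) (τ : V → R) (i : ℕ)
    (x : NN V C → R) : mP G col τ i *ᵥ x = pf G col τ i x := LinearMap.toMatrix'_mulVec _ _

theorem mD_mulVec {R : Type} [CommRing R] (x : NN V C → R) : mD V C R *ᵥ x = df x :=
  LinearMap.toMatrix'_mulVec _ _

/-- the matrix `Θ` -/
noncomputable def Th {R : Type} [CommRing R] (G : SimpleGraph V) (col : V → C) (τ : V → R) (i : ℕ)
    (P Q : Matrix (NN V C) (NN V C) R) (h : R) : Matrix (NN V C) (NN V C) R :=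
  (mD V C R * mP G col τ (i + 1) * P + Q * mD V C R) * mP G col τ i + h • (1 - mP G col τ i)

theorem Th_map {R S : Type} [CommRing R] [CommRing S] (φ : R →+* S) (G : SimpleGraph V)
    (col : V → C) (τ : V → R) (i : ℕ) (P Q : Matrix (NN V C) (NN V C) R) (h : R) :
    φ.mapMatrix (Th G col τ i P Q h) =
      Th G col (fun v => φ (τ v)) i (φ.mapMatrix P) (φ.mapMatrix Q) (φ h) := by
  unfold Th
  have h1 : φ.mapMatrix (h • (1 - mP G col τ i)) =
      φ h • (1 - mP G col (fun v => φ (τ v)) i) := by
    rw [← mP_map φ, ← map_one φ.mapMatrix, ← map_sub]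
    ext p r
    simp only [RingHom.mapMatrix_apply, Matrix.map_apply, Matrix.smul_apply, smul_eq_mul, map_mul]
  rw [map_add, h1, map_mul, map_add, map_mul, map_mul, map_mul, mD_map, mP_map, mP_map]

/-- `det Θ` kills the homology -/
theorem kill {R : Type} [CommRing R] (G : SimpleGraph V) (col : V → C) (τ : V → R) (i : ℕ)
    (hcol : ∀ u w, G.Adj u w → col u ≠ col w)
    (P Q : Matrix (NN V C) (NN V C) R) (h : R) (z : Finset V → (C → Bool) → R)
    (hz : IsLC G col Set.univ τ Set.univ i z) (hdz : bdd z = 0) :
    ∃ y : Finset V → (C → Bool) → R, IsLC G col Set.univ τ Set.univ (i + 1) y ∧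
      bdd y = fun T ε => (Th G col τ i P Q h).det * z T ε := by
  classical
  set M := Th G col τ i P Q h with hM
  -- cycles
  let Z : Submodule R (NN V C → R) :=
    { carrier := {x | pf G col τ i x = x ∧ df x = 0}
      add_mem' := by
        rintro x y ⟨h1, h2⟩ ⟨h3, h4⟩
        exact ⟨by rw [map_add, h1, h3], by rw [map_add, h2, h4, add_zero]⟩
      zero_mem' := ⟨map_zero _, map_zero _⟩
      smul_mem' := by
        rintro a x ⟨h1, h2⟩
        exact ⟨by rw [map_smul, h1], by rw [map_smul, h2, smul_zero]⟩ }
  have hZ : ∀ x, x ∈ Z ↔ pf G col τ i x = x ∧ df x = 0 := fun x => Iff.rfl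
  have hM1 : ∀ x ∈ Z, M *ᵥ x = df (pf G col τ (i + 1) (P *ᵥ x)) := by
    intro x hx
    rw [hZ] at hx
    rw [hM, Th, Matrix.add_mulVec, ← Matrix.mulVec_mulVec, mP_mulVec, hx.1, Matrix.add_mulVec,
      ← Matrix.mulVec_mulVec, ← Matrix.mulVec_mulVec, ← Matrix.mulVec_mulVec, mD_mulVec, mP_mulVec,
      mD_mulVec, hx.2, Matrix.mulVec_zero, Matrix.smul_mulVec, Matrix.sub_mulVec,
      Matrix.one_mulVec, mP_mulVec, hx.1, sub_self, smul_zero, add_zero, add_zero]
  have hM2 : ∀ x ∈ Z, M *ᵥ x ∈ Z := by
    intro x hx
    rw [hM1 x hx, hZ]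
    have h1 := pf_mem G col τ (i + 1) hcol (P *ᵥ x)
    have h2 := bdd_LC G col τ i _ h1
    have h3 := df_eq (fun T ε => pf G col τ (i + 1) (P *ᵥ x) (T, ε))
    have h4 : (fun p : NN V C => (fun T ε => pf G col τ (i + 1) (P *ᵥ x) (T, ε)) p.1 p.2) =
        pf G col τ (i + 1) (P *ᵥ x) := rfl
    rw [h4] at h3
    rw [h3]
    refine ⟨pf_eq G col τ i hcol _ h2, ?_⟩
    rw [df_eq, bdd_bdd]
    rfl
  -- the characteristic polynomial
  have hpoly : ∀ g : Polynomial R, ∀ x ∈ Z, (Polynomial.aeval M g) *ᵥ x ∈ Z := by
    intro g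
    induction g using Polynomial.induction_on' with
    | add g1 g2 h1 h2 =>
      intro x hx
      rw [map_add, Matrix.add_mulVec]
      exact Z.add_mem (h1 x hx) (h2 x hx)
    | monomial n a =>
      intro x hx
      rw [Polynomial.aeval_monomial, Algebra.algebraMap_eq_smul_one, smul_mul_assoc, one_mul,
        Matrix.smul_mulVec]
      refine Z.smul_mem _ ?_
      induction n with
      | zero => rw [pow_zero, Matrix.one_mulVec]; exact hx
      | succ n ih =>
        rw [pow_succ', ← Matrix.mulVec_mulVec]
        exact hM2 _ ih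
  have hzZ : (fun p : NN V C => z p.1 p.2) ∈ Z := by
    rw [hZ]
    refine ⟨pf_eq G col τ i hcol z hz, ?_⟩
    rw [df_eq, hdz]
    rfl
  set zz : NN V C → R := fun p => z p.1 p.2 with hzz
  have hch := Matrix.aeval_self_charpoly M
  rw [← Polynomial.divX_mul_X_add M.charpoly, map_add, map_mul, Polynomial.aeval_X,
    Polynomial.aeval_C] at hch
  have hch2 := congrArg (fun A : Matrix (NN V C) (NN V C) R => A *ᵥ zz) hch
  simp only [Matrix.add_mulVec, Matrix.zero_mulVec] at hch2
  have hcomm : Polynomial.aeval M M.charpoly.divX * M = M * Polynomial.aeval M M.charpoly.divX := by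
    have h1 : Commute (Polynomial.aeval M M.charpoly.divX) M := by
      have h3 := map_mul (Polynomial.aeval M) M.charpoly.divX Polynomial.X
      have h2 := map_mul (Polynomial.aeval M) Polynomial.X M.charpoly.divX
      rw [Polynomial.aeval_X] at h3 h2
      rw [mul_comm M.charpoly.divX] at h3
      exact (h3.symm.trans h2)
    exact h1
  rw [hcomm, ← Matrix.mulVec_mulVec, Algebra.algebraMap_eq_smul_one, Matrix.smul_mulVec,
    Matrix.one_mulVec] at hch2
  set w := Polynomial.aeval M M.charpoly.divX *ᵥ zz with hw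
  have hwZ : w ∈ Z := hpoly _ zz hzZ
  set s : R := -(-1) ^ Fintype.card (NN V C) with hs
  refine ⟨fun T ε => pf G col τ (i + 1) (P *ᵥ (s • w)) (T, ε),
    pf_mem G col τ (i + 1) hcol _, ?_⟩
  have h3 := df_eq (fun T ε => pf G col τ (i + 1) (P *ᵥ (s • w)) (T, ε))
  have h4 : (fun p : NN V C => (fun T ε => pf G col τ (i + 1) (P *ᵥ (s • w)) (T, ε)) p.1 p.2) =
      pf G col τ (i + 1) (P *ᵥ (s • w)) := rfl
  rw [h4, ← hM1 _ (Z.smul_mem _ hwZ)] at h3
  have h5 : M *ᵥ (s • w) = fun p => M.det * zz p := by
    rw [Matrix.mulVec_smul]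
    have h6 : M *ᵥ w = -(M.charpoly.coeff 0 • zz) := eq_neg_of_add_eq_zero_left hch2
    rw [h6, Matrix.det_eq_sign_charpoly_coeff]
    funext p
    simp only [Pi.smul_apply, Pi.neg_apply, smul_eq_mul, hs]
    ring
  rw [h5] at h3
  funext T ε
  have := congrFun h3 (T, ε)
  exact this.symm

end Coord

theorem main : M_T1 := by
  intro V C _ _ _ _ G col i hcol hex
  classical
  set A := MvPolynomial V (ZMod 2) with hA
  set E := FractionRing A with hE
  set τ : V → E := fun v => algebraMap A E (MvPolynomial.X v) with hτ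
  -- contraction over the fraction field
  obtain ⟨P, Q, hPQ⟩ := contr (pf G col τ i) (pf G col τ (i + 1)) (df (V := V) (C := C) (R := E))
    (pf_pf G col τ i hcol) (pf_pf G col τ (i + 1) hcol) (by
      intro z hz hdz
      have h1 := pf_mem G col τ i hcol z
      rw [hz] at h1
      obtain ⟨y, hy, hdy⟩ := hex (fun T ε => z (T, ε)) h1 (by
        have := df_eq (fun T ε => z (T, ε))
        have h4 : (fun p : NN V C => (fun T ε => z (T, ε)) p.1 p.2) = z := rfl
        rw [h4, hdz] at this
        funext T ε
        exact (congrFun this (T, ε)).symm)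
      refine ⟨fun p => y p.1 p.2, pf_eq G col τ (i + 1) hcol y hy, ?_⟩
      rw [df_eq, hdy])
  -- common denominator
  obtain ⟨b, hb⟩ := IsLocalization.exist_integer_multiples_of_finite (nonZeroDivisors A)
    (S := E) (fun x : Bool × NN V C × NN V C =>
      if x.1 then LinearMap.toMatrix' P x.2.1 x.2.2 else LinearMap.toMatrix' Q x.2.1 x.2.2)
  choose c hc using hb
  set P1 : Matrix (NN V C) (NN V C) A := Matrix.of fun p r => c (true, p, r) with hP1
  set Q1 : Matrix (NN V C) (NN V C) A := Matrix.of fun p r => c (false, p, r) with hQ1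
  have hP1' : (algebraMap A E).mapMatrix P1 = (algebraMap A E (b : A)) • LinearMap.toMatrix' P := by
    refine Matrix.ext fun p r => ?_
    have := hc (true, p, r)
    simp only [if_true] at this
    rw [RingHom.mapMatrix_apply, Matrix.map_apply, Matrix.smul_apply, smul_eq_mul,
      ← Algebra.smul_def]
    exact this
  have hQ1' : (algebraMap A E).mapMatrix Q1 = (algebraMap A E (b : A)) • LinearMap.toMatrix' Q := by
    refine Matrix.ext fun p r => ?_
    have := hc (false, p, r)
    simp only [Bool.false_eq_true, if_false] at this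
    rw [RingHom.mapMatrix_apply, Matrix.map_apply, Matrix.smul_apply, smul_eq_mul,
      ← Algebra.smul_def]
    exact this
  -- lifts to the integers
  set φ : MvPolynomial V ℤ →+* A := MvPolynomial.map (Int.castRingHom (ZMod 2)) with hφ
  have hsurj : Function.Surjective φ :=
    MvPolynomial.map_surjective _ (ZMod.intCast_surjective)
  choose lft hlft using hsurj
  obtain ⟨PL, hPL⟩ : ∃ PL : Matrix (NN V C) (NN V C) (MvPolynomial V ℤ),
      φ.mapMatrix PL = P1 :=
    ⟨Matrix.of fun p r => lft (P1 p r), Matrix.ext fun p r => hlft _⟩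
  obtain ⟨QL, hQL⟩ : ∃ QL : Matrix (NN V C) (NN V C) (MvPolynomial V ℤ),
      φ.mapMatrix QL = Q1 :=
    ⟨Matrix.of fun p r => lft (Q1 p r), Matrix.ext fun p r => hlft _⟩
  set M := Th G col (fun v => (MvPolynomial.X v : MvPolynomial V ℤ)) i
    PL QL (lft (b : A)) with hM
  have hME : ((algebraMap A E).comp φ).mapMatrix M = (algebraMap A E (b : A)) • 1 := by
    have h1 : ((algebraMap A E).comp φ).mapMatrix M =
        (algebraMap A E).mapMatrix (φ.mapMatrix M) := by
      refine Matrix.ext fun p r => ?_
      rfl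
    rw [h1, hM, Th_map, Th_map, hPL, hQL, hP1', hQ1', hlft]
    have h2 : (fun v => (algebraMap A E) (φ (MvPolynomial.X v))) = τ := by
      funext v
      rw [hφ, MvPolynomial.map_X]
    rw [h2]
    set β := algebraMap A E (b : A) with hβ
    have h3 : (mD V C E * mP G col τ (i + 1) * LinearMap.toMatrix' P +
        LinearMap.toMatrix' Q * mD V C E) * mP G col τ i = mP G col τ i := by
      apply Matrix.mulVec_injective
      funext x
      rw [← Matrix.mulVec_mulVec, mP_mulVec, Matrix.add_mulVec, ← Matrix.mulVec_mulVec,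
        ← Matrix.mulVec_mulVec, ← Matrix.mulVec_mulVec, mD_mulVec, mD_mulVec, mP_mulVec,
        LinearMap.toMatrix'_mulVec, LinearMap.toMatrix'_mulVec]
      exact hPQ _ (pf_pf G col τ i hcol x)
    unfold Th
    have h4 : (mD V C E * mP G col τ (i + 1) * (β • LinearMap.toMatrix' P) +
        (β • LinearMap.toMatrix' Q) * mD V C E) * mP G col τ i = β • mP G col τ i := by
      rw [Matrix.mul_smul, Matrix.smul_mul, ← smul_add, Matrix.smul_mul, h3]
    rw [h4, ← smul_add]
    congr 1
    abel
  refine ⟨M.det, ?_, ?_⟩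
  · intro h0
    have h1 := RingHom.map_det ((algebraMap A E).comp φ) M
    rw [h0, map_zero, hME, Matrix.det_smul, Matrix.det_one, mul_one] at h1
    have h2 : algebraMap A E (b : A) ≠ 0 := by
      intro h3
      have h4 : (b : A) = 0 := by
        apply IsFractionRing.injective A E
        rw [h3, map_zero]
      exact nonZeroDivisors.coe_ne_zero b h4
    exact pow_ne_zero _ h2 h1.symm
  · intro R _ ρ z hz hdz
    have h1 := RingHom.map_det (MvPolynomial.aeval ρ : MvPolynomial V ℤ →ₐ[ℤ] R).toRingHom M
    have h2 : (fun v => (MvPolynomial.aeval ρ : MvPolynomial V ℤ →ₐ[ℤ] R).toRingHom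
        (MvPolynomial.X v)) = ρ := by
      funext v
      exact MvPolynomial.aeval_X _ _
    rw [hM, Th_map, h2] at h1
    obtain ⟨y, hy, hdy⟩ := kill G col ρ i hcol _ _ _ z hz hdz
    refine ⟨y, hy, ?_⟩
    rw [hdy, ← h1]
    rfl

end Pool.Agent.W977.SM.T1
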