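import Pool.Agent.H7.L.W907_SG_All
import Pool.Agent.H7.L.W907_SM_MainB
import Pool.Agent.H7.L.W907_SM_GorBase
import Pool.Agent.H7.L.W215_SM_LADD
import Pool.Agent.H7.L.W907_SM_V0
import Pool.Agent.H7.L.W346_SM_VSTEP
import Pool.Agent.H7.L.W578_SM_KEY
import Pool.Agent.H7.L.W85_SM_CStep
import Pool.Agent.H7.L.W907_SM_Ext
import Pool.Agent.H7.L.W391_SM_Thin
import Pool.Agent.H7.L.W240_SM_ALG
import Pool.Agent.H7.L.W977_SM_T1
import Pool.Agent.H7.L.W398_SM_T3
import Pool.Agent.H7.L.W705_SM_T4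
import Pool.Agent.H7.L.W378_SM_T6
import Pool.Agent.H7.L.W111_SM_Odd
import Pool.Agent.H7.L.W907_SM_Intg
import Pool.Agent.H7.L.W907_SM_Keyi
import Pool.Agent.H7.L.W479_SM_JT
import Pool.Agent.H7.L.W816_SM_Abv
import Pool.Agent.H7.L.W657_SM_DESC
import Pool.Agent.H7.L.W597_SM_EVN
import Pool.Agent.H7.L.W327_SM_EULF
import Pool.Agent.H7.L.W723_SM_L2EUL

set_option autoImplicit false

namespace Pool.Agent.W907.SM

open Pool.Agent.W907.SG

theorem surj : M_SURJ := Pool.Agent.W215.SM.LAdd.surj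
theorem ladd : M_LADD := Pool.Agent.W215.SM.LAdd.ladd
theorem ldel : M_LDEL := Pool.Agent.W215.SM.LAdd.ldel
theorem joinT : M_JOIN := Pool.Agent.W215.SM.LAdd.join
theorem v0 : M_V0 := Pool.Agent.W215.SM.VZero.v0
theorem vstep : M_VSTEP := Pool.Agent.W346.SM.vstep surj ladd joinT
theorem key : M_KEY := Pool.Agent.W578.SM.key
theorem ext : M_EXT := Pool.Agent.W215.SM.ext
theorem intT : M_INT := Pool.Agent.W215.SM.int
theorem subg : M_SUBG := Pool.Agent.W215.SM.subg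
theorem thin : M_THIN := Pool.Agent.W391.SM.Thin.main ext intT
theorem t2 : M_T2 := Pool.Agent.W240.SM.t2
theorem ind2 : M_IND2 := Pool.Agent.W240.SM.ind2
theorem ltr : M_LTR := Pool.Agent.W240.SM.ltr
theorem t1 : M_T1 := Pool.Agent.W977.SM.T1.main
theorem t3 : M_T3 := Pool.Agent.W398.SM.T3.main
theorem t4 : M_T4 := Pool.Agent.W705.SM.t4 sub linep
theorem t6 : M_T6 := Pool.Agent.W378.SM.t6
theorem odd : M_ODD := Pool.Agent.W111.SM.odd_of l2add Pool.Agent.W907.SG.ord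
theorem lkg : B_LKG := Pool.Agent.W349.SMB.lkg
theorem intg : B_INTG := Pool.Agent.W349.SMB.intg
theorem keyi : B_KEYI := Pool.Agent.W349.SMB.keyi
theorem jt : B_JT := Pool.Agent.W479.SM.jt
theorem desc : B_DESC := Pool.Agent.W657.SM.b_desc
theorem genind : B_GENIND := Pool.Agent.W657.SM.b_genind
theorem evn : B_EVN := Pool.Agent.W597.SM.evn lkg
theorem eulf : M_EULF := Pool.Agent.W327.SM.eulf ext intT
theorem l2eul : C_L2EUL := Pool.Agent.W723.SM.l2eul

end Pool.Agent.W907.SM
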