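import Pool.Agent.H7.L.W907_SM_Stmts2

set_option autoImplicit false

namespace Pool.Agent.W907.SM

open Pool.Agent.W907.SG

section
variable {n : ℕ} {V : Type}

theorem card_DblF_le (n j : ℕ) : (DblF n j).card ≤ j := by
  classical
  have h : (DblF n j).card ≤ (Finset.range j).card := by
    refine Finset.card_le_card_of_injOn (fun c => c.val / 2) ?_ ?_
    · intro c hc
      simp only [DblF, Finset.coe_filter, Set.mem_setOf_eq, Finset.mem_univ, true_and] at hc
      simp only [Finset.coe_range, Set.mem_Iio]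
      omega
    · intro c hc d hd hcd
      simp only [DblF, Finset.coe_filter, Set.mem_setOf_eq, Finset.mem_univ, true_and] at hc hd
      obtain ⟨⟨a, ha⟩, _⟩ := hc
      obtain ⟨⟨b, hb⟩, _⟩ := hd
      simp only at hcd
      apply Fin.ext
      omega
  simpa using h

theorem adj_cmp {r : V → V → Prop} {a b : V} : (cmp r).Adj a b ↔ a ≠ b ∧ (r a b ∨ r b a) :=
  SimpleGraph.fromRel_adj r a b

theorem rk_ne {r : V → V → Prop} {rk : V → Fin n} (hr : ∀ x y, r x y → rk x < rk y) (a b : V)
    (h : (cmp r).Adj a b) : rk a ≠ rk b := by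
  rw [adj_cmp] at h
  rcases h.2 with h | h
  · exact (hr _ _ h).ne
  · exact (hr _ _ h).ne'

/-- the set of `VV` for `F = ∅` or `{y}` -/
theorem vv_lower {K : Type} [Field K] [Fintype V] [LinearOrder V] {r : V → V → Prop} {rk : V → Fin n} {τ : V → K}
    (hr : ∀ x y, r x y → rk x < rk y) {k m : ℕ} (hV : VV n r rk τ k) (hm : 2 * k ≤ m) (N : Set V)
    (hN : IsN r rk m N) (S : Finset (Fin n)) (hS : ∀ s ∈ S, 2 * k ≤ (s : ℕ) ∧ (s : ℕ) < m) (i : ℕ)
    (hi : i < k + S.card) : EX (cmp r) rk (DblF n k : Set (Fin n)) τ (N ∩ {v | rk v ∈ DblF n k ∪ S}) i := by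
  rcases hN with ⟨rfl, rfl⟩ | ⟨y, rfl, rfl⟩
  · have h := hV ∅ S (by simp) (by simp) (fun s hs => (hS s hs).1) (by simp) i hi
    have e : lk (cmp r) (∅ : Finset V) = Set.univ := by
      ext v; simp [lk]
    rwa [e] at h
  · have h := hV {y} S (by simp) (by simpa using hm) (fun s hs => (hS s hs).1) ?_ i hi
    · have e : lk (cmp r) ({y} : Finset V) ∩ {v | rk v ∈ DblF n k ∪ S} = {v | r v y} ∩ {v | rk v ∈ DblF n k ∪ S} := by
        ext v
        simp only [lk, Finset.mem_singleton, forall_eq, Set.mem_inter_iff, Set.mem_setOf_eq]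
        constructor
        · rintro ⟨h1, h2⟩
          refine ⟨?_, h2⟩
          rw [adj_cmp] at h1
          rcases h1.2 with h3 | h3
          · exact h3
          · exfalso
            have h4 : (rk y : ℕ) < (rk v : ℕ) := hr _ _ h3
            rcases Finset.mem_union.1 h2 with h5 | h5
            · simp only [DblF, Finset.mem_filter, Finset.mem_univ, true_and] at h5
              omega
            · have := (hS _ h5).2
              omega
        · rintro ⟨h1, h2⟩
          refine ⟨?_, h2⟩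
          rw [adj_cmp]
          refine ⟨?_, Or.inl h1⟩
          rintro rfl
          exact lt_irrefl _ (hr _ _ h1)
      rwa [e] at h
    · intro u hu hu2
      rw [Finset.mem_singleton] at hu
      subst hu
      have := (hS _ hu2).2
      omega

theorem prim_of_vv (hCA : M_CONVA) {K : Type} [Field K] [CharP K 2] [Fintype V] [LinearOrder V] {r : V → V → Prop}
    {rk : V → Fin n} {τ : V → K} (hr : ∀ x y, r x y → rk x < rk y) {k m : ℕ} (hV : VV n r rk τ k)
    (hm : 2 * k + 2 ≤ m) (N : Set V) (hN : IsN r rk m N) (s : Fin n) (hs : (s : ℕ) = 2 * k + 1) :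
    PRIM r rk τ N (DblF n k) (RgF n (2 * k) m) s := by
  refine hCA n V K r rk τ N (DblF n k) (RgF n (2 * k) m) s hr ?_ ?_ ?_
  · rw [Finset.disjoint_left]
    intro c h1 h2
    simp only [DblF, RgF, Finset.mem_filter, Finset.mem_univ, true_and] at h1 h2
    omega
  · simp only [RgF, Finset.mem_filter, Finset.mem_univ, true_and]
    omega
  · intro i hi
    refine vv_lower hr hV (by omega) N hN _ ?_ i ?_
    · intro c hc
      simpa only [RgF, Finset.mem_filter, Finset.mem_univ, true_and] using hc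
    · have := card_DblF_le n k
      omega

/-- `V_j` for all `j` -/
theorem vv_all (hV0 : M_V0) (hVS : M_VSTEP) (hCA : M_CONVA) (hKey : M_KEY) (hCS : M_CSTEP) (hTh : M_THIN)
    {K : Type} [Field K] [CharP K 2] [Fintype V] [LinearOrder V] {r : V → V → Prop}
    {rk : V → Fin n} {τ : V → K} (hG : GorStar n r rk) (hI : Ind2 {v | Even (rk v : ℕ)} τ) :
    ∀ j, 2 * j ≤ n → (VV n r rk τ j ∧
      (∀ N : Set V, IsN r rk (2 * j + 1) N → ∀ x, TZ r rk τ N (DblF n (j + 1)) ∅ x → x = 0) ∧ CC n r rk τ j) := by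
  intro j
  induction j using Nat.strong_induction_on with
  | _ j ih =>
    intro hj
    have hV : VV n r rk τ j := by
      rcases j with _ | j
      · exact hV0 n V K r rk τ hG
      · have h := ih j (by omega) (by omega)
        exact hVS n V K r rk τ j hG.trans hG.rk_lt hj h.1 h.2.2
    have hK : ∀ N : Set V, IsN r rk (2 * j + 1) N → ∀ x, TZ r rk τ N (DblF n (j + 1)) ∅ x → x = 0 := by
      have hT := hTh n V r rk hG
      refine hKey n V K r rk τ j hG.trans hG.rk_lt hT.1 hT.2 hI ?_ ?_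
      · intro k hk N hN s hs
        exact prim_of_vv hCA hG.rk_lt (ih k hk (by omega)).1 le_rfl N hN s hs
      · intro k hk N hN s hs
        exact prim_of_vv hCA hG.rk_lt (ih k hk (by omega)).1 (by omega) N hN s hs
    exact ⟨hV, hK, hCS n V K r rk τ j hG hV hK⟩

/-- too many vertices for the number of even ranks -/
theorem card_even_le {r : V → V → Prop} {rk : V → Fin n} (hr : ∀ x y, r x y → rk x < rk y) (D : Finset (Fin n))
    (T : Finset V) (hT : (cmp r).IsClique (T : Set V)) (h : ∀ v ∈ T, rk v ∈ D) : T.card ≤ D.card := by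
  classical
  refine Finset.card_le_card_of_injOn rk (fun v hv => h v hv) ?_
  intro a ha b hb hab
  by_contra hne
  exact rk_ne hr a b (hT ha hb hne) hab

/-- generic exactness on the elements of even rank -/
theorem ex_even (hV0 : M_V0) (hVS : M_VSTEP) (hCA : M_CONVA) (hKey : M_KEY) (hCS : M_CSTEP) (hTh : M_THIN)
    {K : Type} [Field K] [CharP K 2] [Fintype V] [LinearOrder V] {r : V → V → Prop}
    {rk : V → Fin n} {τ : V → K} (hG : GorStar n r rk) (hI : Ind2 {v | Even (rk v : ℕ)} τ) (i : ℕ)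
    (hi : 2 * i ≠ n) :
    ∃ j, (∀ v, Even (rk v : ℕ) → rk v ∈ DblF n j) ∧
      EX (cmp r) rk (DblF n j : Set (Fin n)) τ {v | Even (rk v : ℕ)} i := by
  rcases Nat.even_or_odd' n with ⟨j, hj | hj⟩
  · refine ⟨j, ?_, ?_⟩
    · intro v hv
      simp only [DblF, Finset.mem_filter, Finset.mem_univ, true_and]
      exact ⟨hv, by omega⟩
    · rcases lt_or_ge i j with h | h
      · have h1 := vv_lower hG.rk_lt (vv_all hV0 hVS hCA hKey hCS hTh hG hI j (by omega)).1 (m := n) (by omega)
          Set.univ (Or.inl ⟨rfl, rfl⟩) ∅ (by simp) i (by simpa using h)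
        have e : (Set.univ : Set V) ∩ {v | rk v ∈ DblF n j ∪ ∅} = {v | Even (rk v : ℕ)} := by
          ext v
          simp only [DblF, Finset.union_empty, Finset.mem_filter, Finset.mem_univ, true_and, Set.univ_inter,
            Set.mem_setOf_eq, and_iff_left_iff_imp]
          intro _
          omega
        rwa [e] at h1
      · intro z hz _
        refine ⟨0, ⟨fun _ _ => rfl, fun _ _ _ _ _ => by simp⟩, ?_⟩
        have hz0 : z = 0 := by
          funext T
          refine hz.supp T ?_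
          rintro ⟨h1, h2, h3⟩
          have h4 := card_even_le hG.rk_lt (DblF n j) T h1 (fun v hv => by
            have := h2 hv
            simp only [Set.mem_setOf_eq] at this
            simp only [DblF, Finset.mem_filter, Finset.mem_univ, true_and]
            exact ⟨this, by omega⟩)
          have h5 := card_DblF_le n j
          omega
        rw [hz0]
        funext T
        simp [bdd]
  · refine ⟨j + 1, ?_, ?_⟩
    · intro v hv
      simp only [DblF, Finset.mem_filter, Finset.mem_univ, true_and]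
      exact ⟨hv, by omega⟩
    · have h1 := (vv_all hV0 hVS hCA hKey hCS hTh hG hI j (by omega)).2.2 Set.univ (Or.inl ⟨rfl, hj.symm⟩) i
      have e : (Set.univ : Set V) ∩ {v | rk v ∈ DblF n (j + 1)} = {v | Even (rk v : ℕ)} := by
        ext v
        simp only [DblF, Finset.mem_filter, Finset.mem_univ, true_and, Set.univ_inter,
          Set.mem_setOf_eq, and_iff_left_iff_imp]
        intro _
        omega
      rwa [e] at h1

end

/-- from generic exactness in characteristic 2 to `ℓ²`-vanishing -/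
theorem l2_of_ex (hT1 : M_T1) (hT2 : M_T2) (hT3 : M_T3) (hT4 : M_T4) (hT6 : M_T6) (V C : Type) [Fintype V]
    [LinearOrder V] [Fintype C] [DecidableEq C] (G : SimpleGraph V) (col : V → C) (i : ℕ)
    (hc : ∀ u w, G.Adj u w → col u ≠ col w)
    (h : EX G col Set.univ (fun v => algebraMap (MvPolynomial V (ZMod 2)) (FractionRing (MvPolynomial V (ZMod 2)))
      (MvPolynomial.X v)) Set.univ i) : L2Van G i := by
  obtain ⟨f, hf, hK⟩ := hT1 V C G col i hc h
  obtain ⟨p, hp, hp2, α, β, hne⟩ := hT2 V f hf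
  obtain ⟨B, hB⟩ := hT3 p V C G col i f α β hp2 hK hne
  refine hT6 p V G i hp2 fun N => ?_
  rcases Nat.eq_zero_or_pos B with h0 | h0
  · obtain ⟨X, h1, h2, P, hP⟩ := hT4 p V C G col i 1 B α β hp2 hc (hB 1)
    refine ⟨X, h1, h2, P, ?_⟩
    have : beta G (pull (ZMod p) P.a) Set.univ ∅ i = 0 := by
      rw [h0] at hP; omega
    rw [this]; simp
  · obtain ⟨X, h1, h2, P, hP⟩ := hT4 p V C G col i (B * N) B α β hp2 hc (hB _)
    refine ⟨X, h1, h2, P, ?_⟩
    rw [mul_assoc] at hP
    exact Nat.le_of_mul_le_mul_left hP h0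

theorem cmp_induce {V : Type} (r : V → V → Prop) (A : Set V) :
    cmp (fun a b : ↥A => r a.1 b.1) = (cmp r).induce A := by
  ext a b
  rw [adj_cmp]
  show _ ↔ (cmp r).Adj a.1 b.1
  rw [adj_cmp]
  constructor
  · rintro ⟨h1, h2⟩
    exact ⟨fun h => h1 (Subtype.ext h), h2⟩
  · rintro ⟨h1, h2⟩
    exact ⟨fun h => h1 (congrArg Subtype.val h), h2⟩

/-- the elements of even rank -/
theorem l2_even (hV0 : M_V0) (hVS : M_VSTEP) (hCA : M_CONVA) (hKey : M_KEY) (hCS : M_CSTEP) (hTh : M_THIN)
    (hT1 : M_T1) (hT2 : M_T2) (hT3 : M_T3) (hT4 : M_T4) (hT6 : M_T6) (hI2 : M_IND2) (hL : M_LTR)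
    {n : ℕ} {V : Type} [Fintype V] [LinearOrder V] {r : V → V → Prop}
    {rk : V → Fin n} (hG : GorStar n r rk) (i : ℕ) (hi : 2 * i ≠ n) [Fintype ↥{v | Even (rk v : ℕ)}] :
    L2Van ((cmp r).induce {v | Even (rk v : ℕ)}) i := by
  classical
  haveI : CharP (MvPolynomial ↥{v | Even (rk v : ℕ)} (ZMod 2)) 2 := inferInstance
  haveI : CharP (FractionRing (MvPolynomial ↥{v | Even (rk v : ℕ)} (ZMod 2))) 2 := inferInstance
  obtain ⟨j, hj, hE⟩ := ex_even (K := FractionRing (MvPolynomial ↥{v | Even (rk v : ℕ)} (ZMod 2)))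
    hV0 hVS hCA hKey hCS hTh hG (hI2 V {v | Even (rk v : ℕ)}) i hi
  have h1 := hL ↥{v | Even (rk v : ℕ)} V (Fin n) _ (cmp r) ((cmp r).induce {v | Even (rk v : ℕ)}) rk
    (DblF n j : Set (Fin n)) (gen {v | Even (rk v : ℕ)}) Subtype.val (fun a b h => h) (fun u u' => Iff.rfl)
    (fun u => hj _ u.2) i (by rwa [Subtype.range_coe])
  refine l2_of_ex hT1 hT2 hT3 hT4 hT6 ↥{v | Even (rk v : ℕ)} (Fin n) _ (fun u => rk u.1) i
    (fun u w h => rk_ne hG.rk_lt _ _ h) ?_
  have e : (fun u : ↥{v | Even (rk v : ℕ)} => gen {v | Even (rk v : ℕ)} u.1) = fun v =>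
      algebraMap (MvPolynomial ↥{v | Even (rk v : ℕ)} (ZMod 2))
        (FractionRing (MvPolynomial ↥{v | Even (rk v : ℕ)} (ZMod 2))) (MvPolynomial.X v) := by
    funext u
    rw [gen, dif_pos u.2]
  rwa [e] at h1

/-- Theorem M -/
theorem singer (hV0 : M_V0) (hVS : M_VSTEP) (hCA : M_CONVA) (hKey : M_KEY) (hCS : M_CSTEP) (hTh : M_THIN)
    (hT1 : M_T1) (hT2 : M_T2) (hT3 : M_T3) (hT4 : M_T4) (hT6 : M_T6) (hI2 : M_IND2) (hL : M_LTR)
    (hSub : M_SUBG) (hOdd : M_ODD) :
    ∀ (n : ℕ) (V : Type) [Fintype V] [LinearOrder V] (r : V → V → Prop) (rk : V → Fin n), GorStar n r rk →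
      ∀ i, 2 * i ≠ n → L2Van (cmp r) i := by
  intro n
  induction n using Nat.strong_induction_on with
  | _ n ih =>
    intro V _ _ r rk hG i hi
    refine hOdd n V r rk hG.trans hG.rk_lt ?_ i ?_
    · intro σ hσ _ i'
      have h1 := hSub n V r rk hG σ (fun v => ⟨(rk v.1 : ℕ), hG.rk_lt _ _ v.2⟩) (fun _ => rfl)
      have h2 := ih (rk σ : ℕ) (rk σ).2 ↥{v | r v σ} _ _ h1 i' (by
        obtain ⟨c, hc⟩ := hσ
        omega)
      rwa [cmp_induce] at h2
    · intro _
      exact l2_even hV0 hVS hCA hKey hCS hTh hT1 hT2 hT3 hT4 hT6 hI2 hL hG i hi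

end Pool.Agent.W907.SM
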