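import Pool.Agent.H7.L.R782_Bal_Key
import Pool.Agent.H7.L.W907_SM_All
import Pool.Agent.H7.L.W907_SM_Main

/-!
# Generic exactness in the top degrees for balanced complexes with vanishing obstruction
-/

set_option autoImplicit false
set_option linter.unusedSectionVars false

namespace Pool.Agent.R782.Bal

open Finset Pool.Agent.W555.KS Pool.Agent.W907.SG Pool.Agent.W907.SM

open Classical in
/-- the cliques of `G`, numbered by `e` -/
noncomputable def clF {V : Type} (G : SimpleGraph V) {n : ℕ} (e : V ≃ Fin n) : Finset (Finset (Fin n)) :=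
  univ.filter (fun σ => G.IsClique ((σ.map e.symm.toEmbedding : Finset V) : Set V))

theorem mem_clF {V : Type} {G : SimpleGraph V} {n : ℕ} {e : V ≃ Fin n} {σ : Finset (Fin n)} :
    σ ∈ clF G e ↔ G.IsClique ((σ.map e.symm.toEmbedding : Finset V) : Set V) := by
  simp [clF]

theorem clF_cx {V : Type} (G : SimpleGraph V) {n : ℕ} (e : V ≃ Fin n) : IsCx (clF G e) := by
  constructor
  · rw [mem_clF]; simp
  · intro σ hσ τ hτ
    rw [mem_clF] at hσ ⊢
    exact hσ.subset (by exact_mod_cast map_subset_map.mpr hτ)

/-- vanishing of the obstruction in degree `D` -/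
def Obs {V : Type} (G : SimpleGraph V) (D : ℕ) : Prop := ∀ (n : ℕ) (e : V ≃ Fin n), VK (clF G e) D

theorem exists_sorted {V : Type} [Fintype V] {m : ℕ} (col : V → Fin m) :
    ∃ e : V ≃ Fin (Fintype.card V), Monotone (fun v => col (e.symm v)) := by
  refine ⟨(Fintype.equivFin V).trans (Tuple.sort (fun v => col ((Fintype.equivFin V).symm v))).symm, ?_⟩
  exact Tuple.monotone_sort (fun v => col ((Fintype.equivFin V).symm v))

section

variable {V K : Type} [Fintype V] [LinearOrder V] [Field K] [CharP K 2] {m : ℕ}

theorem sg_smul {M : Type} [AddCommGroup M] [Module K M] (v : V) (T : Finset V) (a : M) :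
    sg v T • a = a := by
  rcases sg_eq_or v T with h | h
  · rw [h, one_smul]
  · rw [h, neg_smul, one_smul]
    have h2 : (2 : K) • a = 0 := by rw [CharTwo.two_eq_zero, zero_smul]
    rw [two_smul] at h2
    exact neg_eq_of_add_eq_zero_left h2

/-- colours of a clique -/
theorem col_inj {G : SimpleGraph V} {col : V → Fin m} (hc : ∀ u w, G.Adj u w → col u ≠ col w) {T : Finset V}
    (hT : G.IsClique (T : Set V)) : Set.InjOn col (T : Set V) := by
  intro a ha b hb hab
  by_contra hne
  exact hc a b (hT ha hb hne) hab

theorem col_surj {G : SimpleGraph V} {col : V → Fin m} (hc : ∀ u w, G.Adj u w → col u ≠ col w) {T : Finset V}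
    (hT : G.IsClique (T : Set V)) (h : T.card = m) (c : Fin m) : ∃ v ∈ T, col v = c := by
  have h1 : T.image col = univ := by
    rw [← card_eq_iff_eq_univ, card_image_of_injOn (col_inj hc hT), h, Fintype.card_fin]
  have h2 : c ∈ T.image col := h1 ▸ mem_univ c
  obtain ⟨v, hv, h3⟩ := mem_image.mp h2
  exact ⟨v, hv, h3⟩

/-- top cycles vanish -/
theorem top_zero {G : SimpleGraph V} {col : V → Fin m} (hc : ∀ u w, G.Adj u w → col u ≠ col w)
    (hO : Obs G (2 * m)) {τ : V → K} (hI : Ind2 Set.univ τ) {z : Finset V → (Fin m → Bool) → K}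
    (hz : IsLC G col Set.univ τ Set.univ m z) (hb : bdd z = 0) : z = 0 := by
  classical
  obtain ⟨e, he⟩ := exists_sorted col
  set x : Finset V → K := fun T => z T (fun _ => false) with hx
  have hsupp : ∀ T : Finset V, ¬ (G.IsClique (T : Set V) ∧ T.card = m) → z T = 0 := by
    intro T hT
    exact hz.supp T fun h => hT ⟨h.1, h.2.2⟩
  have hzn : ∀ T, x T ≠ 0 → G.IsClique (T : Set V) ∧ T.card = m := by
    intro T hT
    by_contra h
    apply hT
    rw [hx]
    simp only
    rw [hsupp T h]
    rfl
  -- cycle conditions on `V`
  have hbd : ∀ (T : Finset V) (ε : Fin m → Bool), ∑ v ∈ Tᶜ, z (insert v T) ε = 0 := by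
    intro T ε
    have h1 := congrFun (congrFun hb T) ε
    rw [bdd] at h1
    simp only [sg_smul (K := K), Finset.sum_apply, Pi.zero_apply] at h1
    exact h1
  have c1 : ∀ T : Finset V, ∑ v ∈ Tᶜ, x (insert v T) = 0 := fun T => hbd T _
  have c2 : ∀ T : Finset V, T.card + 1 = m → ∑ v ∈ Tᶜ, τ v * x (insert v T) = 0 := by
    intro T hT
    by_cases hex : ∃ v ∈ Tᶜ, G.IsClique ((insert v T : Finset V) : Set V)
    · obtain ⟨v0, hv0, hcl0⟩ := hex
      set c0 := col v0 with hc0
      have hcol : ∀ v ∈ Tᶜ, G.IsClique ((insert v T : Finset V) : Set V) → col v = c0 := by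
        intro v hv hcl
        rw [mem_compl] at hv hv0
        obtain ⟨w, hw, hwc⟩ := col_surj hc hcl (by rw [card_insert_of_notMem hv, hT]) c0
        rcases mem_insert.mp hw with h1 | h1
        · rw [← h1, hwc]
        · exfalso
          have h2 := col_inj hc hcl0 (mem_coe.mpr (mem_insert_of_mem h1)) (mem_coe.mpr (mem_insert_self v0 T))
            (by rw [hwc])
          rw [h2] at h1
          exact hv0 h1
      rw [← hbd T (Function.update (fun _ => false) c0 true)]
      refine sum_congr rfl fun v hv => ?_
      by_cases hcl : G.IsClique ((insert v T : Finset V) : Set V)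
      · have h1 := hz.line (insert v T) v (mem_insert_self v T) (Set.mem_univ _) (fun _ => false)
        rw [hcol v hv hcl] at h1
        rw [h1]
        have h2 : Function.update (fun _ : Fin m => false) c0 false = fun _ => false := by
          funext c
          by_cases h : c = c0
          · rw [h, Function.update_self]
          · rw [Function.update_of_ne h]
        rw [h2]
      · have h1 : z (insert v T) = 0 := hsupp _ fun h => hcl h.1
        simp only [hx, h1, Pi.zero_apply, mul_zero]
    · push Not at hex
      refine sum_eq_zero fun v hv => ?_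
      have h1 : z (insert v T) = 0 := hsupp _ fun h => hex v hv h.1
      simp only [hx, h1, Pi.zero_apply, mul_zero]
  -- transport
  set y : Finset (Fin (Fintype.card V)) → K := fun σ => x (σ.map e.symm.toEmbedding) with hy
  have hmap : ∀ (v : Fin (Fintype.card V)) (σ : Finset (Fin (Fintype.card V))),
      (insert v σ).map e.symm.toEmbedding = insert (e.symm v) (σ.map e.symm.toEmbedding) := by
    intro v σ
    rw [map_insert]
    rfl
  have hsum : ∀ (ρ : Finset (Fin (Fintype.card V))) (g : V → K),
      ∑ v ∈ ρᶜ, g (e.symm v) = ∑ w ∈ (ρ.map e.symm.toEmbedding)ᶜ, g w := by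
    intro ρ g
    refine sum_nbij (fun v => e.symm v) ?_ ?_ ?_ ?_
    · intro v hv
      rw [mem_compl] at hv ⊢
      intro h
      obtain ⟨w, hw, h2⟩ := mem_map.mp h
      exact hv (e.symm.injective h2 ▸ hw)
    · intro a _ b _ h
      exact e.symm.injective h
    · intro w hw
      rw [mem_coe, mem_compl] at hw
      refine ⟨e w, ?_, e.symm_apply_apply w⟩
      rw [mem_coe, mem_compl]
      intro h
      exact hw (mem_map.mpr ⟨e w, h, e.symm_apply_apply w⟩)
    · intro v _
      rfl
  have hkey := key_sum (K := K) (τ := fun v => τ (e.symm v)) (hO _ e) he (x := y) (by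
    intro σ hσ
    rw [mem_clF]
    exact (hzn _ hσ).1) (by
    intro σ hσ
    obtain ⟨h1, h2⟩ := hzn _ hσ
    have h3 := col_surj hc h1 h2
    choose p hp hpc using h3
    refine ⟨fun c => e (p c), ?_, ?_⟩
    · intro c
      simp only [Equiv.symm_apply_apply]
      exact hpc c
    · have hpi : Function.Injective (fun c => e (p c)) := by
        intro a b hab
        have h4 := e.injective hab
        rw [← hpc a, ← hpc b, h4]
      symm
      refine eq_of_subset_of_card_le ?_ ?_
      · intro u hu
        obtain ⟨c, _, rfl⟩ := mem_image.mp hu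
        obtain ⟨w, hw, h4⟩ := mem_map.mp (hp c)
        rw [← h4]
        simpa using hw
      · rw [card_image_of_injective _ hpi, card_univ, Fintype.card_fin, ← h2, card_map]) (by
    intro ρ _
    have h1 := c1 (ρ.map e.symm.toEmbedding)
    rw [← hsum ρ (fun w => x (insert w (ρ.map e.symm.toEmbedding)))] at h1
    rw [← h1]
    refine sum_congr rfl fun v _ => ?_
    simp only [hy, hmap]) (by
    intro ρ hρ
    have h1 := c2 (ρ.map e.symm.toEmbedding) (by rw [card_map, hρ])
    rw [← hsum ρ (fun w => τ w * x (insert w (ρ.map e.symm.toEmbedding)))] at h1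
    rw [← h1]
    refine sum_congr rfl fun v _ => ?_
    simp only [hy, hmap])
  have hx0 : x = 0 := by
    refine hI x (fun T hT => absurd (Set.subset_univ _) hT) ?_
    rw [← hkey]
    refine (Fintype.sum_equiv (Equiv.finsetCongr e.symm) _ _ fun σ => ?_).symm
    simp only [hy, Equiv.finsetCongr_apply]
    congr 1
    rw [prod_map]
    rfl
  -- conclusion
  have hrec : ∀ (k : ℕ) (T : Finset V) (ε : Fin m → Bool), (univ.filter (fun c => ε c = true)).card = k →
      z T ε = 0 := by
    intro k
    induction k with
    | zero =>
      intro T ε h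
      rw [card_eq_zero, filter_eq_empty_iff] at h
      have h1 : ε = fun _ => false := by
        funext c
        have := h (mem_univ c)
        simpa using this
      rw [h1]
      exact congrFun hx0 T
    | succ k ih =>
      intro T ε h
      by_cases hT : G.IsClique (T : Set V) ∧ T.card = m
      · obtain ⟨c, hcm⟩ := card_pos.mp (by rw [h]; exact Nat.succ_pos k)
        rw [mem_filter] at hcm
        obtain ⟨t, ht, htc⟩ := col_surj hc hT.1 hT.2 c
        have h1 := hz.line T t ht (Set.mem_univ _) ε
        rw [htc] at h1
        have h2 : Function.update ε c true = ε := by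
          rw [← hcm.2, Function.update_eq_self]
        rw [h2] at h1
        rw [h1, ih T (Function.update ε c false), mul_zero]
        have h3 : univ.filter (fun c' => Function.update ε c false c' = true) =
            (univ.filter (fun c' => ε c' = true)).erase c := by
          ext c'
          simp only [mem_filter, mem_univ, true_and, mem_erase]
          by_cases h4 : c' = c
          · rw [h4, Function.update_self]
            simp
          · rw [Function.update_of_ne h4]
            simp [h4]
        rw [h3, card_erase_of_mem (by rw [mem_filter]; exact hcm), h]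
        rfl
      · rw [hsupp T hT]
        rfl
  funext T ε
  exact hrec _ T ε rfl

/-- exactness in the degrees at least the number of colours -/
theorem ex_top {G : SimpleGraph V} {col : V → Fin m} (hc : ∀ u w, G.Adj u w → col u ≠ col w)
    (hO : Obs G (2 * m)) {τ : V → K} (hI : Ind2 Set.univ τ) (i : ℕ) (hi : m ≤ i) :
    EX G col Set.univ τ Set.univ i := by
  intro z hz hb
  have hz0 : z = 0 := by
    rcases hi.lt_or_eq with h | h
    · funext T
      refine hz.supp T ?_
      rintro ⟨h1, _, h3⟩
      have h4 := card_image_of_injOn (col_inj hc h1)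
      have h5 := card_le_univ (T.image col)
      rw [Fintype.card_fin] at h5
      omega
    · subst h
      exact top_zero hc hO hI hz hb
  refine ⟨0, ⟨fun _ _ => rfl, fun _ _ _ _ _ => by simp⟩, ?_⟩
  rw [hz0]
  funext T
  simp [bdd]

end

/-- **`ℓ²`-vanishing** in the degrees at least the number of colours -/
theorem l2_top {V : Type} [Fintype V] [LinearOrder V] {m : ℕ} {G : SimpleGraph V} {col : V → Fin m}
    (hc : ∀ u w, G.Adj u w → col u ≠ col w) (hO : Obs G (2 * m)) (i : ℕ) (hi : m ≤ i) : L2Van G i := by
  classical
  have : CharP (MvPolynomial V (ZMod 2)) 2 := inferInstance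
  have : CharP (FractionRing (MvPolynomial V (ZMod 2))) 2 := inferInstance
  refine l2_of_ex t1 t2 t3 t4 t6 V (Fin m) G col i hc ?_
  exact ex_top hc hO (genind V Set.univ) i hi

end Pool.Agent.R782.Bal
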