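import Pool.Agent.H7.L.W907_SM_All
import Pool.Agent.H7.L.W347_SG_VERT
import Pool.Agent.H7.L.W391_SM_Thin

/-!
# Mod 2 Betti numbers: cones and adding a vertex
-/

set_option autoImplicit false
set_option linter.unusedSectionVars false

namespace Pool.Agent.R782.Bal

open Finset Pool.Agent.W907.SG Pool.Agent.W907.SM Module
open Pool.Agent.W347.SGV (qq qq_bd qq_mem lift lift_mem qq_lift mem_of_qq qq_of_mem qq_of_not)

section

variable {V : Type} [Fintype V] [LinearOrder V]

/-- the trivial coefficients -/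
abbrev tr2 {V : Type} : V → ZMod 2 →ₗ[ZMod 2] ZMod 2 := fun _ => LinearMap.id

theorem KK_tr (G : SimpleGraph V) (A S : Set V) (i : ℕ) : KK G tr2 A S i = KK G tr2 A ∅ i := by
  ext c
  rw [mem_KK, mem_KK]
  refine and_congr_right fun _ => ?_
  constructor
  · intro _ T t _
    exact Pool.Agent.W391.SM.Thin.z2_neg _
  · intro _ T t _
    exact Pool.Agent.W391.SM.Thin.z2_neg _

theorem mem_KK_tr {G : SimpleGraph V} {A : Set V} {i : ℕ} {c : Finset V → ZMod 2} : c ∈ KK G tr2 A ∅ i ↔
    ∀ T : Finset V, ¬ (G.IsClique (T : Set V) ∧ (T : Set V) ⊆ A ∧ T.card = i) → c T = 0 := by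
  rw [mem_KK]
  refine ⟨fun h => h.1, fun h => ⟨h, fun T t _ => ?_⟩⟩
  exact Pool.Agent.W391.SM.Thin.z2_neg _

theorem beta_tr (G : SimpleGraph V) (A S : Set V) (i : ℕ) : beta G tr2 A S i = beta G tr2 A ∅ i := by
  unfold beta ZZ BB
  rw [KK_tr G A S i, KK_tr G A S (i + 1)]

theorem bd_tr (c : Finset V → ZMod 2) (T : Finset V) : bd (ZMod 2) c T = ∑ v ∈ Tᶜ, c (insert v T) := by
  rw [bd_apply]
  exact sum_congr rfl fun v _ => Pool.Agent.W391.SM.Thin.sg_smul v T _

/-- acyclicity -/
def Acy (G : SimpleGraph V) (A : Set V) : Prop := ∀ i, beta G tr2 A ∅ i = 0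

theorem Acy.le {G : SimpleGraph V} {A : Set V} (h : Acy G A) (i : ℕ) : ZZ G tr2 A ∅ i ≤ BB G tr2 A ∅ i := by
  have h1 := h i
  unfold beta at h1
  have h2 := Submodule.eq_of_le_of_finrank_le (BB_le_ZZ G tr2 A ∅ i) (by omega)
  exact h2.ge

/-- cones are acyclic -/
theorem acy_cone {G : SimpleGraph V} {A : Set V} {v : V} (hv : v ∈ A) (h : ∀ u ∈ A, u ≠ v → G.Adj v u) :
    Acy G A := by
  intro i
  have key : ZZ G tr2 A ∅ i ≤ BB G tr2 A ∅ i := by
    rintro z ⟨hz1, hz2⟩
    have hz2 : bd (ZMod 2) z = 0 := hz2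
    have hz1 := mem_KK_tr.mp hz1
    set w : Finset V → ZMod 2 := fun T => if v ∈ T then z (T.erase v) else 0 with hw
    refine ⟨w, ?_, ?_⟩
    · refine mem_KK_tr.mpr fun T hT => ?_
      rw [hw]
      simp only
      split_ifs with hvT
      · refine hz1 _ ?_
        rintro ⟨h3, h4, h5⟩
        apply hT
        have hT' : (T : Set V) = insert v ((T.erase v : Finset V) : Set V) := by
          rw [← Finset.coe_insert, Finset.insert_erase hvT]
        refine ⟨?_, ?_, ?_⟩
        · rw [hT', SimpleGraph.isClique_insert]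
          exact ⟨h3, fun b hb hne => h b (h4 hb) hne.symm⟩
        · rw [hT']
          exact Set.insert_subset hv h4
        · rw [Finset.card_erase_of_mem hvT] at h5
          have := Finset.card_pos.2 ⟨v, hvT⟩
          omega
      · rfl
    · funext T
      rw [bd_tr]
      by_cases hvT : v ∈ T
      · have h1 : ∀ u ∈ Tᶜ, w (insert u T) = z (insert u (T.erase v)) := by
          intro u hu
          rw [mem_compl] at hu
          rw [hw]
          simp only
          rw [if_pos (mem_insert_of_mem hvT), erase_insert_of_ne]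
          rintro rfl
          exact hu hvT
        rw [sum_congr rfl h1]
        have h2 := congrFun hz2 (T.erase v)
        rw [bd_tr, Pi.zero_apply] at h2
        have h3 : (T.erase v)ᶜ = insert v Tᶜ := by
          ext u
          simp only [mem_compl, mem_erase, mem_insert, not_and]
          tauto
        rw [h3, sum_insert (by simp [hvT]), insert_erase hvT] at h2
        exact (CharTwo.add_eq_zero.mp h2).symm
      · rw [sum_eq_single v]
        · rw [hw]
          simp only
          rw [if_pos (mem_insert_self v T), erase_insert hvT]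
        · intro u _ huv
          rw [hw]
          simp only
          rw [if_neg]
          rw [mem_insert]
          rintro (h1 | h1)
          · exact huv h1.symm
          · exact hvT h1
        · intro h1
          exact absurd (mem_compl.mpr hvT) h1
  unfold beta
  have := Submodule.finrank_mono key
  omega

/-- adding a vertex with acyclic link -/
theorem acy_insert {G : SimpleGraph V} {A : Set V} {v : V} (hv : v ∉ A) (h1 : Acy G A)
    (h2 : Acy G (A ∩ G.neighborSet v)) : Acy G (insert v A) := by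
  have h3 := vert V (ZMod 2) (ZMod 2) G tr2 A ∅ v hv (Set.notMem_empty _)
  intro i
  rcases i with _ | i
  · have := h3.1
    have := h1 0
    omega
  · have h4 := h3.2 i
    rw [beta_tr G _ (insert v ∅) i] at h4
    have h5 := h1 (i + 1)
    have h6 := h2 i
    omega

/-- coning off: the link of a vertex whose complement is acyclic -/
theorem beta_insert {G : SimpleGraph V} {A : Set V} {v : V} (hv : v ∉ A) (h1 : Acy G A) :
    beta G tr2 (insert v A) ∅ 0 = 0 ∧
      ∀ i, beta G tr2 (insert v A) ∅ (i + 1) = beta G tr2 (A ∩ G.neighborSet v) ∅ i := by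
  have h3 := vert V (ZMod 2) (ZMod 2) G tr2 A ∅ v hv (Set.notMem_empty _)
  refine ⟨?_, fun i => le_antisymm ?_ ?_⟩
  · have := h3.1
    have := h1 0
    omega
  · have h4 := h3.2 i
    rw [beta_tr G _ (insert v ∅) i] at h4
    have h5 := h1 (i + 1)
    omega
  · rw [← beta_tr G (A ∩ G.neighborSet v) (insert v ∅) i]
    have key := mid (ZMod 2) (Finset V → ZMod 2) (Finset V → ZMod 2) (Finset V → ZMod 2) (qq (ZMod 2) v) 0
      (BB G tr2 (insert v A) ∅ (i + 1)) (ZZ G tr2 (insert v A) ∅ (i + 1))
      (BB G tr2 (A ∩ G.neighborSet v) (insert v ∅) i) (ZZ G tr2 (A ∩ G.neighborSet v) (insert v ∅) i)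
      ⊥ ⊥ (BB_le_ZZ _ _ _ _ _) (BB_le_ZZ _ _ _ _ _) le_rfl ?_ ?_ ?_
    · rw [finrank_bot, Nat.sub_zero, Nat.add_zero] at key
      exact key
    · rintro _ ⟨b, ⟨d, hd, rfl⟩, rfl⟩
      refine ⟨- qq (ZMod 2) v d, Submodule.neg_mem _ (qq_mem hd), ?_⟩
      rw [map_neg, qq_bd, neg_neg]
    · simp
    · intro z hz _
      obtain ⟨hz1, hz2⟩ := hz
      have hz2 : bd (ZMod 2) z = 0 := hz2
      have hl := lift_mem (A := A) hz1
      have hq := qq_lift hv hz1
      have hb1 : bd (ZMod 2) (lift v z) ∈ KK G tr2 A ∅ i := by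
        refine mem_of_qq (v := v) (bd_mem_KK hl) ?_
        have h5 := qq_bd (F := ZMod 2) v (lift v z)
        rw [hq, hz2] at h5
        rw [eq_comm, neg_eq_zero] at h5
        exact h5
      obtain ⟨w, hw, hw2⟩ := h1.le i ⟨hb1, bd_bd _⟩
      have hw : w ∈ KK G tr2 A ∅ (i + 1) := hw
      refine ⟨lift v z - w, ⟨?_, ?_⟩, 0, Submodule.zero_mem _, ?_⟩
      · exact Submodule.sub_mem _ hl (Pool.Agent.W347.SGV.KK_mono (Set.subset_insert _ _) hw)
      · show bd (ZMod 2) (lift v z - w) = 0
        rw [map_sub, hw2, sub_self]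
      · rw [map_sub, hq, add_zero]
        have h6 : qq (ZMod 2) v w = 0 := by
          funext T
          by_cases hvT : v ∈ T
          · exact qq_of_mem _ hvT
          · rw [qq_of_not _ hvT, mem_KK_tr.mp hw (insert v T), smul_zero]
            · rfl
            · rintro ⟨_, h7, _⟩
              exact hv (h7 (by simp))
        rw [h6, sub_zero]

/-- the empty complex -/
theorem beta_empty (G : SimpleGraph V) (i : ℕ) : beta G tr2 (∅ : Set V) ∅ i = if i = 0 then 1 else 0 := by
  have hK : ∀ i, i ≠ 0 → KK G tr2 (∅ : Set V) ∅ i = ⊥ := by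
    intro i hi
    rw [eq_bot_iff]
    intro c hc
    rw [Submodule.mem_bot]
    funext T
    refine mem_KK_tr.mp hc T ?_
    rintro ⟨_, h2, h3⟩
    have : T = ∅ := by
      rw [← Finset.coe_eq_empty]
      exact Set.subset_empty_iff.mp h2
    rw [this, card_empty] at h3
    exact hi h3.symm
  split_ifs with hi
  · subst hi
    have hB : BB G tr2 (∅ : Set V) ∅ 0 = ⊥ := by
      unfold BB
      rw [hK 1 one_ne_zero, Submodule.map_bot]
    have hZ : ZZ G tr2 (∅ : Set V) ∅ 0 = Submodule.span (ZMod 2) {fun T => if T = ∅ then 1 else 0} := by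
      refine le_antisymm ?_ ?_
      · rintro c ⟨hc, _⟩
        rw [Submodule.mem_span_singleton]
        refine ⟨c ∅, ?_⟩
        funext T
        simp only [Pi.smul_apply, smul_eq_mul]
        split_ifs with hT
        · rw [hT, mul_one]
        · rw [mul_zero]
          symm
          refine mem_KK_tr.mp hc T ?_
          rintro ⟨_, _, h3⟩
          exact hT (card_eq_zero.mp h3)
      · rw [Submodule.span_singleton_le_iff_mem]
        refine ⟨mem_KK_tr.mpr fun T hT => ?_, ?_⟩
        · rw [if_neg]
          rintro rfl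
          exact hT ⟨by simp, by simp, by simp⟩
        · show bd (ZMod 2) _ = 0
          funext T
          rw [bd_tr]
          refine sum_eq_zero fun v _ => ?_
          rw [if_neg (insert_ne_empty v T)]
    unfold beta
    rw [hB, hZ, finrank_bot, Nat.sub_zero, finrank_span_singleton]
    intro h
    have := congrFun h ∅
    simp at this
  · unfold beta
    have hZ : ZZ G tr2 (∅ : Set V) ∅ i = ⊥ := by
      rw [eq_bot_iff, ← hK i hi]
      exact inf_le_left
    rw [hZ, finrank_bot, Nat.zero_sub]

end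

end Pool.Agent.R782.Bal
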