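import Pool.Agent.H7.L.RK_Defs
import Pool.Agent.H7.L.Helper970_TN_Defs

set_option autoImplicit false

namespace Pool.Agent.RK

open Matrix

/-- The elements `j(s)⁻¹ j(x)` of the localisation `U` of `R`, for `j : R' → R`. -/
def UN {R' R U : Type} [Ring R'] [Ring R] [Ring U] (j : R' →+* R) (ι : R →+* U) : Set U :=
  {y | ∃ s x : R', Nz s ∧ ι (j s) * y = ι (j x)}

end Pool.Agent.RK
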