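import Pool.Agent.H7.L.TH630_Tor_Ev

open scoped InnerProductSpace Topology Matrix

noncomputable section

namespace Pool.Agent.TH630.Tor

open Pool.Agent.Helper993.FK

variable {Q F : Type} [Group Q] [Group F] [Fintype F] [DecidableEq F]
  (π : Q →* F) (κ : Q →* Multiplicative ℤ) {r s : ℕ}

/-- The eigenvalues of `A(z) A(z)*`. -/
def lam (A : Matrix (Fin r) (Fin s) (MonoidAlgebra ℚ Q)) (z : ℂ) : Fin r × F → ℝ :=
  (Matrix.isHermitian_mul_conjTranspose_self
    (evM π κ (uz z) A : Matrix (Fin r × F) (Fin s × F) ℂ)).eigenvalues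

open ComplexOrder in
theorem lam_nonneg (A : Matrix (Fin r) (Fin s) (MonoidAlgebra ℚ Q)) (z : ℂ) (j : Fin r × F) :
    0 ≤ lam π κ A z j :=
  (Matrix.posSemidef_self_mul_conjTranspose
    (evM π κ (uz z) A : Matrix (Fin r × F) (Fin s × F) ℂ)).eigenvalues_nonneg j

theorem evM_self_adj (A : Matrix (Fin r) (Fin s) (MonoidAlgebra ℚ Q)) {z : ℂ} (hz : ‖z‖ = 1) :
    (evM π κ (uz z) A : Matrix (Fin r × F) (Fin s × F) ℂ) *
      (evM π κ (uz z) A : Matrix (Fin r × F) (Fin s × F) ℂ)ᴴ = evM π κ (uz z) (A * adjQ A) := by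
  rw [evM_mul, evM_adjQ π κ hz]

theorem prod_lam (A : Matrix (Fin r) (Fin s) (MonoidAlgebra ℚ Q)) {z : ℂ} (hz : ‖z‖ = 1) :
    ∏ j, lam π κ A z j
      = ‖(evM π κ (uz z) (A * adjQ A) : Matrix (Fin r × F) (Fin r × F) ℂ).det‖ := by
  rw [← evM_self_adj π κ A hz, (Matrix.isHermitian_mul_conjTranspose_self
    (evM π κ (uz z) A : Matrix (Fin r × F) (Fin s × F) ℂ)).det_eq_prod_eigenvalues, norm_prod]
  refine Finset.prod_congr rfl fun j _ => ?_
  exact (RCLike.norm_of_nonneg (K := ℂ) (lam_nonneg π κ A z j)).symm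

theorem trace_pow_eq {n : Type} [Fintype n] [DecidableEq n] {M : Matrix n n ℂ}
    (hM : M.IsHermitian) (m : ℕ) :
    Matrix.trace (M ^ m) = ((∑ j, (hM.eigenvalues j) ^ m : ℝ) : ℂ) := by
  have h := hM.spectral_theorem
  have h2 : M ^ m = Unitary.conjStarAlgAut ℂ _ hM.eigenvectorUnitary
      ((Matrix.diagonal (RCLike.ofReal ∘ hM.eigenvalues)) ^ m) := by
    rw [map_pow, ← h]
  rw [h2, Matrix.diagonal_pow, Unitary.conjStarAlgAut_apply, Matrix.trace_mul_cycle,
    Unitary.coe_star_mul_self, one_mul, Matrix.trace_diagonal]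
  push_cast
  rfl

theorem sum_lam_pow (A : Matrix (Fin r) (Fin s) (MonoidAlgebra ℚ Q)) {z : ℂ} (hz : ‖z‖ = 1)
    (m : ℕ) : ∑ j, (lam π κ A z j) ^ m =
      (Matrix.trace (evM π κ (uz z) ((A * adjQ A) ^ m) : Matrix (Fin r × F) (Fin r × F) ℂ)).re := by
  rw [evM_pow, ← evM_self_adj π κ A hz, trace_pow_eq (Matrix.isHermitian_mul_conjTranspose_self
    (evM π κ (uz z) A : Matrix (Fin r × F) (Fin s × F) ℂ)), Complex.ofReal_re]
  rfl

theorem trace_evM_eq (S : Matrix (Fin r) (Fin r) (MonoidAlgebra ℚ Q)) {z : ℂ} (hz : z ≠ 0) :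
    Matrix.trace (evM π κ (uz z) S : Matrix (Fin r × F) (Fin r × F) ℂ) =
      ∑ i, ∑ q ∈ (S i i).coeff.support,
        (if π q = 1 then (Fintype.card F : ℂ) * ((S i i).coeff q : ℚ) else 0)
        * z ^ (Multiplicative.toAdd (κ q)) := by
  have h1 : Matrix.trace (evM π κ (uz z) S : Matrix (Fin r × F) (Fin r × F) ℂ)
      = ∑ i, Matrix.trace (evz π κ (uz z) (S i i) : Matrix F F ℂ) := by
    simp only [Matrix.trace, Matrix.diag_apply, evM, Matrix.of_apply, Fintype.sum_prod_type]
  rw [h1]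
  exact Finset.sum_congr rfl fun i _ => trace_evz π κ hz (S i i)

theorem continuous_trace (S : Matrix (Fin r) (Fin r) (MonoidAlgebra ℚ Q)) :
    Continuous fun θ : ℝ => Matrix.trace
      (evM π κ (uz (circleMap 0 1 θ)) S : Matrix (Fin r × F) (Fin r × F) ℂ) := by
  have h0 : ∀ θ : ℝ, circleMap 0 1 θ ≠ 0 := fun θ => circleMap_ne_center one_ne_zero
  have h1 : (fun θ : ℝ => Matrix.trace
      (evM π κ (uz (circleMap 0 1 θ)) S : Matrix (Fin r × F) (Fin r × F) ℂ)) =
      fun θ : ℝ => ∑ i, ∑ q ∈ (S i i).coeff.support,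
        (if π q = 1 then (Fintype.card F : ℂ) * ((S i i).coeff q : ℚ) else 0)
        * (circleMap 0 1 θ) ^ (Multiplicative.toAdd (κ q)) :=
    funext fun θ => trace_evM_eq π κ S (h0 θ)
  rw [h1]
  refine continuous_finsetSum _ fun i _ => continuous_finsetSum _ fun q _ => ?_
  exact continuous_const.mul ((continuous_circleMap 0 1).zpow₀ _ fun θ => Or.inl (h0 θ))

theorem trace_bound (S : Matrix (Fin r) (Fin r) (MonoidAlgebra ℚ Q)) :
    ∃ C : ℝ, ∀ z : ℂ, ‖z‖ = 1 →
      ‖Matrix.trace (evM π κ (uz z) S : Matrix (Fin r × F) (Fin r × F) ℂ)‖ ≤ C := by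
  refine ⟨∑ i, ∑ q ∈ (S i i).coeff.support,
        ‖(if π q = 1 then (Fintype.card F : ℂ) * ((S i i).coeff q : ℚ) else 0)‖, fun z hz => ?_⟩
  have hz0 : z ≠ 0 := by
    rintro rfl
    simp at hz
  rw [trace_evM_eq π κ S hz0]
  refine (norm_sum_le _ _).trans (Finset.sum_le_sum fun i _ => ?_)
  refine (norm_sum_le _ _).trans (Finset.sum_le_sum fun q _ => ?_)
  rw [norm_mul, norm_zpow, hz, one_zpow, mul_one]

theorem circleAverage_re_trace (hinj : ∀ q, π q = 1 → κ q = 1 → q = 1)
    (S : Matrix (Fin r) (Fin r) (MonoidAlgebra ℚ Q)) :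
    Real.circleAverage (fun z => (Matrix.trace
      (evM π κ (uz z) S : Matrix (Fin r × F) (Fin r × F) ℂ)).re) 0 1 =
      Fintype.card F * trc S := by
  have hint : CircleIntegrable (fun z => Matrix.trace
      (evM π κ (uz z) S : Matrix (Fin r × F) (Fin r × F) ℂ)) 0 1 :=
    (continuous_trace π κ S).intervalIntegrable _ _
  have h := Complex.reCLM.circleAverage_comp_comm hint
  rw [circleAverage_trace_evM π κ hinj S] at h
  have h2 : (Complex.reCLM ((Fintype.card F : ℂ) * ((trc S : ℝ) : ℂ))) =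
      Fintype.card F * trc S := by
    have : ((Fintype.card F : ℂ) * ((trc S : ℝ) : ℂ)) =
        (((Fintype.card F : ℝ) * trc S : ℝ) : ℂ) := by push_cast; rfl
    rw [this]
    exact Complex.ofReal_re _
  rw [h2] at h
  exact h

theorem abs_circleAverage_sub_le {f g : ℂ → ℝ} {δ : ℝ} (hf : CircleIntegrable f 0 1)
    (hg : CircleIntegrable g 0 1) (h : ∀ z : ℂ, ‖z‖ = 1 → |f z - g z| ≤ δ) :
    |Real.circleAverage f 0 1 - Real.circleAverage g 0 1| ≤ δ := by
  have hs : ∀ z ∈ Metric.sphere (0 : ℂ) |1|, ‖z‖ = 1 := by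
    intro z hz
    simpa using hz
  rw [abs_le]
  constructor
  · have h1 := Real.circleAverage_mono_on_of_le_circle (f := g - f) (a := δ) (hg.sub hf)
      (fun z hz => by
        have := (abs_le.1 (h z (hs z hz))).1
        show g z - f z ≤ δ
        linarith)
    rw [Real.circleAverage_sub hg hf] at h1
    linarith
  · have h1 := Real.circleAverage_mono_on_of_le_circle (f := f - g) (a := δ) (hf.sub hg)
      (fun z hz => (abs_le.1 (h z (hs z hz))).2)
    rw [Real.circleAverage_sub hf hg] at h1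
    linarith

/-- The spectral trace is the average over the circle of the spectral sums. -/
theorem circleAverage_lam (hinj : ∀ q, π q = 1 → κ q = 1 → q = 1)
    (A : Matrix (Fin r) (Fin s) (MonoidAlgebra ℚ Q)) (h : ℝ → ℝ) (hh : Continuous h) :
    CircleIntegrable (fun z => ∑ j, h (lam π κ A z j)) 0 1 ∧
    Real.circleAverage (fun z => ∑ j, h (lam π κ A z j)) 0 1
      = Fintype.card F * traceVal unitVec (rMul (A * adjQ A)) h := by
  set S := A * adjQ A with hS
  have hS0 : 0 ≤ rMul S := rMul_self_nonneg A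
  obtain ⟨C, hC⟩ := trace_bound π κ S
  set K : ℝ := max C ‖rMul S‖ with hK
  have hlam : ∀ z : ℂ, ‖z‖ = 1 → ∀ j, lam π κ A z j ∈ Set.Icc 0 K := by
    intro z hz j
    refine ⟨lam_nonneg π κ A z j, ?_⟩
    have h1 := sum_lam_pow π κ A hz 1
    simp only [pow_one] at h1
    have h2 : lam π κ A z j ≤ ∑ j, lam π κ A z j :=
      Finset.single_le_sum (fun i _ => lam_nonneg π κ A z i) (Finset.mem_univ j)
    have h3 := (Complex.re_le_norm _).trans (hC z hz)
    exact (h2.trans (h1.le.trans h3)).trans (le_max_left _ _)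
  -- the polynomial version
  let gp : Polynomial ℝ → ℂ → ℝ := fun p z => ∑ m ∈ Finset.range (p.natDegree + 1), p.coeff m *
    (Matrix.trace (evM π κ (uz z) (S ^ m) : Matrix (Fin r × F) (Fin r × F) ℂ)).re
  have hgp : ∀ p : Polynomial ℝ, ∀ z : ℂ, ‖z‖ = 1 →
      ∑ j, p.eval (lam π κ A z j) = gp p z := by
    intro p z hz
    show _ = ∑ m ∈ Finset.range (p.natDegree + 1), p.coeff m *
      (Matrix.trace (evM π κ (uz z) (S ^ m) : Matrix (Fin r × F) (Fin r × F) ℂ)).re
    simp only [Polynomial.eval_eq_sum_range]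
    rw [Finset.sum_comm]
    refine Finset.sum_congr rfl fun m _ => ?_
    rw [← Finset.mul_sum, hS, sum_lam_pow π κ A hz m]
  have hgpc : ∀ p : Polynomial ℝ, Continuous fun θ : ℝ => gp p (circleMap 0 1 θ) := by
    intro p
    refine continuous_finsetSum _ fun m _ => continuous_const.mul ?_
    exact Complex.continuous_re.comp (continuous_trace π κ (S ^ m))
  have hgpi : ∀ p : Polynomial ℝ, CircleIntegrable (gp p) 0 1 := fun p =>
    (hgpc p).intervalIntegrable _ _
  have hgpa : ∀ p : Polynomial ℝ, Real.circleAverage (gp p) 0 1 =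
      Fintype.card F * traceVal unitVec (rMul S) (fun x => p.eval x) := by
    intro p
    have h1 : Real.circleAverage (gp p) 0 1 = ∑ m ∈ Finset.range (p.natDegree + 1),
        Real.circleAverage (fun z => p.coeff m • (Matrix.trace
          (evM π κ (uz z) (S ^ m) : Matrix (Fin r × F) (Fin r × F) ℂ)).re) 0 1 := by
      refine Real.circleAverage_fun_sum fun m _ => ?_
      have hc : Continuous fun θ : ℝ => p.coeff m • (Matrix.trace
          (evM π κ (uz (circleMap 0 1 θ)) (S ^ m) : Matrix (Fin r × F) (Fin r × F) ℂ)).re :=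
        continuous_const.mul (Complex.continuous_re.comp (continuous_trace π κ (S ^ m)))
      exact hc.intervalIntegrable _ _
    rw [h1, traceVal_poly S hS0 p, Finset.mul_sum]
    refine Finset.sum_congr rfl fun m _ => ?_
    rw [Real.circleAverage_fun_smul, circleAverage_re_trace π κ hinj, smul_eq_mul]
    ring
  -- approximation
  have happ : ∀ ε > 0, ∃ p : Polynomial ℝ, (∀ x ∈ Set.Icc 0 K, |h x - p.eval x| ≤ ε) := by
    intro ε hε
    obtain ⟨p, hp⟩ := exists_polynomial_near_of_continuousOn 0 K h hh.continuousOn ε hε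
    exact ⟨p, fun x hx => by rw [abs_sub_comm]; exact (hp x hx).le⟩
  have hnear : ∀ (p : Polynomial ℝ) (ε : ℝ), (∀ x ∈ Set.Icc 0 K, |h x - p.eval x| ≤ ε) →
      ∀ z : ℂ, ‖z‖ = 1 →
        |∑ j, h (lam π κ A z j) - gp p z| ≤ Fintype.card (Fin r × F) * ε := by
    intro p ε hp z hz
    rw [← hgp p z hz, ← Finset.sum_sub_distrib]
    refine (Finset.abs_sum_le_sum_abs _ _).trans ?_
    calc ∑ j, |h (lam π κ A z j) - p.eval (lam π κ A z j)| ≤ ∑ _j : Fin r × F, ε :=
          Finset.sum_le_sum fun j _ => hp _ (hlam z hz j)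
      _ = Fintype.card (Fin r × F) * ε := by
          rw [Finset.sum_const, nsmul_eq_mul, Finset.card_univ]
  have hcm : ∀ θ : ℝ, ‖circleMap 0 1 θ‖ = 1 := fun θ => by simp
  have hcont : Continuous fun θ : ℝ => ∑ j, h (lam π κ A (circleMap 0 1 θ) j) := by
    refine continuous_of_uniform_approx_of_continuous fun u hu => ?_
    obtain ⟨ε, hε, hεu⟩ := Metric.mem_uniformity_dist.1 hu
    obtain ⟨p, hp⟩ := happ (ε / (Fintype.card (Fin r × F) + 1)) (by positivity)
    refine ⟨fun θ => gp p (circleMap 0 1 θ), hgpc p, fun θ => hεu ?_⟩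
    rw [Real.dist_eq]
    refine lt_of_le_of_lt (hnear p _ hp _ (hcm θ)) ?_
    rw [mul_div_assoc', div_lt_iff₀ (by positivity)]
    nlinarith
  have hint : CircleIntegrable (fun z => ∑ j, h (lam π κ A z j)) 0 1 :=
    hcont.intervalIntegrable _ _
  refine ⟨hint, ?_⟩
  -- the average
  have key : ∀ ε > 0, |Real.circleAverage (fun z => ∑ j, h (lam π κ A z j)) 0 1 -
      Fintype.card F * traceVal unitVec (rMul S) h| ≤
      (Fintype.card (Fin r × F) + Fintype.card F * r) * ε := by
    intro ε hε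
    obtain ⟨p, hp⟩ := happ ε hε
    have h1 := abs_circleAverage_sub_le hint (hgpi p) (hnear p ε hp)
    rw [hgpa p] at h1
    have h2 := traceVal_near unitVec (fun i => (norm_unitVec i).le) (rMul S) hS0
      (le_max_right C ‖rMul S‖) hh p.continuous hε.le hp
    have h3 : |Fintype.card F * traceVal unitVec (rMul S) (fun x => p.eval x) -
        Fintype.card F * traceVal unitVec (rMul S) h| ≤ Fintype.card F * (r * ε) := by
      rw [← mul_sub, abs_mul, abs_of_nonneg (Nat.cast_nonneg _), abs_sub_comm]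
      exact mul_le_mul_of_nonneg_left h2 (Nat.cast_nonneg _)
    have h4 := abs_add_le (Real.circleAverage (fun z => ∑ j, h (lam π κ A z j)) 0 1 -
      Fintype.card F * traceVal unitVec (rMul S) (fun x => p.eval x))
      (Fintype.card F * traceVal unitVec (rMul S) (fun x => p.eval x) -
        Fintype.card F * traceVal unitVec (rMul S) h)
    rw [sub_add_sub_cancel] at h4
    refine h4.trans ((add_le_add h1 h3).trans (le_of_eq ?_))
    ring
  rw [← sub_eq_zero, ← abs_nonpos_iff]
  set D := |Real.circleAverage (fun z => ∑ j, h (lam π κ A z j)) 0 1 -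
      Fintype.card F * traceVal unitVec (rMul S) h| with hD
  set B : ℝ := (Fintype.card (Fin r × F) + Fintype.card F * r : ℝ) with hB
  have hB0 : 0 ≤ B := by positivity
  by_contra hcon
  push Not at hcon
  have h5 := key (D / (2 * (B + 1))) (by positivity)
  have h6 : B * (D / (2 * (B + 1))) ≤ D / 2 := by
    rw [mul_div_assoc', div_le_div_iff₀ (by positivity) (by positivity)]
    nlinarith
  linarith

end Pool.Agent.TH630.Tor
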