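import Pool.Agent.H7.L.Helper993_Luck

open scoped InnerProductSpace Topology

noncomputable section

namespace Pool.Agent.TH889.J793

open Pool.Agent.Helper993.FK MeasureTheory

section
variable {H : Type} [NormedAddCommGroup H] [InnerProductSpace ℂ H] [CompleteSpace H] {r : ℕ}
  (e : Fin r → H) (he : ∀ i, ‖e i‖ ≤ 1) (T : H →L[ℂ] H) (hT : 0 ≤ T) {K : ℝ} (hK1 : 1 ≤ K)
  (hK : ‖T‖ ≤ K) {ι : Type} [Fintype ι] {n : ℕ} (hn : 0 < n) (hι : Fintype.card ι = r * n)
  (lam : ℂ → ι → ℝ) (hlam : ∀ z j, 0 ≤ lam z j)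
  (hav : ∀ h : ℝ → ℝ, Continuous h → CircleIntegrable (fun z => ∑ j, h (lam z j)) 0 1 ∧
    Real.circleAverage (fun z => ∑ j, h (lam z j)) 0 1 = n * traceVal e T h)
  (P : Polynomial ℂ) (hP : P ≠ 0)
  (hprod : ∀ z : ℂ, ‖z‖ = 1 → ∏ j, lam z j = ‖P.eval z‖)

/-- the measure on the angles -/
def ang : Measure ℝ := volume.restrict (Set.Ioc 0 (2 * Real.pi))

instance : IsFiniteMeasure ang := by
  unfold ang
  infer_instance

theorem circ_int {f : ℂ → ℝ} (h : CircleIntegrable f 0 1) :
    Integrable (fun θ => f (circleMap 0 1 θ)) ang := by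
  have h1 := (intervalIntegrable_iff_integrableOn_Ioc_of_le Real.two_pi_pos.le).mp h
  exact h1

theorem circ_avg (f : ℂ → ℝ) :
    Real.circleAverage f 0 1 = (2 * Real.pi)⁻¹ * ∫ θ, f (circleMap 0 1 θ) ∂ang := by
  rw [Real.circleAverage_def, smul_eq_mul, intervalIntegral.integral_of_le Real.two_pi_pos.le]
  rfl

include hP in
theorem ae_ne : ∀ᵐ θ ∂ang, P.eval (circleMap 0 1 θ) ≠ 0 := by
  apply ae_restrict_of_ae
  rw [MeasureTheory.ae_iff]
  have h1 : ({z : ℂ | P.eval z = 0}).Countable := by
    have : {z : ℂ | P.eval z = 0} ⊆ P.roots.toFinset := by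
      intro z hz
      simp only [Finset.mem_coe, Multiset.mem_toFinset]
      rw [Polynomial.mem_roots hP]
      exact hz
    exact (Finset.finite_toSet _).subset this |>.countable
  have h2 := (h1.preimage_circleMap 0 (R := 1) one_ne_zero).measure_zero volume
  refine le_antisymm ((measure_mono ?_).trans h2.le) bot_le
  intro θ hθ
  simp only [ne_eq, not_not] at hθ
  exact hθ

include hT hK hlam hav in
theorem ae_le : ∀ᵐ θ ∂ang, ∀ j, lam (circleMap 0 1 θ) j ≤ K := by
  obtain ⟨h1, h2⟩ := hav (fun x => max 0 (x - K)) (by fun_prop)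
  have h3 : traceVal e T (fun x => max 0 (x - K)) = traceVal e T (fun _ => 0) := by
    apply traceVal_congr e T hT hK
    intro x hx
    rw [max_eq_left]
    linarith [hx.2]
  have h4 : traceVal e T (fun _ => 0) = 0 := by
    unfold traceVal
    apply Finset.sum_eq_zero
    intro i _
    rw [cfc_const_zero]
    simp
  rw [h3, h4, mul_zero, circ_avg] at h2
  have h5 : ∫ θ, (∑ j, max 0 (lam (circleMap 0 1 θ) j - K)) ∂ang = 0 := by
    have : (0:ℝ) < (2 * Real.pi)⁻¹ := by
      have := Real.two_pi_pos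
      positivity
    rcases mul_eq_zero.mp h2 with h | h
    · exact absurd h this.ne'
    · exact h
  rw [integral_eq_zero_iff_of_nonneg] at h5
  · filter_upwards [h5] with θ hθ j
    have h6 : ∑ j, max 0 (lam (circleMap 0 1 θ) j - K) = 0 := hθ
    rw [Finset.sum_eq_zero_iff_of_nonneg (fun i _ => le_max_left _ _)] at h6
    have := h6 j (Finset.mem_univ j)
    have h7 := le_max_right 0 (lam (circleMap 0 1 θ) j - K)
    linarith
  · intro θ
    exact Finset.sum_nonneg fun i _ => le_max_left _ _
  · exact circ_int h1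

include hT hK hlam hav hP hprod in
theorem ae_good : ∀ᵐ θ ∂ang, (∀ j, 0 < lam (circleMap 0 1 θ) j ∧ lam (circleMap 0 1 θ) j ≤ K) ∧
    ∑ j, Real.log (lam (circleMap 0 1 θ) j) = Real.log ‖P.eval (circleMap 0 1 θ)‖ := by
  filter_upwards [ae_ne P hP, ae_le e T hT hK lam hlam hav] with θ h1 h2
  have h3 := hprod (circleMap 0 1 θ) (by simp [circleMap])
  have h4 : ∏ j, lam (circleMap 0 1 θ) j ≠ 0 := by
    rw [h3]
    exact norm_ne_zero_iff.mpr h1
  rw [Finset.prod_ne_zero_iff] at h4
  refine ⟨fun j => ⟨lt_of_le_of_ne (hlam _ _) (Ne.symm (h4 j (Finset.mem_univ j))), h2 j⟩, ?_⟩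
  rw [← h3, Real.log_prod (fun j _ => h4 j (Finset.mem_univ j))]

theorem log_int : Integrable (fun θ => Real.log ‖P.eval (circleMap 0 1 θ)‖) ang :=
  circ_int (f := fun z => Real.log ‖P.eval z‖) P.intervalIntegrable_mahlerMeasure

theorem log_avg : P.logMahlerMeasure
    = (2 * Real.pi)⁻¹ * ∫ θ, Real.log ‖P.eval (circleMap 0 1 θ)‖ ∂ang := by
  rw [Polynomial.logMahlerMeasure_def, circ_avg (fun z => Real.log ‖P.eval z‖)]

theorem ang_univ : ang.real Set.univ = 2 * Real.pi := by
  unfold ang
  rw [measureReal_restrict_apply MeasurableSet.univ, Set.univ_inter, Real.volume_real_Ioc_of_le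
    Real.two_pi_pos.le]
  ring

include hT hK hn hι hlam hav hP hprod in
theorem main_le {h : ℝ → ℝ} (hc : Continuous h) {a : ℝ}
    (hb : ∀ x, 0 < x → x ≤ K → h x ≤ a - Real.log x) :
    traceVal e T h ≤ r * a - 1 / n * P.logMahlerMeasure := by
  obtain ⟨h1, h2⟩ := hav h hc
  have hn' : (0 : ℝ) < n := by exact_mod_cast hn
  have hpi : (0:ℝ) < (2 * Real.pi)⁻¹ := by
    have := Real.two_pi_pos
    positivity
  have h3 : ∫ θ, (∑ j, h (lam (circleMap 0 1 θ) j)) ∂ang
      ≤ ∫ θ, ((r * n : ℝ) * a - Real.log ‖P.eval (circleMap 0 1 θ)‖) ∂ang := by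
    apply integral_mono_ae (circ_int h1) ((integrable_const _).sub (log_int P))
    filter_upwards [ae_good e T hT hK lam hlam hav P hP hprod] with θ hθ
    obtain ⟨g1, g2⟩ := hθ
    calc ∑ j, h (lam (circleMap 0 1 θ) j)
        ≤ ∑ j, (a - Real.log (lam (circleMap 0 1 θ) j)) :=
          Finset.sum_le_sum fun j _ => hb _ (g1 j).1 (g1 j).2
      _ = (r * n : ℝ) * a - Real.log ‖P.eval (circleMap 0 1 θ)‖ := by
          rw [Finset.sum_sub_distrib, g2, Finset.sum_const, Finset.card_univ, hι, nsmul_eq_mul]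
          push_cast
          ring
  rw [integral_sub (integrable_const _) (log_int P), integral_const, ang_univ, smul_eq_mul] at h3
  rw [circ_avg] at h2
  have h4 := mul_le_mul_of_nonneg_left h3 hpi.le
  rw [h2, mul_sub, ← log_avg P] at h4
  have h5 : (2 * Real.pi)⁻¹ * (2 * Real.pi * (r * n * a)) = r * n * a := by
    have := Real.two_pi_pos.ne'
    field_simp
  rw [h5] at h4
  have h6 : n * traceVal e T h ≤ n * (r * a - 1 / n * P.logMahlerMeasure) := by
    have : n * (r * a - 1 / n * P.logMahlerMeasure) = r * n * a - P.logMahlerMeasure := by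
      field_simp
    rw [this]
    exact h4
  exact le_of_mul_le_mul_left h6 hn'

include he hT hK1 hK hn hι hlam hav hP hprod in
theorem abs_gm_le {M : ℝ} (hM : 0 ≤ M) :
    traceVal e T (gm M) ≤ 2 * r * Real.log K - 1 / n * P.logMahlerMeasure := by
  have h := main_le e T hT hK hn hι lam hlam hav P hP hprod (gm_continuous M)
    (a := 2 * Real.log K) (by
      intro x hx hxK
      have h1 := gm_le_abs_log (M := M) hx
      have h2 := Real.log_le_log hx hxK
      have h3 := Real.log_nonneg hK1
      rcases abs_cases (Real.log x) with h5 | h5 <;> linarith [h5.1])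
  have : (r : ℝ) * (2 * Real.log K) = 2 * r * Real.log K := by ring
  rwa [this] at h

include hn hav in
theorem traceVal_mul_const {h : ℝ → ℝ} (hc : Continuous h) (c : ℝ) :
    traceVal e T (fun x => h x * c) = traceVal e T h * c := by
  have hn' : (0 : ℝ) < n := by exact_mod_cast hn
  obtain ⟨_, h1⟩ := hav h hc
  obtain ⟨_, h2⟩ := hav (fun x => h x * c) (by fun_prop)
  have h3 : ∀ z : ℂ, ∑ j, h (lam z j) * c = (∑ j, h (lam z j)) * c := by
    intro z
    rw [Finset.sum_mul]
  simp only [h3] at h2
  rw [circ_avg] at h1 h2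
  rw [integral_mul_const, ← mul_assoc, h1] at h2
  have : (n:ℝ) * (traceVal e T h * c) = n * traceVal e T (fun x => h x * c) := by
    rw [← h2]
    ring
  exact (mul_left_cancel₀ hn'.ne' this).symm

include he hT hK1 hK hn hι hlam hav hP hprod in
theorem abs_bump_le {δ : ℝ} (hδ : 0 < δ) (hδ1 : δ < 1) :
    traceVal e T (bump δ) * Real.log (1 / δ)
      ≤ r * Real.log K - 1 / n * P.logMahlerMeasure := by
  rw [← traceVal_mul_const e T hn lam hav (bump_continuous δ)]
  apply main_le e T hT hK hn hι lam hlam hav P hP hprod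
    ((bump_continuous δ).mul continuous_const)
  intro x hx hxK
  change bump δ x * Real.log (1 / δ) ≤ Real.log K - Real.log x
  have h2 := Real.log_le_log hx hxK
  have hl : Real.log (1 / δ) = - Real.log δ := by rw [one_div, Real.log_inv]
  have hlδ : Real.log δ < 0 := Real.log_neg hδ hδ1
  rcases le_or_gt δ x with h | h
  · rw [bump_of_le hδ h, zero_mul]
    linarith
  · have h4 := Real.log_le_log hx h.le
    have h5 := Real.log_nonneg hK1
    have h6 := mul_le_mul_of_nonneg_right (bump_le_one δ x) (show 0 ≤ Real.log (1 / δ) by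
      rw [hl]; linarith)
    rw [hl] at h6 ⊢
    linarith

/-- truncated logarithm -/
def gl (m : ℕ) (x : ℝ) : ℝ := Real.log (max x (Real.exp (-(m : ℝ))))

theorem gl_continuous (m : ℕ) : Continuous (gl m) := by
  unfold gl
  apply Continuous.log
  · exact continuous_id.max continuous_const
  · intro x
    exact (lt_of_lt_of_le (Real.exp_pos _) (le_max_right _ _)).ne'

theorem gl_nonpos {m : ℕ} {x : ℝ} (hx : x ≤ 0) : gl m x = -m := by
  unfold gl
  rw [max_eq_right (hx.trans (Real.exp_pos _).le), Real.log_exp]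

theorem abs_gl_le {m : ℕ} {x : ℝ} (hx : 0 < x) : |gl m x| ≤ |Real.log x| := by
  unfold gl
  rcases le_total (Real.exp (-(m : ℝ))) x with h | h
  · rw [max_eq_left h]
  · rw [max_eq_right h, Real.log_exp]
    have h1 := Real.log_le_log hx h
    rw [Real.log_exp] at h1
    have := neg_le_abs (Real.log x)
    have h2 : (0 : ℝ) ≤ m := Nat.cast_nonneg m
    rw [abs_neg, abs_of_nonneg h2]
    linarith

theorem gl_tendsto {x : ℝ} (hx : 0 < x) :
    Filter.Tendsto (fun m : ℕ => gl m x) Filter.atTop (𝓝 (Real.log x)) := by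
  apply tendsto_const_nhds.congr'
  obtain ⟨m, hm⟩ := exists_nat_ge (- Real.log x)
  filter_upwards [Filter.eventually_ge_atTop m] with k hk
  have hk' : (m : ℝ) ≤ k := by exact_mod_cast hk
  unfold gl
  rw [max_eq_left]
  rw [← Real.le_log_iff_exp_le hx]
  linarith

/-- the compactly supported function `gl m · cut N` -/
def gcl (m N : ℕ) : CompactlySupportedContinuousMap ℝ ℝ where
  toFun x := gl m x * cut N x
  continuous_toFun := (gl_continuous m).mul (cut_continuous N)
  hasCompactSupport' := by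
    apply HasCompactSupport.intro (isCompact_Icc (a := -((N : ℝ) + 1)) (b := (N : ℝ) + 1))
    intro x hx
    have : (N : ℝ) + 1 ≤ |x| := by
      by_contra hcon
      push Not at hcon
      rw [abs_lt] at hcon
      exact hx ⟨hcon.1.le, hcon.2.le⟩
    rw [cut_eq_zero this, mul_zero]

theorem gcl_apply (m N : ℕ) (x : ℝ) : gcl m N x = gl m x * cut N x := rfl

theorem cut_le_one (N : ℕ) (x : ℝ) : cut N x ≤ 1 := by
  unfold cut
  exact max_le zero_le_one (min_le_left _ _)

include hT hK1 hK hn hι hlam hav hP hprod in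
theorem avg_tendsto :
    Filter.Tendsto (fun m : ℕ => traceVal e T (gl m)) Filter.atTop
      (𝓝 (1 / n * P.logMahlerMeasure)) := by
  have hn' : (0 : ℝ) < n := by exact_mod_cast hn
  have h1 : ∀ m : ℕ, traceVal e T (gl m) = 1 / n * ((2 * Real.pi)⁻¹ *
      ∫ θ, (∑ j, gl m (lam (circleMap 0 1 θ) j)) ∂ang) := by
    intro m
    obtain ⟨_, h2⟩ := hav (gl m) (gl_continuous m)
    rw [circ_avg] at h2
    rw [h2]
    field_simp
  simp only [h1]
  apply Filter.Tendsto.const_mul
  rw [log_avg P]
  apply Filter.Tendsto.const_mul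
  apply tendsto_integral_of_dominated_convergence
    (fun θ => (2 * (r * n : ℝ) * Real.log K - Real.log ‖P.eval (circleMap 0 1 θ)‖))
  · intro m
    exact (circ_int (hav (gl m) (gl_continuous m)).1).aestronglyMeasurable
  · exact (integrable_const _).sub (log_int P)
  · intro m
    filter_upwards [ae_good e T hT hK lam hlam hav P hP hprod] with θ hθ
    obtain ⟨g1, g2⟩ := hθ
    rw [Real.norm_eq_abs]
    refine (Finset.abs_sum_le_sum_abs _ _).trans ?_
    calc ∑ j, |gl m (lam (circleMap 0 1 θ) j)|
        ≤ ∑ j, (2 * Real.log K - Real.log (lam (circleMap 0 1 θ) j)) := by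
          apply Finset.sum_le_sum
          intro j _
          refine (abs_gl_le (g1 j).1).trans ?_
          have h2 := Real.log_le_log (g1 j).1 (g1 j).2
          have h3 := Real.log_nonneg hK1
          rcases abs_cases (Real.log (lam (circleMap 0 1 θ) j)) with h5 | h5 <;> linarith [h5.1]
      _ = 2 * (r * n : ℝ) * Real.log K - Real.log ‖P.eval (circleMap 0 1 θ)‖ := by
          rw [Finset.sum_sub_distrib, g2, Finset.sum_const, Finset.card_univ, hι, nsmul_eq_mul]
          push_cast
          ring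
  · filter_upwards [ae_good e T hT hK lam hlam hav P hP hprod] with θ hθ
    obtain ⟨g1, g2⟩ := hθ
    rw [← g2]
    apply tendsto_finsetSum
    intro j _
    exact gl_tendsto (g1 j).1

include hT hK1 hK hn hι hlam hav hP hprod in
theorem cut_integral (hlog : IntegrableOn Real.log (Set.Ioi 0) (spectralMeasure e T)) {N : ℕ}
    (hN : K ≤ N) :
    ∫ x in Set.Ioi (0 : ℝ), Real.log x * cut N x ∂(spectralMeasure e T)
      = 1 / n * P.logMahlerMeasure := by
  set μ := spectralMeasure e T with hμ
  have hreg : Measure.Regular μ := by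
    rw [hμ]
    unfold spectralMeasure
    infer_instance
  have hint : ∀ m, Integrable (gcl m N) μ := fun m =>
    (gcl m N).continuous.integrable_of_hasCompactSupport (gcl m N).hasCompactSupport
  have h1 : ∀ m : ℕ, ∫ x, gcl m N x ∂μ = traceVal e T (gl m) := by
    intro m
    rw [hμ, integral_spectralMeasure]
    change traceVal e T (gcl m N) = _
    apply traceVal_congr e T hT hK
    intro x hx
    rw [gcl_apply, cut_eq_one, mul_one]
    rw [abs_of_nonneg hx.1]
    exact hx.2.trans hN
  have h2 : ∀ m : ℕ, ∫ x, gcl m N x ∂μ = ∫ x in Set.Ioi 0, gl m x * cut N x ∂μ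
      - m * ∫ x in Set.Iic 0, cut N x ∂μ := by
    intro m
    rw [← integral_add_compl (measurableSet_Ioi : MeasurableSet (Set.Ioi (0:ℝ))) (hint m),
      Set.compl_Ioi, sub_eq_add_neg]
    congr 1
    rw [← neg_mul, ← integral_const_mul]
    apply setIntegral_congr_fun measurableSet_Iic
    intro x hx
    simp only [gcl_apply]
    rw [gl_nonpos hx]
  have h3 : Filter.Tendsto (fun m : ℕ => ∫ x in Set.Ioi 0, gl m x * cut N x ∂μ) Filter.atTop
      (𝓝 (∫ x in Set.Ioi (0 : ℝ), Real.log x * cut N x ∂μ)) := by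
    apply tendsto_integral_of_dominated_convergence (fun x => |Real.log x|)
    · intro m
      exact ((gcl m N).continuous.measurable).aestronglyMeasurable
    · exact hlog.abs
    · intro m
      refine (ae_restrict_iff' measurableSet_Ioi).mpr (Filter.Eventually.of_forall ?_)
      intro x hx
      rw [Real.norm_eq_abs, abs_mul, abs_of_nonneg (cut_nonneg N x)]
      calc |gl m x| * cut N x ≤ |Real.log x| * 1 :=
            mul_le_mul (abs_gl_le hx) (cut_le_one N x) (cut_nonneg N x) (abs_nonneg _)
        _ = |Real.log x| := mul_one _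
    · refine (ae_restrict_iff' measurableSet_Ioi).mpr (Filter.Eventually.of_forall ?_)
      intro x hx
      exact (gl_tendsto hx).mul_const _
  have h4 := avg_tendsto e T hT hK1 hK hn hι lam hlam hav P hP hprod
  have h5 : Filter.Tendsto (fun m : ℕ => (m : ℝ) * ∫ x in Set.Iic 0, cut N x ∂μ) Filter.atTop
      (𝓝 ((∫ x in Set.Ioi (0 : ℝ), Real.log x * cut N x ∂μ) - 1 / n * P.logMahlerMeasure)) := by
    have := h3.sub h4
    refine this.congr (fun m => ?_)
    rw [← h1, h2]
    ring
  have h6 : ∫ x in Set.Iic 0, cut N x ∂μ = 0 := by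
    by_contra hne
    have hpos : 0 < ∫ x in Set.Iic 0, cut N x ∂μ :=
      lt_of_le_of_ne (integral_nonneg fun x => cut_nonneg N x) (Ne.symm hne)
    have h7 : Filter.Tendsto (fun m : ℕ => (m : ℝ) * ∫ x in Set.Iic 0, cut N x ∂μ) Filter.atTop
        Filter.atTop := Filter.Tendsto.atTop_mul_const hpos tendsto_natCast_atTop_atTop
    exact not_tendsto_nhds_of_tendsto_atTop h7 _ h5
  rw [h6] at h5
  simp only [mul_zero] at h5
  have h8 := tendsto_nhds_unique h5 tendsto_const_nhds
  linarith

include he hT hK1 hK hn hι hlam hav hP hprod in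
theorem abs_log_integral :
    IntegrableOn Real.log (Set.Ioi 0) (spectralMeasure e T) ∧
    ∫ x in Set.Ioi (0 : ℝ), Real.log x ∂(spectralMeasure e T) = 1 / n * P.logMahlerMeasure := by
  have hlog : IntegrableOn Real.log (Set.Ioi 0) (spectralMeasure e T) :=
    log_integrable e T hT (C := 2 * r * Real.log K - 1 / n * P.logMahlerMeasure) (fun m =>
      abs_gm_le e he T hT hK1 hK hn hι lam hlam hav P hP hprod (Nat.cast_nonneg m))
  refine ⟨hlog, ?_⟩
  have h1 : Filter.Tendsto (fun N : ℕ => ∫ x in Set.Ioi (0 : ℝ), Real.log x * cut N x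
      ∂(spectralMeasure e T)) Filter.atTop
      (𝓝 (∫ x in Set.Ioi (0 : ℝ), Real.log x ∂(spectralMeasure e T))) := by
    apply tendsto_integral_of_dominated_convergence (fun x => |Real.log x|)
    · intro m
      exact (Real.measurable_log.mul (cut_continuous m).measurable).aestronglyMeasurable
    · exact hlog.abs
    · intro m
      refine Filter.Eventually.of_forall ?_
      intro x
      rw [Real.norm_eq_abs, abs_mul, abs_of_nonneg (cut_nonneg m x)]
      calc |Real.log x| * cut m x ≤ |Real.log x| * 1 :=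
            mul_le_mul_of_nonneg_left (cut_le_one m x) (abs_nonneg _)
        _ = |Real.log x| := mul_one _
    · refine Filter.Eventually.of_forall ?_
      intro x
      apply tendsto_const_nhds.congr'
      obtain ⟨m, hm⟩ := exists_nat_ge |x|
      filter_upwards [Filter.eventually_ge_atTop m] with k hk
      have hk' : (m : ℝ) ≤ k := by exact_mod_cast hk
      rw [cut_eq_one (hm.trans hk'), mul_one]
  have h2 : Filter.Tendsto (fun N : ℕ => ∫ x in Set.Ioi (0 : ℝ), Real.log x * cut N x
      ∂(spectralMeasure e T)) Filter.atTop (𝓝 (1 / n * P.logMahlerMeasure)) := by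
    apply tendsto_const_nhds.congr'
    obtain ⟨m, hm⟩ := exists_nat_ge K
    filter_upwards [Filter.eventually_ge_atTop m] with k hk
    have hk' : (m : ℝ) ≤ k := by exact_mod_cast hk
    exact (cut_integral e T hT hK1 hK hn hι lam hlam hav P hP hprod hlog (hm.trans hk')).symm
  exact tendsto_nhds_unique h1 h2

end

end Pool.Agent.TH889.J793
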