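import Pool.Agent.H7.L.TH630_Tor_Limit
import Pool.Agent.H7.L.TH73_TorJ1
import Pool.Agent.H7.L.TH889_J793

/-!
Fuglede-Kadison determinants over groups which embed in `F × ℤ`, with `F` finite.
-/

open scoped InnerProductSpace Topology Matrix

noncomputable section

namespace Pool.Agent.TH630.Tor

open Pool.Agent.Helper993.FK MeasureTheory Pool.Agent.TH889.J793

variable {Q F : Type} [Group Q] [Group F] [Fintype F] [DecidableEq F]
  (π : Q →* F) (κ : Q →* Multiplicative ℤ) {r s : ℕ}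

/-- The logarithm of the Mahler measure of the determinant, divided by the order of `F`. -/
def logDet (B : Matrix (Fin r) (Fin r) (MonoidAlgebra ℤ Q)) : ℝ :=
  1 / Fintype.card F * Real.circleAverage
    (fun z => Real.log ‖(evM π κ (uz z) (B.map toQ) : Matrix (Fin r × F) (Fin r × F) ℂ).det‖) 0 1

/-- The determinant does not vanish identically on the circle. -/
def Nondeg (B : Matrix (Fin r) (Fin r) (MonoidAlgebra ℤ Q)) : Prop :=
  ∃ z : ℂ, ‖z‖ = 1 ∧ (evM π κ (uz z) (B.map toQ) : Matrix (Fin r × F) (Fin r × F) ℂ).det ≠ 0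

theorem exists_poly' {B : Matrix (Fin r) (Fin r) (MonoidAlgebra ℤ Q)} (hB : Nondeg π κ B) :
    ∃ p : Polynomial ℤ, p ≠ 0 ∧ (∀ z : ℂ, ‖z‖ = 1 →
      ‖(evM π κ (uz z) (B.map toQ) : Matrix (Fin r × F) (Fin r × F) ℂ).det‖
        = ‖(p.map (Int.castRingHom ℂ)).eval z‖) ∧
      logDet π κ B = 1 / Fintype.card F * (p.map (Int.castRingHom ℂ)).logMahlerMeasure ∧
      0 ≤ (p.map (Int.castRingHom ℂ)).logMahlerMeasure := by
  obtain ⟨p, hp⟩ := exists_poly π κ B
  have hp0 : p ≠ 0 := by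
    rintro rfl
    obtain ⟨z, hz, h⟩ := hB
    have := hp z hz
    simp at this
    exact h this
  refine ⟨p, hp0, hp, ?_, ?_⟩
  · unfold logDet Polynomial.logMahlerMeasure
    congr 1
    apply Real.circleAverage_congr_sphere
    intro z hz
    have hz1 : ‖z‖ = 1 := by simpa using hz
    simp only
    rw [hp z hz1]
  · rw [Polynomial.logMahlerMeasure_eq_log_MahlerMeasure]
    apply Real.log_nonneg
    exact Polynomial.one_le_mahlerMeasure_of_ne_zero hp0

theorem logDet_nonneg {B : Matrix (Fin r) (Fin r) (MonoidAlgebra ℤ Q)} (hB : Nondeg π κ B) :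
    0 ≤ logDet π κ B := by
  obtain ⟨p, _, _, h1, h2⟩ := exists_poly' π κ hB
  rw [h1]
  positivity

theorem circleIntegrable_logDet {B : Matrix (Fin r) (Fin r) (MonoidAlgebra ℤ Q)}
    (hB : Nondeg π κ B) : CircleIntegrable
    (fun z => Real.log ‖(evM π κ (uz z) (B.map toQ) : Matrix (Fin r × F) (Fin r × F) ℂ).det‖) 0 1 := by
  obtain ⟨p, hp0, hp, _, _⟩ := exists_poly' π κ hB
  have h1 : CircleIntegrable (fun z => Real.log ‖(p.map (Int.castRingHom ℂ)).eval z‖) 0 1 := by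
    rw [circleIntegrable_def]
    exact Polynomial.intervalIntegrable_mahlerMeasure _
  unfold CircleIntegrable at h1 ⊢
  refine h1.congr ?_
  intro θ _
  have hz : ‖circleMap 0 1 θ‖ = 1 := by simp
  simp only
  rw [hp _ hz]

/-- The package over `Q`: bounds for the spectral traces and the value of the determinant. -/
theorem fz_package [Nonempty F] (hinj : ∀ q, π q = 1 → κ q = 1 → q = 1)
    (A : Matrix (Fin r) (Fin s) (MonoidAlgebra ℤ Q)) (hA : Nondeg π κ (A * adjZ A))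
    {K : ℝ} (hK1 : 1 ≤ K) (hK : ‖rMul ((A * adjZ A).map toQ)‖ ≤ K) :
    (∀ M : ℝ, 0 ≤ M → traceVal unitVec (rMul ((A * adjZ A).map toQ)) (gm M) ≤ 2 * r * Real.log K) ∧
    (∀ δ : ℝ, 0 < δ → δ < 1 →
      traceVal unitVec (rMul ((A * adjZ A).map toQ)) (bump δ) * Real.log (1 / δ)
        ≤ r * Real.log K) ∧
    Real.log (fkDet (rMul (A.map toQ))) = 1 / 2 * logDet π κ (A * adjZ A) := by
  obtain ⟨p, hp0, hp, h1, h2⟩ := exists_poly' π κ hA
  set P := p.map (Int.castRingHom ℂ) with hP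
  have hP0 : P ≠ 0 := by
    rw [hP]
    exact (Polynomial.map_ne_zero_iff (RingHom.injective_int _)).mpr hp0
  have hS : 0 ≤ rMul ((A * adjZ A).map toQ) := by
    rw [mul_adjZ_toQ]; exact rMul_self_nonneg _
  have hn : 0 < Fintype.card F := Fintype.card_pos
  have hι : Fintype.card (Fin r × F) = r * Fintype.card F := by simp
  have hav : ∀ h : ℝ → ℝ, Continuous h →
      CircleIntegrable (fun z => ∑ j, h (lam π κ (A.map toQ) z j)) 0 1 ∧
      Real.circleAverage (fun z => ∑ j, h (lam π κ (A.map toQ) z j)) 0 1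
        = (Fintype.card F : ℕ) * traceVal unitVec (rMul ((A * adjZ A).map toQ)) h := by
    intro h hh
    rw [mul_adjZ_toQ]
    exact circleAverage_lam π κ hinj (A.map toQ) h hh
  have hprod : ∀ z : ℂ, ‖z‖ = 1 → ∏ j, lam π κ (A.map toQ) z j = ‖P.eval z‖ := by
    intro z hz
    rw [prod_lam π κ (A.map toQ) hz, ← hp z hz, mul_adjZ_toQ]
  have he : ∀ i, ‖(unitVec i : L2Pow Q r)‖ ≤ 1 := fun i => (norm_unitVec i).le
  have hm0 : (0 : ℝ) ≤ 1 / (Fintype.card F : ℕ) * P.logMahlerMeasure := by positivity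
  refine ⟨fun M hM => ?_, fun δ hδ hδ1 => ?_, ?_⟩
  · have := abs_gm_le unitVec he (rMul ((A * adjZ A).map toQ)) hS hK1 hK hn hι
      (lam π κ (A.map toQ)) (fun z j => lam_nonneg π κ _ z j) hav P hP0 hprod hM
    linarith
  · have := abs_bump_le unitVec he (rMul ((A * adjZ A).map toQ)) hS hK1 hK hn hι
      (lam π κ (A.map toQ)) (fun z j => lam_nonneg π κ _ z j) hav P hP0 hprod hδ hδ1
    linarith
  · obtain ⟨k1, k2⟩ := abs_log_integral unitVec he (rMul ((A * adjZ A).map toQ)) hS hK1 hK hn hι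
      (lam π κ (A.map toQ)) (fun z j => lam_nonneg π κ _ z j) hav P hP0 hprod
    unfold fkDet detOf specMeas
    rw [adjoint_comp_rMul, ← mul_adjZ_toQ, if_pos k1, k2, Real.log_exp, h1]

theorem adjZ_toQ_ev {z : ℂ} (hz : ‖z‖ = 1) (B : Matrix (Fin r) (Fin s) (MonoidAlgebra ℤ Q)) :
    evM π κ (uz z) ((adjZ B).map toQ)
      = (evM π κ (uz z) (B.map toQ) : Matrix (Fin r × F) (Fin s × F) ℂ)ᴴ := by
  rw [toQ_adjZ, evM_adjQ π κ hz]

theorem det_mul_adj {z : ℂ} (hz : ‖z‖ = 1) (B : Matrix (Fin r) (Fin r) (MonoidAlgebra ℤ Q)) :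
    ‖(evM π κ (uz z) ((B * adjZ B).map toQ) : Matrix (Fin r × F) (Fin r × F) ℂ).det‖
      = ‖(evM π κ (uz z) (B.map toQ) : Matrix (Fin r × F) (Fin r × F) ℂ).det‖ ^ 2 := by
  rw [toQ_mul, evM_mul, Matrix.det_mul, adjZ_toQ_ev π κ hz, Matrix.det_conjTranspose, norm_mul,
    norm_star, sq]

/-- For a square matrix. -/
theorem log_fkDet_square [Nonempty F] (hinj : ∀ q, π q = 1 → κ q = 1 → q = 1)
    (B : Matrix (Fin r) (Fin r) (MonoidAlgebra ℤ Q)) (hB : Nondeg π κ B) :
    Real.log (fkDet (rMul (B.map toQ))) = logDet π κ B ∧ 0 < fkDet (rMul (B.map toQ)) ∧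
      ∀ v, rMul (B.map toQ) v = 0 → v = 0 := by
  have hA : Nondeg π κ (B * adjZ B) := by
    obtain ⟨z, hz, h⟩ := hB
    refine ⟨z, hz, ?_⟩
    have h2 := det_mul_adj π κ hz B
    intro h3
    rw [h3, norm_zero] at h2
    have : 0 < ‖(evM π κ (uz z) (B.map toQ) : Matrix (Fin r × F) (Fin r × F) ℂ).det‖ :=
      norm_pos_iff.mpr h
    have := pow_pos this 2
    linarith
  obtain ⟨h1, h2, h3⟩ := fz_package π κ hinj B hA (le_max_left 1 _)
    (le_max_right 1 ‖rMul ((B * adjZ B).map toQ)‖)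
  obtain ⟨h4, h5⟩ := conclude B h1 h2
  refine ⟨?_, h5, h4⟩
  rw [h3]
  unfold logDet
  have h6 : Real.circleAverage (fun z =>
      Real.log ‖(evM π κ (uz z) ((B * adjZ B).map toQ) : Matrix (Fin r × F) (Fin r × F) ℂ).det‖) 0 1
      = Real.circleAverage (fun z => (2 : ℝ) •
      Real.log ‖(evM π κ (uz z) (B.map toQ) : Matrix (Fin r × F) (Fin r × F) ℂ).det‖) 0 1 := by
    apply Real.circleAverage_congr_sphere
    intro z hz
    have hz1 : ‖z‖ = 1 := by simpa using hz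
    simp only [smul_eq_mul]
    rw [det_mul_adj π κ hz1, Real.log_pow]
    norm_num
  rw [h6, Real.circleAverage_fun_smul]
  simp only [smul_eq_mul]
  ring

end Pool.Agent.TH630.Tor
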