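import Pool.Agent.H7.L.Helper993_Luck

/-!
Injectivity and positivity of determinants pass from uniform bounds over quotients (finite or
infinite) to the group.
-/

open scoped InnerProductSpace Topology

noncomputable section

namespace Pool.Agent.TH630.Tor

open Pool.Agent.Helper993.FK MeasureTheory

variable {G : Type} [Group G] {r s : ℕ}

/-- If the truncated traces near zero decay then the operator is injective. -/
theorem inj_of_bump (SZ : Matrix (Fin r) (Fin r) (MonoidAlgebra ℤ G))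
    (hS : 0 ≤ rMul (SZ.map toQ)) {C : ℝ}
    (hb : ∀ δ : ℝ, 0 < δ → δ < 1 →
      traceVal unitVec (rMul (SZ.map toQ)) (bump δ) * Real.log (1 / δ) ≤ C) :
    ∀ v, rMul (SZ.map toQ) v = 0 → v = 0 := by
  intro w hw
  apply coord_ext
  intro j g
  rw [coord_zero]
  obtain ⟨w', hw'⟩ := exists_translate w g
  have h1 : rMul (SZ.map toQ) w' = 0 := by
    apply coord_ext
    intro k h
    rw [coord_zero, rMul_apply]
    have := congrArg (fun x => coord x k (g * h)) hw
    simp only [coord_zero, rMul_apply] at this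
    rw [← this]
    simp only [hw', mul_assoc]
  have h2 : ⟪(unitVec j : L2Pow G r), w'⟫_ℂ = coord w j g := by
    rw [inner_unitVec, hw', mul_one]
  have key : ∀ δ : ℝ, 0 < δ → δ < 1 → ‖coord w j g‖ ^ 2
      ≤ C / Real.log (1 / δ) * ‖w'‖ ^ 2 := by
    intro δ hδ hδ1
    rw [← h2]
    refine (inner_ker_le unitVec (rMul (SZ.map toQ)) hS δ w' h1 j).trans ?_
    have hlog : 0 < Real.log (1 / δ) := by
      apply Real.log_pos
      rw [lt_div_iff₀ hδ]
      linarith
    apply mul_le_mul_of_nonneg_right _ (by positivity)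
    rw [le_div_iff₀ hlog]
    exact hb δ hδ hδ1
  have h3 : ‖coord w j g‖ ^ 2 ≤ 0 := by
    have hlim : Filter.Tendsto (fun n : ℕ => C / ((n : ℝ) + 1) * ‖w'‖ ^ 2)
        Filter.atTop (𝓝 (0 * ‖w'‖ ^ 2)) := by
      apply Filter.Tendsto.mul_const
      apply Filter.Tendsto.div_atTop tendsto_const_nhds
      exact Filter.tendsto_atTop_add_const_right _ _ tendsto_natCast_atTop_atTop
    rw [zero_mul] at hlim
    refine ge_of_tendsto' hlim (fun n => ?_)
    have := key (Real.exp (-((n : ℝ) + 1))) (Real.exp_pos _)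
      (by rw [Real.exp_lt_one_iff]; have : (0:ℝ) ≤ n := Nat.cast_nonneg n; linarith)
    rwa [one_div, ← Real.exp_neg, neg_neg, Real.log_exp] at this
  have h4 : ‖coord w j g‖ = 0 := by
    have := norm_nonneg (coord w j g)
    nlinarith [sq_nonneg ‖coord w j g‖]
  exact norm_eq_zero.mp h4

theorem mul_adjZ_toQ (A : Matrix (Fin r) (Fin s) (MonoidAlgebra ℤ G)) :
    (A * adjZ A).map toQ = (A.map toQ) * adjQ (A.map toQ) := by
  rw [toQ_mul, toQ_adjZ]

/-- The conclusions which follow from uniform bounds for the spectral traces. -/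
theorem conclude (A : Matrix (Fin r) (Fin s) (MonoidAlgebra ℤ G)) {C C' : ℝ}
    (hg : ∀ M : ℝ, 0 ≤ M → traceVal unitVec (rMul ((A * adjZ A).map toQ)) (gm M) ≤ C')
    (hb : ∀ δ : ℝ, 0 < δ → δ < 1 →
      traceVal unitVec (rMul ((A * adjZ A).map toQ)) (bump δ) * Real.log (1 / δ) ≤ C) :
    (∀ v, rMul (A.map toQ) v = 0 → v = 0) ∧ 0 < fkDet (rMul (A.map toQ)) := by
  have hS : 0 ≤ rMul ((A * adjZ A).map toQ) := by
    rw [mul_adjZ_toQ]; exact rMul_self_nonneg _
  constructor
  · intro v hv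
    apply inj_of_bump (A * adjZ A) hS hb
    rw [mul_adjZ_toQ, rMul_mul, ContinuousLinearMap.comp_apply, hv, map_zero]
  · have h1 : IntegrableOn Real.log (Set.Ioi 0) (specMeas unitVec (rMul (A.map toQ))) := by
      unfold specMeas
      rw [adjoint_comp_rMul, ← mul_adjZ_toQ]
      exact log_integrable unitVec _ hS (fun n => hg n (Nat.cast_nonneg n))
    unfold fkDet detOf
    rw [if_pos h1]
    exact Real.exp_pos _

/-- Uniform bounds over the quotients give bounds over the group. -/
theorem limit_package (N : ℕ → Subgroup G) [∀ i, (N i).Normal] (hanti : Antitone N)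
    (hinf : ⨅ i, N i = ⊥) (A : Matrix (Fin r) (Fin s) (MonoidAlgebra ℤ G)) {C C' : ℝ}
    (hg : ∀ i, 1 ≤ i → ∀ M : ℝ, 0 ≤ M →
      traceVal unitVec (rMul (mq (N i) ((A * adjZ A).map toQ))) (gm M) ≤ C')
    (hb : ∀ i, 1 ≤ i → ∀ δ : ℝ, 0 < δ → δ < 1 →
      traceVal unitVec (rMul (mq (N i) ((A * adjZ A).map toQ))) (bump δ) * Real.log (1 / δ) ≤ C) :
    (∀ v, rMul (A.map toQ) v = 0 → v = 0) ∧ 0 < fkDet (rMul (A.map toQ)) := by
  have hS : 0 ≤ rMul ((A * adjZ A).map toQ) := by
    rw [mul_adjZ_toQ]; exact rMul_self_nonneg _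
  have hSi : ∀ i, 0 ≤ rMul (mq (N i) ((A * adjZ A).map toQ)) := by
    intro i
    rw [mul_adjZ_toQ, mq_mul, mq_adjQ]
    exact rMul_self_nonneg _
  apply conclude (C := C) (C' := C')
  · intro M hM
    have t1 := tendsto_traceVal N hanti hinf ((A * adjZ A).map toQ) hS hSi (gm_continuous M)
    refine le_of_tendsto t1 ?_
    filter_upwards [Filter.eventually_ge_atTop 1] with i hi
    exact hg i hi M hM
  · intro δ hδ hδ1
    have t1 := tendsto_traceVal N hanti hinf ((A * adjZ A).map toQ) hS hSi (bump_continuous δ)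
    refine le_of_tendsto (t1.mul_const (Real.log (1 / δ))) ?_
    filter_upwards [Filter.eventually_ge_atTop 1] with i hi
    exact hb i hi δ hδ hδ1

end Pool.Agent.TH630.Tor
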