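import Pool.Agent.H7.L.TH652_JoinAbs
import Pool.Agent.H7.L.TH652_JoinDef
import Pool.Agent.H7.L.W907_SM_LV

/-!
# `ℓ²`-vanishing for joins (products of right-angled Coxeter groups)
-/

set_option autoImplicit false
set_option linter.unusedSectionVars false
set_option linter.style.haveILetI false

namespace Pool.Agent.TH652.Join

open Pool.Agent.W907.SG Pool.Agent.W907.SM
open Pool.Agent.W461.SGN (simple_mul_self simple_comm)
open Pool.Agent.W338.SG (inc inc_simple)
open scoped InnerProductSpace ENNReal

/-! ### the regular representation -/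

section Reg
variable {W' : Type} [Group W']

theorem memlp_mul {f : W' → ℝ} (hf : Memℓp f 2) (s : W') : Memℓp (fun w => f (w * s)) 2 := by
  have h2 : 0 < (2 : ℝ≥0∞).toReal := by norm_num
  rw [memℓp_gen_iff h2] at hf ⊢
  exact hf.comp_injective (mul_left_injective s)

/-- right translation -/
noncomputable def RR (s : W') : lp (fun _ : W' => ℝ) 2 →ₗ[ℝ] lp (fun _ : W' => ℝ) 2 where
  toFun f := ⟨fun w => f (w * s), memlp_mul (lp.memℓp f) s⟩
  map_add' _ _ := rfl
  map_smul' _ _ := rfl

theorem RR_apply (s : W') (f : lp (fun _ : W' => ℝ) 2) (w : W') : RR s f w = f (w * s) := rfl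

theorem RR_adj (s : W') (hs : s * s = 1) (a b : lp (fun _ : W' => ℝ) 2) : ⟪RR s a, b⟫_ℝ = ⟪a, RR s b⟫_ℝ := by
  rw [lp.inner_eq_tsum, lp.inner_eq_tsum, ← (Equiv.mulRight s).tsum_eq]
  refine tsum_congr fun w => ?_
  rw [RR_apply, RR_apply, Equiv.coe_mulRight, mul_assoc, hs, mul_one]

end Reg

/-! ### orders and signs on a disjoint union -/

/-- first all the elements of `V`, then all the elements of `U` -/
@[instance_reducible] def ordSum (V U : Type) [LinearOrder V] [LinearOrder U] : LinearOrder (V ⊕ U) :=
  LinearOrder.lift' (fun x => toLex x) (fun _ _ h => h)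

section Sgn
variable {V U : Type} [LinearOrder V] [LinearOrder U]

theorem sg_inl (v : V) (T : Finset V) (S : Finset U) :
    @sg (V ⊕ U) (ordSum V U) (Sum.inl v) (T.disjSum S) = sg v T := by
  unfold sg
  congr 1
  have : @Finset.filter (V ⊕ U) (fun u => (ordSum V U).lt u (Sum.inl v))
      (fun u => (ordSum V U).toDecidableLT u (Sum.inl v)) (T.disjSum S) =
      (T.filter (fun u => u < v)).disjSum ∅ := by
    ext x
    rw [Finset.mem_filter]
    rcases x with a | b
    · rw [Finset.inl_mem_disjSum, Finset.inl_mem_disjSum, Finset.mem_filter]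
      exact and_congr_right fun _ => Sum.Lex.inl_lt_inl_iff
    · rw [Finset.inr_mem_disjSum, Finset.inr_mem_disjSum]
      simp only [Finset.notMem_empty, iff_false, not_and]
      intro _ h
      exact absurd h Sum.Lex.not_inr_lt_inl
  rw [this, Finset.card_disjSum]
  simp

theorem sg_inr (u : U) (T : Finset V) (S : Finset U) :
    @sg (V ⊕ U) (ordSum V U) (Sum.inr u) (T.disjSum S) = (-1) ^ T.card * sg u S := by
  unfold sg
  rw [← pow_add]
  congr 1
  have : @Finset.filter (V ⊕ U) (fun w => (ordSum V U).lt w (Sum.inr u))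
      (fun w => (ordSum V U).toDecidableLT w (Sum.inr u)) (T.disjSum S) =
      T.disjSum (S.filter (fun w => w < u)) := by
    ext x
    rw [Finset.mem_filter]
    rcases x with a | b
    · rw [Finset.inl_mem_disjSum, Finset.inl_mem_disjSum]
      simp only [and_iff_left_iff_imp]
      intro _
      exact Sum.Lex.inl_lt_inr a u
    · rw [Finset.inr_mem_disjSum, Finset.inr_mem_disjSum, Finset.mem_filter]
      exact and_congr_right fun _ => Sum.Lex.inr_lt_inr_iff
  rw [this, Finset.card_disjSum]

end Sgn

section Main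
variable {V U : Type} [Fintype V] [LinearOrder V] [Fintype U] [LinearOrder U]

omit [Fintype V] [Fintype U] in
theorem insert_inl {inst : DecidableEq (V ⊕ U)} (v : V) (T : Finset V) (S : Finset U) :
    insert (Sum.inl v) (T.disjSum S) = (insert v T).disjSum S := by
  ext x
  rcases x with a | b <;> simp

omit [Fintype V] [Fintype U] in
theorem insert_inr {inst : DecidableEq (V ⊕ U)} (u : U) (T : Finset V) (S : Finset U) :
    insert (Sum.inr u) (T.disjSum S) = T.disjSum (insert u S) := by
  ext x
  rcases x with a | b <;> simp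

omit [Fintype V] [Fintype U] in
theorem erase_inl {inst : DecidableEq (V ⊕ U)} (v : V) (T : Finset V) (S : Finset U) :
    (T.disjSum S).erase (Sum.inl v) = (T.erase v).disjSum S := by
  ext x
  rcases x with a | b <;> simp

omit [Fintype V] [Fintype U] in
theorem erase_inr {inst : DecidableEq (V ⊕ U)} (u : U) (T : Finset V) (S : Finset U) :
    (T.disjSum S).erase (Sum.inr u) = T.disjSum (S.erase u) := by
  ext x
  rcases x with a | b <;> simp

theorem compl_disjSum {inst : DecidableEq (V ⊕ U)} (T : Finset V) (S : Finset U) :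
    (T.disjSum S)ᶜ = Tᶜ.disjSum Sᶜ := by
  ext x
  rcases x with a | b <;> simp

theorem clique_join (G : SimpleGraph V) (H : SimpleGraph U) (T : Finset V) (S : Finset U) :
    (join G H).IsClique ((T.disjSum S : Finset (V ⊕ U)) : Set (V ⊕ U)) ↔
      G.IsClique (T : Set V) ∧ H.IsClique (S : Set U) := by
  constructor
  · intro h
    refine ⟨fun a ha b hb hab => ?_, fun a ha b hb hab => ?_⟩
    · exact h (by simpa using ha : Sum.inl a ∈ _) (by simpa using hb : Sum.inl b ∈ _)
        (fun e => hab (Sum.inl_injective e))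
    · exact h (by simpa using ha : Sum.inr a ∈ _) (by simpa using hb : Sum.inr b ∈ _)
        (fun e => hab (Sum.inr_injective e))
  · rintro ⟨h1, h2⟩ x hx y hy hxy
    rcases x with a | a <;> rcases y with b | b
    · exact h1 (by simpa using hx) (by simpa using hy) (fun e => hxy (by rw [e]))
    · trivial
    · trivial
    · exact h2 (by simpa using hx) (by simpa using hy) (fun e => hxy (by rw [e]))

theorem join_simple_comm {A : Type} (J : SimpleGraph A) (u v : A) (h : J.Adj u v) (w : W J) :
    w * (cox J).simple u * (cox J).simple v = w * (cox J).simple v * (cox J).simple u := by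
  rw [mul_assoc, simple_comm J u v h, mul_assoc]

/-- the projection to the first factor -/
theorem inl_inj (G : SimpleGraph V) (H : SimpleGraph U) (J : SimpleGraph (V ⊕ U)) (hJ : J = join G H)
    (h : ∀ u u', G.Adj u u' → J.Adj (Sum.inl u) (Sum.inl u')) : Function.Injective (inc G J Sum.inl h) := by
  subst hJ
  let f : V ⊕ U → W G := fun x => match x with
    | Sum.inl v => (cox G).simple v
    | Sum.inr _ => 1
  have hf : (cox (join G H)).IsLiftable f := by
    refine Pool.Agent.W461.SGN.liftable _ f ?_ ?_
    · rintro (v | u)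
      · exact simple_mul_self G v
      · exact one_mul _
    · rintro (v | u) (v' | u') h
      · exact simple_comm G v v' h
      · show (cox G).simple v * 1 = 1 * (cox G).simple v
        rw [mul_one, one_mul]
      · show 1 * (cox G).simple v' = (cox G).simple v' * 1
        rw [mul_one, one_mul]
      · rfl
  let π : W (join G H) →* W G := (cox (join G H)).toCoxeterSystem.lift ⟨f, hf⟩
  have hπ : π.comp (inc G (join G H) Sum.inl h) = MonoidHom.id _ := by
    refine (cox G).toCoxeterSystem.ext_simple fun u => ?_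
    show π (inc G (join G H) Sum.inl h ((cox G).simple u)) = (cox G).simple u
    rw [inc_simple]
    exact CoxeterSystem.lift_apply_simple _ _ _
  intro a b hab
  have := congrArg π hab
  have e := fun a => congrArg (fun f => f a) hπ
  simp only [MonoidHom.comp_apply, MonoidHom.id_apply] at e
  rwa [e, e] at this

theorem inr_inj (G : SimpleGraph V) (H : SimpleGraph U) (J : SimpleGraph (V ⊕ U)) (hJ : J = join G H)
    (h : ∀ u u', H.Adj u u' → J.Adj (Sum.inr u) (Sum.inr u')) : Function.Injective (inc H J Sum.inr h) := by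
  subst hJ
  let f : V ⊕ U → W H := fun x => match x with
    | Sum.inl _ => 1
    | Sum.inr u => (cox H).simple u
  have hf : (cox (join G H)).IsLiftable f := by
    refine Pool.Agent.W461.SGN.liftable _ f ?_ ?_
    · rintro (v | u)
      · exact one_mul _
      · exact simple_mul_self H u
    · rintro (v | u) (v' | u') h
      · rfl
      · show 1 * (cox H).simple u' = (cox H).simple u' * 1
        rw [mul_one, one_mul]
      · show (cox H).simple u * 1 = 1 * (cox H).simple u
        rw [mul_one, one_mul]
      · exact simple_comm H u u' h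
  let π : W (join G H) →* W H := (cox (join G H)).toCoxeterSystem.lift ⟨f, hf⟩
  have hπ : π.comp (inc H (join G H) Sum.inr h) = MonoidHom.id _ := by
    refine (cox H).toCoxeterSystem.ext_simple fun u => ?_
    show π (inc H (join G H) Sum.inr h ((cox H).simple u)) = (cox H).simple u
    rw [inc_simple]
    exact CoxeterSystem.lift_apply_simple _ _ _
  intro a b hab
  have := congrArg π hab
  have e := fun a => congrArg (fun f => f a) hπ
  simp only [MonoidHom.comp_apply, MonoidHom.id_apply] at e
  rwa [e, e] at this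

theorem l2join_aux (G : SimpleGraph V) (H : SimpleGraph U) (J : SimpleGraph (V ⊕ U)) (hJ : J = join G H) (i : ℕ)
    (h : ∀ p q, p + q = i → L2Van G p ∨ L2Van H q) :
    @L2Van (V ⊕ U) _ (ordSum V U) J i := by
  intro c hc
  have cj : ∀ (T : Finset V) (S : Finset U), J.IsClique ((T.disjSum S : Finset (V ⊕ U)) : Set (V ⊕ U)) ↔
      G.IsClique (T : Set V) ∧ H.IsClique (S : Set U) := by
    subst hJ; exact clique_join G H
  have jlr : ∀ v u, J.Adj (Sum.inl v) (Sum.inr u) := by
    subst hJ; intro v u; trivial
  letI oo : LinearOrder (V ⊕ U) := ordSum V U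
  -- the chains as elements of the Hilbert space
  have hmem : ∀ T : Finset (V ⊕ U), Memℓp (fun w : W J => c w T) 2 := by
    intro T
    have h2 : 0 < (2 : ℝ≥0∞).toReal := by norm_num
    rw [memℓp_gen_iff h2]
    have h3 := hc.summable.comp_injective (i := fun w : W J => (w, T)) (fun a b hab => (Prod.mk.inj hab).1)
    refine h3.congr fun w => ?_
    have h4 : (2 : ℝ≥0∞).toReal = ((2 : ℕ) : ℝ) := by norm_num
    simp only [h4, Real.rpow_natCast, Real.norm_eq_abs, sq_abs, Function.comp]
  let x : Finset V → Finset U → lp (fun _ : W J => ℝ) 2 := fun T S => ⟨fun w => c w (T.disjSum S), hmem _⟩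
  have hx : ∀ T S (w : W J), x T S w = c w (T.disjSum S) := fun _ _ _ => rfl
  let R : V → lp (fun _ : W J => ℝ) 2 →ₗ[ℝ] lp (fun _ : W J => ℝ) 2 := fun v => RR ((cox J).simple (Sum.inl v))
  let Q : U → lp (fun _ : W J => ℝ) 2 →ₗ[ℝ] lp (fun _ : W J => ℝ) 2 := fun u => RR ((cox J).simple (Sum.inr u))
  have hR : ∀ v (a : lp (fun _ : W J => ℝ) 2) w, R v a w = a (w * (cox J).simple (Sum.inl v)) := fun _ _ _ => rfl
  have hQ : ∀ v (a : lp (fun _ : W J => ℝ) 2) w, Q v a w = a (w * (cox J).simple (Sum.inr v)) := fun _ _ _ => rfl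
  have ss1 : ∀ T S (w : W J), d1 x T S w = ∑ v ∈ Tᶜ, (sg v T : ℝ) * c w ((insert v T).disjSum S) := by
    intro T S w
    rw [d1, lp.coeFn_sum, Finset.sum_apply]
    refine Finset.sum_congr rfl fun v _ => ?_
    rw [lp.coeFn_smul, Pi.smul_apply, hx, smul_eq_mul]
  have ss2 : ∀ T S (w : W J), d2 x T S w = ∑ u ∈ Sᶜ, (sg u S : ℝ) * c w (T.disjSum (insert u S)) := by
    intro T S w
    rw [d2, lp.coeFn_sum, Finset.sum_apply]
    refine Finset.sum_congr rfl fun v _ => ?_
    rw [lp.coeFn_smul, Pi.smul_apply, hx, smul_eq_mul]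
  have ss3 : ∀ T S (w : W J), e1 R x T S w = ∑ t ∈ T, (sg t (T.erase t) : ℝ) * (c w ((T.erase t).disjSum S) -
      c (w * (cox J).simple (Sum.inl t)) ((T.erase t).disjSum S)) := by
    intro T S w
    rw [e1, lp.coeFn_sum, Finset.sum_apply]
    refine Finset.sum_congr rfl fun v _ => ?_
    rw [lp.coeFn_smul, Pi.smul_apply, lp.coeFn_sub, Pi.sub_apply, hR, hx, hx, smul_eq_mul]
  have ss4 : ∀ T S (w : W J), e2 Q x T S w = ∑ t ∈ S, (sg t (S.erase t) : ℝ) * (c w (T.disjSum (S.erase t)) -
      c (w * (cox J).simple (Sum.inr t)) (T.disjSum (S.erase t))) := by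
    intro T S w
    rw [e2, lp.coeFn_sum, Finset.sum_apply]
    refine Finset.sum_congr rfl fun v _ => ?_
    rw [lp.coeFn_smul, Pi.smul_apply, lp.coeFn_sub, Pi.sub_apply, hQ, hx, hx, smul_eq_mul]
  have hsp := split R Q (fun v => RR_adj _ (simple_mul_self J _)) (fun v => RR_adj _ (simple_mul_self J _))
    (fun v u a => by
      ext w
      rw [hR, hQ, hQ, hR, join_simple_comm J (Sum.inl v) (Sum.inr u) (jlr v u)])
    x
    (fun T S t ht => by
      ext w
      rw [hR, hx, lp.coeFn_neg, Pi.neg_apply, hx]
      exact hc.anti w _ _ (Finset.inl_mem_disjSum.2 ht))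
    (fun T S t ht => by
      ext w
      rw [hQ, hx, lp.coeFn_neg, Pi.neg_apply, hx]
      exact hc.anti w _ _ (Finset.inr_mem_disjSum.2 ht))
    (fun T => G.IsClique (T : Set V)) (fun S => H.IsClique (S : Set U))
    (fun T S hTS => by
      ext w
      rw [hx]
      refine hc.supp w _ fun h1 => hTS ?_
      exact (cj T S).1 h1.1)
    (fun T S => by
      ext w
      rw [lp.coeFn_add, Pi.add_apply, lp.coeFn_smul, Pi.smul_apply, ss1, ss2, smul_eq_mul]
      have h1 := hc.cycle w (T.disjSum S)
      rw [compl_disjSum, Finset.sum_disjSum] at h1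
      simp only [insert_inl, insert_inr, sg_inl, sg_inr] at h1
      rw [Finset.mul_sum]
      refine Eq.trans ?_ h1
      congr 1
      refine Finset.sum_congr rfl fun u _ => ?_
      push_cast
      ring)
    (fun T S hT hS => by
      ext w
      rw [lp.coeFn_add, Pi.add_apply, lp.coeFn_smul, Pi.smul_apply, ss3, ss4, smul_eq_mul]
      have h1 := hc.cocycle w (T.disjSum S) ((cj T S).2 ⟨hT, hS⟩)
      rw [Finset.sum_disjSum] at h1
      simp only [erase_inl, erase_inr, sg_inl, sg_inr] at h1
      rw [Finset.mul_sum]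
      refine Eq.trans ?_ h1
      congr 1
      refine Finset.sum_congr rfl fun u _ => ?_
      push_cast
      ring)
  obtain ⟨y1, y2, y3, y4⟩ := hsp
  -- inclusion of the two factors
  have hG : ∀ u u', G.Adj u u' → J.Adj (Sum.inl u) (Sum.inl u') := by
    subst hJ; exact fun _ _ h => h
  have hH : ∀ u u', H.Adj u u' → J.Adj (Sum.inr u) (Sum.inr u') := by
    subst hJ; exact fun _ _ h => h
  funext w T'
  rw [← Finset.toLeft_disjSum_toRight (u := T')]
  generalize T'.toLeft = T
  generalize T'.toRight = S
  by_cases hi : T.card + S.card = i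
  swap
  · refine hc.supp w _ fun h1 => hi ?_
    rw [← h1.2, Finset.card_disjSum]
  rcases h _ _ hi with h | h
  · have h5 := h (fun g T => c (w * inc G J Sum.inl hG g) (T.disjSum S)) ?_
    · have h6 := congrFun (congrFun h5 1) T
      simpa using h6
    · refine ⟨fun g T' hT => ?_, fun g T' t ht => ?_, ?_, fun g T' => ?_, fun g T' hT => ?_⟩
      · refine hc.supp _ _ fun h1 => hT ?_
        refine ⟨((cj T' S).1 h1.1).1, ?_⟩
        have := h1.2
        rw [Finset.card_disjSum] at this
        omega
      · rw [map_mul, inc_simple, ← mul_assoc]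
        exact hc.anti _ _ _ (Finset.inl_mem_disjSum.2 ht)
      · refine hc.summable.comp_injective (i := fun y : W G × Finset V =>
          (w * inc G J Sum.inl hG y.1, y.2.disjSum S)) ?_
        rintro ⟨g, T1⟩ ⟨g', T2⟩ hab
        simp only [Prod.mk.injEq, mul_right_inj, Finset.disjSum_inj, and_true] at hab
        exact Prod.ext (inl_inj G H J hJ hG hab.1) hab.2
      · have := congrArg (fun f : lp (fun _ : W J => ℝ) 2 => f (w * inc G J Sum.inl hG g)) (y1 T' S)
        simp only [ss1] at this
        exact this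
      · by_cases hS : H.IsClique (S : Set U)
        · have := congrArg (fun f : lp (fun _ : W J => ℝ) 2 => f (w * inc G J Sum.inl hG g)) (y3 T' S hT hS)
          simp only [ss3] at this
          refine Eq.trans ?_ this
          refine Finset.sum_congr rfl fun t _ => ?_
          rw [map_mul, inc_simple, ← mul_assoc]
        · refine Finset.sum_eq_zero fun t _ => ?_
          rw [hc.supp _ _ (fun h1 => hS ((cj _ S).1 h1.1).2),
            hc.supp _ _ (fun h1 => hS ((cj _ S).1 h1.1).2)]
          simp
  · have h5 := h (fun g S => c (w * inc H J Sum.inr hH g) (T.disjSum S)) ?_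
    · have h6 := congrFun (congrFun h5 1) S
      simpa using h6
    · refine ⟨fun g T' hT => ?_, fun g T' t ht => ?_, ?_, fun g T' => ?_, fun g T' hT => ?_⟩
      · refine hc.supp _ _ fun h1 => hT ?_
        refine ⟨((cj T T').1 h1.1).2, ?_⟩
        have := h1.2
        rw [Finset.card_disjSum] at this
        omega
      · rw [map_mul, inc_simple, ← mul_assoc]
        exact hc.anti _ _ _ (Finset.inr_mem_disjSum.2 ht)
      · refine hc.summable.comp_injective (i := fun y : W H × Finset U =>
          (w * inc H J Sum.inr hH y.1, T.disjSum y.2)) ?_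
        rintro ⟨g, T1⟩ ⟨g', T2⟩ hab
        simp only [Prod.mk.injEq, mul_right_inj, Finset.disjSum_inj, true_and] at hab
        exact Prod.ext (inr_inj G H J hJ hH hab.1) hab.2
      · have := congrArg (fun f : lp (fun _ : W J => ℝ) 2 => f (w * inc H J Sum.inr hH g)) (y2 T T')
        simp only [ss2] at this
        exact this
      · by_cases hS : G.IsClique (T : Set V)
        · have := congrArg (fun f : lp (fun _ : W J => ℝ) 2 => f (w * inc H J Sum.inr hH g)) (y4 T T' hS hT)
          simp only [ss4] at this
          refine Eq.trans ?_ this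
          refine Finset.sum_congr rfl fun t _ => ?_
          rw [map_mul, inc_simple, ← mul_assoc]
        · refine Finset.sum_eq_zero fun t _ => ?_
          rw [hc.supp _ _ (fun h1 => hS ((cj T _).1 h1.1).1),
            hc.supp _ _ (fun h1 => hS ((cj T _).1 h1.1).1)]
          simp

end Main

/-- `ℓ²`-vanishing for joins -/
theorem ljoin {V U : Type} [Finite V] [Finite U] (G : SimpleGraph V) (H : SimpleGraph U) (i : ℕ)
    (h : ∀ p q, p + q = i → LV G p ∨ LV H q) : LV (join G H) i := by
  classical
  have : Fintype V := Fintype.ofFinite V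
  have : Fintype U := Fintype.ofFinite U
  obtain ⟨oV⟩ : Nonempty (LinearOrder V) :=
    ⟨LinearOrder.lift' (Fintype.equivFin V) (Fintype.equivFin V).injective⟩
  obtain ⟨oU⟩ : Nonempty (LinearOrder U) :=
    ⟨LinearOrder.lift' (Fintype.equivFin U) (Fintype.equivFin U).injective⟩
  intro hf o
  refine ord (V ⊕ U) (V ⊕ U) (instFintypeSum V U) hf (ordSum V U) o (join G H) (join G H) i
    ⟨SimpleGraph.Iso.refl⟩ (l2join_aux G H _ rfl i fun p q hpq => ?_)
  rcases h p q hpq with h | h
  · exact Or.inl (h _ _)
  · exact Or.inr (h _ _)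

end Pool.Agent.TH652.Join
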