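import Pool.Agent.H7.L.W907_SM_Final
import Pool.Agent.H7.L.TH652_JoinL2
import Pool.Agent.H7.L.TH652_Glue

/-!
# `ℓ²`-vanishing above the middle: closure properties
-/

set_option autoImplicit false
set_option linter.unusedSectionVars false

namespace Pool.Agent.TH652.Above

open Pool.Agent.W907.SG Pool.Agent.W907.SM
open Pool.Agent.W907.SM.Clo (Lk mem_Lk iso_of esub_some_some esub_none_some esub_some_none esub_none_none esub_comm)
open Pool.Agent.TH652.Join (join ljoin)
open Pool.Agent.TH652.Glue (lglue)

/-- transport of `LV` along a map which is an isomorphism onto its image -/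
theorem lv_img {U V : Type} {H : SimpleGraph U} {G : SimpleGraph V} (f : U → V) (A : Set U)
    (hinj : ∀ a ∈ A, ∀ b ∈ A, f a = f b → a = b)
    (hadj : ∀ a ∈ A, ∀ b ∈ A, (G.Adj (f a) (f b) ↔ H.Adj a b)) (i : ℕ) :
    LV (H.induce A) i ↔ LV (G.induce (f '' A)) i := by
  have e : Nonempty (H.induce A ≃g G.induce (f '' A)) :=
    iso_of H G A (f '' A) f (fun a ha => ⟨a, ha, rfl⟩) hinj (fun b hb => hb) hadj
  constructor
  · exact liso _ _ _ _ i e
  · exact liso _ _ _ _ i ⟨e.some.symm⟩

theorem lv_set {V : Type} {G : SimpleGraph V} {A B : Set V} {i : ℕ} (h : B = A) (hA : LV (G.induce A) i) :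
    LV (G.induce B) i := by
  rw [h]; exact hA

theorem lv_sub {V : Type} (G : SimpleGraph V) (D : Set V) (X : Set ↥D) (i : ℕ) :
    LV ((G.induce D).induce X) i ↔ LV (G.induce (Subtype.val '' X)) i :=
  lv_img Subtype.val X (fun _ _ _ _ h => Subtype.ext h) (fun _ _ _ _ => Iff.rfl) i

theorem lv_univ {V : Type} (G : SimpleGraph V) (i : ℕ) : LV (G.induce Set.univ) i ↔ LV G i :=
  ⟨liso _ _ _ _ i ⟨SimpleGraph.induceUnivIso G⟩, liso _ _ _ _ i ⟨(SimpleGraph.induceUnivIso G).symm⟩⟩

/-- adding a vertex, relative form -/
theorem lv_add {V : Type} [Finite V] (G : SimpleGraph V) (A : Set V) (v : V) (hv : v ∈ A) (i : ℕ)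
    (h1 : LV (G.induce (A \ {v})) i) (h2 : ∀ j, i = j + 1 → LV (G.induce (A ∩ G.neighborSet v)) j) :
    LV (G.induce A) i := by
  refine lstep1 ↥A (G.induce A) ⟨v, hv⟩ i ?_ (fun j hj => ?_)
  · rw [lv_sub]
    refine lv_set ?_ (h1)
    ext x
    simp only [Set.mem_image, Set.mem_compl_iff, Set.mem_singleton_iff, Subtype.exists, exists_and_right,
      exists_eq_right, Set.mem_sdiff, Subtype.mk.injEq]
    constructor
    · rintro ⟨a, b⟩; exact ⟨a, b⟩
    · rintro ⟨a, b⟩; exact ⟨a, b⟩
  · rw [lv_sub]
    refine lv_set ?_ (h2 j hj)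
    ext x
    simp only [Set.mem_image, SimpleGraph.mem_neighborSet, Subtype.exists, exists_and_right,
      exists_eq_right, Set.mem_inter_iff]
    constructor
    · rintro ⟨a, b⟩; exact ⟨a, b⟩
    · rintro ⟨a, b⟩; exact ⟨a, b⟩

/-- a single vertex -/
theorem lv_point (i : ℕ) (hi : 1 ≤ i) : LV (⊥ : SimpleGraph Unit) i := by
  intro _ _ c hc
  funext w T
  rcases Nat.lt_or_ge 1 i with h | h
  · refine hc.supp w T fun h1 => ?_
    have h2 : T.card ≤ 1 := Finset.card_le_one_of_subsingleton T
    omega
  · have hi1 : i = 1 := le_antisymm h hi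
    subst hi1
    by_cases hT : T = ∅
    · refine hc.supp w T fun h1 => ?_
      rw [hT] at h1
      simp at h1
    · have h2 := hc.cycle w ∅
      rw [Finset.sum_eq_single ()] at h2
      · have h4 : ∀ S : Finset Unit, S.Nonempty → S = T := by
          intro S hS
          ext x
          obtain ⟨y, hy⟩ := Finset.nonempty_iff_ne_empty.2 hT
          obtain ⟨z, hz⟩ := hS
          exact iff_of_true hz hy
        have h5 : (sg () (∅ : Finset Unit) : ℤ) = 1 := by simp [sg]
        rw [h5, Int.cast_one, one_mul] at h2
        rw [Pi.zero_apply, Pi.zero_apply]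
        convert h2 using 2
        refine (h4 _ ?_).symm
        exact ⟨(), by simp⟩
      · intro b _ hb
        exact absurd rfl hb
      · intro hb
        simp at hb

/-- coning -/
theorem lv_cone {V : Type} [Finite V] (G : SimpleGraph V) (A : Set V) (v : V) (hv : v ∉ A) (hA : ∀ a ∈ A, G.Adj v a)
    (i : ℕ) (h : LV (G.induce A) i) : LV (G.induce (insert v A)) i := by
  have h1 : LV (join (G.induce A) (⊥ : SimpleGraph Unit)) i := by
    refine ljoin _ _ i fun p q hpq => ?_
    rcases Nat.eq_zero_or_pos q with h0 | h0
    · left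
      have : p = i := by omega
      rwa [this]
    · exact Or.inr (lv_point q h0)
  rw [← lv_univ] at h1
  have h2 := (lv_img (G := G) (fun x : ↥A ⊕ Unit => match x with
    | Sum.inl a => a.1
    | Sum.inr _ => v) Set.univ ?_ ?_ i).1 h1
  · refine lv_set ?_ (h2)
    ext x
    simp only [Set.mem_insert_iff, Set.mem_image, Set.mem_univ, true_and]
    constructor
    · rintro (rfl | hx)
      · exact ⟨Sum.inr (), rfl⟩
      · exact ⟨Sum.inl ⟨x, hx⟩, rfl⟩
    · rintro ⟨y | y, rfl⟩
      · exact Or.inr y.2
      · exact Or.inl rfl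
  · rintro (a | a) _ (b | b) _ hab
    · exact congrArg Sum.inl (Subtype.ext hab)
    · have h3 : a.1 = v := hab
      exact absurd (h3 ▸ a.2) hv
    · have h3 : v = b.1 := hab
      exact absurd (h3 ▸ b.2) hv
    · rfl
  · rintro (a | a) _ (b | b) _
    · exact Iff.rfl
    · exact iff_of_true (hA _ a.2).symm trivial
    · exact iff_of_true (hA _ b.2) trivial
    · exact iff_of_false (G.loopless.irrefl v) (fun h => h)

/-- the closure motive: vanishing above the middle for all full subcomplexes of all links -/
def P (n : ℕ) {V : Type} (G : SimpleGraph V) : Prop :=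
  Finite V ∧ ∀ T : Finset V, G.IsClique (T : Set V) → ∀ A : Set V, A ⊆ Lk G T → ∀ i : ℕ, n < 2 * i + T.card →
    LV (G.induce A) i

theorem P_emb {n : ℕ} {U V : Type} (G : SimpleGraph V) (H : SimpleGraph U) (φ : H ↪g G) (h : P n G) : P n H := by
  classical
  obtain ⟨hfin, h⟩ := h
  refine ⟨Finite.of_injective φ φ.injective, fun T hT A hA i hi => ?_⟩
  refine (lv_img (G := G) φ A (fun _ _ _ _ h => φ.injective h) (fun _ _ _ _ => φ.map_adj_iff) i).2 ?_
  refine h (T.map φ.toEmbedding) ?_ _ ?_ i (by rwa [Finset.card_map])
  · intro a ha b hb hab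
    simp only [Finset.coe_map, Set.mem_image, Finset.mem_coe] at ha hb
    obtain ⟨x, hx, rfl⟩ := ha
    obtain ⟨y, hy, rfl⟩ := hb
    exact φ.map_adj_iff.2 (hT hx hy fun e => hab (by rw [e]))
  · rintro _ ⟨a, ha, rfl⟩ t ht
    rw [Finset.mem_map] at ht
    obtain ⟨y, hy, rfl⟩ := ht
    exact φ.map_adj_iff.2 (hA ha y hy)

theorem P_full {n : ℕ} {V : Type} (G : SimpleGraph V) (A : Set V) (h : P n G) : P n (G.induce A) :=
  P_emb G (G.induce A) (SimpleGraph.Embedding.induce A) h

theorem P_iso {n : ℕ} {V U : Type} (G : SimpleGraph V) (H : SimpleGraph U) (e : G ≃g H) (h : P n G) : P n H :=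
  P_emb G H e.symm.toEmbedding h

theorem P_join {m n : ℕ} {V U : Type} (G : SimpleGraph V) (H : SimpleGraph U) (h1 : P m G) (h2 : P n H) :
    P (m + n) (join G H) := by
  classical
  obtain ⟨hf1, h1⟩ := h1
  obtain ⟨hf2, h2⟩ := h2
  refine ⟨inferInstance, fun T' hT D hD i hi => ?_⟩
  have hcard : T'.toLeft.card + T'.toRight.card = T'.card := Finset.card_toLeft_add_card_toRight
  set D1 : Set V := {a | Sum.inl a ∈ D} with hD1
  set D2 : Set U := {a | Sum.inr a ∈ D} with hD2
  have hL : ∀ p, m < 2 * p + T'.toLeft.card → LV (G.induce D1) p := by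
    intro p hp
    refine h1 T'.toLeft ?_ D1 ?_ p hp
    · intro a ha b hb hab
      exact hT (Finset.mem_toLeft.1 ha) (Finset.mem_toLeft.1 hb) (fun e => hab (Sum.inl_injective e))
    · intro a ha t ht
      exact hD ha (Sum.inl t) (Finset.mem_toLeft.1 ht)
  have hR : ∀ q, n < 2 * q + T'.toRight.card → LV (H.induce D2) q := by
    intro p hp
    refine h2 T'.toRight ?_ D2 ?_ p hp
    · intro a ha b hb hab
      exact hT (Finset.mem_toRight.1 ha) (Finset.mem_toRight.1 hb) (fun e => hab (Sum.inr_injective e))
    · intro a ha t ht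
      exact hD ha (Sum.inr t) (Finset.mem_toRight.1 ht)
  have h3 : LV (join (G.induce D1) (H.induce D2)) i := by
    refine ljoin _ _ i fun p q hpq => ?_
    by_cases hp : m < 2 * p + T'.toLeft.card
    · exact Or.inl (hL p hp)
    · exact Or.inr (hR q (by omega))
  rw [← lv_univ] at h3
  have h4 := (lv_img (G := join G H) (fun x : ↥D1 ⊕ ↥D2 => match x with
    | Sum.inl a => Sum.inl a.1
    | Sum.inr b => Sum.inr b.1) Set.univ ?_ ?_ i).1 h3
  · refine lv_set ?_ (h4)
    ext x
    simp only [Set.mem_image, Set.mem_univ, true_and]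
    constructor
    · intro hx
      rcases x with a | a
      · exact ⟨Sum.inl ⟨a, hx⟩, rfl⟩
      · exact ⟨Sum.inr ⟨a, hx⟩, rfl⟩
    · rintro ⟨y | y, rfl⟩
      · exact y.2
      · exact y.2
  · rintro (a | a) _ (b | b) _ hab
    · exact congrArg Sum.inl (Subtype.ext (Sum.inl_injective hab))
    · cases hab
    · cases hab
    · exact congrArg Sum.inr (Subtype.ext (Sum.inr_injective hab))
  · rintro (a | a) _ (b | b) _ <;> exact Iff.rfl

/-! ### edge subdivision -/

section Sub
variable {n : ℕ} {V : Type} (G : SimpleGraph V) (s t : V)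

theorem clique_insert2 {G : SimpleGraph V} {s t : V} {T : Finset V} [DecidableEq V] (hst : G.Adj s t)
    (hT : G.IsClique (T : Set V)) (h : ∀ u ∈ T, G.Adj u s ∧ G.Adj u t) :
    G.IsClique ((insert s (insert t T) : Finset V) : Set V) := by
  rw [Finset.coe_insert, Finset.coe_insert, SimpleGraph.isClique_insert, SimpleGraph.isClique_insert]
  refine ⟨⟨hT, fun b hb _ => (h b hb).2.symm⟩, ?_⟩
  intro b hb hne
  rcases hb with rfl | hb
  · exact hst
  · exact (h b hb).1.symm

/-- vanishing for full subcomplexes of the old vertices -/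
theorem edel (hst : G.Adj s t) (h : P n G) (T : Finset V) (hT : G.IsClique (T : Set V)) (A : Set V)
    (hA : A ⊆ Lk G T) (i : ℕ) (hi : n < 2 * i + T.card) : LV ((esub G s t).induce (some '' A)) i := by
  classical
  obtain ⟨hfin, h⟩ := h
  have hmain := h T hT A hA i hi
  by_cases hm : s ∈ A ∧ t ∈ A
  · obtain ⟨hs, ht⟩ := hm
    have hdel := lstep2 ↥A (G.induce A) ⟨s, hs⟩ ⟨t, ht⟩ i hst hmain (fun j hj => by
      rw [lv_sub]
      have hsT : s ∉ T := fun h => G.loopless.irrefl s (hA hs s h)
      have htT : t ∉ T := fun h => G.loopless.irrefl t (hA ht t h)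
      refine h (insert s (insert t T)) (clique_insert2 hst hT fun u hu => ⟨hA hs u hu, hA ht u hu⟩) _ ?_ j ?_
      · rintro _ ⟨x, ⟨hx1, hx2⟩, rfl⟩ u hu
        rw [Finset.mem_insert, Finset.mem_insert] at hu
        rcases hu with rfl | rfl | hu
        · exact hx1
        · exact hx2
        · exact hA x.2 u hu
      · rw [Finset.card_insert_of_notMem (by simp [hst.ne, hsT]), Finset.card_insert_of_notMem htT]
        omega)
    rw [← lv_univ] at hdel
    have h4 := (lv_img (G := esub G s t) (fun x : ↥A => some x.1) Set.univ ?_ ?_ i).1 hdel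
    · refine lv_set ?_ (h4)
      ext x
      simp only [Set.mem_image, Set.mem_univ, true_and, Subtype.exists, exists_prop]
    · intro a _ b _ hab
      exact Subtype.ext (Option.some_injective _ hab)
    · intro a _ b _
      rw [esub_some_some, SimpleGraph.deleteEdges_adj]
      simp only [SimpleGraph.comap_adj, Function.Embedding.subtype_apply, Set.mem_singleton_iff,
        Sym2.eq_iff, Subtype.ext_iff]
      tauto
  · refine (lv_img (G := esub G s t) some A (fun a _ b _ hab => Option.some_injective _ hab) ?_ i).1 hmain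
    intro a ha b hb
    rw [esub_some_some]
    refine ⟨fun h => h.1, fun h => ⟨h, ?_, ?_⟩⟩
    · rintro ⟨rfl, rfl⟩; exact hm ⟨ha, hb⟩
    · rintro ⟨rfl, rfl⟩; exact hm ⟨hb, ha⟩

/-- the part of the link of the new vertex -/
theorem halo (hst : G.Adj s t) (h : P n G) (T : Finset V) (hT : G.IsClique (T : Set V)) (hs : s ∉ T) (ht : t ∉ T)
    (hadj : ∀ u ∈ T, G.Adj u s ∧ G.Adj u t) (A : Set V)
    (hA : ∀ a ∈ A, a ∈ Lk G T ∧ (a = s ∨ a = t ∨ (G.Adj a s ∧ G.Adj a t))) (j : ℕ)
    (hj : n < 2 * j + (T.card + 2)) : LV ((esub G s t).induce (some '' A)) j := by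
  classical
  have hfin := h.1
  have hst' := hst.ne
  -- the vertices other than `s` and `t`
  set A0 : Set V := {a | a ∈ A ∧ a ≠ s ∧ a ≠ t} with hA0
  have hA0' : ∀ a ∈ A0, G.Adj a s ∧ G.Adj a t := by
    rintro a ⟨ha, has, hat⟩
    rcases (hA a ha).2 with h | h | h
    · exact absurd h has
    · exact absurd h hat
    · exact h
  have h0 : LV ((esub G s t).induce (some '' A0)) j := by
    refine edel G s t hst h (insert s (insert t T)) (clique_insert2 hst hT hadj) A0 ?_ j ?_
    · intro a ha u hu
      rw [Finset.mem_insert, Finset.mem_insert] at hu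
      rcases hu with rfl | rfl | hu
      · exact (hA0' a ha).1.symm
      · exact (hA0' a ha).2.symm
      · exact (hA a ha.1).1 u hu
    · rw [Finset.card_insert_of_notMem (by simp [hst', hs]), Finset.card_insert_of_notMem ht]
      omega
  by_cases hsA : s ∈ A
  · by_cases htA : t ∈ A
    · -- a suspension
      refine lsusp _ _ (⟨some s, ⟨s, hsA, rfl⟩⟩ : ↥(some '' A)) ⟨some t, ⟨t, htA, rfl⟩⟩ j ?_ ?_ ?_
      · intro h1
        exact hst' (Option.some_injective _ (congrArg Subtype.val h1))
      · intro h1
        have h3 : (esub G s t).Adj (some s) (some t) := h1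
        rw [esub_some_some] at h3
        exact h3.2.1 ⟨rfl, rfl⟩
      · rintro ⟨_, ⟨a, ha, rfl⟩⟩ h1 h2
        have has : a ≠ s := fun e => h1 (by subst e; rfl)
        have hat : a ≠ t := fun e => h2 (by subst e; rfl)
        have h4 := hA0' a ⟨ha, has, hat⟩
        refine ⟨?_, ?_⟩
        · show (esub G s t).Adj (some a) (some s)
          rw [esub_some_some]
          exact ⟨h4.1, fun e => has e.1, fun e => hat e.1⟩
        · show (esub G s t).Adj (some a) (some t)
          rw [esub_some_some]
          exact ⟨h4.2, fun e => has e.1, fun e => hat e.1⟩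
    · have h1 := lv_cone (esub G s t) (some '' A0) (some s) (by simp [hA0]) (by
        rintro _ ⟨a, ha, rfl⟩
        rw [esub_some_some]
        exact ⟨(hA0' a ha).1.symm, fun e => ha.2.2 e.2, fun e => ha.2.1 e.2⟩) j h0
      refine lv_set ?_ (h1)
      ext x
      simp only [Set.mem_image, Set.mem_insert_iff, hA0, Set.mem_ofPred_eq]
      constructor
      · rintro ⟨a, ha, rfl⟩
        by_cases has : a = s
        · exact Or.inl (by rw [has])
        · exact Or.inr ⟨a, ⟨ha, has, fun e => htA (e ▸ ha)⟩, rfl⟩
      · rintro (rfl | ⟨a, ha, rfl⟩)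
        · exact ⟨s, hsA, rfl⟩
        · exact ⟨a, ha.1, rfl⟩
  · by_cases htA : t ∈ A
    · have h1 := lv_cone (esub G s t) (some '' A0) (some t) (by simp [hA0]) (by
        rintro _ ⟨a, ha, rfl⟩
        rw [esub_some_some]
        exact ⟨(hA0' a ha).2.symm, fun e => ha.2.2 e.2, fun e => ha.2.1 e.2⟩) j h0
      refine lv_set ?_ (h1)
      ext x
      simp only [Set.mem_image, Set.mem_insert_iff, hA0, Set.mem_ofPred_eq]
      constructor
      · rintro ⟨a, ha, rfl⟩
        by_cases hat : a = t
        · exact Or.inl (by rw [hat])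
        · exact Or.inr ⟨a, ⟨ha, fun e => hsA (e ▸ ha), hat⟩, rfl⟩
      · rintro (rfl | ⟨a, ha, rfl⟩)
        · exact ⟨t, htA, rfl⟩
        · exact ⟨a, ha.1, rfl⟩
    · have : A0 = A := by
        ext a
        simp only [hA0, Set.mem_ofPred_eq, and_iff_left_iff_imp]
        intro ha
        exact ⟨fun e => hsA (e ▸ ha), fun e => htA (e ▸ ha)⟩
      rwa [this] at h0

/-- the case where `s` lies in the clique -/
theorem sub_s (hst : G.Adj s t) (h : P n G) (T' : Finset (Option V))
    (hT' : (esub G s t).IsClique (T' : Set (Option V))) (hs' : some s ∈ T') (D' : Set (Option V))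
    (hD' : D' ⊆ Lk (esub G s t) T') (i : ℕ) (hi : n < 2 * i + T'.card) : LV ((esub G s t).induce D') i := by
  classical
  have hfin := h.1
  have hst' := hst.ne
  set T := Finset.eraseNone T' with hTdef
  have hTi : ∀ a, a ∈ T ↔ some a ∈ T' := fun a => Finset.mem_eraseNone
  have htT' : some t ∉ T' := by
    intro ht
    have := hT' hs' ht (by simpa using hst')
    rw [esub_some_some] at this
    exact this.2.1 ⟨rfl, rfl⟩
  have htT : t ∉ T := fun e => htT' ((hTi t).1 e)
  have hsT : s ∈ T := (hTi s).2 hs'
  have hTG : G.IsClique (T : Set V) := by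
    intro a ha b hb hab
    have := hT' ((hTi a).mp ha) ((hTi b).mp hb) (by simpa using hab)
    rw [esub_some_some] at this
    exact this.1
  set D : Set V := {a | some a ∈ D'} with hD
  have hDL : ∀ a ∈ D, a ∈ Lk G T ∧ a ≠ s ∧ a ≠ t := by
    intro a ha
    refine ⟨fun u hu => ?_, ?_, ?_⟩
    · have := hD' ha (some u) ((hTi u).1 hu)
      rw [esub_some_some] at this
      exact this.1
    · intro e
      have := hD' ha (some s) hs'
      rw [esub_some_some] at this
      exact G.loopless.irrefl s (e ▸ this.1)
    · intro e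
      have := hD' ha (some s) hs'
      rw [esub_some_some] at this
      exact this.2.1 ⟨rfl, e⟩
  by_cases hN : none ∈ T'
  · -- all elements of `T` other than `s` are adjacent to `s` and `t`
    have hadj : ∀ u ∈ T, u ≠ s → G.Adj u s ∧ G.Adj u t := by
      intro u hu hus
      have h1 := hT' hN ((hTi u).1 hu) (by simp)
      rw [esub_none_some] at h1
      rcases h1 with h1 | h1 | h1
      · exact absurd h1 hus
      · exact absurd (h1 ▸ hu) htT
      · exact h1
    have hnone : none ∉ D' := fun hn => (esub_none_none G s t).1 (hD' hn none hN)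
    have hDeq : D' = some '' D := by
      ext x
      rcases x with _ | a
      · simp [hnone]
      · simp [hD]
    rw [hDeq]
    refine edel G s t hst h (insert t T) ?_ D ?_ i ?_
    · rw [Finset.coe_insert, SimpleGraph.isClique_insert]
      refine ⟨hTG, fun b hb _ => ?_⟩
      by_cases hbs : b = s
      · rw [hbs]; exact hst.symm
      · exact (hadj b hb hbs).2.symm
    · intro a ha u hu
      rw [Finset.mem_insert] at hu
      rcases hu with rfl | hu
      · have h1 := hD' ha none hN
        rw [esub_none_some] at h1
        rcases h1 with h1 | h1 | h1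
        · exact absurd h1 (hDL a ha).2.1
        · exact absurd h1 (hDL a ha).2.2
        · exact h1.2.symm
      · exact (hDL a ha).1 u hu
    · have h1 : (insert t T).card = T'.card := by
        rw [Finset.card_insert_of_notMem htT]
        have : T' = Finset.insertNone T := by
          rw [hTdef, Finset.insertNone_eraseNone, Finset.insert_eq_of_mem hN]
        rw [this, Finset.card_insertNone]
      rwa [h1]
  · have hcard : T.card = T'.card := by
      have : T' = T.map Function.Embedding.some := by
        rw [hTdef, Finset.map_some_eraseNone, Finset.erase_eq_of_notMem hN]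
      rw [this, Finset.card_map]
    by_cases hn : none ∈ D'
    · -- the new vertex plays the role of `t`
      have htL : t ∈ Lk G T := by
        intro u hu
        by_cases hus : u = s
        · rw [hus]; exact hst
        · have h1 := hD' hn (some u) ((hTi u).1 hu)
          rw [esub_some_none] at h1
          rcases h1 with h1 | h1 | h1
          · exact absurd h1 hus
          · exact absurd (h1 ▸ hu) htT
          · exact h1.2
      have hmain := h.2 T hTG (insert t D) (by
        intro a ha
        rcases ha with rfl | ha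
        · exact htL
        · exact (hDL a ha).1) i (by rwa [hcard])
      have h4 := (lv_img (G := esub G s t) (fun a => if a = t then none else some a) (insert t D) ?_ ?_ i).1 hmain
      · refine lv_set ?_ (h4)
        ext x
        simp only [Set.mem_image, Set.mem_insert_iff]
        constructor
        · intro hx
          rcases x with _ | a
          · exact ⟨t, Or.inl rfl, by simp⟩
          · exact ⟨a, Or.inr hx, by simp [(hDL a hx).2.2]⟩
        · rintro ⟨a, ha, rfl⟩
          rcases ha with rfl | ha
          · simpa using hn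
          · rw [if_neg (hDL a ha).2.2]
            exact ha
      · intro a _ b _ hab
        by_cases hat : a = t
        · by_cases hbt : b = t
          · rw [hat, hbt]
          · simp [hat, hbt] at hab
        · by_cases hbt : b = t
          · simp [hat, hbt] at hab
          · simpa [hat, hbt] using hab
      · intro a ha b hb
        have key : ∀ a ∈ D, (esub G s t).Adj none (some a) ↔ G.Adj t a := by
          intro a ha
          rw [esub_none_some]
          have h1 := (hDL a ha).1 s hsT
          constructor
          · rintro (h2 | h2 | h2)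
            · exact absurd h2 (hDL a ha).2.1
            · exact absurd h2 (hDL a ha).2.2
            · exact h2.2.symm
          · intro h2
            exact Or.inr (Or.inr ⟨h1.symm, h2.symm⟩)
        rcases ha with rfl | ha
        · rcases hb with rfl | hb
          · simp [esub_none_none]
          · simp only [if_true, if_neg (hDL b hb).2.2]
            exact key b hb
        · rcases hb with rfl | hb
          · simp only [if_true, if_neg (hDL a ha).2.2]
            rw [SimpleGraph.adj_comm, key a ha, SimpleGraph.adj_comm]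
          · simp only [if_neg (hDL a ha).2.2, if_neg (hDL b hb).2.2]
            rw [esub_some_some]
            refine ⟨fun h => h.1, fun h => ⟨h, fun e => (hDL a ha).2.1 e.1, fun e => (hDL a ha).2.2 e.1⟩⟩
    · have hDeq : D' = some '' D := by
        ext x
        rcases x with _ | a
        · simp [hn]
        · simp [hD]
      rw [hDeq]
      exact edel G s t hst h T hTG D (fun a ha => (hDL a ha).1) i (by rwa [hcard])

/-- the case where `s, t` are not in the clique -/
theorem sub_nst (hst : G.Adj s t) (h : P n G) (T' : Finset (Option V))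
    (hT' : (esub G s t).IsClique (T' : Set (Option V))) (hs' : some s ∉ T') (ht' : some t ∉ T') (D' : Set (Option V))
    (hD' : D' ⊆ Lk (esub G s t) T') (i : ℕ) (hi : n < 2 * i + T'.card) : LV ((esub G s t).induce D') i := by
  classical
  have hfin := h.1
  have hst' := hst.ne
  set T := Finset.eraseNone T' with hTdef
  have hTi : ∀ a, a ∈ T ↔ some a ∈ T' := fun a => Finset.mem_eraseNone
  have htT : t ∉ T := fun e => ht' ((hTi t).1 e)
  have hsT : s ∉ T := fun e => hs' ((hTi s).1 e)
  have hTG : G.IsClique (T : Set V) := by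
    intro a ha b hb hab
    have := hT' ((hTi a).mp ha) ((hTi b).mp hb) (by simpa using hab)
    rw [esub_some_some] at this
    exact this.1
  set D : Set V := {a | some a ∈ D'} with hD
  have hDL : D ⊆ Lk G T := by
    intro a ha u hu
    have := hD' ha (some u) ((hTi u).1 hu)
    rw [esub_some_some] at this
    exact this.1
  by_cases hN : none ∈ T'
  · have hadj : ∀ u ∈ T, G.Adj u s ∧ G.Adj u t := by
      intro u hu
      have h1 := hT' hN ((hTi u).1 hu) (by simp)
      rw [esub_none_some] at h1
      rcases h1 with h1 | h1 | h1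
      · exact absurd (h1 ▸ hu) hsT
      · exact absurd (h1 ▸ hu) htT
      · exact h1
    have hnone : none ∉ D' := fun hn => (esub_none_none G s t).1 (hD' hn none hN)
    have hDeq : D' = some '' D := by
      ext x
      rcases x with _ | a
      · simp [hnone]
      · simp [hD]
    have hcard : T.card + 1 = T'.card := by
      have : T' = Finset.insertNone T := by
        rw [hTdef, Finset.insertNone_eraseNone, Finset.insert_eq_of_mem hN]
      rw [this, Finset.card_insertNone]
    rw [hDeq]
    refine halo G s t hst h T hTG hsT htT hadj D (fun a ha => ⟨hDL ha, ?_⟩) i (by omega)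
    have h1 := hD' ha none hN
    rwa [esub_none_some] at h1
  · have hcard : T.card = T'.card := by
      have : T' = T.map Function.Embedding.some := by
        rw [hTdef, Finset.map_some_eraseNone, Finset.erase_eq_of_notMem hN]
      rw [this, Finset.card_map]
    by_cases hn : none ∈ D'
    · have hadj : ∀ u ∈ T, G.Adj u s ∧ G.Adj u t := by
        intro u hu
        have h1 := hD' hn (some u) ((hTi u).1 hu)
        rw [esub_some_none] at h1
        rcases h1 with h1 | h1 | h1
        · exact absurd (h1 ▸ hu) hsT
        · exact absurd (h1 ▸ hu) htT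
        · exact h1
      refine lv_add (esub G s t) D' none hn i ?_ (fun j hj => ?_)
      · have hDeq : D' \ {none} = some '' D := by
          ext x
          rcases x with _ | a
          · simp
          · simp [hD]
        rw [hDeq]
        exact edel G s t hst h T hTG D hDL i (by rwa [hcard])
      · have hDeq : D' ∩ (esub G s t).neighborSet none =
            some '' (D ∩ {a | a = s ∨ a = t ∨ (G.Adj a s ∧ G.Adj a t)}) := by
          ext x
          rcases x with _ | a
          · simp [esub_none_none]
          · simp [hD, esub_none_some]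
        rw [hDeq]
        exact halo G s t hst h T hTG hsT htT hadj _ (fun a ha => ⟨hDL ha.1, ha.2⟩) j (by omega)
    · have hDeq : D' = some '' D := by
        ext x
        rcases x with _ | a
        · simp [hn]
        · simp [hD]
      rw [hDeq]
      exact edel G s t hst h T hTG D hDL i (by rwa [hcard])

theorem P_sub (hst : G.Adj s t) (h : P n G) : P n (esub G s t) := by
  have hfin := h.1
  refine ⟨inferInstance, fun T' hT' D' hD' i hi => ?_⟩
  by_cases hsm : some s ∈ T'
  · exact sub_s G s t hst h T' hT' hsm D' hD' i hi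
  · by_cases htm : some t ∈ T'
    · have := sub_s G t s hst.symm h T' (by rw [esub_comm]; exact hT') htm D' (by rw [esub_comm]; exact hD') i hi
      rwa [esub_comm] at this
    · exact sub_nst G s t hst h T' hT' hsm htm D' hD' i hi

end Sub

/-! ### the local condition in even dimensions -/

theorem P_loc {m : ℕ} {V : Type} [Finite V] (G : SimpleGraph V)
    (h : ∀ v, P (2 * m + 1) (G.induce (G.neighborSet v))) : P (2 * m + 2) G := by
  classical
  refine ⟨inferInstance, fun T hT A hA i hi => ?_⟩
  rcases T.eq_empty_or_nonempty with rfl | ⟨v, hv⟩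
  · clear hA hT
    rw [Finset.card_empty, add_zero] at hi
    -- induction on the number of vertices
    have key : ∀ k : ℕ, ∀ A : Set V, A.ncard = k → LV (G.induce A) i := by
      intro k
      induction k with
      | zero =>
        intro A hA
        rw [Set.ncard_eq_zero] at hA
        subst hA
        exact lempty _ _ i (by omega)
      | succ k ih =>
        intro A hA
        obtain ⟨v, hv⟩ : A.Nonempty := by
          rw [← Set.ncard_pos]; omega
        refine lv_add G A v hv i (ih _ ?_) (fun j hj => ?_)
        · have := Set.ncard_sdiff_singleton_add_one hv (Set.toFinite A)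
          omega
        · have h1 := (h v).2 ∅ (by simp) {x | x.1 ∈ A} (by
            intro x _ u hu
            simp at hu) j (by rw [Finset.card_empty]; omega)
          rw [lv_sub] at h1
          refine lv_set ?_ h1
          ext x
          simp only [Set.mem_inter_iff, Set.mem_image, Set.mem_ofPred_eq, Subtype.exists, exists_and_left,
            exists_prop, exists_eq_right_right]
    exact key _ A rfl
  · have h1 := (h v).2 ((T.erase v).subtype (fun x => x ∈ G.neighborSet v)) (by
      intro a ha b hb hab
      rw [Finset.mem_coe, Finset.mem_subtype, Finset.mem_erase] at ha hb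
      exact hT ha.2 hb.2 (fun e => hab (Subtype.ext e))) {x | x.1 ∈ A} (by
      intro x hx u hu
      rw [Finset.mem_subtype, Finset.mem_erase] at hu
      exact hA hx u.1 hu.2) i (by
      rw [Finset.card_subtype, Finset.filter_true_of_mem]
      · have := Finset.card_erase_add_one hv
        omega
      · intro t ht
        rw [Finset.mem_erase] at ht
        exact hT hv ht.2 (Ne.symm ht.1))
    rw [lv_sub] at h1
    refine lv_set ?_ h1
    ext x
    simp only [Set.mem_image, Set.mem_ofPred_eq, Subtype.exists, exists_and_left,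
      exists_prop, exists_eq_right_right]
    exact ⟨fun hx => ⟨hx, hA hx v hv⟩, fun hx => hx.1⟩

/-! ### gluing -/

theorem P_glue {n : ℕ} {V : Type} [Finite V] (G : SimpleGraph V) (A B : Set V) (hAB : A ∪ B = Set.univ)
    (hno : ∀ a ∈ A, a ∉ B → ∀ b ∈ B, b ∉ A → ¬ G.Adj a b) (h1 : P (n + 2) (G.induce A))
    (h2 : P (n + 2) (G.induce B)) (h3 : P n (G.induce (A ∩ B))) : P (n + 2) G := by
  classical
  -- vanishing for subsets of `A`
  have sub : ∀ (k : ℕ) (A : Set V), P k (G.induce A) → ∀ T : Finset V, G.IsClique (T : Set V) → (T : Set V) ⊆ A →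
      ∀ D : Set V, D ⊆ Lk G T → ∀ i, k < 2 * i + T.card → LV (G.induce (D ∩ A)) i := by
    intro k A h T hT hTA D hD i hi
    have h4 := h.2 (T.subtype (fun x => x ∈ A)) (by
      intro a ha b hb hab
      rw [Finset.mem_coe, Finset.mem_subtype] at ha hb
      exact hT ha hb (fun e => hab (Subtype.ext e))) {x | x.1 ∈ D} (by
      intro x hx u hu
      rw [Finset.mem_subtype] at hu
      exact hD hx u.1 hu) i (by
      rwa [Finset.card_subtype, Finset.filter_true_of_mem (fun t ht => hTA ht)])
    rw [lv_sub] at h4
    refine lv_set ?_ h4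
    ext x
    simp only [Set.mem_inter_iff, Set.mem_image, Set.mem_ofPred_eq, Subtype.exists, exists_and_left,
      exists_prop, exists_eq_right_right]
  refine ⟨inferInstance, fun T hT D hD i hi => ?_⟩
  have hcl := Pool.Agent.TH652.Glue.clique_cover G A B hAB hno
  -- if `T` is not contained in `B`, then its link lies in `A`
  have out : ∀ A B : Set V, (∀ T : Finset V, G.IsClique (T : Set V) → (T : Set V) ⊆ A ∨ (T : Set V) ⊆ B) →
      ¬ (T : Set V) ⊆ B → D ∩ A = D := by
    intro A B hcl hB
    ext x
    simp only [Set.mem_inter_iff, and_iff_left_iff_imp]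
    intro hx
    obtain ⟨u, hu, huB⟩ := Set.not_subset.1 hB
    have h5 := hcl {u, x} (by
      rw [Finset.coe_pair, SimpleGraph.isClique_pair]
      intro _
      exact hD hx u hu)
    rw [Finset.coe_pair] at h5
    rcases h5 with h5 | h5
    · exact h5 (by simp)
    · exact absurd (h5 (by simp)) huB
  by_cases hTB : (T : Set V) ⊆ B
  · by_cases hTA : (T : Set V) ⊆ A
    · -- both
      refine (lv_univ _ i).1 ?_
      refine (lv_univ _ i).2 ?_
      refine lglue (G.induce D) {x | x.1 ∈ A} {x | x.1 ∈ B} ?_ ?_ i ?_ ?_ ?_
      · ext x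
        simp only [Set.mem_union, Set.mem_ofPred_eq, Set.mem_univ, iff_true]
        have : x.1 ∈ A ∪ B := by rw [hAB]; trivial
        exact this
      · intro a ha haB b hb hbA
        exact hno a.1 ha haB b.1 hb hbA
      · rw [lv_sub]
        refine lv_set ?_ (sub _ A h1 T hT hTA D hD i hi)
        ext x
        simp only [Set.mem_inter_iff, Set.mem_image, Set.mem_ofPred_eq, Subtype.exists, exists_and_left,
          exists_prop, exists_eq_right_right]
        exact and_comm
      · rw [lv_sub]
        refine lv_set ?_ (sub _ B h2 T hT hTB D hD i hi)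
        ext x
        simp only [Set.mem_inter_iff, Set.mem_image, Set.mem_ofPred_eq, Subtype.exists, exists_and_left,
          exists_prop, exists_eq_right_right]
        exact and_comm
      · intro j hj
        rw [lv_sub]
        refine lv_set ?_ (sub _ (A ∩ B) h3 T hT (Set.subset_inter hTA hTB) D hD j (by omega))
        ext x
        simp only [Set.mem_inter_iff, Set.mem_image, Set.mem_ofPred_eq, Subtype.exists, exists_and_left,
          exists_prop, exists_eq_right_right]
        exact and_comm
    · have h6 := out B A (fun T hT => (hcl T hT).symm) hTA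
      have h7 := sub _ B h2 T hT hTB D hD i hi
      rwa [h6] at h7
  · have h6 := out A B hcl hTB
    have h7 := sub _ A h1 T hT ((hcl T hT).resolve_right hTB) D hD i hi
    rwa [h6] at h7

/-! ### order complexes of Gorenstein* posets -/

theorem P_gor : ∀ (k n : ℕ) (V : Type) [Fintype V] [LinearOrder V] (r : V → V → Prop) (rk : V → Fin n),
    GorStar n r rk → ∀ T : Finset V, T.card = k → (Pool.Agent.W907.SM.cmp r).IsClique (T : Set V) → ∀ A : Set V, A ⊆ Lk (Pool.Agent.W907.SM.cmp r) T →
      ∀ i, n < 2 * i + T.card → LV ((Pool.Agent.W907.SM.cmp r).induce A) i := by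
  classical
  intro k
  induction k with
  | zero =>
    intro n V _ _ r rk hG T hT _ A _ i hi
    intro hf o
    exact ord ↥A ↥A hf hf _ o _ _ i ⟨SimpleGraph.Iso.refl⟩
      (aboveGor n V r rk hG A i (by omega))
  | succ k ih =>
    intro n V _ _ r rk hG T hT hc A hA i hi
    obtain ⟨v, hv⟩ : T.Nonempty := by
      rw [← Finset.card_pos]; omega
    have hn : 0 < n := (rk v).pos
    obtain ⟨m, rfl⟩ : ∃ m, n = m + 1 := ⟨n - 1, by omega⟩
    have hcard : (T.erase v).card = k := by rw [Finset.card_erase_of_mem hv]; omega
    have hadjv : ∀ t ∈ T.erase v, t ∈ (Pool.Agent.W907.SM.cmp r).neighborSet v := by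
      intro t ht
      rw [Finset.mem_erase] at ht
      exact hc hv ht.2 (Ne.symm ht.1)
    have hrk : ∀ u : ↥((Pool.Agent.W907.SM.cmp r).neighborSet v), (if r u.1 v then (rk u.1 : ℕ) else (rk u.1 : ℕ) - 1) < m := by
      intro u
      split_ifs with h
      · have h1 : (rk u.1 : ℕ) < (rk v : ℕ) := hG.rk_lt _ _ h
        have h2 := (rk v).2
        omega
      · have h1 : (Pool.Agent.W907.SM.cmp r).Adj v u.1 := u.2
        rw [adj_cmp] at h1
        have h2 : r v u.1 := by tauto
        have h3 : (rk v : ℕ) < (rk u.1 : ℕ) := hG.rk_lt _ _ h2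
        have h4 := (rk u.1).2
        omega
    have hG' := lkg (m + 1) V r rk hG v m (fun u => ⟨if r u.1 v then (rk u.1 : ℕ) else (rk u.1 : ℕ) - 1, hrk u⟩) rfl
      (fun u hu => by simp [hu])
      (fun u hu => by
        have h1 : ¬ r u.1 v := by
          intro h
          have h2 := hG.rk_lt _ _ h
          have h3 := hG.rk_lt _ _ hu
          exact lt_asymm h2 h3
        have h3 : (rk v : ℕ) < (rk u.1 : ℕ) := hG.rk_lt _ _ hu
        simp only [h1, if_false]
        omega)
    have hcard2 : ((T.erase v).subtype (fun x => x ∈ (Pool.Agent.W907.SM.cmp r).neighborSet v)).card = k := by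
      rw [Finset.card_subtype, Finset.filter_true_of_mem hadjv, hcard]
    have h := ih m ↥((Pool.Agent.W907.SM.cmp r).neighborSet v) _ _ hG' ((T.erase v).subtype (fun x => x ∈ (Pool.Agent.W907.SM.cmp r).neighborSet v))
      hcard2 ?_ {x | x.1 ∈ A} ?_ i (by rw [hcard2]; omega)
    · rw [Pool.Agent.W907.SM.cmp_induce, lv_sub] at h
      refine lv_set ?_ h
      ext x
      simp only [Set.mem_image, Set.mem_ofPred_eq, Subtype.exists, exists_and_left,
        exists_prop, exists_eq_right_right]
      refine ⟨fun hx => ⟨hx, ?_⟩, fun hx => hx.1⟩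
      exact hA hx v hv
    · intro a ha b hb hab
      rw [Pool.Agent.W907.SM.cmp_induce]
      rw [Finset.mem_coe, Finset.mem_subtype, Finset.mem_erase] at ha hb
      exact hc ha.2 hb.2 (fun e => hab (Subtype.ext e))
    · intro x hx u hu
      rw [Finset.mem_subtype, Finset.mem_erase] at hu
      rw [Pool.Agent.W907.SM.cmp_induce]
      exact hA hx u.1 hu.2

theorem P_base {n : ℕ} {V : Type} (G : SimpleGraph V) (h : GorBase n G) : P n G := by
  obtain ⟨_, _, r, rk, hG, rfl⟩ := h
  exact ⟨inferInstance, fun T hT A hA i hi => P_gor T.card n V r rk hG T rfl hT A hA i hi⟩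

end Pool.Agent.TH652.Above
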