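import Pool.Agent.H7.L.TH652_Dual1
import Pool.Agent.H7.L.W907_SM_Defs

set_option autoImplicit false
set_option linter.unusedSectionVars false

/-!
# The zigzag
-/

namespace Pool.Agent.TH652.Dual

open Pool.Agent.W907.SG Pool.Agent.W907.SM Module

section Abs

variable {V X : Type} [Fintype V] [LinearOrder V]

/-- families supported in one bidegree, with the invariance in the first variable -/
def Lay (G : SimpleGraph V) (a : V → X → X) (j i : ℕ) (w : Finset V → Finset V → X → ℝ) : Prop :=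
  (∀ S R : Finset V, ¬ (Disjoint S R ∧ G.IsClique ((S ∪ R : Finset V) : Set V) ∧ S.card = j ∧ R.card = i) →
    w S R = 0) ∧
  (∀ S R : Finset V, ∀ s ∈ S, pull ℝ a s (w S R) = w S R)

variable {G : SimpleGraph V} {a : V → X → X}

theorem Lay.good {j i : ℕ} {w : Finset V → Finset V → X → ℝ} (h : Lay G a j i w) : Good G w := by
  intro S R hn
  exact h.1 S R fun hh => hn ⟨hh.1, hh.2.1⟩

theorem pp_inv (hi : ∀ v x, a v (a v x) = x) (s : V) (f : X → ℝ) : pull ℝ a s (pp a s f) = pp a s f := by
  funext x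
  rw [pull_apply, pp_apply, pp_apply, hi]
  ring

theorem pp_of_inv (s : V) (f : X → ℝ) (h : pull ℝ a s f = f) : pp a s f = f := by
  funext x
  have h1 := congrFun h x
  rw [pull_apply] at h1
  rw [pp_apply, h1]
  ring

theorem pp_of_anti (s : V) (f : X → ℝ) (h : pull ℝ a s f = - f) : pp a s f = 0 := by
  funext x
  have h1 := congrFun h x
  rw [pull_apply, Pi.neg_apply] at h1
  rw [pp_apply, h1, Pi.zero_apply]
  ring

theorem pull_pp {G : SimpleGraph V} (hc : ∀ u v, G.Adj u v → ∀ x, a u (a v x) = a v (a u x)) {s t : V}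
    (h : G.Adj s t) (f : X → ℝ) : pull ℝ a t (pp a s f) = pp a s (pull ℝ a t f) := by
  funext x
  simp only [pull_apply, pp_apply]
  rw [hc s t h]

theorem lay_D2 (hi : ∀ v x, a v (a v x) = x) (hc : ∀ u v, G.Adj u v → ∀ x, a u (a v x) = a v (a u x)) {j i : ℕ}
    {w : Finset V → Finset V → X → ℝ} (h : Lay G a j (i + 1) w) : Lay G a (j + 1) i (D2 a w) := by
  have key : ∀ S R : Finset V, ∀ s ∈ S \ R, w (S.erase s) (insert s R) ≠ 0 →
      (Disjoint S R ∧ G.IsClique ((S ∪ R : Finset V) : Set V) ∧ S.card = j + 1 ∧ R.card = i) := by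
    intro S R s hs hn
    rw [Finset.mem_sdiff] at hs
    have h1 : Disjoint (S.erase s) (insert s R) ∧ G.IsClique ((S.erase s ∪ insert s R : Finset V) : Set V) ∧
        (S.erase s).card = j ∧ (insert s R).card = i + 1 := by
      by_contra hh
      exact hn (h.1 _ _ hh)
    obtain ⟨h1, h2, h3, h4⟩ := h1
    refine ⟨?_, ?_, ?_, ?_⟩
    · rw [Finset.disjoint_left] at h1 ⊢
      intro t ht htR
      by_cases e : t = s
      · exact hs.2 (e ▸ htR)
      · exact h1 (Finset.mem_erase.2 ⟨e, ht⟩) (Finset.mem_insert_of_mem htR)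
    · have e : S.erase s ∪ insert s R = S ∪ R := by
        ext t
        simp only [Finset.mem_union, Finset.mem_erase, Finset.mem_insert]
        by_cases e : t = s
        · subst e; simp [hs.1]
        · simp [e]
      rwa [e] at h2
    · rw [Finset.card_erase_of_mem hs.1] at h3
      have := Finset.card_pos.2 ⟨s, hs.1⟩
      omega
    · rw [Finset.card_insert_of_notMem hs.2] at h4
      omega
  refine ⟨fun S R hn => ?_, fun S R t ht => ?_⟩
  · rw [D2_apply]
    refine Finset.sum_eq_zero fun s hs => ?_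
    by_cases h0 : w (S.erase s) (insert s R) = 0
    · rw [h0, map_zero, smul_zero]
    · exact absurd (key S R s hs h0) hn
  · rw [D2_apply, map_sum]
    refine Finset.sum_congr rfl fun s hs => ?_
    rw [map_zsmul]
    by_cases e : t = s
    · rw [e, pp_inv hi]
    · by_cases h0 : w (S.erase s) (insert s R) = 0
      · rw [h0, map_zero, map_zero]
      · have hk := key S R s hs h0
        have hadj : G.Adj s t := hk.2.1 (by simp [(Finset.mem_sdiff.1 hs).1]) (by simp [ht]) (fun h => e h.symm)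
        rw [pull_pp hc hadj, h.2 _ _ t (Finset.mem_erase.2 ⟨e, ht⟩)]

theorem lk_iff {S : Finset V} (hS : G.IsClique (S : Set V)) (R : Finset V) :
    (G.IsClique (R : Set V) ∧ (R : Set V) ⊆ lk G S) ↔ (Disjoint S R ∧ G.IsClique ((S ∪ R : Finset V) : Set V)) := by
  constructor
  · rintro ⟨h1, h2⟩
    refine ⟨?_, ?_⟩
    · rw [Finset.disjoint_left]
      intro t ht htR
      exact G.irrefl (h2 htR t ht)
    · intro x hx y hy hxy
      rw [Finset.coe_union] at hx hy
      rcases hx with hx | hx <;> rcases hy with hy | hy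
      · exact hS hx hy hxy
      · exact (h2 hy x hx).symm
      · exact h2 hx y hy
      · exact h1 hx hy hxy
  · rintro ⟨h1, h2⟩
    refine ⟨h2.subset (by simp), ?_⟩
    intro r hr s hs
    refine h2 (by simp [Finset.mem_coe.1 hr]) (by simp [hs]) ?_
    intro e
    exact Finset.disjoint_left.1 h1 hs (e ▸ hr)

/-- trivial coefficients: the condition in the definition of the chains is empty -/
abbrev triv (V : Type) : V → ℝ →ₗ[ℝ] ℝ := fun _ => - LinearMap.id

theorem mem_KK_triv {A : Set V} {i : ℕ} {c : Finset V → ℝ} :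
    c ∈ KK G (triv V) A ∅ i ↔ ∀ T : Finset V, ¬ (G.IsClique (T : Set V) ∧ (T : Set V) ⊆ A ∧ T.card = i) → c T = 0 := by
  rw [mem_KK]
  constructor
  · exact fun h => h.1
  · refine fun h => ⟨h, fun T t _ => ?_⟩
    simp

/-- exactness from the vanishing of the Betti number -/
theorem exact_of_beta {ρ : V → ℝ →ₗ[ℝ] ℝ} {A S : Set V} {i : ℕ} (h : beta G ρ A S i = 0) :
    BB G ρ A S i = ZZ G ρ A S i := by
  refine Submodule.eq_of_le_of_finrank_le (BB_le_ZZ G ρ A S i) ?_
  unfold beta at h
  omega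

/-- the sphere condition -/
def Sph (n : ℕ) (G : SimpleGraph V) : Prop :=
  ∀ S : Finset V, G.IsClique (S : Set V) → ∀ i : ℕ,
    beta G (triv V) (lk G S) ∅ i = if i + S.card = n then 1 else 0

open Classical in
/-- a primitive -/
noncomputable def prim (G : SimpleGraph V) (S : Finset V) (i : ℕ) (c : Finset V → ℝ) : Finset V → ℝ :=
  if h : ∃ y ∈ KK G (triv V) (lk G S) ∅ (i + 1), bd ℝ y = c then h.choose else 0

theorem prim_spec {S : Finset V} {i : ℕ} {c : Finset V → ℝ}
    (h : ∃ y ∈ KK G (triv V) (lk G S) ∅ (i + 1), bd ℝ y = c) :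
    prim G S i c ∈ KK G (triv V) (lk G S) ∅ (i + 1) ∧ bd ℝ (prim G S i c) = c := by
  unfold prim
  rw [dif_pos h]
  exact h.choose_spec

open Classical in
/-- the family of primitives -/
noncomputable def primF (G : SimpleGraph V) (j i : ℕ) (w : Finset V → Finset V → X → ℝ) :
    Finset V → Finset V → X → ℝ :=
  fun S R x => if G.IsClique (S : Set V) ∧ S.card = j then prim G S i (fun R => w S R x) R else 0

open Classical in
theorem primF_apply (G : SimpleGraph V) (j i : ℕ) (w : Finset V → Finset V → X → ℝ) (S R : Finset V) (x : X) :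
    primF G j i w S R x = if G.IsClique (S : Set V) ∧ S.card = j then prim G S i (fun R => w S R x) R else 0 := rfl

theorem lay_exact {n : ℕ} (hS : Sph n G) {j i : ℕ} (hij : i + j < n)
    {w : Finset V → Finset V → X → ℝ} (h : Lay G a j i w) (h1 : D1 w = 0) :
    ∃ y, Lay G a j (i + 1) y ∧ D1 y = w := by
  classical
  have hex : ∀ (S : Finset V) (x : X), G.IsClique (S : Set V) → S.card = j →
      ∃ y ∈ KK G (triv V) (lk G S) ∅ (i + 1), bd ℝ y = fun R => w S R x := by
    intro S x hcl hcard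
    have h2 : (fun R => w S R x) ∈ ZZ G (triv V) (lk G S) ∅ i := by
      refine ⟨?_, ?_⟩
      · rw [SetLike.mem_coe, mem_KK_triv]
        intro T hT
        rw [h.1 S T, Pi.zero_apply]
        rintro ⟨h3, h4, _, h5⟩
        have h6 := (lk_iff hcl T).2 ⟨h3, h4⟩
        exact hT ⟨h6.1, h6.2, h5⟩
      · show bd ℝ (fun R => w S R x) = 0
        funext R
        have h3 := congrFun (congrFun (congrFun h1 S) R) x
        rw [D1_apply] at h3
        rw [bd_apply, Pi.zero_apply]
        rw [Pi.zero_apply, Pi.zero_apply, Pi.zero_apply, Finset.sum_apply] at h3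
        exact h3
    rw [← exact_of_beta (by rw [hS S hcl i, if_neg (by omega)])] at h2
    obtain ⟨y, hy, hy2⟩ := h2
    exact ⟨y, hy, hy2⟩
  refine ⟨primF G j i w, ⟨?_, ?_⟩, ?_⟩
  · intro S R hn
    funext x
    rw [Pi.zero_apply, primF_apply]
    by_cases hcl : G.IsClique (S : Set V) ∧ S.card = j
    · rw [if_pos hcl]
      have h2 := (prim_spec (hex S x hcl.1 hcl.2)).1
      rw [mem_KK_triv] at h2
      refine h2 R ?_
      rintro ⟨h3, h4, h5⟩
      have h6 := (lk_iff hcl.1 R).1 ⟨h3, h4⟩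
      exact hn ⟨h6.1, h6.2, hcl.2, h5⟩
    · rw [if_neg hcl]
  · intro S R s hs
    funext x
    rw [pull_apply, primF_apply, primF_apply]
    have h2 : (fun R => w S R (a s x)) = fun R => w S R x := by
      funext R
      have h3 := congrFun (h.2 S R s hs) x
      rwa [pull_apply] at h3
    rw [h2]
  · funext S R x
    rw [D1_apply, Finset.sum_apply]
    by_cases hcl : G.IsClique (S : Set V) ∧ S.card = j
    · have h2 := congrFun (prim_spec (hex S x hcl.1 hcl.2)).2 R
      rw [bd_apply] at h2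
      rw [← h2]
      refine Finset.sum_congr rfl fun v _ => ?_
      rw [Pi.smul_apply, primF_apply, if_pos hcl]
    · rw [h.1 S R]
      · rw [Pi.zero_apply]
        refine Finset.sum_eq_zero fun v _ => ?_
        rw [Pi.smul_apply, primF_apply, if_neg hcl, smul_zero]
      · rintro ⟨_, h3, h4, _⟩
        exact hcl ⟨h3.subset (by simp), h4⟩

theorem rr_mem (hi : ∀ v x, a v (a v x) = x) (hc : ∀ u v, G.Adj u v → ∀ x, a u (a v x) = a v (a u x)) {j i : ℕ}
    {w : Finset V → Finset V → X → ℝ} (h : Lay G a j i w) : rr hc w ∈ KK G (pull ℝ a) Set.univ ∅ i := by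
  rw [mem_KK]
  refine ⟨fun R hn => ?_, fun R t ht => ?_⟩
  · rw [rr_apply]
    have h1 : ∀ S : Finset V, ((-1 : ℤ) ^ S.card) • w S R = 0 := by
      intro S
      rw [h.1 S R, smul_zero]
      rintro ⟨_, h2, _, h3⟩
      exact hn ⟨h2.subset (by simp), Set.subset_univ _, h3⟩
    rw [Finset.sum_eq_zero fun S _ => h1 S, map_zero]
  · rcases ht with ht | ht
    · exact PR_anti hc hi ht _
    · exact absurd ht (Set.notMem_empty _)

theorem zigzag (hi : ∀ v x, a v (a v x) = x) (hc : ∀ u v, G.Adj u v → ∀ x, a u (a v x) = a v (a u x)) {n : ℕ}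
    (hS : Sph n G) (i : ℕ) : ∀ (k j : ℕ) (w : Finset V → Finset V → X → ℝ), i + j + k = n → Lay G a j i w →
    D1 w = 0 → D2 a w = 0 → ∃ w', Lay G a (j + k) i w' ∧ D1 w' = 0 ∧ D2 a w' = 0 ∧
      rr hc w - rr hc w' ∈ BB G (pull ℝ a) Set.univ ∅ i := by
  intro k
  induction k with
  | zero =>
    intro j w _ h h1 h2
    exact ⟨w, h, h1, h2, by rw [sub_self]; exact Submodule.zero_mem _⟩
  | succ k ih =>
    intro j w hk h h1 h2
    obtain ⟨y, hy, hy1⟩ := lay_exact hS (by omega) h h1
    have hy2 := lay_D2 hi hc hy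
    have h3 : D1 (- D2 a y) = 0 := by
      have h4 : D1 (- D2 a y) = - D1 (D2 a y) := by
        funext S
        exact map_neg (bd ℝ) _
      rw [h4, D1_D2, neg_neg, hy1, h2]
    have h5 : D2 a (- D2 a y) = 0 := by
      have h4 : D2 a (- D2 a y) = - D2 a (D2 a y) := by
        funext S R
        rw [Pi.neg_apply, Pi.neg_apply, D2_apply, D2_apply, ← Finset.sum_neg_distrib]
        refine Finset.sum_congr rfl fun s _ => ?_
        rw [Pi.neg_apply, Pi.neg_apply, map_neg, smul_neg]
      rw [h4, D2_D2 hc hy.good, neg_zero]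
    have h6 : Lay G a (j + 1) i (- D2 a y) := by
      refine ⟨fun S R hn => ?_, fun S R s hs => ?_⟩
      · rw [Pi.neg_apply, Pi.neg_apply, hy2.1 S R hn, neg_zero]
      · rw [Pi.neg_apply, Pi.neg_apply, map_neg, hy2.2 S R s hs]
    obtain ⟨w', hw1, hw2, hw3, hw4⟩ := ih (j + 1) (- D2 a y) (by omega) h6 h3 h5
    refine ⟨w', ?_, hw2, hw3, ?_⟩
    · have e : j + (k + 1) = j + 1 + k := by omega
      rw [e]
      exact hw1
    · have e : rr hc w - rr hc w' = bd ℝ (rr hc y) + (rr hc (- D2 a y) - rr hc w') := by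
        have h7 : rr hc (D1 y + D2 a y) + rr hc (- D2 a y) = rr hc w := by
          rw [← rr_add, add_neg_cancel_right, hy1]
        rw [← rr_chain hc hy.good, ← h7]
        abel
      rw [e]
      exact Submodule.add_mem _ ⟨_, rr_mem hi hc hy, rfl⟩ hw4

/-- cycles as families -/
def fam0 (z : Finset V → X → ℝ) : Finset V → Finset V → X → ℝ := fun S R => if S = ∅ then z R else 0

theorem fam0_lay {i : ℕ} {z : Finset V → X → ℝ} (hz : z ∈ KK G (pull ℝ a) Set.univ ∅ i) :
    Lay G a 0 i (fam0 z) := by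
  rw [mem_KK] at hz
  refine ⟨fun S R hn => ?_, fun S R s hs => ?_⟩
  · unfold fam0
    by_cases e : S = ∅
    · subst e
      rw [if_pos rfl]
      refine hz.1 R ?_
      rintro ⟨h1, _, h2⟩
      refine hn ⟨Finset.disjoint_empty_left R, ?_, Finset.card_empty, h2⟩
      rwa [Finset.empty_union]
    · rw [if_neg e]
  · unfold fam0
    have e : S ≠ ∅ := by rintro rfl; exact Finset.notMem_empty _ hs
    rw [if_neg e, map_zero]

theorem fam0_D1 {z : Finset V → X → ℝ} (hz : bd ℝ z = 0) : D1 (fam0 z) = 0 := by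
  funext S R
  rw [D1_apply]
  by_cases e : S = ∅
  · have h := congrFun hz R
    rw [bd_apply] at h
    have h2 : ∀ v ∈ Rᶜ, sg v R • fam0 z S (insert v R) = sg v R • z (insert v R) := by
      intro v _
      unfold fam0
      rw [if_pos e]
    rw [Finset.sum_congr rfl h2, h]
    rfl
  · refine Finset.sum_eq_zero fun v _ => ?_
    unfold fam0
    rw [if_neg e, smul_zero]

theorem fam0_D2 {i : ℕ} {z : Finset V → X → ℝ} (hz : z ∈ KK G (pull ℝ a) Set.univ ∅ i) : D2 a (fam0 z) = 0 := by
  rw [mem_KK] at hz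
  funext S R
  rw [D2_apply]
  refine Finset.sum_eq_zero fun s _ => ?_
  unfold fam0
  by_cases e : S.erase s = ∅
  · rw [if_pos e, pp_of_anti s _ (hz.2 (insert s R) s (Or.inl (Finset.mem_insert_self s R))), smul_zero]
  · rw [if_neg e, map_zero, smul_zero]

theorem fam0_rr (hc : ∀ u v, G.Adj u v → ∀ x, a u (a v x) = a v (a u x)) {i : ℕ} {z : Finset V → X → ℝ}
    (hz : z ∈ KK G (pull ℝ a) Set.univ ∅ i) : rr hc (fam0 z) = z := by
  rw [mem_KK] at hz
  funext R
  rw [rr_apply, Finset.sum_eq_single ∅]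
  · rw [Finset.card_empty, pow_zero, one_smul]
    unfold fam0
    rw [if_pos rfl]
    by_cases hR : G.IsClique (R : Set V)
    · exact PR_of_anti hc hR _ fun v hv => hz.2 R v (Or.inl hv)
    · rw [hz.1 R (fun h => hR h.1), map_zero]
  · intro S _ hS
    unfold fam0
    rw [if_neg hS, smul_zero]
  · intro h
    exact absurd (Finset.mem_univ _) h

end Abs

end Pool.Agent.TH652.Dual
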