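import Pool.Agent.H7.L.TH652_Dual4
import Pool.Agent.H7.L.W397_SG_EUL

set_option autoImplicit false
set_option linter.unusedSectionVars false

/-!
# The duality inequality for finite sets
-/

namespace Pool.Agent.TH652.Dual

open Pool.Agent.W907.SG Pool.Agent.W907.SM Module
open Pool.Agent.W397.SG (rank_null)

section Abs

variable {V X : Type} [Fintype V] [LinearOrder V] [Fintype X] {G : SimpleGraph V} {a : V → X → X}

/-- the pairing of chains -/
def prc (m c : Finset V → X → ℝ) : ℝ := ∑ S : Finset V, ∑ x : X, m S x * c S x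

theorem prc_self {m : Finset V → X → ℝ} (h : prc m m = 0) : m = 0 := by
  unfold prc at h
  have h1 : ∀ S ∈ (Finset.univ : Finset (Finset V)), 0 ≤ ∑ x : X, m S x * m S x := fun S _ =>
    Finset.sum_nonneg fun x _ => mul_self_nonneg _
  rw [Finset.sum_eq_zero_iff_of_nonneg h1] at h
  funext S x
  have h2 := h S (Finset.mem_univ _)
  rw [Finset.sum_eq_zero_iff_of_nonneg fun x _ => mul_self_nonneg _] at h2
  exact mul_self_eq_zero.1 (h2 x (Finset.mem_univ _))

theorem pp_adj (hi : ∀ v x, a v (a v x) = x) (s : V) (f g : X → ℝ) (hg : pull ℝ a s g = g) :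
    ∑ x : X, pp a s f x * g x = ∑ x : X, f x * g x := by
  have h1 : ∑ x : X, f (a s x) * g x = ∑ x : X, f x * g x := by
    have e : X ≃ X := ⟨a s, a s, hi s, hi s⟩
    refine Finset.sum_nbij' (a s) (a s) (fun _ _ => Finset.mem_univ _) (fun _ _ => Finset.mem_univ _)
      (fun x _ => hi s x) (fun x _ => hi s x) fun x _ => ?_
    have h2 := congrFun hg x
    rw [pull_apply] at h2
    rw [h2]
  have h2 : ∀ x : X, pp a s f x * g x = 1 / 2 * (f x * g x) + 1 / 2 * (f (a s x) * g x) := by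
    intro x
    rw [pp_apply]
    ring
  rw [Finset.sum_congr rfl fun x _ => h2 x, Finset.sum_add_distrib, ← Finset.mul_sum, ← Finset.mul_sum, h1]
  ring

theorem dd_adj (hi : ∀ v x, a v (a v x) = x) {j : ℕ} (m : Finset V → X → ℝ) {c : Finset V → X → ℝ}
    (hc : c ∈ KP G a (j + 1)) : prc (dd G a m) c = prc m (bd ℝ c) := by
  rw [mem_KP] at hc
  unfold prc
  have h1 : ∀ S : Finset V, ∑ x : X, dd G a m S x * c S x =
      ∑ s : V, (if s ∈ S then (sg s (S.erase s) : ℝ) * ∑ x : X, m (S.erase s) x * c (insert s (S.erase s)) x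
        else 0) := by
    intro S
    by_cases hS : G.IsClique (S : Set V)
    · rw [dd_pos hS, ← Finset.sum_filter]
      have h2 : Finset.univ.filter (fun s => s ∈ S) = S := by ext; simp
      rw [h2]
      have h3 : ∀ x : X, (∑ s ∈ S, sg s (S.erase s) • pp a s (m (S.erase s))) x * c S x =
          ∑ s ∈ S, (sg s (S.erase s) : ℝ) * (pp a s (m (S.erase s)) x * c S x) := by
        intro x
        rw [Finset.sum_apply, Finset.sum_mul]
        refine Finset.sum_congr rfl fun s _ => ?_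
        rw [Pi.smul_apply, zsmul_eq_mul, mul_assoc]
      rw [Finset.sum_congr rfl fun x _ => h3 x, Finset.sum_comm]
      refine Finset.sum_congr rfl fun s hs => ?_
      rw [← Finset.mul_sum, pp_adj hi s _ _ (hc.2 S s hs), Finset.insert_erase hs]
    · rw [dd_neg hS]
      have h3 : c S = 0 := hc.1 S fun h => hS h.1
      rw [Finset.sum_eq_zero fun x _ => by rw [h3, Pi.zero_apply, mul_zero]]
      symm
      refine Finset.sum_eq_zero fun s _ => ?_
      split_ifs with hs
      · rw [Finset.insert_erase hs, h3]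
        simp
      · rfl
  have h2 : ∀ S : Finset V, ∑ x : X, m S x * bd ℝ c S x =
      ∑ s : V, (if s ∈ S then 0 else (sg s S : ℝ) * ∑ x : X, m S x * c (insert s S) x) := by
    intro S
    have h3 : ∀ x : X, m S x * bd ℝ c S x = ∑ s ∈ Sᶜ, (sg s S : ℝ) * (m S x * c (insert s S) x) := by
      intro x
      rw [bd_apply, Finset.sum_apply, Finset.mul_sum]
      refine Finset.sum_congr rfl fun s _ => ?_
      rw [Pi.smul_apply, zsmul_eq_mul]
      ring
    rw [Finset.sum_congr rfl fun x _ => h3 x, Finset.sum_comm, ← Finset.sum_subset (Finset.subset_univ Sᶜ)]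
    · refine Finset.sum_congr rfl fun s hs => ?_
      rw [if_neg (by simpa using hs), ← Finset.mul_sum]
    · intro s _ hs
      exact if_pos (by simpa using hs)
  rw [Finset.sum_congr rfl fun S _ => h1 S, Finset.sum_congr rfl fun S _ => h2 S, Finset.sum_comm]
  conv_rhs => rw [Finset.sum_comm]
  refine Finset.sum_congr rfl fun s _ => ?_
  exact sum_mem s fun S => (sg s S : ℝ) * ∑ x : X, m S x * c (insert s S) x

/-- if `dd (bd c) = 0` then `bd c = 0` -/
theorem dd_bd (hi : ∀ v x, a v (a v x) = x) {j : ℕ} {c : Finset V → X → ℝ} (hc : c ∈ KP G a (j + 1))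
    (h : dd G a (bd ℝ c) = 0) : bd ℝ c = 0 := by
  refine prc_self ?_
  rw [← dd_adj hi (bd ℝ c) hc, h]
  unfold prc
  simp

theorem bd_KP_zero {c : Finset V → X → ℝ} (hc : c ∈ KP G a 0) : bd ℝ c = 0 := by
  rw [mem_KP] at hc
  funext T
  rw [bd_apply, Pi.zero_apply]
  refine Finset.sum_eq_zero fun v _ => ?_
  rw [hc.1, smul_zero]
  rintro ⟨_, h⟩
  rw [Finset.card_eq_zero] at h
  exact Finset.insert_ne_empty v T h

/-- the cocycles -/
noncomputable def AA (G : SimpleGraph V) (a : V → X → X) (j : ℕ) : Submodule ℝ (Finset V → X → ℝ) :=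
  KP G a j ⊓ LinearMap.ker (dd G a)

/-- the coboundaries -/
noncomputable def DD (G : SimpleGraph V) (a : V → X → X) (j : ℕ) : Submodule ℝ (Finset V → X → ℝ) :=
  ((KP G a j).map (bd ℝ)).map (dd G a)

theorem rank_AA (hi : ∀ v x, a v (a v x) = x) (j : ℕ) :
    finrank ℝ (AA G a j) + finrank ℝ (BB G (fun v => - pull ℝ a v) Set.univ ∅ j) ≤ finrank ℝ (KP G a j) := by
  have h1 : AA G a j ⊓ BB G (fun v => - pull ℝ a v) Set.univ ∅ j = ⊥ := by
    rw [eq_bot_iff]
    rintro x ⟨⟨_, hx2⟩, ⟨c, hc, rfl⟩⟩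
    rw [Submodule.mem_bot]
    exact dd_bd hi hc hx2
  have h2 := Submodule.finrank_sup_add_finrank_inf_eq (AA G a j) (BB G (fun v => - pull ℝ a v) Set.univ ∅ j)
  rw [h1, finrank_bot, add_zero] at h2
  rw [← h2]
  refine Submodule.finrank_mono (sup_le inf_le_left ?_)
  exact (BB_le_ZZ _ _ _ _ _).trans inf_le_left

theorem rank_DD (hi : ∀ v x, a v (a v x) = x) (j : ℕ) :
    finrank ℝ (KP G a j) ≤ finrank ℝ (DD G a j) + finrank ℝ (ZZ G (fun v => - pull ℝ a v) Set.univ ∅ j) := by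
  have h1 := rank_null (bd ℝ : (Finset V → X → ℝ) →ₗ[ℝ] _) (KP G a j)
  have h2 := rank_null (dd G a) ((KP G a j).map (bd ℝ))
  have h3 : ((KP G a j).map (bd ℝ) ⊓ LinearMap.ker (dd G a) : Submodule ℝ (Finset V → X → ℝ)) = ⊥ := by
    rw [eq_bot_iff]
    rintro _ ⟨⟨c, hc, rfl⟩, hx⟩
    rw [Submodule.mem_bot]
    rcases Nat.eq_zero_or_pos j with h0 | h0
    · subst h0
      exact bd_KP_zero hc
    · obtain ⟨k, rfl⟩ := Nat.exists_eq_succ_of_ne_zero h0.ne'
      exact dd_bd hi hc hx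
  rw [h3, finrank_bot, zero_add] at h2
  show finrank ℝ (KP G a j) ≤ finrank ℝ (((KP G a j).map (bd ℝ)).map (dd G a)) + finrank ℝ
    (KP G a j ⊓ LinearMap.ker (bd ℝ) : Submodule ℝ (Finset V → X → ℝ))
  omega

/-- the duality map -/
noncomputable def Psi {G : SimpleGraph V} {a : V → X → X}
    (hc : ∀ u v, G.Adj u v → ∀ x, a u (a v x) = a v (a u x)) (o : Finset V → ℝ) :
    (Finset V → X → ℝ) →ₗ[ℝ] (Finset V → X → ℝ) where
  toFun m := rr hc (wm o m)
  map_add' m m' := by
    rw [← rr_add]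
    congr 1
    funext S R
    exact smul_add _ _ _
  map_smul' r m := by
    funext R
    rw [Pi.smul_apply, RingHom.id_apply, rr_apply, rr_apply, ← map_smul, Finset.smul_sum]
    congr 1
    refine Finset.sum_congr rfl fun S _ => ?_
    rw [smul_comm]
    congr 1
    show oS o S R • (r • m S) = r • (oS o S R • m S)
    rw [smul_comm]

theorem duality {n : ℕ} (hi : ∀ v x, a v (a v x) = x) (hc : ∀ u v, G.Adj u v → ∀ x, a u (a v x) = a v (a u x))
    (hS : Sph n G) {i j : ℕ} (hij : i + j = n) :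
    beta G (pull ℝ a) Set.univ ∅ i ≤ beta G (fun v => - pull ℝ a v) Set.univ ∅ j := by
  obtain ⟨o, ho, ho0⟩ := exists_o hS
  set B := BB G (pull ℝ a) Set.univ ∅ i with hB
  set f : (Finset V → X → ℝ) →ₗ[ℝ] ((Finset V → X → ℝ) ⧸ B) := B.mkQ ∘ₗ Psi hc o with hf
  -- the image
  have h1 : (ZZ G (pull ℝ a) Set.univ ∅ i).map B.mkQ ≤ (AA G a j).map f := by
    rintro _ ⟨z, hz, rfl⟩
    have hz1 := hz.1
    have hz2 : bd ℝ z = 0 := hz.2
    obtain ⟨w', hw1, hw2, hw3, hw4⟩ := zigzag hi hc hS i j 0 (fam0 z) (by omega) (fam0_lay hz1)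
      (fam0_D1 hz2) (fam0_D2 hz1)
    rw [zero_add] at hw1
    obtain ⟨m, hm, rfl⟩ := exists_m hS ho ho0 hij hw1 hw2
    refine ⟨m, ⟨hm, dd_of_D2 hS ho ho0 hm hw3⟩, ?_⟩
    rw [fam0_rr hc hz1] at hw4
    show B.mkQ (rr hc (wm o m)) = B.mkQ z
    rw [eq_comm, ← sub_eq_zero, ← map_sub, Submodule.mkQ_apply, Submodule.Quotient.mk_eq_zero]
    exact hw4
  -- the kernel
  have h2 : DD G a j ≤ AA G a j ⊓ LinearMap.ker f := by
    rintro _ ⟨_, ⟨c, hcc, rfl⟩, rfl⟩
    rcases Nat.eq_zero_or_pos j with h0 | h0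
    · subst h0
      rw [bd_KP_zero hcc, map_zero]
      exact Submodule.zero_mem _
    · obtain ⟨k, rfl⟩ := Nat.exists_eq_succ_of_ne_zero h0.ne'
      have hm : bd ℝ c ∈ KP G a k := bd_mem_KK hcc
      have hik : (i + 1) + k = n := by omega
      refine ⟨⟨dd_KP hi hc hm, dd_dd hi hc hS ho ho0 hik hm⟩, ?_⟩
      show B.mkQ (rr hc (wm o (dd G a (bd ℝ c)))) = 0
      rw [Submodule.mkQ_apply, Submodule.Quotient.mk_eq_zero]
      have h3 := rr_chain hc (wm_lay ho hik hm).good
      rw [wm_D1 hS ho ho0 hik hm, zero_add, wm_D2 ho hm] at h3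
      have h4 : rr hc (((-1 : ℤ) ^ k) • wm o (dd G a (bd ℝ c))) =
          ((-1 : ℤ) ^ k) • rr hc (wm o (dd G a (bd ℝ c))) := by
        funext R
        rw [rr_apply, Pi.smul_apply, rr_apply, ← map_zsmul, Finset.smul_sum]
        congr 1
        refine Finset.sum_congr rfl fun S _ => ?_
        rw [smul_comm]
        rfl
      rw [h4] at h3
      have h5 : bd ℝ (rr hc (wm o (bd ℝ c))) ∈ B := ⟨_, rr_mem hi hc (wm_lay ho hik hm), rfl⟩
      rw [← h3] at h5
      rcases neg_one_pow_eq_or ℤ k with h6 | h6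
      · rwa [h6, one_smul] at h5
      · rw [h6, neg_smul, one_smul] at h5
        exact (Submodule.neg_mem_iff _).1 h5
  have r1 := rank_null B.mkQ (ZZ G (pull ℝ a) Set.univ ∅ i)
  have r2 := rank_null f (AA G a j)
  have r3 : finrank ℝ (ZZ G (pull ℝ a) Set.univ ∅ i ⊓ LinearMap.ker B.mkQ : Submodule ℝ (Finset V → X → ℝ)) ≤
      finrank ℝ B := by
    rw [Submodule.ker_mkQ]
    exact Submodule.finrank_mono inf_le_right
  have r4 := Submodule.finrank_mono h1
  have r5 := Submodule.finrank_mono h2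
  have r6 := rank_AA (G := G) hi j
  have r7 := rank_DD (G := G) hi j
  unfold beta
  rw [← hB]
  omega

end Abs

end Pool.Agent.TH652.Dual
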