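import Pool.Agent.H7.L.W907_SG_Defs

/-!
# The bidegree argument for harmonic chains on a product

Abstract form: `x T S` is an element of a real inner product space `E`, with commuting symmetric operators `R v`,
`Q u`.  If the total boundary and the total coboundary of `x` vanish then so do the partial ones.
-/

set_option autoImplicit false

namespace Pool.Agent.TH652.Join

open Pool.Agent.W907.SG
open scoped InnerProductSpace

theorem sum_ins {V M : Type} [Fintype V] [DecidableEq V] [AddCommMonoid M] (F : V → Finset V → M) :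
    ∑ T : Finset V, ∑ v ∈ Tᶜ, F v T = ∑ T : Finset V, ∑ t ∈ T, F t (T.erase t) := by
  rw [Finset.sum_sigma', Finset.sum_sigma']
  refine Finset.sum_bij' (fun x _ => ⟨insert x.2 x.1, x.2⟩) (fun x _ => ⟨x.1.erase x.2, x.2⟩) ?_ ?_ ?_ ?_ ?_
  · rintro ⟨T, v⟩ h
    simp
  · rintro ⟨T, v⟩ h
    simp
  · rintro ⟨T, v⟩ h
    simp only [Finset.mem_sigma, Finset.mem_univ, Finset.mem_compl, true_and] at h
    simp [h]
  · rintro ⟨T, v⟩ h
    simp only [Finset.mem_sigma, Finset.mem_univ, true_and] at h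
    simp [h]
  · rintro ⟨T, v⟩ h
    simp only [Finset.mem_sigma, Finset.mem_univ, Finset.mem_compl, true_and] at h
    simp [h]

section Abs

variable {V U E : Type} [Fintype V] [LinearOrder V] [Fintype U] [LinearOrder U]
  [NormedAddCommGroup E] [InnerProductSpace ℝ E]

/-- partial boundary, first factor -/
def d1 (x : Finset V → Finset U → E) (T : Finset V) (S : Finset U) : E :=
  ∑ v ∈ Tᶜ, (sg v T : ℝ) • x (insert v T) S

/-- partial boundary, second factor -/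
def d2 (x : Finset V → Finset U → E) (T : Finset V) (S : Finset U) : E :=
  ∑ u ∈ Sᶜ, (sg u S : ℝ) • x T (insert u S)

/-- partial coboundary, first factor -/
def e1 (R : V → E →ₗ[ℝ] E) (x : Finset V → Finset U → E) (T : Finset V) (S : Finset U) : E :=
  ∑ t ∈ T, (sg t (T.erase t) : ℝ) • (x (T.erase t) S - R t (x (T.erase t) S))

/-- partial coboundary, second factor -/
def e2 (Q : U → E →ₗ[ℝ] E) (x : Finset V → Finset U → E) (T : Finset V) (S : Finset U) : E :=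
  ∑ s ∈ S, (sg s (S.erase s) : ℝ) • (x T (S.erase s) - Q s (x T (S.erase s)))

theorem e1_d2 (R : V → E →ₗ[ℝ] E) (x : Finset V → Finset U → E) (T : Finset V) (S : Finset U) :
    e1 R (d2 x) T S = d2 (e1 R x) T S := by
  unfold e1 d2
  simp only [map_sum, map_smul, ← Finset.sum_sub_distrib, Finset.smul_sum]
  rw [Finset.sum_comm]
  refine Finset.sum_congr rfl fun u _ => Finset.sum_congr rfl fun t _ => ?_
  rw [← smul_sub, smul_comm]

theorem half_left (R : E →ₗ[ℝ] E) (hR : ∀ a b, ⟪R a, b⟫_ℝ = ⟪a, R b⟫_ℝ) (y a : E) (hy : R y = -y) :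
    ⟪y, a⟫_ℝ = 2⁻¹ * ⟪y, a - R a⟫_ℝ := by
  have h : ⟪y, R a⟫_ℝ = -⟪y, a⟫_ℝ := by
    rw [← hR, hy, inner_neg_left]
  rw [inner_sub_right, h]; ring

theorem half_right (R : E →ₗ[ℝ] E) (hR : ∀ a b, ⟪R a, b⟫_ℝ = ⟪a, R b⟫_ℝ) (y a : E) (hy : R y = -y) :
    ⟪a, y⟫_ℝ = 2⁻¹ * ⟪a - R a, y⟫_ℝ := by
  have h : ⟪R a, y⟫_ℝ = -⟪a, y⟫_ℝ := by
    rw [hR, hy, inner_neg_right]
  rw [inner_sub_left, h]; ring

theorem card_erase_pow {W : Type} [DecidableEq W] (T : Finset W) (t : W) (ht : t ∈ T) :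
    ((-1 : ℝ)) ^ (T.erase t).card = - (-1) ^ T.card := by
  have h := Finset.card_erase_add_one ht
  rw [← h, pow_succ]; ring

/-- the main computation -/
theorem key (R : V → E →ₗ[ℝ] E) (Q : U → E →ₗ[ℝ] E)
    (hR : ∀ v a b, ⟪R v a, b⟫_ℝ = ⟪a, R v b⟫_ℝ) (hQ : ∀ u a b, ⟪Q u a, b⟫_ℝ = ⟪a, Q u b⟫_ℝ)
    (hRQ : ∀ v u a, R v (Q u a) = Q u (R v a)) (x : Finset V → Finset U → E)
    (a1 : ∀ T S, ∀ t ∈ T, R t (x T S) = - x T S) (a2 : ∀ T S, ∀ s ∈ S, Q s (x T S) = - x T S) :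
    ∑ T, ∑ S, (-1 : ℝ) ^ T.card * ⟪d1 x T S, d2 x T S⟫_ℝ =
      - 4⁻¹ * ∑ T, ∑ S, (-1 : ℝ) ^ T.card * ⟪e2 Q x T S, e1 R x T S⟫_ℝ := by
  have s1 : ∀ S : Finset U, ∑ T : Finset V, (-1 : ℝ) ^ T.card * ⟪d1 x T S, d2 x T S⟫_ℝ =
      - 2⁻¹ * ∑ T : Finset V, (-1 : ℝ) ^ T.card * ⟪x T S, d2 (e1 R x) T S⟫_ℝ := by
    intro S
    have h1 : ∀ T : Finset V, (-1 : ℝ) ^ T.card * ⟪d1 x T S, d2 x T S⟫_ℝ =
        ∑ v ∈ Tᶜ, (-1 : ℝ) ^ T.card * ((sg v T : ℝ) * ⟪x (insert v T) S, d2 x T S⟫_ℝ) := by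
      intro T
      rw [d1, sum_inner, Finset.mul_sum]
      refine Finset.sum_congr rfl fun v _ => ?_
      rw [real_inner_smul_left]
    rw [Finset.sum_congr rfl fun T _ => h1 T,
      sum_ins (fun v T => (-1 : ℝ) ^ T.card * ((sg v T : ℝ) * ⟪x (insert v T) S, d2 x T S⟫_ℝ)), Finset.mul_sum]
    refine Finset.sum_congr rfl fun T _ => ?_
    rw [← e1_d2]
    have h2 : ⟪x T S, e1 R (d2 x) T S⟫_ℝ =
        ∑ t ∈ T, (sg t (T.erase t) : ℝ) * ⟪x T S, d2 x (T.erase t) S - R t (d2 x (T.erase t) S)⟫_ℝ := by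
      rw [e1, inner_sum]
      refine Finset.sum_congr rfl fun t _ => ?_
      rw [real_inner_smul_right]
    rw [h2, Finset.mul_sum, Finset.mul_sum]
    refine Finset.sum_congr rfl fun t ht => ?_
    rw [Finset.insert_erase ht, card_erase_pow T t ht,
      half_left (R t) (hR t) (x T S) (d2 x (T.erase t) S) (a1 T S t ht)]
    ring
  have q1 : ∀ T S, ∀ s ∈ S, Q s (e1 R x T S) = - e1 R x T S := by
    intro T S s hs
    unfold e1
    rw [map_sum, ← Finset.sum_neg_distrib]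
    refine Finset.sum_congr rfl fun t _ => ?_
    rw [map_smul, map_sub, ← hRQ, a2 _ _ s hs, map_neg, ← smul_neg]
    congr 1
    abel
  have s2 : ∀ T : Finset V, ∑ S : Finset U, ⟪x T S, d2 (e1 R x) T S⟫_ℝ =
      2⁻¹ * ∑ S : Finset U, ⟪e2 Q x T S, e1 R x T S⟫_ℝ := by
    intro T
    have h1 : ∀ S : Finset U, ⟪x T S, d2 (e1 R x) T S⟫_ℝ =
        ∑ u ∈ Sᶜ, (sg u S : ℝ) * ⟪x T S, e1 R x T (insert u S)⟫_ℝ := by
      intro S
      rw [d2, inner_sum]
      refine Finset.sum_congr rfl fun v _ => ?_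
      rw [real_inner_smul_right]
    rw [Finset.sum_congr rfl fun S _ => h1 S,
      sum_ins (fun u S => (sg u S : ℝ) * ⟪x T S, e1 R x T (insert u S)⟫_ℝ), Finset.mul_sum]
    refine Finset.sum_congr rfl fun S _ => ?_
    have h2 : ⟪e2 Q x T S, e1 R x T S⟫_ℝ =
        ∑ s ∈ S, (sg s (S.erase s) : ℝ) * ⟪x T (S.erase s) - Q s (x T (S.erase s)), e1 R x T S⟫_ℝ := by
      rw [e2, sum_inner]
      refine Finset.sum_congr rfl fun t _ => ?_
      rw [real_inner_smul_left]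
    rw [h2, Finset.mul_sum]
    refine Finset.sum_congr rfl fun s hs => ?_
    rw [Finset.insert_erase hs, half_right (Q s) (hQ s) (e1 R x T S) (x T (S.erase s)) (q1 T S s hs)]
    ring
  rw [Finset.sum_comm, Finset.sum_congr rfl fun S _ => s1 S, ← Finset.mul_sum, Finset.sum_comm]
  have s3 : ∀ T : Finset V, ∑ S : Finset U, (-1 : ℝ) ^ T.card * ⟪x T S, d2 (e1 R x) T S⟫_ℝ =
      2⁻¹ * ∑ S : Finset U, (-1 : ℝ) ^ T.card * ⟪e2 Q x T S, e1 R x T S⟫_ℝ := by
    intro T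
    rw [← Finset.mul_sum, s2, ← Finset.mul_sum]
    ring
  rw [Finset.sum_congr rfl fun T _ => s3 T, ← Finset.mul_sum]
  ring

/-- the bidegree argument -/
theorem split (R : V → E →ₗ[ℝ] E) (Q : U → E →ₗ[ℝ] E)
    (hR : ∀ v a b, ⟪R v a, b⟫_ℝ = ⟪a, R v b⟫_ℝ) (hQ : ∀ u a b, ⟪Q u a, b⟫_ℝ = ⟪a, Q u b⟫_ℝ)
    (hRQ : ∀ v u a, R v (Q u a) = Q u (R v a)) (x : Finset V → Finset U → E)
    (a1 : ∀ T S, ∀ t ∈ T, R t (x T S) = - x T S) (a2 : ∀ T S, ∀ s ∈ S, Q s (x T S) = - x T S)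
    (C : Finset V → Prop) (D : Finset U → Prop) (supp : ∀ T S, ¬ (C T ∧ D S) → x T S = 0)
    (hd : ∀ T S, d1 x T S + (-1 : ℝ) ^ T.card • d2 x T S = 0)
    (he : ∀ T S, C T → D S → e1 R x T S + (-1 : ℝ) ^ T.card • e2 Q x T S = 0) :
    (∀ T S, d1 x T S = 0) ∧ (∀ T S, d2 x T S = 0) ∧ (∀ T S, C T → D S → e1 R x T S = 0) ∧
      (∀ T S, C T → D S → e2 Q x T S = 0) := by
  classical
  have hsq : ∀ T : Finset V, ((-1 : ℝ) ^ T.card) * ((-1 : ℝ) ^ T.card) = 1 := by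
    intro T
    rw [← mul_pow]; simp
  have k := key R Q hR hQ hRQ x a1 a2
  have l1 : ∀ T S, (-1 : ℝ) ^ T.card * ⟪d1 x T S, d2 x T S⟫_ℝ = - ‖d1 x T S‖ ^ 2 := by
    intro T S
    have h1 : d1 x T S = - ((-1 : ℝ) ^ T.card • d2 x T S) := eq_neg_of_add_eq_zero_left (hd T S)
    have h2 : d2 x T S = - ((-1 : ℝ) ^ T.card • d1 x T S) := by
      rw [h1, smul_neg, neg_neg, smul_smul, hsq, one_smul]
    rw [h2, inner_neg_right, real_inner_smul_right, real_inner_self_eq_norm_sq]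
    have := hsq T
    linear_combination (-‖d1 x T S‖ ^ 2) * this
  have l2 : ∀ T S, (-1 : ℝ) ^ T.card * ⟪e2 Q x T S, e1 R x T S⟫_ℝ =
      - (if C T ∧ D S then ‖e2 Q x T S‖ ^ 2 else 0) := by
    intro T S
    by_cases h : C T ∧ D S
    · rw [if_pos h]
      have h1 : e1 R x T S = - ((-1 : ℝ) ^ T.card • e2 Q x T S) := eq_neg_of_add_eq_zero_left (he T S h.1 h.2)
      rw [h1, inner_neg_right, real_inner_smul_right, real_inner_self_eq_norm_sq]
      have := hsq T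
      linear_combination (-‖e2 Q x T S‖ ^ 2) * this
    · rw [if_neg h, neg_zero]
      rw [not_and_or] at h
      rcases h with h | h
      · have : e2 Q x T S = 0 := by
          refine Finset.sum_eq_zero fun s _ => ?_
          rw [supp T _ (fun hh => h hh.1), map_zero, sub_zero, smul_zero]
        rw [this, inner_zero_left, mul_zero]
      · have : e1 R x T S = 0 := by
          refine Finset.sum_eq_zero fun s _ => ?_
          rw [supp _ S (fun hh => h hh.2), map_zero, sub_zero, smul_zero]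
        rw [this, inner_zero_right, mul_zero]
  simp only [l1, l2, Finset.sum_neg_distrib] at k
  have p1 : 0 ≤ ∑ T : Finset V, ∑ S : Finset U, ‖d1 x T S‖ ^ 2 :=
    Finset.sum_nonneg fun _ _ => Finset.sum_nonneg fun _ _ => sq_nonneg _
  have p2 : 0 ≤ ∑ T : Finset V, ∑ S : Finset U, (if C T ∧ D S then ‖e2 Q x T S‖ ^ 2 else 0) :=
    Finset.sum_nonneg fun _ _ => Finset.sum_nonneg fun _ _ => by split_ifs <;> positivity
  have z1 : ∑ T : Finset V, ∑ S : Finset U, ‖d1 x T S‖ ^ 2 = 0 := by linarith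
  have z2 : ∑ T : Finset V, ∑ S : Finset U, (if C T ∧ D S then ‖e2 Q x T S‖ ^ 2 else 0) = 0 := by linarith
  have y1 : ∀ T S, d1 x T S = 0 := by
    intro T S
    have h1 := (Finset.sum_eq_zero_iff_of_nonneg (fun T _ => Finset.sum_nonneg fun _ _ => sq_nonneg _)).1 z1 T
      (Finset.mem_univ _)
    have h2 := (Finset.sum_eq_zero_iff_of_nonneg (fun _ _ => sq_nonneg _)).1 h1 S (Finset.mem_univ _)
    simpa using h2
  have y2 : ∀ T S, C T → D S → e2 Q x T S = 0 := by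
    intro T S hC hD
    have h1 := (Finset.sum_eq_zero_iff_of_nonneg (fun T _ => Finset.sum_nonneg fun _ _ => by
      split_ifs <;> positivity)).1 z2 T (Finset.mem_univ _)
    have h2 := (Finset.sum_eq_zero_iff_of_nonneg (fun _ _ => by split_ifs <;> positivity)).1 h1 S (Finset.mem_univ _)
    rw [if_pos ⟨hC, hD⟩] at h2
    simpa using h2
  refine ⟨y1, fun T S => ?_, fun T S hC hD => ?_, y2⟩
  · have h := hd T S
    rw [y1, zero_add, smul_eq_zero] at h
    rcases h with h | h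
    · exact absurd h (pow_ne_zero _ (by norm_num))
    · exact h
  · have h := he T S hC hD
    rwa [y2 T S hC hD, smul_zero, add_zero] at h

end Abs

end Pool.Agent.TH652.Join
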