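import Pool.Agent.H7.L.W21_SGL_Spec
import Pool.Agent.H7.L.W907_SG_Stmts

/-!
# Lück approximation, the integrality direction
-/

set_option autoImplicit false

namespace Pool.Agent.W21.SGL

open Matrix Kronecker

section finite

variable {Γ X 𝓣 : Type} [Group Γ] [Fintype X] [DecidableEq X] [Fintype 𝓣] [DecidableEq 𝓣]
  (act : X → Γ → X)

/-- permutation matrices -/
def P (g : Γ) : Matrix X X ℝ := Matrix.of fun x y => if act x g = y then 1 else 0

theorem P_mul (h1 : ∀ x g h, act x (g * h) = act (act x g) h) (g h : Γ) :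
    P act (g * h) = P act g * P act h := by
  ext x z
  simp only [P, Matrix.mul_apply, Matrix.of_apply, h1]
  rw [Finset.sum_eq_single (act x g)]
  · simp
  · intro y _ hy
    rw [if_neg (Ne.symm hy), zero_mul]
  · intro h
    exact absurd (Finset.mem_univ _) h

omit [Fintype X] in
theorem P_one (h0 : ∀ x, act x 1 = x) : P act (1 : Γ) = 1 := by
  ext x y
  simp [P, h0, Matrix.one_apply]

omit [Fintype X] in
theorem P_inv (h0 : ∀ x, act x 1 = x) (h1 : ∀ x g h, act x (g * h) = act (act x g) h) (g : Γ) :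
    (P act g)ᵀ = P act g⁻¹ := by
  ext x y
  simp only [P, Matrix.transpose_apply, Matrix.of_apply]
  congr 1
  rw [eq_iff_iff]
  constructor
  · intro h
    rw [← h, ← h1, mul_inv_cancel, h0]
  · intro h
    rw [← h, ← h1, inv_mul_cancel, h0]

/-- the representation on a finite set -/
noncomputable def PhiX (h0 : ∀ x, act x 1 = x) (h1 : ∀ x g h, act x (g * h) = act (act x g) h) :
    MonoidAlgebra (Matrix 𝓣 𝓣 ℝ) Γ →+* Matrix (X × 𝓣) (X × 𝓣) ℝ :=
  MonoidAlgebra.liftNCRingHom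
    ({ toFun := fun A => (1 : Matrix X X ℝ) ⊗ₖ A
       map_one' := by simp
       map_mul' := fun A B => by rw [← Matrix.mul_kronecker_mul, one_mul]
       map_zero' := by simp
       map_add' := fun A B => by rw [Matrix.kronecker_add] } :
      Matrix 𝓣 𝓣 ℝ →+* Matrix (X × 𝓣) (X × 𝓣) ℝ)
    ({ toFun := fun g => P act g ⊗ₖ (1 : Matrix 𝓣 𝓣 ℝ)
       map_one' := by rw [P_one act h0]; simp
       map_mul' := fun g h => by rw [← Matrix.mul_kronecker_mul, one_mul, P_mul act h1] } :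
      Γ →* Matrix (X × 𝓣) (X × 𝓣) ℝ)
    (fun A g => by
      change (1 : Matrix X X ℝ) ⊗ₖ A * P act g ⊗ₖ (1 : Matrix 𝓣 𝓣 ℝ) =
        P act g ⊗ₖ (1 : Matrix 𝓣 𝓣 ℝ) * (1 : Matrix X X ℝ) ⊗ₖ A
      rw [← Matrix.mul_kronecker_mul, ← Matrix.mul_kronecker_mul, one_mul, mul_one, mul_one,
        one_mul])

theorem PhiX_single (h0 : ∀ x, act x 1 = x) (h1 : ∀ x g h, act x (g * h) = act (act x g) h)
    (g : Γ) (A : Matrix 𝓣 𝓣 ℝ) :
    PhiX act h0 h1 (MonoidAlgebra.single g A) = P act g ⊗ₖ A := by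
  rw [PhiX, MonoidAlgebra.liftNCRingHom_single]
  change (1 : Matrix X X ℝ) ⊗ₖ A * P act g ⊗ₖ (1 : Matrix 𝓣 𝓣 ℝ) = _
  rw [← Matrix.mul_kronecker_mul, one_mul, mul_one]

theorem PhiX_apply (h0 : ∀ x, act x 1 = x) (h1 : ∀ x g h, act x (g * h) = act (act x g) h)
    (a : MonoidAlgebra (Matrix 𝓣 𝓣 ℝ) Γ) (x y : X) (τ σ : 𝓣) :
    PhiX act h0 h1 a (x, τ) (y, σ) =
      ∑ h ∈ a.coeff.support, (if act x h = y then 1 else 0) * a.coeff h τ σ := by
  conv_lhs => rw [← MonoidAlgebra.sum_coeff_single a]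
  rw [Finsupp.sum, map_sum, Matrix.sum_apply]
  refine Finset.sum_congr rfl fun h _ => ?_
  rw [PhiX_single, Matrix.kroneckerMap_apply]
  rfl

omit [Group Γ] in
theorem sq_sum (s : Finset Γ) (f : Γ → X) (hf : Set.InjOn f s) (v : Γ → ℝ) :
    ∑ y, (∑ h ∈ s, (if f h = y then 1 else 0) * v h) ^ 2 = ∑ h ∈ s, v h ^ 2 := by
  classical
  have h1 : ∀ y, (∑ h ∈ s, (if f h = y then (1 : ℝ) else 0) * v h) ^ 2 =
      ∑ h ∈ s, (if f h = y then 1 else 0) * v h ^ 2 := by
    intro y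
    by_cases hy : ∃ h0 ∈ s, f h0 = y
    · obtain ⟨h0, hs, rfl⟩ := hy
      rw [Finset.sum_eq_single h0, Finset.sum_eq_single h0]
      · simp
      · intro h hh hne
        rw [if_neg (fun e => hne (hf hh hs e)), zero_mul]
      · exact fun h => absurd hs h
      · intro h hh hne
        rw [if_neg (fun e => hne (hf hh hs e)), zero_mul]
      · exact fun h => absurd hs h
    · push Not at hy
      rw [Finset.sum_eq_zero, Finset.sum_eq_zero]
      · simp
      · intro h hh; rw [if_neg (hy h hh), zero_mul]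
      · intro h hh; rw [if_neg (hy h hh), zero_mul]
  rw [Finset.sum_congr rfl fun y _ => h1 y, Finset.sum_comm]
  refine Finset.sum_congr rfl fun h _ => ?_
  rw [← Finset.sum_mul]
  simp

/-- the trace of the square -/
theorem trace_sq (h0 : ∀ x, act x 1 = x) (h1 : ∀ x g h, act x (g * h) = act (act x g) h)
    (a : MonoidAlgebra (Matrix 𝓣 𝓣 ℝ) Γ)
    (hfree : ∀ x, Set.InjOn (act x) a.coeff.support)
    (hs : (PhiX act h0 h1 a)ᵀ = PhiX act h0 h1 a) :
    Matrix.trace (PhiX act h0 h1 a * PhiX act h0 h1 a) =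
      Fintype.card X * ∑ τ, ∑ σ, ∑ h ∈ a.coeff.support, (a.coeff h τ σ) ^ 2 := by
  have e : Matrix.trace (PhiX act h0 h1 a * PhiX act h0 h1 a) =
      ∑ p, ∑ q, (PhiX act h0 h1 a p q) ^ 2 := by
    rw [Matrix.trace]
    refine Finset.sum_congr rfl fun p _ => ?_
    rw [Matrix.diag_apply, Matrix.mul_apply]
    refine Finset.sum_congr rfl fun q _ => ?_
    have : PhiX act h0 h1 a q p = PhiX act h0 h1 a p q := by
      conv_lhs => rw [← hs]
      rfl
    rw [this, sq]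
  rw [e, Fintype.sum_prod_type]
  have h2 : ∀ x : X, ∑ τ : 𝓣, ∑ q, (PhiX act h0 h1 a (x, τ) q) ^ 2 =
      ∑ τ, ∑ σ, ∑ h ∈ a.coeff.support, (a.coeff h τ σ) ^ 2 := by
    intro x
    refine Finset.sum_congr rfl fun τ _ => ?_
    rw [Fintype.sum_prod_type, Finset.sum_comm]
    refine Finset.sum_congr rfl fun σ _ => ?_
    simp only [PhiX_apply]
    exact sq_sum _ _ (hfree x) _
  rw [Finset.sum_congr rfl fun x _ => h2 x, Finset.sum_const, nsmul_eq_mul, Finset.card_univ]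

end finite

section group

variable {Γ 𝓣 : Type} [Group Γ] [Fintype 𝓣] [DecidableEq 𝓣]

/-- matrices act pointwise -/
noncomputable def fG : Matrix 𝓣 𝓣 ℝ →+* Module.End ℝ (Γ → 𝓣 → ℝ) where
  toFun A :=
    { toFun := fun c x => A *ᵥ c x
      map_add' := fun c d => by funext x; exact Matrix.mulVec_add A (c x) (d x)
      map_smul' := fun r c => by funext x; exact Matrix.mulVec_smul A r (c x) }
  map_one' := by
    apply LinearMap.ext
    intro c
    funext x
    exact Matrix.one_mulVec _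
  map_mul' A B := by
    apply LinearMap.ext
    intro c
    funext x
    exact (Matrix.mulVec_mulVec _ _ _).symm
  map_zero' := by
    apply LinearMap.ext
    intro c
    funext x
    exact Matrix.zero_mulVec _
  map_add' A B := by
    apply LinearMap.ext
    intro c
    funext x
    exact Matrix.add_mulVec _ _ _

/-- translations -/
noncomputable def gG : Γ →* Module.End ℝ (Γ → 𝓣 → ℝ) where
  toFun g :=
    { toFun := fun c x => c (x * g)
      map_add' := fun c d => rfl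
      map_smul' := fun r c => rfl }
  map_one' := by
    apply LinearMap.ext
    intro c
    funext x
    change c (x * 1) = c x
    rw [mul_one]
  map_mul' g h := by
    apply LinearMap.ext
    intro c
    funext x
    change c (x * (g * h)) = c (x * g * h)
    rw [mul_assoc]

theorem comG (A : Matrix 𝓣 𝓣 ℝ) (g : Γ) :
    Commute (fG (Γ := Γ) A) (gG (𝓣 := 𝓣) g) := by
  apply LinearMap.ext
  intro c
  rfl

/-- the representation on all functions on the group -/
noncomputable def PhiG : MonoidAlgebra (Matrix 𝓣 𝓣 ℝ) Γ →+* Module.End ℝ (Γ → 𝓣 → ℝ) :=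
  MonoidAlgebra.liftNCRingHom fG gG comG

theorem PhiG_single (g : Γ) (A : Matrix 𝓣 𝓣 ℝ) (c : Γ → 𝓣 → ℝ) (x : Γ) :
    PhiG (MonoidAlgebra.single g A) c x = A *ᵥ c (x * g) := by
  rw [PhiG, MonoidAlgebra.liftNCRingHom_single]
  rfl

theorem PhiG_apply (a : MonoidAlgebra (Matrix 𝓣 𝓣 ℝ) Γ) (c : Γ → 𝓣 → ℝ) (x : Γ) (τ : 𝓣) :
    PhiG a c x τ = ∑ h ∈ a.coeff.support, ∑ σ, a.coeff h τ σ * c (x * h) σ := by
  conv_lhs => rw [← MonoidAlgebra.sum_coeff_single a]
  rw [Finsupp.sum, map_sum, LinearMap.sum_apply, Finset.sum_apply, Finset.sum_apply]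
  refine Finset.sum_congr rfl fun h _ => ?_
  rw [PhiG_single]
  rfl

/-- Cauchy-Schwarz -/
theorem cs (a : MonoidAlgebra (Matrix 𝓣 𝓣 ℝ) Γ) (c : Γ → 𝓣 → ℝ)
    (hc : Summable fun x : Γ × 𝓣 => (c x.1 x.2) ^ 2) (x : Γ) (τ : 𝓣) :
    (PhiG a c x τ) ^ 2 ≤ (∑ τ, ∑ σ, ∑ h ∈ a.coeff.support, (a.coeff h τ σ) ^ 2) *
      ∑' x : Γ × 𝓣, (c x.1 x.2) ^ 2 := by
  classical
  rw [PhiG_apply, ← Finset.sum_product']
  refine (Finset.sum_mul_sq_le_sq_mul_sq _ _ _).trans ?_
  have h1 : ∑ i ∈ a.coeff.support ×ˢ (Finset.univ : Finset 𝓣), (a.coeff i.1 τ i.2) ^ 2 ≤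
      ∑ τ, ∑ σ, ∑ h ∈ a.coeff.support, (a.coeff h τ σ) ^ 2 := by
    rw [Finset.sum_product' (f := fun h σ => (a.coeff h τ σ) ^ 2), Finset.sum_comm]
    exact Finset.single_le_sum (f := fun τ => ∑ σ, ∑ h ∈ a.coeff.support, (a.coeff h τ σ) ^ 2)
      (fun τ _ => Finset.sum_nonneg fun σ _ => Finset.sum_nonneg fun h _ => sq_nonneg _)
      (Finset.mem_univ τ)
  have h2 : ∑ i ∈ a.coeff.support ×ˢ (Finset.univ : Finset 𝓣), (c (x * i.1) i.2) ^ 2 ≤
      ∑' x : Γ × 𝓣, (c x.1 x.2) ^ 2 := by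
    have hi : Function.Injective (fun i : Γ × 𝓣 => (x * i.1, i.2)) := by
      rintro ⟨g, s⟩ ⟨g', s'⟩ h
      simp only [Prod.mk.injEq, mul_right_inj] at h
      rw [h.1, h.2]
    have h3 : ∑ i ∈ a.coeff.support ×ˢ (Finset.univ : Finset 𝓣), (c (x * i.1) i.2) ^ 2 =
        ∑ j ∈ (a.coeff.support ×ˢ (Finset.univ : Finset 𝓣)).image
          (fun i : Γ × 𝓣 => (x * i.1, i.2)), (c j.1 j.2) ^ 2 := by
      rw [Finset.sum_image fun i _ j _ h => hi h]
    rw [h3]
    exact hc.sum_le_tsum _ fun i _ => sq_nonneg _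
  exact mul_le_mul h1 h2 (Finset.sum_nonneg fun i _ => sq_nonneg _)
    (Finset.sum_nonneg fun τ _ => Finset.sum_nonneg fun σ _ => Finset.sum_nonneg fun h _ =>
      sq_nonneg _)

end group

end Pool.Agent.W21.SGL
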