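import Mathlib

/-!
# The trace of a power of `1 - D / C` for an integral positive semidefinite matrix `D`
-/

set_option autoImplicit false

namespace Pool.Agent.W21.SGL

open Matrix Polynomial

/-- the product of the nonzero eigenvalues of an integral matrix -/
theorem prod_nz {ι : Type} [Fintype ι] [DecidableEq ι] (A : Matrix ι ι ℤ)
    (hA : (A.map (Int.cast : ℤ → ℝ)).IsHermitian) :
    1 ≤ |∏ i ∈ Finset.univ.filter (fun i => hA.eigenvalues i ≠ 0), hA.eigenvalues i| := by
  classical
  have h1 : (A.map (Int.cast : ℤ → ℝ)).charpoly = ∏ i, (X - C (hA.eigenvalues i)) := by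
    have := hA.charpoly_eq
    simpa using this
  have h2 : (A.map (Int.cast : ℤ → ℝ)).charpoly = A.charpoly.map (Int.castRingHom ℝ) := by
    have := Matrix.charpoly_map A (Int.castRingHom ℝ)
    simpa using this
  have h0 : A.charpoly ≠ 0 := (Matrix.charpoly_monic A).ne_zero
  have h3 : ∃ z : ℤ, z ≠ 0 ∧ trailingCoeff (A.charpoly.map (Int.castRingHom ℝ)) = (z : ℝ) := by
    refine ⟨A.charpoly.coeff (natTrailingDegree (A.charpoly.map (Int.castRingHom ℝ))), ?_, ?_⟩
    · intro h
      have h5 : trailingCoeff (A.charpoly.map (Int.castRingHom ℝ)) = 0 := by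
        rw [trailingCoeff, coeff_map, h, map_zero]
      rw [trailingCoeff_eq_zero] at h5
      exact h0 ((Polynomial.map_eq_zero_iff (RingHom.injective_int _)).1 h5)
    · rw [trailingCoeff, coeff_map]
      rfl
  have h4 : ∀ s : Finset ι, |trailingCoeff (∏ i ∈ s, (X - C (hA.eigenvalues i)))| =
      |∏ i ∈ s.filter (fun i => hA.eigenvalues i ≠ 0), hA.eigenvalues i| := by
    intro s
    induction s using Finset.induction_on with
    | empty => simp [trailingCoeff]
    | insert a s ha ih =>
      rw [Finset.prod_insert ha, trailingCoeff_mul, abs_mul, ih, Finset.filter_insert]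
      split_ifs with h
      · rw [Finset.prod_insert (by simp [ha]), abs_mul]
        congr 1
        rw [trailingCoeff_eq_coeff_zero]
        · simp
        · simpa using h
      · push Not at h
        rw [h]
        have : trailingCoeff (X - C (0 : ℝ)) = 1 := by
          rw [C_0, sub_zero]
          simp [trailingCoeff]
        rw [this]
        simp
  rw [← h4, ← h1, h2]
  obtain ⟨z, hz, h⟩ := h3
  rw [h]
  exact_mod_cast Int.one_le_abs hz

/-- a real valued function of the eigenvalues -/
theorem trace_pow {ι : Type} [Fintype ι] [DecidableEq ι] (A : Matrix ι ι ℝ)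
    (hA : A.IsHermitian) (a : ℝ) (m : ℕ) :
    Matrix.trace ((1 - a • A) ^ m) = ∑ i, (1 - a * hA.eigenvalues i) ^ m := by
  have h := hA.spectral_theorem
  have h1 : (1 - a • A) ^ m = Unitary.conjStarAlgAut ℝ _ hA.eigenvectorUnitary
      ((1 - a • diagonal (RCLike.ofReal ∘ hA.eigenvalues)) ^ m) := by
    rw [map_pow, map_sub, map_one, map_smul, ← h]
  rw [h1, Unitary.conjStarAlgAut_apply, Matrix.trace_mul_comm, ← mul_assoc]
  have h2 : (star (hA.eigenvectorUnitary : Matrix ι ι ℝ)) * (hA.eigenvectorUnitary : Matrix ι ι ℝ) = 1 := by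
    simp
  rw [h2, one_mul]
  have h3 : (1 - a • diagonal (RCLike.ofReal ∘ hA.eigenvalues) : Matrix ι ι ℝ) =
      diagonal (fun i => 1 - a * hA.eigenvalues i) := by
    ext i j
    by_cases hij : i = j
    · subst hij; simp
    · simp [hij]
  rw [h3, Matrix.diagonal_pow, Matrix.trace_diagonal]
  rfl

/-- the scalar inequality -/
theorem scal (C : ℝ) (hC : 1 ≤ C) (n m : ℕ) (hn : 1 ≤ n) (x : ℝ) (hx : 0 < x) (hxC : x ≤ C) :
    (1 - C⁻¹ * x) ^ (2 * m) ≤ (Real.log C - Real.log x) / n + (1 - Real.exp (-n)) ^ (2 * m) := by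
  have hC0 : 0 < C := by linarith
  have hn0 : (0 : ℝ) < n := by exact_mod_cast hn
  have h1 : C⁻¹ * x ≤ 1 := by
    rw [inv_mul_le_iff₀ hC0]; linarith
  have h0 : 0 < C⁻¹ * x := by positivity
  have he : Real.exp (-n) ≤ 1 := by
    rw [Real.exp_le_one_iff]; linarith
  have hl : Real.log (C⁻¹ * x) = Real.log x - Real.log C := by
    rw [Real.log_mul (by positivity) hx.ne', Real.log_inv]; ring
  rcases le_or_gt (C⁻¹ * x) (Real.exp (-n)) with h | h
  · have h2 : Real.log (C⁻¹ * x) ≤ -n := by
      rw [← Real.log_exp (-(n : ℝ))]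
      exact Real.log_le_log h0 h
    have h3 : 1 ≤ (Real.log C - Real.log x) / n := by
      rw [le_div_iff₀ hn0]; linarith
    have h4 : (1 - C⁻¹ * x) ^ (2 * m) ≤ 1 := pow_le_one₀ (by linarith) (by linarith)
    have h5 : 0 ≤ (1 - Real.exp (-n)) ^ (2 * m) := pow_nonneg (by linarith) _
    linarith
  · have h4 : (1 - C⁻¹ * x) ^ (2 * m) ≤ (1 - Real.exp (-n)) ^ (2 * m) :=
      pow_le_pow_left₀ (by linarith) (by linarith) _
    have h5 : 0 ≤ (Real.log C - Real.log x) / n := by
      apply div_nonneg _ hn0.le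
      have := Real.log_le_log hx hxC
      linarith
    linarith

/-- the trace bound -/
theorem tr_bound {ι κ : Type} [Fintype ι] [DecidableEq ι] [Fintype κ] (B : Matrix κ ι ℤ) (C : ℝ)
    (hC : 1 ≤ C) (hrow : ∀ i, ∑ j, |((Bᵀ * B) i j : ℝ)| ≤ C) (n m : ℕ) (hn : 1 ≤ n) :
    Matrix.trace ((1 - C⁻¹ • ((Bᵀ * B).map (Int.cast : ℤ → ℝ))) ^ (2 * m)) ≤
      Module.finrank ℝ (LinearMap.ker (B.map (Int.cast : ℤ → ℝ)).mulVecLin) +
        Fintype.card ι * (Real.log C / n + (1 - Real.exp (-n)) ^ (2 * m)) := by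
  classical
  have hC0 : 0 < C := by linarith
  set D := (Bᵀ * B).map (Int.cast : ℤ → ℝ) with hD
  have hDB : D = (B.map (Int.cast : ℤ → ℝ))ᴴ * (B.map (Int.cast : ℤ → ℝ)) := by
    rw [hD, Matrix.conjTranspose_eq_transpose_of_trivial]
    ext i j
    simp [Matrix.mul_apply]
  have hP : D.PosSemidef := by
    rw [hDB]; exact Matrix.posSemidef_conjTranspose_mul_self _
  have hH : D.IsHermitian := hP.1
  have hnn : ∀ i, 0 ≤ hH.eigenvalues i := fun i => hP.eigenvalues_nonneg i
  have hle : ∀ i, hH.eigenvalues i ≤ C := by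
    intro i
    have h1 : Module.End.HasEigenvalue (Matrix.toLin' D) (hH.eigenvalues i) := by
      apply Module.End.hasEigenvalue_of_hasEigenvector (x := ⇑(hH.eigenvectorBasis i))
      rw [Module.End.hasEigenvector_iff, Module.End.mem_eigenspace_iff]
      refine ⟨?_, ?_⟩
      · rw [Matrix.toLin'_apply]
        exact hH.mulVec_eigenvectorBasis i
      · intro h
        apply (hH.eigenvectorBasis.orthonormal.ne_zero i)
        ext j
        exact congrFun h j
    obtain ⟨k, hk⟩ := eigenvalue_mem_ball h1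
    rw [mem_closedBall_iff_norm] at hk
    have h2 := hrow k
    rw [← Finset.add_sum_erase _ _ (Finset.mem_univ k)] at h2
    have h3 : ∀ j, ‖D k j‖ = |((Bᵀ * B) k j : ℝ)| := fun j => rfl
    simp only [h3] at hk
    have h4 : D k k = ((Bᵀ * B) k k : ℝ) := rfl
    rw [h4, Real.norm_eq_abs] at hk
    have h5 := le_abs_self (hH.eigenvalues i - ((Bᵀ * B) k k : ℝ))
    have h6 := le_abs_self ((Bᵀ * B) k k : ℝ)
    linarith
  rw [trace_pow D hH]
  -- split the sum
  rw [← Finset.sum_filter_add_sum_filter_not Finset.univ (fun i => hH.eigenvalues i = 0)]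
  have hz : ∑ i ∈ Finset.univ.filter (fun i => hH.eigenvalues i = 0),
      (1 - C⁻¹ * hH.eigenvalues i) ^ (2 * m) =
      Module.finrank ℝ (LinearMap.ker (B.map (Int.cast : ℤ → ℝ)).mulVecLin) := by
    rw [Finset.sum_congr rfl (g := fun _ => (1 : ℝ))]
    · rw [Finset.sum_const, nsmul_eq_mul, mul_one]
      congr 1
      have h1 := hH.rank_eq_card_non_zero_eigs
      have h2 : D.rank = (B.map (Int.cast : ℤ → ℝ)).rank := by
        rw [hDB, Matrix.rank_conjTranspose_mul_self]
      have h3 := LinearMap.finrank_range_add_finrank_ker (B.map (Int.cast : ℤ → ℝ)).mulVecLin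
      rw [Module.finrank_fintype_fun_eq_card] at h3
      have h4 : (B.map (Int.cast : ℤ → ℝ)).rank =
        Module.finrank ℝ (LinearMap.range (B.map (Int.cast : ℤ → ℝ)).mulVecLin) := rfl
      rw [← h4, ← h2, h1, Fintype.card_subtype] at h3
      have h5 := Finset.card_filter_add_card_filter_not (s := (Finset.univ : Finset ι))
        (fun i => hH.eigenvalues i = 0)
      rw [Finset.card_univ] at h5
      simp only [ne_eq] at h3
      omega
    · intro i hi
      rw [Finset.mem_filter] at hi
      rw [hi.2]; simp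
  rw [hz]
  gcongr
  have hnz := prod_nz (Bᵀ * B) hH
  rw [Finset.abs_prod] at hnz
  have hcard : ((Finset.univ.filter (fun i => ¬ hH.eigenvalues i = 0)).card : ℝ) ≤ Fintype.card ι := by
    exact_mod_cast Finset.card_filter_le _ _
  have hlog : 0 ≤ ∑ i ∈ Finset.univ.filter (fun i => ¬ hH.eigenvalues i = 0),
      Real.log (hH.eigenvalues i) := by
    rw [← Real.log_prod (fun i hi => (Finset.mem_filter.1 hi).2)]
    apply Real.log_nonneg
    refine hnz.trans (le_of_eq (Finset.prod_congr rfl fun i _ => abs_of_nonneg (hnn i)))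
  have hn0 : (0 : ℝ) < n := by exact_mod_cast hn
  have hp : 0 ≤ (1 - Real.exp (-n)) ^ (2 * m) := by
    rw [pow_mul]; positivity
  calc ∑ i ∈ Finset.univ.filter (fun i => ¬ hH.eigenvalues i = 0),
        (1 - C⁻¹ * hH.eigenvalues i) ^ (2 * m)
      ≤ ∑ i ∈ Finset.univ.filter (fun i => ¬ hH.eigenvalues i = 0),
        ((Real.log C - Real.log (hH.eigenvalues i)) / n + (1 - Real.exp (-n)) ^ (2 * m)) := by
        refine Finset.sum_le_sum fun i hi => scal C hC n m hn _ ?_ (hle i)
        exact lt_of_le_of_ne (hnn i) (Ne.symm (Finset.mem_filter.1 hi).2)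
    _ = (Finset.univ.filter (fun i => ¬ hH.eigenvalues i = 0)).card *
          (Real.log C / n + (1 - Real.exp (-n)) ^ (2 * m)) -
          (∑ i ∈ Finset.univ.filter (fun i => ¬ hH.eigenvalues i = 0),
            Real.log (hH.eigenvalues i)) / n := by
        rw [Finset.sum_add_distrib, ← Finset.sum_div, Finset.sum_sub_distrib, Finset.sum_const,
          Finset.sum_const, nsmul_eq_mul, nsmul_eq_mul]
        ring
    _ ≤ (Finset.univ.filter (fun i => ¬ hH.eigenvalues i = 0)).card *
          (Real.log C / n + (1 - Real.exp (-n)) ^ (2 * m)) := by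
        have := div_nonneg hlog hn0.le
        linarith
    _ ≤ _ := by
        apply mul_le_mul_of_nonneg_right hcard
        have := div_nonneg (Real.log_nonneg hC) hn0.le
        linarith

end Pool.Agent.W21.SGL
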