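import Pool.Agent.H7.L.W907_SM_Stmts

/-!
Project SM, part KEY, first file: slices and boundaries.
-/

namespace Pool.Agent.W578.SM

open Pool.Agent.W907.SG Pool.Agent.W907.SM

set_option autoImplicit false

section ops

variable {V K : Type} [Fintype V] [DecidableEq V] [Field K]

/-- slices -/
def sl (v : V) : (Finset V → K) →ₗ[K] (Finset V → K) where
  toFun x T := if v ∈ T then 0 else x (insert v T)
  map_add' x y := by
    funext T; simp only [Pi.add_apply]; split_ifs <;> simp
  map_smul' a x := by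
    funext T; simp only [Pi.smul_apply, RingHom.id_apply, smul_eq_mul]; split_ifs <;> simp

omit [Fintype V] in
lemma sl_apply (v : V) (x : Finset V → K) (T : Finset V) :
    sl v x T = if v ∈ T then 0 else x (insert v T) := rfl

omit [Fintype V] in
lemma sl_comm (u v : V) (x : Finset V → K) : sl u (sl v x) = sl v (sl u x) := by
  funext T
  simp only [sl_apply, Finset.mem_insert]
  by_cases hu : u ∈ T
  · simp [hu]
  · by_cases hv : v ∈ T
    · simp [hv]
    · by_cases huv : u = v
      · subst huv; rfl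
      · have hvu : ¬ v = u := fun h => huv h.symm
        simp [hu, hv, huv, hvu, Finset.insert_comm]

/-- the boundary -/
def pd (x : Finset V → K) : Finset V → K := ∑ v, sl v x

/-- the weighted boundary -/
def pt (τ : V → K) (x : Finset V → K) : Finset V → K := ∑ v, τ v • sl v x

lemma pd_apply (x : Finset V → K) (T : Finset V) : pd x T = ∑ v ∈ Tᶜ, x (insert v T) := by
  unfold pd
  rw [Finset.sum_apply, ← Finset.sum_subset (Finset.subset_univ Tᶜ)]
  · refine Finset.sum_congr rfl fun v hv => ?_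
    rw [sl_apply, if_neg (by simpa using hv)]
  · intro v _ hv
    rw [sl_apply, if_pos (by simpa using hv)]

lemma pt_apply (τ : V → K) (x : Finset V → K) (T : Finset V) :
    pt τ x T = ∑ v ∈ Tᶜ, τ v * x (insert v T) := by
  unfold pt
  rw [Finset.sum_apply, ← Finset.sum_subset (Finset.subset_univ Tᶜ)]
  · refine Finset.sum_congr rfl fun v hv => ?_
    rw [Pi.smul_apply, sl_apply, if_neg (by simpa using hv), smul_eq_mul]
  · intro v _ hv
    rw [Pi.smul_apply, sl_apply, if_pos (by simpa using hv), smul_zero]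

lemma pd_sl (v : V) (x : Finset V → K) : pd (sl v x) = sl v (pd x) := by
  unfold pd
  rw [map_sum]
  exact Finset.sum_congr rfl fun u _ => sl_comm _ _ _

lemma pt_sl (τ : V → K) (v : V) (x : Finset V → K) : pt τ (sl v x) = sl v (pt τ x) := by
  unfold pt
  rw [map_sum]
  exact Finset.sum_congr rfl fun u _ => by rw [map_smul, sl_comm]

lemma pd_sub (x y : Finset V → K) : pd (x - y) = pd x - pd y := by
  unfold pd
  rw [← Finset.sum_sub_distrib]
  exact Finset.sum_congr rfl fun u _ => by rw [map_sub]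

lemma pt_sub (τ : V → K) (x y : Finset V → K) : pt τ (x - y) = pt τ x - pt τ y := by
  unfold pt
  rw [← Finset.sum_sub_distrib]
  exact Finset.sum_congr rfl fun u _ => by rw [map_sub, smul_sub]

lemma pd_add (x y : Finset V → K) : pd (x + y) = pd x + pd y := by
  unfold pd
  rw [← Finset.sum_add_distrib]
  exact Finset.sum_congr rfl fun u _ => by rw [map_add]

lemma pt_add (τ : V → K) (x y : Finset V → K) : pt τ (x + y) = pt τ x + pt τ y := by
  unfold pt
  rw [← Finset.sum_add_distrib]
  exact Finset.sum_congr rfl fun u _ => by rw [map_add, smul_add]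

lemma pd_smul (a : K) (x : Finset V → K) : pd (a • x) = a • pd x := by
  unfold pd
  rw [Finset.smul_sum]
  exact Finset.sum_congr rfl fun u _ => by rw [map_smul]

lemma pt_smul (τ : V → K) (a : K) (x : Finset V → K) : pt τ (a • x) = a • pt τ x := by
  unfold pt
  rw [Finset.smul_sum]
  exact Finset.sum_congr rfl fun u _ => by rw [map_smul, smul_comm]

end ops

section types

variable {n : ℕ} {V K : Type} [Fintype V] [DecidableEq V] [Field K] {r : V → V → Prop} {rk : V → Fin n}
  {τ : V → K}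

variable (r rk) in
/-- support -/
def Sp (N : Set V) (C : Finset (Fin n)) (x : Finset V → K) : Prop := ∀ T, ¬ ty r rk N C T → x T = 0

variable (rk τ) in
/-- the weighted cycle condition -/
def Tau (D : Finset (Fin n)) (x : Finset V → K) : Prop :=
  ∀ c ∈ D, ∀ T' : Finset V, c ∉ T'.image rk → pt τ x T' = 0

omit [Fintype V] [DecidableEq V] in
lemma cadj {a b : V} : (Pool.Agent.W907.SM.cmp r).Adj a b ↔ a ≠ b ∧ (r a b ∨ r b a) := by
  unfold Pool.Agent.W907.SM.cmp
  exact SimpleGraph.fromRel_adj _ _ _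

omit [Fintype V] in
lemma ty_of_insert (hrk : ∀ x y, r x y → rk x < rk y) {N : Set V} {C : Finset (Fin n)} {v : V}
    {T : Finset V} (hv : v ∉ T) (h : ty r rk N C (insert v T)) :
    rk v ∉ T.image rk ∧ ty r rk N (C.erase (rk v)) T ∧ rk v ∈ C ∧ v ∈ N := by
  obtain ⟨h1, h2, h3⟩ := h
  have e1 : rk v ∉ T.image rk := by
    intro hc
    rw [Finset.mem_image] at hc
    obtain ⟨w, hw, hw2⟩ := hc
    have hne : v ≠ w := fun h => hv (h ▸ hw)
    have := h1 (by simp) (by simp [hw] : w ∈ ((insert v T : Finset V) : Set V)) hne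
    rw [cadj] at this
    rcases this.2 with h | h
    · have := hrk _ _ h; rw [hw2] at this; exact lt_irrefl _ this
    · have := hrk _ _ h; rw [hw2] at this; exact lt_irrefl _ this
  rw [Finset.image_insert] at h3
  refine ⟨e1, ⟨h1.subset (by simp), fun x hx => h2 (by simp at hx ⊢; exact Or.inr hx), ?_⟩, ?_, ?_⟩
  · rw [← h3, Finset.erase_insert e1]
  · rw [← h3]; exact Finset.mem_insert_self _ _
  · exact h2 (by simp)

lemma TZ_iff (hrk : ∀ x y, r x y → rk x < rk y) {N : Set V} {D S : Finset (Fin n)}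
    {x : Finset V → K} :
    TZ r rk τ N D S x ↔ Sp r rk N (D ∪ S) x ∧ pd x = 0 ∧ Tau rk τ D x := by
  constructor
  · rintro ⟨h1, h2⟩
    refine ⟨h1, ?_, ?_⟩
    · funext T
      rw [pd_apply, Pi.zero_apply]
      by_cases hex : ∃ v ∈ Tᶜ, x (insert v T) ≠ 0
      · obtain ⟨v, hv, hv2⟩ := hex
        have hvT : v ∉ T := by simpa using hv
        have ht : ty r rk N (D ∪ S) (insert v T) := by
          by_contra hc; exact hv2 (h1 _ hc)
        obtain ⟨e1, e2, e3, _⟩ := ty_of_insert hrk hvT ht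
        exact (h2 _ e3 _ e2).1
      · push Not at hex
        exact Finset.sum_eq_zero hex
    · intro c hc T hT
      rw [pt_apply]
      by_cases hex : ∃ v ∈ Tᶜ, x (insert v T) ≠ 0
      · obtain ⟨v, hv, hv2⟩ := hex
        have hvT : v ∉ T := by simpa using hv
        have ht : ty r rk N (D ∪ S) (insert v T) := by
          by_contra hc; exact hv2 (h1 _ hc)
        obtain ⟨e1, e2, e3, _⟩ := ty_of_insert hrk hvT ht
        have hcv : c = rk v := by
          by_contra hne
          apply hT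
          rw [e2.2.2]
          exact Finset.mem_erase.2 ⟨hne, Finset.mem_union_left _ hc⟩
        rw [← hcv] at e2 e3
        exact (h2 _ e3 _ e2).2 hc
      · push Not at hex
        exact Finset.sum_eq_zero fun v hv => by rw [hex v hv, mul_zero]
  · rintro ⟨h1, h2, h3⟩
    refine ⟨h1, fun c hc T hT => ⟨?_, fun hcD => ?_⟩⟩
    · rw [← pd_apply, h2]; rfl
    · rw [← pt_apply]
      apply h3 c hcD
      rw [hT.2.2]
      simp

lemma PRIM_out (hrk : ∀ x y, r x y → rk x < rk y) {N : Set V} {D S : Finset (Fin n)} {s : Fin n}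
    (hs : s ∉ D) (hP : PRIM r rk τ N D S s) {z : Finset V → K} (hz1 : Sp r rk N ((D ∪ S).erase s) z)
    (hz2 : pd z = 0) (hz3 : Tau rk τ D z) :
    ∃ b : Finset V → K, Sp r rk N (D ∪ S) b ∧ pd b = z ∧ Tau rk τ D b := by
  have hDS : D ∪ S.erase s = (D ∪ S).erase s := by
    rw [Finset.erase_union_distrib, Finset.erase_eq_of_notMem hs]
  obtain ⟨b, h1, h2, h3⟩ := hP z ((TZ_iff hrk).2 ⟨by rw [hDS]; exact hz1, hz2, hz3⟩)
  refine ⟨b, h1, ?_, ?_⟩
  · funext T
    rw [pd_apply]
    by_cases hT : ty r rk N ((D ∪ S).erase s) T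
    · exact h2 T hT
    · rw [hz1 T hT]
      by_cases hex : ∃ v ∈ Tᶜ, b (insert v T) ≠ 0
      · obtain ⟨v, hv, hv2⟩ := hex
        have hvT : v ∉ T := by simpa using hv
        have ht : ty r rk N (D ∪ S) (insert v T) := by
          by_contra hc; exact hv2 (h1 _ hc)
        obtain ⟨e1, e2, e3, _⟩ := ty_of_insert hrk hvT ht
        have hne : rk v ≠ s := by
          intro h; rw [h] at e2; exact hT e2
        exact (h3 _ e3 hne _ e2).1
      · push Not at hex
        exact Finset.sum_eq_zero hex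
  · intro c hc T hT
    rw [pt_apply]
    by_cases hex : ∃ v ∈ Tᶜ, b (insert v T) ≠ 0
    · obtain ⟨v, hv, hv2⟩ := hex
      have hvT : v ∉ T := by simpa using hv
      have ht : ty r rk N (D ∪ S) (insert v T) := by
        by_contra hc; exact hv2 (h1 _ hc)
      obtain ⟨e1, e2, e3, _⟩ := ty_of_insert hrk hvT ht
      have hcv : c = rk v := by
        by_contra hne
        apply hT
        rw [e2.2.2]
        exact Finset.mem_erase.2 ⟨hne, Finset.mem_union_left _ hc⟩
      rw [← hcv] at e2 e3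
      exact (h3 _ e3 (fun h => hs (h ▸ hc)) _ e2).2 hc
    · push Not at hex
      exact Finset.sum_eq_zero fun v hv => by rw [hex v hv, mul_zero]

omit [Fintype V] in
lemma sl_ne (v : V) {x : Finset V → K} {T : Finset V} (h : sl v x T ≠ 0) :
    v ∉ T ∧ x (insert v T) ≠ 0 := by
  rw [sl_apply] at h
  split_ifs at h with hv
  · exact absurd rfl h
  · exact ⟨hv, h⟩

omit [Fintype V] in
lemma Sp.ty {N : Set V} {C : Finset (Fin n)} {x : Finset V → K} (h : Sp r rk N C x) {T : Finset V}
    (hT : x T ≠ 0) : ty r rk N C T := by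
  by_contra hc; exact hT (h T hc)

omit [Fintype V] in
/-- slices at the top rank -/
lemma slSp (hrk : ∀ x y, r x y → rk x < rk y) {N : Set V} {C : Finset (Fin n)} {b : Finset V → K}
    (hb : Sp r rk N C b) (v : V) (hC : ∀ c ∈ C, c ≤ rk v) :
    Sp r rk {w | r w v} (C.erase (rk v)) (sl v b) := by
  intro T hT
  by_contra hne
  obtain ⟨h1, h2⟩ := sl_ne v hne
  have h3 := hb.ty h2
  obtain ⟨e1, e2, e3, e4⟩ := ty_of_insert hrk h1 h3
  apply hT
  refine ⟨e2.1, ?_, e2.2.2⟩
  intro w hw
  have hw' : w ∈ T := hw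
  have hne : v ≠ w := fun h => h1 (h ▸ hw')
  have hadj := h3.1 (by simp) (by simp [hw'] : w ∈ ((insert v T : Finset V) : Set V)) hne
  rw [cadj] at hadj
  rcases hadj.2 with h | h
  · exfalso
    have h5 := hrk _ _ h
    have h6 : rk w ∈ C := by
      rw [← h3.2.2]; exact Finset.mem_image_of_mem _ (by simp [hw'])
    exact absurd (hC _ h6) (not_le.2 h5)
  · exact h

lemma slTau {D : Finset (Fin n)} {b : Finset V → K} (hb : Tau rk τ D b) (v : V) (hv : rk v ∉ D) :
    Tau rk τ D (sl v b) := by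
  intro c hc T hT
  rw [pt_sl, sl_apply]
  split_ifs with h
  · rfl
  · apply hb c hc
    rw [Finset.image_insert, Finset.mem_insert, not_or]
    exact ⟨fun h => hv (h ▸ hc), hT⟩

omit [Fintype V] in
/-- a slice at a rank which does not occur vanishes -/
lemma sl_zero {N : Set V} {C : Finset (Fin n)} {b : Finset V → K} (hb : Sp r rk N C b) (v : V)
    (hv : rk v ∉ C) : sl v b = 0 := by
  funext T
  by_contra hne
  obtain ⟨h1, h2⟩ := sl_ne v hne
  apply hv
  rw [← (hb.ty h2).2.2]
  exact Finset.mem_image_of_mem _ (by simp)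

lemma SUMM (hrk : ∀ x y, r x y → rk x < rk y) {N : Set V} {C : Finset (Fin n)} {b x : Finset V → K}
    {s : ℕ} (hb : Sp r rk N C b) (hx : ∀ T : Finset V, (∃ w ∈ T, (rk w : ℕ) = s) → x T = 0)
    (hs : ∃ c ∈ C, (c : ℕ) = s) (hbx : pd b = x) :
    ∑ v ∈ Finset.univ.filter (fun v => (rk v : ℕ) = s), sl v b = x := by
  funext T
  rw [Finset.sum_apply]
  by_cases hT : ∃ w ∈ T, (rk w : ℕ) = s
  · rw [hx T hT]
    obtain ⟨w, hw, hws⟩ := hT
    refine Finset.sum_eq_zero fun v hv => ?_
    rw [Finset.mem_filter] at hv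
    by_contra hne
    obtain ⟨h1, h2⟩ := sl_ne v hne
    obtain ⟨e1, -⟩ := ty_of_insert hrk h1 (hb.ty h2)
    apply e1
    rw [Finset.mem_image]
    exact ⟨w, hw, Fin.ext (by rw [hws, hv.2])⟩
  · rw [← hbx]
    unfold pd
    rw [Finset.sum_apply]
    refine Finset.sum_subset (Finset.filter_subset _ _) fun v _ hv => ?_
    rw [Finset.mem_filter, not_and] at hv
    have hv' := hv (Finset.mem_univ _)
    by_contra hne
    obtain ⟨h1, h2⟩ := sl_ne v hne
    obtain ⟨c, hc, hcs⟩ := hs
    have h3 := (hb.ty h2).2.2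
    rw [← h3, Finset.image_insert, Finset.mem_insert, Finset.mem_image] at hc
    rcases hc with hc | ⟨w, hw, hwc⟩
    · exact hv' (by rw [← hc, hcs])
    · exact hT ⟨w, hw, by rw [hwc, hcs]⟩

lemma PAIR [CharP K 2] (hrk : ∀ x y, r x y → rk x < rk y) {N : Set V} {C : Finset (Fin n)}
    {p : Finset V → K} {m : ℕ} (hp : Sp r rk N C p) (hs : ∃ c ∈ C, (c : ℕ) = m + 1) (M : V)
    (hM : (rk M : ℕ) = m) (hpd : sl M (pd p) = 0) {y₁ y₂ : V} (hy : y₁ ≠ y₂)
    (h12 : {y | y ∈ N ∧ r M y} = {y₁, y₂}) (hrk1 : (rk y₁ : ℕ) = m + 1) (hrk2 : (rk y₂ : ℕ) = m + 1) :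
    sl M (sl y₁ p) = sl M (sl y₂ p) := by
  funext T
  by_cases hT : ∃ w ∈ T, (rk w : ℕ) = m + 1
  · obtain ⟨w, hw, hws⟩ := hT
    have key : ∀ y, (rk y : ℕ) = m + 1 → sl M (sl y p) T = 0 := by
      intro y hyr
      by_contra hne
      obtain ⟨h1, h2⟩ := sl_ne M hne
      obtain ⟨h3, h4⟩ := sl_ne y h2
      obtain ⟨e1, -⟩ := ty_of_insert hrk h3 (hp.ty h4)
      apply e1
      rw [Finset.mem_image]
      exact ⟨w, by simp [hw], Fin.ext (by rw [hws, hyr])⟩
    rw [key y₁ hrk1, key y₂ hrk2]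
  · have h1 : ∑ v, sl M (sl v p) T = 0 := by
      have := congrFun hpd T
      unfold pd at this
      rw [map_sum, Finset.sum_apply] at this
      exact this
    have h2 : ∑ v, sl M (sl v p) T = ∑ v ∈ ({y₁, y₂} : Finset V), sl M (sl v p) T := by
      symm
      refine Finset.sum_subset (Finset.subset_univ _) fun v _ hv => ?_
      by_contra hne
      obtain ⟨h1, h2⟩ := sl_ne M hne
      obtain ⟨h3, h4⟩ := sl_ne v h2
      have h5 := hp.ty h4
      obtain ⟨c, hc, hcs⟩ := hs
      have h6 : (rk v : ℕ) = m + 1 := by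
        rw [← h5.2.2, Finset.image_insert, Finset.image_insert, Finset.mem_insert, Finset.mem_insert,
          Finset.mem_image] at hc
        rcases hc with hc | hc | ⟨w, hw, hwc⟩
        · rw [← hc, hcs]
        · exfalso; rw [hc, hM] at hcs; omega
        · exact absurd ⟨w, hw, by rw [hwc, hcs]⟩ hT
      have h7 : v ∈ N := h5.2.1 (by simp)
      have hvM : v ≠ M := by
        intro h; rw [h, hM] at h6; omega
      have h8 := h5.1 (by simp : v ∈ _) (by simp : M ∈ ((insert v (insert M T) : Finset V) : Set V)) hvM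
      rw [cadj] at h8
      have h9 : r M v := by
        rcases h8.2 with h | h
        · exfalso
          have := hrk _ _ h
          rw [Fin.lt_def, h6, hM] at this
          omega
        · exact h
      have h10 : v ∈ ({y₁, y₂} : Set V) := by
        rw [← h12]; exact ⟨h7, h9⟩
      apply hv
      simpa using h10
    rw [h1, Finset.sum_pair hy] at h2
    exact (CharTwo.add_eq_zero.1 h2.symm)

lemma PAIR0 (hrk : ∀ x y, r x y → rk x < rk y) {N : Set V} {C : Finset (Fin n)}
    {p : Finset V → K} {m : ℕ} (hp : Sp r rk N C p) (M v : V)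
    (hM : (rk M : ℕ) = m) (hv : (rk v : ℕ) = m + 1) (h : ¬ (v ∈ N ∧ r M v)) :
    sl M (sl v p) = 0 := by
  funext T
  by_contra hne
  obtain ⟨h1, h2⟩ := sl_ne M hne
  obtain ⟨h3, h4⟩ := sl_ne v h2
  have h5 := hp.ty h4
  have h7 : v ∈ N := h5.2.1 (by simp)
  have hvM : v ≠ M := by
    intro h; rw [h, hM] at hv; omega
  have h8 := h5.1 (by simp : v ∈ _) (by simp : M ∈ ((insert v (insert M T) : Finset V) : Set V)) hvM
  rw [cadj] at h8
  apply h
  refine ⟨h7, ?_⟩
  rcases h8.2 with h | h
  · exfalso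
    have := hrk _ _ h
    rw [Fin.lt_def, hv, hM] at this
    omega
  · exact h

omit [Fintype V] in
lemma sl_notMem {N : Set V} {C : Finset (Fin n)} {b : Finset V → K} (hb : Sp r rk N C b) (v : V)
    (hv : v ∉ N) : sl v b = 0 := by
  funext T
  by_contra hne
  obtain ⟨h1, h2⟩ := sl_ne v hne
  exact hv ((hb.ty h2).2.1 (by simp))

end types

end Pool.Agent.W578.SM
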