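import Pool.Agent.H7.L.W705_SM_T4b

/-!
SM-T4, part 3: assembly.
-/

set_option autoImplicit false

namespace Pool.Agent.W705.SM

open Module Pool.Agent.W907.SG Pool.Agent.W907.SM
open Pool.Agent.W143.SG.MLP (beta_zero beta_iso rp rp_apply foldr_pull)

section setX
variable {F M V : Type} [Field F] [AddCommGroup M] [Module F M] [DecidableEq V]

/-- flip the sign at `v` -/
def fl (v : V) : Function.End (V → Bool) := fun ε => Function.update ε v (!ε v)

theorem fl_sq (v : V) : fl v * fl v = 1 := by
  funext ε
  show Function.update (Function.update ε v (!ε v)) v (!(Function.update ε v (!ε v)) v) = ε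
  rw [Function.update_self, Bool.not_not, Function.update_idem, Function.update_eq_self]

theorem fl_comm (u v : V) : fl u * fl v = fl v * fl u := by
  by_cases h : u = v
  · rw [h]
  · funext ε
    show Function.update (Function.update ε v (!ε v)) u (!(Function.update ε v (!ε v)) u) =
      Function.update (Function.update ε u (!ε u)) v (!(Function.update ε u (!ε u)) v)
    rw [Function.update_of_ne h, Function.update_of_ne (Ne.symm h), Function.update_comm h]

/-- the action on `X` -/
def aX (se : V → (M ≃ₗ[F] M)) (v : V) (z : (M ≃ₗ[F] M) × (V → Bool)) :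
    (M ≃ₗ[F] M) × (V → Bool) := (se v * z.1, fl v z.2)

theorem foldr_aX (se : V → (M ≃ₗ[F] M)) (l : List V) (z : (M ≃ₗ[F] M) × (V → Bool)) :
    l.foldr (aX se) z = ((l.map se).prod * z.1, (l.map fl).prod z.2) := by
  induction l with
  | nil => exact Prod.ext (one_mul _).symm rfl
  | cons v l ih =>
    rw [List.foldr_cons, ih, List.map_cons, List.prod_cons, List.map_cons, List.prod_cons,
      mul_assoc]
    rfl

theorem iter_aX (se : V → (M ≃ₗ[F] M)) (l : List V) (hl : EvenWord l) (j : ℕ)
    (z : (M ≃ₗ[F] M) × (V → Bool)) :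
    (fun y => l.foldr (aX se) y)^[j] z = ((l.map se).prod ^ j * z.1, z.2) := by
  have h1 : (l.map (fl (V := V))).prod = 1 := prod_even fl fl_sq fl_comm l.length l le_rfl hl
  induction j with
  | zero => exact Prod.ext (by simp) rfl
  | succ j ih =>
    rw [Function.iterate_succ_apply', ih, foldr_aX, h1, pow_succ', mul_assoc]
    rfl

end setX

theorem t4 (hS : S_SUB) (hL : S_LINEP) : M_T4 := by
  intro p hpF V C _ _ _ _ G col i N B α β hp hcol hB
  classical
  have hp2 : (2 : ZMod p) ≠ 0 := by
    intro h
    have h' : ((2 : ℕ) : ZMod p) = 0 := by exact_mod_cast h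
    rw [ZMod.natCast_eq_zero_iff] at h'
    exact hp ((Nat.prime_dvd_prime_iff_eq hpF.out Nat.prime_two).1 h')
  obtain ⟨x, hxd⟩ : ∃ x : ON p N, x = Ideal.Quotient.mk _ (Polynomial.X : Polynomial (ZMod p)) :=
    ⟨_, rfl⟩
  have hx : x ^ N = 0 := by
    rw [hxd, ← map_pow]
    exact Ideal.Quotient.eq_zero_iff_mem.2 (Ideal.subset_span rfl)
  obtain ⟨A, hA⟩ : ∃ A : V → ON p N, ∀ v, A v = Ideal.Quotient.mk _ (α v) := ⟨_, fun _ => rfl⟩
  obtain ⟨B', hB'⟩ : ∃ A : V → ON p N, ∀ v, A v = Ideal.Quotient.mk _ (β v) := ⟨_, fun _ => rfl⟩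
  have hui : ∀ v, ∃ ui : ON p N, ((1 + x * B' v) - x * A v) * ui = 1 := by
    intro v
    have : IsUnit (1 + x * (B' v - A v)) :=
      IsNilpotent.isUnit_one_add ⟨N, by rw [mul_pow, hx, zero_mul]⟩
    obtain ⟨ui, h⟩ := this.exists_right_inv
    exact ⟨ui, by linear_combination h⟩
  choose ui hui using hui
  have h2 : ∃ hf : ON p N, 2 * hf = 1 := by
    refine ⟨algebraMap (ZMod p) _ 2⁻¹, ?_⟩
    rw [← map_ofNat (algebraMap (ZMod p) (ON p N)) 2, ← map_mul, mul_inv_cancel₀ hp2, map_one]
  obtain ⟨hf, h2⟩ := h2
  have hpR : ((p : ℕ) : ON p N) = 0 := by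
    have : ((p : ℕ) : ZMod p) = 0 := ZMod.natCast_self p
    rw [← map_natCast (algebraMap (ZMod p) (ON p N)), this, map_zero]
  obtain ⟨S, hSd⟩ : ∃ S : V → Bool → Bool → ON p N,
    ∀ v, S v = Sm (x * A v) (1 + x * B' v) (ui v) := ⟨_, fun _ => rfl⟩
  have hSH : ∀ v, op (col v) (S v) = op (col v) Pm + x • op (col v) (Hm x (A v) (B' v) (ui v)) :=
    fun v => by rw [hSd]; exact op_Sm (hui v)
  have hsq : ∀ v, op (col v) (S v) * op (col v) (S v) = 1 := by
    intro v
    rw [op_mul, hSd, Sm_sq (hui v), op_one]
  obtain ⟨s, hsd⟩ : ∃ s : V → ((C → Bool) → ON p N) →ₗ[ZMod p] ((C → Bool) → ON p N),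
    ∀ v, s v = (op (col v) (S v)).restrictScalars (ZMod p) := ⟨_, fun _ => rfl⟩
  have hsa : ∀ v m, s v m = op (col v) (S v) m := by
    intro v m; rw [hsd]; rfl
  have hs : ∀ v m, s v (s v m) = m := by
    intro v m
    rw [hsa, hsa, ← Module.End.mul_apply, hsq]
    rfl
  have hsc : ∀ u v, G.Adj u v → ∀ m, s u (s v m) = s v (s u m) := by
    intro u v huv m
    rw [hsa, hsa, hsa, hsa, ← Module.End.mul_apply, ← Module.End.mul_apply,
      op_comm _ _ (hcol u v huv)]
  obtain ⟨se, hse⟩ : ∃ se : V → (((C → Bool) → ON p N) ≃ₗ[ZMod p] ((C → Bool) → ON p N)),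
    ∀ v m, se v m = s v m := ⟨fun v => LinearEquiv.ofInvolutive (s v) (hs v), fun _ _ => rfl⟩
  have hse2 : ∀ v, se v * se v = 1 := by
    intro v
    refine LinearEquiv.ext fun m => ?_
    show se v (se v m) = m
    rw [hse, hse, hs]
  have hfd0 : FiniteDimensional (ZMod p) (ON p N) := (Polynomial.monic_X_pow N).finite_quotient
  have hfr0 : finrank (ZMod p) (ON p N) = N := by
    have := finrank_quotient_span_eq_natDegree (f := (Polynomial.X : Polynomial (ZMod p)) ^ N)
    rw [Polynomial.natDegree_X_pow] at this
    exact this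
  have hfin : Finite ((C → Bool) → ON p N) := Module.finite_of_finite (ZMod p)
  have hfinE : Finite (((C → Bool) → ON p N) ≃ₗ[ZMod p] ((C → Bool) → ON p N)) :=
    Finite.of_injective (fun g => (g : ((C → Bool) → ON p N) → ((C → Bool) → ON p N)))
      DFunLike.coe_injective
  have hFX : Fintype ((((C → Bool) → ON p N) ≃ₗ[ZMod p] ((C → Bool) → ON p N)) × (V → Bool)) :=
    Fintype.ofFinite _
  have hprod : ∀ (l : List V) (y : (C → Bool) → ON p N),
      (l.map se).prod y = (l.map (fun v => op (col v) (S v))).prod y := by
    intro l y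
    induction l with
    | nil => rfl
    | cons v l ih =>
      rw [List.map_cons, List.prod_cons, List.map_cons, List.prod_cons]
      show se v ((l.map se).prod y) = op (col v) (S v) ((l.map (fun v => op (col v) (S v))).prod y)
      rw [hse, hsa, ih]
  have hpow : ∀ (l : List V) (j : ℕ) (y : (C → Bool) → ON p N),
      ((l.map se).prod ^ j) y = ((l.map (fun v => op (col v) (S v))).prod ^ j) y := by
    intro l j
    induction j with
    | zero => intro y; rfl
    | succ j ih =>
      intro y
      rw [pow_succ, pow_succ]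
      show ((l.map se).prod ^ j) ((l.map se).prod y) =
        ((l.map (fun v => op (col v) (S v))).prod ^ j) ((l.map (fun v => op (col v) (S v))).prod y)
      rw [ih, hprod]
  have hW : ∀ l : List V, EvenWord l → (l.map se).prod ^ (p ^ N) = 1 := by
    intro l hl
    refine LinearEquiv.ext fun y => ?_
    rw [hpow, ptype_word hpR col x N hx S _ hSH l hl]
    rfl
  have hainv : ∀ v z, aX se v (aX se v z) = z := by
    intro v z
    refine Prod.ext ?_ ?_
    · show se v * (se v * z.1) = z.1
      rw [← mul_assoc, hse2, one_mul]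
    · exact congrFun (fl_sq v) z.2
  have hacomm : ∀ u v, G.Adj u v → ∀ z, aX se u (aX se v z) = aX se v (aX se u z) := by
    intro u v huv z
    refine Prod.ext ?_ ?_
    · show se u * (se v * z.1) = se v * (se u * z.1)
      refine LinearEquiv.ext fun m => ?_
      show se u (se v (z.1 m)) = se v (se u (z.1 m))
      rw [hse, hse, hse, hse, hsc u v huv]
    · exact congrFun (fl_comm u v) z.2
  let P : PSet p G ((((C → Bool) → ON p N) ≃ₗ[ZMod p] ((C → Bool) → ON p N)) × (V → Bool)) :=
    { a := aX se
      inv := hainv
      comm := hacomm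
      sgn := fun v z => z.2 v
      sgn_self := by
        intro v z
        show Function.update z.2 v (!z.2 v) v = !(z.2 v)
        rw [Function.update_self]
      sgn_other := by
        intro u v huv z
        show Function.update z.2 v (!z.2 v) u = z.2 u
        rw [Function.update_of_ne huv]
      ptype := by
        intro l hl
        refine ⟨N, fun z => ?_⟩
        rw [iter_aX se l hl, hW l hl, one_mul] }
  refine ⟨_, hFX, ⟨(1, fun _ => false)⟩, P, ?_⟩
  show N * beta G (pull (ZMod p) (aX se)) Set.univ ∅ i ≤ B * Fintype.card _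
  -- (5)
  have h5 : beta G (hm (pull (ZMod p) (aX se)) s) Set.univ ∅ i ≤
      Fintype.card ((((C → Bool) → ON p N) ≃ₗ[ZMod p] ((C → Bool) → ON p N)) × (V → Bool)) * B := by
    refine genH G hp2 hp hS hL s hs hsc i B ?_ _ _ (by rw [finrank_fintype_fun_eq_card])
      (pull (ZMod p) (aX se)) ?_ ?_ ?_
    · intro ε hε
      refine hB (fun v => decide (ε v = 1)) (fun v => ε v • s v) ?_
      intro v a
      have hne : (-1 : ZMod p) ≠ 1 := by
        intro h
        apply hp2
        linear_combination -h
      rcases hε v with h | h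
      · rw [h, one_smul, hsa, hSd]
        have : Ideal.Quotient.mk (Ideal.span {(Polynomial.X : Polynomial (ZMod p)) ^ N})
            (Pool.Agent.W907.SM.slope α β (fun v => decide (ε v = 1)) v) = x * A v := by
          unfold Pool.Agent.W907.SM.slope
          rw [if_pos (decide_eq_true h), map_mul, hxd, hA]
        rw [this]
        exact neg_iff (hui v) h2 a
      · rw [h, LinearMap.smul_apply, neg_one_smul, neg_inj, hsa, hSd]
        have : Ideal.Quotient.mk (Ideal.span {(Polynomial.X : Polynomial (ZMod p)) ^ N})
            (Pool.Agent.W907.SM.slope α β (fun v => decide (ε v = 1)) v) = 1 + x * B' v := by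
          unfold Pool.Agent.W907.SM.slope
          rw [if_neg (by show ¬ (decide (ε v = 1) = true); rw [h]; simpa using hne), map_add, map_one, map_mul, hxd, hB']
        rw [this]
        exact pos_iff (hui v) h2 a
    · intro v m
      funext y
      rw [pull_apply, pull_apply, hainv]
    · intro u v huv m
      funext y
      rw [pull_apply, pull_apply, pull_apply, pull_apply, hacomm u v huv]
    · intro l hl
      have hl' : EvenWord l.reverse := by
        intro χ
        rw [List.map_reverse]
        exact (List.Perm.prod_eq (List.reverse_perm _)).trans (hl χ)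
      obtain ⟨k, hk⟩ := P.ptype l.reverse hl'
      refine ⟨k, fun m => ?_⟩
      have h5 : ∀ (j : ℕ) (m : _ → ZMod p),
          (fun m => l.foldr (fun v => pull (ZMod p) (aX se) v) m)^[j] m =
          fun y => m ((fun y => l.reverse.foldr (aX se) y)^[j] y) := by
        intro j
        induction j with
        | zero => intro m; rfl
        | succ j ihj =>
          intro m
          rw [Function.iterate_succ_apply, ihj, foldr_pull]
          funext y
          rw [Function.iterate_succ_apply']
      rw [h5]
      funext y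
      exact congrArg m (hk y)
  -- (4)
  have h4 : beta G (rp (aX se) s) Set.univ ∅ i ≤
      beta G (hm (pull (ZMod p) (aX se)) s) Set.univ ∅ i := by
    refine beta_iso hS G (hm (pull (ZMod p) (aX se)) s) (rp (aX se) s)
      { toFun := fun φ z => φ (Pi.single z 1)
        map_add' := fun f g => rfl
        map_smul' := fun c f => rfl } hp2 ?_ ?_ ?_ ?_ ?_ i
    · intro v m
      funext z
      rw [rp_apply, rp_apply, hainv, hs]
    · intro u v huv m
      funext z
      rw [rp_apply, rp_apply, rp_apply, rp_apply, hacomm u v huv, hsc u v huv]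
    · intro v φ
      funext z
      show s v (φ (pull (ZMod p) (aX se) v (Pi.single z 1))) = s v (φ (Pi.single (aX se v z) 1))
      congr 2
      funext y
      rw [pull_apply, Pi.single_apply, Pi.single_apply]
      refine if_congr ?_ rfl rfl
      constructor
      · intro h; rw [← h, hainv]
      · intro h; rw [h, hainv]
    · intro φ ψ h
      refine (Pi.basisFun (ZMod p) _).ext fun z => ?_
      rw [Pi.basisFun_apply]
      exact congrFun h z
    · intro g
      refine ⟨(Pi.basisFun (ZMod p) _).constr (ZMod p) g, ?_⟩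
      funext z
      show (Pi.basisFun (ZMod p) _).constr (ZMod p) g (Pi.single z 1) = g z
      rw [← Pi.basisFun_apply, Basis.constr_basis]
  -- (3)
  have h3 : beta G (rp (aX se) (fun _ => (LinearMap.id :
      ((C → Bool) → ON p N) →ₗ[ZMod p] ((C → Bool) → ON p N)))) Set.univ ∅ i ≤
      beta G (rp (aX se) s) Set.univ ∅ i := by
    refine beta_iso hS G (rp (aX se) s) _
      { toFun := fun φ z => z.1.symm (φ z)
        map_add' := fun f g => by funext z; exact map_add z.1.symm (f z) (g z)
        map_smul' := fun c f => by funext z; exact map_smul z.1.symm c (f z) } hp2 ?_ ?_ ?_ ?_ ?_ i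
    · intro v m
      funext z
      rw [rp_apply, rp_apply, hainv]
      rfl
    · intro u v huv m
      funext z
      rw [rp_apply, rp_apply, rp_apply, rp_apply, hacomm u v huv]
    · intro v φ
      funext z
      show z.1.symm (s v (φ (aX se v z))) = (se v * z.1).symm (φ (aX se v z))
      rw [LinearEquiv.eq_symm_apply]
      show se v (z.1 (z.1.symm (s v (φ (aX se v z))))) = φ (aX se v z)
      rw [LinearEquiv.apply_symm_apply, hse, hs]
    · intro f g h
      funext z
      exact z.1.symm.injective (congrFun h z)
    · intro g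
      refine ⟨fun z => z.1 (g z), ?_⟩
      funext z
      exact LinearEquiv.symm_apply_apply z.1 (g z)
  -- (2)
  have h2' : beta G (cw (Fin (finrank (ZMod p) ((C → Bool) → ON p N)))
      (pull (ZMod p) (aX se))) Set.univ ∅ i ≤
      beta G (rp (aX se) (fun _ => (LinearMap.id :
      ((C → Bool) → ON p N) →ₗ[ZMod p] ((C → Bool) → ON p N)))) Set.univ ∅ i := by
    refine beta_iso hS G _ _
      { toFun := fun φ j z => (Module.finBasis (ZMod p) ((C → Bool) → ON p N)).equivFun (φ z) j
        map_add' := fun f g => by
          funext j z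
          show (Module.finBasis (ZMod p) ((C → Bool) → ON p N)).equivFun (f z + g z) j = _
          rw [map_add]; rfl
        map_smul' := fun c f => by
          funext j z
          show (Module.finBasis (ZMod p) ((C → Bool) → ON p N)).equivFun (c • f z) j = _
          rw [map_smul]; rfl } hp2 ?_ ?_ ?_ ?_ ?_ i
    · intro v m
      funext j z
      show m j (aX se v (aX se v z)) = m j z
      rw [hainv]
    · intro u v huv m
      funext j z
      show m j (aX se v (aX se u z)) = m j (aX se u (aX se v z))
      rw [hacomm u v huv]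
    · intro v m
      rfl
    · intro f g h
      funext z
      apply (Module.finBasis (ZMod p) ((C → Bool) → ON p N)).equivFun.injective
      funext j
      exact congrFun (congrFun h j) z
    · intro g
      refine ⟨fun z => (Module.finBasis (ZMod p) ((C → Bool) → ON p N)).equivFun.symm
        (fun j => g j z), ?_⟩
      funext j z
      show (Module.finBasis (ZMod p) ((C → Bool) → ON p N)).equivFun
        ((Module.finBasis (ZMod p) ((C → Bool) → ON p N)).equivFun.symm (fun j => g j z)) j = g j z
      rw [LinearEquiv.apply_symm_apply]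
  rw [beta_pi, Fintype.card_fin] at h2'
  have h6 : N ≤ finrank (ZMod p) ((C → Bool) → ON p N) := by
    rw [finrank_pi_fintype]
    simp only [hfr0, Finset.sum_const, smul_eq_mul, Finset.card_univ]
    exact Nat.le_mul_of_pos_left _ Fintype.card_pos
  calc N * beta G (pull (ZMod p) (aX se)) Set.univ ∅ i
      ≤ finrank (ZMod p) ((C → Bool) → ON p N) * beta G (pull (ZMod p) (aX se)) Set.univ ∅ i :=
        Nat.mul_le_mul_right _ h6
    _ ≤ _ := (h2'.trans h3).trans (h4.trans h5)
    _ = _ := Nat.mul_comm _ _

end Pool.Agent.W705.SM
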