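import Pool.Agent.H7.L.W705_SM_T4a
import Pool.Agent.H7.L.W143_SG_MLP

/-!
SM-T4, part 2: Betti numbers of direct sums and of `Hom(E, M)`.
-/

set_option autoImplicit false

namespace Pool.Agent.W705.SM

open Module Pool.Agent.W907.SG Pool.Agent.W907.SM
open Pool.Agent.W143.SG.MLP (beta_zero beta_iso rp rp_apply foldr_pull)

section pi
variable {V F M J : Type} [Fintype V] [LinearOrder V] [Field F] [AddCommGroup M] [Module F M]
  [FiniteDimensional F M] [Fintype J]

/-- componentwise operators -/
def cw (J : Type) (ρ : V → M →ₗ[F] M) (v : V) : (J → M) →ₗ[F] (J → M) where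
  toFun f j := ρ v (f j)
  map_add' f g := by funext j; simp
  map_smul' c f := by funext j; simp

/-- exchange of the arguments -/
def sw (F V J M : Type) [Field F] [AddCommGroup M] [Module F M] :
    (Finset V → J → M) ≃ₗ[F] (J → Finset V → M) where
  toFun c j T := c T j
  invFun c T j := c j T
  left_inv _ := rfl
  right_inv _ := rfl
  map_add' _ _ := rfl
  map_smul' _ _ := rfl

theorem finrank_pi' {E : Type} [AddCommGroup E] [Module F E] [FiniteDimensional F E]
    (Z : Submodule F E) :
    finrank F (Submodule.pi Set.univ (fun _ : J => Z)) = Fintype.card J * finrank F Z := by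
  have e : (Submodule.pi Set.univ (fun _ : J => Z)) ≃ₗ[F] (J → Z) :=
    { toFun := fun z j => ⟨z.1 j, z.2 j trivial⟩
      invFun := fun f => ⟨fun j => (f j).1, fun j _ => (f j).2⟩
      left_inv := fun _ => rfl
      right_inv := fun _ => rfl
      map_add' := fun _ _ => rfl
      map_smul' := fun _ _ => rfl }
  rw [e.finrank_eq, finrank_pi_fintype]
  simp

theorem beta_pi (G : SimpleGraph V) (ρ : V → M →ₗ[F] M) (A S : Set V) (i : ℕ) :
    beta G (cw J ρ) A S i = Fintype.card J * beta G ρ A S i := by
  have hbd : ∀ (c : Finset V → J → M) (j : J) (T : Finset V),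
      bd F c T j = bd F (fun T => c T j) T := by
    intro c j T
    rw [bd_apply, bd_apply, Finset.sum_apply]
    rfl
  have hKK : ∀ (i : ℕ) (c : Finset V → J → M), c ∈ KK G (cw J ρ) A S i ↔
      ∀ j, (fun T => c T j) ∈ KK G ρ A S i := by
    intro i c
    simp only [mem_KK]
    constructor
    · rintro ⟨h1, h2⟩ j
      refine ⟨fun T hT => ?_, fun T t ht => ?_⟩
      · rw [h1 T hT]; rfl
      · exact congrFun (h2 T t ht) j
    · intro h
      refine ⟨fun T hT => ?_, fun T t ht => ?_⟩
      · funext j; exact (h j).1 T hT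
      · funext j; exact (h j).2 T t ht
  have hZ : (ZZ G (cw J ρ) A S i).map (sw F V J M : (Finset V → J → M) →ₗ[F] (J → Finset V → M)) =
      Submodule.pi Set.univ (fun _ : J => ZZ G ρ A S i) := by
    ext c
    rw [Submodule.mem_map, Submodule.mem_pi]
    constructor
    · rintro ⟨c, ⟨h1, h2⟩, rfl⟩ j _
      refine ⟨(hKK i c).1 h1 j, ?_⟩
      have h2 : bd F c = 0 := h2
      show bd F (fun T => c T j) = 0
      funext T
      have := congrFun (congrFun h2 T) j
      rw [hbd] at this
      exact this
    · intro h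
      refine ⟨(sw F V J M).symm c, ⟨?_, ?_⟩, by simp⟩
      · exact (hKK i _).2 fun j => (h j trivial).1
      · show bd F _ = 0
        funext T j
        rw [hbd]
        exact congrFun (h j trivial).2 T
  have hB : (BB G (cw J ρ) A S i).map (sw F V J M : (Finset V → J → M) →ₗ[F] (J → Finset V → M)) =
      Submodule.pi Set.univ (fun _ : J => BB G ρ A S i) := by
    ext c
    rw [Submodule.mem_map, Submodule.mem_pi]
    constructor
    · rintro ⟨c, ⟨d, hd, rfl⟩, rfl⟩ j _
      refine ⟨fun T => d T j, (hKK (i + 1) d).1 hd j, ?_⟩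
      funext T
      exact (hbd d j T).symm
    · intro h
      choose d hd hd2 using fun j => h j trivial
      refine ⟨(sw F V J M).symm c, ⟨fun T j => d j T, (hKK (i + 1) _).2 hd, ?_⟩, by simp⟩
      funext T j
      rw [hbd]
      exact congrFun (hd2 j) T
  unfold beta
  have h1 : finrank F (ZZ G (cw J ρ) A S i) = Fintype.card J * finrank F (ZZ G ρ A S i) := by
    rw [← finrank_pi', ← hZ]
    exact (LinearEquiv.finrank_map_eq (sw F V J M) _).symm
  have h2 : finrank F (BB G (cw J ρ) A S i) = Fintype.card J * finrank F (BB G ρ A S i) := by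
    rw [← finrank_pi', ← hB]
    exact (LinearEquiv.finrank_map_eq (sw F V J M) _).symm
  rw [h1, h2, Nat.mul_sub]

end pi

section hom
variable {V F E M : Type} [Field F] [AddCommGroup E] [Module F E] [AddCommGroup M] [Module F M]

/-- the representation on `Hom(E, M)` -/
def hm (σ : V → E →ₗ[F] E) (s : V → M →ₗ[F] M) (v : V) : (E →ₗ[F] M) →ₗ[F] (E →ₗ[F] M) where
  toFun φ := s v ∘ₗ φ ∘ₗ σ v
  map_add' φ ψ := by ext e; simp
  map_smul' c φ := by ext e; simp

theorem hm_apply (σ : V → E →ₗ[F] E) (s : V → M →ₗ[F] M) (v : V) (φ : E →ₗ[F] M) (e : E) :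
    hm σ s v φ e = s v (φ (σ v e)) := rfl

end hom

theorem genH {p : ℕ} [Fact p.Prime] {V : Type} [Fintype V] [LinearOrder V] (G : SimpleGraph V)
    (hp2 : (2 : ZMod p) ≠ 0) (hp3 : p ≠ 2) (hS : S_SUB) (hL : S_LINEP) {M : Type} [AddCommGroup M]
    [Module (ZMod p) M] [FiniteDimensional (ZMod p) M] (s : V → M →ₗ[ZMod p] M)
    (hs : ∀ v m, s v (s v m) = m)
    (hsc : ∀ u v, G.Adj u v → ∀ m, s u (s v m) = s v (s u m)) (i B : ℕ)
    (hB : ∀ ε : V → ZMod p, (∀ v, ε v = 1 ∨ ε v = -1) →
      beta G (fun v => ε v • s v) Set.univ ∅ i ≤ B) :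
    ∀ (n : ℕ) (E : Type) [AddCommGroup E] [Module (ZMod p) E] [FiniteDimensional (ZMod p) E],
    finrank (ZMod p) E = n → ∀ σ : V → E →ₗ[ZMod p] E, (∀ v m, σ v (σ v m) = m) →
    (∀ u v, G.Adj u v → ∀ m, σ u (σ v m) = σ v (σ u m)) →
    (∀ l : List V, EvenWord l → ∃ k : ℕ, ∀ x, (fun y => l.foldr (fun v => σ v) y)^[p ^ k] x = x) →
    beta G (hm σ s) Set.univ ∅ i ≤ n * B := by
  intro n
  induction n with
  | zero =>
    intro E _ _ _ hE σ _ _ _
    have : Subsingleton E := finrank_zero_iff.1 hE
    have : Subsingleton (E →ₗ[ZMod p] M) := ⟨fun f g => by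
      ext e
      rw [Subsingleton.elim e 0, map_zero, map_zero]⟩
    rw [beta_zero]
    exact Nat.zero_le _
  | succ n ih =>
    intro E _ _ _ hE σ hσ hσc hσ3
    have : Nontrivial E := nontrivial_of_finrank_pos (R := ZMod p) (by omega)
    obtain ⟨x0, hx0, hx⟩ := hL p V E σ hp3 hσ hσ3
    obtain ⟨L, hLd⟩ : ∃ L : Submodule (ZMod p) E, L = Submodule.span (ZMod p) {x0} := ⟨_, rfl⟩
    have hε : ∀ v, ∃ e : ZMod p, (e = 1 ∨ e = -1) ∧ σ v x0 = e • x0 := by
      intro v
      rcases hx v with h | h
      · exact ⟨1, Or.inl rfl, by rw [h, one_smul]⟩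
      · exact ⟨-1, Or.inr rfl, by rw [h, neg_one_smul]⟩
    choose ε hε1 hε2 using hε
    have hLle : ∀ v, L ≤ L.comap (σ v) := by
      intro v
      rw [hLd, Submodule.span_le, Set.singleton_subset_iff]
      show σ v x0 ∈ Submodule.span (ZMod p) {x0}
      rw [hε2]
      exact Submodule.smul_mem _ _ (Submodule.mem_span_singleton_self x0)
    have hq : ∀ v (m : E), L.mapQ L (σ v) (hLle v) (L.mkQ m) = L.mkQ (σ v m) := fun v m => rfl
    have hLf : finrank (ZMod p) (E ⧸ L) = n := by
      have h3 := Submodule.finrank_quotient_add_finrank L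
      have h4 : finrank (ZMod p) L = 1 := by rw [hLd]; exact finrank_span_singleton hx0
      omega
    have hfold : ∀ (l : List V) (m : E),
        l.foldr (fun v => L.mapQ L (σ v) (hLle v)) (L.mkQ m) = L.mkQ (l.foldr (fun v => σ v) m) := by
      intro l m
      induction l with
      | nil => rfl
      | cons v l ihl => rw [List.foldr_cons, List.foldr_cons, ihl, hq]
    have hih := ih (E ⧸ L) hLf (fun v => L.mapQ L (σ v) (hLle v))
      (by
        intro v m
        obtain ⟨m, rfl⟩ := L.mkQ_surjective m
        rw [hq, hq, hσ])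
      (by
        intro u v huv m
        obtain ⟨m, rfl⟩ := L.mkQ_surjective m
        rw [hq, hq, hq, hq, hσc u v huv])
      (by
        intro l hl
        obtain ⟨k, hk⟩ := hσ3 l hl
        refine ⟨k, fun x => ?_⟩
        obtain ⟨m, rfl⟩ := L.mkQ_surjective x
        have h5 : ∀ j : ℕ, (fun y => l.foldr (fun v => L.mapQ L (σ v) (hLle v)) y)^[j] (L.mkQ m) =
            L.mkQ ((fun y => l.foldr (fun v => σ v) y)^[j] m) := by
          intro j
          induction j with
          | zero => rfl
          | succ j ihj => rw [Function.iterate_succ_apply', Function.iterate_succ_apply', ihj, hfold]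
        rw [h5, hk])
    obtain ⟨g0, hg0⟩ := LinearMap.exists_leftInverse_of_injective
      (LinearMap.toSpanSingleton (ZMod p) E x0)
      (LinearMap.ker_eq_bot.2 (by
        intro a b hab
        exact smul_left_injective (ZMod p) hx0 hab))
    have hg1 : g0 x0 = 1 := by
      have := congrArg (fun f : ZMod p →ₗ[ZMod p] ZMod p => f 1) hg0
      simpa using this
    have hsub := hS V (ZMod p) ((E ⧸ L) →ₗ[ZMod p] M) (E →ₗ[ZMod p] M) M G
      (hm (fun v => L.mapQ L (σ v) (hLle v)) s) (hm σ s) (fun v => ε v • s v)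
      { toFun := fun ψ => ψ ∘ₗ L.mkQ
        map_add' := fun f g => by ext x; rfl
        map_smul' := fun c f => by ext x; rfl }
      { toFun := fun φ => φ x0
        map_add' := fun f g => rfl
        map_smul' := fun c f => rfl }
      hp2
      (by
        intro v φ
        ext e
        rw [hm_apply, hm_apply, hσ, hs])
      (by
        intro u v huv φ
        ext e
        rw [hm_apply, hm_apply, hm_apply, hm_apply, hσc u v huv, hsc u v huv])
      (by
        intro v ψ
        rfl)
      (by
        intro v φ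
        show s v (φ (σ v x0)) = ε v • s v (φ x0)
        rw [hε2, map_smul, map_smul])
      (by
        intro f g hfg
        exact (LinearMap.cancel_right L.mkQ_surjective).1 hfg)
      (by
        intro m
        refine ⟨(LinearMap.toSpanSingleton (ZMod p) M m) ∘ₗ g0, ?_⟩
        show (LinearMap.toSpanSingleton (ZMod p) M m) (g0 x0) = m
        rw [hg1, LinearMap.toSpanSingleton_apply, one_smul])
      (by
        ext φ
        rw [LinearMap.mem_range, LinearMap.mem_ker]
        constructor
        · rintro ⟨ψ, rfl⟩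
          show ψ (L.mkQ x0) = 0
          have : L.mkQ x0 = 0 := by
            rw [Submodule.mkQ_apply, Submodule.Quotient.mk_eq_zero, hLd]
            exact Submodule.mem_span_singleton_self x0
          rw [this, map_zero]
        · intro h
          have h3 : L ≤ LinearMap.ker φ := by
            rw [hLd, Submodule.span_le, Set.singleton_subset_iff]
            exact h
          refine ⟨L.liftQ φ h3, ?_⟩
          exact Submodule.liftQ_mkQ L φ h3) i
    have hBε := hB ε hε1
    calc _ ≤ _ := hsub
      _ ≤ n * B + B := Nat.add_le_add hih hBε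
      _ = _ := by ring

end Pool.Agent.W705.SM
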