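import Pool.Agent.H7.L.W907_SM_Defs

namespace Pool.Agent.W907.SM

open Pool.Agent.W907.SG

/-- the ranks `a, a+1, …, b-1` -/
def RgF (n a b : ℕ) : Finset (Fin n) := Finset.univ.filter (fun c => a ≤ c.val ∧ c.val < b)

/-! ### adding and deleting vertices -/

/-- SURJ: modulo boundaries a cycle can be moved off a vertex `v` if the complex of the link of `v` is exact -/
def M_SURJ : Prop := ∀ (V C R : Type) [Fintype V] [LinearOrder V] [DecidableEq C] [CommRing R] (G : SimpleGraph V)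
    (col : V → C) (D : Set C) (τ : V → R) (A : Set V) (v : V) (i : ℕ), (∀ u w, G.Adj u w → col u ≠ col w) → v ∉ A →
    EX G col D τ (A ∩ G.neighborSet v) i → ∀ z : Finset V → (C → Bool) → R,
    IsLC G col D τ (insert v A) (i + 1) z → bdd z = 0 →
    ∃ y z' : Finset V → (C → Bool) → R, IsLC G col D τ (insert v A) (i + 2) y ∧ IsLC G col D τ A (i + 1) z' ∧
      z = bdd y + z'

/-- LADD: adding a vertex -/
def M_LADD : Prop := ∀ (V C R : Type) [Fintype V] [LinearOrder V] [DecidableEq C] [CommRing R] (G : SimpleGraph V)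
    (col : V → C) (D : Set C) (τ : V → R) (A : Set V) (v : V) (i : ℕ), (∀ u w, G.Adj u w → col u ≠ col w) → v ∉ A →
    EX G col D τ A i → (∀ j, i = j + 1 → EX G col D τ (A ∩ G.neighborSet v) j) → EX G col D τ (insert v A) i

/-- LDEL: deleting a vertex of a simple colour -/
def M_LDEL : Prop := ∀ (V C R : Type) [Fintype V] [LinearOrder V] [DecidableEq C] [CommRing R] (G : SimpleGraph V)
    (col : V → C) (D : Set C) (τ : V → R) (A : Set V) (v : V) (i : ℕ), v ∉ A → col v ∉ D →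
    EX G col D τ (insert v A) i → EX G col D τ (A ∩ G.neighborSet v) i → EX G col D τ A i

/-- JOIN: the join of an acyclic complex with anything is acyclic -/
def M_JOIN : Prop := ∀ (V C R : Type) [Fintype V] [LinearOrder V] [DecidableEq C] [CommRing R] (G : SimpleGraph V)
    (col : V → C) (D : Set C) (τ : V → R) (A B : Set V), (∀ u w, G.Adj u w → col u ≠ col w) →
    (∀ a ∈ A, ∀ b ∈ B, G.Adj a b) → (∀ i, EX G col D τ A i) → ∀ i, EX G col D τ (A ∪ B) i

/-! ### the vanishing statements `V_j` and `c_j` -/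

/-- V0: rank selections of Gorenstein* posets are Cohen-Macaulay -/
def M_V0 : Prop := ∀ (n : ℕ) (V K : Type) [Fintype V] [LinearOrder V] [Field K] [CharP K 2] (r : V → V → Prop)
    (rk : V → Fin n) (τ : V → K), GorStar n r rk → VV n r rk τ 0

/-- VSTEP -/
def M_VSTEP : Prop := ∀ (n : ℕ) (V K : Type) [Fintype V] [LinearOrder V] [Field K] (r : V → V → Prop)
    (rk : V → Fin n) (τ : V → K) (j : ℕ), (∀ x y z, r x y → r y z → r x z) → (∀ x y, r x y → rk x < rk y) →
    2 * (j + 1) ≤ n → VV n r rk τ j → CC n r rk τ j → VV n r rk τ (j + 1)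

/-- CONVA: exactness gives primitives of scalar top cycles -/
def M_CONVA : Prop := ∀ (n : ℕ) (V K : Type) [Fintype V] [LinearOrder V] [Field K] [CharP K 2] (r : V → V → Prop)
    (rk : V → Fin n) (τ : V → K) (N : Set V) (D S : Finset (Fin n)) (s : Fin n), (∀ x y, r x y → rk x < rk y) →
    Disjoint D S → s ∈ S → (∀ i, i + 1 = D.card + S.card →
      EX (cmp r) rk (D : Set (Fin n)) τ (N ∩ {v | rk v ∈ D ∪ S}) i) → PRIM r rk τ N D S s

/-- CONVB: vanishing of scalar top cycles -/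
def M_CONVB : Prop := ∀ (n : ℕ) (V K : Type) [Fintype V] [LinearOrder V] [Field K] [CharP K 2] (r : V → V → Prop)
    (rk : V → Fin n) (τ : V → K) (N : Set V) (D : Finset (Fin n)), (∀ x y, r x y → rk x < rk y) →
    (∀ x, TZ r rk τ N D ∅ x → x = 0) → ∀ z : Finset V → (Fin n → Bool) → K,
    IsLC (cmp r) rk (D : Set (Fin n)) τ (N ∩ {v | rk v ∈ D}) D.card z → bdd z = 0 → z = 0

/-- KEY: there are no nonzero top cycles in odd length `2j+1` with all even ranks double -/
def M_KEY : Prop := ∀ (n : ℕ) (V K : Type) [Fintype V] [LinearOrder V] [Field K] [CharP K 2] (r : V → V → Prop)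
    (rk : V → Fin n) (τ : V → K) (j : ℕ), (∀ x y z, r x y → r y z → r x z) → (∀ x y, r x y → rk x < rk y) →
    (∀ (N : Set V) (m : ℕ), IsN r rk (m + 2) N → ∀ R ∈ N, (rk R : ℕ) = m → {M | M ∈ N ∧ r R M}.ncard = 2) →
    (∀ N : Set V, IsN r rk 1 N → N.ncard = 2) →
    Ind2 {v | Even (rk v : ℕ)} τ →
    (∀ k, k < j → ∀ N : Set V, IsN r rk (2 * k + 2) N → ∀ s : Fin n, (s : ℕ) = 2 * k + 1 →
      PRIM r rk τ N (DblF n k) (RgF n (2 * k) (2 * k + 2)) s) →
    (∀ k, k < j → ∀ N : Set V, IsN r rk (2 * k + 3) N → ∀ s : Fin n, (s : ℕ) = 2 * k + 1 →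
      PRIM r rk τ N (DblF n k) (RgF n (2 * k) (2 * k + 3)) s) →
    ∀ N : Set V, IsN r rk (2 * j + 1) N → ∀ x, TZ r rk τ N (DblF n (j + 1)) ∅ x → x = 0

open Classical in
/-- EULF: the Euler characteristic of the even part vanishes in odd length -/
def M_EULF : Prop := ∀ (n : ℕ) (V : Type) [Fintype V] [LinearOrder V] (r : V → V → Prop) (rk : V → Fin n),
    GorStar n r rk → ∀ (N : Set V) (j : ℕ), IsN r rk (2 * j + 1) N →
    ∑ T : Finset V, (if (cmp r).IsClique (T : Set V) ∧ (T : Set V) ⊆ N ∧ ∀ t ∈ T, Even (rk t : ℕ) then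
      (-1 / 2 : ℚ) ^ T.card else 0) = 0

/-- CSTEP -/
def M_CSTEP : Prop := ∀ (n : ℕ) (V K : Type) [Fintype V] [LinearOrder V] [Field K] [CharP K 2] (r : V → V → Prop)
    (rk : V → Fin n) (τ : V → K) (j : ℕ), GorStar n r rk → VV n r rk τ j →
    (∀ N : Set V, IsN r rk (2 * j + 1) N → ∀ x, TZ r rk τ N (DblF n (j + 1)) ∅ x → x = 0) → CC n r rk τ j

/-! ### combinatorics of Gorenstein* posets -/

/-- EXT: every chain is contained in a maximal chain with `n` elements -/
def M_EXT : Prop := ∀ (n : ℕ) (V : Type) [Fintype V] [LinearOrder V] (r : V → V → Prop) (rk : V → Fin n),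
    GorStar n r rk → ∀ F : Finset V, (cmp r).IsClique (F : Set V) →
    ∃ F' : Finset V, F ⊆ F' ∧ (cmp r).IsClique (F' : Set V) ∧ F'.card = n

/-- INT: lower intervals are Gorenstein* -/
def M_INT : Prop := ∀ (n : ℕ) (V : Type) [Fintype V] [LinearOrder V] (r : V → V → Prop) (rk : V → Fin n),
    GorStar n r rk → ∀ (N : Set V) (m : ℕ), IsN r rk m N → ∀ F : Finset V, (cmp r).IsClique (F : Set V) →
    (F : Set V) ⊆ N → ∀ i : ℕ,
    beta (cmp r) (fun _ => (LinearMap.id : ZMod 2 →ₗ[ZMod 2] ZMod 2)) (lk (cmp r) F ∩ N) ∅ i =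
      if i + F.card = m then 1 else 0

/-- SUBG: lower intervals as Gorenstein* posets on subtypes -/
def M_SUBG : Prop := ∀ (n : ℕ) (V : Type) [Fintype V] [LinearOrder V] (r : V → V → Prop) (rk : V → Fin n),
    GorStar n r rk → ∀ (σ : V) [Fintype ↥{v | r v σ}] (rk' : ↥{v | r v σ} → Fin (rk σ : ℕ)),
    (∀ v, (rk' v : ℕ) = (rk v.1 : ℕ)) → GorStar (rk σ : ℕ) (fun a b : ↥{v | r v σ} => r a.1 b.1) rk'

/-- THIN -/
def M_THIN : Prop := ∀ (n : ℕ) (V : Type) [Fintype V] [LinearOrder V] (r : V → V → Prop) (rk : V → Fin n),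
    GorStar n r rk →
    (∀ (N : Set V) (m : ℕ), IsN r rk (m + 2) N → ∀ R ∈ N, (rk R : ℕ) = m → {M | M ∈ N ∧ r R M}.ncard = 2) ∧
    (∀ N : Set V, IsN r rk 1 N → N.ncard = 2)

/-! ### algebra -/

open Classical in
/-- the generic slopes -/
noncomputable def gen {V : Type} (E : Set V) (v : V) : FractionRing (MvPolynomial ↥E (ZMod 2)) :=
  if h : v ∈ E then algebraMap (MvPolynomial ↥E (ZMod 2)) _ (MvPolynomial.X ⟨v, h⟩) else 0

/-- IND2: generic slopes are independent over the squares -/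
def M_IND2 : Prop := ∀ (V : Type) [Fintype V] [DecidableEq V] (E : Set V), Ind2 E (gen E)

/-- LTR: transport to a subtype -/
def M_LTR : Prop := ∀ (U V C R : Type) [Fintype U] [LinearOrder U] [Fintype V] [LinearOrder V] [DecidableEq C]
    [CommRing R] (G : SimpleGraph V) (H : SimpleGraph U) (col : V → C) (D : Set C) (τ : V → R) (φ : U → V),
    StrictMono φ → (∀ u u', H.Adj u u' ↔ G.Adj (φ u) (φ u')) → (∀ u, col (φ u) ∈ D) → ∀ i,
    EX G col D τ (Set.range φ) i → EX H (fun u => col (φ u)) Set.univ (fun u => τ (φ u)) Set.univ i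

/-- `f` kills the `i`-th homology of all the line complexes -/
def Kills {V C : Type} [Fintype V] [LinearOrder V] [DecidableEq C] (G : SimpleGraph V) (col : V → C) (i : ℕ)
    (f : MvPolynomial V ℤ) : Prop :=
  ∀ (R : Type) [CommRing R] (τ : V → R) (z : Finset V → (C → Bool) → R),
    IsLC G col Set.univ τ Set.univ i z → bdd z = 0 →
    ∃ y : Finset V → (C → Bool) → R, IsLC G col Set.univ τ Set.univ (i + 1) y ∧
      bdd y = fun T ε => MvPolynomial.aeval τ f * z T ε

/-- T1: from generic exactness in characteristic 2 -/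
def M_T1 : Prop := ∀ (V C : Type) [Fintype V] [LinearOrder V] [Fintype C] [DecidableEq C] (G : SimpleGraph V)
    (col : V → C) (i : ℕ), (∀ u w, G.Adj u w → col u ≠ col w) →
    EX G col Set.univ (fun v => algebraMap (MvPolynomial V (ZMod 2)) (FractionRing (MvPolynomial V (ZMod 2)))
      (MvPolynomial.X v)) Set.univ i →
    ∃ f : MvPolynomial V ℤ, f ≠ 0 ∧ Kills G col i f

/-- T2: generic points -/
def M_T2 : Prop := ∀ (V : Type) [Finite V] (f : MvPolynomial V ℤ), f ≠ 0 →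
    ∃ (p : ℕ) (_ : Fact p.Prime), p ≠ 2 ∧ ∃ α β : V → Polynomial (ZMod p), ∀ χ : V → Bool,
      MvPolynomial.aeval (slope α β χ) f ≠ 0

/-- T3: bounded homology over the truncated polynomial rings -/
def M_T3 : Prop := ∀ (p : ℕ) [Fact p.Prime] (V C : Type) [Fintype V] [LinearOrder V] [Fintype C] [DecidableEq C]
    (G : SimpleGraph V) (col : V → C) (i : ℕ) (f : MvPolynomial V ℤ) (α β : V → Polynomial (ZMod p)), p ≠ 2 →
    Kills G col i f → (∀ χ : V → Bool, MvPolynomial.aeval (slope α β χ) f ≠ 0) →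
    ∃ B : ℕ, ∀ (N : ℕ) (χ : V → Bool) (ρ : V → ((C → Bool) → ON p N) →ₗ[ZMod p] ((C → Bool) → ON p N)),
      (∀ v a, ρ v a = - a ↔ OnLine (col v) (Ideal.Quotient.mk _ (slope α β χ v)) a) →
      beta G ρ Set.univ ∅ i ≤ B

/-- T4: finite sets from the representation over the truncated polynomial ring -/
def M_T4 : Prop := ∀ (p : ℕ) [Fact p.Prime] (V C : Type) [Fintype V] [LinearOrder V] [Fintype C] [DecidableEq C]
    (G : SimpleGraph V) (col : V → C) (i N B : ℕ) (α β : V → Polynomial (ZMod p)), p ≠ 2 →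
    (∀ u w, G.Adj u w → col u ≠ col w) →
    (∀ (χ : V → Bool) (ρ : V → ((C → Bool) → ON p N) →ₗ[ZMod p] ((C → Bool) → ON p N)),
      (∀ v a, ρ v a = - a ↔ OnLine (col v) (Ideal.Quotient.mk _ (slope α β χ v)) a) →
      beta G ρ Set.univ ∅ i ≤ B) →
    ∃ (X : Type) (_ : Fintype X) (_ : Nonempty X) (P : PSet p G X),
      N * beta G (pull (ZMod p) P.a) Set.univ ∅ i ≤ B * Fintype.card X

/-- T6: from small mod `p` Betti numbers for one odd prime to `ℓ²` -/
def M_T6 : Prop := ∀ (p : ℕ) [Fact p.Prime] (V : Type) [Fintype V] [LinearOrder V] (G : SimpleGraph V) (i : ℕ),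
    p ≠ 2 → (∀ N : ℕ, ∃ (X : Type) (_ : Fintype X) (_ : Nonempty X) (P : PSet p G X),
      N * beta G (pull (ZMod p) P.a) Set.univ ∅ i ≤ Fintype.card X) → L2Van G i

/-- ODD: adding the elements of odd rank -/
def M_ODD : Prop := ∀ (n : ℕ) (V : Type) [Fintype V] [LinearOrder V] (r : V → V → Prop) (rk : V → Fin n),
    (∀ x y z, r x y → r y z → r x z) → (∀ x y, r x y → rk x < rk y) →
    (∀ σ, Odd (rk σ : ℕ) → ∀ (_ : Fintype ↥{v | r v σ}) (i : ℕ), L2Van ((cmp r).induce {v | r v σ}) i) →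
    ∀ i, (∀ (_ : Fintype ↥{v | Even (rk v : ℕ)}), L2Van ((cmp r).induce {v | Even (rk v : ℕ)}) i) →
    L2Van (cmp r) i

end Pool.Agent.W907.SM
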