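import Pool.Agent.H7.L.W907_SM_Stmts

namespace Pool.Agent.W907.SM

open Pool.Agent.W907.SG

/-! ### vanishing above the middle for all full subcomplexes -/

/-- open intervals; `none` stands for the added bottom (as `x`) or top (as `y`) element -/
def Iv {V : Type} (r : V → V → Prop) (x y : Option V) : Set V := {v | (∀ a ∈ x, r a v) ∧ (∀ b ∈ y, r v b)}

/-- the smallest rank occurring above `x` -/
def lo {n : ℕ} {V : Type} (rk : V → Fin n) (x : Option V) : ℕ :=
  match x with
  | none => 0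
  | some a => (rk a : ℕ) + 1

/-- the rank of `y` -/
def hi {n : ℕ} {V : Type} (rk : V → Fin n) (y : Option V) : ℕ :=
  match y with
  | none => n
  | some b => (rk b : ℕ)

/-- the even ranks in `[a, b)` -/
def EvF (n a b : ℕ) : Finset (Fin n) := Finset.univ.filter (fun c => Even c.val ∧ a ≤ c.val ∧ c.val < b)

/-- INTG: open intervals are Gorenstein* -/
def B_INTG : Prop := ∀ (n : ℕ) (V : Type) [Fintype V] [LinearOrder V] (r : V → V → Prop) (rk : V → Fin n),
    GorStar n r rk → ∀ (x y : Option V) [Fintype ↥(Iv r x y)] (m : ℕ) (rk' : ↥(Iv r x y) → Fin m),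
    (∀ a ∈ x, ∀ b ∈ y, r a b) → m + lo rk x = hi rk y → (∀ v, (rk' v : ℕ) + lo rk x = (rk v.1 : ℕ)) →
    GorStar m (fun a b : ↥(Iv r x y) => r a.1 b.1) rk'

/-- LKG: vertex links are Gorenstein* (after renumbering the ranks) -/
def B_LKG : Prop := ∀ (n : ℕ) (V : Type) [Fintype V] [LinearOrder V] (r : V → V → Prop) (rk : V → Fin n),
    GorStar n r rk → ∀ (v : V) [Fintype ↥((cmp r).neighborSet v)] (m : ℕ) (rk' : ↥((cmp r).neighborSet v) → Fin m),
    m + 1 = n → (∀ u, r u.1 v → (rk' u : ℕ) = (rk u.1 : ℕ)) → (∀ u, r v u.1 → (rk' u : ℕ) + 1 = (rk u.1 : ℕ)) →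
    GorStar m (fun a b : ↥((cmp r).neighborSet v) => r a.1 b.1) rk'

/-- KEYI: no top cycles on the even ranks of intervals with odd (or infinite) ends of odd length, from the case of
the whole poset -/
def B_KEYI : Prop :=
    (∀ (n : ℕ) (V K : Type) [Fintype V] [LinearOrder V] [Field K] [CharP K 2] (r : V → V → Prop)
      (rk : V → Fin n) (τ : V → K) (j : ℕ), GorStar n r rk → n = 2 * j + 1 → Ind2 {v | Even (rk v : ℕ)} τ →
      ∀ x, TZ r rk τ Set.univ (DblF n (j + 1)) ∅ x → x = 0) →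
    ∀ (n : ℕ) (V K : Type) [Fintype V] [LinearOrder V] [Field K] [CharP K 2] (r : V → V → Prop)
      (rk : V → Fin n) (τ : V → K), GorStar n r rk → Ind2 {v | Even (rk v : ℕ)} τ →
      ∀ x y : Option V, (∀ a ∈ x, ∀ b ∈ y, r a b) → Even (lo rk x) → Odd (hi rk y) →
      ∀ z, TZ r rk τ (Iv r x y) (EvF n (lo rk x) (hi rk y)) ∅ z → z = 0

/-- JT: join with a complex without top cycles -/
def B_JT : Prop := ∀ (V C K : Type) [Fintype V] [LinearOrder V] [Fintype C] [DecidableEq C] [Field K]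
    (G : SimpleGraph V) (col : V → C) (D : Set C) (τ : V → K) (X Y : Set V) (a b : ℕ),
    (∀ u w, G.Adj u w → col u ≠ col w) → (∀ x ∈ X, ∀ y ∈ Y, G.Adj x y) → (∀ i, a ≤ i → EX G col D τ X i) →
    (∀ T : Finset V, G.IsClique (T : Set V) → (T : Set V) ⊆ Y → T.card ≤ b) →
    (∀ z : Finset V → (C → Bool) → K, IsLC G col D τ Y b z → bdd z = 0 → z = 0) →
    ∀ i, a + b ≤ i + 1 → EX G col D τ (X ∪ Y) i

/-- ABV: vanishing above the middle for all subsets, odd length -/
def B_ABV : Prop := ∀ (n : ℕ) (V K : Type) [Fintype V] [LinearOrder V] [Field K] [CharP K 2] (r : V → V → Prop)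
    (rk : V → Fin n) (τ : V → K), (∀ x y z, r x y → r y z → r x z) → (∀ x y, r x y → rk x < rk y) →
    (∀ x y : Option V, (∀ a ∈ x, ∀ b ∈ y, r a b) → Even (lo rk x) → Odd (hi rk y) →
      ∀ z, TZ r rk τ (Iv r x y) (EvF n (lo rk x) (hi rk y)) ∅ z → z = 0) →
    ∀ j, n = 2 * j + 1 → ∀ (A : Set V) (i : ℕ), j + 1 ≤ i → EX (cmp r) rk Set.univ τ A i

/-- DESC: from generic slopes on all of `V` to generic slopes on a subset `A` -/
def B_DESC : Prop := ∀ (V C : Type) [Fintype V] [LinearOrder V] [DecidableEq C] (G : SimpleGraph V) (col : V → C)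
    (A : Set V) [Fintype ↥A] (i : ℕ),
    EX G col Set.univ (fun v => algebraMap (MvPolynomial V (ZMod 2)) (FractionRing (MvPolynomial V (ZMod 2)))
      (MvPolynomial.X v)) A i →
    EX (G.induce A) (fun v => col v.1) Set.univ (fun v => algebraMap (MvPolynomial ↥A (ZMod 2))
      (FractionRing (MvPolynomial ↥A (ZMod 2))) (MvPolynomial.X v)) Set.univ i

/-- GENIND: generic slopes on all of `V` are independent over the squares -/
def B_GENIND : Prop := ∀ (V : Type) [Fintype V] [DecidableEq V] (E : Set V),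
    Ind2 E (fun v => algebraMap (MvPolynomial V (ZMod 2)) (FractionRing (MvPolynomial V (ZMod 2)))
      (MvPolynomial.X v))

/-- EVN: all lengths from odd lengths -/
def B_EVN : Prop :=
    (∀ (n : ℕ) (V : Type) [Fintype V] [LinearOrder V] (r : V → V → Prop) (rk : V → Fin n), GorStar n r rk → Odd n →
      ∀ (A : Set V) [Fintype ↥A] (i : ℕ), n < 2 * i → L2Van ((cmp r).induce A) i) →
    ∀ (n : ℕ) (V : Type) [Fintype V] [LinearOrder V] (r : V → V → Prop) (rk : V → Fin n), GorStar n r rk →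
      ∀ (A : Set V) [Fintype ↥A] (i : ℕ), n < 2 * i → L2Van ((cmp r).induce A) i

end Pool.Agent.W907.SM
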