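import Pool.Agent.H7.L.TH652_Dual7

/-!
# Betti numbers of the subgroups of finite index of right-angled Coxeter groups
-/

set_option autoImplicit false

namespace Pool.Agent.Y132.SI

open Module Pool.Agent.W907.SG Pool.Agent.W907.SM Pool.Agent.W461.SGN Pool.Agent.W397.SG

/-- The space of the real harmonic `i`-chains of the Davis complex of `W G` which are invariant under the subgroup
`H`.  `c w T` is the coefficient of the cube `w W_T` with the orientation given by the corner `w` and the order of
`T`.  If `H` has finite index then, by the Hodge theorem, its dimension is the `i`-th real Betti number of `H`. -/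
def HInv {V : Type} [Fintype V] [LinearOrder V] (G : SimpleGraph V) (H : Subgroup (W G)) (i : ℕ) :
    Submodule ℝ (W G → Finset V → ℝ) where
  carrier := {c | (∀ h ∈ H, ∀ w T, c (h * w) T = c w T) ∧
    (∀ w (T : Finset V), ¬ (G.IsClique (T : Set V) ∧ T.card = i) → c w T = 0) ∧
    (∀ w (T : Finset V) t, t ∈ T → c (w * (cox G).simple t) T = - c w T) ∧
    (∀ w (T : Finset V), ∑ v ∈ Tᶜ, (sg v T : ℝ) * c w (insert v T) = 0) ∧
    (∀ w (T : Finset V), G.IsClique (T : Set V) →
      ∑ t ∈ T, (sg t (T.erase t) : ℝ) * (c w (T.erase t) - c (w * (cox G).simple t) (T.erase t)) = 0)}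
  add_mem' := by
    rintro c d ⟨h1, h2, h3, h4, h5⟩ ⟨g1, g2, g3, g4, g5⟩
    refine ⟨fun h hh w T => ?_, fun w T hT => ?_, fun w T t ht => ?_, fun w T => ?_, fun w T hT => ?_⟩
    · simp only [Pi.add_apply, h1 h hh, g1 h hh]
    · simp only [Pi.add_apply, h2 w T hT, g2 w T hT, add_zero]
    · simp only [Pi.add_apply, h3 w T t ht, g3 w T t ht]; ring
    · have := congrArg₂ (· + ·) (h4 w T) (g4 w T)
      simp only [add_zero] at this
      rw [← Finset.sum_add_distrib] at this
      rw [← this]
      exact Finset.sum_congr rfl fun v _ => by simp only [Pi.add_apply]; ring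
    · have := congrArg₂ (· + ·) (h5 w T hT) (g5 w T hT)
      simp only [add_zero] at this
      rw [← Finset.sum_add_distrib] at this
      rw [← this]
      exact Finset.sum_congr rfl fun v _ => by simp only [Pi.add_apply]; ring
  zero_mem' := by
    refine ⟨fun h hh w T => rfl, fun w T hT => rfl, fun w T t ht => ?_, fun w T => ?_, fun w T hT => ?_⟩
    · simp
    · simp
    · simp
  smul_mem' := by
    rintro r c ⟨h1, h2, h3, h4, h5⟩
    refine ⟨fun h hh w T => ?_, fun w T hT => ?_, fun w T t ht => ?_, fun w T => ?_, fun w T hT => ?_⟩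
    · simp only [Pi.smul_apply, h1 h hh]
    · simp only [Pi.smul_apply, h2 w T hT, smul_zero]
    · simp only [Pi.smul_apply, h3 w T t ht, smul_neg]
    · have := congrArg (fun x => r * x) (h4 w T)
      simp only [mul_zero, Finset.mul_sum] at this
      rw [← this]
      exact Finset.sum_congr rfl fun v _ => by simp only [Pi.smul_apply, smul_eq_mul]; ring
    · have := congrArg (fun x => r * x) (h5 w T hT)
      simp only [mul_zero, Finset.mul_sum] at this
      rw [← this]
      exact Finset.sum_congr rfl fun v _ => by simp only [Pi.smul_apply, smul_eq_mul]; ring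

section

variable {V : Type} (G : SimpleGraph V) (H : Subgroup (W G))

/-- the right action of `W G` on `H \ W G` -/
noncomputable def ev (x : Quotient (QuotientGroup.rightRel H)) (g : W G) : Quotient (QuotientGroup.rightRel H) :=
  Quotient.map' (s₁ := QuotientGroup.rightRel H) (s₂ := QuotientGroup.rightRel H) (fun w => w * g)
    (fun a b hab => by
      rw [QuotientGroup.rightRel_apply] at hab ⊢
      rw [mul_inv_rev, mul_assoc, mul_inv_cancel_left]
      exact hab) x

theorem ev_mk (w g : W G) : ev G H (Quotient.mk'' w) g = Quotient.mk'' (w * g) := rfl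

theorem ev_one (x : Quotient (QuotientGroup.rightRel H)) : ev G H x 1 = x := by
  induction x using Quotient.inductionOn' with
  | h w => rw [ev_mk, mul_one]

theorem ev_mul (x : Quotient (QuotientGroup.rightRel H)) (g h : W G) :
    ev G H x (g * h) = ev G H (ev G H x g) h := by
  induction x using Quotient.inductionOn' with
  | h w => rw [ev_mk, ev_mk, ev_mk, mul_assoc]

/-- the generators -/
noncomputable def aa (v : V) (x : Quotient (QuotientGroup.rightRel H)) : Quotient (QuotientGroup.rightRel H) :=
  ev G H x ((cox G).simple v)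

theorem aa_mk (v : V) (w : W G) : aa G H v (Quotient.mk'' w) = Quotient.mk'' (w * (cox G).simple v) := rfl

theorem aa_inv (v : V) (x : Quotient (QuotientGroup.rightRel H)) : aa G H v (aa G H v x) = x := by
  unfold aa
  rw [← ev_mul, simple_mul_self, ev_one]

theorem aa_comm (u v : V) (h : G.Adj u v) (x : Quotient (QuotientGroup.rightRel H)) :
    aa G H u (aa G H v x) = aa G H v (aa G H u x) := by
  unfold aa
  rw [← ev_mul, ← ev_mul, simple_comm G u v h]

theorem ev_free {g : W G} (hg : ∀ x : W G, x * g * x⁻¹ ∉ H) (x : Quotient (QuotientGroup.rightRel H)) :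
    ev G H x g ≠ x := by
  induction x using Quotient.inductionOn' with
  | h w =>
    rw [ev_mk]
    intro h
    have h1 := Quotient.exact' h
    rw [QuotientGroup.rightRel_apply] at h1
    have h2 := H.inv_mem h1
    rw [mul_inv_rev, inv_inv] at h2
    exact hg w h2

open Classical in
/-- the sign -/
noncomputable def sn (hH : H ≤ commutator (W G)) (v : V) (x : Quotient (QuotientGroup.rightRel H)) : Bool :=
  Quotient.liftOn' x (fun w => decide (th G w v = -1)) (fun a b hab => by
    rw [QuotientGroup.rightRel_apply] at hab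
    have h1 : b * a⁻¹ ∈ (th G).ker := by
      refine (Abelianization.commutator_subset_ker (th G)) (hH hab)
    rw [MonoidHom.mem_ker, map_mul, map_inv] at h1
    have h2 : th G b = th G a := mul_inv_eq_one.1 h1
    rw [h2])

theorem sn_mk (hH : H ≤ commutator (W G)) (v : V) (w : W G) :
    sn G H hH v (Quotient.mk'' w) = decide (th G w v = -1) := rfl

theorem sn_self (hH : H ≤ commutator (W G)) (v : V) (x : Quotient (QuotientGroup.rightRel H)) :
    sn G H hH v (aa G H v x) = !(sn G H hH v x) := by
  induction x using Quotient.inductionOn' with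
  | h w =>
    rw [aa_mk, sn_mk, sn_mk, th_self]
    rcases Int.units_eq_one_or (th G w v) with h | h <;> rw [h] <;> decide

theorem sn_other (hH : H ≤ commutator (W G)) (u v : V) (huv : u ≠ v) (x : Quotient (QuotientGroup.rightRel H)) :
    sn G H hH u (aa G H v x) = sn G H hH u x := by
  induction x using Quotient.inductionOn' with
  | h w => rw [aa_mk, sn_mk, sn_mk, th_other G w u v huv]

end

/-- the pull-back of functions -/
noncomputable def PB {V : Type} (G : SimpleGraph V) (H : Subgroup (W G)) :
    (Quotient (QuotientGroup.rightRel H) → Finset V → ℝ) →ₗ[ℝ] (W G → Finset V → ℝ) where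
  toFun c w T := c (Quotient.mk'' w) T
  map_add' _ _ := rfl
  map_smul' _ _ := rfl

/-- the Hodge theorem -/
theorem finrank_HInv {V : Type} [Fintype V] [LinearOrder V] (G : SimpleGraph V) (H : Subgroup (W G))
    [Fintype (Quotient (QuotientGroup.rightRel H))] (i : ℕ) :
    finrank ℝ (HInv G H i) = beta G (pull ℝ (aa G H)) Set.univ ∅ i := by
  rw [← hodr V _ G (aa G H) (aa_inv G H) (fun u v h x => aa_comm G H u v h x) i
    ((HInv G H i).comap (PB G H)) ?_]
  · have hinj : Function.Injective (PB G H) := by
      intro c d h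
      funext x T
      induction x using Quotient.inductionOn' with
      | h w => exact congrFun (congrFun h w) T
    have hmap : ((HInv G H i).comap (PB G H)).map (PB G H) = HInv G H i := by
      rw [Submodule.map_comap_eq]
      refine inf_eq_right.2 ?_
      intro c hc
      refine ⟨fun x T => Quotient.liftOn' x (fun w => c w T) (fun a b hab => ?_), rfl⟩
      rw [QuotientGroup.rightRel_apply] at hab
      have h1 := hc.1 _ hab a T
      rw [inv_mul_cancel_right] at h1
      exact h1.symm
    have e := (Submodule.equivMapOfInjective (PB G H) hinj ((HInv G H i).comap (PB G H))).finrank_eq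
    rw [hmap] at e
    exact e.symm
  · intro c
    rw [Submodule.mem_comap]
    constructor
    · rintro ⟨_, h2, h3, h4, h5⟩
      refine ⟨fun x T hT => ?_, fun x T t ht => ?_, fun x T => ?_, fun x T hT => ?_⟩
      · induction x using Quotient.inductionOn' with
        | h w => exact h2 w T hT
      · induction x using Quotient.inductionOn' with
        | h w => exact h3 w T t ht
      · induction x using Quotient.inductionOn' with
        | h w => exact h4 w T
      · induction x using Quotient.inductionOn' with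
        | h w => exact h5 w T hT
    · rintro ⟨h2, h3, h4, h5⟩
      refine ⟨fun h hh w T => ?_, fun w T hT => h2 _ T hT, fun w T t ht => h3 (Quotient.mk'' w) T t ht,
        fun w T => h4 (Quotient.mk'' w) T, fun w T hT => h5 (Quotient.mk'' w) T hT⟩
      show c (Quotient.mk'' (h * w)) T = c (Quotient.mk'' w) T
      have : (Quotient.mk'' (h * w) : Quotient (QuotientGroup.rightRel H)) = Quotient.mk'' w := by
        refine Quotient.sound' ?_
        rw [QuotientGroup.rightRel_apply, mul_inv_rev, mul_inv_cancel_left]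
        exact H.inv_mem hh
      rw [this]

/-- growth of the Betti numbers -/
theorem growth {V : Type} [Fintype V] [LinearOrder V] (G : SimpleGraph V) (n : ℕ)
    (hL : ∀ i : ℕ, 2 * i ≠ n → L2Van G i) (ε : ℝ) (hε : 0 < ε) :
    ∃ E : Finset (W G), (1 : W G) ∉ E ∧ ∀ H : Subgroup (W G), H ≤ commutator (W G) → H.FiniteIndex →
      (∀ g ∈ E, ∀ x : W G, x * g * x⁻¹ ∉ H) → ∀ i : ℕ,
        |(finrank ℝ (HInv G H i) : ℝ) - (if 2 * i = n then (-1) ^ i * (chiW G : ℝ) else 0) * H.index| ≤
          ε * H.index := by
  classical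
  obtain ⟨K, hK⟩ : ∃ K : ℕ, K = Fintype.card V + 1 := ⟨_, rfl⟩
  obtain ⟨N, hN⟩ := exists_nat_gt ((K : ℝ) / ε)
  have hNK : (K : ℝ) < N * ε := (div_lt_iff₀ hε).1 hN
  have hN0 : (0 : ℝ) < N := lt_of_le_of_lt (by positivity) hN
  have h1 : ∀ i : ℕ, ∃ Ei : Finset (W G), (1 : W G) ∉ Ei ∧ (2 * i ≠ n →
      ∀ (X : Type) [Fintype X] (a : V → X → X) (ev : X → W G → X),
      (∀ v x, a v (a v x) = x) → (∀ u v, G.Adj u v → ∀ x, a u (a v x) = a v (a u x)) →
      (∀ x, ev x 1 = x) → (∀ x g h, ev x (g * h) = ev (ev x g) h) →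
      (∀ x v, ev x ((cox G).simple v) = a v x) →
      (∀ g ∈ Ei, ∀ x, ev x g ≠ x) → N * beta G (pull ℝ a) Set.univ ∅ i ≤ Fintype.card X) := by
    intro i
    by_cases hi : 2 * i = n
    · exact ⟨∅, Finset.notMem_empty _, fun h => absurd hi h⟩
    · obtain ⟨Ei, h2, h3⟩ := small V G i (hL i hi) N
      exact ⟨Ei, h2, fun _ => h3⟩
  choose Ef hEf1 hEf2 using h1
  refine ⟨(Finset.range K).biUnion Ef, ?_, ?_⟩
  · rw [Finset.mem_biUnion]
    rintro ⟨i, _, h⟩
    exact hEf1 i h
  intro H hH hfin hE i
  haveI : Finite (Quotient (QuotientGroup.rightRel H)) :=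
    Finite.of_equiv _ (QuotientGroup.quotientRightRelEquivQuotientLeftRel H).symm
  letI : Fintype (Quotient (QuotientGroup.rightRel H)) := Fintype.ofFinite _
  have hcard : (Fintype.card (Quotient (QuotientGroup.rightRel H)) : ℝ) = H.index := by
    rw [← Nat.card_eq_fintype_card, Nat.card_congr (QuotientGroup.quotientRightRelEquivQuotientLeftRel H)]
    rfl
  have hidx : (0 : ℝ) ≤ H.index := Nat.cast_nonneg _
  obtain ⟨b, hb⟩ : ∃ b : ℕ → ℝ, ∀ j, b j = (beta G (pull ℝ (aa G H)) Set.univ ∅ j : ℝ) := ⟨_, fun _ => rfl⟩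
  have hb0 : ∀ j, 0 ≤ b j := fun j => by rw [hb]; exact Nat.cast_nonneg _
  have hsmall : ∀ j, j < K → 2 * j ≠ n → N * b j ≤ H.index := by
    intro j hj hjn
    have h2 := hEf2 j hjn _ (aa G H) (ev G H) (aa_inv G H) (fun u v h x => aa_comm G H u v h x)
      (ev_one G H) (ev_mul G H) (fun _ _ => rfl) (fun g hg x => ev_free G H (fun y =>
        hE g (Finset.mem_biUnion.2 ⟨j, Finset.mem_range.2 hj, hg⟩) y) x)
    rw [hb, ← hcard]
    exact_mod_cast h2
  have hbig : ∀ j, K ≤ j → b j = 0 := by
    intro j hj
    rw [hb, beta_big G _ Set.univ ∅ (by omega), Nat.cast_zero]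
  have heul : ∑ j ∈ Finset.range K, (-1 : ℝ) ^ j * b j = H.index * (chiW G : ℝ) := by
    have h3 := Pool.Agent.W723.SM.beta_sum (two_ne_zero : (2 : ℝ) ≠ 0) G (aa G H) (sn G H hH) (aa_inv G H)
      (fun u v h x => aa_comm G H u v h x) (sn_self G H hH) (fun u v h x => sn_other G H hH u v h x)
    have h4 := congrArg (fun q : ℚ => (q : ℝ)) h3
    push_cast at h4
    rw [hcard] at h4
    rw [← h4, hK]
    exact Finset.sum_congr rfl fun j _ => by rw [hb]
  have hle : ∀ j ∈ Finset.range K, 2 * j ≠ n → b j ≤ H.index / N := by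
    intro j hj hjn
    rw [le_div_iff₀ hN0, mul_comm]
    exact hsmall j (Finset.mem_range.1 hj) hjn
  have hsum : ∀ S : Finset ℕ, S ⊆ Finset.range K → (∀ j ∈ S, 2 * j ≠ n) →
      |∑ j ∈ S, (-1 : ℝ) ^ j * b j| ≤ ε * H.index := by
    intro S hS hSn
    calc |∑ j ∈ S, (-1 : ℝ) ^ j * b j| ≤ ∑ j ∈ S, |(-1 : ℝ) ^ j * b j| := Finset.abs_sum_le_sum_abs _ _
      _ = ∑ j ∈ S, b j := Finset.sum_congr rfl fun j _ => by
          rw [abs_mul, abs_pow, abs_neg, abs_one, one_pow, one_mul, abs_of_nonneg (hb0 j)]
      _ ≤ ∑ _j ∈ S, (H.index : ℝ) / N := Finset.sum_le_sum fun j hj => hle j (hS hj) (hSn j hj)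
      _ = S.card * ((H.index : ℝ) / N) := by rw [Finset.sum_const, nsmul_eq_mul]
      _ ≤ K * ((H.index : ℝ) / N) := by
          refine mul_le_mul_of_nonneg_right ?_ (by positivity)
          have := Finset.card_le_card hS
          rw [Finset.card_range] at this
          exact_mod_cast this
      _ ≤ (N * ε) * ((H.index : ℝ) / N) := mul_le_mul_of_nonneg_right hNK.le (by positivity)
      _ = ε * H.index := by field_simp
  rw [finrank_HInv, ← hb]
  by_cases hi : 2 * i = n
  · rw [if_pos hi]
    by_cases hiK : i < K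
    · have hmem : i ∈ Finset.range K := Finset.mem_range.2 hiK
      have h5 := hsum ((Finset.range K).erase i) (Finset.erase_subset _ _) (fun j hj => by
        have := Finset.ne_of_mem_erase hj
        omega)
      rw [← Finset.add_sum_erase _ _ hmem] at heul
      have h6 : b i - (-1) ^ i * (chiW G : ℝ) * H.index =
          - ((-1) ^ i * ∑ j ∈ (Finset.range K).erase i, (-1 : ℝ) ^ j * b j) := by
        have h7 : ((-1 : ℝ) ^ i) * (-1) ^ i = 1 := by
          rw [← mul_pow]; norm_num
        have h8 : b i = (-1) ^ i * ((-1) ^ i * b i) := by rw [← mul_assoc, h7, one_mul]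
        have h9 : (-1 : ℝ) ^ i * b i = H.index * (chiW G : ℝ) -
          ∑ j ∈ (Finset.range K).erase i, (-1 : ℝ) ^ j * b j := by linarith
        rw [h8, h9]
        ring
      rw [h6, abs_neg, abs_mul, abs_pow, abs_neg, abs_one, one_pow, one_mul]
      exact h5
    · rw [hbig i (by omega)]
      have h5 := hsum (Finset.range K) le_rfl (fun j hj => by
        have := Finset.mem_range.1 hj
        omega)
      rw [heul] at h5
      rw [zero_sub, abs_neg, mul_assoc, abs_mul, abs_pow, abs_neg, abs_one, one_pow, one_mul, mul_comm]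
      exact h5
  · rw [if_neg hi, zero_mul, sub_zero, abs_of_nonneg (hb0 i)]
    by_cases hiK : i < K
    · refine (hle i (Finset.mem_range.2 hiK) hi).trans ?_
      rw [div_le_iff₀ hN0]
      have hK1 : (1 : ℝ) ≤ K := by rw [hK]; push_cast; linarith [Nat.cast_nonneg (α := ℝ) (Fintype.card V)]
      nlinarith
    · rw [hbig i (by omega)]
      positivity

end Pool.Agent.Y132.SI
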